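import Pool.Agent.RSM2.TP

/-!
# RSM2 module A1: the 1-form of step (a)

`Ω = a(A) (u dy - v dx) + x a'(A) (u dB - v dA)`.

PROOF of `omega_identity`.  `J f im = f_x`, `J f re = -f_y`; Leibniz and chain rules; `J A B =
A_x B_y - A_y B_x = A_x² + ε² A_y²`, `J u B = u_x A_x + ε² u_y A_y`.  With `h = x a'(A)`:
`J h B = a'(A) B_y + x a''(A) J A B`, `J h A = a'(A) A_y`.
PROOF of `omega_flux`.  Put `g = a ∘ A`, `h = re · (a' ∘ A)` (nice functions: `Nice.comp`,
`Nice.mul`), `n = v - τ u → κ`, `m = im - τ re → c`, `b₁ = B - τ A → b` at the hole `H`.  By the rules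
of J4:
`Fl (g u) im = τ Fl (g u) re + Fl (g u) m = τ Fl (g u) re`;
`Fl (g v) re = τ Fl (g u) re + Fl (g n) re`, `Fl (g n) re = κ Fl g re + Fl (g (n - κ)) re =
κ Fl g re` (`g (n - κ) → 0` at `H`: `g` is bounded on `D ∩ T`; if `T` is not a neighbourhood of `H` use
that `tsupport X ⊆ T` is one); `Fl (h u) B = τ Fl (h u) A`; `Fl (h v) A = τ Fl (h u) A + κ Fl h A`.
So the total is `-κ (Fl g re + Fl h A)`.  Finally `Fl h A = Fl re (a ∘ A)` (chain rule, pointwise:
both integrands are `a'(A) J (X re) A`... precisely `J (X re) (a ∘ A) = a'(A) J (X re) A` and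
`J (X re a'(A)) A = a'(A) J (X re) A + X re a''(A) J A A`), and
`Fl g re + Fl re g = 0` (`Fl_swap`).
-/

open Complex Set Metric Filter Topology MeasureTheory

namespace RSM2

theorem a1_deriv {a : ℝ → ℝ} (ha : ContDiff ℝ 3 a) : ContDiff ℝ 2 (deriv a) := by
  have h3 : ContDiff ℝ (2 + 1) a := by
    have e : (2 + 1 : WithTop ℕ∞) = 3 := by norm_num
    rw [e]
    exact ha
  exact (contDiff_succ_iff_deriv.1 h3).2.2

theorem omega_identity {A B u v : ℂ → ℝ} {a : ℝ → ℝ} {ε : ℝ} {z : ℂ} (ha : ContDiff ℝ 3 a)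
    (hA : DifferentiableAt ℝ A z) (hB : DifferentiableAt ℝ B z) (hu : DifferentiableAt ℝ u z)
    (hv : DifferentiableAt ℝ v z) (h1 : dY B z = dX A z) (h2 : dX B z = -ε ^ 2 * dY A z) :
    J (fun w => a (A w) * u w) (fun w => w.im) z - J (fun w => a (A w) * v w) (fun w => w.re) z +
      J (fun w => w.re * deriv a (A w) * u w) B z -
      J (fun w => w.re * deriv a (A w) * v w) A z =
    a (A z) * (dX u z + dY v z) + 2 * deriv a (A z) * u z * dX A z +
      z.re * deriv (deriv a) (A z) * u z * (dX A z ^ 2 + ε ^ 2 * dY A z ^ 2) +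
      z.re * deriv a (A z) * (dX u z * dX A z + ε ^ 2 * (dY u z * dY A z) -
        dX v z * dY A z + dY v z * dX A z) := by
  have hda : DifferentiableAt ℝ a (A z) := ha.contDiffAt.differentiableAt (by norm_num)
  have hda' : DifferentiableAt ℝ (deriv a) (A z) :=
    (a1_deriv ha).contDiffAt.differentiableAt (by norm_num)
  have hre : DifferentiableAt ℝ (fun w : ℂ => w.re) z := Complex.reCLM.differentiableAt
  have hg : DifferentiableAt ℝ (fun w => a (A w)) z := hda.comp z hA
  have hg' : DifferentiableAt ℝ (fun w => deriv a (A w)) z := hda'.comp z hA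
  have hh : DifferentiableAt ℝ (fun w : ℂ => w.re * deriv a (A w)) z := hre.mul hg'
  unfold J
  rw [dX_mul hg hu, dY_mul hg hu, dX_mul hg hv, dY_mul hg hv, dX_mul hh hu, dY_mul hh hu,
    dX_mul hh hv, dY_mul hh hv, dX_mul hre hg', dY_mul hre hg', dX_comp hda hA, dY_comp hda hA,
    dX_comp hda' hA, dY_comp hda' hA, dX_im, dY_im, dX_re, dY_re, h1, h2]
  ring

theorem a1_ev {D H T : Set ℂ} {X : ℂ → ℝ} (hX : HoleCut D H T X) :
    ∀ᶠ z in nearIn D H, z ∈ D ∩ T := by
  have h1 : ∀ᶠ z in 𝓝ˢ H, z ∈ T := by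
    filter_upwards [hX.one] with z hz
    refine (hX.supp (subset_tsupport X ?_)).1
    rw [Function.mem_support, hz]
    exact one_ne_zero
  have h2 : ∀ᶠ z in nearIn D H, z ∈ T := h1.filter_mono inf_le_left
  have h3 : ∀ᶠ z in nearIn D H, z ∈ D := (eventually_principal.2 fun _ h => h).filter_mono inf_le_right
  filter_upwards [h2, h3] with z hz hz'
  exact ⟨hz', hz⟩

theorem a1_mix {D H T : Set ℂ} {X : ℂ → ℝ} {r : ℝ} (hX : HoleCut D H T X)
    (hT : T ⊆ closedBall 0 r) {G b u v : ℂ → ℝ} (hG : Nice D T G) (hb : Nice D T b)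
    (hu : Nice D T u) (hv : Nice D T v) {τ κ : ℝ}
    (h1 : Tendsto (fun z => v z - τ * u z) (nearIn D H) (𝓝 κ)) :
    Fl D X (fun w => G w * v w) b =
      τ * Fl D X (fun w => G w * u w) b + κ * Fl D X G b := by
  have hD := hX.openD
  have hGu : Nice D T (fun w => G w * u w) := hG.mul hD hu
  have hn : Nice D T (fun z => v z - τ * u z - κ) :=
    (hv.sub hD (hu.const_mul hD τ)).sub hD (Nice.const hD hT κ)
  have hGn : Nice D T (fun w => G w * (v w - τ * u w - κ)) := hG.mul hD hn
  have hlim : Tendsto (fun w => G w * (v w - τ * u w - κ)) (nearIn D H) (𝓝 0) := by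
    obtain ⟨M, hM⟩ := hG.bdd
    have h2 : Tendsto (fun z => v z - τ * u z - κ) (nearIn D H) (𝓝 0) := by
      have := h1.sub_const κ
      rwa [sub_self] at this
    refine bdd_le_mul_tendsto_zero' M ?_ h2
    filter_upwards [a1_ev hX] with z hz using hM z hz
  have e : Fl D X (fun w => G w * v w) b =
      Fl D X (fun w => (τ * (G w * u w) + κ * G w) + G w * (v w - τ * u w - κ)) b := by
    apply Fl_congr hX _ (fun _ _ => rfl)
    intro w _
    show G w * v w = (τ * (G w * u w) + κ * G w) + G w * (v w - τ * u w - κ)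
    ring
  rw [e, Fl_add_left hX ((hGu.const_mul hD τ).add hD (hG.const_mul hD κ)) hGn hb,
    Fl_add_left hX (hGu.const_mul hD τ) (hG.const_mul hD κ) hb, Fl_smul_left hX hGu hb,
    Fl_smul_left hX hG hb, Fl_of_tendsto_left hX hGn hb hlim, add_zero]

theorem a1_right {D H T : Set ℂ} {X : ℂ → ℝ} (hX : HoleCut D H T X) {G b c : ℂ → ℝ}
    (hG : Nice D T G) (hb : Nice D T b) (hc : Nice D T c) {τ κ : ℝ}
    (h1 : Tendsto (fun z => b z - τ * c z) (nearIn D H) (𝓝 κ)) :
    Fl D X G b = τ * Fl D X G c := by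
  have hD := hX.openD
  have hn : Nice D T (fun z => b z - τ * c z) := hb.sub hD (hc.const_mul hD τ)
  have e : Fl D X G b = Fl D X G (fun z => τ * c z + (b z - τ * c z)) := by
    apply Fl_congr hX (fun _ _ => rfl)
    intro w _
    show b w = τ * c w + (b w - τ * c w)
    ring
  rw [e, Fl_add_right hX hG (hc.const_mul hD τ) hn, Fl_smul_right hX hG hc,
    Fl_of_tendsto_right hX hG hn h1, add_zero]

theorem omega_flux {D H T : Set ℂ} {X : ℂ → ℝ} {r : ℝ} (hX : HoleCut D H T X)
    (hT : T ⊆ closedBall 0 r) {A B u v : ℂ → ℝ} {a : ℝ → ℝ} (ha : ContDiff ℝ 3 a)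
    (hA : Nice D T A) (hB : Nice D T B) (hu : Nice D T u) (hv : Nice D T v) {τ κ b c : ℝ}
    (h1 : Tendsto (fun z => v z - τ * u z) (nearIn D H) (𝓝 κ))
    (h2 : Tendsto (fun z => B z - τ * A z) (nearIn D H) (𝓝 b))
    (h3 : Tendsto (fun z : ℂ => z.im - τ * z.re) (nearIn D H) (𝓝 c)) :
    Fl D X (fun w => a (A w) * u w) (fun w => w.im) -
      Fl D X (fun w => a (A w) * v w) (fun w => w.re) +
      Fl D X (fun w => w.re * deriv a (A w) * u w) B -
      Fl D X (fun w => w.re * deriv a (A w) * v w) A = 0 := by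
  have hD := hX.openD
  have ha2 : ContDiff ℝ 2 a := ha.of_le (by norm_num)
  have hre : Nice D T (fun z => z.re) := Nice.re hD hT
  have him : Nice D T (fun z => z.im) := Nice.im hD hT
  have hg : Nice D T (fun w => a (A w)) := hA.comp hD ha2
  have hg' : Nice D T (fun w => deriv a (A w)) := hA.comp hD (a1_deriv ha)
  have hh : Nice D T (fun w => w.re * deriv a (A w)) := hre.mul hD hg'
  have e1 := a1_right hX (hg.mul hD hu) him hre h3
  have e2 := a1_mix hX hT hg hre hu hv h1
  have e3 := a1_right hX (hh.mul hD hu) hB hA h2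
  have e4 := a1_mix hX hT hh hA hu hv h1
  have e5 : Fl D X (fun w => w.re * deriv a (A w)) A =
      Fl D X (fun w => w.re) (fun w => a (A w)) := by
    unfold Fl
    apply setIntegral_congr_fun hD.measurableSet
    intro z hz
    have hdA := J4_diff hD hA.smooth hz
    have hda : DifferentiableAt ℝ a (A z) := ha.contDiffAt.differentiableAt (by norm_num)
    have hda' : DifferentiableAt ℝ (deriv a) (A z) :=
      (a1_deriv ha).contDiffAt.differentiableAt (by norm_num)
    have hdg' : DifferentiableAt ℝ (fun w => deriv a (A w)) z := hda'.comp z hdA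
    have hdre : DifferentiableAt ℝ (fun w : ℂ => w.re) z := Complex.reCLM.differentiableAt
    have hdX := J4_diffX hX z
    have hdXr : DifferentiableAt ℝ (fun w => X w * w.re) z := hdX.mul hdre
    have e6 : (fun w : ℂ => X w * (w.re * deriv a (A w))) =
        fun w => (X w * w.re) * deriv a (A w) := by
      funext w
      ring
    show J (fun w => X w * (w.re * deriv a (A w))) A z =
      J (fun w => X w * w.re) (fun w => a (A w)) z
    rw [e6, J_mul_left hdXr hdg', J_comp_left hda' hdA, J_self, J_comp_right hda hdA]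
    ring
  have e7 := Fl_swap hX hg hre
  rw [e1, e2, e3, e4, e5, e7]
  ring

end RSM2
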