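import Pool.Agent.RSM2.TP

/-!
# RSM2 module C5: `A` is uniformly close to `y` (up to a constant)

PROOF.  `D = (SF)ᶜ`; the slits are in `|x| ≤ R`, `|y| ≤ R`.  Let `0 < η`, without restriction `η ≤ R`.
(1) CHOICE OF `M`: `M ≥ 1` depends on `R, η`, see below.  Let `ε ≤ ε₀`, with `ε₀ (M + 2) ≤ 1`.
The region `{-(M+2)R ≤ x ≤ -2R, |y| ≤ 3R}` contains no slits and
`∫∫ (A_y - 1)² ≤ 200 R²` there; so there is `x₁ ∈ [-(M+2)R, -2R]` with
`∫_{|y| ≤ 3R} (A_y (x₁, y) - 1)² dy ≤ 200 R²/(M R) = 200 R/M`, and by Cauchy-Schwarz, for `|y| ≤ 3R`,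
`|A (x₁, y) - y - c₁| ≤ √(3R) √(200 R/M) ≤ 25 R/√M ≤ η/8`, `c₁ = A (x₁, 0)`.
(2) On `|x| ≤ (M+2)R`, `|y| ≤ 3R`: `|A| ≤ ε (M+2) R + 3R + 8R ≤ 12 R`, `|c₁| ≤ 12R`.
(3) DRIFT: let `β ≥ 0` be a `C^∞` function on the line with compact support in `(-3R, 3R)`, and
`a_β (x) = ∫ β(s) A(x, s) ds`.  For a `C^∞` function `ζ ≥ 0` with compact support in
`(-(M+3)R, 3R)` apply `drift` to `φ (x + iy) = ζ(x) β(y)`:
`∫_D ∂_x (φ A) = ∫_D ζ' β A + ∫_D ζ β A_x`, and `jump φ = -∫_D ζ β' A - ∫_D ζ β A_y ≤ ∫_D ζ |β'| |A|`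
(`A_y ≥ 0` since `A` is nondecreasing in `y`).  So
`|∫ ζ'(x) a_β(x) dx| ≤ ∫_D ζ β |A_x| + ε ∫_D ζ |β'| |A|`.  `a_β` is continuous (bounded convergence: for fixed
`x` only finitely many points `(x, s)` are on slits, and `A` is bounded on bounded sets).  Let `ζ`
tend to the indicator function of `[x', x'']`:
`|a_β(x'') - a_β(x')| ≤ ∫_{x' ≤ x ≤ x''} β |A_x| + ε ∫_{x' ≤ x ≤ x''} |β'| |A|`, for
`-(M+2)R ≤ x' ≤ x'' ≤ 2R`, and the right side is at most
`sup β √((M+4)R · 6R) √(200) ε R + ε (M+4) R · 6R · sup |β'| · 12 R`.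
(4) WINDOWS: let `h = min (η/4) (R/2)`, and let `β₀` be a fixed bump function, `β₀ ≥ 0`, supported in
`(0, h)`, `∫ β₀ = 1`; for `|y| ≤ 2R` take `β = β₀(· - y)` and `β = β₀(y - ·)`: the right side of (3) is
at most `C(R, M, h) ε`, uniformly in `y`, so at most `η/8` for `ε ≤ ε₀`.  Then for
`z = x + iy ∈ box R \ SF`: `A z ≤ a_β(x)` (`β = β₀(· - y)`, `MonoY`) `≤ a_β(x₁) + η/8 ≤
∫ β(s) (s + c₁ + η/8) ds + η/8 ≤ y + h + c₁ + η/4 ≤ y + c₁ + η`; the lower estimate is the
same with the other window.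
-/

open Complex Set Metric Filter Topology MeasureTheory

namespace RSM2

/-- smooth functions of mass one supported in an interval -/
structure C5W (u : ℝ → ℝ) (a b : ℝ) : Prop where
  smooth : ContDiff ℝ (⊤ : ℕ∞) u
  nonneg : ∀ x, 0 ≤ u x
  zero : ∀ x, x ∉ Ioo a b → u x = 0
  int : ∫ x, u x = 1

theorem c5_bump : ∃ b : ℝ → ℝ, C5W b 0 1 ∧
    ∃ S : ℝ, 1 ≤ S ∧ (∀ x, b x ≤ S) ∧ ∀ x, |deriv b x| ≤ S := by
  let f : ContDiffBump (1 / 2 : ℝ) := ⟨1 / 8, 1 / 4, by norm_num, by norm_num⟩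
  have hs : ContDiff ℝ (⊤ : ℕ∞) (f.normed volume) := f.contDiff_normed
  have hc : HasCompactSupport (f.normed volume) := f.hasCompactSupport_normed
  have hz : ∀ x, x ∉ Ioo (0 : ℝ) 1 → f.normed volume x = 0 := by
    intro x hx
    by_contra hne
    have h1 : x ∈ Function.support (f.normed volume) := hne
    rw [f.support_normed_eq, mem_ball, Real.dist_eq] at h1
    have h2 : |x - 1 / 2| < 1 / 4 := h1
    rw [abs_lt] at h2
    exact hx ⟨by linarith [h2.1], by linarith [h2.2]⟩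
  obtain ⟨S₁, hS₁⟩ := hc.exists_bound_of_continuous hs.continuous
  have hc' : HasCompactSupport (deriv (f.normed volume)) := hc.deriv
  have hs' : Continuous (deriv (f.normed volume)) := hs.continuous_deriv (by norm_cast)
  obtain ⟨S₂, hS₂⟩ := hc'.exists_bound_of_continuous hs'
  refine ⟨f.normed volume, ⟨hs, fun x => f.nonneg_normed x, hz, f.integral_normed⟩,
    max 1 (max S₁ S₂), le_max_left _ _, fun x => ?_, fun x => ?_⟩
  · exact ((le_abs_self _).trans (hS₁ x)).trans ((le_max_left _ _).trans (le_max_right _ _))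
  · exact (hS₂ x).trans ((le_max_right _ _).trans (le_max_right _ _))

theorem C5W.integrable {u : ℝ → ℝ} {a b : ℝ} (h : C5W u a b) : Integrable u := by
  refine h.smooth.continuous.integrable_of_hasCompactSupport ?_
  refine HasCompactSupport.intro (isCompact_Icc (a := a) (b := b)) ?_
  intro x hx
  exact h.zero x (fun h' => hx ⟨h'.1.le, h'.2.le⟩)

/-- scaled bumps -/
noncomputable def c5w (b : ℝ → ℝ) (k c s : ℝ) : ℝ := |k| * b (k * (s - c))

theorem c5w_W {b : ℝ → ℝ} (hb : C5W b 0 1) {k c lo hi : ℝ} (hk : k ≠ 0)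
    (hsub : ∀ s, k * (s - c) ∈ Ioo (0 : ℝ) 1 → s ∈ Ioo lo hi) : C5W (c5w b k c) lo hi where
  smooth := by
    unfold c5w
    exact contDiff_const.mul (hb.smooth.comp (contDiff_const.mul (contDiff_id.sub contDiff_const)))
  nonneg x := mul_nonneg (abs_nonneg _) (hb.nonneg _)
  zero x hx := by
    unfold c5w
    rw [hb.zero _ (fun h => hx (hsub x h)), mul_zero]
  int := by
    unfold c5w
    rw [integral_const_mul, integral_sub_right_eq_self (fun s => b (k * s)) c,
      Measure.integral_comp_mul_left, hb.int, smul_eq_mul, mul_one, abs_inv]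
    exact mul_inv_cancel₀ (abs_ne_zero.2 hk)

theorem c5w_le {b : ℝ → ℝ} {S : ℝ} (hS : ∀ x, b x ≤ S) (k c s : ℝ) :
    c5w b k c s ≤ |k| * S :=
  mul_le_mul_of_nonneg_left (hS _) (abs_nonneg _)

theorem c5w_deriv {b : ℝ → ℝ} (hb : C5W b 0 1) {S : ℝ} (hS : ∀ x, |deriv b x| ≤ S)
    (k c s : ℝ) : |deriv (c5w b k c) s| ≤ k ^ 2 * S := by
  have hd : HasDerivAt (c5w b k c) (|k| * (deriv b (k * (s - c)) * k)) s := by
    have h1 : HasDerivAt (fun s => k * (s - c)) k s := by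
      simpa using ((hasDerivAt_id' s).sub_const c).const_mul k
    have h2 : HasDerivAt b (deriv b (k * (s - c))) (k * (s - c)) :=
      (hb.smooth.differentiable (by norm_cast) _).hasDerivAt
    exact (h2.comp s h1).const_mul |k|
  rw [hd.deriv, abs_mul, abs_mul, abs_abs]
  have h3 := hS (k * (s - c))
  have h4 : |k| * |k| = k ^ 2 := by rw [← sq, sq_abs]
  calc |k| * (|deriv b (k * (s - c))| * |k|) = (|k| * |k|) * |deriv b (k * (s - c))| := by ring
    _ ≤ k ^ 2 * S := by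
      rw [h4]
      exact mul_le_mul_of_nonneg_left h3 (sq_nonneg _)

/-- primitives of differences of bumps -/
theorem c5_prim {u v : ℝ → ℝ} {a b a' b' : ℝ} (hu : C5W u a b) (hv : C5W v a' b') :
    ∃ Z : ℝ → ℝ, ContDiff ℝ (⊤ : ℕ∞) Z ∧ (∀ x, deriv Z x = u x - v x) ∧ (∀ x, |Z x| ≤ 1) ∧
      (∀ x, x ∉ Icc (min a a') (max b b') → Z x = 0) ∧ (b ≤ a' → ∀ x, 0 ≤ Z x) := by
  set m := min a a' with hm
  set n := max b b' with hn
  have hcont : Continuous (fun t => u t - v t) := hu.smooth.continuous.sub hv.smooth.continuous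
  set Z : ℝ → ℝ := fun x => ∫ t in m..x, (u t - v t) with hZ
  have hd : ∀ x, HasDerivAt Z (u x - v x) x := fun x =>
    (hcont.integral_hasStrictDerivAt m x).hasDerivAt
  have hdz : deriv Z = fun x => u x - v x := by
    funext x
    exact (hd x).deriv
  have hsm : ContDiff ℝ (⊤ : ℕ∞) Z := by
    rw [contDiff_infty_iff_deriv]
    refine ⟨fun x => (hd x).differentiableAt, ?_⟩
    rw [hdz]
    exact hu.smooth.sub hv.smooth
  have hU : ∀ {w : ℝ → ℝ} {c d : ℝ}, C5W w c d → m ≤ c → ∀ x, m ≤ x →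
      0 ≤ ∫ t in m..x, w t ∧ ∫ t in m..x, w t ≤ 1 ∧ (d ≤ x → ∫ t in m..x, w t = 1) ∧
      (x ≤ c → ∫ t in m..x, w t = 0) := by
    intro w c d hw hmc x hx
    have hII : ∀ p q : ℝ, IntervalIntegrable w volume p q := fun p q =>
      hw.smooth.continuous.intervalIntegrable p q
    have h0 : ∀ p q : ℝ, p ≤ q → 0 ≤ ∫ t in p..q, w t := fun p q hpq =>
      intervalIntegral.integral_nonneg hpq fun t _ => hw.nonneg t
    have h1 : ∀ y, d ≤ y → ∫ t in m..y, w t = 1 := by
      intro y hy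
      rw [intervalIntegral.integral_eq_integral_of_support_subset, hw.int]
      intro t ht
      by_contra hcon
      refine ht (hw.zero t fun h' => hcon ⟨lt_of_le_of_lt hmc h'.1, h'.2.le.trans hy⟩)
    refine ⟨h0 m x hx, ?_, h1 x, ?_⟩
    · have h2 : ∫ t in m..(max x d), w t = 1 := h1 _ (le_max_right _ _)
      have h3 := intervalIntegral.integral_add_adjacent_intervals (hII m x) (hII x (max x d))
      have h4 := h0 x (max x d) (le_max_left _ _)
      linarith
    · intro hxc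
      rw [intervalIntegral.integral_congr (g := fun _ => (0 : ℝ)), intervalIntegral.integral_zero]
      intro t ht
      rw [uIcc_of_le hx] at ht
      exact hw.zero t fun h' => absurd (ht.2.trans hxc) (not_le.2 h'.1)
  have hsub : ∀ x, Z x = (∫ t in m..x, u t) - ∫ t in m..x, v t := fun x =>
    intervalIntegral.integral_sub (hu.smooth.continuous.intervalIntegrable _ _)
      (hv.smooth.continuous.intervalIntegrable _ _)
  have hma : m ≤ a := min_le_left _ _
  have hma' : m ≤ a' := min_le_right _ _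
  have hleft : ∀ x, x ≤ m → Z x = 0 := by
    intro x hx
    rw [hZ]
    simp only
    rw [intervalIntegral.integral_congr (g := fun _ => (0 : ℝ)), intervalIntegral.integral_zero]
    intro t ht
    rw [uIcc_of_ge hx] at ht
    simp only
    rw [hu.zero t fun h' => absurd (ht.2.trans hma) (not_le.2 h'.1),
      hv.zero t fun h' => absurd (ht.2.trans hma') (not_le.2 h'.1), sub_zero]
  refine ⟨Z, hsm, fun x => (hd x).deriv, ?_, ?_, ?_⟩
  · intro x
    rcases le_total x m with hx | hx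
    · rw [hleft x hx, abs_zero]
      exact zero_le_one
    · obtain ⟨p1, p2, -, -⟩ := hU hu hma x hx
      obtain ⟨q1, q2, -, -⟩ := hU hv hma' x hx
      rw [hsub, abs_le]
      constructor <;> linarith
  · intro x hx
    rcases le_total x m with h1 | h1
    · exact hleft x h1
    · have h2 : n ≤ x := by
        by_contra hcon
        exact hx ⟨h1, (not_le.1 hcon).le⟩
      obtain ⟨-, -, p3, -⟩ := hU hu hma x h1
      obtain ⟨-, -, q3, -⟩ := hU hv hma' x h1
      rw [hsub, p3 ((le_max_left _ _).trans h2), q3 ((le_max_right _ _).trans h2), sub_self]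
  · intro hba x
    rcases le_total x m with h1 | h1
    · rw [hleft x h1]
    · obtain ⟨p1, p2, p3, -⟩ := hU hu hma x h1
      obtain ⟨q1, q2, -, q4⟩ := hU hv hma' x h1
      rw [hsub]
      rcases le_total x a' with h2 | h2
      · rw [q4 h2]
        linarith
      · rw [p3 (hba.trans h2)]
        linarith

theorem c5_prod (u v : ℝ → ℝ) : ∫ z : ℂ, u z.re * v z.im = (∫ x, u x) * ∫ y, v y := by
  have h := (Complex.volume_preserving_equiv_real_prod).integral_comp
    (Complex.measurableEquivRealProd.measurableEmbedding) (fun p : ℝ × ℝ => u p.1 * v p.2)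
  rw [Measure.volume_eq_prod, integral_prod_mul] at h
  rw [← h]
  rfl


/-- product test functions -/
noncomputable def c5T (u v : ℝ → ℝ) (z : ℂ) : ℝ := u z.re * v z.im

theorem c5T_smooth {u v : ℝ → ℝ} (hu : ContDiff ℝ (⊤ : ℕ∞) u) (hv : ContDiff ℝ (⊤ : ℕ∞) v) :
    ContDiff ℝ (⊤ : ℕ∞) (c5T u v) :=
  (hu.comp Complex.reCLM.contDiff).mul (hv.comp Complex.imCLM.contDiff)

theorem c5T_compact {u v : ℝ → ℝ} {a b c d : ℝ} (hu : ∀ x, x ∉ Icc a b → u x = 0)
    (hv : ∀ x, x ∉ Icc c d → v x = 0) : HasCompactSupport (c5T u v) := by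
  refine HasCompactSupport.intro
    ((isCompact_Icc (a := a) (b := b)).reProdIm (isCompact_Icc (a := c) (b := d))) ?_
  intro z hz
  unfold c5T
  by_cases h1 : z.re ∈ Icc a b
  · have h2 : z.im ∉ Icc c d := fun h2 => hz (Complex.mem_reProdIm.2 ⟨h1, h2⟩)
    rw [hv _ h2, mul_zero]
  · rw [hu _ h1, zero_mul]

theorem c5T_dX {u v : ℝ → ℝ} (hu : Differentiable ℝ u) (hv : Differentiable ℝ v) (z : ℂ) :
    dX (c5T u v) z = deriv u z.re * v z.im := by
  have hre : DifferentiableAt ℝ (fun w : ℂ => w.re) z := Complex.reCLM.differentiableAt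
  have him : DifferentiableAt ℝ (fun w : ℂ => w.im) z := Complex.imCLM.differentiableAt
  have h1 : DifferentiableAt ℝ (fun w : ℂ => u w.re) z := (hu _).comp z hre
  have h2 : DifferentiableAt ℝ (fun w : ℂ => v w.im) z := (hv _).comp z him
  have h3 : c5T u v = fun w => u w.re * v w.im := rfl
  rw [h3, dX_mul h1 h2, dX_comp (hv _) him, dX_comp (hu _) hre, dX_re, dX_im]
  ring

theorem c5T_dY {u v : ℝ → ℝ} (hu : Differentiable ℝ u) (hv : Differentiable ℝ v) (z : ℂ) :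
    dY (c5T u v) z = u z.re * deriv v z.im := by
  have hre : DifferentiableAt ℝ (fun w : ℂ => w.re) z := Complex.reCLM.differentiableAt
  have him : DifferentiableAt ℝ (fun w : ℂ => w.im) z := Complex.imCLM.differentiableAt
  have h1 : DifferentiableAt ℝ (fun w : ℂ => u w.re) z := (hu _).comp z hre
  have h2 : DifferentiableAt ℝ (fun w : ℂ => v w.im) z := (hv _).comp z him
  have h3 : c5T u v = fun w => u w.re * v w.im := rfl
  rw [h3, dY_mul h1 h2, dY_comp (hv _) him, dY_comp (hu _) hre, dY_re, dY_im]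
  ring

theorem c5_int1 {D : Set ℂ} (hD : IsOpen D) {w f : ℂ → ℝ} (hw : Continuous w)
    (hc : HasCompactSupport w) (hf : ContinuousOn f D) {M : ℝ}
    (hM : ∀ z ∈ D, w z ≠ 0 → |f z| ≤ M) : IntegrableOn (fun z => w z * f z) D := by
  have hg : Integrable (fun z => |w z| * M) (volume.restrict D) :=
    ((hw.abs.integrable_of_hasCompactSupport hc.norm).mul_const M).restrict
  refine hg.mono' ((hw.continuousOn.mul hf).aestronglyMeasurable hD.measurableSet) ?_
  refine ae_restrict_of_forall_mem hD.measurableSet fun z hz => ?_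
  rw [Real.norm_eq_abs, abs_mul]
  by_cases h0 : w z = 0
  · rw [h0, abs_zero, zero_mul, zero_mul]
  · exact mul_le_mul_of_nonneg_left (hM z hz h0) (abs_nonneg _)

theorem c5_int2 {D : Set ℂ} (hD : IsOpen D) {w f : ℂ → ℝ} (hw : Continuous w)
    (hc : HasCompactSupport w) (hf : ContinuousOn f D)
    (hi : IntegrableOn (fun z => f z ^ 2) D) : IntegrableOn (fun z => w z * f z) D := by
  obtain ⟨C, hC⟩ := hc.exists_bound_of_continuous hw
  have hg : Integrable (fun z => C / 2 * f z ^ 2 + |w z| / 2) (volume.restrict D) :=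
    (hi.const_mul (C / 2)).add
      (((hw.abs.integrable_of_hasCompactSupport hc.norm).div_const 2).restrict)
  refine hg.mono' ((hw.continuousOn.mul hf).aestronglyMeasurable hD.measurableSet) ?_
  refine ae_restrict_of_forall_mem hD.measurableSet fun z _ => ?_
  rw [Real.norm_eq_abs, abs_mul]
  have h1 : |w z| ≤ C := by simpa using hC z
  have h2 : |f z| ≤ (f z ^ 2 + 1) / 2 := by
    have h3 := sq_nonneg (|f z| - 1)
    rw [← sq_abs (f z)]
    nlinarith
  have h4 := abs_nonneg (w z)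
  have h5 : |w z| * |f z| ≤ |w z| * ((f z ^ 2 + 1) / 2) := mul_le_mul_of_nonneg_left h2 h4
  have h6 : |w z| * f z ^ 2 ≤ C * f z ^ 2 := mul_le_mul_of_nonneg_right h1 (sq_nonneg _)
  nlinarith

theorem c5_amgm {D Q : Set ℂ} (hD : MeasurableSet D) (hQ : MeasurableSet Q) {w f : ℂ → ℝ}
    {C W lam : ℝ} (hC : 0 ≤ C) (hlam : 0 < lam) (hw : ∀ z, |w z| ≤ C) (hwQ : ∀ z, z ∉ Q → w z = 0)
    (hW : 0 ≤ W) (hvol : volume Q ≤ ENNReal.ofReal W) (hi : IntegrableOn (fun z => f z ^ 2) D) :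
    ∫ z in D, |w z * f z| ≤ C / 2 * (lam * ∫ z in D ∩ Q, f z ^ 2) + C / 2 * (W / lam) := by
  have hvol' : volume (D ∩ Q) ≤ ENNReal.ofReal W := (measure_mono inter_subset_right).trans hvol
  have hfin : volume (D ∩ Q) < ⊤ := lt_of_le_of_lt hvol' ENNReal.ofReal_lt_top
  have hi' : IntegrableOn (fun z => C / 2 * (lam * f z ^ 2) + C / 2 * (1 / lam)) (D ∩ Q) :=
    (((hi.mono_set inter_subset_left).const_mul lam).const_mul (C / 2)).add
      (integrableOn_const hfin.ne)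
  have h1 : ∫ z in D, |w z * f z| ≤
      ∫ z in D, Q.indicator (fun z => C / 2 * (lam * f z ^ 2) + C / 2 * (1 / lam)) z := by
    refine integral_mono_of_nonneg (Eventually.of_forall fun z => abs_nonneg _) ?_ ?_
    · have : IntegrableOn (Q.indicator (fun z => C / 2 * (lam * f z ^ 2) + C / 2 * (1 / lam))) D := by
        rw [IntegrableOn, integrable_indicator_iff hQ, IntegrableOn,
          Measure.restrict_restrict hQ, inter_comm]
        exact hi'
      exact this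
    · refine Eventually.of_forall fun z => ?_
      simp only
      by_cases hz : z ∈ Q
      · rw [indicator_of_mem hz, abs_mul]
        have h2 : |f z| ≤ (lam * f z ^ 2 + 1 / lam) / 2 := by
          have h3 : 0 ≤ (lam * |f z| - 1) ^ 2 / lam := by positivity
          have h4 : (lam * |f z| - 1) ^ 2 / lam = lam * f z ^ 2 - 2 * |f z| + 1 / lam := by
            rw [← sq_abs (f z)]
            field_simp
            ring
          linarith
        calc |w z| * |f z| ≤ C * ((lam * f z ^ 2 + 1 / lam) / 2) :=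
              mul_le_mul (hw z) h2 (abs_nonneg _) hC
          _ = C / 2 * (lam * f z ^ 2) + C / 2 * (1 / lam) := by ring
      · rw [indicator_of_notMem hz, hwQ z hz, zero_mul, abs_zero]
  refine h1.trans ?_
  rw [setIntegral_indicator hQ, integral_add
    ((((hi.mono_set inter_subset_left).const_mul lam).const_mul (C / 2)))
    (integrableOn_const hfin.ne), integral_const_mul, integral_const_mul, setIntegral_const,
    smul_eq_mul]
  have h2 : volume.real (D ∩ Q) ≤ W := ENNReal.toReal_le_of_le_ofReal hW hvol'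
  have h3 : volume.real (D ∩ Q) * (C / 2 * (1 / lam)) ≤ W * (C / 2 * (1 / lam)) :=
    mul_le_mul_of_nonneg_right h2 (by positivity)
  have h4 : W * (C / 2 * (1 / lam)) = C / 2 * (W / lam) := by ring
  linarith

variable {ι : Type} {p : ι → ℂ} {τ ℓ : ι → ℝ} {ε R : ℝ} {A B : ℂ → ℝ}

theorem c5_isOpen (h : SlitFam p τ ℓ ε R R) : IsOpen (SF p τ ℓ)ᶜ :=
  h.isCompact.isClosed.isOpen_compl

theorem c5_integral (h : SlitFam p τ ℓ ε R R) (f : ℂ → ℝ) :
    ∫ z in (SF p τ ℓ)ᶜ, f z = ∫ z, f z := by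
  conv_rhs => rw [← setIntegral_univ]
  apply setIntegral_congr_set
  rw [ae_eq_univ, compl_compl]
  exact h.volume

theorem c5_smoothA (hP : PreTest p τ ℓ ε R A B) : ContDiffOn ℝ 2 A (SF p τ ℓ)ᶜ :=
  (hP.niceA 0).smooth

theorem c5_contX (h : SlitFam p τ ℓ ε R R) (hP : PreTest p τ ℓ ε R A B) :
    ContinuousOn (dX A) (SF p τ ℓ)ᶜ := by
  have h1 := (c5_smoothA hP).continuousOn_fderiv_of_isOpen (c5_isOpen h) (by norm_num)
  exact h1.clm_apply continuousOn_const

theorem c5_contY (h : SlitFam p τ ℓ ε R R) (hP : PreTest p τ ℓ ε R A B) :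
    ContinuousOn (dY A) (SF p τ ℓ)ᶜ := by
  have h1 := (c5_smoothA hP).continuousOn_fderiv_of_isOpen (c5_isOpen h) (by norm_num)
  exact h1.clm_apply continuousOn_const

theorem c5_diffA (h : SlitFam p τ ℓ ε R R) (hP : PreTest p τ ℓ ε R A B) {z : ℂ}
    (hz : z ∈ (SF p τ ℓ)ᶜ) : DifferentiableAt ℝ A z :=
  ((c5_smoothA hP).contDiffAt ((c5_isOpen h).mem_nhds hz)).differentiableAt (by norm_num)

theorem c5_bdA (hε1 : ε ≤ 1) (hP : PreTest p τ ℓ ε R A B) {r : ℝ} {z : ℂ}
    (hz : z ∈ (SF p τ ℓ)ᶜ) (hr : ‖z‖ ≤ r) : |A z| ≤ 2 * r + 8 * R := by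
  have h1 := hP.bdA z hz
  have h2 := Complex.abs_re_le_norm z
  have h3 := Complex.abs_im_le_norm z
  have h4 : ε * |z.re| ≤ 1 * |z.re| := mul_le_mul_of_nonneg_right hε1 (abs_nonneg _)
  linarith

theorem c5_vol (a : ℂ) {r : ℝ} (hr : 0 ≤ r) :
    volume (closedBall a r) ≤ ENNReal.ofReal (Real.pi * r ^ 2) := by
  rw [Complex.volume_closedBall, ENNReal.ofReal_mul Real.pi_pos.le, ENNReal.ofReal_pow hr,
    mul_comm]
  gcongr
  rw [ENNReal.ofReal, Real.toNNReal_of_nonneg Real.pi_pos.le]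
  rfl

theorem c5T_int (h : SlitFam p τ ℓ ε R R) {u v : ℝ → ℝ} {a b c d : ℝ} (hu : C5W u a b)
    (hv : C5W v c d) : ∫ z in (SF p τ ℓ)ᶜ, c5T u v z = 1 := by
  rw [c5_integral h]
  unfold c5T
  rw [c5_prod, hu.int, hv.int, mul_one]

theorem C5W.zeroIcc {u : ℝ → ℝ} {a b : ℝ} (h : C5W u a b) : ∀ x, x ∉ Icc a b → u x = 0 :=
  fun x hx => h.zero x (fun h' => hx ⟨h'.1.le, h'.2.le⟩)

theorem C5W.diff {u : ℝ → ℝ} {a b : ℝ} (h : C5W u a b) : Differentiable ℝ u :=
  h.smooth.differentiable (by norm_cast)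

theorem c5_intA (h : SlitFam p τ ℓ ε R R) (hε1 : ε ≤ 1) (hP : PreTest p τ ℓ ε R A B)
    {u v : ℝ → ℝ} {a b c d : ℝ} (hu : Continuous u) (hu0 : ∀ x, x ∉ Icc a b → u x = 0)
    (hv : Continuous v) (hv0 : ∀ x, x ∉ Icc c d → v x = 0) :
    IntegrableOn (fun z => c5T u v z * A z) (SF p τ ℓ)ᶜ := by
  have hc := c5T_compact hu0 hv0
  obtain ⟨r, hr⟩ := hc.isCompact.isBounded.subset_closedBall 0
  have hcont : Continuous (c5T u v) :=
    (hu.comp Complex.continuous_re).mul (hv.comp Complex.continuous_im)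
  refine c5_int1 (c5_isOpen h) hcont hc (c5_smoothA hP).continuousOn
    (M := 2 * r + 8 * R) fun z hz hne => ?_
  refine c5_bdA hε1 hP hz ?_
  have := hr (subset_tsupport _ hne)
  rwa [mem_closedBall_zero_iff] at this

theorem c5_int0 {u v : ℝ → ℝ} {a b c d : ℝ} (hu : Continuous u) (hu0 : ∀ x, x ∉ Icc a b → u x = 0)
    (hv : Continuous v) (hv0 : ∀ x, x ∉ Icc c d → v x = 0) {f : ℂ → ℝ} (hf : Continuous f)
    (D : Set ℂ) : IntegrableOn (fun z => c5T u v z * f z) D := by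
  have hc := c5T_compact hu0 hv0
  have hcont : Continuous (c5T u v) :=
    (hu.comp Complex.continuous_re).mul (hv.comp Complex.continuous_im)
  exact ((hcont.mul hf).integrable_of_hasCompactSupport hc.mul_right).integrableOn

theorem c5_drift (hε : 0 < ε) (hε1 : ε ≤ 1) (hR : 0 < R) (h : SlitFam p τ ℓ ε R R)
    (hP : PreTest p τ ℓ ε R A B) {u v β : ℝ → ℝ} {a₁ b₁ a₂ b₂ c d S₀ S₁ r : ℝ}
    (hu : C5W u a₁ b₁) (hv : C5W v a₂ b₂) (hβ : C5W β c d) (hab : b₁ ≤ a₂)
    (hS₀ : ∀ x, β x ≤ S₀) (hS₁ : ∀ x, |deriv β x| ≤ S₁) (hr : 0 ≤ r)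
    (hr' : ∀ z : ℂ, z.re ∈ Icc (min a₁ a₂) (max b₁ b₂) → z.im ∈ Icc c d → ‖z‖ ≤ r) :
    |(∫ z in (SF p τ ℓ)ᶜ, c5T u β z * A z) - ∫ z in (SF p τ ℓ)ᶜ, c5T v β z * A z| ≤
      ε * (S₀ / 2 * (200 * R ^ 2 + Real.pi * r ^ 2) + S₀ / 2 * (200 * R ^ 2 + Real.pi * r ^ 2) +
        S₁ * (2 * r + 8 * R) * (Real.pi * r ^ 2)) := by
  set D := (SF p τ ℓ)ᶜ with hDdef
  have hD : IsOpen D := c5_isOpen h
  obtain ⟨Z, hZs, hZd, hZ1, hZ0, hZp⟩ := c5_prim hu hv
  have hZpos := hZp hab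
  have hZdiff : Differentiable ℝ Z := hZs.differentiable (by norm_cast)
  set φ : ℂ → ℝ := c5T Z β with hφ
  have hφs : ContDiff ℝ (⊤ : ℕ∞) φ := c5T_smooth hZs hβ.smooth
  have hφc : HasCompactSupport φ := c5T_compact hZ0 hβ.zeroIcc
  have hφ0 : ∀ z, 0 ≤ φ z := fun z => mul_nonneg (hZpos _) (hβ.nonneg _)
  have hS₀0 : 0 ≤ S₀ := (hβ.nonneg 0).trans (hS₀ 0)
  have hS₁0 : 0 ≤ S₁ := (abs_nonneg _).trans (hS₁ 0)
  have hφS : ∀ z, |φ z| ≤ S₀ := by
    intro z
    rw [hφ]
    unfold c5T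
    rw [abs_mul]
    calc |Z z.re| * |β z.im| ≤ 1 * S₀ := by
          refine mul_le_mul (hZ1 _) ?_ (abs_nonneg _) zero_le_one
          rw [abs_of_nonneg (hβ.nonneg _)]
          exact hS₀ _
      _ = S₀ := one_mul _
  have hQ0 : ∀ (v' : ℝ → ℝ), (∀ x, x ∉ Icc c d → v' x = 0) → ∀ z, z ∉ closedBall (0 : ℂ) r →
      c5T Z v' z = 0 := by
    intro v' hv' z hz
    rw [mem_closedBall_zero_iff] at hz
    unfold c5T
    by_cases h1 : z.re ∈ Icc (min a₁ a₂) (max b₁ b₂)
    · have h2 : z.im ∉ Icc c d := fun h2 => hz (hr' z h1 h2)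
      rw [hv' _ h2, mul_zero]
    · rw [hZ0 _ h1, zero_mul]
  have hβ'0 : ∀ x, x ∉ Icc c d → deriv β x = 0 := by
    intro x hx
    have : β =ᶠ[𝓝 x] fun _ => 0 := by
      filter_upwards [isClosed_Icc.isOpen_compl.mem_nhds hx] with y hy
      exact hβ.zeroIcc y hy
    rw [this.deriv_eq, deriv_const]
  have hβ'c : Continuous (deriv β) := hβ.smooth.continuous_deriv (by norm_cast)
  have hφcont : Continuous φ := hφs.continuous
  -- derivatives
  have hdX : ∀ z ∈ D, dX (fun w => φ w * A w) z =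
      φ z * dX A z + (c5T u β z * A z - c5T v β z * A z) := by
    intro z hz
    rw [dX_mul ((hφs.differentiable (by norm_cast)) z) (c5_diffA h hP hz), hφ,
      c5T_dX hZdiff hβ.diff, hZd]
    unfold c5T
    ring
  have hdY : ∀ z ∈ D, dY (fun w => φ w * A w) z =
      φ z * (dY A z - 1) + (φ z + c5T Z (deriv β) z * A z) := by
    intro z hz
    rw [dY_mul ((hφs.differentiable (by norm_cast)) z) (c5_diffA h hP hz), hφ,
      c5T_dY hZdiff hβ.diff]
    unfold c5T
    ring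
  have i1 : IntegrableOn (fun z => φ z * dX A z) D :=
    c5_int2 hD hφcont hφc (c5_contX h hP) hP.intX
  have i2 : IntegrableOn (fun z => φ z * (dY A z - 1)) D :=
    c5_int2 hD hφcont hφc ((c5_contY h hP).sub continuousOn_const) hP.intY
  have i3 := c5_intA h hε1 hP hu.smooth.continuous hu.zeroIcc hβ.smooth.continuous hβ.zeroIcc
  have i4 := c5_intA h hε1 hP hv.smooth.continuous hv.zeroIcc hβ.smooth.continuous hβ.zeroIcc
  have i5 := c5_intA h hε1 hP hZs.continuous hZ0 hβ'c hβ'0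
  have i6 : IntegrableOn φ D := (hφcont.integrable_of_hasCompactSupport hφc).integrableOn
  have e1 : ∫ z in D, dX (fun w => φ w * A w) z = (∫ z in D, φ z * dX A z) +
      ((∫ z in D, c5T u β z * A z) - ∫ z in D, c5T v β z * A z) := by
    have i34 : IntegrableOn (fun z => c5T u β z * A z - c5T v β z * A z) D := i3.sub i4
    rw [setIntegral_congr_fun hD.measurableSet hdX, integral_add i1 i34, integral_sub i3 i4]
  have e2 : jump (SF p τ ℓ) A φ = -((∫ z in D, φ z * (dY A z - 1)) +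
      ((∫ z in D, φ z) + ∫ z in D, c5T Z (deriv β) z * A z)) := by
    unfold jump
    have i65 : IntegrableOn (fun z => φ z + c5T Z (deriv β) z * A z) D := i6.add i5
    rw [← hDdef, setIntegral_congr_fun hD.measurableSet hdY, integral_add i2 i65,
      integral_add i6 i5]
  have e3 : 0 ≤ ∫ z in D, φ z := setIntegral_nonneg hD.measurableSet fun z _ => hφ0 z
  have hdr := drift h hP.niceA hP.mono hφs hφc hφ0
  rw [← hDdef] at hdr
  -- estimates
  set W : ℝ := Real.pi * r ^ 2 with hW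
  have hW0 : 0 ≤ W := mul_nonneg Real.pi_pos.le (sq_nonneg _)
  have hvol := c5_vol 0 hr
  have b1 : ∫ z in D, |φ z * dX A z| ≤ ε * (S₀ / 2 * (200 * R ^ 2 + W)) := by
    have h1 := c5_amgm (D := D) (Q := closedBall 0 r) hD.measurableSet
      measurableSet_closedBall (w := φ) (f := dX A) (C := S₀) (W := W) (lam := 1 / ε) hS₀0
      (by positivity) hφS (hQ0 β hβ.zeroIcc) hW0 hvol hP.intX
    have h2 : ∫ z in D ∩ closedBall 0 r, dX A z ^ 2 ≤ 200 * ε ^ 2 * R ^ 2 := by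
      refine le_trans (setIntegral_mono_set hP.intX ?_ ?_) hP.enX
      · exact Eventually.of_forall fun z => sq_nonneg _
      · exact (inter_subset_left (s := D) (t := closedBall 0 r)).eventuallyLE
    have h3 : S₀ / 2 * (1 / ε * ∫ z in D ∩ closedBall 0 r, dX A z ^ 2) ≤
        S₀ / 2 * (1 / ε * (200 * ε ^ 2 * R ^ 2)) := by
      gcongr
    refine h1.trans ((add_le_add_left h3 _).trans (le_of_eq ?_))
    field_simp
  have b2 : ∫ z in D, |φ z * (dY A z - 1)| ≤ S₀ / 2 * (200 * R ^ 2 + W) := by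
    have h1 := c5_amgm (D := D) (Q := closedBall 0 r) hD.measurableSet
      measurableSet_closedBall (w := φ) (f := fun z => dY A z - 1) (C := S₀) (W := W) (lam := 1)
      hS₀0 one_pos hφS (hQ0 β hβ.zeroIcc) hW0 hvol hP.intY
    have h2 : ∫ z in D ∩ closedBall 0 r, (dY A z - 1) ^ 2 ≤ 200 * R ^ 2 := by
      refine le_trans (setIntegral_mono_set hP.intY ?_ ?_) hP.enY
      · exact Eventually.of_forall fun z => sq_nonneg _
      · exact (inter_subset_left (s := D) (t := closedBall 0 r)).eventuallyLE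
    have h3 : S₀ / 2 * (1 * ∫ z in D ∩ closedBall 0 r, (dY A z - 1) ^ 2) ≤
        S₀ / 2 * (1 * (200 * R ^ 2)) := by
      gcongr
    refine h1.trans ((add_le_add_left h3 _).trans (le_of_eq ?_))
    ring
  have b3 : |∫ z in D, c5T Z (deriv β) z * A z| ≤ S₁ * (2 * r + 8 * R) * W := by
    have h1 : ∫ z in D, c5T Z (deriv β) z * A z =
        ∫ z in D ∩ closedBall 0 r, c5T Z (deriv β) z * A z := by
      refine setIntegral_eq_of_subset_of_forall_sdiff_eq_zero hD.measurableSet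
        inter_subset_left ?_
      rintro z ⟨hz1, hz2⟩
      have : z ∉ closedBall (0 : ℂ) r := fun h' => hz2 ⟨hz1, h'⟩
      rw [hQ0 _ hβ'0 z this, zero_mul]
    have hv' : volume (D ∩ closedBall 0 r) ≤ ENNReal.ofReal W :=
      (measure_mono inter_subset_right).trans hvol
    have h2 : ‖∫ z in D ∩ closedBall 0 r, c5T Z (deriv β) z * A z‖ ≤
        (S₁ * (2 * r + 8 * R)) * volume.real (D ∩ closedBall 0 r) := by
      refine norm_setIntegral_le_of_norm_le_const (lt_of_le_of_lt hv' ENNReal.ofReal_lt_top) ?_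
      rintro z ⟨hz1, hz2⟩
      rw [norm_mul]
      have h3 : ‖c5T Z (deriv β) z‖ ≤ S₁ := by
        unfold c5T
        rw [norm_mul]
        calc ‖Z z.re‖ * ‖deriv β z.im‖ ≤ 1 * S₁ :=
              mul_le_mul (hZ1 _) (hS₁ _) (norm_nonneg _) zero_le_one
          _ = S₁ := one_mul _
      exact mul_le_mul h3 (c5_bdA hε1 hP hz1 (mem_closedBall_zero_iff.1 hz2)) (norm_nonneg _) hS₁0
    rw [h1]
    have h4 : volume.real (D ∩ closedBall 0 r) ≤ W := ENNReal.toReal_le_of_le_ofReal hW0 hv'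
    exact h2.trans (mul_le_mul_of_nonneg_left h4 (by positivity))
  have b4 : |∫ z in D, φ z * dX A z| ≤ ∫ z in D, |φ z * dX A z| := abs_integral_le_integral_abs
  have b5 : |∫ z in D, φ z * (dY A z - 1)| ≤ ∫ z in D, |φ z * (dY A z - 1)| :=
    abs_integral_le_integral_abs
  have hj : jump (SF p τ ℓ) A φ ≤ S₀ / 2 * (200 * R ^ 2 + W) + S₁ * (2 * r + 8 * R) * W := by
    rw [e2]
    have h1 := neg_abs_le (∫ z in D, φ z * (dY A z - 1))
    have h2 := neg_abs_le (∫ z in D, c5T Z (deriv β) z * A z)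
    linarith
  have hj' : ε * jump (SF p τ ℓ) A φ ≤
      ε * (S₀ / 2 * (200 * R ^ 2 + W) + S₁ * (2 * r + 8 * R) * W) :=
    mul_le_mul_of_nonneg_left hj hε.le
  rw [e1] at hdr
  have hfin : |(∫ z in D, c5T u β z * A z) - ∫ z in D, c5T v β z * A z| ≤
      ε * (S₀ / 2 * (200 * R ^ 2 + W) + S₁ * (2 * r + 8 * R) * W) +
        ε * (S₀ / 2 * (200 * R ^ 2 + W)) := by
    have h1 := hdr.trans hj'
    have h2 := b4.trans b1
    rw [abs_le] at h1 h2 ⊢
    constructor <;> linarith [h1.1, h1.2, h2.1, h2.2]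
  refine hfin.trans (le_of_eq ?_)
  ring

theorem c5_left (hε1 : ε ≤ 1) (hR : 0 < R) (h : SlitFam p τ ℓ ε R R)
    (hP : PreTest p τ ℓ ε R A B) {u β κ : ℝ → ℝ} {a b c d c' d' Su W E lam : ℝ} {Q : Set ℂ}
    (hu : C5W u a b) (hβ : C5W β c d) (hκ : C5W κ c' d') (hab : b ≤ -(2 * R))
    (hSu : ∀ x, u x ≤ Su) (hQ : MeasurableSet Q)
    (hQs : ∀ z : ℂ, z.re ∈ Ioo a b → z.im ∈ Icc (min c c') (max d d') → z ∈ Q)
    (hW : 0 ≤ W) (hvol : volume Q ≤ ENNReal.ofReal W) (hlam : 0 < lam)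
    (hE : ∫ z in (SF p τ ℓ)ᶜ ∩ Q, (dY A z - 1) ^ 2 ≤ E) :
    |(∫ z in (SF p τ ℓ)ᶜ, c5T u β z * (A z - z.im)) -
      ∫ z in (SF p τ ℓ)ᶜ, c5T u κ z * (A z - z.im)| ≤
      Su / 2 * (lam * E) + Su / 2 * (W / lam) := by
  set D := (SF p τ ℓ)ᶜ with hDdef
  have hD : IsOpen D := c5_isOpen h
  obtain ⟨Z, hZs, hZd, hZ1, hZ0, -⟩ := c5_prim hβ hκ
  have hZdiff : Differentiable ℝ Z := hZs.differentiable (by norm_cast)
  set φ : ℂ → ℝ := c5T u Z with hφ
  have hφs : ContDiff ℝ (⊤ : ℕ∞) φ := c5T_smooth hu.smooth hZs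
  have hφd : Differentiable ℝ φ := hφs.differentiable (by norm_cast)
  have hφc : HasCompactSupport φ := c5T_compact hu.zeroIcc hZ0
  have hSu0 : 0 ≤ Su := (hu.nonneg 0).trans (hSu 0)
  have hφS : ∀ z, |φ z| ≤ Su := by
    intro z
    rw [hφ]
    unfold c5T
    rw [abs_mul]
    calc |u z.re| * |Z z.im| ≤ Su * 1 := by
          refine mul_le_mul ?_ (hZ1 _) (abs_nonneg _) hSu0
          rw [abs_of_nonneg (hu.nonneg _)]
          exact hSu _
      _ = Su := mul_one _
  have hφQ : ∀ z, z ∉ Q → φ z = 0 := by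
    intro z hz
    rw [hφ]
    unfold c5T
    by_cases h1 : z.re ∈ Ioo a b
    · have h2 : z.im ∉ Icc (min c c') (max d d') := fun h2 => hz (hQs z h1 h2)
      rw [hZ0 _ h2, mul_zero]
    · rw [hu.zero _ h1, zero_mul]
  have hφ0 : ∀ᶠ z in 𝓝ˢ (SF p τ ℓ), φ z = 0 := by
    have ho : IsOpen {z : ℂ | -(2 * R) < z.re} := isOpen_lt continuous_const Complex.continuous_re
    have hsub : SF p τ ℓ ⊆ {z : ℂ | -(2 * R) < z.re} := by
      intro z hz
      obtain ⟨j, hj⟩ := mem_iUnion.1 hz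
      have := (abs_le.1 (h.box j z hj).1).1
      show -(2 * R) < z.re
      linarith
    filter_upwards [ho.mem_nhdsSet.2 hsub] with z hz
    rw [hφ]
    unfold c5T
    rw [hu.zero _ (fun h' => absurd (h'.2.trans_le hab) (not_lt.2 (le_of_lt hz))), zero_mul]
  have hi : ∀ r, Nice (SF p τ ℓ)ᶜ (closedBall 0 r) (fun z => z.im) := fun r =>
    Nice.im (c5_isOpen h) (R := r) subset_rfl
  have j1 := (jump_eq_zero h hP.niceA hφs hφc hφ0).1
  have j2 := (jump_eq_zero h hi hφs hφc hφ0).1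
  unfold jump at j1 j2
  rw [neg_eq_zero, ← hDdef] at j1 j2
  have hφ1 : ContDiff ℝ 1 φ := hφs.of_le (by norm_cast)
  have k1 := (integrable_jump h hP.niceA hφ1 hφc).2
  have k2 := (integrable_jump h hi hφ1 hφc).2
  have him : ∀ z : ℂ, DifferentiableAt ℝ (fun w : ℂ => w.im) z := fun z =>
    Complex.imCLM.differentiableAt
  have hpt : ∀ z ∈ D, dY (fun w => φ w * A w) z - dY (fun w => φ w * w.im) z =
      φ z * (dY A z - 1) + (c5T u β z * (A z - z.im) - c5T u κ z * (A z - z.im)) := by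
    intro z hz
    rw [dY_mul (hφd z) (c5_diffA h hP hz), dY_mul (hφd z) (him z), dY_im, hφ,
      c5T_dY hu.diff hZdiff, hZd]
    unfold c5T
    ring
  have i1 : IntegrableOn (fun z => φ z * (dY A z - 1)) D :=
    c5_int2 hD hφs.continuous hφc ((c5_contY h hP).sub continuousOn_const) hP.intY
  have i2 : ∀ {v : ℝ → ℝ} {c d : ℝ}, C5W v c d →
      IntegrableOn (fun z => c5T u v z * (A z - z.im)) D := by
    intro v c d hv
    have h1 := c5_intA h hε1 hP hu.smooth.continuous hu.zeroIcc hv.smooth.continuous hv.zeroIcc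
    have h2 := c5_int0 hu.smooth.continuous hu.zeroIcc hv.smooth.continuous hv.zeroIcc
      Complex.continuous_im D
    have h3 : (fun z => c5T u v z * (A z - z.im)) =
        fun z => c5T u v z * A z - c5T u v z * z.im := by
      funext z; ring
    rw [h3]
    exact h1.sub h2
  have i23 : IntegrableOn (fun z => c5T u β z * (A z - z.im) - c5T u κ z * (A z - z.im)) D :=
    (i2 hβ).sub (i2 hκ)
  have e1 : (∫ z in D, φ z * (dY A z - 1)) + ((∫ z in D, c5T u β z * (A z - z.im)) -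
      ∫ z in D, c5T u κ z * (A z - z.im)) = 0 := by
    rw [← integral_sub (i2 hβ) (i2 hκ), ← integral_add i1 i23,
      ← setIntegral_congr_fun hD.measurableSet hpt, integral_sub k1 k2, j1, j2, sub_zero]
  have b1 : ∫ z in D, |φ z * (dY A z - 1)| ≤ Su / 2 * (lam * E) + Su / 2 * (W / lam) := by
    have h1 := c5_amgm (D := D) (Q := Q) hD.measurableSet
      hQ (w := φ) (f := fun z => dY A z - 1) (C := Su) (W := W) (lam := lam)
      hSu0 hlam hφS hφQ hW hvol hP.intY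
    refine h1.trans (add_le_add_left ?_ _)
    gcongr
  have b2 : |∫ z in D, φ z * (dY A z - 1)| ≤ ∫ z in D, |φ z * (dY A z - 1)| :=
    abs_integral_le_integral_abs
  have e2 : (∫ z in D, c5T u β z * (A z - z.im)) - ∫ z in D, c5T u κ z * (A z - z.im) =
      -∫ z in D, φ z * (dY A z - 1) := by linarith
  rw [e2, abs_neg]
  exact b2.trans b1

theorem c5_point (hε1 : ε ≤ 1) (h : SlitFam p τ ℓ ε R R)
    (hP : PreTest p τ ℓ ε R A B) {z : ℂ} (hz : z ∈ (SF p τ ℓ)ᶜ) {η : ℝ} (hη : 0 < η) :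
    ∃ δ₁ > 0, ∀ δ, 0 < δ → δ ≤ δ₁ → ∀ ψ : ℝ → ℝ, C5W ψ z.re (z.re + δ) →
      (∀ (β : ℝ → ℝ) (d : ℝ), C5W β z.im d →
        A z - η ≤ ∫ w in (SF p τ ℓ)ᶜ, c5T ψ β w * A w) ∧
      (∀ (β : ℝ → ℝ) (c : ℝ), C5W β c z.im →
        ∫ w in (SF p τ ℓ)ᶜ, c5T ψ β w * A w ≤ A z + η) := by
  set D := (SF p τ ℓ)ᶜ with hDdef
  have hD : IsOpen D := c5_isOpen h
  have hcA : ContinuousAt A z := (c5_diffA h hP hz).continuousAt
  have hev : ∀ᶠ w in 𝓝 z, w ∈ D ∧ |A w - A z| ≤ η := by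
    have h0 : ∀ᶠ w in 𝓝 z, w ∈ D := hD.mem_nhds hz
    refine h0.and ?_
    have h1 : Tendsto (fun w => |A w - A z|) (𝓝 z) (𝓝 |A z - A z|) :=
      (hcA.tendsto.sub_const (A z)).abs
    rw [sub_self, abs_zero] at h1
    exact h1.eventually_le_const hη
  obtain ⟨δ₁, hδ₁, hb⟩ := Metric.nhds_basis_closedBall.eventually_iff.1 hev
  refine ⟨δ₁, hδ₁, fun δ hδ hδδ ψ hψ => ?_⟩
  -- points on the horizontal segment
  have hseg : ∀ w : ℂ, w.re ∈ Ioo z.re (z.re + δ) →
      (⟨w.re, z.im⟩ : ℂ) ∈ D ∧ |A ⟨w.re, z.im⟩ - A z| ≤ η := by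
    intro w hw
    apply hb
    rw [mem_closedBall_iff_norm]
    have h1 : (⟨w.re, z.im⟩ : ℂ) - z = ((w.re - z.re : ℝ) : ℂ) := by
      apply Complex.ext <;> simp
    rw [h1, Complex.norm_real, Real.norm_eq_abs, abs_of_pos (by linarith [hw.1])]
    linarith [hw.2]
  have hint : ∀ {β : ℝ → ℝ} {c d : ℝ}, C5W β c d →
      IntegrableOn (fun w => c5T ψ β w * A w) D ∧ IntegrableOn (c5T ψ β) D := by
    intro β c d hβ
    refine ⟨c5_intA h hε1 hP hψ.smooth.continuous hψ.zeroIcc hβ.smooth.continuous hβ.zeroIcc, ?_⟩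
    have := c5_int0 hψ.smooth.continuous hψ.zeroIcc hβ.smooth.continuous hβ.zeroIcc
      (continuous_const (y := (1 : ℝ))) D
    simpa using this
  refine ⟨fun β d hβ => ?_, fun β c hβ => ?_⟩
  · obtain ⟨i1, i2⟩ := hint hβ
    have h1 : 0 ≤ ∫ w in D, (c5T ψ β w * A w - c5T ψ β w * (A z - η)) := by
      refine setIntegral_nonneg hD.measurableSet fun w hw => ?_
      by_cases h2 : w.re ∈ Ioo z.re (z.re + δ)
      · by_cases h3 : w.im ∈ Ioo z.im d
        · obtain ⟨h4, h5⟩ := hseg w h2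
          have h6 : A ⟨w.re, z.im⟩ ≤ A w := hP.mono _ _ h4 hw rfl h3.1.le
          have h7 := (abs_le.1 h5).1
          rw [← mul_sub]
          refine mul_nonneg (mul_nonneg (hψ.nonneg _) (hβ.nonneg _)) ?_
          linarith
        · have : c5T ψ β w = 0 := by
            unfold c5T
            rw [hβ.zero _ h3, mul_zero]
          rw [this]
          simp
      · have : c5T ψ β w = 0 := by
          unfold c5T
          rw [hψ.zero _ h2, zero_mul]
        rw [this]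
        simp
    rw [integral_sub i1 (i2.mul_const _), integral_mul_const, c5T_int h hψ hβ, one_mul] at h1
    linarith
  · obtain ⟨i1, i2⟩ := hint hβ
    have h1 : 0 ≤ ∫ w in D, (c5T ψ β w * (A z + η) - c5T ψ β w * A w) := by
      refine setIntegral_nonneg hD.measurableSet fun w hw => ?_
      by_cases h2 : w.re ∈ Ioo z.re (z.re + δ)
      · by_cases h3 : w.im ∈ Ioo c z.im
        · obtain ⟨h4, h5⟩ := hseg w h2
          have h6 : A w ≤ A ⟨w.re, z.im⟩ := hP.mono _ _ hw h4 rfl h3.2.le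
          have h7 := (abs_le.1 h5).2
          rw [← mul_sub]
          refine mul_nonneg (mul_nonneg (hψ.nonneg _) (hβ.nonneg _)) ?_
          linarith
        · have : c5T ψ β w = 0 := by
            unfold c5T
            rw [hβ.zero _ h3, mul_zero]
          rw [this]
          simp
      · have : c5T ψ β w = 0 := by
          unfold c5T
          rw [hψ.zero _ h2, zero_mul]
        rw [this]
        simp
    rw [integral_sub (i2.mul_const _) i1, integral_mul_const, c5T_int h hψ hβ, one_mul] at h1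
    linarith

/-- the windows to the left of the slits -/
def c5Q (R : ℝ) (k : ℕ) : Set ℂ :=
  {z | z.re ∈ Ico (-((k : ℝ) + 4) * R) (-((k : ℝ) + 3) * R) ∧ |z.im| ≤ 3 * R}

theorem c5Q_meas (R : ℝ) (k : ℕ) : MeasurableSet (c5Q R k) := by
  have h1 : MeasurableSet {z : ℂ | z.re ∈ Ico (-((k : ℝ) + 4) * R) (-((k : ℝ) + 3) * R)} :=
    Complex.measurable_re measurableSet_Ico
  have h2 : MeasurableSet {z : ℂ | |z.im| ≤ 3 * R} :=
    measurableSet_le (Complex.measurable_im.abs) measurable_const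
  exact h1.inter h2

theorem c5Q_disj {R : ℝ} (hR : 0 < R) {k l : ℕ} (hkl : k < l) : Disjoint (c5Q R k) (c5Q R l) := by
  rw [Set.disjoint_left]
  rintro z ⟨⟨h1, -⟩, -⟩ ⟨⟨-, h2⟩, -⟩
  have h3 : (k : ℝ) + 1 ≤ l := by exact_mod_cast hkl
  have h4 : ((k : ℝ) + 4) * R ≤ ((l : ℝ) + 3) * R := mul_le_mul_of_nonneg_right (by linarith) hR.le
  linarith

theorem c5Q_vol {R : ℝ} (hR : 0 < R) (k : ℕ) :
    volume (c5Q R k) ≤ ENNReal.ofReal (Real.pi * (4 * R) ^ 2) := by
  refine le_trans (measure_mono ?_) (c5_vol (((-((k : ℝ) + 7 / 2) * R : ℝ)) : ℂ)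
    (r := 4 * R) (by positivity))
  rintro z ⟨⟨h1, h2⟩, h3⟩
  rw [mem_closedBall_iff_norm]
  refine (Complex.norm_le_abs_re_add_abs_im _).trans ?_
  have h4 : |(z - (((-((k : ℝ) + 7 / 2) * R : ℝ)) : ℂ)).re| ≤ R / 2 := by
    rw [Complex.sub_re, Complex.ofReal_re, abs_le]
    constructor <;> nlinarith
  have h5 : |(z - (((-((k : ℝ) + 7 / 2) * R : ℝ)) : ℂ)).im| ≤ 3 * R := by
    rw [Complex.sub_im, Complex.ofReal_im, sub_zero]
    exact h3
  linarith

theorem c5_pigeon (hR : 0 < R) (h : SlitFam p τ ℓ ε R R) (hP : PreTest p τ ℓ ε R A B) {M : ℕ}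
    (hM : 0 < M) : ∃ k < M,
      ∫ z in (SF p τ ℓ)ᶜ ∩ c5Q R k, (dY A z - 1) ^ 2 ≤ 200 * R ^ 2 / M := by
  set D := (SF p τ ℓ)ᶜ with hDdef
  have hD : IsOpen D := c5_isOpen h
  by_contra hcon
  push Not at hcon
  have h1 : ∫ z in ⋃ k ∈ Finset.range M, (D ∩ c5Q R k), (dY A z - 1) ^ 2 =
      ∑ k ∈ Finset.range M, ∫ z in D ∩ c5Q R k, (dY A z - 1) ^ 2 := by
    refine integral_biUnion_finset _ (fun k _ => hD.measurableSet.inter (c5Q_meas R k)) ?_
      (fun k _ => hP.intY.mono_set inter_subset_left)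
    intro k _ l _ hkl
    simp only [Function.onFun]
    rcases lt_or_gt_of_ne hkl with h2 | h2
    · exact (c5Q_disj hR h2).mono inter_subset_right inter_subset_right
    · exact ((c5Q_disj hR h2).mono inter_subset_right inter_subset_right).symm
  have h2 : ∫ z in ⋃ k ∈ Finset.range M, (D ∩ c5Q R k), (dY A z - 1) ^ 2 ≤ 200 * R ^ 2 := by
    refine le_trans (setIntegral_mono_set hP.intY ?_ ?_) hP.enY
    · exact Eventually.of_forall fun z => sq_nonneg _
    · have : (⋃ k ∈ Finset.range M, (D ∩ c5Q R k)) ⊆ D :=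
        iUnion₂_subset fun k _ => inter_subset_left
      exact this.eventuallyLE
  have h3 : ∑ _k ∈ Finset.range M, 200 * R ^ 2 / (M : ℝ) <
      ∑ k ∈ Finset.range M, ∫ z in D ∩ c5Q R k, (dY A z - 1) ^ 2 := by
    refine Finset.sum_lt_sum_of_nonempty (Finset.nonempty_range_iff.2 hM.ne') fun k hk => ?_
    exact hcon k (Finset.mem_range.1 hk)
  rw [Finset.sum_const, Finset.card_range, nsmul_eq_mul] at h3
  have hM' : (M : ℝ) ≠ 0 := by exact_mod_cast hM.ne'
  have h4 : (M : ℝ) * (200 * R ^ 2 / M) = 200 * R ^ 2 := by field_simp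
  linarith

theorem c5_avg (h : SlitFam p τ ℓ ε R R) {u v : ℝ → ℝ} {a b c d : ℝ} (hu : C5W u a b)
    (hv : C5W v c d) {f : ℂ → ℝ} (hf : IntegrableOn (fun z => c5T u v z * f z) (SF p τ ℓ)ᶜ)
    {m t : ℝ} (hb : ∀ z ∈ (SF p τ ℓ)ᶜ, z.re ∈ Ioo a b → z.im ∈ Ioo c d → |f z - m| ≤ t) :
    |(∫ z in (SF p τ ℓ)ᶜ, c5T u v z * f z) - m| ≤ t := by
  set D := (SF p τ ℓ)ᶜ with hDdef
  have hD : IsOpen D := c5_isOpen h
  have i2 : IntegrableOn (c5T u v) D := by
    have := c5_int0 hu.smooth.continuous hu.zeroIcc hv.smooth.continuous hv.zeroIcc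
      (continuous_const (y := (1 : ℝ))) D
    simpa using this
  have key : ∀ z ∈ D, |c5T u v z * f z - c5T u v z * m| ≤ c5T u v z * t := by
    intro z hz
    have h0 : 0 ≤ c5T u v z := mul_nonneg (hu.nonneg _) (hv.nonneg _)
    rw [← mul_sub, abs_mul, abs_of_nonneg h0]
    by_cases h2 : z.re ∈ Ioo a b
    · by_cases h3 : z.im ∈ Ioo c d
      · exact mul_le_mul_of_nonneg_left (hb z hz h2 h3) h0
      · have : c5T u v z = 0 := by
          unfold c5T
          rw [hv.zero _ h3, mul_zero]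
        rw [this, zero_mul, zero_mul]
    · have : c5T u v z = 0 := by
        unfold c5T
        rw [hu.zero _ h2, zero_mul]
      rw [this, zero_mul, zero_mul]
  have e1 : (∫ z in D, c5T u v z * f z) - m =
      ∫ z in D, (c5T u v z * f z - c5T u v z * m) := by
    rw [integral_sub hf (i2.mul_const _), integral_mul_const, c5T_int h hu hv, one_mul]
  rw [e1]
  refine abs_integral_le_integral_abs.trans ?_
  have h3 : ∫ z in D, |c5T u v z * f z - c5T u v z * m| ≤ ∫ z in D, c5T u v z * t := by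
    refine setIntegral_mono_on (hf.sub (i2.mul_const _)).abs (i2.mul_const _)
      hD.measurableSet key
  refine h3.trans ?_
  rw [integral_mul_const, c5T_int h hu hv, one_mul]

theorem PreTest.near {R η : ℝ} (hR : 0 < R) (hη : 0 < η) : ∃ ε₀ > 0, ∀ ε : ℝ, 0 < ε → ε ≤ ε₀ →
    ∀ (ι : Type) (p : ι → ℂ) (τ ℓ : ι → ℝ) (A B : ℂ → ℝ), SlitFam p τ ℓ ε R R →
      PreTest p τ ℓ ε R A B →
      ∃ c₁ : ℝ, |c₁| ≤ 12 * R ∧ ∀ z ∈ box R \ SF p τ ℓ, |A z - c₁ - z.im| ≤ η := by
  obtain ⟨b, hb, S, hS1, hS, hS'⟩ := c5_bump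
  have hS0 : 0 < S := lt_of_lt_of_le one_pos hS1
  have hpi := Real.pi_pos
  set C₀ : ℝ := R⁻¹ * S / 2 * (200 * R ^ 2 + Real.pi * (4 * R) ^ 2) with hC₀
  have hC₀0 : 0 < C₀ := by positivity
  obtain ⟨N, hN⟩ := exists_nat_gt (C₀ * 8 / η)
  have hN0 : (0 : ℝ) < N := lt_trans (by positivity) hN
  have hNN : 0 < N := by exact_mod_cast hN0
  have hCN : C₀ / N ≤ η / 8 := by
    rw [div_lt_iff₀ hη] at hN
    rw [div_le_iff₀ hN0]
    linarith
  set M : ℕ := N * N with hM
  have hM0 : 0 < M := Nat.mul_pos hNN hNN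
  have hMr : (M : ℝ) = N * N := by rw [hM]; push_cast; ring
  set h0 : ℝ := min (η / 4) (R / 2) with hh0
  have hh0p : 0 < h0 := lt_min (by positivity) (by positivity)
  have hh0a : h0 ≤ η / 4 := min_le_left _ _
  have hh0b : h0 ≤ R / 2 := min_le_right _ _
  set r : ℝ := ((M : ℝ) + 10) * R with hr
  have hMp : (0 : ℝ) < (M : ℝ) := by exact_mod_cast hM0
  have hr0 : 0 < r := by positivity
  set S₀ : ℝ := h0⁻¹ * S with hS₀
  set S₁ : ℝ := h0⁻¹ ^ 2 * S with hS₁
  set K : ℝ := S₀ / 2 * (200 * R ^ 2 + Real.pi * r ^ 2) + S₀ / 2 * (200 * R ^ 2 + Real.pi * r ^ 2) +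
        S₁ * (2 * r + 8 * R) * (Real.pi * r ^ 2) with hK
  have hK0 : 0 < K := by positivity
  refine ⟨min (1 / ((M : ℝ) + 10)) (η / (8 * K)), lt_min (by positivity) (by positivity), ?_⟩
  intro ε hε hεle ι p τ ℓ A B h hP
  have hεM : ε * ((M : ℝ) + 10) ≤ 1 := by
    have h1 := hεle.trans (min_le_left _ _)
    rwa [le_div_iff₀ (by positivity)] at h1
  have hεK : ε * K ≤ η / 8 := by
    have h1 := hεle.trans (min_le_right _ _)
    rw [le_div_iff₀ (by positivity)] at h1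
    linarith
  have hε1 : ε ≤ 1 := by nlinarith
  obtain ⟨k, hkM, hkE⟩ := c5_pigeon hR h hP hM0
  have hkM' : (k : ℝ) + 1 ≤ M := by exact_mod_cast hkM
  have hk0 : (0 : ℝ) ≤ k := Nat.cast_nonneg k
  have hkR : ((k : ℝ) + 1) * R ≤ M * R := mul_le_mul_of_nonneg_right hkM' hR.le
  have hkR0 : 0 ≤ (k : ℝ) * R := by positivity
  set D := (SF p τ ℓ)ᶜ with hDdef
  set u : ℝ → ℝ := c5w b R⁻¹ (-((k : ℝ) + 4) * R) with hu
  have hRinv : 0 < R⁻¹ := inv_pos.2 hR
  have huW : C5W u (-((k : ℝ) + 4) * R) (-((k : ℝ) + 3) * R) := by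
    refine c5w_W hb hRinv.ne' fun s hs => ?_
    have h1 : s - -((k : ℝ) + 4) * R = R * (R⁻¹ * (s - -((k : ℝ) + 4) * R)) := by
      rw [mul_inv_cancel_left₀ hR.ne']
    have h2 : 0 < s - -((k : ℝ) + 4) * R := by
      rw [h1]
      exact mul_pos hR hs.1
    have h3 : s - -((k : ℝ) + 4) * R < R * 1 := by
      rw [h1]
      exact mul_lt_mul_of_pos_left hs.2 hR
    constructor <;> linarith
  have huS : ∀ x, u x ≤ R⁻¹ * S := by
    intro x
    have := c5w_le hS R⁻¹ (-((k : ℝ) + 4) * R) x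
    rwa [abs_of_pos hRinv] at this
  set κ : ℝ → ℝ := c5w b (R / 2)⁻¹ 0 with hκ
  have hκW : C5W κ 0 (R / 2) := by
    have hR2 : 0 < R / 2 := by positivity
    refine c5w_W hb (inv_pos.2 hR2).ne' fun s hs => ?_
    have h1 : s - 0 = R / 2 * ((R / 2)⁻¹ * (s - 0)) := by
      rw [mul_inv_cancel_left₀ hR2.ne']
    have h2 : 0 < s - 0 := by
      rw [h1]
      exact mul_pos hR2 hs.1
    have h3 : s - 0 < R / 2 * 1 := by
      rw [h1]
      exact mul_lt_mul_of_pos_left hs.2 hR2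
    constructor <;> linarith
  have i2 : ∀ {v : ℝ → ℝ} {c d : ℝ}, C5W v c d →
      IntegrableOn (fun z => c5T u v z * A z) D ∧
      IntegrableOn (fun z => c5T u v z * z.im) D ∧
      IntegrableOn (fun z => c5T u v z * (A z - z.im)) D := by
    intro v c d hv
    have h1 := c5_intA h hε1 hP huW.smooth.continuous huW.zeroIcc hv.smooth.continuous hv.zeroIcc
    have h2 := c5_int0 huW.smooth.continuous huW.zeroIcc hv.smooth.continuous hv.zeroIcc
      Complex.continuous_im D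
    have h3 : (fun z => c5T u v z * (A z - z.im)) =
        fun z => c5T u v z * A z - c5T u v z * z.im := by
      funext z; ring
    refine ⟨h1, h2, ?_⟩
    rw [h3]
    exact h1.sub h2
  refine ⟨∫ z in D, c5T u κ z * (A z - z.im), ?_, ?_⟩
  · have h1 := c5_avg h huW hκW (i2 hκW).2.2 (m := 0) (t := 12 * R) ?_
    · rwa [sub_zero] at h1
    intro z hz hzr hzi
    have h2 := hP.bdA z hz
    have h3 : |z.re| ≤ ((k : ℝ) + 4) * R := by
      rw [abs_le]
      constructor <;> linarith [hzr.1, hzr.2]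
    have h4 : |z.im| ≤ R / 2 := by
      rw [abs_le]
      constructor <;> linarith [hzi.1, hzi.2]
    have h5 : ε * |z.re| ≤ R := by
      calc ε * |z.re| ≤ ε * (((M : ℝ) + 10) * R) := by
            refine mul_le_mul_of_nonneg_left ?_ hε.le
            linarith
        _ = (ε * ((M : ℝ) + 10)) * R := by ring
        _ ≤ 1 * R := mul_le_mul_of_nonneg_right hεM hR.le
        _ = R := one_mul R
    rw [sub_zero]
    have h6 : |A z - z.im| ≤ |A z| + |z.im| := abs_sub _ _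
    linarith
  set c₁ : ℝ := ∫ z in D, c5T u κ z * (A z - z.im) with hc₁
  rintro z ⟨hzbox, hzD⟩
  obtain ⟨hzr, hzi⟩ : |z.re| ≤ 2 * R ∧ |z.im| ≤ 2 * R := hzbox
  rw [abs_le] at hzr hzi
  obtain ⟨δ₁, hδ₁, hpt⟩ := c5_point hε1 h hP (z := z) hzD (η := η / 8) (by positivity)
  set δ : ℝ := min δ₁ R with hδ
  have hδ0 : 0 < δ := lt_min hδ₁ hR
  have hδR : δ ≤ R := min_le_right _ _
  have hδinv : 0 < δ⁻¹ := inv_pos.2 hδ0
  set ψ : ℝ → ℝ := c5w b δ⁻¹ z.re with hψ
  have hψW : C5W ψ z.re (z.re + δ) := by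
    refine c5w_W hb hδinv.ne' fun s hs => ?_
    have h1 : s - z.re = δ * (δ⁻¹ * (s - z.re)) := by
      rw [mul_inv_cancel_left₀ hδ0.ne']
    have h2 : 0 < s - z.re := by
      rw [h1]
      exact mul_pos hδ0 hs.1
    have h3 : s - z.re < δ * 1 := by
      rw [h1]
      exact mul_lt_mul_of_pos_left hs.2 hδ0
    constructor <;> linarith
  obtain ⟨hup, hlow⟩ := hpt δ hδ0 (min_le_left _ _) ψ hψW
  have win : ∀ (β : ℝ → ℝ) (c d : ℝ), C5W β c d → z.im - h0 ≤ c → d ≤ z.im + h0 →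
      (∀ x, β x ≤ S₀) → (∀ x, |deriv β x| ≤ S₁) →
      |(∫ w in D, c5T ψ β w * A w) - c₁ - z.im| ≤ η / 4 + h0 := by
    intro β c d hβ hc hd hβ0 hβ1
    have hdr := c5_drift hε hε1 hR h hP huW hψW hβ (by linarith : -((k : ℝ) + 3) * R ≤ z.re)
      hβ0 hβ1 hr0.le (by
        intro w hw1 hw2
        refine (Complex.norm_le_abs_re_add_abs_im _).trans ?_
        have h1 : -((k : ℝ) + 4) * R ≤ w.re := by
          refine le_trans (le_min le_rfl ?_) hw1.1
          linarith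
        have h2 : w.re ≤ 3 * R := by
          refine hw1.2.trans (max_le ?_ ?_) <;> linarith
        have h3 : |w.re| ≤ ((k : ℝ) + 4) * R := by
          rw [abs_le]
          constructor <;> linarith
        have h4 : |w.im| ≤ 3 * R := by
          rw [abs_le]
          constructor <;> linarith [hw2.1, hw2.2]
        rw [hr]
        linarith)
    have hle := c5_left hε1 hR h hP huW hβ hκW (by linarith) huS (c5Q_meas R k) (by
        intro w hw1 hw2
        refine ⟨⟨hw1.1.le, hw1.2⟩, ?_⟩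
        have h1 : -(3 * R) ≤ w.im := le_trans (le_min (by linarith) (by linarith)) hw2.1
        have h2 : w.im ≤ 3 * R := hw2.2.trans (max_le (by linarith) (by linarith))
        exact abs_le.2 ⟨h1, h2⟩) (by positivity) (c5Q_vol hR k) hN0 hkE
    have hE : R⁻¹ * S / 2 * ((N : ℝ) * (200 * R ^ 2 / (M : ℝ))) +
        R⁻¹ * S / 2 * (Real.pi * (4 * R) ^ 2 / (N : ℝ)) = C₀ / N := by
      rw [hMr, hC₀]
      field_simp
    rw [hE] at hle
    have him := c5_avg h huW hβ (i2 hβ).2.1 (m := z.im) (t := h0) (by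
      intro w _ _ hw
      rw [abs_le]
      constructor <;> linarith [hw.1, hw.2])
    have e1 : ∫ w in D, c5T u β w * (A w - w.im) =
        (∫ w in D, c5T u β w * A w) - ∫ w in D, c5T u β w * w.im := by
      rw [← integral_sub (i2 hβ).1 (i2 hβ).2.1]
      refine setIntegral_congr_fun (c5_isOpen h).measurableSet fun w _ => ?_
      ring
    rw [e1] at hle
    have hdr' := hdr.trans hεK
    have hle' := hle.trans hCN
    rw [abs_le] at hdr' hle' him ⊢
    constructor <;> linarith [hdr'.1, hdr'.2, hle'.1, hle'.2, him.1, him.2]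
  have hhinv : 0 < h0⁻¹ := inv_pos.2 hh0p
  have hW1 : C5W (c5w b h0⁻¹ z.im) z.im (z.im + h0) := by
    refine c5w_W hb hhinv.ne' fun s hs => ?_
    have h1 : s - z.im = h0 * (h0⁻¹ * (s - z.im)) := by
      rw [mul_inv_cancel_left₀ hh0p.ne']
    have h2 : 0 < s - z.im := by
      rw [h1]
      exact mul_pos hh0p hs.1
    have h3 : s - z.im < h0 * 1 := by
      rw [h1]
      exact mul_lt_mul_of_pos_left hs.2 hh0p
    constructor <;> linarith
  have hW2 : C5W (c5w b (-h0⁻¹) z.im) (z.im - h0) z.im := by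
    refine c5w_W hb (neg_ne_zero.2 hhinv.ne') fun s hs => ?_
    have h1 : z.im - s = h0 * (-h0⁻¹ * (s - z.im)) := by
      have : -h0⁻¹ * (s - z.im) = h0⁻¹ * (z.im - s) := by ring
      rw [this, mul_inv_cancel_left₀ hh0p.ne']
    have h2 : 0 < z.im - s := by
      rw [h1]
      exact mul_pos hh0p hs.1
    have h3 : z.im - s < h0 * 1 := by
      rw [h1]
      exact mul_lt_mul_of_pos_left hs.2 hh0p
    constructor <;> linarith
  have w1 := win _ _ _ hW1 (by linarith) le_rfl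
    (fun x => by
      have := c5w_le hS h0⁻¹ z.im x
      rwa [abs_of_pos hhinv] at this) (c5w_deriv hb hS' _ _)
  have w2 := win _ _ _ hW2 le_rfl (by linarith)
    (fun x => by
      have := c5w_le hS (-h0⁻¹) z.im x
      rwa [abs_neg, abs_of_pos hhinv] at this)
    (fun x => by
      have := c5w_deriv hb hS' (-h0⁻¹) z.im x
      rwa [neg_sq] at this)
  have p1 := hup _ _ hW1
  have p2 := hlow _ _ hW2
  rw [abs_le] at w1 w2 ⊢
  constructor <;> linarith [w1.1, w1.2, w2.1, w2.2]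

end RSM2
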