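import Pool.Agent.RSM2.C4
import Pool.Agent.RSM2.C5

/-!
# RSM2 module C6: existence of test pairs

PROOF.  `C = C(R)`; `ε₀ ≤ 1` from `PreTest.near`; `A' = A - c₁`, `B' = B`.
`|B| ≤ ε (2εR + 2R + 8R) ≤ 12 R ε` on the box; `∫_box A_x² ≤ 200 ε² R²`;
`∫_box A_y² ≤ 2 ∫ (A_y - 1)² + 2 · 16 R² ≤ 432 R²` (the area of `box R` is `16 R²`).
The other properties do not change when the constant `c₁` is subtracted from `A`
(`B - τ (A - c₁) = B - τ A + τ c₁`).
-/

open Complex Set Metric Filter Topology MeasureTheory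

namespace RSM2

theorem c6_nice_sub_const {D T : Set ℂ} {a : ℂ → ℝ} (h : Nice D T a) (c : ℝ) :
    Nice D T (fun z => a z - c) := by
  refine ⟨h.smooth.sub contDiffOn_const, ?_, ?_⟩
  · obtain ⟨M, hM⟩ := h.bdd
    refine ⟨M + |c|, fun z hz => ?_⟩
    have h1 := hM z hz
    have h2 := abs_sub (a z) c
    linarith
  · have h1 : (fun z => ‖fderiv ℝ (fun w => a w - c) z‖ ^ 2) = fun z => ‖fderiv ℝ a z‖ ^ 2 := by
      funext z
      rw [fderiv_sub_const]
    rw [h1]
    exact h.l2

theorem c6_dX (a : ℂ → ℝ) (c : ℝ) (z : ℂ) : dX (fun w => a w - c) z = dX a z := by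
  unfold dX
  rw [fderiv_sub_const]

theorem c6_dY (a : ℂ → ℝ) (c : ℝ) (z : ℂ) : dY (fun w => a w - c) z = dY a z := by
  unfold dY
  rw [fderiv_sub_const]

theorem c6_box_sub {R : ℝ} (hR : 0 < R) : box R ⊆ closedBall 0 (3 * R) := by
  rintro z ⟨h1, h2⟩
  rw [mem_closedBall_zero_iff]
  have h3 : ‖z‖ ^ 2 ≤ (3 * R) ^ 2 := by
    rw [← normSq_eq_norm_sq, normSq_apply]
    have h4 : z.re * z.re ≤ (2 * R) * (2 * R) := by
      rw [← abs_mul_abs_self z.re]
      exact mul_le_mul h1 h1 (abs_nonneg _) (by positivity)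
    have h5 : z.im * z.im ≤ (2 * R) * (2 * R) := by
      rw [← abs_mul_abs_self z.im]
      exact mul_le_mul h2 h2 (abs_nonneg _) (by positivity)
    nlinarith
  exact le_of_sq_le_sq h3 (by positivity)

theorem exists_testPair {R : ℝ} (hR : 0 < R) : ∃ C > 0, ∀ η > 0, ∃ ε₀ > 0, ∀ ε : ℝ, 0 < ε →
    ε ≤ ε₀ → ∀ (ι : Type) (p : ι → ℂ) (τ ℓ : ι → ℝ), SlitFam p τ ℓ ε R R →
      ∃ A B : ℂ → ℝ, TestPair p τ ℓ ε R C η A B := by
  refine ⟨12 * R + 500 * R ^ 2, by positivity, fun η hη => ?_⟩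
  obtain ⟨ε₁, hε₁, hnear⟩ := PreTest.near hR hη
  refine ⟨min ε₁ 1, lt_min hε₁ one_pos, fun ε hε hεle ι p τ ℓ hfam => ?_⟩
  have hε1 : ε ≤ 1 := hεle.trans (min_le_right _ _)
  obtain ⟨A, B, hAB⟩ := exists_preTest hε hε1 hR hfam
  obtain ⟨c₁, hc₁, hcn⟩ := hnear ε hε (hεle.trans (min_le_left _ _)) ι p τ ℓ A B hfam hAB
  have hSc : IsCompact (SF p τ ℓ) := hfam.isCompact
  have hSo : IsOpen (SF p τ ℓ)ᶜ := hSc.isClosed.isOpen_compl
  have hbm : MeasurableSet (box R \ SF p τ ℓ) := by
    apply MeasurableSet.diff _ hSc.measurableSet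
    have h1 : IsClosed {z : ℂ | |z.re| ≤ 2 * R} :=
      isClosed_le (continuous_abs.comp continuous_re) continuous_const
    have h2 : IsClosed {z : ℂ | |z.im| ≤ 2 * R} :=
      isClosed_le (continuous_abs.comp continuous_im) continuous_const
    exact (h1.inter h2).measurableSet
  have hsub : box R \ SF p τ ℓ ⊆ (SF p τ ℓ)ᶜ := fun z hz => hz.2
  refine ⟨fun z => A z - c₁, B, ?_⟩
  refine
    { niceA := fun r => c6_nice_sub_const (hAB.niceA r) c₁
      niceB := hAB.niceB
      rel1 := fun z hz => by rw [c6_dX]; exact hAB.rel1 z hz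
      rel2 := fun z hz => by rw [c6_dY]; exact hAB.rel2 z hz
      mono := ?_
      near := hcn
      small := fun z hz => ?_
      enX := ?_
      enY := ?_
      compat := fun j => ?_ }
  · have hm := hAB.mono
    intro z w hz hw hre him
    have h1 := hm z w hz hw hre him
    show A z - c₁ ≤ A w - c₁
    linarith
  · have h1 := hAB.bdB z hz.2
    obtain ⟨h2, h3⟩ := hz.1
    have h4 : ε * |z.re| ≤ 1 * (2 * R) := mul_le_mul hε1 h2 (abs_nonneg _) zero_le_one
    have h5 : ε * (ε * |z.re| + |z.im| + 8 * R) ≤ ε * (12 * R) :=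
      mul_le_mul_of_nonneg_left (by linarith) hε.le
    have h6 : 0 ≤ R ^ 2 * ε := by positivity
    nlinarith
  · simp only [c6_dX]
    have h1 : ∫ z in box R \ SF p τ ℓ, dX A z ^ 2 ≤ ∫ z in (SF p τ ℓ)ᶜ, dX A z ^ 2 := by
      apply setIntegral_mono_set hAB.intX
      · exact Eventually.of_forall fun z => by positivity
      · exact hsub.eventuallyLE
    have h2 := hAB.enX
    have h6 : 0 ≤ R * ε ^ 2 := by positivity
    have h7 : 0 ≤ R ^ 2 * ε ^ 2 := by positivity
    nlinarith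
  · simp only [c6_dY]
    have hvol : volume (box R \ SF p τ ℓ) ≤ ENNReal.ofReal (36 * R ^ 2) := by
      calc volume (box R \ SF p τ ℓ) ≤ volume (closedBall (0 : ℂ) (3 * R)) :=
            measure_mono (sdiff_subset.trans (c6_box_sub hR))
        _ = ENNReal.ofReal (3 * R) ^ 2 * NNReal.pi := Complex.volume_closedBall _ _
        _ ≤ ENNReal.ofReal (36 * R ^ 2) := by
            rw [← ENNReal.ofReal_pow (by positivity)]
            have h1 : (NNReal.pi : ENNReal) = ENNReal.ofReal Real.pi := by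
              rw [← NNReal.coe_real_pi, ENNReal.ofReal_coe_nnreal]
            rw [h1, ← ENNReal.ofReal_mul (by positivity)]
            apply ENNReal.ofReal_le_ofReal
            nlinarith [Real.pi_le_four, sq_nonneg R]
    have hvol' : volume (box R \ SF p τ ℓ) ≠ ⊤ :=
      ne_top_of_le_ne_top ENNReal.ofReal_ne_top hvol
    have hi2 : IntegrableOn (fun z => 2 * (dY A z - 1) ^ 2 + 2) (box R \ SF p τ ℓ) := by
      apply Integrable.add
      · exact (hAB.intY.mono_set hsub).const_mul 2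
      · exact integrableOn_const hvol'
    have h1 : ∫ z in box R \ SF p τ ℓ, dY A z ^ 2 ≤
        ∫ z in box R \ SF p τ ℓ, (2 * (dY A z - 1) ^ 2 + 2) := by
      apply integral_mono_of_nonneg
      · exact Eventually.of_forall fun z => by positivity
      · exact hi2
      · refine Eventually.of_forall fun z => ?_
        simp only
        nlinarith [sq_nonneg (dY A z - 2)]
    have h2 : ∫ z in box R \ SF p τ ℓ, (2 * (dY A z - 1) ^ 2 + 2) =
        2 * (∫ z in box R \ SF p τ ℓ, (dY A z - 1) ^ 2) +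
          (volume (box R \ SF p τ ℓ)).toReal * 2 := by
      rw [integral_add ((hAB.intY.mono_set hsub).const_mul 2) (integrableOn_const hvol'),
        integral_const_mul, setIntegral_const]
      simp [Measure.real]
    have h3 : ∫ z in box R \ SF p τ ℓ, (dY A z - 1) ^ 2 ≤
        ∫ z in (SF p τ ℓ)ᶜ, (dY A z - 1) ^ 2 := by
      apply setIntegral_mono_set hAB.intY
      · exact Eventually.of_forall fun z => by positivity
      · exact hsub.eventuallyLE
    have h4 := hAB.enY
    have h5 : (volume (box R \ SF p τ ℓ)).toReal ≤ 36 * R ^ 2 :=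
      ENNReal.toReal_le_of_le_ofReal (by positivity) hvol
    nlinarith
  · obtain ⟨b, hb⟩ := hAB.compat j
    refine ⟨b + τ j * c₁, ?_⟩
    have h1 : (fun z => B z - τ j * (A z - c₁)) = fun z => (B z - τ j * A z) + τ j * c₁ := by
      funext z; ring
    rw [h1]
    exact hb.add tendsto_const_nhds

end RSM2
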