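import Pool.Agent.RSM2.A1
import Pool.Agent.RSM2.C6

/-!
# RSM2 module A2: step (a)

SETTING (`StepAData`).  `S₀ = slit p₀ 0 ℓ₀` is a horizontal slit at the height `y₀ = im p₀`,
disjoint from the slits of the family `p, τ, ℓ` (slopes at most `ε`), all in `|x|, |y| ≤ R`;
`D = (S₀ ∪ SF)ᶜ`; `u, v` are nice on `D`, vanish outside of `closedBall 0 R`, bounded by `M`,
Dirichlet integrals at most `M²`, and `∫ u_y²`, `∫ v_x²` at most `δ²`; `v - τ_j u` tends to a constant at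
the slit `j`.  CLAIM: the flux of `x dv` at `S₀` is small.

PROOF of `flux_eq`.  Let `(A, B)` be a test pair and `a` a `C^∞` function on the line such that
`a (A z) = 1` and `deriv a (A z) = 0` for all `z ∈ D` in a neighbourhood of `S₀`.  Let
`T = closedBall 0 (3R)`.  `stokes_sum` for the holes `S₀` and the slits of the family (index type
`Option ι`), cut-offs from `exists_cut` with disjoint supports (for `S₀` the given `X`: it can be
replaced by any other cut-off by `Fl_eq_of_cut`), for each of the four terms of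
`∫_D (J (g u) im - J (g v) re + J (h u) B - J (h v) A)`, `g = a ∘ A`, `h = re · (a' ∘ A)`.  (`u, v` vanish
near every point of `D \ T`.)  The fluxes at the slits `j` add up to `0` (`omega_flux`).  At
`S₀`: choose the cut-off with support where `g = 1`, `h = 0`: the flux is
`Fl u im - Fl v re + 0 = 0 + Fl re v` (`im → y₀` at `S₀`: `Fl_of_tendsto_right`; `Fl_swap`).
PROOF of `stepA`.  Let `C = C(R)` (`exists_testPair`), `η > 0`.  Choose `t ∈ (0, R/8)` with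
`√(16 t R) · 2M ≤ η/4`; `η' = t`.  Let `a λ = a₀ ((λ - y₀)/t)` with a fixed `C^∞` function `a₀`,
`0 ≤ a₀ ≤ 1`, `a₀ = 1` on `[-2, 2]`, `a₀ = 0` off `[-3, 3]`, `|a₀'|, |a₀''| ≤ K`.  For `ε ≤ ε₀(t)` there is a
test pair with `|A - y| ≤ t` on `box R`.  Near `S₀`, `|A - y₀| ≤ |A - y| + |y - y₀| < 2t`: the assumption of
`flux_eq` holds.  `a (A z) ≠ 0` and `z ∈ D ∩ closedBall 0 R` imply `|y - y₀| ≤ 4t`.  By
`omega_identity` (on `D`) the flux is the integral over `D ∩ closedBall 0 R` of four terms: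
(i) `|a(A) (u_x + v_y)|`: Cauchy-Schwarz on the set `{|y - y₀| ≤ 4t} ∩ closedBall 0 R` of area
`≤ 8t · 2R`: `≤ √(16 t R) · 2M ≤ η/4`;
(ii) `2 |a'| |u| |A_x| ≤ 2 (K/t) M ∫_box |A_x| ≤ 2 (K/t) M 4R √C ε`;
(iii) `|x a'' u| (A_x² + ε² A_y²) ≤ R (K/t²) M · 2 C ε²`;
(iv) `|x a'| (|u_x A_x| + ε² |u_y A_y| + |v_x A_y| + |v_y A_x|) ≤ R (K/t) (M √C ε + ε² M √C + δ √C + M √C ε)`.
For fixed `t` the terms (ii)-(iv) are `≤ η/4` each if `ε, δ` are small.
-/

open Complex Set Metric Filter Topology MeasureTheory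

namespace RSM2

structure StepAData {ι : Type} (p : ι → ℂ) (τ ℓ : ι → ℝ) (ε R M δ : ℝ) (p₀ : ℂ) (ℓ₀ : ℝ)
    (u v : ℂ → ℝ) : Prop where
  fam : SlitFam p τ ℓ ε R R
  pos₀ : 0 < ℓ₀
  box₀ : ∀ z ∈ slit p₀ 0 ℓ₀, |z.re| ≤ R ∧ |z.im| ≤ R
  disj : Disjoint (slit p₀ 0 ℓ₀) (SF p τ ℓ)
  niceu : ∀ r, Nice (slit p₀ 0 ℓ₀ ∪ SF p τ ℓ)ᶜ (closedBall 0 r) u
  nicev : ∀ r, Nice (slit p₀ 0 ℓ₀ ∪ SF p τ ℓ)ᶜ (closedBall 0 r) v
  supp : ∀ z ∈ (slit p₀ 0 ℓ₀ ∪ SF p τ ℓ)ᶜ, R < ‖z‖ → u z = 0 ∧ v z = 0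
  bdd : ∀ z ∈ (slit p₀ 0 ℓ₀ ∪ SF p τ ℓ)ᶜ, |u z| ≤ M ∧ |v z| ≤ M
  enu : ∫ z in (slit p₀ 0 ℓ₀ ∪ SF p τ ℓ)ᶜ, ‖fderiv ℝ u z‖ ^ 2 ≤ M ^ 2
  env : ∫ z in (slit p₀ 0 ℓ₀ ∪ SF p τ ℓ)ᶜ, ‖fderiv ℝ v z‖ ^ 2 ≤ M ^ 2
  smu : ∫ z in (slit p₀ 0 ℓ₀ ∪ SF p τ ℓ)ᶜ, dY u z ^ 2 ≤ δ ^ 2
  smv : ∫ z in (slit p₀ 0 ℓ₀ ∪ SF p τ ℓ)ᶜ, dX v z ^ 2 ≤ δ ^ 2
  compat : ∀ j, ∃ κ : ℝ, Tendsto (fun z => v z - τ j * u z)
    (nearIn (slit p₀ 0 ℓ₀ ∪ SF p τ ℓ)ᶜ (slit (p j) (τ j) (ℓ j))) (𝓝 κ)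

theorem a2_nice_mono {D D' T : Set ℂ} {a : ℂ → ℝ} (ha : Nice D T a) (h : D' ⊆ D) :
    Nice D' T a where
  smooth := ha.smooth.mono h
  bdd := by
    obtain ⟨M, hM⟩ := ha.bdd
    exact ⟨M, fun z hz => hM z ⟨h hz.1, hz.2⟩⟩
  l2 := ha.l2.mono_set (inter_subset_inter_left _ h)

theorem a2_exists_cuts {κ : Type} [Finite κ] {H V : κ → Set ℂ} {T : Set ℂ}
    (hH : ∀ i, IsCompact (H i)) (hdis : ∀ i j, i ≠ j → Disjoint (H i) (H j))
    (hV : ∀ i, IsOpen (V i)) (hHV : ∀ i, H i ⊆ V i) (hVT : ∀ i, V i ⊆ T) :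
    ∃ X : κ → ℂ → ℝ, (∀ i, HoleCut (⋃ i, H i)ᶜ (H i) T (X i)) ∧
      (∀ i j, i ≠ j → ∀ᶠ z in 𝓝ˢ (H j), X i z = 0) ∧ ∀ i, tsupport (X i) ⊆ V i := by
  have hcl : ∀ i, IsClosed (⋃ j ∈ {j | j ≠ i}, H j) := fun i =>
    (toFinite {j | j ≠ i}).isClosed_biUnion fun j _ => (hH j).isClosed
  have key : ∀ i, ∃ X : ℂ → ℝ, ContDiff ℝ (⊤ : ℕ∞) X ∧ HasCompactSupport X ∧
      tsupport X ⊆ V i ∩ (⋃ j ∈ {j | j ≠ i}, H j)ᶜ ∧
      (∀ z, 0 ≤ X z ∧ X z ≤ 1) ∧ ∀ᶠ z in 𝓝ˢ (H i), X z = 1 := by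
    intro i
    refine exists_cut (hH i) ((hV i).inter (hcl i).isOpen_compl) (subset_inter (hHV i) ?_)
    intro z hz hz'
    simp only [mem_iUnion, exists_prop] at hz'
    obtain ⟨j, hj, hzj⟩ := hz'
    exact Set.disjoint_left.mp (hdis j i hj) hzj hz
  choose X hX1 hX2 hX3 hX4 hX5 using key
  have hopen : IsOpen (⋃ i, H i)ᶜ := (isClosed_iUnion_of_finite fun i =>
    (hH i).isClosed).isOpen_compl
  refine ⟨X, fun i => ⟨hopen, hH i, ?_, hX1 i, hX2 i, hX5 i, ?_⟩, fun i j hij => ?_,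
    fun i => (hX3 i).trans inter_subset_left⟩
  · exact Set.disjoint_left.mpr fun z hz hz' => hz (mem_iUnion_of_mem i hz')
  · intro z hz
    obtain ⟨h1, h2⟩ := hX3 i hz
    refine ⟨hVT i h1, ?_⟩
    by_cases hzi : z ∈ H i
    · exact Or.inr hzi
    · left
      intro h3
      obtain ⟨j, hj⟩ := mem_iUnion.mp h3
      apply h2
      simp only [mem_iUnion, exists_prop]
      refine ⟨j, ?_, hj⟩
      rintro rfl
      exact hzi hj
  · have h1 : (tsupport (X i))ᶜ ∈ 𝓝ˢ (H j) := by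
      refine (isClosed_tsupport _).isOpen_compl.mem_nhdsSet.mpr ?_
      intro z hz hz'
      apply (hX3 i hz').2
      simp only [mem_iUnion, exists_prop]
      exact ⟨j, hij.symm, hz⟩
    filter_upwards [h1] with z hz
    exact image_eq_zero_of_notMem_tsupport hz

theorem a2_tendsto {D H : Set ℂ} {f : ℂ → ℝ} {c : ℝ} (hf : Continuous f)
    (h : ∀ z ∈ H, f z = c) : Tendsto f (nearIn D H) (𝓝 c) := by
  have h1 : Tendsto f (𝓝ˢ H) (𝓝ˢ {c}) := hf.tendsto_nhdsSet fun z hz => h z hz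
  rw [nhdsSet_singleton] at h1
  exact h1.mono_left inf_le_left

theorem a2_slit_line {p : ℂ} {τ ℓ : ℝ} : ∀ z ∈ slit p τ ℓ, z.im - τ * z.re = p.im - τ * p.re := by
  rintro _ ⟨t, _, rfl⟩
  simp
  ring

theorem a2_box_ball {R : ℝ} (hR : 0 < R) {z : ℂ} (h1 : |z.re| ≤ R) (h2 : |z.im| ≤ R) :
    z ∈ ball (0 : ℂ) (3 * R) := by
  rw [mem_ball_zero_iff]
  have h3 := Complex.norm_le_abs_re_add_abs_im z
  linarith

theorem flux_eq {ι : Type} {p : ι → ℂ} {τ ℓ : ι → ℝ} {ε R M δ C η : ℝ} {p₀ : ℂ} {ℓ₀ : ℝ}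
    {u v A B : ℂ → ℝ} (hR : 0 < R) (hd : StepAData p τ ℓ ε R M δ p₀ ℓ₀ u v)
    (hAB : TestPair p τ ℓ ε R C η A B) {a : ℝ → ℝ} (ha : ContDiff ℝ (⊤ : ℕ∞) a)
    (ha1 : ∀ᶠ z in nearIn (slit p₀ 0 ℓ₀ ∪ SF p τ ℓ)ᶜ (slit p₀ 0 ℓ₀),
      a (A z) = 1 ∧ deriv a (A z) = 0)
    {X : ℂ → ℝ} (hX : HoleCut (slit p₀ 0 ℓ₀ ∪ SF p τ ℓ)ᶜ (slit p₀ 0 ℓ₀)
      (closedBall 0 (3 * R)) X) :
    Fl (slit p₀ 0 ℓ₀ ∪ SF p τ ℓ)ᶜ X (fun z => z.re) v =
      ∫ z in (slit p₀ 0 ℓ₀ ∪ SF p τ ℓ)ᶜ, (a (A z) * (dX u z + dY v z) +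
        2 * deriv a (A z) * u z * dX A z +
        z.re * deriv (deriv a) (A z) * u z * (dX A z ^ 2 + ε ^ 2 * dY A z ^ 2) +
        z.re * deriv a (A z) * (dX u z * dX A z + ε ^ 2 * (dY u z * dY A z) -
          dX v z * dY A z + dY v z * dX A z)) := by
  classical
  have hfin := hd.fam.fin
  have hFt := Fintype.ofFinite ι
  set D := (slit p₀ 0 ℓ₀ ∪ SF p τ ℓ)ᶜ with hDdef
  set T := closedBall (0 : ℂ) (3 * R) with hT
  let H : Option ι → Set ℂ := fun i => i.elim (slit p₀ 0 ℓ₀) (fun j => slit (p j) (τ j) (ℓ j))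
  have hHU : (⋃ i, H i) = slit p₀ 0 ℓ₀ ∪ SF p τ ℓ := by
    rw [iUnion_option]
    rfl
  have hsub : ∀ j, slit (p j) (τ j) (ℓ j) ⊆ SF p τ ℓ := fun j z hz => mem_iUnion_of_mem j hz
  have hHc : ∀ i, IsCompact (H i) := by
    rintro (_ | j)
    · exact isCompact_slit _ _ _
    · exact isCompact_slit _ _ _
  have hdis : ∀ i j, i ≠ j → Disjoint (H i) (H j) := by
    rintro (_ | i) (_ | j) hij
    · exact absurd rfl hij
    · exact hd.disj.mono_right (hsub j)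
    · exact (hd.disj.mono_right (hsub i)).symm
    · exact hd.fam.disj i j fun h => hij (by rw [h])
  obtain ⟨W, hWo, hW, hWa⟩ := eventually_nearIn.mp ha1
  let V : Option ι → Set ℂ := fun i => i.elim (ball 0 (3 * R) ∩ W) (fun _ => ball 0 (3 * R))
  have hVo : ∀ i, IsOpen (V i) := by
    rintro (_ | j)
    · exact isOpen_ball.inter hWo
    · exact isOpen_ball
  have hHV : ∀ i, H i ⊆ V i := by
    rintro (_ | j) z hz
    · exact ⟨a2_box_ball hR (hd.box₀ z hz).1 (hd.box₀ z hz).2, hW hz⟩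
    · exact a2_box_ball hR (hd.fam.box j z hz).1 (hd.fam.box j z hz).2
  have hVT : ∀ i, V i ⊆ T := by
    rintro (_ | j) z hz
    · exact ball_subset_closedBall hz.1
    · exact ball_subset_closedBall hz
  obtain ⟨X', hX', hX0, hXV⟩ := a2_exists_cuts hHc hdis hVo hHV hVT
  rw [hHU] at hX'
  have hDo : IsOpen D := (hX' none).openD
  have hDS : D ⊆ (SF p τ ℓ)ᶜ := compl_subset_compl.mpr subset_union_right
  -- nice functions
  have haA : ContDiff ℝ 2 a := contDiff_infty.mp ha 2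
  have ha3 : ContDiff ℝ 3 a := contDiff_infty.mp ha 3
  have hda : ContDiff ℝ 2 (deriv a) := contDiff_infty.mp (contDiff_infty_iff_deriv.mp ha).2 2
  have nA : Nice D T A := a2_nice_mono (hAB.niceA _) hDS
  have nB : Nice D T B := a2_nice_mono (hAB.niceB _) hDS
  have nu : Nice D T u := hd.niceu _
  have nv : Nice D T v := hd.nicev _
  have nre : Nice D T (fun w => w.re) := Nice.re hDo Subset.rfl
  have nim : Nice D T (fun w => w.im) := Nice.im hDo Subset.rfl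
  have nga : Nice D T (fun w => a (A w)) := Nice.comp hDo nA haA
  have nda : Nice D T (fun w => deriv a (A w)) := Nice.comp hDo nA hda
  have nrd : Nice D T (fun w => w.re * deriv a (A w)) := Nice.mul hDo nre nda
  have ngu : Nice D T (fun w => a (A w) * u w) := Nice.mul hDo nga nu
  have ngv : Nice D T (fun w => a (A w) * v w) := Nice.mul hDo nga nv
  have nhu : Nice D T (fun w => w.re * deriv a (A w) * u w) := Nice.mul hDo nrd nu
  have nhv : Nice D T (fun w => w.re * deriv a (A w) * v w) := Nice.mul hDo nrd nv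
  have hTD : T ⊆ D ∪ ⋃ i, H i := by
    rw [hHU, hDdef, compl_union_self]
    exact subset_univ _
  have hout : ∀ z ∈ D \ T, ∀ᶠ w in 𝓝 z, u w = 0 ∧ v w = 0 := by
    intro z hz
    have h1 : R < ‖z‖ := by
      have h2 := hz.2
      rw [hT, mem_closedBall_zero_iff, not_le] at h2
      linarith
    have h2 : {w : ℂ | R < ‖w‖} ∈ 𝓝 z := (isOpen_lt continuous_const continuous_norm).mem_nhds h1
    filter_upwards [h2, hDo.mem_nhds hz.1] with w hw hwD
    exact hd.supp w hwD hw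
  have hTc : IsCompact T := isCompact_closedBall _ _
  obtain ⟨i1, e1⟩ := stokes_sum hDo hX' hX0 hTc hTD ngu nim fun z hz => Or.inl (by
    filter_upwards [hout z hz] with w hw
    rw [hw.1, mul_zero])
  obtain ⟨i2, e2⟩ := stokes_sum hDo hX' hX0 hTc hTD ngv nre fun z hz => Or.inl (by
    filter_upwards [hout z hz] with w hw
    rw [hw.2, mul_zero])
  obtain ⟨i3, e3⟩ := stokes_sum hDo hX' hX0 hTc hTD nhu nB fun z hz => Or.inl (by
    filter_upwards [hout z hz] with w hw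
    rw [hw.1, mul_zero])
  obtain ⟨i4, e4⟩ := stokes_sum hDo hX' hX0 hTc hTD nhv nA fun z hz => Or.inl (by
    filter_upwards [hout z hz] with w hw
    rw [hw.2, mul_zero])
  have hdiff : ∀ {f : ℂ → ℝ}, Nice D T f → ∀ z ∈ D, DifferentiableAt ℝ f z := fun hf z hz =>
    (hf.smooth.contDiffAt (hDo.mem_nhds hz)).differentiableAt (by norm_num)
  have hint : ∫ z in D, (a (A z) * (dX u z + dY v z) +
        2 * deriv a (A z) * u z * dX A z +
        z.re * deriv (deriv a) (A z) * u z * (dX A z ^ 2 + ε ^ 2 * dY A z ^ 2) +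
        z.re * deriv a (A z) * (dX u z * dX A z + ε ^ 2 * (dY u z * dY A z) -
          dX v z * dY A z + dY v z * dX A z)) =
      (∫ z in D, J (fun w => a (A w) * u w) (fun w => w.im) z) -
      (∫ z in D, J (fun w => a (A w) * v w) (fun w => w.re) z) +
      (∫ z in D, J (fun w => w.re * deriv a (A w) * u w) B z) -
      ∫ z in D, J (fun w => w.re * deriv a (A w) * v w) A z := by
    have q1 := integral_sub i1 i2
    have q2 := integral_add (i1.sub i2) i3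
    have q3 := integral_sub ((i1.sub i2).add i3) i4
    refine Eq.trans ?_ (q3.trans (congrArg (· - _) (q2.trans (congrArg (· + _) q1))))
    refine setIntegral_congr_fun hDo.measurableSet fun z hz => ?_
    exact (omega_identity ha3 (hdiff nA z hz) (hdiff nB z hz) (hdiff nu z hz) (hdiff nv z hz)
      (hAB.rel1 z (hDS hz)) (hAB.rel2 z (hDS hz))).symm
  rw [hint, e1, e2, e3, e4]
  simp only [Fintype.sum_option]
  -- the fluxes at the slits of the family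
  have hfl : ∀ j : ι, Fl D (X' (some j)) (fun w => a (A w) * u w) (fun w => w.im) -
      Fl D (X' (some j)) (fun w => a (A w) * v w) (fun w => w.re) +
      Fl D (X' (some j)) (fun w => w.re * deriv a (A w) * u w) B -
      Fl D (X' (some j)) (fun w => w.re * deriv a (A w) * v w) A = 0 := by
    intro j
    obtain ⟨κ, hκ⟩ := hd.compat j
    obtain ⟨b, hb⟩ := hAB.compat j
    refine omega_flux (r := 3 * R) (hX' (some j)) Subset.rfl ha3 nA nB nu nv (τ := τ j) hκ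
      (hb.mono_left (nearIn_mono hDS Subset.rfl)) (a2_tendsto (by fun_prop) a2_slit_line)
  have hsum : ∑ j, Fl D (X' (some j)) (fun w => a (A w) * u w) (fun w => w.im) -
      ∑ j, Fl D (X' (some j)) (fun w => a (A w) * v w) (fun w => w.re) +
      ∑ j, Fl D (X' (some j)) (fun w => w.re * deriv a (A w) * u w) B -
      ∑ j, Fl D (X' (some j)) (fun w => w.re * deriv a (A w) * v w) A = 0 := by
    rw [← Finset.sum_sub_distrib, ← Finset.sum_add_distrib, ← Finset.sum_sub_distrib]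
    exact Finset.sum_eq_zero fun j _ => hfl j
  -- the flux at `S₀`
  have hX₀ : HoleCut D (slit p₀ 0 ℓ₀) T (X' none) := hX' none
  have hXW : ∀ w ∈ D, X' none w = 0 ∨ (a (A w) = 1 ∧ deriv a (A w) = 0) := by
    intro w hw
    by_cases h : w ∈ tsupport (X' none)
    · exact Or.inr (hWa w ⟨(hXV none h).2, hw⟩)
    · exact Or.inl (image_eq_zero_of_notMem_tsupport h)
  have hFl : ∀ {f f' g : ℂ → ℝ}, (∀ w ∈ D, X' none w * f w = X' none w * f' w) →
      Fl D (X' none) f g = Fl D (X' none) f' g := by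
    intro f f' g h
    refine setIntegral_congr_fun hDo.measurableSet fun z hz => ?_
    refine J_congr ?_ EventuallyEq.rfl
    filter_upwards [hDo.mem_nhds hz] with w hw
    exact h w hw
  have f1 : Fl D (X' none) (fun w => a (A w) * u w) (fun w => w.im) = 0 := by
    rw [hFl (f' := u) fun w hw => by
      rcases hXW w hw with h | h
      · rw [h, zero_mul, zero_mul]
      · rw [h.1, one_mul]]
    refine Fl_of_tendsto_right hX₀ nu nim (κ := p₀.im) (a2_tendsto continuous_im ?_)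
    intro z hz
    have h1 := a2_slit_line z hz
    simpa using h1
  have f2 : Fl D (X' none) (fun w => a (A w) * v w) (fun w => w.re) =
      -Fl D X (fun w => w.re) v := by
    rw [hFl (f' := v) fun w hw => by
      rcases hXW w hw with h | h
      · rw [h, zero_mul, zero_mul]
      · rw [h.1, one_mul]]
    rw [Fl_swap hX₀ nv nre, Fl_eq_of_cut hX₀ hX nre.smooth nv.smooth (integrable_Fl hX₀ nre nv)
      (integrable_Fl hX nre nv)]
  have f3 : Fl D (X' none) (fun w => w.re * deriv a (A w) * u w) B = 0 := by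
    rw [hFl (f' := fun _ => 0) fun w hw => by
      rcases hXW w hw with h | h
      · rw [h, zero_mul, zero_mul]
      · rw [h.2]
        ring]
    exact Fl_const_left hX₀ nB 0
  have f4 : Fl D (X' none) (fun w => w.re * deriv a (A w) * v w) A = 0 := by
    rw [hFl (f' := fun _ => 0) fun w hw => by
      rcases hXW w hw with h | h
      · rw [h, zero_mul, zero_mul]
      · rw [h.2]
        ring]
    exact Fl_const_left hX₀ nA 0
  linarith

end RSM2
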