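import Pool.Agent.RSM2.A2

/-!
# RSM2 module A3: the estimate of step (a)

See the header of `A2.lean` (PROOF of `stepA`) for the complete proof.
-/

open Complex Set Metric Filter Topology MeasureTheory

namespace RSM2

/-! ### The cut-off function of one variable -/

theorem a3_fun0 : ∃ (a : ℝ → ℝ) (K : ℝ), 0 < K ∧ ContDiff ℝ (⊤ : ℕ∞) a ∧ (∀ x, |a x| ≤ 1) ∧
    (∀ x, |x| < 2 → a x = 1 ∧ deriv a x = 0) ∧ (∀ x, 3 ≤ |x| → a x = 0) ∧
    (∀ x, |deriv a x| ≤ K) ∧ (∀ x, |deriv (deriv a) x| ≤ K) := by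
  let f : ContDiffBump (0 : ℝ) := ⟨2, 3, by norm_num, by norm_num⟩
  have hf : ContDiff ℝ (⊤ : ℕ∞) (f : ℝ → ℝ) := f.contDiff
  have hs : HasCompactSupport (f : ℝ → ℝ) := f.hasCompactSupport
  have hf1 : ContDiff ℝ (⊤ : ℕ∞) (deriv (f : ℝ → ℝ)) := (contDiff_infty_iff_deriv.1 hf).2
  have hf2 : ContDiff ℝ (⊤ : ℕ∞) (deriv (deriv (f : ℝ → ℝ))) := (contDiff_infty_iff_deriv.1 hf1).2
  obtain ⟨K1, hK1⟩ := hf1.continuous.bounded_above_of_compact_support hs.deriv
  obtain ⟨K2, hK2⟩ := hf2.continuous.bounded_above_of_compact_support hs.deriv.deriv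
  refine ⟨f, |K1| + |K2| + 1, by positivity, hf, ?_, ?_, ?_, ?_, ?_⟩
  · intro x
    rw [abs_of_nonneg f.nonneg]
    exact f.le_one
  · intro x hx
    have h1 : (f : ℝ → ℝ) =ᶠ[𝓝 x] fun _ => (1 : ℝ) := by
      have h2 : {y : ℝ | |y| < 2} ∈ 𝓝 x := (isOpen_lt continuous_abs continuous_const).mem_nhds hx
      filter_upwards [h2] with y hy
      apply f.one_of_mem_closedBall
      rw [mem_closedBall_zero_iff, Real.norm_eq_abs]
      exact hy.le
    refine ⟨h1.eq_of_nhds, ?_⟩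
    rw [h1.deriv_eq, deriv_const]
  · intro x hx
    apply f.zero_of_le_dist
    rw [dist_zero_right, Real.norm_eq_abs]
    exact hx
  · intro x
    have h1 := hK1 x
    rw [Real.norm_eq_abs] at h1
    have h2 := le_abs_self K1
    have h3 := abs_nonneg K2
    linarith
  · intro x
    have h1 := hK2 x
    rw [Real.norm_eq_abs] at h1
    have h2 := le_abs_self K2
    have h3 := abs_nonneg K1
    linarith

theorem a3_fun : ∃ K : ℝ, 0 < K ∧ ∀ t > 0, ∀ y : ℝ, ∃ a : ℝ → ℝ, ContDiff ℝ (⊤ : ℕ∞) a ∧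
    (∀ x, |a x| ≤ 1) ∧ (∀ x, |x - y| < 2 * t → a x = 1 ∧ deriv a x = 0) ∧
    (∀ x, 3 * t ≤ |x - y| → a x = 0) ∧ (∀ x, |deriv a x| ≤ K / t) ∧
    (∀ x, |deriv (deriv a) x| ≤ K / t ^ 2) := by
  obtain ⟨f, K, hK, hf, h1, h2, h3, h4, h5⟩ := a3_fun0
  refine ⟨K, hK, fun t ht y => ?_⟩
  have hlin : ∀ x : ℝ, HasDerivAt (fun x : ℝ => (x - y) / t) (1 / t) x := fun x =>
    ((hasDerivAt_id x).sub_const y).div_const t
  have hf1 : ContDiff ℝ (⊤ : ℕ∞) (deriv f) := (contDiff_infty_iff_deriv.1 hf).2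
  have hd1 : ∀ x, HasDerivAt (fun x : ℝ => f ((x - y) / t)) (deriv f ((x - y) / t) / t) x := by
    intro x
    have h6 : HasDerivAt f (deriv f ((x - y) / t)) ((x - y) / t) :=
      ((contDiff_infty_iff_deriv.1 hf).1 _).hasDerivAt
    have h7 := h6.comp x (hlin x)
    rw [mul_one_div] at h7
    exact h7
  have hd1' : deriv (fun x : ℝ => f ((x - y) / t)) = fun x => deriv f ((x - y) / t) / t :=
    funext fun x => (hd1 x).deriv
  have hd2 : ∀ x, HasDerivAt (fun x : ℝ => deriv f ((x - y) / t) / t)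
      (deriv (deriv f) ((x - y) / t) / t ^ 2) x := by
    intro x
    have h6 : HasDerivAt (deriv f) (deriv (deriv f) ((x - y) / t)) ((x - y) / t) :=
      ((contDiff_infty_iff_deriv.1 hf1).1 _).hasDerivAt
    have h7 := (h6.comp x (hlin x)).div_const t
    have h8 : deriv (deriv f) ((x - y) / t) * (1 / t) / t = deriv (deriv f) ((x - y) / t) / t ^ 2 := by
      rw [mul_one_div, div_div, sq]
    rw [h8] at h7
    exact h7
  have habs : ∀ x, |(x - y) / t| = |x - y| / t := fun x => by rw [abs_div, abs_of_pos ht]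
  refine ⟨fun x => f ((x - y) / t), ?_, fun x => h1 _, ?_, ?_, ?_, ?_⟩
  · exact hf.comp ((contDiff_id.sub contDiff_const).div_const t)
  · intro x hx
    have h6 : |(x - y) / t| < 2 := by
      rw [habs, div_lt_iff₀ ht]
      exact hx
    obtain ⟨h7, h8⟩ := h2 _ h6
    refine ⟨h7, ?_⟩
    rw [hd1']
    simp only
    rw [h8, zero_div]
  · intro x hx
    apply h3
    rw [habs, le_div_iff₀ ht]
    exact hx
  · intro x
    rw [hd1']
    simp only
    rw [abs_div, abs_of_pos ht]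
    exact div_le_div_of_nonneg_right (h4 _) ht.le
  · intro x
    rw [hd1', (hd2 x).deriv, abs_div, abs_of_pos (by positivity : 0 < t ^ 2)]
    exact div_le_div_of_nonneg_right (h5 _) (by positivity)

/-! ### Pointwise estimate -/

theorem a3_young (x y : ℝ) {w : ℝ} (hw : 0 < w) : |x * y| ≤ w / 2 * x ^ 2 + 1 / (2 * w) * y ^ 2 := by
  have h1 : 0 ≤ (w * |x| - |y|) ^ 2 := sq_nonneg _
  have h2 : w * (2 * (|x| * |y|)) ≤ w * (w * x ^ 2 + 1 / w * y ^ 2) := by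
    have h3 : w * (w * x ^ 2 + 1 / w * y ^ 2) = w ^ 2 * x ^ 2 + y ^ 2 := by
      field_simp
    rw [h3]
    nlinarith [sq_abs x, sq_abs y]
  have h4 := le_of_mul_le_mul_left h2 hw
  rw [abs_mul]
  have h5 : 1 / (2 * w) * y ^ 2 = (1 / w * y ^ 2) / 2 := by
    field_simp
  rw [h5]
  linarith

theorem a3_pt {a a1 a2 x u ux uy vx vy Ax Ay ε δ lam s K1 K2 R M : ℝ} (hε : 0 < ε) (hδ : 0 < δ)
    (hl : 0 < lam) (hs : 0 ≤ s) (ha : |a| ≤ s) (hs1 : s ≤ 1) (ha1 : |a1| ≤ K1) (ha2 : |a2| ≤ K2)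
    (hx : |x| ≤ R) (hu : |u| ≤ M) :
    |a * (ux + vy) + 2 * a1 * u * Ax + x * a2 * u * (Ax ^ 2 + ε ^ 2 * Ay ^ 2) +
      x * a1 * (ux * Ax + ε ^ 2 * (uy * Ay) - vx * Ay + vy * Ax)| ≤
    s * (1 / lam) + lam / 2 * (ux ^ 2 + vy ^ 2) +
      2 * K1 * M * (1 / (2 * ε) * Ax ^ 2 + ε / 2) + R * K2 * M * (Ax ^ 2 + ε ^ 2 * Ay ^ 2) +
      R * K1 * (ε / 2 * ux ^ 2 + 1 / (2 * ε) * Ax ^ 2 + ε ^ 2 * (1 / 2 * uy ^ 2 + 1 / 2 * Ay ^ 2) +
        (1 / (2 * δ) * vx ^ 2 + δ / 2 * Ay ^ 2) + (ε / 2 * vy ^ 2 + 1 / (2 * ε) * Ax ^ 2)) := by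
  have hR : 0 ≤ R := (abs_nonneg x).trans hx
  have hM : 0 ≤ M := (abs_nonneg u).trans hu
  have hK1 : 0 ≤ K1 := (abs_nonneg a1).trans ha1
  have hK2 : 0 ≤ K2 := (abs_nonneg a2).trans ha2
  -- first term
  have e1 : |a * (ux + vy)| ≤ s * (1 / lam) + lam / 2 * (ux ^ 2 + vy ^ 2) := by
    rw [abs_mul]
    have h1 : |ux + vy| ≤ |ux| + |vy| := abs_add_le _ _
    have h2 := a3_young ux 1 hl
    have h3 := a3_young vy 1 hl
    rw [mul_one] at h2 h3
    have h4 : |ux + vy| ≤ 1 / lam + lam / 2 * (ux ^ 2 + vy ^ 2) := by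
      have h5 : 1 / (2 * lam) * 1 ^ 2 + 1 / (2 * lam) * 1 ^ 2 = 1 / lam := by
        field_simp
        norm_num
      linarith
    have h6 : 0 ≤ lam / 2 * (ux ^ 2 + vy ^ 2) := by positivity
    calc |a| * |ux + vy| ≤ s * (1 / lam + lam / 2 * (ux ^ 2 + vy ^ 2)) :=
          mul_le_mul ha h4 (abs_nonneg _) hs
      _ = s * (1 / lam) + s * (lam / 2 * (ux ^ 2 + vy ^ 2)) := by ring
      _ ≤ s * (1 / lam) + 1 * (lam / 2 * (ux ^ 2 + vy ^ 2)) := by
          have := mul_le_mul_of_nonneg_right hs1 h6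
          linarith
      _ = _ := by ring
  -- second term
  have e2 : |2 * a1 * u * Ax| ≤ 2 * K1 * M * (1 / (2 * ε) * Ax ^ 2 + ε / 2) := by
    have h1 : |2 * a1 * u| ≤ 2 * K1 * M := by
      rw [abs_mul, abs_mul, abs_two]
      exact mul_le_mul (mul_le_mul_of_nonneg_left ha1 zero_le_two) hu (abs_nonneg _) (by positivity)
    have h2 : |Ax| ≤ 1 / (2 * ε) * Ax ^ 2 + ε / 2 := by
      have h3 := a3_young Ax 1 (w := 1 / ε) (by positivity)
      rw [mul_one] at h3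
      have h4 : 1 / ε / 2 * Ax ^ 2 + 1 / (2 * (1 / ε)) * 1 ^ 2 = 1 / (2 * ε) * Ax ^ 2 + ε / 2 := by
        field_simp
      linarith
    rw [abs_mul]
    exact mul_le_mul h1 h2 (abs_nonneg _) (by positivity)
  -- third term
  have e3 : |x * a2 * u * (Ax ^ 2 + ε ^ 2 * Ay ^ 2)| ≤ R * K2 * M * (Ax ^ 2 + ε ^ 2 * Ay ^ 2) := by
    have h1 : |x * a2 * u| ≤ R * K2 * M := by
      rw [abs_mul, abs_mul]
      exact mul_le_mul (mul_le_mul hx ha2 (abs_nonneg _) hR) hu (abs_nonneg _) (by positivity)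
    have h2 : 0 ≤ Ax ^ 2 + ε ^ 2 * Ay ^ 2 := by positivity
    rw [abs_mul, abs_of_nonneg h2]
    exact mul_le_mul_of_nonneg_right h1 h2
  -- fourth term
  have e4 : |x * a1 * (ux * Ax + ε ^ 2 * (uy * Ay) - vx * Ay + vy * Ax)| ≤
      R * K1 * (ε / 2 * ux ^ 2 + 1 / (2 * ε) * Ax ^ 2 + ε ^ 2 * (1 / 2 * uy ^ 2 + 1 / 2 * Ay ^ 2) +
        (1 / (2 * δ) * vx ^ 2 + δ / 2 * Ay ^ 2) + (ε / 2 * vy ^ 2 + 1 / (2 * ε) * Ax ^ 2)) := by
    have h1 : |x * a1| ≤ R * K1 := by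
      rw [abs_mul]
      exact mul_le_mul hx ha1 (abs_nonneg _) hR
    have f1 := a3_young ux Ax hε
    have f2 := a3_young uy Ay one_pos
    have f3 := a3_young vx Ay (w := 1 / δ) (by positivity)
    have f4 := a3_young vy Ax hε
    have f3' : 1 / δ / 2 * vx ^ 2 + 1 / (2 * (1 / δ)) * Ay ^ 2 =
        1 / (2 * δ) * vx ^ 2 + δ / 2 * Ay ^ 2 := by
      field_simp
    rw [f3'] at f3
    have f2' : |ε ^ 2 * (uy * Ay)| ≤ ε ^ 2 * (1 / 2 * uy ^ 2 + 1 / 2 * Ay ^ 2) := by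
      rw [abs_mul, abs_of_nonneg (by positivity : 0 ≤ ε ^ 2)]
      apply mul_le_mul_of_nonneg_left _ (by positivity)
      have : 1 / 2 * uy ^ 2 + 1 / (2 * 1) * Ay ^ 2 = 1 / 2 * uy ^ 2 + 1 / 2 * Ay ^ 2 := by ring
      rw [← this]
      exact f2
    have g1 : |ux * Ax + ε ^ 2 * (uy * Ay) - vx * Ay + vy * Ax| ≤
        |ux * Ax| + |ε ^ 2 * (uy * Ay)| + |vx * Ay| + |vy * Ax| := by
      refine (abs_add_le _ _).trans ?_
      have k1 := abs_sub (ux * Ax + ε ^ 2 * (uy * Ay)) (vx * Ay)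
      have k2 := abs_add_le (ux * Ax) (ε ^ 2 * (uy * Ay))
      linarith
    rw [abs_mul]
    exact mul_le_mul h1 (by linarith) (abs_nonneg _) (by positivity)
  have t1 := abs_add_le (a * (ux + vy) + 2 * a1 * u * Ax + x * a2 * u * (Ax ^ 2 + ε ^ 2 * Ay ^ 2))
    (x * a1 * (ux * Ax + ε ^ 2 * (uy * Ay) - vx * Ay + vy * Ax))
  have t2 := abs_add_le (a * (ux + vy) + 2 * a1 * u * Ax) (x * a2 * u * (Ax ^ 2 + ε ^ 2 * Ay ^ 2))
  have t3 := abs_add_le (a * (ux + vy)) (2 * a1 * u * Ax)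
  linarith

/-! ### Integrals -/

/-- integrable with integral at most `b` -/
def A3B (E : Set ℂ) (f : ℂ → ℝ) (b : ℝ) : Prop := IntegrableOn f E ∧ ∫ z in E, f z ≤ b

theorem A3B.add {E : Set ℂ} {f g : ℂ → ℝ} {b c : ℝ} (hf : A3B E f b) (hg : A3B E g c) :
    A3B E (fun z => f z + g z) (b + c) := by
  refine ⟨hf.1.add hg.1, ?_⟩
  rw [integral_add hf.1 hg.1]
  exact add_le_add hf.2 hg.2

theorem A3B.mul {E : Set ℂ} {f : ℂ → ℝ} {b k : ℝ} (hf : A3B E f b) (hk : 0 ≤ k) :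
    A3B E (fun z => k * f z) (k * b) := by
  refine ⟨hf.1.const_mul k, ?_⟩
  rw [integral_const_mul]
  exact mul_le_mul_of_nonneg_left hf.2 hk

theorem a3_sq {D T : Set ℂ} {f : ℂ → ℝ} (hf : Nice D T f) :
    IntegrableOn (fun z => dX f z ^ 2) (D ∩ T) ∧ IntegrableOn (fun z => dY f z ^ 2) (D ∩ T) := by
  constructor
  · refine Integrable.mono' hf.l2 ?_ ?_
    · exact ((measurable_fderiv_apply_const ℝ f 1).pow_const 2).aestronglyMeasurable
    · refine Eventually.of_forall fun z => ?_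
      rw [Real.norm_eq_abs, abs_of_nonneg (sq_nonneg _), sq_norm_fderiv]
      linarith [sq_nonneg (dY f z)]
  · refine Integrable.mono' hf.l2 ?_ ?_
    · exact ((measurable_fderiv_apply_const ℝ f I).pow_const 2).aestronglyMeasurable
    · refine Eventually.of_forall fun z => ?_
      rw [Real.norm_eq_abs, abs_of_nonneg (sq_nonneg _), sq_norm_fderiv]
      linarith [sq_nonneg (dX f z)]

/-- the functions with small support -/
theorem a3_en {D : Set ℂ} {R M : ℝ} {f : ℂ → ℝ} (hD : IsOpen D) (hf : Nice D (closedBall 0 R) f)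
    (hs : ∀ z ∈ D, R < ‖z‖ → f z = 0) :
    (∀ z ∈ D, R < ‖z‖ → fderiv ℝ f z = 0) ∧
    (∫ z in D, ‖fderiv ℝ f z‖ ^ 2 ≤ M →
      A3B (D ∩ closedBall 0 R) (fun z => dX f z ^ 2) M ∧
      A3B (D ∩ closedBall 0 R) (fun z => dY f z ^ 2) M) ∧
    (∫ z in D, dX f z ^ 2 ≤ M → A3B (D ∩ closedBall 0 R) (fun z => dX f z ^ 2) M) := by
  have h0 : ∀ z ∈ D, R < ‖z‖ → fderiv ℝ f z = 0 := by
    intro z hz hzR
    have h1 : f =ᶠ[𝓝 z] fun _ => (0 : ℝ) := by
      have h2 : {w : ℂ | R < ‖w‖} ∈ 𝓝 z := (isOpen_lt continuous_const continuous_norm).mem_nhds hzR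
      filter_upwards [h2, hD.mem_nhds hz] with w hw hw'
      exact hs w hw' hw
    rw [h1.fderiv_eq, fderiv_const_apply]
  have hsd : ∀ z ∈ D \ (D ∩ closedBall 0 R), fderiv ℝ f z = 0 := by
    rintro z ⟨hz, hz'⟩
    apply h0 z hz
    by_contra hcon
    apply hz'
    refine ⟨hz, ?_⟩
    rw [mem_closedBall_zero_iff]
    exact not_lt.1 hcon
  obtain ⟨i1, i2⟩ := a3_sq hf
  refine ⟨h0, ?_, ?_⟩
  · intro hM
    have h3 : ∫ z in D ∩ closedBall 0 R, ‖fderiv ℝ f z‖ ^ 2 ≤ M := by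
      rw [← setIntegral_eq_of_subset_of_forall_sdiff_eq_zero hD.measurableSet inter_subset_left
        (f := fun z => ‖fderiv ℝ f z‖ ^ 2)]
      · exact hM
      · intro z hz
        rw [hsd z hz, norm_zero]
        norm_num
    refine ⟨⟨i1, ?_⟩, ⟨i2, ?_⟩⟩
    · refine le_trans (integral_mono i1 hf.l2 fun z => ?_) h3
      simp only
      rw [sq_norm_fderiv]
      linarith [sq_nonneg (dY f z)]
    · refine le_trans (integral_mono i2 hf.l2 fun z => ?_) h3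
      simp only
      rw [sq_norm_fderiv]
      linarith [sq_nonneg (dX f z)]
  · intro hM
    refine ⟨i1, ?_⟩
    rw [← setIntegral_eq_of_subset_of_forall_sdiff_eq_zero hD.measurableSet inter_subset_left
      (f := fun z => dX f z ^ 2)]
    · exact hM
    · intro z hz
      simp only [dX]
      rw [hsd z hz]
      simp

/-- the area of a strip of the disk -/
theorem a3_area {R t y : ℝ} (hR : 0 < R) :
    volume {z : ℂ | |z.re| ≤ R ∧ |z.im - y| ≤ 4 * t} ≤ ENNReal.ofReal (16 * t * R) := by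
  have h1 : {z : ℂ | |z.re| ≤ R ∧ |z.im - y| ≤ 4 * t} =
      Complex.measurableEquivRealProd ⁻¹' (Icc (-R) R ×ˢ Icc (y - 4 * t) (y + 4 * t)) := by
    ext z
    simp only [mem_ofPred_eq, mem_preimage, mem_prod, mem_Icc, Complex.measurableEquivRealProd_apply,
      abs_le]
    constructor
    · rintro ⟨h1, h2, h3⟩
      exact ⟨h1, by linarith, by linarith⟩
    · rintro ⟨h1, h2, h3⟩
      exact ⟨h1, by linarith, by linarith⟩
  rw [h1, Complex.volume_preserving_equiv_real_prod.measure_preimage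
    (measurableSet_Icc.prod measurableSet_Icc).nullMeasurableSet, Measure.volume_eq_prod,
    Measure.prod_prod, Real.volume_Icc, Real.volume_Icc, ← ENNReal.ofReal_mul (by linarith)]
  apply ENNReal.ofReal_le_ofReal
  nlinarith

theorem stepA {R M : ℝ} (hR : 0 < R) (hM : 0 < M) {η : ℝ} (hη : 0 < η) : ∃ δ > 0, ∀ ε : ℝ,
    0 < ε → ε ≤ δ → ∀ (ι : Type) (p : ι → ℂ) (τ ℓ : ι → ℝ) (p₀ : ℂ) (ℓ₀ : ℝ) (u v : ℂ → ℝ),
      StepAData p τ ℓ ε R M δ p₀ ℓ₀ u v →
      ∀ X : ℂ → ℝ, HoleCut (slit p₀ 0 ℓ₀ ∪ SF p τ ℓ)ᶜ (slit p₀ 0 ℓ₀) (closedBall 0 (3 * R)) X →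
        |Fl (slit p₀ 0 ℓ₀ ∪ SF p τ ℓ)ᶜ X (fun z => z.re) v| ≤ η := by
  obtain ⟨K, hK, hfun⟩ := a3_fun
  obtain ⟨C, hC, htp⟩ := exists_testPair hR
  obtain ⟨lam, hlam⟩ : ∃ lam, lam = η / (4 * M ^ 2) := ⟨_, rfl⟩
  have hl : 0 < lam := by rw [hlam]; positivity
  obtain ⟨t, htd⟩ : ∃ t, t = lam * η / (64 * R) := ⟨_, rfl⟩
  have ht : 0 < t := by rw [htd]; positivity
  obtain ⟨ε₀, hε₀, htp'⟩ := htp t ht
  obtain ⟨K1, hK1d⟩ : ∃ K1, K1 = K / t := ⟨_, rfl⟩
  have hK1 : 0 < K1 := by rw [hK1d]; positivity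
  obtain ⟨K2, hK2d⟩ : ∃ K2, K2 = K / t ^ 2 := ⟨_, rfl⟩
  have hK2 : 0 < K2 := by rw [hK2d]; positivity
  obtain ⟨Q, hQ⟩ : ∃ Q, Q = 2 * K1 * M * (C / 2 + 2 * R ^ 2) + R * K2 * M * (2 * C) +
    R * K1 * (3 / 2 * M ^ 2 + 2 * C + 1 / 2) := ⟨_, rfl⟩
  have hQ0 : 0 < Q := by rw [hQ]; positivity
  refine ⟨min (min ε₀ 1) (η / (4 * (Q + 1))), by positivity, ?_⟩
  intro ε hε hεδ ι p τ ℓ p₀ ℓ₀ u v hd X hX
  obtain ⟨δ, hδd⟩ : ∃ δ, δ = min (min ε₀ 1) (η / (4 * (Q + 1))) := ⟨_, rfl⟩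
  rw [← hδd] at hd hεδ
  have hδ : 0 < δ := hε.trans_le hεδ
  have hδ1 : δ ≤ 1 := by
    rw [hδd]
    exact (min_le_left _ _).trans (min_le_right _ _)
  have hδ0 : δ ≤ ε₀ := by
    rw [hδd]
    exact (min_le_left _ _).trans (min_le_left _ _)
  have hδQ : δ * Q ≤ η / 4 := by
    have h1 : δ ≤ η / (4 * (Q + 1)) := by
      rw [hδd]
      exact min_le_right _ _
    rw [le_div_iff₀ (by positivity)] at h1
    nlinarith
  have hε1 : ε ≤ 1 := hεδ.trans hδ1
  obtain ⟨A, B, hAB⟩ := htp' ε hε (hεδ.trans hδ0) ι p τ ℓ hd.fam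
  obtain ⟨a, ha, hab, ha1, ha0, hda, hdda⟩ := hfun t ht p₀.im
  rw [← hK1d] at hda
  rw [← hK2d] at hdda
  -- near the slit
  have hnear : ∀ᶠ z in nearIn (slit p₀ 0 ℓ₀ ∪ SF p τ ℓ)ᶜ (slit p₀ 0 ℓ₀),
      a (A z) = 1 ∧ deriv a (A z) = 0 := by
    rw [eventually_nearIn]
    refine ⟨{z : ℂ | |z.im - p₀.im| < t} ∩ ({z : ℂ | |z.re| < 2 * R} ∩ {z : ℂ | |z.im| < 2 * R}),
      ?_, ?_, ?_⟩
    · refine IsOpen.inter ?_ (IsOpen.inter ?_ ?_)
      · exact isOpen_lt (by fun_prop) continuous_const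
      · exact isOpen_lt (by fun_prop) continuous_const
      · exact isOpen_lt (by fun_prop) continuous_const
    · intro z hz
      obtain ⟨h1, h2⟩ := hd.box₀ z hz
      obtain ⟨x, _, rfl⟩ := hz
      refine ⟨?_, ?_, ?_⟩
      · simpa using ht
      · exact lt_of_le_of_lt h1 (by linarith)
      · exact lt_of_le_of_lt h2 (by linarith)
    · rintro z ⟨⟨h1, h2, h3⟩, h4⟩
      have h5 : z ∈ box R \ SF p τ ℓ :=
        ⟨⟨le_of_lt h2, le_of_lt h3⟩, fun h => h4 (Or.inr h)⟩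
      have h6 := hAB.near z h5
      apply ha1
      have h7 : A z - p₀.im = (A z - z.im) + (z.im - p₀.im) := by ring
      have h8 : |z.im - p₀.im| < t := h1
      rw [h7]
      refine lt_of_le_of_lt (abs_add_le _ _) ?_
      linarith
  rw [flux_eq hR hd hAB ha hnear hX]
  have hDo : IsOpen (slit p₀ 0 ℓ₀ ∪ SF p τ ℓ)ᶜ := hX.openD
  have hDS : (slit p₀ 0 ℓ₀ ∪ SF p τ ℓ)ᶜ ⊆ (SF p τ ℓ)ᶜ := fun z hz h => hz (Or.inr h)
  have hsu := hd.supp
  have hbd := hd.bdd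
  obtain ⟨u0, u1, _⟩ := a3_en (M := M ^ 2) hDo (hd.niceu R) (fun z hz h => (hsu z hz h).1)
  obtain ⟨v0, v1, _⟩ := a3_en (M := M ^ 2) hDo (hd.nicev R) (fun z hz h => (hsu z hz h).2)
  obtain ⟨_, _, v2⟩ := a3_en (M := δ ^ 2) hDo (hd.nicev R) (fun z hz h => (hsu z hz h).2)
  obtain ⟨hXu, hYu⟩ := u1 hd.enu
  obtain ⟨_, hYv⟩ := v1 hd.env
  have hXv := v2 hd.smv
  clear u1 v1 v2
  generalize hDd : (slit p₀ 0 ℓ₀ ∪ SF p τ ℓ)ᶜ = D at *
  -- the set `E`
  have hEsub : D ∩ closedBall 0 R ⊆ box R \ SF p τ ℓ := by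
    rintro z ⟨h1, h2⟩
    rw [mem_closedBall_zero_iff] at h2
    refine ⟨⟨?_, ?_⟩, hDS h1⟩
    · have := abs_re_le_norm z
      linarith
    · have := abs_im_le_norm z
      linarith
  have hEm : MeasurableSet (D ∩ closedBall 0 R) := hDo.measurableSet.inter measurableSet_closedBall
  have hboxsub : box R \ SF p τ ℓ ⊆ (SF p τ ℓ)ᶜ ∩ closedBall 0 (3 * R) :=
    fun z hz => ⟨hz.2, c6_box_sub hR hz.1⟩
  obtain ⟨iA1, iA2⟩ := a3_sq (hAB.niceA (3 * R))
  have hXA : A3B (D ∩ closedBall 0 R) (fun z => dX A z ^ 2) (C * ε ^ 2) := by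
    refine ⟨iA1.mono_set (hEsub.trans hboxsub), le_trans ?_ hAB.enX⟩
    exact setIntegral_mono_set (iA1.mono_set hboxsub)
      (Eventually.of_forall fun z => sq_nonneg _) hEsub.eventuallyLE
  have hYA : A3B (D ∩ closedBall 0 R) (fun z => dY A z ^ 2) C := by
    refine ⟨iA2.mono_set (hEsub.trans hboxsub), le_trans ?_ hAB.enY⟩
    exact setIntegral_mono_set (iA2.mono_set hboxsub)
      (Eventually.of_forall fun z => sq_nonneg _) hEsub.eventuallyLE
  have hvolE : volume (D ∩ closedBall 0 R) ≤ ENNReal.ofReal (4 * R ^ 2) := by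
    calc volume (D ∩ closedBall 0 R) ≤ volume (closedBall (0 : ℂ) R) :=
          measure_mono inter_subset_right
      _ = ENNReal.ofReal R ^ 2 * NNReal.pi := Complex.volume_closedBall _ _
      _ ≤ ENNReal.ofReal (4 * R ^ 2) := by
          rw [← ENNReal.ofReal_pow (by positivity)]
          have h1 : (NNReal.pi : ENNReal) = ENNReal.ofReal Real.pi := by
            rw [← NNReal.coe_real_pi, ENNReal.ofReal_coe_nnreal]
          rw [h1, ← ENNReal.ofReal_mul (by positivity)]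
          apply ENNReal.ofReal_le_ofReal
          nlinarith [Real.pi_le_four, sq_nonneg R]
  have hvolE' : volume (D ∩ closedBall 0 R) ≠ ⊤ := ne_top_of_le_ne_top ENNReal.ofReal_ne_top hvolE
  have hone : A3B (D ∩ closedBall 0 R) (fun _ => (1 : ℝ)) (4 * R ^ 2) := by
    refine ⟨integrableOn_const hvolE', ?_⟩
    rw [setIntegral_const, smul_eq_mul, mul_one]
    exact ENNReal.toReal_le_of_le_ofReal (by positivity) hvolE
  have hSm : MeasurableSet {z : ℂ | |z.re| ≤ R ∧ |z.im - p₀.im| ≤ 4 * t} := by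
    have h1 : IsClosed {z : ℂ | |z.re| ≤ R} := isClosed_le (by fun_prop) continuous_const
    have h2 : IsClosed {z : ℂ | |z.im - p₀.im| ≤ 4 * t} := isClosed_le (by fun_prop) continuous_const
    exact (h1.inter h2).measurableSet
  have hind : A3B (D ∩ closedBall 0 R)
      ({z : ℂ | |z.re| ≤ R ∧ |z.im - p₀.im| ≤ 4 * t}.indicator fun _ => (1 : ℝ)) (16 * t * R) := by
    refine ⟨hone.1.indicator hSm, ?_⟩
    rw [setIntegral_indicator hSm, setIntegral_const, smul_eq_mul, mul_one]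
    apply ENNReal.toReal_le_of_le_ofReal (by positivity)
    exact (measure_mono inter_subset_right).trans (a3_area hR)
  generalize hSd : {z : ℂ | |z.re| ≤ R ∧ |z.im - p₀.im| ≤ 4 * t} = S at *
  have hG1 := (hind.mul (k := 1 / lam) (by positivity)).add
    ((hXu.add hYv).mul (k := lam / 2) (by positivity))
  have hG2 := ((hXA.mul (k := 1 / (2 * ε)) (by positivity)).add
    (hone.mul (k := ε / 2) (by positivity))).mul (k := 2 * K1 * M) (by positivity)
  have hG3 := (hXA.add (hYA.mul (k := ε ^ 2) (by positivity))).mul (k := R * K2 * M) (by positivity)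
  have hG4 := (((((hXu.mul (k := ε / 2) (by positivity)).add
    (hXA.mul (k := 1 / (2 * ε)) (by positivity))).add
    (((hYu.mul (k := 1 / 2) (by positivity)).add
      (hYA.mul (k := 1 / 2) (by positivity))).mul (k := ε ^ 2) (by positivity))).add
    ((hXv.mul (k := 1 / (2 * δ)) (by positivity)).add (hYA.mul (k := δ / 2) (by positivity)))).add
    ((hYv.mul (k := ε / 2) (by positivity)).add
      (hXA.mul (k := 1 / (2 * ε)) (by positivity)))).mul (k := R * K1) (by positivity)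
  have hG := ((hG1.add hG2).add hG3).add hG4
  rw [setIntegral_eq_of_subset_of_forall_sdiff_eq_zero hDo.measurableSet
    (inter_subset_left : D ∩ closedBall 0 R ⊆ D)]
  · rw [← Real.norm_eq_abs]
    refine (norm_integral_le_of_norm_le hG.1 (ae_restrict_of_forall_mem hEm ?_)).trans
      (hG.2.trans ?_)
    · rintro z ⟨hzD, hzR⟩
      rw [mem_closedBall_zero_iff] at hzR
      have hre : |z.re| ≤ R := (abs_re_le_norm z).trans hzR
      have hs0 : 0 ≤ S.indicator (fun _ => (1 : ℝ)) z := indicator_nonneg (fun _ _ => zero_le_one) z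
      have hs1 : S.indicator (fun _ => (1 : ℝ)) z ≤ 1 :=
        indicator_le_self' (fun _ _ => zero_le_one) z
      have hsa : |a (A z)| ≤ S.indicator (fun _ => (1 : ℝ)) z := by
        by_cases h1 : z ∈ S
        · rw [indicator_of_mem h1]
          exact hab _
        · rw [indicator_of_notMem h1]
          have h2 : 3 * t ≤ |A z - p₀.im| := by
            by_contra hcon
            apply h1
            rw [← hSd]
            refine ⟨hre, ?_⟩
            have h3 := hAB.near z (hEsub ⟨hzD, by rw [mem_closedBall_zero_iff]; exact hzR⟩)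
            have h4 : z.im - p₀.im = -(A z - z.im) + (A z - p₀.im) := by ring
            rw [h4]
            refine (abs_add_le _ _).trans ?_
            rw [abs_neg]
            linarith [not_le.1 hcon]
          rw [ha0 _ h2, abs_zero]
      have hpt := a3_pt (ux := dX u z) (uy := dY u z) (vx := dX v z) (vy := dY v z) (Ax := dX A z)
        (Ay := dY A z) hε hδ hl hs0 hsa hs1 (hda (A z)) (hdda (A z)) hre (hbd z hzD).1
      rw [Real.norm_eq_abs]
      refine hpt.trans (le_of_eq ?_)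
      ring
    · have e1 : 1 / lam * (16 * t * R) = η / 4 := by
        rw [htd]
        field_simp
        norm_num
      have e2 : lam / 2 * (M ^ 2 + M ^ 2) = η / 4 := by
        rw [hlam]
        field_simp
        norm_num
      have e3 : 1 / (2 * ε) * (C * ε ^ 2) = C / 2 * ε := by
        field_simp
      have e4 : 1 / (2 * δ) * δ ^ 2 = 1 / 2 * δ := by
        field_simp
      rw [e1, e2, e3, e4]
      have hε2 : ε ^ 2 ≤ δ := by
        have : ε ^ 2 ≤ 1 * ε := by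
          rw [sq]
          exact mul_le_mul_of_nonneg_right hε1 hε.le
        linarith
      have f1 : 2 * K1 * M * (C / 2 * ε + ε / 2 * (4 * R ^ 2)) ≤
          2 * K1 * M * (C / 2 + 2 * R ^ 2) * δ := by
        have h1 : C / 2 * ε + ε / 2 * (4 * R ^ 2) = (C / 2 + 2 * R ^ 2) * ε := by ring
        rw [h1, mul_assoc (2 * K1 * M)]
        have h2 : (C / 2 + 2 * R ^ 2) * ε ≤ (C / 2 + 2 * R ^ 2) * δ :=
          mul_le_mul_of_nonneg_left hεδ (by positivity)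
        exact mul_le_mul_of_nonneg_left h2 (by positivity)
      have f2 : R * K2 * M * (C * ε ^ 2 + ε ^ 2 * C) ≤ R * K2 * M * (2 * C) * δ := by
        have h1 : C * ε ^ 2 + ε ^ 2 * C = (2 * C) * ε ^ 2 := by ring
        rw [h1, mul_assoc (R * K2 * M)]
        have h2 : (2 * C) * ε ^ 2 ≤ (2 * C) * δ := mul_le_mul_of_nonneg_left hε2 (by positivity)
        exact mul_le_mul_of_nonneg_left h2 (by positivity)
      have f3 : R * K1 * (ε / 2 * M ^ 2 + C / 2 * ε + ε ^ 2 * (1 / 2 * M ^ 2 + 1 / 2 * C) +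
          (1 / 2 * δ + δ / 2 * C) + (ε / 2 * M ^ 2 + C / 2 * ε)) ≤
          R * K1 * (3 / 2 * M ^ 2 + 2 * C + 1 / 2) * δ := by
        rw [mul_assoc (R * K1)]
        apply mul_le_mul_of_nonneg_left _ (by positivity)
        have h1 : ε * M ^ 2 ≤ δ * M ^ 2 := mul_le_mul_of_nonneg_right hεδ (by positivity)
        have h2 : ε * C ≤ δ * C := mul_le_mul_of_nonneg_right hεδ hC.le
        have h3 : ε ^ 2 * (1 / 2 * M ^ 2 + 1 / 2 * C) ≤ δ * (1 / 2 * M ^ 2 + 1 / 2 * C) :=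
          mul_le_mul_of_nonneg_right hε2 (by positivity)
        nlinarith
      have f4 : 2 * K1 * M * (C / 2 + 2 * R ^ 2) * δ + R * K2 * M * (2 * C) * δ +
          R * K1 * (3 / 2 * M ^ 2 + 2 * C + 1 / 2) * δ = δ * Q := by
        rw [hQ]
        ring
      linarith
  · rintro z ⟨hz, hz'⟩
    have hzR : R < ‖z‖ := by
      by_contra hcon
      apply hz'
      refine ⟨hz, ?_⟩
      rw [mem_closedBall_zero_iff]
      exact not_lt.1 hcon
    have g1 : fderiv ℝ u z = 0 := u0 z hz hzR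
    have g2 : fderiv ℝ v z = 0 := v0 z hz hzR
    have g3 : u z = 0 := (hsu z hz hzR).1
    have k1 : dX u z = 0 := by unfold dX; rw [g1]; rfl
    have k2 : dY u z = 0 := by unfold dY; rw [g1]; rfl
    have k3 : dX v z = 0 := by unfold dX; rw [g2]; rfl
    have k4 : dY v z = 0 := by unfold dY; rw [g2]; rfl
    rw [g3, k1, k2, k3, k4]
    ring

end RSM2
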