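import Pool.Agent.RSM2.J5

/-!
# RSM2 module B1: integration by parts against a weight

`q` is a weight for `H` (`Weight H L q`): continuous on `Hᶜ`, with values in `[0, 1]`, and
`|q w - q w'| ≤ L |Im w - Im w'|` if the segment from `w` to `w'` is in `Hᶜ`.

PROOF of `Weight.dX`, `Weight.dY`.  Extend `g` by `0`: a `C¹` function on the plane with compact
support contained in `K ⊆ D ⊆ Hᶜ`.  For real `t`, `|t|` less than the distance of `K` to `Hᶜ`'s complement
(so that the segments `[z - t e, z]` for `z ∈ K` are in `Hᶜ`), with `e = 1` or `e = I`: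
`∫ q(z) (g(z + t e) - g z)/t dz = ∫ g(z) (q(z - t e) - q z)/t dz` (translation; the function
`q g(· + te)` is supported in `K - te ⊆ Hᶜ`).  For `e = 1` the right side is `0`, for `e = I` it is at
most `L ∫ |g|` in absolute value; as `t → 0` the left side tends to `∫ q ∂_e g` (dominated convergence:
`g` is Lipschitz, with compact support, `0 ≤ q ≤ 1`).
PROOF of `Weight.J`.  Let `Y` be a `C^∞` function, `0 ≤ Y ≤ 1`, compact support contained in `D`, `Y = 1` near
`K` (`exists_cut`).  On `D`: `J a b = J (Y a) b` (at a point outside of `K` one of `a`, `b` vanishes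
nearby).  `J (Y a) b = ∂_x (Y a b_y) - ∂_y (Y a b_x)` (`C²`).  So by the first part
`|∫_D q J a b| ≤ L ∫_D |Y a b_x| ≤ L ∫_D |a| |b_x|`.  (If `|a| |b_x|` is not integrable over `D` the
right side should be read as in the statement: integrability is an assumption.)
-/

open Complex Set Metric Filter Topology MeasureTheory

namespace RSM2

structure Weight (H : Set ℂ) (L : ℝ) (q : ℂ → ℝ) : Prop where
  closedH : IsClosed H
  posL : 0 ≤ L
  cont : ContinuousOn q Hᶜ
  bd : ∀ w ∉ H, 0 ≤ q w ∧ q w ≤ 1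
  lip : ∀ w w' : ℂ, segment ℝ w w' ⊆ Hᶜ → |q w - q w'| ≤ L * |w.im - w'.im|

variable {H D K : Set ℂ} {L : ℝ} {q : ℂ → ℝ}

private theorem exists_extB1 (hD : IsOpen D) (hK : IsCompact K) (hKD : K ⊆ D) {g : ℂ → ℝ}
    (hg : ContDiffOn ℝ 1 g D) (h0 : ∀ z ∈ D \ K, ∀ᶠ w in 𝓝 z, g w = 0) :
    ∃ G : ℂ → ℝ, ContDiff ℝ 1 G ∧ HasCompactSupport G ∧ tsupport G ⊆ K ∧ EqOn G g D := by
  obtain ⟨ζ, h1, h2, h3, -, h4⟩ := exists_cut hK hD hKD
  have hsup : Function.support (fun z => ζ z * g z) ⊆ K := by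
    intro z hz
    by_contra hzK
    have hζ : ζ z ≠ 0 := left_ne_zero_of_mul hz
    have hzD : z ∈ D := h3 (subset_tsupport _ hζ)
    exact right_ne_zero_of_mul hz ((h0 z ⟨hzD, hzK⟩).self_of_nhds)
  have hts : tsupport (fun z => ζ z * g z) ⊆ K := closure_minimal hsup hK.isClosed
  refine ⟨fun z => ζ z * g z, ?_, hK.of_isClosed_subset (isClosed_tsupport _) hts, hts, ?_⟩
  · rw [contDiff_iff_contDiffAt]
    intro z
    by_cases hz : z ∈ D
    · exact ((contDiff_infty.1 h1 1).contDiffAt).mul (hg.contDiffAt (hD.mem_nhds hz))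
    · have h5 : ζ =ᶠ[𝓝 z] 0 := notMem_tsupport_iff_eventuallyEq.1 (fun h => hz (h3 h))
      exact (contDiffAt_const (c := (0:ℝ))).congr_of_eventuallyEq
        (h5.mono fun w hw => by simp [hw])
  · intro z hz
    by_cases hzK : z ∈ K
    · have h5 : ζ z = 1 := (h4.filter_mono (nhds_le_nhdsSet hzK)).self_of_nhds
      simp [h5]
    · have h6 : g z = 0 := (h0 z ⟨hz, hzK⟩).self_of_nhds
      simp [h6]

private theorem Weight.mainB1 (hq : Weight H L q) (hK : IsCompact K) (hKH : K ⊆ Hᶜ)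
    {G : ℂ → ℝ} (hG : ContDiff ℝ 1 G) (hc : HasCompactSupport G) (hs : tsupport G ⊆ K)
    {e : ℂ} (he : ‖e‖ = 1) {C : ℝ}
    (hC : ∀ (z : ℂ) (t : ℝ), 0 < t → segment ℝ (z - t * e) z ⊆ Hᶜ →
      |q (z - t * e) - q z| ≤ C * t) :
    Integrable (fun z => Hᶜ.indicator q z * fderiv ℝ G z e) ∧
    |∫ z, Hᶜ.indicator q z * fderiv ℝ G z e| ≤ C * ∫ z, |G z| := by
  obtain ⟨δ, hδ, hδH⟩ := hK.exists_cthickening_subset_open hq.closedH.isOpen_compl hKH
  obtain ⟨M, hM⟩ := hG.lipschitzWith_of_hasCompactSupport hc one_ne_zero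
  obtain ⟨Q, hQdef⟩ : ∃ Q : ℂ → ℝ, Q = Hᶜ.indicator q := ⟨_, rfl⟩
  rw [← hQdef]
  have hQm : AEStronglyMeasurable Q volume := by
    rw [hQdef, aestronglyMeasurable_indicator_iff hq.closedH.isOpen_compl.measurableSet]
    exact hq.cont.aestronglyMeasurable hq.closedH.isOpen_compl.measurableSet
  have hQb : ∀ z, ‖Q z‖ ≤ 1 := by
    intro z
    rw [hQdef]
    by_cases hz : z ∈ Hᶜ
    · rw [indicator_of_mem hz, Real.norm_eq_abs, abs_of_nonneg (hq.bd z hz).1]
      exact (hq.bd z hz).2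
    · rw [indicator_of_notMem hz]; simp
  have hQeq : ∀ z ∈ Hᶜ, Q z = q z := fun z hz => by rw [hQdef, indicator_of_mem hz]
  have hG0 : ∀ z, z ∉ K → G z = 0 := fun z hz => by
    by_contra h
    exact hz (hs (subset_tsupport _ h))
  have hGc : Continuous G := hG.continuous
  have hGi : Integrable G := hGc.integrable_of_hasCompactSupport hc
  have hcomp : IsCompact (cthickening δ K) := hK.cthickening
  have hfi : Integrable (fun z => fderiv ℝ G z e) :=
    ((hG.continuous_fderiv one_ne_zero).clm_apply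
      continuous_const).integrable_of_hasCompactSupport (hc.fderiv_apply (𝕜 := ℝ) e)
  refine ⟨hfi.bdd_mul hQm (Filter.Eventually.of_forall hQb), ?_⟩
  have hmem : ∀ z ∈ K, ∀ t : ℝ, 0 < t → t < δ → ∀ s : ℝ, 0 ≤ s → s ≤ t →
      z - s * e ∈ cthickening δ K := by
    intro z hz t ht0 htδ s hs0 hst
    apply mem_cthickening_of_dist_le _ z _ _ hz
    rw [dist_eq_norm, sub_sub_cancel_left, norm_neg, norm_mul, he, mul_one, Complex.norm_real,
      Real.norm_eq_abs, abs_of_nonneg hs0]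
    linarith
  have htend : Tendsto (fun t : ℝ => ∫ z, Q z * (t⁻¹ * (G (z + t * e) - G z))) (𝓝[>] 0)
      (𝓝 (∫ z, Q z * fderiv ℝ G z e)) := by
    apply tendsto_integral_filter_of_dominated_convergence
      ((cthickening δ K).indicator (fun _ => (M : ℝ)))
    · refine Filter.Eventually.of_forall fun t => ?_
      refine hQm.mul ?_
      exact (continuous_const.mul ((hGc.comp (continuous_id.add
        continuous_const)).sub hGc)).aestronglyMeasurable
    · have h1 : ∀ᶠ t : ℝ in 𝓝[>] 0, 0 < t ∧ t < δ := by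
        filter_upwards [self_mem_nhdsWithin, mem_nhdsWithin_of_mem_nhds (Iio_mem_nhds hδ)]
          with t ht1 ht2 using ⟨ht1, ht2⟩
      filter_upwards [h1] with t ht
      refine Filter.Eventually.of_forall fun z => ?_
      by_cases hz : z ∈ cthickening δ K
      · rw [indicator_of_mem hz, norm_mul]
        have h2 : ‖t⁻¹ * (G (z + t * e) - G z)‖ ≤ M := by
          have h3 := hM.dist_le_mul (z + t * e) z
          rw [dist_eq_norm, dist_eq_norm, add_sub_cancel_left, norm_mul, he, mul_one,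
            Complex.norm_real, Real.norm_eq_abs t, abs_of_pos ht.1] at h3
          rw [norm_mul, norm_inv, Real.norm_eq_abs t, abs_of_pos ht.1, inv_mul_le_iff₀ ht.1]
          linarith
        calc ‖Q z‖ * ‖t⁻¹ * (G (z + t * e) - G z)‖ ≤ 1 * M :=
              mul_le_mul (hQb z) h2 (norm_nonneg _) zero_le_one
          _ = M := one_mul _
      · rw [indicator_of_notMem hz]
        have h2 : G z = 0 := hG0 z fun h => hz (self_subset_cthickening K h)
        have h3 : G (z + t * e) = 0 := by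
          apply hG0
          intro h
          apply hz
          have := hmem _ h t ht.1 ht.2 t ht.1.le le_rfl
          simpa using this
        rw [h2, h3]
        simp
    · rw [integrable_indicator_iff hcomp.measurableSet]
      exact integrableOn_const hcomp.measure_lt_top.ne
    · refine Filter.Eventually.of_forall fun z => ?_
      refine Tendsto.const_mul _ ?_
      have h5 : HasDerivAt (fun s : ℝ => z + (s : ℂ) * e) e 0 := by
        have := ((hasDerivAt_id (0:ℝ)).smul_const e).const_add z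
        simpa using this
      have h4 : HasFDerivAt G (fderiv ℝ G (z + ((0:ℝ) : ℂ) * e)) (z + ((0:ℝ) : ℂ) * e) :=
        (hG.differentiable one_ne_zero _).hasFDerivAt
      have h6 : HasDerivAt (fun s : ℝ => G (z + (s : ℂ) * e))
          (fderiv ℝ G (z + ((0:ℝ) : ℂ) * e) e) 0 := h4.comp_hasDerivAt (0:ℝ) h5
      have h7 := h6.tendsto_slope_zero_right
      simpa using h7
  refine le_of_tendsto htend.abs ?_
  have h1 : ∀ᶠ t : ℝ in 𝓝[>] 0, 0 < t ∧ t < δ := by
    filter_upwards [self_mem_nhdsWithin, mem_nhdsWithin_of_mem_nhds (Iio_mem_nhds hδ)]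
      with t ht1 ht2 using ⟨ht1, ht2⟩
  filter_upwards [h1] with t ht
  have hGt : Integrable (fun z => G (z + t * e)) := hGi.comp_add_right _
  have hQG : Integrable (fun z => Q z * G z) := hGi.bdd_mul hQm (Filter.Eventually.of_forall hQb)
  have hQGt : Integrable (fun z => Q z * G (z + t * e)) :=
    hGt.bdd_mul hQm (Filter.Eventually.of_forall hQb)
  have hQ'G : Integrable (fun z => Q (z - t * e) * G z) := by
    have := hQGt.comp_sub_right (t * e)
    simpa using this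
  have e1 : ∫ z, Q z * (t⁻¹ * (G (z + t * e) - G z)) =
      t⁻¹ * ((∫ z, Q z * G (z + t * e)) - ∫ z, Q z * G z) := by
    rw [← integral_sub hQGt hQG, ← integral_const_mul]
    congr 1
    funext z
    ring
  have e2 : ∫ z, Q z * G (z + t * e) = ∫ z, Q (z - t * e) * G z := by
    have := integral_add_right_eq_self (μ := (volume : Measure ℂ))
      (fun z => Q (z - t * e) * G z) (t * e)
    rw [← this]
    congr 1
    funext z
    rw [add_sub_cancel_right]
  rw [e1, e2, ← integral_sub hQ'G hQG, abs_mul, abs_inv, abs_of_pos ht.1, inv_mul_le_iff₀ ht.1,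
    ← integral_const_mul, ← integral_const_mul]
  refine (abs_integral_le_integral_abs).trans ?_
  refine integral_mono (hQ'G.sub hQG).abs ((hGi.abs.const_mul C).const_mul t) fun z => ?_
  simp only
  rw [← sub_mul, abs_mul]
  by_cases hz : z ∈ K
  · have hseg : segment ℝ (z - t * e) z ⊆ Hᶜ := by
      intro w hw
      rw [segment_eq_image'] at hw
      obtain ⟨θ, hθ, rfl⟩ := hw
      apply hδH
      have h2 := hmem z hz t ht.1 ht.2 (t * (1 - θ)) (mul_nonneg ht.1.le (by linarith [hθ.2]))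
        (by nlinarith [hθ.1, ht.1])
      convert h2 using 1
      simp only [Complex.real_smul]
      push_cast
      ring
    have h3 : z - t * e ∈ Hᶜ := hseg (left_mem_segment ℝ _ _)
    have h4 : z ∈ Hᶜ := hseg (right_mem_segment ℝ _ _)
    rw [hQeq _ h3, hQeq _ h4]
    have h5 := hC z t ht.1 hseg
    calc |q (z - t * e) - q z| * |G z| ≤ C * t * |G z| :=
          mul_le_mul_of_nonneg_right h5 (abs_nonneg _)
      _ = t * (C * |G z|) := by ring
  · rw [hG0 z hz]
    simp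

private theorem Weight.dirB1 (hq : Weight H L q) (hD : IsOpen D) (hDH : D ⊆ Hᶜ) (hK : IsCompact K)
    (hKD : K ⊆ D) {g : ℂ → ℝ} (hg : ContDiffOn ℝ 1 g D)
    (h0 : ∀ z ∈ D \ K, ∀ᶠ w in 𝓝 z, g w = 0)
    {e : ℂ} (he : ‖e‖ = 1) {C : ℝ}
    (hC : ∀ (z : ℂ) (t : ℝ), 0 < t → segment ℝ (z - t * e) z ⊆ Hᶜ →
      |q (z - t * e) - q z| ≤ C * t) :
    IntegrableOn (fun z => q z * fderiv ℝ g z e) D ∧
    |∫ z in D, q z * fderiv ℝ g z e| ≤ C * ∫ z in D, |g z| := by
  obtain ⟨G, hG, hc, hs, hGg⟩ := exists_extB1 hD hK hKD hg h0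
  obtain ⟨h1, h2⟩ := hq.mainB1 hK (hKD.trans hDH) hG hc hs he hC
  have e1 : ∀ z ∈ D, Hᶜ.indicator q z * fderiv ℝ G z e = q z * fderiv ℝ g z e := by
    intro z hz
    rw [indicator_of_mem (hDH hz)]
    have h3 : G =ᶠ[𝓝 z] g := by
      filter_upwards [hD.mem_nhds hz] with w hw using hGg hw
    rw [h3.fderiv_eq]
  have e2 : ∀ z, z ∉ D → Hᶜ.indicator q z * fderiv ℝ G z e = 0 := by
    intro z hz
    have h5 : G =ᶠ[𝓝 z] 0 := notMem_tsupport_iff_eventuallyEq.1 (fun h => hz (hKD (hs h)))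
    rw [h5.fderiv_eq]
    simp
  have e3 : ∀ z, z ∉ D → |G z| = 0 := by
    intro z hz
    have h5 : G =ᶠ[𝓝 z] 0 := notMem_tsupport_iff_eventuallyEq.1 (fun h => hz (hKD (hs h)))
    rw [h5.self_of_nhds]
    simp
  refine ⟨(h1.integrableOn (s := D)).congr_fun e1 hD.measurableSet, ?_⟩
  rw [← setIntegral_congr_fun hD.measurableSet e1,
    setIntegral_eq_integral_of_forall_compl_eq_zero e2]
  have e4 : ∫ z in D, |g z| = ∫ z, |G z| := by
    rw [← setIntegral_eq_integral_of_forall_compl_eq_zero e3]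
    refine setIntegral_congr_fun hD.measurableSet fun z hz => ?_
    rw [hGg hz]
  rw [e4]
  exact h2

private theorem Weight.hXB1 (hq : Weight H L q) (z : ℂ) (t : ℝ) (_ht : 0 < t)
    (hz : segment ℝ (z - t * 1) z ⊆ Hᶜ) : |q (z - t * 1) - q z| ≤ 0 * t := by
  have := hq.lip _ _ hz
  simpa using this

private theorem Weight.hYB1 (hq : Weight H L q) (z : ℂ) (t : ℝ) (ht : 0 < t)
    (hz : segment ℝ (z - t * I) z ⊆ Hᶜ) : |q (z - t * I) - q z| ≤ L * t := by
  have := hq.lip _ _ hz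
  simpa [abs_of_pos ht] using this

theorem Weight.dX (hq : Weight H L q) (hD : IsOpen D) (hDH : D ⊆ Hᶜ) (hK : IsCompact K)
    (hKD : K ⊆ D) {g : ℂ → ℝ} (hg : ContDiffOn ℝ 1 g D)
    (h0 : ∀ z ∈ D \ K, ∀ᶠ w in 𝓝 z, g w = 0) : ∫ z in D, q z * RSM2.dX g z = 0 := by
  have h := (hq.dirB1 hD hDH hK hKD hg h0 norm_one hq.hXB1).2
  rw [zero_mul] at h
  exact abs_nonpos_iff.1 h

theorem Weight.dY (hq : Weight H L q) (hD : IsOpen D) (hDH : D ⊆ Hᶜ) (hK : IsCompact K)
    (hKD : K ⊆ D) {g : ℂ → ℝ} (hg : ContDiffOn ℝ 1 g D)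
    (h0 : ∀ z ∈ D \ K, ∀ᶠ w in 𝓝 z, g w = 0) :
    |∫ z in D, q z * RSM2.dY g z| ≤ L * ∫ z in D, |g z| :=
  (hq.dirB1 hD hDH hK hKD hg h0 norm_I hq.hYB1).2

theorem Weight.J (hq : Weight H L q) (hD : IsOpen D) (hDH : D ⊆ Hᶜ) (hK : IsCompact K)
    (hKD : K ⊆ D) {a b : ℂ → ℝ} (ha : ContDiffOn ℝ 2 a D) (hb : ContDiffOn ℝ 2 b D)
    (h0 : ∀ z ∈ D \ K, (∀ᶠ w in 𝓝 z, a w = 0) ∨ (∀ᶠ w in 𝓝 z, b w = 0))
    (hint : IntegrableOn (fun z => |a z| * |RSM2.dX b z|) D) :
    |∫ z in D, q z * RSM2.J a b z| ≤ L * ∫ z in D, |a z| * |RSM2.dX b z| := by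
  obtain ⟨Y, hY1, hY2, hY3, hY01, hY4⟩ := exists_cut hK hD hKD
  have hYs : ContDiff ℝ 2 Y := contDiff_infty.1 hY1 2
  obtain ⟨F, hF⟩ : ∃ F : ℂ → ℝ, F = fun z => Y z * a z := ⟨_, rfl⟩
  have hFs : ContDiffOn ℝ 2 F D := by rw [hF]; exact hYs.contDiffOn.mul ha
  have hb' : ContDiffOn ℝ 1 (fderiv ℝ b) D := hb.fderiv_of_isOpen hD (by norm_num)
  have hbv : ∀ v : ℂ, ContDiffOn ℝ 1 (fun z => fderiv ℝ b z v) D := fun v =>
    hb'.clm_apply contDiffOn_const
  have hF1 : ContDiffOn ℝ 1 F D := hFs.of_le (by norm_num)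
  have hFa : ∀ z ∈ D, DifferentiableAt ℝ F z := fun z hz =>
    (hF1.differentiableOn one_ne_zero).differentiableAt (hD.mem_nhds hz)
  have hba : ∀ v : ℂ, ∀ z ∈ D, DifferentiableAt ℝ (fun z => fderiv ℝ b z v) z := fun v z hz =>
    ((hbv v).differentiableOn one_ne_zero).differentiableAt (hD.mem_nhds hz)
  have hsym : ∀ z ∈ D, fderiv ℝ (fun z => fderiv ℝ b z I) z 1 =
      fderiv ℝ (fun z => fderiv ℝ b z 1) z I := by
    intro z hz
    have hd : DifferentiableAt ℝ (fderiv ℝ b) z :=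
      (hb'.differentiableOn one_ne_zero).differentiableAt (hD.mem_nhds hz)
    have e : ∀ v w : ℂ, fderiv ℝ (fun z => fderiv ℝ b z w) z v =
        fderiv ℝ (fderiv ℝ b) z v w := by
      intro v w
      have h1 := hd.hasFDerivAt.clm_apply (hasFDerivAt_const w z)
      rw [h1.fderiv]
      simp
    rw [e, e]
    have h2 : IsSymmSndFDerivAt ℝ b z :=
      (hb.contDiffAt (hD.mem_nhds hz)).isSymmSndFDerivAt (by simp)
    exact h2 _ _
  -- the Jacobian
  have eJ : ∀ z ∈ D, RSM2.J a b z = fderiv ℝ (fun z => F z * fderiv ℝ b z I) z 1 -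
      fderiv ℝ (fun z => F z * fderiv ℝ b z 1) z I := by
    intro z hz
    have e1 : RSM2.J a b z = RSM2.J F b z := by
      by_cases hzK : z ∈ K
      · have h5 : ∀ᶠ w in 𝓝 z, Y w = 1 := hY4.filter_mono (nhds_le_nhdsSet hzK)
        exact J_congr (h5.mono fun w hw => by simp [hF, hw]) (EventuallyEq.refl _ _)
      · rcases h0 z ⟨hz, hzK⟩ with h5 | h5
        · have e1 : RSM2.J a b z = RSM2.J (fun _ => 0) b z := J_congr h5 (EventuallyEq.refl _ _)
          have e2 : RSM2.J F b z = RSM2.J (fun _ => 0) b z :=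
            J_congr (h5.mono fun w hw => by simp [hF, hw]) (EventuallyEq.refl _ _)
          rw [e1, e2]
        · have e1 : RSM2.J a b z = RSM2.J a (fun _ => 0) z := J_congr (EventuallyEq.refl _ _) h5
          have e2 : RSM2.J F b z = RSM2.J F (fun _ => 0) z := J_congr (EventuallyEq.refl _ _) h5
          rw [e1, e2, J_const_right, J_const_right]
    rw [e1]
    have h1 := dX_mul (hFa z hz) (hba I z hz)
    have h2 := dY_mul (hFa z hz) (hba 1 z hz)
    have h3 := hsym z hz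
    unfold RSM2.dX at h1
    unfold RSM2.dY at h2
    unfold RSM2.J RSM2.dX RSM2.dY
    rw [h1, h2, h3]
    ring
  have hcK : IsCompact (tsupport Y) := hY2
  have hv0 : ∀ v : ℂ, ∀ z ∈ D \ tsupport Y, ∀ᶠ w in 𝓝 z, F w * fderiv ℝ b w v = 0 := by
    intro v z hz
    have h5 : Y =ᶠ[𝓝 z] 0 := notMem_tsupport_iff_eventuallyEq.1 hz.2
    exact h5.mono fun w hw => by simp [hF, hw]
  obtain ⟨i1, b1⟩ := hq.dirB1 hD hDH hcK hY3 (hF1.mul (hbv I)) (hv0 I) norm_one hq.hXB1
  obtain ⟨i2, b2⟩ := hq.dirB1 hD hDH hcK hY3 (hF1.mul (hbv 1)) (hv0 1) norm_I hq.hYB1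
  rw [zero_mul] at b1
  have b1' := abs_nonpos_iff.1 b1
  have e5 : ∫ z in D, q z * RSM2.J a b z =
      (∫ z in D, q z * fderiv ℝ (fun z => F z * fderiv ℝ b z I) z 1) -
        ∫ z in D, q z * fderiv ℝ (fun z => F z * fderiv ℝ b z 1) z I := by
    rw [← integral_sub i1 i2]
    refine setIntegral_congr_fun hD.measurableSet fun z hz => ?_
    rw [eJ z hz]
    ring
  rw [e5, b1', zero_sub, abs_neg]
  refine b2.trans (mul_le_mul_of_nonneg_left ?_ hq.posL)
  refine integral_mono_of_nonneg (Filter.Eventually.of_forall fun z => abs_nonneg _) hint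
    (Filter.Eventually.of_forall fun z => ?_)
  simp only [hF]
  rw [abs_mul, abs_mul, abs_of_nonneg (hY01 z).1]
  have h6 : 0 ≤ |a z| * |RSM2.dX b z| := mul_nonneg (abs_nonneg _) (abs_nonneg _)
  have h7 : Y z * |a z| * |fderiv ℝ b z 1| = Y z * (|a z| * |RSM2.dX b z|) := by
    unfold RSM2.dX; ring
  rw [h7]
  exact mul_le_of_le_one_left h6 (hY01 z).2

end RSM2
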