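import Pool.Agent.RSM2.B1

/-!
# RSM2 module B2: integration by parts against a weight, near a hole

`D` open, `H' ` a compact set disjoint from `D` (a slit) and from `H`, `T` a compact subset of
`D ∪ H'`; near the points of `D \ T` `a` or `b` vanishes; Dirichlet integrals finite.

PROOF of `Weight.J_left` (`a → 0` at `H'`).  `a_δ = a ψ(a²/δ²)` as in J2 vanishes near `H'`, so
`Weight.J` applies: `|∫_D q J a_δ b| ≤ L ∫_D |a_δ| |b_x| ≤ L ∫_D |a| |b_x|`, and
`∫_D q J a_δ b → ∫_D q J a b` as in J2 (`J a_δ b = (ψ + 2 (a²/δ²) ψ') J a b`, dominated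
convergence, `|q| ≤ 1`, `J a b = 0` almost everywhere on `{a = 0}` by `volume_level_set`).
PROOF of `Weight.J_right` (`b → κ` at `H'`; here `a` vanishes near the points of `D \ T`).  Replace `b` by
`b - κ` (`J a b` and `∂_x b` do not change); so let `κ = 0`.  Let `θ t = ∫_0^t m`, `m` an even `C^∞`
function on the line with values in `[0, 1]`, `m = 0` on `[-1, 1]` and `m = 1` off `[-2, 2]` (or any
`C^∞` function `θ`, `θ = 0` on `[-1, 1]`, `|θ'| ≤ 4`, `θ' = 1` off `[-2, 2]`).
`b_δ = δ θ(b/δ)` vanishes near `H'`, `J a b_δ = θ'(b/δ) J a b`, `|∂_x b_δ| ≤ 4 |b_x|`.  By `Weight.J`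
(joint support: near `H'` `b_δ = 0`) `|∫_D q J a b_δ| ≤ 4 L ∫_D |a| |b_x|`; let `δ → 0`.
-/

open Complex Set Metric Filter Topology MeasureTheory

namespace RSM2

variable {H D H' T : Set ℂ} {L : ℝ} {q : ℂ → ℝ}

/-- The limit step: cut-offs of a function `f` with values off `κ`. -/
theorem B2_limit (hq : Weight H L q) (hD : IsOpen D) (hDH : D ⊆ Hᶜ) {f g : ℂ → ℝ} {κ M : ℝ}
    (hf : ContDiffOn ℝ 2 f D) (hJ : IntegrableOn g D)
    (hg0 : ∀ z ∈ D, fderiv ℝ f z = 0 → g z = 0)
    {m : ℝ → ℝ} (hm : Continuous m) (hmM : ∀ t, |m t| ≤ M) (hm1 : ∀ t, 2 < |t| → m t = 1) :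
    Tendsto (fun n : ℕ => ∫ z in D, q z * (m (((n : ℝ) + 1) * (f z - κ)) * g z))
      atTop (𝓝 (∫ z in D, q z * g z)) := by
  have hqD : ContinuousOn q D := hq.cont.mono hDH
  have hM0 : 0 ≤ M := (abs_nonneg _).trans (hmM 0)
  refine tendsto_integral_of_dominated_convergence (fun z => M * ‖g z‖) ?_
    (hJ.norm.const_mul M) ?_ ?_
  · intro n
    have h1 : ContinuousOn (fun z => m (((n : ℝ) + 1) * (f z - κ))) D :=
      hm.comp_continuousOn (continuousOn_const.mul (hf.continuousOn.sub continuousOn_const))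
    exact (hqD.aestronglyMeasurable hD.measurableSet).mul
      ((h1.aestronglyMeasurable hD.measurableSet).mul hJ.aestronglyMeasurable)
  · intro n
    rw [ae_restrict_iff' hD.measurableSet]
    refine Filter.Eventually.of_forall fun z hz => ?_
    have h1 := hq.bd z (hDH hz)
    rw [norm_mul, norm_mul, Real.norm_eq_abs, Real.norm_eq_abs (m _)]
    have h2 : |q z| ≤ 1 := abs_le.2 ⟨by linarith [h1.1], h1.2⟩
    have h3 := hmM (((n : ℝ) + 1) * (f z - κ))
    calc |q z| * (|m (((n : ℝ) + 1) * (f z - κ))| * ‖g z‖)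
        ≤ 1 * (M * ‖g z‖) := by
          apply mul_le_mul h2 _ (by positivity) zero_le_one
          exact mul_le_mul_of_nonneg_right h3 (norm_nonneg _)
      _ = M * ‖g z‖ := one_mul _
  · have hnull : ∀ᵐ z ∂(volume.restrict D), ¬ (f z = κ ∧ fderiv ℝ f z ≠ 0) := by
      rw [ae_restrict_iff' hD.measurableSet]
      have h1 := volume_level_set hD (hf.differentiableOn (by norm_num)) κ
      filter_upwards [measure_eq_zero_iff_ae_notMem.1 h1] with z hz hzD h
      exact hz ⟨hzD, h⟩
    have hmem : ∀ᵐ z ∂(volume.restrict D), z ∈ D := ae_restrict_mem hD.measurableSet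
    filter_upwards [hnull, hmem] with z hz hzD
    by_cases haz : f z = κ
    · have h1 : fderiv ℝ f z = 0 := by
        by_contra h
        exact hz ⟨haz, h⟩
      rw [hg0 z hzD h1]
      simp only [mul_zero]
      exact tendsto_const_nhds
    · have hpos : 0 < |f z - κ| := abs_pos.2 (sub_ne_zero.2 haz)
      have h1 : ∀ᶠ n : ℕ in atTop, 2 < |((n : ℝ) + 1) * (f z - κ)| := by
        obtain ⟨N, hN⟩ := exists_nat_gt (2 / |f z - κ|)
        filter_upwards [eventually_ge_atTop N] with n hn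
        have hn' : (N : ℝ) ≤ (n : ℝ) := by exact_mod_cast hn
        rw [abs_mul, abs_of_pos (show (0 : ℝ) < (n : ℝ) + 1 by positivity)]
        rw [div_lt_iff₀ hpos] at hN
        nlinarith
      refine tendsto_const_nhds.congr' ?_
      filter_upwards [h1] with n hn
      rw [hm1 _ hn, one_mul]

theorem B2_abs_cutn_le (n : ℕ) (t : ℝ) : |J2_cutn n t| ≤ |t| := by
  have hn : (0 : ℝ) < (n : ℝ) + 1 := by positivity
  unfold J2_cutn J2_cut
  rw [abs_div, abs_mul, abs_mul, abs_of_pos hn, mul_assoc, mul_div_assoc, mul_comm]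
  have h1 : |Real.smoothTransition ((((n : ℝ) + 1) * t) ^ 2 - 1)| ≤ 1 := by
    rw [abs_of_nonneg (Real.smoothTransition.nonneg _)]
    exact Real.smoothTransition.le_one _
  rw [div_mul_eq_mul_div, div_le_iff₀ hn]
  calc |t| * |Real.smoothTransition ((((n : ℝ) + 1) * t) ^ 2 - 1)| * ((n : ℝ) + 1)
      ≤ |t| * 1 * ((n : ℝ) + 1) := by gcongr
    _ = |t| * ((n : ℝ) + 1) := by rw [mul_one]

theorem Weight.J_left (hq : Weight H L q) (hD : IsOpen D) (hDH : D ⊆ Hᶜ) (hH' : IsCompact H')
    (hdisj : Disjoint D H') (hT : IsCompact T) (hTD : T ⊆ D ∪ H') {a b : ℂ → ℝ}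
    (ha : ContDiffOn ℝ 2 a D) (hb : ContDiffOn ℝ 2 b D)
    (h0 : ∀ z ∈ D \ T, (∀ᶠ w in 𝓝 z, a w = 0) ∨ (∀ᶠ w in 𝓝 z, b w = 0))
    (hal : IntegrableOn (fun z => ‖fderiv ℝ a z‖ ^ 2) (D ∩ T))
    (hbl : IntegrableOn (fun z => ‖fderiv ℝ b z‖ ^ 2) (D ∩ T))
    (hint : IntegrableOn (fun z => |a z| * |RSM2.dX b z|) D)
    (hlim : Tendsto a (nearIn D H') (𝓝 0)) :
    |∫ z in D, q z * RSM2.J a b z| ≤ L * ∫ z in D, |a z| * |RSM2.dX b z| := by
  obtain ⟨M, hM⟩ := J2_deriv_cut_bdd
  have hJ := integrable_J hD hT ha hb h0 hal hbl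
  have hda : ∀ z ∈ D, DifferentiableAt ℝ a z := fun z hz =>
    (ha.differentiableOn (by norm_num)).differentiableAt (hD.mem_nhds hz)
  have hc : Continuous (deriv J2_cut) :=
    (J2_cut_smooth (n := 1)).continuous_deriv (by norm_num)
  have hmeasdX : Measurable (RSM2.dX b) := measurable_fderiv_apply_const ℝ b 1
  have hstep : ∀ n : ℕ,
      |∫ z in D, q z * (deriv J2_cut (((n : ℝ) + 1) * (a z - 0)) * RSM2.J a b z)| ≤
        L * ∫ z in D, |a z| * |RSM2.dX b z| := by
    intro n
    have hn : (0 : ℝ) < (n : ℝ) + 1 := by positivity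
    have hev : ∀ᶠ z in nearIn D H', |a z| < 1 / ((n : ℝ) + 1) := by
      have h1 := hlim.eventually (Metric.ball_mem_nhds (0 : ℝ)
        (show (0 : ℝ) < 1 / ((n : ℝ) + 1) by positivity))
      filter_upwards [h1] with z hz
      simpa [Real.dist_eq] using hz
    obtain ⟨U, hU, hHU, hUa⟩ := eventually_nearIn.1 hev
    have hvan : ∀ z ∈ D, z ∈ U → J2_cutn n (a z) = 0 := by
      intro z hz hzU
      unfold J2_cutn
      rw [J2_cut_zero, zero_div]
      rw [abs_mul, abs_of_pos hn]
      have := hUa z ⟨hzU, hz⟩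
      rw [lt_div_iff₀ hn] at this
      linarith
    have hAn : ContDiffOn ℝ 2 (fun w => J2_cutn n (a w)) D :=
      (J2_cutn_smooth n).comp_contDiffOn ha
    have hintn : IntegrableOn (fun z => |J2_cutn n (a z)| * |RSM2.dX b z|) D := by
      refine hint.mono' ?_ (Filter.Eventually.of_forall fun z => ?_)
      · exact ((hAn.continuousOn.abs).aestronglyMeasurable hD.measurableSet).mul
          hmeasdX.abs.aestronglyMeasurable
      · rw [Real.norm_eq_abs, abs_mul, abs_abs, abs_abs]
        exact mul_le_mul_of_nonneg_right (B2_abs_cutn_le n _) (abs_nonneg _)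
    have h2 : |∫ z in D, q z * RSM2.J (fun w => J2_cutn n (a w)) b z| ≤
        L * ∫ z in D, |J2_cutn n (a z)| * |RSM2.dX b z| := by
      refine hq.J (K := T \ U) hD hDH (hT.diff hU) ?_ hAn hb ?_ hintn
      · rintro z ⟨hzT, hzU⟩
        rcases hTD hzT with h | h
        · exact h
        · exact absurd (hHU h) hzU
      · rintro z ⟨hzD, hzK⟩
        by_cases hzU : z ∈ U
        · left
          filter_upwards [hD.mem_nhds hzD, hU.mem_nhds hzU] with w hw1 hw2
          exact hvan w hw1 hw2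
        · have hzT : z ∉ T := fun h => hzK ⟨h, hzU⟩
          rcases h0 z ⟨hzD, hzT⟩ with h | h
          · left
            filter_upwards [h] with w hw
            rw [hw]
            unfold J2_cutn
            rw [mul_zero, J2_cut_zero (by simp), zero_div]
          · exact Or.inr h
    have h3 : ∫ z in D, q z * (deriv J2_cut (((n : ℝ) + 1) * (a z - 0)) * RSM2.J a b z) =
        ∫ z in D, q z * RSM2.J (fun w => J2_cutn n (a w)) b z := by
      refine setIntegral_congr_fun hD.measurableSet fun z hz => ?_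
      simp only [sub_zero]
      rw [J_comp_left ((J2_cutn_smooth n).differentiable (by norm_num) _) (hda z hz),
        J2_deriv_cutn]
    rw [h3]
    refine h2.trans (mul_le_mul_of_nonneg_left ?_ hq.posL)
    exact integral_mono_of_nonneg (Filter.Eventually.of_forall fun z => by positivity) hint
      (Filter.Eventually.of_forall fun z =>
        mul_le_mul_of_nonneg_right (B2_abs_cutn_le n _) (abs_nonneg _))
  have hlimit := B2_limit (κ := 0) hq hD hDH ha hJ (fun z _ h => by
    have h3 := abs_J_le a b z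
    rw [h, norm_zero, zero_mul] at h3
    exact abs_eq_zero.1 (le_antisymm h3 (abs_nonneg _))) hc hM
      (fun t ht => J2_deriv_cut_large ht)
  exact le_of_tendsto hlimit.abs (Filter.Eventually.of_forall hstep)

/-- The cut-off function with derivative `smoothTransition (t ^ 2 - 1)`. -/
noncomputable def B2_th (t : ℝ) : ℝ := ∫ s in (0 : ℝ)..t, Real.smoothTransition (s ^ 2 - 1)

theorem B2_m_cont : Continuous fun s : ℝ => Real.smoothTransition (s ^ 2 - 1) :=
  Real.smoothTransition.continuous.comp ((continuous_id.pow 2).sub continuous_const)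

theorem B2_m_smooth : ContDiff ℝ 1 fun s : ℝ => Real.smoothTransition (s ^ 2 - 1) :=
  Real.smoothTransition.contDiff.comp ((contDiff_id.pow 2).sub contDiff_const)

theorem B2_hasDeriv (t : ℝ) : HasDerivAt B2_th (Real.smoothTransition (t ^ 2 - 1)) t :=
  intervalIntegral.integral_hasDerivAt_right (B2_m_cont.intervalIntegrable _ _)
    (B2_m_cont.stronglyMeasurableAtFilter _ _) B2_m_cont.continuousAt

theorem B2_deriv : deriv B2_th = fun t : ℝ => Real.smoothTransition (t ^ 2 - 1) :=
  funext fun t => (B2_hasDeriv t).deriv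

theorem B2_th_smooth : ContDiff ℝ 2 B2_th := by
  have h : ContDiff ℝ (1 + 1) B2_th := by
    rw [contDiff_succ_iff_deriv]
    refine ⟨fun t => (B2_hasDeriv t).differentiableAt, by simp, ?_⟩
    rw [B2_deriv]
    exact B2_m_smooth
  have h2 : (1 + 1 : WithTop ℕ∞) = 2 := by norm_num
  rwa [h2] at h

theorem B2_th_zero {t : ℝ} (ht : |t| < 1) : B2_th t = 0 := by
  unfold B2_th
  rw [intervalIntegral.integral_congr (g := fun _ => (0 : ℝ))]
  · simp
  · intro s hs
    refine Real.smoothTransition.zero_of_nonpos ?_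
    have h1 : |s| ≤ |t| := by
      rw [mem_uIcc] at hs
      rcases hs with ⟨h2, h3⟩ | ⟨h2, h3⟩
      · rw [abs_of_nonneg h2]
        exact h3.trans (le_abs_self t)
      · rw [abs_of_nonpos h3, abs_of_nonpos (h2.trans h3)]
        linarith
    have h2 : s ^ 2 ≤ 1 := by
      rw [← sq_abs]
      have := abs_nonneg s
      nlinarith
    linarith

/-- The rescaled cut-off function. -/
noncomputable def B2_thn (n : ℕ) (κ t : ℝ) : ℝ := B2_th (((n : ℝ) + 1) * (t - κ)) / ((n : ℝ) + 1)

theorem B2_thn_smooth (n : ℕ) (κ : ℝ) : ContDiff ℝ 2 (B2_thn n κ) :=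
  (B2_th_smooth.comp (contDiff_const.mul (contDiff_id.sub contDiff_const))).div_const _

theorem B2_deriv_thn (n : ℕ) (κ t : ℝ) :
    deriv (B2_thn n κ) t = Real.smoothTransition ((((n : ℝ) + 1) * (t - κ)) ^ 2 - 1) := by
  have h0 : ((n : ℝ) + 1) ≠ 0 := by positivity
  have h2 : HasDerivAt (fun s : ℝ => ((n : ℝ) + 1) * (s - κ)) ((n : ℝ) + 1) t := by
    simpa using ((hasDerivAt_id t).sub_const κ).const_mul ((n : ℝ) + 1)
  have h3 : HasDerivAt (fun s => B2_th (((n : ℝ) + 1) * (s - κ)) / ((n : ℝ) + 1))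
      (Real.smoothTransition ((((n : ℝ) + 1) * (t - κ)) ^ 2 - 1) * ((n : ℝ) + 1) / ((n : ℝ) + 1)) t :=
    (HasDerivAt.comp t (B2_hasDeriv _) h2).div_const _
  rw [mul_div_cancel_right₀ _ h0] at h3
  exact h3.deriv

theorem Weight.J_right (hq : Weight H L q) (hD : IsOpen D) (hDH : D ⊆ Hᶜ) (hH' : IsCompact H')
    (hdisj : Disjoint D H') (hT : IsCompact T) (hTD : T ⊆ D ∪ H') {a b : ℂ → ℝ} {κ : ℝ}
    (ha : ContDiffOn ℝ 2 a D) (hb : ContDiffOn ℝ 2 b D)
    (h0 : ∀ z ∈ D \ T, ∀ᶠ w in 𝓝 z, a w = 0)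
    (hal : IntegrableOn (fun z => ‖fderiv ℝ a z‖ ^ 2) (D ∩ T))
    (hbl : IntegrableOn (fun z => ‖fderiv ℝ b z‖ ^ 2) (D ∩ T))
    (hint : IntegrableOn (fun z => |a z| * |RSM2.dX b z|) D)
    (hlim : Tendsto b (nearIn D H') (𝓝 κ)) :
    |∫ z in D, q z * RSM2.J a b z| ≤ 4 * L * ∫ z in D, |a z| * |RSM2.dX b z| := by
  have hJ := integrable_J hD hT ha hb (fun z hz => Or.inl (h0 z hz)) hal hbl
  have hdb : ∀ z ∈ D, DifferentiableAt ℝ b z := fun z hz =>
    (hb.differentiableOn (by norm_num)).differentiableAt (hD.mem_nhds hz)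
  have hmM : ∀ t : ℝ, |Real.smoothTransition (t ^ 2 - 1)| ≤ 1 := fun t => by
    rw [abs_of_nonneg (Real.smoothTransition.nonneg _)]
    exact Real.smoothTransition.le_one _
  have hm1 : ∀ t : ℝ, 2 < |t| → Real.smoothTransition (t ^ 2 - 1) = 1 := fun t ht => by
    apply Real.smoothTransition.one_of_one_le
    rw [← sq_abs]
    nlinarith
  have hI0 : 0 ≤ ∫ z in D, |a z| * |RSM2.dX b z| :=
    integral_nonneg fun z => by positivity
  have hstep : ∀ n : ℕ,
      |∫ z in D, q z * (Real.smoothTransition ((((n : ℝ) + 1) * (b z - κ)) ^ 2 - 1) *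
        RSM2.J a b z)| ≤ 4 * L * ∫ z in D, |a z| * |RSM2.dX b z| := by
    intro n
    have hn : (0 : ℝ) < (n : ℝ) + 1 := by positivity
    have hev : ∀ᶠ z in nearIn D H', |b z - κ| < 1 / ((n : ℝ) + 1) := by
      have h1 := hlim.eventually (Metric.ball_mem_nhds κ
        (show (0 : ℝ) < 1 / ((n : ℝ) + 1) by positivity))
      filter_upwards [h1] with z hz
      simpa [Real.dist_eq] using hz
    obtain ⟨U, hU, hHU, hUa⟩ := eventually_nearIn.1 hev
    have hvan : ∀ z ∈ D, z ∈ U → B2_thn n κ (b z) = 0 := by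
      intro z hz hzU
      unfold B2_thn
      rw [B2_th_zero, zero_div]
      rw [abs_mul, abs_of_pos hn]
      have := hUa z ⟨hzU, hz⟩
      rw [lt_div_iff₀ hn] at this
      linarith
    have hBn : ContDiffOn ℝ 2 (fun w => B2_thn n κ (b w)) D :=
      (B2_thn_smooth n κ).comp_contDiffOn hb
    have hdX : ∀ z ∈ D, |RSM2.dX (fun w => B2_thn n κ (b w)) z| ≤ |RSM2.dX b z| := by
      intro z hz
      rw [dX_comp ((B2_thn_smooth n κ).differentiable (by norm_num) _) (hdb z hz),
        B2_deriv_thn, abs_mul]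
      exact mul_le_of_le_one_left (abs_nonneg _) (hmM _)
    have hmeas : Measurable (RSM2.dX (fun w => B2_thn n κ (b w))) :=
      measurable_fderiv_apply_const ℝ _ 1
    have hle : ∀ᵐ z ∂(volume.restrict D), |a z| * |RSM2.dX (fun w => B2_thn n κ (b w)) z| ≤
        |a z| * |RSM2.dX b z| := by
      rw [ae_restrict_iff' hD.measurableSet]
      exact Filter.Eventually.of_forall fun z hz =>
        mul_le_mul_of_nonneg_left (hdX z hz) (abs_nonneg _)
    have hintn : IntegrableOn (fun z => |a z| * |RSM2.dX (fun w => B2_thn n κ (b w)) z|) D := by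
      refine hint.mono' ?_ ?_
      · exact ((ha.continuousOn.abs).aestronglyMeasurable hD.measurableSet).mul
          hmeas.abs.aestronglyMeasurable
      · filter_upwards [hle] with z hz
        rwa [Real.norm_eq_abs, abs_mul, abs_abs, abs_abs]
    have h2 : |∫ z in D, q z * RSM2.J a (fun w => B2_thn n κ (b w)) z| ≤
        L * ∫ z in D, |a z| * |RSM2.dX (fun w => B2_thn n κ (b w)) z| := by
      refine hq.J (K := T \ U) hD hDH (hT.diff hU) ?_ ha hBn ?_ hintn
      · rintro z ⟨hzT, hzU⟩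
        rcases hTD hzT with h | h
        · exact h
        · exact absurd (hHU h) hzU
      · rintro z ⟨hzD, hzK⟩
        by_cases hzU : z ∈ U
        · right
          filter_upwards [hD.mem_nhds hzD, hU.mem_nhds hzU] with w hw1 hw2
          exact hvan w hw1 hw2
        · have hzT : z ∉ T := fun h => hzK ⟨h, hzU⟩
          exact Or.inl (h0 z ⟨hzD, hzT⟩)
    have h3 : ∫ z in D, q z * (Real.smoothTransition ((((n : ℝ) + 1) * (b z - κ)) ^ 2 - 1) *
        RSM2.J a b z) = ∫ z in D, q z * RSM2.J a (fun w => B2_thn n κ (b w)) z := by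
      refine setIntegral_congr_fun hD.measurableSet fun z hz => ?_
      rw [J_comp_right ((B2_thn_smooth n κ).differentiable (by norm_num) _) (hdb z hz),
        B2_deriv_thn]
    rw [h3]
    have h4 : ∫ z in D, |a z| * |RSM2.dX (fun w => B2_thn n κ (b w)) z| ≤
        ∫ z in D, |a z| * |RSM2.dX b z| :=
      integral_mono_ae hintn hint hle
    have h5 : L * ∫ z in D, |a z| * |RSM2.dX (fun w => B2_thn n κ (b w)) z| ≤
        L * ∫ z in D, |a z| * |RSM2.dX b z| := mul_le_mul_of_nonneg_left h4 hq.posL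
    have h6 := mul_nonneg hq.posL hI0
    linarith
  have hlimit := B2_limit (κ := κ) (m := fun t : ℝ => Real.smoothTransition (t ^ 2 - 1))
    hq hD hDH hb hJ (fun z _ h => by
      have h3 := abs_J_le a b z
      rw [h, norm_zero, mul_zero] at h3
      exact abs_eq_zero.1 (le_antisymm h3 (abs_nonneg _))) B2_m_cont hmM hm1
  exact le_of_tendsto hlimit.abs (Filter.Eventually.of_forall hstep)

end RSM2
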