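import Pool.Agent.RSM2.J8

/-!
# RSM2 module J9: slopes and jumps

PROOFS.
`slope_identity`: `φ` vanishes near all slits except the slit `j`.
`∫_D ∂_x (φ A) + τ_j ∂_y (φ A) = ∫_D J (φ A) (im - τ_j re)`, and `im - τ_j re` is equal to a
constant `κ` on the slit `j`: it tends to `κ` at the slit `j`.  So the integral is
`-∫_D J (im - τ_j re - κ) (φ A) = 0` by `integral_J_eq_zero_of_tendsto` with `H = slit j`,
`T = tsupport φ \ U`, `U` an open neighbourhood of the other slits on which `φ = 0`.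
Hence `∫_D ∂_x (φ A) = τ_j μ(φ)`.
`drift`: let `X i` be cut-off functions for the slits (`exists_cut`, with disjoint supports,
`0 ≤ X i ≤ 1`), `φ ≥ 0`.  `φ = ∑ X i φ + (1 - ∑ X i) φ`, the last function vanishes near the
slits; by `jump_eq_zero` and `slope_identity` `∫_D ∂_x (φ A) = ∑ τ_i μ(X i φ)`,
`μ(φ) = ∑ μ(X i φ)` with `μ(X i φ) ≥ 0`; so `|∫_D ∂_x (φ A)| ≤ ε μ(φ)`.
`jump_J`: `g` is `C^∞` with compact support, `g = 0` near all slits except the slit `j`.
`J A g = A_x g_y - A_y g_x = ∂_x (A g_y) - ∂_y (A g_x)` (`g_xy = g_yx`), so by `slope_identity`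
`∫_D J A g = τ_j μ(g_y) + μ(g_x)`.
-/

open Complex Set Metric Filter Topology MeasureTheory

namespace RSM2

variable {ι : Type} {p : ι → ℂ} {τ ℓ : ι → ℝ} {ε R R' : ℝ} {A φ φ' : ℂ → ℝ}

theorem SlitFam.isOpen_compl (h : SlitFam p τ ℓ ε R R') : IsOpen (SF p τ ℓ)ᶜ :=
  h.isCompact.isClosed.isOpen_compl

theorem slope_identity (h : SlitFam p τ ℓ ε R R')
    (hA : ∀ r, Nice (SF p τ ℓ)ᶜ (closedBall 0 r) A) (hφ : ContDiff ℝ (⊤ : ℕ∞) φ)
    (hc : HasCompactSupport φ) (j : ι)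
    (h0 : ∀ i, i ≠ j → ∀ᶠ z in 𝓝ˢ (slit (p i) (τ i) (ℓ i)), φ z = 0) :
    ∫ z in (SF p τ ℓ)ᶜ, dX (fun w => φ w * A w) z = τ j * jump (SF p τ ℓ) A φ := by
  have hfin := h.fin
  have hD := h.isOpen_compl
  have hU : ∀ i : ι, ∃ U : Set ℂ, IsOpen U ∧ (i ≠ j → slit (p i) (τ i) (ℓ i) ⊆ U) ∧
      ∀ z ∈ U, φ z = 0 := by
    intro i
    by_cases hi : i = j
    · exact ⟨∅, isOpen_empty, fun h => absurd hi h, fun z hz => absurd hz (notMem_empty z)⟩
    · obtain ⟨U, h1, h2, h3⟩ := mem_nhdsSet_iff_exists.1 (h0 i hi)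
      exact ⟨U, h1, fun _ => h2, fun z hz => h3 hz⟩
  choose U hUo hUs hU0 using hU
  set V : Set ℂ := ⋃ i, U i with hV
  have hVo : IsOpen V := isOpen_iUnion hUo
  have hV0 : ∀ z ∈ V, φ z = 0 := by
    intro z hz
    obtain ⟨i, hi⟩ := mem_iUnion.1 hz
    exact hU0 i z hi
  obtain ⟨r, hr⟩ := hc.isCompact.isBounded.subset_closedBall (0 : ℂ)
  set T : Set ℂ := tsupport φ \ V with hT
  have hTc : IsCompact T := hc.isCompact.diff hVo
  have hTr : T ⊆ closedBall 0 r := diff_subset.trans hr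
  have hTD : T ⊆ (SF p τ ℓ)ᶜ ∪ slit (p j) (τ j) (ℓ j) := by
    intro z hz
    by_cases hzS : z ∈ SF p τ ℓ
    · right
      obtain ⟨i, hi⟩ := mem_iUnion.1 hzS
      by_cases hij : i = j
      · rw [← hij]; exact hi
      · exact absurd (mem_iUnion.2 ⟨i, hUs i hij hi⟩) hz.2
    · exact Or.inl hzS
  have hdisj : Disjoint (SF p τ ℓ)ᶜ (slit (p j) (τ j) (ℓ j)) :=
    disjoint_compl_left.mono_right (subset_iUnion (fun j => slit (p j) (τ j) (ℓ j)) j)
  set κ : ℝ := (p j).im - τ j * (p j).re with hκ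
  set lin : ℂ → ℝ := fun z => z.im - τ j * z.re - κ with hlin
  have hlins : ContDiff ℝ 2 lin := by
    have h1 : ContDiff ℝ 2 (fun z : ℂ => z.im) := Complex.imCLM.contDiff
    have h2 : ContDiff ℝ 2 (fun z : ℂ => z.re) := Complex.reCLM.contDiff
    exact (h1.sub (contDiff_const.mul h2)).sub contDiff_const
  have hφ2 : ContDiff ℝ 2 φ := hφ.of_le (WithTop.coe_le_coe.2 (le_top : (2 : ℕ∞) ≤ ⊤))
  have hφN : Nice (SF p τ ℓ)ᶜ (closedBall 0 r) φ := Nice.of_contDiff hD (le_refl _) hφ2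
  have hφA : Nice (SF p τ ℓ)ᶜ (closedBall 0 r) (fun z => φ z * A z) := hφN.mul hD (hA r)
  have hlinN : Nice (SF p τ ℓ)ᶜ (closedBall 0 r) lin := Nice.of_contDiff hD (le_refl _) hlins
  have hlim : Tendsto lin (nearIn (SF p τ ℓ)ᶜ (slit (p j) (τ j) (ℓ j))) (𝓝 0) := by
    have h1 : Tendsto lin (𝓝ˢ (slit (p j) (τ j) (ℓ j))) (𝓝 0) := by
      unfold nhdsSet
      rw [sSup_image]
      refine tendsto_iSup.2 fun z => tendsto_iSup.2 fun hz => ?_
      have hz0 : lin z = 0 := by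
        obtain ⟨t, _, rfl⟩ := hz
        simp only [hlin, hκ]
        simp
        ring
      rw [← hz0]
      exact hlins.continuous.continuousAt
    exact h1.mono_left inf_le_left
  have key := integral_J_eq_zero_of_tendsto (a := lin) (b := fun z => φ z * A z) hD
    (isCompact_slit (p j) (τ j) (ℓ j)) hdisj hTc hTD hlins.contDiffOn hφA.smooth ?_
    (hlinN.mono hTr).l2 (hφA.mono hTr).l2 hlim
  · obtain ⟨i1, i2⟩ := integrable_jump h hA (hφ.of_le (by exact_mod_cast le_top)) hc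
    have hJ : ∀ z ∈ (SF p τ ℓ)ᶜ, J lin (fun z => φ z * A z) z =
        (-τ j) * dY (fun w => φ w * A w) z - dX (fun w => φ w * A w) z := by
      intro z _
      have d1 : DifferentiableAt ℝ (fun z : ℂ => z.im) z := Complex.imCLM.differentiableAt
      have d2 : DifferentiableAt ℝ (fun z : ℂ => z.re) z := Complex.reCLM.differentiableAt
      have d3 : DifferentiableAt ℝ (fun z : ℂ => τ j * z.re) z := d2.const_mul _
      have d4 : DifferentiableAt ℝ (fun z : ℂ => z.im - τ j * z.re) z := d1.sub d3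
      have e1 : dX lin z = -τ j := by
        rw [hlin, dX_sub d4 (differentiableAt_const _), dX_sub d1 d3, dX_const_mul _ d2, dX_re,
          dX_im, dX_const]
        ring
      have e2 : dY lin z = 1 := by
        rw [hlin, dY_sub d4 (differentiableAt_const _), dY_sub d1 d3, dY_const_mul _ d2, dY_re,
          dY_im, dY_const]
        ring
      unfold J
      rw [e1, e2]
      ring
    rw [setIntegral_congr_fun hD.measurableSet hJ, integral_sub (i2.const_mul _) i1,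
      integral_const_mul] at key
    unfold jump
    linarith
  · intro z hz
    right
    by_cases hzs : z ∈ tsupport φ
    · have hzV : z ∈ V := by
        by_contra hzV
        exact hz.2 ⟨hzs, hzV⟩
      filter_upwards [hVo.mem_nhds hzV] with w hw
      rw [hV0 w hw, zero_mul]
    · filter_upwards [(isClosed_tsupport φ).isOpen_compl.mem_nhds hzs] with w hw
      rw [image_eq_zero_of_notMem_tsupport hw, zero_mul]

/-- the horizontal integral -/
noncomputable def hor (S : Set ℂ) (A φ : ℂ → ℝ) : ℝ := ∫ z in Sᶜ, dX (fun w => φ w * A w) z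

theorem hor_add (h : SlitFam p τ ℓ ε R R')
    (hA : ∀ r, Nice (SF p τ ℓ)ᶜ (closedBall 0 r) A) (hφ : ContDiff ℝ 1 φ)
    (hc : HasCompactSupport φ) (hφ' : ContDiff ℝ 1 φ') (hc' : HasCompactSupport φ') :
    hor (SF p τ ℓ) A (fun z => φ z + φ' z) = hor (SF p τ ℓ) A φ + hor (SF p τ ℓ) A φ' := by
  have hD := h.isOpen_compl
  unfold hor
  rw [← integral_add (integrable_jump h hA hφ hc).1 (integrable_jump h hA hφ' hc').1]
  refine setIntegral_congr_fun hD.measurableSet fun z hz => ?_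
  have dA : DifferentiableAt ℝ A z :=
    ((hA 0).smooth.contDiffAt (hD.mem_nhds hz)).differentiableAt (by norm_num)
  have d1 : DifferentiableAt ℝ φ z := hφ.differentiable (by norm_num) z
  have d2 : DifferentiableAt ℝ φ' z := hφ'.differentiable (by norm_num) z
  have e : (fun w => (φ w + φ' w) * A w) = fun w => φ w * A w + φ' w * A w := by
    funext w
    ring
  simp only
  rw [e]
  exact dX_add (f := fun w => φ w * A w) (g := fun w => φ' w * A w) (d1.mul dA) (d2.mul dA)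

theorem sum_smooth {f : ι → ℂ → ℝ} (hf : ∀ i, ContDiff ℝ (⊤ : ℕ∞) (f i))
    (hfc : ∀ i, HasCompactSupport (f i)) (s : Finset ι) :
    ContDiff ℝ (⊤ : ℕ∞) (fun z => ∑ i ∈ s, f i z) ∧
      HasCompactSupport (fun z => ∑ i ∈ s, f i z) := by
  classical
  induction s using Finset.induction_on with
  | empty =>
    simp only [Finset.sum_empty]
    exact ⟨contDiff_const, HasCompactSupport.zero⟩
  | insert i s hi ih =>
    simp only [Finset.sum_insert hi]
    exact ⟨(hf i).add ih.1, (hfc i).add ih.2⟩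

theorem sum_jump_hor (h : SlitFam p τ ℓ ε R R')
    (hA : ∀ r, Nice (SF p τ ℓ)ᶜ (closedBall 0 r) A) {f : ι → ℂ → ℝ}
    (hf : ∀ i, ContDiff ℝ (⊤ : ℕ∞) (f i)) (hfc : ∀ i, HasCompactSupport (f i)) (s : Finset ι) :
    jump (SF p τ ℓ) A (fun z => ∑ i ∈ s, f i z) = ∑ i ∈ s, jump (SF p τ ℓ) A (f i) ∧
      hor (SF p τ ℓ) A (fun z => ∑ i ∈ s, f i z) = ∑ i ∈ s, hor (SF p τ ℓ) A (f i) := by
  classical
  induction s using Finset.induction_on with
  | empty =>
    simp only [Finset.sum_empty]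
    unfold jump hor
    simp only [zero_mul, dX_const, dY_const, integral_zero, neg_zero, and_self]
  | insert i s hi ih =>
    obtain ⟨s1, s2⟩ := sum_smooth hf hfc s
    simp only [Finset.sum_insert hi]
    constructor
    · rw [jump_add h hA ((hf i).of_le (by exact_mod_cast le_top)) (hfc i)
        (s1.of_le (by exact_mod_cast le_top)) s2, ih.1]
    · rw [hor_add h hA ((hf i).of_le (by exact_mod_cast le_top)) (hfc i)
        (s1.of_le (by exact_mod_cast le_top)) s2, ih.2]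

theorem drift (h : SlitFam p τ ℓ ε R R')
    (hA : ∀ r, Nice (SF p τ ℓ)ᶜ (closedBall 0 r) A) (hmono : MonoY (SF p τ ℓ) A)
    (hφ : ContDiff ℝ (⊤ : ℕ∞) φ) (hc : HasCompactSupport φ) (h0 : ∀ z, 0 ≤ φ z) :
    |∫ z in (SF p τ ℓ)ᶜ, dX (fun w => φ w * A w) z| ≤ ε * jump (SF p τ ℓ) A φ := by
  classical
  have hfin := h.fin
  have := Fintype.ofFinite ι
  have hX : ∀ i : ι, ∃ X : ℂ → ℝ, ContDiff ℝ (⊤ : ℕ∞) X ∧ HasCompactSupport X ∧
      tsupport X ⊆ (⋃ k ∈ {k : ι | k ≠ i}, slit (p k) (τ k) (ℓ k))ᶜ ∧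
      (∀ z, 0 ≤ X z ∧ X z ≤ 1) ∧ ∀ᶠ z in 𝓝ˢ (slit (p i) (τ i) (ℓ i)), X z = 1 := by
    intro i
    apply exists_cut (isCompact_slit (p i) (τ i) (ℓ i))
    · have : IsCompact (⋃ k ∈ {k : ι | k ≠ i}, slit (p k) (τ k) (ℓ k)) :=
        (Set.toFinite {k : ι | k ≠ i}).isCompact_biUnion fun k _ => isCompact_slit _ _ _
      exact this.isClosed.isOpen_compl
    · intro z hz hz'
      simp only [mem_iUnion] at hz'
      obtain ⟨k, hk, hzk⟩ := hz'
      exact (disjoint_left.1 (h.disj k i hk)) hzk hz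
  choose X hXs hXc hXt hX01 hX1 using hX
  set f : ι → ℂ → ℝ := fun i z => X i z * φ z with hf
  have hfs : ∀ i, ContDiff ℝ (⊤ : ℕ∞) (f i) := fun i => (hXs i).mul hφ
  have hfc : ∀ i, HasCompactSupport (f i) := fun i => hc.mul_left
  have hf0 : ∀ i z, 0 ≤ f i z := fun i z => mul_nonneg (hX01 i z).1 (h0 z)
  obtain ⟨s1, s2⟩ := sum_smooth hfs hfc Finset.univ
  set g : ℂ → ℝ := fun z => φ z + (-1) * ∑ i, f i z with hg
  have hXz : ∀ i k, k ≠ i → ∀ᶠ z in 𝓝ˢ (slit (p k) (τ k) (ℓ k)), X i z = 0 := by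
    intro i k hk
    have h1 : (tsupport (X i))ᶜ ∈ 𝓝ˢ (slit (p k) (τ k) (ℓ k)) := by
      rw [(isClosed_tsupport (X i)).isOpen_compl.mem_nhdsSet]
      intro z hz hz'
      refine hXt i hz' ?_
      simp only [mem_iUnion]
      exact ⟨k, hk, hz⟩
    filter_upwards [h1] with z hz
    exact image_eq_zero_of_notMem_tsupport hz
  have hgs : ContDiff ℝ (⊤ : ℕ∞) (fun z => (-1) * ∑ i, f i z) := contDiff_const.mul s1
  have hgc : HasCompactSupport (fun z => (-1) * ∑ i, f i z) := s2.mul_left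
  have hg0 : ∀ᶠ z in 𝓝ˢ (SF p τ ℓ), g z = 0 := by
    unfold SF
    rw [nhdsSet_iUnion]
    refine Filter.eventually_iSup.2 fun k => ?_
    have h1 : ∀ᶠ z in 𝓝ˢ (slit (p k) (τ k) (ℓ k)), ∀ i, i ≠ k → X i z = 0 := by
      rw [Filter.eventually_all]
      intro i
      by_cases hik : i = k
      · exact Filter.Eventually.of_forall fun z h => absurd hik h
      · filter_upwards [hXz i k (fun h => hik h.symm)] with z hz _
        exact hz
    filter_upwards [h1, hX1 k] with z hz1 hz2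
    simp only [hg, hf]
    rw [Finset.sum_eq_single k]
    · rw [hz2]
      ring
    · intro i _ hi
      rw [hz1 i hi, zero_mul]
    · intro hk
      exact absurd (Finset.mem_univ k) hk
  have hgS : ContDiff ℝ (⊤ : ℕ∞) g := hφ.add hgs
  have hgC : HasCompactSupport g := hc.add hgc
  obtain ⟨z1, z2⟩ := jump_eq_zero h hA hgS hgC hg0
  have hle1 : ∀ {ψ : ℂ → ℝ}, ContDiff ℝ (⊤ : ℕ∞) ψ → ContDiff ℝ 1 ψ :=
    fun hψ => hψ.of_le (by exact_mod_cast le_top)
  have e1 : φ = fun z => (∑ i, f i z) + g z := by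
    funext z
    simp only [hg]
    ring
  obtain ⟨u1, u2⟩ := sum_jump_hor h hA hfs hfc Finset.univ
  have j1 : jump (SF p τ ℓ) A φ = ∑ i, jump (SF p τ ℓ) A (f i) := by
    conv_lhs => rw [e1]
    rw [jump_add h hA (hle1 s1) s2 (hle1 hgS) hgC, u1, z1, add_zero]
  have j2 : hor (SF p τ ℓ) A φ = ∑ i, hor (SF p τ ℓ) A (f i) := by
    conv_lhs => rw [e1]
    rw [hor_add h hA (hle1 s1) s2 (hle1 hgS) hgC, u2]
    have : hor (SF p τ ℓ) A g = 0 := z2
    rw [this, add_zero]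
  have j3 : ∀ i, hor (SF p τ ℓ) A (f i) = τ i * jump (SF p τ ℓ) A (f i) := by
    intro i
    refine slope_identity h hA (hfs i) (hfc i) i fun k hk => ?_
    filter_upwards [hXz i k hk] with z hz
    simp only [hf]
    rw [hz, zero_mul]
  have j4 : ∀ i, 0 ≤ jump (SF p τ ℓ) A (f i) := fun i =>
    jump_nonneg h hA hmono (hfs i) (hfc i) (hf0 i)
  have j5 : |hor (SF p τ ℓ) A φ| ≤ ε * jump (SF p τ ℓ) A φ := by
    rw [j2, j1, Finset.mul_sum]
    refine (Finset.abs_sum_le_sum_abs _ _).trans (Finset.sum_le_sum fun i _ => ?_)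
    rw [j3 i, abs_mul, abs_of_nonneg (j4 i)]
    exact mul_le_mul_of_nonneg_right (h.slope i) (j4 i)
  exact j5

theorem eventually_deriv {s : Set ℂ} {g : ℂ → ℝ} (h : ∀ᶠ z in 𝓝ˢ s, g z = 0) (v : ℂ) :
    ∀ᶠ z in 𝓝ˢ s, fderiv ℝ g z v = 0 := by
  obtain ⟨U, h1, h2, h3⟩ := mem_nhdsSet_iff_exists.1 h
  filter_upwards [h1.mem_nhdsSet.2 h2] with z hz
  have h4 : g =ᶠ[𝓝 z] fun _ => (0 : ℝ) := by
    filter_upwards [h1.mem_nhds hz] with w hw
    exact h3 hw
  rw [h4.fderiv_eq]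
  simp

theorem jump_J (h : SlitFam p τ ℓ ε R R')
    (hA : ∀ r, Nice (SF p τ ℓ)ᶜ (closedBall 0 r) A) {g : ℂ → ℝ} (hg : ContDiff ℝ (⊤ : ℕ∞) g)
    (hc : HasCompactSupport g) (j : ι)
    (h0 : ∀ i, i ≠ j → ∀ᶠ z in 𝓝ˢ (slit (p i) (τ i) (ℓ i)), g z = 0) :
    ∫ z in (SF p τ ℓ)ᶜ, J A g z =
      jump (SF p τ ℓ) A (fun z => dX g z + τ j * dY g z) := by
  have hD := h.isOpen_compl
  have hle1 : ∀ {ψ : ℂ → ℝ}, ContDiff ℝ (⊤ : ℕ∞) ψ → ContDiff ℝ 1 ψ :=
    fun hψ => hψ.of_le (by exact_mod_cast le_top)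
  have hfd : ContDiff ℝ (⊤ : ℕ∞) (fderiv ℝ g) := hg.fderiv_right (by exact_mod_cast le_top)
  have hxs : ContDiff ℝ (⊤ : ℕ∞) (dX g) := hfd.clm_apply contDiff_const
  have hys : ContDiff ℝ (⊤ : ℕ∞) (dY g) := hfd.clm_apply contDiff_const
  have hxc : HasCompactSupport (dX g) := hc.fderiv_apply (𝕜 := ℝ) 1
  have hyc : HasCompactSupport (dY g) := hc.fderiv_apply (𝕜 := ℝ) I
  have hx0 : ∀ i, i ≠ j → ∀ᶠ z in 𝓝ˢ (slit (p i) (τ i) (ℓ i)), dX g z = 0 :=
    fun i hi => eventually_deriv (h0 i hi) 1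
  have hy0 : ∀ i, i ≠ j → ∀ᶠ z in 𝓝ˢ (slit (p i) (τ i) (ℓ i)), dY g z = 0 :=
    fun i hi => eventually_deriv (h0 i hi) I
  have hsym : ∀ z, dY (dX g) z = dX (dY g) z := by
    intro z
    have h1 : IsSymmSndFDerivAt ℝ g z := by
      apply ContDiffAt.isSymmSndFDerivAt hg.contDiffAt
      simp only [minSmoothness_of_isRCLikeNormedField]
      exact WithTop.coe_le_coe.2 (le_top : (2 : ℕ∞) ≤ ⊤)
    have h2 : DifferentiableAt ℝ (fderiv ℝ g) z :=
      hfd.differentiable (by simp) z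
    have h3 : ∀ v w : ℂ, fderiv ℝ (fun y => fderiv ℝ g y v) z w =
        fderiv ℝ (fderiv ℝ g) z w v := by
      intro v w
      rw [fderiv_clm_apply h2 (differentiableAt_const v)]
      simp
    unfold dX dY
    rw [h3, h3]
    exact h1 I 1
  have k1 := slope_identity h hA hys hyc j hy0
  have k2 := integrable_jump h hA (hle1 hys) hyc
  have k3 := integrable_jump h hA (hle1 hxs) hxc
  have hJ : ∀ z ∈ (SF p τ ℓ)ᶜ, J A g z =
      dX (fun w => dY g w * A w) z - dY (fun w => dX g w * A w) z := by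
    intro z hz
    have dA : DifferentiableAt ℝ A z :=
      ((hA 0).smooth.contDiffAt (hD.mem_nhds hz)).differentiableAt (by norm_num)
    have d1 : DifferentiableAt ℝ (dX g) z := hxs.differentiable (by simp) z
    have d2 : DifferentiableAt ℝ (dY g) z := hys.differentiable (by simp) z
    rw [dX_mul d2 dA, dY_mul d1 dA, hsym]
    unfold J
    ring
  rw [setIntegral_congr_fun hD.measurableSet hJ, integral_sub k2.1 k3.2, k1,
    jump_add h hA (hle1 hxs) hxc (contDiff_const.mul (hle1 hys)) hyc.mul_left,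
    jump_smul h hA (hle1 hys) hyc]
  unfold jump
  ring

end RSM2
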