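import Pool.Agent.RSM2.B1
import Pool.Agent.RSM2.J9

/-!
# RSM2 module B3: the flux of `q dA` at a slit

`A` is monotone in `y` across the slits of a family, `X` a cut-off function for the slit `j`, supported in
a convex open set `W ⊆ Hᶜ` which does not meet the other slits.

PROOF of `weight_im`.  On the convex set `W` the weight is a function of `y` alone, Lipschitz with
constant `L`: for `w, w' ∈ W` the segment is in `W ⊆ Hᶜ`.  So `q w = Q₀ (im w)` for a
function `Q₀` on the projection of `W` (`Q₀ y = q w` for any `w ∈ W` with `im w = y`), Lipschitz there;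
extend it to an `L`-Lipschitz function on the line (`LipschitzOnWith.extend_real`) and mollify
(convolution with `ContDiffBump`): for every `σ > 0` there is a `C^∞` function `Q` on the line with
`|Q'| ≤ L` and `|Q (im w) - q w| ≤ σ` for `w ∈ W`.
PROOF of `slit_flux`.  Let `D = (SF)ᶜ`.  Let `Q` be as in `weight_im`.
`Q(y) J X A = J (X Q) A - X J (Q(y)) A`, `|X J (Q(y)) A| = X |Q'| |A_x| ≤ L X |A_x|` (`J (Q ∘ im) A =
-Q' A_x`).  By `jump_J` (`g = X Q(y)`, `J (XQ) A = -J A (XQ)`)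
`∫_D J (X Q) A = -jump A (g_x + τ_j g_y)`, `g_x + τ_j g_y = (X_x + τ_j X_y) Q + τ_j X Q'`; the first
summand vanishes near all slits, so its jump is `0` (`jump_eq_zero`), and
`|jump A (τ_j X Q')| ≤ |τ_j| L jump A X` (`jump_le` for `± τ_j X Q' ≤ |τ_j| L X`).
So `|∫_D Q(y) J X A| ≤ L ∫_D X |A_x| + |τ_j| L jump A X`.  Let `σ → 0`:
`|∫_D (q - Q(y)) J X A| ≤ σ ∫_D |J X A| → 0` (`X` is supported in `W`).
-/

open Complex Set Metric Filter Topology MeasureTheory
open scoped NNReal Convolution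

namespace RSM2

private theorem b3_mollify {g : ℝ → ℝ} {L : ℝ≥0} (hg : LipschitzWith L g) {σ : ℝ} (hσ : 0 < σ) :
    ∃ Q : ℝ → ℝ, ContDiff ℝ (⊤ : ℕ∞) Q ∧ (∀ y, |deriv Q y| ≤ L) ∧ ∀ y, |Q y - g y| ≤ σ := by
  set δ : ℝ := σ / (L + 1) with hδ
  have hL1 : (0 : ℝ) < L + 1 := by positivity
  have hδ0 : 0 < δ := by positivity
  let φ : ContDiffBump (0 : ℝ) := ⟨δ / 2, δ, by positivity, by linarith⟩
  set Q : ℝ → ℝ := (φ.normed volume ⋆[ContinuousLinearMap.lsmul ℝ ℝ, volume] g) with hQ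
  have hgc : Continuous g := hg.continuous
  have hint : ∀ y, Integrable (fun t => φ.normed volume t * g (y - t)) := by
    intro y
    refine Continuous.integrable_of_hasCompactSupport
      (φ.continuous_normed.mul (hgc.comp (continuous_const.sub continuous_id))) ?_
    exact φ.hasCompactSupport_normed.mul_right
  have hval : ∀ y, Q y = ∫ t, φ.normed volume t * g (y - t) := fun y => rfl
  refine ⟨Q, ?_, ?_, ?_⟩
  · exact φ.hasCompactSupport_normed.contDiff_convolution_left _ φ.contDiff_normed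
      hgc.locallyIntegrable
  · have hlip : LipschitzWith L Q := by
      refine LipschitzWith.of_dist_le_mul fun x y => ?_
      rw [Real.dist_eq, Real.dist_eq, hval, hval, ← integral_sub (hint x) (hint y)]
      refine (abs_integral_le_integral_abs).trans ?_
      calc ∫ t, |φ.normed volume t * g (x - t) - φ.normed volume t * g (y - t)|
          ≤ ∫ t, φ.normed volume t * (L * |x - y|) := by
            refine integral_mono (((hint x).sub (hint y)).abs)
              (φ.integrable_normed.mul_const _) ?_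
            intro t
            simp only
            rw [← mul_sub, abs_mul, abs_of_nonneg (φ.nonneg_normed t)]
            refine mul_le_mul_of_nonneg_left ?_ (φ.nonneg_normed t)
            have := hg.dist_le_mul (x - t) (y - t)
            rw [Real.dist_eq, Real.dist_eq] at this
            rwa [show x - t - (y - t) = x - y by ring] at this
        _ = L * |x - y| := by rw [integral_mul_const, φ.integral_normed, one_mul]
    intro y
    have := norm_deriv_le_of_lipschitz (x₀ := y) hlip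
    simpa using this
  · intro y
    have := φ.dist_normed_convolution_le (x₀ := y) (ε := σ) (μ := volume) (g := g)
      hgc.aestronglyMeasurable ?_
    · rw [Real.dist_eq] at this
      exact this
    · intro x hx
      rw [mem_ball] at hx
      have h1 := hg.dist_le_mul x y
      have h2 : dist x y ≤ δ := hx.le
      calc dist (g x) (g y) ≤ L * dist x y := h1
        _ ≤ (L + 1) * δ := by
          have : (0 : ℝ) ≤ L := L.2
          nlinarith [dist_nonneg (x := x) (y := y)]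
        _ = σ := by rw [hδ]; field_simp

theorem weight_im {H W : Set ℂ} {L : ℝ} {q : ℂ → ℝ} (hq : Weight H L q) (hW : Convex ℝ W)
    (hWH : W ⊆ Hᶜ) {σ : ℝ} (hσ : 0 < σ) : ∃ Q : ℝ → ℝ, ContDiff ℝ (⊤ : ℕ∞) Q ∧
      (∀ y, |deriv Q y| ≤ L) ∧ ∀ w ∈ W, |Q w.im - q w| ≤ σ := by
  classical
  have hlip : ∀ w ∈ W, ∀ w' ∈ W, |q w - q w'| ≤ L * |w.im - w'.im| := fun w hw w' hw' =>
    hq.lip w w' ((hW.segment_subset hw hw').trans hWH)
  let Q0 : ℝ → ℝ := fun y => if h : ∃ w ∈ W, w.im = y then q h.choose else 0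
  have hQ0 : ∀ w ∈ W, Q0 w.im = q w := by
    intro w hw
    have h : ∃ w' ∈ W, w'.im = w.im := ⟨w, hw, rfl⟩
    have h1 : Q0 w.im = q h.choose := dif_pos h
    rw [h1]
    have h2 := hlip _ h.choose_spec.1 w hw
    rw [h.choose_spec.2, sub_self, abs_zero, mul_zero] at h2
    have h3 := abs_nonneg (q h.choose - q w)
    have h4 : q h.choose - q w = 0 := abs_eq_zero.1 (le_antisymm h2 h3)
    linarith
  have hL : LipschitzOnWith ⟨L, hq.posL⟩ Q0 (Complex.im '' W) := by
    refine LipschitzOnWith.of_dist_le_mul ?_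
    rintro _ ⟨w, hw, rfl⟩ _ ⟨w', hw', rfl⟩
    rw [hQ0 w hw, hQ0 w' hw', Real.dist_eq, Real.dist_eq]
    exact hlip w hw w' hw'
  obtain ⟨g, hg, hgE⟩ := hL.extend_real
  obtain ⟨Q, h1, h2, h3⟩ := b3_mollify hg hσ
  refine ⟨Q, h1, h2, fun w hw => ?_⟩
  have h4 := hgE ⟨w, hw, rfl⟩
  rw [hQ0 w hw] at h4
  rw [h4]
  exact h3 w.im

/-- integrability of a test function times a derivative of `A` -/
private theorem b3_integrable {D : Set ℂ} (hD : IsOpen D) {A φ : ℂ → ℝ}
    (hA : ∀ r, Nice D (closedBall 0 r) A) (hφ : Continuous φ) (hc : HasCompactSupport φ) :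
    IntegrableOn (fun z => φ z * dX A z) D := by
  have hK : IsCompact (tsupport φ) := hc
  obtain ⟨r, hr⟩ := hK.isBounded.subset_closedBall (0 : ℂ)
  obtain ⟨C, hC⟩ := hK.exists_bound_of_continuousOn hφ.continuousOn
  have hmsK : MeasurableSet (tsupport φ) := (isClosed_tsupport φ).measurableSet
  have hmeas : Measurable (fun z => φ z * dX A z) :=
    hφ.measurable.mul (measurable_fderiv_apply_const ℝ A 1)
  have h1 : IntegrableOn (fun z => φ z * dX A z) (D ∩ tsupport φ) := by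
    have hfin : volume (D ∩ tsupport φ) < ⊤ :=
      (measure_mono inter_subset_right).trans_lt hK.measure_lt_top
    have hdom : IntegrableOn (fun z => |C| * (1 + ‖fderiv ℝ A z‖ ^ 2)) (D ∩ tsupport φ) := by
      have h2 : IntegrableOn (fun z => ‖fderiv ℝ A z‖ ^ 2) (D ∩ tsupport φ) :=
        (hA r).l2.mono_set (inter_subset_inter_right _ hr)
      have h3 : IntegrableOn (fun _ : ℂ => (1 : ℝ)) (D ∩ tsupport φ) :=
        integrableOn_const hfin.ne
      exact (h3.add h2).const_mul |C|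
    refine hdom.mono' hmeas.aestronglyMeasurable ?_
    rw [ae_restrict_iff' (hD.measurableSet.inter hmsK)]
    refine Filter.Eventually.of_forall fun z hz => ?_
    have h8 : |φ z| ≤ |C| := by
      have := hC z hz.2
      rw [Real.norm_eq_abs] at this
      exact this.trans (le_abs_self _)
    have h9 := abs_dX_le A z
    have h11 : ‖fderiv ℝ A z‖ ≤ 1 + ‖fderiv ℝ A z‖ ^ 2 := by
      nlinarith [sq_nonneg (‖fderiv ℝ A z‖ - 1)]
    rw [Real.norm_eq_abs, abs_mul]
    exact mul_le_mul h8 (h9.trans h11) (abs_nonneg _) (abs_nonneg _)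
  have h3 : IntegrableOn (fun z => φ z * dX A z) (D \ tsupport φ) := by
    have h4 : IntegrableOn (fun _ : ℂ => (0 : ℝ)) (D \ tsupport φ) := integrableOn_zero
    refine h4.congr_fun (fun z hz => ?_) (hD.measurableSet.diff hmsK)
    simp only
    rw [image_eq_zero_of_notMem_tsupport hz.2, zero_mul]
  have h5 := h1.union h3
  rwa [inter_union_sdiff] at h5

/-- the estimate with a smooth weight which depends on `y` only -/
private theorem b3_smooth {ι : Type} {p : ι → ℂ} {τ ℓ : ι → ℝ} {ε R R' : ℝ}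
    (h : SlitFam p τ ℓ ε R R') {A : ℂ → ℝ}
    (hA : ∀ r, Nice (SF p τ ℓ)ᶜ (closedBall 0 r) A) (hmono : MonoY (SF p τ ℓ) A)
    {L : ℝ} {Q : ℝ → ℝ} (hQ : ContDiff ℝ (⊤ : ℕ∞) Q) (hQL : ∀ y, |deriv Q y| ≤ L)
    {X : ℂ → ℝ} (hX : ContDiff ℝ (⊤ : ℕ∞) X) (hXc : HasCompactSupport X)
    (hX01 : ∀ z, 0 ≤ X z ∧ X z ≤ 1) (j : ι)
    (hX1 : ∀ᶠ z in 𝓝ˢ (slit (p j) (τ j) (ℓ j)), X z = 1)
    (hX0 : ∀ i, i ≠ j → ∀ᶠ z in 𝓝ˢ (slit (p i) (τ i) (ℓ i)), X z = 0) :
    IntegrableOn (fun z => Q z.im * J X A z) (SF p τ ℓ)ᶜ ∧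
    |∫ z in (SF p τ ℓ)ᶜ, Q z.im * J X A z| ≤
      L * (∫ z in (SF p τ ℓ)ᶜ, X z * |dX A z|) + |τ j| * L * jump (SF p τ ℓ) A X := by
  have hD : IsOpen (SF p τ ℓ)ᶜ := h.isCompact.isClosed.isOpen_compl
  have hL0 : 0 ≤ L := (abs_nonneg _).trans (hQL 0)
  have hle1 : ∀ {ψ : ℂ → ℝ}, ContDiff ℝ (⊤ : ℕ∞) ψ → ContDiff ℝ 1 ψ :=
    fun hψ => hψ.of_le (by exact_mod_cast le_top)
  have him : ContDiff ℝ (⊤ : ℕ∞) (fun z : ℂ => z.im) := Complex.imCLM.contDiff
  have hQi : ContDiff ℝ (⊤ : ℕ∞) (fun z : ℂ => Q z.im) := hQ.comp him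
  have hQ' : ContDiff ℝ (⊤ : ℕ∞) (deriv Q) := by
    exact (contDiff_infty_iff_deriv.1 hQ).2
  have hQ'i : ContDiff ℝ (⊤ : ℕ∞) (fun z : ℂ => deriv Q z.im) := hQ'.comp him
  have hfd : ContDiff ℝ (⊤ : ℕ∞) (fderiv ℝ X) := hX.fderiv_right (by exact_mod_cast le_top)
  have hxs : ContDiff ℝ (⊤ : ℕ∞) (dX X) := hfd.clm_apply contDiff_const
  have hys : ContDiff ℝ (⊤ : ℕ∞) (dY X) := hfd.clm_apply contDiff_const
  have hxc : HasCompactSupport (dX X) := hXc.fderiv_apply (𝕜 := ℝ) 1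
  have hyc : HasCompactSupport (dY X) := hXc.fderiv_apply (𝕜 := ℝ) I
  have hdX : ∀ z, DifferentiableAt ℝ X z := fun z => hX.differentiable (by simp) z
  have hdQ : ∀ y, DifferentiableAt ℝ Q y := fun y => hQ.differentiable (by simp) y
  have hdim : ∀ z, DifferentiableAt ℝ (fun z : ℂ => z.im) z := fun z =>
    him.differentiable (by simp) z
  have hdQi : ∀ z, DifferentiableAt ℝ (fun z : ℂ => Q z.im) z := fun z =>
    hQi.differentiable (by simp) z
  have hdA : ∀ z ∈ (SF p τ ℓ)ᶜ, DifferentiableAt ℝ A z := fun z hz =>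
    ((hA 0).smooth.contDiffAt (hD.mem_nhds hz)).differentiableAt (by norm_num)
  -- the function `g = X Q`
  set g : ℂ → ℝ := fun z => X z * Q z.im with hg
  have hgs : ContDiff ℝ (⊤ : ℕ∞) g := hX.mul hQi
  have hgc : HasCompactSupport g := hXc.mul_right
  have hg0 : ∀ i, i ≠ j → ∀ᶠ z in 𝓝ˢ (slit (p i) (τ i) (ℓ i)), g z = 0 := by
    intro i hi
    filter_upwards [hX0 i hi] with z hz
    simp only [hg]
    rw [hz, zero_mul]
  have key := jump_J h hA hgs hgc j hg0
  set ψ1 : ℂ → ℝ := fun z => Q z.im * (dX X z + τ j * dY X z) with hψ1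
  set ψ2 : ℂ → ℝ := fun z => τ j * (X z * deriv Q z.im) with hψ2
  have hψ1s : ContDiff ℝ (⊤ : ℕ∞) ψ1 := hQi.mul (hxs.add (contDiff_const.mul hys))
  have hψ1c : HasCompactSupport ψ1 := (hxc.add hyc.mul_left).mul_left
  have hψ0s : ContDiff ℝ (⊤ : ℕ∞) (fun z => X z * deriv Q z.im) := hX.mul hQ'i
  have hψ0c : HasCompactSupport (fun z => X z * deriv Q z.im) := hXc.mul_right
  have hψ2s : ContDiff ℝ (⊤ : ℕ∞) ψ2 := contDiff_const.mul hψ0s
  have hψ2c : HasCompactSupport ψ2 := hψ0c.mul_left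
  have heq : (fun z => dX g z + τ j * dY g z) = fun z => ψ1 z + ψ2 z := by
    funext z
    have e1 : dX g z = X z * (deriv Q z.im * dX (fun w : ℂ => w.im) z) + Q z.im * dX X z := by
      rw [← dX_comp (hdQ _) (hdim z)]
      exact dX_mul (f := X) (g := fun w : ℂ => Q w.im) (hdX z) (hdQi z)
    have e2 : dY g z = X z * (deriv Q z.im * dY (fun w : ℂ => w.im) z) + Q z.im * dY X z := by
      rw [← dY_comp (hdQ _) (hdim z)]
      exact dY_mul (f := X) (g := fun w : ℂ => Q w.im) (hdX z) (hdQi z)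
    rw [e1, e2, dX_im, dY_im]
    simp only [hψ1, hψ2]
    ring
  have hψ1z : jump (SF p τ ℓ) A ψ1 = 0 := by
    refine (jump_eq_zero h hA hψ1s hψ1c ?_).1
    unfold SF
    rw [nhdsSet_iUnion]
    refine Filter.eventually_iSup.2 fun k => ?_
    have hder : ∀ v : ℂ, ∀ᶠ z in 𝓝ˢ (slit (p k) (τ k) (ℓ k)), fderiv ℝ X z v = 0 := by
      intro v
      by_cases hk : k = j
      · subst hk
        have h1 : ∀ᶠ z in 𝓝ˢ (slit (p k) (τ k) (ℓ k)), X z - 1 = 0 := by
          filter_upwards [hX1] with z hz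
          rw [hz, sub_self]
        filter_upwards [eventually_deriv h1 v] with z hz
        rwa [fderiv_sub_const] at hz
      · exact eventually_deriv (hX0 k hk) v
    filter_upwards [hder 1, hder I] with z hz1 hz2
    simp only [hψ1, dX, dY]
    rw [hz1, hz2]
    ring
  have hjump : jump (SF p τ ℓ) A (fun z => dX g z + τ j * dY g z) = jump (SF p τ ℓ) A ψ2 := by
    rw [heq, jump_add h hA (hle1 hψ1s) hψ1c (hle1 hψ2s) hψ2c, hψ1z, zero_add]
  have hXn := jump_nonneg h hA hmono hX hXc (fun z => (hX01 z).1)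
  have hb : |jump (SF p τ ℓ) A ψ2| ≤ |τ j| * L * jump (SF p τ ℓ) A X := by
    have hub : ∀ z, |ψ2 z| ≤ |τ j| * L * X z := by
      intro z
      simp only [hψ2]
      rw [abs_mul, abs_mul, abs_of_nonneg (hX01 z).1]
      have h1 := mul_le_mul_of_nonneg_left (hQL z.im) (hX01 z).1
      have h2 := mul_le_mul_of_nonneg_left h1 (abs_nonneg (τ j))
      calc |τ j| * (X z * |deriv Q z.im|) ≤ |τ j| * (X z * L) := h2
        _ = |τ j| * L * X z := by ring
    have s1 : ContDiff ℝ (⊤ : ℕ∞) (fun z => (|τ j| * L) * X z) := contDiff_const.mul hX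
    have s2 : ContDiff ℝ (⊤ : ℕ∞) (fun z => (-(|τ j| * L)) * X z) := contDiff_const.mul hX
    have c1 : HasCompactSupport (fun z => (|τ j| * L) * X z) := hXc.mul_left
    have c2 : HasCompactSupport (fun z => (-(|τ j| * L)) * X z) := hXc.mul_left
    have j1 := jump_le h hA hmono hψ2s hψ2c s1 c1 (fun z => (abs_le.1 (hub z)).2)
    have j2 := jump_le h hA hmono s2 c2 hψ2s hψ2c (fun z => by
      have := (abs_le.1 (hub z)).1
      linarith)
    rw [jump_smul h hA (hle1 hX) hXc] at j1 j2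
    rw [abs_le]
    constructor <;> linarith
  -- integrability
  obtain ⟨r, hr⟩ := hXc.isCompact.isBounded.subset_closedBall (0 : ℂ)
  have hNg : Nice (SF p τ ℓ)ᶜ (closedBall 0 r) g :=
    Nice.of_contDiff hD le_rfl (hgs.of_le (WithTop.coe_le_coe.2 (le_top : (2 : ℕ∞) ≤ ⊤)))
  have hintJ : IntegrableOn (J A g) (SF p τ ℓ)ᶜ := by
    refine integrable_J hD (isCompact_closedBall (0 : ℂ) r) (hA r).smooth hNg.smooth ?_
      (hA r).l2 hNg.l2
    intro z hz
    right
    have hzs : z ∉ tsupport X := fun h => hz.2 (hr h)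
    filter_upwards [(isClosed_tsupport X).isOpen_compl.mem_nhds hzs] with w hw
    simp only [hg]
    rw [image_eq_zero_of_notMem_tsupport hw, zero_mul]
  have hint2 : IntegrableOn (fun z => (X z * deriv Q z.im) * dX A z) (SF p τ ℓ)ᶜ :=
    b3_integrable hD hA hψ0s.continuous hψ0c
  have hint3 : IntegrableOn (fun z => X z * dX A z) (SF p τ ℓ)ᶜ :=
    b3_integrable hD hA hX.continuous hXc
  have hpt : ∀ z ∈ (SF p τ ℓ)ᶜ, Q z.im * J X A z = -J A g z + (X z * deriv Q z.im) * dX A z := by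
    intro z hz
    have e1 : J g A z = X z * J (fun w : ℂ => Q w.im) A z + Q z.im * J X A z :=
      J_mul_left (f := X) (g := fun w : ℂ => Q w.im) (hdX z) (hdQi z)
    have e2 : J (fun w : ℂ => Q w.im) A z = deriv Q z.im * J (fun w : ℂ => w.im) A z :=
      J_comp_left (hdQ _) (hdim z)
    have e3 : J (fun w : ℂ => w.im) A z = - dX A z := by
      unfold J
      rw [dX_im, dY_im]
      ring
    rw [J_swap A g, e1, e2, e3]
    ring
  have hI : IntegrableOn (fun z => Q z.im * J X A z) (SF p τ ℓ)ᶜ := by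
    have h1 : IntegrableOn (fun z => -J A g z + (X z * deriv Q z.im) * dX A z) (SF p τ ℓ)ᶜ :=
      hintJ.neg.add hint2
    exact h1.congr_fun (fun z hz => (hpt z hz).symm) hD.measurableSet
  refine ⟨hI, ?_⟩
  have hneg : IntegrableOn (fun z => -J A g z) (SF p τ ℓ)ᶜ := hintJ.neg
  rw [setIntegral_congr_fun hD.measurableSet hpt, integral_add hneg hint2, integral_neg, key,
    hjump]
  have h5 : |∫ z in (SF p τ ℓ)ᶜ, (X z * deriv Q z.im) * dX A z| ≤
      L * ∫ z in (SF p τ ℓ)ᶜ, X z * |dX A z| := by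
    refine (abs_integral_le_integral_abs).trans ?_
    rw [← integral_const_mul]
    refine integral_mono hint2.abs ?_ ?_
    · have : IntegrableOn (fun z => |X z * dX A z|) (SF p τ ℓ)ᶜ := hint3.abs
      refine (this.congr_fun (fun z _ => ?_) hD.measurableSet).const_mul L
      show |X z * dX A z| = X z * |dX A z|
      rw [abs_mul, abs_of_nonneg (hX01 z).1]
    · intro z
      simp only
      rw [abs_mul, abs_mul, abs_of_nonneg (hX01 z).1]
      have h1 := mul_le_mul_of_nonneg_left (hQL z.im) (hX01 z).1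
      have h2 := mul_le_mul_of_nonneg_right h1 (abs_nonneg (dX A z))
      calc X z * |deriv Q z.im| * |dX A z| ≤ X z * L * |dX A z| := h2
        _ = L * (X z * |dX A z|) := by ring
  refine (abs_add_le _ _).trans ?_
  rw [abs_neg]
  linarith

theorem slit_flux {ι : Type} {p : ι → ℂ} {τ ℓ : ι → ℝ} {ε R R' : ℝ}
    (h : SlitFam p τ ℓ ε R R') {A : ℂ → ℝ}
    (hA : ∀ r, Nice (SF p τ ℓ)ᶜ (closedBall 0 r) A) (hmono : MonoY (SF p τ ℓ) A)
    {H W : Set ℂ} {L : ℝ} {q : ℂ → ℝ} (hq : Weight H L q) (hW : Convex ℝ W) (hWH : W ⊆ Hᶜ)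
    {X : ℂ → ℝ} (hX : ContDiff ℝ (⊤ : ℕ∞) X) (hXc : HasCompactSupport X) (hXW : tsupport X ⊆ W)
    (hX01 : ∀ z, 0 ≤ X z ∧ X z ≤ 1) (j : ι)
    (hX1 : ∀ᶠ z in 𝓝ˢ (slit (p j) (τ j) (ℓ j)), X z = 1)
    (hX0 : ∀ i, i ≠ j → ∀ᶠ z in 𝓝ˢ (slit (p i) (τ i) (ℓ i)), X z = 0) :
    |∫ z in (SF p τ ℓ)ᶜ, q z * J X A z| ≤
      L * (∫ z in (SF p τ ℓ)ᶜ, X z * |dX A z|) + |τ j| * L * jump (SF p τ ℓ) A X := by
  have hD : IsOpen (SF p τ ℓ)ᶜ := h.isCompact.isClosed.isOpen_compl
  have hXn := jump_nonneg h hA hmono hX hXc (fun z => (hX01 z).1)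
  have hR0 : 0 ≤ L * (∫ z in (SF p τ ℓ)ᶜ, X z * |dX A z|) + |τ j| * L * jump (SF p τ ℓ) A X := by
    have h1 : 0 ≤ ∫ z in (SF p τ ℓ)ᶜ, X z * |dX A z| :=
      integral_nonneg fun z => mul_nonneg (hX01 z).1 (abs_nonneg _)
    have h2 := hq.posL
    exact add_nonneg (mul_nonneg h2 h1) (mul_nonneg (mul_nonneg (abs_nonneg _) h2) hXn)
  by_cases hint : IntegrableOn (fun z => q z * J X A z) (SF p τ ℓ)ᶜ
  swap
  · rw [integral_undef hint, abs_zero]
    exact hR0
  -- integrability of `J X A`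
  obtain ⟨r, hr⟩ := hXc.isCompact.isBounded.subset_closedBall (0 : ℂ)
  have hNX : Nice (SF p τ ℓ)ᶜ (closedBall 0 r) X :=
    Nice.of_contDiff hD le_rfl (hX.of_le (WithTop.coe_le_coe.2 (le_top : (2 : ℕ∞) ≤ ⊤)))
  have hzero : ∀ z, z ∉ tsupport X → ∀ᶠ w in 𝓝 z, X w = 0 := by
    intro z hz
    filter_upwards [(isClosed_tsupport X).isOpen_compl.mem_nhds hz] with w hw
    exact image_eq_zero_of_notMem_tsupport hw
  have hJ : IntegrableOn (J X A) (SF p τ ℓ)ᶜ := by
    refine integrable_J hD (isCompact_closedBall (0 : ℂ) r) hNX.smooth (hA r).smooth ?_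
      hNX.l2 (hA r).l2
    intro z hz
    exact Or.inl (hzero z fun h => hz.2 (hr h))
  set c : ℝ := ∫ z in (SF p τ ℓ)ᶜ, |J X A z| with hc
  have hc0 : 0 ≤ c := integral_nonneg fun z => abs_nonneg _
  refine le_of_forall_pos_le_add fun e he => ?_
  have hσ : 0 < e / (c + 1) := by positivity
  obtain ⟨Q, hQ1, hQ2, hQ3⟩ := weight_im hq hW hWH hσ
  obtain ⟨hI, hb⟩ := b3_smooth h hA hmono hQ1 hQ2 hX hXc hX01 j hX1 hX0
  have hdiff : |(∫ z in (SF p τ ℓ)ᶜ, q z * J X A z) - ∫ z in (SF p τ ℓ)ᶜ, Q z.im * J X A z| ≤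
      e / (c + 1) * c := by
    rw [← integral_sub hint hI, hc, ← integral_const_mul]
    refine (abs_integral_le_integral_abs).trans ?_
    refine integral_mono (hint.sub hI).abs (hJ.abs.const_mul _) ?_
    intro z
    simp only
    rw [← sub_mul, abs_mul]
    by_cases hz : z ∈ tsupport X
    · refine mul_le_mul_of_nonneg_right ?_ (abs_nonneg _)
      rw [abs_sub_comm]
      exact hQ3 z (hXW hz)
    · have h1 : J X A z = 0 := J2_eq_zero (Or.inl (hzero z hz))
      rw [h1, abs_zero, mul_zero, mul_zero]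
  have h6 : e / (c + 1) * c ≤ e := by
    rw [div_mul_eq_mul_div, div_le_iff₀ (by positivity)]
    nlinarith
  have h7 : |∫ z in (SF p τ ℓ)ᶜ, q z * J X A z| ≤
      |∫ z in (SF p τ ℓ)ᶜ, Q z.im * J X A z| +
        |(∫ z in (SF p τ ℓ)ᶜ, q z * J X A z) - ∫ z in (SF p τ ℓ)ᶜ, Q z.im * J X A z| := by
    have := abs_add_le (∫ z in (SF p τ ℓ)ᶜ, Q z.im * J X A z)
      ((∫ z in (SF p τ ℓ)ᶜ, q z * J X A z) - ∫ z in (SF p τ ℓ)ᶜ, Q z.im * J X A z)
    rwa [add_sub_cancel] at this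
  linarith

end RSM2
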