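import Pool.Agent.RSM2.BW5

/-!
# RSM2 module BW7: the average weight, elementary properties

`qav w = (∫ β'(y) g_y(w) dy - ∫ β(y) g_y(w) dy) / 2π` (`g = gg`).  For fixed `w ∉ H` the function
`y ↦ gg y w` is measurable (`lam_cont`, `LeftPt.measτ`, `LeftPt.measp`, `arg` measurable) and bounded
(`lam_bdd`, `|arg| ≤ π`), and `β`, `β'` are bounded with compact support.  So
(`qav_eq`) `qav w = ∫ y, β y * ∫ y', β' y' * qq y y' w` as `∫ β = ∫ β' = 1`.
For a.e. `y` and a.e. `y'` (`y ≠ Im w ≠ y'`; then `w` is not on the rays) and `y ∈ [a, b]`,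
`y' ∈ [a', b']` the value `qq y y' w` is `0` or `1`: so `0 ≤ qav w ≤ 1`.
Lipschitz: let the segment from `w` to `w'` be contained in `Hᶜ`.  If `y, y'` are not in the closed
interval with end points `Im w`, `Im w'`, then the segment avoids the rays and `qq y y' w = qq y y' w'`
(`qq_const`); in general (a.e.) the difference is at most `1` in absolute value.  So
`|qav w - qav w'| ≤ ∫ β over the interval + ∫ β' over the interval ≤ L |Im w - Im w'|`.
Continuity follows: balls in the open set `Hᶜ` are convex.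
The values for `Re w < -R` are given by `qq_left` and the values in the far region by
`qq_right`, `qq_vert`.
-/

open Complex Set Metric Filter Topology MeasureTheory

namespace RSM2

variable {H : Set ℂ} {Ψ : ℂ → ℂ} {s₀ s s₁ : ℝ} {p : ℝ → ℂ} {τ : ℝ → ℝ}

/-- The average weight. -/
noncomputable def qav (Ψ : ℂ → ℂ) (s : ℝ) (p : ℝ → ℂ) (τ : ℝ → ℝ) (β β' : ℝ → ℝ) (w : ℂ) : ℝ :=
  ((∫ y, β' y * gg Ψ s p τ y w) - ∫ y, β y * gg Ψ s p τ y w) / (2 * Real.pi)

/-- The hypotheses on the two averaging functions. -/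
structure Avg (a b a' b' : ℝ) (β β' : ℝ → ℝ) (L : ℝ) : Prop where
  ab : a < b
  ba : b < a'
  ab' : a' < b'
  cont : Continuous β
  cont' : Continuous β'
  nonneg : ∀ y, 0 ≤ β y
  nonneg' : ∀ y, 0 ≤ β' y
  supp : ∀ y, y ∉ Icc a b → β y = 0
  supp' : ∀ y, y ∉ Icc a' b' → β' y = 0
  one : ∫ y, β y = 1
  one' : ∫ y, β' y = 1
  le : ∀ y, β y + β' y ≤ L

private theorem gg_meas (hC : Collar H Ψ s₀ s s₁) {a b : ℝ} (hp : LeftPt H Ψ s a b p τ) {w : ℂ}
    (hw : w ∉ H) : Measurable (fun y => gg Ψ s p τ y w) := by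
  have h1 : Continuous (fun t : ℝ => lam Ψ s w t) := by
    rw [← continuousOn_univ]
    have h2 := lam_cont (H := H) hC
    have h3 : ContinuousOn (fun t : ℝ => ((w, t) : ℂ × ℝ)) univ := by fun_prop
    exact ContinuousOn.comp (g := fun x : ℂ × ℝ => lam Ψ s x.1 x.2)
      (f := fun t : ℝ => ((w, t) : ℂ × ℝ)) (t := Hᶜ ×ˢ (univ : Set ℝ)) h2 h3
      (fun t _ => ⟨hw, mem_univ _⟩)
  have h2 : Measurable (fun y => lam Ψ s w (τ y)) := h1.measurable.comp hp.measτ
  have h3 : Measurable (fun y => arg (w - p y)) :=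
    Complex.measurable_arg.comp (measurable_const.sub hp.measp)
  exact h2.sub h3

private theorem gg_bdd (hC : Collar H Ψ s₀ s s₁) {a b : ℝ} (hp : LeftPt H Ψ s a b p τ) {w : ℂ}
    (hw : w ∉ H) : ∃ M : ℝ, ∀ y, |gg Ψ s p τ y w| ≤ M := by
  obtain ⟨M, hM⟩ := lam_bdd hC hw
  refine ⟨M + Real.pi, fun y => ?_⟩
  have h1 := hM (τ y) ⟨hp.τ0 y, (hp.τ1 y).le⟩
  have h2 := Complex.abs_arg_le_pi (w - p y)
  unfold gg
  calc |lam Ψ s w (τ y) - arg (w - p y)| ≤ |lam Ψ s w (τ y)| + |arg (w - p y)| := abs_sub _ _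
    _ ≤ M + Real.pi := add_le_add h1 h2

private theorem int_beta {a b : ℝ} {β : ℝ → ℝ} (hc : Continuous β)
    (hs : ∀ y, y ∉ Icc a b → β y = 0) : Integrable β :=
  hc.integrable_of_hasCompactSupport (HasCompactSupport.intro isCompact_Icc (fun y hy => hs y hy))

private theorem int_mul {β : ℝ → ℝ} (hi : Integrable β) {g : ℝ → ℝ} (hg : Measurable g) {M : ℝ}
    (hM : ∀ y, |g y| ≤ M) : Integrable (fun y => β y * g y) := by
  have := hi.bdd_mul (c := M) hg.aestronglyMeasurable (Filter.Eventually.of_forall (fun y => by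
    rw [Real.norm_eq_abs]; exact hM y))
  refine this.congr (Filter.Eventually.of_forall (fun y => ?_))
  simp only
  ring

private theorem int_qq (hC : Collar H Ψ s₀ s s₁) {a b : ℝ} (hp : LeftPt H Ψ s a b p τ) {w : ℂ}
    (hw : w ∉ H) {β' : ℝ → ℝ} (hi : Integrable β') (y : ℝ) :
    Integrable (fun y' => β' y' * qq Ψ s p τ y y' w) := by
  obtain ⟨M, hM⟩ := gg_bdd hC hp hw
  refine int_mul hi (M := (M + M) / (2 * Real.pi)) ?_ ?_
  · unfold qq
    exact ((gg_meas hC hp hw).sub_const _).div_const _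
  · intro y'
    unfold qq
    rw [abs_div, abs_of_pos Real.two_pi_pos]
    gcongr
    exact (abs_sub _ _).trans (add_le_add (hM _) (hM _))

private theorem inner_eq (hC : Collar H Ψ s₀ s s₁) {a b : ℝ} (hp : LeftPt H Ψ s a b p τ) {w : ℂ}
    (hw : w ∉ H) {β' : ℝ → ℝ} (hi : Integrable β') (h1 : ∫ y, β' y = 1) (y : ℝ) :
    ∫ y', β' y' * qq Ψ s p τ y y' w =
      ((∫ y', β' y' * gg Ψ s p τ y' w) - gg Ψ s p τ y w) / (2 * Real.pi) := by
  obtain ⟨M, hM⟩ := gg_bdd hC hp hw
  have hI := int_mul hi (gg_meas hC hp hw) hM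
  have e : (fun y' => β' y' * qq Ψ s p τ y y' w) = fun y' =>
      (β' y' * gg Ψ s p τ y' w - β' y' * gg Ψ s p τ y w) / (2 * Real.pi) := by
    funext y'
    unfold qq
    ring
  rw [e, integral_div, integral_sub hI (hi.mul_const _), integral_mul_const, h1, one_mul]

private theorem outer_int (hC : Collar H Ψ s₀ s s₁) {a b : ℝ} (hp : LeftPt H Ψ s a b p τ) {w : ℂ}
    (hw : w ∉ H) {β β' : ℝ → ℝ} (hi : Integrable β) (hi' : Integrable β')
    (h1 : ∫ y, β' y = 1) :
    Integrable (fun y => β y * ∫ y', β' y' * qq Ψ s p τ y y' w) := by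
  obtain ⟨M, hM⟩ := gg_bdd hC hp hw
  simp_rw [inner_eq hC hp hw hi' h1]
  refine int_mul hi (M := (|∫ y', β' y' * gg Ψ s p τ y' w| + M) / (2 * Real.pi)) ?_ ?_
  · exact (measurable_const.sub (gg_meas hC hp hw)).div_const _
  · intro y
    rw [abs_div, abs_of_pos Real.two_pi_pos]
    gcongr
    exact (abs_sub _ _).trans (add_le_add le_rfl (hM _))

theorem qav_eq (hC : Collar H Ψ s₀ s s₁) {a b a' b' : ℝ} (hp : LeftPt H Ψ s a b' p τ)
    {β β' : ℝ → ℝ} {L : ℝ} (hA : Avg a b a' b' β β' L) {w : ℂ} (hw : w ∉ H) :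
    qav Ψ s p τ β β' w = ∫ y, β y * ∫ y', β' y' * qq Ψ s p τ y y' w := by
  have hi := int_beta hA.cont hA.supp
  have hi' := int_beta hA.cont' hA.supp'
  obtain ⟨M, hM⟩ := gg_bdd hC hp hw
  have hI := int_mul hi (gg_meas hC hp hw) hM
  simp_rw [inner_eq hC hp hw hi' hA.one']
  have e : (fun y => β y * (((∫ y', β' y' * gg Ψ s p τ y' w) - gg Ψ s p τ y w) / (2 * Real.pi))) =
      fun y => (β y * (∫ y', β' y' * gg Ψ s p τ y' w) - β y * gg Ψ s p τ y w) / (2 * Real.pi) := by
    funext y
    ring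
  rw [e, integral_div, integral_sub (hi.mul_const _) hI, integral_mul_const, hA.one, one_mul]
  rfl

private theorem ae_ne (c : ℝ) : ∀ᵐ y : ℝ, y ≠ c := by
  rw [ae_iff]
  simp

private theorem not_ray {w : ℂ} {y : ℝ} (h : y ≠ w.im) : w ∉ ray p y := fun hh => h hh.1.symm

/-- pointwise bounds -/
private theorem qq01 (hC : Collar H Ψ s₀ s s₁) {a b a' b' : ℝ} (hp : LeftPt H Ψ s a b' p τ)
    {β β' : ℝ → ℝ} {L : ℝ} (hA : Avg a b a' b' β β' L) {w : ℂ} (hw : w ∉ H) {y y' : ℝ}
    (hy : y ∈ Icc a b) (hy' : y' ∈ Icc a' b') (h1 : y ≠ w.im) (h2 : y' ≠ w.im) :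
    0 ≤ qq Ψ s p τ y y' w ∧ qq Ψ s p τ y y' w ≤ 1 := by
  have hb := hA.ba
  have hab := hA.ab
  have hab' := hA.ab'
  have := qq_zero_or_one hC hp (y := y) (y' := y') ⟨hy.1, by linarith [hy.2]⟩
    ⟨by linarith [hy'.1], hy'.2⟩ (by linarith [hy.2, hy'.1]) hw (not_ray h1) (not_ray h2)
  rcases this with h | h <;> rw [h] <;> norm_num

theorem qav_nonneg (hC : Collar H Ψ s₀ s s₁) {a b a' b' : ℝ} (hp : LeftPt H Ψ s a b' p τ)
    {β β' : ℝ → ℝ} {L : ℝ} (hA : Avg a b a' b' β β' L) {w : ℂ} (hw : w ∉ H) :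
    0 ≤ qav Ψ s p τ β β' w ∧ qav Ψ s p τ β β' w ≤ 1 := by
  have hi := int_beta hA.cont hA.supp
  have hi' := int_beta hA.cont' hA.supp'
  have hin : ∀ y ∈ Icc a b, y ≠ w.im → 0 ≤ (∫ y', β' y' * qq Ψ s p τ y y' w) ∧
      (∫ y', β' y' * qq Ψ s p τ y y' w) ≤ 1 := by
    intro y hy hne
    constructor
    · apply integral_nonneg_of_ae
      filter_upwards [ae_ne w.im] with y' hy'
      by_cases hs : y' ∈ Icc a' b'
      · exact mul_nonneg (hA.nonneg' _) (qq01 hC hp hA hw hy hs hne hy').1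
      · simp [hA.supp' _ hs]
    · rw [← hA.one']
      apply integral_mono_ae (int_qq hC hp hw hi' y) hi'
      filter_upwards [ae_ne w.im] with y' hy'
      by_cases hs : y' ∈ Icc a' b'
      · calc β' y' * qq Ψ s p τ y y' w ≤ β' y' * 1 :=
              mul_le_mul_of_nonneg_left (qq01 hC hp hA hw hy hs hne hy').2 (hA.nonneg' _)
          _ = β' y' := mul_one _
      · simp [hA.supp' _ hs]
  rw [qav_eq hC hp hA hw]
  constructor
  · apply integral_nonneg_of_ae
    filter_upwards [ae_ne w.im] with y hy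
    by_cases hs : y ∈ Icc a b
    · exact mul_nonneg (hA.nonneg _) (hin y hs hy).1
    · simp [hA.supp _ hs]
  · rw [← hA.one]
    apply integral_mono_ae (outer_int hC hp hw hi hi' hA.one') hi
    filter_upwards [ae_ne w.im] with y hy
    by_cases hs : y ∈ Icc a b
    · calc β y * (∫ y', β' y' * qq Ψ s p τ y y' w) ≤ β y * 1 :=
            mul_le_mul_of_nonneg_left (hin y hs hy).2 (hA.nonneg _)
        _ = β y := mul_one _
    · simp [hA.supp _ hs]

theorem qav_lip (hC : Collar H Ψ s₀ s s₁) {a b a' b' : ℝ} (hp : LeftPt H Ψ s a b' p τ)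
    {β β' : ℝ → ℝ} {L : ℝ} (hA : Avg a b a' b' β β' L) {w w' : ℂ} (hw : segment ℝ w w' ⊆ Hᶜ) :
    |qav Ψ s p τ β β' w - qav Ψ s p τ β β' w'| ≤ L * |w.im - w'.im| := by
  have hi := int_beta hA.cont hA.supp
  have hi' := int_beta hA.cont' hA.supp'
  have hwH : w ∉ H := hw (left_mem_segment ℝ w w')
  have hwH' : w' ∉ H := hw (right_mem_segment ℝ w w')
  set I : Set ℝ := uIcc w'.im w.im with hI
  have hIm : MeasurableSet I := measurableSet_uIcc
  -- imaginary parts on the segment
  have hseg : ∀ v ∈ segment ℝ w w', v.im ∈ I := by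
    intro v hv
    obtain ⟨s', t', hs', ht', hst, rfl⟩ := hv
    have h1 : (s' • w + t' • w').im = s' * w.im + t' * w'.im := by simp
    rw [h1, hI, uIcc_comm]
    have h2 : s' • w.im + t' • w'.im ∈ segment ℝ w.im w'.im := ⟨s', t', hs', ht', hst, rfl⟩
    rw [segment_eq_uIcc] at h2
    simpa using h2
  -- pointwise bound of the difference
  have hpt : ∀ y ∈ Icc a b, ∀ y' ∈ Icc a' b', y ≠ w.im → y ≠ w'.im → y' ≠ w.im → y' ≠ w'.im →
      |qq Ψ s p τ y y' w - qq Ψ s p τ y y' w'| ≤
        I.indicator (fun _ => (1 : ℝ)) y + I.indicator (fun _ => (1 : ℝ)) y' := by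
    intro y hy y' hy' h1 h2 h3 h4
    have n1 : 0 ≤ I.indicator (fun _ => (1 : ℝ)) y := indicator_nonneg (fun _ _ => by norm_num) _
    have n2 : 0 ≤ I.indicator (fun _ => (1 : ℝ)) y' := indicator_nonneg (fun _ _ => by norm_num) _
    have b1 := qq01 hC hp hA hwH hy hy' h1 h3
    have b2 := qq01 hC hp hA hwH' hy hy' h2 h4
    have hle : |qq Ψ s p τ y y' w - qq Ψ s p τ y y' w'| ≤ 1 := by
      rw [abs_le]
      constructor <;> linarith [b1.1, b1.2, b2.1, b2.2]
    by_cases c1 : y ∈ I
    · rw [indicator_of_mem c1]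
      linarith
    · by_cases c2 : y' ∈ I
      · rw [indicator_of_mem c2]
        linarith
      · have : qq Ψ s p τ y y' w = qq Ψ s p τ y y' w' := by
          have hb := hA.ba
          have hab := hA.ab
          have hab' := hA.ab'
          refine qq_const hC hp (y := y) (y' := y') ⟨hy.1, by linarith [hy.2, hy'.1]⟩
            ⟨by linarith [hy'.1], hy'.2⟩ (S := segment ℝ w w')
            (convex_segment w w').isPreconnected (fun v hv => hw hv) ?_ ?_
            (left_mem_segment ℝ w w') (right_mem_segment ℝ w w')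
          · intro v hv hr
            exact c1 (hr.1 ▸ hseg v hv)
          · intro v hv hr
            exact c2 (hr.1 ▸ hseg v hv)
        rw [this, sub_self, abs_zero]
        linarith
  -- the inner integral
  have hIβ' : Integrable (fun y' => β' y' * I.indicator (fun _ => (1 : ℝ)) y') := by
    refine int_mul hi' (M := 1) (measurable_const.indicator hIm) (fun y => ?_)
    by_cases c : y ∈ I
    · rw [indicator_of_mem c]; norm_num
    · rw [indicator_of_notMem c]; norm_num
  have hIβ : Integrable (fun y => β y * I.indicator (fun _ => (1 : ℝ)) y) := by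
    refine int_mul hi (M := 1) (measurable_const.indicator hIm) (fun y => ?_)
    by_cases c : y ∈ I
    · rw [indicator_of_mem c]; norm_num
    · rw [indicator_of_notMem c]; norm_num
  have hin : ∀ y ∈ Icc a b, y ≠ w.im → y ≠ w'.im →
      |(∫ y', β' y' * qq Ψ s p τ y y' w) - ∫ y', β' y' * qq Ψ s p τ y y' w'| ≤
        I.indicator (fun _ => (1 : ℝ)) y + ∫ y', β' y' * I.indicator (fun _ => (1 : ℝ)) y' := by
    intro y hy h1 h2
    rw [← integral_sub (int_qq hC hp hwH hi' y) (int_qq hC hp hwH' hi' y)]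
    have e : (I.indicator (fun _ => (1 : ℝ)) y +
        ∫ y', β' y' * I.indicator (fun _ => (1 : ℝ)) y') =
        ∫ y', (β' y' * I.indicator (fun _ => (1 : ℝ)) y +
          β' y' * I.indicator (fun _ => (1 : ℝ)) y') := by
      rw [integral_add (hi'.mul_const _) hIβ', integral_mul_const, hA.one', one_mul]
    rw [e]
    refine abs_integral_le_integral_abs.trans ?_
    apply integral_mono_ae
    · exact ((int_qq hC hp hwH hi' y).sub (int_qq hC hp hwH' hi' y)).abs
    · exact (hi'.mul_const _).add hIβ'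
    · filter_upwards [ae_ne w.im, ae_ne w'.im] with y' h3 h4
      by_cases hs : y' ∈ Icc a' b'
      · rw [← mul_sub, abs_mul, abs_of_nonneg (hA.nonneg' _), ← mul_add]
        exact mul_le_mul_of_nonneg_left (hpt y hy y' hs h1 h2 h3 h4) (hA.nonneg' _)
      · simp [hA.supp' _ hs]
  -- the outer integral
  rw [qav_eq hC hp hA hwH, qav_eq hC hp hA hwH',
    ← integral_sub (outer_int hC hp hwH hi hi' hA.one') (outer_int hC hp hwH' hi hi' hA.one')]
  have hb : ∀ y, β y * I.indicator (fun _ => (1 : ℝ)) y = I.indicator β y := by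
    intro y
    by_cases c : y ∈ I
    · rw [indicator_of_mem c, indicator_of_mem c, mul_one]
    · rw [indicator_of_notMem c, indicator_of_notMem c, mul_zero]
  have hb' : ∀ y, β' y * I.indicator (fun _ => (1 : ℝ)) y = I.indicator β' y := by
    intro y
    by_cases c : y ∈ I
    · rw [indicator_of_mem c, indicator_of_mem c, mul_one]
    · rw [indicator_of_notMem c, indicator_of_notMem c, mul_zero]
  calc |∫ y, (β y * (∫ y', β' y' * qq Ψ s p τ y y' w) -
        β y * ∫ y', β' y' * qq Ψ s p τ y y' w')|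
      ≤ ∫ y, |β y * (∫ y', β' y' * qq Ψ s p τ y y' w) -
        β y * ∫ y', β' y' * qq Ψ s p τ y y' w'| := abs_integral_le_integral_abs
    _ ≤ ∫ y, (β y * I.indicator (fun _ => (1 : ℝ)) y +
          β y * ∫ y', β' y' * I.indicator (fun _ => (1 : ℝ)) y') := by
        apply integral_mono_ae
        · exact ((outer_int hC hp hwH hi hi' hA.one').sub
            (outer_int hC hp hwH' hi hi' hA.one')).abs
        · exact hIβ.add (hi.mul_const _)
        · filter_upwards [ae_ne w.im, ae_ne w'.im] with y h3 h4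
          by_cases hs : y ∈ Icc a b
          · rw [← mul_sub, abs_mul, abs_of_nonneg (hA.nonneg _), ← mul_add]
            exact mul_le_mul_of_nonneg_left (hin y hs h3 h4) (hA.nonneg _)
          · simp [hA.supp _ hs]
    _ = (∫ y in I, β y) + ∫ y in I, β' y := by
        rw [integral_add hIβ (hi.mul_const _), integral_mul_const, hA.one, one_mul]
        simp_rw [hb, hb']
        rw [integral_indicator hIm, integral_indicator hIm]
    _ = ∫ y in I, (β y + β' y) := by
        rw [integral_add hi.integrableOn hi'.integrableOn]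
    _ ≤ ∫ y in I, L := by
        apply integral_mono (hi.add hi').integrableOn
        · rw [integrable_const_iff]
          right
          rw [isFiniteMeasure_restrict]
          exact (isCompact_uIcc.measure_lt_top).ne
        · intro y
          exact hA.le y
    _ = L * |w.im - w'.im| := by
        rw [setIntegral_const, smul_eq_mul, mul_comm, hI, uIcc, Real.volume_real_Icc_of_le
          (min_le_max), max_sub_min_eq_abs]

theorem qav_continuousOn (hC : Collar H Ψ s₀ s s₁) {a b a' b' : ℝ} (hp : LeftPt H Ψ s a b' p τ)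
    {β β' : ℝ → ℝ} {L : ℝ} (hA : Avg a b a' b' β β' L) :
    ContinuousOn (qav Ψ s p τ β β') Hᶜ := by
  intro w hw
  have hL : 0 ≤ L := (add_nonneg (hA.nonneg 0) (hA.nonneg' 0)).trans (hA.le 0)
  have hop : IsOpen Hᶜ := hC.compact.isClosed.isOpen_compl
  obtain ⟨ε, hε, hball⟩ := Metric.isOpen_iff.mp hop w hw
  apply ContinuousAt.continuousWithinAt
  rw [Metric.continuousAt_iff]
  intro δ hδ
  refine ⟨min ε (δ / (L + 1)), lt_min hε (div_pos hδ (by linarith)), ?_⟩
  intro v hv
  have hv1 : dist v w < ε := hv.trans_le (min_le_left _ _)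
  have hv2 : dist v w < δ / (L + 1) := hv.trans_le (min_le_right _ _)
  have hs : segment ℝ v w ⊆ Hᶜ :=
    ((convex_ball w ε).segment_subset (mem_ball.mpr hv1) (mem_ball_self hε)).trans hball
  have h1 := qav_lip hC hp hA hs
  rw [Real.dist_eq]
  have h2 : |v.im - w.im| ≤ dist v w := by
    rw [dist_eq_norm, ← Complex.sub_im]
    exact Complex.abs_im_le_norm _
  calc |qav Ψ s p τ β β' v - qav Ψ s p τ β β' w| ≤ L * |v.im - w.im| := h1
    _ ≤ L * dist v w := mul_le_mul_of_nonneg_left h2 hL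
    _ ≤ (L + 1) * dist v w := by nlinarith [dist_nonneg (x := v) (y := w)]
    _ < (L + 1) * (δ / (L + 1)) := mul_lt_mul_of_pos_left hv2 (by linarith)
    _ = δ := by field_simp

theorem qav_left (hC : Collar H Ψ s₀ s s₁) {R : ℝ} (hR : H ⊆ closedBall 0 R) {a b a' b' : ℝ}
    (hp : LeftPt H Ψ s a b' p τ) {β β' : ℝ → ℝ} {L : ℝ} (hA : Avg a b a' b' β β' L) {w : ℂ}
    (hw : w.re < -R) :
    qav Ψ s p τ β β' w = (∫ y in Iic w.im, β y) * ∫ y in Ici w.im, β' y := by
  have hleft : ∀ r : ℝ, 0 ≤ r → w - r ∉ H := by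
    intro r hr hm
    have h1 := hR hm
    rw [mem_closedBall_zero_iff] at h1
    have h2 := Complex.abs_re_le_norm (w - r)
    have h3 : (w - (r : ℂ)).re = w.re - r := by simp
    rw [h3] at h2
    have h4 := neg_abs_le (w.re - r)
    linarith
  have hwH : w ∉ H := by
    have := hleft 0 le_rfl
    simpa using this
  rw [qav_eq hC hp hA hwH]
  have hb := hA.ba
  have hab := hA.ab
  have hab' := hA.ab'
  have key : ∀ y ∈ Icc a b, y ≠ w.im → (∫ y', β' y' * qq Ψ s p τ y y' w) =
      (Iic w.im).indicator (fun _ => (1 : ℝ)) y * ∫ y in Ici w.im, β' y := by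
    intro y hy h1
    rw [← integral_indicator measurableSet_Ici, ← integral_const_mul]
    apply integral_congr_ae
    filter_upwards [ae_ne w.im] with y' h2
    by_cases hs : y' ∈ Icc a' b'
    · rw [qq_left hC hp (y := y) (y' := y') ⟨hy.1, by linarith [hy.2, hs.1]⟩
        ⟨by linarith [hs.1], hs.2⟩ (by linarith [hy.2, hs.1]) hleft h1.symm h2.symm]
      by_cases c1 : y < w.im
      · by_cases c2 : w.im < y'
        · rw [if_pos ⟨c1, c2⟩, indicator_of_mem (show y ∈ Iic w.im from c1.le),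
            indicator_of_mem (show y' ∈ Ici w.im from c2.le)]
          ring
        · rw [if_neg (fun h => c2 h.2), indicator_of_notMem (show y' ∉ Ici w.im from
            fun h => c2 (lt_of_le_of_ne h h2.symm))]
          ring
      · rw [if_neg (fun h => c1 h.1), indicator_of_notMem (show y ∉ Iic w.im from
            fun h => c1 (lt_of_le_of_ne h h1))]
        ring
    · rw [hA.supp' _ hs]
      have : (Ici w.im).indicator (fun y => β' y) y' = 0 := by
        by_cases c : y' ∈ Ici w.im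
        · rw [indicator_of_mem c, hA.supp' _ hs]
        · rw [indicator_of_notMem c]
      rw [this]
      ring
  rw [← integral_indicator measurableSet_Iic, ← integral_mul_const]
  apply integral_congr_ae
  filter_upwards [ae_ne w.im] with y h1
  by_cases hs : y ∈ Icc a b
  · rw [key y hs h1]
    by_cases c : y ∈ Iic w.im
    · rw [indicator_of_mem c, indicator_of_mem c]
      ring
    · rw [indicator_of_notMem c, indicator_of_notMem c]
      ring
  · rw [hA.supp _ hs]
    have : (Iic w.im).indicator (fun y => β y) y = 0 := by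
      by_cases c : y ∈ Iic w.im
      · rw [indicator_of_mem c, hA.supp _ hs]
      · rw [indicator_of_notMem c]
    rw [this]
    ring

theorem qav_far (hC : Collar H Ψ s₀ s s₁) {R : ℝ} (hR : H ⊆ closedBall 0 R) {a b a' b' : ℝ}
    (hp : LeftPt H Ψ s a b' p τ) {β β' : ℝ → ℝ} {L : ℝ} (hA : Avg a b a' b' β β' L) {w : ℂ}
    (hw : R < ‖w‖) (h : 0 ≤ w.re ∨ R < |w.im|) : qav Ψ s p τ β β' w = 0 := by
  have hwH : w ∉ H := fun hm => by
    have := hR hm
    rw [mem_closedBall_zero_iff] at this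
    linarith
  have hb := hA.ba
  have hab := hA.ab
  have hab' := hA.ab'
  rw [qav_eq hC hp hA hwH]
  have key : ∀ y ∈ Icc a b, ∀ y' ∈ Icc a' b', qq Ψ s p τ y y' w = 0 := by
    intro y hy y' hy'
    have m1 : y ∈ Icc a b' := ⟨hy.1, by linarith [hy.2, hy'.1, hy'.2]⟩
    have m2 : y' ∈ Icc a b' := ⟨by linarith [hy'.1], hy'.2⟩
    rcases h with h | h
    · exact qq_right hC hp hR m1 m2 hw h
    · exact qq_vert hC hp hR m1 m2 h
  have : (fun y => β y * ∫ y', β' y' * qq Ψ s p τ y y' w) = fun _ => 0 := by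
    funext y
    by_cases hs : y ∈ Icc a b
    · have : (fun y' => β' y' * qq Ψ s p τ y y' w) = fun _ => 0 := by
        funext y'
        by_cases hs' : y' ∈ Icc a' b'
        · rw [key y hs y' hs', mul_zero]
        · rw [hA.supp' _ hs', zero_mul]
      rw [this]
      simp
    · rw [hA.supp _ hs, zero_mul]
  rw [this]
  simp

end RSM2
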