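import Pool.Agent.RSM2.BW6
import Pool.Agent.RSM2.BW7

/-!
# RSM2 module BW8: boundary behaviour of the average weight

Proof.  For `s < s' < s₁` and all `t` the point `Ψ (s' + t i)` is not in `H` (`Collar.out`), so
`qav (Ψ (s' + t i)) = ∫ y, β y * ∫ y', β' y' * qq y y' (Ψ (s' + t i))` (`qav_eq`), and the function
`(t, y, y') ↦ β y β' y' qq y y' (Ψ (s' + t i)) k t` is measurable (`lam_cont`, measurability of
`p`, `τ`) and bounded with bounded support in `[0, 2π] × [a, b] × [a', b']` (`qq_zero_or_one'`).  By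
Fubini `∫ t in 0..2π, qav (Ψ (s' + t i)) * k t = ∫ y, β y * ∫ y', β' y' * I_{s'} y y'` with
`I_{s'} y y' = ∫ t in 0..2π, qq y y' (Ψ (s' + t i)) * k t`, `|I_{s'}| ≤ ∫ |k|`.  By `qq_boundary` and
dominated convergence (twice, or once for the product measure; the filter `𝓝[>] s` is countably
generated) the right-hand side tends to `∫ y, β y * ∫ y', β' y' * c y y'`, `|c| ≤ 2K` (on the support),
so the limit is at most `2K` in absolute value.
-/

open Complex Set Metric Filter Topology MeasureTheory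

namespace RSM2


private theorem two_pi_pos' : (0 : ℝ) < 2 * Real.pi := by positivity

private theorem G_int {G : ℝ → ℝ → ℝ} (hG : Measurable (Function.uncurry G)) {B : ℝ}
    (hB : ∀ t y, |G t y| ≤ B) {k : ℝ → ℝ} (hk : Continuous k) {M : ℝ} (hM : ∀ t, |k t| ≤ M)
    (y : ℝ) : IntervalIntegrable (fun t => G t y * k t) volume 0 (2 * Real.pi) := by
  rw [intervalIntegrable_iff]
  refine Measure.integrableOn_of_bounded (M := B * M) ?_ ?_ ?_
  · rw [Set.uIoc_of_le two_pi_pos'.le]
    exact measure_Ioc_lt_top.ne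
  · have h1 : Measurable (fun t => G t y) := hG.comp (measurable_id.prodMk measurable_const)
    exact (h1.mul hk.measurable).aestronglyMeasurable
  · refine Filter.Eventually.of_forall (fun t => ?_)
    rw [Real.norm_eq_abs, abs_mul]
    exact mul_le_mul (hB t y) (hM t) (abs_nonneg _) ((abs_nonneg _).trans (hB t y))

private theorem fub {G : ℝ → ℝ → ℝ} (hG : Measurable (Function.uncurry G)) {B : ℝ}
    (hB : ∀ t y, |G t y| ≤ B) {k : ℝ → ℝ} (hk : Continuous k) {M : ℝ} (hM : ∀ t, |k t| ≤ M)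
    {β : ℝ → ℝ} (hβ : Integrable β) :
    Integrable (fun y => β y * ∫ t in (0 : ℝ)..(2 * Real.pi), G t y * k t) ∧
    IntervalIntegrable (fun t => (∫ y, β y * G t y) * k t) volume 0 (2 * Real.pi) ∧
    (∫ t in (0 : ℝ)..(2 * Real.pi), (∫ y, β y * G t y) * k t) =
      ∫ y, β y * ∫ t in (0 : ℝ)..(2 * Real.pi), G t y * k t := by
  have hfin : IsFiniteMeasure (volume.restrict (Ioc (0 : ℝ) (2 * Real.pi))) :=
    ⟨by rw [Measure.restrict_apply_univ]; exact measure_Ioc_lt_top⟩
  have hint : Integrable (fun z : ℝ × ℝ => β z.2 * G z.1 z.2 * k z.1)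
      ((volume.restrict (Ioc (0 : ℝ) (2 * Real.pi))).prod volume) := by
    have h1 : Integrable (fun z : ℝ × ℝ => (B * M) * ‖β z.2‖)
        ((volume.restrict (Ioc (0 : ℝ) (2 * Real.pi))).prod volume) :=
      Integrable.mul_prod (f := fun _ : ℝ => B * M) (g := fun y => ‖β y‖)
        (integrable_const _) hβ.norm
    refine h1.mono' ?_ ?_
    · have h2 : AEStronglyMeasurable (fun z : ℝ × ℝ => β z.2)
          ((volume.restrict (Ioc (0 : ℝ) (2 * Real.pi))).prod volume) :=
        hβ.aestronglyMeasurable.comp_snd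
      have h3 : AEStronglyMeasurable (fun z : ℝ × ℝ => G z.1 z.2)
          ((volume.restrict (Ioc (0 : ℝ) (2 * Real.pi))).prod volume) :=
        hG.aestronglyMeasurable
      have h4 : AEStronglyMeasurable (fun z : ℝ × ℝ => k z.1)
          ((volume.restrict (Ioc (0 : ℝ) (2 * Real.pi))).prod volume) :=
        (hk.comp continuous_fst).aestronglyMeasurable
      exact (h2.mul h3).mul h4
    · refine Filter.Eventually.of_forall (fun z => ?_)
      rw [norm_mul, norm_mul]
      have h5 : ‖G z.1 z.2‖ * ‖k z.1‖ ≤ B * M := by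
        rw [Real.norm_eq_abs, Real.norm_eq_abs]
        exact mul_le_mul (hB _ _) (hM _) (abs_nonneg _) ((abs_nonneg _).trans (hB 0 0))
      calc ‖β z.2‖ * ‖G z.1 z.2‖ * ‖k z.1‖ = ‖β z.2‖ * (‖G z.1 z.2‖ * ‖k z.1‖) := by ring
        _ ≤ ‖β z.2‖ * (B * M) := mul_le_mul_of_nonneg_left h5 (norm_nonneg _)
        _ = B * M * ‖β z.2‖ := by ring
  have e1 : ∀ t, (∫ y, β y * G t y * k t) = (∫ y, β y * G t y) * k t := by
    intro t
    rw [← integral_mul_const]
  have e2 : ∀ y, (∫ t in Ioc (0 : ℝ) (2 * Real.pi), β y * G t y * k t) =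
      β y * ∫ t in (0 : ℝ)..(2 * Real.pi), G t y * k t := by
    intro y
    rw [intervalIntegral.integral_of_le two_pi_pos'.le, ← integral_const_mul]
    congr 1
    funext t
    ring
  refine ⟨?_, ?_, ?_⟩
  · have h := hint.integral_prod_right
    simp only [e2] at h
    exact h
  · have h := hint.integral_prod_left
    simp only [e1] at h
    rw [intervalIntegrable_iff_integrableOn_Ioc_of_le two_pi_pos'.le]
    exact h
  · have h := integral_integral_swap (f := fun t y => β y * G t y * k t) hint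
    simp only [e1, e2] at h
    rw [intervalIntegral.integral_of_le two_pi_pos'.le]
    exact h

/-- The integral of the average is the average of the integrals. -/
private theorem fub2 {G : ℝ → ℝ → ℝ} (hG : Measurable (Function.uncurry G)) {B : ℝ}
    (hB : ∀ t y, |G t y| ≤ B) {k : ℝ → ℝ} (hk : Continuous k) {M : ℝ} (hM : ∀ t, |k t| ≤ M)
    {β β' : ℝ → ℝ} (hβ : Integrable β) (hβ' : Integrable β') (h1 : ∫ y, β y = 1)
    (h1' : ∫ y, β' y = 1) :
    Integrable (fun z : ℝ × ℝ => β z.1 * (β' z.2 *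
      ∫ t in (0 : ℝ)..(2 * Real.pi), (G t z.2 - G t z.1) / (2 * Real.pi) * k t))
        (volume.prod volume) ∧
    (∫ t in (0 : ℝ)..(2 * Real.pi),
      (((∫ y, β' y * G t y) - ∫ y, β y * G t y) / (2 * Real.pi)) * k t) =
    ∫ z : ℝ × ℝ, β z.1 * (β' z.2 *
      ∫ t in (0 : ℝ)..(2 * Real.pi), (G t z.2 - G t z.1) / (2 * Real.pi) * k t)
        ∂(volume.prod volume) := by
  obtain ⟨a1, a2, a3⟩ := fub hG hB hk hM hβ
  obtain ⟨b1, b2, b3⟩ := fub hG hB hk hM hβ'
  set A : ℝ → ℝ := fun y => ∫ t in (0 : ℝ)..(2 * Real.pi), G t y * k t with hA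
  have e1 : ∀ y y', (∫ t in (0 : ℝ)..(2 * Real.pi), (G t y' - G t y) / (2 * Real.pi) * k t) =
      (A y' - A y) / (2 * Real.pi) := by
    intro y y'
    have e2 : ∀ t, (G t y' - G t y) / (2 * Real.pi) * k t =
        (G t y' * k t - G t y * k t) / (2 * Real.pi) := by
      intro t
      ring
    simp only [e2]
    rw [intervalIntegral.integral_div,
      intervalIntegral.integral_sub (G_int hG hB hk hM y') (G_int hG hB hk hM y)]
  have e3 : ∀ z : ℝ × ℝ, β z.1 * (β' z.2 *
      ∫ t in (0 : ℝ)..(2 * Real.pi), (G t z.2 - G t z.1) / (2 * Real.pi) * k t) =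
      (β z.1 * (β' z.2 * A z.2) - (β z.1 * A z.1) * β' z.2) / (2 * Real.pi) := by
    intro z
    rw [e1]
    ring
  have i1 : Integrable (fun z : ℝ × ℝ => β z.1 * (β' z.2 * A z.2)) (volume.prod volume) :=
    Integrable.mul_prod (f := β) (g := fun y => β' y * A y) hβ b1
  have i2 : Integrable (fun z : ℝ × ℝ => (β z.1 * A z.1) * β' z.2) (volume.prod volume) :=
    Integrable.mul_prod (f := fun y => β y * A y) (g := β') a1 hβ'
  simp only [e3]
  refine ⟨(i1.sub i2).div_const _, ?_⟩
  rw [integral_div, integral_sub i1 i2]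
  rw [integral_prod_mul (f := β) (g := fun y => β' y * A y),
    integral_prod_mul (f := fun y => β y * A y) (g := β'), h1, h1', one_mul, mul_one]
  have e4 : ∀ t, (((∫ y, β' y * G t y) - ∫ y, β y * G t y) / (2 * Real.pi)) * k t =
      ((∫ y, β' y * G t y) * k t - (∫ y, β y * G t y) * k t) / (2 * Real.pi) := by
    intro t
    ring
  simp only [e4]
  rw [intervalIntegral.integral_div, intervalIntegral.integral_sub b2 a2, a3, b3]

variable {H : Set ℂ} {Ψ : ℂ → ℂ} {s₀ s s₁ : ℝ} {p : ℝ → ℂ} {τ : ℝ → ℝ}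

theorem qav_boundary (hC : Collar H Ψ s₀ s s₁) {a b a' b' : ℝ} (hp : LeftPt H Ψ s a b' p τ)
    {β β' : ℝ → ℝ} {L : ℝ} (hA : Avg a b a' b' β β' L) {k : ℝ → ℝ} {K : ℝ} (hk : Continuous k)
    (hkp : ∀ t, k (t + 2 * Real.pi) = k t)
    (hK : ∀ u v : ℝ, u ≤ v → v ≤ u + 2 * Real.pi → |∫ t in u..v, k t| ≤ K) {ε : ℝ} (hε : 0 < ε) :
    ∀ᶠ s' : ℝ in 𝓝[>] s,
      |∫ t in (0 : ℝ)..(2 * Real.pi), qav Ψ s p τ β β' (Ψ (s' + t * I)) * k t| ≤ 2 * K + ε := by
  have hpi := two_pi_pos'
  have hK0 : 0 ≤ K := by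
    have := hK 0 0 le_rfl (by linarith)
    rw [intervalIntegral.integral_same, abs_zero] at this
    exact this
  -- `k` is bounded
  have hkM : ∃ M, ∀ t, |k t| ≤ M := by
    obtain ⟨M, hM⟩ := (isCompact_Icc (a := (0 : ℝ)) (b := 2 * Real.pi)).exists_bound_of_continuousOn
      hk.continuousOn
    refine ⟨M, fun t => ?_⟩
    obtain ⟨u, hu, hut⟩ := Function.Periodic.exists_mem_Ico₀ (f := k) hkp hpi t
    rw [hut]
    exact hM u (Ico_subset_Icc_self hu)
  obtain ⟨M, hM⟩ := hkM
  have hM0 : 0 ≤ M := (abs_nonneg _).trans (hM 0)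
  -- `β`, `β'` are integrable
  have hβ : Integrable β :=
    hA.cont.integrable_of_hasCompactSupport
      (HasCompactSupport.intro (isCompact_Icc (a := a) (b := b)) (fun y hy => hA.supp y hy))
  have hβ' : Integrable β' :=
    hA.cont'.integrable_of_hasCompactSupport
      (HasCompactSupport.intro (isCompact_Icc (a := a') (b := b')) (fun y hy => hA.supp' y hy))
  have hsub : ∀ y ∈ Icc a b, y ∈ Icc a b' := fun y hy =>
    ⟨hy.1, hy.2.trans ((hA.ba.trans hA.ab').le)⟩
  have hsub' : ∀ y ∈ Icc a' b', y ∈ Icc a b' := fun y hy =>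
    ⟨((hA.ab.trans hA.ba).le).trans hy.1, hy.2⟩
  have hyy : ∀ y ∈ Icc a b, ∀ y' ∈ Icc a' b', y < y' := fun y hy y' hy' =>
    lt_of_le_of_lt hy.2 (lt_of_lt_of_le hA.ba hy'.1)
  -- the integrals of the weights of pairs
  set J : ℝ → ℝ × ℝ → ℝ := fun s' z => β z.1 * (β' z.2 *
    ∫ t in (0 : ℝ)..(2 * Real.pi), qq Ψ s p τ z.1 z.2 (Ψ (s' + t * I)) * k t) with hJ
  -- step 1: Fubini
  have hout : ∀ s' ∈ Ioo s s₁, ∀ t : ℝ, Ψ (s' + t * I) ∉ H := by
    intro s' hs' t
    apply hC.out
    · simpa using hs'.1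
    · simpa using hs'.2
  have step1 : ∀ s' ∈ Ioo s s₁, Integrable (J s') (volume.prod volume) ∧
      (∫ t in (0 : ℝ)..(2 * Real.pi), qav Ψ s p τ β β' (Ψ (s' + t * I)) * k t) =
        ∫ z, J s' z ∂(volume.prod volume) := by
    intro s' hs'
    have hw : ∀ t : ℝ, Ψ (s' + t * I) ∉ H := hout s' hs'
    have hwc : Continuous (fun t : ℝ => Ψ (s' + t * I)) := by
      rw [continuous_iff_continuousAt]
      intro t
      have hmem : (s' + t * I : ℂ) ∈ {ξ : ℂ | s₀ < ξ.re ∧ ξ.re < s₁} := by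
        refine ⟨?_, ?_⟩
        · simpa using hC.lt0.trans hs'.1
        · simpa using hs'.2
      have hopen : IsOpen {ξ : ℂ | s₀ < ξ.re ∧ ξ.re < s₁} :=
        (isOpen_lt continuous_const Complex.continuous_re).inter
          (isOpen_lt Complex.continuous_re continuous_const)
      have h1 : ContinuousAt Ψ (s' + t * I) :=
        (hC.diff.continuousOn).continuousAt (hopen.mem_nhds hmem)
      have h2 : ContinuousAt (fun t : ℝ => (s' + t * I : ℂ)) t := by fun_prop
      exact ContinuousAt.comp (f := fun t : ℝ => (s' + t * I : ℂ)) (g := Ψ) h1 h2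
    have hg : Continuous (fun x : ℝ × ℝ => lam Ψ s (Ψ (s' + x.1 * I)) x.2) := by
      have h1 : Continuous (fun x : ℝ × ℝ => ((Ψ (s' + x.1 * I), x.2) : ℂ × ℝ)) :=
        (hwc.comp continuous_fst).prodMk continuous_snd
      exact (lam_cont hC).comp_continuous h1 (fun x => ⟨hw x.1, mem_univ _⟩)
    obtain ⟨B, hB⟩ := ((isCompact_Icc (a := (0 : ℝ)) (b := 2 * Real.pi)).prod
      (isCompact_Icc (a := (0 : ℝ)) (b := 2 * Real.pi))).exists_bound_of_continuousOn
        hg.continuousOn
    have hper : Function.Periodic (fun t : ℝ => Ψ (s' + t * I)) (2 * Real.pi) := by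
      intro t
      have h1 := hC.period (s' + t * I)
      have h2 : (s' + ((t + 2 * Real.pi : ℝ) : ℂ) * I : ℂ) = s' + t * I + 2 * Real.pi * I := by
        push_cast
        ring
      simp only [h2]
      exact h1
    set G : ℝ → ℝ → ℝ := fun t y => gg Ψ s p τ y (Ψ (s' + t * I)) with hGd
    have hG : Measurable (Function.uncurry G) := by
      have h1 : Measurable (fun x : ℝ × ℝ => lam Ψ s (Ψ (s' + x.1 * I)) (τ x.2)) :=
        hg.measurable.comp (measurable_fst.prodMk (hp.measτ.comp measurable_snd))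
      have h2 : Measurable (fun x : ℝ × ℝ => arg (Ψ (s' + x.1 * I) - p x.2)) :=
        Complex.measurable_arg.comp
          ((hwc.measurable.comp measurable_fst).sub (hp.measp.comp measurable_snd))
      exact h1.sub h2
    have hGB : ∀ t y, |G t y| ≤ B + Real.pi := by
      intro t y
      obtain ⟨u, hu, hut⟩ := hper.exists_mem_Ico₀ hpi t
      have h1 := hB (u, τ y) ⟨Ico_subset_Icc_self hu, hp.τ0 y, (hp.τ1 y).le⟩
      rw [Real.norm_eq_abs] at h1
      simp only at h1 hut
      simp only [hGd, gg, hut]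
      calc |lam Ψ s (Ψ (s' + u * I)) (τ y) - arg (Ψ (s' + u * I) - p y)|
          ≤ |lam Ψ s (Ψ (s' + u * I)) (τ y)| + |arg (Ψ (s' + u * I) - p y)| := abs_sub _ _
        _ ≤ B + Real.pi := add_le_add h1 (Complex.abs_arg_le_pi _)
    exact fub2 hG hGB hk hM hβ hβ' hA.one hA.one'
  -- the pointwise limits
  have hlim : ∀ z : ℝ × ℝ, ∃ c : ℝ, |c| ≤ β z.1 * (β' z.2 * (2 * K)) ∧
      Tendsto (fun s' => J s' z) (𝓝[>] s) (𝓝 c) := by
    intro z
    by_cases h1 : z.1 ∈ Icc a b
    · by_cases h2 : z.2 ∈ Icc a' b'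
      · obtain ⟨c, hc, hct⟩ := qq_boundary hC hp (hsub _ h1) (hsub' _ h2) (hyy _ h1 _ h2) hk hkp hK
        refine ⟨β z.1 * (β' z.2 * c), ?_, ?_⟩
        · rw [abs_mul, abs_mul, abs_of_nonneg (hA.nonneg _), abs_of_nonneg (hA.nonneg' _)]
          exact mul_le_mul_of_nonneg_left
            (mul_le_mul_of_nonneg_left hc (hA.nonneg' _)) (hA.nonneg _)
        · exact (hct.const_mul _).const_mul _
      · refine ⟨0, ?_, ?_⟩
        · rw [abs_zero]
          exact mul_nonneg (hA.nonneg _) (mul_nonneg (hA.nonneg' _) (by positivity))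
        · simp only [hJ, hA.supp' _ h2, zero_mul, mul_zero]
          exact tendsto_const_nhds
    · refine ⟨0, ?_, ?_⟩
      · rw [abs_zero]
        exact mul_nonneg (hA.nonneg _) (mul_nonneg (hA.nonneg' _) (by positivity))
      · simp only [hJ, hA.supp _ h1, zero_mul]
        exact tendsto_const_nhds
  choose c hc hct using hlim
  have hbound : ∀ s' ∈ Ioo s s₁, ∀ z, ‖J s' z‖ ≤ β z.1 * (β' z.2 * (M * |2 * Real.pi - 0|)) := by
    intro s' hs' z
    by_cases h1 : z.1 ∈ Icc a b
    · by_cases h2 : z.2 ∈ Icc a' b'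
      · simp only [hJ]
        rw [norm_mul, norm_mul, Real.norm_of_nonneg (hA.nonneg _),
          Real.norm_of_nonneg (hA.nonneg' _)]
        refine mul_le_mul_of_nonneg_left (mul_le_mul_of_nonneg_left ?_ (hA.nonneg' _))
          (hA.nonneg _)
        refine intervalIntegral.norm_integral_le_of_norm_le_const (fun t _ => ?_)
        rw [norm_mul, Real.norm_eq_abs (k t)]
        rcases qq_zero_or_one' hC hp (hsub _ h1) (hsub' _ h2) (hyy _ h1 _ h2)
          (hout s' hs' t) with h | h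
        · rw [h, norm_zero, zero_mul]
          exact hM0
        · rw [h, norm_one, one_mul]
          exact hM t
      · simp only [hJ, hA.supp' _ h2, zero_mul, mul_zero, norm_zero, le_refl]
    · simp only [hJ, hA.supp _ h1, zero_mul, norm_zero, le_refl]
  have hInt : ∀ C : ℝ, Integrable (fun z : ℝ × ℝ => β z.1 * (β' z.2 * C)) (volume.prod volume) :=
    fun C => Integrable.mul_prod (f := β) (g := fun y => β' y * C) hβ (hβ'.mul_const C)
  have hIoo : Ioo s s₁ ∈ 𝓝[>] s := Ioo_mem_nhdsGT hC.lt1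
  have hdom : Tendsto (fun s' => ∫ z, J s' z ∂(volume.prod volume)) (𝓝[>] s)
      (𝓝 (∫ z, c z ∂(volume.prod volume))) := by
    refine tendsto_integral_filter_of_dominated_convergence
      (fun z => β z.1 * (β' z.2 * (M * |2 * Real.pi - 0|))) ?_ ?_ (hInt _) ?_
    · filter_upwards [hIoo] with s' hs'
      exact (step1 s' hs').1.aestronglyMeasurable
    · filter_upwards [hIoo] with s' hs'
      exact Filter.Eventually.of_forall (fun z => hbound s' hs' z)
    · exact Filter.Eventually.of_forall (fun z => hct z)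
  have hle : |∫ z, c z ∂(volume.prod volume)| ≤ 2 * K := by
    have h1 : ‖∫ z, c z ∂(volume.prod volume)‖ ≤
        ∫ z : ℝ × ℝ, β z.1 * (β' z.2 * (2 * K)) ∂(volume.prod volume) :=
      norm_integral_le_of_norm_le (hInt _) (Filter.Eventually.of_forall (fun z => hc z))
    rw [integral_prod_mul (f := β) (g := fun y => β' y * (2 * K)), integral_mul_const, hA.one,
      hA.one', one_mul, one_mul] at h1
    exact h1
  have hev : ∀ᶠ s' in 𝓝[>] s, |(∫ z, J s' z ∂(volume.prod volume)) -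
      ∫ z, c z ∂(volume.prod volume)| < ε := by
    have := Metric.tendsto_nhds.1 hdom ε hε
    simpa [Real.dist_eq] using this
  filter_upwards [hev, hIoo] with s' h1 h2
  rw [(step1 s' h2).2]
  have h3 := abs_sub_abs_le_abs_sub (∫ z, J s' z ∂(volume.prod volume))
    (∫ z, c z ∂(volume.prod volume))
  linarith

end RSM2
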