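import Pool.Agent.RSM2.BW2
import Pool.Agent.RSM2.BW8

/-!
# RSM2 module BW: the weight function of step (b)

`H` is a compact set with connected complement, bounded by the analytic closed curve
`γ t = Ψ (s + t i)`, with an exterior collar `Ψ {s < Re ξ < s₁}`.  For `y` in the projection of
`H` let `p(y)` be the leftmost point of `H` at the height `y`; it is on the curve, `p(y) = γ (t(y))`.
For `y < y'` the weight is `q_{y,y'}(w) = (1/2π) (Im L(w) - Arg (w - p(y')) + Arg (w - p(y)))`,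
`L(w) = -∫ t in t(y)..t(y'), γ' t / (w - γ t)`, a logarithm of `(w - p(y')) / (w - p(y))`.
* it is an integer, and locally constant outside of `H` and of the two closed rays
  `{Im = y, Re ≤ Re p(y)}`, `{Im = y', Re ≤ Re p(y')}`; far away to the right, above and below it is
  `0`; far away to the left it is `1` between the rays and `0` outside;
* along the ray of `y'` it is `0` just above and `1` just below (locally constant along
  the ray, which does not meet `H`), similarly for the ray of `y`; so (`Hᶜ` connected) it takes only the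
  values `0` and `1` on `Hᶜ` minus the rays;
* `q_{y,y'} (Ψ (s' + t i))` is locally constant in `(s', t)` near `(s, t₀)` for `t₀ ≠ t(y), t(y')`
  modulo `2π`; so as `s' → s+` it converges for these `t₀`, to a function which is constant on the two
  arcs of the circle.
`q` is the average of `q_{y,y'}` with respect to `β(y) β'(y') dy dy'`.  If the segment from `w` to `w'`
is in `Hᶜ`, then `q_{y,y'} w = q_{y,y'} w'` unless `y` or `y'` is between `Im w` and `Im w'`.
-/

open Complex Set Metric Filter Topology MeasureTheory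

namespace RSM2

theorem exists_weight {H : Set ℂ} {Ψ : ℂ → ℂ} {s₀ s s₁ : ℝ} (hC : Collar H Ψ s₀ s s₁) {R : ℝ}
    (hR : H ⊆ closedBall 0 R) {a b a' b' : ℝ} (hab : a < b) (hba : b < a') (hab' : a' < b')
    (hproj : ∀ y ∈ Icc a b', ∃ z ∈ H, z.im = y) {β β' : ℝ → ℝ} (hβ : Continuous β)
    (hβ' : Continuous β') (hβ0 : ∀ y, 0 ≤ β y) (hβ0' : ∀ y, 0 ≤ β' y)
    (hβs : ∀ y, y ∉ Icc a b → β y = 0) (hβs' : ∀ y, y ∉ Icc a' b' → β' y = 0)
    (hβ1 : ∫ y, β y = 1) (hβ1' : ∫ y, β' y = 1) {L : ℝ} (hL : ∀ y, β y + β' y ≤ L) :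
    ∃ q : ℂ → ℝ, ContinuousOn q Hᶜ ∧ (∀ w ∉ H, 0 ≤ q w ∧ q w ≤ 1) ∧
      (∀ w w' : ℂ, segment ℝ w w' ⊆ Hᶜ → |q w - q w'| ≤ L * |w.im - w'.im|) ∧
      (∀ w : ℂ, w.re < -R → q w = (∫ y in Iic w.im, β y) * ∫ y in Ici w.im, β' y) ∧
      (∀ w : ℂ, R < ‖w‖ → (0 ≤ w.re ∨ R < |w.im|) → q w = 0) ∧
      ∀ (k : ℝ → ℝ) (K : ℝ), Continuous k → (∀ t, k (t + 2 * Real.pi) = k t) →
        (∀ u v : ℝ, u ≤ v → v ≤ u + 2 * Real.pi → |∫ t in u..v, k t| ≤ K) → ∀ ε > 0,
        ∀ᶠ s' : ℝ in 𝓝[>] s, |∫ t in (0 : ℝ)..(2 * Real.pi), q (Ψ (s' + t * I)) * k t| ≤ 2 * K + ε := by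
  have hA : Avg a b a' b' β β' L :=
    ⟨hab, hba, hab', hβ, hβ', hβ0, hβ0', hβs, hβs', hβ1, hβ1', hL⟩
  obtain ⟨p, τ, hp⟩ := exists_leftPt hC hproj
  exact ⟨qav Ψ s p τ β β', qav_continuousOn hC hp hA, fun w hw => qav_nonneg hC hp hA hw,
    fun w w' h => qav_lip hC hp hA h, fun w hw => qav_left hC hR hp hA hw,
    fun w hw h => qav_far hC hR hp hA hw h,
    fun k K hk hkp hK ε hε => qav_boundary hC hp hA hk hkp hK hε⟩

end RSM2
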