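import Pool.Agent.RSM2.J9

/-!
# RSM2: test pairs (definitions)

For a family of slits of slopes at most `ε` a test pair `(A, B)` satisfies `B_y = A_x`,
`B_x = -ε² A_y` off the slits, `B - τ_j A` tends to a constant at the slit `j`; `A` is
nondecreasing in `y` (across the slits), `A` is uniformly close to `y`, `B` is `O(ε)`,
`∫ A_x² = O(ε²)`, `∫ A_y² = O(1)`.
-/

open Complex Set Metric Filter Topology MeasureTheory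

namespace RSM2

/-- The box `|x| ≤ 2R`, `|y| ≤ 2R`. -/
def box (R : ℝ) : Set ℂ := {z | |z.re| ≤ 2 * R ∧ |z.im| ≤ 2 * R}

structure TestPair {ι : Type} (p : ι → ℂ) (τ ℓ : ι → ℝ) (ε R C η : ℝ) (A B : ℂ → ℝ) : Prop where
  niceA : ∀ r, Nice (SF p τ ℓ)ᶜ (closedBall 0 r) A
  niceB : ∀ r, Nice (SF p τ ℓ)ᶜ (closedBall 0 r) B
  rel1 : ∀ z ∈ (SF p τ ℓ)ᶜ, dY B z = dX A z
  rel2 : ∀ z ∈ (SF p τ ℓ)ᶜ, dX B z = -ε ^ 2 * dY A z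
  mono : MonoY (SF p τ ℓ) A
  near : ∀ z ∈ box R \ SF p τ ℓ, |A z - z.im| ≤ η
  small : ∀ z ∈ box R \ SF p τ ℓ, |B z| ≤ C * ε
  enX : ∫ z in box R \ SF p τ ℓ, dX A z ^ 2 ≤ C * ε ^ 2
  enY : ∫ z in box R \ SF p τ ℓ, dY A z ^ 2 ≤ C
  compat : ∀ j, ∃ b : ℝ, Tendsto (fun z => B z - τ j * A z)
    (nearIn (SF p τ ℓ)ᶜ (slit (p j) (τ j) (ℓ j))) (𝓝 b)

/-- The properties of the function `F` for a family of slits: `F` is compatible with the slits,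
`F - i z → 0` at infinity, and `F + a z` is injective for all real `a`. -/
structure FProps {ι : Type} (p : ι → ℂ) (τ ℓ : ι → ℝ) (F : ℂ → ℂ) : Prop where
  diff : DifferentiableOn ℂ F (SF p τ ℓ)ᶜ
  lim : Tendsto (fun z => F z - I * z) (cocompact ℂ) (𝓝 0)
  line : ∀ j, ∃ q : ℝ, Tendsto (fun z => (F z).im - τ j * (F z).re)
    (nearIn (SF p τ ℓ)ᶜ (slit (p j) (τ j) (ℓ j))) (𝓝 q)
  univ : ∀ a : ℝ, InjOn (fun z => F z + a * z) (SF p τ ℓ)ᶜ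

/-- A test pair before normalisation, with global estimates. -/
structure PreTest {ι : Type} (p : ι → ℂ) (τ ℓ : ι → ℝ) (ε R : ℝ) (A B : ℂ → ℝ) : Prop where
  niceA : ∀ r, Nice (SF p τ ℓ)ᶜ (closedBall 0 r) A
  niceB : ∀ r, Nice (SF p τ ℓ)ᶜ (closedBall 0 r) B
  rel1 : ∀ z ∈ (SF p τ ℓ)ᶜ, dY B z = dX A z
  rel2 : ∀ z ∈ (SF p τ ℓ)ᶜ, dX B z = -ε ^ 2 * dY A z
  mono : MonoY (SF p τ ℓ) A
  bdA : ∀ z ∈ (SF p τ ℓ)ᶜ, |A z| ≤ ε * |z.re| + |z.im| + 8 * R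
  bdB : ∀ z ∈ (SF p τ ℓ)ᶜ, |B z| ≤ ε * (ε * |z.re| + |z.im| + 8 * R)
  intX : IntegrableOn (fun z => dX A z ^ 2) (SF p τ ℓ)ᶜ
  enX : ∫ z in (SF p τ ℓ)ᶜ, dX A z ^ 2 ≤ 200 * ε ^ 2 * R ^ 2
  intY : IntegrableOn (fun z => (dY A z - 1) ^ 2) (SF p τ ℓ)ᶜ
  enY : ∫ z in (SF p τ ℓ)ᶜ, (dY A z - 1) ^ 2 ≤ 200 * R ^ 2
  compat : ∀ j, ∃ b : ℝ, Tendsto (fun z => B z - τ j * A z)
    (nearIn (SF p τ ℓ)ᶜ (slit (p j) (τ j) (ℓ j))) (𝓝 b)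

end RSM2
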