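import Pool.Agent.RSM2.B2
import Pool.Agent.RSM2.B3
import Pool.Agent.RSM2.BW
import Pool.Agent.RSM2.TP

/-!
# RSM2 module B4: the slits in step (b)

SETTING (`StepBData`).  `H` is a compact set with a collar, the slits `p, τ, ℓ` are disjoint from `H`
and from the collar; `D = (H ∪ SF)ᶜ`; `(U, V) = (x + u, y - y₀ + v)`, `u, v` nice on `D`, zero outside
of `closedBall 0 R`; `V - τ_j U` tends to a constant at the slit `j`; on the collar
`U (Ψ ξ) = x₀ + λ cosh (Re ξ) cos (Im ξ)`, `V (Ψ ξ) = λ sinh (Re ξ) sin (Im ξ)`.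

PROOF of `slits_small`.  `N = 3R + M`: `|U|, |V| ≤ N` on `D ∩ box R`.  For every slit `j` choose a convex
open set `W_j` containing the slit, disjoint from `H` and the other slits (the `ρ`-neighbourhood of the
convex compact slit, `ρ` small; convex: `Convex.thickening`), pairwise disjoint, contained in
the open set where `ω = 1`, `φ₀ = 1` and in the interior of `box R`, and a cut-off `X_j` with
`tsupport X_j ⊆ W_j`, `0 ≤ X_j ≤ 1`, `X_j = 1` near the slit (`exists_cut`).  `Y = 1 - ∑ X_j`.  Since `ω = 1`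
on the supports of the `X_j`:
`J (ωU) B - J (ωV) A = [J (ωYU) B - J (ωYV) A] + ∑_j [J (X_j U) B - J (X_j V) A]` on `D`.
* First bracket: `ωYU` and `ωYV` vanish near the points of `D` outside of a compact subset of `D`
  (`ω` is supported in `Hᶜ`, `Y = 0` near the slits): `Weight.J`: `|∫ q [..]| ≤ L N ∫_box (|A_x| + |B_x|)`.
* Slit `j`: `τ = τ_j`, `B = τ A + b₁`, `V = τ U + n`, `b₁ → b`, `n → κ` at the slit;
  `J (X U) B - J (X V) A = J (X U) b₁ - J (X (n - κ)) A - κ J X A`.  `Weight.J_right` (with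
  `H' = slit j`, `T = tsupport X_j`): `|∫ q J (XU) b₁| ≤ 4L ∫ X |U| (|B_x| + |τ| |A_x|)`;
  `Weight.J_left`: `|∫ q J (X(n - κ)) A| ≤ L ∫ X |n - κ| |A_x|`, `|n|, |κ| ≤ 2N` (`|τ| ≤ 1`);
  `slit_flux`: `|∫ q J X A| ≤ L ∫ X |A_x| + |τ| L jump A X`.
The sum over `j` of `∫ X_j (…)` is at most the integral over `box R \ SF`, and
`∑ |τ_j| jump A X_j ≤ ε jump A (∑ X_j) ≤ ε jump A φ₀` (`jump_add`, `jump_le`).  Total:
`≤ (1 + 4 + 4 + 2) L N ∫_box (|A_x| + |B_x|) + 2 N L ε jump A φ₀`.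
(The integrals over `D` and over `(SF)ᶜ` of functions supported away from `H` agree; `H ∩ D = ∅`.)
-/

open Complex Set Metric Filter Topology MeasureTheory

namespace RSM2

structure StepBData {ι : Type} (p : ι → ℂ) (τ ℓ : ι → ℝ) (ε R M δ : ℝ) (H : Set ℂ) (Ψ : ℂ → ℂ)
    (s₀ s s₁ x₀ y₀ lam : ℝ) (u v : ℂ → ℝ) : Prop where
  fam : SlitFam p τ ℓ ε R R
  collar : Collar H Ψ s₀ s s₁
  ball : H ⊆ closedBall 0 R
  disj : Disjoint H (SF p τ ℓ)
  off : ∀ ξ : ℂ, s₀ < ξ.re → ξ.re < s₁ → Ψ ξ ∉ SF p τ ℓ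
  niceu : ∀ r, Nice (H ∪ SF p τ ℓ)ᶜ (closedBall 0 r) u
  nicev : ∀ r, Nice (H ∪ SF p τ ℓ)ᶜ (closedBall 0 r) v
  supp : ∀ z ∈ (H ∪ SF p τ ℓ)ᶜ, R < ‖z‖ → u z = 0 ∧ v z = 0
  bdd : ∀ z ∈ (H ∪ SF p τ ℓ)ᶜ, |u z| ≤ M ∧ |v z| ≤ M
  enu : ∫ z in (H ∪ SF p τ ℓ)ᶜ, ‖fderiv ℝ u z‖ ^ 2 ≤ M ^ 2
  env : ∫ z in (H ∪ SF p τ ℓ)ᶜ, ‖fderiv ℝ v z‖ ^ 2 ≤ M ^ 2
  smv : ∫ z in (H ∪ SF p τ ℓ)ᶜ, dX v z ^ 2 ≤ δ ^ 2
  compat : ∀ j, ∃ κ : ℝ, Tendsto (fun z => (z.im - y₀ + v z) - τ j * (z.re + u z))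
    (nearIn (H ∪ SF p τ ℓ)ᶜ (slit (p j) (τ j) (ℓ j))) (𝓝 κ)
  eqU : ∀ ξ : ℂ, s < ξ.re → ξ.re < s₁ →
    (Ψ ξ).re + u (Ψ ξ) = x₀ + lam * Real.cosh ξ.re * Real.cos ξ.im
  eqV : ∀ ξ : ℂ, s < ξ.re → ξ.re < s₁ →
    (Ψ ξ).im - y₀ + v (Ψ ξ) = lam * Real.sinh ξ.re * Real.sin ξ.im
  hy₀ : |y₀| ≤ R
  hx₀ : |x₀| ≤ M
  hs : 0 ≤ s
  hlam : 0 ≤ lam
  hcosh : lam * Real.cosh s ≤ M
  hsinh : lam * Real.sinh s ≤ δ

/-! ### Preparations -/

private theorem b4_le2 {f : ℂ → ℝ} (h : ContDiff ℝ (⊤ : ℕ∞) f) : ContDiff ℝ 2 f :=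
  h.of_le (by norm_cast)

private theorem b4_niceD {D D' T : Set ℂ} {a : ℂ → ℝ} (h : Nice D' T a) (hD : D ⊆ D') :
    Nice D T a where
  smooth := h.smooth.mono hD
  bdd := by
    obtain ⟨M, hM⟩ := h.bdd
    exact ⟨M, fun z hz => hM z ⟨hD hz.1, hz.2⟩⟩
  l2 := h.l2.mono_set (inter_subset_inter_left _ hD)

private theorem b4_nice_compact {D T : Set ℂ} {a : ℂ → ℝ} (h : ∀ r, Nice D (closedBall 0 r) a)
    (hT : IsCompact T) : Nice D T a := by
  obtain ⟨r, hr⟩ := hT.isBounded.subset_closedBall 0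
  exact (h r).mono hr

private theorem b4_nice_mul {D : Set ℂ} (hD : IsOpen D) {φ a : ℂ → ℝ}
    (hφ : ContDiff ℝ (⊤ : ℕ∞) φ) (h : ∀ r, Nice D (closedBall 0 r) a) :
    ∀ r, Nice D (closedBall 0 r) (fun w => φ w * a w) := fun r =>
  (Nice.of_contDiff hD subset_rfl (b4_le2 hφ)).mul hD (h r)

private theorem b4_zero_near {φ : ℂ → ℝ} {z : ℂ} (hz : z ∉ tsupport φ) (a : ℂ → ℝ) :
    ∀ᶠ w in 𝓝 z, φ w * a w = 0 := by
  have h := notMem_tsupport_iff_eventuallyEq.1 hz
  filter_upwards [h] with w hw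
  rw [hw]
  simp

private theorem b4_diff {D : Set ℂ} (hD : IsOpen D) {a : ℂ → ℝ}
    (ha : ∀ r, Nice D (closedBall 0 r) a) {z : ℂ} (hz : z ∈ D) : DifferentiableAt ℝ a z :=
  J4_diff hD (ha 0).smooth hz

private theorem b4_intJ {D : Set ℂ} (hD : IsOpen D) {φ a b : ℂ → ℝ}
    (hφ : ContDiff ℝ (⊤ : ℕ∞) φ) (hc : HasCompactSupport φ)
    (ha : ∀ r, Nice D (closedBall 0 r) a) (hb : ∀ r, Nice D (closedBall 0 r) b) :
    IntegrableOn (J (fun w => φ w * a w) b) D :=
  integrable_J hD hc (b4_nice_mul hD hφ ha 0).smooth (hb 0).smooth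
    (fun _ hz => Or.inl (b4_zero_near hz.2 a))
    (b4_nice_compact (b4_nice_mul hD hφ ha) hc).l2 (b4_nice_compact hb hc).l2

private theorem b4_intqJ {H D : Set ℂ} {L : ℝ} {q : ℂ → ℝ} (hq : Weight H L q) (hD : IsOpen D)
    (hDH : D ⊆ Hᶜ) {f : ℂ → ℝ} (hf : IntegrableOn f D) :
    IntegrableOn (fun z => q z * f z) D := by
  refine Integrable.mono hf ?_ ?_
  · exact ((hq.cont.mono hDH).aestronglyMeasurable hD.measurableSet).mul hf.aestronglyMeasurable
  · filter_upwards [ae_restrict_mem hD.measurableSet] with z hz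
    obtain ⟨h1, h2⟩ := hq.bd z (hDH hz)
    rw [norm_mul, Real.norm_of_nonneg h1]
    exact mul_le_of_le_one_left (norm_nonneg _) h2

private theorem b4_contdX {D : Set ℂ} (hD : IsOpen D) {b : ℂ → ℝ}
    (hb : ∀ r, Nice D (closedBall 0 r) b) : ContinuousOn (dX b) D :=
  ((hb 0).smooth.continuousOn_fderiv_of_isOpen hD (by norm_num)).clm_apply continuousOn_const

private theorem b4_intDX {D T : Set ℂ} (hD : IsOpen D) (hT : IsCompact T) {φ b : ℂ → ℝ} {M : ℝ}
    (hM0 : 0 ≤ M) (hφ : ContinuousOn φ D) (hM : ∀ z ∈ D ∩ T, |φ z| ≤ M)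
    (h0 : ∀ z ∈ D \ T, φ z = 0) (hb : ∀ r, Nice D (closedBall 0 r) b) :
    IntegrableOn (fun z => |φ z| * |dX b z|) D := by
  have hTm : MeasurableSet T := hT.isClosed.measurableSet
  have h1 : IntegrableOn (fun z => |φ z| * |dX b z|) (D ∩ T) := by
    have h2 := (b4_nice_compact hb hT).l2
    have h3 : IntegrableOn (fun z => M * (1 + ‖fderiv ℝ b z‖ ^ 2)) (D ∩ T) := by
      refine Integrable.const_mul (Integrable.add ?_ h2) M
      exact integrableOn_const
        (ne_of_lt (lt_of_le_of_lt (measure_mono inter_subset_right) hT.measure_lt_top))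
    refine Integrable.mono' h3 ?_ ?_
    · have h4 : ContinuousOn (fun z => |φ z| * |dX b z|) D := hφ.abs.mul (b4_contdX hD hb).abs
      exact (h4.mono inter_subset_left).aestronglyMeasurable (hD.measurableSet.inter hTm)
    · filter_upwards [ae_restrict_mem (hD.measurableSet.inter hTm)] with z hz
      rw [Real.norm_of_nonneg (by positivity)]
      have h5 : |dX b z| ≤ 1 + ‖fderiv ℝ b z‖ ^ 2 := by
        have := abs_dX_le b z
        nlinarith [sq_nonneg (‖fderiv ℝ b z‖ - 1), norm_nonneg (fderiv ℝ b z)]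
      exact mul_le_mul (hM z hz) h5 (abs_nonneg _) hM0
  refine h1.of_forall_diff_eq_zero hD.measurableSet ?_
  intro z hz
  rw [h0 z ⟨hz.1, fun hzT => hz.2 ⟨hz.1, hzT⟩⟩]
  simp

private theorem b4_intW {D : Set ℂ} (hD : IsOpen D) {φ b : ℂ → ℝ} (hφ : Continuous φ)
    (hc : HasCompactSupport φ) (h01 : ∀ z, 0 ≤ φ z ∧ φ z ≤ 1)
    (hb : ∀ r, Nice D (closedBall 0 r) b) :
    IntegrableOn (fun z => φ z * |dX b z|) D := by
  have h := b4_intDX hD (T := tsupport φ) hc (φ := φ) (M := 1) zero_le_one hφ.continuousOn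
    (fun z _ => by rw [abs_of_nonneg (h01 z).1]; exact (h01 z).2)
    (fun z hz => image_eq_zero_of_notMem_tsupport hz.2) hb
  refine h.congr_fun (fun z _ => ?_) hD.measurableSet
  change |φ z| * |dX b z| = φ z * |dX b z|
  rw [abs_of_nonneg (h01 z).1]

private theorem b4_J_sum {κ : Type} (s : Finset κ) {f : κ → ℂ → ℝ} (g : ℂ → ℝ) {z : ℂ}
    (hf : ∀ i, DifferentiableAt ℝ (f i) z) :
    J (fun w => ∑ i ∈ s, f i w) g z = ∑ i ∈ s, J (f i) g z := by
  classical
  induction s using Finset.induction_on with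
  | empty =>
    simp only [Finset.sum_empty]
    exact J_const_left 0 g z
  | insert i s hi ih =>
    simp only [Finset.sum_insert hi]
    rw [J_add_left (hf i) (DifferentiableAt.fun_sum fun k _ => hf k), ih]

private theorem b4_slit_convex (p : ℂ) (τ ℓ : ℝ) : Convex ℝ (slit p τ ℓ) := by
  have h1 : slit p τ ℓ =
      (fun z : ℂ => p + z) '' ((LinearMap.toSpanSingleton ℝ ℂ (1 + τ * I)) '' Icc 0 ℓ) := by
    unfold slit
    rw [image_image]
    refine image_congr' fun t => ?_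
    simp only [LinearMap.toSpanSingleton_apply, Complex.real_smul]
  rw [h1]
  exact ((convex_Icc 0 ℓ).linear_image _).translate p

private theorem b4_cuts {ι : Type} {p : ι → ℂ} {τ ℓ : ι → ℝ} {ε R R' : ℝ}
    (h : SlitFam p τ ℓ ε R R') {O : Set ℂ} (hO : IsOpen O) (hSO : SF p τ ℓ ⊆ O) :
    ∃ (W : ι → Set ℂ) (X : ι → ℂ → ℝ), (∀ j, IsOpen (W j)) ∧ (∀ j, Convex ℝ (W j)) ∧
      (∀ j, slit (p j) (τ j) (ℓ j) ⊆ W j) ∧ (∀ j, W j ⊆ O) ∧
      (∀ i j, i ≠ j → Disjoint (W i) (W j)) ∧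
      (∀ j, ContDiff ℝ (⊤ : ℕ∞) (X j)) ∧ (∀ j, HasCompactSupport (X j)) ∧
      (∀ j, tsupport (X j) ⊆ W j) ∧ (∀ j z, 0 ≤ X j z ∧ X j z ≤ 1) ∧
      ∀ j, ∀ᶠ z in 𝓝ˢ (slit (p j) (τ j) (ℓ j)), X j z = 1 := by
  have hfin := h.fin
  have e1 : ∀ᶠ r : ℝ in 𝓝[>] 0, ∀ j, thickening r (slit (p j) (τ j) (ℓ j)) ⊆ O := by
    rw [Filter.eventually_all]
    intro j
    obtain ⟨δ, hδ, h1⟩ := (isCompact_slit (p j) (τ j) (ℓ j)).exists_thickening_subset_open hO
      (fun z hz => hSO (mem_iUnion.2 ⟨j, hz⟩))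
    filter_upwards [Ioo_mem_nhdsGT hδ] with r hr
    exact (thickening_mono hr.2.le _).trans h1
  have e2 : ∀ᶠ r : ℝ in 𝓝[>] 0, ∀ i j, i ≠ j →
      Disjoint (thickening r (slit (p i) (τ i) (ℓ i))) (thickening r (slit (p j) (τ j) (ℓ j))) := by
    rw [Filter.eventually_all]
    intro i
    rw [Filter.eventually_all]
    intro j
    by_cases hij : i = j
    · exact Filter.Eventually.of_forall fun r h => absurd hij h
    obtain ⟨δ, hδ, h1⟩ := (h.disj i j hij).exists_thickenings (isCompact_slit (p i) (τ i) (ℓ i))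
      (isCompact_slit (p j) (τ j) (ℓ j)).isClosed
    filter_upwards [Ioo_mem_nhdsGT hδ] with r hr _
    exact h1.mono (thickening_mono hr.2.le _) (thickening_mono hr.2.le _)
  have e3 : ∀ᶠ r : ℝ in 𝓝[>] 0, (0 : ℝ) < r := self_mem_nhdsWithin
  obtain ⟨r, h1, h2, h3⟩ := (e1.and (e2.and e3)).exists
  have hX : ∀ j, ∃ X : ℂ → ℝ, ContDiff ℝ (⊤ : ℕ∞) X ∧ HasCompactSupport X ∧
      tsupport X ⊆ thickening r (slit (p j) (τ j) (ℓ j)) ∧
      (∀ z, 0 ≤ X z ∧ X z ≤ 1) ∧ ∀ᶠ z in 𝓝ˢ (slit (p j) (τ j) (ℓ j)), X z = 1 := fun j =>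
    exists_cut (isCompact_slit _ _ _) isOpen_thickening (self_subset_thickening h3 _)
  choose X x1 x2 x3 x4 x5 using hX
  exact ⟨fun j => thickening r (slit (p j) (τ j) (ℓ j)), X, fun j => isOpen_thickening,
    fun j => (b4_slit_convex _ _ _).thickening r, fun j => self_subset_thickening h3 _, h1, h2,
    x1, x2, x3, x4, x5⟩

private theorem b4_neBot {ι : Type} {p : ι → ℂ} {τ ℓ : ι → ℝ} {ε R R' : ℝ}
    (h : SlitFam p τ ℓ ε R R') (j : ι) {D W : Set ℂ} (hW : IsOpen W)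
    (hSW : slit (p j) (τ j) (ℓ j) ⊆ W) (hWD : W \ slit (p j) (τ j) (ℓ j) ⊆ D) :
    (nearIn D (slit (p j) (τ j) (ℓ j))).NeBot := by
  unfold nearIn
  rw [inf_principal_neBot_iff]
  intro U hU
  obtain ⟨O, hO, h1, h2⟩ := mem_nhdsSet_iff_exists.1 hU
  have hp : p j ∈ slit (p j) (τ j) (ℓ j) := ⟨0, ⟨le_rfl, (h.pos j).le⟩, by simp⟩
  have h3 : 0 < volume (O ∩ W) := (hO.inter hW).measure_pos volume ⟨p j, h1 hp, hSW hp⟩
  have h4 : volume ((O ∩ W) \ slit (p j) (τ j) (ℓ j)) ≠ 0 := by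
    rw [measure_sdiff_null (volume_slit _ _ _)]
    exact h3.ne'
  obtain ⟨z, hz⟩ := nonempty_of_measure_ne_zero h4
  exact ⟨z, h2 hz.1.1, hWD ⟨hz.1.2, hz.2⟩⟩

/-! ### One slit -/

private theorem b4_one {ι : Type} {p : ι → ℂ} {τ ℓ : ι → ℝ} {ε R R' N L κ b : ℝ}
    {H W : Set ℂ} {U V A B q X : ℂ → ℝ}
    (h : SlitFam p τ ℓ ε R R') (hε1 : ε ≤ 1) (hN : 0 ≤ N) (hq : Weight H L q)
    (hU : ∀ r, Nice (H ∪ SF p τ ℓ)ᶜ (closedBall 0 r) U)
    (hV : ∀ r, Nice (H ∪ SF p τ ℓ)ᶜ (closedBall 0 r) V)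
    (hA : ∀ r, Nice (SF p τ ℓ)ᶜ (closedBall 0 r) A)
    (hB : ∀ r, Nice (SF p τ ℓ)ᶜ (closedBall 0 r) B) (hmono : MonoY (SF p τ ℓ) A) (j : ι)
    (hWo : IsOpen W) (hWc : Convex ℝ W) (hWH : W ⊆ Hᶜ)
    (hSW : slit (p j) (τ j) (ℓ j) ⊆ W)
    (hWi : ∀ i, i ≠ j → Disjoint (slit (p i) (τ i) (ℓ i)) W)
    (hUb : ∀ z ∈ (H ∪ SF p τ ℓ)ᶜ ∩ W, |U z| ≤ N) (hVb : ∀ z ∈ (H ∪ SF p τ ℓ)ᶜ ∩ W, |V z| ≤ N)
    (hX : ContDiff ℝ (⊤ : ℕ∞) X) (hXc : HasCompactSupport X) (hXW : tsupport X ⊆ W)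
    (hX01 : ∀ z, 0 ≤ X z ∧ X z ≤ 1) (hX1 : ∀ᶠ z in 𝓝ˢ (slit (p j) (τ j) (ℓ j)), X z = 1)
    (hκ : Tendsto (fun z => V z - τ j * U z)
      (nearIn (H ∪ SF p τ ℓ)ᶜ (slit (p j) (τ j) (ℓ j))) (𝓝 κ))
    (hb : Tendsto (fun z => B z - τ j * A z)
      (nearIn (SF p τ ℓ)ᶜ (slit (p j) (τ j) (ℓ j))) (𝓝 b)) :
    |∫ z in (H ∪ SF p τ ℓ)ᶜ, q z * (J (fun w => X w * U w) B z - J (fun w => X w * V w) A z)| ≤
      10 * N * L * ((∫ z in (H ∪ SF p τ ℓ)ᶜ, X z * |dX A z|) +
        ∫ z in (H ∪ SF p τ ℓ)ᶜ, X z * |dX B z|) + 2 * N * L * ε * jump (SF p τ ℓ) A X := by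
  set D : Set ℂ := (H ∪ SF p τ ℓ)ᶜ with hDdef
  have hL := hq.posL
  have hD : IsOpen D := (hq.closedH.union h.isCompact.isClosed).isOpen_compl
  have hDH : D ⊆ Hᶜ := compl_subset_compl.2 subset_union_left
  have hDS : D ⊆ (SF p τ ℓ)ᶜ := compl_subset_compl.2 subset_union_right
  have hWD : W \ slit (p j) (τ j) (ℓ j) ⊆ D := by
    intro z hz hz'
    rcases hz' with hz' | hz'
    · exact hWH hz.1 hz'
    · obtain ⟨i, hi⟩ := mem_iUnion.1 hz'
      by_cases hij : i = j
      · subst hij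
        exact hz.2 hi
      · exact disjoint_left.1 (hWi i hij) hi hz.1
  have hSD : slit (p j) (τ j) (ℓ j) ⊆ SF p τ ℓ := fun z hz => mem_iUnion.2 ⟨j, hz⟩
  have hdisj : Disjoint D (slit (p j) (τ j) (ℓ j)) := by
    rw [disjoint_left]
    exact fun z hz hz' => hDS hz (hSD hz')
  have hTD : tsupport X ⊆ D ∪ slit (p j) (τ j) (ℓ j) := by
    intro z hz
    by_cases hzS : z ∈ slit (p j) (τ j) (ℓ j)
    · exact Or.inr hzS
    · exact Or.inl (hWD ⟨hXW hz, hzS⟩)
  have hA' : ∀ r, Nice D (closedBall 0 r) A := fun r => b4_niceD (hA r) hDS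
  have hB' : ∀ r, Nice D (closedBall 0 r) B := fun r => b4_niceD (hB r) hDS
  have hne := b4_neBot h j hWo hSW hWD
  have hτ := h.slope j
  have hτ1 : |τ j| ≤ 1 := hτ.trans hε1
  -- the functions
  have hb1 : ∀ r, Nice D (closedBall 0 r) (fun z => B z - τ j * A z) := fun r =>
    (hB' r).sub hD ((hA' r).const_mul hD (τ j))
  have hn1 : ∀ r, Nice D (closedBall 0 r) (fun z => (V z - τ j * U z) - κ) := fun r =>
    ((hV r).sub hD ((hU r).const_mul hD (τ j))).sub hD (Nice.const hD subset_rfl κ)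
  have hnb : ∀ z ∈ D ∩ W, |V z - τ j * U z| ≤ 2 * N := by
    intro z hz
    have h1 := hUb z hz
    have h2 := hVb z hz
    have h3 : |τ j * U z| ≤ N := by
      rw [abs_mul]
      calc |τ j| * |U z| ≤ 1 * N := mul_le_mul hτ1 h1 (abs_nonneg _) zero_le_one
        _ = N := one_mul N
    calc |V z - τ j * U z| ≤ |V z| + |τ j * U z| := abs_sub _ _
      _ ≤ 2 * N := by linarith
  have hκb : |κ| ≤ 2 * N := by
    refine le_of_tendsto hκ.abs ?_
    rw [eventually_nearIn]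
    exact ⟨W, hWo, hSW, fun z hz => hnb z ⟨hz.2, hz.1⟩⟩
  have hnkb : ∀ z ∈ D ∩ W, |V z - τ j * U z - κ| ≤ 4 * N := by
    intro z hz
    calc |V z - τ j * U z - κ| ≤ |V z - τ j * U z| + |κ| := abs_sub _ _
      _ ≤ 4 * N := by linarith [hnb z hz]
  -- integrability
  have iA := b4_intW hD hX.continuous hXc hX01 hA'
  have iB := b4_intW hD hX.continuous hXc hX01 hB'
  have IA0 : 0 ≤ ∫ z in D, X z * |dX A z| :=
    setIntegral_nonneg hD.measurableSet fun z _ => mul_nonneg (hX01 z).1 (abs_nonneg _)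
  have IB0 : 0 ≤ ∫ z in D, X z * |dX B z| :=
    setIntegral_nonneg hD.measurableSet fun z _ => mul_nonneg (hX01 z).1 (abs_nonneg _)
  have t1 := b4_intJ hD hX hXc hU hb1
  have t2 := b4_intJ hD hX hXc hn1 hA'
  have t3 : IntegrableOn (J X A) D := by
    have h1 := b4_intJ hD hX hXc (fun r => Nice.const hD subset_rfl 1) hA'
    have h2 : (fun w => X w * (1 : ℝ)) = X := by
      funext w
      rw [mul_one]
    rw [h2] at h1
    exact h1
  -- first term
  have c1 : |∫ z in D, q z * J (fun w => X w * U w) (fun z => B z - τ j * A z) z| ≤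
      4 * L * (N * ((∫ z in D, X z * |dX B z|) + ∫ z in D, X z * |dX A z|)) := by
    have hbd : ∀ z ∈ D, |X z * U z| ≤ N * X z := by
      intro z hz
      by_cases hzT : z ∈ tsupport X
      · rw [abs_mul, abs_of_nonneg (hX01 z).1, mul_comm]
        exact mul_le_mul_of_nonneg_right (hUb z ⟨hz, hXW hzT⟩) (hX01 z).1
      · rw [image_eq_zero_of_notMem_tsupport hzT]
        simp
    have i1 : IntegrableOn (fun z => |X z * U z| * |dX (fun z => B z - τ j * A z) z|) D := by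
      refine b4_intDX hD (T := tsupport X) hXc (M := N) hN
        (hX.continuous.continuousOn.mul (hU 0).smooth.continuousOn) ?_ ?_ hb1
      · intro z hz
        refine (hbd z hz.1).trans ?_
        calc N * X z ≤ N * 1 := mul_le_mul_of_nonneg_left (hX01 z).2 hN
          _ = N := mul_one N
      · intro z hz
        rw [image_eq_zero_of_notMem_tsupport hz.2, zero_mul]
    have h1 := hq.J_right hD hDH (isCompact_slit (p j) (τ j) (ℓ j)) hdisj hXc hTD
      (b4_nice_mul hD hX hU 0).smooth (hb1 0).smooth (fun z hz => b4_zero_near hz.2 U)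
      (b4_nice_compact (b4_nice_mul hD hX hU) hXc).l2 (b4_nice_compact hb1 hXc).l2 i1
      (hb.mono_left (nearIn_mono hDS subset_rfl))
    refine h1.trans (mul_le_mul_of_nonneg_left ?_ (by positivity))
    rw [← integral_add iB iA, ← integral_const_mul]
    refine setIntegral_mono_on i1 ((iB.add iA).const_mul N) hD.measurableSet ?_
    intro z hz
    have h2 : dX (fun z => B z - τ j * A z) z = dX B z - τ j * dX A z := by
      rw [dX_sub (b4_diff hD hB' hz) ((b4_diff hD hA' hz).const_mul _),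
        dX_const_mul _ (b4_diff hD hA' hz)]
    have h3 : |dX (fun z => B z - τ j * A z) z| ≤ |dX B z| + |dX A z| := by
      rw [h2]
      refine (abs_sub _ _).trans ?_
      rw [abs_mul]
      have := mul_le_of_le_one_left (abs_nonneg (dX A z)) hτ1
      linarith
    calc |X z * U z| * |dX (fun z => B z - τ j * A z) z|
        ≤ (N * X z) * (|dX B z| + |dX A z|) :=
          mul_le_mul (hbd z hz) h3 (abs_nonneg _) (mul_nonneg hN (hX01 z).1)
      _ = N * (X z * |dX B z| + X z * |dX A z|) := by ring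
  -- second term
  have c2 : |∫ z in D, q z * J (fun w => X w * (V w - τ j * U w - κ)) A z| ≤
      L * (4 * N * ∫ z in D, X z * |dX A z|) := by
    have hbd : ∀ z ∈ D, |X z * (V z - τ j * U z - κ)| ≤ 4 * N * X z := by
      intro z hz
      by_cases hzT : z ∈ tsupport X
      · rw [abs_mul, abs_of_nonneg (hX01 z).1, mul_comm]
        exact mul_le_mul_of_nonneg_right (hnkb z ⟨hz, hXW hzT⟩) (hX01 z).1
      · rw [image_eq_zero_of_notMem_tsupport hzT]
        simp
    have i1 : IntegrableOn (fun z => |X z * (V z - τ j * U z - κ)| * |dX A z|) D := by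
      refine b4_intDX hD (T := tsupport X) hXc (M := 4 * N) (by positivity)
        (hX.continuous.continuousOn.mul (hn1 0).smooth.continuousOn) ?_ ?_ hA'
      · intro z hz
        refine (hbd z hz.1).trans ?_
        calc 4 * N * X z ≤ 4 * N * 1 := mul_le_mul_of_nonneg_left (hX01 z).2 (by positivity)
          _ = 4 * N := mul_one _
      · intro z hz
        rw [image_eq_zero_of_notMem_tsupport hz.2, zero_mul]
    have hlim : Tendsto (fun z => X z * (V z - τ j * U z - κ))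
        (nearIn D (slit (p j) (τ j) (ℓ j))) (𝓝 0) := by
      have h1 : Tendsto (fun z => V z - τ j * U z - κ)
          (nearIn D (slit (p j) (τ j) (ℓ j))) (𝓝 0) := by
        have := hκ.sub_const κ
        rwa [sub_self] at this
      refine h1.congr' ?_
      have h2 : ∀ᶠ z in nearIn D (slit (p j) (τ j) (ℓ j)), X z = 1 :=
        hX1.filter_mono inf_le_left
      filter_upwards [h2] with z hz
      rw [hz, one_mul]
    have h1 := hq.J_left hD hDH (isCompact_slit (p j) (τ j) (ℓ j)) hdisj hXc hTD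
      (b4_nice_mul hD hX hn1 0).smooth (hA' 0).smooth
      (fun z hz => Or.inl (b4_zero_near hz.2 _))
      (b4_nice_compact (b4_nice_mul hD hX hn1) hXc).l2 (b4_nice_compact hA' hXc).l2 i1 hlim
    refine h1.trans (mul_le_mul_of_nonneg_left ?_ hL)
    rw [← integral_const_mul]
    refine setIntegral_mono_on i1 (iA.const_mul (4 * N)) hD.measurableSet ?_
    intro z hz
    calc |X z * (V z - τ j * U z - κ)| * |dX A z| ≤ (4 * N * X z) * |dX A z| :=
          mul_le_mul_of_nonneg_right (hbd z hz) (abs_nonneg _)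
      _ = 4 * N * (X z * |dX A z|) := by ring
  -- third term
  have hJ0 : ∀ z ∉ tsupport X, J X A z = 0 := fun z hz =>
    J2_eq_zero (Or.inl (notMem_tsupport_iff_eventuallyEq.1 hz))
  have hoff : ∀ z ∈ (SF p τ ℓ)ᶜ \ D, z ∉ tsupport X := by
    intro z hz hzT
    have h1 : z ∈ H ∪ SF p τ ℓ := by
      by_contra h2
      exact hz.2 h2
    rcases h1 with h1 | h1
    · exact hWH (hXW hzT) h1
    · exact hz.1 h1
  have c3 : |∫ z in D, q z * J X A z| ≤
      L * (∫ z in D, X z * |dX A z|) + |τ j| * L * jump (SF p τ ℓ) A X := by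
    have h1 := slit_flux h hA hmono hq hWc hWH hX hXc hXW hX01 j hX1 (fun i hi => by
      have h2 : (tsupport X)ᶜ ∈ 𝓝ˢ (slit (p i) (τ i) (ℓ i)) := by
        rw [(isClosed_tsupport X).isOpen_compl.mem_nhdsSet]
        intro z hz hz'
        exact disjoint_left.1 (hWi i hi) hz (hXW hz')
      filter_upwards [h2] with z hz
      exact image_eq_zero_of_notMem_tsupport hz)
    have e1 : ∫ z in (SF p τ ℓ)ᶜ, q z * J X A z = ∫ z in D, q z * J X A z := by
      refine setIntegral_eq_of_subset_of_forall_sdiff_eq_zero h.isOpen_compl.measurableSet hDS ?_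
      intro z hz
      rw [hJ0 z (hoff z hz), mul_zero]
    have e2 : ∫ z in (SF p τ ℓ)ᶜ, X z * |dX A z| = ∫ z in D, X z * |dX A z| := by
      refine setIntegral_eq_of_subset_of_forall_sdiff_eq_zero h.isOpen_compl.measurableSet hDS ?_
      intro z hz
      rw [image_eq_zero_of_notMem_tsupport (hoff z hz), zero_mul]
    rw [e1, e2] at h1
    exact h1
  -- the sum
  have hpt : ∀ z ∈ D, q z * (J (fun w => X w * U w) B z - J (fun w => X w * V w) A z) =
      q z * J (fun w => X w * U w) (fun z => B z - τ j * A z) z -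
        q z * J (fun w => X w * (V w - τ j * U w - κ)) A z - κ * (q z * J X A z) := by
    intro z hz
    have dU := b4_diff hD hU hz
    have dV := b4_diff hD hV hz
    have dA := b4_diff hD hA' hz
    have dB := b4_diff hD hB' hz
    have dXX : DifferentiableAt ℝ X z := (hX.differentiable (by norm_cast)).differentiableAt
    have h1 : J (fun w => X w * U w) (fun z => B z - τ j * A z) z =
        J (fun w => X w * U w) B z - τ j * J (fun w => X w * U w) A z := by
      rw [J_sub_right dB (dA.const_mul _), J_const_mul_right _ dA]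
    have h2 : (fun w => X w * (V w - τ j * U w - κ)) =
        fun w => (X w * V w - τ j * (X w * U w)) - κ * X w := by
      funext w
      ring
    have h3 : J (fun w => X w * (V w - τ j * U w - κ)) A z =
        J (fun w => X w * V w) A z - τ j * J (fun w => X w * U w) A z - κ * J X A z := by
      have d1 : DifferentiableAt ℝ (fun w => X w * V w) z := dXX.mul dV
      have d2 : DifferentiableAt ℝ (fun w => X w * U w) z := dXX.mul dU
      have d3 : DifferentiableAt ℝ (fun w => τ j * (X w * U w)) z := d2.const_mul _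
      have d4 : DifferentiableAt ℝ (fun w => X w * V w - τ j * (X w * U w)) z := d1.sub d3
      have d5 : DifferentiableAt ℝ (fun w => κ * X w) z := dXX.const_mul _
      rw [h2, J_sub_left d4 d5, J_sub_left d1 d3, J_const_mul_left _ d2, J_const_mul_left _ dXX]
    rw [h1, h3]
    ring
  have q1 := b4_intqJ hq hD hDH t1
  have q2 := b4_intqJ hq hD hDH t2
  have q3 := b4_intqJ hq hD hDH t3
  have q12 : IntegrableOn (fun z => q z * J (fun w => X w * U w) (fun z => B z - τ j * A z) z -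
      q z * J (fun w => X w * (V w - τ j * U w - κ)) A z) D := q1.sub q2
  have q4 : IntegrableOn (fun z => κ * (q z * J X A z)) D := q3.const_mul κ
  rw [setIntegral_congr_fun hD.measurableSet hpt, integral_sub q12 q4, integral_sub q1 q2,
    integral_const_mul]
  set IA := ∫ z in D, X z * |dX A z|
  set IB := ∫ z in D, X z * |dX B z|
  have hj0 : 0 ≤ jump (SF p τ ℓ) A X := jump_nonneg h hA hmono hX hXc fun z => (hX01 z).1
  have c4 : |κ * ∫ z in D, q z * J X A z| ≤ 2 * N * (L * IA + ε * L * jump (SF p τ ℓ) A X) := by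
    rw [abs_mul]
    refine mul_le_mul hκb (c3.trans ?_) (abs_nonneg _) (by positivity)
    have : |τ j| * L * jump (SF p τ ℓ) A X ≤ ε * L * jump (SF p τ ℓ) A X :=
      mul_le_mul_of_nonneg_right (mul_le_mul_of_nonneg_right hτ hL) hj0
    linarith
  refine (abs_sub _ _).trans ?_
  refine (add_le_add ((abs_sub _ _).trans (add_le_add c1 c2)) c4).trans ?_
  have hNL : 0 ≤ N * L := mul_nonneg hN hL
  nlinarith [mul_nonneg hNL IB0]

/-! ### The statement -/

theorem slits_small {ι : Type} {p : ι → ℂ} {τ ℓ : ι → ℝ} {ε R M δ C η L : ℝ} {H : Set ℂ}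
    {Ψ : ℂ → ℂ} {s₀ s s₁ x₀ y₀ lam : ℝ} {u v A B q : ℂ → ℝ} (hR : 0 < R) (hM : 0 < M)
    (hε : 0 < ε) (hε1 : ε ≤ 1)
    (hd : StepBData p τ ℓ ε R M δ H Ψ s₀ s s₁ x₀ y₀ lam u v)
    (hAB : TestPair p τ ℓ ε R C η A B) (hq : Weight H L q) {ω φ₀ : ℂ → ℝ}
    (hω : ContDiff ℝ (⊤ : ℕ∞) ω) (hωc : HasCompactSupport ω) (hω01 : ∀ z, 0 ≤ ω z ∧ ω z ≤ 1)
    (hωs : tsupport ω ⊆ box R \ H) (hω1 : ∀ᶠ z in 𝓝ˢ (SF p τ ℓ), ω z = 1)
    (hφ : ContDiff ℝ (⊤ : ℕ∞) φ₀) (hφc : HasCompactSupport φ₀) (hφ0 : ∀ z, 0 ≤ φ₀ z)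
    (hφ1 : ∀ᶠ z in 𝓝ˢ (SF p τ ℓ), φ₀ z = 1) :
    |∫ z in (H ∪ SF p τ ℓ)ᶜ, q z * (J (fun w => ω w * (w.re + u w)) B z -
        J (fun w => ω w * (w.im - y₀ + v w)) A z)| ≤
      20 * (3 * R + M) * L * ((∫ z in box R \ SF p τ ℓ, (|dX A z| + |dX B z|)) +
        ε * jump (SF p τ ℓ) A φ₀) := by
  classical
  have hfin := hd.fam.fin
  have := Fintype.ofFinite ι
  set D : Set ℂ := (H ∪ SF p τ ℓ)ᶜ with hDdef
  have hL := hq.posL
  have hD : IsOpen D := (hq.closedH.union hd.fam.isCompact.isClosed).isOpen_compl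
  have hDH : D ⊆ Hᶜ := compl_subset_compl.2 subset_union_left
  have hDS : D ⊆ (SF p τ ℓ)ᶜ := compl_subset_compl.2 subset_union_right
  -- the open set where both functions are `1`
  obtain ⟨O, hO, hSO, hO1⟩ := mem_nhdsSet_iff_exists.1 (hω1.and hφ1)
  have hOω : ∀ z ∈ O, ω z = 1 := fun z hz => (hO1 hz).1
  have hOφ : ∀ z ∈ O, φ₀ z = 1 := fun z hz => (hO1 hz).2
  have hOb : O ⊆ box R \ H := fun z hz => hωs (subset_tsupport _ (by
    rw [Function.mem_support, hOω z hz]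
    exact one_ne_zero))
  obtain ⟨W, X, hWo, hWc, hSW, hWO, hWd, hX, hXc, hXW, hX01, hX1⟩ := b4_cuts hd.fam hO hSO
  have hWH : ∀ j, W j ⊆ Hᶜ := fun j z hz => (hOb (hWO j hz)).2
  have hWi : ∀ j i, i ≠ j → Disjoint (slit (p i) (τ i) (ℓ i)) (W j) := fun j i hi =>
    (hWd i j hi).mono_left (hSW i)
  have hXz : ∀ j z, z ∉ W j → X j z = 0 := fun j z hz =>
    image_eq_zero_of_notMem_tsupport fun h => hz (hXW j h)
  -- the sum of the cut-off functions
  have hsum : ∀ z, (∑ j, X j z = 0) ∨ (z ∈ O ∧ 0 ≤ ∑ j, X j z ∧ ∑ j, X j z ≤ 1) := by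
    intro z
    by_cases hz : ∃ k, z ∈ W k
    · obtain ⟨k, hk⟩ := hz
      right
      have h1 : ∑ j, X j z = X k z := by
        refine Finset.sum_eq_single k (fun i _ hi => ?_) (fun h => absurd (Finset.mem_univ k) h)
        exact hXz i z fun h => disjoint_left.1 (hWd i k hi) h hk
      rw [h1]
      exact ⟨hWO k hk, hX01 k z⟩
    · left
      push Not at hz
      exact Finset.sum_eq_zero fun j _ => hXz j z (hz j)
  have hsum0 : ∀ z, 0 ≤ ∑ j, X j z := fun z => Finset.sum_nonneg fun j _ => (hX01 j z).1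
  have hsumω : ∀ z, ∑ j, X j z ≤ ω z := by
    intro z
    rcases hsum z with h | ⟨h1, h2, h3⟩
    · rw [h]
      exact (hω01 z).1
    · rw [hOω z h1]
      exact h3
  have hsumφ : ∀ z, ∑ j, X j z ≤ φ₀ z := by
    intro z
    rcases hsum z with h | ⟨h1, h2, h3⟩
    · rw [h]
      exact hφ0 z
    · rw [hOφ z h1]
      exact h3
  obtain ⟨s1, s2⟩ := sum_smooth hX hXc Finset.univ
  -- the function `Z`
  set Z : ℂ → ℝ := fun z => ω z - ∑ j, X j z with hZdef
  have hZs : ContDiff ℝ (⊤ : ℕ∞) Z := hω.sub s1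
  have hZ01 : ∀ z, 0 ≤ Z z ∧ Z z ≤ 1 := fun z =>
    ⟨sub_nonneg.2 (hsumω z), by
      have h1 := (hω01 z).2
      have h2 := hsum0 z
      change ω z - ∑ j, X j z ≤ 1
      linarith⟩
  have hZt : tsupport Z ⊆ tsupport ω := by
    refine closure_minimal ?_ (isClosed_tsupport _)
    intro z hz
    by_contra h1
    have h2 := image_eq_zero_of_notMem_tsupport h1
    have h3 := hsumω z
    have h4 := hsum0 z
    apply hz
    change ω z - ∑ j, X j z = 0
    linarith
  have hZc : HasCompactSupport Z := hωc.of_isClosed_subset (isClosed_tsupport _) hZt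
  have hZ0 : ∀ᶠ z in 𝓝ˢ (SF p τ ℓ), Z z = 0 := by
    unfold SF
    rw [nhdsSet_iUnion]
    refine Filter.eventually_iSup.2 fun k => ?_
    have h1 : W k ∈ 𝓝ˢ (slit (p k) (τ k) (ℓ k)) := (hWo k).mem_nhdsSet.2 (hSW k)
    filter_upwards [h1, hX1 k] with z hz1 hz2
    change ω z - ∑ j, X j z = 0
    rw [hOω z (hWO k hz1)]
    have h2 : ∑ j, X j z = X k z := by
      refine Finset.sum_eq_single k (fun i _ hi => ?_) (fun h => absurd (Finset.mem_univ k) h)
      exact hXz i z fun h => disjoint_left.1 (hWd i k hi) h hz1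
    rw [h2, hz2, sub_self]
  have hZD : tsupport Z ⊆ D := by
    intro z hz hz'
    rcases hz' with hz' | hz'
    · exact (hωs (hZt hz)).2 hz'
    · have h1 : ∀ᶠ w in 𝓝 z, Z w = 0 := hZ0.filter_mono (nhds_le_nhdsSet hz')
      exact (notMem_tsupport_iff_eventuallyEq.2 h1) hz
  -- the functions `U`, `V`
  set U : ℂ → ℝ := fun w => w.re + u w with hUdef
  set V : ℂ → ℝ := fun w => w.im - y₀ + v w with hVdef
  have hUn : ∀ r, Nice D (closedBall 0 r) U := fun r =>
    (Nice.re hD subset_rfl).add hD (hd.niceu r)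
  have hVn : ∀ r, Nice D (closedBall 0 r) V := fun r =>
    ((Nice.im hD subset_rfl).sub hD (Nice.const hD subset_rfl y₀)).add hD (hd.nicev r)
  have hAn : ∀ r, Nice D (closedBall 0 r) A := fun r => b4_niceD (hAB.niceA r) hDS
  have hBn : ∀ r, Nice D (closedBall 0 r) B := fun r => b4_niceD (hAB.niceB r) hDS
  set N : ℝ := 3 * R + M with hNdef
  have hN : 0 ≤ N := by positivity
  have hUb : ∀ z ∈ D, z ∈ box R → |U z| ≤ N := by
    intro z hz hzb
    have h1 := (hd.bdd z hz).1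
    have h2 := hzb.1
    refine (abs_add_le _ _).trans ?_
    rw [hNdef]
    linarith
  have hVb : ∀ z ∈ D, z ∈ box R → |V z| ≤ N := by
    intro z hz hzb
    have h1 := (hd.bdd z hz).2
    have h2 := hzb.2
    have h3 := hd.hy₀
    refine (abs_add_le _ _).trans ?_
    have h4 := abs_sub z.im y₀
    rw [hNdef]
    linarith
  -- integrability of the derivatives over the box
  have hboxc : IsClosed (box R) :=
    (isClosed_le continuous_re.abs continuous_const).inter
      (isClosed_le continuous_im.abs continuous_const)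
  have hboxb : box R ⊆ closedBall 0 (4 * R) := by
    intro z hz
    rw [mem_closedBall, dist_zero_right]
    refine (Complex.norm_le_abs_re_add_abs_im z).trans ?_
    linarith [hz.1, hz.2]
  have hboxk : IsCompact (box R) := (isCompact_closedBall 0 (4 * R)).of_isClosed_subset hboxc hboxb
  have hbox : ∀ b : ℂ → ℝ, (∀ r, Nice (SF p τ ℓ)ᶜ (closedBall 0 r) b) →
      IntegrableOn (fun z => |dX b z|) (box R \ SF p τ ℓ) := by
    intro b hb
    have hSo := hd.fam.isOpen_compl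
    have h2 := (b4_nice_compact hb hboxk).l2
    have hms : MeasurableSet ((SF p τ ℓ)ᶜ ∩ box R) := hSo.measurableSet.inter hboxc.measurableSet
    have h3 : IntegrableOn (fun z => 1 + ‖fderiv ℝ b z‖ ^ 2) ((SF p τ ℓ)ᶜ ∩ box R) := by
      refine Integrable.add ?_ h2
      exact integrableOn_const
        (ne_of_lt (lt_of_le_of_lt (measure_mono inter_subset_right) hboxk.measure_lt_top))
    have h4 : IntegrableOn (fun z => |dX b z|) ((SF p τ ℓ)ᶜ ∩ box R) := by
      refine Integrable.mono' h3 ?_ ?_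
      · exact ((b4_contdX hSo hb).abs.mono inter_subset_left).aestronglyMeasurable hms
      · filter_upwards [ae_restrict_mem hms] with z hz
        rw [Real.norm_of_nonneg (abs_nonneg _)]
        have := abs_dX_le b z
        nlinarith [sq_nonneg (‖fderiv ℝ b z‖ - 1), norm_nonneg (fderiv ℝ b z)]
    refine h4.mono_set ?_
    intro z hz
    exact ⟨hz.2, hz.1⟩
  have hcmp : ∀ b : ℂ → ℝ, (∀ r, Nice (SF p τ ℓ)ᶜ (closedBall 0 r) b) →
      ∫ z in D, ω z * |dX b z| ≤ ∫ z in box R \ SF p τ ℓ, |dX b z| := by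
    intro b hb
    have hb' : ∀ r, Nice D (closedBall 0 r) b := fun r => b4_niceD (hb r) hDS
    have iω := b4_intW hD hω.continuous hωc hω01 hb'
    have h1 : ∫ z in D, ω z * |dX b z| = ∫ z in D ∩ box R, ω z * |dX b z| := by
      refine setIntegral_eq_of_subset_of_forall_sdiff_eq_zero hD.measurableSet inter_subset_left ?_
      intro z hz
      have h2 : z ∉ tsupport ω := fun h => hz.2 ⟨hz.1, (hωs h).1⟩
      rw [image_eq_zero_of_notMem_tsupport h2, zero_mul]
    have hsub : D ∩ box R ⊆ box R \ SF p τ ℓ := fun z hz => ⟨hz.2, hDS hz.1⟩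
    rw [h1]
    refine (setIntegral_mono_on (iω.mono_set inter_subset_left) ((hbox b hb).mono_set hsub)
      (hD.measurableSet.inter hboxc.measurableSet) (fun z _ => ?_)).trans
      (setIntegral_mono_set (hbox b hb) (Filter.Eventually.of_forall fun z => abs_nonneg _)
        hsub.eventuallyLE)
    exact mul_le_of_le_one_left (abs_nonneg _) (hω01 z).2
  -- decomposition of the weighted integrals
  have hdecI : ∀ b : ℂ → ℝ, (∀ r, Nice D (closedBall 0 r) b) →
      ∫ z in D, ω z * |dX b z| =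
        (∫ z in D, Z z * |dX b z|) + ∑ j, ∫ z in D, X j z * |dX b z| := by
    intro b hb
    rw [← integral_finsetSum Finset.univ
      (fun j _ => b4_intW hD (hX j).continuous (hXc j) (hX01 j) hb),
      ← integral_add (b4_intW hD hZs.continuous hZc hZ01 hb)
        (integrable_finsetSum _ fun j _ => b4_intW hD (hX j).continuous (hXc j) (hX01 j) hb)]
    refine integral_congr_ae (Filter.Eventually.of_forall fun z => ?_)
    change ω z * |dX b z| = (ω z - ∑ j, X j z) * |dX b z| + ∑ j, X j z * |dX b z|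
    rw [← Finset.sum_mul]
    ring
  -- decomposition of the main integrand
  have hdec : ∀ (a b : ℂ → ℝ), (∀ r, Nice D (closedBall 0 r) a) → ∀ z ∈ D,
      J (fun w => ω w * a w) b z =
        J (fun w => Z w * a w) b z + ∑ j, J (fun w => X j w * a w) b z := by
    intro a b ha z hz
    have da := b4_diff hD ha hz
    have dX' : ∀ j, DifferentiableAt ℝ (fun w => X j w * a w) z := fun j =>
      (((hX j).differentiable (by norm_cast)).differentiableAt).mul da
    have h1 : (fun w => ω w * a w) = fun w => Z w * a w + ∑ j, X j w * a w := by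
      funext w
      change ω w * a w = (ω w - ∑ j, X j w) * a w + ∑ j, X j w * a w
      rw [← Finset.sum_mul]
      ring
    have d1 : DifferentiableAt ℝ (fun w => Z w * a w) z :=
      ((hZs.differentiable (by norm_cast)).differentiableAt).mul da
    have d2 : DifferentiableAt ℝ (fun w => ∑ j, X j w * a w) z :=
      DifferentiableAt.fun_sum fun j _ => dX' j
    rw [h1, J_add_left d1 d2, b4_J_sum _ _ dX']
  have qZU := b4_intqJ hq hD hDH (b4_intJ hD hZs hZc hUn hBn)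
  have qZV := b4_intqJ hq hD hDH (b4_intJ hD hZs hZc hVn hAn)
  have qX : ∀ j, IntegrableOn
      (fun z => q z * (J (fun w => X j w * U w) B z - J (fun w => X j w * V w) A z)) D := fun j =>
    b4_intqJ hq hD hDH
      ((b4_intJ hD (hX j) (hXc j) hUn hBn).sub (b4_intJ hD (hX j) (hXc j) hVn hAn))
  have hmain : ∫ z in D, q z * (J (fun w => ω w * U w) B z - J (fun w => ω w * V w) A z) =
      (∫ z in D, q z * J (fun w => Z w * U w) B z) - (∫ z in D, q z * J (fun w => Z w * V w) A z) +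
        ∑ j, ∫ z in D, q z * (J (fun w => X j w * U w) B z - J (fun w => X j w * V w) A z) := by
    have q12 : IntegrableOn (fun z => q z * J (fun w => Z w * U w) B z -
      q z * J (fun w => Z w * V w) A z) D := qZU.sub qZV
    rw [← integral_finsetSum Finset.univ (fun j _ => qX j), ← integral_sub qZU qZV,
      ← integral_add q12 (integrable_finsetSum _ fun j _ => qX j)]
    refine setIntegral_congr_fun hD.measurableSet fun z hz => ?_
    change q z * (J (fun w => ω w * U w) B z - J (fun w => ω w * V w) A z) =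
      q z * J (fun w => Z w * U w) B z - q z * J (fun w => Z w * V w) A z +
        ∑ j, q z * (J (fun w => X j w * U w) B z - J (fun w => X j w * V w) A z)
    rw [hdec U B hUn z hz, hdec V A hVn z hz, ← Finset.mul_sum, Finset.sum_sub_distrib]
    ring
  -- the first bracket
  have hfirst : ∀ (a b : ℂ → ℝ), (∀ r, Nice D (closedBall 0 r) a) →
      (∀ r, Nice D (closedBall 0 r) b) → (∀ z ∈ D, z ∈ box R → |a z| ≤ N) →
      |∫ z in D, q z * J (fun w => Z w * a w) b z| ≤ L * (N * ∫ z in D, Z z * |dX b z|) := by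
    intro a b ha hb hab
    have hbd : ∀ z ∈ D, |Z z * a z| ≤ N * Z z := by
      intro z hz
      by_cases hzT : z ∈ tsupport Z
      · rw [abs_mul, abs_of_nonneg (hZ01 z).1, mul_comm]
        exact mul_le_mul_of_nonneg_right (hab z hz (hωs (hZt hzT)).1) (hZ01 z).1
      · rw [image_eq_zero_of_notMem_tsupport hzT]
        simp
    have i1 : IntegrableOn (fun z => |Z z * a z| * |dX b z|) D := by
      refine b4_intDX hD (T := tsupport Z) hZc (M := N) hN
        (hZs.continuous.continuousOn.mul (ha 0).smooth.continuousOn) ?_ ?_ hb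
      · intro z hz
        refine (hbd z hz.1).trans ?_
        calc N * Z z ≤ N * 1 := mul_le_mul_of_nonneg_left (hZ01 z).2 hN
          _ = N := mul_one N
      · intro z hz
        rw [image_eq_zero_of_notMem_tsupport hz.2, zero_mul]
    have h1 := hq.J hD hDH hZc hZD (b4_nice_mul hD hZs ha 0).smooth (hb 0).smooth
      (fun z hz => Or.inl (b4_zero_near hz.2 a)) i1
    refine h1.trans (mul_le_mul_of_nonneg_left ?_ hL)
    rw [← integral_const_mul]
    refine setIntegral_mono_on i1 ((b4_intW hD hZs.continuous hZc hZ01 hb).const_mul N)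
      hD.measurableSet ?_
    intro z hz
    calc |Z z * a z| * |dX b z| ≤ (N * Z z) * |dX b z| :=
          mul_le_mul_of_nonneg_right (hbd z hz) (abs_nonneg _)
      _ = N * (Z z * |dX b z|) := by ring
  have f1 := hfirst U B hUn hBn hUb
  have f2 := hfirst V A hVn hAn hVb
  -- the slits
  have f3 : ∀ j, |∫ z in D, q z * (J (fun w => X j w * U w) B z - J (fun w => X j w * V w) A z)| ≤
      10 * N * L * ((∫ z in D, X j z * |dX A z|) + ∫ z in D, X j z * |dX B z|) +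
        2 * N * L * ε * jump (SF p τ ℓ) A (X j) := by
    intro j
    obtain ⟨κ, hκ⟩ := hd.compat j
    obtain ⟨b, hb⟩ := hAB.compat j
    exact b4_one hd.fam hε1 hN hq hUn hVn hAB.niceA hAB.niceB hAB.mono j (hWo j) (hWc j)
      (hWH j) (hSW j) (hWi j) (fun z hz => hUb z hz.1 (hOb (hWO j hz.2)).1)
      (fun z hz => hVb z hz.1 (hOb (hWO j hz.2)).1) (hX j) (hXc j) (hXW j) (hX01 j) (hX1 j) hκ hb
  -- jumps
  obtain ⟨sj, -⟩ := sum_jump_hor hd.fam hAB.niceA hX hXc Finset.univ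
  have hjle : ∑ j, jump (SF p τ ℓ) A (X j) ≤ jump (SF p τ ℓ) A φ₀ := by
    rw [← sj]
    exact jump_le hd.fam hAB.niceA hAB.mono s1 s2 hφ hφc hsumφ
  have hj0 : 0 ≤ jump (SF p τ ℓ) A φ₀ := jump_nonneg hd.fam hAB.niceA hAB.mono hφ hφc hφ0
  have hIA := hcmp A hAB.niceA
  have hIB := hcmp B hAB.niceB
  rw [hdecI A hAn] at hIA
  rw [hdecI B hBn] at hIB
  have hZA0 : 0 ≤ ∫ z in D, Z z * |dX A z| :=
    setIntegral_nonneg hD.measurableSet fun z _ => mul_nonneg (hZ01 z).1 (abs_nonneg _)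
  have hZB0 : 0 ≤ ∫ z in D, Z z * |dX B z| :=
    setIntegral_nonneg hD.measurableSet fun z _ => mul_nonneg (hZ01 z).1 (abs_nonneg _)
  have hXA0 : 0 ≤ ∑ j, ∫ z in D, X j z * |dX A z| := Finset.sum_nonneg fun j _ =>
    setIntegral_nonneg hD.measurableSet fun z _ => mul_nonneg (hX01 j z).1 (abs_nonneg _)
  have hXB0 : 0 ≤ ∑ j, ∫ z in D, X j z * |dX B z| := Finset.sum_nonneg fun j _ =>
    setIntegral_nonneg hD.measurableSet fun z _ => mul_nonneg (hX01 j z).1 (abs_nonneg _)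
  have hS : (∫ z in box R \ SF p τ ℓ, (|dX A z| + |dX B z|)) =
      (∫ z in box R \ SF p τ ℓ, |dX A z|) + ∫ z in box R \ SF p τ ℓ, |dX B z| :=
    integral_add (hbox A hAB.niceA) (hbox B hAB.niceB)
  have f4 : |∑ j, ∫ z in D, q z * (J (fun w => X j w * U w) B z - J (fun w => X j w * V w) A z)| ≤
      10 * N * L * ((∑ j, ∫ z in D, X j z * |dX A z|) + ∑ j, ∫ z in D, X j z * |dX B z|) +
        2 * N * L * ε * ∑ j, jump (SF p τ ℓ) A (X j) := by
    refine (Finset.abs_sum_le_sum_abs _ _).trans ((Finset.sum_le_sum fun j _ => f3 j).trans ?_)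
    rw [Finset.sum_add_distrib, ← Finset.mul_sum, ← Finset.mul_sum, Finset.sum_add_distrib]
  change |∫ z in D, q z * (J (fun w => ω w * U w) B z - J (fun w => ω w * V w) A z)| ≤ _
  rw [hmain, hS]
  refine (abs_add_le _ _).trans ?_
  refine (add_le_add ((abs_sub _ _).trans (add_le_add f1 f2)) f4).trans ?_
  set a1 := ∫ z in D, Z z * |dX A z|
  set b1 := ∫ z in D, Z z * |dX B z|
  set a2 := ∑ j, ∫ z in D, X j z * |dX A z|
  set b2 := ∑ j, ∫ z in D, X j z * |dX B z|
  set SA := ∫ z in box R \ SF p τ ℓ, |dX A z|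
  set SB := ∫ z in box R \ SF p τ ℓ, |dX B z|
  set j1 := ∑ j, jump (SF p τ ℓ) A (X j)
  set j2 := jump (SF p τ ℓ) A φ₀
  have hNL : 0 ≤ N * L := mul_nonneg hN hL
  have g1 : L * (N * b1) + L * (N * a1) + 10 * N * L * (a2 + b2) ≤ 10 * (N * L) * (SA + SB) := by
    have h1 : b1 + a1 + 10 * (a2 + b2) ≤ 10 * (SA + SB) := by linarith
    calc L * (N * b1) + L * (N * a1) + 10 * N * L * (a2 + b2)
        = (N * L) * (b1 + a1 + 10 * (a2 + b2)) := by ring
      _ ≤ (N * L) * (10 * (SA + SB)) := mul_le_mul_of_nonneg_left h1 hNL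
      _ = 10 * (N * L) * (SA + SB) := by ring
  have g2 : 2 * N * L * ε * j1 ≤ 2 * (N * L) * (ε * j2) := by
    calc 2 * N * L * ε * j1 = (2 * (N * L) * ε) * j1 := by ring
      _ ≤ (2 * (N * L) * ε) * j2 := mul_le_mul_of_nonneg_left hjle (by positivity)
      _ = 2 * (N * L) * (ε * j2) := by ring
  have g3 : 0 ≤ (N * L) * (SA + SB) := mul_nonneg hNL (by linarith)
  have g4 : 0 ≤ (N * L) * (ε * j2) := mul_nonneg hNL (mul_nonneg hε.le hj0)
  calc L * (N * b1) + L * (N * a1) + (10 * N * L * (a2 + b2) + 2 * N * L * ε * j1)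
      = (L * (N * b1) + L * (N * a1) + 10 * N * L * (a2 + b2)) + 2 * N * L * ε * j1 := by ring
    _ ≤ 10 * (N * L) * (SA + SB) + 2 * (N * L) * (ε * j2) := add_le_add g1 g2
    _ ≤ 20 * N * L * (SA + SB + ε * j2) := by linarith

end RSM2
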