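import Pool.Agent.RSM2.J0
import Pool.Agent.Lib.Hurwitz

/-!
# RSM2 module J6: change of variables by a conformal map

`G` is holomorphic and injective on the open set `U`.

PROOFS.  `G '' U` is open (`Pool.Agent.Lib.Hurwitz.isOpen_image_of_injOn`), `deriv G ≠ 0` on `U`
(`deriv_ne_zero_of_injOn`), and the inverse map is holomorphic (`exists_inverse`, or
`Pool/Agent/Lib/Conformal.lean`: `differentiableOn_invFunOn`).
The real derivative of `G` at `z` is the multiplication by `G' z`, with determinant `‖G' z‖²`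
(see `RSM.c8_fderiv`, `RSM.c8_det`, `RSM.c8_change` in `Pool/Agent/RSM/C8.lean`).  By the chain rule
`J (f ∘ G) (g ∘ G) z = ‖G' z‖² J f g (G z)` (a 2x2 determinant identity) and
`‖∇(f ∘ G) z‖² = ‖G' z‖² ‖∇f (G z)‖²` (`sq_norm_fderiv`).  Then use
`integral_image_eq_integral_abs_det_fderiv_smul` and
`integrableOn_image_iff_integrableOn_abs_det_fderiv_smul`.
`push`: on the open set `G '' U` it is `g ∘ G⁻¹`, so `C²` (a composition of a real `C²` function and
a holomorphic one); at a point `w ∈ D \ G '' U`, `w` is not in the closure of `G '' (U ∩ S)` (by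
`hcl`), so a neighbourhood of `w` does not meet `G '' (U ∩ S)`, and `push` is `0` there.
`volume_image_null`: the image of a null set under the differentiable map `G`
(`addHaar_image_eq_zero_of_differentiableOn_of_addHaar_eq_zero`).
-/

open Complex Set Metric Filter Topology MeasureTheory

namespace RSM2

variable {U : Set ℂ} {G : ℂ → ℂ}

theorem j6_fderiv {z : ℂ} (h : DifferentiableAt ℂ G z) :
    HasFDerivAt G ((ContinuousLinearMap.toSpanSingleton ℂ (deriv G z)).restrictScalars ℝ) z :=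
  (h.hasDerivAt.hasFDerivAt).restrictScalars ℝ

theorem j6_det (a : ℂ) :
    ((ContinuousLinearMap.toSpanSingleton ℂ a : ℂ →L[ℂ] ℂ).restrictScalars ℝ).det = ‖a‖ ^ 2 := by
  simp [ContinuousLinearMap.det, LinearMap.det_restrictScalars, Algebra.norm_complex_eq,
    Complex.normSq_eq_norm_sq]

theorem j6_comp {f : ℂ → ℝ} {z : ℂ} (hG : DifferentiableAt ℂ G z)
    (hf : DifferentiableAt ℝ f (G z)) (v : ℂ) :
    fderiv ℝ (fun w => f (G w)) z v = fderiv ℝ f (G z) (v * deriv G z) := by
  have h1 : HasFDerivAt (fun w => f (G w)) ((fderiv ℝ f (G z)).comp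
      ((ContinuousLinearMap.toSpanSingleton ℂ (deriv G z)).restrictScalars ℝ)) z :=
    hf.hasFDerivAt.comp z (j6_fderiv hG)
  rw [h1.fderiv]
  simp

theorem j6_dX {f : ℂ → ℝ} {z : ℂ} (hG : DifferentiableAt ℂ G z)
    (hf : DifferentiableAt ℝ f (G z)) :
    dX (fun w => f (G w)) z = dX f (G z) * (deriv G z).re + dY f (G z) * (deriv G z).im := by
  have h1 : dX (fun w => f (G w)) z = fderiv ℝ (fun w => f (G w)) z 1 := rfl
  rw [h1, j6_comp hG hf, one_mul, fderiv_eq_dX_dY]

theorem j6_dY {f : ℂ → ℝ} {z : ℂ} (hG : DifferentiableAt ℂ G z)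
    (hf : DifferentiableAt ℝ f (G z)) :
    dY (fun w => f (G w)) z = -(dX f (G z) * (deriv G z).im) + dY f (G z) * (deriv G z).re := by
  have h1 : dY (fun w => f (G w)) z = fderiv ℝ (fun w => f (G w)) z I := rfl
  rw [h1, j6_comp hG hf, fderiv_eq_dX_dY]
  simp

theorem j6_norm (a : ℂ) : ‖a‖ ^ 2 = a.re ^ 2 + a.im ^ 2 := by
  rw [Complex.sq_norm, Complex.normSq_apply]
  ring

theorem j6_change (hU : IsOpen U) (hG : DifferentiableOn ℂ G U) (hinj : InjOn G U)
    (g : ℂ → ℝ) :
    ∫ w in G '' U, g w = ∫ z in U, ‖deriv G z‖ ^ 2 * g (G z) := by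
  rw [integral_image_eq_integral_abs_det_fderiv_smul volume hU.measurableSet
    (fun x hx => (j6_fderiv (hG.differentiableAt (hU.mem_nhds hx))).hasFDerivWithinAt) hinj g]
  refine setIntegral_congr_fun hU.measurableSet fun z _ => ?_
  simp only [j6_det, smul_eq_mul]
  rw [abs_of_nonneg (by positivity)]

theorem j6_int (hU : IsOpen U) (hG : DifferentiableOn ℂ G U) (hinj : InjOn G U)
    (g : ℂ → ℝ) :
    IntegrableOn g (G '' U) ↔ IntegrableOn (fun z => ‖deriv G z‖ ^ 2 * g (G z)) U := by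
  rw [integrableOn_image_iff_integrableOn_abs_det_fderiv_smul volume hU.measurableSet
    (fun x hx => (j6_fderiv (hG.differentiableAt (hU.mem_nhds hx))).hasFDerivWithinAt) hinj g]
  refine integrableOn_congr_fun (fun z _ => ?_) hU.measurableSet
  simp only [j6_det, smul_eq_mul]
  rw [abs_of_nonneg (by positivity)]

theorem j6_open (hU : IsOpen U) (hG : DifferentiableOn ℂ G U) (hinj : InjOn G U) :
    IsOpen (G '' U) :=
  Pool.Agent.Lib.Hurwitz.isOpen_image_of_injOn hU hG hinj

theorem j6_inv (hU : IsOpen U) (hG : DifferentiableOn ℂ G U) (hinj : InjOn G U) :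
    DifferentiableOn ℂ (Function.invFunOn G U) (G '' U) := by
  obtain ⟨g, hg, -, -, h1, -, -⟩ := Pool.Agent.Lib.Hurwitz.exists_inverse hU hG hinj
  refine hg.congr ?_
  rintro _ ⟨z, hz, rfl⟩
  rw [h1 z hz]
  exact hinj.leftInvOn_invFunOn hz

theorem J_comp_holo {f g : ℂ → ℝ} {z : ℂ} (hG : DifferentiableAt ℂ G z)
    (hf : DifferentiableAt ℝ f (G z)) (hg : DifferentiableAt ℝ g (G z)) :
    J (fun w => f (G w)) (fun w => g (G w)) z = ‖deriv G z‖ ^ 2 * J f g (G z) := by
  unfold J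
  rw [j6_dX hG hf, j6_dX hG hg, j6_dY hG hf, j6_dY hG hg, j6_norm]
  ring

theorem sq_fderiv_comp_holo {f : ℂ → ℝ} {z : ℂ} (hG : DifferentiableAt ℂ G z)
    (hf : DifferentiableAt ℝ f (G z)) :
    ‖fderiv ℝ (fun w => f (G w)) z‖ ^ 2 = ‖deriv G z‖ ^ 2 * ‖fderiv ℝ f (G z)‖ ^ 2 := by
  rw [sq_norm_fderiv, sq_norm_fderiv, j6_dX hG hf, j6_dY hG hf, j6_norm]
  ring

theorem integral_J_image (hU : IsOpen U) (hG : DifferentiableOn ℂ G U) (hinj : InjOn G U)
    {f g : ℂ → ℝ} (hf : DifferentiableOn ℝ f (G '' U)) (hg : DifferentiableOn ℝ g (G '' U)) :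
    ∫ w in G '' U, J f g w = ∫ z in U, J (fun z => f (G z)) (fun z => g (G z)) z := by
  rw [j6_change hU hG hinj]
  refine setIntegral_congr_fun hU.measurableSet fun z hz => ?_
  have hm := (j6_open hU hG hinj).mem_nhds (mem_image_of_mem G hz)
  rw [J_comp_holo (hG.differentiableAt (hU.mem_nhds hz)) (hf.differentiableAt hm)
    (hg.differentiableAt hm)]

theorem integral_sq_fderiv_image (hU : IsOpen U) (hG : DifferentiableOn ℂ G U)
    (hinj : InjOn G U) {f : ℂ → ℝ} (hf : DifferentiableOn ℝ f (G '' U)) :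
    (IntegrableOn (fun w => ‖fderiv ℝ f w‖ ^ 2) (G '' U) ↔
      IntegrableOn (fun z => ‖fderiv ℝ (fun w => f (G w)) z‖ ^ 2) U) ∧
    ∫ w in G '' U, ‖fderiv ℝ f w‖ ^ 2 = ∫ z in U, ‖fderiv ℝ (fun w => f (G w)) z‖ ^ 2 := by
  have key : ∀ z ∈ U, ‖deriv G z‖ ^ 2 * ‖fderiv ℝ f (G z)‖ ^ 2 =
      ‖fderiv ℝ (fun w => f (G w)) z‖ ^ 2 := by
    intro z hz
    have hm := (j6_open hU hG hinj).mem_nhds (mem_image_of_mem G hz)
    exact (sq_fderiv_comp_holo (hG.differentiableAt (hU.mem_nhds hz))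
      (hf.differentiableAt hm)).symm
  constructor
  · rw [j6_int hU hG hinj]
    exact integrableOn_congr_fun key hU.measurableSet
  · rw [j6_change hU hG hinj]
    exact setIntegral_congr_fun hU.measurableSet key

/-- The area formula. -/
theorem integral_sq_deriv (hU : IsOpen U) (hG : DifferentiableOn ℂ G U) (hinj : InjOn G U)
    (hb : Bornology.IsBounded (G '' U)) :
    IntegrableOn (fun z => ‖deriv G z‖ ^ 2) U ∧
      ∫ z in U, ‖deriv G z‖ ^ 2 = (volume (G '' U)).toReal := by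
  have hfin : volume (G '' U) < ⊤ := hb.measure_lt_top
  have h1 := j6_int hU hG hinj (fun _ => (1 : ℝ))
  have h2 := j6_change hU hG hinj (fun _ => (1 : ℝ))
  simp only [mul_one] at h1 h2
  constructor
  · rw [← h1]
    exact integrableOn_const hfin.ne
  · rw [← h2]
    simp [Measure.real]

open Classical in
/-- The function `g` on `U` transplanted by the conformal map `G`, extended by `0`. -/
noncomputable def push (U : Set ℂ) (G : ℂ → ℂ) (g : ℂ → ℝ) (w : ℂ) : ℝ :=
  if w ∈ G '' U then g (Function.invFunOn G U w) else 0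

theorem push_apply (hinj : InjOn G U) (g : ℂ → ℝ) {z : ℂ} (hz : z ∈ U) :
    push U G g (G z) = g z := by
  unfold push
  rw [if_pos (mem_image_of_mem G hz)]
  congr 1
  have h : ∃ a ∈ U, G a = G z := ⟨z, hz, rfl⟩
  exact hinj (Function.invFunOn_mem h) hz (Function.invFunOn_eq h)

theorem push_of_notMem (g : ℂ → ℝ) {w : ℂ} (hw : w ∉ G '' U) : push U G g w = 0 := by
  unfold push
  rw [if_neg hw]

theorem contDiffOn_push (hU : IsOpen U) (hG : DifferentiableOn ℂ G U) (hinj : InjOn G U)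
    {g : ℂ → ℝ} (hg : ContDiffOn ℝ 2 g U) {S D : Set ℂ} (hS : ∀ z ∈ U, z ∉ S → g z = 0)
    (hcl : closure (G '' (U ∩ S)) ∩ D ⊆ G '' U) (hD : IsOpen D) :
    ContDiffOn ℝ 2 (push U G g) D := by
  have hO := j6_open hU hG hinj
  intro w hw
  refine ContDiffAt.contDiffWithinAt ?_
  by_cases hwU : w ∈ G '' U
  · have h1 : ContDiffAt ℝ 2 (fun w => g (Function.invFunOn G U w)) w := by
      have h2 : ContDiffAt ℂ 2 (Function.invFunOn G U) w :=
        ((j6_inv hU hG hinj).contDiffOn hO).contDiffAt (hO.mem_nhds hwU)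
      have h3 : ContDiffAt ℝ 2 (Function.invFunOn G U) w := h2.restrict_scalars ℝ
      have h4 : Function.invFunOn G U w ∈ U := Function.invFunOn_mem hwU
      have h5 : ContDiffAt ℝ 2 g (Function.invFunOn G U w) := hg.contDiffAt (hU.mem_nhds h4)
      exact h5.comp w h3
    refine h1.congr_of_eventuallyEq ?_
    filter_upwards [hO.mem_nhds hwU] with v hv
    unfold push
    rw [if_pos hv]
  · have hcw : w ∉ closure (G '' (U ∩ S)) := fun h => hwU (hcl ⟨h, hw⟩)
    have h1 : ContDiffAt ℝ 2 (fun _ : ℂ => (0 : ℝ)) w := contDiffAt_const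
    refine h1.congr_of_eventuallyEq ?_
    filter_upwards [isClosed_closure.isOpen_compl.mem_nhds hcw] with v hv
    by_cases hvU : v ∈ G '' U
    · obtain ⟨z, hz, rfl⟩ := hvU
      rw [push_apply hinj g hz]
      refine hS z hz fun hzS => hv (subset_closure ⟨z, ⟨hz, hzS⟩, rfl⟩)
    · exact push_of_notMem g hvU

theorem volume_image_null (hU : IsOpen U) (hG : DifferentiableOn ℂ G U) {N : Set ℂ}
    (hN : N ⊆ U) (h0 : volume N = 0) : volume (G '' N) = 0 := by
  refine addHaar_image_eq_zero_of_differentiableOn_of_addHaar_eq_zero volume ?_ h0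
  intro z hz
  exact (j6_fderiv (hG.differentiableAt (hU.mem_nhds (hN hz)))).differentiableAt.differentiableWithinAt

end RSM2
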