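import Pool.Agent.RSM2.B4
import Pool.Agent.RSM2.J6

/-!
# RSM2 module B5: the boundary term at `H` in step (b)

`q` has the boundary property of `exists_weight` (`hq5`).  CLAIM: there are cut-off functions `χ`
(`0` near `H`, `1` outside of a given neighbourhood `O` of `H`) with
`|∫_D q (U J χ B - V J χ A)| ≤ 2 K + σ`, `K = 11 (M b + δ a)`, where `|A| ≤ a`, `|B| ≤ b` on
`box R \ SF`.

PROOF.  (1) For small `σ₁ > 0`, `s + 2σ₁ < s₁` and `Ψ {s < Re ξ ≤ s + 2σ₁} ⊆ O` (compactness of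
`[s, s + 2σ₁] × [0, 2π]`, periodicity, `Ψ (s + it) ∈ H ⊆ O`).  Let `ψ` be a `C^∞` function on the line, nondecreasing,
`ψ t = 0` for `t ≤ s + σ₁`, `ψ t = 1` for `t ≥ s + 2σ₁`.  Define `χ w = ψ (Re ξ)` if
`w = Ψ ξ`, `s₀ < Re ξ < s₁` (well defined by `inj`), and `χ w = 0` for `w ∈ H`, `χ w = 1` for all other
`w`.  `Ψ` is a local biholomorphism of the strip (injective modulo the period, so
`Ψ' ≠ 0`, open), so `χ` is `C^∞` on the open set `Ψ(strip)`; `χ = 0` on the open set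
`interior H ∪ Ψ {s₀ < Re ξ < s + σ₁}`, which contains `H` (`fr`, `inn`); and
`(H ∪ Ψ {s ≤ Re ξ ≤ s + 2σ₁})ᶜ` is open (complement of a compact set), `χ = 1` there (a point
`Ψ ξ` with `s₀ < Re ξ ≤ s` is in `H`).  These three open sets cover the plane.
(2) `∫_D q (U J χ B - V J χ A)` is an integral over `Ψ {s + σ₁ < Re ξ < s + 2σ₁}`.  Change of variables
by `Ψ` on the open rectangle `{s + σ₁ < Re ξ < s + 2σ₁, 0 < Im ξ < 2π}` (injective there; the missing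
part of the image is the null set `Ψ {Im ξ = 0}`): with `J (χ∘Ψ) (B∘Ψ) = ψ'(Re ξ) ∂_t (B∘Ψ)`, `t = Im ξ`
(`J_comp_holo`, or `integral_J_image` applied to each term after multiplying... use the
change of variables formula for the function `q (U J χ B - V J χ A)` and `J_comp_holo`):
`= ∫_{s+σ₁}^{s+2σ₁} ψ'(s') (∫_0^{2π} q(Ψ(s' + it)) k(s', t) dt) ds'`,
`k(s', t) = (x₀ + λ cosh s' cos t) ∂_t (B ∘ Ψ)(s' + it) - λ sinh s' sin t ∂_t (A ∘ Ψ)(s' + it)`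
(`eqU`, `eqV`).
(3) `k` is continuous on `[s, s₁) × ℝ`, `2π`-periodic in `t`, so `k(s', ·) → k(s, ·)` uniformly as
`s' → s+`.  For `u ≤ v ≤ u + 2π` integrate by parts:
`|∫_u^v (x₀ + λ cosh s cos t) ∂_t (B∘Ψ)| ≤ 2 · 2M b + b ∫_u^v λ cosh s |sin t| dt ≤ (4M + 2πM) b`,
`|∫_u^v λ sinh s sin t ∂_t (A∘Ψ)| ≤ (2 + 2π) δ a`; the sum is at most `11 (M b + δ a) = K`.  (The curve is in
`H ⊆ closedBall 0 R ⊆ box R` and off `SF`.)  By `hq5` and the uniform convergence, for `s'` close to `s`: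
`|∫_0^{2π} q(Ψ(s' + it)) k(s', t) dt| ≤ 2K + σ`; choose `σ₁` accordingly; `∫ ψ' = 1`, `ψ' ≥ 0`.
-/

open Complex Set Metric Filter Topology MeasureTheory

namespace RSM2

section

/-- The strip. -/
def b5_S (s₀ s₁ : ℝ) : Set ℂ := {ξ | s₀ < ξ.re ∧ ξ.re < s₁}

theorem b5_S_open (s₀ s₁ : ℝ) : IsOpen (b5_S s₀ s₁) :=
  (isOpen_lt continuous_const continuous_re).inter (isOpen_lt continuous_re continuous_const)

variable {H : Set ℂ} {Ψ : ℂ → ℂ} {s₀ s s₁ : ℝ}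

theorem b5_inj {V : Set ℂ} (hC : Collar H Ψ s₀ s s₁) (hV : V ⊆ b5_S s₀ s₁)
    (hV' : ∀ ξ ∈ V, ∀ ξ' ∈ V, |ξ'.im - ξ.im| < 2 * Real.pi) : InjOn Ψ V := by
  intro ξ hξ ξ' hξ' h
  obtain ⟨n, hn⟩ := hC.inj ξ ξ' (hV hξ).1 (hV hξ).2 (hV hξ').1 (hV hξ').2 h
  have h1 := hV' ξ hξ ξ' hξ'
  have h2 : ξ'.im - ξ.im = n * (2 * Real.pi) := by
    rw [hn]
    simp
  rw [h2, abs_mul, abs_of_pos Real.two_pi_pos] at h1
  have h3 : |(n : ℝ)| < 1 := by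
    by_contra h4
    push Not at h4
    nlinarith [Real.two_pi_pos]
  have h4 : n = 0 := by
    have h5 : |n| < 1 := by exact_mod_cast h3
    exact Int.abs_lt_one_iff.1 h5
  rw [h4] at hn
  simpa using hn.symm

theorem b5_inj_ball (hC : Collar H Ψ s₀ s s₁) (ξ₀ : ℂ) :
    InjOn Ψ (b5_S s₀ s₁ ∩ ball ξ₀ 1) := by
  refine b5_inj hC inter_subset_left fun ξ hξ ξ' hξ' => ?_
  have h1 := mem_ball_iff_norm.1 hξ.2
  have h2 := mem_ball_iff_norm.1 hξ'.2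
  have h3 : |ξ'.im - ξ.im| ≤ ‖ξ' - ξ‖ := by
    rw [← Complex.sub_im]
    exact abs_im_le_norm _
  have h4 : ‖ξ' - ξ‖ ≤ ‖ξ' - ξ₀‖ + ‖ξ - ξ₀‖ := by
    have h5 : ξ' - ξ = (ξ' - ξ₀) - (ξ - ξ₀) := by ring
    rw [h5]
    exact norm_sub_le _ _
  have h5 := Real.pi_gt_three
  linarith

theorem b5_image_mem {V : Set ℂ} (hC : Collar H Ψ s₀ s s₁) (hV : IsOpen V)
    (hVS : V ⊆ b5_S s₀ s₁) {ξ : ℂ} (hξ : ξ ∈ V) : Ψ '' V ∈ 𝓝 (Ψ ξ) := by
  have h1 : IsOpen (V ∩ ball ξ 1) := hV.inter isOpen_ball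
  have h2 : IsOpen (Ψ '' (V ∩ ball ξ 1)) :=
    j6_open h1 (hC.diff.mono fun z hz => hVS hz.1)
      ((b5_inj_ball hC ξ).mono (fun z (hz : z ∈ V ∩ ball ξ 1) =>
        (⟨hVS hz.1, hz.2⟩ : z ∈ b5_S s₀ s₁ ∩ ball ξ 1)))
  refine mem_of_superset (h2.mem_nhds ⟨ξ, ⟨hξ, mem_ball_self one_pos⟩, rfl⟩) ?_
  exact image_mono inter_subset_left

theorem b5_deriv_ne (hC : Collar H Ψ s₀ s s₁) {ξ : ℂ} (hξ : ξ ∈ b5_S s₀ s₁) :
    deriv Ψ ξ ≠ 0 := by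
  have h1 : IsOpen (b5_S s₀ s₁ ∩ ball ξ 1) := (b5_S_open s₀ s₁).inter isOpen_ball
  exact Pool.Agent.Lib.Hurwitz.deriv_ne_zero_of_injOn h1 (hC.diff.mono inter_subset_left)
    (b5_inj_ball hC ξ) ⟨hξ, mem_ball_self one_pos⟩

/-- Periodicity. -/
theorem b5_period (hC : Collar H Ψ s₀ s s₁) (n : ℤ) (ξ : ℂ) :
    Ψ (ξ + n * (2 * Real.pi * I)) = Ψ ξ := by
  have hper : Function.Periodic Ψ (2 * Real.pi * I) := hC.period
  have h1 := (hper.int_mul n) ξ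
  exact h1

/-- Every point of the strip can be moved to the period rectangle. -/
theorem b5_reduce (hC : Collar H Ψ s₀ s s₁) (ξ : ℂ) :
    ∃ t ∈ Icc (0 : ℝ) (2 * Real.pi), Ψ ξ = Ψ (ξ.re + t * I) := by
  have h2 := Real.two_pi_pos
  refine ⟨ξ.im - ⌊ξ.im / (2 * Real.pi)⌋ * (2 * Real.pi), ⟨?_, ?_⟩, ?_⟩
  · have h1 := Int.floor_le (ξ.im / (2 * Real.pi))
    rw [le_div_iff₀ h2] at h1
    linarith
  · have h1 := (Int.lt_floor_add_one (ξ.im / (2 * Real.pi))).le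
    rw [div_le_iff₀ h2] at h1
    linarith
  · rw [← b5_period hC (-⌊ξ.im / (2 * Real.pi)⌋) ξ]
    congr 1
    apply Complex.ext
    · simp
    · simp
      ring

open Classical in
/-- The cut-off function of the collar. -/
noncomputable def b5_chi (H : Set ℂ) (Ψ : ℂ → ℂ) (s₀ s₁ : ℝ) (ψ : ℝ → ℝ) (w : ℂ) : ℝ :=
  if h : ∃ ξ : ℂ, ξ ∈ b5_S s₀ s₁ ∧ Ψ ξ = w then ψ h.choose.re else if w ∈ H then 0 else 1

theorem b5_chi_apply (hC : Collar H Ψ s₀ s s₁) (ψ : ℝ → ℝ) {ξ : ℂ} (hξ : ξ ∈ b5_S s₀ s₁) :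
    b5_chi H Ψ s₀ s₁ ψ (Ψ ξ) = ψ ξ.re := by
  have h : ∃ ξ' : ℂ, ξ' ∈ b5_S s₀ s₁ ∧ Ψ ξ' = Ψ ξ := ⟨ξ, hξ, rfl⟩
  unfold b5_chi
  rw [dif_pos h]
  obtain ⟨h1, h2⟩ := h.choose_spec
  obtain ⟨n, hn⟩ := hC.inj _ _ h1.1 h1.2 hξ.1 hξ.2 h2
  congr 1
  have h3 := congrArg Complex.re hn
  simp only [add_re, mul_re, intCast_re, ofReal_re, I_re, intCast_im, mul_im, ofReal_im, I_im,
    re_ofNat, im_ofNat] at h3
  rw [h3]
  ring

theorem b5_chi_H (ψ : ℝ → ℝ) {w : ℂ} (hw : w ∉ Ψ '' b5_S s₀ s₁) (hwH : w ∈ H) :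
    b5_chi H Ψ s₀ s₁ ψ w = 0 := by
  have h : ¬ ∃ ξ' : ℂ, ξ' ∈ b5_S s₀ s₁ ∧ Ψ ξ' = w := hw
  unfold b5_chi
  rw [dif_neg h, if_pos hwH]

theorem b5_chi_out (ψ : ℝ → ℝ) {w : ℂ} (hw : w ∉ Ψ '' b5_S s₀ s₁) (hwH : w ∉ H) :
    b5_chi H Ψ s₀ s₁ ψ w = 1 := by
  have h : ¬ ∃ ξ' : ℂ, ξ' ∈ b5_S s₀ s₁ ∧ Ψ ξ' = w := hw
  unfold b5_chi
  rw [dif_neg h, if_neg hwH]

theorem b5_chi_01 {ψ : ℝ → ℝ} (hψ : ∀ t, 0 ≤ ψ t ∧ ψ t ≤ 1) (w : ℂ) :
    0 ≤ b5_chi H Ψ s₀ s₁ ψ w ∧ b5_chi H Ψ s₀ s₁ ψ w ≤ 1 := by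
  unfold b5_chi
  split_ifs
  · exact hψ _
  · norm_num
  · norm_num

/-- `χ = 0` near the points of `H`. -/
theorem b5_chi_near_H (hC : Collar H Ψ s₀ s s₁) {ψ : ℝ → ℝ} {r : ℝ} (hr : 0 < r)
    (hψ : ∀ t, t ≤ s + r → ψ t = 0) {x : ℂ} (hx : x ∈ H) :
    ∀ᶠ w in 𝓝 x, b5_chi H Ψ s₀ s₁ ψ w = 0 := by
  by_cases hxS : x ∈ Ψ '' b5_S s₀ s₁
  · obtain ⟨ξ, hξ, rfl⟩ := hxS
    have h1 : ξ.re ≤ s := by
      by_contra h
      push Not at h
      exact hC.out ξ h hξ.2 hx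
    have h2 : IsOpen (b5_S s₀ s₁ ∩ {ζ : ℂ | ζ.re < s + r}) :=
      (b5_S_open s₀ s₁).inter (isOpen_lt continuous_re continuous_const)
    have h3 : ξ ∈ b5_S s₀ s₁ ∩ {ζ : ℂ | ζ.re < s + r} := ⟨hξ, by
      change ξ.re < s + r
      linarith⟩
    filter_upwards [b5_image_mem hC h2 inter_subset_left h3] with w hw
    obtain ⟨ζ, hζ, rfl⟩ := hw
    rw [b5_chi_apply hC ψ hζ.1]
    exact hψ _ hζ.2.le
  · have h1 : x ∈ interior H := by
      by_contra h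
      have h2 : x ∈ frontier H := ⟨subset_closure hx, h⟩
      obtain ⟨t, ht⟩ := hC.fr h2
      refine hxS ⟨s + t * I, ⟨?_, ?_⟩, ht⟩
      · simpa using hC.lt0
      · simpa using hC.lt1
    filter_upwards [isOpen_interior.mem_nhds h1] with w hw
    have hwH : w ∈ H := interior_subset hw
    by_cases hwS : w ∈ Ψ '' b5_S s₀ s₁
    · obtain ⟨ξ, hξ, rfl⟩ := hwS
      rw [b5_chi_apply hC ψ hξ]
      refine hψ _ ?_
      by_contra h
      push Not at h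
      exact hC.out ξ (by linarith) hξ.2 hwH
    · exact b5_chi_H ψ hwS hwH

/-- `χ = 1` away from `H` and the inner part of the collar. -/
theorem b5_chi_far (hC : Collar H Ψ s₀ s s₁) {ψ : ℝ → ℝ} {r : ℝ}
    (hr1 : s + r < s₁) (hψ : ∀ t, s + r ≤ t → ψ t = 1) {x : ℂ} (hx : x ∉ H)
    (hx' : ∀ ξ : ℂ, s ≤ ξ.re → ξ.re ≤ s + r → Ψ ξ ≠ x) :
    ∀ᶠ w in 𝓝 x, b5_chi H Ψ s₀ s₁ ψ w = 1 := by
  have hcomp : IsCompact (Ψ '' (Icc s (s + r) ×ℂ Icc 0 (2 * Real.pi))) := by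
    refine IsCompact.image_of_continuousOn (isCompact_Icc.reProdIm isCompact_Icc) ?_
    refine hC.diff.continuousOn.mono fun ξ hξ => ?_
    have h1 := (mem_reProdIm.1 hξ).1
    exact ⟨lt_of_lt_of_le hC.lt0 h1.1, lt_of_le_of_lt h1.2 hr1⟩
  have hcl : IsClosed (H ∪ Ψ '' (Icc s (s + r) ×ℂ Icc 0 (2 * Real.pi))) :=
    (hC.compact.union hcomp).isClosed
  have hxn : x ∉ H ∪ Ψ '' (Icc s (s + r) ×ℂ Icc 0 (2 * Real.pi)) := by
    rintro (h | ⟨ξ, hξ, h⟩)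
    · exact hx h
    · have h1 := (mem_reProdIm.1 hξ).1
      exact hx' ξ h1.1 h1.2 h
  filter_upwards [hcl.isOpen_compl.mem_nhds hxn] with w hw
  have hwH : w ∉ H := fun h => hw (Or.inl h)
  by_cases hwS : w ∈ Ψ '' b5_S s₀ s₁
  · obtain ⟨ξ, hξ, rfl⟩ := hwS
    rw [b5_chi_apply hC ψ hξ]
    refine hψ _ ?_
    by_contra h
    push Not at h
    have h1 : s ≤ ξ.re := by
      by_contra h2
      push Not at h2
      exact hwH (hC.inn ξ hξ.1 h2.le)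
    obtain ⟨t, ht, he⟩ := b5_reduce hC ξ
    refine hw (Or.inr ⟨ξ.re + t * I, ?_, he.symm⟩)
    rw [mem_reProdIm]
    refine ⟨?_, ?_⟩
    · simpa using ⟨h1, h.le⟩
    · simpa using ht
  · exact b5_chi_out ψ hwS hwH

/-- Smoothness of the cut-off function. -/
theorem b5_chi_smooth (hC : Collar H Ψ s₀ s s₁) {ψ : ℝ → ℝ} {r : ℝ} (hr : 0 < r)
    (hr1 : s + 2 * r < s₁) (hψs : ContDiff ℝ (⊤ : ℕ∞) ψ) (hψ0 : ∀ t, t ≤ s + r → ψ t = 0)
    (hψ1 : ∀ t, s + 2 * r ≤ t → ψ t = 1) : ContDiff ℝ (⊤ : ℕ∞) (b5_chi H Ψ s₀ s₁ ψ) := by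
  rw [contDiff_iff_contDiffAt]
  intro x
  by_cases hxS : x ∈ Ψ '' b5_S s₀ s₁
  · obtain ⟨ξ, hξ, rfl⟩ := hxS
    have hN : IsOpen (b5_S s₀ s₁ ∩ ball ξ 1) := (b5_S_open s₀ s₁).inter isOpen_ball
    have hdN := hC.diff.mono (inter_subset_left : b5_S s₀ s₁ ∩ ball ξ 1 ⊆ _)
    have hinj := b5_inj_ball hC ξ
    have hξN : ξ ∈ b5_S s₀ s₁ ∩ ball ξ 1 := ⟨hξ, mem_ball_self one_pos⟩
    have hO := j6_open hN hdN hinj
    have hmem : Ψ ξ ∈ Ψ '' (b5_S s₀ s₁ ∩ ball ξ 1) := ⟨ξ, hξN, rfl⟩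
    have h2 : ContDiffAt ℂ ((⊤ : ℕ∞) : WithTop ℕ∞)
        (Function.invFunOn Ψ (b5_S s₀ s₁ ∩ ball ξ 1)) (Ψ ξ) :=
      ((j6_inv hN hdN hinj).contDiffOn hO).contDiffAt (hO.mem_nhds hmem)
    have h3 := h2.restrict_scalars ℝ
    have h4 : ContDiffAt ℝ ((⊤ : ℕ∞) : WithTop ℕ∞)
        (fun w => ψ (Function.invFunOn Ψ (b5_S s₀ s₁ ∩ ball ξ 1) w).re) (Ψ ξ) :=
      hψs.contDiffAt.comp (Ψ ξ) (reCLM.contDiff.contDiffAt.comp (Ψ ξ) h3)
    refine h4.congr_of_eventuallyEq ?_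
    filter_upwards [hO.mem_nhds hmem] with w hw
    have h5 := Function.invFunOn_mem hw
    have h6 := Function.invFunOn_eq hw
    conv_lhs => rw [← h6]
    exact b5_chi_apply hC ψ h5.1
  · by_cases hxH : x ∈ H
    · have h1 : ContDiffAt ℝ ((⊤ : ℕ∞) : WithTop ℕ∞) (fun _ : ℂ => (0 : ℝ)) x := contDiffAt_const
      exact h1.congr_of_eventuallyEq (b5_chi_near_H hC hr hψ0 hxH)
    · have h1 : ContDiffAt ℝ ((⊤ : ℕ∞) : WithTop ℕ∞) (fun _ : ℂ => (1 : ℝ)) x := contDiffAt_const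
      refine h1.congr_of_eventuallyEq (b5_chi_far hC hr1 hψ1 hxH ?_)
      intro ξ h2 h3 h4
      exact hxS ⟨ξ, ⟨lt_of_lt_of_le hC.lt0 h2, lt_of_le_of_lt h3 hr1⟩, h4⟩

/-- The Jacobian with the cut-off function, in the coordinates of the collar. -/
theorem b5_J (hC : Collar H Ψ s₀ s s₁) {ψ : ℝ → ℝ} (hψ : ContDiff ℝ (⊤ : ℕ∞) ψ)
    (hχ : ContDiff ℝ (⊤ : ℕ∞) (b5_chi H Ψ s₀ s₁ ψ)) {B : ℂ → ℝ} {ξ : ℂ} (hξ : ξ ∈ b5_S s₀ s₁)
    (hB : DifferentiableAt ℝ B (Ψ ξ)) :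
    ‖deriv Ψ ξ‖ ^ 2 * J (b5_chi H Ψ s₀ s₁ ψ) B (Ψ ξ) =
      deriv ψ ξ.re * dY (fun ζ => B (Ψ ζ)) ξ := by
  have hd : DifferentiableAt ℂ Ψ ξ := hC.diff.differentiableAt ((b5_S_open s₀ s₁).mem_nhds hξ)
  have hχd : DifferentiableAt ℝ (b5_chi H Ψ s₀ s₁ ψ) (Ψ ξ) :=
    (hχ.differentiable (by norm_num)) _
  rw [← J_comp_holo hd hχd hB]
  have h1 : (fun ζ => b5_chi H Ψ s₀ s₁ ψ (Ψ ζ)) =ᶠ[𝓝 ξ] fun ζ => ψ ζ.re := by
    filter_upwards [(b5_S_open s₀ s₁).mem_nhds hξ] with ζ hζ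
    exact b5_chi_apply hC ψ hζ
  rw [J_congr h1 EventuallyEq.rfl]
  have hψd : DifferentiableAt ℝ ψ ξ.re := (hψ.differentiable (by norm_num)) _
  unfold J
  rw [dX_comp (f := fun w : ℂ => w.re) hψd reCLM.differentiableAt,
    dY_comp (f := fun w : ℂ => w.re) hψd reCLM.differentiableAt, dX_re, dY_re]
  ring

/-- The kernel. -/
noncomputable def b5_k (Ψ : ℂ → ℂ) (x₀ la : ℝ) (A B : ℂ → ℝ) (ξ : ℂ) : ℝ :=
  (x₀ + la * Real.cosh ξ.re * Real.cos ξ.im) * dY (fun ζ => B (Ψ ζ)) ξ -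
    la * Real.sinh ξ.re * Real.sin ξ.im * dY (fun ζ => A (Ψ ζ)) ξ

theorem b5_comp {D : Set ℂ} (hC : Collar H Ψ s₀ s s₁) {B : ℂ → ℝ} (hB : ContDiffOn ℝ 2 B D)
    (hD : ∀ ξ ∈ b5_S s₀ s₁, Ψ ξ ∈ D) : ContDiffOn ℝ 2 (fun ζ => B (Ψ ζ)) (b5_S s₀ s₁) := by
  have h1 : ContDiffOn ℂ 2 Ψ (b5_S s₀ s₁) := hC.diff.contDiffOn (b5_S_open s₀ s₁)
  exact hB.comp (h1.restrict_scalars ℝ) hD

theorem b5_dY_cont {D : Set ℂ} (hC : Collar H Ψ s₀ s s₁) {B : ℂ → ℝ}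
    (hB : ContDiffOn ℝ 2 B D) (hD : ∀ ξ ∈ b5_S s₀ s₁, Ψ ξ ∈ D) :
    ContinuousOn (dY (fun ζ => B (Ψ ζ))) (b5_S s₀ s₁) := by
  have h1 := (b5_comp hC hB hD).continuousOn_fderiv_of_isOpen (b5_S_open s₀ s₁) (by norm_num)
  exact h1.clm_apply continuousOn_const

theorem b5_k_cont {D : Set ℂ} (hC : Collar H Ψ s₀ s s₁) {A B : ℂ → ℝ} (x₀ la : ℝ)
    (hA : ContDiffOn ℝ 2 A D) (hB : ContDiffOn ℝ 2 B D) (hD : ∀ ξ ∈ b5_S s₀ s₁, Ψ ξ ∈ D) :
    ContinuousOn (b5_k Ψ x₀ la A B) (b5_S s₀ s₁) := by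
  have h1 := b5_dY_cont hC hA hD
  have h2 := b5_dY_cont hC hB hD
  unfold b5_k
  have c1 : Continuous (fun ξ : ℂ => x₀ + la * Real.cosh ξ.re * Real.cos ξ.im) := by fun_prop
  have c2 : Continuous (fun ξ : ℂ => la * Real.sinh ξ.re * Real.sin ξ.im) := by fun_prop
  exact (c1.continuousOn.mul h2).sub (c2.continuousOn.mul h1)

theorem b5_dY_period (hC : Collar H Ψ s₀ s s₁) (B : ℂ → ℝ) (ξ : ℂ) :
    dY (fun ζ => B (Ψ ζ)) (ξ + 2 * Real.pi * I) = dY (fun ζ => B (Ψ ζ)) ξ := by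
  unfold dY
  rw [← fderiv_comp_add_right (2 * Real.pi * I)]
  congr 2
  funext ζ
  rw [hC.period]

theorem b5_k_period (hC : Collar H Ψ s₀ s s₁) (x₀ la : ℝ) (A B : ℂ → ℝ) (ξ : ℂ) :
    b5_k Ψ x₀ la A B (ξ + 2 * Real.pi * I) = b5_k Ψ x₀ la A B ξ := by
  unfold b5_k
  rw [b5_dY_period hC, b5_dY_period hC]
  have h1 : (ξ + 2 * Real.pi * I).re = ξ.re := by simp
  have h2 : (ξ + 2 * Real.pi * I).im = ξ.im + 2 * Real.pi := by simp
  rw [h1, h2, Real.cos_add_two_pi, Real.sin_add_two_pi]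

/-- The derivative along the curve. -/
theorem b5_hasDeriv {D : Set ℂ} (hC : Collar H Ψ s₀ s s₁) {B : ℂ → ℝ}
    (hB : ContDiffOn ℝ 2 B D) (hD : ∀ ξ ∈ b5_S s₀ s₁, Ψ ξ ∈ D) {s' : ℝ} (h0 : s₀ < s')
    (h1 : s' < s₁) (t : ℝ) :
    HasDerivAt (fun t : ℝ => B (Ψ (s' + t * I))) (dY (fun ζ => B (Ψ ζ)) (s' + t * I)) t := by
  have hS : (s' + t * I : ℂ) ∈ b5_S s₀ s₁ := by
    constructor
    · simpa using h0
    · simpa using h1
  have h2 : HasDerivAt (fun t : ℝ => (s' + t * I : ℂ)) (1 * I) t :=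
    ((hasDerivAt_id t).ofReal_comp.mul_const I).const_add _
  have h3 : DifferentiableAt ℝ (fun ζ => B (Ψ ζ)) (s' + t * I : ℂ) :=
    ((b5_comp hC hB hD).contDiffAt ((b5_S_open s₀ s₁).mem_nhds hS)).differentiableAt (by norm_num)
  have h4 := h3.hasFDerivAt.comp_hasDerivAt t h2
  rw [one_mul] at h4
  exact h4

theorem b5_part {β w w' : ℝ → ℝ} {β' : ℝ → ℝ} {b m : ℝ} (hb : 0 ≤ b) (hm : 0 ≤ m)
    (h1 : ∀ t, HasDerivAt β (β' t) t) (h2 : ∀ t, HasDerivAt w (w' t) t)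
    (hc1 : Continuous β') (hc2 : Continuous w') (hβ : ∀ t, |β t| ≤ b) {c : ℝ}
    (hw : ∀ t, |w t| ≤ c) (hw' : ∀ t, |w' t| ≤ m) {u v : ℝ} (huv : u ≤ v)
    (hv : v ≤ u + 2 * Real.pi) : |∫ t in u..v, w t * β' t| ≤ 2 * c * b + 2 * Real.pi * m * b := by
  have hc : 0 ≤ c := (abs_nonneg _).trans (hw 0)
  rw [intervalIntegral.integral_mul_deriv_eq_deriv_mul (fun t _ => h2 t) (fun t _ => h1 t)
    (hc2.intervalIntegrable _ _) (hc1.intervalIntegrable _ _)]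
  have e1 : |w v * β v| ≤ c * b := by
    rw [abs_mul]
    exact mul_le_mul (hw v) (hβ v) (abs_nonneg _) hc
  have e2 : |w u * β u| ≤ c * b := by
    rw [abs_mul]
    exact mul_le_mul (hw u) (hβ u) (abs_nonneg _) hc
  have e3 : |∫ t in u..v, w' t * β t| ≤ (m * b) * (2 * Real.pi) := by
    have h3 : ‖∫ t in u..v, w' t * β t‖ ≤ (m * b) * |v - u| := by
      refine intervalIntegral.norm_integral_le_of_norm_le_const fun t _ => ?_
      rw [Real.norm_eq_abs, abs_mul]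
      exact mul_le_mul (hw' t) (hβ t) (abs_nonneg _) hm
    rw [Real.norm_eq_abs] at h3
    refine h3.trans (mul_le_mul_of_nonneg_left ?_ (by positivity))
    rw [abs_of_nonneg (by linarith)]
    linarith
  have e4 := abs_sub (w v * β v - w u * β u) (∫ t in u..v, w' t * β t)
  have e5 := abs_sub (w v * β v) (w u * β u)
  linarith

/-- The bound for the kernel on the boundary curve. -/
theorem b5_bound {D : Set ℂ} (hC : Collar H Ψ s₀ s s₁) {A B : ℂ → ℝ} {x₀ la M δ a b : ℝ}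
    (hA : ContDiffOn ℝ 2 A D) (hB : ContDiffOn ℝ 2 B D) (hD : ∀ ξ ∈ b5_S s₀ s₁, Ψ ξ ∈ D)
    (hAb : ∀ t : ℝ, |A (Ψ (s + t * I))| ≤ a) (hBb : ∀ t : ℝ, |B (Ψ (s + t * I))| ≤ b)
    (hs : 0 ≤ s) (hla : 0 ≤ la) (hx₀ : |x₀| ≤ M) (hcosh : la * Real.cosh s ≤ M)
    (hsinh : la * Real.sinh s ≤ δ) {u v : ℝ} (huv : u ≤ v) (hv : v ≤ u + 2 * Real.pi) :
    |∫ t in u..v, b5_k Ψ x₀ la A B (s + t * I)| ≤ 11 * (M * b + δ * a) := by
  have ha : 0 ≤ a := (abs_nonneg _).trans (hAb 0)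
  have hb : 0 ≤ b := (abs_nonneg _).trans (hBb 0)
  have hS : ∀ t : ℝ, (s + t * I : ℂ) ∈ b5_S s₀ s₁ := fun t => by
    constructor
    · simpa using hC.lt0
    · simpa using hC.lt1
  have hline : Continuous (fun t : ℝ => (s + t * I : ℂ)) := by fun_prop
  have cA : Continuous (fun t : ℝ => dY (fun ζ => A (Ψ ζ)) (s + t * I)) :=
    (b5_dY_cont hC hA hD).comp_continuous hline hS
  have cB : Continuous (fun t : ℝ => dY (fun ζ => B (Ψ ζ)) (s + t * I)) :=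
    (b5_dY_cont hC hB hD).comp_continuous hline hS
  have hch : 0 ≤ la * Real.cosh s := mul_nonneg hla (Real.cosh_pos s).le
  have hsh : 0 ≤ la * Real.sinh s := mul_nonneg hla (Real.sinh_nonneg_iff.2 hs)
  have hM : 0 ≤ M := (abs_nonneg _).trans hx₀
  have i1 := b5_part (β := fun t => B (Ψ (s + t * I)))
    (β' := fun t => dY (fun ζ => B (Ψ ζ)) (s + t * I))
    (w := fun t => x₀ + la * Real.cosh s * Real.cos t)
    (w' := fun t => la * Real.cosh s * (-Real.sin t)) (c := 2 * M) (m := M) hb hM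
    (fun t => b5_hasDeriv hC hB hD hC.lt0 hC.lt1 t)
    (fun t => ((Real.hasDerivAt_cos t).const_mul _).const_add _) cB (by fun_prop) hBb
    (fun t => by
      refine (abs_add_le _ _).trans ?_
      have h1 : |la * Real.cosh s * Real.cos t| ≤ M := by
        rw [abs_mul, abs_of_nonneg hch]
        have h2 := Real.abs_cos_le_one t
        nlinarith [abs_nonneg (Real.cos t)]
      linarith)
    (fun t => by
      rw [abs_mul, abs_of_nonneg hch, abs_neg]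
      have h2 := Real.abs_sin_le_one t
      nlinarith [abs_nonneg (Real.sin t)]) huv hv
  have i2 := b5_part (β := fun t => A (Ψ (s + t * I)))
    (β' := fun t => dY (fun ζ => A (Ψ ζ)) (s + t * I))
    (w := fun t => la * Real.sinh s * Real.sin t)
    (w' := fun t => la * Real.sinh s * Real.cos t) (c := la * Real.sinh s)
    (m := la * Real.sinh s) ha hsh
    (fun t => b5_hasDeriv hC hA hD hC.lt0 hC.lt1 t)
    (fun t => (Real.hasDerivAt_sin t).const_mul _) cA (by fun_prop) hAb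
    (fun t => by
      rw [abs_mul, abs_of_nonneg hsh]
      have h2 := Real.abs_sin_le_one t
      nlinarith [abs_nonneg (Real.sin t)])
    (fun t => by
      rw [abs_mul, abs_of_nonneg hsh]
      have h2 := Real.abs_cos_le_one t
      nlinarith [abs_nonneg (Real.cos t)]) huv hv
  have e : ∫ t in u..v, b5_k Ψ x₀ la A B (s + t * I) =
      (∫ t in u..v, (x₀ + la * Real.cosh s * Real.cos t) *
        dY (fun ζ => B (Ψ ζ)) (s + t * I)) -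
      ∫ t in u..v, (la * Real.sinh s * Real.sin t) * dY (fun ζ => A (Ψ ζ)) (s + t * I) := by
    rw [← intervalIntegral.integral_sub]
    · refine intervalIntegral.integral_congr fun t _ => ?_
      unfold b5_k
      simp
    · exact ((by fun_prop : Continuous fun t : ℝ => x₀ + la * Real.cosh s * Real.cos t).mul
        cB).intervalIntegrable _ _
    · exact ((by fun_prop : Continuous fun t : ℝ => la * Real.sinh s * Real.sin t).mul
        cA).intervalIntegrable _ _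
  rw [e]
  refine (abs_sub _ _).trans ?_
  have hpi := Real.pi_lt_d2
  have hpi0 := Real.pi_pos
  have e1 : (0 : ℝ) ≤ M * b := mul_nonneg hM hb
  have e2 : 0 ≤ (δ - la * Real.sinh s) * a := mul_nonneg (by linarith) ha
  have e3 : 0 ≤ la * Real.sinh s * a := mul_nonneg hsh ha
  nlinarith

theorem b5_near (hC : Collar H Ψ s₀ s s₁) {k : ℂ → ℝ} (hk : ContinuousOn k (b5_S s₀ s₁))
    {q : ℂ → ℝ} (hqc : ContinuousOn q Hᶜ) (hq01 : ∀ w ∉ H, 0 ≤ q w ∧ q w ≤ 1) {K σ : ℝ}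
    (hσ : 0 < σ)
    (h5 : ∀ᶠ s' : ℝ in 𝓝[>] s,
      |∫ t in (0 : ℝ)..(2 * Real.pi), q (Ψ (s' + t * I)) * k (s + t * I)| ≤ 2 * K + σ / 2) :
    ∀ᶠ s' : ℝ in 𝓝[>] s,
      |∫ t in (0 : ℝ)..(2 * Real.pi), q (Ψ (s' + t * I)) * k (s' + t * I)| ≤ 2 * K + σ := by
  have hpi := Real.pi_pos
  have he : 0 < σ / (4 * Real.pi) := by positivity
  have hO := b5_S_open s₀ s₁
  have hS : ∀ (x t : ℝ), s₀ < x → x < s₁ → (x + t * I : ℂ) ∈ b5_S s₀ s₁ := fun x t h1 h2 => by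
    constructor
    · simpa using h1
    · simpa using h2
  have hunif : ∀ᶠ s' : ℝ in 𝓝 s, ∀ t ∈ Icc (0 : ℝ) (2 * Real.pi),
      |k (s' + t * I) - k (s + t * I)| < σ / (4 * Real.pi) := by
    refine isCompact_Icc.eventually_forall_of_forall_eventually
      (P := fun s' t : ℝ => |k (s' + t * I) - k (s + t * I)| < σ / (4 * Real.pi)) fun y _ => ?_
    have c0 : ContinuousAt k ((s : ℂ) + (y : ℂ) * I) :=
      hk.continuousAt (hO.mem_nhds (hS s y hC.lt0 hC.lt1))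
    have c1 : ContinuousAt (fun z : ℝ × ℝ => k ((z.1 : ℂ) + (z.2 : ℂ) * I)) (s, y) :=
      ContinuousAt.comp (f := fun z : ℝ × ℝ => ((z.1 : ℂ) + (z.2 : ℂ) * I)) c0
        (by fun_prop)
    have c2 : ContinuousAt (fun z : ℝ × ℝ => k ((s : ℂ) + (z.2 : ℂ) * I)) (s, y) :=
      ContinuousAt.comp (f := fun z : ℝ × ℝ => ((s : ℂ) + (z.2 : ℂ) * I)) c0
        (by fun_prop)
    have c4 : Tendsto (fun z : ℝ × ℝ => |k ((z.1 : ℂ) + (z.2 : ℂ) * I) -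
        k ((s : ℂ) + (z.2 : ℂ) * I)|) (𝓝 (s, y)) (𝓝 0) := by
      have c3 := (Filter.Tendsto.sub c1.tendsto c2.tendsto).abs
      rw [sub_self, abs_zero] at c3
      exact c3
    exact c4.eventually (gt_mem_nhds he)
  have hlt : ∀ᶠ s' : ℝ in 𝓝[>] s, s' < s₁ :=
    nhdsWithin_le_nhds (gt_mem_nhds hC.lt1)
  filter_upwards [h5, nhdsWithin_le_nhds hunif, hlt, self_mem_nhdsWithin] with s' h1 h2 h3 h4
  have h4' : s < s' := h4
  have hs0 : s₀ < s' := hC.lt0.trans h4'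
  have cl : ∀ x : ℝ, Continuous (fun t : ℝ => (x + t * I : ℂ)) := fun x => by fun_prop
  have cΨ : Continuous (fun t : ℝ => Ψ (s' + t * I)) :=
    hC.diff.continuousOn.comp_continuous (cl s') fun t => hS s' t hs0 h3
  have hnH : ∀ t : ℝ, Ψ (s' + t * I) ∉ H := fun t =>
    hC.out _ (by simpa using h4') (by simpa using h3)
  have cq : Continuous (fun t : ℝ => q (Ψ (s' + t * I))) :=
    hqc.comp_continuous cΨ hnH
  have ck1 : Continuous (fun t : ℝ => k (s' + t * I)) :=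
    hk.comp_continuous (cl s') fun t => hS s' t hs0 h3
  have ck2 : Continuous (fun t : ℝ => k (s + t * I)) :=
    hk.comp_continuous (cl s) fun t => hS s t hC.lt0 hC.lt1
  have e1 : ∫ t in (0 : ℝ)..(2 * Real.pi), q (Ψ (s' + t * I)) * k (s' + t * I) =
      (∫ t in (0 : ℝ)..(2 * Real.pi), q (Ψ (s' + t * I)) * k (s + t * I)) +
      ∫ t in (0 : ℝ)..(2 * Real.pi), q (Ψ (s' + t * I)) * (k (s' + t * I) - k (s + t * I)) := by
    have g1 : Continuous (fun t : ℝ => q (Ψ (s' + t * I)) * k (s + t * I)) := cq.mul ck2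
    have g2 : Continuous (fun t : ℝ => q (Ψ (s' + t * I)) *
        (k (s' + t * I) - k (s + t * I))) := cq.mul (ck1.sub ck2)
    rw [← intervalIntegral.integral_add (g1.intervalIntegrable _ _)
      (g2.intervalIntegrable _ _)]
    refine intervalIntegral.integral_congr fun t _ => ?_
    ring
  have e2 : ‖∫ t in (0 : ℝ)..(2 * Real.pi),
      q (Ψ (s' + t * I)) * (k (s' + t * I) - k (s + t * I))‖ ≤
      (σ / (4 * Real.pi)) * |2 * Real.pi - 0| := by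
    refine intervalIntegral.norm_integral_le_of_norm_le_const fun t ht => ?_
    rw [uIoc_of_le (by positivity)] at ht
    have h6 := hq01 _ (hnH t)
    have h7 := (h2 t ⟨ht.1.le, ht.2⟩).le
    rw [Real.norm_eq_abs, abs_mul, abs_of_nonneg h6.1]
    nlinarith [abs_nonneg (k (s' + t * I) - k (s + t * I))]
  have e3 : (σ / (4 * Real.pi)) * |2 * Real.pi - 0| = σ / 2 := by
    rw [sub_zero, abs_of_pos (by positivity)]
    field_simp
    ring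
  rw [e3, Real.norm_eq_abs] at e2
  rw [e1]
  refine (abs_add_le _ _).trans ?_
  linarith

theorem b5_fubini {F : ℂ → ℝ} {a b c d : ℝ} (hab : a ≤ b) (hcd : c ≤ d)
    (hF : ContinuousOn F (Icc a b ×ℂ Icc c d)) :
    ∫ ξ in Ioo a b ×ℂ Ioo c d, F ξ = ∫ x in a..b, ∫ y in c..d, F (x + y * I) := by
  have h1 := volume_preserving_equiv_real_prod.setIntegral_preimage_emb
    measurableEquivRealProd.measurableEmbedding
    (fun z : ℝ × ℝ => F ((z.1 : ℂ) + (z.2 : ℂ) * I)) (Ioo a b ×ˢ Ioo c d)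
  have h2 : measurableEquivRealProd ⁻¹' (Ioo a b ×ˢ Ioo c d) = Ioo a b ×ℂ Ioo c d := rfl
  have h3 : ∀ ξ : ℂ, F (((measurableEquivRealProd ξ).1 : ℂ) +
      ((measurableEquivRealProd ξ).2 : ℂ) * I) = F ξ := by
    intro ξ
    congr 1
    exact Complex.re_add_im ξ
  rw [h2] at h1
  simp only [h3] at h1
  have hc : ContinuousOn (fun z : ℝ × ℝ => F ((z.1 : ℂ) + (z.2 : ℂ) * I))
      (Icc a b ×ˢ Icc c d) := by
    refine hF.comp (by fun_prop) fun z hz => ?_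
    rw [mem_reProdIm]
    constructor
    · simpa using hz.1
    · simpa using hz.2
  have hint : IntegrableOn (fun z : ℝ × ℝ => F ((z.1 : ℂ) + (z.2 : ℂ) * I))
      (Ioo a b ×ˢ Ioo c d) (volume.prod volume) :=
    (hc.integrableOn_compact (isCompact_Icc.prod isCompact_Icc)).mono_set
      (prod_mono Ioo_subset_Icc_self Ioo_subset_Icc_self)
  rw [h1, Measure.volume_eq_prod, setIntegral_prod _ hint,
    intervalIntegral.integral_of_le hab, integral_Ioc_eq_integral_Ioo]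
  refine setIntegral_congr_fun measurableSet_Ioo fun x _ => ?_
  simp only
  rw [intervalIntegral.integral_of_le hcd, integral_Ioc_eq_integral_Ioo]

/-- The Jacobian vanishes outside of the image of the transition zone. -/
theorem b5_J_zero (hC : Collar H Ψ s₀ s s₁) {ψ : ℝ → ℝ} {r : ℝ}
    (hr1 : s + 2 * r < s₁) (hψ : ContDiff ℝ (⊤ : ℕ∞) ψ) (hψ01 : ∀ t, 0 ≤ ψ t ∧ ψ t ≤ 1)
    (hψ0 : ∀ t, t ≤ s + r → ψ t = 0) (hψ1 : ∀ t, s + 2 * r ≤ t → ψ t = 1)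
    (hχ : ContDiff ℝ (⊤ : ℕ∞) (b5_chi H Ψ s₀ s₁ ψ)) {B : ℂ → ℝ} {z : ℂ} (hz : z ∉ H)
    (hz' : ∀ ξ : ℂ, s + r < ξ.re → ξ.re < s + 2 * r → Ψ ξ ≠ z)
    (hB : DifferentiableAt ℝ B z) : J (b5_chi H Ψ s₀ s₁ ψ) B z = 0 := by
  by_cases hzS : z ∈ Ψ '' b5_S s₀ s₁
  · obtain ⟨ξ, hξ, rfl⟩ := hzS
    have h1 := b5_J hC hψ hχ hξ hB
    have h2 : deriv ψ ξ.re = 0 := by
      rcases le_or_gt ξ.re (s + r) with h | h
      · have h3 : IsLocalMin ψ ξ.re := by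
          refine Eventually.of_forall fun t => ?_
          rw [hψ0 _ h]
          exact (hψ01 t).1
        exact h3.deriv_eq_zero
      · have h4 : s + 2 * r ≤ ξ.re := by
          by_contra h5
          push Not at h5
          exact hz' ξ h h5 rfl
        have h3 : IsLocalMax ψ ξ.re := by
          refine Eventually.of_forall fun t => ?_
          rw [hψ1 _ h4]
          exact (hψ01 t).2
        exact h3.deriv_eq_zero
    rw [h2, zero_mul] at h1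
    have h3 : ‖deriv Ψ ξ‖ ^ 2 ≠ 0 := pow_ne_zero _ (norm_ne_zero_iff.2 (b5_deriv_ne hC hξ))
    exact (mul_eq_zero.1 h1).resolve_left h3
  · have h1 : ∀ᶠ w in 𝓝 z, b5_chi H Ψ s₀ s₁ ψ w = 1 := by
      refine b5_chi_far hC hr1 hψ1 hz ?_
      intro ξ h2 h3 h4
      exact hzS ⟨ξ, ⟨lt_of_lt_of_le hC.lt0 h2, lt_of_le_of_lt h3 hr1⟩, h4⟩
    have h2 : b5_chi H Ψ s₀ s₁ ψ =ᶠ[𝓝 z] fun _ => (1 : ℝ) := h1
    rw [J_congr h2 EventuallyEq.rfl, J_const_left]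

theorem b5_J_cont {D : Set ℂ} (hD : IsOpen D) {χ B : ℂ → ℝ} (hχ : ContDiff ℝ (⊤ : ℕ∞) χ)
    (hB : ContDiffOn ℝ 2 B D) : ContinuousOn (J χ B) D := by
  have h1 : ContinuousOn (fderiv ℝ B) D := hB.continuousOn_fderiv_of_isOpen hD (by norm_num)
  have h2 : Continuous (fderiv ℝ χ) := hχ.continuous_fderiv (by norm_num)
  unfold J dX dY
  exact ((h2.clm_apply continuous_const).continuousOn.mul (h1.clm_apply continuousOn_const)).sub
    ((h2.clm_apply continuous_const).continuousOn.mul (h1.clm_apply continuousOn_const))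

/-- The line `Im ξ = 0` has a null image. -/
theorem b5_null (hC : Collar H Ψ s₀ s s₁) :
    volume (Ψ '' {ξ | ξ ∈ b5_S s₀ s₁ ∧ ξ.im = 0}) = 0 := by
  refine volume_image_null (b5_S_open s₀ s₁) hC.diff (fun ξ hξ => hξ.1) ?_
  refine measure_mono_null ?_ (volume_slit (s₀ : ℂ) 0 (s₁ - s₀))
  rintro ξ ⟨h1, h2⟩
  refine ⟨ξ.re - s₀, ⟨by linarith [h1.1], by linarith [h1.2]⟩, ?_⟩
  apply Complex.ext
  · simp
  · simp [h2]

end

theorem collar_term {ι : Type} {p : ι → ℂ} {τ ℓ : ι → ℝ} {ε R M δ L a b : ℝ} {H : Set ℂ}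
    {Ψ : ℂ → ℂ} {s₀ s s₁ x₀ y₀ lam : ℝ} {u v A B q : ℂ → ℝ} (hR : 0 < R) (hM : 0 < M)
    (hδ : 0 < δ) (hd : StepBData p τ ℓ ε R M δ H Ψ s₀ s s₁ x₀ y₀ lam u v)
    (hA : ContDiffOn ℝ 2 A (SF p τ ℓ)ᶜ) (hB : ContDiffOn ℝ 2 B (SF p τ ℓ)ᶜ)
    (hAb : ∀ z ∈ box R \ SF p τ ℓ, |A z| ≤ a) (hBb : ∀ z ∈ box R \ SF p τ ℓ, |B z| ≤ b)
    (hq : Weight H L q)
    (hq5 : ∀ (k : ℝ → ℝ) (K : ℝ), Continuous k → (∀ t, k (t + 2 * Real.pi) = k t) →
        (∀ u v : ℝ, u ≤ v → v ≤ u + 2 * Real.pi → |∫ t in u..v, k t| ≤ K) → ∀ ε > 0,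
        ∀ᶠ s' : ℝ in 𝓝[>] s, |∫ t in (0 : ℝ)..(2 * Real.pi), q (Ψ (s' + t * I)) * k t| ≤
          2 * K + ε)
    {O : Set ℂ} (hO : IsOpen O) (hHO : H ⊆ O) {σ : ℝ} (hσ : 0 < σ) :
    ∃ χ : ℂ → ℝ, ContDiff ℝ (⊤ : ℕ∞) χ ∧ (∀ z, 0 ≤ χ z ∧ χ z ≤ 1) ∧
      (∀ᶠ z in 𝓝ˢ H, χ z = 0) ∧ (∀ᶠ z in 𝓝ˢ Oᶜ, χ z = 1) ∧
      IntegrableOn (fun z => q z * ((z.re + u z) * J χ B z - (z.im - y₀ + v z) * J χ A z))
        (H ∪ SF p τ ℓ)ᶜ ∧
      |∫ z in (H ∪ SF p τ ℓ)ᶜ, q z * ((z.re + u z) * J χ B z - (z.im - y₀ + v z) * J χ A z)| ≤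
        2 * (11 * (M * b + δ * a)) + σ := by
  have hC := hd.collar
  have hpi := Real.pi_pos
  have hSFo : IsOpen (SF p τ ℓ)ᶜ := hd.fam.isOpen_compl
  have hDo : IsOpen (H ∪ SF p τ ℓ)ᶜ :=
    (hC.compact.union hd.fam.isCompact).isClosed.isOpen_compl
  have hoff : ∀ ξ ∈ b5_S s₀ s₁, Ψ ξ ∈ (SF p τ ℓ)ᶜ := fun ξ hξ => hd.off ξ hξ.1 hξ.2
  have hSopen := b5_S_open s₀ s₁
  have hS : ∀ (x t : ℝ), s₀ < x → x < s₁ → (x + t * I : ℂ) ∈ b5_S s₀ s₁ := fun x t h1 h2 => by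
    constructor
    · simpa using h1
    · simpa using h2
  have hkc := b5_k_cont hC x₀ lam hA hB hoff
  have hbox : ∀ t : ℝ, Ψ (s + t * I) ∈ box R \ SF p τ ℓ := by
    intro t
    have h1 := hC.sub t
    have h2 := mem_closedBall_zero_iff.1 (hd.ball h1)
    refine ⟨⟨?_, ?_⟩, fun h => Set.disjoint_left.1 hd.disj h1 h⟩
    · have h3 := abs_re_le_norm (Ψ (s + t * I))
      linarith
    · have h3 := abs_im_le_norm (Ψ (s + t * I))
      linarith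
  have hbound : ∀ u v : ℝ, u ≤ v → v ≤ u + 2 * Real.pi →
      |∫ t in u..v, b5_k Ψ x₀ lam A B (s + t * I)| ≤ 11 * (M * b + δ * a) := fun u v h1 h2 =>
    b5_bound hC hA hB hoff (fun t => hAb _ (hbox t)) (fun t => hBb _ (hbox t)) hd.hs hd.hlam
      hd.hx₀ hd.hcosh hd.hsinh h1 h2
  have hkline : Continuous (fun t : ℝ => b5_k Ψ x₀ lam A B (s + t * I)) :=
    hkc.comp_continuous (by fun_prop) fun t => hS s t hC.lt0 hC.lt1
  have hkper : ∀ t : ℝ, b5_k Ψ x₀ lam A B (s + ((t + 2 * Real.pi : ℝ) : ℂ) * I) =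
      b5_k Ψ x₀ lam A B (s + t * I) := by
    intro t
    rw [← b5_k_period hC x₀ lam A B (s + t * I)]
    congr 1
    push_cast
    ring
  have hev1 := b5_near hC hkc hq.cont hq.bd hσ
    (hq5 (fun t => b5_k Ψ x₀ lam A B (s + t * I)) _ hkline hkper hbound (σ / 2) (by linarith))
  have hev2 : ∀ᶠ s' : ℝ in 𝓝 s, ∀ t ∈ Icc (0 : ℝ) (2 * Real.pi), Ψ (s' + t * I) ∈ O := by
    refine isCompact_Icc.eventually_forall_of_forall_eventually
      (P := fun s' t : ℝ => Ψ (s' + t * I) ∈ O) fun y _ => ?_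
    have c0 : ContinuousAt Ψ ((s : ℂ) + (y : ℂ) * I) :=
      hC.diff.continuousOn.continuousAt (hSopen.mem_nhds (hS s y hC.lt0 hC.lt1))
    have c1 : ContinuousAt (fun z : ℝ × ℝ => Ψ ((z.1 : ℂ) + (z.2 : ℂ) * I)) (s, y) :=
      ContinuousAt.comp (f := fun z : ℝ × ℝ => ((z.1 : ℂ) + (z.2 : ℂ) * I)) c0
        (by fun_prop)
    exact c1.eventually (hO.mem_nhds (hHO (hC.sub y)))
  have hev3 : ∀ᶠ s' : ℝ in 𝓝[>] s, s' < s₁ := nhdsWithin_le_nhds (gt_mem_nhds hC.lt1)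
  have hev2' : ∀ᶠ s' : ℝ in 𝓝[>] s, ∀ t ∈ Icc (0 : ℝ) (2 * Real.pi), Ψ (s' + t * I) ∈ O :=
    eventually_nhdsWithin_of_eventually_nhds hev2
  obtain ⟨c, hc, hall0⟩ := mem_nhdsGT_iff_exists_Ioo_subset.1 (hev1.and (hev2'.and hev3))
  have hall : ∀ x : ℝ, s < x → x < c →
      |∫ t in (0 : ℝ)..(2 * Real.pi), q (Ψ (x + t * I)) * b5_k Ψ x₀ lam A B (x + t * I)| ≤
        2 * (11 * (M * b + δ * a)) + σ ∧
      (∀ t ∈ Icc (0 : ℝ) (2 * Real.pi), Ψ (x + t * I) ∈ O) ∧ x < s₁ :=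
    fun x h1 h2 => hall0 ⟨h1, h2⟩
  have hc' : s < c := hc
  obtain ⟨r, hr, hrc⟩ : ∃ r : ℝ, 0 < r ∧ s + 2 * r < c := ⟨(c - s) / 3, by linarith, by linarith⟩
  have hr1 : s + 2 * r < s₁ := (hall _ (by linarith) hrc).2.2
  -- the profile
  set ψ : ℝ → ℝ := fun t => Real.smoothTransition ((t - s - r) / r) with hψdef
  have hψ : ContDiff ℝ (⊤ : ℕ∞) ψ := Real.smoothTransition.contDiff.comp (by fun_prop)
  have hψ01 : ∀ t, 0 ≤ ψ t ∧ ψ t ≤ 1 := fun t =>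
    ⟨Real.smoothTransition.nonneg _, Real.smoothTransition.le_one _⟩
  have hψ0 : ∀ t, t ≤ s + r → ψ t = 0 := fun t ht =>
    Real.smoothTransition.zero_of_nonpos (div_nonpos_of_nonpos_of_nonneg (by linarith) hr.le)
  have hψ1 : ∀ t, s + 2 * r ≤ t → ψ t = 1 := fun t ht =>
    Real.smoothTransition.one_of_one_le (by rw [le_div_iff₀ hr]; linarith)
  have hψm : Monotone ψ := fun x y hxy =>
    Real.smoothTransition.monotone (div_le_div_of_nonneg_right (by linarith) hr.le)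
  have hχ := b5_chi_smooth hC hr hr1 hψ hψ0 hψ1
  have hJ0 : ∀ {B : ℂ → ℝ}, ContDiffOn ℝ 2 B (SF p τ ℓ)ᶜ → ∀ z ∈ (H ∪ SF p τ ℓ)ᶜ,
      (∀ ξ : ℂ, s + r < ξ.re → ξ.re < s + 2 * r → Ψ ξ ≠ z) →
      J (b5_chi H Ψ s₀ s₁ ψ) B z = 0 := by
    intro B hB z hz hz'
    have h1 : z ∉ SF p τ ℓ := fun h => hz (Or.inr h)
    exact b5_J_zero hC hr1 hψ hψ01 hψ0 hψ1 hχ (fun h => hz (Or.inl h)) hz'
      ((hB.contDiffAt (hSFo.mem_nhds h1)).differentiableAt (by norm_num))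
  -- the integrand
  have hfc : ContinuousOn (fun z => q z * ((z.re + u z) * J (b5_chi H Ψ s₀ s₁ ψ) B z -
      (z.im - y₀ + v z) * J (b5_chi H Ψ s₀ s₁ ψ) A z)) (H ∪ SF p τ ℓ)ᶜ := by
    have hsub : (H ∪ SF p τ ℓ)ᶜ ⊆ (SF p τ ℓ)ᶜ := compl_subset_compl.2 subset_union_right
    have hsub' : (H ∪ SF p τ ℓ)ᶜ ⊆ Hᶜ := compl_subset_compl.2 subset_union_left
    have c1 := (b5_J_cont hSFo hχ hB).mono hsub
    have c2 := (b5_J_cont hSFo hχ hA).mono hsub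
    have cu := (hd.niceu 0).smooth.continuousOn
    have cv := (hd.nicev 0).smooth.continuousOn
    have cq := hq.cont.mono hsub'
    have cr : Continuous (fun z : ℂ => z.re) := continuous_re
    have ci : Continuous (fun z : ℂ => z.im - y₀) := by fun_prop
    exact cq.mul (((cr.continuousOn.add cu).mul c1).sub ((ci.continuousOn.add cv).mul c2))
  have hrect : ∀ ξ ∈ Icc (s + r) (s + 2 * r) ×ℂ Icc 0 (2 * Real.pi),
      s < ξ.re ∧ ξ ∈ b5_S s₀ s₁ ∧ Ψ ξ ∈ (H ∪ SF p τ ℓ)ᶜ := by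
    intro ξ hξ
    have h1 := (mem_reProdIm.1 hξ).1
    have h2 : s < ξ.re := by linarith [h1.1]
    have h3 : ξ.re < s₁ := lt_of_le_of_lt h1.2 hr1
    have h4 : ξ ∈ b5_S s₀ s₁ := ⟨hC.lt0.trans h2, h3⟩
    refine ⟨h2, h4, ?_⟩
    rintro (h | h)
    · exact hC.out ξ h2 h3 h
    · exact hoff ξ h4 h
  have hcomp : IsCompact (Ψ '' (Icc (s + r) (s + 2 * r) ×ℂ Icc 0 (2 * Real.pi))) :=
    IsCompact.image_of_continuousOn (isCompact_Icc.reProdIm isCompact_Icc)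
      (hC.diff.continuousOn.mono fun ξ hξ => (hrect ξ hξ).2.1)
  have hint : IntegrableOn (fun z => q z * ((z.re + u z) * J (b5_chi H Ψ s₀ s₁ ψ) B z -
      (z.im - y₀ + v z) * J (b5_chi H Ψ s₀ s₁ ψ) A z)) (H ∪ SF p τ ℓ)ᶜ := by
    have h1 : IntegrableOn (fun z => q z * ((z.re + u z) * J (b5_chi H Ψ s₀ s₁ ψ) B z -
        (z.im - y₀ + v z) * J (b5_chi H Ψ s₀ s₁ ψ) A z))
        (Ψ '' (Icc (s + r) (s + 2 * r) ×ℂ Icc 0 (2 * Real.pi))) := by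
      refine (hfc.mono ?_).integrableOn_compact hcomp
      rintro _ ⟨ξ, hξ, rfl⟩
      exact (hrect ξ hξ).2.2
    refine h1.of_forall_sdiff_eq_zero hDo.measurableSet fun z hz => ?_
    have h2 : ∀ ξ : ℂ, s + r < ξ.re → ξ.re < s + 2 * r → Ψ ξ ≠ z := by
      intro ξ h3 h4 h5
      obtain ⟨t, ht, he⟩ := b5_reduce hC ξ
      refine hz.2 ⟨ξ.re + t * I, ?_, by rw [← he]; exact h5⟩
      rw [mem_reProdIm]
      constructor
      · simpa using ⟨h3.le, h4.le⟩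
      · simpa using ht
    rw [hJ0 hB z hz.1 h2, hJ0 hA z hz.1 h2]
    ring
  refine ⟨b5_chi H Ψ s₀ s₁ ψ, hχ, fun z => b5_chi_01 hψ01 z, ?_, ?_, hint, ?_⟩
  · rw [eventually_nhdsSet_iff_forall]
    intro x hx
    exact b5_chi_near_H hC hr hψ0 hx
  · rw [eventually_nhdsSet_iff_forall]
    intro x hx
    refine b5_chi_far hC hr1 hψ1 (fun h => hx (hHO h)) ?_
    intro ξ h1 h2 h3
    rcases eq_or_lt_of_le h1 with h4 | h4
    · have h5 := hC.inn ξ (by rw [← h4]; exact hC.lt0) h4.symm.le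
      rw [h3] at h5
      exact hx (hHO h5)
    · obtain ⟨t, ht, he⟩ := b5_reduce hC ξ
      have h5 := (hall _ h4 (by linarith)).2.1 t ht
      rw [← he, h3] at h5
      exact hx h5
  · -- the value
    set f : ℂ → ℝ := fun z => q z * ((z.re + u z) * J (b5_chi H Ψ s₀ s₁ ψ) B z -
      (z.im - y₀ + v z) * J (b5_chi H Ψ s₀ s₁ ψ) A z) with hf
    have hRo : IsOpen (Ioo (s + r) (s + 2 * r) ×ℂ Ioo 0 (2 * Real.pi)) :=
      isOpen_Ioo.reProdIm isOpen_Ioo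
    have hRsub : Ioo (s + r) (s + 2 * r) ×ℂ Ioo 0 (2 * Real.pi) ⊆
        Icc (s + r) (s + 2 * r) ×ℂ Icc 0 (2 * Real.pi) := by
      intro ξ hξ
      rw [mem_reProdIm] at hξ ⊢
      exact ⟨Ioo_subset_Icc_self hξ.1, Ioo_subset_Icc_self hξ.2⟩
    have hRS : Ioo (s + r) (s + 2 * r) ×ℂ Ioo 0 (2 * Real.pi) ⊆ b5_S s₀ s₁ := fun ξ hξ =>
      (hrect ξ (hRsub hξ)).2.1
    have hRinj : InjOn Ψ (Ioo (s + r) (s + 2 * r) ×ℂ Ioo 0 (2 * Real.pi)) := by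
      refine b5_inj hC hRS fun ξ hξ ξ' hξ' => ?_
      have h1 := (mem_reProdIm.1 hξ).2
      have h2 := (mem_reProdIm.1 hξ').2
      rw [abs_lt]
      constructor
      · linarith [h1.2, h2.1]
      · linarith [h1.1, h2.2]
    have hRd : DifferentiableOn ℂ Ψ (Ioo (s + r) (s + 2 * r) ×ℂ Ioo 0 (2 * Real.pi)) :=
      hC.diff.mono hRS
    have hRD : Ψ '' (Ioo (s + r) (s + 2 * r) ×ℂ Ioo 0 (2 * Real.pi)) ⊆ (H ∪ SF p τ ℓ)ᶜ := by
      rintro _ ⟨ξ, hξ, rfl⟩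
      exact (hrect ξ (hRsub hξ)).2.2
    have e1 : ∫ z in (H ∪ SF p τ ℓ)ᶜ, f z =
        ∫ z in Ψ '' (Ioo (s + r) (s + 2 * r) ×ℂ Ioo 0 (2 * Real.pi)), f z := by
      refine setIntegral_eq_of_subset_of_ae_sdiff_eq_zero
        hDo.measurableSet.nullMeasurableSet hRD ?_
      have hnull := b5_null hC
      filter_upwards [measure_eq_zero_iff_ae_notMem.1 hnull] with z hzN hz
      have h2 : ∀ ξ : ℂ, s + r < ξ.re → ξ.re < s + 2 * r → Ψ ξ ≠ z := by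
        intro ξ h3 h4 h5
        obtain ⟨t, ht, he⟩ := b5_reduce hC ξ
        rw [h5] at he
        have hSr : ∀ t : ℝ, ((ξ.re : ℂ) + t * I) ∈ b5_S s₀ s₁ := fun t =>
          hS ξ.re t (by linarith [hC.lt0]) (by linarith)
        rcases eq_or_lt_of_le ht.1 with h6 | h6
        · refine hzN ⟨ξ.re + t * I, ⟨hSr t, ?_⟩, he.symm⟩
          simp [← h6]
        · rcases eq_or_lt_of_le ht.2 with h7 | h7
          · refine hzN ⟨ξ.re, ⟨?_, ?_⟩, ?_⟩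
            · simpa using hSr 0
            · simp
            · rw [he, h7, ← hC.period]
              congr 1
              push_cast
              ring
          · refine hz.2 ⟨ξ.re + t * I, ?_, he.symm⟩
            rw [mem_reProdIm]
            constructor
            · simpa using ⟨h3, h4⟩
            · simpa using ⟨h6, h7⟩
      simp only [hf]
      rw [hJ0 hB z hz.1 h2, hJ0 hA z hz.1 h2]
      ring
    have e2 : ∫ z in Ψ '' (Ioo (s + r) (s + 2 * r) ×ℂ Ioo 0 (2 * Real.pi)), f z =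
        ∫ ξ in Ioo (s + r) (s + 2 * r) ×ℂ Ioo 0 (2 * Real.pi),
          deriv ψ ξ.re * (q (Ψ ξ) * b5_k Ψ x₀ lam A B ξ) := by
      rw [j6_change hRo hRd hRinj]
      refine setIntegral_congr_fun hRo.measurableSet fun ξ hξ => ?_
      obtain ⟨h1, h2, h3⟩ := hrect ξ (hRsub hξ)
      have h4 : Ψ ξ ∉ SF p τ ℓ := fun h => h3 (Or.inr h)
      have dA : DifferentiableAt ℝ A (Ψ ξ) :=
        (hA.contDiffAt (hSFo.mem_nhds h4)).differentiableAt (by norm_num)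
      have dB : DifferentiableAt ℝ B (Ψ ξ) :=
        (hB.contDiffAt (hSFo.mem_nhds h4)).differentiableAt (by norm_num)
      have jA := b5_J hC hψ hχ h2 dA
      have jB := b5_J hC hψ hχ h2 dB
      simp only [hf]
      rw [hd.eqU ξ h1 h2.2, hd.eqV ξ h1 h2.2]
      unfold b5_k
      linear_combination (q (Ψ ξ) * (x₀ + lam * Real.cosh ξ.re * Real.cos ξ.im)) * jB -
        (q (Ψ ξ) * (lam * Real.sinh ξ.re * Real.sin ξ.im)) * jA
    have hψd : Continuous (deriv ψ) := hψ.continuous_deriv (by norm_num)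
    have hFc : ContinuousOn (fun ξ : ℂ => deriv ψ ξ.re * (q (Ψ ξ) * b5_k Ψ x₀ lam A B ξ))
        (Icc (s + r) (s + 2 * r) ×ℂ Icc 0 (2 * Real.pi)) := by
      have c1 : ContinuousOn (fun ξ : ℂ => q (Ψ ξ))
          (Icc (s + r) (s + 2 * r) ×ℂ Icc 0 (2 * Real.pi)) :=
        hq.cont.comp (hC.diff.continuousOn.mono fun ξ hξ => (hrect ξ hξ).2.1)
          fun ξ hξ h => (hrect ξ hξ).2.2 (Or.inl h)
      have c2 : ContinuousOn (b5_k Ψ x₀ lam A B)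
          (Icc (s + r) (s + 2 * r) ×ℂ Icc 0 (2 * Real.pi)) :=
        hkc.mono fun ξ hξ => (hrect ξ hξ).2.1
      have c3 : Continuous (fun ξ : ℂ => deriv ψ ξ.re) := hψd.comp continuous_re
      exact c3.continuousOn.mul (c1.mul c2)
    have e3 := b5_fubini (by linarith : s + r ≤ s + 2 * r) (by positivity : 0 ≤ 2 * Real.pi) hFc
    rw [e1, e2, e3]
    have hii : IntervalIntegrable (fun x => deriv ψ x * (2 * (11 * (M * b + δ * a)) + σ)) volume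
        (s + r) (s + 2 * r) := (hψd.mul continuous_const).intervalIntegrable _ _
    have e4 : ‖∫ x in (s + r)..(s + 2 * r), ∫ y in (0 : ℝ)..(2 * Real.pi),
        (fun ξ : ℂ => deriv ψ ξ.re * (q (Ψ ξ) * b5_k Ψ x₀ lam A B ξ)) (x + y * I)‖ ≤
        ∫ x in (s + r)..(s + 2 * r), deriv ψ x * (2 * (11 * (M * b + δ * a)) + σ) := by
      refine intervalIntegral.norm_integral_le_of_norm_le (by linarith)
        (Eventually.of_forall fun x hx => ?_) hii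
      have h1 : ∫ y in (0 : ℝ)..(2 * Real.pi),
          (fun ξ : ℂ => deriv ψ ξ.re * (q (Ψ ξ) * b5_k Ψ x₀ lam A B ξ)) (x + y * I) =
          deriv ψ x * ∫ y in (0 : ℝ)..(2 * Real.pi),
            q (Ψ (x + y * I)) * b5_k Ψ x₀ lam A B (x + y * I) := by
        rw [← intervalIntegral.integral_const_mul]
        refine intervalIntegral.integral_congr fun y _ => ?_
        simp
      rw [h1, norm_mul, Real.norm_eq_abs, Real.norm_eq_abs, abs_of_nonneg hψm.deriv_nonneg]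
      refine mul_le_mul_of_nonneg_left ?_ hψm.deriv_nonneg
      exact (hall _ (by linarith [hx.1]) (by linarith [hx.2])).1
    rw [Real.norm_eq_abs] at e4
    refine e4.trans (le_of_eq ?_)
    rw [intervalIntegral.integral_mul_const,
      intervalIntegral.integral_deriv_eq_sub
        (fun x _ => (hψ.differentiable (by norm_num)) x) (hψd.intervalIntegrable _ _),
      hψ1 _ le_rfl, hψ0 _ le_rfl]
    ring

end RSM2
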