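import Pool.Agent.RSM2.B4

/-!
# RSM2 module B6: the signal in step (b)

`ξ` is an even `C^∞` function on the line, `0 ≤ ξ ≤ 1`, `ξ = 1` on `[-5R/4, 5R/4]`, `ξ = 0` off
`[-7R/4, 7R/4]`, monotone on the half lines, `|ξ'| ≤ 100/R`; `ω₀ (x + iy) = ξ x ξ y`.
The weight `q` is `0` far to the right, above and below, and `q w = Q (im w)` far to the left.

PROOF of `exists_xi`: `ξ t = smoothTransition ((7R/4 - |t|) / (R/2))`, or a product of two such functions
(`|t|` is not smooth at `0` but the function is constant there); derivative bound: scale the case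
`R = 1` (the bound `100` is generous: `smoothTransition' ≤ 8`... if it is inconvenient, the
constant may be replaced: the statement only says that some universal `K₀` exists).
PROOF of `signal`.  `J ω₀ B`, `J ω₀ A` vanish on `[-5R/4, 5R/4]²`, which contains a neighbourhood of `H`
and the slits, and `u = v = 0` outside of `closedBall 0 R`.  Outside of `[-5R/4, 5R/4]²` (so `R < ‖w‖`)
`q w ≠ 0` only if `re w < 0` and `|im w| ≤ R` (far field properties), so `re w < -5R/4`,
`q w = Q (im w)`, `ω₀ = ξ(x)` near `w`, `J ω₀ B = ξ'(x) B_y = ξ'(x) A_x`, `J ω₀ A = ξ'(x) A_y`.  Hence the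
integral is
`∫∫_{x < 0} Q(y) (x ξ'(x) A_x - (y - y₀) ξ'(x) A_y) dx dy`.  The first part is at most
`2R (K₀/R) ∫_box |A_x|`.  There are no slits in `x < -R`; integration by parts in `y` (`Q` is
`C¹` and vanishes off `[-R, R]`): the second part is
`∫_{x<0} ξ'(x) ∫ (Q(y)(y - y₀))' A dy dx = ∫_{x<0} ξ'(x) ∫ (Q(y)(y - y₀))' y dy dx + err
= -∫ Q(y) (y - y₀) dy + err` (`∫_{x<0} ξ' = 1`), with
`|err| ≤ η ∫_{x<0} |ξ'| ∫_{-R}^{R} (|Q'| |y - y₀| + |Q|) dy ≤ η · 2R (2 R L + 1)`
(`|A - y| ≤ η` on `box R \ SF`, `|y - y₀| ≤ 2R`, `ξ' ≥ 0` on `x < 0`).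
-/

set_option linter.unusedVariables false

open Complex Set Metric Filter Topology MeasureTheory

namespace RSM2


/-- The profile of the outer cut-off function. -/
structure Profile (R K₀ : ℝ) (ξ : ℝ → ℝ) : Prop where
  smooth : ContDiff ℝ (⊤ : ℕ∞) ξ
  even : ∀ t, ξ (-t) = ξ t
  bd : ∀ t, 0 ≤ ξ t ∧ ξ t ≤ 1
  one : ∀ t, |t| ≤ 5 * R / 4 → ξ t = 1
  zero : ∀ t, 7 * R / 4 ≤ |t| → ξ t = 0
  mono : MonotoneOn ξ (Iic 0)
  der : ∀ t, |deriv ξ t| ≤ K₀ / R

private noncomputable def b6xi (t : ℝ) : ℝ :=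
  Real.smoothTransition ((7 / 4 - t) * 2) * Real.smoothTransition ((7 / 4 + t) * 2)

private lemma b6xi_smooth : ContDiff ℝ (⊤ : ℕ∞) b6xi := by
  unfold b6xi
  exact (Real.smoothTransition.contDiff.comp (by fun_prop)).mul
    (Real.smoothTransition.contDiff.comp (by fun_prop))

private lemma b6xi_left {t : ℝ} (ht : t ≤ 0) :
    b6xi t = Real.smoothTransition ((7 / 4 + t) * 2) := by
  unfold b6xi
  rw [Real.smoothTransition.one_of_one_le (by linarith), one_mul]

private lemma b6xi_zero {t : ℝ} (ht : 7 / 4 ≤ |t|) : b6xi t = 0 := by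
  unfold b6xi
  rcases le_abs.1 ht with h | h
  · rw [Real.smoothTransition.zero_of_nonpos (by linarith), zero_mul]
  · rw [Real.smoothTransition.zero_of_nonpos (x := (7 / 4 + t) * 2) (by linarith), mul_zero]

private lemma b6xi_der : ∃ C : ℝ, ∀ t, |deriv b6xi t| ≤ C := by
  have h1 : HasCompactSupport b6xi := by
    refine HasCompactSupport.of_support_subset_isCompact (isCompact_Icc (a := (-7 / 4 : ℝ)) (b := 7 / 4)) ?_
    intro t ht
    by_contra h
    apply ht
    apply b6xi_zero
    rw [mem_Icc, not_and_or] at h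
    rw [le_abs]
    rcases h with h | h
    · right; linarith
    · left; linarith
  have h2 : Continuous (deriv b6xi) := b6xi_smooth.continuous_deriv (by norm_num)
  obtain ⟨C, hC⟩ := h1.deriv.exists_bound_of_continuous h2
  exact ⟨C, fun t => by simpa using hC t⟩

theorem exists_profile : ∃ K₀ > 0, ∀ R > 0, ∃ ξ : ℝ → ℝ, Profile R K₀ ξ := by
  obtain ⟨C, hC⟩ := b6xi_der
  refine ⟨|C| + 1, by positivity, fun R hR => ⟨fun t => b6xi (t / R), ?_⟩⟩
  have habs : ∀ t : ℝ, |t / R| = |t| / R := fun t => by rw [abs_div, abs_of_pos hR]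
  refine ⟨?_, ?_, ?_, ?_, ?_, ?_, ?_⟩
  · exact b6xi_smooth.comp (by fun_prop)
  · intro t
    simp only [b6xi]
    rw [mul_comm (Real.smoothTransition ((7 / 4 - -t / R) * 2))]
    congr 2 <;> ring
  · intro t
    have h1 := Real.smoothTransition.nonneg ((7 / 4 - t / R) * 2)
    have h2 := Real.smoothTransition.nonneg ((7 / 4 + t / R) * 2)
    have h3 := Real.smoothTransition.le_one ((7 / 4 - t / R) * 2)
    have h4 := Real.smoothTransition.le_one ((7 / 4 + t / R) * 2)
    exact ⟨mul_nonneg h1 h2, mul_le_one₀ h3 h2 h4⟩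
  · intro t ht
    have h1 : |t / R| ≤ 5 / 4 := by
      rw [habs, div_le_iff₀ hR]; linarith
    rw [abs_le] at h1
    simp only [b6xi]
    rw [Real.smoothTransition.one_of_one_le (by linarith),
      Real.smoothTransition.one_of_one_le (by linarith), one_mul]
  · intro t ht
    apply b6xi_zero
    rw [habs, le_div_iff₀ hR]; linarith
  · intro x hx y hy hxy
    have hx' : x / R ≤ 0 := div_nonpos_of_nonpos_of_nonneg hx hR.le
    have hy' : y / R ≤ 0 := div_nonpos_of_nonpos_of_nonneg hy hR.le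
    simp only
    rw [b6xi_left hx', b6xi_left hy']
    apply Real.smoothTransition.monotone
    have : x / R ≤ y / R := div_le_div_of_nonneg_right hxy hR.le
    linarith
  · intro t
    have h1 : HasDerivAt (fun t => b6xi (t / R)) (deriv b6xi (t / R) * (1 / R)) t := by
      have h2 : HasDerivAt b6xi (deriv b6xi (t / R)) (t / R) :=
        (b6xi_smooth.differentiable (by norm_num) _).hasDerivAt
      have h3 : HasDerivAt (fun t : ℝ => t / R) (1 / R) t := (hasDerivAt_id t).div_const R
      exact h2.comp t h3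
    rw [h1.deriv, abs_mul, abs_of_pos (by positivity : (0:ℝ) < 1 / R), mul_one_div]
    apply div_le_div_of_nonneg_right _ hR.le
    have := hC (t / R)
    linarith [le_abs_self C]



private lemma b6_fubini {G : ℂ → ℝ} (hG : Integrable G) :
    ∫ z, G z = ∫ x : ℝ, ∫ y : ℝ, G (x + y * I) ∧
      Integrable (fun x : ℝ => ∫ y : ℝ, G (x + y * I)) := by
  have hmp := Complex.volume_preserving_equiv_real_prod.symm
  have h0 : ∀ p : ℝ × ℝ, Complex.measurableEquivRealProd.symm p = (p.1 : ℂ) + p.2 * I := fun p =>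
    Complex.mk_eq_add_mul_I _ _
  have h1 : Integrable (fun p : ℝ × ℝ => G (p.1 + p.2 * I)) := by
    have := (hmp.integrable_comp_emb (MeasurableEquiv.measurableEmbedding _)).2 hG
    exact this.congr (Eventually.of_forall fun p => by simp only [Function.comp, h0])
  have h2 : ∫ z, G z = ∫ p : ℝ × ℝ, G (p.1 + p.2 * I) := by
    rw [← hmp.integral_comp (MeasurableEquiv.measurableEmbedding _) G]
    simp only [h0]
  have h1' : Integrable (fun p : ℝ × ℝ => G (p.1 + p.2 * I)) (volume.prod volume) := h1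
  refine ⟨?_, h1'.integral_prod_left⟩
  rw [h2]
  exact integral_prod _ h1'

/-- The estimate on a vertical line. -/
private lemma b6_line {A : ℂ → ℝ} {R L η y₀ x : ℝ} {Q : ℝ → ℝ} (hR : 0 < R)
    (hL : 0 ≤ L) (hy₀ : |y₀| ≤ R) (hQ : ContDiff ℝ 1 Q) (hQ1 : ∀ y, |Q y| ≤ 1)
    (hQL : ∀ y, |deriv Q y| ≤ L) (hQs : ∀ y, R < |y| → Q y = 0)
    (hA : ContDiffOn ℝ 2 A {z : ℂ | z.re < -R}) (hx : x < -R)
    (hn : ∀ y : ℝ, |y| ≤ R → |A (x + y * I) - y| ≤ η) :
    |(∫ y : ℝ, (Q y * (y - y₀)) * dY A (x + y * I)) - ∫ y, Q y * (y - y₀)| ≤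
      η * (2 * R * (2 * R * L + 1)) := by
  have hop : IsOpen {z : ℂ | z.re < -R} := isOpen_lt Complex.continuous_re continuous_const
  have hmem : ∀ y : ℝ, ((x : ℂ) + y * I) ∈ {z : ℂ | z.re < -R} := fun y => by
    simpa using hx
  set h : ℝ → ℝ := fun y => Q y * (y - y₀) with hdef
  have hder : ∀ y, HasDerivAt h (deriv Q y * (y - y₀) + Q y) y := by
    intro y
    have h1 := ((hQ.differentiable (by norm_num)) y).hasDerivAt
    have h2 : HasDerivAt (fun y : ℝ => y - y₀) 1 y := (hasDerivAt_id y).sub_const y₀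
    simpa using h1.fun_mul h2
  have hhc : Continuous h := by
    have := hQ.continuous
    fun_prop
  have hh'c : Continuous (fun y => deriv Q y * (y - y₀) + Q y) := by
    have h1 := hQ.continuous
    have h2 : Continuous (deriv Q) := hQ.continuous_deriv (by norm_num)
    fun_prop
  have hsup : ∀ y, y ∉ Icc (-R) R → h y = 0 := by
    intro y hy
    have : R < |y| := by
      by_contra h0
      exact hy (abs_le.1 (not_lt.1 h0))
    simp [hdef, hQs y this]
  have hcs : HasCompactSupport h := HasCompactSupport.intro isCompact_Icc hsup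
  have hts : tsupport h ⊆ Icc (-R) R := by
    refine closure_minimal ?_ isClosed_Icc
    intro y hy
    by_contra h0
    exact hy (hsup y h0)
  have hsup' : ∀ y, y ∉ Icc (-R) R → deriv Q y * (y - y₀) + Q y = 0 := by
    intro y hy
    rw [← (hder y).deriv]
    by_contra h0
    exact hy (hts (support_deriv_subset h0))
  have hcs' : HasCompactSupport (fun y => deriv Q y * (y - y₀) + Q y) :=
    HasCompactSupport.intro isCompact_Icc hsup'
  have hvd : ∀ y : ℝ, HasDerivAt (fun t : ℝ => A (x + t * I) - t) (dY A (x + y * I) - 1) y := by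
    intro y
    have h1 : HasFDerivAt A (fderiv ℝ A (x + y * I)) (x + y * I) :=
      ((hA.differentiableOn (by norm_num)).differentiableAt (hop.mem_nhds (hmem y))).hasFDerivAt
    have h2 : HasDerivAt (fun t : ℝ => (x : ℂ) + t * I) I y := by
      have h3 : HasDerivAt (fun t : ℝ => (t : ℂ)) 1 y := Complex.ofRealCLM.hasDerivAt
      simpa using (h3.mul_const I).const_add (x : ℂ)
    have h3 := h1.comp_hasDerivAt y h2
    exact h3.sub (hasDerivAt_id y)
  have hfc : ContinuousOn (fderiv ℝ A) {z : ℂ | z.re < -R} :=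
    hA.continuousOn_fderiv_of_isOpen hop (by norm_num)
  have hline : Continuous (fun y : ℝ => (x : ℂ) + y * I) := by fun_prop
  have hdc : Continuous (fun y : ℝ => dY A (x + y * I)) := by
    have := hfc.comp_continuous hline hmem
    exact this.clm_apply continuous_const
  have hvc : Continuous (fun y : ℝ => A (x + y * I) - y) :=
    (hA.continuousOn.comp_continuous hline hmem).sub continuous_id
  have hpi : Integrable (fun y => h y * dY A (x + y * I)) :=
    (hhc.mul hdc).integrable_of_hasCompactSupport hcs.mul_right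
  have hhi : Integrable h := hhc.integrable_of_hasCompactSupport hcs
  have hparts := integral_mul_deriv_eq_deriv_mul_of_integrable (fun y _ => hder y) (fun y _ => hvd y)
    ((hhc.mul (hdc.sub continuous_const)).integrable_of_hasCompactSupport hcs.mul_right)
    ((hh'c.mul hvc).integrable_of_hasCompactSupport hcs'.mul_right)
    ((hhc.mul hvc).integrable_of_hasCompactSupport hcs.mul_right)
  have h1 : (∫ y : ℝ, h y * dY A (x + y * I)) - ∫ y, h y =
      ∫ y : ℝ, h y * (dY A (x + y * I) - 1) := by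
    rw [← integral_sub hpi hhi]
    congr 1
    funext y
    ring
  change |(∫ y : ℝ, h y * dY A (x + y * I)) - ∫ y, h y| ≤ _
  rw [h1, hparts, abs_neg]
  have h2 : ∫ y : ℝ, (deriv Q y * (y - y₀) + Q y) * (A (x + y * I) - y) =
      ∫ y in Icc (-R) R, (deriv Q y * (y - y₀) + Q y) * (A (x + y * I) - y) := by
    symm
    apply setIntegral_eq_integral_of_forall_compl_eq_zero
    intro y hy
    rw [hsup' y hy, zero_mul]
  rw [h2]
  have h3 := norm_setIntegral_le_of_norm_le_const (μ := volume) (s := Icc (-R) R)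
    (f := fun y : ℝ => (deriv Q y * (y - y₀) + Q y) * (A (x + y * I) - y))
    (C := (L * (2 * R) + 1) * η) (by simp) (by
      intro y hy
      have hy' : |y| ≤ R := abs_le.2 hy
      rw [Real.norm_eq_abs, abs_mul]
      refine mul_le_mul ?_ (hn y hy') (abs_nonneg _) (by positivity)
      refine (abs_add_le _ _).trans (add_le_add ?_ (hQ1 y))
      rw [abs_mul]
      refine mul_le_mul (hQL y) ?_ (abs_nonneg _) hL
      refine (abs_sub _ _).trans ?_
      linarith)
  rw [Real.norm_eq_abs] at h3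
  refine h3.trans (le_of_eq ?_)
  rw [Measure.real, Real.volume_Icc, ENNReal.toReal_ofReal (by linarith)]
  ring


private lemma b6_deriv_one {R K₀ : ℝ} {ξ : ℝ → ℝ} (h : Profile R K₀ ξ) {t : ℝ}
    (ht : |t| ≤ 5 * R / 4) : deriv ξ t = 0 := by
  apply IsLocalMax.deriv_eq_zero
  exact Eventually.of_forall fun s => by rw [h.one t ht]; exact (h.bd s).2

private lemma b6_deriv_zero {R K₀ : ℝ} {ξ : ℝ → ℝ} (h : Profile R K₀ ξ) {t : ℝ}
    (ht : 7 * R / 4 ≤ |t|) : deriv ξ t = 0 := by
  apply IsLocalMin.deriv_eq_zero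
  exact Eventually.of_forall fun s => by rw [h.zero t ht]; exact (h.bd s).1

private lemma b6_deriv_nonneg {R K₀ : ℝ} {ξ : ℝ → ℝ} (h : Profile R K₀ ξ) {t : ℝ}
    (ht : t < 0) : 0 ≤ deriv ξ t := by
  have := h.mono.derivWithin_nonneg (x := t)
  rwa [derivWithin_of_mem_nhds (Iic_mem_nhds ht)] at this

private lemma b6_deriv_cont {R K₀ : ℝ} {ξ : ℝ → ℝ} (h : Profile R K₀ ξ) :
    Continuous (deriv ξ) := h.smooth.continuous_deriv (by norm_num)

private lemma b6_deriv_integrable {R K₀ : ℝ} {ξ : ℝ → ℝ} (h : Profile R K₀ ξ) :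
    Integrable (deriv ξ) := by
  refine (b6_deriv_cont h).integrable_of_hasCompactSupport ?_
  refine HasCompactSupport.intro (isCompact_Icc (a := -(7 * R / 4)) (b := 7 * R / 4)) ?_
  intro t ht
  apply b6_deriv_zero h
  by_contra h0
  exact ht (abs_le.1 (not_le.1 h0).le)

private lemma b6_deriv_int {R K₀ : ℝ} (hR : 0 < R) {ξ : ℝ → ℝ} (h : Profile R K₀ ξ) :
    ∫ x in Iio (-R), deriv ξ x = 1 := by
  have h1 : ∫ x in Iio (-R), deriv ξ x = ∫ x in Ioo (-(2 * R)) (-R), deriv ξ x := by
    apply setIntegral_eq_of_subset_of_forall_sdiff_eq_zero measurableSet_Iio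
    · intro x hx; exact hx.2
    · intro x hx
      apply b6_deriv_zero h
      have h2 : x ≤ -(2 * R) := by
        by_contra h3
        exact hx.2 ⟨not_le.1 h3, hx.1⟩
      rw [abs_of_nonpos (by linarith)]
      linarith
  rw [h1, ← integral_Ioc_eq_integral_Ioo, ← intervalIntegral.integral_of_le (by linarith),
    intervalIntegral.integral_deriv_eq_sub (fun x _ => (h.smooth.differentiable (by norm_num)) x)
      ((b6_deriv_cont h).intervalIntegrable _ _), h.one (-R), h.zero (-(2 * R))]
  · norm_num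
  · rw [abs_neg, abs_of_pos (by linarith)]; linarith
  · rw [abs_neg, abs_of_pos hR]; linarith

private lemma b6_box_int {ι : Type} {p : ι → ℂ} {τ ℓ : ι → ℝ} {R : ℝ} {A : ℂ → ℝ}
    (hA : ∀ r, Nice (SF p τ ℓ)ᶜ (closedBall 0 r) A) :
    IntegrableOn (fun z => ‖fderiv ℝ A z‖) (box R \ SF p τ ℓ) := by
  have hsub : box R \ SF p τ ℓ ⊆ (SF p τ ℓ)ᶜ ∩ closedBall 0 (4 * R) := by
    intro z hz
    refine ⟨hz.2, ?_⟩
    rw [mem_closedBall_zero_iff]
    have h1 := Complex.norm_le_abs_re_add_abs_im z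
    have h2 := hz.1.1
    have h3 := hz.1.2
    linarith
  have h2 : IntegrableOn (fun z => ‖fderiv ℝ A z‖ ^ 2) (box R \ SF p τ ℓ) :=
    (hA (4 * R)).l2.mono_set hsub
  have h3 : IntegrableOn (fun _ : ℂ => (1 : ℝ)) (box R \ SF p τ ℓ) :=
    integrableOn_const ((measure_mono (hsub.trans inter_subset_right)).trans_lt
      measure_closedBall_lt_top).ne
  refine (h3.add h2).mono' (measurable_fderiv ℝ A).norm.aestronglyMeasurable ?_
  refine Eventually.of_forall fun z => ?_
  rw [norm_norm]
  simp only [Pi.add_apply]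
  nlinarith [sq_nonneg (‖fderiv ℝ A z‖ - 1)]

theorem signal {ι : Type} {p : ι → ℂ} {τ ℓ : ι → ℝ} {ε R M δ C η L K₀ : ℝ} {H : Set ℂ}
    {Ψ : ℂ → ℂ} {s₀ s s₁ x₀ y₀ lam : ℝ} {u v A B q : ℂ → ℝ} (hR : 0 < R) (hK₀ : 0 < K₀)
    (hη : 0 ≤ η) (hL : 0 ≤ L)
    (hd : StepBData p τ ℓ ε R M δ H Ψ s₀ s s₁ x₀ y₀ lam u v)
    (hAB : TestPair p τ ℓ ε R C η A B) (hq : Weight H L q) {ξ Q : ℝ → ℝ}
    (hξ : Profile R K₀ ξ) (hQ : ContDiff ℝ 1 Q) (hQ1 : ∀ y, |Q y| ≤ 1)
    (hQL : ∀ y, |deriv Q y| ≤ L) (hQs : ∀ y, R < |y| → Q y = 0)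
    (hq3 : ∀ w : ℂ, w.re < -R → q w = Q w.im)
    (hq4 : ∀ w : ℂ, R < ‖w‖ → (0 ≤ w.re ∨ R < |w.im|) → q w = 0) :
    |(∫ z in (H ∪ SF p τ ℓ)ᶜ, q z * ((z.re + u z) * J (fun w => ξ w.re * ξ w.im) B z -
        (z.im - y₀ + v z) * J (fun w => ξ w.re * ξ w.im) A z)) + ∫ y, Q y * (y - y₀)| ≤
      2 * K₀ * (∫ z in box R \ SF p τ ℓ, |dX A z|) + η * (2 * R * (2 * R * L + 1)) := by
  set S : Set ℂ := {z : ℂ | z.re < -R} with hS
  have hSo : IsOpen S := isOpen_lt Complex.continuous_re continuous_const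
  have hSm : MeasurableSet S := hSo.measurableSet
  have hSF : S ⊆ (SF p τ ℓ)ᶜ := by
    intro z hz hz2
    obtain ⟨j, hj⟩ := mem_iUnion.1 hz2
    have h1 := (hd.fam.box j z hj).1
    have h2 := neg_abs_le z.re
    have h3 : z.re < -R := hz
    linarith
  have hSD : S ⊆ (H ∪ SF p τ ℓ)ᶜ := by
    intro z hz hz2
    rcases hz2 with hz2 | hz2
    · have h1 := hd.ball hz2
      rw [mem_closedBall_zero_iff] at h1
      have h2 := neg_abs_le z.re
      have h3 := Complex.abs_re_le_norm z
      have h4 : z.re < -R := hz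
      linarith
    · exact hSF hz hz2
  have hHc : IsClosed H := hq.closedH
  have hDm : MeasurableSet (H ∪ SF p τ ℓ)ᶜ :=
    (hHc.union hd.fam.isCompact.isClosed).isOpen_compl.measurableSet
  set g₁ : ℂ → ℝ := fun z => Q z.im * (z.re * deriv ξ z.re * dX A z) with hg₁
  set g₂ : ℂ → ℝ := fun z => deriv ξ z.re * ((Q z.im * (z.im - y₀)) * dY A z) with hg₂
  have hξd : Differentiable ℝ ξ := hξ.smooth.differentiable (by norm_num)
  have hωX : ∀ z : ℂ, dX (fun w => ξ w.re * ξ w.im) z = deriv ξ z.re * ξ z.im := by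
    intro z
    have h1 : DifferentiableAt ℝ (fun w : ℂ => w.re) z := Complex.reCLM.differentiableAt
    have h2 : DifferentiableAt ℝ (fun w : ℂ => w.im) z := Complex.imCLM.differentiableAt
    have h3 : DifferentiableAt ℝ (fun w : ℂ => ξ w.re) z := (hξd _).comp z h1
    have h4 : DifferentiableAt ℝ (fun w : ℂ => ξ w.im) z := (hξd _).comp z h2
    rw [dX_mul h3 h4, dX_comp (f := fun w : ℂ => w.re) (hξd _) h1,
      dX_comp (f := fun w : ℂ => w.im) (hξd _) h2, dX_re, dX_im]
    ring
  have hωY : ∀ z : ℂ, dY (fun w => ξ w.re * ξ w.im) z = ξ z.re * deriv ξ z.im := by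
    intro z
    have h1 : DifferentiableAt ℝ (fun w : ℂ => w.re) z := Complex.reCLM.differentiableAt
    have h2 : DifferentiableAt ℝ (fun w : ℂ => w.im) z := Complex.imCLM.differentiableAt
    have h3 : DifferentiableAt ℝ (fun w : ℂ => ξ w.re) z := (hξd _).comp z h1
    have h4 : DifferentiableAt ℝ (fun w : ℂ => ξ w.im) z := (hξd _).comp z h2
    rw [dY_mul h3 h4, dY_comp (f := fun w : ℂ => w.re) (hξd _) h1,
      dY_comp (f := fun w : ℂ => w.im) (hξd _) h2, dY_re, dY_im]
    ring
  -- the integrand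
  have hpt : ∀ z ∈ (H ∪ SF p τ ℓ)ᶜ, q z * ((z.re + u z) * J (fun w => ξ w.re * ξ w.im) B z -
      (z.im - y₀ + v z) * J (fun w => ξ w.re * ξ w.im) A z) =
        S.indicator (fun z => g₁ z - g₂ z) z := by
    intro z hz
    have hre := Complex.abs_re_le_norm z
    have him := Complex.abs_im_le_norm z
    by_cases hzS : z ∈ S
    · rw [indicator_of_mem hzS]
      have hzr : z.re < -R := hzS
      have hnr : R < ‖z‖ := by
        have := neg_abs_le z.re
        linarith
      by_cases hy : R < |z.im|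
      · rw [hq4 z hnr (Or.inr hy)]
        simp only [hg₁, hg₂, hQs _ hy]
        ring
      · have hy' : |z.im| ≤ R := not_lt.1 hy
        obtain ⟨hu, hv⟩ := hd.supp z hz hnr
        have hzSF : z ∈ (SF p τ ℓ)ᶜ := hSF hzS
        rw [hq3 z hzr, hu, hv]
        unfold J
        rw [hωX, hωY, hξ.one z.im (by linarith), b6_deriv_one hξ (t := z.im) (by linarith),
          hAB.rel1 z hzSF]
        simp only [hg₁, hg₂]
        ring
    · rw [indicator_of_notMem hzS]
      have hzr : -R ≤ z.re := not_lt.1 hzS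
      by_cases hbx : |z.re| ≤ 5 * R / 4 ∧ |z.im| ≤ 5 * R / 4
      · unfold J
        rw [hωX, hωY, b6_deriv_one hξ hbx.1, b6_deriv_one hξ hbx.2]
        ring
      · have hnr : R < ‖z‖ := by
          by_contra h0
          exact hbx ⟨by linarith, by linarith⟩
        rw [hq4 z hnr, zero_mul]
        by_contra h0
        rw [not_or] at h0
        obtain ⟨h1, h2⟩ := h0
        apply hbx
        constructor
        · rw [abs_le]; constructor <;> linarith
        · linarith
  have hI0 : ∫ z in (H ∪ SF p τ ℓ)ᶜ, q z * ((z.re + u z) * J (fun w => ξ w.re * ξ w.im) B z -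
      (z.im - y₀ + v z) * J (fun w => ξ w.re * ξ w.im) A z) = ∫ z in S, (g₁ z - g₂ z) := by
    rw [setIntegral_congr_fun hDm hpt, setIntegral_indicator hSm,
      inter_eq_self_of_subset_right hSD]
  -- integrability
  have hbox := b6_box_int (R := R) hAB.niceA
  set P : Set ℂ := S ∩ box R with hP
  have hPb : P ⊆ box R \ SF p τ ℓ := fun z hz => ⟨hz.2, hSF hz.1⟩
  have hboxm : MeasurableSet (box R) := by
    have : IsClosed (box R) := by
      apply IsClosed.inter
      · exact isClosed_le (continuous_abs.comp Complex.continuous_re) continuous_const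
      · exact isClosed_le (continuous_abs.comp Complex.continuous_im) continuous_const
    exact this.measurableSet
  have hPm : MeasurableSet P := hSm.inter hboxm
  have hSFm : MeasurableSet (SF p τ ℓ) := hd.fam.isCompact.isClosed.measurableSet
  have hdiff : ∀ z ∈ S \ P, deriv ξ z.re = 0 ∨ Q z.im = 0 := by
    intro z hz
    have h1 : z ∉ box R := fun h => hz.2 ⟨hz.1, h⟩
    have h2 : ¬ (|z.re| ≤ 2 * R ∧ |z.im| ≤ 2 * R) := h1
    rw [not_and_or] at h2
    rcases h2 with h2 | h2
    · left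
      exact b6_deriv_zero hξ (by linarith)
    · right
      exact hQs _ (by linarith)
  have hdiff1 : ∀ z ∈ S \ P, g₁ z = 0 := by
    intro z hz
    simp only [hg₁]
    rcases hdiff z hz with h | h
    · rw [h]; ring
    · rw [h]; ring
  have hdiff2 : ∀ z ∈ S \ P, g₂ z = 0 := by
    intro z hz
    simp only [hg₂]
    rcases hdiff z hz with h | h
    · rw [h]; ring
    · rw [h]; ring
  have hξc := b6_deriv_cont hξ
  have hQc := hQ.continuous
  have hdXm : Measurable (dX A) := measurable_fderiv_apply_const ℝ _ _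
  have hdYm : Measurable (dY A) := measurable_fderiv_apply_const ℝ _ _
  have hre : Measurable (fun z : ℂ => z.re) := Complex.measurable_re
  have him : Measurable (fun z : ℂ => z.im) := Complex.measurable_im
  have hξm : Measurable (fun z : ℂ => deriv ξ z.re) := hξc.measurable.comp hre
  have hQm : Measurable (fun z : ℂ => Q z.im) := hQc.measurable.comp him
  have hm1 : Measurable g₁ := hQm.mul ((hre.mul hξm).mul hdXm)
  have hm2 : Measurable g₂ := hξm.mul ((hQm.mul (him.sub_const y₀)).mul hdYm)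
  have hb1 : ∀ z ∈ P, |g₁ z| ≤ 2 * K₀ * |dX A z| := by
    intro z hz
    simp only [hg₁]
    rw [abs_mul, abs_mul, abs_mul]
    have h1 : |z.re| ≤ 2 * R := hz.2.1
    have h2 := hξ.der z.re
    have h3 := hQ1 z.im
    have h4 : |z.re| * |deriv ξ z.re| ≤ 2 * R * (K₀ / R) :=
      mul_le_mul h1 h2 (abs_nonneg _) (by positivity)
    have h5 : 2 * R * (K₀ / R) = 2 * K₀ := by field_simp
    calc |Q z.im| * (|z.re| * |deriv ξ z.re| * |dX A z|)
        ≤ 1 * (2 * K₀ * |dX A z|) := by
          refine mul_le_mul h3 ?_ (by positivity) (by norm_num)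
          refine mul_le_mul_of_nonneg_right ?_ (abs_nonneg _)
          linarith
      _ = _ := by ring
  have hb2 : ∀ z ∈ P, |g₂ z| ≤ (K₀ / R * (3 * R)) * ‖fderiv ℝ A z‖ := by
    intro z hz
    simp only [hg₂]
    rw [abs_mul, abs_mul, abs_mul]
    have h1 : |z.im| ≤ 2 * R := hz.2.2
    have h2 := hξ.der z.re
    have h3 := hQ1 z.im
    have h6 : |z.im - y₀| ≤ 3 * R := (abs_sub _ _).trans (by linarith [hd.hy₀])
    have h7 : |Q z.im| * |z.im - y₀| ≤ 1 * (3 * R) :=
      mul_le_mul h3 h6 (abs_nonneg _) (by norm_num)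
    calc |deriv ξ z.re| * (|Q z.im| * |z.im - y₀| * |dY A z|)
        ≤ K₀ / R * (1 * (3 * R) * ‖fderiv ℝ A z‖) := by
          refine mul_le_mul h2 ?_ (by positivity) (by positivity)
          exact mul_le_mul h7 (abs_dY_le A z) (abs_nonneg _) (by positivity)
      _ = _ := by ring
  have hX : IntegrableOn (fun z => |dX A z|) (box R \ SF p τ ℓ) := by
    refine hbox.mono' hdXm.abs.aestronglyMeasurable (Eventually.of_forall fun z => ?_)
    rw [Real.norm_eq_abs, abs_abs]
    exact abs_dX_le A z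
  have hi1P : IntegrableOn g₁ P := by
    refine ((hX.mono_set hPb).const_mul (2 * K₀)).mono' hm1.aestronglyMeasurable ?_
    rw [ae_restrict_iff' hPm]
    exact Eventually.of_forall fun z hz => hb1 z hz
  have hi2P : IntegrableOn g₂ P := by
    refine ((hbox.mono_set hPb).const_mul (K₀ / R * (3 * R))).mono' hm2.aestronglyMeasurable ?_
    rw [ae_restrict_iff' hPm]
    exact Eventually.of_forall fun z hz => hb2 z hz
  have hi1 : IntegrableOn g₁ S := hi1P.of_forall_sdiff_eq_zero hSm hdiff1
  have hi2 : IntegrableOn g₂ S := hi2P.of_forall_sdiff_eq_zero hSm hdiff2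
  -- the first part
  have hpart1 : |∫ z in S, g₁ z| ≤ 2 * K₀ * ∫ z in box R \ SF p τ ℓ, |dX A z| := by
    rw [setIntegral_eq_of_subset_of_forall_sdiff_eq_zero hSm inter_subset_left hdiff1]
    refine (abs_integral_le_integral_abs).trans ?_
    have h1 : ∫ z in P, |g₁ z| ≤ ∫ z in P, 2 * K₀ * |dX A z| :=
      setIntegral_mono_on hi1P.abs ((hX.mono_set hPb).const_mul _) hPm hb1
    refine h1.trans ?_
    rw [integral_const_mul]
    refine mul_le_mul_of_nonneg_left ?_ (by positivity)
    exact setIntegral_mono_set hX (Eventually.of_forall fun z => abs_nonneg _)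
      (LE.le.eventuallyLE hPb)
  -- the second part
  have hpart2 : |(∫ z in S, g₂ z) - ∫ y, Q y * (y - y₀)| ≤ η * (2 * R * (2 * R * L + 1)) := by
    have hAS : ContDiffOn ℝ 2 A S := (hAB.niceA 0).smooth.mono hSF
    have h1 : Integrable (S.indicator g₂) := (integrable_indicator_iff hSm).2 hi2
    obtain ⟨h2, h3⟩ := b6_fubini h1
    have h4 : ∀ x : ℝ, ∫ y : ℝ, S.indicator g₂ (x + y * I) = (Iio (-R)).indicator
        (fun x : ℝ => deriv ξ x * ∫ y : ℝ, (Q y * (y - y₀)) * dY A (x + y * I)) x := by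
      intro x
      by_cases hx : x < -R
      · rw [indicator_of_mem (show x ∈ Iio (-R) from hx), ← integral_const_mul]
        congr 1
        funext y
        rw [indicator_of_mem (show ((x : ℂ) + y * I) ∈ S by simpa [hS] using hx)]
        simp [hg₂]
      · rw [indicator_of_notMem (show x ∉ Iio (-R) from hx)]
        have : ∀ y : ℝ, S.indicator g₂ (x + y * I) = 0 := by
          intro y
          apply indicator_of_notMem
          simpa [hS] using hx
        simp only [this, integral_zero]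
    simp only [h4] at h2 h3
    rw [← integral_indicator hSm, h2, integral_indicator measurableSet_Iio]
    rw [integrable_indicator_iff measurableSet_Iio] at h3
    have h5 : ∫ y, Q y * (y - y₀) = ∫ x in Iio (-R), deriv ξ x * ∫ y, Q y * (y - y₀) := by
      rw [integral_mul_const, b6_deriv_int hR hξ, one_mul]
    have h6 : IntegrableOn (deriv ξ) (Iio (-R)) := (b6_deriv_integrable hξ).integrableOn
    rw [h5, ← integral_sub h3 (h6.mul_const _)]
    have h7 := norm_integral_le_of_norm_le (μ := volume.restrict (Iio (-R)))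
      (f := fun x : ℝ => deriv ξ x * (∫ y : ℝ, (Q y * (y - y₀)) * dY A (x + y * I)) -
        deriv ξ x * ∫ y, Q y * (y - y₀))
      (h6.mul_const (η * (2 * R * (2 * R * L + 1)))) (by
        rw [ae_restrict_iff' measurableSet_Iio]
        refine Eventually.of_forall fun x hx => ?_
        have hx' : x < -R := hx
        rw [← mul_sub, Real.norm_eq_abs, abs_mul,
          abs_of_nonneg (b6_deriv_nonneg hξ (by linarith : x < 0))]
        by_cases hx2 : |x| ≤ 2 * R
        · refine mul_le_mul_of_nonneg_left ?_ (b6_deriv_nonneg hξ (by linarith))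
          apply b6_line hR hL hd.hy₀ hQ hQ1 hQL hQs hAS hx'
          intro y hy
          have := hAB.near (x + y * I) ⟨⟨by simpa using hx2, by simpa using by linarith⟩,
            hSF (by simpa [hS] using hx')⟩
          simpa using this
        · rw [b6_deriv_zero hξ (t := x) (by linarith)]
          simp)
    rw [Real.norm_eq_abs] at h7
    refine h7.trans (le_of_eq ?_)
    rw [integral_mul_const, b6_deriv_int hR hξ, one_mul]
  rw [hI0, integral_sub hi1 hi2]
  have hfin : (∫ z in S, g₁ z) - (∫ z in S, g₂ z) + ∫ y, Q y * (y - y₀) =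
      (∫ z in S, g₁ z) - ((∫ z in S, g₂ z) - ∫ y, Q y * (y - y₀)) := by ring
  rw [hfin]
  exact (abs_sub _ _).trans (add_le_add hpart1 hpart2)

end RSM2
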