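import Pool.Agent.RSM2.B7X

/-!
# RSM2 module B7Y: estimates for step (b)
-/

open Complex Set Metric Filter Topology MeasureTheory

namespace RSM2

theorem b7_box_closed (R : ℝ) : IsClosed (box R) := by
  have h1 : IsClosed {z : ℂ | |z.re| ≤ 2 * R} :=
    isClosed_le (continuous_abs.comp continuous_re) continuous_const
  have h2 : IsClosed {z : ℂ | |z.im| ≤ 2 * R} :=
    isClosed_le (continuous_abs.comp continuous_im) continuous_const
  exact h1.inter h2

theorem b7_vol {R : ℝ} (hR : 0 < R) {T : Set ℂ} (hT : T ⊆ box R) :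
    volume T ≤ ENNReal.ofReal (36 * R ^ 2) := by
  calc volume T ≤ volume (closedBall (0 : ℂ) (3 * R)) :=
        measure_mono (hT.trans (c6_box_sub hR))
    _ = ENNReal.ofReal (3 * R) ^ 2 * NNReal.pi := Complex.volume_closedBall _ _
    _ ≤ ENNReal.ofReal (36 * R ^ 2) := by
        rw [← ENNReal.ofReal_pow (by positivity)]
        have h1 : (NNReal.pi : ENNReal) = ENNReal.ofReal Real.pi := by
          rw [← NNReal.coe_real_pi, ENNReal.ofReal_coe_nnreal]
        rw [h1, ← ENNReal.ofReal_mul (by positivity)]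
        apply ENNReal.ofReal_le_ofReal
        nlinarith [Real.pi_le_four, sq_nonneg R]

theorem b7_vol_ne {R : ℝ} (hR : 0 < R) {T : Set ℂ} (hT : T ⊆ box R) : volume T ≠ ⊤ :=
  ne_top_of_le_ne_top ENNReal.ofReal_ne_top (b7_vol hR hT)

theorem b7_vol_real {R : ℝ} (hR : 0 < R) {T : Set ℂ} (hT : T ⊆ box R) :
    volume.real T ≤ 36 * R ^ 2 :=
  ENNReal.toReal_le_of_le_ofReal (by positivity) (b7_vol hR hT)

theorem b7_dX2 {g : ℂ → ℝ} {T : Set ℂ} (h : IntegrableOn (fun z => ‖fderiv ℝ g z‖ ^ 2) T) :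
    IntegrableOn (fun z => dX g z ^ 2) T := by
  refine Integrable.mono' h ((measurable_fderiv_apply_const ℝ g 1).pow_const 2).aestronglyMeasurable
    (Eventually.of_forall fun z => ?_)
  rw [Real.norm_eq_abs, abs_of_nonneg (sq_nonneg _), sq_norm_fderiv]
  linarith [sq_nonneg (dY g z)]

theorem b7_dY2 {g : ℂ → ℝ} {T : Set ℂ} (h : IntegrableOn (fun z => ‖fderiv ℝ g z‖ ^ 2) T) :
    IntegrableOn (fun z => dY g z ^ 2) T := by
  refine Integrable.mono' h ((measurable_fderiv_apply_const ℝ g I).pow_const 2).aestronglyMeasurable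
    (Eventually.of_forall fun z => ?_)
  rw [Real.norm_eq_abs, abs_of_nonneg (sq_nonneg _), sq_norm_fderiv]
  linarith [sq_nonneg (dX g z)]

theorem b7_l2 {D : Set ℂ} (hD : IsOpen D) {g : ℂ → ℝ} {R : ℝ}
    (hg : ∀ r, Nice D (closedBall 0 r) g) (h0 : ∀ z ∈ D, R < ‖z‖ → g z = 0) :
    IntegrableOn (fun z => ‖fderiv ℝ g z‖ ^ 2) D := by
  have h1 := (hg R).l2
  have h2 : IntegrableOn (fun z => ‖fderiv ℝ g z‖ ^ 2) (D \ closedBall 0 R) := by
    have h4 : IntegrableOn (fun _ : ℂ => (0 : ℝ)) (D \ closedBall 0 R) := integrableOn_zero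
    refine h4.congr_fun (fun z hz => ?_) (hD.measurableSet.diff isClosed_closedBall.measurableSet)
    have h3 : g =ᶠ[𝓝 z] fun _ => (0 : ℝ) := by
      have ho : IsOpen {w : ℂ | R < ‖w‖} := isOpen_lt continuous_const continuous_norm
      have hz2 : R < ‖z‖ := by
        have := hz.2
        rwa [mem_closedBall_zero_iff, not_le] at this
      filter_upwards [hD.mem_nhds hz.1, ho.mem_nhds hz2] with w hw1 hw2
      exact h0 w hw1 hw2
    simp only
    rw [h3.fderiv_eq]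
    simp
  have h5 := h1.union h2
  rwa [inter_union_sdiff] at h5

variable {ι : Type} {p : ι → ℂ} {τ ℓ : ι → ℝ} {ε R M δ C η K₀ : ℝ} {H : Set ℂ}
  {Ψ : ℂ → ℂ} {s₀ s s₁ x₀ y₀ lam : ℝ} {u v A B q : ℂ → ℝ}

theorem b7_A2 (hR : 0 < R) (hAB : TestPair p τ ℓ ε R C η A B) :
    IntegrableOn (fun z => ‖fderiv ℝ A z‖ ^ 2) (box R \ SF p τ ℓ) :=
  (hAB.niceA (3 * R)).l2.mono_set fun _ hz => ⟨hz.2, c6_box_sub hR hz.1⟩

theorem b7_absX (hR : 0 < R) (hε : 0 < ε) (hAB : TestPair p τ ℓ ε R C η A B) :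
    ∫ z in box R \ SF p τ ℓ, |dX A z| ≤ ε * (36 * R ^ 2 + C) / 2 := by
  have hI := b7_dX2 (b7_A2 hR hAB)
  have hvne : volume (box R \ SF p τ ℓ) ≠ ⊤ := b7_vol_ne hR sdiff_subset
  have hk : ∀ c : ℝ, Integrable (fun _ : ℂ => c) (volume.restrict (box R \ SF p τ ℓ)) :=
    fun c => integrableOn_const hvne
  have h1 : ∫ z in box R \ SF p τ ℓ, |dX A z| ≤
      ∫ z in box R \ SF p τ ℓ, (ε / 2 + 1 / (2 * ε) * dX A z ^ 2) := by
    apply integral_mono_of_nonneg
    · exact Eventually.of_forall fun z => abs_nonneg _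
    · exact (hk _).add (hI.const_mul _)
    · refine Eventually.of_forall fun z => ?_
      simp only
      have h2 : 0 ≤ (ε - |dX A z|) ^ 2 / (2 * ε) := by positivity
      have h3 : (ε - |dX A z|) ^ 2 / (2 * ε) = ε / 2 + 1 / (2 * ε) * dX A z ^ 2 - |dX A z| := by
        rw [← sq_abs (dX A z)]
        field_simp
        ring
      linarith
  rw [integral_add (hk _) (hI.const_mul _), integral_const_mul,
    setIntegral_const, smul_eq_mul] at h1
  have h4 := hAB.enX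
  have h5 := b7_vol_real (T := box R \ SF p τ ℓ) hR sdiff_subset
  have h6 : volume.real (box R \ SF p τ ℓ) * (ε / 2) ≤ 36 * R ^ 2 * (ε / 2) :=
    mul_le_mul_of_nonneg_right h5 (by positivity)
  have h7 : 1 / (2 * ε) * (∫ z in box R \ SF p τ ℓ, dX A z ^ 2) ≤ 1 / (2 * ε) * (C * ε ^ 2) :=
    mul_le_mul_of_nonneg_left h4 (by positivity)
  have h8 : 1 / (2 * ε) * (C * ε ^ 2) = ε * C / 2 := by
    field_simp
  linarith

theorem b7_absXY (hR : 0 < R) (hε : 0 < ε) (hε1 : ε ≤ 1) (hC : 0 < C)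
    (hS : IsOpen (SF p τ ℓ)ᶜ) (hAB : TestPair p τ ℓ ε R C η A B) :
    ∫ z in box R \ SF p τ ℓ, (|dX A z| + |dX B z|) ≤ ε * (36 * R ^ 2 + C) := by
  have hI := b7_dX2 (b7_A2 hR hAB)
  have hJ := b7_dY2 (b7_A2 hR hAB)
  have hvne : volume (box R \ SF p τ ℓ) ≠ ⊤ := b7_vol_ne hR sdiff_subset
  have hk : ∀ c : ℝ, Integrable (fun _ : ℂ => c) (volume.restrict (box R \ SF p τ ℓ)) :=
    fun c => integrableOn_const hvne
  have hm : MeasurableSet (box R \ SF p τ ℓ) :=
    (b7_box_closed R).measurableSet.diff hS.measurableSet.of_compl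
  have h1 : ∫ z in box R \ SF p τ ℓ, (|dX A z| + |dX B z|) ≤
      ∫ z in box R \ SF p τ ℓ, (ε + (1 / (2 * ε) * dX A z ^ 2 + ε / 2 * dY A z ^ 2)) := by
    apply integral_mono_of_nonneg
    · exact Eventually.of_forall fun z => add_nonneg (abs_nonneg _) (abs_nonneg _)
    · exact (hk _).add ((hI.const_mul _).add (hJ.const_mul _))
    · filter_upwards [ae_restrict_mem hm] with z hz
      have h2 : 0 ≤ (ε - |dX A z|) ^ 2 / (2 * ε) := by positivity
      have h3 : (ε - |dX A z|) ^ 2 / (2 * ε) = ε / 2 + 1 / (2 * ε) * dX A z ^ 2 - |dX A z| := by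
        rw [← sq_abs (dX A z)]
        field_simp
        ring
      have h4 : |dX B z| = ε ^ 2 * |dY A z| := by
        rw [hAB.rel2 z hz.2, abs_mul, abs_neg, abs_of_nonneg (sq_nonneg ε)]
      have h5 : ε ^ 2 * |dY A z| ≤ ε * |dY A z| := by
        refine mul_le_mul_of_nonneg_right ?_ (abs_nonneg _)
        nlinarith
      have h6 : ε * |dY A z| ≤ ε * ((1 + dY A z ^ 2) / 2) := by
        refine mul_le_mul_of_nonneg_left ?_ hε.le
        rw [← sq_abs (dY A z)]
        nlinarith [sq_nonneg (1 - |dY A z|)]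
      linarith
  have i1 : Integrable (fun z => 1 / (2 * ε) * dX A z ^ 2)
      (volume.restrict (box R \ SF p τ ℓ)) := hI.const_mul _
  have i2 : Integrable (fun z => ε / 2 * dY A z ^ 2)
      (volume.restrict (box R \ SF p τ ℓ)) := hJ.const_mul _
  have i12 : Integrable (fun z => 1 / (2 * ε) * dX A z ^ 2 + ε / 2 * dY A z ^ 2)
      (volume.restrict (box R \ SF p τ ℓ)) := i1.add i2
  rw [integral_add (hk _) i12, integral_add i1 i2, integral_const_mul, integral_const_mul,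
    setIntegral_const, smul_eq_mul] at h1
  have h5 := b7_vol_real (T := box R \ SF p τ ℓ) hR sdiff_subset
  have h6 : volume.real (box R \ SF p τ ℓ) * ε ≤ 36 * R ^ 2 * ε :=
    mul_le_mul_of_nonneg_right h5 hε.le
  have h7 : 1 / (2 * ε) * (∫ z in box R \ SF p τ ℓ, dX A z ^ 2) ≤ 1 / (2 * ε) * (C * ε ^ 2) :=
    mul_le_mul_of_nonneg_left hAB.enX (by positivity)
  have h8 : 1 / (2 * ε) * (C * ε ^ 2) = ε * C / 2 := by
    field_simp
  have h9 : ε / 2 * (∫ z in box R \ SF p τ ℓ, dY A z ^ 2) ≤ ε / 2 * C :=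
    mul_le_mul_of_nonneg_left hAB.enY (by positivity)
  linarith

theorem b7_dY_nonneg {S : Set ℂ} (hS : IsOpen Sᶜ) (hm : MonoY S A) {z : ℂ} (hz : z ∉ S)
    (hd : DifferentiableAt ℝ A z) : 0 ≤ dY A z := by
  have h1 : HasDerivAt (fun t : ℝ => A (z + t * I)) (dY A z) 0 := by
    have h2 : HasFDerivAt A (fderiv ℝ A z) (z + ((0 : ℝ) : ℂ) * I) := by
      rw [ofReal_zero, zero_mul, add_zero]
      exact hd.hasFDerivAt
    have h3 : HasDerivAt (fun t : ℝ => z + t * I) I 0 := by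
      have h4 : HasDerivAt (fun t : ℝ => (t : ℂ)) 1 0 := ofRealCLM.hasDerivAt
      have h5 := (h4.mul_const I).const_add z
      rwa [one_mul] at h5
    exact h2.comp_hasDerivAt (0 : ℝ) h3
  have h2 := h1.tendsto_slope_zero_right
  refine ge_of_tendsto h2 ?_
  have h3 : ∀ᶠ t : ℝ in 𝓝[>] 0, z + t * I ∈ Sᶜ := by
    have h4 : Continuous fun t : ℝ => z + (t : ℂ) * I := by fun_prop
    have h5 : Tendsto (fun t : ℝ => z + (t : ℂ) * I) (𝓝[>] 0) (𝓝 z) := by
      have h6 := h4.tendsto 0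
      simp only [ofReal_zero, zero_mul, add_zero] at h6
      exact h6.mono_left nhdsWithin_le_nhds
    exact h5.eventually (hS.mem_nhds hz)
  filter_upwards [h3, self_mem_nhdsWithin] with t ht1 ht2
  have ht : (0 : ℝ) < t := ht2
  have h4 : A z ≤ A (z + t * I) := by
    refine hm z _ hz ht1 ?_ ?_
    · simp
    · simp only [add_im, mul_im, ofReal_re, I_im, mul_one, ofReal_im, I_re, mul_zero, add_zero]
      linarith
  simp only [zero_add, ofReal_zero, zero_mul, add_zero, smul_eq_mul]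
  exact mul_nonneg (inv_nonneg.2 ht.le) (by linarith)

section om

variable {ξ : ℝ → ℝ}

theorem b7_om_smooth (hξ : Profile R K₀ ξ) :
    ContDiff ℝ (⊤ : ℕ∞) (fun w : ℂ => ξ w.re * ξ w.im) :=
  (hξ.smooth.comp Complex.reCLM.contDiff).mul (hξ.smooth.comp Complex.imCLM.contDiff)

theorem b7_om_zero (hξ : Profile R K₀ ξ) {z : ℂ} (hz : 7 * R / 4 < |z.re| ∨ 7 * R / 4 < |z.im|) :
    ξ z.re * ξ z.im = 0 := by
  rcases hz with h | h
  · rw [hξ.zero _ h.le, zero_mul]
  · rw [hξ.zero _ h.le, mul_zero]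

theorem b7_om_supp (hR : 0 < R) (hξ : Profile R K₀ ξ) :
    tsupport (fun w : ℂ => ξ w.re * ξ w.im) ⊆ box R := by
  refine closure_minimal ?_ (b7_box_closed R)
  intro z hz
  by_contra hb
  apply hz
  refine b7_om_zero hξ ?_
  rw [box, mem_ofPred_eq, not_and_or, not_le, not_le] at hb
  rcases hb with h | h
  · exact Or.inl (by linarith)
  · exact Or.inr (by linarith)

theorem b7_om_compact (hR : 0 < R) (hξ : Profile R K₀ ξ) :
    HasCompactSupport (fun w : ℂ => ξ w.re * ξ w.im) :=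
  (isCompact_closedBall (0 : ℂ) (3 * R)).of_isClosed_subset (isClosed_tsupport _)
    ((b7_om_supp hR hξ).trans (c6_box_sub hR))

theorem b7_om_bd (hξ : Profile R K₀ ξ) (z : ℂ) : 0 ≤ ξ z.re * ξ z.im ∧ ξ z.re * ξ z.im ≤ 1 :=
  ⟨mul_nonneg (hξ.bd _).1 (hξ.bd _).1, mul_le_one₀ (hξ.bd _).2 (hξ.bd _).1 (hξ.bd _).2⟩

theorem b7_om_dY (hR : 0 < R) (hξ : Profile R K₀ ξ) (z : ℂ) :
    |dY (fun w : ℂ => ξ w.re * ξ w.im) z| ≤ K₀ / R ∧
      (z ∉ box R → dY (fun w : ℂ => ξ w.re * ξ w.im) z = 0) := by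
  have hd : Differentiable ℝ ξ := hξ.smooth.differentiable (by simp)
  have d1 : DifferentiableAt ℝ (fun w : ℂ => w.re) z := Complex.reCLM.differentiableAt
  have d2 : DifferentiableAt ℝ (fun w : ℂ => w.im) z := Complex.imCLM.differentiableAt
  have d3 : DifferentiableAt ℝ (fun w : ℂ => ξ w.re) z := (hd _).comp z d1
  have d4 : DifferentiableAt ℝ (fun w : ℂ => ξ w.im) z := (hd _).comp z d2
  have e : dY (fun w : ℂ => ξ w.re * ξ w.im) z = ξ z.re * deriv ξ z.im := by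
    rw [dY_mul d3 d4, dY_comp (hd _) d1, dY_comp (hd _) d2, dY_re, dY_im]
    ring
  refine ⟨?_, fun hb => ?_⟩
  · rw [e, abs_mul, abs_of_nonneg (hξ.bd _).1]
    calc ξ z.re * |deriv ξ z.im| ≤ 1 * |deriv ξ z.im| :=
          mul_le_mul_of_nonneg_right (hξ.bd _).2 (abs_nonneg _)
      _ = |deriv ξ z.im| := one_mul _
      _ ≤ K₀ / R := hξ.der _
  · have h1 : z ∉ tsupport (fun w : ℂ => ξ w.re * ξ w.im) := fun h => hb (b7_om_supp hR hξ h)
    rw [notMem_tsupport_iff_eventuallyEq] at h1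
    rw [dY_congr h1]
    exact dY_const 0 z

end om

theorem b7_jump {ξ : ℝ → ℝ} (hR : 0 < R) (hK₀ : 0 < K₀) (hξ : Profile R K₀ ξ)
    (hfam : SlitFam p τ ℓ ε R R) (hη : η ≤ R) (hAB : TestPair p τ ℓ ε R C η A B) :
    jump (SF p τ ℓ) A (fun w : ℂ => ξ w.re * ξ w.im) ≤ 108 * K₀ * R ^ 2 := by
  have hS : IsOpen (SF p τ ℓ)ᶜ := hfam.isOpen_compl
  have hi := (integrable_jump hfam hAB.niceA ((b7_om_smooth hξ).of_le (by exact_mod_cast le_top))
    (b7_om_compact hR hξ)).2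
  have hm : MeasurableSet (box R) := (b7_box_closed R).measurableSet
  have hg : IntegrableOn ((box R).indicator fun _ : ℂ => 3 * K₀) (SF p τ ℓ)ᶜ := by
    refine Integrable.integrableOn (IntegrableOn.integrable_indicator ?_ hm)
    exact integrableOn_const (b7_vol_ne hR subset_rfl)
  have h1 : ∫ z in (SF p τ ℓ)ᶜ, -dY (fun w => (ξ w.re * ξ w.im) * A w) z ≤
      ∫ z in (SF p τ ℓ)ᶜ, (box R).indicator (fun _ : ℂ => 3 * K₀) z := by
    refine setIntegral_mono_on hi.neg hg hS.measurableSet fun z hz => ?_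
    have dA : DifferentiableAt ℝ A z :=
      ((hAB.niceA 0).smooth.contDiffAt (hS.mem_nhds hz)).differentiableAt (by norm_num)
    have dω : DifferentiableAt ℝ (fun w : ℂ => ξ w.re * ξ w.im) z :=
      (b7_om_smooth hξ).differentiable (by simp) z
    rw [dY_mul dω dA]
    have h2 := b7_dY_nonneg hS hAB.mono hz dA
    have h3 : 0 ≤ ξ z.re * ξ z.im * dY A z := mul_nonneg (b7_om_bd hξ z).1 h2
    by_cases hb : z ∈ box R
    · rw [indicator_of_mem hb]
      have h4 : |A z| ≤ 3 * R := by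
        have h5 := hAB.near z ⟨hb, hz⟩
        have h6 := hb.2
        have h7 : |A z| ≤ |A z - z.im| + |z.im| := by
          have := abs_add_le (A z - z.im) z.im
          rwa [sub_add_cancel] at this
        linarith
      have h5 : |A z * dY (fun w : ℂ => ξ w.re * ξ w.im) z| ≤ 3 * R * (K₀ / R) := by
        rw [abs_mul]
        exact mul_le_mul h4 (b7_om_dY hR hξ z).1 (abs_nonneg _) (by positivity)
      have h6 : 3 * R * (K₀ / R) = 3 * K₀ := by field_simp
      have h7 := neg_abs_le (A z * dY (fun w : ℂ => ξ w.re * ξ w.im) z)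
      linarith
    · rw [indicator_of_notMem hb, (b7_om_dY hR hξ z).2 hb]
      linarith
  have h2 : ∫ z in (SF p τ ℓ)ᶜ, (box R).indicator (fun _ : ℂ => 3 * K₀) z ≤ 108 * K₀ * R ^ 2 := by
    rw [setIntegral_indicator hm, setIntegral_const, smul_eq_mul]
    have h3 := b7_vol_real (T := (SF p τ ℓ)ᶜ ∩ box R) hR inter_subset_right
    nlinarith
  unfold jump
  rw [← integral_neg]
  exact h1.trans h2

theorem b7_I1 (hR : 0 < R) (hC : 0 < C) (hε : 0 < ε) (hεδ : ε ≤ δ) (hδ1 : δ ≤ 1)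
    (hd : StepBData p τ ℓ ε R M δ H Ψ s₀ s s₁ x₀ y₀ lam u v)
    (hAB : TestPair p τ ℓ ε R C η A B) {ω : ℂ → ℝ} (hqc : ContinuousOn q Hᶜ)
    (hq : ∀ w ∉ H, 0 ≤ q w ∧ q w ≤ 1) (hω : Continuous ω) (hω01 : ∀ z, 0 ≤ ω z ∧ ω z ≤ 1)
    (hωb : ∀ z, z ∉ box R → ω z = 0) :
    IntegrableOn (fun z => q z * (ω z * (J (fun w => w.re + u w) B z -
        J (fun w => w.im - y₀ + v w) A z))) (H ∪ SF p τ ℓ)ᶜ ∧
      |∫ z in (H ∪ SF p τ ℓ)ᶜ, q z * (ω z * (J (fun w => w.re + u w) B z -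
        J (fun w => w.im - y₀ + v w) A z))| ≤ δ * (36 * R ^ 2 + 3 * C + M ^ 2 + 1) := by
  have hδ : 0 < δ := hε.trans_le hεδ
  obtain ⟨D, hDdef⟩ : ∃ D, D = (H ∪ SF p τ ℓ)ᶜ := ⟨_, rfl⟩
  have hDo : IsOpen D := by
    rw [hDdef]
    exact (hd.collar.compact.union hd.fam.isCompact).isClosed.isOpen_compl
  have hDm : MeasurableSet D := hDo.measurableSet
  have hDS : D ⊆ (SF p τ ℓ)ᶜ := by
    rw [hDdef]
    exact compl_subset_compl.2 subset_union_right
  have hDH : D ⊆ Hᶜ := by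
    rw [hDdef]
    exact compl_subset_compl.2 subset_union_left
  obtain ⟨F, hF⟩ : ∃ F : ℂ → ℝ, F = fun z => q z * (ω z * (J (fun w => w.re + u w) B z -
        J (fun w => w.im - y₀ + v w) A z)) := ⟨_, rfl⟩
  rw [← hDdef, ← hF]
  have hbm : MeasurableSet (box R) := (b7_box_closed R).measurableSet
  have hTm : MeasurableSet (D ∩ box R) := hDm.inter hbm
  have hTE : D ∩ box R ⊆ box R \ SF p τ ℓ := fun z hz => ⟨hz.2, hDS hz.1⟩
  have hTD : D ∩ box R ⊆ D := inter_subset_left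
  have hu2 : IntegrableOn (fun z => ‖fderiv ℝ u z‖ ^ 2) D := by
    refine b7_l2 hDo (R := R) (by rw [hDdef]; exact hd.niceu) fun z hz hz2 => ?_
    rw [hDdef] at hz
    exact (hd.supp z hz hz2).1
  have hv2 : IntegrableOn (fun z => ‖fderiv ℝ v z‖ ^ 2) D := by
    refine b7_l2 hDo (R := R) (by rw [hDdef]; exact hd.nicev) fun z hz hz2 => ?_
    rw [hDdef] at hz
    exact (hd.supp z hz hz2).2
  have hvx := b7_dX2 hv2
  have hAx := b7_dX2 (b7_A2 hR hAB)
  have hAy := b7_dY2 (b7_A2 hR hAB)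
  have hvne : volume (D ∩ box R) ≠ ⊤ := b7_vol_ne hR inter_subset_right
  -- integrals over `D ∩ box R`
  have j1 : Integrable (fun _ : ℂ => ε) (volume.restrict (D ∩ box R)) := integrableOn_const hvne
  have j2 : Integrable (fun z => 2 / ε * dX A z ^ 2) (volume.restrict (D ∩ box R)) :=
    (hAx.mono_set hTE).const_mul _
  have j3 : Integrable (fun z => ε / 2 * ‖fderiv ℝ u z‖ ^ 2) (volume.restrict (D ∩ box R)) :=
    (hu2.mono_set hTD).const_mul _
  have j4 : Integrable (fun z => ε / 2 * ‖fderiv ℝ v z‖ ^ 2) (volume.restrict (D ∩ box R)) :=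
    (hv2.mono_set hTD).const_mul _
  have j5 : Integrable (fun z => δ * dY A z ^ 2) (volume.restrict (D ∩ box R)) :=
    (hAy.mono_set hTE).const_mul _
  have j6 : Integrable (fun z => 1 / (2 * δ) * dX v z ^ 2) (volume.restrict (D ∩ box R)) :=
    (hvx.mono_set hTD).const_mul _
  have j56 : Integrable (fun z => δ * dY A z ^ 2 + 1 / (2 * δ) * dX v z ^ 2)
      (volume.restrict (D ∩ box R)) := j5.add j6
  have j46 : Integrable (fun z => ε / 2 * ‖fderiv ℝ v z‖ ^ 2 +
      (δ * dY A z ^ 2 + 1 / (2 * δ) * dX v z ^ 2)) (volume.restrict (D ∩ box R)) := j4.add j56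
  have j36 : Integrable (fun z => ε / 2 * ‖fderiv ℝ u z‖ ^ 2 + (ε / 2 * ‖fderiv ℝ v z‖ ^ 2 +
      (δ * dY A z ^ 2 + 1 / (2 * δ) * dX v z ^ 2))) (volume.restrict (D ∩ box R)) := j3.add j46
  have j26 : Integrable (fun z => 2 / ε * dX A z ^ 2 + (ε / 2 * ‖fderiv ℝ u z‖ ^ 2 +
      (ε / 2 * ‖fderiv ℝ v z‖ ^ 2 + (δ * dY A z ^ 2 + 1 / (2 * δ) * dX v z ^ 2))))
      (volume.restrict (D ∩ box R)) := j2.add j36
  have j16 : Integrable (fun z => ε + (2 / ε * dX A z ^ 2 + (ε / 2 * ‖fderiv ℝ u z‖ ^ 2 +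
      (ε / 2 * ‖fderiv ℝ v z‖ ^ 2 + (δ * dY A z ^ 2 + 1 / (2 * δ) * dX v z ^ 2)))))
      (volume.restrict (D ∩ box R)) := j1.add j26
  have hpt : ∀ z ∈ D ∩ box R, |F z| ≤ ε + (2 / ε * dX A z ^ 2 + (ε / 2 * ‖fderiv ℝ u z‖ ^ 2 +
      (ε / 2 * ‖fderiv ℝ v z‖ ^ 2 + (δ * dY A z ^ 2 + 1 / (2 * δ) * dX v z ^ 2)))) := by
    intro z hz
    have du : DifferentiableAt ℝ u z := by
      have h1 := (hd.niceu 0).smooth
      rw [← hDdef] at h1
      exact (h1.contDiffAt (hDo.mem_nhds hz.1)).differentiableAt (by norm_num)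
    have dv : DifferentiableAt ℝ v z := by
      have h1 := (hd.nicev 0).smooth
      rw [← hDdef] at h1
      exact (h1.contDiffAt (hDo.mem_nhds hz.1)).differentiableAt (by norm_num)
    have dre : DifferentiableAt ℝ (fun w : ℂ => w.re) z := Complex.reCLM.differentiableAt
    have dim : DifferentiableAt ℝ (fun w : ℂ => w.im) z := Complex.imCLM.differentiableAt
    have dim2 : DifferentiableAt ℝ (fun w : ℂ => w.im - y₀) z := dim.sub (differentiableAt_const _)
    have e1 : dX (fun w : ℂ => w.re + u w) z = 1 + dX u z := by rw [dX_add dre du, dX_re]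
    have e2 : dY (fun w : ℂ => w.re + u w) z = dY u z := by rw [dY_add dre du, dY_re, zero_add]
    have e3 : dX (fun w : ℂ => w.im - y₀ + v w) z = dX v z := by
      rw [dX_add dim2 dv, dX_sub dim (differentiableAt_const _), dX_im, dX_const]
      ring
    have e4 : dY (fun w : ℂ => w.im - y₀ + v w) z = 1 + dY v z := by
      rw [dY_add dim2 dv, dY_sub dim (differentiableAt_const _), dY_im, dY_const]
      ring
    have hzS : z ∈ (SF p τ ℓ)ᶜ := hDS hz.1
    have e5 : J (fun w : ℂ => w.re + u w) B z - J (fun w => w.im - y₀ + v w) A z =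
        (1 + dX u z) * dX A z + ε ^ 2 * (dY u z * dY A z) - dX v z * dY A z +
          (1 + dY v z) * dX A z := by
      unfold J
      rw [e1, e2, e3, e4, hAB.rel1 z hzS, hAB.rel2 z hzS]
      ring
    have hq1 := hq z (hDH hz.1)
    have hω1 := hω01 z
    have e6 : |F z| ≤ |J (fun w : ℂ => w.re + u w) B z - J (fun w => w.im - y₀ + v w) A z| := by
      rw [hF]
      simp only
      rw [abs_mul, abs_mul, abs_of_nonneg hq1.1, abs_of_nonneg hω1.1, ← mul_assoc]
      exact mul_le_of_le_one_left (abs_nonneg _) (mul_le_one₀ hq1.2 hω1.1 hω1.2)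
    have k0 : ∀ a b t : ℝ, 0 < t → |a * b| ≤ t / 2 * a ^ 2 + 1 / (2 * t) * b ^ 2 := by
      intro a b t ht
      have h1 : 0 ≤ (t * |a| - |b|) ^ 2 / (2 * t) := by positivity
      have h2 : (t * |a| - |b|) ^ 2 / (2 * t) = t / 2 * a ^ 2 + 1 / (2 * t) * b ^ 2 - |a * b| := by
        rw [abs_mul, ← sq_abs a, ← sq_abs b]
        field_simp
        ring
      linarith
    have k1 := k0 1 (dX A z) ε hε
    have k2 := k0 (dX u z) (dX A z) ε hε
    have k3 := k0 (dY v z) (dX A z) ε hε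
    have k4 := k0 (dY A z) (dX v z) δ hδ
    have k5 := k0 (dY u z) (dY A z) 1 one_pos
    have s1 := sq_norm_fderiv u z
    have s2 := sq_norm_fderiv v z
    have hb : |(1 + dX u z) * dX A z + ε ^ 2 * (dY u z * dY A z) - dX v z * dY A z +
          (1 + dY v z) * dX A z| ≤ |1 * dX A z| + |dX u z * dX A z| + ε ^ 2 * |dY u z * dY A z| +
            |dY A z * dX v z| + |1 * dX A z| + |dY v z * dX A z| := by
      have h1 := abs_le.1 (le_refl |1 * dX A z|)
      have h2 := abs_le.1 (le_refl |dX u z * dX A z|)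
      have h3 := abs_le.1 (le_refl |dY u z * dY A z|)
      have h4 := abs_le.1 (le_refl |dY A z * dX v z|)
      have h5 := abs_le.1 (le_refl |dY v z * dX A z|)
      have h6 : 0 ≤ ε ^ 2 := sq_nonneg _
      have h7 := mul_le_mul_of_nonneg_left h3.2 h6
      have h8 := mul_le_mul_of_nonneg_left h3.1 h6
      rw [abs_le]
      constructor <;> nlinarith
    have hε1 : ε ≤ 1 := hεδ.trans hδ1
    have k6 : ε ^ 2 * |dY u z * dY A z| ≤ ε / 2 * dY u z ^ 2 + ε / 2 * dY A z ^ 2 := by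
      have h1 : ε ^ 2 ≤ ε := by nlinarith
      have h2 : ε ^ 2 * |dY u z * dY A z| ≤ ε * |dY u z * dY A z| :=
        mul_le_mul_of_nonneg_right h1 (abs_nonneg _)
      have h3 : ε * |dY u z * dY A z| ≤ ε * (1 / 2 * dY u z ^ 2 + 1 / (2 * 1) * dY A z ^ 2) :=
        mul_le_mul_of_nonneg_left k5 hε.le
      linarith
    have k7 : ε / 2 * dY A z ^ 2 ≤ δ / 2 * dY A z ^ 2 :=
      mul_le_mul_of_nonneg_right (by linarith) (sq_nonneg _)
    have k8 : 0 ≤ ε / 2 * dX v z ^ 2 := by positivity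
    have k9 : 2 / ε * dX A z ^ 2 = 4 * (1 / (2 * ε) * dX A z ^ 2) := by
      field_simp
      ring
    rw [e5] at e6
    refine e6.trans (hb.trans ?_)
    rw [s1, s2, k9]
    linarith
  have hFm : AEStronglyMeasurable F (volume.restrict (D ∩ box R)) := by
    rw [hF]
    have h1 : AEStronglyMeasurable q (volume.restrict (D ∩ box R)) :=
      (hqc.mono (hTD.trans hDH)).aestronglyMeasurable hTm
    have h2 : AEStronglyMeasurable ω (volume.restrict (D ∩ box R)) :=
      hω.aestronglyMeasurable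
    exact h1.mul (h2.mul ((J2_measurable_J _ _).sub (J2_measurable_J _ _)).aestronglyMeasurable)
  have hFT : IntegrableOn F (D ∩ box R) := by
    refine Integrable.mono' j16 hFm ?_
    filter_upwards [ae_restrict_mem hTm] with z hz
    rw [Real.norm_eq_abs]
    exact hpt z hz
  have hF0 : ∀ z ∈ D \ box R, F z = 0 := by
    intro z hz
    rw [hF]
    simp only
    rw [hωb z hz.2, zero_mul, mul_zero]
  have hFD : IntegrableOn F D := by
    have h2 : IntegrableOn F (D \ box R) := by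
      have h4 : IntegrableOn (fun _ : ℂ => (0 : ℝ)) (D \ box R) := integrableOn_zero
      exact h4.congr_fun (fun z hz => (hF0 z hz).symm) (hDm.diff hbm)
    have h5 := hFT.union h2
    rwa [inter_union_sdiff] at h5
  refine ⟨hFD, ?_⟩
  have hi : ∫ z in D, F z = ∫ z in D ∩ box R, F z := by
    refine setIntegral_eq_of_subset_of_forall_diff_eq_zero hDm hTD fun z hz => ?_
    exact hF0 z ⟨hz.1, fun hb => hz.2 ⟨hz.1, hb⟩⟩
  rw [hi]
  have hb : |∫ z in D ∩ box R, F z| ≤ ∫ z in D ∩ box R, (ε + (2 / ε * dX A z ^ 2 +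
      (ε / 2 * ‖fderiv ℝ u z‖ ^ 2 + (ε / 2 * ‖fderiv ℝ v z‖ ^ 2 + (δ * dY A z ^ 2 +
        1 / (2 * δ) * dX v z ^ 2))))) := by
    rw [← Real.norm_eq_abs]
    refine norm_integral_le_of_norm_le j16 ?_
    filter_upwards [ae_restrict_mem hTm] with z hz
    rw [Real.norm_eq_abs]
    exact hpt z hz
  rw [integral_add j1 j26, integral_add j2 j36, integral_add j3 j46, integral_add j4 j56,
    integral_add j5 j6, integral_const_mul, integral_const_mul, integral_const_mul,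
    integral_const_mul, integral_const_mul, setIntegral_const, smul_eq_mul] at hb
  have b1 : volume.real (D ∩ box R) * ε ≤ 36 * R ^ 2 * ε :=
    mul_le_mul_of_nonneg_right (b7_vol_real hR inter_subset_right) hε.le
  have b2 : ∫ z in D ∩ box R, dX A z ^ 2 ≤ C * ε ^ 2 :=
    (setIntegral_mono_set hAx (Eventually.of_forall fun z => sq_nonneg _)
      hTE.eventuallyLE).trans hAB.enX
  have b3 : ∫ z in D ∩ box R, ‖fderiv ℝ u z‖ ^ 2 ≤ M ^ 2 := by
    refine (setIntegral_mono_set hu2 (Eventually.of_forall fun z => sq_nonneg _)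
      hTD.eventuallyLE).trans ?_
    rw [hDdef]
    exact hd.enu
  have b4 : ∫ z in D ∩ box R, ‖fderiv ℝ v z‖ ^ 2 ≤ M ^ 2 := by
    refine (setIntegral_mono_set hv2 (Eventually.of_forall fun z => sq_nonneg _)
      hTD.eventuallyLE).trans ?_
    rw [hDdef]
    exact hd.env
  have b5 : ∫ z in D ∩ box R, dY A z ^ 2 ≤ C :=
    (setIntegral_mono_set hAy (Eventually.of_forall fun z => sq_nonneg _)
      hTE.eventuallyLE).trans hAB.enY
  have b6 : ∫ z in D ∩ box R, dX v z ^ 2 ≤ δ ^ 2 := by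
    refine (setIntegral_mono_set hvx (Eventually.of_forall fun z => sq_nonneg _)
      hTD.eventuallyLE).trans ?_
    rw [hDdef]
    exact hd.smv
  have c2 : 2 / ε * (∫ z in D ∩ box R, dX A z ^ 2) ≤ 2 / ε * (C * ε ^ 2) :=
    mul_le_mul_of_nonneg_left b2 (by positivity)
  have c3 : ε / 2 * (∫ z in D ∩ box R, ‖fderiv ℝ u z‖ ^ 2) ≤ ε / 2 * M ^ 2 :=
    mul_le_mul_of_nonneg_left b3 (by positivity)
  have c4 : ε / 2 * (∫ z in D ∩ box R, ‖fderiv ℝ v z‖ ^ 2) ≤ ε / 2 * M ^ 2 :=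
    mul_le_mul_of_nonneg_left b4 (by positivity)
  have c5 : δ * (∫ z in D ∩ box R, dY A z ^ 2) ≤ δ * C := mul_le_mul_of_nonneg_left b5 hδ.le
  have c6 : 1 / (2 * δ) * (∫ z in D ∩ box R, dX v z ^ 2) ≤ 1 / (2 * δ) * δ ^ 2 :=
    mul_le_mul_of_nonneg_left b6 (by positivity)
  have d2 : 2 / ε * (C * ε ^ 2) = 2 * C * ε := by field_simp
  have d6 : 1 / (2 * δ) * δ ^ 2 = δ / 2 := by field_simp
  have f1 : ε * (36 * R ^ 2 + 2 * C + M ^ 2) ≤ δ * (36 * R ^ 2 + 2 * C + M ^ 2) :=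
    mul_le_mul_of_nonneg_right hεδ (by positivity)
  linarith

end RSM2
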