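import Pool.Agent.RSM2.B5
import Pool.Agent.RSM2.B6
import Pool.Agent.RSM2.C6
import Pool.Agent.RSM2.B7Y

/-!
# RSM2 module B7: step (b)

CLAIM: `H` has small vertical extent.

PROOF.  Let `κ ≤ R` without restriction.  Suppose `w, w' ∈ H`, `im w' - im w > κ`, put `m = (im w + im w')/2`.
(1) For every `y ∈ [im w, im w']` there is a point of `H` at the height `y`: the maximum and the minimum
of `im` over the compact set `H` are attained at points of `frontier H`, so on the curve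
`t ↦ Ψ (s + it)`, a connected subset of `H`.
(2) If `y₀ ≤ m` let `[a, b] = [m + κ/8, m + κ/4]`, `[a', b'] = [m + 3κ/8, m + κ/2]`; if `y₀ > m` let
`[a, b] = [m - κ/2, m - 3κ/8]`, `[a', b'] = [m - κ/4, m - κ/8]`.  `β, β'` are tent functions
(`y ↦ (16/κ) max 0 (1 - 16|y - c|/κ)`, `c` the midpoint), `β + β' ≤ L = 16/κ`.  `q` is the weight of
`exists_weight`, `Q y = (∫_{Iic y} β) (∫_{Ici y} β')` is `C¹`, `0 ≤ Q ≤ 1`, `|Q'| ≤ L`, `Q = 0` off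
`[a, b'] ⊆ [-R, R]`, `Q = 1` on `[b, a']`; so `|∫ Q (y - y₀)| ≥ (κ/8) (κ/8) = κ²/64`
(`y - y₀` has a constant sign on `[a, b']` and `|y - y₀| ≥ κ/8` there).
(3) Let `(A, B)` be a test pair with `|A - y| ≤ η`, `|B| ≤ Cε`, `∫_box |A_x| ≤ 4R √C ε` (Cauchy-Schwarz,
area `16R²`), `∫_box |B_x| = ε² ∫_box |A_y| ≤ ε² 4R √C`.  Let `ξ` be a profile, `ω₀ = ξ(x) ξ(y)`; `φ₀ = ω₀` is
admissible in `slits_small` and `jump A ω₀ = -∫ ∂_y(ω₀ A) ≤ ∫ |∂_y ω₀| |A| ≤ 16R² (K₀/R)(2R + η)` as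
`A_y ≥ 0` (`MonoY`).
Let `O` be the interior of `[-5R/4, 5R/4]²` minus the slits... an open neighbourhood of `H` disjoint from a
neighbourhood of `SF` on which `ω₀ = 1`, `χ` from `collar_term` (`σ` arbitrary), `ω = ω₀ χ`: it
satisfies the assumptions of `slits_small` (`tsupport ω ⊆ box R \ H`, `ω = 1` near `SF`).
(4) IDENTITY on `D = (H ∪ SF)ᶜ`, with `U = x + u`, `V = y - y₀ + v`:
`J (ωU) B - J (ωV) A = ω (J U B - J V A) + χ (U J ω₀ B - V J ω₀ A) + ω₀ (U J χ B - V J χ A)`, where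
`χ = 1` where `J ω₀ ≠ 0` and `ω₀ = 1` where `J χ ≠ 0`.  Multiply by `q` and integrate:
`Z = I₁ + I₂ + I₃`.  `|Z|` is small by `slits_small`; `|I₁| ≤ ∫_{D ∩ box} |J U B - J V A|`, and
`J U B - J V A = (1 + u_x) A_x + ε² u_y A_y - v_x A_y + (1 + v_y) A_x`, so
`|I₁| ≤ 2 · 4R√C ε + 2M √C ε + ε² M √C + δ √C`; `|I₃| ≤ 22 (M C ε + δ (2R + η)) + σ` by
`collar_term` (`|A| ≤ 2R + η` on the box); and by `signal`
`|I₂ + ∫ Q (y - y₀)| ≤ 2K₀ 4R√C ε + η 2R (2RL + 1)`.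
So `κ²/64 ≤ |∫ Q (y - y₀)| ≤ |Z| + |I₁| + |I₃| + 8 K₀ R √C ε + η 2R (2RL + 1)`.
(5) CHOICE: first `η` (depending on `R, L`) such that `η 2R (2RL + 1) ≤ κ²/1000`, `η ≤ R`; then `ε`, `δ`, `σ` so
small (depending on `C, R, M, L, K₀`) that all the other terms are `≤ κ²/1000`: contradiction.
-/

open Complex Set Metric Filter Topology MeasureTheory

namespace RSM2

/-- the core of the argument: two points of `H` at a distance `> κ` in height, `κ ≤ R` -/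
private theorem b7_core {R M C L K₀ κ η δ ε : ℝ} (hR : 0 < R) (hM : 0 < M) (hC : 0 < C)
    (hL : 0 < L) (hK₀ : 0 < K₀) (hκ : 0 < κ) (hη : 0 < η) (hηR : η ≤ R)
    (hη2 : η * (2 * R * (2 * R * L + 1)) ≤ κ ^ 2 / 1000) (hε : 0 < ε) (hεδ : ε ≤ δ) (hδ1 : δ ≤ 1)
    (hδ2 : δ * (20 * (3 * R + M) * L * (36 * R ^ 2 + C + 108 * K₀ * R ^ 2) +
      (36 * R ^ 2 + 3 * C + M ^ 2 + 1) + 22 * (M * C + 3 * R) + K₀ * (36 * R ^ 2 + C)) ≤
        κ ^ 2 / 1000)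
    {ξ : ℝ → ℝ} (hξ : Profile R K₀ ξ) {ι : Type} {p : ι → ℂ} {τ ℓ : ι → ℝ} {H : Set ℂ}
    {Ψ : ℂ → ℂ} {s₀ s s₁ x₀ y₀ lam : ℝ} {u v A B q : ℂ → ℝ}
    (hd : StepBData p τ ℓ ε R M δ H Ψ s₀ s s₁ x₀ y₀ lam u v)
    (hAB : TestPair p τ ℓ ε R C η A B) (hq : Weight H L q)
    (hq5 : ∀ (k : ℝ → ℝ) (K : ℝ), Continuous k → (∀ t, k (t + 2 * Real.pi) = k t) →
        (∀ u v : ℝ, u ≤ v → v ≤ u + 2 * Real.pi → |∫ t in u..v, k t| ≤ K) → ∀ ε > 0,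
        ∀ᶠ s' : ℝ in 𝓝[>] s, |∫ t in (0 : ℝ)..(2 * Real.pi), q (Ψ (s' + t * I)) * k t| ≤
          2 * K + ε)
    {Q : ℝ → ℝ} (hQ : ContDiff ℝ 1 Q) (hQ1 : ∀ y, |Q y| ≤ 1)
    (hQL : ∀ y, |deriv Q y| ≤ L) (hQs : ∀ y, R < |y| → Q y = 0)
    (hq3 : ∀ w : ℂ, w.re < -R → q w = Q w.im)
    (hq4 : ∀ w : ℂ, R < ‖w‖ → (0 ≤ w.re ∨ R < |w.im|) → q w = 0)
    (hQi : κ ^ 2 / 64 ≤ |∫ y, Q y * (y - y₀)|) : False := by
  have hδ : 0 < δ := hε.trans_le hεδ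
  have hε1 : ε ≤ 1 := hεδ.trans hδ1
  have hSc : IsCompact (SF p τ ℓ) := hd.fam.isCompact
  have hSo : IsOpen (SF p τ ℓ)ᶜ := hd.fam.isOpen_compl
  have hDo : IsOpen (H ∪ SF p τ ℓ)ᶜ :=
    (hd.collar.compact.union hSc).isClosed.isOpen_compl
  have hDS : (H ∪ SF p τ ℓ)ᶜ ⊆ (SF p τ ℓ)ᶜ := compl_subset_compl.2 subset_union_right
  have hDH : (H ∪ SF p τ ℓ)ᶜ ⊆ Hᶜ := compl_subset_compl.2 subset_union_left
  -- the inner box
  obtain ⟨N, hN⟩ : ∃ N : Set ℂ, N = {z : ℂ | |z.re| < 5 * R / 4 ∧ |z.im| < 5 * R / 4} := ⟨_, rfl⟩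
  have hNo : IsOpen N := by
    rw [hN]
    exact (isOpen_lt (continuous_abs.comp continuous_re) continuous_const).inter
      (isOpen_lt (continuous_abs.comp continuous_im) continuous_const)
  have hN1 : ∀ z ∈ N, ξ z.re * ξ z.im = 1 := by
    intro z hz
    rw [hN] at hz
    rw [hξ.one _ hz.1.le, hξ.one _ hz.2.le, one_mul]
  have hSN : SF p τ ℓ ⊆ N := by
    intro z hz
    obtain ⟨j, hj⟩ := mem_iUnion.1 hz
    have h1 := hd.fam.box j z hj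
    rw [hN]
    exact ⟨by linarith [h1.1], by linarith [h1.2]⟩
  have hHN : H ⊆ N := by
    intro z hz
    have h1 := mem_closedBall_zero_iff.1 (hd.ball hz)
    rw [hN]
    exact ⟨by linarith [abs_re_le_norm z], by linarith [abs_im_le_norm z]⟩
  obtain ⟨O, hO⟩ : ∃ O : Set ℂ, O = N \ SF p τ ℓ := ⟨_, rfl⟩
  have hOo : IsOpen O := by
    rw [hO]
    exact hNo.sdiff hSc.isClosed
  have hHO : H ⊆ O := by
    rw [hO]
    exact fun z hz => ⟨hHN hz, fun h => disjoint_left.1 hd.disj hz h⟩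
  have hSO : SF p τ ℓ ⊆ Oᶜ := by
    rw [hO]
    exact fun z hz h => h.2 hz
  have hAb : ∀ z ∈ box R \ SF p τ ℓ, |A z| ≤ 3 * R := by
    intro z hz
    have h5 := hAB.near z hz
    have h6 := hz.1.2
    have h7 : |A z| ≤ |A z - z.im| + |z.im| := by
      have := abs_add_le (A z - z.im) z.im
      rwa [sub_add_cancel] at this
    linarith
  obtain ⟨χ, hχs, hχ01, hχ0, hχ1, hI3i, hI3⟩ := collar_term (a := 3 * R) (b := C * ε) hR hM hδ hd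
    (hAB.niceA 0).smooth (hAB.niceB 0).smooth hAb hAB.small hq hq5 hOo hHO
    (σ := κ ^ 2 / 1000) (by positivity)
  have hom := b7_om_smooth hξ
  obtain ⟨ω₀, hω₀⟩ : ∃ ω₀ : ℂ → ℝ, ω₀ = fun w : ℂ => ξ w.re * ξ w.im := ⟨_, rfl⟩
  have hω₀s : ContDiff ℝ (⊤ : ℕ∞) ω₀ := by rw [hω₀]; exact hom
  have hω₀c : HasCompactSupport ω₀ := by rw [hω₀]; exact b7_om_compact hR hξ
  have hω₀t : tsupport ω₀ ⊆ box R := by rw [hω₀]; exact b7_om_supp hR hξ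
  have hω₀b : ∀ z, 0 ≤ ω₀ z ∧ ω₀ z ≤ 1 := by intro z; rw [hω₀]; exact b7_om_bd hξ z
  have hω₀1 : ∀ z ∈ N, ω₀ z = 1 := by intro z hz; rw [hω₀]; exact hN1 z hz
  have hω₀S : ∀ᶠ z in 𝓝ˢ (SF p τ ℓ), ω₀ z = 1 := by
    filter_upwards [hNo.mem_nhdsSet.2 hSN] with z hz
    exact hω₀1 z hz
  obtain ⟨ω, hω⟩ : ∃ ω : ℂ → ℝ, ω = fun z => ω₀ z * χ z := ⟨_, rfl⟩
  have hωs : ContDiff ℝ (⊤ : ℕ∞) ω := by rw [hω]; exact hω₀s.mul hχs
  have hωc : HasCompactSupport ω := by rw [hω]; exact hω₀c.mul_right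
  have hωb : ∀ z, 0 ≤ ω z ∧ ω z ≤ 1 := by
    intro z
    rw [hω]
    exact ⟨mul_nonneg (hω₀b z).1 (hχ01 z).1, mul_le_one₀ (hω₀b z).2 (hχ01 z).1 (hχ01 z).2⟩
  have hωt : tsupport ω ⊆ box R \ H := by
    rw [hω]
    intro z hz
    refine ⟨hω₀t (tsupport_mul_subset_left hz), fun hzH => ?_⟩
    have h1 : z ∈ tsupport χ := tsupport_mul_subset_right hz
    have h2 : z ∉ tsupport χ := by
      rw [notMem_tsupport_iff_eventuallyEq]
      exact (nhds_le_nhdsSet hzH) hχ0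
    exact h2 h1
  have hωS : ∀ᶠ z in 𝓝ˢ (SF p τ ℓ), ω z = 1 := by
    have h1 : ∀ᶠ z in 𝓝ˢ (SF p τ ℓ), χ z = 1 := (nhdsSet_mono hSO) hχ1
    filter_upwards [h1, hω₀S] with z hz1 hz2
    rw [hω]
    simp only
    rw [hz1, hz2, one_mul]
  have hZ := slits_small hR hM hε hε1 hd hAB hq hωs hωc hωb hωt hωS hω₀s hω₀c
    (fun z => (hω₀b z).1) hω₀S
  obtain ⟨hI1i, hI1⟩ := b7_I1 hR hC hε hεδ hδ1 hd hAB hq.cont hq.bd hωs.continuous hωb
    (fun z hz => by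
      by_contra hne
      exact hz (hωt (subset_tsupport _ hne)).1)
  have hsig := signal hR hK₀ hη.le hL.le hd hAB hq hξ hQ hQ1 hQL hQs hq3 hq4
  rw [← hω₀] at hsig
  have hjump : jump (SF p τ ℓ) A ω₀ ≤ 108 * K₀ * R ^ 2 := by
    rw [hω₀]
    exact b7_jump hR hK₀ hξ hd.fam hηR hAB
  have hX := b7_absX hR hε hAB
  have hXY := b7_absXY hR hε hε1 hC hSo hAB
  -- names for the integrals
  obtain ⟨Z, hZd⟩ : ∃ Z : ℝ, Z = ∫ z in (H ∪ SF p τ ℓ)ᶜ, q z *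
      (J (fun w => ω w * (w.re + u w)) B z - J (fun w => ω w * (w.im - y₀ + v w)) A z) := ⟨_, rfl⟩
  obtain ⟨F1, hF1⟩ : ∃ F : ℂ → ℝ, F = fun z => q z * (ω z * (J (fun w => w.re + u w) B z -
        J (fun w => w.im - y₀ + v w) A z)) := ⟨_, rfl⟩
  obtain ⟨F2, hF2⟩ : ∃ F : ℂ → ℝ, F = fun z => q z * ((z.re + u z) * J ω₀ B z -
        (z.im - y₀ + v z) * J ω₀ A z) := ⟨_, rfl⟩
  obtain ⟨F3, hF3⟩ : ∃ F : ℂ → ℝ, F = fun z => q z * ((z.re + u z) * J χ B z -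
        (z.im - y₀ + v z) * J χ A z) := ⟨_, rfl⟩
  rw [← hZd] at hZ
  rw [← hF1] at hI1i hI1
  rw [← hF2] at hsig
  rw [← hF3] at hI3i hI3
  have hid : ∀ z ∈ (H ∪ SF p τ ℓ)ᶜ, q z * (J (fun w => ω w * (w.re + u w)) B z -
      J (fun w => ω w * (w.im - y₀ + v w)) A z) = F1 z + F2 z + F3 z := by
    intro z hz
    have du : DifferentiableAt ℝ u z :=
      ((hd.niceu 0).smooth.contDiffAt (hDo.mem_nhds hz)).differentiableAt (by norm_num)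
    have dv : DifferentiableAt ℝ v z :=
      ((hd.nicev 0).smooth.contDiffAt (hDo.mem_nhds hz)).differentiableAt (by norm_num)
    have dre : DifferentiableAt ℝ (fun w : ℂ => w.re) z := Complex.reCLM.differentiableAt
    have dim : DifferentiableAt ℝ (fun w : ℂ => w.im) z := Complex.imCLM.differentiableAt
    have dU : DifferentiableAt ℝ (fun w : ℂ => w.re + u w) z := dre.add du
    have dV : DifferentiableAt ℝ (fun w : ℂ => w.im - y₀ + v w) z :=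
      (dim.sub (differentiableAt_const _)).add dv
    have dω : DifferentiableAt ℝ ω z := hωs.differentiable (by simp) z
    have dω₀ : DifferentiableAt ℝ ω₀ z := hω₀s.differentiable (by simp) z
    have dχ : DifferentiableAt ℝ χ z := hχs.differentiable (by simp) z
    have hJω : ∀ g : ℂ → ℝ, J ω g z = J ω₀ g z + J χ g z := by
      intro g
      have h1 : J ω g z = ω₀ z * J χ g z + χ z * J ω₀ g z := by
        rw [hω]
        exact J_mul_left dω₀ dχ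
      by_cases hzO : z ∈ O
      · have hzN : z ∈ N := by rw [hO] at hzO; exact hzO.1
        have h2 : ω₀ =ᶠ[𝓝 z] fun _ => (1 : ℝ) := by
          filter_upwards [hNo.mem_nhds hzN] with w hw
          exact hω₀1 w hw
        have h3 : J ω₀ g z = 0 := by
          rw [J_congr h2 (EventuallyEq.refl _ g)]
          exact J_const_left 1 g z
        rw [h1, h3, hω₀1 z hzN]
        ring
      · have h2 : χ =ᶠ[𝓝 z] fun _ => (1 : ℝ) :=
          (nhds_le_nhdsSet (show z ∈ Oᶜ from hzO)) hχ1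
        have h3 : J χ g z = 0 := by
          rw [J_congr h2 (EventuallyEq.refl _ g)]
          exact J_const_left 1 g z
        rw [h1, h3, h2.eq_of_nhds]
        ring
    rw [J_mul_left dω dU, J_mul_left dω dV, hJω, hJω, hF1, hF2, hF3]
    ring
  have hDm : MeasurableSet (H ∪ SF p τ ℓ)ᶜ := hDo.measurableSet
  have c1 : ε * (36 * R ^ 2 + C) ≤ δ * (36 * R ^ 2 + C) :=
    mul_le_mul_of_nonneg_right hεδ (by positivity)
  have hsig2 : |(∫ z in (H ∪ SF p τ ℓ)ᶜ, F2 z) + ∫ y, Q y * (y - y₀)| ≤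
      K₀ * (δ * (36 * R ^ 2 + C)) + κ ^ 2 / 1000 := by
    refine hsig.trans ?_
    have h1 : 2 * K₀ * (∫ z in box R \ SF p τ ℓ, |dX A z|) ≤
        2 * K₀ * (ε * (36 * R ^ 2 + C) / 2) := mul_le_mul_of_nonneg_left hX (by positivity)
    have h2 : K₀ * (ε * (36 * R ^ 2 + C)) ≤ K₀ * (δ * (36 * R ^ 2 + C)) :=
      mul_le_mul_of_nonneg_left c1 hK₀.le
    linarith
  have hZ2 : |Z| ≤ δ * (20 * (3 * R + M) * L * (36 * R ^ 2 + C + 108 * K₀ * R ^ 2)) := by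
    refine hZ.trans ?_
    have h1 : ε * jump (SF p τ ℓ) A ω₀ ≤ ε * (108 * K₀ * R ^ 2) :=
      mul_le_mul_of_nonneg_left hjump hε.le
    have h2 : ε * (108 * K₀ * R ^ 2) ≤ δ * (108 * K₀ * R ^ 2) :=
      mul_le_mul_of_nonneg_right hεδ (by positivity)
    have h3 : (∫ z in box R \ SF p τ ℓ, (|dX A z| + |dX B z|)) + ε * jump (SF p τ ℓ) A ω₀ ≤
        δ * (36 * R ^ 2 + C + 108 * K₀ * R ^ 2) := by linarith
    have h4 : 20 * (3 * R + M) * L * ((∫ z in box R \ SF p τ ℓ, (|dX A z| + |dX B z|)) +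
        ε * jump (SF p τ ℓ) A ω₀) ≤
          20 * (3 * R + M) * L * (δ * (36 * R ^ 2 + C + 108 * K₀ * R ^ 2)) :=
      mul_le_mul_of_nonneg_left h3 (by positivity)
    linarith
  have hI3' : |∫ z in (H ∪ SF p τ ℓ)ᶜ, F3 z| ≤ δ * (22 * (M * C + 3 * R)) + κ ^ 2 / 1000 := by
    refine hI3.trans ?_
    have h1 : M * (C * ε) ≤ M * (C * δ) :=
      mul_le_mul_of_nonneg_left (mul_le_mul_of_nonneg_left hεδ hC.le) hM.le
    linarith
  have hκ2 : 0 < κ ^ 2 := by positivity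
  have hP : 0 ≤ δ * (20 * (3 * R + M) * L * (36 * R ^ 2 + C + 108 * K₀ * R ^ 2)) := by positivity
  have hP1 : 0 ≤ δ * (36 * R ^ 2 + 3 * C + M ^ 2 + 1) := by positivity
  have hP3 : 0 ≤ δ * (22 * (M * C + 3 * R)) := by positivity
  by_cases hi2 : IntegrableOn F2 (H ∪ SF p τ ℓ)ᶜ
  · have hsum : Z = (∫ z in (H ∪ SF p τ ℓ)ᶜ, F1 z) + (∫ z in (H ∪ SF p τ ℓ)ᶜ, F2 z) +
        ∫ z in (H ∪ SF p τ ℓ)ᶜ, F3 z := by
      have i12 : Integrable (fun z => F1 z + F2 z) (volume.restrict (H ∪ SF p τ ℓ)ᶜ) :=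
        hI1i.add hi2
      rw [hZd, setIntegral_congr_fun hDm hid, integral_add i12 hI3i, integral_add hI1i hi2]
    have e1 := abs_le.1 hsig2
    have e2 := abs_le.1 hZ2
    have e3 := abs_le.1 hI3'
    have e4 := abs_le.1 hI1
    rcases le_abs.1 hQi with h | h
    · nlinarith
    · nlinarith
  · have h0 : ∫ z in (H ∪ SF p τ ℓ)ᶜ, F2 z = 0 := integral_undef hi2
    rw [h0, zero_add] at hsig2
    nlinarith

theorem stepB {R M : ℝ} (hR : 0 < R) (hM : 0 < M) {κ : ℝ} (hκ : 0 < κ) : ∃ δ > 0, ∀ ε : ℝ,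
    0 < ε → ε ≤ δ → ∀ (ι : Type) (p : ι → ℂ) (τ ℓ : ι → ℝ) (H : Set ℂ) (Ψ : ℂ → ℂ)
      (s₀ s s₁ x₀ y₀ lam : ℝ) (u v : ℂ → ℝ),
      StepBData p τ ℓ ε R M δ H Ψ s₀ s s₁ x₀ y₀ lam u v →
      ∀ w ∈ H, ∀ w' ∈ H, |w.im - w'.im| ≤ κ := by
  obtain ⟨K₀, hK₀, hprof⟩ := exists_profile
  obtain ⟨C, hC, hTP⟩ := exists_testPair hR
  obtain ⟨κ', hκ'd⟩ : ∃ κ' : ℝ, κ' = min κ R := ⟨_, rfl⟩
  have hκ' : 0 < κ' := by rw [hκ'd]; exact lt_min hκ hR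
  have hκ'κ : κ' ≤ κ := by rw [hκ'd]; exact min_le_left _ _
  obtain ⟨L, hL, hWF⟩ := b7_weightfun κ' hκ'
  obtain ⟨η, hηd⟩ : ∃ η : ℝ, η = min R (κ' ^ 2 / 1000 / (2 * R * (2 * R * L + 1))) := ⟨_, rfl⟩
  have hηp : 0 < 2 * R * (2 * R * L + 1) := by positivity
  have hη : 0 < η := by rw [hηd]; exact lt_min hR (by positivity)
  have hηR : η ≤ R := by rw [hηd]; exact min_le_left _ _
  have hη2 : η * (2 * R * (2 * R * L + 1)) ≤ κ' ^ 2 / 1000 := by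
    have h1 : η ≤ κ' ^ 2 / 1000 / (2 * R * (2 * R * L + 1)) := by rw [hηd]; exact min_le_right _ _
    rwa [le_div_iff₀ hηp] at h1
  obtain ⟨ε₀, hε₀, hTP2⟩ := hTP η hη
  obtain ⟨W, hWd⟩ : ∃ W : ℝ, W = 20 * (3 * R + M) * L * (36 * R ^ 2 + C + 108 * K₀ * R ^ 2) +
      (36 * R ^ 2 + 3 * C + M ^ 2 + 1) + 22 * (M * C + 3 * R) + K₀ * (36 * R ^ 2 + C) := ⟨_, rfl⟩
  have hW : 0 < W := by rw [hWd]; positivity
  obtain ⟨δ, hδd⟩ : ∃ δ : ℝ, δ = min (min ε₀ 1) (κ' ^ 2 / 1000 / W) := ⟨_, rfl⟩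
  have hδ : 0 < δ := by
    rw [hδd]
    exact lt_min (lt_min hε₀ one_pos) (by positivity)
  have hδ1 : δ ≤ 1 := by
    rw [hδd]
    exact (min_le_left _ _).trans (min_le_right _ _)
  have hδ0 : δ ≤ ε₀ := by
    rw [hδd]
    exact (min_le_left _ _).trans (min_le_left _ _)
  have hδ2 : δ * W ≤ κ' ^ 2 / 1000 := by
    have h1 : δ ≤ κ' ^ 2 / 1000 / W := by rw [hδd]; exact min_le_right _ _
    rwa [le_div_iff₀ hW] at h1
  refine ⟨δ, hδ, ?_⟩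
  intro ε hε hεδ ι p τ ℓ H Ψ s₀ s s₁ x₀ y₀ lam u v hd
  -- it is enough to consider `w.im ≤ w'.im`
  have key : ∀ w ∈ H, ∀ w' ∈ H, w'.im - w.im ≤ κ' := by
    intro w hw w' hw'
    by_contra hcon
    push Not at hcon
    have hpr := b7_proj hd.collar hw hw'
    have hwR : -R ≤ w.im := by
      have h1 := mem_closedBall_zero_iff.1 (hd.ball hw)
      have h2 := abs_le.1 ((abs_im_le_norm w).trans h1)
      exact h2.1
    have hwR' : w'.im ≤ R := by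
      have h1 := mem_closedBall_zero_iff.1 (hd.ball hw')
      have h2 := abs_le.1 ((abs_im_le_norm w').trans h1)
      exact h2.2
    obtain ⟨a, ha1, ha2, ha3⟩ : ∃ a : ℝ, w.im ≤ a ∧ a + 3 * κ' / 8 ≤ w'.im ∧
        (y₀ ≤ a - κ' / 8 ∨ a + κ' / 2 ≤ y₀) := by
      rcases le_total y₀ ((w.im + w'.im) / 2) with h | h
      · exact ⟨(w.im + w'.im) / 2 + κ' / 8, by linarith, by linarith, Or.inl (by linarith)⟩
      · exact ⟨(w.im + w'.im) / 2 - κ' / 2, by linarith, by linarith, Or.inr (by linarith)⟩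
    obtain ⟨β, β', Q, cβ, cβ', nβ, nβ', sβ, sβ', iβ, iβ', lβ, eQ, cQ, bQ, dQ, sQ, iQ⟩ := hWF a
    obtain ⟨q, q1, q2, q3, q4, q5, q6⟩ := exists_weight hd.collar hd.ball (a := a)
      (b := a + κ' / 8) (a' := a + κ' / 4) (b' := a + 3 * κ' / 8) (by linarith) (by linarith)
      (by linarith) (fun y hy => hpr y ⟨by linarith [hy.1], by linarith [hy.2]⟩) cβ cβ' nβ nβ'
      sβ sβ' iβ iβ' lβ
    obtain ⟨A, B, hAB⟩ := hTP2 ε hε (hεδ.trans hδ0) ι p τ ℓ hd.fam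
    obtain ⟨ξ, hξ⟩ := hprof R hR
    refine b7_core hR hM hC hL hK₀ hκ' hη hηR hη2 hε hεδ hδ1 (by rw [← hWd]; exact hδ2) hξ hd hAB
      ⟨hd.collar.compact.isClosed, hL.le, q1, q2, q3⟩ q6 cQ bQ dQ (fun y hy => ?_)
      (fun w hw => ?_) q5 (iQ y₀ ha3)
    · refine sQ y fun h => ?_
      have : |y| ≤ R := abs_le.2 ⟨by linarith [h.1], by linarith [h.2]⟩
      linarith
    · rw [q4 w hw, eQ]
  intro w hw w' hw'
  rw [abs_le]
  constructor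
  · linarith [key w hw w' hw']
  · linarith [key w' hw' w hw]

end RSM2
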