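import Pool.Agent.RSM2.B5
import Pool.Agent.RSM2.B6
import Pool.Agent.RSM2.C6

/-!
# RSM2 module B7X: lemmas for step (b)
-/

open Complex Set Metric Filter Topology MeasureTheory

namespace RSM2

/-- the primitive of a bump -/
private theorem b7_prim {β : ℝ → ℝ} (hc : Continuous β) (hi : Integrable β) (y : ℝ) :
    HasDerivAt (fun y => ∫ t in Iic y, β t) (β y) y := by
  have h1 : (fun y => ∫ t in Iic y, β t) = fun y => (∫ t in Iic (0 : ℝ), β t) + ∫ t in (0 : ℝ)..y, β t := by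
    funext z
    rw [← intervalIntegral.integral_Iic_sub_Iic hi.integrableOn hi.integrableOn]
    ring
  rw [h1]
  exact (hc.integral_hasStrictDerivAt 0 y).hasDerivAt.const_add _

private theorem b7_Ici {β : ℝ → ℝ} (hi : Integrable β) (y : ℝ) :
    ∫ t in Ici y, β t = (∫ t, β t) - ∫ t in Iic y, β t := by
  have h1 := integral_add_compl (μ := volume) (s := Iic y) measurableSet_Iic hi
  rw [compl_Iic] at h1
  rw [integral_Ici_eq_integral_Ioi]
  linarith

theorem b7_weightfun (κ : ℝ) (hκ : 0 < κ) : ∃ L > 0, ∀ a : ℝ, ∃ β β' Q : ℝ → ℝ,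
    Continuous β ∧ Continuous β' ∧ (∀ y, 0 ≤ β y) ∧ (∀ y, 0 ≤ β' y) ∧
    (∀ y, y ∉ Icc a (a + κ / 8) → β y = 0) ∧
    (∀ y, y ∉ Icc (a + κ / 4) (a + 3 * κ / 8) → β' y = 0) ∧
    ∫ y, β y = 1 ∧ ∫ y, β' y = 1 ∧ (∀ y, β y + β' y ≤ L) ∧
    (∀ y, Q y = (∫ t in Iic y, β t) * ∫ t in Ici y, β' t) ∧ ContDiff ℝ 1 Q ∧
    (∀ y, |Q y| ≤ 1) ∧ (∀ y, |deriv Q y| ≤ L) ∧ (∀ y, y ∉ Icc a (a + 3 * κ / 8) → Q y = 0) ∧
    ∀ y₀ : ℝ, (y₀ ≤ a - κ / 8 ∨ a + κ / 2 ≤ y₀) → κ ^ 2 / 64 ≤ |∫ y, Q y * (y - y₀)| := by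
  let f : ContDiffBump (κ / 16 : ℝ) := ⟨κ / 64, κ / 32, by positivity, by linarith⟩
  obtain ⟨b₀, hb₀⟩ : ∃ b₀ : ℝ → ℝ, b₀ = f.normed volume := ⟨_, rfl⟩
  have c0 : Continuous b₀ := by rw [hb₀]; exact f.continuous_normed
  have n0 : ∀ y, 0 ≤ b₀ y := by intro y; rw [hb₀]; exact f.nonneg_normed y
  have i0 : ∫ y, b₀ y = 1 := by rw [hb₀]; exact f.integral_normed
  have s0 : ∀ y, y ∉ Icc 0 (κ / 8) → b₀ y = 0 := by
    intro y hy
    by_contra hne
    have h1 : y ∈ Function.support (f.normed volume) := by rw [← hb₀]; exact hne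
    rw [f.support_normed_eq] at h1
    have h2 : |y - κ / 16| < κ / 32 := by rwa [mem_ball, Real.dist_eq] at h1
    rw [abs_lt] at h2
    exact hy ⟨by linarith, by linarith⟩
  have k0 : HasCompactSupport b₀ := by rw [hb₀]; exact f.hasCompactSupport_normed
  obtain ⟨L₀, hL₀⟩ : ∃ L₀ : ℝ, ∀ y, b₀ y ≤ L₀ := by
    obtain ⟨L₀, hL₀⟩ := k0.exists_bound_of_continuous c0
    exact ⟨L₀, fun y => (le_abs_self _).trans (hL₀ y)⟩
  have hL0 : 0 ≤ L₀ := (n0 0).trans (hL₀ 0)
  refine ⟨2 * L₀ + 1, by linarith, fun a => ?_⟩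
  obtain ⟨β, hβ⟩ : ∃ β : ℝ → ℝ, β = fun y => b₀ (y - a) := ⟨_, rfl⟩
  obtain ⟨β', hβ'⟩ : ∃ β' : ℝ → ℝ, β' = fun y => b₀ (y - (a + κ / 4)) := ⟨_, rfl⟩
  have cβ : Continuous β := by rw [hβ]; exact c0.comp (continuous_id.sub continuous_const)
  have cβ' : Continuous β' := by rw [hβ']; exact c0.comp (continuous_id.sub continuous_const)
  have nβ : ∀ y, 0 ≤ β y := by intro y; rw [hβ]; exact n0 _
  have nβ' : ∀ y, 0 ≤ β' y := by intro y; rw [hβ']; exact n0 _
  have sβ : ∀ y, y ∉ Icc a (a + κ / 8) → β y = 0 := by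
    intro y hy
    rw [hβ]
    exact s0 _ fun h => hy ⟨by linarith [h.1], by linarith [h.2]⟩
  have sβ' : ∀ y, y ∉ Icc (a + κ / 4) (a + 3 * κ / 8) → β' y = 0 := by
    intro y hy
    rw [hβ']
    exact s0 _ fun h => hy ⟨by linarith [h.1], by linarith [h.2]⟩
  have iβ : ∫ y, β y = 1 := by
    rw [hβ]
    simp only
    rw [integral_sub_right_eq_self b₀ a]
    exact i0
  have iβ' : ∫ y, β' y = 1 := by
    rw [hβ']
    simp only
    rw [integral_sub_right_eq_self b₀ (a + κ / 4)]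
    exact i0
  have Iβ : Integrable β := integrable_of_integral_eq_one iβ
  have Iβ' : Integrable β' := integrable_of_integral_eq_one iβ'
  have lβ : ∀ y, β y + β' y ≤ 2 * L₀ + 1 := by
    intro y
    rw [hβ, hβ']
    simp only
    linarith [hL₀ (y - a), hL₀ (y - (a + κ / 4))]
  obtain ⟨G, hG⟩ : ∃ G : ℝ → ℝ, G = fun y => ∫ t in Iic y, β t := ⟨_, rfl⟩
  obtain ⟨G', hG'⟩ : ∃ G' : ℝ → ℝ, G' = fun y => ∫ t in Ici y, β' t := ⟨_, rfl⟩
  have dG : ∀ y, HasDerivAt G (β y) y := by
    intro y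
    rw [hG]
    exact b7_prim cβ Iβ y
  have dG' : ∀ y, HasDerivAt G' (-β' y) y := by
    intro y
    have h1 : G' = fun y => 1 - ∫ t in Iic y, β' t := by
      rw [hG']
      funext z
      rw [b7_Ici Iβ', iβ']
    rw [h1]
    exact (b7_prim cβ' Iβ' y).const_sub 1
  have G0 : ∀ y, 0 ≤ G y := by
    intro y; rw [hG]; exact setIntegral_nonneg measurableSet_Iic fun t _ => nβ t
  have G0' : ∀ y, 0 ≤ G' y := by
    intro y; rw [hG']; exact setIntegral_nonneg measurableSet_Ici fun t _ => nβ' t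
  have G1 : ∀ y, G y ≤ 1 := by
    intro y
    rw [hG, ← iβ]
    exact setIntegral_le_integral Iβ (Eventually.of_forall nβ)
  have G1' : ∀ y, G' y ≤ 1 := by
    intro y
    rw [hG', ← iβ']
    exact setIntegral_le_integral Iβ' (Eventually.of_forall nβ')
  have Ga : ∀ y, y < a → G y = 0 := by
    intro y hy
    rw [hG]
    simp only
    refine setIntegral_eq_zero_of_forall_eq_zero fun t ht => ?_
    exact sβ t fun h => by linarith [h.1, show t ≤ y from ht]
  have Gb : ∀ y, a + κ / 8 ≤ y → G y = 1 := by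
    intro y hy
    have h1 : ∫ t in Ioi y, β t = 0 := by
      refine setIntegral_eq_zero_of_forall_eq_zero fun t ht => ?_
      exact sβ t fun h => by linarith [h.2, show y < t from ht]
    have h2 := integral_add_compl (μ := volume) (s := Iic y) measurableSet_Iic Iβ
    rw [compl_Iic, h1, iβ] at h2
    rw [hG]
    simp only
    linarith
  have Gb' : ∀ y, a + 3 * κ / 8 < y → G' y = 0 := by
    intro y hy
    rw [hG']
    simp only
    refine setIntegral_eq_zero_of_forall_eq_zero fun t ht => ?_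
    exact sβ' t fun h => by linarith [h.2, show y ≤ t from ht]
  have Ga' : ∀ y, y ≤ a + κ / 4 → G' y = 1 := by
    intro y hy
    have h1 : ∫ t in Iic y, β' t = 0 := by
      rw [integral_Iic_eq_integral_Iio]
      refine setIntegral_eq_zero_of_forall_eq_zero fun t ht => ?_
      exact sβ' t fun h => by linarith [h.1, show t < y from ht]
    rw [hG']
    simp only
    rw [b7_Ici Iβ', iβ', h1, sub_zero]
  have dQ : ∀ y, HasDerivAt (fun y => G y * G' y) (β y * G' y + G y * -β' y) y :=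
    fun y => (dG y).mul (dG' y)
  have cG : Continuous G := by
    rw [continuous_iff_continuousAt]
    exact fun y => (dG y).continuousAt
  have cG' : Continuous G' := by
    rw [continuous_iff_continuousAt]
    exact fun y => (dG' y).continuousAt
  refine ⟨β, β', fun y => G y * G' y, cβ, cβ', nβ, nβ', sβ, sβ', iβ, iβ', lβ, ?_, ?_, ?_, ?_, ?_,
    ?_⟩
  · intro y
    rw [hG, hG']
  · rw [contDiff_one_iff_deriv]
    refine ⟨fun y => (dQ y).differentiableAt, ?_⟩
    have h1 : deriv (fun y => G y * G' y) = fun y => β y * G' y + G y * -β' y :=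
      funext fun y => (dQ y).deriv
    rw [h1]
    exact (cβ.mul cG').add (cG.mul cβ'.neg)
  · intro y
    rw [abs_of_nonneg (mul_nonneg (G0 y) (G0' y))]
    exact mul_le_one₀ (G1 y) (G0' y) (G1' y)
  · intro y
    rw [(dQ y).deriv]
    have h1 : β y * G' y ≤ β y := mul_le_of_le_one_right (nβ y) (G1' y)
    have h2 : G y * β' y ≤ β' y := mul_le_of_le_one_left (nβ' y) (G1 y)
    have h3 : 0 ≤ β y * G' y := mul_nonneg (nβ y) (G0' y)
    have h4 : 0 ≤ G y * β' y := mul_nonneg (G0 y) (nβ' y)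
    rw [abs_le]
    constructor
    · linarith [lβ y, nβ y]
    · linarith [lβ y, nβ' y]
  · intro y hy
    rw [mem_Icc, not_and_or, not_le, not_le] at hy
    rcases hy with hy | hy
    · simp only; rw [Ga y hy, zero_mul]
    · simp only; rw [Gb' y hy, mul_zero]
  · intro y₀ hy₀
    -- `F = Q (y - y₀)` has constant sign
    have hsupp : ∀ y, y ∉ Icc a (a + 3 * κ / 8) → G y * G' y = 0 := by
      intro y hy
      rw [mem_Icc, not_and_or, not_le, not_le] at hy
      rcases hy with hy | hy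
      · rw [Ga y hy, zero_mul]
      · rw [Gb' y hy, mul_zero]
    have hFc : Continuous fun y => G y * G' y * (y - y₀) :=
      (cG.mul cG').mul (continuous_id.sub continuous_const)
    have hFs : HasCompactSupport fun y => G y * G' y * (y - y₀) := by
      refine HasCompactSupport.intro (isCompact_Icc (a := a) (b := a + 3 * κ / 8)) fun y hy => ?_
      rw [hsupp y hy, zero_mul]
    have hFi : Integrable fun y => G y * G' y * (y - y₀) := hFc.integrable_of_hasCompactSupport hFs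
    have hvol : (volume (Icc (a + κ / 8) (a + κ / 4))).toReal = κ / 8 := by
      rw [Real.volume_Icc, ENNReal.toReal_ofReal (by linarith)]
      ring
    have hlow : ∀ σ : ℝ, (∀ y ∈ Icc a (a + 3 * κ / 8), κ / 8 ≤ σ * (y - y₀)) →
        κ ^ 2 / 64 ≤ σ * ∫ y, G y * G' y * (y - y₀) := by
      intro σ hσ
      rw [← integral_const_mul]
      have h1 : κ ^ 2 / 64 = ∫ y in Icc (a + κ / 8) (a + κ / 4), κ / 8 := by
        rw [setIntegral_const, Measure.real, hvol, smul_eq_mul]
        ring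
      rw [h1, ← integral_indicator measurableSet_Icc]
      refine integral_mono ?_ (hFi.const_mul σ) fun y => ?_
      · refine IntegrableOn.integrable_indicator ?_ measurableSet_Icc
        exact integrableOn_const (by rw [Real.volume_Icc]; exact ENNReal.ofReal_ne_top)
      · simp only
        by_cases hy : y ∈ Icc (a + κ / 8) (a + κ / 4)
        · rw [indicator_of_mem hy, Gb y hy.1, Ga' y hy.2]
          have := hσ y ⟨by linarith [hy.1], by linarith [hy.2]⟩
          linarith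
        · rw [indicator_of_notMem hy]
          by_cases hy2 : y ∈ Icc a (a + 3 * κ / 8)
          · have h2 := hσ y hy2
            have h3 : 0 ≤ G y * G' y := mul_nonneg (G0 y) (G0' y)
            have h4 : 0 ≤ (G y * G' y) * (σ * (y - y₀)) := mul_nonneg h3 (by linarith)
            linarith
          · rw [hsupp y hy2, zero_mul, mul_zero]
    rcases hy₀ with hy₀ | hy₀
    · have h1 := hlow 1 fun y hy => by linarith [hy.1]
      rw [one_mul] at h1
      exact h1.trans (le_abs_self _)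
    · have h1 := hlow (-1) fun y hy => by linarith [hy.2]
      refine h1.trans ?_
      rw [neg_one_mul]
      exact neg_le_abs _

theorem b7_proj {H : Set ℂ} {Ψ : ℂ → ℂ} {s₀ s s₁ : ℝ} (hC : Collar H Ψ s₀ s s₁) {w w' : ℂ}
    (hw : w ∈ H) (hw' : w' ∈ H) : ∀ y ∈ Icc w.im w'.im, ∃ z ∈ H, z.im = y := by
  intro y hy
  have hne : H.Nonempty := ⟨w, hw⟩
  obtain ⟨z₁, hz₁, hmax⟩ := hC.compact.exists_isMaxOn hne continuous_im.continuousOn
  obtain ⟨z₂, hz₂, hmin⟩ := hC.compact.exists_isMinOn hne continuous_im.continuousOn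
  have hfr : ∀ z ∈ H, ∀ σ : ℝ, σ ≠ 0 → (∀ t : ℝ, 0 < t → z + (t * σ : ℝ) * I ∉ H) → z ∈ frontier H := by
    intro z hz σ _ h
    rw [hC.compact.isClosed.frontier_eq]
    refine ⟨hz, fun hint => ?_⟩
    have h1 : Tendsto (fun t : ℝ => z + (t * σ : ℝ) * I) (𝓝[>] 0) (𝓝 z) := by
      have h2 : Continuous fun t : ℝ => z + ((t * σ : ℝ) : ℂ) * I := by fun_prop
      have h3 := h2.tendsto 0
      simp only [zero_mul, ofReal_zero, add_zero] at h3
      exact h3.mono_left nhdsWithin_le_nhds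
    have h4 := h1.eventually (isOpen_interior.mem_nhds hint)
    obtain ⟨t, ht1, ht2⟩ := (h4.and self_mem_nhdsWithin).exists
    exact h t ht2 (interior_subset ht1)
  have hf1 : z₁ ∈ frontier H := by
    refine hfr z₁ hz₁ 1 one_ne_zero fun t ht hmem => ?_
    have h1 : (z₁ + (t * 1 : ℝ) * I).im ≤ z₁.im := hmax hmem
    simp only [mul_one, add_im, mul_im, ofReal_re, I_im, ofReal_im, I_re, mul_zero, add_zero] at h1
    linarith
  have hf2 : z₂ ∈ frontier H := by
    refine hfr z₂ hz₂ (-1) (by norm_num) fun t ht hmem => ?_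
    have h1 : z₂.im ≤ (z₂ + (t * -1 : ℝ) * I).im := hmin hmem
    simp only [add_im, mul_im, ofReal_re, I_im, ofReal_im, I_re, mul_zero, add_zero, mul_one] at h1
    linarith
  obtain ⟨t₁, ht₁⟩ := hC.fr hf1
  obtain ⟨t₂, ht₂⟩ := hC.fr hf2
  have hcont : Continuous fun t : ℝ => Ψ (s + t * I) := by
    rw [continuous_iff_continuousAt]
    intro t
    have hopen : IsOpen {ξ : ℂ | s₀ < ξ.re ∧ ξ.re < s₁} :=
      (isOpen_lt continuous_const continuous_re).inter (isOpen_lt continuous_re continuous_const)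
    have hmem : ((s : ℂ) + t * I) ∈ {ξ : ℂ | s₀ < ξ.re ∧ ξ.re < s₁} := by
      simp only [mem_ofPred_eq, add_re, ofReal_re, mul_re, I_re, mul_zero, ofReal_im, I_im, mul_one,
        sub_self, add_zero]
      exact ⟨hC.lt0, hC.lt1⟩
    have h1 : ContinuousAt Ψ ((s : ℂ) + t * I) :=
      ((hC.diff.differentiableAt (hopen.mem_nhds hmem))).continuousAt
    exact ContinuousAt.comp (f := fun t : ℝ => (s : ℂ) + t * I) h1 (by fun_prop)
  have hcim : Continuous fun t : ℝ => (Ψ (s + t * I)).im := continuous_im.comp hcont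
  have hconn : IsPreconnected (range fun t : ℝ => (Ψ (s + t * I)).im) :=
    isPreconnected_range hcim
  have h1 : (Ψ (s + t₂ * I)).im ≤ y := by
    have : Ψ (s + t₂ * I) = z₂ := ht₂
    rw [this]
    exact (show z₂.im ≤ w.im from hmin hw).trans hy.1
  have h2 : y ≤ (Ψ (s + t₁ * I)).im := by
    have : Ψ (s + t₁ * I) = z₁ := ht₁
    rw [this]
    exact hy.2.trans (show w'.im ≤ z₁.im from hmax hw')
  obtain ⟨t, ht⟩ := hconn.Icc_subset (mem_range_self t₂) (mem_range_self t₁) ⟨h1, h2⟩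
  exact ⟨_, hC.sub t, ht⟩

end RSM2
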