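import Pool.Agent.RSM2.Basic

/-!
# RSM2 module BW0: definitions for the weight function of step (b)

`H` is a compact set with connected complement, bounded by the analytic closed curve
`gam Ψ s t = Ψ (s + t i)`, with an exterior collar `Ψ {s < Re ξ < s₁}`.
* `lam Ψ s w τ` is `- Im ∫ t in 0..τ, γ' t / (w - γ t)`, so `lam w τ₂ - lam w τ₁` is a value of the
  argument of `(w - γ τ₂) / (w - γ τ₁)` (modulo `2π`);
* `LeftPt H Ψ s a b p τ` : for `y ∈ [a, b]` the point `p y = γ (τ y)` is the leftmost point of `H` at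
  the height `y`; `p`, `τ` are measurable;
* `gg` and `qq`: `qq y y' w = (gg y' w - gg y w) / 2π` is the weight `q_{y,y'}` (an integer);
* `ray p y` is the closed horizontal ray to the left which ends at `p y`.
-/

open Complex Set Metric Filter Topology MeasureTheory

namespace RSM2

/-- A compact set `H` bounded by an analytic Jordan curve `t ↦ Ψ (s + t i)`, with a collar. -/
structure Collar (H : Set ℂ) (Ψ : ℂ → ℂ) (s₀ s s₁ : ℝ) : Prop where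
  compact : IsCompact H
  compl : IsConnected Hᶜ
  lt0 : s₀ < s
  lt1 : s < s₁
  diff : DifferentiableOn ℂ Ψ {ξ | s₀ < ξ.re ∧ ξ.re < s₁}
  period : ∀ ξ, Ψ (ξ + 2 * Real.pi * I) = Ψ ξ
  inj : ∀ ξ ξ' : ℂ, s₀ < ξ.re → ξ.re < s₁ → s₀ < ξ'.re → ξ'.re < s₁ → Ψ ξ = Ψ ξ' →
    ∃ n : ℤ, ξ' = ξ + n * (2 * Real.pi * I)
  fr : frontier H ⊆ range (fun t : ℝ => Ψ (s + t * I))
  sub : ∀ t : ℝ, Ψ (s + t * I) ∈ H
  inn : ∀ ξ : ℂ, s₀ < ξ.re → ξ.re ≤ s → Ψ ξ ∈ H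
  out : ∀ ξ : ℂ, s < ξ.re → ξ.re < s₁ → Ψ ξ ∉ H

/-- The boundary curve. -/
noncomputable def gam (Ψ : ℂ → ℂ) (s t : ℝ) : ℂ := Ψ (s + t * I)

/-- The derivative of the boundary curve. -/
noncomputable def dgam (Ψ : ℂ → ℂ) (s t : ℝ) : ℂ := I * deriv Ψ (s + t * I)

/-- The variation of the argument of `w - γ`. -/
noncomputable def lam (Ψ : ℂ → ℂ) (s : ℝ) (w : ℂ) (τ : ℝ) : ℝ :=
  -(∫ t in (0 : ℝ)..τ, dgam Ψ s t / (w - gam Ψ s t)).im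

/-- The leftmost points of `H` at the heights `y ∈ [a, b]`. -/
structure LeftPt (H : Set ℂ) (Ψ : ℂ → ℂ) (s a b : ℝ) (p : ℝ → ℂ) (τ : ℝ → ℝ) : Prop where
  mem : ∀ y ∈ Icc a b, p y ∈ H
  im : ∀ y ∈ Icc a b, (p y).im = y
  left : ∀ y ∈ Icc a b, ∀ z ∈ H, z.im = y → (p y).re ≤ z.re
  eq : ∀ y ∈ Icc a b, p y = gam Ψ s (τ y)
  measp : Measurable p
  measτ : Measurable τ
  τ0 : ∀ y, 0 ≤ τ y
  τ1 : ∀ y, τ y < 2 * Real.pi

/-- The function `lam w (τ y) - Arg (w - p y)`. -/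
noncomputable def gg (Ψ : ℂ → ℂ) (s : ℝ) (p : ℝ → ℂ) (τ : ℝ → ℝ) (y : ℝ) (w : ℂ) : ℝ :=
  lam Ψ s w (τ y) - arg (w - p y)

/-- The weight of a pair of heights. -/
noncomputable def qq (Ψ : ℂ → ℂ) (s : ℝ) (p : ℝ → ℂ) (τ : ℝ → ℝ) (y y' : ℝ) (w : ℂ) : ℝ :=
  (gg Ψ s p τ y' w - gg Ψ s p τ y w) / (2 * Real.pi)

/-- The closed horizontal ray to the left, ending at `p y`. -/
def ray (p : ℝ → ℂ) (y : ℝ) : Set ℂ := {w | w.im = y ∧ w.re ≤ (p y).re}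

end RSM2
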