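import Pool.Agent.RSM2.BW0

/-!
# RSM2 module BW1: the argument along the boundary curve

Proofs.  `gam` is differentiable with derivative `dgam`, `dgam` is continuous (`Ψ` is holomorphic in
the open strip which contains the line `Re ξ = s`, so `deriv Ψ` is continuous there).

`lam_exp`: fix `w ∉ H`.  The function `E t = exp (- ∫ u in 0..t, γ' u / (w - γ u)) / (w - γ t)` has
derivative `0` (the derivative of the first factor is `- γ' / (w - γ)` times it, the derivative of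
`1 / (w - γ)` is `γ' / (w - γ)²`), so it is constant.  So
`exp (i (lam τ₂ - lam τ₁))` is `z / ‖z‖` for `z = (w - γ τ₂) / (w - γ τ₁)`; in the form below:

`lam_cont`: `(w, τ) ↦ lam w τ` is continuous on `Hᶜ × ℝ`: e.g. write the integral as
`τ * ∫ u in 0..1, γ' (u τ) / (w - γ (u τ))` and use the continuity of parametric integrals
(`intervalIntegral.continuousOn_of_dominated...` / `continuousWithinAt_of_dominated_interval`,
or `continuous_parametric_intervalIntegral_of_continuous` on the subtype `Hᶜ × ℝ`).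

`lam_bound`: for `‖w‖ > R` the integrand is bounded by `M / (‖w‖ - R)`, `M` a bound of `‖dgam‖`.
-/

open Complex Set Metric Filter Topology MeasureTheory

namespace RSM2

variable {H : Set ℂ} {Ψ : ℂ → ℂ} {s₀ s s₁ : ℝ}

private theorem strip_open (s₀ s₁ : ℝ) : IsOpen {ξ : ℂ | s₀ < ξ.re ∧ ξ.re < s₁} :=
  (isOpen_lt continuous_const continuous_re).inter (isOpen_lt continuous_re continuous_const)

private theorem line_re (s t : ℝ) : ((s : ℂ) + t * I).re = s := by simp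

private theorem line_im (s t : ℝ) : ((s : ℂ) + t * I).im = t := by simp

private theorem line_mem (hC : Collar H Ψ s₀ s s₁) (t : ℝ) :
    ((s : ℂ) + t * I) ∈ {ξ : ℂ | s₀ < ξ.re ∧ ξ.re < s₁} := by
  refine ⟨?_, ?_⟩
  · rw [line_re]
    exact hC.lt0
  · rw [line_re]
    exact hC.lt1

private theorem line_cont (s : ℝ) : Continuous (fun t : ℝ => (s : ℂ) + t * I) := by
  fun_prop

theorem gam_hasDerivAt (hC : Collar H Ψ s₀ s s₁) (t : ℝ) :
    HasDerivAt (gam Ψ s) (dgam Ψ s t) t := by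
  have h1 : HasDerivAt Ψ (deriv Ψ ((s : ℂ) + t * I)) ((s : ℂ) + t * I) :=
    (hC.diff.differentiableAt ((strip_open s₀ s₁).mem_nhds (line_mem hC t))).hasDerivAt
  have h2 : HasDerivAt (fun t : ℝ => (s : ℂ) + t * I) I t := by
    have := ((hasDerivAt_id t).ofReal_comp.mul_const I).const_add (s : ℂ)
    simpa using this
  exact HasDerivAt.scomp t h1 h2

theorem gam_continuous (hC : Collar H Ψ s₀ s s₁) : Continuous (gam Ψ s) :=
  continuous_iff_continuousAt.2 fun t => (gam_hasDerivAt hC t).continuousAt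

theorem dgam_continuous (hC : Collar H Ψ s₀ s s₁) : Continuous (dgam Ψ s) := by
  have h1 : ContinuousOn (deriv Ψ) {ξ : ℂ | s₀ < ξ.re ∧ ξ.re < s₁} :=
    (hC.diff.deriv (strip_open s₀ s₁)).continuousOn
  exact continuous_const.mul (h1.comp_continuous (line_cont s) (line_mem hC))

theorem gam_inj (hC : Collar H Ψ s₀ s s₁) {t t' : ℝ} (h : gam Ψ s t = gam Ψ s t') :
    ∃ n : ℤ, t' = t + n * (2 * Real.pi) := by
  have h1 := line_mem hC t
  have h2 := line_mem hC t'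
  obtain ⟨n, hn⟩ := hC.inj _ _ h1.1 h1.2 h2.1 h2.2 h
  refine ⟨n, ?_⟩
  have h3 := congrArg Complex.im hn
  rw [line_im, add_im, line_im] at h3
  rw [h3]
  simp

theorem gam_period (hC : Collar H Ψ s₀ s s₁) (t : ℝ) :
    gam Ψ s (t + 2 * Real.pi) = gam Ψ s t := by
  have h := hC.period ((s : ℂ) + t * I)
  unfold gam
  rw [← h]
  congr 1
  push_cast
  ring

private theorem sub_ne (hC : Collar H Ψ s₀ s s₁) {w : ℂ} (hw : w ∉ H) (t : ℝ) :
    w - gam Ψ s t ≠ 0 := by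
  intro h
  rw [sub_eq_zero] at h
  rw [h] at hw
  exact hw (hC.sub t)

private theorem integrand_cont (hC : Collar H Ψ s₀ s s₁) {w : ℂ} (hw : w ∉ H) :
    Continuous (fun t => dgam Ψ s t / (w - gam Ψ s t)) :=
  (dgam_continuous hC).div (continuous_const.sub (gam_continuous hC)) (sub_ne hC hw)

private theorem exp_key (hC : Collar H Ψ s₀ s s₁) {w : ℂ} (hw : w ∉ H) (τ : ℝ) :
    exp (-(∫ t in (0 : ℝ)..τ, dgam Ψ s t / (w - gam Ψ s t))) * (w - gam Ψ s 0) =
      w - gam Ψ s τ := by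
  have hc := integrand_cont hC hw
  have hJ : ∀ t, HasDerivAt (fun τ => ∫ t in (0 : ℝ)..τ, dgam Ψ s t / (w - gam Ψ s t))
      (dgam Ψ s t / (w - gam Ψ s t)) t := fun t =>
    intervalIntegral.integral_hasDerivAt_right (hc.intervalIntegrable _ _)
      (hc.stronglyMeasurableAtFilter _ _) hc.continuousAt
  have hE : ∀ t, HasDerivAt (fun τ => exp (-(∫ t in (0 : ℝ)..τ, dgam Ψ s t / (w - gam Ψ s t))) /
      (w - gam Ψ s τ)) 0 t := by
    intro t
    have h1 : HasDerivAt (fun τ => exp (-(∫ t in (0 : ℝ)..τ, dgam Ψ s t / (w - gam Ψ s t))) /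
        (w - gam Ψ s τ))
        ((exp (-(∫ t in (0 : ℝ)..t, dgam Ψ s t / (w - gam Ψ s t))) *
          -(dgam Ψ s t / (w - gam Ψ s t)) * (w - gam Ψ s t) -
          exp (-(∫ t in (0 : ℝ)..t, dgam Ψ s t / (w - gam Ψ s t))) * (0 - dgam Ψ s t)) /
          (w - gam Ψ s t) ^ 2) t :=
      ((hJ t).neg.cexp).div ((hasDerivAt_const t w).sub (gam_hasDerivAt hC t)) (sub_ne hC hw t)
    refine h1.congr_deriv ?_
    have hne := sub_ne hC hw t
    have h2 : dgam Ψ s t / (w - gam Ψ s t) * (w - gam Ψ s t) = dgam Ψ s t := div_mul_cancel₀ _ hne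
    rw [div_eq_zero_iff]
    left
    rw [mul_assoc, neg_mul, h2]
    ring
  have hconst : ∀ x y, (fun τ => exp (-(∫ t in (0 : ℝ)..τ, dgam Ψ s t / (w - gam Ψ s t))) /
      (w - gam Ψ s τ)) x = (fun τ => exp (-(∫ t in (0 : ℝ)..τ, dgam Ψ s t / (w - gam Ψ s t))) /
      (w - gam Ψ s τ)) y :=
    is_const_of_deriv_eq_zero (fun t => (hE t).differentiableAt) (fun t => (hE t).deriv)
  have h2 := hconst τ 0
  simp only [intervalIntegral.integral_same, neg_zero, exp_zero] at h2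
  rw [div_eq_div_iff (sub_ne hC hw τ) (sub_ne hC hw 0)] at h2
  rw [h2, one_mul]

private theorem exp_im (z : ℂ) : exp z = (Real.exp z.re : ℂ) * exp ((z.im : ℂ) * I) := by
  rw [ofReal_exp, ← exp_add, re_add_im]

private theorem lam_eq (hC : Collar H Ψ s₀ s s₁) {w : ℂ} (hw : w ∉ H) (τ : ℝ) :
    exp ((lam Ψ s w τ : ℝ) * I) * (w - gam Ψ s 0) =
      ‖w - gam Ψ s 0‖ * exp (arg (w - gam Ψ s τ) * I) := by
  have h1 := exp_key hC hw τ
  rw [exp_im] at h1
  have h2 : (-(∫ t in (0 : ℝ)..τ, dgam Ψ s t / (w - gam Ψ s t))).im = lam Ψ s w τ := by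
    rw [neg_im]
    rfl
  rw [h2] at h1
  set ρ := Real.exp (-(∫ t in (0 : ℝ)..τ, dgam Ψ s t / (w - gam Ψ s t))).re with hρ
  have hρ0 : 0 < ρ := Real.exp_pos _
  have h3 := norm_mul_exp_arg_mul_I (w - gam Ψ s τ)
  have h4 : ρ * ‖w - gam Ψ s 0‖ = ‖w - gam Ψ s τ‖ := by
    rw [← h1, norm_mul, norm_mul, norm_exp_ofReal_mul_I, mul_one, norm_real, Real.norm_eq_abs,
      abs_of_pos hρ0]
  have h5 : (ρ : ℂ) ≠ 0 := by
    exact_mod_cast hρ0.ne'
  apply mul_left_cancel₀ h5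
  rw [← mul_assoc, h1, ← mul_assoc, ← ofReal_mul, h4]
  exact h3.symm

/-- `lam τ₂ - lam τ₁` is an argument of the quotient `(w - γ τ₂) / (w - γ τ₁)`. -/
theorem lam_exp (hC : Collar H Ψ s₀ s s₁) {w : ℂ} (hw : w ∉ H) (τ₁ τ₂ : ℝ) :
    exp ((lam Ψ s w τ₂ - lam Ψ s w τ₁ : ℝ) * I) =
      exp ((arg (w - gam Ψ s τ₂) - arg (w - gam Ψ s τ₁) : ℝ) * I) := by
  have h1 := lam_eq hC hw τ₁
  have h2 := lam_eq hC hw τ₂
  rw [ofReal_sub, ofReal_sub, sub_mul, sub_mul, exp_sub, exp_sub,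
    div_eq_div_iff (exp_ne_zero _) (exp_ne_zero _)]
  apply mul_right_cancel₀ (sub_ne hC hw 0)
  calc exp (↑(lam Ψ s w τ₂) * I) * exp (↑(arg (w - gam Ψ s τ₁)) * I) * (w - gam Ψ s 0)
      = (exp (↑(lam Ψ s w τ₂) * I) * (w - gam Ψ s 0)) * exp (↑(arg (w - gam Ψ s τ₁)) * I) := by
        ring
    _ = exp (↑(arg (w - gam Ψ s τ₂)) * I) * (‖w - gam Ψ s 0‖ *
          exp (↑(arg (w - gam Ψ s τ₁)) * I)) := by
        rw [h2]
        ring
    _ = exp (↑(arg (w - gam Ψ s τ₂)) * I) * exp (↑(lam Ψ s w τ₁) * I) * (w - gam Ψ s 0) := by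
        rw [← h1]
        ring

theorem lam_cont (hC : Collar H Ψ s₀ s s₁) :
    ContinuousOn (fun x : ℂ × ℝ => lam Ψ s x.1 x.2) (Hᶜ ×ˢ univ) := by
  have hf : Continuous (Function.uncurry fun (w : (Hᶜ : Set ℂ)) (t : ℝ) =>
      dgam Ψ s t / ((w : ℂ) - gam Ψ s t)) := by
    refine Continuous.div ((dgam_continuous hC).comp continuous_snd)
      ((continuous_subtype_val.comp continuous_fst).sub
        ((gam_continuous hC).comp continuous_snd)) ?_
    rintro ⟨w, t⟩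
    exact sub_ne hC w.2 t
  have h1 := intervalIntegral.continuous_parametric_primitive_of_continuous
    (μ := volume) (a₀ := 0) hf
  have h2 : Continuous fun q : (Hᶜ : Set ℂ) × ℝ => lam Ψ s q.1 q.2 :=
    (continuous_im.comp h1).neg
  intro x hx
  obtain ⟨w, τ⟩ := x
  have hw : w ∈ Hᶜ := hx.1
  have h3 : ContinuousOn (fun x : ℂ × ℝ => lam Ψ s x.1 x.2) (Hᶜ ×ˢ univ) := by
    rw [continuousOn_iff_continuous_domRestrict]
    have h4 : Continuous fun q : (Hᶜ ×ˢ univ : Set (ℂ × ℝ)) =>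
        ((⟨q.1.1, q.2.1⟩, q.1.2) : (Hᶜ : Set ℂ) × ℝ) := by
      refine Continuous.prodMk ?_ (continuous_snd.comp continuous_subtype_val)
      exact Continuous.subtype_mk (continuous_fst.comp continuous_subtype_val) _
    exact h2.comp h4
  exact h3 _ hx

/-- For a fixed `w` the function is bounded. -/
theorem lam_bdd (hC : Collar H Ψ s₀ s s₁) {w : ℂ} (hw : w ∉ H) :
    ∃ M : ℝ, ∀ τ ∈ Icc 0 (2 * Real.pi), |lam Ψ s w τ| ≤ M := by
  have h1 : Continuous (fun τ => lam Ψ s w τ) := by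
    refine (lam_cont hC).comp_continuous (f := fun τ : ℝ => (w, τ)) (by fun_prop) ?_
    intro τ
    exact ⟨hw, mem_univ _⟩
  obtain ⟨M, hM⟩ := isCompact_Icc.exists_bound_of_continuousOn
    (s := Icc 0 (2 * Real.pi)) h1.continuousOn
  exact ⟨M, fun τ hτ => hM τ hτ⟩

theorem lam_bound (hC : Collar H Ψ s₀ s s₁) {R : ℝ} (hR : H ⊆ closedBall 0 R) :
    ∃ M : ℝ, ∀ (w : ℂ) (τ : ℝ), R < ‖w‖ → τ ∈ Icc 0 (2 * Real.pi) →
      |lam Ψ s w τ| ≤ M / (‖w‖ - R) := by
  obtain ⟨M, hM⟩ := isCompact_Icc.exists_bound_of_continuousOn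
    (s := Icc 0 (2 * Real.pi)) (dgam_continuous hC).continuousOn
  have hpi := Real.pi_pos
  have hM0 : 0 ≤ M := (norm_nonneg _).trans (hM 0 ⟨le_rfl, by linarith⟩)
  refine ⟨M * (2 * Real.pi), fun w τ hw hτ => ?_⟩
  have hpos : 0 < ‖w‖ - R := by linarith
  have h1 : ∀ t ∈ Set.uIoc 0 τ, ‖dgam Ψ s t / (w - gam Ψ s t)‖ ≤ M / (‖w‖ - R) := by
    intro t ht
    rw [uIoc_of_le hτ.1] at ht
    have h2 : ‖gam Ψ s t‖ ≤ R := by
      have := hR (hC.sub t)
      rwa [mem_closedBall_zero_iff] at this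
    have h3 : ‖w‖ - R ≤ ‖w - gam Ψ s t‖ := by
      have := norm_sub_norm_le w (gam Ψ s t)
      linarith
    rw [norm_div]
    exact div_le_div₀ hM0 (hM t ⟨ht.1.le, ht.2.trans hτ.2⟩) hpos h3
  have h2 := intervalIntegral.norm_integral_le_of_norm_le_const h1
  have h3 : |lam Ψ s w τ| ≤ ‖∫ t in (0 : ℝ)..τ, dgam Ψ s t / (w - gam Ψ s t)‖ := by
    unfold lam
    rw [abs_neg]
    exact abs_im_le_norm _
  refine h3.trans (h2.trans ?_)
  rw [sub_zero, abs_of_nonneg hτ.1, div_mul_eq_mul_div]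
  exact div_le_div_of_nonneg_right (mul_le_mul_of_nonneg_left hτ.2 hM0) hpos.le

end RSM2
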