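import Pool.Agent.RSM2.BW1

/-!
# RSM2 module BW2: the leftmost points of the hole, and measurability

Proof.  For `y ∈ [a, b]` the set `H ∩ {Im = y}` is compact and not empty; let `p y` be its point of
least real part, `p y = 0` for other `y`.  The points directly to the left of `p y` are not in `H`, so
`p y ∈ frontier H ⊆ range γ`, `p y = γ t` for a unique `t = τ y ∈ [0, 2π)` (`gam_inj`, `gam_period`);
`τ y = 0` for other `y`.
Measurability.  For `c : ℝ` the set `{y ∈ [a, b] | Re (p y) ≤ c}` is the image under `Im` of the compact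
set `H ∩ {Re ≤ c} ∩ {Im ∈ [a, b]}`; so it is compact, and `Re ∘ p` is measurable (`measurable_of_Iic`,
the set of the other `y` is measurable and there `p = 0`); `Im (p y) = y` on `[a, b]`.
For `0 ≤ c < 2π` the set `{y ∈ [a, b] | τ y ≤ c}` is `{y ∈ [a, b] | p y ∈ γ [0, c]}`, the preimage of a
compact set under a measurable map.
-/

open Complex Set Metric Filter Topology MeasureTheory

namespace RSM2

variable {H : Set ℂ} {Ψ : ℂ → ℂ} {s₀ s s₁ : ℝ}

private theorem meas_aux {f : ℝ → ℝ} {a b : ℝ} (h0 : ∀ y, y ∉ Icc a b → f y = 0)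
    (h : ∀ c, MeasurableSet {y | y ∈ Icc a b ∧ f y ≤ c}) : Measurable f := by
  refine measurable_of_Iic fun c => ?_
  by_cases hc : 0 ≤ c
  · have : f ⁻¹' Iic c = {y | y ∈ Icc a b ∧ f y ≤ c} ∪ (Icc a b)ᶜ := by
      ext y
      constructor
      · intro hy
        by_cases hy' : y ∈ Icc a b
        · exact Or.inl ⟨hy', hy⟩
        · exact Or.inr hy'
      · rintro (hy | hy)
        · exact hy.2
        · show f y ≤ c
          rw [h0 y hy]
          exact hc
    rw [this]
    exact (h c).union measurableSet_Icc.compl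
  · have : f ⁻¹' Iic c = {y | y ∈ Icc a b ∧ f y ≤ c} := by
      ext y
      constructor
      · intro hy
        refine ⟨?_, hy⟩
        by_contra hcon
        have hy2 : f y ≤ c := hy
        rw [h0 y hcon] at hy2
        exact hc hy2
      · exact fun hy => hy.2
    rw [this]
    exact h c

theorem exists_leftPt (hC : Collar H Ψ s₀ s s₁) {a b : ℝ} (hproj : ∀ y ∈ Icc a b, ∃ z ∈ H, z.im = y) :
    ∃ (p : ℝ → ℂ) (τ : ℝ → ℝ), LeftPt H Ψ s a b p τ := by
  have hHc : IsCompact H := hC.compact
  have hex : ∀ y : ℝ, ∃ (z : ℂ) (t : ℝ), (y ∈ Icc a b → z ∈ H ∧ z.im = y ∧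
      (∀ z' ∈ H, z'.im = y → z.re ≤ z'.re) ∧ z = gam Ψ s t) ∧ (y ∉ Icc a b → z = 0 ∧ t = 0) ∧
      0 ≤ t ∧ t < 2 * Real.pi := by
    intro y
    by_cases hy : y ∈ Icc a b
    · have hcl : IsClosed {z : ℂ | z.im = y} := isClosed_eq Complex.continuous_im continuous_const
      have hK : IsCompact (H ∩ {z : ℂ | z.im = y}) := hHc.inter_right hcl
      obtain ⟨z0, hz0, hz0y⟩ := hproj y hy
      obtain ⟨z, hz, hmin⟩ := hK.exists_isMinOn ⟨z0, hz0, hz0y⟩
        (f := fun z : ℂ => z.re) Complex.continuous_re.continuousOn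
      have hleft : ∀ z' ∈ H, z'.im = y → z.re ≤ z'.re := fun z' h1 h2 => hmin ⟨h1, h2⟩
      have hfr : z ∈ frontier H := by
        rw [frontier, hHc.isClosed.closure_eq]
        refine ⟨hz.1, ?_⟩
        intro hint
        rw [mem_interior_iff_mem_nhds, Metric.mem_nhds_iff] at hint
        obtain ⟨ε, hε, hball⟩ := hint
        have hmem : z - ((ε / 2 : ℝ) : ℂ) ∈ H := by
          refine hball ?_
          rw [Metric.mem_ball, dist_eq_norm]
          have : z - ((ε / 2 : ℝ) : ℂ) - z = -((ε / 2 : ℝ) : ℂ) := by ring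
          rw [this, norm_neg, Complex.norm_real, Real.norm_eq_abs, abs_of_pos (by linarith)]
          linarith
        have h3 := hleft _ hmem (by
          have := hz.2
          simp only [mem_setOf_eq] at this
          simp [this])
        simp only [Complex.sub_re, Complex.ofReal_re] at h3
        linarith
      obtain ⟨t, ht⟩ := hC.fr hfr
      have hper : Function.Periodic (gam Ψ s) (2 * Real.pi) := fun t => gam_period hC t
      obtain ⟨t', ht', heq⟩ := hper.exists_mem_Ico₀ Real.two_pi_pos t
      have ht2 : gam Ψ s t = z := ht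
      refine ⟨z, t', fun _ => ⟨hz.1, hz.2, hleft, ?_⟩, fun h => absurd hy h, ht'.1, ht'.2⟩
      rw [← heq, ht2]
    · exact ⟨0, 0, fun h => absurd h hy, fun _ => ⟨rfl, rfl⟩, le_rfl, Real.two_pi_pos⟩
  choose p τ h1 h2 h3 h4 using hex
  have hre : Measurable (fun y => (p y).re) := by
    refine meas_aux (a := a) (b := b) (fun y hy => by rw [(h2 y hy).1]; rfl) ?_
    intro c
    have hset : {y | y ∈ Icc a b ∧ (p y).re ≤ c} =
        Complex.im '' (H ∩ ({z : ℂ | z.re ≤ c} ∩ {z : ℂ | z.im ∈ Icc a b})) := by
      ext y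
      constructor
      · rintro ⟨hy, hyc⟩
        have := h1 y hy
        refine ⟨p y, ⟨this.1, hyc, ?_⟩, this.2.1⟩
        show (p y).im ∈ Icc a b
        rw [this.2.1]
        exact hy
      · rintro ⟨z, ⟨hz, hzc, hzy⟩, rfl⟩
        refine ⟨hzy, ?_⟩
        exact ((h1 z.im hzy).2.2.1 z hz rfl).trans hzc
    rw [hset]
    have hc1 : IsClosed ({z : ℂ | z.re ≤ c} ∩ {z : ℂ | z.im ∈ Icc a b}) :=
      (isClosed_le Complex.continuous_re continuous_const).inter
        (isClosed_Icc.preimage Complex.continuous_im)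
    exact ((hHc.inter_right hc1).image Complex.continuous_im).isClosed.measurableSet
  have him : Measurable (fun y => (p y).im) := by
    refine meas_aux (a := a) (b := b) (fun y hy => by rw [(h2 y hy).1]; rfl) ?_
    intro c
    have hset : {y | y ∈ Icc a b ∧ (p y).im ≤ c} = Icc a b ∩ Iic c := by
      ext y
      constructor
      · rintro ⟨hy, hyc⟩
        refine ⟨hy, ?_⟩
        rw [(h1 y hy).2.1] at hyc
        exact hyc
      · rintro ⟨hy, hyc⟩
        refine ⟨hy, ?_⟩
        rw [(h1 y hy).2.1]
        exact hyc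
    rw [hset]
    exact measurableSet_Icc.inter measurableSet_Iic
  have hp : Measurable p := by
    have : p = fun y => ((p y).re : ℂ) + ((p y).im : ℂ) * I := by
      funext y
      exact (Complex.re_add_im (p y)).symm
    rw [this]
    exact (Complex.measurable_ofReal.comp hre).add
      ((Complex.measurable_ofReal.comp him).mul measurable_const)
  have hτ : Measurable τ := by
    refine meas_aux (a := a) (b := b) (fun y hy => (h2 y hy).2) ?_
    intro c
    rcases lt_or_ge c (2 * Real.pi) with hc | hc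
    · have hset : {y | y ∈ Icc a b ∧ τ y ≤ c} = Icc a b ∩ p ⁻¹' (gam Ψ s '' Icc 0 c) := by
        ext y
        constructor
        · rintro ⟨hy, hyc⟩
          exact ⟨hy, τ y, ⟨h3 y, hyc⟩, ((h1 y hy).2.2.2).symm⟩
        · rintro ⟨hy, t, ht, hty⟩
          refine ⟨hy, ?_⟩
          rw [(h1 y hy).2.2.2] at hty
          obtain ⟨n, hn⟩ := gam_inj hC hty
          have hpi := Real.two_pi_pos
          have hn0 : n = 0 := by
            have h5 := h3 y
            have h6 := h4 y
            have h7 : (n : ℝ) * (2 * Real.pi) < 1 * (2 * Real.pi) := by linarith [ht.1]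
            have h8 : (-1 : ℝ) * (2 * Real.pi) < (n : ℝ) * (2 * Real.pi) := by linarith [ht.2]
            have h9 : (n : ℝ) < 1 := lt_of_mul_lt_mul_right h7 hpi.le
            have h10 : (-1 : ℝ) < n := lt_of_mul_lt_mul_right h8 hpi.le
            have h11 : n < 1 := by exact_mod_cast h9
            have h12 : -1 < n := by exact_mod_cast h10
            omega
          rw [hn0] at hn
          simp only [Int.cast_zero, zero_mul, add_zero] at hn
          rw [hn]
          exact ht.2
      rw [hset]
      exact measurableSet_Icc.inter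
        (hp ((isCompact_Icc.image (gam_continuous hC)).isClosed.measurableSet))
    · have hset : {y | y ∈ Icc a b ∧ τ y ≤ c} = Icc a b := by
        ext y
        exact ⟨fun h => h.1, fun h => ⟨h, (h4 y).le.trans hc⟩⟩
      rw [hset]
      exact measurableSet_Icc
  exact ⟨p, τ, ⟨fun y hy => (h1 y hy).1, fun y hy => (h1 y hy).2.1, fun y hy => (h1 y hy).2.2.1,
    fun y hy => (h1 y hy).2.2.2, hp, hτ, h3, h4⟩⟩

end RSM2
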