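import Pool.Agent.RSM2.BW1

/-!
# RSM2 module BW3: the weight of a pair of heights is a locally constant integer off the rays

Proofs.  `qq_int`: by `lam_exp` (`p y = γ (τ y)`, `p y' = γ (τ y')`) the number
`lam w (τ y') - lam w (τ y) - (arg (w - p y') - arg (w - p y))` is in `2π ℤ`
(`Complex.exp_eq_exp_iff_exists_int`).
`gg_cont`: `lam_cont`, and `arg` is continuous on the slit plane; `w - p y` is in the slit plane iff
`w ∉ ray p y` (`w ≠ p y` for `w ∉ H`).
`qq_const`: a continuous function with values in `ℤ` on a preconnected set is constant (e.g. the image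
is preconnected in `ℝ` and contained in the range of `ℤ → ℝ`; an interval with two different points
contains a non-integer; or `IsPreconnected.constant` for the integer valued function).
-/

open Complex Set Metric Filter Topology MeasureTheory

namespace RSM2

variable {H : Set ℂ} {Ψ : ℂ → ℂ} {s₀ s s₁ a b : ℝ} {p : ℝ → ℂ} {τ : ℝ → ℝ}

theorem qq_int (hC : Collar H Ψ s₀ s s₁) (hp : LeftPt H Ψ s a b p τ) {y y' : ℝ} (hy : y ∈ Icc a b)
    (hy' : y' ∈ Icc a b) {w : ℂ} (hw : w ∉ H) : ∃ n : ℤ, qq Ψ s p τ y y' w = n := by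
  have h := lam_exp hC hw (τ y) (τ y')
  rw [← hp.eq y hy, ← hp.eq y' hy', Complex.exp_eq_exp_iff_exists_int] at h
  obtain ⟨n, hn⟩ := h
  refine ⟨n, ?_⟩
  have h1 : (((lam Ψ s w (τ y') - lam Ψ s w (τ y) : ℝ) : ℂ)) =
      ((arg (w - p y') - arg (w - p y) + n * (2 * Real.pi) : ℝ) : ℂ) := by
    apply mul_right_cancel₀ I_ne_zero
    rw [hn]
    push_cast
    ring
  have h2 := Complex.ofReal_injective h1
  have hpi : (2 * Real.pi) ≠ 0 := by positivity
  unfold qq gg
  rw [div_eq_iff hpi]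
  linarith

theorem gg_cont (hC : Collar H Ψ s₀ s s₁) (hp : LeftPt H Ψ s a b p τ) {y : ℝ} (hy : y ∈ Icc a b) :
    ContinuousOn (gg Ψ s p τ y) (Hᶜ \ ray p y) := by
  have h1 : ContinuousOn (fun w : ℂ => lam Ψ s w (τ y)) (Hᶜ \ ray p y) := by
    have h2 : ContinuousOn (fun w : ℂ => (w, τ y)) (Hᶜ \ ray p y) := by fun_prop
    have h3 : MapsTo (fun w : ℂ => (w, τ y)) (Hᶜ \ ray p y) (Hᶜ ×ˢ (univ : Set ℝ)) := by
      intro w hw
      exact Set.mk_mem_prod hw.1 (mem_univ _)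
    exact ContinuousOn.comp (g := fun x : ℂ × ℝ => lam Ψ s x.1 x.2) (f := fun w : ℂ => (w, τ y))
      (lam_cont hC) h2 h3
  have h2 : ContinuousOn (fun w : ℂ => arg (w - p y)) (Hᶜ \ ray p y) := by
    intro w hw
    have hs : w - p y ∈ slitPlane := by
      rw [Complex.mem_slitPlane_iff, Complex.sub_re, Complex.sub_im, hp.im y hy]
      by_contra hcon
      push Not at hcon
      apply hw.2
      refine ⟨by linarith [hcon.2], by linarith [hcon.1]⟩
    have h3 : ContinuousAt (fun w : ℂ => w - p y) w := by fun_prop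
    exact (ContinuousAt.comp (f := fun w : ℂ => w - p y) (continuousAt_arg hs) h3).continuousWithinAt
  exact h1.sub h2

theorem qq_const (hC : Collar H Ψ s₀ s s₁) (hp : LeftPt H Ψ s a b p τ) {y y' : ℝ}
    (hy : y ∈ Icc a b) (hy' : y' ∈ Icc a b) {S : Set ℂ} (hS : IsPreconnected S)
    (h1 : ∀ w ∈ S, w ∉ H) (h2 : ∀ w ∈ S, w ∉ ray p y) (h3 : ∀ w ∈ S, w ∉ ray p y') {w w' : ℂ}
    (hw : w ∈ S) (hw' : w' ∈ S) : qq Ψ s p τ y y' w = qq Ψ s p τ y y' w' := by
  have hc : ContinuousOn (qq Ψ s p τ y y') S := by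
    have h4 := (gg_cont hC hp hy').mono (fun w hw => ⟨h1 w hw, h3 w hw⟩ : S ⊆ Hᶜ \ ray p y')
    have h5 := (gg_cont hC hp hy).mono (fun w hw => ⟨h1 w hw, h2 w hw⟩ : S ⊆ Hᶜ \ ray p y)
    exact (h4.sub h5).div_const _
  have key : ∀ u ∈ S, ∀ v ∈ S, ¬ qq Ψ s p τ y y' u < qq Ψ s p τ y y' v := by
    intro u hu v hv huv
    obtain ⟨m, hm⟩ := qq_int hC hp hy hy' (h1 u hu)
    obtain ⟨n, hn⟩ := qq_int hC hp hy hy' (h1 v hv)
    have hsub := hS.intermediate_value hu hv hc
    have hmn : m < n := by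
      have : (m : ℝ) < n := by rw [← hm, ← hn]; exact huv
      exact_mod_cast this
    have hmn' : (m : ℝ) + 1 ≤ n := by exact_mod_cast hmn
    have hmem : (m : ℝ) + 1 / 2 ∈ Icc (qq Ψ s p τ y y' u) (qq Ψ s p τ y y' v) := by
      rw [hm, hn]
      constructor <;> linarith
    obtain ⟨x, hx, hx'⟩ := hsub hmem
    obtain ⟨k, hk⟩ := qq_int hC hp hy hy' (h1 x hx)
    rw [hk] at hx'
    have h6 : (2 * k : ℝ) = 2 * m + 1 := by linarith
    have h7 : 2 * k = 2 * m + 1 := by exact_mod_cast h6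
    omega
  rcases lt_trichotomy (qq Ψ s p τ y y' w) (qq Ψ s p τ y y' w') with h | h | h
  · exact absurd h (key w hw w' hw')
  · exact h
  · exact absurd h (key w' hw' w hw)

end RSM2
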