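import Pool.Agent.RSM2.BW3

/-!
# RSM2 module BW4: values of the weight of a pair of heights on horizontal and vertical rays

Proofs.  Each of the three statements: the ray `{w + r u | r ≥ 0}` (`u = -1, 1, ± i`) is connected,
avoids `H` and the two rays, so `qq` is constant on it (`qq_const`); as `r → ∞` the two `lam` terms tend
to `0` (`lam_bound`) and the arguments `arg (w + r u - p y)` tend to the argument of `u` (for `u = -1` to
`π` if `Im w > y` and to `-π` if `Im w < y`).  An integer-valued constant with limit `c` is `c`.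
-/

open Complex Set Metric Filter Topology MeasureTheory

namespace RSM2

variable {H : Set ℂ} {Ψ : ℂ → ℂ} {s₀ s s₁ a b : ℝ} {p : ℝ → ℂ} {τ : ℝ → ℝ}

private theorem lam_tendsto (hC : Collar H Ψ s₀ s s₁) (w u : ℂ) (hu : u ≠ 0) {t : ℝ}
    (ht : t ∈ Icc 0 (2 * Real.pi)) :
    Tendsto (fun r : ℝ => lam Ψ s (w + r * u) t) atTop (𝓝 0) := by
  obtain ⟨R, hR⟩ := hC.compact.isBounded.subset_closedBall 0
  obtain ⟨M, hM⟩ := lam_bound hC hR
  have h1 : Tendsto (fun r : ℝ => ‖w + r * u‖) atTop atTop := by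
    have h2 : Tendsto (fun r : ℝ => r * ‖u‖ - ‖w‖) atTop atTop :=
      tendsto_atTop_add_const_right _ _
        (Tendsto.atTop_mul_const (norm_pos_iff.2 hu) tendsto_id)
    refine tendsto_atTop_mono' _ ?_ h2
    filter_upwards [eventually_ge_atTop (0 : ℝ)] with r hr
    have h3 : ‖(r : ℂ) * u‖ = r * ‖u‖ := by
      rw [norm_mul, Complex.norm_real, Real.norm_eq_abs, abs_of_nonneg hr]
    have h4 : ‖(r : ℂ) * u‖ ≤ ‖w + r * u‖ + ‖w‖ := by
      have h5 : (r : ℂ) * u = (w + r * u) - w := by ring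
      calc ‖(r : ℂ) * u‖ = ‖(w + r * u) - w‖ := by rw [← h5]
        _ ≤ ‖w + r * u‖ + ‖w‖ := norm_sub_le _ _
    linarith
  have h2 : Tendsto (fun r : ℝ => M / (‖w + r * u‖ - R)) atTop (𝓝 0) :=
    Tendsto.const_div_atTop (tendsto_atTop_add_const_right _ _ h1) _
  refine squeeze_zero_norm' ?_ h2
  filter_upwards [h1.eventually_gt_atTop R] with r hr
  rw [Real.norm_eq_abs]
  exact hM _ _ hr ht

private theorem qq_lim (hC : Collar H Ψ s₀ s s₁) (hp : LeftPt H Ψ s a b p τ) {y y' : ℝ}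
    (hy : y ∈ Icc a b) (hy' : y' ∈ Icc a b) {w u : ℂ} (hu : u ≠ 0)
    (h1 : ∀ r : ℝ, 0 ≤ r → w + r * u ∉ H) (h2 : ∀ r : ℝ, 0 ≤ r → w + r * u ∉ ray p y)
    (h3 : ∀ r : ℝ, 0 ≤ r → w + r * u ∉ ray p y') {c c' : ℝ}
    (hc : Tendsto (fun r : ℝ => arg (w + r * u - p y)) atTop (𝓝 c))
    (hc' : Tendsto (fun r : ℝ => arg (w + r * u - p y')) atTop (𝓝 c')) :
    qq Ψ s p τ y y' w = (c - c') / (2 * Real.pi) := by
  have hS : IsPreconnected ((fun r : ℝ => w + r * u) '' Ici 0) :=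
    isPreconnected_Ici.image _ (by fun_prop)
  have hcon : ∀ r : ℝ, 0 ≤ r → qq Ψ s p τ y y' (w + r * u) = qq Ψ s p τ y y' w := by
    intro r hr
    refine qq_const hC hp hy hy' hS ?_ ?_ ?_ ⟨r, hr, rfl⟩ ⟨0, mem_Ici.2 le_rfl, by simp⟩
    · rintro z ⟨r', hr', rfl⟩
      exact h1 r' hr'
    · rintro z ⟨r', hr', rfl⟩
      exact h2 r' hr'
    · rintro z ⟨r', hr', rfl⟩
      exact h3 r' hr'
  have hτ : ∀ z, τ z ∈ Icc 0 (2 * Real.pi) := fun z => ⟨hp.τ0 z, (hp.τ1 z).le⟩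
  have hlim : Tendsto (fun r : ℝ => qq Ψ s p τ y y' (w + r * u)) atTop
      (𝓝 (((0 - c') - (0 - c)) / (2 * Real.pi))) :=
    (((lam_tendsto hC w u hu (hτ y')).sub hc').sub
      ((lam_tendsto hC w u hu (hτ y)).sub hc)).div_const _
  have hlim2 : Tendsto (fun r : ℝ => qq Ψ s p τ y y' (w + r * u)) atTop
      (𝓝 (qq Ψ s p τ y y' w)) := by
    refine Tendsto.congr' ?_ tendsto_const_nhds
    filter_upwards [eventually_ge_atTop (0 : ℝ)] with r hr
    exact (hcon r hr).symm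
  rw [tendsto_nhds_unique hlim2 hlim]
  congr 1
  ring

private theorem arg_scale (w u q : ℂ) :
    (fun r : ℝ => arg (w + r * u - q)) =ᶠ[atTop] fun r : ℝ => arg (u + (w - q) * ((r⁻¹ : ℝ) : ℂ)) := by
  filter_upwards [eventually_gt_atTop (0 : ℝ)] with r hr
  have h : w + r * u - q = ((r : ℝ) : ℂ) * (u + (w - q) * ((r⁻¹ : ℝ) : ℂ)) := by
    have hr0 : (r : ℂ) ≠ 0 := by exact_mod_cast hr.ne'
    push_cast
    field_simp
    ring
  rw [h, arg_real_mul _ hr]

private theorem scale_tendsto (w u q : ℂ) :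
    Tendsto (fun r : ℝ => u + (w - q) * ((r⁻¹ : ℝ) : ℂ)) atTop (𝓝 u) := by
  have h1 : Tendsto (fun r : ℝ => ((r⁻¹ : ℝ) : ℂ)) atTop (𝓝 ((0 : ℝ) : ℂ)) :=
    (Complex.continuous_ofReal.tendsto 0).comp tendsto_inv_atTop_zero
  have h2 : Tendsto (fun r : ℝ => u + (w - q) * ((r⁻¹ : ℝ) : ℂ)) atTop
      (𝓝 (u + (w - q) * ((0 : ℝ) : ℂ))) := tendsto_const_nhds.add (tendsto_const_nhds.mul h1)
  simpa using h2

private theorem arg_tendsto (w : ℂ) {u : ℂ} (q : ℂ) (hu : u ∈ slitPlane) :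
    Tendsto (fun r : ℝ => arg (w + r * u - q)) atTop (𝓝 (arg u)) := by
  refine Tendsto.congr' (arg_scale w u q).symm ?_
  exact (continuousAt_arg hu).tendsto.comp (scale_tendsto w u q)

private theorem arg_tendsto_pos (w q : ℂ) (h : q.im < w.im) :
    Tendsto (fun r : ℝ => arg (w + r * (-1 : ℂ) - q)) atTop (𝓝 Real.pi) := by
  refine Tendsto.congr' (arg_scale w (-1) q).symm ?_
  have h1 := tendsto_arg_nhdsWithin_im_nonneg_of_re_neg_of_im_zero (z := (-1 : ℂ)) (by simp)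
    (by simp)
  refine h1.comp (tendsto_nhdsWithin_iff.2 ⟨scale_tendsto w (-1) q, ?_⟩)
  filter_upwards [eventually_gt_atTop (0 : ℝ)] with r hr
  have h2 : (-1 + (w - q) * ((r⁻¹ : ℝ) : ℂ)).im = (w.im - q.im) * r⁻¹ := by
    rw [add_im, im_mul_ofReal]
    simp
  show 0 ≤ (-1 + (w - q) * ((r⁻¹ : ℝ) : ℂ)).im
  rw [h2]
  have : 0 < r⁻¹ := inv_pos.2 hr
  have : 0 < w.im - q.im := by linarith
  positivity

private theorem arg_tendsto_neg (w q : ℂ) (h : w.im < q.im) :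
    Tendsto (fun r : ℝ => arg (w + r * (-1 : ℂ) - q)) atTop (𝓝 (-Real.pi)) := by
  refine Tendsto.congr' (arg_scale w (-1) q).symm ?_
  have h1 := tendsto_arg_nhdsWithin_im_neg_of_re_neg_of_im_zero (z := (-1 : ℂ)) (by simp)
    (by simp)
  refine h1.comp (tendsto_nhdsWithin_iff.2 ⟨scale_tendsto w (-1) q, ?_⟩)
  filter_upwards [eventually_gt_atTop (0 : ℝ)] with r hr
  have h2 : (-1 + (w - q) * ((r⁻¹ : ℝ) : ℂ)).im = (w.im - q.im) * r⁻¹ := by
    rw [add_im, im_mul_ofReal]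
    simp
  show (-1 + (w - q) * ((r⁻¹ : ℝ) : ℂ)).im < 0
  rw [h2]
  have h3 : 0 < r⁻¹ := inv_pos.2 hr
  have h4 : w.im - q.im < 0 := by linarith
  exact mul_neg_of_neg_of_pos h4 h3

/-- The value at a point to the left of `H` (the whole ray from `w` to the left avoids `H`). -/
theorem qq_left (hC : Collar H Ψ s₀ s s₁) (hp : LeftPt H Ψ s a b p τ) {y y' : ℝ}
    (hy : y ∈ Icc a b) (hy' : y' ∈ Icc a b) (hyy : y < y') {w : ℂ}
    (hw : ∀ r : ℝ, 0 ≤ r → w - r ∉ H) (h1 : w.im ≠ y) (h2 : w.im ≠ y') :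
    qq Ψ s p τ y y' w = if y < w.im ∧ w.im < y' then 1 else 0 := by
  have e1 : ∀ r : ℝ, w + r * (-1 : ℂ) = w - r := fun r => by ring
  have e2 : ∀ r : ℝ, (w + r * (-1 : ℂ)).im = w.im := fun r => by
    rw [e1]
    simp
  have n1 : ∀ r : ℝ, 0 ≤ r → w + r * (-1 : ℂ) ∉ H := fun r hr => by
    rw [e1]
    exact hw r hr
  have n2 : ∀ r : ℝ, 0 ≤ r → w + r * (-1 : ℂ) ∉ ray p y := fun r _ h => h1 ((e2 r).symm.trans h.1)
  have n3 : ∀ r : ℝ, 0 ≤ r → w + r * (-1 : ℂ) ∉ ray p y' := fun r _ h => h2 ((e2 r).symm.trans h.1)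
  have i1 := hp.im y hy
  have i2 := hp.im y' hy'
  have hpi : (2 * Real.pi) ≠ 0 := by positivity
  have hu : (-1 : ℂ) ≠ 0 := by simp
  rcases lt_or_gt_of_ne h1 with k1 | k1
  · rw [if_neg (fun h => absurd h.1 (not_lt.2 k1.le)),
      qq_lim hC hp hy hy' hu n1 n2 n3 (arg_tendsto_neg w (p y) (by rw [i1]; exact k1))
      (arg_tendsto_neg w (p y') (by rw [i2]; linarith)), sub_self, zero_div]
  · rcases lt_or_gt_of_ne h2 with k2 | k2
    · rw [if_pos ⟨k1, k2⟩, qq_lim hC hp hy hy' hu n1 n2 n3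
        (arg_tendsto_pos w (p y) (by rw [i1]; exact k1))
        (arg_tendsto_neg w (p y') (by rw [i2]; exact k2)), div_eq_one_iff_eq hpi]
      ring
    · rw [if_neg (fun h => absurd h.2 (not_lt.2 k2.le)),
        qq_lim hC hp hy hy' hu n1 n2 n3 (arg_tendsto_pos w (p y) (by rw [i1]; exact k1))
        (arg_tendsto_pos w (p y') (by rw [i2]; exact k2)), sub_self, zero_div]

/-- The value at a far away point on the right. -/
theorem qq_right (hC : Collar H Ψ s₀ s s₁) (hp : LeftPt H Ψ s a b p τ) {R : ℝ}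
    (hR : H ⊆ closedBall 0 R) {y y' : ℝ} (hy : y ∈ Icc a b) (hy' : y' ∈ Icc a b) {w : ℂ}
    (hw : R < ‖w‖) (h0 : 0 ≤ w.re) : qq Ψ s p τ y y' w = 0 := by
  have hb : ∀ r : ℝ, 0 ≤ r → R < ‖w + r * (1 : ℂ)‖ := by
    intro r hr
    refine lt_of_lt_of_le hw ?_
    refine Real.sqrt_le_sqrt ?_
    rw [normSq_apply, normSq_apply]
    have e1 : (w + r * (1 : ℂ)).re = w.re + r := by simp
    have e2 : (w + r * (1 : ℂ)).im = w.im := by simp
    rw [e1, e2]
    nlinarith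
  have n1 : ∀ r : ℝ, 0 ≤ r → w + r * (1 : ℂ) ∉ H := by
    intro r hr h
    have := hR h
    rw [mem_closedBall_zero_iff] at this
    linarith [hb r hr]
  have n2 : ∀ z ∈ Icc a b, ∀ r : ℝ, 0 ≤ r → w + r * (1 : ℂ) ∉ ray p z := by
    intro z hz r hr h
    have h1 := hR (hp.mem z hz)
    rw [mem_closedBall_zero_iff] at h1
    have h2 : ‖w + r * (1 : ℂ)‖ ≤ ‖p z‖ := by
      refine Real.sqrt_le_sqrt ?_
      rw [normSq_apply, normSq_apply]
      have e1 : (w + r * (1 : ℂ)).re = w.re + r := by simp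
      have e3 := h.1
      have e4 := h.2
      rw [e3, hp.im z hz]
      rw [e1] at e4 ⊢
      nlinarith
    linarith [hb r hr]
  rw [qq_lim hC hp hy hy' one_ne_zero n1 (n2 y hy) (n2 y' hy')
    (arg_tendsto w (p y) one_mem_slitPlane) (arg_tendsto w (p y') one_mem_slitPlane),
    sub_self, zero_div]

/-- The value at a point above or below the disc. -/
theorem qq_vert (hC : Collar H Ψ s₀ s s₁) (hp : LeftPt H Ψ s a b p τ) {R : ℝ}
    (hR : H ⊆ closedBall 0 R) {y y' : ℝ} (hy : y ∈ Icc a b) (hy' : y' ∈ Icc a b) {w : ℂ}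
    (hw : R < |w.im|) : qq Ψ s p τ y y' w = 0 := by
  have key : ∀ e : ℝ, (e = 1 ∨ e = -1) → R < e * w.im → qq Ψ s p τ y y' w = 0 := by
    intro e he hlt
    have hee : e * e = 1 := by rcases he with rfl | rfl <;> norm_num
    have hea : |e| = 1 := by rcases he with rfl | rfl <;> norm_num
    have e1 : ∀ r : ℝ, (w + r * ((e : ℂ) * I)).im = w.im + r * e := fun r => by simp
    have hb : ∀ r : ℝ, 0 ≤ r → R < e * (w + r * ((e : ℂ) * I)).im := by
      intro r hr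
      rw [e1]
      have : e * (w.im + r * e) = e * w.im + r * (e * e) := by ring
      rw [this, hee]
      linarith
    have hle : ∀ z : ℂ, ‖z‖ ≤ R → ¬ R < e * z.im := by
      intro z hz h
      have h1 : e * z.im ≤ |e * z.im| := le_abs_self _
      rw [abs_mul, hea, one_mul] at h1
      have h2 := abs_im_le_norm z
      linarith
    have n1 : ∀ r : ℝ, 0 ≤ r → w + r * ((e : ℂ) * I) ∉ H := by
      intro r hr h
      have := hR h
      rw [mem_closedBall_zero_iff] at this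
      exact hle _ this (hb r hr)
    have n2 : ∀ z ∈ Icc a b, ∀ r : ℝ, 0 ≤ r → w + r * ((e : ℂ) * I) ∉ ray p z := by
      intro z hz r hr h
      have h1 := hR (hp.mem z hz)
      rw [mem_closedBall_zero_iff] at h1
      refine hle _ h1 ?_
      rw [hp.im z hz, ← h.1]
      exact hb r hr
    have hsl : (e : ℂ) * I ∈ slitPlane := by
      rw [mem_slitPlane_iff]
      right
      rcases he with rfl | rfl <;> simp
    have hu : (e : ℂ) * I ≠ 0 := slitPlane_ne_zero hsl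
    rw [qq_lim hC hp hy hy' hu n1 (n2 y hy) (n2 y' hy')
      (arg_tendsto w (p y) hsl) (arg_tendsto w (p y') hsl), sub_self, zero_div]
  rcases le_total 0 w.im with h | h
  · refine key 1 (Or.inl rfl) ?_
    rw [abs_of_nonneg h] at hw
    linarith
  · refine key (-1) (Or.inr rfl) ?_
    rw [abs_of_nonpos h] at hw
    linarith

end RSM2
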