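import Pool.Agent.RSM2.BW4

/-!
# RSM2 module BW5: the weight of a pair of heights takes only the values 0 and 1

Proof.  Let `Z` be the set of the `w ∈ Hᶜ` which are on one of the two rays or satisfy `qq w ∈ {0, 1}`.
`Z` and `Hᶜ \ Z` are open: off the (closed) rays `qq` is locally constant (`qq_const` on a small ball);
near a point `w₀ ∈ Hᶜ` of the ray of `y` (so `Im w₀ = y`, `Re w₀ < Re (p y)`: by `LeftPt.left` no point
`w₀ - r`, `r ≥ 0`, is in `H`; the closed ray from `w₀` to the left has positive distance from `H`) all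
points `w` of a small ball satisfy `w - r ∉ H` for all `r ≥ 0`, and `Im w ≠ y'`; so by `qq_left` they
are in `Z` (if `Im w = y` and `w ∉ ray`, hmm: such a `w` has `Re w > Re (p y)`, excluded by taking the
ball small).  `Hᶜ` is connected and `Z` contains points far away (`qq_right`), so `Z = Hᶜ`.
-/

set_option linter.all false

open Complex Set Metric Filter Topology MeasureTheory

namespace RSM2

variable {H : Set ℂ} {Ψ : ℂ → ℂ} {s₀ s s₁ a b : ℝ} {p : ℝ → ℂ} {τ : ℝ → ℝ}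

private theorem isClosed_ray (p : ℝ → ℂ) (y : ℝ) : IsClosed (ray p y) :=
  (isClosed_eq Complex.continuous_im continuous_const).inter
    (isClosed_le Complex.continuous_re continuous_const)

private theorem mem_ray_of_left (hp : LeftPt H Ψ s a b p τ) {y : ℝ} (hy : y ∈ Icc a b) {w : ℂ}
    (hw : ∀ r : ℝ, 0 ≤ r → w - r ∉ H) (h : w.im = y) : w ∈ ray p y := by
  refine ⟨h, ?_⟩
  by_contra hlt
  push Not at hlt
  refine hw (w.re - (p y).re) (by linarith) ?_
  have h1 : w - ((w.re - (p y).re : ℝ) : ℂ) = p y := by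
    apply Complex.ext
    · simp
    · simp [h, hp.im y hy]
  rw [h1]
  exact hp.mem y hy

private theorem left_of_mem_ray (hp : LeftPt H Ψ s a b p τ) {y : ℝ} (hy : y ∈ Icc a b) {w : ℂ}
    (hw : w ∉ H) (h : w ∈ ray p y) : ∀ r : ℝ, 0 ≤ r → w - r ∉ H := by
  intro r hr hH
  have h1 := hp.left y hy _ hH (by simpa using h.1)
  have h2 : (w - (r : ℂ)).re = w.re - r := by simp
  rw [h2] at h1
  have h3 : w.re = (p y).re := by linarith [h.2]
  have h4 : w = p y := Complex.ext h3 (by rw [h.1, hp.im y hy])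
  rw [h4] at hw
  exact hw (hp.mem y hy)

/-- The set `Z` of the proof. -/
private def ZZ (H : Set ℂ) (Ψ : ℂ → ℂ) (s : ℝ) (p : ℝ → ℂ) (τ : ℝ → ℝ) (y y' : ℝ) : Set ℂ :=
  {w | w ∉ H ∧ (w ∈ ray p y ∨ w ∈ ray p y' ∨ qq Ψ s p τ y y' w = 0 ∨ qq Ψ s p τ y y' w = 1)}

private theorem mem_ZZ_of_left (hC : Collar H Ψ s₀ s s₁) (hp : LeftPt H Ψ s a b p τ) {y y' : ℝ}
    (hy : y ∈ Icc a b) (hy' : y' ∈ Icc a b) (hyy : y < y') {w : ℂ}
    (hw : ∀ r : ℝ, 0 ≤ r → w - r ∉ H) : w ∈ ZZ H Ψ s p τ y y' := by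
  refine ⟨by simpa using hw 0 le_rfl, ?_⟩
  by_cases h1 : w.im = y
  · exact Or.inl (mem_ray_of_left hp hy hw h1)
  by_cases h2 : w.im = y'
  · exact Or.inr (Or.inl (mem_ray_of_left hp hy' hw h2))
  have h3 := qq_left hC hp hy hy' hyy hw h1 h2
  rw [h3]
  by_cases h4 : y < w.im ∧ w.im < y'
  · rw [if_pos h4]
    exact Or.inr (Or.inr (Or.inr rfl))
  · rw [if_neg h4]
    exact Or.inr (Or.inr (Or.inl rfl))

private theorem near_off (hC : Collar H Ψ s₀ s s₁) (hp : LeftPt H Ψ s a b p τ) {y y' : ℝ}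
    (hy : y ∈ Icc a b) (hy' : y' ∈ Icc a b) {w : ℂ} (hw : w ∉ H)
    (h1 : w ∉ ray p y) (h2 : w ∉ ray p y') :
    ∀ᶠ v in 𝓝 w, v ∉ H ∧ v ∉ ray p y ∧ v ∉ ray p y' ∧
      qq Ψ s p τ y y' v = qq Ψ s p τ y y' w := by
  have hcl : IsClosed (H ∪ ray p y ∪ ray p y') :=
    (hC.compact.isClosed.union (isClosed_ray p y)).union (isClosed_ray p y')
  have hw' : w ∈ (H ∪ ray p y ∪ ray p y')ᶜ := by
    rintro ((h | h) | h)
    · exact hw h
    · exact h1 h
    · exact h2 h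
  obtain ⟨r, hr, hball⟩ := Metric.isOpen_iff.1 hcl.isOpen_compl w hw'
  have hb1 : ∀ v ∈ ball w r, v ∉ H := fun v hv h => hball hv (Or.inl (Or.inl h))
  have hb2 : ∀ v ∈ ball w r, v ∉ ray p y := fun v hv h => hball hv (Or.inl (Or.inr h))
  have hb3 : ∀ v ∈ ball w r, v ∉ ray p y' := fun v hv h => hball hv (Or.inr h)
  filter_upwards [ball_mem_nhds w hr] with v hv
  exact ⟨hb1 v hv, hb2 v hv, hb3 v hv,
    qq_const hC hp hy hy' (convex_ball w r).isPreconnected hb1 hb2 hb3 hv (mem_ball_self hr)⟩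

private theorem near_left (hC : Collar H Ψ s₀ s s₁) {w : ℂ}
    (hw : ∀ r : ℝ, 0 ≤ r → w - r ∉ H) : ∀ᶠ v : ℂ in 𝓝 w, ∀ r : ℝ, 0 ≤ r → v - (r : ℂ) ∉ H := by
  have hcl : IsClosed {v : ℂ | v.im = w.im ∧ v.re ≤ w.re} :=
    (isClosed_eq Complex.continuous_im continuous_const).inter
      (isClosed_le Complex.continuous_re continuous_const)
  have hdis : Disjoint H {v : ℂ | v.im = w.im ∧ v.re ≤ w.re} := by
    rw [Set.disjoint_left]
    rintro v hv ⟨h1, h2⟩
    refine hw (w.re - v.re) (by linarith) ?_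
    have h3 : w - ((w.re - v.re : ℝ) : ℂ) = v := by
      apply Complex.ext
      · simp
      · simp [h1]
    rw [h3]
    exact hv
  obtain ⟨δ, hδ, hd⟩ := hdis.exists_thickenings hC.compact hcl
  filter_upwards [ball_mem_nhds w hδ] with v hv r hr hvH
  have h1 : v - (r : ℂ) ∈ thickening δ H := self_subset_thickening hδ H hvH
  have h2 : v - (r : ℂ) ∈ thickening δ {v : ℂ | v.im = w.im ∧ v.re ≤ w.re} := by
    rw [mem_thickening_iff]
    refine ⟨w - r, ⟨by simp, by simpa using hr⟩, ?_⟩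
    rw [dist_sub_right]
    exact hv
  exact Set.disjoint_left.1 hd h1 h2

theorem qq_zero_or_one (hC : Collar H Ψ s₀ s s₁) (hp : LeftPt H Ψ s a b p τ) {y y' : ℝ}
    (hy : y ∈ Icc a b) (hy' : y' ∈ Icc a b) (hyy : y < y') {w : ℂ} (hw : w ∉ H)
    (h1 : w ∉ ray p y) (h2 : w ∉ ray p y') : qq Ψ s p τ y y' w = 0 ∨ qq Ψ s p τ y y' w = 1 := by
  have hZo : IsOpen (ZZ H Ψ s p τ y y') := by
    rw [isOpen_iff_mem_nhds]
    rintro v ⟨hv, hcase⟩
    by_cases c1 : v ∈ ray p y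
    · filter_upwards [near_left hC (left_of_mem_ray hp hy hv c1)] with u hu
      exact mem_ZZ_of_left hC hp hy hy' hyy hu
    by_cases c2 : v ∈ ray p y'
    · filter_upwards [near_left hC (left_of_mem_ray hp hy' hv c2)] with u hu
      exact mem_ZZ_of_left hC hp hy hy' hyy hu
    filter_upwards [near_off hC hp hy hy' hv c1 c2] with u hu
    refine ⟨hu.1, Or.inr (Or.inr ?_)⟩
    rw [hu.2.2.2]
    rcases hcase with h | h | h
    · exact absurd h c1
    · exact absurd h c2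
    · exact h
  have hZ' : IsOpen (Hᶜ \ ZZ H Ψ s p τ y y') := by
    rw [isOpen_iff_mem_nhds]
    rintro v ⟨hv, hvZ⟩
    have c1 : v ∉ ray p y := fun h => hvZ ⟨hv, Or.inl h⟩
    have c2 : v ∉ ray p y' := fun h => hvZ ⟨hv, Or.inr (Or.inl h)⟩
    filter_upwards [near_off hC hp hy hy' hv c1 c2] with u hu
    refine ⟨hu.1, ?_⟩
    rintro ⟨_, h | h | h⟩
    · exact hu.2.1 h
    · exact hu.2.2.1 h
    · rw [hu.2.2.2] at h
      exact hvZ ⟨hv, Or.inr (Or.inr h)⟩
  have hne : (Hᶜ ∩ ZZ H Ψ s p τ y y').Nonempty := by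
    obtain ⟨R, hR⟩ := hC.compact.isBounded.subset_closedBall (0 : ℂ)
    have hleft : ∀ r : ℝ, 0 ≤ r → (((-(|R| + 1) : ℝ) : ℂ)) - r ∉ H := by
      intro r hr h
      have h3 := hR h
      rw [mem_closedBall, dist_zero_right, ← Complex.ofReal_sub, Complex.norm_real,
        Real.norm_eq_abs, abs_of_nonpos (by linarith [abs_nonneg R])] at h3
      linarith [le_abs_self R]
    have h4 := mem_ZZ_of_left hC hp hy hy' hyy hleft
    exact ⟨_, h4.1, h4⟩
  have hsub : Hᶜ ⊆ ZZ H Ψ s p τ y y' := by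
    refine IsPreconnected.subset_left_of_subset_union hZo hZ' disjoint_sdiff_right ?_ hne
      hC.compl.isPreconnected
    intro v hv
    by_cases h : v ∈ ZZ H Ψ s p τ y y'
    · exact Or.inl h
    · exact Or.inr ⟨hv, h⟩
  obtain ⟨_, h | h | h⟩ := hsub hw
  · exact absurd h h1
  · exact absurd h h2
  · exact h

end RSM2
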