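import Pool.Agent.RSM2.BW5

/-!
# RSM2 module BW6: boundary values of the weight of a pair of heights

Proof.  Let `t₀` be different from `τ y`, `τ y'` modulo `2π`.  Then `γ t₀` is not on the closed rays of
`y` and `y'` (a point of `H` on the ray of `y` is `p y = γ (τ y)` by `LeftPt.left`, then use `gam_inj`).
The rays are closed, `Ψ` is continuous, so for small `δ > 0` the image under `Ψ` of the rectangle
`s < Re ξ < s + δ`, `|Im ξ - t₀| < δ` avoids `H` and the rays; it is connected, so `qq` is constant there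
(`qq_const`).  So the limit `c t₀` of `qq (Ψ (s' + t₀ i))` as `s' → s+` exists, and `c` is locally
constant on the complement of `{τ y, τ y'} + 2π ℤ`, with values in `{0, 1}` (`qq_zero_or_one`), and
`2π`-periodic.  By dominated convergence
(`intervalIntegral.tendsto_integral_filter_of_dominated_convergence`, the integrand is bounded by `|k|`
for a.e. `t`: for fixed `s'` the exceptional `t` (points on the rays) — to avoid the discussion of their
measure use the general bound: `qq` is bounded by `1 + 1 + ...`: for `w ∉ H` on a ray, `qq w` is an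
integer and, by `arg` taking the value `π` on the ray, it is the value just above the ray, so again
`0` or `1`; measurability for fixed `s'`: `gg` is a difference of a continuous function and of
`arg ∘ continuous`) the integral tends to `∫ t in 0..2π, c t * k t`, which by periodicity is
`∫ t in τ y..τ y + 2π, c t * k t = c₁ ∫ over the first arc + c₂ ∫ over the second arc`, `c₁, c₂ ∈ {0, 1}`,
so its absolute value is at most `2K`.
-/

open Complex Set Metric Filter Topology MeasureTheory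

namespace RSM2

variable {H : Set ℂ} {Ψ : ℂ → ℂ} {s₀ s s₁ a b : ℝ} {p : ℝ → ℂ} {τ : ℝ → ℝ}

/-! ### Auxiliary lemmas -/

private theorem arg_above {z : ℂ} (hz : z ≠ 0) :
    Tendsto (fun ε : ℝ => arg (z + ε * I)) (𝓝[>] 0) (𝓝 (arg z)) := by
  have hc : Tendsto (fun ε : ℝ => z + ε * I) (𝓝[>] 0) (𝓝 z) := by
    have h1 : Continuous (fun ε : ℝ => z + ε * I) := by fun_prop
    have h2 := h1.tendsto 0
    simp only [ofReal_zero, zero_mul, add_zero] at h2
    exact h2.mono_left nhdsWithin_le_nhds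
  by_cases hs : z ∈ slitPlane
  · exact (continuousAt_arg hs).tendsto.comp hc
  · rw [mem_slitPlane_iff_arg] at hs
    push Not at hs
    have h1 : arg z = Real.pi := by
      by_contra h
      exact hz (hs h)
    rw [arg_eq_pi_iff] at h1
    have h2 := continuousWithinAt_arg_of_re_neg_of_im_zero h1.1 h1.2
    refine h2.tendsto.comp (tendsto_nhdsWithin_iff.2 ⟨hc, ?_⟩)
    filter_upwards [self_mem_nhdsWithin] with ε hε
    have hε' : (0 : ℝ) < ε := hε
    show 0 ≤ (z + ε * I).im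
    rw [add_im, mul_im, ofReal_re, ofReal_im, I_re, I_im, h1.2]
    linarith

private theorem lam_continuousAt (hC : Collar H Ψ s₀ s s₁) {w : ℂ} (hw : w ∉ H) (τ₀ : ℝ) :
    ContinuousAt (fun w => lam Ψ s w τ₀) w := by
  have ho : IsOpen (Hᶜ ×ˢ (univ : Set ℝ)) := hC.compact.isClosed.isOpen_compl.prod isOpen_univ
  have h1 : ContinuousAt (fun x : ℂ × ℝ => lam Ψ s x.1 x.2) (w, τ₀) :=
    (lam_cont hC).continuousAt (ho.mem_nhds ⟨hw, trivial⟩)
  have h2 : ContinuousAt (fun w : ℂ => (w, τ₀)) w := by fun_prop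
  exact ContinuousAt.comp (f := fun w : ℂ => (w, τ₀)) (g := fun x : ℂ × ℝ => lam Ψ s x.1 x.2) h1 h2

private theorem gg_above (hC : Collar H Ψ s₀ s s₁) (hp : LeftPt H Ψ s a b p τ) {y : ℝ}
    (hy : y ∈ Icc a b) {w : ℂ} (hw : w ∉ H) :
    Tendsto (fun ε : ℝ => gg Ψ s p τ y (w + ε * I)) (𝓝[>] 0) (𝓝 (gg Ψ s p τ y w)) := by
  have hc : Tendsto (fun ε : ℝ => w + ε * I) (𝓝[>] 0) (𝓝 w) := by
    have h1 : Continuous (fun ε : ℝ => w + ε * I) := by fun_prop
    have h2 := h1.tendsto 0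
    simp only [ofReal_zero, zero_mul, add_zero] at h2
    exact h2.mono_left nhdsWithin_le_nhds
  have hne : w - p y ≠ 0 := by
    intro h
    rw [sub_eq_zero] at h
    rw [h] at hw
    exact hw (hp.mem y hy)
  have h3 := (lam_continuousAt hC hw (τ y)).tendsto.comp hc
  have h4 := arg_above hne
  have h5 : (fun ε : ℝ => arg (w + ε * I - p y)) = fun ε : ℝ => arg (w - p y + ε * I) := by
    funext ε
    congr 1
    ring
  rw [← h5] at h4
  exact h3.sub h4

/-- Also on the rays the values are `0` or `1` (`arg = π` on the negative axis is the limit from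
above). -/
theorem qq_zero_or_one' (hC : Collar H Ψ s₀ s s₁) (hp : LeftPt H Ψ s a b p τ) {y y' : ℝ}
    (hy : y ∈ Icc a b) (hy' : y' ∈ Icc a b) (hyy : y < y') {w : ℂ} (hw : w ∉ H) :
    qq Ψ s p τ y y' w = 0 ∨ qq Ψ s p τ y y' w = 1 := by
  have hlim : Tendsto (fun ε : ℝ => qq Ψ s p τ y y' (w + ε * I)) (𝓝[>] 0)
      (𝓝 (qq Ψ s p τ y y' w)) :=
    ((gg_above hC hp hy' hw).sub (gg_above hC hp hy hw)).div_const _
  have hc : Tendsto (fun ε : ℝ => w + ε * I) (𝓝[>] 0) (𝓝 w) := by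
    have h1 : Continuous (fun ε : ℝ => w + ε * I) := by fun_prop
    have h2 := h1.tendsto 0
    simp only [ofReal_zero, zero_mul, add_zero] at h2
    exact h2.mono_left nhdsWithin_le_nhds
  have hH : ∀ᶠ ε : ℝ in 𝓝[>] 0, w + ε * I ∉ H :=
    hc.eventually (hC.compact.isClosed.isOpen_compl.mem_nhds hw)
  have hray : ∀ x : ℝ, ∀ᶠ ε : ℝ in 𝓝[>] 0, w + ε * I ∉ ray p x := by
    intro x
    by_cases hx : w.im < x
    · have h1 : ∀ᶠ ε : ℝ in 𝓝[>] 0, ε ∈ Ioo 0 (x - w.im) :=
        Ioo_mem_nhdsGT (by linarith)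
      filter_upwards [h1] with ε hε hmem
      have h2 := hmem.1
      rw [add_im, mul_im, ofReal_re, ofReal_im, I_re, I_im] at h2
      have := hε.2
      linarith
    · filter_upwards [self_mem_nhdsWithin] with ε hε hmem
      have hε' : (0 : ℝ) < ε := hε
      have h2 := hmem.1
      rw [add_im, mul_im, ofReal_re, ofReal_im, I_re, I_im] at h2
      push Not at hx
      linarith
  have hcl : IsClosed ({0, 1} : Set ℝ) := (Set.toFinite _).isClosed
  have hmem : qq Ψ s p τ y y' w ∈ ({0, 1} : Set ℝ) := by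
    refine hcl.mem_of_tendsto hlim ?_
    filter_upwards [hH, hray y, hray y'] with ε h1 h2 h3
    exact qq_zero_or_one hC hp hy hy' hyy h1 h2 h3
  exact hmem

private theorem isClosed_ray (p : ℝ → ℂ) (y : ℝ) : IsClosed (ray p y) :=
  (isClosed_eq continuous_im continuous_const).inter (isClosed_le continuous_re continuous_const)

private theorem of_gam_mem_ray (hC : Collar H Ψ s₀ s s₁) (hp : LeftPt H Ψ s a b p τ) {y : ℝ}
    (hy : y ∈ Icc a b) {t : ℝ} (h : gam Ψ s t ∈ ray p y) : ∃ n : ℤ, t = τ y + n * (2 * Real.pi) := by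
  have h1 : (p y).re ≤ (gam Ψ s t).re := hp.left y hy _ (hC.sub t) h.1
  have h2 : p y = gam Ψ s t := by
    apply Complex.ext
    · exact le_antisymm h1 h.2
    · rw [hp.im y hy]
      exact h.1.symm
  rw [hp.eq y hy] at h2
  exact gam_inj hC h2

private theorem isOpen_strip : IsOpen {ξ : ℂ | s₀ < ξ.re ∧ ξ.re < s₁} :=
  (isOpen_lt continuous_const continuous_re).inter (isOpen_lt continuous_re continuous_const)

/-- Local constancy near a boundary point off the rays. -/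
private theorem loc (hC : Collar H Ψ s₀ s s₁) (hp : LeftPt H Ψ s a b p τ) {y y' : ℝ}
    (hy : y ∈ Icc a b) (hy' : y' ∈ Icc a b) (hyy : y < y') {t₀ : ℝ}
    (h1 : gam Ψ s t₀ ∉ ray p y) (h2 : gam Ψ s t₀ ∉ ray p y') :
    ∃ δ c : ℝ, 0 < δ ∧ (c = 0 ∨ c = 1) ∧ ∀ s' t : ℝ, s < s' → s' < s + δ → |t - t₀| < δ →
      qq Ψ s p τ y y' (Ψ (s' + t * I)) = c := by
  set ξ₀ : ℂ := s + t₀ * I with hξ₀
  have hre₀ : ξ₀.re = s := by simp [hξ₀]
  have him₀ : ξ₀.im = t₀ := by simp [hξ₀]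
  have hmem₀ : ξ₀ ∈ {ξ : ℂ | s₀ < ξ.re ∧ ξ.re < s₁} := by
    show s₀ < ξ₀.re ∧ ξ₀.re < s₁
    rw [hre₀]
    exact ⟨hC.lt0, hC.lt1⟩
  have hcont : ContinuousAt Ψ ξ₀ :=
    (hC.diff.differentiableAt (isOpen_strip.mem_nhds hmem₀)).continuousAt
  have hN : (ray p y)ᶜ ∩ (ray p y')ᶜ ∈ 𝓝 (Ψ ξ₀) :=
    ((isClosed_ray p y).isOpen_compl.inter (isClosed_ray p y').isOpen_compl).mem_nhds ⟨h1, h2⟩
  obtain ⟨ε, hε, hball⟩ := Metric.mem_nhds_iff.1 (hcont.preimage_mem_nhds hN)
  set δ : ℝ := min (ε / 2) (s₁ - s) with hδ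
  have hδ0 : 0 < δ := lt_min (by positivity) (by linarith [hC.lt1])
  have hδ1 : δ ≤ ε / 2 := min_le_left _ _
  have hδ2 : δ ≤ s₁ - s := min_le_right _ _
  let R : Set ℂ := {ξ | (s < ξ.re ∧ ξ.re < s + δ) ∧ (t₀ - δ < ξ.im ∧ ξ.im < t₀ + δ)}
  have hRconv : Convex ℝ R := by
    have e1 : Convex ℝ {ξ : ℂ | s < ξ.re ∧ ξ.re < s + δ} :=
      (convex_Ioo s (s + δ)).linear_preimage reLm
    have e2 : Convex ℝ {ξ : ℂ | t₀ - δ < ξ.im ∧ ξ.im < t₀ + δ} :=
      (convex_Ioo (t₀ - δ) (t₀ + δ)).linear_preimage imLm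
    exact e1.inter e2
  have hRstrip : R ⊆ {ξ : ℂ | s₀ < ξ.re ∧ ξ.re < s₁} := by
    rintro ξ ⟨⟨ha, hb⟩, _⟩
    have := hC.lt0
    exact ⟨by linarith, by linarith⟩
  have hRball : ∀ ξ ∈ R, Ψ ξ ∈ (ray p y)ᶜ ∩ (ray p y')ᶜ := by
    rintro ξ ⟨⟨ha, hb⟩, hc, hd⟩
    apply hball
    rw [Metric.mem_ball, dist_eq_norm]
    have e1 : |(ξ - ξ₀).re| < ε / 2 := by
      rw [sub_re, hre₀, abs_lt]
      constructor <;> linarith
    have e2 : |(ξ - ξ₀).im| < ε / 2 := by
      rw [sub_im, him₀, abs_lt]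
      constructor <;> linarith
    calc ‖ξ - ξ₀‖ ≤ |(ξ - ξ₀).re| + |(ξ - ξ₀).im| := norm_le_abs_re_add_abs_im _
      _ < ε := by linarith
  have hS : IsPreconnected (Ψ '' R) :=
    hRconv.isPreconnected.image Ψ (hC.diff.continuousOn.mono hRstrip)
  have hSH : ∀ w ∈ Ψ '' R, w ∉ H := by
    rintro w ⟨ξ, hξ, rfl⟩
    exact hC.out ξ hξ.1.1 (hRstrip hξ).2
  have hS1 : ∀ w ∈ Ψ '' R, w ∉ ray p y := by
    rintro w ⟨ξ, hξ, rfl⟩
    exact (hRball ξ hξ).1
  have hS2 : ∀ w ∈ Ψ '' R, w ∉ ray p y' := by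
    rintro w ⟨ξ, hξ, rfl⟩
    exact (hRball ξ hξ).2
  have hmemR : ∀ s' t : ℝ, s < s' → s' < s + δ → |t - t₀| < δ → (s' + t * I : ℂ) ∈ R := by
    intro s' t e1 e2 e3
    rw [abs_lt] at e3
    have er : (s' + t * I : ℂ).re = s' := by simp
    have ei : (s' + t * I : ℂ).im = t := by simp
    show (s < (s' + t * I : ℂ).re ∧ (s' + t * I : ℂ).re < s + δ) ∧
      (t₀ - δ < (s' + t * I : ℂ).im ∧ (s' + t * I : ℂ).im < t₀ + δ)
    rw [er, ei]
    exact ⟨⟨e1, e2⟩, by linarith, by linarith⟩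
  have hbase := hmemR (s + δ / 2) t₀ (by linarith) (by linarith) (by simpa using hδ0)
  refine ⟨δ, qq Ψ s p τ y y' (Ψ (((s + δ / 2 : ℝ) : ℂ) + t₀ * I)), hδ0, ?_, ?_⟩
  · exact qq_zero_or_one hC hp hy hy' hyy (hSH _ ⟨_, hbase, rfl⟩) (hS1 _ ⟨_, hbase, rfl⟩)
      (hS2 _ ⟨_, hbase, rfl⟩)
  · intro s' t e1 e2 e3
    exact qq_const hC hp hy hy' hS hSH hS1 hS2 ⟨_, hmemR s' t e1 e2 e3, rfl⟩ ⟨_, hbase, rfl⟩

/-- Measurability on the lines of the collar. -/
private theorem meas (hC : Collar H Ψ s₀ s s₁) {y y' : ℝ} {s' : ℝ} (h1 : s < s') (h2 : s' < s₁) :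
    Measurable (fun t : ℝ => qq Ψ s p τ y y' (Ψ (s' + t * I))) := by
  have hcont : Continuous (fun t : ℝ => Ψ (s' + t * I)) := by
    have e1 : ∀ t : ℝ, (s' + t * I : ℂ) ∈ {ξ : ℂ | s₀ < ξ.re ∧ ξ.re < s₁} := by
      intro t
      have er : (s' + t * I : ℂ).re = s' := by simp
      show s₀ < (s' + t * I : ℂ).re ∧ (s' + t * I : ℂ).re < s₁
      rw [er]
      have := hC.lt0
      exact ⟨by linarith, h2⟩
    exact hC.diff.continuousOn.comp_continuous (by fun_prop) e1
  have hnot : ∀ t : ℝ, Ψ (s' + t * I) ∉ H := by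
    intro t
    have er : (s' + t * I : ℂ).re = s' := by simp
    exact hC.out _ (by rw [er]; exact h1) (by rw [er]; exact h2)
  have hg : ∀ x : ℝ, Measurable (fun t : ℝ => gg Ψ s p τ x (Ψ (s' + t * I))) := by
    intro x
    have e1 : Continuous (fun t : ℝ => lam Ψ s (Ψ (s' + t * I)) (τ x)) := by
      rw [continuous_iff_continuousAt]
      intro t
      exact ContinuousAt.comp (f := fun t : ℝ => Ψ (s' + t * I)) (g := fun w => lam Ψ s w (τ x))
        (lam_continuousAt hC (hnot t) (τ x)) hcont.continuousAt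
    have e2 : Measurable (fun t : ℝ => arg (Ψ (s' + t * I) - p x)) :=
      measurable_arg.comp (hcont.sub continuous_const).measurable
    exact e1.measurable.sub e2
  exact ((hg y').sub (hg y)).div_const _

private theorem norm_qq_mul_le (hC : Collar H Ψ s₀ s s₁) (hp : LeftPt H Ψ s a b p τ) {y y' : ℝ}
    (hy : y ∈ Icc a b) (hy' : y' ∈ Icc a b) (hyy : y < y') {s' : ℝ} (h1 : s < s') (h2 : s' < s₁)
    (k : ℝ → ℝ) (t : ℝ) : ‖qq Ψ s p τ y y' (Ψ (s' + t * I)) * k t‖ ≤ ‖k t‖ := by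
  have er : (s' + t * I : ℂ).re = s' := by simp
  have hnot : Ψ (s' + t * I) ∉ H := hC.out _ (by rw [er]; exact h1) (by rw [er]; exact h2)
  rcases qq_zero_or_one' hC hp hy hy' hyy hnot with h | h <;> rw [h] <;> simp

/-- The limit of the integral over an arc which does not meet the rays. -/
private theorem arc (hC : Collar H Ψ s₀ s s₁) (hp : LeftPt H Ψ s a b p τ) {y y' : ℝ}
    (hy : y ∈ Icc a b) (hy' : y' ∈ Icc a b) (hyy : y < y') {k : ℝ → ℝ} (hk : Continuous k)
    {α β : ℝ} (hαβ : α < β)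
    (h : ∀ t ∈ Ioo α β, gam Ψ s t ∉ ray p y ∧ gam Ψ s t ∉ ray p y') :
    ∃ c : ℝ, (c = 0 ∨ c = 1) ∧
      Tendsto (fun s' : ℝ => ∫ t in α..β, qq Ψ s p τ y y' (Ψ (s' + t * I)) * k t) (𝓝[>] s)
        (𝓝 (c * ∫ t in α..β, k t)) := by
  have hex : ∀ t₀ : ℝ, ∃ δ c : ℝ, t₀ ∈ Ioo α β → (0 < δ ∧ (c = 0 ∨ c = 1) ∧ ∀ s' t : ℝ, s < s' →
      s' < s + δ → |t - t₀| < δ → qq Ψ s p τ y y' (Ψ (s' + t * I)) = c) := by
    intro t₀
    by_cases ht : t₀ ∈ Ioo α β
    · obtain ⟨δ, c, h1, h2, h3⟩ := loc hC hp hy hy' hyy (h t₀ ht).1 (h t₀ ht).2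
      exact ⟨δ, c, fun _ => ⟨h1, h2, h3⟩⟩
    · exact ⟨0, 0, fun h => absurd h ht⟩
  choose δ c hc using hex
  have hloc : ∀ t ∈ Ioo α β, ∀ t' ∈ Ioo α β, |t' - t| < δ t → c t' = c t := by
    intro t ht t' ht' hd
    obtain ⟨e1, _, e3⟩ := hc t ht
    obtain ⟨f1, _, f3⟩ := hc t' ht'
    have hm : 0 < min (δ t) (δ t') := lt_min e1 f1
    have hm1 : min (δ t) (δ t') ≤ δ t := min_le_left _ _
    have hm2 : min (δ t) (δ t') ≤ δ t' := min_le_right _ _
    have g1 := e3 (s + min (δ t) (δ t') / 2) t' (by linarith) (by linarith) hd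
    have g2 := f3 (s + min (δ t) (δ t') / 2) t' (by linarith) (by linarith) (by simpa using f1)
    rw [← g1, ← g2]
  have hconst : ∀ t ∈ Ioo α β, ∀ t' ∈ Ioo α β, c t' = c t := by
    classical
    let f : ℝ → Bool := fun t => decide (c t = 1)
    have hf : ContinuousOn f (Ioo α β) := by
      intro t ht
      have hev : f =ᶠ[𝓝[Ioo α β] t] fun _ => f t := by
        have e1 : Metric.ball t (δ t) ∈ 𝓝[Ioo α β] t :=
          mem_nhdsWithin_of_mem_nhds (Metric.ball_mem_nhds t (hc t ht).1)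
        filter_upwards [e1, self_mem_nhdsWithin] with t' h1 h2
        have : c t' = c t := hloc t ht t' h2 (by rwa [Metric.mem_ball, Real.dist_eq] at h1)
        show decide (c t' = 1) = decide (c t = 1)
        rw [this]
      exact (continuousWithinAt_const.congr_of_eventuallyEq hev rfl)
    intro t ht t' ht'
    have h1 : f t' = f t := isPreconnected_Ioo.constant hf ht' ht
    have h2 : (c t' = 1) ↔ (c t = 1) := by
      have h3 : decide (c t' = 1) = decide (c t = 1) := h1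
      exact decide_eq_decide.1 h3
    rcases (hc t ht).2.1 with e | e <;> rcases (hc t' ht').2.1 with e' | e'
    · rw [e, e']
    · exact absurd (h2.1 e') (by rw [e]; norm_num)
    · exact absurd (h2.2 e) (by rw [e']; norm_num)
    · rw [e, e']
  have hmid : (α + β) / 2 ∈ Ioo α β := ⟨by linarith, by linarith⟩
  refine ⟨c ((α + β) / 2), (hc _ hmid).2.1, ?_⟩
  rw [← intervalIntegral.integral_const_mul]
  have hnear : ∀ᶠ s' : ℝ in 𝓝[>] s, s' ∈ Ioo s s₁ := Ioo_mem_nhdsGT hC.lt1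
  refine intervalIntegral.tendsto_integral_filter_of_dominated_convergence (fun t => ‖k t‖)
    ?_ ?_ ?_ ?_
  · filter_upwards [hnear] with s' hs'
    exact ((meas hC hs'.1 hs'.2).mul hk.measurable).aestronglyMeasurable
  · filter_upwards [hnear] with s' hs'
    exact Eventually.of_forall fun t _ => norm_qq_mul_le hC hp hy hy' hyy hs'.1 hs'.2 k t
  · exact hk.norm.intervalIntegrable _ _
  · have hne : ∀ᵐ t : ℝ, t ≠ β := by
      rw [ae_iff]
      simp
    filter_upwards [hne] with t htβ ht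
    rw [uIoc_of_le hαβ.le] at ht
    have ht' : t ∈ Ioo α β := ⟨ht.1, lt_of_le_of_ne ht.2 htβ⟩
    obtain ⟨e1, _, e3⟩ := hc t ht'
    have hev : ∀ᶠ s' : ℝ in 𝓝[>] s, qq Ψ s p τ y y' (Ψ (s' + t * I)) * k t =
        c ((α + β) / 2) * k t := by
      have e4 : ∀ᶠ s' : ℝ in 𝓝[>] s, s' ∈ Ioo s (s + δ t) := Ioo_mem_nhdsGT (by linarith)
      filter_upwards [e4] with s' hs'
      rw [e3 s' t hs'.1 hs'.2 (by simpa using e1), hconst _ hmid t ht']
    exact tendsto_const_nhds.congr' (hev.mono fun _ h => h.symm)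

theorem qq_boundary (hC : Collar H Ψ s₀ s s₁) (hp : LeftPt H Ψ s a b p τ) {y y' : ℝ}
    (hy : y ∈ Icc a b) (hy' : y' ∈ Icc a b) (hyy : y < y') {k : ℝ → ℝ} {K : ℝ} (hk : Continuous k)
    (hkp : ∀ t, k (t + 2 * Real.pi) = k t)
    (hK : ∀ u v : ℝ, u ≤ v → v ≤ u + 2 * Real.pi → |∫ t in u..v, k t| ≤ K) :
    ∃ c : ℝ, |c| ≤ 2 * K ∧ Tendsto (fun s' : ℝ => ∫ t in (0 : ℝ)..(2 * Real.pi),
      qq Ψ s p τ y y' (Ψ (s' + t * I)) * k t) (𝓝[>] s) (𝓝 c) := by
  have hpi := Real.pi_pos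
  -- the two parameters are different
  have hτ : τ y ≠ τ y' := by
    intro h
    have h1 : (p y).im = (p y').im := by rw [hp.eq y hy, hp.eq y' hy', h]
    rw [hp.im y hy, hp.im y' hy'] at h1
    exact absurd h1 hyy.ne
  set u := min (τ y) (τ y') with hu
  set v := max (τ y) (τ y') with hv
  have huv : u < v := min_lt_max.2 hτ
  have hu0 : 0 ≤ u := le_min (hp.τ0 y) (hp.τ0 y')
  have hv1 : v < 2 * Real.pi := max_lt (hp.τ1 y) (hp.τ1 y')
  have hcases : ∀ x, x = y ∨ x = y' → τ x = u ∨ τ x = v := by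
    intro x hx
    rcases le_total (τ y) (τ y') with h | h
    · rw [hu, hv, min_eq_left h, max_eq_right h]
      rcases hx with rfl | rfl
      · exact Or.inl rfl
      · exact Or.inr rfl
    · rw [hu, hv, min_eq_right h, max_eq_left h]
      rcases hx with rfl | rfl
      · exact Or.inr rfl
      · exact Or.inl rfl
  have hoff : ∀ x, x = y ∨ x = y' → ∀ t, (t ∈ Ioo u v ∨ t ∈ Ioo v (u + 2 * Real.pi)) →
      gam Ψ s t ∉ ray p x := by
    intro x hx t ht hmem
    have hxI : x ∈ Icc a b := by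
      rcases hx with rfl | rfl
      · exact hy
      · exact hy'
    obtain ⟨n, hn⟩ := of_gam_mem_ray hC hp hxI hmem
    -- `t` lies strictly between `τ x + 2π m` and `τ x + 2π (m + 1)`
    have key : ∀ m : ℤ, τ x + m * (2 * Real.pi) < t → t < τ x + (m + 1) * (2 * Real.pi) → False := by
      intro m e1 e2
      rw [hn] at e1 e2
      have f1 : (m : ℝ) * (2 * Real.pi) < n * (2 * Real.pi) := by linarith
      have f2 : (n : ℝ) * (2 * Real.pi) < (m + 1) * (2 * Real.pi) := by linarith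
      have g1 : (m : ℝ) < n := lt_of_mul_lt_mul_right f1 (by positivity)
      have g2 : (n : ℝ) < m + 1 := lt_of_mul_lt_mul_right f2 (by positivity)
      have g1' : m < n := by exact_mod_cast g1
      have g2' : n < m + 1 := by exact_mod_cast g2
      omega
    rcases ht with ht | ht
    · rcases hcases x hx with h | h
      · apply key 0
        · rw [h]; push_cast; linarith [ht.1]
        · rw [h]; push_cast; linarith [ht.2]
      · apply key (-1)
        · rw [h]; push_cast; linarith [ht.1]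
        · rw [h]; push_cast; linarith [ht.2]
    · rcases hcases x hx with h | h
      · apply key 0
        · rw [h]; push_cast; linarith [ht.1]
        · rw [h]; push_cast; linarith [ht.2]
      · apply key 0
        · rw [h]; push_cast; linarith [ht.1]
        · rw [h]; push_cast; linarith [ht.2]
  obtain ⟨c₁, hc₁, hT₁⟩ := arc hC hp hy hy' hyy hk huv
    (fun t ht => ⟨hoff y (Or.inl rfl) t (Or.inl ht), hoff y' (Or.inr rfl) t (Or.inl ht)⟩)
  obtain ⟨c₂, hc₂, hT₂⟩ := arc hC hp hy hy' hyy hk (α := v) (β := u + 2 * Real.pi) (by linarith)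
    (fun t ht => ⟨hoff y (Or.inl rfl) t (Or.inr ht), hoff y' (Or.inr rfl) t (Or.inr ht)⟩)
  refine ⟨c₁ * (∫ t in u..v, k t) + c₂ * ∫ t in v..(u + 2 * Real.pi), k t, ?_, ?_⟩
  · have b1 : |c₁ * ∫ t in u..v, k t| ≤ K := by
      have e := hK u v huv.le (by linarith)
      rcases hc₁ with h | h
      · rw [h, zero_mul, abs_zero]
        exact (abs_nonneg _).trans e
      · rw [h, one_mul]
        exact e
    have b2 : |c₂ * ∫ t in v..(u + 2 * Real.pi), k t| ≤ K := by
      have e := hK v (u + 2 * Real.pi) (by linarith) (by linarith)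
      rcases hc₂ with h | h
      · rw [h, zero_mul, abs_zero]
        exact (abs_nonneg _).trans e
      · rw [h, one_mul]
        exact e
    calc _ ≤ |c₁ * ∫ t in u..v, k t| + |c₂ * ∫ t in v..(u + 2 * Real.pi), k t| := abs_add_le _ _
      _ ≤ 2 * K := by linarith
  · have hnear : ∀ᶠ s' : ℝ in 𝓝[>] s, s' ∈ Ioo s s₁ := Ioo_mem_nhdsGT hC.lt1
    refine (hT₁.add hT₂).congr' ?_
    filter_upwards [hnear] with s' hs'
    have hper : Function.Periodic (fun t : ℝ => qq Ψ s p τ y y' (Ψ (s' + t * I)) * k t)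
        (2 * Real.pi) := by
      intro t
      show qq Ψ s p τ y y' (Ψ (s' + ((t + 2 * Real.pi : ℝ) : ℂ) * I)) * k (t + 2 * Real.pi) = _
      have e1 : (s' + ((t + 2 * Real.pi : ℝ) : ℂ) * I) = (s' + t * I) + 2 * Real.pi * I := by
        push_cast
        ring
      rw [e1, hC.period, hkp]
    have hint : ∀ x z : ℝ, IntervalIntegrable
        (fun t : ℝ => qq Ψ s p τ y y' (Ψ (s' + t * I)) * k t) volume x z := by
      intro x z
      refine (hk.norm.intervalIntegrable x z).mono_fun'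
        ((meas hC hs'.1 hs'.2).mul hk.measurable).aestronglyMeasurable ?_
      exact Eventually.of_forall fun t => norm_qq_mul_le hC hp hy hy' hyy hs'.1 hs'.2 k t
    have e2 := hper.intervalIntegral_add_eq 0 u
    rw [zero_add] at e2
    rw [e2]
    exact intervalIntegral.integral_add_adjacent_intervals (hint u v) (hint v _)

end RSM2
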