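import Pool.Agent.RSM.Defs

/-!
# Project RSM2 (MP_373296_an, rectilinear slit maps): basic definitions

THEOREM (T2'').  Let `E` be a compact subset of the plane with connected complement, `θ` a continuous
function on `E`, constant on the components of `E`; let `F ⊆ E` be a closed union of countably many
components of `E`, and suppose that every point of `E \ F` is GOOD (`GoodAt`: the radii `ρ` for which
the variation of `θ` on the intersection of the circle with centre `ζ` and radius `ρ` with the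
non-degenerate components is small have infinite `dρ/ρ`-measure near `0`).  Then there is a
rectilinear slit map of `Eᶜ` which realises `θ` (`RSM.IsSlitMap`).

CONVENTIONS.  The plane is `ℂ`; `J f g = f_x g_y - f_y g_x` is the Jacobian of two real functions;
a 1-form `∑ a_i d b_i` has exterior derivative `(∑ J a_i b_i) dx dy`.

* A configuration `c : Cfg` is a finite set of pairs `(H, φ)` (`H` a hole, `φ` an angle).
* `Sol c G`: `G` is the normalised conformal map of the complement of the holes which sends every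
  hole into a line of the prescribed direction.
* `SMap θ₀ c G S`: `G` is a conformal map of the complement of the holes onto the complement of
  non-degenerate disjoint segments `S h`, in the direction `h.2 - θ₀`.
-/

open Complex Set Metric Filter Topology MeasureTheory

namespace RSM2

/-! ### Configurations -/

/-- A finite configuration: a finite set of pairs (hole, angle). -/
abbrev Cfg := Finset (Set ℂ × ℝ)

/-- The union of the holes. -/
noncomputable def un (c : Cfg) : Set ℂ := ⋃ h ∈ c, h.1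

/-- The holes are pairwise disjoint non-degenerate continua with connected complements. -/
structure Valid (c : Cfg) : Prop where
  compact : ∀ h ∈ c, IsCompact h.1
  conn : ∀ h ∈ c, IsConnected h.1
  nontriv : ∀ h ∈ c, h.1.Nontrivial
  compl : ∀ h ∈ c, IsConnected h.1ᶜ
  disj : ∀ h ∈ c, ∀ h' ∈ c, h ≠ h' → Disjoint h.1 h'.1

/-- The filter of the neighbourhoods of the set `H`, restricted to `D`. -/
noncomputable def nearIn (D H : Set ℂ) : Filter ℂ := 𝓝ˢ H ⊓ 𝓟 D

/-- The coordinate in the direction normal to `exp (iφ)`. -/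
noncomputable def nrm (φ : ℝ) (w : ℂ) : ℝ := (exp (-(φ : ℂ) * I) * w).im

/-- `G` is the normalised slit map of the configuration `c`. -/
structure Sol (c : Cfg) (G : ℂ → ℂ) : Prop where
  diff : DifferentiableOn ℂ G (un c)ᶜ
  inj : InjOn G (un c)ᶜ
  lim : Tendsto (fun z => G z - z) (cocompact ℂ) (𝓝 0)
  line : ∀ h ∈ c, ∃ q : ℝ, Tendsto (fun z => nrm h.2 (G z)) (nearIn (un c)ᶜ h.1) (𝓝 q)

/-- The segment with end point `p`, direction `exp (iφ)` and length `ℓ`. -/
noncomputable def seg (p : ℂ) (φ ℓ : ℝ) : Set ℂ := (fun t : ℝ => p + t * exp (φ * I)) '' Icc 0 ℓ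

/-- `G` is a conformal map of the complement of the holes onto the complement of disjoint
non-degenerate segments; the segment `S h` corresponds to the hole `h.1` and has direction
`h.2 - θ₀`. -/
structure SMap (θ₀ : ℝ) (c : Cfg) (G : ℂ → ℂ) (S : Set ℂ × ℝ → Set ℂ) : Prop where
  diff : DifferentiableOn ℂ G (un c)ᶜ
  inj : InjOn G (un c)ᶜ
  tend : Tendsto G (cocompact ℂ) (cocompact ℂ)
  isSeg : ∀ h ∈ c, ∃ (p : ℂ) (ℓ : ℝ), 0 < ℓ ∧ S h = seg p (h.2 - θ₀) ℓ
  disj : ∀ h ∈ c, ∀ h' ∈ c, h ≠ h' → Disjoint (S h) (S h')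
  image : G '' (un c)ᶜ = (⋃ h ∈ c, S h)ᶜ
  toS : ∀ h ∈ c, Tendsto G (nearIn (un c)ᶜ h.1) (𝓝ˢ (S h))
  ofS : ∀ h ∈ c, ∀ U ∈ 𝓝ˢ h.1, ∀ᶠ w in 𝓝ˢ (S h), ∀ z ∈ (un c)ᶜ, G z = w → z ∈ U

/-! ### Calculus of Jacobians -/

/-- Partial derivative with respect to `x`. -/
noncomputable def dX (f : ℂ → ℝ) (z : ℂ) : ℝ := fderiv ℝ f z 1

/-- Partial derivative with respect to `y`. -/
noncomputable def dY (f : ℂ → ℝ) (z : ℂ) : ℝ := fderiv ℝ f z I

/-- The Jacobian `f_x g_y - f_y g_x`. -/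
noncomputable def J (f g : ℂ → ℝ) (z : ℂ) : ℝ := dX f z * dY g z - dY f z * dX g z

/-- Functions which are `C²` on `D`, bounded on `D ∩ T`, with finite Dirichlet integral over
`D ∩ T`. -/
structure Nice (D T : Set ℂ) (a : ℂ → ℝ) : Prop where
  smooth : ContDiffOn ℝ 2 a D
  bdd : ∃ M : ℝ, ∀ z ∈ D ∩ T, |a z| ≤ M
  l2 : IntegrableOn (fun z => ‖fderiv ℝ a z‖ ^ 2) (D ∩ T)

/-- `X` is a cut-off function for the hole `H` of the domain `D`: it is `1` near `H`, and its
(compact) support is contained in `D ∪ H` and in `T`. -/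
structure HoleCut (D H T : Set ℂ) (X : ℂ → ℝ) : Prop where
  openD : IsOpen D
  compactH : IsCompact H
  disj : Disjoint D H
  smooth : ContDiff ℝ (⊤ : ℕ∞) X
  compact : HasCompactSupport X
  one : ∀ᶠ z in 𝓝ˢ H, X z = 1
  supp : tsupport X ⊆ T ∩ (D ∪ H)

/-- The flux of the 1-form `a db` at the hole `H` (`X` a cut-off function for `H`). -/
noncomputable def Fl (D : Set ℂ) (X a b : ℂ → ℝ) : ℝ := ∫ z in D, J (fun w => X w * a w) b z

/-! ### Slits -/

/-- The slit with left end point `p`, slope `τ` and horizontal length `ℓ`. -/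
noncomputable def slit (p : ℂ) (τ ℓ : ℝ) : Set ℂ := (fun t : ℝ => p + t * (1 + τ * I)) '' Icc 0 ℓ

/-- The union of a family of slits. -/
def SF {ι : Type} (p : ι → ℂ) (τ ℓ : ι → ℝ) : Set ℂ := ⋃ j, slit (p j) (τ j) (ℓ j)

/-- A finite family of pairwise disjoint non-degenerate slits of slopes at most `ε`, contained in
the box `|x| ≤ R`, `|y| ≤ R'`. -/
structure SlitFam {ι : Type} (p : ι → ℂ) (τ ℓ : ι → ℝ) (ε R R' : ℝ) : Prop where
  fin : Finite ι
  pos : ∀ j, 0 < ℓ j
  slope : ∀ j, |τ j| ≤ ε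
  box : ∀ j, ∀ z ∈ slit (p j) (τ j) (ℓ j), |z.re| ≤ R ∧ |z.im| ≤ R'
  disj : ∀ i j, i ≠ j → Disjoint (slit (p i) (τ i) (ℓ i)) (slit (p j) (τ j) (ℓ j))

/-! ### The final statement -/

/-- The union of the non-degenerate components of `E`. -/
noncomputable def ntPart (E : Set ℂ) : Set ℂ := {z ∈ E | (connectedComponentIn E z).Nontrivial}

/-- The set of the radii `ρ` for which the variation of `θ` on the intersection of the circle with
centre `ζ` and radius `ρ` with the non-degenerate components of `E` is at most `η`. -/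
noncomputable def goodRadii (E : Set ℂ) (θ : ℂ → ℝ) (ζ : ℂ) (η : ℝ) : Set ℝ :=
  {ρ | eVariationOn (fun t => θ (circleMap ζ ρ t))
    {t ∈ Icc 0 (2 * Real.pi) | circleMap ζ ρ t ∈ ntPart E} ≤ ENNReal.ofReal η}

/-- The point `ζ` is good: for all `η > 0` the good radii have infinite `dρ/ρ`-measure near
`0`. -/
def GoodAt (E : Set ℂ) (θ : ℂ → ℝ) (ζ : ℂ) : Prop :=
  ∀ η > 0, ∫⁻ ρ in goodRadii E θ ζ η ∩ Ioo 0 1, ENNReal.ofReal ρ⁻¹ = ⊤

/-! ### Small lemmas -/

theorem mem_un {c : Cfg} {z : ℂ} : z ∈ un c ↔ ∃ h ∈ c, z ∈ h.1 := by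
  simp [un]

theorem un_empty : un ∅ = ∅ := by
  simp [un]

open Classical in
theorem un_union (c d : Cfg) : un (c ∪ d) = un c ∪ un d := by
  ext z
  simp only [mem_un, mem_union, Finset.mem_union]
  constructor
  · rintro ⟨h, h1 | h1, h2⟩
    · exact Or.inl ⟨h, h1, h2⟩
    · exact Or.inr ⟨h, h1, h2⟩
  · rintro (⟨h, h1, h2⟩ | ⟨h, h1, h2⟩)
    · exact ⟨h, Or.inl h1, h2⟩
    · exact ⟨h, Or.inr h1, h2⟩

theorem un_mono {c d : Cfg} (h : c ⊆ d) : un c ⊆ un d := by
  intro z hz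
  rw [mem_un] at hz ⊢
  obtain ⟨k, hk, hz⟩ := hz
  exact ⟨k, h hk, hz⟩

theorem subset_un {c : Cfg} {h : Set ℂ × ℝ} (hh : h ∈ c) : h.1 ⊆ un c :=
  fun _ hz => mem_un.2 ⟨h, hh, hz⟩

theorem Valid.isCompact {c : Cfg} (hc : Valid c) : IsCompact (un c) :=
  c.isCompact_biUnion fun h hh => hc.compact h hh

theorem Valid.isOpen {c : Cfg} (hc : Valid c) : IsOpen (un c)ᶜ :=
  hc.isCompact.isClosed.isOpen_compl

theorem Valid.mono {c d : Cfg} (hd : Valid d) (h : c ⊆ d) : Valid c where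
  compact k hk := hd.compact k (h hk)
  conn k hk := hd.conn k (h hk)
  nontriv k hk := hd.nontriv k (h hk)
  compl k hk := hd.compl k (h hk)
  disj k hk k' hk' hne := hd.disj k (h hk) k' (h hk') hne

theorem nearIn_mono {D D' H H' : Set ℂ} (hD : D ⊆ D') (hH : H ⊆ H') :
    nearIn D H ≤ nearIn D' H' :=
  inf_le_inf (nhdsSet_mono hH) (principal_mono.2 hD)

theorem mem_nearIn {D H s : Set ℂ} :
    s ∈ nearIn D H ↔ ∃ U, IsOpen U ∧ H ⊆ U ∧ U ∩ D ⊆ s := by
  unfold nearIn
  rw [mem_inf_principal, mem_nhdsSet_iff_exists]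
  constructor
  · rintro ⟨U, hU, hHU, h⟩
    exact ⟨U, hU, hHU, fun z hz => h hz.1 hz.2⟩
  · rintro ⟨U, hU, hHU, h⟩
    exact ⟨U, hU, hHU, fun z hz hzD => h ⟨hz, hzD⟩⟩

theorem eventually_nearIn {D H : Set ℂ} {p : ℂ → Prop} :
    (∀ᶠ z in nearIn D H, p z) ↔ ∃ U, IsOpen U ∧ H ⊆ U ∧ ∀ z ∈ U ∩ D, p z := by
  rw [Filter.Eventually, mem_nearIn]
  rfl

theorem nrm_sub (φ : ℝ) (v w : ℂ) : nrm φ (v - w) = nrm φ v - nrm φ w := by
  simp [nrm, mul_sub]

theorem nrm_add (φ : ℝ) (v w : ℂ) : nrm φ (v + w) = nrm φ v + nrm φ w := by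
  simp [nrm, mul_add]

theorem abs_nrm_le (φ : ℝ) (w : ℂ) : |nrm φ w| ≤ ‖w‖ := by
  unfold nrm
  refine (Complex.abs_im_le_norm _).trans ?_
  rw [norm_mul]
  have : ‖exp (-(φ : ℂ) * I)‖ = 1 := by
    rw [show -(φ : ℂ) * I = ((-φ : ℝ) : ℂ) * I by push_cast; ring, Complex.norm_exp_ofReal_mul_I]
  rw [this, one_mul]

theorem nrm_eq (φ : ℝ) (w : ℂ) : nrm φ w = Real.cos φ * w.im - Real.sin φ * w.re := by
  unfold nrm
  rw [show -(φ : ℂ) * I = ((-φ : ℝ) : ℂ) * I by push_cast; ring, Complex.exp_mul_I]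
  simp only [Complex.mul_im, Complex.add_re, Complex.add_im, Complex.mul_re, Complex.I_re,
    Complex.I_im, ← Complex.ofReal_cos, ← Complex.ofReal_sin, Complex.ofReal_re,
    Complex.ofReal_im, Real.cos_neg, Real.sin_neg]
  ring

end RSM2
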