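import Pool.Agent.RSM2.V1
import Pool.Agent.RSM.G4

/-!
# RSM2 module V2: geometry of the slit map of a configuration

PROOF.  Let `E = un c`, compact, `D = Eᶜ`, `θ x = h.2` for `x ∈ h.1`, `h ∈ c` (well defined as the holes
are disjoint), `θ x = 0` for `x ∉ E`.  For `x ∈ h.1`, `connectedComponentIn E x = h.1` (the holes
are connected, compact, pairwise disjoint and finite in number, so each is relatively clopen in
`E`).  By `RSM.isSlitMap_of_lines` (`hG.line` and `𝓝[D] y ≤ nearIn D h.1` for `y ∈ h.1`)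
`RSM.IsSlitMap E θ G`.  Let `B = (G '' D)ᶜ`, compact (`RSM.isCompact_compl_image`).
(1) For `h ∈ c` choose `x ∈ h.1`; `exists_right` gives `p_h ∈ B` with `Corr E G h.1 S_h`,
`S_h = connectedComponentIn B p_h`, and by `slit` `S_h = segment ℝ w (w + t exp (iθ x))`, `t ≥ 0`,
`θ x = h.2`.
(2) UNIQUENESS: if `Corr E G K K'` and `Corr E G K K''` where `K'`, `K''` are components of `B`, then
`K' = K''`.  Let `p' ∈ frontier K' ⊆ frontier B` (`RSM.frontier_nonempty`,
`RSM.frontier_component_subset`); there are `u n ∈ D` with `G (u n) → p'`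
(`p' ∈ closure Bᶜ = closure (G '' D)`); so `infDist (G (u n)) K' → 0`, `infDist (u n) K → 0`,
`infDist (G (u n)) K'' → 0`, `p' ∈ K''` (closed), and components which meet are equal.
(3) For `p ∈ B`, `exists_left` gives `x ∈ E`, `x ∈ h.1` for some `h ∈ c`, with
`Corr E G h.1 (connectedComponentIn B p)`, so `connectedComponentIn B p = S_h` by (2).  Hence
`B = ⋃ h ∈ c, S_h`.
(4) `S_h`, `S_h'` are disjoint for `h ≠ h'`: otherwise they are equal; take `u n ∈ D` converging to a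
point of `frontier h.1` (nonempty; near `h.1` there are no other holes): then
`infDist (u n) h.1 → 0`, `infDist (G (u n)) S_h → 0`, `infDist (u n) h'.1 → 0`, impossible since
`h.1`, `h'.1` are disjoint compact sets.
(5) `toS`: for every `ε > 0` there is `δ > 0` with `infDist (G z) S_h < ε` for `z ∈ D`,
`infDist z h.1 < δ` (otherwise a sequence contradicts `Corr`); the sets
`{infDist · K < ε}` are a basis of `𝓝ˢ K` for compact `K` (`IsCompact.nhdsSet...`,
`hasBasis_nhdsSet_thickening`).  `ofS` is the converse direction.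
(6) `t > 0`: suppose `S_h = {w}`.  The inverse map `g` of `G`, holomorphic and injective on `G '' D`
(`Pool/Agent/Lib/Hurwitz.lean`, `exists_inverse`) is bounded near `w` (its values tend to the compact
set `h.1`), and `G '' D ∪ {w}` is a neighbourhood of `w` (the other components of `B` are closed).
By Riemann's theorem on removable singularities `g` extends to a holomorphic function near `w`; so
`g v → z₀` as `v → w`.  Hence `z → h.1` in `D` implies `G z → w`, `z = g (G z) → z₀`; so every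
point of `frontier h.1` is equal to `z₀` (such a point is a limit of points of `D`).
The set `ℂ \ {z₀}` is connected and `h.1 \ {z₀}` is relatively clopen in it (`frontier h.1 ⊆ {z₀}`),
so it is empty or everything; `h.1` is bounded, so `h.1 ⊆ {z₀}`, contradicting `h.1.Nontrivial`.
(7) ROTATION: for general `θ₀` put `G' = exp (-iθ₀) G`, `S' h = exp (-iθ₀) S_h =
seg (exp (-iθ₀) w) (h.2 - θ₀) t` (`seg` is the image of `Icc 0 t`; compare with `segment`).
-/

open Complex Set Metric Filter Topology MeasureTheory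

namespace RSM2

/-- the components of the union of the holes are the holes -/
theorem V2_component {c : Cfg} (hc : Valid c) {h : Set ℂ × ℝ} (hh : h ∈ c) {x : ℂ}
    (hx : x ∈ h.1) : connectedComponentIn (un c) x = h.1 := by
  classical
  apply Subset.antisymm
  · have hxu : x ∈ un c := subset_un hh hx
    have hCp : IsPreconnected (connectedComponentIn (un c) x) :=
      isPreconnected_connectedComponentIn
    have hCs : connectedComponentIn (un c) x ⊆ un c := connectedComponentIn_subset _ _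
    have hFc : IsClosed (⋃ h' ∈ c.erase h, h'.1) :=
      ((c.erase h).isCompact_biUnion fun h' hh' =>
        hc.compact h' (Finset.mem_of_mem_erase hh')).isClosed
    have hsplit : ∀ z ∈ un c, z ∉ h.1 → z ∈ ⋃ h' ∈ c.erase h, h'.1 := by
      intro z hz hzh
      obtain ⟨h', hh', hz'⟩ := mem_un.1 hz
      have hne : h' ≠ h := by
        rintro rfl
        exact hzh hz'
      exact mem_biUnion (Finset.mem_erase.2 ⟨hne, hh'⟩) hz'
    intro z hz
    by_contra hzh
    obtain ⟨w, -, hw1, hw2⟩ := isPreconnected_closed_iff.1 hCp h.1 _ (hc.compact h hh).isClosed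
      hFc (fun w hw => by
        by_cases hwh : w ∈ h.1
        · exact Or.inl hwh
        · exact Or.inr (hsplit w (hCs hw) hwh))
      ⟨x, mem_connectedComponentIn hxu, hx⟩ ⟨z, hz, hsplit z (hCs hz) hzh⟩
    rw [mem_iUnion₂] at hw2
    obtain ⟨h', hh', hw'⟩ := hw2
    exact Set.disjoint_left.1 (hc.disj h hh h' (Finset.mem_of_mem_erase hh')
      (Finset.ne_of_mem_erase hh').symm) hw1 hw'
  · exact (hc.conn h hh).isPreconnected.subset_connectedComponentIn hx (subset_un hh)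

open Classical in
/-- the angle function of a configuration -/
noncomputable def V2_ang (c : Cfg) (x : ℂ) : ℝ :=
  if hx : ∃ h ∈ c, x ∈ h.1 then hx.choose.2 else 0

theorem V2_ang_eq {c : Cfg} (hc : Valid c) {h : Set ℂ × ℝ} (hh : h ∈ c) {x : ℂ}
    (hx : x ∈ h.1) : V2_ang c x = h.2 := by
  unfold V2_ang
  have hex : ∃ h ∈ c, x ∈ h.1 := ⟨h, hh, hx⟩
  rw [dif_pos hex]
  have h1 := hex.choose_spec
  by_contra hne
  have h2 : hex.choose ≠ h := fun e => hne (by rw [e])
  exact Set.disjoint_left.1 (hc.disj _ h1.1 _ hh h2) h1.2 hx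

theorem V2_seq {B : Set ℂ} {p : ℂ} (hp : p ∈ frontier B) :
    ∃ v : ℕ → ℂ, (∀ n, v n ∉ B) ∧ Tendsto v atTop (𝓝 p) := by
  rw [← frontier_compl] at hp
  obtain ⟨u, hu, hux⟩ := mem_closure_iff_seq_limit.1 (frontier_subset_closure hp)
  exact ⟨u, hu, hux⟩

theorem V2_infDist {K : Set ℂ} {x : ℂ} (hx : x ∈ K) {u : ℕ → ℂ}
    (hu : Tendsto u atTop (𝓝 x)) : Tendsto (fun n => infDist (u n) K) atTop (𝓝 0) := by
  have h1 := ((continuous_infDist_pt K).tendsto x).comp hu
  rw [infDist_zero_of_mem hx] at h1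
  exact h1

theorem V2_mem {K : Set ℂ} (hK : IsClosed K) (hne : K.Nonempty) {u : ℕ → ℂ} {x : ℂ}
    (hu : Tendsto u atTop (𝓝 x)) (h : Tendsto (fun n => infDist (u n) K) atTop (𝓝 0)) :
    x ∈ K := by
  rw [hK.mem_iff_infDist_zero hne]
  exact tendsto_nhds_unique (((continuous_infDist_pt K).tendsto x).comp hu) h

theorem V2_unique {E : Set ℂ} {f : ℂ → ℂ} {K K' K'' : Set ℂ} {p : ℂ}
    (hp : p ∈ frontier (f '' Eᶜ)ᶜ) (hpK : p ∈ K') (hK'' : IsClosed K'') (hne : K''.Nonempty)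
    (h1 : RSM.Corr E f K K') (h2 : RSM.Corr E f K K'') : p ∈ K'' := by
  obtain ⟨v, hv, hvp⟩ := V2_seq hp
  have hv' : ∀ n, ∃ z, z ∉ E ∧ f z = v n := by
    intro n
    have := hv n
    rw [notMem_compl_iff] at this
    exact this
  choose u hu huv using hv'
  have hvp' : Tendsto (fun n => f (u n)) atTop (𝓝 p) := by simpa only [huv] using hvp
  exact V2_mem hK'' hne hvp' ((h2 u hu).1 ((h1 u hu).2 (V2_infDist hpK hvp')))

theorem V2_unique' {E : Set ℂ} {f : ℂ → ℂ} {K K' L : Set ℂ} {x : ℂ}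
    (hx : x ∈ frontier E) (hxK : x ∈ K) (hK' : IsClosed K') (hne : K'.Nonempty)
    (h1 : RSM.Corr E f K L) (h2 : RSM.Corr E f K' L) : x ∈ K' := by
  obtain ⟨u, hu, hux⟩ := V2_seq hx
  exact V2_mem hK' hne hux ((h2 u hu).2 ((h1 u hu).1 (V2_infDist hxK hux)))

theorem V2_toS {E : Set ℂ} {f : ℂ → ℂ} {K L : Set ℂ} (hKne : K.Nonempty)
    (hL : IsCompact L) (hLne : L.Nonempty) (h : RSM.Corr E f K L) :
    Tendsto f (nearIn Eᶜ K) (𝓝ˢ L) := by
  rw [(hasBasis_nhdsSet_thickening hL).tendsto_right_iff]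
  intro ε hε
  by_contra hcon
  rw [Filter.not_eventually] at hcon
  have hex : ∀ n : ℕ, ∃ z, z ∉ E ∧ infDist z K < 1 / ((n : ℝ) + 1) ∧ f z ∉ thickening ε L := by
    intro n
    have h1 : thickening (1 / ((n : ℝ) + 1)) K ∩ Eᶜ ∈ nearIn Eᶜ K := by
      rw [mem_nearIn]
      exact ⟨thickening (1 / ((n : ℝ) + 1)) K, isOpen_thickening,
        self_subset_thickening (by positivity) K, subset_rfl⟩
    obtain ⟨z, hz1, hz2⟩ := (hcon.and_eventually h1).exists
    exact ⟨z, hz2.2, (mem_thickening_iff_infDist_lt hKne).1 hz2.1, hz1⟩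
  choose u hu1 hu2 hu3 using hex
  have h1 : Tendsto (fun n => infDist (u n) K) atTop (𝓝 0) :=
    squeeze_zero (fun n => infDist_nonneg) (fun n => (hu2 n).le)
      tendsto_one_div_add_atTop_nhds_zero_nat
  have h2 := (h u hu1).1 h1
  have h3 : ∀ᶠ n in atTop, infDist (f (u n)) L < ε := h2.eventually (gt_mem_nhds hε)
  obtain ⟨n, hn⟩ := h3.exists
  exact hu3 n ((mem_thickening_iff_infDist_lt hLne).2 hn)

theorem V2_ofS {E : Set ℂ} {f : ℂ → ℂ} {K L : Set ℂ} (hK : IsCompact K) (hKne : K.Nonempty)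
    (hLne : L.Nonempty) (h : RSM.Corr E f K L) :
    ∀ U ∈ 𝓝ˢ K, ∀ᶠ w in 𝓝ˢ L, ∀ z ∈ Eᶜ, f z = w → z ∈ U := by
  intro U hU
  obtain ⟨ε, hε, hεU⟩ := (hasBasis_nhdsSet_thickening hK).mem_iff.1 hU
  by_contra hcon
  rw [Filter.not_eventually] at hcon
  have hex : ∀ n : ℕ, ∃ z, z ∉ E ∧ infDist (f z) L < 1 / ((n : ℝ) + 1) ∧ z ∉ U := by
    intro n
    have h1 : thickening (1 / ((n : ℝ) + 1)) L ∈ 𝓝ˢ L := thickening_mem_nhdsSet L (by positivity)
    obtain ⟨w, hw1, hw2⟩ := (hcon.and_eventually h1).exists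
    push Not at hw1
    obtain ⟨z, hz, hzw, hzU⟩ := hw1
    refine ⟨z, hz, ?_, hzU⟩
    rw [hzw]
    exact (mem_thickening_iff_infDist_lt hLne).1 hw2
  choose u hu1 hu2 hu3 using hex
  have h1 : Tendsto (fun n => infDist (f (u n)) L) atTop (𝓝 0) :=
    squeeze_zero (fun n => infDist_nonneg) (fun n => (hu2 n).le)
      tendsto_one_div_add_atTop_nhds_zero_nat
  have h2 := (h u hu1).2 h1
  have h3 : ∀ᶠ n in atTop, infDist (u n) K < ε := h2.eventually (gt_mem_nhds hε)
  obtain ⟨n, hn⟩ := h3.exists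
  exact hu3 n (hεU ((mem_thickening_iff_infDist_lt hKne).2 hn))

theorem V2_nondeg {E : Set ℂ} (hE : IsCompact E) {f : ℂ → ℂ} (hf : DifferentiableOn ℂ f Eᶜ)
    (hinj : InjOn f Eᶜ) {K : Set ℂ} (hK : IsCompact K) (hKn : K.Nontrivial)
    (hfr : frontier K ⊆ frontier E) {w : ℂ} (hw : w ∈ (f '' Eᶜ)ᶜ)
    (hiso : ∀ᶠ v in 𝓝[≠] w, v ∈ f '' Eᶜ) (hto : Tendsto f (nearIn Eᶜ K) (𝓝 w))
    (hof : ∀ U ∈ 𝓝ˢ K, ∀ᶠ v in 𝓝 w, ∀ z ∈ Eᶜ, f z = v → z ∈ U) : False := by
  have hEo : IsOpen Eᶜ := hE.isClosed.isOpen_compl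
  obtain ⟨g, hg, -, -, hgf, -, -⟩ := Pool.Agent.Lib.Hurwitz.exists_inverse hEo hf hinj
  have hio : IsOpen (f '' Eᶜ) := Pool.Agent.Lib.Hurwitz.isOpen_image_of_injOn hEo hf hinj
  have hd : ∀ᶠ v in 𝓝[≠] w, DifferentiableAt ℂ g v := by
    filter_upwards [hiso] with v hv
    exact hg.differentiableAt (hio.mem_nhds hv)
  obtain ⟨M, hM⟩ := (hK.isBounded.thickening (δ := 1)).exists_norm_le
  have hb : IsBoundedUnder (· ≤ ·) (𝓝[≠] w) fun v => ‖g v - g w‖ := by
    refine ⟨M + ‖g w‖, ?_⟩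
    rw [eventually_map]
    have h1 := hof (thickening 1 K) (thickening_mem_nhdsSet K one_pos)
    filter_upwards [hiso, nhdsWithin_le_nhds h1] with v hv1 hv2
    obtain ⟨z, hz, rfl⟩ := hv1
    have h3 : z ∈ thickening 1 K := hv2 z hz rfl
    rw [hgf z hz]
    have h4 := hM z h3
    exact (norm_sub_le _ _).trans (by linarith)
  have hlim := tendsto_limUnder_of_differentiable_on_punctured_nhds_of_bounded_under hd hb
  set z₀ := limUnder (𝓝[≠] w) g with hz₀
  have hfz : frontier K ⊆ {z₀} := by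
    intro x hx
    have hxK : x ∈ K := hK.isClosed.frontier_subset hx
    obtain ⟨u, hu, hux⟩ := V2_seq (hfr hx)
    have h1 : Tendsto u atTop (nearIn Eᶜ K) :=
      tendsto_inf.2 ⟨hux.mono_right (nhds_le_nhdsSet hxK),
        tendsto_principal.2 (Eventually.of_forall hu)⟩
    have h2 : Tendsto (fun n => f (u n)) atTop (𝓝 w) := hto.comp h1
    have h3 : Tendsto (fun n => f (u n)) atTop (𝓝[≠] w) :=
      tendsto_nhdsWithin_iff.2 ⟨h2, Eventually.of_forall fun n he => hw ⟨u n, hu n, he⟩⟩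
    have h4 := hlim.comp h3
    have h5 : (g ∘ fun n => f (u n)) = u := funext fun n => hgf _ (hu n)
    rw [h5] at h4
    exact tendsto_nhds_unique hux h4
  obtain ⟨x, hx, hxz⟩ : ∃ x ∈ K, x ≠ z₀ := by
    obtain ⟨x, hx, y, hy, hxy⟩ := hKn
    by_cases h : x = z₀
    · exact ⟨y, hy, fun e => hxy (h.trans e.symm)⟩
    · exact ⟨x, hx, h⟩
  have hconn : IsPreconnected ({z₀}ᶜ : Set ℂ) :=
    (isConnected_compl_singleton_of_one_lt_rank (rank_real_complex ▸ Nat.one_lt_ofNat)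
      z₀).isPreconnected
  obtain ⟨M', hM'⟩ := hK.isBounded.exists_norm_le
  have hnorm : ‖((|M'| + ‖z₀‖ + 1 : ℝ) : ℂ)‖ = |M'| + ‖z₀‖ + 1 := by
    rw [norm_real, Real.norm_eq_abs, abs_of_pos (by positivity)]
  have hpK : ((|M'| + ‖z₀‖ + 1 : ℝ) : ℂ) ∉ K := by
    intro h
    have h1 := hM' _ h
    rw [hnorm] at h1
    linarith [le_abs_self M', norm_nonneg z₀]
  have hpz : ((|M'| + ‖z₀‖ + 1 : ℝ) : ℂ) ≠ z₀ := by
    intro h
    have h1 := congrArg norm h
    rw [hnorm] at h1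
    linarith [abs_nonneg M']
  have hcl : ∀ z ∈ K, z ≠ z₀ → z ∈ interior K := by
    intro z hz hzz
    by_contra hzi
    have : z ∈ frontier K := by
      rw [hK.isClosed.frontier_eq]
      exact ⟨hz, hzi⟩
    exact hzz (hfz this)
  obtain ⟨z, -, hz1, hz2⟩ := hconn (interior K) Kᶜ isOpen_interior hK.isClosed.isOpen_compl
    (fun z hz => by
      by_cases hzK : z ∈ K
      · exact Or.inl (hcl z hzK hz)
      · exact Or.inr hzK)
    ⟨x, hxz, hcl x hx hxz⟩ ⟨_, hpz, hpK⟩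
  exact hz2 (interior_subset hz1)

theorem V2_tend {G : ℂ → ℂ} (hlim : Tendsto (fun z => G z - z) (cocompact ℂ) (𝓝 0)) :
    Tendsto G (cocompact ℂ) (cocompact ℂ) := by
  have h1 : ∀ᶠ z in cocompact ℂ, ‖G z - z‖ < 1 := by
    have := hlim.norm
    rw [norm_zero] at this
    exact this.eventually (gt_mem_nhds one_pos)
  rw [← Metric.cobounded_eq_cocompact] at h1 ⊢
  rw [← tendsto_norm_atTop_iff_cobounded]
  have h2 : Tendsto (fun z : ℂ => ‖z‖ - 1) (Bornology.cobounded ℂ) atTop :=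
    tendsto_atTop_add_const_right _ (-1) tendsto_norm_cobounded_atTop
  refine tendsto_atTop_mono' _ ?_ h2
  filter_upwards [h1] with z hz
  have h3 : ‖z‖ ≤ ‖G z‖ + ‖G z - z‖ := by
    have h4 := norm_sub_le (G z) (G z - z)
    rwa [sub_sub_cancel] at h4
  linarith

theorem V2_seg {w : ℂ} {φ t : ℝ} (ht : 0 < t) :
    segment ℝ w (w + t * exp (φ * I)) = seg w φ t := by
  rw [segment_eq_image']
  unfold seg
  ext z
  constructor
  · rintro ⟨s, ⟨hs0, hs1⟩, rfl⟩
    refine ⟨s * t, ⟨by positivity, by nlinarith⟩, ?_⟩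
    simp only [real_smul, add_sub_cancel_left]
    push_cast
    ring
  · rintro ⟨s, ⟨hs0, hs1⟩, rfl⟩
    refine ⟨s / t, ⟨by positivity, (div_le_one ht).2 hs1⟩, ?_⟩
    have ht' : (t : ℂ) ≠ 0 := by exact_mod_cast ht.ne'
    simp only [real_smul, add_sub_cancel_left]
    push_cast
    field_simp

theorem V2_seg_rot (p : ℂ) (φ ℓ θ₀ : ℝ) :
    (fun v => exp (-(θ₀ : ℂ) * I) * v) '' seg p φ ℓ =
      seg (exp (-(θ₀ : ℂ) * I) * p) (φ - θ₀) ℓ := by
  unfold seg
  rw [image_image]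
  congr 1
  funext s
  have h1 : exp (((φ - θ₀ : ℝ) : ℂ) * I) = exp (-(θ₀ : ℂ) * I) * exp (φ * I) := by
    rw [← Complex.exp_add]
    congr 1
    push_cast
    ring
  rw [h1]
  ring

theorem V2_core {c : Cfg} (hc : Valid c) (hcon : IsConnected (un c)ᶜ) {G : ℂ → ℂ}
    (hG : Sol c G) : ∃ S : Set ℂ × ℝ → Set ℂ, SMap 0 c G S := by
  classical
  have hE : IsCompact (un c) := hc.isCompact
  have hline : ∀ x ∈ un c, ∃ q : ℝ, ∀ y ∈ connectedComponentIn (un c) x,
      Tendsto (fun z => (exp (-(V2_ang c x : ℂ) * I) * G z).im) (𝓝[(un c)ᶜ] y) (𝓝 q) := by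
    intro x hx
    obtain ⟨h, hh, hxh⟩ := mem_un.1 hx
    obtain ⟨q, hq⟩ := hG.line h hh
    refine ⟨q, fun y hy => ?_⟩
    rw [V2_component hc hh hxh] at hy
    rw [V2_ang_eq hc hh hxh]
    refine Tendsto.mono_left hq ?_
    unfold nearIn
    exact inf_le_inf_right _ (nhds_le_nhdsSet hy)
  have hS := RSM.isSlitMap_of_lines hE hcon.isPreconnected hG.diff hG.inj hG.lim hline
  have hB : IsCompact (G '' (un c)ᶜ)ᶜ := RSM.isCompact_compl_image hE hG.diff hG.inj hG.lim
  -- the segments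
  have key1 : ∀ h ∈ c, ∃ p ∈ (G '' (un c)ᶜ)ᶜ,
      RSM.Corr (un c) G h.1 (connectedComponentIn (G '' (un c)ᶜ)ᶜ p) := by
    intro h hh
    obtain ⟨x, hx⟩ := (hc.conn h hh).nonempty
    obtain ⟨p, hp, hcor⟩ := hS.exists_right x (subset_un hh hx)
    rw [V2_component hc hh hx] at hcor
    exact ⟨p, hp, hcor⟩
  choose! p hpB hcor using key1
  have hKc : ∀ p, IsCompact (connectedComponentIn (G '' (un c)ᶜ)ᶜ p) := fun p =>
    RSM.isCompact_component hB p
  have hKne : ∀ p ∈ (G '' (un c)ᶜ)ᶜ, (connectedComponentIn (G '' (un c)ᶜ)ᶜ p).Nonempty :=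
    fun p hp => ⟨p, mem_connectedComponentIn hp⟩
  -- components which meet are equal
  have hmeet : ∀ p q z, z ∈ connectedComponentIn (G '' (un c)ᶜ)ᶜ p →
      z ∈ connectedComponentIn (G '' (un c)ᶜ)ᶜ q →
      connectedComponentIn (G '' (un c)ᶜ)ᶜ p = connectedComponentIn (G '' (un c)ᶜ)ᶜ q := by
    intro p q z h1 h2
    rw [connectedComponentIn_eq h1, connectedComponentIn_eq h2]
  -- uniqueness
  have huniq : ∀ (K : Set ℂ) (p q : ℂ), p ∈ (G '' (un c)ᶜ)ᶜ → q ∈ (G '' (un c)ᶜ)ᶜ →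
      RSM.Corr (un c) G K (connectedComponentIn (G '' (un c)ᶜ)ᶜ p) →
      RSM.Corr (un c) G K (connectedComponentIn (G '' (un c)ᶜ)ᶜ q) →
      connectedComponentIn (G '' (un c)ᶜ)ᶜ p = connectedComponentIn (G '' (un c)ᶜ)ᶜ q := by
    intro K p q hp hq h1 h2
    obtain ⟨z, hz⟩ := RSM.frontier_nonempty (hKc p) (hKne p hp)
    have hzp := (hKc p).isClosed.frontier_subset hz
    exact hmeet p q z hzp (V2_unique (RSM.frontier_component_subset hB.isClosed p hz) hzp
      (hKc q).isClosed (hKne q hq) h1 h2)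
  -- the frontier of a hole
  have hfrh : ∀ h ∈ c, frontier h.1 ⊆ frontier (un c) := by
    intro h hh
    obtain ⟨x, hx⟩ := (hc.conn h hh).nonempty
    have := RSM.frontier_component_subset hE.isClosed x
    rwa [V2_component hc hh hx] at this
  -- disjointness
  have hdisj : ∀ h ∈ c, ∀ h' ∈ c, h ≠ h' →
      Disjoint (connectedComponentIn (G '' (un c)ᶜ)ᶜ (p h))
        (connectedComponentIn (G '' (un c)ᶜ)ᶜ (p h')) := by
    intro h hh h' hh' hne
    rw [Set.disjoint_left]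
    intro z hz hz'
    have heq := hmeet _ _ z hz hz'
    obtain ⟨x, hx⟩ := RSM.frontier_nonempty (hc.compact h hh) (hc.conn h hh).nonempty
    have hxh := (hc.compact h hh).isClosed.frontier_subset hx
    have h1 := hcor h hh
    rw [heq] at h1
    have hx' := V2_unique' (hfrh h hh hx) hxh (hc.compact h' hh').isClosed
      (hc.conn h' hh').nonempty h1 (hcor h' hh')
    exact Set.disjoint_left.1 (hc.disj h hh h' hh' hne) hxh hx'
  -- the union
  have hun : (G '' (un c)ᶜ)ᶜ = ⋃ h ∈ c, connectedComponentIn (G '' (un c)ᶜ)ᶜ (p h) := by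
    apply Subset.antisymm
    · intro z hz
      obtain ⟨x, hx, hcx⟩ := hS.exists_left z hz
      obtain ⟨h, hh, hxh⟩ := mem_un.1 hx
      rw [V2_component hc hh hxh] at hcx
      have heq := huniq h.1 z (p h) hz (hpB h hh) hcx (hcor h hh)
      refine mem_biUnion hh ?_
      rw [← heq]
      exact mem_connectedComponentIn hz
    · exact iUnion₂_subset fun h _ => connectedComponentIn_subset _ _
  have htoS : ∀ h ∈ c, Tendsto G (nearIn (un c)ᶜ h.1)
      (𝓝ˢ (connectedComponentIn (G '' (un c)ᶜ)ᶜ (p h))) := fun h hh =>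
    V2_toS (hc.conn h hh).nonempty (hKc _) (hKne _ (hpB h hh)) (hcor h hh)
  have hofS : ∀ h ∈ c, ∀ U ∈ 𝓝ˢ h.1,
      ∀ᶠ w in 𝓝ˢ (connectedComponentIn (G '' (un c)ᶜ)ᶜ (p h)),
        ∀ z ∈ (un c)ᶜ, G z = w → z ∈ U := fun h hh =>
    V2_ofS (hc.compact h hh) (hc.conn h hh).nonempty (hKne _ (hpB h hh)) (hcor h hh)
  refine ⟨fun h => connectedComponentIn (G '' (un c)ᶜ)ᶜ (p h), hG.diff, hG.inj,
    V2_tend hG.lim, ?_, hdisj, ?_, htoS, hofS⟩
  · intro h hh
    obtain ⟨x, hx⟩ := (hc.conn h hh).nonempty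
    have hcx := hcor h hh
    rw [← V2_component hc hh hx] at hcx
    obtain ⟨w, t, ht, hseg⟩ := hS.slit x (subset_un hh hx) (p h) (hpB h hh) hcx
    rw [V2_ang_eq hc hh hx] at hseg
    rcases ht.eq_or_lt with ht0 | ht0
    · exfalso
      rw [← ht0] at hseg
      simp only [ofReal_zero, zero_mul, add_zero, segment_same] at hseg
      have hwS : w ∈ connectedComponentIn (G '' (un c)ᶜ)ᶜ (p h) := by
        rw [hseg]
        exact mem_singleton w
      have hwB : w ∈ (G '' (un c)ᶜ)ᶜ := connectedComponentIn_subset _ _ hwS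
      have hFc : IsClosed (⋃ h' ∈ c.erase h, connectedComponentIn (G '' (un c)ᶜ)ᶜ (p h')) :=
        ((c.erase h).isCompact_biUnion fun h' _ => hKc _).isClosed
      have hwF : w ∉ ⋃ h' ∈ c.erase h, connectedComponentIn (G '' (un c)ᶜ)ᶜ (p h') := by
        intro hwF
        rw [mem_iUnion₂] at hwF
        obtain ⟨h', hh', hw'⟩ := hwF
        exact Set.disjoint_left.1 (hdisj h hh h' (Finset.mem_of_mem_erase hh')
          (Finset.ne_of_mem_erase hh').symm) hwS hw'
      have hiso : ∀ᶠ v in 𝓝[≠] w, v ∈ G '' (un c)ᶜ := by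
        filter_upwards [self_mem_nhdsWithin,
          nhdsWithin_le_nhds (hFc.isOpen_compl.mem_nhds hwF)] with v hv1 hv2
        by_contra hv
        have hvB : v ∈ (G '' (un c)ᶜ)ᶜ := hv
        rw [hun, mem_iUnion₂] at hvB
        obtain ⟨h', hh', hv'⟩ := hvB
        by_cases hhh : h' = h
        · rw [hhh, hseg] at hv'
          exact hv1 hv'
        · exact hv2 (mem_biUnion (Finset.mem_erase.2 ⟨hhh, hh'⟩) hv')
      have hto := htoS h hh
      have hof := hofS h hh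
      rw [hseg, nhdsSet_singleton] at hto hof
      exact V2_nondeg hE hG.diff hG.inj (hc.compact h hh) (hc.nontriv h hh) (hfrh h hh) hwB
        hiso hto hof
    · refine ⟨w, t, ht0, ?_⟩
      rw [sub_zero, ← V2_seg ht0]
      exact hseg
  · rw [← hun, compl_compl]

theorem V2_rotate {c : Cfg} {G : ℂ → ℂ} {S : Set ℂ × ℝ → Set ℂ} (h : SMap 0 c G S) (θ₀ : ℝ) :
    SMap θ₀ c (fun z => exp (-(θ₀ : ℂ) * I) * G z)
      (fun k => (fun v => exp (-(θ₀ : ℂ) * I) * v) '' S k) := by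
  have he : exp (-(θ₀ : ℂ) * I) ≠ 0 := Complex.exp_ne_zero _
  have hinj : Function.Injective fun v : ℂ => exp (-(θ₀ : ℂ) * I) * v := mul_right_injective₀ he
  have hsurj : Function.Surjective fun v : ℂ => exp (-(θ₀ : ℂ) * I) * v := fun w =>
    ⟨(exp (-(θ₀ : ℂ) * I))⁻¹ * w, by simp only; rw [mul_inv_cancel_left₀ he]⟩
  have hcont : Continuous fun v : ℂ => exp (-(θ₀ : ℂ) * I) * v := by fun_prop
  have hcont' : Continuous fun v : ℂ => (exp (-(θ₀ : ℂ) * I))⁻¹ * v := by fun_prop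
  have hnorm : ‖exp (-(θ₀ : ℂ) * I)‖ = 1 := by
    rw [show -(θ₀ : ℂ) * I = ((-θ₀ : ℝ) : ℂ) * I by push_cast; ring,
      Complex.norm_exp_ofReal_mul_I]
  refine ⟨h.diff.const_mul _, fun x hx y hy hxy => h.inj hx hy (hinj hxy), ?_, ?_, ?_, ?_, ?_,
    ?_⟩
  · have h1 := h.tend
    rw [← Metric.cobounded_eq_cocompact, ← tendsto_norm_atTop_iff_cobounded] at h1 ⊢
    simpa only [norm_mul, hnorm, one_mul] using h1
  · intro k hk
    obtain ⟨p, ℓ, hℓ, hS⟩ := h.isSeg k hk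
    refine ⟨exp (-(θ₀ : ℂ) * I) * p, ℓ, hℓ, ?_⟩
    rw [hS, V2_seg_rot, sub_zero]
  · intro k hk k' hk' hne
    exact (disjoint_image_iff hinj).2 (h.disj k hk k' hk' hne)
  · rw [show (fun z => exp (-(θ₀ : ℂ) * I) * G z) '' (un c)ᶜ =
        (fun v => exp (-(θ₀ : ℂ) * I) * v) '' (G '' (un c)ᶜ) by rw [image_image],
      h.image, image_compl_eq ⟨hinj, hsurj⟩, image_iUnion₂]
  · intro k hk
    exact (hcont.tendsto_nhdsSet (mapsTo_image _ _)).comp (h.toS k hk)
  · intro k hk U hU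
    have h1 := h.ofS k hk U hU
    have h2 : Tendsto (fun v : ℂ => (exp (-(θ₀ : ℂ) * I))⁻¹ * v)
        (𝓝ˢ ((fun v => exp (-(θ₀ : ℂ) * I) * v) '' S k)) (𝓝ˢ (S k)) := by
      refine hcont'.tendsto_nhdsSet ?_
      rintro _ ⟨v, hv, rfl⟩
      simp only
      rw [inv_mul_cancel_left₀ he]
      exact hv
    filter_upwards [h2.eventually h1] with w hw z hz hzw
    refine hw z hz ?_
    rw [← hzw, inv_mul_cancel_left₀ he]

theorem exists_smap_of_connected {c : Cfg} (hc : Valid c) (hcon : IsConnected (un c)ᶜ)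
    {G : ℂ → ℂ} (hG : Sol c G) (θ₀ : ℝ) :
    ∃ S : Set ℂ × ℝ → Set ℂ, SMap θ₀ c (fun z => exp (-(θ₀ : ℂ) * I) * G z) S := by
  obtain ⟨S, hS⟩ := V2_core hc hcon hG
  exact ⟨_, V2_rotate hS θ₀⟩

end RSM2
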