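import Pool.Agent.RSM2.V0
import Pool.Agent.RSM2.V2
import Pool.Agent.Lib.Hurwitz

/-!
# RSM2 module V3: the complement of finitely many disjoint non-separating continua is connected

PROOF of `isConnected_diff` (general topology).  `Ω \ C` is nonempty, as `N \ C` is.  Let `Ω \ C ⊆ U₁ ∪ U₂` with
`U₁, U₂` open, disjoint on `Ω \ C`, both meeting `Ω \ C`; replace `U_i` by `U_i ∩ (Ω \ C)`, open since
`C` is relatively closed.  `N \ C` is connected, so it is contained in one of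
them, say `U₁`.  Then `U₁ ∪ N` and `U₂` are open, disjoint (`U₂ ∩ N ⊆ U₂ ∩ ((N \ C) ∪ C) = ∅`),
nonempty and they cover `Ω` (`C ⊆ N`): contradiction to the connectedness of `Ω`.
PROOF of `Valid.isConnected`.  Induction on the finite set `c`; `un ∅ = ∅`.  Let `c' = insert h c`,
`h ∉ c`, `Ω = (un c)ᶜ` connected, open, `K = h.1 ⊆ Ω`.  Apply V1 and V2 to the configuration
`{h}` (its complement `Kᶜ` is connected by `Valid.compl`): `SMap 0 {h} f S`,
`S h = segment ℝ p q` with `p ≠ q`, `f '' Kᶜ = (segment ℝ p q)ᶜ`.  By `ofS` and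
`exists_ellipse_subset` there is `t > ‖p - q‖` such that `z ∈ Kᶜ`, `‖f z - p‖ + ‖f z - q‖ < t` implies
`z ∈ Ω`.  Let `C₀ = {z ∈ Kᶜ | ‖f z - p‖ + ‖f z - q‖ < t}`: it is the image of the connected set
`{w | ‖p - q‖ < ‖w - p‖ + ‖w - q‖ < t}` (which avoids the segment, `mem_segment_iff`, so it is
in `f '' Kᶜ`) under the continuous inverse of `f`, so it is connected.  `N = C₀ ∪ K ⊆ Ω` is open: `C₀`
is open, and by `toS` a neighbourhood of `K` is contained in `N`.  Apply `isConnected_diff` with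
`C = K`: `Ω \ K = (un c')ᶜ` is connected (`N \ K = C₀`).
-/

open Complex Set Metric Filter Topology MeasureTheory

namespace RSM2

theorem isConnected_diff {Ω N C : Set ℂ} (hΩ : IsConnected Ω) (hΩo : IsOpen Ω) (hN : IsOpen N)
    (hCN : C ⊆ N) (hNΩ : N ⊆ Ω) (hC : IsOpen (Ω \ C)) (hNC : IsConnected (N \ C)) :
    IsConnected (Ω \ C) := by
  have hsub : N \ C ⊆ Ω \ C := fun z hz => ⟨hNΩ hz.1, hz.2⟩
  refine ⟨hNC.nonempty.mono hsub, ?_⟩
  -- the one-sided statement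
  have key : ∀ u v : Set ℂ, IsOpen u → IsOpen v → Ω \ C ⊆ u ∪ v → ((Ω \ C) ∩ v).Nonempty →
      N \ C ⊆ u → ((Ω \ C) ∩ (u ∩ v)).Nonempty := by
    intro u v hu hv huv hvn hNu
    have h1 : Ω ⊆ ((u ∩ (Ω \ C)) ∪ N) ∪ (v ∩ (Ω \ C)) := by
      intro z hz
      by_cases hzC : z ∈ C
      · exact Or.inl (Or.inr (hCN hzC))
      · rcases huv ⟨hz, hzC⟩ with h | h
        · exact Or.inl (Or.inl ⟨h, hz, hzC⟩)
        · exact Or.inr ⟨h, hz, hzC⟩
    obtain ⟨a, ha⟩ := hNC.nonempty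
    obtain ⟨b, hb, hbv⟩ := hvn
    obtain ⟨z, hz, h2 | h2, h3⟩ := hΩ.isPreconnected _ _ ((hu.inter hC).union hN) (hv.inter hC) h1
      ⟨a, hNΩ ha.1, Or.inr ha.1⟩ ⟨b, hb.1, hbv, hb⟩
    · exact ⟨z, h3.2, h2.1, h3.1⟩
    · exact ⟨z, h3.2, hNu ⟨h2, h3.2.2⟩, h3.1⟩
  intro u v hu hv huv hun hvn
  by_cases hdis : ((N \ C) ∩ (u ∩ v)).Nonempty
  · obtain ⟨z, hz, h1⟩ := hdis
    exact ⟨z, hsub hz, h1⟩
  · rcases isPreconnected_iff_subset_of_disjoint.mp hNC.isPreconnected u v hu hv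
      (hsub.trans huv) (Set.not_nonempty_iff_eq_empty.mp hdis) with h | h
    · exact key u v hu hv huv hvn h
    · have h1 := key v u hv hu (by rw [union_comm]; exact huv) hun h
      rw [inter_comm u v]
      exact h1

/-- a neighbourhood of a hole in its complement, described by the slit map -/
theorem Valid.exists_collar {h : Set ℂ × ℝ} (hc : Valid {h}) {Ω : Set ℂ} (hΩ : IsOpen Ω)
    (hK : h.1 ⊆ Ω) : ∃ N : Set ℂ, IsOpen N ∧ h.1 ⊆ N ∧ N ⊆ Ω ∧ IsConnected (N \ h.1) := by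
  have hun : un ({h} : Cfg) = h.1 := by
    ext z
    rw [mem_un]
    simp
  have hcon : IsConnected (un ({h} : Cfg))ᶜ := by
    rw [hun]
    exact hc.compl h (Finset.mem_singleton_self h)
  have hopen : IsOpen (un ({h} : Cfg))ᶜ := hc.isOpen
  obtain ⟨G, hG⟩ := exists_sol_of_connected hc hcon
  obtain ⟨S, hS⟩ := exists_smap_of_connected hc hcon hG 0
  obtain ⟨f, hf⟩ : ∃ f : ℂ → ℂ, f = fun z => exp (-((0 : ℝ) : ℂ) * I) * G z := ⟨_, rfl⟩
  rw [← hf] at hS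
  have hmem : h ∈ ({h} : Cfg) := Finset.mem_singleton_self h
  obtain ⟨p, ℓ, hℓ, hSeg⟩ := hS.isSeg h hmem
  rw [seg_eq_segment p _ hℓ.le] at hSeg
  obtain ⟨q, hq⟩ : ∃ q : ℂ, q = p + ℓ * exp (((h.2 - 0 : ℝ) : ℂ) * I) := ⟨_, rfl⟩
  rw [← hq] at hSeg
  have hpq : p ≠ q := by
    intro he
    rw [he] at hq
    have h1 : (ℓ : ℂ) * exp (((h.2 - 0 : ℝ) : ℂ) * I) = 0 := by
      have := hq
      rw [left_eq_add] at this
      exact this
    rcases mul_eq_zero.mp h1 with h2 | h2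
    · exact hℓ.ne' (by exact_mod_cast h2)
    · exact exp_ne_zero _ h2
  have himage : f '' (un ({h} : Cfg))ᶜ = (segment ℝ p q)ᶜ := by
    rw [hS.image]
    congr 1
    ext z
    simp [hSeg]
  have hto := hS.toS h hmem
  have hof := hS.ofS h hmem Ω (hΩ.mem_nhdsSet.mpr hK)
  rw [hSeg] at hto hof
  rw [hun] at hto hof himage hopen
  have hdiff := hS.diff
  have hinj := hS.inj
  rw [hun] at hdiff hinj
  obtain ⟨V, hV, hsV, hVΩ⟩ := mem_nhdsSet_iff_exists.mp hof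
  obtain ⟨t, ht, htV⟩ := exists_ellipse_subset hV hsV
  obtain ⟨g, hg, -, -, hgf, hfg, -⟩ := Pool.Agent.Lib.Hurwitz.exists_inverse hopen hdiff hinj
  have hA := isConnected_annulus hpq (le_refl ‖p - q‖) ht
  have hAim : {w : ℂ | ‖p - q‖ < ‖w - p‖ + ‖w - q‖ ∧ ‖w - p‖ + ‖w - q‖ < t} ⊆ f '' h.1ᶜ := by
    intro w hw
    rw [himage]
    intro hws
    have h1 := mem_segment_iff.mp hws
    have h2 := hw.1
    rw [h1] at h2
    exact lt_irrefl _ h2
  have hC0 : {z : ℂ | z ∈ h.1ᶜ ∧ ‖f z - p‖ + ‖f z - q‖ < t} =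
      g '' {w : ℂ | ‖p - q‖ < ‖w - p‖ + ‖w - q‖ ∧ ‖w - p‖ + ‖w - q‖ < t} := by
    ext z
    constructor
    · rintro ⟨hz, hzt⟩
      refine ⟨f z, ⟨?_, hzt⟩, hgf z hz⟩
      have h1 : f z ∈ (segment ℝ p q)ᶜ := by
        rw [← himage]
        exact mem_image_of_mem f hz
      have h2 : ‖f z - p‖ + ‖f z - q‖ ≠ ‖p - q‖ := fun he => h1 (mem_segment_iff.mpr he)
      have h3 : ‖p - q‖ ≤ ‖f z - p‖ + ‖f z - q‖ := by
        calc ‖p - q‖ = ‖(f z - q) - (f z - p)‖ := by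
              congr 1
              ring
          _ ≤ ‖f z - q‖ + ‖f z - p‖ := norm_sub_le _ _
          _ = _ := add_comm _ _
      exact lt_of_le_of_ne h3 h2.symm
    · rintro ⟨w, hw, rfl⟩
      obtain ⟨z, hz, rfl⟩ := hAim hw
      rw [hgf z hz]
      exact ⟨hz, hw.2⟩
  have hC0con : IsConnected {z : ℂ | z ∈ h.1ᶜ ∧ ‖f z - p‖ + ‖f z - q‖ < t} := by
    rw [hC0]
    exact hA.image g (hg.continuousOn.mono hAim)
  have hC0open : IsOpen {z : ℂ | z ∈ h.1ᶜ ∧ ‖f z - p‖ + ‖f z - q‖ < t} := by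
    have h1 : ContinuousOn (fun z => ‖f z - p‖ + ‖f z - q‖) h.1ᶜ :=
      ((hdiff.continuousOn.sub continuousOn_const).norm).add
        ((hdiff.continuousOn.sub continuousOn_const).norm)
    exact h1.isOpen_inter_preimage hopen isOpen_Iio
  have h5 : {w : ℂ | ‖w - p‖ + ‖w - q‖ < t} ∈ 𝓝ˢ (segment ℝ p q) := by
    apply IsOpen.mem_nhdsSet _ |>.mpr
    · intro w hw
      have := mem_segment_iff.mp hw
      simp only [mem_ofPred_eq]
      rw [this]
      exact ht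
    · exact isOpen_lt (by fun_prop) continuous_const
  obtain ⟨U, hU, hKU, hUt⟩ := eventually_nearIn.mp (hto h5)
  refine ⟨{z : ℂ | z ∈ h.1ᶜ ∧ ‖f z - p‖ + ‖f z - q‖ < t} ∪ h.1, ?_, subset_union_right, ?_, ?_⟩
  · have h6 : {z : ℂ | z ∈ h.1ᶜ ∧ ‖f z - p‖ + ‖f z - q‖ < t} ∪ h.1 =
        {z : ℂ | z ∈ h.1ᶜ ∧ ‖f z - p‖ + ‖f z - q‖ < t} ∪ U := by
      apply Subset.antisymm
      · exact union_subset_union_right _ hKU
      · rintro z (hz | hz)
        · exact Or.inl hz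
        · by_cases hzK : z ∈ h.1
          · exact Or.inr hzK
          · exact Or.inl ⟨hzK, hUt z ⟨hz, hzK⟩⟩
    rw [h6]
    exact hC0open.union hU
  · rintro z (hz | hz)
    · exact hVΩ (htV (le_of_lt hz.2)) z hz.1 rfl
    · exact hK hz
  · have h7 : ({z : ℂ | z ∈ h.1ᶜ ∧ ‖f z - p‖ + ‖f z - q‖ < t} ∪ h.1) \ h.1 =
        {z : ℂ | z ∈ h.1ᶜ ∧ ‖f z - p‖ + ‖f z - q‖ < t} := by
      ext z
      constructor
      · rintro ⟨hz | hz, hz2⟩
        · exact hz
        · exact absurd hz hz2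
      · intro hz
        exact ⟨Or.inl hz, hz.1⟩
    rw [h7]
    exact hC0con

theorem Valid.isConnected {c : Cfg} (hc : Valid c) : IsConnected (un c)ᶜ := by
  classical
  induction c using Finset.induction_on with
  | empty =>
    rw [un_empty, compl_empty]
    exact isConnected_univ
  | insert h c hhc ih =>
    have hcv : Valid c := hc.mono (Finset.subset_insert h c)
    have hhv : Valid {h} := hc.mono (by
      intro k hk
      rw [Finset.mem_singleton] at hk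
      rw [hk]
      exact Finset.mem_insert_self h c)
    have hΩ := ih hcv
    have hKΩ : h.1 ⊆ (un c)ᶜ := by
      intro z hz hzc
      obtain ⟨k, hk, hzk⟩ := mem_un.mp hzc
      have hne : h ≠ k := fun he => hhc (he ▸ hk)
      exact Set.disjoint_left.mp (hc.disj h (Finset.mem_insert_self h c) k
        (Finset.mem_insert_of_mem hk) hne) hz hzk
    obtain ⟨N, hN, hKN, hNΩ, hNK⟩ := hhv.exists_collar hcv.isOpen hKΩ
    have he : (un (insert h c))ᶜ = (un c)ᶜ \ h.1 := by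
      ext z
      simp only [mem_compl_iff, Set.mem_sdiff, mem_un, Finset.mem_insert]
      constructor
      · intro h1
        exact ⟨fun ⟨k, hk, hz⟩ => h1 ⟨k, Or.inr hk, hz⟩, fun hz => h1 ⟨h, Or.inl rfl, hz⟩⟩
      · rintro ⟨h1, h2⟩ ⟨k, hk | hk, hz⟩
        · exact h2 (hk ▸ hz)
        · exact h1 ⟨k, hk, hz⟩
    have hop : IsOpen ((un c)ᶜ \ h.1) := by
      rw [← he]
      exact hc.isOpen
    rw [he]
    exact isConnected_diff hΩ hcv.isOpen hN hKN hNΩ hop hNK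

theorem exists_sol {c : Cfg} (hc : Valid c) : ∃ G : ℂ → ℂ, Sol c G :=
  exists_sol_of_connected hc hc.isConnected

theorem exists_smap {c : Cfg} (hc : Valid c) {G : ℂ → ℂ} (hG : Sol c G) (θ₀ : ℝ) :
    ∃ S : Set ℂ × ℝ → Set ℂ, SMap θ₀ c (fun z => exp (-(θ₀ : ℂ) * I) * G z) S :=
  exists_smap_of_connected hc hc.isConnected hG θ₀

end RSM2
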