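import Pool.Agent.RSM2.J6
import Pool.Agent.RSM.C1

/-!
# RSM2 module V4: area theorem and growth of univalent functions near infinity

`f` is holomorphic and injective on `{r < ‖z‖}`, `f z - z → 0` at infinity.

PROOF of `area_outside`.  Let `g = f - id`, `g z → 0`.  There are `b ∈ ℂ`, `κ > 0` with
`‖g z - b / z‖ ≤ κ / ‖z‖²` for `‖z‖ ≥ 2r` (`k w = g (1/w)`, `k 0 = 0`, is holomorphic near `0`).
Let `ρ > r` and let `R` be large.  Put `L_R z = z + (b/R²) conj z`, a real linear map with determinant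
`1 - ‖b‖²/R⁴ ∈ (0, 1]`, invertible with `‖L_R⁻¹‖ ≤ 2`.  For `‖z‖ = R` one has `conj z = R²/z`, so
`‖f z - L_R z‖ ≤ κ/R²` and `‖L_R⁻¹ (f z) - z‖ ≤ 2κ/R²`.  Let `B = L_R '' closedBall 0 (R + 3κ/R²)`; so
`f (sphere 0 R) ⊆ L_R '' ball 0 (R + 3κ/R²)`.
CLAIM: `Bᶜ ⊆ f '' {R < ‖z‖}`.  `Bᶜ` is connected (image of `{R + 3κ/R² < ‖z‖}` under the homeomorphism
`L_R`); `f '' {R < ‖z‖}` is open, meets `Bᶜ` (unbounded), and `f '' {R < ‖z‖} ∩ Bᶜ` is relatively
closed in `Bᶜ`: if `f (z n) → w ∈ Bᶜ` with `‖z n‖ > R` then `z n` is bounded, a subsequence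
converges to `z`, `‖z‖ ≥ R`, `f z = w`, and `‖z‖ = R` is impossible.
So `f '' {ρ < ‖z‖ < R} ⊆ B` (injectivity) and by the area formula
`∫_{ρ < ‖z‖ < R} ‖f'‖² ≤ volume B = (1 - ‖b‖²/R⁴) π (R + 3κ/R²)² ≤ π R² + 7πκ/R` for large `R`.
The left side is `∫ (1 + 2 Re g' + ‖g'‖²) = π (R² - ρ²) + ∫_{ρ < ‖z‖ < R} ‖g'‖²` since the integral of
`g'` over every circle `‖z‖ = t`, `t > r`, with respect to the angle vanishes
(`RSM.mean_deriv_zero`; polar coordinates).  Let `R → ∞`: `∫_{ρ < ‖z‖} ‖g'‖² ≤ π ρ²`; let `ρ → r`.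
PROOF of `growth_far`.  Mean value property (or sub-mean value property of `‖g'‖²`) on
`ball z (‖z‖ - r)`: `π (‖z‖ - r)² ‖g' z‖² ≤ ∫ ‖g'‖² ≤ π r²`.  (Cauchy-Schwarz for the mean of `g'` over
the disc.)  So `‖g' z‖ ≤ 1` for `‖z‖ = 2r`, i.e. `‖z² g' z‖ ≤ 4r²` there; `z² g' z` has a
removable singularity at infinity (bounded: `z g' → 0`..., in terms of `k`: `z² g' z = -k' (1/z)`),
by the maximum principle `‖z² g' z‖ ≤ 4r²` for `‖z‖ ≥ 2r`.  Integrate from `z` to infinity along the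
ray: `‖g z‖ ≤ ∫_{‖z‖}^∞ 4r²/t² dt = 4r²/‖z‖`.
PROOF of `growth_near`.  For `‖z‖ = 2r`, `‖f z‖ ≤ 4r`.  As in the claim, `{4r < ‖w‖} ⊆ f '' {2r < ‖z‖}`
(or by `RSM` module G3, `image_nhds_infty`).  If `‖z‖ ≤ 2r`, `z ∉ E`, then `f z` is not in this image
by injectivity.
-/

open Complex Set Metric Filter Topology MeasureTheory

namespace RSM2

private theorem v4_preconn {R : ℝ} (hR : 0 < R) : IsPreconnected {z : ℂ | R < ‖z‖} := by
  have h : {z : ℂ | R < ‖z‖} = exp '' {w : ℂ | Real.log R < w.re} := by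
    ext z
    constructor
    · intro hz
      have hz' : R < ‖z‖ := hz
      have hz0 : z ≠ 0 := norm_pos_iff.mp (hR.trans hz')
      refine ⟨log z, ?_, exp_log hz0⟩
      show Real.log R < (log z).re
      rw [Complex.log_re]
      exact Real.log_lt_log hR hz'
    · rintro ⟨w, hw, rfl⟩
      show R < ‖exp w‖
      rw [Complex.norm_exp]
      exact (Real.log_lt_iff_lt_exp hR).mp hw
  rw [h]
  have hc : Convex ℝ {w : ℂ | Real.log R < w.re} := convex_halfSpace_re_gt _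
  exact hc.isPreconnected.image _ continuous_exp.continuousOn

private theorem v4_open (R : ℝ) : IsOpen {z : ℂ | R < ‖z‖} :=
  isOpen_lt continuous_const continuous_norm

private theorem v4_tail {f : ℂ → ℂ} (hlim : Tendsto (fun z => f z - z) (cocompact ℂ) (𝓝 0)) :
    ∃ R3 : ℝ, ∀ z : ℂ, R3 < ‖z‖ → ‖f z - z‖ < 1 := by
  have h1 : ∀ᶠ z in cocompact ℂ, ‖f z - z‖ < 1 := by
    have := hlim.norm
    rw [norm_zero] at this
    exact this.eventually (gt_mem_nhds one_pos)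
  obtain ⟨K, hK, hKs⟩ := mem_cocompact.1 h1
  obtain ⟨R3, hR3⟩ := hK.isBounded.subset_closedBall 0
  refine ⟨R3, fun z hz => hKs ?_⟩
  intro hzK
  have := hR3 hzK
  rw [mem_closedBall_zero_iff] at this
  linarith

private theorem v4_cover {f : ℂ → ℂ} {r R : ℝ} (hr : 0 < r) (hrR : r < R)
    (hf : DifferentiableOn ℂ f {z | r < ‖z‖}) (hinj : InjOn f {z | r < ‖z‖})
    (hlim : Tendsto (fun z => f z - z) (cocompact ℂ) (𝓝 0)) {B : Set ℂ}
    (hB : Bornology.IsBounded B) (hBc : IsPreconnected Bᶜ)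
    (hs : ∀ z, ‖z‖ = R → f z ∈ B) : Bᶜ ⊆ f '' {z | R < ‖z‖} := by
  have hsub : {z : ℂ | R < ‖z‖} ⊆ {z | r < ‖z‖} := fun z hz => hrR.trans hz
  have hfAo : IsOpen (f '' {z : ℂ | R < ‖z‖}) :=
    Pool.Agent.Lib.Hurwitz.isOpen_image_of_injOn (v4_open R) (hf.mono hsub) (hinj.mono hsub)
  obtain ⟨R3, hR3⟩ := v4_tail hlim
  obtain ⟨R', hR'⟩ := hB.subset_closedBall 0
  refine hBc.subset_of_closure_inter_subset hfAo ?_ ?_
  · set z : ℂ := ((|R| + |R'| + |R3| + 2 : ℝ) : ℂ) with hz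
    have hzn : ‖z‖ = |R| + |R'| + |R3| + 2 := by
      rw [hz, norm_real, Real.norm_of_nonneg (by positivity)]
    have a1 := le_abs_self R
    have a2 := le_abs_self R'
    have a3 := le_abs_self R3
    have b1 := abs_nonneg R
    have b2 := abs_nonneg R'
    have b3 := abs_nonneg R3
    have h1 := hR3 z (by rw [hzn]; linarith)
    refine ⟨f z, ?_, z, ?_, rfl⟩
    · intro hfz
      have h3 := hR' hfz
      rw [mem_closedBall_zero_iff] at h3
      have h2 := norm_sub_norm_le z (z - f z)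
      rw [sub_sub_cancel, norm_sub_rev z (f z)] at h2
      rw [hzn] at h2
      linarith
    · show R < ‖z‖
      rw [hzn]
      linarith
  · rintro w ⟨hwc, hwB⟩
    obtain ⟨y, hy, hyw⟩ := mem_closure_iff_seq_limit.1 hwc
    choose z hz hzy using hy
    obtain ⟨M, hM⟩ := (hyw.norm).bddAbove_range
    have hbd : ∀ n, z n ∈ closedBall (0 : ℂ) (max R3 (M + 1)) := by
      intro n
      rw [mem_closedBall_zero_iff]
      rcases le_or_gt ‖z n‖ R3 with h | h
      · exact h.trans (le_max_left _ _)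
      · refine le_trans ?_ (le_max_right _ _)
        have h1 := hR3 (z n) h
        have h2 : ‖y n‖ ≤ M := hM ⟨n, rfl⟩
        have h3 := norm_sub_norm_le (z n) (f (z n))
        rw [norm_sub_rev, hzy n] at h3
        rw [hzy n] at h1
        linarith
    obtain ⟨z₀, -, φ, hφ, hlimz⟩ := (isCompact_closedBall (0 : ℂ) _).tendsto_subseq hbd
    have hz₀ : R ≤ ‖z₀‖ :=
      ge_of_tendsto' hlimz.norm fun n => le_of_lt (hz (φ n))
    have hz₀r : z₀ ∈ {z : ℂ | r < ‖z‖} := lt_of_lt_of_le hrR hz₀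
    have hfz : f z₀ = w := by
      have h1 : Tendsto (fun n => f (z (φ n))) atTop (𝓝 (f z₀)) :=
        ((hf.continuousOn.continuousAt ((v4_open r).mem_nhds hz₀r)).tendsto).comp hlimz
      have h2 : Tendsto (fun n => f (z (φ n))) atTop (𝓝 w) := by
        have h3 := hyw.comp hφ.tendsto_atTop
        refine h3.congr fun n => ?_
        exact (hzy (φ n)).symm
      exact tendsto_nhds_unique h1 h2
    refine ⟨z₀, ?_, hfz⟩
    show R < ‖z₀‖
    refine lt_of_le_of_ne hz₀ fun h => ?_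
    have h1 := hs z₀ h.symm
    rw [hfz] at h1
    exact hwB h1

private theorem v4_inv {g : ℂ → ℂ} {r : ℝ} (hr : 0 < r)
    (hg : DifferentiableOn ℂ g {z | r < ‖z‖}) (h0 : Tendsto g (cocompact ℂ) (𝓝 0)) :
    ∃ k : ℂ → ℂ, DifferentiableOn ℂ k (ball 0 r⁻¹) ∧ k 0 = 0 ∧ ∀ w, w ≠ 0 → k w = g w⁻¹ := by
  classical
  obtain ⟨k, hk⟩ : ∃ k : ℂ → ℂ, k = fun w => if w = 0 then 0 else g w⁻¹ := ⟨_, rfl⟩
  have hk0 : k 0 = 0 := by rw [hk]; simp
  have hk1 : ∀ w, w ≠ 0 → k w = g w⁻¹ := fun w hw => by rw [hk]; simp [hw]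
  have hnhds : ball (0 : ℂ) r⁻¹ ∈ 𝓝 (0 : ℂ) := ball_mem_nhds _ (inv_pos.mpr hr)
  have hd1 : DifferentiableOn ℂ k (ball 0 r⁻¹ \ {0}) := by
    intro w hw
    have hw0 : w ≠ 0 := hw.2
    have hw1 : r < ‖w⁻¹‖ := by
      have h1 := hw.1
      rw [mem_ball, dist_zero_right] at h1
      rw [norm_inv]
      exact (lt_inv_comm₀ hr (norm_pos_iff.mpr hw0)).mpr h1
    have h2 : DifferentiableAt ℂ (fun w => g w⁻¹) w :=
      ((hg w⁻¹ hw1).differentiableAt ((v4_open r).mem_nhds hw1)).comp w (differentiableAt_inv hw0)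
    refine (h2.congr_of_eventuallyEq ?_).differentiableWithinAt
    filter_upwards [isOpen_ne.mem_nhds hw0] with v hv
    exact hk1 v hv
  have hc1 : ContinuousAt k 0 := by
    rw [continuousAt_iff_punctured_nhds, hk0]
    have h1 : Tendsto (fun w : ℂ => g w⁻¹) (𝓝[≠] 0) (𝓝 0) := by
      have h2 := tendsto_inv₀_nhdsNE_zero (α := ℂ)
      rw [Metric.cobounded_eq_cocompact] at h2
      exact h0.comp h2
    refine h1.congr' ?_
    filter_upwards [self_mem_nhdsWithin] with w hw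
    exact (hk1 w hw).symm
  exact ⟨k, (Complex.differentiableOn_compl_singleton_and_continuousAt_iff hnhds).mp ⟨hd1, hc1⟩,
    hk0, hk1⟩

private theorem v4_laurent {g : ℂ → ℂ} {r : ℝ} (hr : 0 < r)
    (hg : DifferentiableOn ℂ g {z | r < ‖z‖}) (h0 : Tendsto g (cocompact ℂ) (𝓝 0)) :
    ∃ b : ℂ, ∃ κ : ℝ, 0 < κ ∧ ∀ z, 2 * r ≤ ‖z‖ → ‖g z - b / z‖ ≤ κ / ‖z‖ ^ 2 := by
  obtain ⟨k, hkd, hk0, hk1⟩ := v4_inv hr hg h0
  have hnhds : ball (0 : ℂ) r⁻¹ ∈ 𝓝 (0 : ℂ) := ball_mem_nhds _ (inv_pos.mpr hr)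
  have hd1 : DifferentiableOn ℂ (dslope k 0) (ball 0 r⁻¹) :=
    (Complex.differentiableOn_dslope hnhds).mpr hkd
  have hd2 : DifferentiableOn ℂ (dslope (dslope k 0) 0) (ball 0 r⁻¹) :=
    (Complex.differentiableOn_dslope hnhds).mpr hd1
  have hlt : (2 * r)⁻¹ < r⁻¹ := inv_strictAnti₀ hr (by linarith)
  obtain ⟨C, hC⟩ := (isCompact_closedBall (0 : ℂ) (2 * r)⁻¹).exists_bound_of_continuousOn
    (hd2.continuousOn.mono (closedBall_subset_ball hlt))
  refine ⟨dslope k 0 0, max C 1, lt_of_lt_of_le one_pos (le_max_right _ _), fun z hz => ?_⟩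
  have hzp : 0 < ‖z‖ := by linarith
  have hz0 : z ≠ 0 := norm_pos_iff.mp hzp
  have hwz : z⁻¹ ≠ 0 := inv_ne_zero hz0
  have hw : z⁻¹ ∈ closedBall (0 : ℂ) (2 * r)⁻¹ := by
    rw [mem_closedBall_zero_iff, norm_inv]
    exact inv_anti₀ (by linarith) hz
  have e1 : dslope k 0 z⁻¹ = g z * z := by
    rw [dslope_of_ne _ hwz, slope_def_field, hk0, hk1 _ hwz, inv_inv, sub_zero, sub_zero,
      div_inv_eq_mul]
  have e2 : dslope (dslope k 0) 0 z⁻¹ = (g z * z - dslope k 0 0) * z := by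
    rw [dslope_of_ne _ hwz, slope_def_field, e1, sub_zero, div_inv_eq_mul]
  have e3 : g z - dslope k 0 0 / z = dslope (dslope k 0) 0 z⁻¹ / z ^ 2 := by
    rw [e2]
    field_simp
  rw [e3, norm_div, norm_pow]
  exact div_le_div_of_nonneg_right ((hC _ hw).trans (le_max_left _ _)) (by positivity)

private theorem v4_polar_zero {G : ℂ → ℂ}
    (hG : ∀ r : ℝ, 0 < r → ∫ t in (0 : ℝ)..(2 * Real.pi), G (r * exp (t * I)) = 0) :
    ∫ z, G z = 0 := by
  rw [← Complex.integral_comp_polarCoord_symm]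
  by_cases hi : IntegrableOn (fun p : ℝ × ℝ => p.1 • G (Complex.polarCoord.symm p))
      polarCoord.target
  · rw [polarCoord_target] at hi ⊢
    rw [Measure.volume_eq_prod] at hi ⊢
    rw [setIntegral_prod _ hi]
    have h1 : ∀ r ∈ Ioi (0 : ℝ), ∫ t in Ioo (-Real.pi) Real.pi,
        (r, t).1 • G (Complex.polarCoord.symm (r, t)) = 0 := by
      intro r hr
      have h2 : ∀ t : ℝ, (r, t).1 • G (Complex.polarCoord.symm (r, t)) =
          r • G (r * exp (t * I)) := by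
        intro t
        rw [Complex.polarCoord_symm_apply, exp_mul_I]
        simp
      simp only [h2]
      rw [integral_smul, ← integral_Ioc_eq_integral_Ioo,
        ← intervalIntegral.integral_of_le (by linarith [Real.pi_pos])]
      have hper : Function.Periodic (fun t : ℝ => G (r * exp (t * I))) (2 * Real.pi) := by
        intro t
        show G (r * exp (((t + 2 * Real.pi : ℝ) : ℂ) * I)) = G (r * exp (t * I))
        congr 2
        push_cast
        rw [add_mul, exp_add, exp_two_pi_mul_I, mul_one]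
      have h3 := hper.intervalIntegral_add_eq (-Real.pi) 0
      rw [zero_add, show -Real.pi + 2 * Real.pi = Real.pi by ring] at h3
      rw [h3, hG r hr, smul_zero]
    rw [setIntegral_congr_fun measurableSet_Ioi h1]
    simp
  · exact integral_undef hi

/-- the integral of `1 + 2 Re h + ‖h‖²` when the mean of `h` vanishes -/
private theorem v4_expand {h : ℂ → ℂ} {S : Set ℂ} (hfin : volume S < ⊤)
    (hi : IntegrableOn h S) (hi2 : IntegrableOn (fun z => ‖h z‖ ^ 2) S)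
    (h0 : ∫ z in S, h z = 0) (a : ℂ) :
    ∫ z in S, ‖a + h z‖ ^ 2 = ‖a‖ ^ 2 * (volume S).toReal + ∫ z in S, ‖h z‖ ^ 2 := by
  have e1 : ∀ z, ‖a + h z‖ ^ 2 = ‖a‖ ^ 2 + 2 * ((starRingEnd ℂ) a * h z).re + ‖h z‖ ^ 2 := by
    intro z
    rw [← Complex.normSq_eq_norm_sq, ← Complex.normSq_eq_norm_sq, ← Complex.normSq_eq_norm_sq,
      Complex.normSq_add]
    have e2 : (a * (starRingEnd ℂ) (h z)).re = ((starRingEnd ℂ) a * h z).re := by
      simp only [Complex.mul_re, Complex.conj_re, Complex.conj_im]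
      ring
    rw [e2]
    ring
  have hi3 : IntegrableOn (fun z => (starRingEnd ℂ) a * h z) S := hi.const_mul _
  have hi4 : IntegrableOn (fun z => ((starRingEnd ℂ) a * h z).re) S := hi3.re
  have hc : IntegrableOn (fun _ : ℂ => ‖a‖ ^ 2) S := integrableOn_const hfin.ne
  simp only [e1]
  have hi5 : IntegrableOn (fun z => 2 * ((starRingEnd ℂ) a * h z).re) S := hi4.const_mul 2
  have hi6 : IntegrableOn (fun z => ‖a‖ ^ 2 + 2 * ((starRingEnd ℂ) a * h z).re) S := hc.add hi5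
  rw [integral_add hi6 hi2, integral_add hc hi5, integral_const_mul]
  have e3 : ∫ z in S, ((starRingEnd ℂ) a * h z).re = 0 := by
    have e4 : ∫ z in S, ((starRingEnd ℂ) a * h z).re =
        (∫ z in S, (starRingEnd ℂ) a * h z).re := integral_re hi3
    rw [e4, integral_const_mul, h0, mul_zero, Complex.zero_re]
  rw [e3, mul_zero, add_zero, setIntegral_const, smul_eq_mul, Measure.real, mul_comm]

private theorem v4_det (β : ℂ) :
    LinearMap.det (LinearMap.id + (LinearMap.mulLeft ℝ β).comp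
      Complex.conjAe.toLinearMap : ℂ →ₗ[ℝ] ℂ) = 1 - ‖β‖ ^ 2 := by
  rw [← LinearMap.det_toMatrix Complex.basisOneI, Matrix.det_fin_two]
  simp only [LinearMap.toMatrix_apply, Complex.coe_basisOneI_repr, Complex.coe_basisOneI]
  rw [← Complex.normSq_eq_norm_sq, Complex.normSq_apply]
  simp
  ring

private theorem v4_ellipse {f : ℂ → ℂ} {r : ℝ} (hr : 0 < r)
    (hf : DifferentiableOn ℂ f {z | r < ‖z‖}) (hinj : InjOn f {z | r < ‖z‖})
    (hlim : Tendsto (fun z => f z - z) (cocompact ℂ) (𝓝 0)) {b : ℂ} {κ : ℝ} (hκ : 0 < κ)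
    (hb : ∀ z, 2 * r ≤ ‖z‖ → ‖f z - z - b / z‖ ≤ κ / ‖z‖ ^ 2) {R : ℝ} (hR : 2 * r ≤ R)
    (hR2 : 2 * ‖b‖ ≤ R ^ 2) :
    ∃ B : Set ℂ, Bornology.IsBounded B ∧ f '' {z | r < ‖z‖ ∧ ‖z‖ < R} ⊆ B ∧
      volume B ≤ ENNReal.ofReal (Real.pi * (R + 3 * κ / R ^ 2) ^ 2) := by
  have hR0 : 0 < R := by linarith
  obtain ⟨β, hβ⟩ : ∃ β : ℂ, β = b / (R : ℂ) ^ 2 := ⟨_, rfl⟩
  have hβn : ‖β‖ ≤ 1 / 2 := by
    rw [hβ, norm_div, norm_pow, Complex.norm_real, Real.norm_of_nonneg hR0.le,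
      div_le_div_iff₀ (by positivity) (by norm_num)]
    linarith
  have hβ0 := norm_nonneg β
  have hβ2 : ‖β‖ ^ 2 ≤ 1 / 4 := by nlinarith
  obtain ⟨L, hL⟩ : ∃ L : ℂ →ₗ[ℝ] ℂ, L = LinearMap.id + (LinearMap.mulLeft ℝ β).comp
      Complex.conjAe.toLinearMap := ⟨_, rfl⟩
  have hLa : ∀ z, L z = z + β * (starRingEnd ℂ) z := by
    intro z
    rw [hL]
    simp
  have hdet : |LinearMap.det L| ≤ 1 := by
    rw [hL, v4_det, abs_of_nonneg (by linarith)]
    nlinarith
  obtain ⟨Li, hLi⟩ : ∃ Li : ℂ → ℂ, Li = fun w => (w - β * (starRingEnd ℂ) w) /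
      ((1 - ‖β‖ ^ 2 : ℝ) : ℂ) := ⟨_, rfl⟩
  have hne : ((1 - ‖β‖ ^ 2 : ℝ) : ℂ) ≠ 0 := by
    rw [Complex.ofReal_ne_zero]
    linarith
  have hββ : β * (starRingEnd ℂ) β = ((‖β‖ ^ 2 : ℝ) : ℂ) := by
    rw [Complex.mul_conj, Complex.normSq_eq_norm_sq]
  have h1 : ∀ w, L (Li w) = w := by
    intro w
    rw [hLa, hLi]
    simp only [map_div₀, map_sub, map_mul, Complex.conj_conj, Complex.conj_ofReal]
    field_simp
    push_cast at hββ ⊢
    linear_combination (-w) * hββ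
  have h2 : ∀ w, Li (L w) = w := by
    intro w
    rw [hLi]
    simp only [hLa]
    rw [div_eq_iff hne]
    simp only [map_add, map_mul, Complex.conj_conj]
    push_cast at hββ ⊢
    linear_combination (-w) * hββ
  have hbij : Function.Bijective L :=
    ⟨Function.LeftInverse.injective h2, Function.RightInverse.surjective h1⟩
  have h3 : ∀ w, ‖Li w‖ ≤ 2 * ‖w‖ := by
    intro w
    rw [hLi]
    simp only
    rw [norm_div, Complex.norm_real, Real.norm_of_nonneg (by linarith),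
      div_le_iff₀ (by linarith)]
    have h4 : ‖w - β * (starRingEnd ℂ) w‖ ≤ ‖w‖ + ‖β‖ * ‖w‖ := by
      refine (norm_sub_le _ _).trans ?_
      rw [norm_mul, Complex.norm_conj]
    have h5 := norm_nonneg w
    nlinarith [mul_nonneg h5 (by linarith : (0 : ℝ) ≤ 1 / 2 - ‖β‖)]
  have hLc : Continuous L := L.continuous_of_finiteDimensional
  obtain ⟨R₁, hR₁⟩ : ∃ R₁ : ℝ, R₁ = R + 3 * κ / R ^ 2 := ⟨_, rfl⟩
  have hR₁0 : 0 < R₁ := by rw [hR₁]; positivity
  refine ⟨L '' closedBall 0 R₁, ?_, ?_, ?_⟩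
  · exact ((isCompact_closedBall (0 : ℂ) R₁).image hLc).isBounded
  · have hsph : ∀ z, ‖z‖ = R → f z ∈ L '' closedBall 0 R₁ := by
      intro z hz
      have hzp : 0 < ‖z‖ := by rw [hz]; exact hR0
      have hz0 : z ≠ 0 := norm_pos_iff.mp hzp
      have e1 : b / z = β * (starRingEnd ℂ) z := by
        have e2 : z * (starRingEnd ℂ) z = (R : ℂ) ^ 2 := by
          rw [Complex.mul_conj, Complex.normSq_eq_norm_sq, hz]
          push_cast
          ring
        have e3 : (R : ℂ) ≠ 0 := by exact_mod_cast hR0.ne'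
        rw [hβ, div_eq_iff hz0]
        field_simp
        linear_combination (-b) * e2
      have e4 := hb z (by rw [hz]; exact hR)
      rw [e1, hz] at e4
      refine ⟨Li (f z), ?_, h1 _⟩
      have e5 : Li (f z) = z + Li (f z - L z) := by
        apply hbij.injective
        rw [h1, map_add, h1]
        ring
      rw [mem_closedBall_zero_iff, e5]
      refine (norm_add_le _ _).trans ?_
      have e6 := h3 (f z - L z)
      have e7 : f z - L z = f z - z - β * (starRingEnd ℂ) z := by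
        rw [hLa]; ring
      rw [e7] at e6 ⊢
      have e8 : (0 : ℝ) ≤ κ / R ^ 2 := by positivity
      have e9 : 3 * κ / R ^ 2 = 3 * (κ / R ^ 2) := by ring
      rw [hz, hR₁, e9]
      linarith
    have hcompl : (L '' closedBall 0 R₁)ᶜ = L '' {z | R₁ < ‖z‖} := by
      rw [← image_compl_eq hbij]
      congr 1
      ext z
      simp
    have hcov := v4_cover hr (show r < R by linarith) hf hinj hlim
      ((isCompact_closedBall (0 : ℂ) R₁).image hLc).isBounded
      (by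
        rw [hcompl]
        exact (v4_preconn hR₁0).image _ hLc.continuousOn) hsph
    rintro _ ⟨z, hz, rfl⟩
    by_contra hc
    obtain ⟨z', hz', hzz⟩ := hcov hc
    have hz1 : R < ‖z'‖ := hz'
    have hz2 : z' ∈ {z : ℂ | r < ‖z‖} := by
      show r < ‖z'‖
      linarith
    have := hinj hz2 hz.1 hzz
    rw [this] at hz1
    exact lt_asymm hz1 hz.2
  · rw [Measure.addHaar_image_linearMap, Complex.volume_closedBall, ← hR₁]
    have e1 : ENNReal.ofReal R₁ ^ 2 * (NNReal.pi : ENNReal) = ENNReal.ofReal (Real.pi * R₁ ^ 2) := by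
      rw [mul_comm, ENNReal.ofReal_mul Real.pi_pos.le, ENNReal.ofReal_pow hR₁0.le]
      congr 1
      rw [← NNReal.coe_real_pi, ENNReal.ofReal_coe_nnreal]
    rw [e1]
    calc ENNReal.ofReal |LinearMap.det L| * ENNReal.ofReal (Real.pi * R₁ ^ 2)
        ≤ 1 * ENNReal.ofReal (Real.pi * R₁ ^ 2) := by
          gcongr
          exact ENNReal.ofReal_le_one.mpr hdet
      _ = _ := one_mul _

private theorem v4_annulus {ρ R : ℝ} (hρ : 0 ≤ ρ) (h : ρ ≤ R) :
    (volume {z : ℂ | ρ < ‖z‖ ∧ ‖z‖ < R}).toReal = Real.pi * (R ^ 2 - ρ ^ 2) ∧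
      volume {z : ℂ | ρ < ‖z‖ ∧ ‖z‖ < R} < ⊤ := by
  have hR : 0 ≤ R := hρ.trans h
  have e1 : {z : ℂ | ρ < ‖z‖ ∧ ‖z‖ < R} = ball 0 R \ closedBall 0 ρ := by
    ext z
    simp [and_comm]
  have hlt : volume {z : ℂ | ρ < ‖z‖ ∧ ‖z‖ < R} < ⊤ := by
    rw [e1]
    exact lt_of_le_of_lt (measure_mono sdiff_subset) measure_ball_lt_top
  refine ⟨?_, hlt⟩
  have e2 : ball (0 : ℂ) R ∪ closedBall 0 ρ = (ball 0 R \ closedBall 0 ρ) ∪ closedBall 0 ρ := by
    rw [sdiff_union_self]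
  have hvb : (volume (ball (0 : ℂ) R)).toReal = Real.pi * R ^ 2 := by
    rw [Complex.volume_ball, ENNReal.toReal_mul, ENNReal.toReal_pow, ENNReal.toReal_ofReal hR]
    simp [mul_comm]
  have hvc : (volume (closedBall (0 : ℂ) ρ)).toReal = Real.pi * ρ ^ 2 := by
    rw [Complex.volume_closedBall, ENNReal.toReal_mul, ENNReal.toReal_pow,
      ENNReal.toReal_ofReal hρ]
    simp [mul_comm]
  rcases h.eq_or_lt with h' | h'
  · have e3 : {z : ℂ | ρ < ‖z‖ ∧ ‖z‖ < R} = ∅ := by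
      rw [eq_empty_iff_forall_notMem]
      rintro z ⟨h1, h2⟩
      rw [h'] at h1
      exact lt_asymm h1 h2
    rw [e3, h']
    simp
  · rw [e1, measure_sdiff (closedBall_subset_ball h') measurableSet_closedBall.nullMeasurableSet
      (isCompact_closedBall (0 : ℂ) ρ).measure_lt_top.ne, ENNReal.toReal_sub_of_le, hvb, hvc]
    · ring
    · exact measure_mono (closedBall_subset_ball h')
    · exact measure_ball_lt_top.ne

/-- the inequality on annuli -/
private theorem v4_annuli {f : ℂ → ℂ} {r : ℝ} (hr : 0 < r)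
    (hf : DifferentiableOn ℂ f {z | r < ‖z‖}) (hinj : InjOn f {z | r < ‖z‖})
    (hlim : Tendsto (fun z => f z - z) (cocompact ℂ) (𝓝 0)) {b : ℂ} {κ : ℝ} (hκ : 0 < κ)
    (hb : ∀ z, 2 * r ≤ ‖z‖ → ‖f z - z - b / z‖ ≤ κ / ‖z‖ ^ 2) {R ρ : ℝ} (hR : 2 * r ≤ R)
    (hR2 : 2 * ‖b‖ ≤ R ^ 2) (hρ : r < ρ) (hρR : ρ < R) :
    IntegrableOn (fun z => ‖deriv f z - 1‖ ^ 2) {z : ℂ | ρ < ‖z‖ ∧ ‖z‖ < R} ∧
      ∫ z in {z : ℂ | ρ < ‖z‖ ∧ ‖z‖ < R}, ‖deriv f z - 1‖ ^ 2 ≤
        Real.pi * ρ ^ 2 + (Real.pi * (R + 3 * κ / R ^ 2) ^ 2 - Real.pi * R ^ 2) := by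
  have hρ0 : 0 < ρ := hr.trans hρ
  have hR0 : 0 < R := by linarith
  obtain ⟨U, hU⟩ : ∃ U : Set ℂ, U = {z : ℂ | ρ < ‖z‖ ∧ ‖z‖ < R} := ⟨_, rfl⟩
  have hUo : IsOpen U := by
    rw [hU]
    exact (isOpen_lt continuous_const continuous_norm).inter
      (isOpen_lt continuous_norm continuous_const)
  have hUr : U ⊆ {z : ℂ | r < ‖z‖} := by
    rw [hU]
    exact fun z hz => hρ.trans hz.1
  have hUr2 : U ⊆ {z : ℂ | r < ‖z‖ ∧ ‖z‖ < R} := by
    rw [hU]
    exact fun z hz => ⟨hρ.trans hz.1, hz.2⟩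
  obtain ⟨B, hB1, hB2, hB3⟩ := v4_ellipse hr hf hinj hlim hκ hb hR hR2
  have himg : f '' U ⊆ B := (image_mono hUr2).trans hB2
  have harea := integral_sq_deriv hUo (hf.mono hUr) (hinj.mono hUr) (hB1.subset himg)
  have h1 : (volume (f '' U)).toReal ≤ Real.pi * (R + 3 * κ / R ^ 2) ^ 2 :=
    ENNReal.toReal_le_of_le_ofReal (by positivity) ((measure_mono himg).trans hB3)
  have hgd : DifferentiableOn ℂ (fun z => f z - z) {z | r < ‖z‖} := hf.sub differentiableOn_id
  have hder : ∀ z, r < ‖z‖ → deriv (fun z => f z - z) z = deriv f z - 1 := by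
    intro z hz
    have h2 := ((hf z hz).differentiableAt ((v4_open r).mem_nhds hz)).hasDerivAt.sub
      (hasDerivAt_id z)
    exact h2.deriv
  have hdc : ContinuousOn (fun z => deriv f z - 1) {z | r < ‖z‖} :=
    (hf.deriv (v4_open r)).continuousOn.sub continuousOn_const
  have hK : IsCompact {z : ℂ | ρ ≤ ‖z‖ ∧ ‖z‖ ≤ R} := by
    have e1 : {z : ℂ | ρ ≤ ‖z‖ ∧ ‖z‖ ≤ R} = closedBall 0 R ∩ {z | ρ ≤ ‖z‖} := by
      ext z
      simp [and_comm]
    rw [e1]
    exact (isCompact_closedBall 0 R).inter_right (isClosed_le continuous_const continuous_norm)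
  have hKr : {z : ℂ | ρ ≤ ‖z‖ ∧ ‖z‖ ≤ R} ⊆ {z | r < ‖z‖} := fun z hz => lt_of_lt_of_le hρ hz.1
  have hUK : U ⊆ {z : ℂ | ρ ≤ ‖z‖ ∧ ‖z‖ ≤ R} := by
    rw [hU]
    exact fun z hz => ⟨hz.1.le, hz.2.le⟩
  have hi1 : IntegrableOn (fun z => deriv f z - 1) U :=
    ((hdc.mono hKr).integrableOn_compact hK).mono_set hUK
  have hi2 : IntegrableOn (fun z => ‖deriv f z - 1‖ ^ 2) U :=
    ((((hdc.mono hKr).norm).pow 2).integrableOn_compact hK).mono_set hUK
  have hz0 : ∫ z in U, (deriv f z - 1) = 0 := by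
    rw [← integral_indicator hUo.measurableSet]
    apply v4_polar_zero
    intro s hs
    by_cases hs1 : ρ < s ∧ s < R
    · have h2 := RSM.mean_deriv_zero hr hgd hlim (hρ.trans hs1.1)
      rw [← h2]
      refine intervalIntegral.integral_congr fun t _ => ?_
      have h3 : ‖(s : ℂ) * exp (t * I)‖ = s := by
        rw [norm_mul, norm_exp_ofReal_mul_I, mul_one, norm_real, Real.norm_of_nonneg hs.le]
      have h4 : (s : ℂ) * exp (t * I) ∈ U := by
        rw [hU]
        show ρ < ‖(s : ℂ) * exp (t * I)‖ ∧ ‖(s : ℂ) * exp (t * I)‖ < R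
        rw [h3]
        exact hs1
      show U.indicator (fun z => deriv f z - 1) ((s : ℂ) * exp (t * I)) = _
      rw [indicator_of_mem h4, hder _ (by rw [h3]; exact hρ.trans hs1.1)]
    · have h5 : ∀ t : ℝ, U.indicator (fun z => deriv f z - 1) ((s : ℂ) * exp (t * I)) = 0 := by
        intro t
        have h3 : ‖(s : ℂ) * exp (t * I)‖ = s := by
          rw [norm_mul, norm_exp_ofReal_mul_I, mul_one, norm_real, Real.norm_of_nonneg hs.le]
        apply indicator_of_notMem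
        rw [hU]
        intro h6
        have h7 : ρ < ‖(s : ℂ) * exp (t * I)‖ ∧ ‖(s : ℂ) * exp (t * I)‖ < R := h6
        rw [h3] at h7
        exact hs1 h7
      simp only [h5]
      simp
  obtain ⟨hv1, hv2⟩ := v4_annulus hρ0.le hρR.le
  rw [← hU] at hv1 hv2 ⊢
  refine ⟨hi2, ?_⟩
  have h8 := v4_expand hv2 hi1 hi2 hz0 1
  have h9 : ∫ z in U, ‖(1 : ℂ) + (deriv f z - 1)‖ ^ 2 = ∫ z in U, ‖deriv f z‖ ^ 2 := by
    congr 1
    ext z
    congr 2
    ring
  rw [h9, harea.2, hv1, norm_one] at h8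
  nlinarith

theorem area_outside {f : ℂ → ℂ} {r : ℝ} (hr : 0 < r) (hf : DifferentiableOn ℂ f {z | r < ‖z‖})
    (hinj : InjOn f {z | r < ‖z‖}) (hlim : Tendsto (fun z => f z - z) (cocompact ℂ) (𝓝 0)) :
    IntegrableOn (fun z => ‖deriv f z - 1‖ ^ 2) {z : ℂ | r < ‖z‖} ∧
      ∫ z in {z : ℂ | r < ‖z‖}, ‖deriv f z - 1‖ ^ 2 ≤ Real.pi * r ^ 2 := by
  have hgd : DifferentiableOn ℂ (fun z => f z - z) {z | r < ‖z‖} := hf.sub differentiableOn_id
  obtain ⟨b, κ, hκ, hb⟩ := v4_laurent hr hgd hlim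
  obtain ⟨N, hN⟩ : ∃ N : ℝ, N = 2 * r + 2 + 2 * ‖b‖ := ⟨_, rfl⟩
  have hb0 := norm_nonneg b
  obtain ⟨A, hA⟩ : ∃ A : ℕ → Set ℂ, A = fun n : ℕ =>
    {z : ℂ | r + 1 / ((n : ℝ) + 1) < ‖z‖ ∧ ‖z‖ < N + n} := ⟨_, rfl⟩
  obtain ⟨c, hc⟩ : ∃ c : ℕ → ℝ, c = fun n : ℕ => Real.pi * (r + 1 / ((n : ℝ) + 1)) ^ 2 +
    (Real.pi * ((N + n) + 3 * κ / (N + n) ^ 2) ^ 2 - Real.pi * (N + n) ^ 2) := ⟨_, rfl⟩
  have hn1 : ∀ n : ℕ, 0 < 1 / ((n : ℝ) + 1) := fun n => by positivity
  have hn2 : ∀ n : ℕ, 1 / ((n : ℝ) + 1) ≤ 1 := fun n => by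
    rw [div_le_one (by positivity)]
    linarith [(Nat.cast_nonneg n : (0 : ℝ) ≤ n)]
  have hstep : ∀ n : ℕ, IntegrableOn (fun z => ‖deriv f z - 1‖ ^ 2) (A n) ∧
      ∫ z in A n, ‖deriv f z - 1‖ ^ 2 ≤ c n := by
    intro n
    have hn0 : (0 : ℝ) ≤ n := Nat.cast_nonneg n
    have h1 := hn1 n
    have h2 := hn2 n
    have hh := v4_annuli hr hf hinj hlim hκ hb (R := N + n) (ρ := r + 1 / ((n : ℝ) + 1))
      (by rw [hN]; linarith) (by rw [hN]; nlinarith) (by linarith) (by rw [hN]; linarith)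
    rw [hA, hc]
    exact hh
  have hAm : ∀ n, MeasurableSet (A n) := by
    intro n
    rw [hA]
    exact ((isOpen_lt continuous_const continuous_norm).inter
      (isOpen_lt continuous_norm continuous_const)).measurableSet
  have hmono : Monotone A := by
    intro m n hmn z hz
    rw [hA] at hz ⊢
    have hmn' : (m : ℝ) ≤ n := by exact_mod_cast hmn
    have h1 : 1 / ((n : ℝ) + 1) ≤ 1 / ((m : ℝ) + 1) :=
      one_div_le_one_div_of_le (by positivity) (by linarith)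
    have hz1 : r + 1 / ((m : ℝ) + 1) < ‖z‖ := hz.1
    have hz2 : ‖z‖ < N + m := hz.2
    exact ⟨by linarith, by linarith⟩
  have hunion : ⋃ n, A n = {z : ℂ | r < ‖z‖} := by
    ext z
    rw [mem_iUnion]
    constructor
    · rintro ⟨n, hz⟩
      rw [hA] at hz
      have hz1 : r + 1 / ((n : ℝ) + 1) < ‖z‖ := hz.1
      have := hn1 n
      show r < ‖z‖
      linarith
    · intro hz
      have hz' : r < ‖z‖ := hz
      obtain ⟨n1, hn1'⟩ := exists_nat_one_div_lt (show 0 < ‖z‖ - r by linarith)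
      obtain ⟨n2, hn2'⟩ := exists_nat_gt (‖z‖ - N)
      refine ⟨max n1 n2, ?_⟩
      have h3 : (n1 : ℝ) ≤ (max n1 n2 : ℕ) := by exact_mod_cast le_max_left _ _
      have h4 : (n2 : ℝ) ≤ (max n1 n2 : ℕ) := by exact_mod_cast le_max_right _ _
      have h5 : 1 / (((max n1 n2 : ℕ) : ℝ) + 1) ≤ 1 / ((n1 : ℝ) + 1) :=
        one_div_le_one_div_of_le (by positivity) (by linarith)
      rw [hA]
      exact ⟨by linarith, by linarith⟩
  have hcl : Tendsto c atTop (𝓝 (Real.pi * r ^ 2)) := by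
    have t1 : Tendsto (fun n : ℕ => 1 / ((n : ℝ) + 1)) atTop (𝓝 0) :=
      tendsto_one_div_add_atTop_nhds_zero_nat
    have t2 : Tendsto (fun n : ℕ => N + (n : ℝ)) atTop atTop :=
      tendsto_atTop_add_const_left _ _ tendsto_natCast_atTop_atTop
    have t3 : Tendsto (fun n : ℕ => (N + (n : ℝ))⁻¹) atTop (𝓝 0) := tendsto_inv_atTop_zero.comp t2
    have t4 : Tendsto (fun n : ℕ => Real.pi * (r + 1 / ((n : ℝ) + 1)) ^ 2 +
        (Real.pi * (6 * κ * (N + (n : ℝ))⁻¹ + 9 * κ ^ 2 * (N + (n : ℝ))⁻¹ ^ 4))) atTop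
        (𝓝 (Real.pi * (r + 0) ^ 2 + (Real.pi * (6 * κ * 0 + 9 * κ ^ 2 * 0 ^ 4)))) :=
      (((t1.const_add r).pow 2).const_mul _).add
        (((t3.const_mul _).add ((t3.pow 4).const_mul _)).const_mul _)
    have t5 : Real.pi * (r + 0) ^ 2 + (Real.pi * (6 * κ * 0 + 9 * κ ^ 2 * 0 ^ 4)) =
      Real.pi * r ^ 2 := by ring
    rw [t5] at t4
    refine t4.congr fun n => ?_
    rw [hc]
    have hne : N + (n : ℝ) ≠ 0 := by
      have : (0 : ℝ) ≤ n := Nat.cast_nonneg n
      rw [hN]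
      positivity
    simp only
    field_simp
    ring
  have hF : ∀ n, ∫⁻ z in A n, ENNReal.ofReal (‖deriv f z - 1‖ ^ 2) ≤ ENNReal.ofReal (c n) := by
    intro n
    rw [← ofReal_integral_eq_lintegral_ofReal (hstep n).1
      (Eventually.of_forall fun z => by positivity)]
    exact ENNReal.ofReal_le_ofReal (hstep n).2
  have hlint : ∫⁻ z in {z : ℂ | r < ‖z‖}, ENNReal.ofReal (‖deriv f z - 1‖ ^ 2) ≤
      ENNReal.ofReal (Real.pi * r ^ 2) := by
    have h1 := tendsto_measure_iUnion_atTop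
      (μ := (volume : Measure ℂ).withDensity fun z => ENNReal.ofReal (‖deriv f z - 1‖ ^ 2)) hmono
    rw [hunion, withDensity_apply _ (v4_open r).measurableSet] at h1
    refine le_of_tendsto_of_tendsto' h1 (ENNReal.tendsto_ofReal hcl) fun n => ?_
    show (volume.withDensity fun z => ENNReal.ofReal (‖deriv f z - 1‖ ^ 2)) (A n) ≤ _
    rw [withDensity_apply _ (hAm n)]
    exact hF n
  have hdc : ContinuousOn (fun z => ‖deriv f z - 1‖ ^ 2) {z | r < ‖z‖} :=
    (((hf.deriv (v4_open r)).continuousOn.sub continuousOn_const).norm).pow 2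
  have hae : AEStronglyMeasurable (fun z => ‖deriv f z - 1‖ ^ 2)
      (volume.restrict {z : ℂ | r < ‖z‖}) :=
    hdc.aestronglyMeasurable (v4_open r).measurableSet
  refine ⟨⟨hae, ?_⟩, ?_⟩
  · rw [hasFiniteIntegral_iff_ofReal (Eventually.of_forall fun z => by positivity)]
    exact lt_of_le_of_lt hlint ENNReal.ofReal_lt_top
  · rw [integral_eq_lintegral_of_nonneg_ae (Eventually.of_forall fun z => by positivity) hae]
    exact ENNReal.toReal_le_of_le_ofReal (by positivity) hlint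

/-- sub-mean value property of `‖h‖²` -/
private theorem v4_submean {h : ℂ → ℂ} {c : ℂ} {s : ℝ} (hs : 0 < s)
    (hh : DifferentiableOn ℂ h (closedBall c s)) (hc : ContinuousOn h (closedBall c s)) :
    Real.pi * s ^ 2 * ‖h c‖ ^ 2 ≤ ∫ z in ball c s, ‖h z‖ ^ 2 := by
  have hi1 : IntegrableOn (fun z => h z - h c) (ball c s) :=
    ((hc.sub continuousOn_const).integrableOn_compact (isCompact_closedBall c s)).mono_set
      ball_subset_closedBall
  have hi2 : IntegrableOn (fun z => ‖h z - h c‖ ^ 2) (ball c s) :=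
    ((((hc.sub continuousOn_const).norm).pow 2).integrableOn_compact
      (isCompact_closedBall c s)).mono_set ball_subset_closedBall
  have h0 : ∫ z in ball c s, (h z - h c) = 0 := by
    rw [← integral_indicator measurableSet_ball,
      ← integral_add_left_eq_self (fun z => (ball c s).indicator (fun z => h z - h c) z) c]
    apply v4_polar_zero
    intro ρ hρ
    have hn : ∀ t : ℝ, ‖(ρ : ℂ) * exp (t * I)‖ = ρ := fun t => by
      rw [norm_mul, norm_exp_ofReal_mul_I, mul_one, norm_real, Real.norm_of_nonneg hρ.le]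
    by_cases hρs : ρ < s
    · have h1 : ∀ t : ℝ, (ball c s).indicator (fun z => h z - h c) (c + ρ * exp (t * I)) =
          h (c + ρ * exp (t * I)) - h c := by
        intro t
        apply indicator_of_mem
        rw [mem_ball, dist_eq_norm, add_sub_cancel_left, hn]
        exact hρs
      simp only [h1]
      have h2 := circleIntegral_sub_center_inv_smul_of_differentiable_on_off_countable
        (f := fun z => h z - h c) (s := ∅) (c := c) hρ countable_empty
        ((hc.sub continuousOn_const).mono (closedBall_subset_closedBall hρs.le))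
        (fun z hz => by
          have hz1 : z ∈ ball c s := by
            have := hz.1
            rw [mem_ball] at this ⊢
            linarith
          exact ((hh z (ball_subset_closedBall hz1)).differentiableAt
            (mem_of_superset (isOpen_ball.mem_nhds hz1) ball_subset_closedBall)).sub_const _)
      rw [sub_self, smul_zero] at h2
      have h3 : (∮ z in C(c, ρ), (z - c)⁻¹ • (h z - h c)) =
          I * ∫ t in (0 : ℝ)..(2 * Real.pi), (h (c + ρ * exp (t * I)) - h c) := by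
        unfold circleIntegral
        rw [← intervalIntegral.integral_const_mul]
        refine intervalIntegral.integral_congr fun t _ => ?_
        have e2 : circleMap 0 ρ t ≠ 0 := by
          unfold circleMap
          rw [zero_add]
          exact mul_ne_zero (by exact_mod_cast hρ.ne') (exp_ne_zero _)
        have e3 : circleMap c ρ t - c = circleMap 0 ρ t := by
          unfold circleMap
          ring
        have e4 : circleMap c ρ t = c + ρ * exp (t * I) := rfl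
        simp only [deriv_circleMap, smul_eq_mul]
        rw [e3, ← mul_assoc, mul_assoc (circleMap 0 ρ t) I, mul_comm I, ← mul_assoc,
          mul_inv_cancel₀ e2, one_mul, e4]
      rw [h3] at h2
      exact (mul_eq_zero.mp h2).resolve_left I_ne_zero
    · have h1 : ∀ t : ℝ, (ball c s).indicator (fun z => h z - h c) (c + ρ * exp (t * I)) = 0 := by
        intro t
        apply indicator_of_notMem
        rw [mem_ball, dist_eq_norm, add_sub_cancel_left, hn]
        exact hρs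
      simp only [h1]
      simp
  have h3 := v4_expand (S := ball c s) measure_ball_lt_top hi1 hi2 h0 (h c)
  have h4 : ∫ z in ball c s, ‖h c + (h z - h c)‖ ^ 2 = ∫ z in ball c s, ‖h z‖ ^ 2 := by
    congr 1
    ext z
    congr 2
    ring
  have h5 : (volume (ball c s)).toReal = Real.pi * s ^ 2 := by
    rw [Complex.volume_ball, ENNReal.toReal_mul, ENNReal.toReal_pow, ENNReal.toReal_ofReal hs.le]
    simp [mul_comm]
  rw [h4, h5] at h3
  have h6 : 0 ≤ ∫ z in ball c s, ‖h z - h c‖ ^ 2 := integral_nonneg fun z => by positivity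
  nlinarith

theorem growth_far {f : ℂ → ℂ} {r : ℝ} (hr : 0 < r) (hf : DifferentiableOn ℂ f {z | r < ‖z‖})
    (hinj : InjOn f {z | r < ‖z‖}) (hlim : Tendsto (fun z => f z - z) (cocompact ℂ) (𝓝 0))
    {z : ℂ} (hz : 2 * r ≤ ‖z‖) : ‖f z - z‖ ≤ 4 * r ^ 2 / ‖z‖ := by
  have hgd : DifferentiableOn ℂ (fun z => f z - z) {z | r < ‖z‖} := hf.sub differentiableOn_id
  obtain ⟨hi, harea⟩ := area_outside hr hf hinj hlim
  have hder : ∀ z, r < ‖z‖ → HasDerivAt (fun z => f z - z) (deriv f z - 1) z := by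
    intro z hz
    exact ((hf z hz).differentiableAt ((v4_open r).mem_nhds hz)).hasDerivAt.sub
      (hasDerivAt_id z)
  have hdd : DifferentiableOn ℂ (fun z => deriv f z - 1) {z | r < ‖z‖} :=
    (hf.deriv (v4_open r)).sub_const 1
  -- bound on the circle of radius `2r`
  have hcirc : ∀ u : ℂ, ‖u‖ = 2 * r → ‖deriv f u - 1‖ ≤ 1 := by
    intro u hu
    have hs : ∀ s : ℝ, 0 < s → s < r → s ^ 2 * ‖deriv f u - 1‖ ^ 2 ≤ r ^ 2 := by
      intro s hs0 hsr
      have hsub : closedBall u s ⊆ {z : ℂ | r < ‖z‖} := by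
        intro v hv
        rw [mem_closedBall, dist_eq_norm] at hv
        have h1 : ‖u‖ ≤ ‖v‖ + ‖v - u‖ := by
          have := norm_sub_le v (v - u)
          rwa [sub_sub_cancel] at this
        show r < ‖v‖
        linarith
      have h1 := v4_submean hs0 (hdd.mono hsub) (hdd.continuousOn.mono hsub)
      have h2 : ∫ z in ball u s, ‖deriv f z - 1‖ ^ 2 ≤ ∫ z in {z : ℂ | r < ‖z‖},
          ‖deriv f z - 1‖ ^ 2 :=
        setIntegral_mono_set hi (Eventually.of_forall fun z => by positivity)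
          (ball_subset_closedBall.trans hsub).eventuallyLE
      have h3 : Real.pi * (s ^ 2 * ‖deriv f u - 1‖ ^ 2) ≤ Real.pi * r ^ 2 := by
        linarith
      exact le_of_mul_le_mul_left h3 Real.pi_pos
    have h4 : r ^ 2 * ‖deriv f u - 1‖ ^ 2 ≤ r ^ 2 := by
      have t1 : Tendsto (fun s : ℝ => s ^ 2 * ‖deriv f u - 1‖ ^ 2) (𝓝[<] r)
          (𝓝 (r ^ 2 * ‖deriv f u - 1‖ ^ 2)) := by
        refine Tendsto.mono_left ?_ nhdsWithin_le_nhds
        exact (continuous_pow 2 |>.mul continuous_const).tendsto r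
      refine le_of_tendsto t1 ?_
      filter_upwards [self_mem_nhdsWithin, mem_nhdsWithin_of_mem_nhds (Ioi_mem_nhds hr)]
        with s hs1 hs2
      exact hs s hs2 hs1
    have h5 : ‖deriv f u - 1‖ ^ 2 ≤ 1 := by
      have h6 : 0 < r ^ 2 := by positivity
      nlinarith
    have h7 := norm_nonneg (deriv f u - 1)
    nlinarith
  obtain ⟨k, hkd, hk0, hk1⟩ := v4_inv hr hgd hlim
  have hlt : (2 * r)⁻¹ < r⁻¹ := inv_strictAnti₀ hr (by linarith)
  have hpos : (0 : ℝ) < (2 * r)⁻¹ := by positivity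
  have hcl : closure (ball (0 : ℂ) (2 * r)⁻¹) ⊆ ball 0 r⁻¹ := by
    rw [closure_ball _ hpos.ne']
    exact closedBall_subset_ball hlt
  have hkdd : DiffContOnCl ℂ (deriv k) (ball 0 (2 * r)⁻¹) :=
    ((hkd.deriv isOpen_ball).mono hcl).diffContOnCl
  have hfr : ∀ w ∈ frontier (ball (0 : ℂ) (2 * r)⁻¹), ‖deriv k w‖ ≤ 4 * r ^ 2 := by
    intro w hw
    rw [frontier_ball _ hpos.ne', mem_sphere, dist_zero_right] at hw
    have hw0 : w ≠ 0 := by
      rw [← norm_pos_iff, hw]; exact hpos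
    have hwi : ‖w⁻¹‖ = 2 * r := by rw [norm_inv, hw, inv_inv]
    have h1 : HasDerivAt (fun w => (fun z => f z - z) w⁻¹)
        ((deriv f w⁻¹ - 1) * (-(w ^ 2)⁻¹)) w :=
      HasDerivAt.comp w (hder w⁻¹ (by rw [hwi]; linarith)) (hasDerivAt_inv hw0)
    have h2 : HasDerivAt k ((deriv f w⁻¹ - 1) * (-(w ^ 2)⁻¹)) w := by
      refine h1.congr_of_eventuallyEq ?_
      filter_upwards [isOpen_ne.mem_nhds hw0] with v hv
      exact hk1 v hv
    rw [h2.deriv, norm_mul, norm_neg, norm_inv, norm_pow, hw]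
    have h3 := hcirc w⁻¹ hwi
    have h4 : ((2 * r)⁻¹ ^ 2)⁻¹ = 4 * r ^ 2 := by
      field_simp
      ring
    rw [h4]
    nlinarith [sq_nonneg r]
  have hall : ∀ w ∈ closedBall (0 : ℂ) (2 * r)⁻¹, ‖deriv k w‖ ≤ 4 * r ^ 2 := by
    intro w hw
    rw [← closure_ball _ hpos.ne'] at hw
    exact Complex.norm_le_of_forall_mem_frontier_norm_le isBounded_ball hkdd hfr hw
  have hzp : 0 < ‖z‖ := by linarith
  have hz0 : z ≠ 0 := norm_pos_iff.mp hzp
  have hwz : z⁻¹ ≠ 0 := inv_ne_zero hz0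
  have hw : z⁻¹ ∈ closedBall (0 : ℂ) (2 * r)⁻¹ := by
    rw [mem_closedBall_zero_iff, norm_inv]
    exact inv_anti₀ (by linarith) hz
  have hfin := (convex_closedBall (0 : ℂ) (2 * r)⁻¹).norm_image_sub_le_of_norm_deriv_le
    (f := k) (C := 4 * r ^ 2) (x := 0) (y := z⁻¹)
    (fun w hw => (hkd w (closedBall_subset_ball hlt hw)).differentiableAt
      (isOpen_ball.mem_nhds (closedBall_subset_ball hlt hw))) hall
    (mem_closedBall_self hpos.le) hw
  rw [hk0, hk1 _ hwz, inv_inv, sub_zero, sub_zero, norm_inv] at hfin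
  rw [div_eq_mul_inv]
  exact hfin

theorem growth_near {f : ℂ → ℂ} {r : ℝ} (hr : 0 < r) {E : Set ℂ} (hE : E ⊆ closedBall 0 r)
    (hf : DifferentiableOn ℂ f Eᶜ) (hinj : InjOn f Eᶜ)
    (hlim : Tendsto (fun z => f z - z) (cocompact ℂ) (𝓝 0)) {z : ℂ} (hz : z ∉ E)
    (hz2 : ‖z‖ ≤ 2 * r) : ‖f z‖ ≤ 4 * r := by
  have hsub : {z : ℂ | r < ‖z‖} ⊆ Eᶜ := by
    intro v hv hvE
    have h1 := hE hvE
    rw [mem_closedBall_zero_iff] at h1
    have h2 : r < ‖v‖ := hv
    linarith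
  have hf' := hf.mono hsub
  have hinj' := hinj.mono hsub
  by_contra hc
  push Not at hc
  have hcov := v4_cover (R := 2 * r) (B := closedBall 0 (4 * r)) hr (by linarith) hf' hinj' hlim
    isBounded_closedBall (by
      have e1 : (closedBall (0 : ℂ) (4 * r))ᶜ = {z | 4 * r < ‖z‖} := by
        ext z
        simp
      rw [e1]
      exact v4_preconn (by linarith)) (by
      intro v hv
      have h1 := growth_far hr hf' hinj' hlim (z := v) (by rw [hv])
      rw [hv] at h1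
      have h2 : 4 * r ^ 2 / (2 * r) = 2 * r := by
        field_simp
        ring
      rw [h2] at h1
      have h3 : ‖f v‖ ≤ ‖f v - v‖ + ‖v‖ := by
        have := norm_add_le (f v - v) v
        rwa [sub_add_cancel] at this
      rw [mem_closedBall_zero_iff]
      rw [hv] at h3
      linarith)
  obtain ⟨z', hz', hzz⟩ := hcov (show f z ∈ (closedBall (0 : ℂ) (4 * r))ᶜ by
    rw [mem_compl_iff, mem_closedBall_zero_iff, not_le]
    exact hc)
  have hz1 : 2 * r < ‖z'‖ := hz'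
  have hz3 : z' ∈ Eᶜ := hsub (show r < ‖z'‖ by linarith)
  have := hinj hz3 hz hzz
  rw [this] at hz1
  linarith

end RSM2
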