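import Pool.Agent.RSM2.J3
import Pool.Agent.RSM2.V4

/-!
# RSM2 module V6: real and imaginary parts of slit maps are nice

PROOFS.  `nice_parts`: `Re G`, `Im G` are `C^∞` on `D` (real parts of a holomorphic function), bounded
by `M` on `D ∩ ball 0 s`, `‖∇ Re G‖² = ‖G'‖²` (`sq_fderiv_comp_holo` with `f = re`, or Cauchy-Riemann),
integrable on `D ∩ ball 0 s` by the area formula `integral_sq_deriv` for `U = D ∩ ball 0 s` (the image is
contained in `closedBall 0 M`).
`Sol.bound`: `growth_far`, `growth_near`: `‖G z‖ ≤ 4r` for `‖z‖ ≤ 2r` and `‖G z‖ ≤ ‖z‖ + 2r` for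
`‖z‖ ≥ 2r`.
-/

open Complex Set Metric Filter Topology MeasureTheory

namespace RSM2

theorem nice_parts {D : Set ℂ} (hD : IsOpen D) {G : ℂ → ℂ} (hG : DifferentiableOn ℂ G D)
    (hinj : InjOn G D) {s M : ℝ} (hM : ∀ z ∈ D, ‖z‖ < s → ‖G z‖ ≤ M) :
    Nice D (ball 0 s) (fun z => (G z).re) ∧ Nice D (ball 0 s) (fun z => (G z).im) := by
  have hc : ContDiffOn ℝ 2 G D := (hG.contDiffOn hD).restrict_scalars ℝ
  have hU : IsOpen (D ∩ ball 0 s) := hD.inter isOpen_ball
  have hb : Bornology.IsBounded (G '' (D ∩ ball 0 s)) := by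
    rw [isBounded_iff_forall_norm_le]
    refine ⟨M, ?_⟩
    rintro _ ⟨z, hz, rfl⟩
    exact hM z hz.1 (mem_ball_zero_iff.mp hz.2)
  have hint := (integral_sq_deriv hU (hG.mono inter_subset_left) (hinj.mono inter_subset_left)
    hb).1
  have key : ∀ L : ℂ →L[ℝ] ℝ, ‖L‖ = 1 → (∀ w, |L w| ≤ ‖w‖) →
      Nice D (ball 0 s) (fun z => L (G z)) := by
    intro L hL hLw
    refine ⟨L.contDiff.comp_contDiffOn hc, ⟨M, fun z hz => ?_⟩, ?_⟩
    · exact (hLw _).trans (hM z hz.1 (mem_ball_zero_iff.mp hz.2))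
    · refine (integrableOn_congr_fun ?_ hU.measurableSet).mpr hint
      intro z hz
      have h1 := sq_fderiv_comp_holo (f := fun w => L w) (G := G) (z := z)
        (hG.differentiableAt (hD.mem_nhds hz.1)) L.differentiableAt
      have h2 : fderiv ℝ (fun w => L w) (G z) = L := L.fderiv
      rw [h2, hL, one_pow, mul_one] at h1
      exact h1
  exact ⟨key reCLM reCLM_norm (fun w => abs_re_le_norm w),
    key imCLM imCLM_norm (fun w => abs_im_le_norm w)⟩

theorem Sol.bound {c : Cfg} {G : ℂ → ℂ} (hG : Sol c G) {r : ℝ} (hr : 0 < r)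
    (hc : un c ⊆ closedBall 0 r) {z : ℂ} (hz : z ∉ un c) : ‖G z‖ ≤ ‖z‖ + 4 * r := by
  rcases le_total ‖z‖ (2 * r) with h | h
  · have h1 := growth_near hr hc hG.diff hG.inj hG.lim hz h
    linarith [norm_nonneg z]
  · have hsub : {z : ℂ | r < ‖z‖} ⊆ (un c)ᶜ := by
      intro w hw hwc
      have h1 := mem_closedBall_zero_iff.mp (hc hwc)
      exact absurd (show r < ‖w‖ from hw) (not_lt.mpr h1)
    have h1 := growth_far hr (hG.diff.mono hsub) (hG.inj.mono hsub) hG.lim h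
    have hz0 : 0 < ‖z‖ := by linarith
    have h2 : 4 * r ^ 2 / ‖z‖ ≤ 2 * r := by
      rw [div_le_iff₀ hz0]
      nlinarith
    have h3 : ‖G z‖ ≤ ‖z‖ + ‖G z - z‖ := by
      have h4 : G z = z + (G z - z) := by ring
      calc ‖G z‖ = ‖z + (G z - z)‖ := by rw [← h4]
        _ ≤ _ := norm_add_le _ _
    linarith

theorem Sol.nice {c : Cfg} (hv : Valid c) {G : ℂ → ℂ} (hG : Sol c G) (s : ℝ) :
    Nice (un c)ᶜ (ball 0 s) (fun z => (G z).re) ∧
      Nice (un c)ᶜ (ball 0 s) (fun z => (G z).im) := by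
  obtain ⟨r, hr⟩ := hv.isCompact.isBounded.subset_closedBall (0 : ℂ)
  have hr1 : un c ⊆ closedBall 0 (|r| + 1) :=
    hr.trans (closedBall_subset_closedBall (by linarith [le_abs_self r]))
  refine nice_parts hv.isOpen hG.diff hG.inj (M := s + 4 * (|r| + 1)) ?_
  intro z hz hzs
  have h1 := hG.bound (by positivity) hr1 (z := z) hz
  linarith

end RSM2
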