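import Pool.Agent.RSM2.J5
import Pool.Agent.RSM2.V3
import Pool.Agent.RSM2.V6

/-!
# RSM2 module V7: uniqueness

PROOF.  `D = (un c)ᶜ`, connected (`Valid.isConnected`), `h = a + ib` on `D`, `J a b = ‖h'‖²`
(Cauchy-Riemann).  Let `un c ⊆ ball 0 R₁`.  For `R ≥ R₁` let `χ` be a `C^∞` function, `0 ≤ χ ≤ 1`, `χ = 1` on
`ball 0 R`, `χ = 0` outside of `ball 0 (2R)`, `‖∇χ‖ ≤ C/R` with `C` independent of `R`
(`Real.smoothTransition (2 - ‖z‖/R)` or `χ z = χ₁ (z/R)`).
`∫_D χ ‖h'‖² = ∫_D χ J a b = ∫_D J (χ a) b - ∫_D a J χ b`.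
(1) `∫_D J (χ a) b = ∑_k Fl D (X k) (χ a) b` (`stokes_sum`, `T = closedBall 0 (2R)`, with
cut-offs of disjoint small supports, where `χ = 1`), and every flux vanishes: at the hole `k` let
`φ = k.2` and `exp (-iφ) h = s + i n`, so `n = nrm φ h → q`, `a = cos φ s - sin φ n`,
`b = sin φ s + cos φ n`; by bilinearity, `Fl_self`, `Fl_of_tendsto_left/right`:
`Fl a b = cos φ sin φ Fl s s + ... = 0`.
(2) `‖h z‖ ≤ A/‖z‖`, `‖h' z‖ ≤ A'/‖z‖²` for large `‖z‖` (`RSM.norm_le_of_sphere`,
Cauchy's estimate), so `|∫_D a J χ b| ≤ (A/R) (C/R) (A'/R²) π (2R)² → 0` as `R → ∞`.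
So `∫_D ‖h'‖² = 0`, `h' = 0` on `D` (continuous), `h` is constant on the connected open set `D`, and the
constant is `0` since `h → 0` at infinity.
`Sol.unique`: the difference of two solutions.
-/

open Complex Set Metric Filter Topology MeasureTheory

namespace RSM2

/-- The flux of `a db` vanishes at a hole which `a + ib` maps into a straight line. -/
theorem Fl_line {D H T : Set ℂ} {X : ℂ → ℝ} (hX : HoleCut D H T X) {h : ℂ → ℂ}
    (h1 : Nice D T (fun z => (h z).re)) (h2 : Nice D T (fun z => (h z).im)) {φ q : ℝ}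
    (hlim : Tendsto (fun z => nrm φ (h z)) (nearIn D H) (𝓝 q)) :
    Fl D X (fun z => (h z).re) (fun z => (h z).im) = 0 := by
  have hD := hX.openD
  have hsc := Real.sin_sq_add_cos_sq φ
  by_cases hc : Real.cos φ = 0
  · have h3 : Tendsto (fun z => (h z).re) (nearIn D H) (𝓝 (-Real.sin φ * q)) := by
      have h4 := hlim.const_mul (-Real.sin φ)
      refine h4.congr fun z => ?_
      rw [nrm_eq, hc]
      rw [hc] at hsc
      have h5 : Real.sin φ ^ 2 = 1 := by linarith
      have h6 : -Real.sin φ * (0 * (h z).im - Real.sin φ * (h z).re) =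
          Real.sin φ ^ 2 * (h z).re := by ring
      rw [h6, h5, one_mul]
    exact Fl_of_tendsto_left hX h1 h2 h3
  · have hn : Nice D T (fun z => Real.cos φ * (h z).im - Real.sin φ * (h z).re) :=
      (h2.const_mul hD (Real.cos φ)).sub hD (h1.const_mul hD (Real.sin φ))
    have h3 : Tendsto (fun z => Real.cos φ * (h z).im - Real.sin φ * (h z).re)
        (nearIn D H) (𝓝 q) := hlim.congr fun z => nrm_eq φ (h z)
    have h4 := Fl_of_tendsto_right hX h1 hn h3
    have h5 : Fl D X (fun z => (h z).re) (fun z => Real.cos φ * (h z).im) =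
        Fl D X (fun z => (h z).re)
          (fun z => Real.cos φ * (h z).im - Real.sin φ * (h z).re) +
        Fl D X (fun z => (h z).re) (fun z => Real.sin φ * (h z).re) := by
      rw [← Fl_add_right hX h1 hn (h1.const_mul hD (Real.sin φ))]
      refine Fl_congr hX (fun z _ => rfl) fun z _ => ?_
      ring
    rw [h4, Fl_smul_right hX h1 h2, Fl_smul_right hX h1 h1, Fl_self hX h1, mul_zero,
      add_zero] at h5
    exact (mul_eq_zero.1 h5).resolve_left hc

/-- Cauchy-Riemann. -/
theorem v7_CR {h : ℂ → ℂ} {z : ℂ} (hh : DifferentiableAt ℂ h z) :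
    J (fun w => (h w).re) (fun w => (h w).im) z = ‖deriv h z‖ ^ 2 ∧
      ‖fderiv ℝ (fun w => (h w).im) z‖ = ‖deriv h z‖ := by
  have h0 : HasFDerivAt h (deriv h z • (1 : ℂ →L[ℝ] ℂ)) z := hh.hasDerivAt.complexToReal_fderiv
  have h1 : HasFDerivAt (fun w => (h w).re) (reCLM.comp (deriv h z • (1 : ℂ →L[ℝ] ℂ))) z :=
    reCLM.hasFDerivAt.comp z h0
  have h2 : HasFDerivAt (fun w => (h w).im) (imCLM.comp (deriv h z • (1 : ℂ →L[ℝ] ℂ))) z :=
    imCLM.hasFDerivAt.comp z h0
  have e1 : dX (fun w => (h w).re) z = (deriv h z).re := by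
    unfold dX; rw [h1.fderiv]; simp
  have e2 : dY (fun w => (h w).re) z = -(deriv h z).im := by
    unfold dY; rw [h1.fderiv]; simp
  have e3 : dX (fun w => (h w).im) z = (deriv h z).im := by
    unfold dX; rw [h2.fderiv]; simp
  have e4 : dY (fun w => (h w).im) z = (deriv h z).re := by
    unfold dY; rw [h2.fderiv]; simp
  have e5 : ‖deriv h z‖ ^ 2 = (deriv h z).re * (deriv h z).re + (deriv h z).im * (deriv h z).im := by
    rw [← Complex.normSq_eq_norm_sq, Complex.normSq_apply]
  constructor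
  · unfold J
    rw [e1, e2, e3, e4, e5]
    ring
  · have h3 := sq_norm_fderiv (fun w => (h w).im) z
    rw [e3, e4] at h3
    have h4 : ‖fderiv ℝ (fun w => (h w).im) z‖ ^ 2 = ‖deriv h z‖ ^ 2 := by
      rw [h3, e5]; ring
    exact (pow_left_inj₀ (norm_nonneg _) (norm_nonneg _) two_ne_zero).1 h4

/-- The outer cut-off functions. -/
theorem v7_cut : ∃ C : ℝ, 0 ≤ C ∧ ∀ R : ℝ, 0 < R → ∃ χ : ℂ → ℝ, ContDiff ℝ (⊤ : ℕ∞) χ ∧
    (∀ z, 0 ≤ χ z) ∧ (∀ z, ‖z‖ ≤ R → χ z = 1) ∧ (∀ z, 2 * R ≤ ‖z‖ → χ z = 0) ∧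
    (∀ z, ‖fderiv ℝ χ z‖ ≤ C / R) := by
  obtain ⟨X, h1, h2, h3, h4, h5⟩ := exists_cut (isCompact_closedBall (0 : ℂ) 1)
    (isOpen_ball (x := (0 : ℂ)) (ε := 2)) (closedBall_subset_ball (by norm_num))
  have h1' : ContDiff ℝ 1 X := h1.of_le (by exact_mod_cast le_top)
  obtain ⟨C, hC⟩ := (h1'.continuous_fderiv one_ne_zero).bounded_above_of_compact_support
    (h2.fderiv ℝ)
  refine ⟨C, (norm_nonneg _).trans (hC 0), fun R hR => ⟨fun z => X (R⁻¹ • z), ?_, ?_, ?_, ?_, ?_⟩⟩
  · exact h1.comp (contDiff_id.const_smul R⁻¹)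
  · intro z
    exact (h4 _).1
  · intro z hz
    refine h5.self_of_nhdsSet _ ?_
    rw [mem_closedBall_zero_iff, norm_smul, norm_inv, Real.norm_of_nonneg hR.le, ← div_eq_inv_mul]
    exact (div_le_one hR).2 hz
  · intro z hz
    refine image_eq_zero_of_notMem_tsupport fun hmem => ?_
    have h6 := h3 hmem
    rw [mem_ball_zero_iff, norm_smul, norm_inv, Real.norm_of_nonneg hR.le, ← div_eq_inv_mul,
      div_lt_iff₀ hR] at h6
    linarith
  · intro z
    rw [fderiv_comp_smul, norm_smul, norm_inv, Real.norm_of_nonneg hR.le, ← div_eq_inv_mul]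
    exact div_le_div_of_nonneg_right (hC _) hR.le

theorem eq_zero_of_compat {c : Cfg} (hc : Valid c) {h : ℂ → ℂ}
    (hh : DifferentiableOn ℂ h (un c)ᶜ) (hlim : Tendsto h (cocompact ℂ) (𝓝 0))
    (hnice : ∀ s : ℝ, Nice (un c)ᶜ (ball 0 s) (fun z => (h z).re) ∧
      Nice (un c)ᶜ (ball 0 s) (fun z => (h z).im))
    (hline : ∀ k ∈ c, ∃ q : ℝ,
      Tendsto (fun z => nrm k.2 (h z)) (nearIn (un c)ᶜ k.1) (𝓝 q)) :
    ∀ z ∉ un c, h z = 0 := by
  have hD : IsOpen (un c)ᶜ := hc.isOpen
  obtain ⟨R₁, hR₁, hsub⟩ : ∃ R₁ > 0, un c ⊆ ball 0 R₁ := by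
    obtain ⟨r, hr⟩ := hc.isCompact.isBounded.subset_ball (0 : ℂ)
    exact ⟨|r| + 1, by positivity, hr.trans (ball_subset_ball (by linarith [le_abs_self r]))⟩
  -- cut-offs for the holes
  have hcut : ∀ k : {k // k ∈ c}, ∃ X : ℂ → ℝ, ContDiff ℝ (⊤ : ℕ∞) X ∧ HasCompactSupport X ∧
      tsupport X ⊆ ball 0 R₁ ∩ (⋃ j ∈ c.erase k.1, j.1)ᶜ ∧ ∀ᶠ z in 𝓝ˢ k.1.1, X z = 1 := by
    rintro ⟨k, hk⟩
    have hF : IsClosed (⋃ j ∈ c.erase k, j.1) :=
      ((c.erase k).isCompact_biUnion fun j hj =>
        hc.compact j (Finset.mem_of_mem_erase hj)).isClosed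
    obtain ⟨X, h1, h2, h3, -, h5⟩ := exists_cut (hc.compact k hk)
      (isOpen_ball.inter hF.isOpen_compl : IsOpen (ball (0 : ℂ) R₁ ∩ (⋃ j ∈ c.erase k, j.1)ᶜ))
      (by
        intro z hz
        refine ⟨hsub (subset_un hk hz), fun hz' => ?_⟩
        obtain ⟨j, hj, hzj⟩ := mem_iUnion₂.1 hz'
        exact Set.disjoint_left.1 (hc.disj k hk j (Finset.mem_of_mem_erase hj)
          (Finset.ne_of_mem_erase hj).symm) hz hzj)
    exact ⟨X, h1, h2, h3, h5⟩
  choose X hX1 hX2 hX3 hX4 using hcut
  have hX5 : ∀ i j : {k // k ∈ c}, i ≠ j → ∀ᶠ z in 𝓝ˢ j.1.1, X i z = 0 := by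
    intro i j hij
    have h1 : (tsupport (X i))ᶜ ∈ 𝓝ˢ j.1.1 := by
      refine (isClosed_tsupport (X i)).isOpen_compl.mem_nhdsSet.2 fun z hz hz' => ?_
      refine (hX3 i hz').2 (mem_iUnion₂.2 ⟨j.1, Finset.mem_erase.2 ⟨?_, j.2⟩, hz⟩)
      exact fun e => hij (Subtype.ext e.symm)
    filter_upwards [h1] with z hz
    exact image_eq_zero_of_notMem_tsupport hz
  have hHC : ∀ R, R₁ ≤ R → ∀ k : {k // k ∈ c},
      HoleCut (un c)ᶜ k.1.1 (closedBall 0 (2 * R)) (X k) := by
    intro R hR k
    refine ⟨hD, hc.compact _ k.2, ?_, hX1 k, hX2 k, hX4 k, ?_⟩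
    · exact Set.disjoint_left.2 fun z hz hz' => hz (subset_un k.2 hz')
    · intro z hz
      obtain ⟨h1, h2⟩ := hX3 k hz
      refine ⟨?_, ?_⟩
      · rw [mem_ball_zero_iff] at h1
        rw [mem_closedBall_zero_iff]
        linarith
      · by_cases hzu : z ∈ un c
        · right
          obtain ⟨j, hj, hzj⟩ := mem_un.1 hzu
          by_cases hjk : j = k.1
          · rw [← hjk]; exact hzj
          · exact absurd (mem_iUnion₂.2 ⟨j, Finset.mem_erase.2 ⟨hjk, hj⟩, hzj⟩) h2
        · exact Or.inl hzu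
  obtain ⟨C, hC0, hC⟩ := v7_cut
  -- the derivative vanishes
  have hderiv : ∀ z₀ ∈ (un c)ᶜ, deriv h z₀ = 0 := by
    intro z₀ hz₀
    by_contra hne
    have hpos : 0 < ‖deriv h z₀‖ := norm_pos_iff.2 hne
    have hcont : ContinuousAt (deriv h) z₀ :=
      ((hh.deriv hD).continuousOn).continuousAt (hD.mem_nhds hz₀)
    have hev : ∀ᶠ z in 𝓝 z₀, z ∈ (un c)ᶜ ∧ ‖deriv h z₀‖ / 2 < ‖deriv h z‖ :=
      (hD.eventually_mem hz₀).and (hcont.norm.eventually (lt_mem_nhds (by linarith)))
    obtain ⟨δ, hδ, hball⟩ := Metric.eventually_nhds_iff_ball.1 hev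
    set m : ℝ := (‖deriv h z₀‖ / 2) ^ 2 with hm
    have hm0 : 0 < m := by positivity
    have hvB : 0 < volume.real (ball z₀ δ) :=
      ENNReal.toReal_pos (measure_ball_pos volume z₀ hδ).ne' measure_ball_lt_top.ne
    have hBD : ball z₀ δ ⊆ (un c)ᶜ := fun z hz => (hball z hz).1
    set Lo : ℂ → ℝ := (ball z₀ δ).indicator (fun _ => m) with hLo
    have hLoint : ∫ z in (un c)ᶜ, Lo z = m * volume.real (ball z₀ δ) := by
      rw [hLo, setIntegral_indicator measurableSet_ball, inter_eq_self_of_subset_right hBD,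
        setIntegral_const, smul_eq_mul, mul_comm]
    have key : ∀ ε > 0, m * volume.real (ball z₀ δ) ≤ 8 * C * Real.pi * ε ^ 2 := by
      intro ε hε
      obtain ⟨R₂, hR₂⟩ : ∃ R₂ : ℝ, ∀ z, R₂ ≤ ‖z‖ → ‖h z‖ ≤ ε := by
        have h1 : ∀ᶠ z in cocompact ℂ, ‖h z‖ ≤ ε := by
          have h2 := hlim.norm
          rw [norm_zero] at h2
          exact (h2.eventually (gt_mem_nhds hε)).mono fun z hz => hz.le
        rw [← Metric.cobounded_eq_cocompact, hasBasis_cobounded_norm.eventually_iff] at h1
        obtain ⟨R₂, -, h2⟩ := h1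
        exact ⟨R₂, fun z hz => h2 hz⟩
      obtain ⟨R, hR0, hRa, hRb, hRc⟩ : ∃ R : ℝ, 0 < R ∧ 2 * R₁ ≤ R ∧ 2 * R₂ ≤ R ∧
          ‖z₀‖ + δ ≤ R :=
        ⟨max (2 * R₁) (max (2 * R₂) (‖z₀‖ + δ)), lt_of_lt_of_le (by positivity) (le_max_left _ _),
          le_max_left _ _, (le_max_left _ _).trans (le_max_right _ _),
          (le_max_right _ _).trans (le_max_right _ _)⟩
      obtain ⟨χ, hχ1, hχ2, hχ3, hχ4, hχ5⟩ := hC R hR0
      have hT : IsCompact (closedBall (0 : ℂ) (2 * R)) := isCompact_closedBall _ _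
      have hTsub : closedBall (0 : ℂ) (2 * R) ⊆ ball 0 (2 * R + 1) :=
        closedBall_subset_ball (by linarith)
      have ha : Nice (un c)ᶜ (closedBall 0 (2 * R)) (fun z => (h z).re) :=
        (hnice (2 * R + 1)).1.mono hTsub
      have hb : Nice (un c)ᶜ (closedBall 0 (2 * R)) (fun z => (h z).im) :=
        (hnice (2 * R + 1)).2.mono hTsub
      have hχ2' : ContDiff ℝ 2 χ := contDiff_infty.1 hχ1 2
      have hχN : Nice (un c)ᶜ (closedBall 0 (2 * R)) χ := Nice.of_contDiff hD subset_rfl hχ2'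
      have haχ : Nice (un c)ᶜ (closedBall 0 (2 * R)) (fun z => χ z * (h z).re) :=
        hχN.mul hD ha
      have hχout : ∀ z, z ∉ closedBall (0 : ℂ) (2 * R) → ∀ᶠ w in 𝓝 z, χ w = 0 := by
        intro z hz
        filter_upwards [isClosed_closedBall.isOpen_compl.mem_nhds hz] with w hw
        refine hχ4 w ?_
        have h1 : w ∉ closedBall (0 : ℂ) (2 * R) := hw
        rw [mem_closedBall_zero_iff, not_le] at h1
        exact h1.le
      have hst := stokes_sum (ι := {k // k ∈ c}) (H := fun k => k.1.1) (X := X) hD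
        (hHC R (by linarith)) hX5 hT
        (by
          intro z hz
          by_cases hzu : z ∈ un c
          · right
            obtain ⟨k, hk, hzk⟩ := mem_un.1 hzu
            exact mem_iUnion.2 ⟨⟨k, hk⟩, hzk⟩
          · exact Or.inl hzu) haχ hb
        (by
          intro z hz
          left
          filter_upwards [hχout z hz.2] with w hw
          rw [hw, zero_mul])
      obtain ⟨hFint, hFsum⟩ := hst
      have hF0 : ∫ z in (un c)ᶜ, J (fun w => χ w * (h w).re) (fun w => (h w).im) z = 0 := by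
        rw [hFsum]
        refine Finset.sum_eq_zero fun k _ => ?_
        have h1 : Fl (un c)ᶜ (X k) (fun w => χ w * (h w).re) (fun w => (h w).im) =
            Fl (un c)ᶜ (X k) (fun w => (h w).re) (fun w => (h w).im) := by
          unfold Fl
          have h2 : (fun w => X k w * (χ w * (h w).re)) = fun w => X k w * (h w).re := by
            funext w
            by_cases hw : w ∈ tsupport (X k)
            · have h3 := (hX3 k hw).1
              rw [mem_ball_zero_iff] at h3
              rw [hχ3 w (by linarith), one_mul]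
            · rw [image_eq_zero_of_notMem_tsupport hw, zero_mul, zero_mul]
          rw [h2]
        rw [h1]
        obtain ⟨q, hq⟩ := hline k.1 k.2
        exact Fl_line (hHC R (by linarith) k) ha hb hq
      have hκ0 : 0 ≤ ε * (C / R * (ε / (R / 2))) := by positivity
      -- the pointwise formula
      have hpt : ∀ z ∈ (un c)ᶜ, J (fun w => χ w * (h w).re) (fun w => (h w).im) z =
          χ z * ‖deriv h z‖ ^ 2 + (h z).re * J χ (fun w => (h w).im) z := by
        intro z hz
        have hdz : DifferentiableAt ℂ h z := hh.differentiableAt (hD.mem_nhds hz)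
        have h1 : DifferentiableAt ℝ (fun w => (h w).re) z :=
          reCLM.differentiableAt.comp z (hdz.restrictScalars ℝ)
        have h2 : DifferentiableAt ℝ χ z := (hχ2'.differentiable two_ne_zero) z
        rw [J_mul_left h2 h1, (v7_CR hdz).1]
      have hJ : ∀ z ∈ (un c)ᶜ, |(h z).re * J χ (fun w => (h w).im) z| ≤
          (closedBall (0 : ℂ) (2 * R)).indicator (fun _ => ε * (C / R * (ε / (R / 2)))) z := by
        intro z hz
        have hdz : DifferentiableAt ℂ h z := hh.differentiableAt (hD.mem_nhds hz)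
        by_cases hzT : z ∈ closedBall (0 : ℂ) (2 * R)
        · rw [indicator_of_mem hzT]
          rcases lt_or_ge ‖z‖ R with hzR | hzR
          · have h1 : χ =ᶠ[𝓝 z] fun _ => (1 : ℝ) := by
              filter_upwards [isOpen_ball.mem_nhds (mem_ball_zero_iff.2 hzR)] with w hw
              exact hχ3 w (mem_ball_zero_iff.1 hw).le
            rw [J_congr h1 EventuallyEq.rfl, J_const_left, mul_zero, abs_zero]
            exact hκ0
          · have h1 : ‖deriv h z‖ ≤ ε / (R / 2) := by
              have hin : closedBall z (R / 2) ⊆ (un c)ᶜ := by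
                intro w hw hwc
                have h2 := mem_ball_zero_iff.1 (hsub hwc)
                have h3 := mem_closedBall_iff_norm.1 hw
                have h4 := norm_sub_norm_le z w
                rw [norm_sub_rev] at h4
                linarith
              refine norm_deriv_le_of_forall_mem_sphere_norm_le (by positivity) ?_ ?_
              · refine DifferentiableOn.diffContOnCl (hh.mono ?_)
                rw [closure_ball z (by positivity : R / 2 ≠ 0)]
                exact hin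
              · intro w hw
                refine hR₂ w ?_
                have h3 := mem_sphere_iff_norm.1 hw
                have h4 := norm_sub_norm_le z w
                rw [norm_sub_rev] at h4
                linarith
            have h2 : |(h z).re| ≤ ε := (abs_re_le_norm _).trans (hR₂ z (by linarith))
            have h3 := abs_J_le χ (fun w => (h w).im) z
            rw [(v7_CR hdz).2] at h3
            rw [abs_mul]
            refine mul_le_mul h2 (h3.trans ?_) (abs_nonneg _) hε.le
            exact mul_le_mul (hχ5 z) h1 (norm_nonneg _) (by positivity)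
        · rw [indicator_of_notMem hzT]
          have h1 : χ =ᶠ[𝓝 z] fun _ => (0 : ℝ) := hχout z hzT
          rw [J_congr h1 EventuallyEq.rfl, J_const_left, mul_zero, abs_zero]
      have hindint : IntegrableOn ((closedBall (0 : ℂ) (2 * R)).indicator
          (fun _ => ε * (C / R * (ε / (R / 2))))) (un c)ᶜ :=
        ((integrable_indicator_iff measurableSet_closedBall).2
          (integrableOn_const measure_closedBall_lt_top.ne)).integrableOn
      have hUint := hFint.add hindint
      have hle : ∫ z in (un c)ᶜ, Lo z ≤ ∫ z in (un c)ᶜ,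
          (J (fun w => χ w * (h w).re) (fun w => (h w).im) +
            (closedBall (0 : ℂ) (2 * R)).indicator
              (fun _ => ε * (C / R * (ε / (R / 2))))) z := by
        refine integral_mono_of_nonneg ?_ hUint ?_
        · refine Eventually.of_forall fun z => ?_
          exact indicator_nonneg (fun _ _ => hm0.le) z
        · refine ae_restrict_of_forall_mem hD.measurableSet fun z hz => ?_
          have h1 := hJ z hz
          have h2 := hpt z hz
          simp only [Pi.add_apply]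
          rw [h2]
          have h3 := neg_abs_le ((h z).re * J χ (fun w => (h w).im) z)
          have h4 : 0 ≤ χ z * ‖deriv h z‖ ^ 2 := mul_nonneg (hχ2 z) (by positivity)
          by_cases hzB : z ∈ ball z₀ δ
          · rw [hLo, indicator_of_mem hzB]
            have h5 : ‖z‖ ≤ R := by
              have h6 := mem_ball_iff_norm.1 hzB
              have h7 := norm_sub_norm_le z z₀
              linarith
            rw [hχ3 z h5, one_mul]
            have h6 : m ≤ ‖deriv h z‖ ^ 2 :=
              pow_le_pow_left₀ (by positivity) (hball z hzB).2.le 2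
            linarith
          · rw [hLo, indicator_of_notMem hzB]
            linarith
      rw [hLoint, integral_add' hFint hindint, hF0, zero_add,
        setIntegral_indicator measurableSet_closedBall, setIntegral_const, smul_eq_mul] at hle
      have hvol : volume.real ((un c)ᶜ ∩ closedBall (0 : ℂ) (2 * R)) ≤ (2 * R) ^ 2 * Real.pi := by
        refine (measureReal_mono inter_subset_right measure_closedBall_lt_top.ne).trans ?_
        rw [measureReal_def, Complex.volume_closedBall]
        simp [ENNReal.toReal_mul, ENNReal.toReal_pow, ENNReal.toReal_ofReal hR0.le]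
      refine hle.trans ((mul_le_mul_of_nonneg_right hvol hκ0).trans_eq ?_)
      field_simp
      ring
    have hv : 0 < m * volume.real (ball z₀ δ) := mul_pos hm0 hvB
    have hK : 0 < 8 * C * Real.pi + 1 := by positivity
    have hε : 0 < min 1 (m * volume.real (ball z₀ δ) / (2 * (8 * C * Real.pi + 1))) :=
      lt_min one_pos (by positivity)
    have h1 := key _ hε
    have h2 := min_le_left 1 (m * volume.real (ball z₀ δ) / (2 * (8 * C * Real.pi + 1)))
    have h3 := min_le_right 1 (m * volume.real (ball z₀ δ) / (2 * (8 * C * Real.pi + 1)))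
    set e := min 1 (m * volume.real (ball z₀ δ) / (2 * (8 * C * Real.pi + 1))) with he
    rw [le_div_iff₀ (by positivity)] at h3
    have h4 : e ^ 2 ≤ e := by nlinarith
    have h5 : 8 * C * Real.pi * e ^ 2 ≤ (8 * C * Real.pi + 1) * e := by nlinarith [sq_nonneg e]
    nlinarith
  -- conclusion
  intro z hz
  have hcon := hc.isConnected
  have hconst : ∀ w ∈ (un c)ᶜ, h w = h z := fun w hw =>
    hD.is_const_of_deriv_eq_zero hcon.isPreconnected hh (fun x hx => hderiv x hx) hw hz
  have h1 : ∀ᶠ w in cocompact ℂ, h w = h z := by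
    filter_upwards [hc.isCompact.compl_mem_cocompact] with w hw
    exact hconst w hw
  exact tendsto_nhds_unique (tendsto_const_nhds.congr' (h1.mono fun w hw => hw.symm)) hlim

end RSM2
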