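import Pool.Agent.RSM2.TP
import Pool.Agent.RSM2.V7

/-!
# RSM2 module C1: the function `F` of a family of slits of slopes at most `1`

PROOF.  For a real `α` let `c_α` be the configuration of the pairs
`(slit (p j) (τ j) (ℓ j), arctan (τ j) - α)`, `j ∈ ι` (a finite set, the image of `Finset.univ`; the
slits are nonempty and pairwise disjoint, so distinct).  `un c_α = SF p τ ℓ`.  `Valid c_α`: a slit is
the segment from `p` to `p + ℓ (1 + τ i)`, compact, connected, nontrivial (`0 < ℓ`); its complement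
is connected (e.g. `{w | ‖w-p‖ + ‖w-q‖ > ‖p-q‖}` is the increasing union of the connected sets of
`isConnected_annulus`, `mem_segment_iff`; `slit p τ ℓ = segment ℝ p (p + ℓ (1 + τ I))`).
Let `G_α` be a solution (`exists_sol`): `nrm (φ_j - α) (G_α)` tends to a constant at the slit
`j`, `φ_j = arctan τ_j`.  Put `F = I * G_{π/2}`.  Then `F - I z → 0`, and
`nrm φ_j (F) = nrm (φ_j - π/2) (G_{π/2})` (`exp (-iφ) I = exp (-i(φ - π/2))`), and
`nrm φ (w) = cos φ (im w - tan φ re w)` (`nrm_eq`), `cos φ_j > 0`, `tan φ_j = τ_j`: this is `line`.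
`univ`: let `a` be real, `e = I + a = |e| exp (iα)` (`α = arg e`), `|e| ≥ 1`.  The function
`h = (F + a z)/e - G_α` is holomorphic on `(SF)ᶜ`, tends to `0` at infinity
(`(F + a z)/e - z = (F - I z)/e → 0`), and it is compatible with `c_α`: on the slit `j` the function
`nrm φ_j (z)` is constant, so `nrm φ_j (z)` tends to this constant at the slit, and
`nrm (φ_j - α) ((F + a z)/e) = nrm φ_j (F + a z) / |e|`.  Real and imaginary parts of `F`, `z`, `G_α` are
nice on bounded sets (`Sol.nice`, `Nice.re`, `Nice.im`, and linear combinations).  By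
`eq_zero_of_compat`, `h = 0`, so `F + a z = e G_α` on `(SF)ᶜ`, an injective function.
-/

open Complex Set Metric Filter Topology MeasureTheory

namespace RSM2

theorem c1_compl_segment {p q : ℂ} (hpq : p ≠ q) : IsConnected (segment ℝ p q)ᶜ := by
  have hk : 0 < ‖p - q‖ := norm_pos_iff.2 (sub_ne_zero.2 hpq)
  have h1 : (segment ℝ p q)ᶜ = jou p q '' {ξ : ℂ | 0 < ξ.re} := by
    ext w
    rw [mem_compl_iff, mem_segment_iff]
    constructor
    · intro h
      obtain ⟨ξ, h3, rfl⟩ := exists_jou hpq w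
      refine ⟨ξ, ?_, rfl⟩
      rcases h3.eq_or_lt with h4 | h4
      · exfalso
        apply h
        rw [norm_jou, ← h4, Real.cosh_zero, mul_one]
      · exact h4
    · rintro ⟨ξ, h, rfl⟩
      rw [norm_jou]
      intro h5
      have h6 : 1 < Real.cosh ξ.re := Real.one_lt_cosh.2 (ne_of_gt h)
      nlinarith
  rw [h1]
  refine IsConnected.image ⟨⟨1, ?_⟩, ?_⟩ _ (Continuous.continuousOn ?_)
  · change (0 : ℝ) < (1 : ℂ).re
    simp
  · exact (convex_halfSpace_re_gt 0).isPreconnected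
  · unfold jou
    fun_prop

theorem c1_slit_eq (p : ℂ) (τ : ℝ) {ℓ : ℝ} (hℓ : 0 < ℓ) :
    slit p τ ℓ = segment ℝ p (p + ℓ * (1 + τ * I)) := by
  rw [segment_eq_image']
  ext z
  constructor
  · rintro ⟨t, ⟨h1, h2⟩, rfl⟩
    refine ⟨t / ℓ, ⟨by positivity, (div_le_one hℓ).2 h2⟩, ?_⟩
    have h3 : (ℓ : ℂ) ≠ 0 := by exact_mod_cast hℓ.ne'
    simp only [Complex.real_smul]
    push_cast
    field_simp
    ring
  · rintro ⟨t, ⟨h1, h2⟩, rfl⟩
    refine ⟨t * ℓ, ⟨by positivity, ?_⟩, ?_⟩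
    · nlinarith
    · simp only [Complex.real_smul]
      push_cast
      ring

theorem c1_ne (p : ℂ) (τ : ℝ) {ℓ : ℝ} (hℓ : 0 < ℓ) : p ≠ p + ℓ * (1 + τ * I) := by
  intro h
  rw [left_eq_add] at h
  have h2 := congrArg Complex.re h
  simp at h2
  exact hℓ.ne' h2

/-- The configuration of the slits, with all angles turned by `-α`. -/
noncomputable def c1_cfg {ι : Type} [Fintype ι] (p : ι → ℂ) (τ ℓ : ι → ℝ) (α : ℝ) : Cfg :=
  letI := Classical.decEq (Set ℂ × ℝ)
  Finset.univ.image fun j => (slit (p j) (τ j) (ℓ j), Real.arctan (τ j) - α)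

section

variable {ι : Type} [Fintype ι] {p : ι → ℂ} {τ ℓ : ι → ℝ} {ε R R' : ℝ}

theorem c1_mem {α : ℝ} {h : Set ℂ × ℝ} :
    h ∈ c1_cfg p τ ℓ α ↔ ∃ j, (slit (p j) (τ j) (ℓ j), Real.arctan (τ j) - α) = h := by
  unfold c1_cfg
  simp

theorem c1_un (α : ℝ) : un (c1_cfg p τ ℓ α) = SF p τ ℓ := by
  ext z
  rw [mem_un]
  unfold SF
  rw [mem_iUnion]
  constructor
  · rintro ⟨h, h1, h2⟩
    obtain ⟨j, rfl⟩ := c1_mem.1 h1
    exact ⟨j, h2⟩
  · rintro ⟨j, hj⟩
    exact ⟨_, c1_mem.2 ⟨j, rfl⟩, hj⟩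

theorem c1_valid (h : SlitFam p τ ℓ ε R R') (α : ℝ) : Valid (c1_cfg p τ ℓ α) where
  compact k hk := by
    obtain ⟨j, rfl⟩ := c1_mem.1 hk
    exact isCompact_slit _ _ _
  conn k hk := by
    obtain ⟨j, rfl⟩ := c1_mem.1 hk
    simp only
    rw [c1_slit_eq _ _ (h.pos j)]
    exact ⟨⟨_, left_mem_segment ℝ _ _⟩, (convex_segment _ _).isPreconnected⟩
  nontriv k hk := by
    obtain ⟨j, rfl⟩ := c1_mem.1 hk
    simp only
    rw [c1_slit_eq _ _ (h.pos j)]
    exact ⟨_, left_mem_segment ℝ _ _, _, right_mem_segment ℝ _ _, c1_ne _ _ (h.pos j)⟩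
  compl k hk := by
    obtain ⟨j, rfl⟩ := c1_mem.1 hk
    simp only
    rw [c1_slit_eq _ _ (h.pos j)]
    exact c1_compl_segment (c1_ne _ _ (h.pos j))
  disj k hk k' hk' hne := by
    obtain ⟨i, rfl⟩ := c1_mem.1 hk
    obtain ⟨j, rfl⟩ := c1_mem.1 hk'
    refine h.disj i j ?_
    rintro rfl
    exact hne rfl

end

/-! ### nice complex functions -/

/-- Both parts are nice. -/
def c1_NC (D T : Set ℂ) (g : ℂ → ℂ) : Prop :=
  Nice D T (fun z => (g z).re) ∧ Nice D T (fun z => (g z).im)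

theorem c1_NC_add {D T : Set ℂ} (hD : IsOpen D) {f g : ℂ → ℂ} (hf : c1_NC D T f)
    (hg : c1_NC D T g) : c1_NC D T (fun z => f z + g z) :=
  ⟨(hf.1.add hD hg.1).congr hD fun _ _ => by simp,
    (hf.2.add hD hg.2).congr hD fun _ _ => by simp⟩

theorem c1_NC_mul {D T : Set ℂ} (hD : IsOpen D) {f : ℂ → ℂ} (hf : c1_NC D T f) (k : ℂ) :
    c1_NC D T (fun z => k * f z) :=
  ⟨((hf.1.const_mul hD k.re).sub hD (hf.2.const_mul hD k.im)).congr hD fun _ _ => by simp,
    ((hf.2.const_mul hD k.re).add hD (hf.1.const_mul hD k.im)).congr hD fun _ _ => by simp⟩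

theorem c1_NC_id {D : Set ℂ} (hD : IsOpen D) (s : ℝ) : c1_NC D (ball 0 s) (fun z => z) :=
  ⟨Nice.re hD ball_subset_closedBall, Nice.im hD ball_subset_closedBall⟩

/-! ### normal coordinates -/

theorem c1_nrm_I (φ : ℝ) (w : ℂ) : nrm (φ - Real.pi / 2) w = nrm φ (I * w) := by
  rw [nrm_eq, nrm_eq, Real.cos_sub_pi_div_two, Real.sin_sub_pi_div_two]
  simp
  ring

theorem c1_nrm_div (φ : ℝ) {e : ℂ} (he : e ≠ 0) (w : ℂ) :
    nrm (φ - arg e) (w / e) = nrm φ w / ‖e‖ := by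
  have hn : (‖e‖ : ℂ) ≠ 0 := by
    exact_mod_cast (norm_pos_iff.2 he).ne'
  unfold nrm
  have h1 : exp (-((φ - arg e : ℝ) : ℂ) * I) * (w / e) = (exp (-(φ : ℂ) * I) * w) / (‖e‖ : ℂ) := by
    have h2 : exp (-((φ - arg e : ℝ) : ℂ) * I) = exp (-(φ : ℂ) * I) * exp (arg e * I) := by
      rw [← Complex.exp_add]
      congr 1
      push_cast
      ring
    have h3 : (‖e‖ : ℂ) * exp (arg e * I) = e := Complex.norm_mul_exp_arg_mul_I e
    rw [h2, eq_div_iff hn]
    calc exp (-(φ : ℂ) * I) * exp (arg e * I) * (w / e) * ‖e‖ =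
        exp (-(φ : ℂ) * I) * w * (((‖e‖ : ℂ) * exp (arg e * I)) / e) := by ring
      _ = exp (-(φ : ℂ) * I) * w := by rw [h3, div_self he, mul_one]
  rw [h1, Complex.div_ofReal_im]

theorem c1_cos_pos (τ : ℝ) : 0 < Real.cos (Real.arctan τ) := Real.cos_arctan_pos τ

theorem c1_sin (τ : ℝ) : Real.sin (Real.arctan τ) = τ * Real.cos (Real.arctan τ) := by
  rw [Real.sin_arctan, Real.cos_arctan]
  ring

theorem c1_nrm_arctan (τ : ℝ) (w : ℂ) :
    nrm (Real.arctan τ) w = Real.cos (Real.arctan τ) * (w.im - τ * w.re) := by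
  rw [nrm_eq, c1_sin]
  ring

theorem c1_nrm_slit (p : ℂ) (τ ℓ : ℝ) {z : ℂ} (hz : z ∈ slit p τ ℓ) :
    nrm (Real.arctan τ) z = nrm (Real.arctan τ) p := by
  obtain ⟨t, _, rfl⟩ := hz
  rw [c1_nrm_arctan, c1_nrm_arctan]
  simp
  left
  ring

theorem c1_nrm_cont (φ : ℝ) : Continuous (nrm φ) := by
  unfold nrm
  fun_prop

theorem exists_F {ι : Type} {p : ι → ℂ} {τ ℓ : ι → ℝ} {ε R R' : ℝ}
    (h : SlitFam p τ ℓ ε R R') : ∃ F : ℂ → ℂ, FProps p τ ℓ F := by
  have hfin := h.fin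
  let _ : Fintype ι := Fintype.ofFinite ι
  have hopen : IsOpen (SF p τ ℓ)ᶜ := h.isOpen_compl
  obtain ⟨G, hG⟩ := exists_sol (c1_valid h (Real.pi / 2))
  have hun := c1_un (p := p) (τ := τ) (ℓ := ℓ)
  have hGd : DifferentiableOn ℂ G (SF p τ ℓ)ᶜ := by
    have := hG.diff
    rwa [hun] at this
  have hline : ∀ j, ∃ q : ℝ, Tendsto (fun z => nrm (Real.arctan (τ j)) (I * G z))
      (nearIn (SF p τ ℓ)ᶜ (slit (p j) (τ j) (ℓ j))) (𝓝 q) := by
    intro j
    obtain ⟨q, hq⟩ := hG.line _ (c1_mem.2 ⟨j, rfl⟩)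
    rw [hun] at hq
    refine ⟨q, hq.congr fun z => ?_⟩
    exact c1_nrm_I _ _
  refine ⟨fun z => I * G z, hGd.const_mul I, ?_, ?_, ?_⟩
  · have h1 := hG.lim.const_mul I
    rw [mul_zero] at h1
    refine h1.congr fun z => ?_
    ring
  · intro j
    obtain ⟨q, hq⟩ := hline j
    refine ⟨q / Real.cos (Real.arctan (τ j)), (hq.div_const _).congr fun z => ?_⟩
    rw [c1_nrm_arctan, mul_div_cancel_left₀ _ (c1_cos_pos _).ne']
  · intro a
    obtain ⟨e, he⟩ : ∃ e : ℂ, e = I + a := ⟨_, rfl⟩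
    have he0 : e ≠ 0 := by
      intro h0
      rw [h0] at he
      have := congrArg Complex.im he
      simp at this
    have hv := c1_valid h (arg e)
    obtain ⟨G', hG'⟩ := exists_sol hv
    have hG'd : DifferentiableOn ℂ G' (SF p τ ℓ)ᶜ := by
      have := hG'.diff
      rwa [hun] at this
    have key := eq_zero_of_compat hv (h := fun z => (I * G z + a * z) / e - G' z) ?_ ?_ ?_ ?_
    · intro z hz w hw hzw
      have hz1 := key z (by rw [hun]; exact hz)
      have hw1 := key w (by rw [hun]; exact hw)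
      simp only at hzw hz1 hw1
      rw [hzw] at hz1
      refine hG'.inj (by rw [hun]; exact hz) (by rw [hun]; exact hw) ?_
      have h3 := hz1.trans hw1.symm
      exact sub_right_injective h3
    · rw [hun]
      exact (((hGd.const_mul I).add (differentiableOn_id.const_mul (a : ℂ))).div_const e).sub hG'd
    · have h1 := (hG.lim.const_mul (I / e)).sub hG'.lim
      rw [mul_zero, sub_zero] at h1
      refine h1.congr fun z => ?_
      rw [he] at he0 ⊢
      field_simp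
      ring
    · intro s
      have hD : IsOpen (un (c1_cfg p τ ℓ (arg e)))ᶜ := hv.isOpen
      have n1 : c1_NC (un (c1_cfg p τ ℓ (arg e)))ᶜ (ball 0 s) G := by
        have := hG.nice (c1_valid h (Real.pi / 2)) s
        rw [hun] at this ⊢
        exact this
      have n2 : c1_NC (un (c1_cfg p τ ℓ (arg e)))ᶜ (ball 0 s) G' := hG'.nice hv s
      have n3 := c1_NC_add hD (c1_NC_add hD (c1_NC_mul hD n1 (I / e))
        (c1_NC_mul hD (c1_NC_id hD s) (a / e))) (c1_NC_mul hD n2 (-1))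
      have h4 : (fun z => (I * G z + a * z) / e - G' z) =
          fun z => I / e * G z + a / e * z + -1 * G' z := by
        funext z
        ring
      have n4 : c1_NC (un (c1_cfg p τ ℓ (arg e)))ᶜ (ball 0 s)
          (fun z => (I * G z + a * z) / e - G' z) := by
        rw [h4]
        exact n3
      exact n4
    · intro k hk
      obtain ⟨j, rfl⟩ := c1_mem.1 hk
      obtain ⟨q1, hq1⟩ := hline j
      obtain ⟨q2, hq2⟩ := hG'.line _ hk
      have hq3 : Tendsto (fun z => nrm (Real.arctan (τ j)) z)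
          (nearIn (SF p τ ℓ)ᶜ (slit (p j) (τ j) (ℓ j)))
          (𝓝 (nrm (Real.arctan (τ j)) (p j))) := by
        refine tendsto_nearIn fun y hy => ?_
        have h5 := ((c1_nrm_cont (Real.arctan (τ j))).tendsto y).mono_left
          (nhdsWithin_le_nhds (s := (SF p τ ℓ)ᶜ))
        rw [c1_nrm_slit _ _ _ hy] at h5
        exact h5
      rw [hun] at hq2 ⊢
      refine ⟨(q1 + a * nrm (Real.arctan (τ j)) (p j)) / ‖e‖ - q2,
        (((hq1.add (hq3.const_mul a)).div_const ‖e‖).sub hq2).congr fun z => ?_⟩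
      simp only
      rw [nrm_sub, c1_nrm_div _ he0, nrm_add]
      congr 3
      rw [nrm_eq, nrm_eq]
      simp
      ring

end RSM2
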