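import Pool.Agent.RSM2.TP
import Pool.Agent.RSM2.V7

/-!
# RSM2 module C2: positivity, monotonicity and bounds for `F`

Let `D = (SF p τ ℓ)ᶜ`, open, connected (it is the complement `(un c)ᶜ` of a valid configuration, see
C1 and `Valid.isConnected`; prove here a lemma `isConnected_compl_SF`).

PROOFS.
`quot_im_pos`: for `z ≠ w` in `D`: `0 < Im ((F z - F w) / (z - w))`.  Fix `w ∈ D`; the function
`g = dslope F w` is continuous on `D` (`F` is differentiable at `w`), and it takes no real value: if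
`g z = -a`, `z ≠ w`, then `F z + a z = F w + a w`; if `deriv F w = -a` then the injective holomorphic
function `F + a z` has vanishing derivative at `w`, impossible (`deriv_ne_zero_of_injOn`,
`Pool/Agent/Lib/Hurwitz.lean`).  So `Im g` is continuous without zeros on the connected set `D`, and
`g z → I` as `z → ∞` (`(F z - I z)/(z - w) → 0`).  So `Im g > 0`.
`mono`: `A = -Re F`.  If `re z = re w`, `im z < im w`: `(F w - F z)/(w - z)` with `w - z = i t`, `t > 0`, has
imaginary part `-Re (F w - F z)/t > 0`.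
`bound`: `G = -I F` is holomorphic and injective on `D` (`univ 0`), `G z - z → 0`;
`growth_near`, `growth_far` with `r = R + R'` (`SF ⊆ closedBall 0 r`).
`nice`: `nice_parts` for `F` (bounded by `s + 4r` on `D ∩ ball 0 s`).
-/

set_option linter.all false

open Complex Set Metric Filter Topology MeasureTheory

namespace RSM2

variable {ι : Type} {p : ι → ℂ} {τ ℓ : ι → ℝ} {ε R R' : ℝ} {F : ℂ → ℂ}

private theorem isConnected_compl_segment {a b : ℂ} (hab : a ≠ b) :
    IsConnected (segment ℝ a b)ᶜ := by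
  have hU : (segment ℝ a b)ᶜ = ⋃ n : ℕ, {w : ℂ | ‖a - b‖ < ‖w - a‖ + ‖w - b‖ ∧
      ‖w - a‖ + ‖w - b‖ < ‖a - b‖ + 1 + n} := by
    ext w
    simp only [mem_compl_iff, mem_iUnion, mem_setOf_eq, mem_segment_iff]
    constructor
    · intro h
      have h1 : ‖a - b‖ ≤ ‖w - a‖ + ‖w - b‖ := by
        calc ‖a - b‖ = ‖(w - b) - (w - a)‖ := by congr 1; ring
          _ ≤ ‖w - b‖ + ‖w - a‖ := norm_sub_le _ _
          _ = _ := add_comm _ _
      obtain ⟨n, hn⟩ := exists_nat_gt (‖w - a‖ + ‖w - b‖)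
      exact ⟨n, lt_of_le_of_ne h1 (Ne.symm h), by linarith [norm_nonneg (a - b)]⟩
    · rintro ⟨n, h1, _⟩ h
      exact h1.ne' h
  have h0 : ∀ n : ℕ, IsConnected {w : ℂ | ‖a - b‖ < ‖w - a‖ + ‖w - b‖ ∧
      ‖w - a‖ + ‖w - b‖ < ‖a - b‖ + 1 + n} := fun n =>
    isConnected_annulus hab le_rfl (by linarith [(Nat.cast_nonneg n : (0 : ℝ) ≤ n)])
  rw [hU]
  obtain ⟨w, hw1, hw2⟩ := (h0 0).nonempty
  have hw : ∀ n : ℕ, w ∈ {w : ℂ | ‖a - b‖ < ‖w - a‖ + ‖w - b‖ ∧
      ‖w - a‖ + ‖w - b‖ < ‖a - b‖ + 1 + n} := by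
    intro n
    refine ⟨hw1, ?_⟩
    have h2 : (0 : ℝ) ≤ n := Nat.cast_nonneg n
    simp only [Nat.cast_zero, add_zero] at hw2
    linarith
  exact ⟨⟨w, mem_iUnion.2 ⟨0, hw 0⟩⟩, isPreconnected_iUnion ⟨w, mem_iInter.2 hw⟩
    fun n => (h0 n).isPreconnected⟩

private theorem slit_eq_segment (q : ℂ) (t l : ℝ) (hl : 0 < l) :
    slit q t l = segment ℝ q (q + l * (1 + t * I)) := by
  rw [segment_eq_image']
  unfold slit
  ext w
  constructor
  · rintro ⟨s, hs, rfl⟩
    refine ⟨s / l, ⟨div_nonneg hs.1 hl.le, (div_le_one hl).2 hs.2⟩, ?_⟩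
    have hlc : (l : ℂ) ≠ 0 := by exact_mod_cast hl.ne'
    show q + (s / l : ℝ) • (q + l * (1 + t * I) - q) = q + s * (1 + t * I)
    rw [Complex.real_smul]
    push_cast
    field_simp
    ring
  · rintro ⟨s, hs, rfl⟩
    refine ⟨s * l, ⟨mul_nonneg hs.1 hl.le, mul_le_of_le_one_left hl.le hs.2⟩, ?_⟩
    show q + ((s * l : ℝ) : ℂ) * (1 + t * I) = q + s • (q + l * (1 + t * I) - q)
    rw [Complex.real_smul]
    push_cast
    ring

private theorem slit_ne (q : ℂ) (t l : ℝ) (hl : 0 < l) : q ≠ q + l * (1 + t * I) := by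
  intro h
  have h1 := congrArg Complex.re h
  simp at h1
  exact hl.ne' h1

theorem isConnected_compl_SF (h : SlitFam p τ ℓ ε R R') : IsConnected (SF p τ ℓ)ᶜ := by
  classical
  haveI := h.fin
  haveI := Fintype.ofFinite ι
  let c : Cfg := Finset.univ.image fun j => (slit (p j) (τ j) (ℓ j), (0 : ℝ))
  have hmem : ∀ k ∈ c, ∃ j, (slit (p j) (τ j) (ℓ j), (0 : ℝ)) = k := by
    intro k hk
    obtain ⟨j, _, hj⟩ := Finset.mem_image.1 hk
    exact ⟨j, hj⟩
  have hun : un c = SF p τ ℓ := by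
    ext z
    rw [mem_un]
    unfold SF
    rw [mem_iUnion]
    constructor
    · rintro ⟨k, hk, hz⟩
      obtain ⟨j, rfl⟩ := hmem k hk
      exact ⟨j, hz⟩
    · rintro ⟨j, hz⟩
      exact ⟨_, Finset.mem_image_of_mem _ (Finset.mem_univ j), hz⟩
  have hv : Valid c := by
    refine ⟨?_, ?_, ?_, ?_, ?_⟩
    · intro k hk
      obtain ⟨j, rfl⟩ := hmem k hk
      exact isCompact_slit _ _ _
    · intro k hk
      obtain ⟨j, rfl⟩ := hmem k hk
      show IsConnected (slit (p j) (τ j) (ℓ j))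
      unfold slit
      refine (isConnected_Icc (h.pos j).le).image _ ?_
      exact Continuous.continuousOn (by fun_prop)
    · intro k hk
      obtain ⟨j, rfl⟩ := hmem k hk
      show (slit (p j) (τ j) (ℓ j)).Nontrivial
      rw [slit_eq_segment _ _ _ (h.pos j)]
      exact ⟨_, left_mem_segment ℝ _ _, _, right_mem_segment ℝ _ _, slit_ne _ _ _ (h.pos j)⟩
    · intro k hk
      obtain ⟨j, rfl⟩ := hmem k hk
      show IsConnected (slit (p j) (τ j) (ℓ j))ᶜ
      rw [slit_eq_segment _ _ _ (h.pos j)]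
      exact isConnected_compl_segment (slit_ne _ _ _ (h.pos j))
    · intro k hk k' hk' hne
      obtain ⟨j, rfl⟩ := hmem k hk
      obtain ⟨j', rfl⟩ := hmem k' hk'
      refine h.disj j j' ?_
      rintro rfl
      exact hne rfl
  rw [← hun]
  exact hv.isConnected

theorem FProps.quot_im_pos (h : SlitFam p τ ℓ ε R R') (hF : FProps p τ ℓ F) {z w : ℂ}
    (hz : z ∉ SF p τ ℓ) (hw : w ∉ SF p τ ℓ) (hne : z ≠ w) :
    0 < ((F z - F w) / (z - w)).im := by
  have hD : IsOpen (SF p τ ℓ)ᶜ := h.isCompact.isClosed.isOpen_compl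
  have hDc := isConnected_compl_SF h
  have hwn : (SF p τ ℓ)ᶜ ∈ 𝓝 w := hD.mem_nhds hw
  have hdw : DifferentiableAt ℂ F w := (hF.diff w hw).differentiableAt hwn
  have hgc : ContinuousOn (dslope F w) (SF p τ ℓ)ᶜ :=
    (continuousOn_dslope hwn).2 ⟨hF.diff.continuousOn, hdw⟩
  have hslope : ∀ v, v ≠ w → dslope F w v = (F v - F w) / (v - w) := by
    intro v hv
    rw [dslope_of_ne F hv, slope_def_field]
  have hreal : ∀ v ∈ (SF p τ ℓ)ᶜ, (dslope F w v).im ≠ 0 := by
    intro v hv him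
    have hg : dslope F w v = ((dslope F w v).re : ℂ) := by
      apply Complex.ext
      · simp
      · simpa using him
    set a : ℝ := -(dslope F w v).re with ha
    have hga : dslope F w v = -(a : ℂ) := by
      rw [hg, ha]
      push_cast
      ring
    by_cases hvw : v = w
    · rw [hvw, dslope_same] at hga
      have hH : DifferentiableOn ℂ (fun z => F z + a * z) (SF p τ ℓ)ᶜ :=
        hF.diff.add (differentiableOn_id.const_mul _)
      have h1 := Pool.Agent.Lib.Hurwitz.deriv_ne_zero_of_injOn hD hH (hF.univ a) hw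
      apply h1
      have h2 : HasDerivAt (fun z => F z + a * z) (deriv F w + a * 1) w :=
        hdw.hasDerivAt.add ((hasDerivAt_id w).const_mul (a : ℂ))
      rw [h2.deriv, hga]
      ring
    · rw [hslope v hvw] at hga
      have h1 : v - w ≠ 0 := sub_ne_zero.2 hvw
      rw [div_eq_iff h1] at hga
      refine hvw (hF.univ a hv hw ?_)
      show F v + a * v = F w + a * w
      linear_combination hga
  have hlim : Tendsto (fun v => dslope F w v - I) (cocompact ℂ) (𝓝 0) := by
    have h1 : Tendsto (fun v => (F v - I * v) - (F w - I * w)) (cocompact ℂ)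
        (𝓝 (0 - (F w - I * w))) := hF.lim.sub_const _
    have h2 : Tendsto (fun v : ℂ => (v - w)⁻¹) (cocompact ℂ) (𝓝 0) := by
      have h3 : Tendsto (fun v : ℂ => v - w) (cocompact ℂ) (cocompact ℂ) :=
        (Homeomorph.subRight w).isClosedEmbedding.tendsto_cocompact
      exact tendsto_inv₀_cobounded.comp (by rw [Metric.cobounded_eq_cocompact]; exact h3)
    have h4 := h1.mul h2
    rw [mul_zero] at h4
    refine h4.congr' ?_
    have h5 : ({w} : Set ℂ)ᶜ ∈ cocompact ℂ := isCompact_singleton.compl_mem_cocompact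
    filter_upwards [h5] with v hv
    have hvw : v ≠ w := hv
    have h6 : v - w ≠ 0 := sub_ne_zero.2 hvw
    rw [hslope v hvw]
    field_simp
    ring
  have hfar : ∃ v ∈ (SF p τ ℓ)ᶜ, 0 < (dslope F w v).im := by
    have h1 : ∀ᶠ v in cocompact ℂ, ‖dslope F w v - I‖ < 1 := by
      have := hlim (Metric.ball_mem_nhds (0 : ℂ) one_pos)
      filter_upwards [this] with v hv
      simpa using hv
    have h2 : (SF p τ ℓ)ᶜ ∈ cocompact ℂ := h.isCompact.compl_mem_cocompact
    haveI : NeBot (cocompact ℂ) := inferInstance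
    obtain ⟨v, hv1, hv2⟩ := (h1.and h2).exists
    refine ⟨v, hv2, ?_⟩
    have h3 : |(dslope F w v - I).im| < 1 := (Complex.abs_im_le_norm _).trans_lt hv1
    rw [Complex.sub_im, Complex.I_im] at h3
    have := (abs_lt.1 h3).1
    linarith
  obtain ⟨v, hv, hvpos⟩ := hfar
  have hpos : 0 < (dslope F w z).im := by
    by_contra hle
    push Not at hle
    have h1 := hDc.isPreconnected.intermediate_value hz hv
      (Complex.continuous_im.comp_continuousOn hgc)
    obtain ⟨u, hu, hu0⟩ := h1 ⟨hle, hvpos.le⟩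
    exact hreal u hu hu0
  rwa [hslope z hne] at hpos

theorem FProps.mono (h : SlitFam p τ ℓ ε R R') (hF : FProps p τ ℓ F) :
    MonoY (SF p τ ℓ) (fun z => -(F z).re) := by
  intro z w hz hw hre him
  show -(F z).re ≤ -(F w).re
  rcases eq_or_lt_of_le him with him | him
  · have : z = w := Complex.ext hre him
    rw [this]
  · have hne : w ≠ z := by
      rintro rfl
      exact lt_irrefl _ him
    have h1 := hF.quot_im_pos h hw hz hne
    have h2 : w - z = ((w.im - z.im : ℝ) : ℂ) * I := by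
      apply Complex.ext
      · simp [hre]
      · simp
    have ht : 0 < w.im - z.im := sub_pos.2 him
    have htc : ((w.im - z.im : ℝ) : ℂ) ≠ 0 := by exact_mod_cast ht.ne'
    have h3 : (F w - F z) / (w - z) = ((w.im - z.im)⁻¹ : ℝ) * (-(I * (F w - F z))) := by
      rw [h2]
      push_cast at htc ⊢
      rw [div_eq_iff (mul_ne_zero htc I_ne_zero)]
      have h4 : I * I = -1 := Complex.I_mul_I
      field_simp
      linear_combination (F w - F z) * h4
    rw [h3, Complex.im_ofReal_mul] at h1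
    have h5 : (-(I * (F w - F z))).im = -((F w).re - (F z).re) := by simp
    rw [h5] at h1
    have h6 : 0 < (w.im - z.im)⁻¹ := inv_pos.2 ht
    have h7 : 0 < -((F w).re - (F z).re) := (mul_pos_iff_of_pos_left h6).1 h1
    linarith

private theorem bound_gen (hF : FProps p τ ℓ F) {r : ℝ} (hr : 0 < r)
    (hS : SF p τ ℓ ⊆ closedBall 0 r) {z : ℂ} (hz : z ∉ SF p τ ℓ) : ‖F z‖ ≤ ‖z‖ + 4 * r := by
  have hdiff : DifferentiableOn ℂ (fun z => -I * F z) (SF p τ ℓ)ᶜ := hF.diff.const_mul _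
  have hinj : InjOn (fun z => -I * F z) (SF p τ ℓ)ᶜ := by
    intro v hv w hw hvw
    refine hF.univ 0 hv hw ?_
    have h1 : F v = F w := mul_left_cancel₀ (neg_ne_zero.2 I_ne_zero) hvw
    show F v + ((0 : ℝ) : ℂ) * v = F w + ((0 : ℝ) : ℂ) * w
    rw [h1]
    push_cast
    ring
  have hlim : Tendsto (fun z => -I * F z - z) (cocompact ℂ) (𝓝 0) := by
    have h1 := hF.lim.const_mul (-I)
    rw [mul_zero] at h1
    refine h1.congr fun z => ?_
    linear_combination z * Complex.I_mul_I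
  have hn : ‖F z‖ = ‖-I * F z‖ := by
    rw [norm_mul, norm_neg, Complex.norm_I, one_mul]
  rw [hn]
  rcases le_total ‖z‖ (2 * r) with hz2 | hz2
  · have h1 := growth_near hr hS hdiff hinj hlim hz hz2
    linarith [norm_nonneg z]
  · have hsub : {z : ℂ | r < ‖z‖} ⊆ (SF p τ ℓ)ᶜ := by
      intro v hv hvS
      have h1 := hS hvS
      rw [mem_closedBall, dist_zero_right] at h1
      exact absurd hv (not_lt.2 h1)
    have h1 := growth_far hr (hdiff.mono hsub) (hinj.mono hsub) hlim hz2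
    have hzpos : 0 < ‖z‖ := by linarith
    have h2 : 4 * r ^ 2 / ‖z‖ ≤ 2 * r := by
      rw [div_le_iff₀ hzpos]
      nlinarith
    have h3 : ‖-I * F z‖ ≤ ‖-I * F z - z‖ + ‖z‖ := by
      calc ‖-I * F z‖ = ‖(-I * F z - z) + z‖ := by congr 1; ring
        _ ≤ _ := norm_add_le _ _
    linarith

theorem FProps.bound (h : SlitFam p τ ℓ ε R R') (hR : 0 < R) (hR' : 0 < R')
    (hF : FProps p τ ℓ F) {z : ℂ} (hz : z ∉ SF p τ ℓ) : ‖F z‖ ≤ ‖z‖ + 4 * (R + R') := by
  refine bound_gen hF (by positivity) ?_ hz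
  intro v hv
  unfold SF at hv
  obtain ⟨j, hj⟩ := mem_iUnion.1 hv
  have h1 := h.box j v hj
  rw [mem_closedBall, dist_zero_right]
  exact (Complex.norm_le_abs_re_add_abs_im v).trans (add_le_add h1.1 h1.2)

theorem FProps.nice (h : SlitFam p τ ℓ ε R R') (hF : FProps p τ ℓ F) (r : ℝ) :
    Nice (SF p τ ℓ)ᶜ (closedBall 0 r) (fun z => (F z).re) ∧
      Nice (SF p τ ℓ)ᶜ (closedBall 0 r) (fun z => (F z).im) := by
  have hD : IsOpen (SF p τ ℓ)ᶜ := h.isCompact.isClosed.isOpen_compl
  have hinj : InjOn F (SF p τ ℓ)ᶜ := by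
    intro v hv w hw hvw
    refine hF.univ 0 hv hw ?_
    show F v + ((0 : ℝ) : ℂ) * v = F w + ((0 : ℝ) : ℂ) * w
    rw [hvw]
    push_cast
    ring
  have hr0 : 0 < |R| + |R'| + 1 := by positivity
  have hS : SF p τ ℓ ⊆ closedBall 0 (|R| + |R'| + 1) := by
    intro v hv
    unfold SF at hv
    obtain ⟨j, hj⟩ := mem_iUnion.1 hv
    have h1 := h.box j v hj
    rw [mem_closedBall, dist_zero_right]
    have h2 := Complex.norm_le_abs_re_add_abs_im v
    linarith [h1.1, h1.2, le_abs_self R, le_abs_self R']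
  have h1 := nice_parts (s := r + 1) (M := r + 1 + 4 * (|R| + |R'| + 1)) hD hF.diff hinj
    (fun z hz hzs => by
      have := bound_gen hF hr0 hS hz
      linarith)
  have h2 : closedBall (0 : ℂ) r ⊆ ball 0 (r + 1) := closedBall_subset_ball (by linarith)
  exact ⟨h1.1.mono h2, h1.2.mono h2⟩

end RSM2
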