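import Pool.Agent.RSM2.C2

/-!
# RSM2 module C3: the energy of `F - i z`

Slopes at most `1`, slits in the box `|x| ≤ R`, `|y| ≤ R'`; `k = F - I z = k₁ + i k₂`,
`k₁ = P + y`, `k₂ = Q - x`, `F = P + i Q`, `D = (SF)ᶜ`, `‖k'‖² = J k₁ k₂`.

PROOF.  Let `X j` be cut-off functions for the slits (`exists_cut`, disjoint supports, `0 ≤ X j ≤ 1`), and
`χ` a cut-off function, `χ = 1` on `ball 0 s`, `χ = 0` outside of `ball 0 (2s)`, `‖∇χ‖ ≤ C/s`, `s` large.
`∫_D χ ‖k'‖² = ∫_D J (χ k₁) k₂ - ∫_D k₁ J χ k₂`.  As in V7 the last integral tends to `0` as `s → ∞`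
(`k = O(1/z)`, `k' = O(1/z²)`).  By `stokes_sum` the first is `∑_j Fl D (X j) k₁ k₂`.
FLUX at the slit `j`: the functions `Q - τ P` and `y - τ x` tend to constants there; with
`Q = τ P + n`, `y = τ x + m` (`n = Q - τP`, `m = y - τ x` tend to constants), by `Fl_add`, `Fl_smul`,
`Fl_of_tendsto_left/right`, `Fl_self`, `Fl_swap` (all functions are nice):
`Fl k₁ k₂ = Fl (P + τ x) (τ P - x) = -Fl P x + τ² Fl x P = -(1 + τ²) Fl P x`.
`Fl D (X j) P x = ∫_D J (X j P) re = -∫_D ∂_y (X j P)`.  With `A = -P` this says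
`-Fl D (X j) P x = -∫_D ∂_y (X j A) = jump (SF) A (X j) ≥ 0` (`jump_nonneg`, `FProps.mono`).  So
`∫_D ‖k'‖² = ∑ (1 + τ_j²) jump A (X j) ≤ 2 ∑ jump A (X j) = 2 jump A (∑ X j) ≤ 2 jump A φ` for
every smooth `φ ≥ ∑ X j` with compact support (`jump_add`, `jump_le`); take
`φ (x + iy) = φ₁ x φ₂ y`, `φ₁ = 1` on `|x| ≤ R + σ`, `φ₁ = 0` off `|x| ≤ 2R`, `φ₂ = 1` on
`|y| ≤ R' + σ`, `φ₂ = 0` off `|y| ≤ 2R'`, both even, with values in `[0, 1]` and `φ₂` monotone on the two
half lines, so `∫ |φ₂'| = 2` (`X j` supported in the `σ`-neighbourhood of the slits, `σ` small).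
`jump A φ = -∫_D φ_y A - ∫_D φ A_y ≤ ∫ |φ_y| |A|` since `A_y ≥ 0` (`A` is nondecreasing in `y`), and
`|A| ≤ ‖z‖ + 4(R + R') ≤ 6(R + R')` on the support of `φ`; `∫ |φ_y| ≤ 4R · 2`.
So `∫_D ‖k'‖² ≤ 2 · 8R · 6(R + R') = 96 R (R + R')`.
-/

open Complex Set Metric Filter Topology MeasureTheory

namespace RSM2

/-- An even bump function: `1` on `|t| ≤ 5r/4`, `0` on `|t| ≥ 2r`. -/
noncomputable def c3_bmp (r t : ℝ) : ℝ := Real.smoothTransition ((4 - (t / r) ^ 2) / 2)

theorem c3_bmp_smooth (r : ℝ) : ContDiff ℝ (⊤ : ℕ∞) (c3_bmp r) := by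
  unfold c3_bmp
  exact Real.smoothTransition.contDiff.comp (by fun_prop)

theorem c3_bmp_nonneg (r t : ℝ) : 0 ≤ c3_bmp r t := Real.smoothTransition.nonneg _

theorem c3_bmp_le_one (r t : ℝ) : c3_bmp r t ≤ 1 := Real.smoothTransition.le_one _

theorem c3_bmp_one {r t : ℝ} (hr : 0 < r) (ht : |t| ≤ 5 / 4 * r) : c3_bmp r t = 1 := by
  apply Real.smoothTransition.one_of_one_le
  have h1 : |t / r| ≤ 5 / 4 := by
    rw [abs_div, abs_of_pos hr, div_le_iff₀ hr]
    exact ht
  have h2 : (t / r) ^ 2 ≤ (5 / 4) ^ 2 := sq_le_sq' (by linarith [abs_le.1 h1]) (abs_le.1 h1).2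
  linarith

theorem c3_bmp_zero {r t : ℝ} (hr : 0 < r) (ht : 2 * r ≤ |t|) : c3_bmp r t = 0 := by
  apply Real.smoothTransition.zero_of_nonpos
  have h1 : 2 ≤ |t / r| := by
    rw [abs_div, abs_of_pos hr, le_div_iff₀ hr]
    exact ht
  have h2 : (2 : ℝ) ^ 2 ≤ |t / r| ^ 2 := pow_le_pow_left₀ (by norm_num) h1 2
  rw [sq_abs] at h2
  linarith

theorem c3_bmp_compact {r : ℝ} (hr : 0 < r) : HasCompactSupport (c3_bmp r) := by
  refine HasCompactSupport.intro (isCompact_Icc (a := -(2 * r)) (b := 2 * r)) fun t ht => ?_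
  apply c3_bmp_zero hr
  by_contra h
  push Not at h
  exact ht ⟨(abs_lt.1 h).1.le, (abs_lt.1 h).2.le⟩

theorem c3_bmp_deriv {r : ℝ} (hr : 0 < r) (t : ℝ) :
    ∃ m : ℝ, 0 ≤ m ∧ deriv (c3_bmp r) t = -(t * m) := by
  have h1 : HasDerivAt (fun t : ℝ => (4 - (t / r) ^ 2) / 2) (-(t / r ^ 2)) t := by
    have h2 : HasDerivAt (fun t : ℝ => t / r) (1 / r) t := (hasDerivAt_id t).div_const r
    have h3 := ((h2.pow 2).const_sub 4).div_const 2
    refine h3.congr_deriv ?_
    simp only [Nat.cast_ofNat, Nat.add_one_sub_one, pow_one]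
    field_simp
  have h2 : DifferentiableAt ℝ Real.smoothTransition ((4 - (t / r) ^ 2) / 2) :=
    (Real.smoothTransition.contDiffAt (n := 1)).differentiableAt (by norm_num)
  have h3 : HasDerivAt (c3_bmp r)
      (deriv Real.smoothTransition ((4 - (t / r) ^ 2) / 2) * (-(t / r ^ 2))) t :=
    h2.hasDerivAt.comp t h1
  refine ⟨deriv Real.smoothTransition ((4 - (t / r) ^ 2) / 2) / r ^ 2, ?_, ?_⟩
  · exact div_nonneg (Real.smoothTransition.monotone.deriv_nonneg) (by positivity)
  · rw [h3.deriv]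
    field_simp

theorem c3_bmp_int {r : ℝ} (hr : 0 < r) : ∫ t, c3_bmp r t ≤ 4 * r := by
  have h1 : ∫ t, c3_bmp r t ≤ ∫ t, (Icc (-(2 * r)) (2 * r)).indicator (fun _ => (1 : ℝ)) t := by
    refine integral_mono_of_nonneg (Eventually.of_forall fun t => c3_bmp_nonneg r t) ?_
      (Eventually.of_forall fun t => ?_)
    · exact (integrable_indicator_iff measurableSet_Icc).2 (integrableOn_const (by simp))
    · by_cases ht : t ∈ Icc (-(2 * r)) (2 * r)
      · rw [indicator_of_mem ht]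
        exact c3_bmp_le_one r t
      · rw [indicator_of_notMem ht, c3_bmp_zero hr]
        by_contra h
        push Not at h
        exact ht ⟨(abs_lt.1 h).1.le, (abs_lt.1 h).2.le⟩
  refine h1.trans (le_of_eq ?_)
  rw [integral_indicator measurableSet_Icc, setIntegral_const, smul_eq_mul, mul_one,
    Real.volume_real_Icc_of_le (by linarith)]
  ring

theorem c3_bmp_var {r : ℝ} (hr : 0 < r) : ∫ t, |deriv (c3_bmp r) t| ≤ 2 := by
  have hd : Differentiable ℝ (c3_bmp r) := (c3_bmp_smooth r).differentiable (by norm_num)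
  have hc : Continuous (deriv (c3_bmp r)) :=
    (c3_bmp_smooth r).continuous_deriv (by norm_num)
  have h0 : ∀ t, t ∉ Icc (-(2 * r)) (2 * r) → |deriv (c3_bmp r) t| = 0 := by
    intro t ht
    have h1 : deriv (c3_bmp r) t = 0 := by
      by_contra h
      have h2 := support_deriv_subset (f := c3_bmp r) h
      have h3 : tsupport (c3_bmp r) ⊆ Icc (-(2 * r)) (2 * r) := by
        refine closure_minimal (fun s hs => ?_) isClosed_Icc
        by_contra h4
        refine hs (c3_bmp_zero hr ?_)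
        by_contra h5
        push Not at h5
        exact h4 ⟨(abs_lt.1 h5).1.le, (abs_lt.1 h5).2.le⟩
      exact ht (h3 h2)
    rw [h1, abs_zero]
  have h1 : ∫ t, |deriv (c3_bmp r) t| = ∫ t in (-(2 * r))..(2 * r), |deriv (c3_bmp r) t| := by
    rw [intervalIntegral.integral_of_le (by linarith), ← integral_Icc_eq_integral_Ioc,
      setIntegral_eq_integral_of_forall_compl_eq_zero h0]
  have hi : ∀ a b : ℝ, IntervalIntegrable (fun t => |deriv (c3_bmp r) t|) volume a b :=
    fun a b => hc.abs.intervalIntegrable a b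
  rw [h1, ← intervalIntegral.integral_add_adjacent_intervals (hi _ 0) (hi 0 _)]
  have h2 : ∫ t in (-(2 * r))..0, |deriv (c3_bmp r) t| =
      ∫ t in (-(2 * r))..0, deriv (c3_bmp r) t := by
    refine intervalIntegral.integral_congr fun t ht => ?_
    rw [uIcc_of_le (by linarith)] at ht
    obtain ⟨m, hm, e⟩ := c3_bmp_deriv hr t
    rw [e, abs_of_nonneg]
    nlinarith [ht.2]
  have h3 : ∫ t in (0)..(2 * r), |deriv (c3_bmp r) t| =
      ∫ t in (0)..(2 * r), -deriv (c3_bmp r) t := by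
    refine intervalIntegral.integral_congr fun t ht => ?_
    rw [uIcc_of_le (by linarith)] at ht
    obtain ⟨m, hm, e⟩ := c3_bmp_deriv hr t
    rw [e, abs_of_nonpos]
    nlinarith [ht.1]
  rw [h2, h3, intervalIntegral.integral_neg,
    intervalIntegral.integral_deriv_eq_sub (fun t _ => hd t) (hc.intervalIntegrable _ _),
    intervalIntegral.integral_deriv_eq_sub (fun t _ => hd t) (hc.intervalIntegrable _ _),
    c3_bmp_zero hr (t := -(2 * r)) (by rw [abs_neg, abs_of_pos (by linarith)]),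
    c3_bmp_zero hr (t := 2 * r) (by rw [abs_of_pos (by linarith)])]
  have h4 := c3_bmp_le_one r 0
  linarith

/-- The cut-off function of the box. -/
noncomputable def c3_phi (R R' : ℝ) (z : ℂ) : ℝ := c3_bmp R z.re * c3_bmp R' z.im

theorem c3_phi_smooth (R R' : ℝ) : ContDiff ℝ (⊤ : ℕ∞) (c3_phi R R') := by
  unfold c3_phi
  exact ((c3_bmp_smooth R).comp reCLM.contDiff).mul ((c3_bmp_smooth R').comp imCLM.contDiff)

theorem c3_phi_zero {R R' : ℝ} (hR : 0 < R) (hR' : 0 < R') {z : ℂ}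
    (hz : ¬ (|z.re| ≤ 2 * R ∧ |z.im| ≤ 2 * R')) : c3_phi R R' z = 0 := by
  unfold c3_phi
  by_cases h1 : |z.re| ≤ 2 * R
  · have h2 : 2 * R' ≤ |z.im| := by
      by_contra h3
      push Not at h3
      exact hz ⟨h1, h3.le⟩
    rw [c3_bmp_zero hR' h2, mul_zero]
  · rw [c3_bmp_zero hR (by linarith), zero_mul]

theorem c3_box_closed (a b : ℝ) : IsCompact {z : ℂ | |z.re| ≤ a ∧ |z.im| ≤ b} := by
  refine Metric.isCompact_of_isClosed_isBounded ?_ ?_
  · exact (isClosed_le (continuous_re.abs) continuous_const).inter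
      (isClosed_le (continuous_im.abs) continuous_const)
  · refine (isBounded_closedBall (x := (0 : ℂ)) (r := a + b)).subset fun z hz => ?_
    rw [mem_closedBall_zero_iff]
    exact (Complex.norm_le_abs_re_add_abs_im z).trans (add_le_add hz.1 hz.2)

theorem c3_phi_compact {R R' : ℝ} (hR : 0 < R) (hR' : 0 < R') :
    HasCompactSupport (c3_phi R R') :=
  HasCompactSupport.intro (c3_box_closed (2 * R) (2 * R')) fun _ hz => c3_phi_zero hR hR' hz

theorem c3_phi_dY (R R' : ℝ) (z : ℂ) :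
    dY (c3_phi R R') z = c3_bmp R z.re * deriv (c3_bmp R') z.im := by
  have d1 : DifferentiableAt ℝ (fun w : ℂ => c3_bmp R w.re) z :=
    (((c3_bmp_smooth R).comp reCLM.contDiff).differentiable (by norm_num)) z
  have d2 : DifferentiableAt ℝ (fun w : ℂ => c3_bmp R' w.im) z :=
    (((c3_bmp_smooth R').comp imCLM.contDiff).differentiable (by norm_num)) z
  have h1 : dY (fun w : ℂ => c3_bmp R w.re) z = 0 := by
    rw [dY_comp (f := fun w : ℂ => w.re)
      (((c3_bmp_smooth R).differentiable (by norm_num)) _) reCLM.differentiableAt, dY_re,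
      mul_zero]
  have h2 : dY (fun w : ℂ => c3_bmp R' w.im) z = deriv (c3_bmp R') z.im := by
    rw [dY_comp (f := fun w : ℂ => w.im)
      (((c3_bmp_smooth R').differentiable (by norm_num)) _) imCLM.differentiableAt, dY_im,
      mul_one]
  unfold c3_phi
  rw [dY_mul d1 d2, h1, h2, mul_zero, add_zero]

theorem c3_phi_int {R R' : ℝ} (hR : 0 < R) (hR' : 0 < R') :
    Integrable (fun z => |dY (c3_phi R R') z|) ∧ ∫ z, |dY (c3_phi R R') z| ≤ 8 * R := by
  constructor
  · have h1 : ContDiff ℝ 1 (c3_phi R R') := (c3_phi_smooth R R').of_le (by exact_mod_cast le_top)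
    exact ((j8_dY_cont h1).integrable_of_hasCompactSupport
      (j8_dY_supp (c3_phi_compact hR hR'))).abs
  · have h1 : (fun z : ℂ => |dY (c3_phi R R') z|) =
        fun z => (fun q : ℝ × ℝ => c3_bmp R q.1 * |deriv (c3_bmp R') q.2|)
          (measurableEquivRealProd z) := by
      funext z
      rw [c3_phi_dY, abs_mul, abs_of_nonneg (c3_bmp_nonneg R _)]
      rfl
    have h5 := volume_preserving_equiv_real_prod.integral_comp
      measurableEquivRealProd.measurableEmbedding
      (fun q : ℝ × ℝ => c3_bmp R q.1 * |deriv (c3_bmp R') q.2|)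
    rw [h1, h5, Measure.volume_eq_prod,
      integral_prod_mul (fun x : ℝ => c3_bmp R x) (fun y : ℝ => |deriv (c3_bmp R') y|)]
    have h2 := c3_bmp_int hR
    have h3 := c3_bmp_var hR'
    have h4 : 0 ≤ ∫ t, |deriv (c3_bmp R') t| := integral_nonneg fun t => abs_nonneg _
    nlinarith

section

variable {ι : Type} {p : ι → ℂ} {τ ℓ : ι → ℝ} {ε R R' : ℝ} {F : ℂ → ℂ}

/-- The derivative of a function which is nondecreasing in `y` is nonnegative. -/
theorem c3_dY_nonneg {S : Set ℂ} (hS : IsOpen Sᶜ) {A : ℂ → ℝ} (hA : MonoY S A) {z : ℂ}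
    (hz : z ∈ Sᶜ) (hd : DifferentiableAt ℝ A z) : 0 ≤ dY A z := by
  have h1 : HasDerivAt (fun t : ℝ => A (z + t * I)) (dY A z) 0 := by
    have h2 : HasDerivAt (fun t : ℝ => z + t * I) (1 * I) 0 :=
      ((hasDerivAt_id (0 : ℝ)).ofReal_comp.mul_const I).const_add z
    have h3 : HasFDerivAt A (fderiv ℝ A z) (z + ((0 : ℝ) : ℂ) * I) := by
      simpa using hd.hasFDerivAt
    have h4 := h3.comp_hasDerivAt (0 : ℝ) h2
    rw [one_mul] at h4
    exact h4
  have h2 := h1.tendsto_slope_zero_right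
  have h3 : ∀ᶠ t : ℝ in 𝓝[>] 0, z + t * I ∈ Sᶜ := by
    have h4 : Tendsto (fun t : ℝ => z + t * I) (𝓝[>] 0) (𝓝 z) := by
      have h5 : Continuous (fun t : ℝ => z + t * I) := by fun_prop
      have h6 := (h5.tendsto 0).mono_left (nhdsWithin_le_nhds (s := Ioi (0 : ℝ)))
      simpa using h6
    exact h4.eventually (hS.mem_nhds hz)
  refine ge_of_tendsto h2 ?_
  filter_upwards [h3, self_mem_nhdsWithin] with t ht ht0
  have ht0' : 0 < t := ht0
  have h4 : A z ≤ A (z + t * I) := by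
    refine hA z _ hz ht ?_ ?_
    · simp
    · simp [ht0'.le]
  rw [smul_eq_mul]
  refine mul_nonneg (by positivity) ?_
  rw [zero_add]
  simp only [ofReal_zero, zero_mul, add_zero]
  linarith

theorem c3_jump_le (h : SlitFam p τ ℓ 1 R R') (hR : 0 < R) (hR' : 0 < R')
    (hF : FProps p τ ℓ F) :
    jump (SF p τ ℓ) (fun z => -(F z).re) (c3_phi R R') ≤ 48 * R * (R + R') := by
  have hD := h.isOpen_compl
  have hA : ∀ r, Nice (SF p τ ℓ)ᶜ (closedBall 0 r) (fun z => -(F z).re) := by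
    intro r
    have h1 := (hF.nice h r).1.const_mul hD (-1)
    refine h1.congr hD fun z _ => ?_
    ring
  have hmono := hF.mono h
  have hs1 : ContDiff ℝ 1 (c3_phi R R') := (c3_phi_smooth R R').of_le (by exact_mod_cast le_top)
  have hcs := c3_phi_compact hR hR'
  have hint := (integrable_jump h hA hs1 hcs).2
  obtain ⟨hi, hle⟩ := c3_phi_int hR hR'
  unfold jump
  rw [← integral_neg]
  have h1 : ∫ z in (SF p τ ℓ)ᶜ, -dY (fun w => c3_phi R R' w * -(F w).re) z ≤
      ∫ z in (SF p τ ℓ)ᶜ, 6 * (R + R') * |dY (c3_phi R R') z| := by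
    refine setIntegral_mono_on hint.neg (hi.const_mul _).integrableOn hD.measurableSet
      fun z hz => ?_
    have dA : DifferentiableAt ℝ (fun w => -(F w).re) z :=
      ((hA 0).smooth.contDiffAt (hD.mem_nhds hz)).differentiableAt (by norm_num)
    have d1 : DifferentiableAt ℝ (c3_phi R R') z := hs1.differentiable (by norm_num) z
    rw [dY_mul d1 dA]
    have h2 := c3_dY_nonneg hD hmono hz dA
    have h3 : 0 ≤ c3_phi R R' z := mul_nonneg (c3_bmp_nonneg _ _) (c3_bmp_nonneg _ _)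
    have h4 := mul_nonneg h3 h2
    by_cases hb : |z.re| ≤ 2 * R ∧ |z.im| ≤ 2 * R'
    · have h5 : |(F z).re| ≤ 6 * (R + R') := by
        have h6 := (abs_re_le_norm (F z)).trans (hF.bound h hR hR' hz)
        have h7 := Complex.norm_le_abs_re_add_abs_im z
        linarith [hb.1, hb.2]
      have h6 : (F z).re * dY (c3_phi R R') z ≤ 6 * (R + R') * |dY (c3_phi R R') z| := by
        refine (le_abs_self _).trans ?_
        rw [abs_mul]
        exact mul_le_mul_of_nonneg_right h5 (abs_nonneg _)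
      linarith
    · have h5 : dY (c3_phi R R') z = 0 := by
        have h6 : c3_phi R R' =ᶠ[𝓝 z] fun _ => (0 : ℝ) := by
          filter_upwards [(c3_box_closed (2 * R) (2 * R')).isClosed.isOpen_compl.mem_nhds hb]
            with w hw
          exact c3_phi_zero hR hR' hw
        rw [dY_congr h6, dY_const]
      rw [h5, abs_zero, mul_zero, mul_zero, add_zero]
      linarith
  refine h1.trans ?_
  have h2 : ∫ z in (SF p τ ℓ)ᶜ, 6 * (R + R') * |dY (c3_phi R R') z| ≤
      ∫ z, 6 * (R + R') * |dY (c3_phi R R') z| :=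
    setIntegral_le_integral (hi.const_mul _)
      (Eventually.of_forall fun z => by positivity)
  refine h2.trans ?_
  rw [integral_const_mul]
  have h3 : 0 ≤ R + R' := by positivity
  nlinarith

/-- The flux of `F - i z` at a slit. -/
theorem c3_flux (h : SlitFam p τ ℓ ε R R') (hF : FProps p τ ℓ F) (j : ι) {r : ℝ} {X : ℂ → ℝ}
    (hX : HoleCut (SF p τ ℓ)ᶜ (slit (p j) (τ j) (ℓ j)) (closedBall 0 r) X) :
    Fl (SF p τ ℓ)ᶜ X (fun z => (F z - I * z).re) (fun z => (F z - I * z).im) =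
      (1 + τ j ^ 2) * jump (SF p τ ℓ) (fun z => -(F z).re) X := by
  have hD := h.isOpen_compl
  obtain ⟨hP, hQ⟩ := hF.nice h r
  have hx : Nice (SF p τ ℓ)ᶜ (closedBall 0 r) (fun z => z.re) := Nice.re hD subset_rfl
  have hy : Nice (SF p τ ℓ)ᶜ (closedBall 0 r) (fun z => z.im) := Nice.im hD subset_rfl
  have hn : Nice (SF p τ ℓ)ᶜ (closedBall 0 r) (fun z => (F z).im - τ j * (F z).re) :=
    hQ.sub hD (hP.const_mul hD (τ j))
  have hm : Nice (SF p τ ℓ)ᶜ (closedBall 0 r) (fun z => z.im - τ j * z.re) :=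
    hy.sub hD (hx.const_mul hD (τ j))
  obtain ⟨q, hq⟩ := hF.line j
  have hmt : Tendsto (fun z : ℂ => z.im - τ j * z.re)
      (nearIn (SF p τ ℓ)ᶜ (slit (p j) (τ j) (ℓ j))) (𝓝 ((p j).im - τ j * (p j).re)) := by
    have hc : Continuous (fun z : ℂ => z.im - τ j * z.re) := by fun_prop
    rw [Metric.tendsto_nhds]
    intro e he
    rw [eventually_nearIn]
    refine ⟨{z : ℂ | dist (z.im - τ j * z.re) ((p j).im - τ j * (p j).re) < e}, ?_, ?_, ?_⟩
    · exact isOpen_lt (hc.dist continuous_const) continuous_const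
    · rintro z ⟨t, _, rfl⟩
      have h1 : (p j + t * (1 + τ j * I)).im - τ j * (p j + t * (1 + τ j * I)).re =
          (p j).im - τ j * (p j).re := by
        simp
        ring
      change dist _ _ < e
      rw [h1, dist_self]
      exact he
    · intro z hz
      exact hz.1
  have e1 : Fl (SF p τ ℓ)ᶜ X (fun z => (F z - I * z).re) (fun z => (F z - I * z).im) =
      Fl (SF p τ ℓ)ᶜ X (fun z => (F z).re + z.im) (fun z => (F z).im - z.re) := by
    refine Fl_congr hX (fun z _ => ?_) fun z _ => ?_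
    · simp
    · simp
  have hb : Nice (SF p τ ℓ)ᶜ (closedBall 0 r) (fun z => (F z).im - z.re) := hQ.sub hD hx
  -- P d(Q - x)
  have s1 : Fl (SF p τ ℓ)ᶜ X (fun z => (F z).re) (fun z => (F z).im - z.re) =
      -Fl (SF p τ ℓ)ᶜ X (fun z => (F z).re) (fun z => z.re) := by
    have h1 : Fl (SF p τ ℓ)ᶜ X (fun z => (F z).re) (fun z => (F z).im - z.re) =
        Fl (SF p τ ℓ)ᶜ X (fun z => (F z).re)
          (fun z => (((F z).im - τ j * (F z).re) + τ j * (F z).re) + (-1) * z.re) :=
      Fl_congr hX (fun z _ => rfl) fun z _ => by ring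
    rw [h1, Fl_add_right hX hP (hn.add hD (hP.const_mul hD (τ j))) (hx.const_mul hD (-1)),
      Fl_add_right hX hP hn (hP.const_mul hD (τ j)), Fl_of_tendsto_right hX hP hn hq,
      Fl_smul_right hX hP hP, Fl_self hX hP, Fl_smul_right hX hP hx]
    ring
  -- y dx
  have s2 : Fl (SF p τ ℓ)ᶜ X (fun z => z.im) (fun z => z.re) = 0 := by
    have h1 : Fl (SF p τ ℓ)ᶜ X (fun z => z.im) (fun z => z.re) =
        Fl (SF p τ ℓ)ᶜ X (fun z => (z.im - τ j * z.re) + τ j * z.re) (fun z => z.re) :=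
      Fl_congr hX (fun z _ => by ring) fun z _ => rfl
    rw [h1, Fl_add_left hX hm (hx.const_mul hD (τ j)) hx, Fl_of_tendsto_left hX hm hx hmt,
      Fl_smul_left hX hx hx, Fl_self hX hx]
    ring
  -- y dP
  have s3 : Fl (SF p τ ℓ)ᶜ X (fun z => z.im) (fun z => (F z).re) =
      τ j * Fl (SF p τ ℓ)ᶜ X (fun z => z.re) (fun z => (F z).re) := by
    have h1 : Fl (SF p τ ℓ)ᶜ X (fun z => z.im) (fun z => (F z).re) =
        Fl (SF p τ ℓ)ᶜ X (fun z => (z.im - τ j * z.re) + τ j * z.re) (fun z => (F z).re) :=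
      Fl_congr hX (fun z _ => by ring) fun z _ => rfl
    rw [h1, Fl_add_left hX hm (hx.const_mul hD (τ j)) hP, Fl_of_tendsto_left hX hm hP hmt,
      Fl_smul_left hX hx hP]
    ring
  -- y d(Q - x)
  have s4 : Fl (SF p τ ℓ)ᶜ X (fun z => z.im) (fun z => (F z).im - z.re) =
      τ j ^ 2 * Fl (SF p τ ℓ)ᶜ X (fun z => z.re) (fun z => (F z).re) := by
    have h1 : Fl (SF p τ ℓ)ᶜ X (fun z => z.im) (fun z => (F z).im - z.re) =
        Fl (SF p τ ℓ)ᶜ X (fun z => z.im)
          (fun z => (((F z).im - τ j * (F z).re) + τ j * (F z).re) + (-1) * z.re) :=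
      Fl_congr hX (fun z _ => rfl) fun z _ => by ring
    rw [h1, Fl_add_right hX hy (hn.add hD (hP.const_mul hD (τ j))) (hx.const_mul hD (-1)),
      Fl_add_right hX hy hn (hP.const_mul hD (τ j)), Fl_of_tendsto_right hX hy hn hq,
      Fl_smul_right hX hy hP, s3, Fl_smul_right hX hy hx, s2]
    ring
  have s5 : Fl (SF p τ ℓ)ᶜ X (fun z => (F z).re) (fun z => z.re) =
      -jump (SF p τ ℓ) (fun z => -(F z).re) X := by
    unfold Fl jump
    rw [neg_neg]
    refine setIntegral_congr_fun hD.measurableSet fun z hz => ?_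
    have dP : DifferentiableAt ℝ (fun w => (F w).re) z :=
      (hP.smooth.contDiffAt (hD.mem_nhds hz)).differentiableAt (by norm_num)
    have dX1 : DifferentiableAt ℝ X z := (hX.smooth.differentiable (by norm_num)) z
    simp only
    unfold J
    rw [dX_re, dY_re]
    have h2 : (fun w => X w * -(F w).re) = fun w => (-1) * (X w * (F w).re) := by
      funext w
      ring
    have h3 := dY_const_mul (f := fun w => X w * (F w).re) (z := z) (-1) (dX1.mul dP)
    rw [h2, h3]
    ring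
  rw [e1, Fl_add_left hX hP hy hb, s1, s4, Fl_swap hX hx hP, s5]
  ring

/-- The energy of a holomorphic function on balls is bounded by the sum of its fluxes. -/
theorem c3_energy_ball [Fintype ι] (h : SlitFam p τ ℓ ε R R') {k : ℂ → ℂ}
    (hk : DifferentiableOn ℂ k (SF p τ ℓ)ᶜ) (hlim : Tendsto k (cocompact ℂ) (𝓝 0))
    (hnice : ∀ s : ℝ, Nice (SF p τ ℓ)ᶜ (closedBall 0 s) (fun z => (k z).re) ∧
      Nice (SF p τ ℓ)ᶜ (closedBall 0 s) (fun z => (k z).im))
    {X : ι → ℂ → ℝ} (hXs : ∀ i, ContDiff ℝ (⊤ : ℕ∞) (X i)) (hXc : ∀ i, HasCompactSupport (X i))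
    (hXt : ∀ i, tsupport (X i) ⊆ (⋃ k ∈ {k : ι | k ≠ i}, slit (p k) (τ k) (ℓ k))ᶜ)
    (hX1 : ∀ i, ∀ᶠ z in 𝓝ˢ (slit (p i) (τ i) (ℓ i)), X i z = 1) {M : ℝ}
    (hM : ∑ i, Fl (SF p τ ℓ)ᶜ (X i) (fun z => (k z).re) (fun z => (k z).im) ≤ M) (s : ℝ) :
    IntegrableOn (fun z => ‖deriv k z‖ ^ 2) (ball 0 s ∩ (SF p τ ℓ)ᶜ) ∧
      ∫ z in ball 0 s ∩ (SF p τ ℓ)ᶜ, ‖deriv k z‖ ^ 2 ≤ M := by
  have hD := h.isOpen_compl
  obtain ⟨R₁, hR₁, hsub, hsubX⟩ : ∃ R₁ > 0, SF p τ ℓ ⊆ ball 0 R₁ ∧
      ∀ i, tsupport (X i) ⊆ ball 0 R₁ := by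
    have h1 : IsCompact (SF p τ ℓ ∪ ⋃ i, tsupport (X i)) :=
      h.isCompact.union (isCompact_iUnion fun i => hXc i)
    obtain ⟨r, hr⟩ := h1.isBounded.subset_ball (0 : ℂ)
    have h2 : ball (0 : ℂ) r ⊆ ball 0 (|r| + 1) := ball_subset_ball (by linarith [le_abs_self r])
    refine ⟨|r| + 1, by positivity, (subset_union_left.trans hr).trans h2, fun i => ?_⟩
    exact (((subset_iUnion _ i).trans subset_union_right).trans hr).trans h2
  have hX5 : ∀ i j : ι, i ≠ j → ∀ᶠ z in 𝓝ˢ (slit (p j) (τ j) (ℓ j)), X i z = 0 := by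
    intro i j hij
    have h1 : (tsupport (X i))ᶜ ∈ 𝓝ˢ (slit (p j) (τ j) (ℓ j)) := by
      rw [(isClosed_tsupport (X i)).isOpen_compl.mem_nhdsSet]
      intro z hz hz'
      refine hXt i hz' ?_
      simp only [mem_iUnion]
      exact ⟨j, hij.symm, hz⟩
    filter_upwards [h1] with z hz
    exact image_eq_zero_of_notMem_tsupport hz
  have hHC : ∀ r, R₁ ≤ r → ∀ i : ι,
      HoleCut (SF p τ ℓ)ᶜ (slit (p i) (τ i) (ℓ i)) (closedBall 0 (2 * r)) (X i) := by
    intro r hr i
    refine ⟨hD, isCompact_slit _ _ _, ?_, hXs i, hXc i, hX1 i, ?_⟩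
    · exact Set.disjoint_left.2 fun z hz hz' => hz (mem_iUnion.2 ⟨i, hz'⟩)
    · intro z hz
      have h1 := hsubX i hz
      have h2 := hXt i hz
      refine ⟨?_, ?_⟩
      · rw [mem_ball_zero_iff] at h1
        rw [mem_closedBall_zero_iff]
        linarith
      · by_cases hzu : z ∈ SF p τ ℓ
        · right
          obtain ⟨j, hzj⟩ := mem_iUnion.1 hzu
          by_cases hji : j = i
          · rw [← hji]; exact hzj
          · refine absurd ?_ h2
            simp only [mem_iUnion]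
            exact ⟨j, hji, hzj⟩
        · exact Or.inl hzu
  obtain ⟨C, hC0, hC⟩ := v7_cut
  -- integrability on balls
  have hint : IntegrableOn (fun z => ‖deriv k z‖ ^ 2) (ball 0 s ∩ (SF p τ ℓ)ᶜ) := by
    have h1 := (hnice s).2.l2
    have h2 : IntegrableOn (fun z => ‖fderiv ℝ (fun z => (k z).im) z‖ ^ 2)
        (ball 0 s ∩ (SF p τ ℓ)ᶜ) :=
      h1.mono_set fun z hz => ⟨hz.2, ball_subset_closedBall hz.1⟩
    refine h2.congr_fun (fun z hz => ?_) (measurableSet_ball.inter hD.measurableSet)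
    have hdz : DifferentiableAt ℂ k z := hk.differentiableAt (hD.mem_nhds hz.2)
    simp only
    rw [(v7_CR hdz).2]
  refine ⟨hint, ?_⟩
  have key : ∀ e > 0, ∫ z in ball 0 s ∩ (SF p τ ℓ)ᶜ, ‖deriv k z‖ ^ 2 ≤
      M + 8 * C * Real.pi * e ^ 2 := by
    intro e he
    obtain ⟨R₂, hR₂⟩ : ∃ R₂ : ℝ, ∀ z, R₂ ≤ ‖z‖ → ‖k z‖ ≤ e := by
      have h1 : ∀ᶠ z in cocompact ℂ, ‖k z‖ ≤ e := by
        have h2 := hlim.norm
        rw [norm_zero] at h2
        exact (h2.eventually (gt_mem_nhds he)).mono fun z hz => hz.le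
      rw [← Metric.cobounded_eq_cocompact, hasBasis_cobounded_norm.eventually_iff] at h1
      obtain ⟨R₂, -, h2⟩ := h1
      exact ⟨R₂, fun z hz => h2 hz⟩
    obtain ⟨r, hr0, hra, hrb, hrc⟩ : ∃ r : ℝ, 0 < r ∧ 2 * R₁ ≤ r ∧ 2 * R₂ ≤ r ∧ s ≤ r :=
      ⟨max (2 * R₁) (max (2 * R₂) s), lt_of_lt_of_le (by positivity) (le_max_left _ _),
        le_max_left _ _, (le_max_left _ _).trans (le_max_right _ _),
        (le_max_right _ _).trans (le_max_right _ _)⟩
    obtain ⟨χ, hχ1, hχ2, hχ3, hχ4, hχ5⟩ := hC r hr0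
    have hT : IsCompact (closedBall (0 : ℂ) (2 * r)) := isCompact_closedBall _ _
    obtain ⟨ha, hb⟩ := hnice (2 * r)
    have hχ2' : ContDiff ℝ 2 χ := contDiff_infty.1 hχ1 2
    have hχN : Nice (SF p τ ℓ)ᶜ (closedBall 0 (2 * r)) χ := Nice.of_contDiff hD subset_rfl hχ2'
    have haχ : Nice (SF p τ ℓ)ᶜ (closedBall 0 (2 * r)) (fun z => χ z * (k z).re) :=
      hχN.mul hD ha
    have hχout : ∀ z, z ∉ closedBall (0 : ℂ) (2 * r) → ∀ᶠ w in 𝓝 z, χ w = 0 := by
      intro z hz
      filter_upwards [isClosed_closedBall.isOpen_compl.mem_nhds hz] with w hw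
      refine hχ4 w ?_
      have h1 : w ∉ closedBall (0 : ℂ) (2 * r) := hw
      rw [mem_closedBall_zero_iff, not_le] at h1
      exact h1.le
    have hst := stokes_sum (ι := ι) (H := fun i => slit (p i) (τ i) (ℓ i)) (X := X) hD
      (hHC r (by linarith)) hX5 hT
      (by
        intro z hz
        by_cases hzu : z ∈ SF p τ ℓ
        · exact Or.inr hzu
        · exact Or.inl hzu) haχ hb
      (by
        intro z hz
        left
        filter_upwards [hχout z hz.2] with w hw
        rw [hw, zero_mul])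
    obtain ⟨hFint, hFsum⟩ := hst
    have hF0 : ∫ z in (SF p τ ℓ)ᶜ, J (fun w => χ w * (k w).re) (fun w => (k w).im) z ≤ M := by
      rw [hFsum]
      refine (le_of_eq (Finset.sum_congr rfl fun i _ => ?_)).trans hM
      unfold Fl
      have h2 : (fun w => X i w * (χ w * (k w).re)) = fun w => X i w * (k w).re := by
        funext w
        by_cases hw : w ∈ tsupport (X i)
        · have h3 := hsubX i hw
          rw [mem_ball_zero_iff] at h3
          rw [hχ3 w (by linarith), one_mul]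
        · rw [image_eq_zero_of_notMem_tsupport hw, zero_mul, zero_mul]
      rw [h2]
    have hκ0 : 0 ≤ e * (C / r * (e / (r / 2))) := by positivity
    -- the pointwise formula
    have hpt : ∀ z ∈ (SF p τ ℓ)ᶜ, J (fun w => χ w * (k w).re) (fun w => (k w).im) z =
        χ z * ‖deriv k z‖ ^ 2 + (k z).re * J χ (fun w => (k w).im) z := by
      intro z hz
      have hdz : DifferentiableAt ℂ k z := hk.differentiableAt (hD.mem_nhds hz)
      have h1 : DifferentiableAt ℝ (fun w => (k w).re) z :=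
        reCLM.differentiableAt.comp z (hdz.restrictScalars ℝ)
      have h2 : DifferentiableAt ℝ χ z := (hχ2'.differentiable two_ne_zero) z
      rw [J_mul_left h2 h1, (v7_CR hdz).1]
    have hJ : ∀ z ∈ (SF p τ ℓ)ᶜ, |(k z).re * J χ (fun w => (k w).im) z| ≤
        (closedBall (0 : ℂ) (2 * r)).indicator (fun _ => e * (C / r * (e / (r / 2)))) z := by
      intro z hz
      have hdz : DifferentiableAt ℂ k z := hk.differentiableAt (hD.mem_nhds hz)
      by_cases hzT : z ∈ closedBall (0 : ℂ) (2 * r)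
      · rw [indicator_of_mem hzT]
        rcases lt_or_ge ‖z‖ r with hzR | hzR
        · have h1 : χ =ᶠ[𝓝 z] fun _ => (1 : ℝ) := by
            filter_upwards [isOpen_ball.mem_nhds (mem_ball_zero_iff.2 hzR)] with w hw
            exact hχ3 w (mem_ball_zero_iff.1 hw).le
          rw [J_congr h1 EventuallyEq.rfl, J_const_left, mul_zero, abs_zero]
          exact hκ0
        · have h1 : ‖deriv k z‖ ≤ e / (r / 2) := by
            have hin : closedBall z (r / 2) ⊆ (SF p τ ℓ)ᶜ := by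
              intro w hw hwc
              have h2 := mem_ball_zero_iff.1 (hsub hwc)
              have h3 := mem_closedBall_iff_norm.1 hw
              have h4 := norm_sub_norm_le z w
              rw [norm_sub_rev] at h4
              linarith
            refine norm_deriv_le_of_forall_mem_sphere_norm_le (by positivity) ?_ ?_
            · refine DifferentiableOn.diffContOnCl (hk.mono ?_)
              rw [closure_ball z (by positivity : r / 2 ≠ 0)]
              exact hin
            · intro w hw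
              refine hR₂ w ?_
              have h3 := mem_sphere_iff_norm.1 hw
              have h4 := norm_sub_norm_le z w
              rw [norm_sub_rev] at h4
              linarith
          have h2 : |(k z).re| ≤ e := (abs_re_le_norm _).trans (hR₂ z (by linarith))
          have h3 := abs_J_le χ (fun w => (k w).im) z
          rw [(v7_CR hdz).2] at h3
          rw [abs_mul]
          refine mul_le_mul h2 (h3.trans ?_) (abs_nonneg _) he.le
          exact mul_le_mul (hχ5 z) h1 (norm_nonneg _) (by positivity)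
      · rw [indicator_of_notMem hzT]
        have h1 : χ =ᶠ[𝓝 z] fun _ => (0 : ℝ) := hχout z hzT
        rw [J_congr h1 EventuallyEq.rfl, J_const_left, mul_zero, abs_zero]
    have hindint : IntegrableOn ((closedBall (0 : ℂ) (2 * r)).indicator
        (fun _ => e * (C / r * (e / (r / 2))))) (SF p τ ℓ)ᶜ :=
      ((integrable_indicator_iff measurableSet_closedBall).2
        (integrableOn_const measure_closedBall_lt_top.ne)).integrableOn
    have hUint := hFint.add hindint
    have hle : ∫ z in (SF p τ ℓ)ᶜ, (ball (0 : ℂ) s).indicator (fun z => ‖deriv k z‖ ^ 2) z ≤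
        ∫ z in (SF p τ ℓ)ᶜ,
        (J (fun w => χ w * (k w).re) (fun w => (k w).im) +
          (closedBall (0 : ℂ) (2 * r)).indicator
            (fun _ => e * (C / r * (e / (r / 2))))) z := by
      refine integral_mono_of_nonneg ?_ hUint ?_
      · refine Eventually.of_forall fun z => ?_
        exact indicator_nonneg (fun _ _ => by positivity) z
      · refine ae_restrict_of_forall_mem hD.measurableSet fun z hz => ?_
        have h1 := hJ z hz
        have h2 := hpt z hz
        simp only [Pi.add_apply]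
        rw [h2]
        have h3 := neg_abs_le ((k z).re * J χ (fun w => (k w).im) z)
        have h4 : 0 ≤ χ z * ‖deriv k z‖ ^ 2 := mul_nonneg (hχ2 z) (by positivity)
        by_cases hzB : z ∈ ball (0 : ℂ) s
        · rw [indicator_of_mem hzB]
          have h5 : ‖z‖ ≤ r := by
            have h6 := mem_ball_zero_iff.1 hzB
            linarith
          rw [hχ3 z h5, one_mul]
          linarith
        · rw [indicator_of_notMem hzB]
          linarith
    rw [setIntegral_indicator measurableSet_ball, inter_comm, integral_add' hFint hindint,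
      setIntegral_indicator measurableSet_closedBall, setIntegral_const, smul_eq_mul] at hle
    have hvol : volume.real ((SF p τ ℓ)ᶜ ∩ closedBall (0 : ℂ) (2 * r)) ≤
        (2 * r) ^ 2 * Real.pi := by
      refine (measureReal_mono inter_subset_right measure_closedBall_lt_top.ne).trans ?_
      rw [measureReal_def, Complex.volume_closedBall]
      simp [ENNReal.toReal_mul, ENNReal.toReal_pow, ENNReal.toReal_ofReal hr0.le]
    have h9 : (2 * r) ^ 2 * Real.pi * (e * (C / r * (e / (r / 2)))) =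
        8 * C * Real.pi * e ^ 2 := by
      field_simp
      ring
    have h10 := mul_le_mul_of_nonneg_right hvol hκ0
    linarith
  refine le_of_forall_pos_le_add fun δ hδ => ?_
  have hK : 0 < 8 * C * Real.pi + 1 := by positivity
  have he : 0 < min 1 (δ / (8 * C * Real.pi + 1)) := lt_min one_pos (by positivity)
  refine (key _ he).trans ?_
  have h2 := min_le_left 1 (δ / (8 * C * Real.pi + 1))
  have h3 := min_le_right 1 (δ / (8 * C * Real.pi + 1))
  set e := min 1 (δ / (8 * C * Real.pi + 1)) with hee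
  rw [le_div_iff₀ (by positivity)] at h3
  have h4 : e ^ 2 ≤ e := by nlinarith
  have h5 : 8 * C * Real.pi * e ^ 2 ≤ (8 * C * Real.pi + 1) * e := by nlinarith [sq_nonneg e]
  nlinarith

end

theorem FProps.energy {ι : Type} {p : ι → ℂ} {τ ℓ : ι → ℝ} {R R' : ℝ} {F : ℂ → ℂ}
    (h : SlitFam p τ ℓ 1 R R') (hR : 0 < R) (hR' : 0 < R') (hF : FProps p τ ℓ F) :
    IntegrableOn (fun z => ‖deriv F z - I‖ ^ 2) (SF p τ ℓ)ᶜ ∧
      ∫ z in (SF p τ ℓ)ᶜ, ‖deriv F z - I‖ ^ 2 ≤ 100 * R * (R + R') := by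
  classical
  have hfin := h.fin
  have := Fintype.ofFinite ι
  have hD := h.isOpen_compl
  have hX : ∀ i : ι, ∃ X : ℂ → ℝ, ContDiff ℝ (⊤ : ℕ∞) X ∧ HasCompactSupport X ∧
      tsupport X ⊆ (⋃ k ∈ {k : ι | k ≠ i}, slit (p k) (τ k) (ℓ k))ᶜ ∧
      (∀ z, 0 ≤ X z ∧ X z ≤ 1) ∧ ∀ᶠ z in 𝓝ˢ (slit (p i) (τ i) (ℓ i)), X z = 1 := by
    intro i
    apply exists_cut (isCompact_slit (p i) (τ i) (ℓ i))
    · have : IsCompact (⋃ k ∈ {k : ι | k ≠ i}, slit (p k) (τ k) (ℓ k)) :=
        (Set.toFinite {k : ι | k ≠ i}).isCompact_biUnion fun k _ => isCompact_slit _ _ _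
      exact this.isClosed.isOpen_compl
    · intro z hz hz'
      simp only [mem_iUnion] at hz'
      obtain ⟨k, hk, hzk⟩ := hz'
      exact (disjoint_left.1 (h.disj k i hk)) hzk hz
  choose X hXs hXc hXt hX01 hX1 using hX
  -- the box cut-off
  have hφs := c3_phi_smooth R R'
  have hφc := c3_phi_compact hR hR'
  have hφ1 : ∀ i, ∀ᶠ z in 𝓝ˢ (slit (p i) (τ i) (ℓ i)), c3_phi R R' z = 1 := by
    intro i
    have h1 : {z : ℂ | |z.re| < 5 / 4 * R ∧ |z.im| < 5 / 4 * R'} ∈
        𝓝ˢ (slit (p i) (τ i) (ℓ i)) := by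
      have ho : IsOpen {z : ℂ | |z.re| < 5 / 4 * R ∧ |z.im| < 5 / 4 * R'} :=
        (isOpen_lt continuous_re.abs continuous_const).inter
          (isOpen_lt continuous_im.abs continuous_const)
      rw [ho.mem_nhdsSet]
      intro z hz
      obtain ⟨h2, h3⟩ := h.box i z hz
      exact ⟨by linarith, by linarith⟩
    filter_upwards [h1] with z hz
    unfold c3_phi
    rw [c3_bmp_one hR hz.1.le, c3_bmp_one hR' hz.2.le, mul_one]
  set f : ι → ℂ → ℝ := fun i z => X i z * c3_phi R R' z with hf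
  have hfs : ∀ i, ContDiff ℝ (⊤ : ℕ∞) (f i) := fun i => (hXs i).mul hφs
  have hfc : ∀ i, HasCompactSupport (f i) := fun i => hφc.mul_left
  have hφ0 : ∀ z, 0 ≤ c3_phi R R' z := fun z => mul_nonneg (c3_bmp_nonneg _ _) (c3_bmp_nonneg _ _)
  have hf0 : ∀ i z, 0 ≤ f i z := fun i z => mul_nonneg (hX01 i z).1 (hφ0 z)
  have hf1 : ∀ i, ∀ᶠ z in 𝓝ˢ (slit (p i) (τ i) (ℓ i)), f i z = 1 := by
    intro i
    filter_upwards [hX1 i, hφ1 i] with z h1 h2
    simp only [hf]
    rw [h1, h2, mul_one]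
  have hft : ∀ i, tsupport (f i) ⊆ (⋃ k ∈ {k : ι | k ≠ i}, slit (p k) (τ k) (ℓ k))ᶜ := by
    intro i
    exact (tsupport_mul_subset_left (f := X i) (g := c3_phi R R')).trans (hXt i)
  obtain ⟨s1, s2⟩ := sum_smooth hfs hfc Finset.univ
  have hXz : ∀ i k, k ≠ i → ∀ᶠ z in 𝓝ˢ (slit (p k) (τ k) (ℓ k)), X i z = 0 := by
    intro i k hk
    have h1 : (tsupport (X i))ᶜ ∈ 𝓝ˢ (slit (p k) (τ k) (ℓ k)) := by
      rw [(isClosed_tsupport (X i)).isOpen_compl.mem_nhdsSet]
      intro z hz hz'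
      refine hXt i hz' ?_
      simp only [mem_iUnion]
      exact ⟨k, hk, hz⟩
    filter_upwards [h1] with z hz
    exact image_eq_zero_of_notMem_tsupport hz
  set g : ℂ → ℝ := fun z => c3_phi R R' z + (-1) * ∑ i, f i z with hg
  have hgs : ContDiff ℝ (⊤ : ℕ∞) (fun z => (-1) * ∑ i, f i z) := contDiff_const.mul s1
  have hgc : HasCompactSupport (fun z => (-1) * ∑ i, f i z) := s2.mul_left
  have hg0 : ∀ᶠ z in 𝓝ˢ (SF p τ ℓ), g z = 0 := by
    unfold SF
    rw [nhdsSet_iUnion]
    refine Filter.eventually_iSup.2 fun k => ?_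
    have h1 : ∀ᶠ z in 𝓝ˢ (slit (p k) (τ k) (ℓ k)), ∀ i, i ≠ k → X i z = 0 := by
      rw [Filter.eventually_all]
      intro i
      by_cases hik : i = k
      · exact Filter.Eventually.of_forall fun z h => absurd hik h
      · filter_upwards [hXz i k (fun h => hik h.symm)] with z hz _
        exact hz
    filter_upwards [h1, hX1 k] with z hz1 hz2
    simp only [hg, hf]
    rw [Finset.sum_eq_single k]
    · rw [hz2]
      ring
    · intro i _ hi
      rw [hz1 i hi, zero_mul]
    · intro hk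
      exact absurd (Finset.mem_univ k) hk
  have hgS : ContDiff ℝ (⊤ : ℕ∞) g := hφs.add hgs
  have hgC : HasCompactSupport g := hφc.add hgc
  have hA : ∀ r, Nice (SF p τ ℓ)ᶜ (closedBall 0 r) (fun z => -(F z).re) := by
    intro r
    have h1 := (hF.nice h r).1.const_mul hD (-1)
    refine h1.congr hD fun z _ => ?_
    ring
  have hmono := hF.mono h
  obtain ⟨z1, z2⟩ := jump_eq_zero h hA hgS hgC hg0
  have hle1 : ∀ {ψ : ℂ → ℝ}, ContDiff ℝ (⊤ : ℕ∞) ψ → ContDiff ℝ 1 ψ :=
    fun hψ => hψ.of_le (by exact_mod_cast le_top)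
  have e1 : c3_phi R R' = fun z => (∑ i, f i z) + g z := by
    funext z
    simp only [hg]
    ring
  obtain ⟨u1, -⟩ := sum_jump_hor h hA hfs hfc Finset.univ
  have j1 : jump (SF p τ ℓ) (fun z => -(F z).re) (c3_phi R R') =
      ∑ i, jump (SF p τ ℓ) (fun z => -(F z).re) (f i) := by
    conv_lhs => rw [e1]
    rw [jump_add h hA (hle1 s1) s2 (hle1 hgS) hgC, u1, z1, add_zero]
  have j4 : ∀ i, 0 ≤ jump (SF p τ ℓ) (fun z => -(F z).re) (f i) := fun i =>
    jump_nonneg h hA hmono (hfs i) (hfc i) (hf0 i)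
  -- the fluxes
  have hflux : ∑ i, Fl (SF p τ ℓ)ᶜ (f i) (fun z => (F z - I * z).re) (fun z => (F z - I * z).im) ≤
      96 * R * (R + R') := by
    have h1 : ∀ i, Fl (SF p τ ℓ)ᶜ (f i) (fun z => (F z - I * z).re) (fun z => (F z - I * z).im) ≤
        2 * jump (SF p τ ℓ) (fun z => -(F z).re) (f i) := by
      intro i
      obtain ⟨r, hr⟩ := (hfc i).isCompact.isBounded.subset_closedBall (0 : ℂ)
      have hH : HoleCut (SF p τ ℓ)ᶜ (slit (p i) (τ i) (ℓ i)) (closedBall 0 r) (f i) := by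
        refine ⟨hD, isCompact_slit _ _ _, ?_, hfs i, hfc i, hf1 i, ?_⟩
        · exact Set.disjoint_left.2 fun z hz hz' => hz (mem_iUnion.2 ⟨i, hz'⟩)
        · intro z hz
          refine ⟨hr hz, ?_⟩
          by_cases hzu : z ∈ SF p τ ℓ
          · right
            obtain ⟨j, hzj⟩ := mem_iUnion.1 hzu
            by_cases hji : j = i
            · rw [← hji]; exact hzj
            · refine absurd ?_ (hft i hz)
              simp only [mem_iUnion]
              exact ⟨j, hji, hzj⟩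
          · exact Or.inl hzu
      rw [c3_flux h hF i hH]
      have h2 : τ i ^ 2 ≤ 1 := by
        have h3 := h.slope i
        rw [← sq_abs]
        nlinarith [abs_nonneg (τ i)]
      nlinarith [j4 i]
    refine (Finset.sum_le_sum fun i _ => h1 i).trans ?_
    rw [← Finset.mul_sum, ← j1]
    have h2 := c3_jump_le h hR hR' hF
    linarith
  have hkd : DifferentiableOn ℂ (fun z => F z - I * z) (SF p τ ℓ)ᶜ :=
    hF.diff.sub (by fun_prop)
  have hkn : ∀ s : ℝ, Nice (SF p τ ℓ)ᶜ (closedBall 0 s) (fun z => (F z - I * z).re) ∧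
      Nice (SF p τ ℓ)ᶜ (closedBall 0 s) (fun z => (F z - I * z).im) := by
    intro s
    obtain ⟨hP, hQ⟩ := hF.nice h s
    have hx : Nice (SF p τ ℓ)ᶜ (closedBall 0 s) (fun z => z.re) := Nice.re hD subset_rfl
    have hy : Nice (SF p τ ℓ)ᶜ (closedBall 0 s) (fun z => z.im) := Nice.im hD subset_rfl
    constructor
    · exact (hP.add hD hy).congr hD fun z _ => by simp
    · exact (hQ.sub hD hx).congr hD fun z _ => by simp
  have hball := c3_energy_ball h hkd hF.lim hkn hfs hfc hft hf1 hflux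
  have hderiv : ∀ z ∈ (SF p τ ℓ)ᶜ, deriv (fun z => F z - I * z) z = deriv F z - I := by
    intro z hz
    have h1 := (hF.diff.differentiableAt (hD.mem_nhds hz)).hasDerivAt
    have h2 : HasDerivAt (fun z : ℂ => I * z) (I * 1) z := (hasDerivAt_id z).const_mul I
    rw [mul_one] at h2
    exact (h1.sub h2).deriv
  have hcover : AECover (volume.restrict (SF p τ ℓ)ᶜ) atTop (fun n : ℕ => ball (0 : ℂ) n) :=
    aecover_ball tendsto_natCast_atTop_atTop
  have hrestr : ∀ n : ℕ, (volume.restrict (SF p τ ℓ)ᶜ).restrict (ball (0 : ℂ) n) =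
      volume.restrict (ball (0 : ℂ) n ∩ (SF p τ ℓ)ᶜ) := fun n =>
    Measure.restrict_restrict measurableSet_ball
  have hint1 : ∀ n : ℕ, IntegrableOn (fun z => ‖deriv (fun z => F z - I * z) z‖ ^ 2)
      (ball (0 : ℂ) n) (volume.restrict (SF p τ ℓ)ᶜ) := by
    intro n
    unfold IntegrableOn
    rw [hrestr]
    exact (hball n).1
  have hint : Integrable (fun z => ‖deriv (fun z => F z - I * z) z‖ ^ 2)
      (volume.restrict (SF p τ ℓ)ᶜ) := by
    refine hcover.integrable_of_integral_norm_bounded (96 * R * (R + R')) hint1 ?_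
    refine Eventually.of_forall fun n => ?_
    rw [hrestr]
    simp only [norm_pow, norm_norm]
    exact (hball n).2
  have hval : ∫ z in (SF p τ ℓ)ᶜ, ‖deriv (fun z => F z - I * z) z‖ ^ 2 ≤ 96 * R * (R + R') := by
    have h1 := hcover.integral_tendsto_of_countably_generated hint
    refine le_of_tendsto h1 (Eventually.of_forall fun n => ?_)
    rw [hrestr]
    exact (hball n).2
  constructor
  · refine IntegrableOn.congr_fun hint (fun z hz => ?_) hD.measurableSet
    rw [hderiv z hz]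
  · have h1 : ∫ z in (SF p τ ℓ)ᶜ, ‖deriv F z - I‖ ^ 2 =
        ∫ z in (SF p τ ℓ)ᶜ, ‖deriv (fun z => F z - I * z) z‖ ^ 2 :=
      setIntegral_congr_fun hD.measurableSet fun z hz => by
        rw [hderiv z hz]
    rw [h1]
    refine hval.trans ?_
    have h2 : 0 ≤ R * (R + R') := by positivity
    nlinarith

end RSM2
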