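import Pool.Agent.RSM2.C1
import Pool.Agent.RSM2.C3

/-!
# RSM2 module C4: scaling

PROOF.  Let `0 < ε ≤ 1` and let `p, τ, ℓ` be a family with slopes at most `ε` in the box `|x|, |y| ≤ R`.
`st z = z.re + (z.im / ε) I`.  The family `p̂ = st ∘ p`, `τ̂ = τ / ε`, `ℓ` consists of the images of the
slits under `st`; it has slopes at most `1` and is in the box `|x| ≤ R`, `|y| ≤ R/ε`:
`SlitFam p̂ τ̂ ℓ 1 R (R/ε)`.  `st` is a linear homeomorphism of the plane, `st ⁻¹' SF p̂ τ̂ ℓ = SF p τ ℓ`.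
Let `F = P + iQ` be the function of `exists_F` for the stretched family and
`A z = -ε P (st z)`, `B z = -ε² Q (st z)`.
* `A_x = -ε P_x`, `A_y = -P_y`, `B_x = -ε² Q_x`, `B_y = -ε Q_y` (at `st z`); Cauchy-Riemann:
  `Q_y = P_x`, `Q_x = -P_y`: `B_y = A_x`, `B_x = ε² P_y = -ε² A_y`.
* `B - τ A = -ε² (Q - τ̂ P)` (`τ ε = ε² τ̂`): compatibility, `st` maps `nearIn` to `nearIn`.
* monotone: `FProps.mono`, `st` preserves vertical order.
* bounds: `‖F (st z)‖ ≤ |x| + |y|/ε + 4 (R + R/ε) ≤ |x| + |y|/ε + 8R/ε`.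
* `∫ A_x² dx dy = ε² · ε ∫ P_x² = ε³ ∫ (∂_x Re k)² ≤ ε³ · 100 R (R + R/ε) ≤ 200 ε² R²`, where
  `k = F - I z`, `P = -y + Re k`, `P_x = ∂_x Re k`, `(∂_x Re k)² ≤ ‖k'‖²` (change of variables by
  `st`, determinant `1/ε`); `A_y - 1 = -∂_y Re k`, `∫ (A_y - 1)² = ε ∫ (∂_y Re k)² ≤ 200 R²`.
* nice: composition of nice functions with the linear map `st` (which maps bounded sets to bounded
  sets; `‖∇(f ∘ st)‖² ≤ ε⁻² ‖∇f‖² ∘ st`, change of variables).
-/

open Complex Set Metric Filter Topology MeasureTheory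

namespace RSM2

/-- scaling in the direction `y` by the factor `t` -/
noncomputable def sc (t : ℝ) : ℂ →L[ℝ] ℂ :=
  Complex.reCLM.smulRight (1 : ℂ) + (t • Complex.imCLM).smulRight I

theorem sc_re (t : ℝ) (z : ℂ) : (sc t z).re = z.re := by simp [sc]

theorem sc_im (t : ℝ) (z : ℂ) : (sc t z).im = t * z.im := by simp [sc]

theorem sc_sc {t s : ℝ} (h : t * s = 1) (z : ℂ) : sc t (sc s z) = z := by
  apply Complex.ext
  · rw [sc_re, sc_re]
  · rw [sc_im, sc_im, ← mul_assoc, h, one_mul]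

theorem det_sc (t : ℝ) : (sc t).det = t := by
  rw [ContinuousLinearMap.det, ← LinearMap.det_toMatrix Complex.basisOneI, Matrix.det_fin_two]
  simp [LinearMap.toMatrix_apply, sc_re, sc_im]

section
variable {ι : Type} {p : ι → ℂ} {τ ℓ : ι → ℝ} {ε R : ℝ}

theorem sc_inj (hε : 0 < ε) : Function.Injective (sc ε⁻¹) := by
  intro z w h
  have := congrArg (sc ε) h
  rwa [sc_sc (mul_inv_cancel₀ hε.ne'), sc_sc (mul_inv_cancel₀ hε.ne')] at this

theorem slit_sc (p : ℂ) (τ ℓ : ℝ) :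
    slit (sc ε⁻¹ p) (τ / ε) ℓ = sc ε⁻¹ '' slit p τ ℓ := by
  unfold slit
  rw [Set.image_image]
  apply Set.image_congr
  intro t _
  apply Complex.ext
  · simp [sc_re]
  · simp [sc_im]
    ring

theorem SF_sc (p : ι → ℂ) (τ ℓ : ι → ℝ) :
    SF (fun j => sc ε⁻¹ (p j)) (fun j => τ j / ε) ℓ = sc ε⁻¹ '' SF p τ ℓ := by
  unfold SF
  rw [Set.image_iUnion]
  exact Set.iUnion_congr fun j => slit_sc _ _ _

theorem mem_SF_sc (hε : 0 < ε) (z : ℂ) :
    sc ε⁻¹ z ∈ SF (fun j => sc ε⁻¹ (p j)) (fun j => τ j / ε) ℓ ↔ z ∈ SF p τ ℓ := by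
  rw [SF_sc, (sc_inj hε).mem_set_image]

theorem compl_SF_sc (hε : 0 < ε) :
    (SF (fun j => sc ε⁻¹ (p j)) (fun j => τ j / ε) ℓ)ᶜ = sc ε⁻¹ '' (SF p τ ℓ)ᶜ := by
  rw [SF_sc]
  refine (Set.image_compl_eq ⟨sc_inj hε, fun z => ⟨sc ε z, ?_⟩⟩).symm
  exact sc_sc (inv_mul_cancel₀ hε.ne') z

theorem slitFam_sc (hε : 0 < ε) (h : SlitFam p τ ℓ ε R R) :
    SlitFam (fun j => sc ε⁻¹ (p j)) (fun j => τ j / ε) ℓ 1 R (R / ε) where
  fin := h.fin
  pos := h.pos
  slope j := by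
    rw [abs_div, abs_of_pos hε, div_le_one hε]
    exact h.slope j
  box j z hz := by
    rw [slit_sc] at hz
    obtain ⟨w, hw, rfl⟩ := hz
    obtain ⟨h1, h2⟩ := h.box j w hw
    rw [sc_re, sc_im, abs_mul, abs_of_pos (inv_pos.2 hε), div_eq_inv_mul]
    exact ⟨h1, mul_le_mul_of_nonneg_left h2 (inv_pos.2 hε).le⟩
  disj i j hij := by
    rw [slit_sc, slit_sc]
    exact (Set.disjoint_image_iff (sc_inj hε)).2 (h.disj i j hij)

/-- the change of variables -/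
theorem integrableOn_sc (hε : 0 < ε) {s : Set ℂ} (hs : MeasurableSet s) (g : ℂ → ℝ) :
    IntegrableOn (fun z => g (sc ε⁻¹ z)) s ↔ IntegrableOn g (sc ε⁻¹ '' s) := by
  have h1 := integrableOn_image_iff_integrableOn_abs_det_fderiv_smul (μ := volume) hs
    (f := fun z => sc ε⁻¹ z) (f' := fun _ => sc ε⁻¹)
    (fun x _ => (sc ε⁻¹).hasFDerivAt.hasFDerivWithinAt) (sc_inj hε).injOn g
  have h2 : IntegrableOn (fun z => |(sc ε⁻¹).det| • g (sc ε⁻¹ z)) s ↔
      IntegrableOn (fun z => g (sc ε⁻¹ z)) s := by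
    rw [det_sc]
    have : |ε⁻¹| ≠ 0 := by rw [abs_ne_zero]; exact (inv_pos.2 hε).ne'
    exact integrable_smul_iff this _
  exact (h1.trans h2).symm

theorem integral_sc (hε : 0 < ε) {s : Set ℂ} (hs : MeasurableSet s) (g : ℂ → ℝ) :
    ∫ z in s, g (sc ε⁻¹ z) = ε * ∫ z in sc ε⁻¹ '' s, g z := by
  have h1 := integral_image_eq_integral_abs_det_fderiv_smul (μ := volume) hs
    (f := fun z => sc ε⁻¹ z) (f' := fun _ => sc ε⁻¹)
    (fun x _ => (sc ε⁻¹).hasFDerivAt.hasFDerivWithinAt) (sc_inj hε).injOn g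
  have h2 : (∫ z in sc ε⁻¹ '' s, g z) = ∫ z in s, |(sc ε⁻¹).det| • g (sc ε⁻¹ z) := h1
  rw [h2, det_sc, integral_smul, smul_eq_mul, abs_of_pos (inv_pos.2 hε), ← mul_assoc,
    mul_inv_cancel₀ hε.ne', one_mul]

theorem dX_sc {f : ℂ → ℝ} {t : ℝ} {z : ℂ} (hf : DifferentiableAt ℝ f (sc t z)) :
    dX (fun w => f (sc t w)) z = dX f (sc t z) := by
  have h1 : HasFDerivAt (fun w => f (sc t w)) ((fderiv ℝ f (sc t z)).comp (sc t)) z :=
    hf.hasFDerivAt.comp z (sc t).hasFDerivAt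
  unfold dX
  rw [h1.fderiv]
  have : sc t 1 = 1 := by
    apply Complex.ext
    · simp [sc_re]
    · simp [sc_im]
  simp [this]

theorem dY_sc {f : ℂ → ℝ} {t : ℝ} {z : ℂ} (hf : DifferentiableAt ℝ f (sc t z)) :
    dY (fun w => f (sc t w)) z = t * dY f (sc t z) := by
  have h1 : HasFDerivAt (fun w => f (sc t w)) ((fderiv ℝ f (sc t z)).comp (sc t)) z :=
    hf.hasFDerivAt.comp z (sc t).hasFDerivAt
  unfold dY
  rw [h1.fderiv]
  have : sc t I = t • I := by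
    apply Complex.ext
    · simp [sc_re]
    · simp [sc_im]
  rw [ContinuousLinearMap.comp_apply, this, map_smul, smul_eq_mul]

theorem Nice.sc {D D' : Set ℂ} {a : ℂ → ℝ} (hε : 0 < ε) (hD : MeasurableSet D)
    (hDD : D' = RSM2.sc ε⁻¹ '' D)
    (hD' : IsOpen D') (ha : ∀ r, Nice D' (closedBall 0 r) a) (r : ℝ) :
    Nice D (closedBall 0 r) (fun z => a (RSM2.sc ε⁻¹ z)) := by
  set L := RSM2.sc ε⁻¹ with hL
  have hmaps : MapsTo L D D' := by rw [hDD]; exact Set.mapsTo_image _ _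
  have hball : ∀ z ∈ closedBall (0 : ℂ) r, L z ∈ closedBall (0 : ℂ) (‖L‖ * r) := by
    intro z hz
    rw [mem_closedBall_zero_iff] at hz ⊢
    exact (L.le_opNorm z).trans (mul_le_mul_of_nonneg_left hz (norm_nonneg _))
  have hn := ha (‖L‖ * r)
  refine ⟨?_, ?_, ?_⟩
  · exact hn.smooth.comp L.contDiff.contDiffOn hmaps
  · obtain ⟨M, hM⟩ := hn.bdd
    exact ⟨M, fun z hz => hM _ ⟨hmaps hz.1, hball z hz.2⟩⟩
  · have hms : MeasurableSet (D ∩ closedBall 0 r) := hD.inter isClosed_closedBall.measurableSet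
    have h1 : IntegrableOn (fun z => ‖fderiv ℝ a (L z)‖ ^ 2) (D ∩ closedBall 0 r) := by
      refine (integrableOn_sc hε hms (fun w => ‖fderiv ℝ a w‖ ^ 2)).2 (hn.l2.mono_set ?_)
      rintro _ ⟨z, hz, rfl⟩
      exact ⟨hmaps hz.1, hball z hz.2⟩
    refine Integrable.mono' (h1.const_mul (‖L‖ ^ 2)) ?_ ?_
    · exact ((measurable_fderiv ℝ _).norm.pow_const 2).aestronglyMeasurable
    · refine (ae_restrict_iff' hms).2 (ae_of_all _ fun z hz => ?_)
      have hd : DifferentiableAt ℝ a (L z) :=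
        ((hn.smooth.contDiffAt (hD'.mem_nhds (hmaps hz.1))).differentiableAt (by norm_num))
      have h2 : HasFDerivAt (fun w => a (L w)) ((fderiv ℝ a (L z)).comp L) z :=
        hd.hasFDerivAt.comp z L.hasFDerivAt
      rw [h2.fderiv, Real.norm_eq_abs, abs_of_nonneg (by positivity), ← mul_pow, mul_comm]
      exact pow_le_pow_left₀ (norm_nonneg _) (ContinuousLinearMap.opNorm_comp_le _ _) 2

theorem tendsto_sc_nearIn {D H D' H' : Set ℂ} {t : ℝ} (hD : MapsTo (sc t) D D')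
    (hH : MapsTo (sc t) H H') : Tendsto (sc t) (nearIn D H) (nearIn D' H') := by
  intro s hs
  rw [mem_nearIn] at hs
  obtain ⟨U, hU, hHU, hUs⟩ := hs
  rw [mem_map, mem_nearIn]
  exact ⟨sc t ⁻¹' U, hU.preimage (sc t).continuous, fun z hz => hHU (hH hz),
    fun z hz => hUs ⟨hz.1, hD hz.2⟩⟩

theorem cr {F : ℂ → ℂ} {w : ℂ} (h : DifferentiableAt ℂ F w) :
    dX (fun z => (F z).re) w = (deriv F w).re ∧ dY (fun z => (F z).re) w = -(deriv F w).im ∧
    dX (fun z => (F z).im) w = (deriv F w).im ∧ dY (fun z => (F z).im) w = (deriv F w).re := by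
  have h1 : HasFDerivAt F (deriv F w • (1 : ℂ →L[ℝ] ℂ)) w := h.hasDerivAt.complexToReal_fderiv
  have h2 : HasFDerivAt (fun z => (F z).re) (Complex.reCLM.comp (deriv F w • (1 : ℂ →L[ℝ] ℂ))) w :=
    Complex.reCLM.hasFDerivAt.comp w h1
  have h3 : HasFDerivAt (fun z => (F z).im) (Complex.imCLM.comp (deriv F w • (1 : ℂ →L[ℝ] ℂ))) w :=
    Complex.imCLM.hasFDerivAt.comp w h1
  unfold dX dY
  rw [h2.fderiv, h3.fderiv]
  simp

end

theorem exists_preTest {ι : Type} {p : ι → ℂ} {τ ℓ : ι → ℝ} {ε R : ℝ} (hε : 0 < ε)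
    (hε1 : ε ≤ 1) (hR : 0 < R) (h : SlitFam p τ ℓ ε R R) :
    ∃ A B : ℂ → ℝ, PreTest p τ ℓ ε R A B := by
  have h' := slitFam_sc hε h
  obtain ⟨F, hF⟩ := exists_F h'
  have hRε : 0 < R / ε := by positivity
  have hDc := compl_SF_sc (p := p) (τ := τ) (ℓ := ℓ) hε
  have hopen : IsOpen (SF p τ ℓ)ᶜ := h.isCompact.isClosed.isOpen_compl
  have hopen' : IsOpen (SF (fun j => sc ε⁻¹ (p j)) (fun j => τ j / ε) ℓ)ᶜ :=
    h'.isCompact.isClosed.isOpen_compl
  have hmem : ∀ z ∈ (SF p τ ℓ)ᶜ, sc ε⁻¹ z ∈ (SF (fun j => sc ε⁻¹ (p j)) (fun j => τ j / ε) ℓ)ᶜ := by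
    intro z hz
    rw [mem_compl_iff, mem_SF_sc hε]
    exact hz
  have hdF : ∀ z ∈ (SF p τ ℓ)ᶜ, DifferentiableAt ℂ F (sc ε⁻¹ z) := fun z hz =>
    hF.diff.differentiableAt (hopen'.mem_nhds (hmem z hz))
  have hdP : ∀ z ∈ (SF p τ ℓ)ᶜ, DifferentiableAt ℝ (fun w => (F w).re) (sc ε⁻¹ z) := fun z hz =>
    Complex.reCLM.differentiableAt.comp _ ((hdF z hz).restrictScalars ℝ)
  have hdQ : ∀ z ∈ (SF p τ ℓ)ᶜ, DifferentiableAt ℝ (fun w => (F w).im) (sc ε⁻¹ z) := fun z hz =>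
    Complex.imCLM.differentiableAt.comp _ ((hdF z hz).restrictScalars ℝ)
  have hdsc : ∀ z : ℂ, DifferentiableAt ℝ (sc ε⁻¹) z := fun z => (sc ε⁻¹).differentiableAt
  -- derivatives
  have dXA : ∀ z ∈ (SF p τ ℓ)ᶜ, dX (fun w => -ε * (F (sc ε⁻¹ w)).re) z =
      -ε * (deriv F (sc ε⁻¹ z)).re := by
    intro z hz
    have e := dX_sc (f := fun w => (F w).re) (t := ε⁻¹) (z := z) (hdP z hz)
    have hd : DifferentiableAt ℝ (fun w => (F (sc ε⁻¹ w)).re) z := (hdP z hz).comp z (hdsc z)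
    rw [dX_const_mul _ hd, e, (cr (hdF z hz)).1]
  have dYA : ∀ z ∈ (SF p τ ℓ)ᶜ, dY (fun w => -ε * (F (sc ε⁻¹ w)).re) z =
      (deriv F (sc ε⁻¹ z)).im := by
    intro z hz
    have e := dY_sc (f := fun w => (F w).re) (t := ε⁻¹) (z := z) (hdP z hz)
    have hd : DifferentiableAt ℝ (fun w => (F (sc ε⁻¹ w)).re) z := (hdP z hz).comp z (hdsc z)
    rw [dY_const_mul _ hd, e, (cr (hdF z hz)).2.1]
    field_simp
  have dXB : ∀ z ∈ (SF p τ ℓ)ᶜ, dX (fun w => -ε ^ 2 * (F (sc ε⁻¹ w)).im) z =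
      -ε ^ 2 * (deriv F (sc ε⁻¹ z)).im := by
    intro z hz
    have e := dX_sc (f := fun w => (F w).im) (t := ε⁻¹) (z := z) (hdQ z hz)
    have hd : DifferentiableAt ℝ (fun w => (F (sc ε⁻¹ w)).im) z := (hdQ z hz).comp z (hdsc z)
    rw [dX_const_mul _ hd, e, (cr (hdF z hz)).2.2.1]
  have dYB : ∀ z ∈ (SF p τ ℓ)ᶜ, dY (fun w => -ε ^ 2 * (F (sc ε⁻¹ w)).im) z =
      -ε * (deriv F (sc ε⁻¹ z)).re := by
    intro z hz
    have e := dY_sc (f := fun w => (F w).im) (t := ε⁻¹) (z := z) (hdQ z hz)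
    have hd : DifferentiableAt ℝ (fun w => (F (sc ε⁻¹ w)).im) z := (hdQ z hz).comp z (hdsc z)
    rw [dY_const_mul _ hd, e, (cr (hdF z hz)).2.2.2]
    field_simp
  -- energy
  have hen := hF.energy h' hR hRε
  have hmeasF : ∀ g : ℂ → ℝ, Continuous g → AEStronglyMeasurable (fun z => g (deriv F z - I))
      (volume.restrict (SF (fun j => sc ε⁻¹ (p j)) (fun j => τ j / ε) ℓ)ᶜ) := by
    intro g hg
    exact (hg.measurable.comp ((measurable_deriv F).sub_const I)).aestronglyMeasurable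
  have key : ∀ g : ℂ → ℝ, Continuous g → (∀ w, 0 ≤ g w ∧ g w ≤ ‖w‖ ^ 2) →
      IntegrableOn (fun z => g (deriv F (sc ε⁻¹ z) - I)) (SF p τ ℓ)ᶜ ∧
      ∫ z in (SF p τ ℓ)ᶜ, g (deriv F (sc ε⁻¹ z) - I) ≤ ε * (100 * R * (R + R / ε)) := by
    intro g hg hgb
    have i1 : IntegrableOn (fun z => g (deriv F z - I))
        (SF (fun j => sc ε⁻¹ (p j)) (fun j => τ j / ε) ℓ)ᶜ := by
      refine Integrable.mono' hen.1 (hmeasF g hg) (ae_of_all _ fun z => ?_)
      rw [Real.norm_eq_abs, abs_of_nonneg (hgb _).1]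
      exact (hgb _).2
    constructor
    · refine (integrableOn_sc hε hopen.measurableSet (fun w => g (deriv F w - I))).2 ?_
      rw [← hDc]
      exact i1
    · rw [integral_sc hε hopen.measurableSet (fun w => g (deriv F w - I)), ← hDc]
      refine mul_le_mul_of_nonneg_left (le_trans ?_ hen.2) hε.le
      exact integral_mono i1 hen.1 fun z => (hgb _).2
  have kre := key (fun w => w.re ^ 2) (Complex.continuous_re.pow 2) fun w => by
    refine ⟨sq_nonneg _, ?_⟩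
    rw [← Complex.normSq_eq_norm_sq, Complex.normSq_apply]
    nlinarith [sq_nonneg w.im]
  have kim := key (fun w => w.im ^ 2) (Complex.continuous_im.pow 2) fun w => by
    refine ⟨sq_nonneg _, ?_⟩
    rw [← Complex.normSq_eq_norm_sq, Complex.normSq_apply]
    nlinarith [sq_nonneg w.re]
  simp only [Complex.sub_re, Complex.sub_im, Complex.I_re, Complex.I_im, sub_zero] at kre kim
  have hbd : ∀ z ∈ (SF p τ ℓ)ᶜ, ε * ‖F (sc ε⁻¹ z)‖ ≤ ε * |z.re| + |z.im| + 8 * R := by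
    intro z hz
    have h1 := hF.bound h' hR hRε (hmem z hz)
    have h2 : ‖sc ε⁻¹ z‖ ≤ |z.re| + ε⁻¹ * |z.im| := by
      refine (Complex.norm_le_abs_re_add_abs_im _).trans ?_
      rw [sc_re, sc_im, abs_mul, abs_of_pos (inv_pos.2 hε)]
    have h3 : ε * ‖F (sc ε⁻¹ z)‖ ≤ ε * (|z.re| + ε⁻¹ * |z.im| + 4 * (R + R / ε)) :=
      mul_le_mul_of_nonneg_left (by linarith) hε.le
    have h4 : ε * (|z.re| + ε⁻¹ * |z.im| + 4 * (R + R / ε)) =
        ε * |z.re| + |z.im| + 4 * (ε * R) + 4 * R := by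
      field_simp
      ring
    nlinarith
  refine ⟨fun z => -ε * (F (sc ε⁻¹ z)).re, fun z => -ε ^ 2 * (F (sc ε⁻¹ z)).im, ?_⟩
  refine
    { niceA := ?_
      niceB := ?_
      rel1 := ?_
      rel2 := ?_
      mono := ?_
      bdA := ?_
      bdB := ?_
      intX := ?_
      enX := ?_
      intY := ?_
      enY := ?_
      compat := ?_ }
  · intro r
    exact (Nice.sc hε hopen.measurableSet hDc hopen' (fun r => (hF.nice h' r).1) r).const_mul
      hopen (-ε)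
  · intro r
    exact (Nice.sc hε hopen.measurableSet hDc hopen' (fun r => (hF.nice h' r).2) r).const_mul
      hopen (-ε ^ 2)
  · intro z hz
    rw [dYB z hz, dXA z hz]
  · intro z hz
    rw [dXB z hz, dYA z hz]
  · intro z w hz hw hre him
    have := hF.mono h' (sc ε⁻¹ z) (sc ε⁻¹ w) (hmem z hz) (hmem w hw) (by rw [sc_re, sc_re, hre])
      (by rw [sc_im, sc_im]; exact mul_le_mul_of_nonneg_left him (inv_pos.2 hε).le)
    simp only at this ⊢
    nlinarith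
  · intro z hz
    refine le_trans ?_ (hbd z hz)
    rw [abs_mul, abs_neg, abs_of_pos hε]
    exact mul_le_mul_of_nonneg_left (Complex.abs_re_le_norm _) hε.le
  · intro z hz
    have h1 : |-ε ^ 2 * (F (sc ε⁻¹ z)).im| ≤ ε * (ε * ‖F (sc ε⁻¹ z)‖) := by
      rw [abs_mul, abs_neg, abs_of_pos (by positivity : (0:ℝ) < ε ^ 2), ← mul_assoc, ← sq]
      exact mul_le_mul_of_nonneg_left (Complex.abs_im_le_norm _) (by positivity)
    exact h1.trans (mul_le_mul_of_nonneg_left (hbd z hz) hε.le)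
  · refine (kre.1.const_mul (ε ^ 2)).congr ?_
    refine (ae_restrict_iff' hopen.measurableSet).2 (ae_of_all _ fun z hz => ?_)
    simp only
    rw [dXA z hz]
    ring
  · have e : ∫ z in (SF p τ ℓ)ᶜ, dX (fun w => -ε * (F (sc ε⁻¹ w)).re) z ^ 2 =
        ∫ z in (SF p τ ℓ)ᶜ, ε ^ 2 * (deriv F (sc ε⁻¹ z)).re ^ 2 := by
      refine setIntegral_congr_fun hopen.measurableSet fun z hz => ?_
      rw [dXA z hz]
      ring
    rw [e, integral_const_mul]
    have h1 : ε ^ 2 * (∫ z in (SF p τ ℓ)ᶜ, (deriv F (sc ε⁻¹ z)).re ^ 2) ≤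
        ε ^ 2 * (ε * (100 * R * (R + R / ε))) :=
      mul_le_mul_of_nonneg_left kre.2 (by positivity)
    have h2 : ε ^ 2 * (ε * (100 * R * (R + R / ε))) = 100 * ε ^ 2 * R ^ 2 * (ε + 1) := by
      field_simp
    have h3 : 100 * ε ^ 2 * R ^ 2 * (ε + 1) ≤ 100 * ε ^ 2 * R ^ 2 * 2 :=
      mul_le_mul_of_nonneg_left (by linarith) (by positivity)
    linarith
  · refine kim.1.congr ?_
    refine (ae_restrict_iff' hopen.measurableSet).2 (ae_of_all _ fun z hz => ?_)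
    simp only
    rw [dYA z hz]
  · have e : ∫ z in (SF p τ ℓ)ᶜ, (dY (fun w => -ε * (F (sc ε⁻¹ w)).re) z - 1) ^ 2 =
        ∫ z in (SF p τ ℓ)ᶜ, ((deriv F (sc ε⁻¹ z)).im - 1) ^ 2 := by
      refine setIntegral_congr_fun hopen.measurableSet fun z hz => ?_
      rw [dYA z hz]
    rw [e]
    have h2 : ε * (100 * R * (R + R / ε)) = 100 * R ^ 2 * (ε + 1) := by
      field_simp
    have h3 : 100 * R ^ 2 * (ε + 1) ≤ 100 * R ^ 2 * 2 :=
      mul_le_mul_of_nonneg_left (by linarith) (by positivity)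
    have := kim.2
    linarith
  · intro j
    obtain ⟨q, hq⟩ := hF.line j
    refine ⟨-ε ^ 2 * q, ?_⟩
    have ht : Tendsto (sc ε⁻¹) (nearIn (SF p τ ℓ)ᶜ (slit (p j) (τ j) (ℓ j)))
        (nearIn (SF (fun j => sc ε⁻¹ (p j)) (fun j => τ j / ε) ℓ)ᶜ
          (slit (sc ε⁻¹ (p j)) (τ j / ε) (ℓ j))) := by
      apply tendsto_sc_nearIn hmem
      rw [slit_sc]
      exact Set.mapsTo_image _ _
    refine ((hq.comp ht).const_mul (-ε ^ 2)).congr fun z => ?_
    simp only [Function.comp_apply]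
    field_simp
    ring

end RSM2
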