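import Pool.Agent.RSM2.V3
import Pool.Agent.RSM2.V6
import Pool.Agent.RSM2.V7

/-!
# RSM2 module G1: the local situation near `K₀`

`LocData`: a coarse configuration `c` containing the hole `(B, θ₀)`, a finer configuration `c''` with the
same holes as `c` outside of `B` near the support of the cut-off function `χ`; the rotated slit maps
`g` (of `c`), `h` (of `c''`).  `D = (un c ∪ un c'')ᶜ`.  `NearI c χ b` is the set of the holes of `c`
different from `b` which meet the support of `χ`.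

PROOFS.
`const_near`: the gradient of `χ` vanishes on the open set `(tsupport (fderiv ℝ χ))ᶜ ⊇ k.1`; so `χ` is
locally constant there, hence constant `= a` on a neighbourhood of the compact connected set `k.1`; at a
point of `k.1 ∩ tsupport χ` the function `χ` is constant nearby and takes nonzero values
nearby, so `a ≠ 0`.
`cover`: `z ∈ tsupport χ`, `z ∈ k.1`, `k ∈ c`: `k = (B, θ₀)` or `k` is near; `k ∈ c''`: `k.1 ⊆ B`, or
`k.1` is disjoint from `B` and meets `tsupport χ`, so `k ∈ c`, and `k ≠ (B, θ₀)`.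
`near_mem''`: a near hole is in `c''` (`share`; it is disjoint from `B` by `Valid.disj`).
`line`: `SMap.toS`, `nrm (k.2 - θ₀)` is constant on `S k` (`isSeg`).
`param`: `seg p φ ℓ = slit p (tan φ) (ℓ cos φ)` for `|φ| < π/2`, as `exp (iφ) = cos φ (1 + i tan φ)`.
`slit_ball`: a point `w ∈ S k` is a limit of points `w n ∉ ⋃ S` (a segment has empty interior,
the others are closed and disjoint), `w n = g (z n)`, and `z n ∈ ball 0 r` for large `n` by `ofS`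
(`k.1 ⊆ ball 0 r`: `χ ≠ 0` on `k.1`), so `‖w n‖ ≤ M`.
`nice_D`: `nice_parts` on `(un c)ᶜ`, resp. `(un c'')ᶜ`, restricted to the smaller open set `D`
(restrict `smooth`, `bdd`, `l2` to subsets).
`energy_D`: `∫_{D ∩ ball 0 r} ‖g'‖² ≤ volume (closedBall 0 M) = π M²` (`integral_sq_deriv`).
-/

set_option linter.all false

open Complex Set Metric Filter Topology MeasureTheory

namespace RSM2

structure LocData (θ₀ δ M r : ℝ) (χ : ℂ → ℝ) (B : Set ℂ) (c c'' : Cfg) (g h : ℂ → ℂ)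
    (S S'' : Set ℂ × ℝ → Set ℂ) : Prop where
  vc : Valid c
  vc'' : Valid c''
  sg : SMap θ₀ c g S
  sh : SMap θ₀ c'' h S''
  hB : (B, θ₀) ∈ c
  io : ∀ k ∈ c'', k.1 ⊆ interior B ∨ Disjoint k.1 B
  share : ∀ k : Set ℂ × ℝ, Disjoint k.1 B → (k.1 ∩ tsupport χ).Nonempty → (k ∈ c ↔ k ∈ c'')
  ang : ∀ k ∈ c, (k.1 ∩ tsupport χ).Nonempty → |k.2 - θ₀| ≤ δ
  smooth : ContDiff ℝ (⊤ : ℕ∞) χ
  supp : tsupport χ ⊆ ball 0 r
  bd : ∀ z, 0 ≤ χ z ∧ χ z ≤ 1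
  one : ∀ᶠ z in 𝓝ˢ B, χ z = 1
  off : Disjoint (tsupport (fderiv ℝ χ)) (un c ∪ un c'')
  bg : ∀ z ∈ ball (0 : ℂ) r, z ∉ un c → ‖g z‖ ≤ M
  bh : ∀ z ∈ ball (0 : ℂ) r, z ∉ un c'' → ‖h z‖ ≤ M
  hδ : δ ≤ Real.pi / 4
  hM : 0 < M

/-- The holes of `c` near the support of `χ`, except `b`. -/
abbrev NearI (c : Cfg) (χ : ℂ → ℝ) (b : Set ℂ × ℝ) : Type :=
  {k : Set ℂ × ℝ // k ∈ c ∧ k ≠ b ∧ (k.1 ∩ tsupport χ).Nonempty}

private theorem g1_nrm (p : ℂ) (φ t : ℝ) : nrm φ (p + t * exp (φ * I)) = nrm φ p := by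
  rw [nrm_add]
  have : nrm φ (t * exp (φ * I)) = 0 := by
    unfold nrm
    have h : exp (-(φ : ℂ) * I) * (t * exp (φ * I)) = (t : ℂ) := by
      rw [mul_left_comm, ← Complex.exp_add]
      simp
    rw [h]
    exact Complex.ofReal_im t
  rw [this, add_zero]

theorem SMap.line {θ₀ : ℝ} {c : Cfg} {g : ℂ → ℂ} {S : Set ℂ × ℝ → Set ℂ}
    (hg : SMap θ₀ c g S) {k : Set ℂ × ℝ} (hk : k ∈ c) :
    ∃ q : ℝ, Tendsto (fun z => nrm (k.2 - θ₀) (g z)) (nearIn (un c)ᶜ k.1) (𝓝 q) := by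
  obtain ⟨p, ℓ, hℓ, hS⟩ := hg.isSeg k hk
  refine ⟨nrm (k.2 - θ₀) p, ?_⟩
  have hc : Continuous (nrm (k.2 - θ₀)) := by
    unfold nrm
    exact Complex.continuous_im.comp (continuous_const.mul continuous_id)
  have h1 : Tendsto (nrm (k.2 - θ₀)) (𝓝ˢ (S k)) (𝓝 (nrm (k.2 - θ₀) p)) := by
    intro O hO
    rw [mem_map, mem_nhdsSet_iff_forall]
    intro w hw
    rw [hS] at hw
    obtain ⟨t, -, rfl⟩ := hw
    apply hc.continuousAt.preimage_mem_nhds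
    simp only
    rwa [g1_nrm]
  exact h1.comp (hg.toS k hk)

theorem seg_eq_slit (p : ℂ) {φ : ℝ} (h1 : -(Real.pi / 2) < φ) (h2 : φ < Real.pi / 2) (ℓ : ℝ) :
    seg p φ ℓ = slit p (Real.tan φ) (ℓ * Real.cos φ) := by
  have hc : 0 < Real.cos φ := Real.cos_pos_of_mem_Ioo ⟨h1, h2⟩
  have hcc : ((Real.cos φ : ℝ) : ℂ) ≠ 0 := by exact_mod_cast hc.ne'
  have key : exp ((φ : ℂ) * I) = ((Real.cos φ : ℝ) : ℂ) * (1 + (Real.tan φ : ℝ) * I) := by
    rw [Complex.exp_mul_I, Real.tan_eq_sin_div_cos, mul_add, mul_one, ← mul_assoc]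
    push_cast
    rw [mul_div_cancel₀]
    rw [← Complex.ofReal_cos]
    exact hcc
  unfold seg slit
  ext w
  constructor
  · rintro ⟨t, ht, rfl⟩
    refine ⟨t * Real.cos φ, ⟨mul_nonneg ht.1 hc.le, mul_le_mul_of_nonneg_right ht.2 hc.le⟩, ?_⟩
    simp only
    rw [key]
    push_cast
    ring
  · rintro ⟨s, hs, rfl⟩
    refine ⟨s / Real.cos φ, ⟨div_nonneg hs.1 hc.le, (div_le_iff₀ hc).2 hs.2⟩, ?_⟩
    simp only
    rw [key]
    rw [Complex.ofReal_div, ← mul_assoc, div_mul_cancel₀ _ hcc]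

private theorem g1_vol (p : ℂ) (φ ℓ : ℝ) : volume (seg p φ ℓ) = 0 := by
  let L : ℂ →ₗ[ℝ] ℝ := Complex.imLm.comp (LinearMap.mulLeft ℝ (exp (-(φ : ℂ) * I)))
  have hL : ∀ w, L w = nrm φ w := fun w => rfl
  have hsub : seg p φ ℓ ⊆ (AffineSubspace.mk' p (LinearMap.ker L) : Set ℂ) := by
    rintro _ ⟨t, -, rfl⟩
    simp only [SetLike.mem_coe, AffineSubspace.mem_mk', LinearMap.mem_ker, vsub_eq_sub, hL]
    rw [nrm_sub, g1_nrm, sub_self]
  refine measure_mono_null hsub (Measure.addHaar_affineSubspace _ _ ?_)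
  intro htop
  have h1 : (p + exp (φ * I) * I : ℂ) ∈ AffineSubspace.mk' p (LinearMap.ker L) := by
    rw [htop]; exact AffineSubspace.mem_top _ _ _
  rw [AffineSubspace.mem_mk', LinearMap.mem_ker, vsub_eq_sub, add_sub_cancel_left, hL] at h1
  unfold nrm at h1
  rw [← mul_assoc, ← Complex.exp_add] at h1
  simp at h1

/-- The slit of a hole contained in the ball is contained in the bounded set. -/
private theorem g1_slit {θ₀ M r : ℝ} {c : Cfg} {g : ℂ → ℂ} {S : Set ℂ × ℝ → Set ℂ}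
    (hg : SMap θ₀ c g S) (bg : ∀ z ∈ ball (0 : ℂ) r, z ∉ un c → ‖g z‖ ≤ M)
    {k : Set ℂ × ℝ} (hk : k ∈ c) (hr : k.1 ⊆ ball 0 r) : S k ⊆ closedBall 0 M := by
  intro w hw
  have hdense : Dense (⋃ h ∈ c, S h)ᶜ := by
    rw [← interior_eq_empty_iff_dense_compl]
    refine Measure.interior_eq_empty_of_null (μ := (volume : Measure ℂ)) ?_
    refine (measure_biUnion_null_iff c.countable_toSet).2 ?_
    intro h hh
    obtain ⟨p, ℓ, -, hS⟩ := hg.isSeg h hh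
    rw [hS]
    exact g1_vol _ _ _
  have h1 : ∀ᶠ v in 𝓝 w, ∀ z ∈ (un c)ᶜ, g z = v → z ∈ ball (0 : ℂ) r :=
    (nhds_le_nhdsSet hw) (hg.ofS k hk _ (isOpen_ball.mem_nhdsSet.2 hr))
  have h2 : ∃ᶠ v in 𝓝 w, v ∈ (⋃ h ∈ c, S h)ᶜ := mem_closure_iff_frequently.1 (hdense w)
  have h3 : ∃ᶠ v in 𝓝 w, v ∈ closedBall (0 : ℂ) M := by
    refine (h2.and_eventually h1).mono ?_
    rintro v ⟨hv, hv'⟩
    rw [← hg.image] at hv
    obtain ⟨z, hz, rfl⟩ := hv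
    rw [mem_closedBall_zero_iff]
    exact bg z (hv' z hz rfl) hz
  exact isClosed_closedBall.closure_subset (mem_closure_iff_frequently.2 h3)

namespace LocData

variable {θ₀ δ M r : ℝ} {χ : ℂ → ℝ} {B : Set ℂ} {c c'' : Cfg} {g h : ℂ → ℂ}
  {S S'' : Set ℂ × ℝ → Set ℂ}

theorem openD (hd : LocData θ₀ δ M r χ B c c'' g h S S'') : IsOpen (un c ∪ un c'')ᶜ := by
  rw [compl_union]
  exact hd.vc.isOpen.inter hd.vc''.isOpen

theorem finite_near (c : Cfg) (χ : ℂ → ℝ) (b : Set ℂ × ℝ) : Finite (NearI c χ b) := by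
  refine Finite.of_injective (fun k : NearI c χ b => (⟨k.1, k.2.1⟩ : c)) ?_
  intro k k' hkk
  have := congrArg (fun x : c => x.1) hkk
  exact Subtype.ext this

theorem const_near (hd : LocData θ₀ δ M r χ B c c'' g h S S'') {k : Set ℂ × ℝ}
    (hk : k ∈ c ∨ k ∈ c'') (hm : (k.1 ∩ tsupport χ).Nonempty) :
    ∃ a : ℝ, 0 < a ∧ a ≤ 1 ∧ ∀ᶠ z in 𝓝ˢ k.1, χ z = a := by
  have hconn : IsConnected k.1 := by
    rcases hk with h | h
    · exact hd.vc.conn k h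
    · exact hd.vc''.conn k h
  have hku : k.1 ⊆ un c ∪ un c'' := by
    rcases hk with h | h
    · exact (subset_un h).trans subset_union_left
    · exact (subset_un h).trans subset_union_right
  obtain ⟨x, hx⟩ := hconn.nonempty
  set W : Set ℂ := (tsupport (fderiv ℝ χ))ᶜ with hW
  have hWo : IsOpen W := (isClosed_tsupport _).isOpen_compl
  have hkW : k.1 ⊆ W := fun z hz hz' => Set.disjoint_left.1 hd.off hz' (hku hz)
  set U : Set ℂ := connectedComponentIn W x with hU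
  have hUo : IsOpen U := hWo.connectedComponentIn
  have hkU : k.1 ⊆ U := hconn.isPreconnected.subset_connectedComponentIn hx hkW
  have hdiff : Differentiable ℝ χ := hd.smooth.differentiable (by simp)
  have hconst : ∀ z ∈ U, χ z = χ x := by
    intro z hz
    refine hUo.is_const_of_fderiv_eq_zero (𝕜 := ℝ) isPreconnected_connectedComponentIn
      hdiff.differentiableOn ?_ hz (hkU hx)
    intro y hy
    have : y ∉ tsupport (fderiv ℝ χ) := connectedComponentIn_subset _ _ hy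
    exact image_eq_zero_of_notMem_tsupport this
  have hne : χ x ≠ 0 := by
    obtain ⟨y, hyk, hyt⟩ := hm
    obtain ⟨z, hz1, hz2⟩ := mem_closure_iff.1 hyt U hUo (hkU hyk)
    rw [← hconst z hz1]
    exact hz2
  refine ⟨χ x, lt_of_le_of_ne (hd.bd x).1 (Ne.symm hne), (hd.bd x).2, ?_⟩
  exact (hUo.mem_nhdsSet.2 hkU) |> fun h => Filter.mem_of_superset h hconst

theorem cover (hd : LocData θ₀ δ M r χ B c c'' g h S S'') :
    tsupport χ ⊆ (un c ∪ un c'')ᶜ ∪ B ∪ ⋃ k : NearI c χ (B, θ₀), k.1.1 := by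
  intro z hz
  by_cases h1 : z ∈ un c
  · obtain ⟨k, hk, hzk⟩ := mem_un.1 h1
    by_cases h2 : k = (B, θ₀)
    · left; right
      rw [h2] at hzk
      exact hzk
    · right
      exact mem_iUnion.2 ⟨⟨k, hk, h2, ⟨z, hzk, hz⟩⟩, hzk⟩
  · by_cases h2 : z ∈ un c''
    · obtain ⟨k, hk, hzk⟩ := mem_un.1 h2
      rcases hd.io k hk with h3 | h3
      · left; right
        exact interior_subset (h3 hzk)
      · exfalso
        exact h1 (mem_un.2 ⟨k, (hd.share k h3 ⟨z, hzk, hz⟩).2 hk, hzk⟩)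
    · left; left
      intro h3
      rcases h3 with h3 | h3
      · exact h1 h3
      · exact h2 h3

theorem near_mem'' (hd : LocData θ₀ δ M r χ B c c'' g h S S'') (k : NearI c χ (B, θ₀)) :
    k.1 ∈ c'' ∧ Disjoint k.1.1 B := by
  have h1 : Disjoint k.1.1 B := hd.vc.disj k.1 k.2.1 (B, θ₀) hd.hB k.2.2.1
  exact ⟨(hd.share k.1 h1 k.2.2.2).1 k.2.1, h1⟩

/-- Parametrisation of the slits by left end point, slope and horizontal length. -/
theorem param (hd : LocData θ₀ δ M r χ B c c'' g h S S'') :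
    ∃ (p₀ : ℂ) (ℓ₀ : ℝ), 0 < ℓ₀ ∧ S (B, θ₀) = slit p₀ 0 ℓ₀ ∧
    ∃ (τ : NearI c χ (B, θ₀) → ℝ) (p p'' : NearI c χ (B, θ₀) → ℂ)
      (ℓ ℓ'' : NearI c χ (B, θ₀) → ℝ), ∀ k, τ k = Real.tan (k.1.2 - θ₀) ∧ |τ k| ≤ 2 * δ ∧
        0 < ℓ k ∧ 0 < ℓ'' k ∧ S k.1 = slit (p k) (τ k) (ℓ k) ∧
        S'' k.1 = slit (p'' k) (τ k) (ℓ'' k) := by
  have hpi := Real.pi_pos
  obtain ⟨p₀, ℓ₀, hℓ₀, hS₀⟩ := hd.sg.isSeg _ hd.hB
  refine ⟨p₀, ℓ₀, hℓ₀, ?_, ?_⟩
  · rw [hS₀]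
    simp only [sub_self]
    rw [seg_eq_slit p₀ (by linarith) (by linarith)]
    simp
  · have key : ∀ k : NearI c χ (B, θ₀), ∃ (p p'' : ℂ) (ℓ ℓ'' : ℝ),
        |Real.tan (k.1.2 - θ₀)| ≤ 2 * δ ∧ 0 < ℓ ∧ 0 < ℓ'' ∧
        S k.1 = slit p (Real.tan (k.1.2 - θ₀)) ℓ ∧
        S'' k.1 = slit p'' (Real.tan (k.1.2 - θ₀)) ℓ'' := by
      intro k
      have hφ := hd.ang k.1 k.2.1 k.2.2.2
      have hδ := hd.hδ
      obtain ⟨h1, h2⟩ := abs_le.1 hφ
      obtain ⟨p, ℓ, hℓ, hS⟩ := hd.sg.isSeg k.1 k.2.1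
      obtain ⟨p'', ℓ'', hℓ'', hS''⟩ := hd.sh.isSeg k.1 (hd.near_mem'' k).1
      have hlo : -(Real.pi / 2) < k.1.2 - θ₀ := by linarith
      have hhi : k.1.2 - θ₀ < Real.pi / 2 := by linarith
      have hc : 0 < Real.cos (k.1.2 - θ₀) := Real.cos_pos_of_mem_Ioo ⟨hlo, hhi⟩
      refine ⟨p, p'', ℓ * Real.cos (k.1.2 - θ₀), ℓ'' * Real.cos (k.1.2 - θ₀), ?_,
        mul_pos hℓ hc, mul_pos hℓ'' hc, ?_, ?_⟩
      · have h3 : 1 / 2 ≤ Real.cos (k.1.2 - θ₀) := by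
          have h4 := Real.one_sub_sq_div_two_le_cos (x := k.1.2 - θ₀)
          have h5 : (k.1.2 - θ₀) ^ 2 ≤ 1 := by
            rw [← sq_abs]
            have h6 : |k.1.2 - θ₀| ≤ 1 := by linarith [Real.pi_le_four]
            nlinarith [abs_nonneg (k.1.2 - θ₀)]
          linarith
        rw [Real.tan_eq_sin_div_cos, abs_div, abs_of_pos hc, div_le_iff₀ hc]
        have h4 : |Real.sin (k.1.2 - θ₀)| ≤ |k.1.2 - θ₀| := Real.abs_sin_le_abs
        have h5 : 0 ≤ δ := (abs_nonneg _).trans hφ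
        nlinarith
      · rw [hS, seg_eq_slit p hlo hhi]
      · rw [hS'', seg_eq_slit p'' hlo hhi]
    choose p p'' ℓ ℓ'' h1 h2 h3 h4 h5 using key
    exact ⟨fun k => Real.tan (k.1.2 - θ₀), p, p'', ℓ, ℓ'', fun k =>
      ⟨rfl, h1 k, h2 k, h3 k, h4 k, h5 k⟩⟩

theorem slit_ball (hd : LocData θ₀ δ M r χ B c c'' g h S S'') {k : Set ℂ × ℝ}
    (hm : (k.1 ∩ tsupport χ).Nonempty) :
    (k ∈ c → S k ⊆ closedBall 0 M) ∧ (k ∈ c'' → S'' k ⊆ closedBall 0 M) := by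
  have key : (k ∈ c ∨ k ∈ c'') → k.1 ⊆ ball 0 r := by
    intro hk
    obtain ⟨a, ha, -, hev⟩ := hd.const_near hk hm
    intro z hz
    apply hd.supp
    apply subset_tsupport
    have h1 : χ z = a := (Filter.Eventually.filter_mono (nhds_le_nhdsSet hz) hev).self_of_nhds
    rw [Function.mem_support, h1]
    exact ha.ne'
  exact ⟨fun hk => g1_slit hd.sg hd.bg hk (key (Or.inl hk)),
    fun hk => g1_slit hd.sh hd.bh hk (key (Or.inr hk))⟩

theorem nice_D (hd : LocData θ₀ δ M r χ B c c'' g h S S'') :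
    Nice (un c ∪ un c'')ᶜ (ball 0 r) (fun z => (g z).re) ∧
    Nice (un c ∪ un c'')ᶜ (ball 0 r) (fun z => (g z).im) ∧
    Nice (un c ∪ un c'')ᶜ (ball 0 r) (fun z => (h z).re) ∧
    Nice (un c ∪ un c'')ᶜ (ball 0 r) (fun z => (h z).im) := by
  have h1 := nice_parts hd.vc.isOpen hd.sg.diff hd.sg.inj (s := r) (M := M)
    (fun z hz hzr => hd.bg z (mem_ball_zero_iff.2 hzr) hz)
  have h2 := nice_parts hd.vc''.isOpen hd.sh.diff hd.sh.inj (s := r) (M := M)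
    (fun z hz hzr => hd.bh z (mem_ball_zero_iff.2 hzr) hz)
  have hsub1 : (un c ∪ un c'')ᶜ ⊆ (un c)ᶜ := compl_subset_compl.2 subset_union_left
  have hsub2 : (un c ∪ un c'')ᶜ ⊆ (un c'')ᶜ := compl_subset_compl.2 subset_union_right
  have mono : ∀ {D D' : Set ℂ} {a : ℂ → ℝ}, D' ⊆ D → Nice D (ball 0 r) a →
      Nice D' (ball 0 r) a := by
    intro D D' a hDD hn
    refine ⟨hn.smooth.mono hDD, ?_, hn.l2.mono_set (inter_subset_inter_left _ hDD)⟩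
    obtain ⟨K, hK⟩ := hn.bdd
    exact ⟨K, fun z hz => hK z ⟨hDD hz.1, hz.2⟩⟩
  exact ⟨mono hsub1 h1.1, mono hsub1 h1.2, mono hsub2 h2.1, mono hsub2 h2.2⟩

private theorem g1_energy {c : Cfg} (vc : Valid c) {g : ℂ → ℂ} {M r : ℝ} (hM : 0 < M)
    (hdiff : DifferentiableOn ℂ g (un c)ᶜ) (hinj : InjOn g (un c)ᶜ)
    (bg : ∀ z ∈ ball (0 : ℂ) r, z ∉ un c → ‖g z‖ ≤ M) :
    IntegrableOn (fun z => ‖deriv g z‖ ^ 2) ((un c)ᶜ ∩ ball 0 r) ∧
    ∫ z in (un c)ᶜ ∩ ball 0 r, ‖deriv g z‖ ^ 2 ≤ Real.pi * M ^ 2 := by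
  have hU : IsOpen ((un c)ᶜ ∩ ball (0 : ℂ) r) := vc.isOpen.inter isOpen_ball
  have hsub : g '' ((un c)ᶜ ∩ ball (0 : ℂ) r) ⊆ closedBall 0 M := by
    rintro _ ⟨z, hz, rfl⟩
    rw [mem_closedBall_zero_iff]
    exact bg z hz.2 hz.1
  obtain ⟨h1, h2⟩ := integral_sq_deriv hU (hdiff.mono inter_subset_left)
    (hinj.mono inter_subset_left) (isBounded_closedBall.subset hsub)
  refine ⟨h1, ?_⟩
  rw [h2]
  have h3 : (volume (closedBall (0 : ℂ) M)).toReal = Real.pi * M ^ 2 := by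
    rw [Complex.volume_closedBall]
    simp [hM.le, mul_comm]
  rw [← h3]
  exact ENNReal.toReal_mono (isCompact_closedBall (0 : ℂ) M).measure_lt_top.ne (measure_mono hsub)

theorem energy_D (hd : LocData θ₀ δ M r χ B c c'' g h S S'') :
    IntegrableOn (fun z => ‖deriv g z‖ ^ 2) ((un c)ᶜ ∩ ball 0 r) ∧
    ∫ z in (un c)ᶜ ∩ ball 0 r, ‖deriv g z‖ ^ 2 ≤ Real.pi * M ^ 2 ∧
    IntegrableOn (fun z => ‖deriv h z‖ ^ 2) ((un c'')ᶜ ∩ ball 0 r) ∧
    ∫ z in (un c'')ᶜ ∩ ball 0 r, ‖deriv h z‖ ^ 2 ≤ Real.pi * M ^ 2 := by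
  obtain ⟨h1, h2⟩ := g1_energy hd.vc hd.hM hd.sg.diff hd.sg.inj hd.bg
  obtain ⟨h3, h4⟩ := g1_energy hd.vc'' hd.hM hd.sh.diff hd.sh.inj hd.bh
  exact ⟨h1, h2, h3, h4⟩

end LocData

end RSM2
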