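import Pool.Agent.RSM2.G1

/-!
# RSM2 module G2: the energy identity in the `z`-plane

`D = (un c ∪ un c'')ᶜ`, `k = h - g = k₁ + i k₂`, `g = g₁ + i g₂`, `h = h₁ + i h₂`.

PROOF.  `T = tsupport χ`.  The holes are `B` and the near holes (`Option (NearI …)`); `T ⊆ D ∪ holes`
(`cover`); they are pairwise disjoint compact sets disjoint from `D`.  By `const_near` every
one has a neighbourhood in `T` on which `χ` is a nonzero constant; choose cut-offs `X_k` with
`tsupport X_k` in this neighbourhood, with disjoint supports, and in `D ∪ k.1` (`k.1` has positive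
distance from all other holes of `c` and `c''`, except that the holes of `c''` in `B` are inside `B`);
for `B` use the given `X` or another one (`Fl_eq_of_cut`).
(1) `‖k'‖² = J k₁ k₂` on `D` (Cauchy-Riemann), `χ J k₁ k₂ = J (χ k₁) k₂ - k₁ J χ k₂`, so
`∫_D χ ‖k'‖² = ∫_D J (χ k₁) k₂ - ∫_D k₁ J χ k₂` and by `stokes_sum` the first integral is the sum of
the fluxes `Fl D X_k (χ k₁) k₂ = a_k Fl D X_k k₁ k₂` (`χ = a_k` on the support of `X_k`).
(2) At a near hole `k` (in `c` and in `c''`, `near_mem''`) `nrm (k.2 - θ₀) (h - g)` has a limit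
(`SMap.line` for `g` and `h`, `nearIn D k.1 ≤ nearIn (un c)ᶜ k.1`), so the flux is `0` (`Fl_line`).
(3) At `B` (`χ = 1`): `Fl k₁ k₂ = Fl h₁ h₂ - Fl g₁ h₂ - Fl h₁ g₂ + Fl g₁ g₂`, and `g₂ = nrm 0 g` tends to
a constant at `B` (angle `θ₀ - θ₀ = 0`), so `Fl h₁ g₂ = Fl g₁ g₂ = 0`, and
`Fl g₁ h₂ = Fl g₁ k₂ + Fl g₁ g₂ = Fl g₁ k₂`.
(4) `Fl D X h₁ h₂ ≤ 0`: let `D'' = (un c'')ᶜ`, where `h` is holomorphic; `X` is supported in
`D ∪ B`.  By `stokes_sum` on `D''` for the holes `k ∈ c''`, `k.1 ⊆ interior B`, with `T = tsupport X`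
(`tsupport X ⊆ D ∪ B ⊆ D'' ∪ ⋃ these holes`) `∫_{D''} J (X h₁) h₂ = ∑ Fl D'' X_k' (X h₁) h₂ = 0`
(`X = 1` near `B ⊇ k.1`; `SMap.line`, `Fl_line`).  `D'' ∩ tsupport X` is the disjoint union of
`D ∩ tsupport X` and `B \ un c''` (up to points where the integrand vanishes), and on
`B \ un c''` the integrand is `J h₁ h₂ = ‖h'‖² ≥ 0` (`X = 1` near `B`).  So
`0 = ∫_D J (X h₁) h₂ + ∫_{B \ un c''} ‖h'‖² ≥ Fl D X h₁ h₂`.
(5) Altogether `∫_D χ ‖k'‖² ≤ -∫_D k₁ J χ k₂ - Fl D X g₁ k₂`.  Finally `J χ k₂` is supported in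
`tsupport (fderiv ℝ χ)`, where `|k₁| ≤ δ₁`, so by Cauchy-Schwarz
`|∫_D k₁ J χ k₂| ≤ δ₁ √(∫ ‖∇χ‖²) √(∫_{D ∩ ball 0 r} ‖k'‖²)`, and
`∫_{D ∩ ball 0 r} ‖k'‖² ≤ 2 ∫ ‖g'‖² + 2 ∫ ‖h'‖² ≤ 4 π M² ≤ (4M)²` (`energy_D`).
-/

open Complex Set Metric Filter Topology MeasureTheory

namespace RSM2

/-- Cauchy-Schwarz -/
private theorem g2_cs {μ : Measure ℂ} {f g : ℂ → ℝ} (hf : AEStronglyMeasurable f μ)
    (hg : AEStronglyMeasurable g μ) (hf0 : ∀ z, 0 ≤ f z) (hg0 : ∀ z, 0 ≤ g z)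
    (hf2 : Integrable (fun z => f z ^ 2) μ) (hg2 : Integrable (fun z => g z ^ 2) μ) :
    Integrable (fun z => f z * g z) μ ∧
    ∫ z, f z * g z ∂μ ≤ √(∫ z, f z ^ 2 ∂μ) * √(∫ z, g z ^ 2 ∂μ) := by
  have hfL : MemLp f 2 μ := (memLp_two_iff_integrable_sq hf).2 hf2
  have hgL : MemLp g 2 μ := (memLp_two_iff_integrable_sq hg).2 hg2
  refine ⟨hfL.integrable_mul hgL, ?_⟩
  have h := integral_mul_le_Lp_mul_Lq_of_nonneg (μ := μ) (f := f) (g := g)
    (Real.HolderConjugate.two_two) (Eventually.of_forall hf0) (Eventually.of_forall hg0)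
    (by simpa using hfL) (by simpa using hgL)
  simpa [Real.sqrt_eq_rpow] using h

/-- cut-off functions for finitely many holes -/
private theorem g2_cuts {ι : Type} {D T : Set ℂ} {H U : ι → Set ℂ} (hD : IsOpen D)
    (hH : ∀ i, IsCompact (H i)) (hdisj : ∀ i, Disjoint D (H i))
    (hpw : ∀ i j, i ≠ j → Disjoint (H i) (H j))
    (hU : ∀ i, IsOpen (U i)) (hHU : ∀ i, H i ⊆ U i) (hUT : ∀ i, U i ⊆ T ∩ (D ∪ H i)) :
    ∃ X : ι → ℂ → ℝ, (∀ i, HoleCut D (H i) T (X i)) ∧ (∀ i, tsupport (X i) ⊆ U i) ∧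
      ∀ i j, i ≠ j → ∀ᶠ z in 𝓝ˢ (H j), X i z = 0 := by
  have hex := fun i => exists_cut (hH i) (hU i) (hHU i)
  choose X h1 h2 h3 h4 h5 using hex
  refine ⟨X, fun i => ⟨hD, hH i, hdisj i, h1 i, h2 i, h5 i, (h3 i).trans (hUT i)⟩, h3, ?_⟩
  intro i j hij
  have h6 : (tsupport (X i))ᶜ ∈ 𝓝ˢ (H j) := by
    rw [(isClosed_tsupport (X i)).isOpen_compl.mem_nhdsSet]
    intro z hz hz'
    rcases (hUT i (h3 i hz')).2 with h | h
    · exact (disjoint_left.1 (hdisj j)) h hz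
    · exact (disjoint_left.1 (hpw i j hij)) h hz
  filter_upwards [h6] with z hz
  exact image_eq_zero_of_notMem_tsupport hz

private theorem g2_const {D H T : Set ℂ} {X χ a b : ℂ → ℝ} (hX : HoleCut D H T X)
    (ha : Nice D T a) (hb : Nice D T b) {k : ℝ}
    (h : ∀ z ∈ tsupport X, χ z = k) : Fl D X (fun z => χ z * a z) b = k * Fl D X a b := by
  rw [← Fl_smul_left hX ha hb k]
  unfold Fl
  have : (fun w => X w * (χ w * a w)) = fun w => X w * (k * a w) := by
    funext w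
    by_cases hw : w ∈ tsupport X
    · rw [h w hw]
    · rw [image_eq_zero_of_notMem_tsupport hw, zero_mul, zero_mul]
  rw [this]

/-- the union of some of the holes of a configuration -/
private def g2oth (c : Cfg) (P : Set ℂ × ℝ → Prop) : Set ℂ := {z | ∃ k ∈ c, P k ∧ z ∈ k.1}

private theorem g2_closed {c : Cfg} (hc : Valid c) (P : Set ℂ × ℝ → Prop) :
    IsClosed (g2oth c P) := by
  have h1 : g2oth c P = ⋃ k ∈ {k : Set ℂ × ℝ | k ∈ c ∧ P k}, k.1 := by
    ext z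
    simp only [g2oth, mem_iUnion]
    constructor
    · rintro ⟨k, h1, h2, h3⟩
      exact ⟨k, ⟨h1, h2⟩, h3⟩
    · rintro ⟨k, ⟨h1, h2⟩, h3⟩
      exact ⟨k, h1, h2, h3⟩
  rw [h1]
  have hfin : {k : Set ℂ × ℝ | k ∈ c ∧ P k}.Finite :=
    c.finite_toSet.subset (fun k hk => hk.1)
  exact (hfin.isCompact_biUnion fun k hk => hc.compact k hk.1).isClosed

/-- the holes of `c''` inside of `B` -/
private abbrev G2In (c'' : Cfg) (B : Set ℂ) : Type :=
  {k : Set ℂ × ℝ // k ∈ c'' ∧ k.1 ⊆ interior B}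

namespace LocData

variable {θ₀ δ M r : ℝ} {χ : ℂ → ℝ} {B : Set ℂ} {c c'' : Cfg} {g h : ℂ → ℂ}
  {S S'' : Set ℂ × ℝ → Set ℂ}

/-- the flux of `h₁ dh₂` at `B` is nonpositive -/
private theorem g2_neg (hd : LocData θ₀ δ M r χ B c c'' g h S S'') {X : ℂ → ℝ}
    (hX : HoleCut (un c ∪ un c'')ᶜ B (ball 0 r) X) :
    Fl (un c ∪ un c'')ᶜ X (fun z => (h z).re) (fun z => (h z).im) ≤ 0 := by
  have hD : IsOpen (un c ∪ un c'')ᶜ := hd.openD
  have hD'' : IsOpen (un c'')ᶜ := hd.vc''.isOpen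
  have hDD : (un c ∪ un c'')ᶜ ⊆ (un c'')ᶜ := compl_subset_compl.2 subset_union_right
  obtain ⟨V, hV, hBV, hVX⟩ := mem_nhdsSet_iff_exists.1 hX.one
  set T : Set ℂ := tsupport X with hT
  have hTc : IsCompact T := hX.compact
  have hTr : T ⊆ ball 0 r := fun z hz => (hX.supp hz).1
  -- the holes inside of `B`
  have hfin : Finite (G2In c'' B) := Finite.of_injective
    (fun k : G2In c'' B => (⟨k.1, k.2.1⟩ : {x // x ∈ c''}))
    (fun k l hkl => Subtype.ext (congrArg (fun x : {x // x ∈ c''} => x.1) hkl))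
  have hft : Fintype (G2In c'' B) := Fintype.ofFinite _
  have hBX : ∀ z ∈ B, X z = 1 := fun z hz => hVX (hBV hz)
  have hBT : B ⊆ T := fun z hz => subset_tsupport X (by
    rw [Function.mem_support, hBX z hz]
    exact one_ne_zero)
  have c1 : ∀ k : G2In c'' B, IsCompact k.1.1 := fun k => hd.vc''.compact _ k.2.1
  have c2 : ∀ k : G2In c'' B, Disjoint (un c'')ᶜ k.1.1 := fun k => by
    rw [disjoint_left]
    intro z hz hzk
    exact hz (subset_un k.2.1 hzk)
  have c3 : ∀ k l : G2In c'' B, k ≠ l → Disjoint k.1.1 l.1.1 := fun k l hkl =>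
    hd.vc''.disj _ k.2.1 _ l.2.1 (fun h => hkl (Subtype.ext h))
  have c4 : ∀ k : G2In c'' B, IsOpen (interior B ∩ (g2oth c'' (fun l => l ≠ k.1))ᶜ) := fun k =>
    isOpen_interior.inter (g2_closed hd.vc'' _).isOpen_compl
  have c5 : ∀ k : G2In c'' B, k.1.1 ⊆ interior B ∩ (g2oth c'' (fun l => l ≠ k.1))ᶜ := by
    intro k z hz
    refine ⟨k.2.2 hz, fun hz' => ?_⟩
    obtain ⟨l, hl1, hl2, hzl⟩ := hz'
    exact (disjoint_left.1 (hd.vc''.disj _ hl1 _ k.2.1 hl2)) hzl hz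
  have c6 : ∀ k : G2In c'' B, interior B ∩ (g2oth c'' (fun l => l ≠ k.1))ᶜ ⊆
      T ∩ ((un c'')ᶜ ∪ k.1.1) := by
    intro k z hz
    refine ⟨hBT (interior_subset hz.1), ?_⟩
    by_cases hzc : z ∈ un c''
    · right
      obtain ⟨l, hl, hzl⟩ := mem_un.1 hzc
      by_cases hlk : l = k.1
      · rw [← hlk]; exact hzl
      · exact absurd ⟨l, hl, hlk, hzl⟩ hz.2
    · exact Or.inl hzc
  obtain ⟨X'', hX1, hX2, hX3⟩ := g2_cuts hD'' c1 c2 c3 c4 c5 c6
  have hTD : T ⊆ (un c'')ᶜ ∪ ⋃ k : G2In c'' B, k.1.1 := by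
    intro z hz
    rcases (hX.supp hz).2 with h1 | h1
    · exact Or.inl (hDD h1)
    · by_cases hzc : z ∈ un c''
      · right
        obtain ⟨l, hl, hzl⟩ := mem_un.1 hzc
        rcases hd.io l hl with h2 | h2
        · exact mem_iUnion.2 ⟨⟨l, hl, h2⟩, hzl⟩
        · exact absurd h1 (disjoint_left.1 h2 hzl)
      · exact Or.inl hzc
  obtain ⟨n1, n2⟩ := nice_parts hD'' hd.sh.diff hd.sh.inj (s := r) (M := M)
    (fun z hz hzs => hd.bh z (mem_ball_zero_iff.2 hzs) hz)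
  have n1T := n1.mono hTr
  have n2T := n2.mono hTr
  have nX : Nice (un c'')ᶜ T X := by
    obtain ⟨R, hR⟩ := hTc.isBounded.subset_closedBall 0
    exact Nice.of_contDiff hD'' hR (J4_smooth2 hX)
  have hst := stokes_sum hD'' hX1 hX3 hTc hTD (nX.mul hD'' n1T) n2T (fun z hz => by
    left
    filter_upwards [(isClosed_tsupport X).isOpen_compl.mem_nhds hz.2] with w hw
    rw [image_eq_zero_of_notMem_tsupport hw, zero_mul])
  obtain ⟨hint, hsum⟩ := hst
  have hz : ∫ z in (un c'')ᶜ, J (fun z => X z * (h z).re) (fun z => (h z).im) z = 0 := by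
    rw [hsum]
    refine Finset.sum_eq_zero fun k _ => ?_
    rw [g2_const (hX1 k) n1T n2T (k := 1)
      (fun z hz => hBX z (interior_subset (hX2 k hz).1)), one_mul]
    obtain ⟨q, hq⟩ := hd.sh.line k.2.1
    exact Fl_line (hX1 k) n1T n2T hq
  have hpos : 0 ≤ ∫ z in (un c'')ᶜ \ (un c ∪ un c'')ᶜ,
      J (fun z => X z * (h z).re) (fun z => (h z).im) z := by
    refine setIntegral_nonneg (hD''.measurableSet.diff hD.measurableSet) fun z hz => ?_
    by_cases hzB : z ∈ B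
    · have e1 : (fun z => X z * (h z).re) =ᶠ[𝓝 z] fun z => (h z).re := by
        filter_upwards [hV.mem_nhds (hBV hzB)] with w hw
        have : X w = 1 := hVX hw
        rw [this, one_mul]
      rw [J_congr e1 (EventuallyEq.refl _ _),
        (v7_CR (hd.sh.diff.differentiableAt (hD''.mem_nhds hz.1))).1]
      positivity
    · have hzT : z ∉ T := by
        intro hzT
        rcases (hX.supp hzT).2 with h1 | h1
        · exact hz.2 h1
        · exact hzB h1
      have e1 : J (fun z => X z * (h z).re) (fun z => (h z).im) z = 0 := by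
        refine J2_eq_zero (Or.inl ?_)
        filter_upwards [(isClosed_tsupport X).isOpen_compl.mem_nhds hzT] with w hw
        rw [image_eq_zero_of_notMem_tsupport hw, zero_mul]
      rw [e1]
  have hun : (un c'')ᶜ = (un c ∪ un c'')ᶜ ∪ ((un c'')ᶜ \ (un c ∪ un c'')ᶜ) :=
    (union_sdiff_cancel hDD).symm
  have hsplit : ∫ z in (un c'')ᶜ, J (fun z => X z * (h z).re) (fun z => (h z).im) z =
      (∫ z in (un c ∪ un c'')ᶜ, J (fun z => X z * (h z).re) (fun z => (h z).im) z) +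
      ∫ z in (un c'')ᶜ \ (un c ∪ un c'')ᶜ,
        J (fun z => X z * (h z).re) (fun z => (h z).im) z := by
    conv_lhs => rw [hun]
    exact setIntegral_union disjoint_sdiff_self_right
      (hD''.measurableSet.diff hD.measurableSet) (hint.mono_set hDD)
      (hint.mono_set sdiff_subset)
  unfold Fl
  linarith

/-- the flux of `k₁ dk₂` at `B` -/
private theorem g2_B (hd : LocData θ₀ δ M r χ B c c'' g h S S'') {X : ℂ → ℝ}
    (hX : HoleCut (un c ∪ un c'')ᶜ B (ball 0 r) X) :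
    Fl (un c ∪ un c'')ᶜ X (fun z => (h z - g z).re) (fun z => (h z - g z).im) ≤
      |Fl (un c ∪ un c'')ᶜ X (fun z => (g z).re) (fun z => (h z - g z).im)| := by
  have hD : IsOpen (un c ∪ un c'')ᶜ := hd.openD
  obtain ⟨n1, n2, n3, n4⟩ := hd.nice_D
  have e1 : (fun z => (h z - g z).re) = fun z => (h z).re - (g z).re := by
    funext z
    simp
  have e2 : (fun z => (h z - g z).im) = fun z => (h z).im - (g z).im := by
    funext z
    simp
  have nk2 : Nice (un c ∪ un c'')ᶜ (ball 0 r) (fun z => (h z - g z).im) := by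
    rw [e2]
    exact n4.sub hD n2
  have f1 : Fl (un c ∪ un c'')ᶜ X (fun z => (h z - g z).re) (fun z => (h z - g z).im) =
      Fl (un c ∪ un c'')ᶜ X (fun z => (h z).re) (fun z => (h z - g z).im) -
      Fl (un c ∪ un c'')ᶜ X (fun z => (g z).re) (fun z => (h z - g z).im) := by
    have h1 := Fl_add_left hX (n3.sub hD n1) n1 nk2
    have h2 : (fun z => (h z).re - (g z).re + (g z).re) = fun z => (h z).re := by
      funext z
      ring
    rw [h2] at h1
    rw [e1]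
    linarith
  have f2 : Fl (un c ∪ un c'')ᶜ X (fun z => (h z).re) (fun z => (h z - g z).im) =
      Fl (un c ∪ un c'')ᶜ X (fun z => (h z).re) (fun z => (h z).im) -
      Fl (un c ∪ un c'')ᶜ X (fun z => (h z).re) (fun z => (g z).im) := by
    have h1 := Fl_add_right hX n3 (n4.sub hD n2) n2
    have h2 : (fun z => (h z).im - (g z).im + (g z).im) = fun z => (h z).im := by
      funext z
      ring
    rw [h2] at h1
    rw [e2]
    linarith
  have f3 : Fl (un c ∪ un c'')ᶜ X (fun z => (h z).re) (fun z => (g z).im) = 0 := by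
    obtain ⟨q, hq⟩ := hd.sg.line hd.hB
    have h1 : Tendsto (fun z => (g z).im) (nearIn (un c ∪ un c'')ᶜ B) (𝓝 q) := by
      have h2 : Tendsto (fun z => nrm (θ₀ - θ₀) (g z)) (nearIn (un c ∪ un c'')ᶜ B) (𝓝 q) :=
        hq.mono_left (nearIn_mono (compl_subset_compl.2 subset_union_left) le_rfl)
      refine h2.congr fun z => ?_
      rw [nrm_eq, sub_self, Real.cos_zero, Real.sin_zero]
      ring
    exact Fl_of_tendsto_right hX n3 n2 h1
  have f4 := g2_neg hd hX
  have f5 := neg_abs_le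
    (Fl (un c ∪ un c'')ᶜ X (fun z => (g z).re) (fun z => (h z - g z).im))
  linarith

private theorem g2_sum (hd : LocData θ₀ δ M r χ B c c'' g h S S'') {X : ℂ → ℝ}
    (hX : HoleCut (un c ∪ un c'')ᶜ B (ball 0 r) X) :
    IntegrableOn (J (fun z => χ z * (h z - g z).re) (fun z => (h z - g z).im))
      (un c ∪ un c'')ᶜ ∧
    ∫ z in (un c ∪ un c'')ᶜ, J (fun z => χ z * (h z - g z).re) (fun z => (h z - g z).im) z =
      Fl (un c ∪ un c'')ᶜ X (fun z => (h z - g z).re) (fun z => (h z - g z).im) := by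
  have hD : IsOpen (un c ∪ un c'')ᶜ := hd.openD
  set T : Set ℂ := tsupport χ with hT
  have hTr : T ⊆ ball 0 r := hd.supp
  have hTc : IsCompact T := (isCompact_closedBall (0 : ℂ) r).of_isClosed_subset
    (isClosed_tsupport χ) (hTr.trans ball_subset_closedBall)
  have hBc : B ⊆ un c := subset_un hd.hB
  have hBcomp : IsCompact B := hd.vc.compact _ hd.hB
  have hχT : ∀ z, χ z ≠ 0 → z ∈ T := fun z hz => subset_tsupport χ hz
  -- neighbourhoods
  obtain ⟨VB, hVB, hBVB, hVB1⟩ := mem_nhdsSet_iff_exists.1 hd.one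
  have hVex : ∀ k : NearI c χ (B, θ₀), ∃ (a : ℝ) (V : Set ℂ), 0 < a ∧ IsOpen V ∧ k.1.1 ⊆ V ∧
      ∀ z ∈ V, χ z = a := by
    intro k
    obtain ⟨a, ha, _, ha1⟩ := hd.const_near (Or.inl k.2.1) k.2.2.2
    obtain ⟨V, h1, h2, h3⟩ := mem_nhdsSet_iff_exists.1 ha1
    exact ⟨a, V, ha, h1, h2, fun z hz => h3 hz⟩
  choose a V ha hVo hkV hVa using hVex
  have hfin : Finite (NearI c χ (B, θ₀)) := finite_near c χ (B, θ₀)
  have hft : Fintype (NearI c χ (B, θ₀)) := Fintype.ofFinite _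
  let H : Option (NearI c χ (B, θ₀)) → Set ℂ := fun o => o.elim B (fun k => k.1.1)
  let U : Option (NearI c χ (B, θ₀)) → Set ℂ := fun o =>
    o.elim (VB ∩ ((g2oth c (fun l => l ≠ (B, θ₀)))ᶜ ∩ (g2oth c'' (fun l => Disjoint l.1 B))ᶜ))
      (fun k => V k ∩ ((g2oth c (fun l => l ≠ k.1))ᶜ ∩ (g2oth c'' (fun l => l ≠ k.1))ᶜ))
  have c1 : ∀ o, IsCompact (H o) := by
    rintro (_ | k)
    · exact hBcomp
    · exact hd.vc.compact _ k.2.1
  have c2 : ∀ o, Disjoint (un c ∪ un c'')ᶜ (H o) := by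
    rintro (_ | k)
    · rw [disjoint_left]
      intro z hz hzB
      exact hz (Or.inl (hBc hzB))
    · rw [disjoint_left]
      intro z hz hzk
      exact hz (Or.inl (subset_un k.2.1 hzk))
  have c3 : ∀ o o', o ≠ o' → Disjoint (H o) (H o') := by
    rintro (_ | k) (_ | l) hkl
    · exact absurd rfl hkl
    · exact (hd.near_mem'' l).2.symm
    · exact (hd.near_mem'' k).2
    · exact hd.vc.disj _ k.2.1 _ l.2.1 (fun h => hkl (congrArg some (Subtype.ext h)))
  have c4 : ∀ o, IsOpen (U o) := by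
    rintro (_ | k)
    · exact hVB.inter ((g2_closed hd.vc _).isOpen_compl.inter (g2_closed hd.vc'' _).isOpen_compl)
    · exact (hVo k).inter
        ((g2_closed hd.vc _).isOpen_compl.inter (g2_closed hd.vc'' _).isOpen_compl)
  have c5 : ∀ o, H o ⊆ U o := by
    rintro (_ | k) z hz
    · refine ⟨hBVB hz, ?_, ?_⟩
      · rintro ⟨l, hl1, hl2, hzl⟩
        exact (disjoint_left.1 (hd.vc.disj _ hl1 _ hd.hB hl2)) hzl hz
      · rintro ⟨l, hl1, hl2, hzl⟩
        exact (disjoint_left.1 hl2) hzl hz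
    · refine ⟨hkV k hz, ?_, ?_⟩
      · rintro ⟨l, hl1, hl2, hzl⟩
        exact (disjoint_left.1 (hd.vc.disj _ hl1 _ k.2.1 hl2)) hzl hz
      · rintro ⟨l, hl1, hl2, hzl⟩
        exact (disjoint_left.1 (hd.vc''.disj _ hl1 _ (hd.near_mem'' k).1 hl2)) hzl hz
  have c6 : ∀ o, U o ⊆ T ∩ ((un c ∪ un c'')ᶜ ∪ H o) := by
    rintro (_ | k) z hz
    · refine ⟨hχT z ?_, ?_⟩
      · have : χ z = 1 := hVB1 hz.1
        rw [this]
        exact one_ne_zero
      · by_cases hzD : z ∈ (un c ∪ un c'')ᶜ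
        · exact Or.inl hzD
        · right
          rw [mem_compl_iff, not_not] at hzD
          rcases hzD with h1 | h1
          · obtain ⟨l, hl, hzl⟩ := mem_un.1 h1
            by_cases hlB : l = (B, θ₀)
            · rw [hlB] at hzl
              exact hzl
            · exact absurd ⟨l, hl, hlB, hzl⟩ hz.2.1
          · obtain ⟨l, hl, hzl⟩ := mem_un.1 h1
            rcases hd.io l hl with h2 | h2
            · exact interior_subset (h2 hzl)
            · exact absurd ⟨l, hl, h2, hzl⟩ hz.2.2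
    · refine ⟨hχT z ?_, ?_⟩
      · rw [hVa k z hz.1]
        exact (ha k).ne'
      · by_cases hzD : z ∈ (un c ∪ un c'')ᶜ
        · exact Or.inl hzD
        · right
          rw [mem_compl_iff, not_not] at hzD
          rcases hzD with h1 | h1
          · obtain ⟨l, hl, hzl⟩ := mem_un.1 h1
            by_cases hlB : l = k.1
            · rw [hlB] at hzl
              exact hzl
            · exact absurd ⟨l, hl, hlB, hzl⟩ hz.2.1
          · obtain ⟨l, hl, hzl⟩ := mem_un.1 h1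
            by_cases hlB : l = k.1
            · rw [hlB] at hzl
              exact hzl
            · exact absurd ⟨l, hl, hlB, hzl⟩ hz.2.2
  obtain ⟨Y, hY1, hY2, hY3⟩ := g2_cuts hD c1 c2 c3 c4 c5 c6
  have hTD : T ⊆ (un c ∪ un c'')ᶜ ∪ ⋃ o, H o := by
    intro z hz
    rcases hd.cover hz with (h1 | h1) | h1
    · exact Or.inl h1
    · exact Or.inr (mem_iUnion.2 ⟨none, h1⟩)
    · obtain ⟨k, hk⟩ := mem_iUnion.1 h1
      exact Or.inr (mem_iUnion.2 ⟨some k, hk⟩)
  obtain ⟨n1, n2, n3, n4⟩ := hd.nice_D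
  have e1 : (fun z => (h z - g z).re) = fun z => (h z).re - (g z).re := by
    funext z
    simp
  have e2 : (fun z => (h z - g z).im) = fun z => (h z).im - (g z).im := by
    funext z
    simp
  have nk1 : Nice (un c ∪ un c'')ᶜ (ball 0 r) (fun z => (h z - g z).re) := by
    rw [e1]
    exact n3.sub hD n1
  have nk2 : Nice (un c ∪ un c'')ᶜ (ball 0 r) (fun z => (h z - g z).im) := by
    rw [e2]
    exact n4.sub hD n2
  have nk1T := nk1.mono hTr
  have nk2T := nk2.mono hTr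
  have nχ : Nice (un c ∪ un c'')ᶜ T χ :=
    Nice.of_contDiff hD (hTr.trans ball_subset_closedBall)
      (hd.smooth.of_le (WithTop.coe_le_coe.2 (le_top : (2 : ℕ∞) ≤ ⊤)))
  obtain ⟨hint, hsum⟩ := stokes_sum hD hY1 hY3 hTc hTD (nχ.mul hD nk1T) nk2T (fun z hz => by
    left
    filter_upwards [(isClosed_tsupport χ).isOpen_compl.mem_nhds hz.2] with w hw
    rw [image_eq_zero_of_notMem_tsupport hw, zero_mul])
  refine ⟨hint, ?_⟩
  rw [hsum, Fintype.sum_option]
  have hk0 : ∀ k : NearI c χ (B, θ₀), Fl (un c ∪ un c'')ᶜ (Y (some k))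
      (fun z => χ z * (h z - g z).re) (fun z => (h z - g z).im) = 0 := by
    intro k
    have hYk : HoleCut (un c ∪ un c'')ᶜ k.1.1 T (Y (some k)) := hY1 (some k)
    rw [g2_const hYk nk1T nk2T (k := a k) (fun z hz => hVa k z (hY2 (some k) hz).1)]
    obtain ⟨q, hq⟩ := hd.sg.line k.2.1
    obtain ⟨q', hq'⟩ := hd.sh.line (hd.near_mem'' k).1
    have h1 : Tendsto (fun z => nrm (k.1.2 - θ₀) (g z)) (nearIn (un c ∪ un c'')ᶜ k.1.1) (𝓝 q) :=
      hq.mono_left (nearIn_mono (compl_subset_compl.2 subset_union_left) le_rfl)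
    have h2 : Tendsto (fun z => nrm (k.1.2 - θ₀) (h z)) (nearIn (un c ∪ un c'')ᶜ k.1.1) (𝓝 q') :=
      hq'.mono_left (nearIn_mono (compl_subset_compl.2 subset_union_right) le_rfl)
    have h3 : Tendsto (fun z => nrm (k.1.2 - θ₀) (h z - g z)) (nearIn (un c ∪ un c'')ᶜ k.1.1)
        (𝓝 (q' - q)) := by
      refine (h2.sub h1).congr fun z => ?_
      rw [nrm_sub]
    rw [Fl_line (h := fun z => h z - g z) hYk nk1T nk2T h3, mul_zero]
  rw [Finset.sum_eq_zero fun k _ => hk0 k, add_zero]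
  have hYn : HoleCut (un c ∪ un c'')ᶜ B T (Y none) := hY1 none
  rw [g2_const hYn nk1T nk2T (k := 1) (fun z hz => hVB1 (hY2 none hz).1), one_mul]
  exact Fl_eq_of_cut hYn hX nk1.smooth nk2.smooth (integrable_Fl hYn nk1T nk2T)
    (integrable_Fl hX nk1 nk2)

end LocData

theorem LocData.energy_flux {θ₀ δ M r : ℝ} {χ : ℂ → ℝ} {B : Set ℂ} {c c'' : Cfg} {g h : ℂ → ℂ}
    {S S'' : Set ℂ × ℝ → Set ℂ} (hd : LocData θ₀ δ M r χ B c c'' g h S S'') {X : ℂ → ℝ}
    (hX : HoleCut (un c ∪ un c'')ᶜ B (ball 0 r) X) {δ₁ : ℝ} (hδ₁ : 0 ≤ δ₁)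
    (hk : ∀ z ∈ tsupport (fderiv ℝ χ), ‖h z - g z‖ ≤ δ₁) :
    ∫ z in (un c ∪ un c'')ᶜ, χ z * ‖deriv h z - deriv g z‖ ^ 2 ≤
      δ₁ * √(∫ z, ‖fderiv ℝ χ z‖ ^ 2) * (4 * M) +
      |Fl (un c ∪ un c'')ᶜ X (fun z => (g z).re) (fun z => (h z - g z).im)| := by
  have hD : IsOpen (un c ∪ un c'')ᶜ := hd.openD
  obtain ⟨hint, hsum⟩ := LocData.g2_sum hd hX
  have hB := LocData.g2_B hd hX
  have hgD : ∀ z ∈ (un c ∪ un c'')ᶜ, DifferentiableAt ℂ g z := fun z hz =>
    hd.sg.diff.differentiableAt (hd.vc.isOpen.mem_nhds fun h1 => hz (Or.inl h1))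
  have hhD : ∀ z ∈ (un c ∪ un c'')ᶜ, DifferentiableAt ℂ h z := fun z hz =>
    hd.sh.diff.differentiableAt (hd.vc''.isOpen.mem_nhds fun h1 => hz (Or.inr h1))
  have hχd : ∀ z, DifferentiableAt ℝ χ z := fun z =>
    hd.smooth.differentiable (by simp) z
  have hTr : tsupport (fderiv ℝ χ) ⊆ ball 0 r := (tsupport_fderiv_subset ℝ).trans hd.supp
  -- pointwise identity
  have hpt : ∀ z ∈ (un c ∪ un c'')ᶜ, χ z * ‖deriv h z - deriv g z‖ ^ 2 =
      J (fun z => χ z * (h z - g z).re) (fun z => (h z - g z).im) z -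
        (h z - g z).re * J χ (fun z => (h z - g z).im) z := by
    intro z hz
    have d0 : DifferentiableAt ℂ (fun z => h z - g z) z := (hhD z hz).sub (hgD z hz)
    have d1 : deriv (fun z => h z - g z) z = deriv h z - deriv g z :=
      deriv_fun_sub (hhD z hz) (hgD z hz)
    have d2 : DifferentiableAt ℝ (fun z => (h z - g z).re) z :=
      Complex.reCLM.differentiableAt.comp z (d0.restrictScalars ℝ)
    have d3 := (v7_CR (h := fun z => h z - g z) d0).1
    rw [d1] at d3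
    rw [J_mul_left (hχd z) d2, d3]
    ring
  -- the second term
  have hsub : ∀ z ∈ (un c ∪ un c'')ᶜ, ‖fderiv ℝ (fun z => (h z - g z).im) z‖ =
      ‖deriv h z - deriv g z‖ := by
    intro z hz
    have d0 : DifferentiableAt ℂ (fun z => h z - g z) z := (hhD z hz).sub (hgD z hz)
    have d1 : deriv (fun z => h z - g z) z = deriv h z - deriv g z :=
      deriv_fun_sub (hhD z hz) (hgD z hz)
    rw [(v7_CR (h := fun z => h z - g z) d0).2, d1]
  have hχc : HasCompactSupport χ := (isCompact_closedBall (0 : ℂ) r).of_isClosed_subset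
    (isClosed_tsupport χ) (hd.supp.trans ball_subset_closedBall)
  have hF : Continuous (fun z => ‖fderiv ℝ χ z‖) :=
    (hd.smooth.continuous_fderiv (by simp)).norm
  have hF2 : Integrable (fun z => ‖fderiv ℝ χ z‖ ^ 2) := by
    have hF2c : Continuous (fun z => ‖fderiv ℝ χ z‖ ^ 2) := hF.pow 2
    refine hF2c.integrable_of_hasCompactSupport ?_
    refine HasCompactSupport.intro (K := tsupport χ) hχc fun z hz => ?_
    have h0 : fderiv ℝ χ z = 0 :=
      image_eq_zero_of_notMem_tsupport fun h1 => hz (tsupport_fderiv_subset ℝ h1)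
    rw [h0, norm_zero]
    norm_num
  have hWm : MeasurableSet ((un c ∪ un c'')ᶜ ∩ ball (0 : ℂ) r) :=
    hD.measurableSet.inter measurableSet_ball
  obtain ⟨ig, bg, ih, bh⟩ := hd.energy_D
  have sg : (un c ∪ un c'')ᶜ ∩ ball (0 : ℂ) r ⊆ (un c)ᶜ ∩ ball 0 r :=
    inter_subset_inter_left _ (compl_subset_compl.2 subset_union_left)
  have sh : (un c ∪ un c'')ᶜ ∩ ball (0 : ℂ) r ⊆ (un c'')ᶜ ∩ ball 0 r :=
    inter_subset_inter_left _ (compl_subset_compl.2 subset_union_right)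
  have bg' : ∫ z in (un c ∪ un c'')ᶜ ∩ ball 0 r, ‖deriv g z‖ ^ 2 ≤ Real.pi * M ^ 2 :=
    (setIntegral_mono_set ig (Eventually.of_forall fun z => by positivity)
      sg.eventuallyLE).trans bg
  have bh' : ∫ z in (un c ∪ un c'')ᶜ ∩ ball 0 r, ‖deriv h z‖ ^ 2 ≤ Real.pi * M ^ 2 :=
    (setIntegral_mono_set ih (Eventually.of_forall fun z => by positivity)
      sh.eventuallyLE).trans bh
  have hGm : Measurable (fun z => ‖deriv h z - deriv g z‖) :=
    ((measurable_deriv h).sub (measurable_deriv g)).norm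
  have hdom : IntegrableOn (fun z => 2 * ‖deriv h z‖ ^ 2 + 2 * ‖deriv g z‖ ^ 2)
      ((un c ∪ un c'')ᶜ ∩ ball 0 r) :=
    ((ih.mono_set sh).const_mul 2).add ((ig.mono_set sg).const_mul 2)
  have hGle : ∀ z, ‖deriv h z - deriv g z‖ ^ 2 ≤ 2 * ‖deriv h z‖ ^ 2 + 2 * ‖deriv g z‖ ^ 2 := by
    intro z
    have h1 := norm_sub_le (deriv h z) (deriv g z)
    have h2 := norm_nonneg (deriv h z - deriv g z)
    nlinarith [sq_nonneg (‖deriv h z‖ - ‖deriv g z‖)]
  have hG2 : IntegrableOn (fun z => ‖deriv h z - deriv g z‖ ^ 2)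
      ((un c ∪ un c'')ᶜ ∩ ball 0 r) := by
    refine hdom.mono' (hGm.pow_const 2).aestronglyMeasurable (Eventually.of_forall fun z => ?_)
    rw [Real.norm_of_nonneg (by positivity)]
    exact hGle z
  have hGb : ∫ z in (un c ∪ un c'')ᶜ ∩ ball 0 r, ‖deriv h z - deriv g z‖ ^ 2 ≤ (4 * M) ^ 2 := by
    have h1 : ∫ z in (un c ∪ un c'')ᶜ ∩ ball 0 r, ‖deriv h z - deriv g z‖ ^ 2 ≤
        ∫ z in (un c ∪ un c'')ᶜ ∩ ball 0 r, (2 * ‖deriv h z‖ ^ 2 + 2 * ‖deriv g z‖ ^ 2) :=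
      integral_mono hG2 hdom hGle
    rw [integral_add ((ih.mono_set sh).const_mul 2) ((ig.mono_set sg).const_mul 2),
      integral_const_mul, integral_const_mul] at h1
    have h2 := Real.pi_le_four
    have h3 : Real.pi * M ^ 2 ≤ 4 * M ^ 2 := mul_le_mul_of_nonneg_right h2 (sq_nonneg M)
    nlinarith
  obtain ⟨hFG, hcs⟩ := g2_cs (μ := volume.restrict ((un c ∪ un c'')ᶜ ∩ ball 0 r))
    hF.aestronglyMeasurable hGm.aestronglyMeasurable (fun z => norm_nonneg _)
    (fun z => norm_nonneg _) hF2.integrableOn hG2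
  have hF0 : ∀ z, z ∉ ball (0 : ℂ) r → fderiv ℝ χ z = 0 := fun z hz =>
    image_eq_zero_of_notMem_tsupport fun h1 => hz (hTr h1)
  have hFGz : ∀ z ∈ (un c ∪ un c'')ᶜ \ ((un c ∪ un c'')ᶜ ∩ ball 0 r),
      ‖fderiv ℝ χ z‖ * ‖deriv h z - deriv g z‖ = 0 := by
    intro z hz
    rw [hF0 z fun h1 => hz.2 ⟨hz.1, h1⟩, norm_zero, zero_mul]
  have hFGD : IntegrableOn (fun z => ‖fderiv ℝ χ z‖ * ‖deriv h z - deriv g z‖)
      (un c ∪ un c'')ᶜ := by
    have h1 : IntegrableOn (fun z => ‖fderiv ℝ χ z‖ * ‖deriv h z - deriv g z‖)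
        ((un c ∪ un c'')ᶜ \ ((un c ∪ un c'')ᶜ ∩ ball 0 r)) := by
      have h2 : IntegrableOn (fun _ : ℂ => (0 : ℝ))
          ((un c ∪ un c'')ᶜ \ ((un c ∪ un c'')ᶜ ∩ ball 0 r)) := integrableOn_zero
      exact h2.congr_fun (fun z hz => (hFGz z hz).symm) (hD.measurableSet.diff hWm)
    have h3 := IntegrableOn.union hFG h1
    rwa [union_sdiff_cancel inter_subset_left] at h3
  have hFGe : ∫ z in (un c ∪ un c'')ᶜ, ‖fderiv ℝ χ z‖ * ‖deriv h z - deriv g z‖ =
      ∫ z in (un c ∪ un c'')ᶜ ∩ ball 0 r, ‖fderiv ℝ χ z‖ * ‖deriv h z - deriv g z‖ :=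
    setIntegral_eq_of_subset_of_forall_sdiff_eq_zero hD.measurableSet inter_subset_left hFGz
  have hbound : ∀ z ∈ (un c ∪ un c'')ᶜ,
      |(h z - g z).re * J χ (fun z => (h z - g z).im) z| ≤
        δ₁ * (‖fderiv ℝ χ z‖ * ‖deriv h z - deriv g z‖) := by
    intro z hz
    have h1 := abs_J_le χ (fun z => (h z - g z).im) z
    rw [hsub z hz] at h1
    rw [abs_mul]
    by_cases hzs : z ∈ tsupport (fderiv ℝ χ)
    · exact mul_le_mul ((abs_re_le_norm _).trans (hk z hzs)) h1 (abs_nonneg _) hδ₁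
    · have h2 : fderiv ℝ χ z = 0 := image_eq_zero_of_notMem_tsupport hzs
      rw [h2, norm_zero, zero_mul] at h1
      have h3 : |J χ (fun z => (h z - g z).im) z| = 0 := le_antisymm h1 (abs_nonneg _)
      rw [h3, h2, norm_zero, zero_mul, mul_zero, mul_zero]
  have hm : AEStronglyMeasurable (fun z => (h z - g z).re * J χ (fun z => (h z - g z).im) z)
      (volume.restrict (un c ∪ un c'')ᶜ) := by
    refine AEStronglyMeasurable.mul ?_ (J2_measurable_J _ _).aestronglyMeasurable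
    have hc1 : ContinuousOn (fun z => (h z - g z).re) (un c ∪ un c'')ᶜ := fun z hz =>
      (Complex.continuous_re.continuousAt.comp
        ((hhD z hz).continuousAt.sub (hgD z hz).continuousAt)).continuousWithinAt
    exact hc1.aestronglyMeasurable hD.measurableSet
  have hI : IntegrableOn (fun z => (h z - g z).re * J χ (fun z => (h z - g z).im) z)
      (un c ∪ un c'')ᶜ := by
    refine (hFGD.const_mul δ₁).mono' hm ?_
    rw [ae_restrict_iff' hD.measurableSet]
    exact Eventually.of_forall fun z hz => hbound z hz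
  have hsecond : |∫ z in (un c ∪ un c'')ᶜ, (h z - g z).re * J χ (fun z => (h z - g z).im) z| ≤
      δ₁ * √(∫ z, ‖fderiv ℝ χ z‖ ^ 2) * (4 * M) := by
    refine (abs_integral_le_integral_abs).trans ?_
    have h1 : ∫ z in (un c ∪ un c'')ᶜ, |(h z - g z).re * J χ (fun z => (h z - g z).im) z| ≤
        ∫ z in (un c ∪ un c'')ᶜ, δ₁ * (‖fderiv ℝ χ z‖ * ‖deriv h z - deriv g z‖) := by
      refine integral_mono_ae hI.abs (hFGD.const_mul δ₁) ?_
      rw [EventuallyLE, ae_restrict_iff' hD.measurableSet]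
      exact Eventually.of_forall fun z hz => hbound z hz
    refine h1.trans ?_
    rw [integral_const_mul, hFGe, mul_assoc]
    refine mul_le_mul_of_nonneg_left (hcs.trans ?_) hδ₁
    refine mul_le_mul ?_ ?_ (Real.sqrt_nonneg _) (Real.sqrt_nonneg _)
    · exact Real.sqrt_le_sqrt (setIntegral_le_integral hF2
        (Eventually.of_forall fun z => by positivity))
    · rw [Real.sqrt_le_left (by have := hd.hM; positivity)]
      exact hGb
  rw [setIntegral_congr_fun hD.measurableSet hpt, integral_sub hint hI, hsum]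
  have h9 := (abs_le.1 hsecond).1
  linarith

end RSM2
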