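import Pool.Agent.RSM2.Basic
import Pool.Agent.Lib.Hurwitz

/-!
# RSM2 module V5: images of open sets with the holes filled by their slits

For an open set `W` whose frontier does not meet the holes let
`fillImg c G S W = G '' (W \ un c) ∪ ⋃ (h ∈ c, h.1 ⊆ W), S h`.

PROOFS.  `un c` is compact (`Valid`), the sets `S h` are compact (segments), finite in number,
pairwise disjoint and disjoint from `G '' (un c)ᶜ` (`image`).
Note: `W \ un c` is open, and its image is open
(`Pool.Agent.Lib.Hurwitz.isOpen_image_of_injOn`).  A hole `h.1` which meets `closure W` is contained in `W`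
(connectedness: `h.1 ∩ frontier W = ∅`).
KEY FACT (`lift`): if `z n ∉ un c`, `G (z n) → w`, then `z n` is bounded (`tend`), and for every
limit point `z` of `z n`: either `z ∉ un c` and `w = G z`, or `z ∈ h.1` for some `h ∈ c` and
`w ∈ S h` (`toS`: `G (z n)` tends to `𝓝ˢ (S h)` along a subsequence, `S h` is closed).
`isOpen_fillImg`: let `w ∈ S h`, `h.1 ⊆ W`, and suppose that there are `w n → w` with
`w n ∉ fillImg`.  For large `n` `w n` is in no `S h'`, `h' ≠ h` (these are closed and do not contain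
`w`), and not in `S h`; so `w n = G (z n)` with `z n ∉ un c`, `z n ∉ W`.  By the key fact a
subsequence of `z n` converges to `z`; `z ∉ un c` is impossible (`w = G z` is not in `S h`),
so `z ∈ h'.1` and `w ∈ S h'`, so `h' = h` and `z ∈ h.1 ⊆ W`, `W` open: `z n ∈ W` for large `n`.
(Or directly from `ofS` with `U = W`.)
`closure_fillImg`: let `w n ∈ fillImg`, `w n → w`.  If `w n ∈ S h` for infinitely many `n` and one `h`,
then `w ∈ S h`.  Otherwise `w n = G (z n)`, `z n ∈ W \ un c`, and a subsequence of `z n` converges to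
`z ∈ closure W`; if `z ∈ h.1`, `h ∈ c`, then `h.1 ⊆ W` and `w ∈ S h`.  If `z ∉ un c`, then `w = G z`
and `z ∈ W` or `z ∈ frontier W`.
`isPreconnected_fillImg` (connectedness, for `W \ un c` preconnected): `G '' (W \ un c)` is
preconnected, and every point of `S h` (`h.1 ⊆ W`) is in its closure: `w ∈ S h` is a limit of
points `w n` of `(⋃ S h')ᶜ = G '' (un c)ᶜ` (a segment has empty interior, and the other segments are
closed), `w n = G (z n)`, and `z n ∈ W` for large `n` by `ofS` with `U = W`.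
`IsPreconnected.subset_closure`.
-/

open Complex Set Metric Filter Topology MeasureTheory

namespace RSM2

/-- The image of `W` under the slit map `G`, the holes contained in `W` being replaced by their
slits. -/
def fillImg (c : Cfg) (G : ℂ → ℂ) (S : Set ℂ × ℝ → Set ℂ) (W : Set ℂ) : Set ℂ :=
  G '' (W \ un c) ∪ ⋃ h ∈ {h : Set ℂ × ℝ | h ∈ c ∧ h.1 ⊆ W}, S h

variable {θ₀ : ℝ} {c : Cfg} {G : ℂ → ℂ} {S : Set ℂ × ℝ → Set ℂ} {W : Set ℂ}

theorem SMap.compactS (hG : SMap θ₀ c G S) {h : Set ℂ × ℝ} (hh : h ∈ c) : IsCompact (S h) := by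
  obtain ⟨p, ℓ, _, hS⟩ := hG.isSeg h hh
  rw [hS]
  refine isCompact_Icc.image ?_
  fun_prop

theorem SMap.v5_isClosed_biUnion (hG : SMap θ₀ c G S) : IsClosed (⋃ h ∈ c, S h) :=
  (c.isCompact_biUnion fun _ hh => hG.compactS hh).isClosed

theorem v5_mem_of_tendsto_nhdsSet {T : Set ℂ} (hT : IsClosed T) {f : ℕ → ℂ} {w : ℂ}
    (h₁ : Tendsto f atTop (𝓝ˢ T)) (h₂ : Tendsto f atTop (𝓝 w)) : w ∈ T := by
  by_contra hw
  exact absurd (RegularSpace.regular hT hw)
    (fun hd => (NeBot.ne (f := map f atTop) inferInstance)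
      (le_bot_iff.1 ((le_inf h₁ h₂).trans hd.le_bot)))

theorem lift (hc : Valid c) (hG : SMap θ₀ c G S) {z : ℕ → ℂ} {w : ℂ} (hz : ∀ n, z n ∉ un c)
    (hw : Tendsto (fun n => G (z n)) atTop (𝓝 w)) :
    ∃ (φ : ℕ → ℕ) (z₀ : ℂ), StrictMono φ ∧ Tendsto (fun n => z (φ n)) atTop (𝓝 z₀) ∧
      ((z₀ ∉ un c ∧ w = G z₀) ∨ ∃ h ∈ c, z₀ ∈ h.1 ∧ w ∈ S h) := by
  have hK : (closedBall w 1)ᶜ ∈ cocompact ℂ :=
    (isCompact_closedBall w 1).compl_mem_cocompact
  obtain ⟨K, hKc, hKs⟩ := mem_cocompact.1 (hG.tend hK)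
  have hev : ∀ᶠ n in atTop, z n ∈ K := by
    filter_upwards [hw (closedBall_mem_nhds w one_pos)] with n hn
    by_contra hcon
    exact hKs hcon hn
  obtain ⟨z₀, -, φ, hφ, hlim⟩ := hKc.tendsto_subseq' hev.frequently
  refine ⟨φ, z₀, hφ, hlim, ?_⟩
  have hw' : Tendsto (fun n => G (z (φ n))) atTop (𝓝 w) := hw.comp hφ.tendsto_atTop
  by_cases hz₀ : z₀ ∈ un c
  · right
    obtain ⟨h, hh, hzh⟩ := mem_un.1 hz₀
    refine ⟨h, hh, hzh, ?_⟩
    refine v5_mem_of_tendsto_nhdsSet (hG.compactS hh).isClosed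
      ((hG.toS h hh).comp (tendsto_inf.2 ⟨?_, ?_⟩)) hw'
    · exact hlim.mono_right (nhds_le_nhdsSet hzh)
    · exact tendsto_principal.2 (Eventually.of_forall fun n => hz (φ n))
  · left
    refine ⟨hz₀, ?_⟩
    have hcont : ContinuousAt G z₀ :=
      (hG.diff.differentiableAt (hc.isOpen.mem_nhds hz₀)).continuousAt
    exact tendsto_nhds_unique hw' (hcont.tendsto.comp hlim)

/-- Near a point of `S h` (`h.1 ⊆ W`) the values of `G` are values at points of `W`. -/
theorem v5_eventually_image (hc : Valid c) (hG : SMap θ₀ c G S) (hW : IsOpen W)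
    {h : Set ℂ × ℝ} (hh : h ∈ c) (hhW : h.1 ⊆ W) {w : ℂ} (hw : w ∈ S h) :
    ∀ᶠ w' in 𝓝 w, w' ∉ (⋃ k ∈ c, S k) → w' ∈ G '' (W \ un c) := by
  have h1 : ∀ᶠ w' in 𝓝 w, ∀ z ∈ (un c)ᶜ, G z = w' → z ∈ W :=
    (nhds_le_nhdsSet hw) (hG.ofS h hh W (hW.mem_nhdsSet.2 hhW))
  filter_upwards [h1] with w' hw' hnot
  have : w' ∈ G '' (un c)ᶜ := by
    rw [hG.image]
    exact hnot
  obtain ⟨z, hz, rfl⟩ := this
  exact ⟨z, ⟨hw' z hz rfl, hz⟩, rfl⟩

theorem v5_isOpen_image_diff (hc : Valid c) (hG : SMap θ₀ c G S) (hW : IsOpen W) :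
    IsOpen (G '' (W \ un c)) :=
  Pool.Agent.Lib.Hurwitz.isOpen_image_of_injOn (hW.inter hc.isOpen)
    (hG.diff.mono inter_subset_right) (hG.inj.mono inter_subset_right)

theorem isOpen_fillImg (hc : Valid c) (hG : SMap θ₀ c G S) (hW : IsOpen W)
    (hfr : Disjoint (frontier W) (un c)) : IsOpen (fillImg c G S W) := by
  rw [isOpen_iff_mem_nhds]
  rintro w (hw | hw)
  · exact mem_of_superset ((v5_isOpen_image_diff hc hG hW).mem_nhds hw) subset_union_left
  · obtain ⟨h, ⟨hh, hhW⟩, hwS⟩ := mem_iUnion₂.1 hw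
    have h2 : ∀ᶠ w' in 𝓝 w, ∀ k ∈ c, k ≠ h → w' ∉ S k := by
      rw [Finset.eventually_all]
      intro k hk
      by_cases hkh : k = h
      · exact Eventually.of_forall fun _ hne => absurd hkh hne
      · have : w ∉ S k := fun hwk => (disjoint_left.1 (hG.disj k hk h hh hkh)) hwk hwS
        filter_upwards [(hG.compactS hk).isClosed.isOpen_compl.mem_nhds this] with w' hw' _
        exact hw'
    filter_upwards [v5_eventually_image hc hG hW hh hhW hwS, h2] with w' h3 h4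
    by_cases hw' : w' ∈ S h
    · exact Or.inr (mem_iUnion₂.2 ⟨h, ⟨hh, hhW⟩, hw'⟩)
    · refine Or.inl (h3 ?_)
      intro hcon
      obtain ⟨k, hk, hwk⟩ := mem_iUnion₂.1 hcon
      by_cases hkh : k = h
      · subst hkh
        exact hw' hwk
      · exact h4 k hk hkh hwk

theorem closure_fillImg (hc : Valid c) (hG : SMap θ₀ c G S) (hW : IsOpen W)
    (hfr : Disjoint (frontier W) (un c)) :
    closure (fillImg c G S W) ⊆ fillImg c G S W ∪ G '' frontier W := by
  have hfin : {h : Set ℂ × ℝ | h ∈ c ∧ h.1 ⊆ W}.Finite :=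
    c.finite_toSet.subset fun h hh => hh.1
  have hcl : IsClosed (⋃ h ∈ {h : Set ℂ × ℝ | h ∈ c ∧ h.1 ⊆ W}, S h) :=
    hfin.isClosed_biUnion fun h hh => (hG.compactS hh.1).isClosed
  unfold fillImg
  rw [closure_union, hcl.closure_eq]
  rintro w (hw | hw)
  · obtain ⟨x, hx, hlim⟩ := mem_closure_iff_seq_limit.1 hw
    choose z hzW hzx using hx
    have hlim' : Tendsto (fun n => G (z n)) atTop (𝓝 w) := by
      simpa only [hzx] using hlim
    obtain ⟨φ, z₀, -, hz₀, hcase⟩ := lift hc hG (fun n => (hzW n).2) hlim'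
    have hcW : z₀ ∈ closure W :=
      mem_closure_of_tendsto hz₀ (Eventually.of_forall fun n => (hzW (φ n)).1)
    rw [closure_eq_self_union_frontier] at hcW
    rcases hcase with ⟨hz₀c, rfl⟩ | ⟨h, hh, hzh, hwS⟩
    · rcases hcW with hcW | hcW
      · exact Or.inl (Or.inl ⟨z₀, ⟨hcW, hz₀c⟩, rfl⟩)
      · exact Or.inr ⟨z₀, hcW, rfl⟩
    · have hz₀W : z₀ ∈ W := by
        rcases hcW with hcW | hcW
        · exact hcW
        · exact absurd (subset_un hh hzh) (disjoint_left.1 hfr hcW)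
      have hsub : h.1 ⊆ W := by
        refine (hc.conn h hh).isPreconnected.subset_of_closure_inter_subset hW ⟨z₀, hzh, hz₀W⟩ ?_
        rintro y ⟨hyW, hyh⟩
        rw [closure_eq_self_union_frontier] at hyW
        rcases hyW with hyW | hyW
        · exact hyW
        · exact absurd (subset_un hh hyh) (disjoint_left.1 hfr hyW)
      exact Or.inl (Or.inr (mem_iUnion₂.2 ⟨h, ⟨hh, hsub⟩, hwS⟩))
  · exact Or.inl (Or.inr hw)

theorem v5_nrm_exp (φ t : ℝ) : nrm φ ((t : ℂ) * exp (φ * I)) = 0 := by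
  unfold nrm
  rw [mul_left_comm, ← exp_add]
  simp

theorem v5_nrm_exp_I (φ t : ℝ) : nrm φ ((t : ℂ) * (I * exp (φ * I))) = t := by
  unfold nrm
  rw [mul_left_comm, mul_left_comm _ I, ← exp_add]
  simp

theorem v5_dense_compl_seg (p : ℂ) (φ ℓ : ℝ) : Dense (seg p φ ℓ)ᶜ := by
  have key : ∀ w ∈ seg p φ ℓ, nrm φ w = nrm φ p := by
    rintro _ ⟨t, -, rfl⟩
    simp only
    rw [nrm_add, v5_nrm_exp, add_zero]
  intro w
  by_cases hw : w ∈ seg p φ ℓ
  · have hlim : Tendsto (fun n : ℕ => w + (((1 / ((n : ℝ) + 1) : ℝ)) : ℂ) * (I * exp (φ * I)))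
        atTop (𝓝 w) := by
      have h0 : Tendsto (fun n : ℕ => (((1 / ((n : ℝ) + 1) : ℝ)) : ℂ)) atTop (𝓝 ((0 : ℝ) : ℂ)) :=
        (continuous_ofReal.tendsto 0).comp tendsto_one_div_add_atTop_nhds_zero_nat
      have := (tendsto_const_nhds (x := w)).add (h0.mul_const (I * exp (φ * I)))
      simpa using this
    refine mem_closure_of_tendsto hlim (Eventually.of_forall fun n => ?_)
    intro hcon
    have h1 := key _ hcon
    have h2 := key _ hw
    rw [nrm_add, v5_nrm_exp_I, h2] at h1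
    have h3 : (0 : ℝ) < 1 / ((n : ℝ) + 1) := by positivity
    linarith
  · exact subset_closure hw

theorem SMap.v5_dense_compl (hG : SMap θ₀ c G S) : Dense (⋃ h ∈ c, S h)ᶜ := by
  rw [compl_iUnion₂]
  have : (⋂ h ∈ c, (S h)ᶜ) = ⋂ h ∈ (c : Set (Set ℂ × ℝ)), (S h)ᶜ := rfl
  rw [this]
  refine dense_biInter_of_isOpen (fun h hh => (hG.compactS hh).isClosed.isOpen_compl)
    c.countable_toSet fun h hh => ?_
  obtain ⟨p, ℓ, _, hS⟩ := hG.isSeg h hh
  rw [hS]
  exact v5_dense_compl_seg _ _ _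

theorem isPreconnected_fillImg (hc : Valid c) (hG : SMap θ₀ c G S) (hW : IsOpen W)
    (hfr : Disjoint (frontier W) (un c)) (hconn : IsPreconnected (W \ un c)) :
    IsPreconnected (fillImg c G S W) := by
  have h1 : IsPreconnected (G '' (W \ un c)) :=
    hconn.image G (hG.diff.continuousOn.mono fun z hz => hz.2)
  refine h1.subset_closure subset_union_left ?_
  rintro w (hw | hw)
  · exact subset_closure hw
  · obtain ⟨h, ⟨hh, hhW⟩, hwS⟩ := mem_iUnion₂.1 hw
    rw [mem_closure_iff_frequently]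
    have hd : ∃ᶠ w' in 𝓝 w, w' ∈ (⋃ k ∈ c, S k)ᶜ :=
      mem_closure_iff_frequently.1 (hG.v5_dense_compl w)
    exact hd.mp ((v5_eventually_image hc hG hW hh hhW hwS).mono fun w' h3 h4 => h3 h4)

end RSM2
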