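import Pool.Agent.RSM2.G1
import Pool.Agent.RSM2.A2
import Pool.Agent.RSM2.V5

/-!
# RSM2 module G3: the data of step (a)

`D = (un c ∪ un c'')ᶜ`, `k = h - g`; `u = push D g (χ k₁)`, `v = push D g (χ k₂)`: the functions
`χ (h - g)` transplanted to the `g`-plane.  `D_w = (S₀ ∪ ⋃ S k)ᶜ`, `S₀ = S (B, θ₀)`, `k` near.

PROOF.  Let `p₀, ℓ₀, τ, p, ℓ` be from `LocData.param`; `SlitFam p τ ℓ (2δ) M M` (boxes: `slit_ball`).
(1) REGULARITY: `contDiffOn_push` with `U = D`, `S = tsupport χ`: let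
`w ∈ closure (g '' (D ∩ tsupport χ)) ∩ D_w`, `w = lim g (z n)`, `z n ∈ D ∩ tsupport χ`.  By `lift`, along a
subsequence `z n → z₀ ∈ tsupport χ` and either `z₀ ∉ un c`, `w = g z₀`; then `z₀ ∈ D` by `cover`
(`z₀ ∉ B`, `z₀` in no near hole), so `w ∈ g '' D`; or `z₀ ∈ k.1`, `w ∈ S k`, `k ∈ c`: `k` meets
`tsupport χ`, so `k = (B, θ₀)` or `k` is near, and `w ∉ D_w`, a contradiction.
(2) Outside of `g '' (D ∩ tsupport χ)` the functions vanish; `‖g z‖ ≤ M` on `D ∩ ball 0 r`, so they vanish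
for `‖w‖ > M`; `|u|, |v| ≤ 2M`.
(3) ENERGIES (`integral_sq_fderiv_image` for `U = D`; `g '' D` is open, and `u, v` vanish near the points of `D_w`
which are not in `g '' D`... the set `D_w \ g '' D` is contained in `D_w \ g''(D ∩ tsupport χ)`, so
`u = v = 0` near its points and the gradients vanish there):
`∫_{D_w} ‖∇u‖² = ∫_D ‖∇(χ k₁)‖² ≤ 2 ∫_D χ² ‖k'‖² + 2 ∫_D ‖∇χ‖² |k|² ≤ 2 · 4π M² + 2 δ₁² ∫ ‖∇χ‖² ≤
26 M² + 2 ≤ (10 (M+1))²`, using `hsmall`.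
(4) SMALL DERIVATIVES: on `g '' D` the function `k₁ ∘ g⁻¹` is `Re (h ∘ g⁻¹) - re w`, so its `y`-derivative is
that of `Re (h ∘ g⁻¹)`, and `(∂_y u)² ≤ 2 χ² ‖∇(h₁ ∘ g⁻¹)‖² + 2 |k₁|² ‖∇(χ ∘ g⁻¹)‖²`; integrate and transform
back: `∫_{D_w} (∂_y u)² ≤ 2 ∫_D χ² ‖h'‖² + 2 δ₁² ∫ ‖∇χ‖² ≤ 2 ε₁ + 2 δ₁² ∫ ‖∇χ‖² ≤ δA²`.
The same for `∂_x v`: `k₂ ∘ g⁻¹ = Im (h ∘ g⁻¹) - im w`.
(5) COMPATIBILITY at the near slit `k`: `nrm φ (h - g)` has a limit at the hole `k.1`, `φ = k.2 - θ₀`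
(`SMap.line` for `g` and `h`), `nrm φ w = cos φ (im w - tan φ re w)`, and `χ` is constant near `k.1`
(`const_near`).  As `w → S k` in `D_w`, either `w ∈ g '' D`, `w = g z`, `z → k.1` by `ofS` and
`v w - τ_k u w = χ z (k₂ z - τ_k k₁ z)`; or `w ∉ g '' D`; but near `S k` all points of `D_w` are in
`g '' D`: `w` is in no `S k'` (the other slits are closed and disjoint from `S k`), so `w = g z` with
`z ∉ un c`, `z` close to `k.1`, where `χ ≠ 0`, so `z ∈ tsupport χ`, `z ∉ un c` gives `z ∈ D`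
(`cover`).
-/

open Complex Set Metric Filter Topology MeasureTheory

namespace RSM2

private theorem g3_re {H : ℂ → ℂ} {z : ℂ} (hH : DifferentiableAt ℂ H z) :
    DifferentiableAt ℝ (fun w => (H w).re) z ∧ dX (fun w => (H w).re) z = (deriv H z).re ∧
      dY (fun w => (H w).re) z = -(deriv H z).im := by
  have h1 : DifferentiableAt ℝ (fun w : ℂ => w.re) (H z) := Complex.reCLM.differentiableAt
  refine ⟨?_, ?_, ?_⟩
  · exact h1.comp z (hH.restrictScalars ℝ)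
  · rw [j6_dX hH h1, dX_re, dY_re]; ring
  · rw [j6_dY hH h1, dX_re, dY_re]; ring

private theorem g3_im {H : ℂ → ℂ} {z : ℂ} (hH : DifferentiableAt ℂ H z) :
    DifferentiableAt ℝ (fun w => (H w).im) z ∧ dX (fun w => (H w).im) z = (deriv H z).im ∧
      dY (fun w => (H w).im) z = (deriv H z).re := by
  have h1 : DifferentiableAt ℝ (fun w : ℂ => w.im) (H z) := Complex.imCLM.differentiableAt
  refine ⟨?_, ?_, ?_⟩
  · exact h1.comp z (hH.restrictScalars ℝ)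
  · rw [j6_dX hH h1, dX_im, dY_im]; ring
  · rw [j6_dY hH h1, dX_im, dY_im]; ring

private theorem g3_grad {χ k : ℂ → ℝ} {z : ℂ} (hχ : DifferentiableAt ℝ χ z)
    (hk : DifferentiableAt ℝ k z) :
    ‖fderiv ℝ (fun w => χ w * k w) z‖ ^ 2 ≤
      2 * (χ z ^ 2 * ‖fderiv ℝ k z‖ ^ 2) + 2 * (k z ^ 2 * ‖fderiv ℝ χ z‖ ^ 2) := by
  rw [sq_norm_fderiv, sq_norm_fderiv, sq_norm_fderiv, dX_mul hχ hk, dY_mul hχ hk]
  nlinarith [sq_nonneg (χ z * dX k z - k z * dX χ z), sq_nonneg (χ z * dY k z - k z * dY χ z)]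

private theorem g3_alg {n y a b s t p q X κ : ℝ} (hn : n = p ^ 2 + q ^ 2)
    (h : n * y = X * (q * s - p * t) + κ * (q * a + p * b)) :
    n * y ^ 2 ≤ 2 * (X ^ 2 * (s ^ 2 + t ^ 2)) + 2 * (κ ^ 2 * (a ^ 2 + b ^ 2)) := by
  have hn0 : 0 ≤ n := by rw [hn]; positivity
  have h1 : n * (n * y ^ 2) ≤
      n * (2 * (X ^ 2 * (s ^ 2 + t ^ 2)) + 2 * (κ ^ 2 * (a ^ 2 + b ^ 2))) := by
    have h2 : n * (n * y ^ 2) = (X * (q * s - p * t) + κ * (q * a + p * b)) ^ 2 := by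
      rw [← h]; ring
    rw [h2, hn]
    nlinarith [sq_nonneg (X * (q * s - p * t) - κ * (q * a + p * b)),
      sq_nonneg (X * (p * s + q * t)), sq_nonneg (κ * (p * a - q * b))]
  rcases hn0.eq_or_lt with h3 | h3
  · rw [← h3, zero_mul]
    positivity
  · exact le_of_mul_le_mul_left h1 h3

private theorem g3_dY {G H : ℂ → ℂ} {χ u : ℂ → ℝ} {z : ℂ} (hG : DifferentiableAt ℂ G z)
    (hH : DifferentiableAt ℂ H z) (hχ : DifferentiableAt ℝ χ z)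
    (hu : DifferentiableAt ℝ u (G z))
    (he : (fun w => u (G w)) =ᶠ[𝓝 z] fun w => χ w * (H w - G w).re) :
    ‖deriv G z‖ ^ 2 * dY u (G z) ^ 2 ≤
      2 * (χ z ^ 2 * ‖deriv H z‖ ^ 2) + 2 * ((H z - G z).re ^ 2 * ‖fderiv ℝ χ z‖ ^ 2) := by
  obtain ⟨a1, a2, a3⟩ := g3_re hG
  obtain ⟨b1, b2, b3⟩ := g3_re hH
  have e1 := dX_congr he
  have e2 := dY_congr he
  rw [j6_dX hG hu] at e1
  rw [j6_dY hG hu] at e2
  have hs : (fun w => χ w * (H w - G w).re) = fun w => χ w * ((H w).re - (G w).re) := by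
    funext w
    rw [sub_re]
  have hba : DifferentiableAt ℝ (fun w => (H w).re - (G w).re) z := b1.sub a1
  rw [hs, dX_mul hχ hba, dX_sub b1 a1, b2, a2] at e1
  rw [hs, dY_mul hχ hba, dY_sub b1 a1, b3, a3] at e2
  rw [sq_norm_fderiv, j6_norm (deriv H z), sub_re]
  refine g3_alg (p := (deriv G z).re) (q := (deriv G z).im) (j6_norm _) ?_
  rw [j6_norm]
  linear_combination (deriv G z).im * e1 + (deriv G z).re * e2

private theorem g3_dX {G H : ℂ → ℂ} {χ u : ℂ → ℝ} {z : ℂ} (hG : DifferentiableAt ℂ G z)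
    (hH : DifferentiableAt ℂ H z) (hχ : DifferentiableAt ℝ χ z)
    (hu : DifferentiableAt ℝ u (G z))
    (he : (fun w => u (G w)) =ᶠ[𝓝 z] fun w => χ w * (H w - G w).im) :
    ‖deriv G z‖ ^ 2 * dX u (G z) ^ 2 ≤
      2 * (χ z ^ 2 * ‖deriv H z‖ ^ 2) + 2 * ((H z - G z).im ^ 2 * ‖fderiv ℝ χ z‖ ^ 2) := by
  obtain ⟨a1, a2, a3⟩ := g3_im hG
  obtain ⟨b1, b2, b3⟩ := g3_im hH
  have e1 := dX_congr he
  have e2 := dY_congr he
  rw [j6_dX hG hu] at e1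
  rw [j6_dY hG hu] at e2
  have hs : (fun w => χ w * (H w - G w).im) = fun w => χ w * ((H w).im - (G w).im) := by
    funext w
    rw [sub_im]
  have hba : DifferentiableAt ℝ (fun w => (H w).im - (G w).im) z := b1.sub a1
  rw [hs, dX_mul hχ hba, dX_sub b1 a1, b2, a2] at e1
  rw [hs, dY_mul hχ hba, dY_sub b1 a1, b3, a3] at e2
  rw [sq_norm_fderiv, j6_norm (deriv H z), sub_im]
  have h5 : dX χ z ^ 2 + dY χ z ^ 2 = dY χ z ^ 2 + (-dX χ z) ^ 2 := by ring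
  rw [h5]
  refine g3_alg (p := -(deriv G z).re) (q := -(deriv G z).im) ?_ ?_
  · rw [j6_norm]; ring
  rw [j6_norm]
  linear_combination (deriv G z).re * e1 - (deriv G z).im * e2

private theorem g3_push {D Dw : Set ℂ} {g : ℂ → ℂ} {f χ : ℂ → ℝ} {r : ℝ} (hD : IsOpen D)
    (hDw : IsOpen Dw) (hg : DifferentiableOn ℂ g D) (hinj : InjOn g D) (hsub : g '' D ⊆ Dw)
    (hcl : closure (g '' (D ∩ tsupport χ)) ∩ Dw ⊆ g '' D) (hχr : tsupport χ ⊆ ball 0 r)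
    (hf : Nice D (ball 0 r) (fun z => χ z * f z)) :
    ContDiffOn ℝ 2 (push D g (fun z => χ z * f z)) Dw ∧
    (∀ w ∈ Dw, w ∉ g '' D → fderiv ℝ (push D g (fun z => χ z * f z)) w = 0) ∧
    (∀ z ∈ D, (fun x => push D g (fun z => χ z * f z) (g x)) =ᶠ[𝓝 z] fun x => χ x * f x) ∧
    IntegrableOn (fun w => ‖fderiv ℝ (push D g (fun z => χ z * f z)) w‖ ^ 2) Dw ∧
    ∫ w in Dw, ‖fderiv ℝ (push D g (fun z => χ z * f z)) w‖ ^ 2 =
      ∫ z in D ∩ ball 0 r, ‖fderiv ℝ (fun z => χ z * f z) z‖ ^ 2 := by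
  have hsm : ContDiffOn ℝ 2 (push D g (fun z => χ z * f z)) Dw :=
    contDiffOn_push hD hg hinj hf.smooth (S := tsupport χ)
      (fun z _ hz => by rw [image_eq_zero_of_notMem_tsupport hz, zero_mul]) hcl hDw
  have hzero : ∀ w ∈ Dw, w ∉ g '' D → fderiv ℝ (push D g (fun z => χ z * f z)) w = 0 := by
    intro w hw hwU
    have hcw : w ∉ closure (g '' (D ∩ tsupport χ)) := fun h => hwU (hcl ⟨h, hw⟩)
    have h1 : push D g (fun z => χ z * f z) =ᶠ[𝓝 w] fun _ => (0 : ℝ) := by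
      filter_upwards [isClosed_closure.isOpen_compl.mem_nhds hcw] with v hv
      by_cases hvU : v ∈ g '' D
      · obtain ⟨z, hz, rfl⟩ := hvU
        rw [push_apply hinj _ hz]
        have h2 : z ∉ tsupport χ := fun hzS => hv (subset_closure ⟨z, ⟨hz, hzS⟩, rfl⟩)
        rw [image_eq_zero_of_notMem_tsupport h2, zero_mul]
      · exact push_of_notMem _ hvU
    rw [h1.fderiv_eq]
    simp
  have hev : ∀ z ∈ D, (fun x => push D g (fun z => χ z * f z) (g x)) =ᶠ[𝓝 z]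
      fun x => χ x * f x := by
    intro z hz
    filter_upwards [hD.mem_nhds hz] with x hx
    exact push_apply hinj _ hx
  have hout : ∀ z ∈ D \ (D ∩ ball 0 r), ‖fderiv ℝ (fun z => χ z * f z) z‖ ^ 2 = 0 := by
    intro z hz
    have h2 : z ∉ tsupport χ := fun h => hz.2 ⟨hz.1, hχr h⟩
    have h1 : (fun z => χ z * f z) =ᶠ[𝓝 z] fun _ => (0 : ℝ) := by
      filter_upwards [(isClosed_tsupport χ).isOpen_compl.mem_nhds h2] with v hv
      rw [image_eq_zero_of_notMem_tsupport hv, zero_mul]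
    rw [h1.fderiv_eq]
    simp
  have hI1 : IntegrableOn (fun z => ‖fderiv ℝ (fun z => χ z * f z) z‖ ^ 2) D :=
    hf.l2.of_forall_sdiff_eq_zero hD.measurableSet hout
  have hdo : DifferentiableOn ℝ (push D g (fun z => χ z * f z)) (g '' D) :=
    (hsm.differentiableOn two_ne_zero).mono hsub
  have hcongr : ∀ z ∈ D, ‖fderiv ℝ (fun x => push D g (fun z => χ z * f z) (g x)) z‖ ^ 2 =
      ‖fderiv ℝ (fun z => χ z * f z) z‖ ^ 2 := by
    intro z hz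
    rw [(hev z hz).fderiv_eq]
  obtain ⟨hA, hB⟩ := integral_sq_fderiv_image hD hg hinj hdo
  have hz' : ∀ w ∈ Dw \ g '' D, ‖fderiv ℝ (push D g (fun z => χ z * f z)) w‖ ^ 2 = 0 := by
    intro w hw
    rw [hzero w hw.1 hw.2]
    simp
  refine ⟨hsm, hzero, hev, ?_, ?_⟩
  · refine IntegrableOn.of_forall_sdiff_eq_zero (hA.2 ?_) hDw.measurableSet hz'
    exact (integrableOn_congr_fun hcongr hD.measurableSet).2 hI1
  · rw [setIntegral_eq_of_subset_of_forall_sdiff_eq_zero hDw.measurableSet hsub hz', hB,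
      setIntegral_congr_fun hD.measurableSet hcongr,
      setIntegral_eq_of_subset_of_forall_sdiff_eq_zero hD.measurableSet inter_subset_left hout]

section aux

variable {θ₀ δ M r : ℝ} {χ : ℂ → ℝ} {B : Set ℂ} {c c'' : Cfg} {g h : ℂ → ℂ}
  {S S'' : Set ℂ × ℝ → Set ℂ}

private theorem g3_subset (c c'' : Cfg) :
    (un c ∪ un c'')ᶜ ⊆ (un c)ᶜ ∧ (un c ∪ un c'')ᶜ ⊆ (un c'')ᶜ :=
  ⟨compl_subset_compl.2 subset_union_left, compl_subset_compl.2 subset_union_right⟩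

private theorem g3_bmeet (hd : LocData θ₀ δ M r χ B c c'' g h S S'') :
    (B ∩ tsupport χ).Nonempty := by
  obtain ⟨z, hz⟩ := (hd.vc.conn _ hd.hB).nonempty
  refine ⟨z, hz, ?_⟩
  have h1 : χ z = 1 := hd.one.self_of_nhdsSet z hz
  refine subset_tsupport _ ?_
  rw [Function.mem_support, h1]
  exact one_ne_zero

private theorem g3_image (hd : LocData θ₀ δ M r χ B c c'' g h S S'') {p₀ : ℂ} {ℓ₀ : ℝ}
    (hS₀ : S (B, θ₀) = slit p₀ 0 ℓ₀) {τ ℓ : NearI c χ (B, θ₀) → ℝ}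
    {p : NearI c χ (B, θ₀) → ℂ} (hp : ∀ k, S k.1 = slit (p k) (τ k) (ℓ k)) :
    g '' (un c ∪ un c'')ᶜ ⊆ (slit p₀ 0 ℓ₀ ∪ SF p τ ℓ)ᶜ := by
  rintro _ ⟨z, hz, rfl⟩ hw
  have h1 : g z ∈ (⋃ h ∈ c, S h)ᶜ := by
    rw [← hd.sg.image]
    exact ⟨z, (g3_subset c c'').1 hz, rfl⟩
  apply h1
  rcases hw with hw | hw
  · rw [← hS₀] at hw
    exact mem_biUnion (show (B, θ₀) ∈ (c : Set (Set ℂ × ℝ)) from hd.hB) hw
  · obtain ⟨k, hk⟩ := mem_iUnion.1 hw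
    rw [← hp k] at hk
    exact mem_biUnion (show k.1 ∈ (c : Set (Set ℂ × ℝ)) from k.2.1) hk

private theorem g3_mem (hd : LocData θ₀ δ M r χ B c c'' g h S S'') {z : ℂ}
    (hz : z ∈ tsupport χ) (hzc : z ∉ un c) : z ∈ (un c ∪ un c'')ᶜ := by
  rcases hd.cover hz with (h1 | h1) | h1
  · exact h1
  · exact absurd (subset_un hd.hB h1) hzc
  · obtain ⟨k, hk⟩ := mem_iUnion.1 h1
    exact absurd (subset_un k.2.1 hk) hzc

private theorem g3_closure (hd : LocData θ₀ δ M r χ B c c'' g h S S'') {p₀ : ℂ} {ℓ₀ : ℝ}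
    (hS₀ : S (B, θ₀) = slit p₀ 0 ℓ₀) {τ ℓ : NearI c χ (B, θ₀) → ℝ}
    {p : NearI c χ (B, θ₀) → ℂ} (hp : ∀ k, S k.1 = slit (p k) (τ k) (ℓ k)) :
    closure (g '' ((un c ∪ un c'')ᶜ ∩ tsupport χ)) ∩ (slit p₀ 0 ℓ₀ ∪ SF p τ ℓ)ᶜ ⊆
      g '' (un c ∪ un c'')ᶜ := by
  rintro w ⟨hw, hwD⟩
  obtain ⟨x, hx, hxw⟩ := mem_closure_iff_seq_limit.1 hw
  choose z hz using hx
  have hxw' : Tendsto (fun n => g (z n)) atTop (𝓝 w) := hxw.congr fun n => (hz n).2.symm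
  obtain ⟨φ, z₀, hφ, hlim, hcase⟩ :=
    lift hd.vc hd.sg (fun n => (g3_subset c c'').1 (hz n).1.1) hxw'
  have hz₀ : z₀ ∈ tsupport χ := (isClosed_tsupport χ).mem_of_tendsto hlim
    (Eventually.of_forall fun n => (hz (φ n)).1.2)
  rcases hcase with ⟨h1, h2⟩ | ⟨k, hk, hzk, hwk⟩
  · exact ⟨z₀, g3_mem hd hz₀ h1, h2.symm⟩
  · exfalso
    apply hwD
    by_cases hkB : k = (B, θ₀)
    · left
      rw [← hS₀, ← hkB]
      exact hwk
    · right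
      refine mem_iUnion.2 ⟨⟨k, hk, hkB, ⟨z₀, hzk, hz₀⟩⟩, ?_⟩
      rw [← hp]
      exact hwk

private theorem g3_int_chi (hd : LocData θ₀ δ M r χ B c c'' g h S S'') :
    Integrable (fun z => ‖fderiv ℝ χ z‖ ^ 2) := by
  have hcs : HasCompactSupport χ :=
    (isCompact_closedBall (0 : ℂ) r).of_isClosed_subset (isClosed_tsupport χ)
      (hd.supp.trans ball_subset_closedBall)
  have hc : Continuous (fderiv ℝ χ) := hd.smooth.continuous_fderiv (by simp)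
  have h1 : HasCompactSupport (fun z => ‖fderiv ℝ χ z‖ ^ 2) :=
    (hcs.fderiv (𝕜 := ℝ)).comp_left (g := fun L : ℂ →L[ℝ] ℝ => ‖L‖ ^ 2) (by simp)
  exact (hc.norm.pow 2).integrable_of_hasCompactSupport h1

private theorem g3_core (hd : LocData θ₀ δ M r χ B c c'' g h S S'') {δ₁ ε₁ δA : ℝ}
    (hk : ∀ z ∈ tsupport (fderiv ℝ χ), ‖h z - g z‖ ≤ δ₁)
    (hε₁ : ∫ z in (un c ∪ un c'')ᶜ, χ z * ‖deriv h z‖ ^ 2 ≤ ε₁)
    (hsmall : δ₁ ^ 2 * ∫ z, ‖fderiv ℝ χ z‖ ^ 2 ≤ 1)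
    (hδA : 2 * ε₁ + 2 * (δ₁ ^ 2 * ∫ z, ‖fderiv ℝ χ z‖ ^ 2) ≤ δA ^ 2)
    {Dw : Set ℂ} (hDw : IsOpen Dw) (hsub : g '' (un c ∪ un c'')ᶜ ⊆ Dw)
    (hcl : closure (g '' ((un c ∪ un c'')ᶜ ∩ tsupport χ)) ∩ Dw ⊆ g '' (un c ∪ un c'')ᶜ)
    {k : ℂ → ℝ} (hkn : Nice (un c ∪ un c'')ᶜ (ball 0 r) k)
    (hkb : ∀ z, |k z| ≤ ‖h z - g z‖)
    (hkd : ∀ z ∈ (un c ∪ un c'')ᶜ, ‖fderiv ℝ k z‖ ^ 2 ≤ 2 * ‖deriv h z‖ ^ 2 + 2 * ‖deriv g z‖ ^ 2)
    {d : ℂ → ℝ} (hd1 : ∀ w ∈ Dw, w ∉ g '' (un c ∪ un c'')ᶜ → d w = 0)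
    (hd2 : ∀ z ∈ (un c ∪ un c'')ᶜ, ‖deriv g z‖ ^ 2 * d (g z) ^ 2 ≤
      2 * (χ z ^ 2 * ‖deriv h z‖ ^ 2) + 2 * (k z ^ 2 * ‖fderiv ℝ χ z‖ ^ 2)) :
    (∀ ρ, Nice Dw (closedBall 0 ρ) (push (un c ∪ un c'')ᶜ g (fun z => χ z * k z))) ∧
    (∀ w, M < ‖w‖ → push (un c ∪ un c'')ᶜ g (fun z => χ z * k z) w = 0) ∧
    (∀ w, |push (un c ∪ un c'')ᶜ g (fun z => χ z * k z) w| ≤ 10 * (M + 1)) ∧
    ∫ w in Dw, ‖fderiv ℝ (push (un c ∪ un c'')ᶜ g (fun z => χ z * k z)) w‖ ^ 2 ≤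
      (10 * (M + 1)) ^ 2 ∧
    ∫ w in Dw, d w ^ 2 ≤ δA ^ 2 := by
  have hD := hd.openD
  have hMp := hd.hM
  have hsc := g3_subset c c''
  have hg : DifferentiableOn ℂ g (un c ∪ un c'')ᶜ := hd.sg.diff.mono hsc.1
  have hinj : InjOn g (un c ∪ un c'')ᶜ := hd.sg.inj.mono hsc.1
  have hχc : ContDiff ℝ 2 χ := hd.smooth.of_le (by exact WithTop.coe_le_coe.2 (le_top (a := (2 : ℕ∞))))
  have hχn : Nice (un c ∪ un c'')ᶜ (ball 0 r) χ := Nice.of_contDiff hD ball_subset_closedBall hχc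
  have hn := hχn.mul hD hkn
  obtain ⟨p1, p2, p3, p4, p5⟩ := g3_push hD hDw hg hinj hsub hcl hd.supp hn
  obtain ⟨E1, E2, E3, E4⟩ := hd.energy_D
  have hIχ := g3_int_chi hd
  have hbd : ∀ w, |push (un c ∪ un c'')ᶜ g (fun z => χ z * k z) w| ≤ 2 * M := by
    intro w
    by_cases hw : w ∈ g '' (un c ∪ un c'')ᶜ
    · obtain ⟨z, hz, rfl⟩ := hw
      rw [push_apply hinj _ hz]
      by_cases hzr : z ∈ ball (0 : ℂ) r
      · have h1 := hd.bg z hzr (hsc.1 hz)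
        have h2 := hd.bh z hzr (hsc.2 hz)
        have h3 := norm_sub_le (h z) (g z)
        have h4 := hkb z
        rw [abs_mul, abs_of_nonneg (hd.bd z).1]
        have h5 : χ z * |k z| ≤ 1 * |k z| := mul_le_mul_of_nonneg_right (hd.bd z).2 (abs_nonneg _)
        linarith
      · have h1 : z ∉ tsupport χ := fun h => hzr (hd.supp h)
        rw [image_eq_zero_of_notMem_tsupport h1, zero_mul, abs_zero]
        linarith
    · rw [push_of_notMem _ hw, abs_zero]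
      linarith
  have hkk : ∀ z, k z ^ 2 * ‖fderiv ℝ χ z‖ ^ 2 ≤ δ₁ ^ 2 * ‖fderiv ℝ χ z‖ ^ 2 := by
    intro z
    by_cases hz : z ∈ tsupport (fderiv ℝ χ)
    · have h1 := (hkb z).trans (hk z hz)
      have h2 : k z ^ 2 ≤ δ₁ ^ 2 := by
        rw [← sq_abs (k z)]
        exact pow_le_pow_left₀ (abs_nonneg _) h1 2
      exact mul_le_mul_of_nonneg_right h2 (by positivity)
    · rw [image_eq_zero_of_notMem_tsupport hz]
      simp
  have hχ2 : ∀ z, χ z ^ 2 ≤ χ z := fun z => by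
    have h1 := hd.bd z
    nlinarith
  have hhI : IntegrableOn (fun z => ‖deriv h z‖ ^ 2) ((un c ∪ un c'')ᶜ ∩ ball 0 r) :=
    E3.mono_set (inter_subset_inter_left _ hsc.2)
  have hgI : IntegrableOn (fun z => ‖deriv g z‖ ^ 2) ((un c ∪ un c'')ᶜ ∩ ball 0 r) :=
    E1.mono_set (inter_subset_inter_left _ hsc.1)
  have hhE : ∫ z in (un c ∪ un c'')ᶜ ∩ ball 0 r, ‖deriv h z‖ ^ 2 ≤ Real.pi * M ^ 2 :=
    (setIntegral_mono_set E3 (Eventually.of_forall fun z => by positivity)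
      (inter_subset_inter_left _ hsc.2).eventuallyLE).trans E4
  have hgE : ∫ z in (un c ∪ un c'')ᶜ ∩ ball 0 r, ‖deriv g z‖ ^ 2 ≤ Real.pi * M ^ 2 :=
    (setIntegral_mono_set E1 (Eventually.of_forall fun z => by positivity)
      (inter_subset_inter_left _ hsc.1).eventuallyLE).trans E2
  have hDr : MeasurableSet ((un c ∪ un c'')ᶜ ∩ ball 0 r) := (hD.inter isOpen_ball).measurableSet
  refine ⟨fun ρ => ⟨p1, ⟨2 * M, fun w _ => hbd w⟩, p4.mono_set inter_subset_left⟩, ?_,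
    fun w => (hbd w).trans (by linarith), ?_, ?_⟩
  · intro w hw
    by_cases hwD : w ∈ g '' (un c ∪ un c'')ᶜ
    · obtain ⟨z, hz, rfl⟩ := hwD
      rw [push_apply hinj _ hz]
      have h1 : z ∉ tsupport χ := by
        intro h2
        exact absurd (hd.bg z (hd.supp h2) (hsc.1 hz)) (not_le.2 hw)
      rw [image_eq_zero_of_notMem_tsupport h1, zero_mul]
    · exact push_of_notMem _ hwD
  · rw [p5]
    have hI2 : IntegrableOn (fun z => 4 * ‖deriv h z‖ ^ 2 + 4 * ‖deriv g z‖ ^ 2 +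
        2 * (δ₁ ^ 2 * ‖fderiv ℝ χ z‖ ^ 2)) ((un c ∪ un c'')ᶜ ∩ ball 0 r) :=
      ((hhI.const_mul 4).add (hgI.const_mul 4)).add
        (((hIχ.const_mul (δ₁ ^ 2)).const_mul 2).integrableOn)
    have h1 : ∫ z in (un c ∪ un c'')ᶜ ∩ ball 0 r, ‖fderiv ℝ (fun z => χ z * k z) z‖ ^ 2 ≤
        ∫ z in (un c ∪ un c'')ᶜ ∩ ball 0 r, (4 * ‖deriv h z‖ ^ 2 + 4 * ‖deriv g z‖ ^ 2 +
          2 * (δ₁ ^ 2 * ‖fderiv ℝ χ z‖ ^ 2)) := by
      refine setIntegral_mono_on hn.l2 hI2 hDr ?_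
      intro z hz
      have h2 := g3_grad (hχc.differentiable two_ne_zero z)
        ((hkn.smooth.contDiffAt (hD.mem_nhds hz.1)).differentiableAt two_ne_zero)
      have h3 := hkd z hz.1
      have h4 := hkk z
      have h5 : χ z ^ 2 * ‖fderiv ℝ k z‖ ^ 2 ≤ 1 * ‖fderiv ℝ k z‖ ^ 2 :=
        mul_le_mul_of_nonneg_right ((hχ2 z).trans (hd.bd z).2) (by positivity)
      linarith
    refine h1.trans ?_
    have h2 : ∫ z in (un c ∪ un c'')ᶜ ∩ ball 0 r, (4 * ‖deriv h z‖ ^ 2 + 4 * ‖deriv g z‖ ^ 2 +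
          2 * (δ₁ ^ 2 * ‖fderiv ℝ χ z‖ ^ 2)) =
        4 * (∫ z in (un c ∪ un c'')ᶜ ∩ ball 0 r, ‖deriv h z‖ ^ 2) +
        4 * (∫ z in (un c ∪ un c'')ᶜ ∩ ball 0 r, ‖deriv g z‖ ^ 2) +
        2 * (δ₁ ^ 2 * (∫ z in (un c ∪ un c'')ᶜ ∩ ball 0 r, ‖fderiv ℝ χ z‖ ^ 2)) := by
      have hI5 : IntegrableOn (fun z => 4 * ‖deriv h z‖ ^ 2 + 4 * ‖deriv g z‖ ^ 2)
        ((un c ∪ un c'')ᶜ ∩ ball 0 r) := (hhI.const_mul 4).add (hgI.const_mul 4)
      rw [integral_add hI5 (((hIχ.const_mul (δ₁ ^ 2)).const_mul 2).integrableOn),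
        integral_add (hhI.const_mul 4) (hgI.const_mul 4), integral_const_mul,
        integral_const_mul, integral_const_mul, integral_const_mul]
    rw [h2]
    have h3 : ∫ z in (un c ∪ un c'')ᶜ ∩ ball 0 r, ‖fderiv ℝ χ z‖ ^ 2 ≤
        ∫ z, ‖fderiv ℝ χ z‖ ^ 2 :=
      setIntegral_le_integral hIχ (Eventually.of_forall fun z => by positivity)
    have h4 := mul_le_mul_of_nonneg_left h3 (sq_nonneg δ₁)
    have h5 : Real.pi * M ^ 2 ≤ 3.15 * M ^ 2 :=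
      mul_le_mul_of_nonneg_right Real.pi_lt_d2.le (sq_nonneg M)
    nlinarith
  · have hz' : ∀ w ∈ Dw \ g '' (un c ∪ un c'')ᶜ, d w ^ 2 = 0 := by
      intro w hw
      rw [hd1 w hw.1 hw.2]
      simp
    rw [setIntegral_eq_of_subset_of_forall_sdiff_eq_zero hDw.measurableSet hsub hz',
      j6_change hD hg hinj]
    have hout : ∀ z ∈ (un c ∪ un c'')ᶜ \ ((un c ∪ un c'')ᶜ ∩ ball 0 r),
        χ z * ‖deriv h z‖ ^ 2 = 0 := by
      intro z hz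
      have h2 : z ∉ tsupport χ := fun h => hz.2 ⟨hz.1, hd.supp h⟩
      rw [image_eq_zero_of_notMem_tsupport h2, zero_mul]
    have hI3 : IntegrableOn (fun z => χ z * ‖deriv h z‖ ^ 2) (un c ∪ un c'')ᶜ := by
      refine IntegrableOn.of_forall_sdiff_eq_zero (s := (un c ∪ un c'')ᶜ ∩ ball 0 r) ?_
        hD.measurableSet hout
      refine Integrable.mono' hhI (hχc.continuous.aestronglyMeasurable.mul
        hhI.aestronglyMeasurable) (Eventually.of_forall fun z => ?_)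
      have h1 := hd.bd z
      rw [norm_mul, Real.norm_of_nonneg h1.1, Real.norm_of_nonneg (by positivity)]
      have h2 : χ z * ‖deriv h z‖ ^ 2 ≤ 1 * ‖deriv h z‖ ^ 2 :=
        mul_le_mul_of_nonneg_right h1.2 (by positivity)
      linarith
    have hI4 : IntegrableOn (fun z => 2 * (χ z * ‖deriv h z‖ ^ 2) +
        2 * (δ₁ ^ 2 * ‖fderiv ℝ χ z‖ ^ 2)) (un c ∪ un c'')ᶜ :=
      (hI3.const_mul 2).add (((hIχ.const_mul (δ₁ ^ 2)).const_mul 2).integrableOn)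
    have h1 : ∫ z in (un c ∪ un c'')ᶜ, ‖deriv g z‖ ^ 2 * d (g z) ^ 2 ≤
        ∫ z in (un c ∪ un c'')ᶜ, (2 * (χ z * ‖deriv h z‖ ^ 2) +
        2 * (δ₁ ^ 2 * ‖fderiv ℝ χ z‖ ^ 2)) := by
      refine integral_mono_of_nonneg (Eventually.of_forall fun z => by positivity) hI4 ?_
      filter_upwards [ae_restrict_mem hD.measurableSet] with z hz
      have h2 := hd2 z hz
      have h3 := hkk z
      have h4 : χ z ^ 2 * ‖deriv h z‖ ^ 2 ≤ χ z * ‖deriv h z‖ ^ 2 :=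
        mul_le_mul_of_nonneg_right (hχ2 z) (by positivity)
      linarith
    refine h1.trans ?_
    rw [integral_add (hI3.const_mul 2) (((hIχ.const_mul (δ₁ ^ 2)).const_mul 2).integrableOn),
      integral_const_mul, integral_const_mul, integral_const_mul]
    have h3 : ∫ z in (un c ∪ un c'')ᶜ, ‖fderiv ℝ χ z‖ ^ 2 ≤ ∫ z, ‖fderiv ℝ χ z‖ ^ 2 :=
      setIntegral_le_integral hIχ (Eventually.of_forall fun z => by positivity)
    have h4 := mul_le_mul_of_nonneg_left h3 (sq_nonneg δ₁)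
    linarith

private theorem g3_compat (hd : LocData θ₀ δ M r χ B c c'' g h S S'') {p₀ : ℂ} {ℓ₀ : ℝ}
    {τ ℓ : NearI c χ (B, θ₀) → ℝ} {p : NearI c χ (B, θ₀) → ℂ}
    (hp : ∀ k, S k.1 = slit (p k) (τ k) (ℓ k))
    (hτ : ∀ k, τ k = Real.tan (k.1.2 - θ₀)) (j : NearI c χ (B, θ₀)) :
    ∃ κ : ℝ, Tendsto (fun z => push (un c ∪ un c'')ᶜ g (fun z => χ z * (h z - g z).im) z -
      τ j * push (un c ∪ un c'')ᶜ g (fun z => χ z * (h z - g z).re) z)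
      (nearIn (slit p₀ 0 ℓ₀ ∪ SF p τ ℓ)ᶜ (slit (p j) (τ j) (ℓ j))) (𝓝 κ) := by
  have hsc := g3_subset c c''
  have hinj : InjOn g (un c ∪ un c'')ᶜ := hd.sg.inj.mono hsc.1
  obtain ⟨a, ha0, -, ha⟩ := hd.const_near (Or.inl j.2.1) j.2.2.2
  obtain ⟨q, hq⟩ := hd.sg.line j.2.1
  obtain ⟨q', hq'⟩ := hd.sh.line (hd.near_mem'' j).1
  have hang := hd.ang j.1 j.2.1 j.2.2.2
  have hδ := hd.hδ
  have hcos : 0 < Real.cos (j.1.2 - θ₀) := by
    have h1 := abs_le.1 (hang.trans hδ)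
    have h2 := Real.pi_pos
    exact Real.cos_pos_of_mem_Ioo ⟨by linarith [h1.1], by linarith [h1.2]⟩
  have hlim : Tendsto (fun z => (h z - g z).im - τ j * (h z - g z).re)
      (nearIn (un c ∪ un c'')ᶜ j.1.1) (𝓝 ((q' - q) / Real.cos (j.1.2 - θ₀))) := by
    have h1 := ((hq'.mono_left (nearIn_mono hsc.2 subset_rfl)).sub
      (hq.mono_left (nearIn_mono hsc.1 subset_rfl))).div_const (Real.cos (j.1.2 - θ₀))
    refine h1.congr fun z => ?_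
    rw [← nrm_sub, nrm_eq, hτ j, Real.tan_eq_sin_div_cos]
    field_simp
  have hlim2 : Tendsto (fun z => χ z * (h z - g z).im - τ j * (χ z * (h z - g z).re))
      (nearIn (un c ∪ un c'')ᶜ j.1.1) (𝓝 (a * ((q' - q) / Real.cos (j.1.2 - θ₀)))) := by
    refine (hlim.const_mul a).congr' ?_
    have h1 : ∀ᶠ z in nearIn (un c ∪ un c'')ᶜ j.1.1, χ z = a := ha.filter_mono inf_le_left
    filter_upwards [h1] with z hz
    rw [hz]
    ring
  refine ⟨a * ((q' - q) / Real.cos (j.1.2 - θ₀)), ?_⟩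
  rw [tendsto_def]
  intro N hN
  obtain ⟨U, hU, hjU, hUN⟩ := eventually_nearIn.1 (hlim2 hN)
  obtain ⟨V, hV, hjV, hVa⟩ := mem_nhdsSet_iff_exists.1 ha
  -- the other slits are away
  have hother : ∀ᶠ w in 𝓝ˢ (S j.1), ∀ k ∈ c, k ≠ j.1 → w ∉ S k := by
    have h1 : IsClosed (⋃ k ∈ {k : Set ℂ × ℝ | k ∈ c ∧ k ≠ j.1}, S k) := by
      have hfin : {k : Set ℂ × ℝ | k ∈ c ∧ k ≠ j.1}.Finite :=
        c.finite_toSet.subset fun k hk => hk.1
      exact hfin.isClosed_biUnion fun k hk => (hd.sg.compactS hk.1).isClosed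
    have h2 : (⋃ k ∈ {k : Set ℂ × ℝ | k ∈ c ∧ k ≠ j.1}, S k)ᶜ ∈ 𝓝ˢ (S j.1) := by
      refine h1.isOpen_compl.mem_nhdsSet.2 ?_
      intro w hw hw'
      obtain ⟨k, hk, hwk⟩ := mem_iUnion₂.1 hw'
      exact Set.disjoint_left.1 (hd.sg.disj k hk.1 j.1 j.2.1 hk.2) hwk hw
    filter_upwards [h2] with w hw k hk hkj hwk
    exact hw (mem_iUnion₂.2 ⟨k, ⟨hk, hkj⟩, hwk⟩)
  have hof := hd.sg.ofS j.1 j.2.1 (U ∩ V) ((hU.inter hV).mem_nhdsSet.2 (subset_inter hjU hjV))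
  rw [← hp j]
  have h5 : ∀ᶠ w in nearIn (slit p₀ 0 ℓ₀ ∪ SF p τ ℓ)ᶜ (S j.1),
      w ∈ (slit p₀ 0 ℓ₀ ∪ SF p τ ℓ)ᶜ := by
    refine Filter.Eventually.filter_mono inf_le_right ?_
    exact mem_principal_self _
  filter_upwards [hother.filter_mono inf_le_left, hof.filter_mono inf_le_left, h5]
    with w h1 h2 h3
  have h4 : w ∉ S j.1 := by
    intro h6
    apply h3
    right
    refine mem_iUnion.2 ⟨j, ?_⟩
    rw [← hp j]
    exact h6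
  have h6 : w ∈ g '' (un c)ᶜ := by
    rw [hd.sg.image]
    intro h7
    obtain ⟨k, hk, hwk⟩ := mem_iUnion₂.1 h7
    by_cases hkj : k = j.1
    · rw [hkj] at hwk
      exact h4 hwk
    · exact h1 k hk hkj hwk
  obtain ⟨z, hz, hzw⟩ := h6
  obtain ⟨hzU, hzV⟩ := h2 z hz hzw
  have h7 : z ∈ tsupport χ := by
    refine subset_tsupport _ ?_
    rw [Function.mem_support, show χ z = a from hVa hzV]
    exact ha0.ne'
  have hzD := g3_mem hd h7 hz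
  have h8 := hUN z ⟨hzU, hzD⟩
  rw [← hzw, mem_preimage, push_apply hinj _ hzD, push_apply hinj _ hzD]
  exact h8

end aux

theorem LocData.stepA_data {θ₀ δ M r : ℝ} {χ : ℂ → ℝ} {B : Set ℂ} {c c'' : Cfg} {g h : ℂ → ℂ}
    {S S'' : Set ℂ × ℝ → Set ℂ} (hd : LocData θ₀ δ M r χ B c c'' g h S S'') {δ₁ ε₁ δA : ℝ}
    (hδ₁ : 0 ≤ δ₁) (hk : ∀ z ∈ tsupport (fderiv ℝ χ), ‖h z - g z‖ ≤ δ₁)
    (hε₁ : ∫ z in (un c ∪ un c'')ᶜ, χ z * ‖deriv h z‖ ^ 2 ≤ ε₁)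
    (hsmall : δ₁ ^ 2 * ∫ z, ‖fderiv ℝ χ z‖ ^ 2 ≤ 1)
    (hδA : 2 * ε₁ + 2 * (δ₁ ^ 2 * ∫ z, ‖fderiv ℝ χ z‖ ^ 2) ≤ δA ^ 2)
    {p₀ : ℂ} {ℓ₀ : ℝ} (hℓ₀ : 0 < ℓ₀) (hS₀ : S (B, θ₀) = slit p₀ 0 ℓ₀)
    {τ ℓ : NearI c χ (B, θ₀) → ℝ} {p : NearI c χ (B, θ₀) → ℂ}
    (hp : ∀ k, τ k = Real.tan (k.1.2 - θ₀) ∧ |τ k| ≤ 2 * δ ∧ 0 < ℓ k ∧
      S k.1 = slit (p k) (τ k) (ℓ k)) :
    StepAData p τ ℓ (2 * δ) M (10 * (M + 1)) δA p₀ ℓ₀
      (push (un c ∪ un c'')ᶜ g (fun z => χ z * (h z - g z).re))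
      (push (un c ∪ un c'')ᶜ g (fun z => χ z * (h z - g z).im)) := by
  have hp4 : ∀ k, S k.1 = slit (p k) (τ k) (ℓ k) := fun k => (hp k).2.2.2
  have hfin : Finite (NearI c χ (B, θ₀)) := LocData.finite_near c χ (B, θ₀)
  have hsub := g3_image hd hS₀ hp4
  have hcl := g3_closure hd hS₀ hp4
  have hD := hd.openD
  have hsc := g3_subset c c''
  have hMp := hd.hM
  have hg : DifferentiableOn ℂ g (un c ∪ un c'')ᶜ := hd.sg.diff.mono hsc.1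
  have hh : DifferentiableOn ℂ h (un c ∪ un c'')ᶜ := hd.sh.diff.mono hsc.2
  have hinj : InjOn g (un c ∪ un c'')ᶜ := hd.sg.inj.mono hsc.1
  have hχc : ContDiff ℝ 2 χ := hd.smooth.of_le (by exact WithTop.coe_le_coe.2 (le_top (a := (2 : ℕ∞))))
  have hDw : IsOpen (slit p₀ 0 ℓ₀ ∪ SF p τ ℓ)ᶜ :=
    ((isCompact_slit p₀ 0 ℓ₀).isClosed.union
      (isClosed_iUnion_of_finite fun k => (isCompact_slit _ _ _).isClosed)).isOpen_compl
  obtain ⟨n1, n2, n3, n4⟩ := hd.nice_D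
  have hnre : Nice (un c ∪ un c'')ᶜ (ball 0 r) (fun z => (h z - g z).re) :=
    (n3.sub hD n1).congr hD fun z _ => sub_re _ _
  have hnim : Nice (un c ∪ un c'')ᶜ (ball 0 r) (fun z => (h z - g z).im) :=
    (n4.sub hD n2).congr hD fun z _ => sub_im _ _
  have hχn : Nice (un c ∪ un c'')ᶜ (ball 0 r) χ := Nice.of_contDiff hD ball_subset_closedBall hχc
  obtain ⟨p1, p2, p3, -, -⟩ := g3_push hD hDw hg hinj hsub hcl hd.supp (hχn.mul hD hnre)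
  obtain ⟨q1, q2, q3, -, -⟩ := g3_push hD hDw hg hinj hsub hcl hd.supp (hχn.mul hD hnim)
  have hgd : ∀ z ∈ (un c ∪ un c'')ᶜ, DifferentiableAt ℂ g z := fun z hz =>
    hg.differentiableAt (hD.mem_nhds hz)
  have hhd : ∀ z ∈ (un c ∪ un c'')ᶜ, DifferentiableAt ℂ h z := fun z hz =>
    hh.differentiableAt (hD.mem_nhds hz)
  obtain ⟨u1, u2, u3, u4, u5⟩ := g3_core hd hk hε₁ hsmall hδA hDw hsub hcl hnre
    (fun z => abs_re_le_norm _) (by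
      intro z hz
      obtain ⟨a1, a2, a3⟩ := g3_re (hgd z hz)
      obtain ⟨b1, b2, b3⟩ := g3_re (hhd z hz)
      have hs : (fun z => (h z - g z).re) = fun z => (h z).re - (g z).re := by
        funext w
        rw [sub_re]
      rw [hs, sq_norm_fderiv, dX_sub b1 a1, dY_sub b1 a1, a2, a3, b2, b3, j6_norm, j6_norm]
      nlinarith [sq_nonneg ((deriv h z).re + (deriv g z).re),
        sq_nonneg ((deriv h z).im + (deriv g z).im)])
    (d := dY (push (un c ∪ un c'')ᶜ g (fun z => χ z * (h z - g z).re)))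
    (fun w hw hw' => by
      unfold dY
      rw [p2 w hw hw']
      rfl)
    (fun z hz => g3_dY (hgd z hz) (hhd z hz) (hχc.differentiable two_ne_zero z)
      ((p1.contDiffAt (hDw.mem_nhds (hsub ⟨z, hz, rfl⟩))).differentiableAt two_ne_zero)
      (p3 z hz))
  obtain ⟨v1, v2, v3, v4, v5⟩ := g3_core hd hk hε₁ hsmall hδA hDw hsub hcl hnim
    (fun z => abs_im_le_norm _) (by
      intro z hz
      obtain ⟨a1, a2, a3⟩ := g3_im (hgd z hz)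
      obtain ⟨b1, b2, b3⟩ := g3_im (hhd z hz)
      have hs : (fun z => (h z - g z).im) = fun z => (h z).im - (g z).im := by
        funext w
        rw [sub_im]
      rw [hs, sq_norm_fderiv, dX_sub b1 a1, dY_sub b1 a1, a2, a3, b2, b3, j6_norm, j6_norm]
      nlinarith [sq_nonneg ((deriv h z).re + (deriv g z).re),
        sq_nonneg ((deriv h z).im + (deriv g z).im)])
    (d := dX (push (un c ∪ un c'')ᶜ g (fun z => χ z * (h z - g z).im)))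
    (fun w hw hw' => by
      unfold dX
      rw [q2 w hw hw']
      rfl)
    (fun z hz => g3_dX (hgd z hz) (hhd z hz) (hχc.differentiable two_ne_zero z)
      ((q1.contDiffAt (hDw.mem_nhds (hsub ⟨z, hz, rfl⟩))).differentiableAt two_ne_zero)
      (q3 z hz))
  have hbox : ∀ k : Set ℂ × ℝ, k ∈ c → (k.1 ∩ tsupport χ).Nonempty → ∀ z ∈ S k,
      |z.re| ≤ M ∧ |z.im| ≤ M := by
    intro k hk1 hk2 z hz
    have h1 := mem_closedBall_zero_iff.1 ((hd.slit_ball hk2).1 hk1 hz)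
    exact ⟨(abs_re_le_norm z).trans h1, (abs_im_le_norm z).trans h1⟩
  refine ⟨⟨hfin, fun k => (hp k).2.2.1, fun k => (hp k).2.1, ?_, ?_⟩, hℓ₀, ?_, ?_, u1, v1,
    fun z _ hz => ⟨u2 z hz, v2 z hz⟩, fun z _ => ⟨u3 z, v3 z⟩, u4, v4, u5, v5, ?_⟩
  · intro k z hz
    rw [← hp4 k] at hz
    exact hbox k.1 k.2.1 k.2.2.2 z hz
  · intro i j hij
    rw [← hp4 i, ← hp4 j]
    exact hd.sg.disj i.1 i.2.1 j.1 j.2.1 fun h => hij (Subtype.ext h)
  · intro z hz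
    rw [← hS₀] at hz
    exact hbox (B, θ₀) hd.hB (g3_bmeet hd) z hz
  · rw [← hS₀]
    refine Set.disjoint_iUnion_right.2 fun k => ?_
    rw [← hp4 k]
    exact hd.sg.disj _ hd.hB _ k.2.1 k.2.2.1.symm
  · exact fun j => g3_compat hd hp4 (fun k => (hp k).1) j

end RSM2
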