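import Pool.Agent.RSM2.G3

/-!
# RSM2 module G4: transfer of the flux at `B` to the flux at the slit `S₀`

PROOF.  `D = (un c ∪ un c'')ᶜ`, `D_w = (S₀ ∪ SF p τ ℓ)ᶜ`.  Choose an open `U ⊇ B` with `χ = 1` on `U`,
`U ⊆ ball 0 r`, `U` disjoint from `un c \ B` and from `un c'' \ B`, with compact closure in the set of
points near which `χ = 1`.  By `ofS` there is an open
`O ⊇ S₀` with: `w ∈ O`, `w = g z`, `z ∉ un c` imply `z ∈ U`; `O` disjoint from the other slits `S k`,
`O ⊆ ball 0 (3M)`.  Let `X̂` be a cut-off: `X̂ = 1` near `S₀`, `tsupport X̂ ⊆ O` (`exists_cut`).  It is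
a `HoleCut D_w S₀ (closedBall 0 (3M))`.  Let `X z = X̂ (g z)` for `z ∈ Bᶜ ∩ U`, `z ∉ un c`; `X z = 1` for
`z ∈ B`; `X z = 0` otherwise.  `X` is `C^∞`: near `B`, `g z` is close to `S₀` (`toS`) so `X = 1`; on the open
set `(un c)ᶜ` it is `X̂ ∘ g` (if `z ∉ U` then `g z ∉ O`, `X̂ (g z) = 0`); near the other holes of `c` it
vanishes (`tsupport X̂` is a compact subset of `O`: if `z n → z₀ ∈ k.1`, `X (z n) ≠ 0`, then `z n ∈ U`...
use that the closure of `{X ≠ 0}` is contained in `closure U`, which may be assumed disjoint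
from the other holes).  So `HoleCut D B (ball 0 r) X`; `D ∩ U = U \ B`.
`Fl D X g₁ k₂ = ∫_{U \ B} J (X g₁) k₂ = ∫_{U \ B} J ((X̂ re) ∘ g) ((χ k₂))` (`χ = 1` on `U`)
`= ∫_{g '' (U \ B)} J (X̂ re) v` (`integral_J_image` for the injective holomorphic map `g` on `U \ B`,
`v ∘ g = χ k₂` on `D`, `push_apply`), and `J (X̂ re) v` vanishes on `D_w \ g '' (U \ B)`: there
`X̂ = 0` nearby or ... a point `w ∈ tsupport X̂ ∩ D_w` is in `O`, in no slit, so `w = g z` with `z ∉ un c`,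
`z ∈ U \ B`.  So this is `Fl D_w X̂ re v`.
-/

open Complex Set Metric Filter Topology MeasureTheory

namespace RSM2

private theorem g4_compact_seg (p : ℂ) (φ ℓ : ℝ) : IsCompact (seg p φ ℓ) := by
  unfold seg
  exact isCompact_Icc.image (by fun_prop)

private theorem g4_compact_slit (p : ℂ) (τ ℓ : ℝ) : IsCompact (slit p τ ℓ) := by
  unfold slit
  exact isCompact_Icc.image (by fun_prop)

theorem LocData.flux_transfer {θ₀ δ M r : ℝ} {χ : ℂ → ℝ} {B : Set ℂ} {c c'' : Cfg}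
    {g h : ℂ → ℂ} {S S'' : Set ℂ × ℝ → Set ℂ}
    (hd : LocData θ₀ δ M r χ B c c'' g h S S'')
    {p₀ : ℂ} {ℓ₀ : ℝ} (hℓ₀ : 0 < ℓ₀) (hS₀ : S (B, θ₀) = slit p₀ 0 ℓ₀)
    {τ ℓ : NearI c χ (B, θ₀) → ℝ} {p : NearI c χ (B, θ₀) → ℂ}
    (hp : ∀ k, 0 < ℓ k ∧ S k.1 = slit (p k) (τ k) (ℓ k)) :
    ∃ X X' : ℂ → ℝ, HoleCut (un c ∪ un c'')ᶜ B (ball 0 r) X ∧
      HoleCut (slit p₀ 0 ℓ₀ ∪ SF p τ ℓ)ᶜ (slit p₀ 0 ℓ₀) (closedBall 0 (3 * M)) X' ∧
      Fl (un c ∪ un c'')ᶜ X (fun z => (g z).re) (fun z => (h z - g z).im) =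
        Fl (slit p₀ 0 ℓ₀ ∪ SF p τ ℓ)ᶜ X' (fun z => z.re)
          (push (un c ∪ un c'')ᶜ g (fun z => χ z * (h z - g z).im)) := by
  classical
  have hDo : IsOpen (un c ∪ un c'')ᶜ := hd.openD
  have hBc : IsCompact B := hd.vc.compact _ hd.hB
  have hBun : B ⊆ un c := subset_un hd.hB
  -- the other holes
  obtain ⟨F, hF⟩ : ∃ F : Set ℂ, F = un (c.filter fun k => Disjoint k.1 B) ∪
    un (c''.filter fun k => Disjoint k.1 B) := ⟨_, rfl⟩
  have hFcl : IsClosed F := by
    rw [hF]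
    exact ((hd.vc.mono (Finset.filter_subset _ _)).isCompact.union
      (hd.vc''.mono (Finset.filter_subset _ _)).isCompact).isClosed
  have hFB : ∀ z ∈ F, z ∉ B := by
    intro z hz hzB
    rw [hF] at hz
    rcases hz with hz | hz
    · obtain ⟨k, hk, hzk⟩ := mem_un.1 hz
      exact disjoint_left.1 (Finset.mem_filter.1 hk).2 hzk hzB
    · obtain ⟨k, hk, hzk⟩ := mem_un.1 hz
      exact disjoint_left.1 (Finset.mem_filter.1 hk).2 hzk hzB
  have hunBF : ∀ z ∈ un c ∪ un c'', z ∈ B ∨ z ∈ F := by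
    intro z hz
    rcases hz with hz | hz
    · obtain ⟨k, hk, hzk⟩ := mem_un.1 hz
      by_cases hkB : k = (B, θ₀)
      · left
        rw [hkB] at hzk
        exact hzk
      · right
        rw [hF]
        exact Or.inl (mem_un.2 ⟨k, Finset.mem_filter.2 ⟨hk, hd.vc.disj k hk _ hd.hB hkB⟩, hzk⟩)
    · obtain ⟨k, hk, hzk⟩ := mem_un.1 hz
      rcases hd.io k hk with h1 | h1
      · exact Or.inl (interior_subset (h1 hzk))
      · right
        rw [hF]
        exact Or.inr (mem_un.2 ⟨k, Finset.mem_filter.2 ⟨hk, h1⟩, hzk⟩)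
  -- the neighbourhood `U`
  have hone : B ⊆ interior {z | χ z = 1} := subset_interior_iff_mem_nhdsSet.2 hd.one
  obtain ⟨K, hK, hBK, hKU⟩ := exists_compact_between hBc
    (isOpen_interior.inter hFcl.isOpen_compl : IsOpen (interior {z | χ z = 1} ∩ Fᶜ))
    (fun z hz => ⟨hone hz, fun h => hFB z h hz⟩)
  have hK1 : ∀ z ∈ K, χ z = 1 := by
    intro z hz
    have h1 : z ∈ {z | χ z = 1} := interior_subset (hKU hz).1
    exact h1
  have hKF : ∀ z ∈ K, z ∉ F := fun z hz => (hKU hz).2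
  obtain ⟨U, hU⟩ : ∃ U : Set ℂ, U = interior K := ⟨_, rfl⟩
  have hUo : IsOpen U := by rw [hU]; exact isOpen_interior
  have hUK : U ⊆ K := by rw [hU]; exact interior_subset
  have hBU : B ⊆ U := by rw [hU]; exact hBK
  have hUD : ∀ z ∈ U, z ∉ B → z ∈ (un c ∪ un c'')ᶜ := by
    intro z hz hzB hzu
    rcases hunBF z hzu with h1 | h1
    · exact hzB h1
    · exact hKF z (hUK hz) h1
  have hDc : (un c ∪ un c'')ᶜ ⊆ (un c)ᶜ := fun z hz h1 => hz (Or.inl h1)
  -- slits
  have hScl : ∀ k ∈ c, IsClosed (S k) := by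
    intro k hk
    obtain ⟨q, l, -, hq⟩ := hd.sg.isSeg k hk
    rw [hq]
    exact (g4_compact_seg q _ l).isClosed
  have hS₀c : IsCompact (S (B, θ₀)) := by rw [hS₀]; exact g4_compact_slit _ _ _
  obtain ⟨R, hR⟩ : ∃ R : Set ℂ, R = ⋃ k ∈ c.erase (B, θ₀), S k := ⟨_, rfl⟩
  have hRcl : IsClosed R := by
    rw [hR]
    exact (c.erase (B, θ₀)).finite_toSet.isClosed_biUnion
      fun k hk => hScl k (Finset.mem_of_mem_erase hk)
  have hRS : ∀ w ∈ S (B, θ₀), w ∉ R := by
    intro w hw hwR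
    rw [hR] at hwR
    simp only [mem_iUnion] at hwR
    obtain ⟨k, hk, hwk⟩ := hwR
    exact disjoint_left.1 (hd.sg.disj k (Finset.mem_of_mem_erase hk) _ hd.hB
      (Finset.ne_of_mem_erase hk)) hwk hw
  have hSF : SF p τ ℓ ⊆ R := by
    intro w hw
    unfold SF at hw
    obtain ⟨j, hj⟩ := mem_iUnion.1 hw
    rw [← (hp j).2] at hj
    rw [hR]
    simp only [mem_iUnion]
    exact ⟨j.1, Finset.mem_erase.2 ⟨j.2.2.1, j.2.1⟩, hj⟩
  have hball : S (B, θ₀) ⊆ closedBall 0 M := by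
    refine (hd.slit_ball (k := (B, θ₀)) ?_).1 hd.hB
    obtain ⟨z, hz⟩ := (hd.vc.conn _ hd.hB).nonempty
    refine ⟨z, hz, subset_tsupport _ ?_⟩
    have h1 : z ∈ {z | χ z = 1} := interior_subset (hone hz)
    have h2 : χ z = 1 := h1
    rw [Function.mem_support, h2]
    exact one_ne_zero
  have hM := hd.hM
  have ev1 : ∀ᶠ w in 𝓝ˢ (S (B, θ₀)), w ∉ R := hRcl.isOpen_compl.mem_nhdsSet.2 hRS
  have ev2 : ∀ᶠ w in 𝓝ˢ (S (B, θ₀)), w ∈ ball (0 : ℂ) (3 * M) :=
    isOpen_ball.mem_nhdsSet.2 (hball.trans (closedBall_subset_ball (by linarith : M < 3 * M)))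
  obtain ⟨O, hO, hSO, hOp⟩ := eventually_nhdsSet_iff_exists.1
    ((hd.sg.ofS _ hd.hB U (hUo.mem_nhdsSet.2 hBU)).and (ev1.and ev2))
  obtain ⟨Y, hYs, hYc, hYO, hY01, hY1⟩ := exists_cut hS₀c hO hSO
  obtain ⟨V, hV, hBV, hVp⟩ := eventually_nearIn.1 ((hd.sg.toS _ hd.hB).eventually hY1)
  -- the cut-off function near `B`
  obtain ⟨X, hX⟩ : ∃ X : ℂ → ℝ, X = fun z => if z ∈ B then 1 else if z ∈ U then Y (g z) else 0 :=
    ⟨_, rfl⟩
  have hX1 : ∀ z ∈ V ∩ U, X z = 1 := by
    intro z hz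
    rw [hX]
    dsimp only
    split_ifs with h1
    · rfl
    · exact hVp z ⟨hz.1, hDc (hUD z hz.2 h1)⟩
    · exact absurd hz.2 ‹_›
  have hXW : ∀ z ∈ U \ B, X z = Y (g z) := by
    intro z hz
    rw [hX]
    dsimp only
    rw [if_neg hz.2, if_pos hz.1]
  have hXU : ∀ z, z ∉ U → X z = 0 := by
    intro z hz
    rw [hX]
    dsimp only
    rw [if_neg (fun h => hz (hBU h)), if_neg hz]
  have hX0 : ∀ z, z ∉ U → ∀ᶠ w in 𝓝 z, X w = 0 := by
    intro z hz
    by_cases hzc : z ∈ un c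
    · have hzF : z ∈ F := by
        rcases hunBF z (Or.inl hzc) with h1 | h1
        · exact absurd (hBU h1) hz
        · exact h1
      have hzK : z ∉ K := fun h1 => hKF z h1 hzF
      filter_upwards [hK.isClosed.isOpen_compl.mem_nhds hzK] with w hw
      exact hXU w fun h1 => hw (hUK h1)
    · have hgz : g z ∉ tsupport Y := by
        intro h1
        exact hz ((hOp _ (hYO h1)).1 z hzc rfl)
      have hgc : ContinuousAt g z :=
        (hd.sg.diff.differentiableAt (hd.vc.isOpen.mem_nhds hzc)).continuousAt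
      have h1 : ∀ᶠ w in 𝓝 z, g w ∉ tsupport Y :=
        hgc.eventually ((isClosed_tsupport Y).isOpen_compl.mem_nhds hgz)
      have h2 : ∀ᶠ w in 𝓝 z, w ∉ B :=
        hBc.isClosed.isOpen_compl.mem_nhds fun h => hz (hBU h)
      filter_upwards [h1, h2] with w hw hwB
      by_cases hwU : w ∈ U
      · rw [hXW w ⟨hwU, hwB⟩]
        exact image_eq_zero_of_notMem_tsupport hw
      · exact hXU w hwU
  have hWo : IsOpen (U \ B) := hUo.sdiff hBc.isClosed
  have hWD : U \ B ⊆ (un c ∪ un c'')ᶜ := fun z hz => hUD z hz.1 hz.2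
  have hgW : DifferentiableOn ℂ g (U \ B) := hd.sg.diff.mono (hWD.trans hDc)
  have hgi : InjOn g (U \ B) := hd.sg.inj.mono (hWD.trans hDc)
  have hXs : ContDiff ℝ (⊤ : ℕ∞) X := by
    rw [contDiff_iff_contDiffAt]
    intro z
    by_cases hzU : z ∈ U
    · by_cases hzB : z ∈ B
      · have h1 : ContDiffAt ℝ (⊤ : ℕ∞) (fun _ : ℂ => (1 : ℝ)) z := contDiffAt_const
        refine h1.congr_of_eventuallyEq ?_
        filter_upwards [(hV.inter hUo).mem_nhds ⟨hBV hzB, hzU⟩] with w hw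
        exact hX1 w hw
      · have h1 : ContDiffAt ℂ (⊤ : ℕ∞) g z :=
          (hgW.contDiffOn hWo).contDiffAt (hWo.mem_nhds ⟨hzU, hzB⟩)
        have h2 : ContDiffAt ℝ (⊤ : ℕ∞) g z := h1.restrict_scalars ℝ
        have h3 : ContDiffAt ℝ (⊤ : ℕ∞) (fun w => Y (g w)) z := hYs.contDiffAt.comp z h2
        refine h3.congr_of_eventuallyEq ?_
        filter_upwards [hWo.mem_nhds ⟨hzU, hzB⟩] with w hw
        exact hXW w hw
    · have h1 : ContDiffAt ℝ (⊤ : ℕ∞) (fun _ : ℂ => (0 : ℝ)) z := contDiffAt_const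
      exact h1.congr_of_eventuallyEq (hX0 z hzU)
  have hXK : tsupport X ⊆ K := by
    apply closure_minimal _ hK.isClosed
    intro z hz
    by_contra h1
    exact hz (hXU z fun h2 => h1 (hUK h2))
  have hcutX : HoleCut (un c ∪ un c'')ᶜ B (ball 0 r) X := by
    refine ⟨hDo, hBc, ?_, hXs, hK.of_isClosed_subset (isClosed_tsupport _) hXK, ?_, ?_⟩
    · rw [disjoint_left]
      intro z hz hzB
      exact hz (Or.inl (hBun hzB))
    · rw [eventually_nhdsSet_iff_exists]
      exact ⟨V ∩ U, hV.inter hUo, subset_inter hBV hBU, hX1⟩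
    · intro z hz
      have hzK := hXK hz
      refine ⟨hd.supp (subset_tsupport _ ?_), ?_⟩
      · rw [Function.mem_support, hK1 z hzK]
        exact one_ne_zero
      · by_cases hzB : z ∈ B
        · exact Or.inr hzB
        · left
          intro hzu
          rcases hunBF z hzu with h1 | h1
          · exact hzB h1
          · exact hKF z hzK h1
  have hSFc : IsClosed (SF p τ ℓ) := by
    haveI : Finite (NearI c χ (B, θ₀)) := LocData.finite_near c χ (B, θ₀)
    unfold SF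
    exact isClosed_iUnion_of_finite fun j => (g4_compact_slit _ _ _).isClosed
  have hcutY : HoleCut (slit p₀ 0 ℓ₀ ∪ SF p τ ℓ)ᶜ (slit p₀ 0 ℓ₀) (closedBall 0 (3 * M)) Y := by
    rw [← hS₀]
    refine ⟨(hS₀c.isClosed.union hSFc).isOpen_compl, hS₀c, ?_, hYs, hYc, hY1, ?_⟩
    · rw [disjoint_left]
      intro z hz hzS
      exact hz (Or.inl hzS)
    · intro w hw
      have h1 := hOp w (hYO hw)
      refine ⟨ball_subset_closedBall h1.2.2, ?_⟩
      by_cases hwS : w ∈ S (B, θ₀)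
      · exact Or.inr hwS
      · left
        rintro (h2 | h2)
        · exact hwS h2
        · exact h1.2.1 (hSF h2)
  refine ⟨X, Y, hcutX, hcutY, ?_⟩
  -- the two fluxes
  obtain ⟨v, hv⟩ : ∃ v : ℂ → ℝ, v = push (un c ∪ un c'')ᶜ g (fun z => χ z * (h z - g z).im) :=
    ⟨_, rfl⟩
  have hgD : DifferentiableOn ℂ g (un c ∪ un c'')ᶜ := hd.sg.diff.mono hDc
  have hgDi : InjOn g (un c ∪ un c'')ᶜ := hd.sg.inj.mono hDc
  have hhD : DifferentiableOn ℂ h (un c ∪ un c'')ᶜ :=
    hd.sh.diff.mono fun z hz h1 => hz (Or.inr h1)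
  have hvd : DifferentiableOn ℝ v (g '' (un c ∪ un c'')ᶜ) := by
    have h1 : ContDiffOn ℝ 2 v (g '' (un c ∪ un c'')ᶜ) := by
      rw [hv]
      refine contDiffOn_push hDo hgD hgDi ?_ (S := univ) (fun z _ h => absurd (mem_univ z) h)
        inter_subset_right (j6_open hDo hgD hgDi)
      have h2 : ContDiffOn ℝ 2 (fun z => h z - g z) (un c ∪ un c'')ᶜ := by
        have h3 : ContDiffOn ℂ 2 (fun z => h z - g z) (un c ∪ un c'')ᶜ :=
          (hhD.sub hgD).contDiffOn hDo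
        exact h3.restrict_scalars ℝ
      have h4 : ContDiffOn ℝ 2 (fun z => (h z - g z).im) (un c ∪ un c'')ᶜ :=
        Complex.imCLM.contDiff.comp_contDiffOn h2
      exact ((contDiff_infty.1 hd.smooth 2).contDiffOn).mul h4
    exact h1.differentiableOn (by norm_num)
  have hYd : DifferentiableOn ℝ (fun w => Y w * w.re) (g '' (U \ B)) := by
    have h1 : Differentiable ℝ Y := hYs.differentiable (by norm_num)
    have h2 : Differentiable ℝ (fun w : ℂ => w.re) := Complex.reCLM.differentiable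
    exact (h1.mul h2).differentiableOn
  have e1 : Fl (un c ∪ un c'')ᶜ X (fun z => (g z).re) (fun z => (h z - g z).im) =
      ∫ z in U \ B, J (fun w => X w * (g w).re) (fun z => (h z - g z).im) z := by
    unfold Fl
    refine setIntegral_eq_of_subset_of_forall_diff_eq_zero hDo.measurableSet hWD ?_
    intro z hz
    have hzU : z ∉ U := fun h1 => hz.2 ⟨h1, fun h2 => hz.1 (Or.inl (hBun h2))⟩
    have h1 : (fun w => X w * (g w).re) =ᶠ[𝓝 z] fun _ => (0 : ℝ) := by
      filter_upwards [hX0 z hzU] with w hw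
      rw [hw, zero_mul]
    rw [J_congr h1 (EventuallyEq.refl _ _), J_const_left]
  have e2 : ∫ z in U \ B, J (fun w => X w * (g w).re) (fun z => (h z - g z).im) z =
      ∫ z in U \ B, J (fun z => (fun w => Y w * w.re) (g z)) (fun z => v (g z)) z := by
    refine setIntegral_congr_fun hWo.measurableSet fun z hz => ?_
    refine J_congr ?_ ?_
    · filter_upwards [hWo.mem_nhds hz] with w hw
      rw [hXW w hw]
    · filter_upwards [hWo.mem_nhds hz] with w hw
      rw [hv, push_apply hgDi _ (hWD hw), hK1 w (hUK hw.1), one_mul]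
  have e3 := integral_J_image hWo hgW hgi hYd (hvd.mono (image_mono hWD))
  have e4 : Fl (slit p₀ 0 ℓ₀ ∪ SF p τ ℓ)ᶜ Y (fun z => z.re) v =
      ∫ w in g '' (U \ B), J (fun w => Y w * w.re) v w := by
    unfold Fl
    refine setIntegral_eq_of_subset_of_forall_diff_eq_zero hcutY.openD.measurableSet ?_ ?_
    · rintro _ ⟨z, hz, rfl⟩ hw
      have h1 : g z ∈ (⋃ h ∈ c, S h)ᶜ := by
        rw [← hd.sg.image]
        exact ⟨z, hDc (hWD hz), rfl⟩
      apply h1
      simp only [mem_iUnion]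
      rcases hw with hw | hw
      · exact ⟨(B, θ₀), hd.hB, hS₀ ▸ hw⟩
      · have h2 := hSF hw
        rw [hR] at h2
        simp only [mem_iUnion] at h2
        obtain ⟨k, hk, hwk⟩ := h2
        exact ⟨k, Finset.mem_of_mem_erase hk, hwk⟩
    · intro w hw
      have hwt : w ∉ tsupport Y := by
        intro h1
        have h2 := hOp w (hYO h1)
        have h3 : w ∈ g '' (un c)ᶜ := by
          rw [hd.sg.image]
          intro h4
          simp only [mem_iUnion] at h4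
          obtain ⟨k, hk, hwk⟩ := h4
          by_cases hkB : k = (B, θ₀)
          · apply hw.1
            left
            rw [← hS₀, ← hkB]
            exact hwk
          · apply h2.2.1
            rw [hR]
            simp only [mem_iUnion]
            exact ⟨k, Finset.mem_erase.2 ⟨hkB, hk⟩, hwk⟩
        obtain ⟨z, hz, rfl⟩ := h3
        exact hw.2 ⟨z, ⟨h2.1 z hz rfl, fun h => hz (hBun h)⟩, rfl⟩
      have h1 : (fun w => Y w * w.re) =ᶠ[𝓝 w] fun _ => (0 : ℝ) := by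
        filter_upwards [(isClosed_tsupport Y).isOpen_compl.mem_nhds hwt] with x hx
        rw [image_eq_zero_of_notMem_tsupport hx, zero_mul]
      rw [J_congr h1 (EventuallyEq.refl _ _), J_const_left]
  rw [← hv, e1, e2, ← e3, e4]

end RSM2
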