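import Pool.Agent.RSM2.J5
import Pool.Agent.RSM2.J6
import Pool.Agent.RSM2.V3
import Pool.Agent.RSM2.V6
import Pool.Agent.RSM2.V7

/-!
# RSM2 module G5: the energy functional

`ea χ g = - ∫ Re g J χ (Im g)`, an integral over the compact set `tsupport (fderiv ℝ χ)`, which in the
applications does not meet the holes.

PROOFS.
`energy_eq`: `D = (un c)ᶜ`, `T = tsupport χ`, `g₁ = Re g`, `g₂ = Im g` are `Nice D (ball 0 r)`
(`nice_parts`).  `J (χ g₁) g₂ = χ J g₁ g₂ + g₁ J χ g₂` on `D`, `J g₁ g₂ = ‖g'‖²` (Cauchy-Riemann,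
`v7_CR`).  By `stokes_sum` (holes `k.1`, `k ∈ c`, cut-offs `X_k` with disjoint supports, `tsupport X_k`
contained in `ball 0 r'`... take `T' = closedBall` containing everything, or only the holes which
meet `T`; `g₁, g₂` are bounded with finite energy near every compact set because `nice_parts` is
needed only on the support of `χ`: use the holes `k ∈ c` with `(k.1 ∩ T).Nonempty`; such a hole is
contained in `T`: `χ` is locally constant near `k.1` (`hoff`), so constant and nonzero near `k.1`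
(it is connected), and `T ⊆ D ∪ ⋃ these holes`)
`∫_D J (χ g₁) g₂ = ∑ Fl D X_k (χ g₁) g₂ = ∑ a_k Fl D X_k g₁ g₂ = 0`, where `χ = a_k` near `k.1`
(choose `tsupport X_k` in the set where `χ` is locally `= a_k`), by `Fl_line`: `nrm (k.2 - θ₀) g` tends to
a constant at `k.1` by `SMap.toS`, as it is constant on the segment `S k` (`isSeg`).
So `∫_D χ ‖g'‖² = - ∫_D g₁ J χ g₂ = ea χ g`, since `J χ g₂ = 0` off `tsupport (fderiv ℝ χ) ⊆ D`.
Integrability: `χ ≤ C` has support in `T`, and `∫_{D ∩ ball 0 r} ‖g'‖² < ∞` (`integral_sq_deriv`).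
`ea_cont`: `T = tsupport (fderiv ℝ χ)` is compact; `Q = cthickening ρ T ⊆ W` for some `ρ > 0`
(`IsCompact.exists_cthickening_subset_open`), compact; for `z ∈ T` the ball `ball z ρ` is contained in
`interior Q`.  Cauchy's estimate for `g - f₀` on `closedBall z (ρ/2)`: `‖g' - f₀'‖ ≤ 2δ/ρ` at `z`
(`Complex.norm_deriv_le_of_forall_mem_sphere_norm_le`).  With
`|J χ a| ≤ ‖∇χ‖ ‖∇a‖`, `‖∇ Im g‖ = ‖g'‖` (`v7_CR`), `|f₀|, |f₀'| ≤ A`, `‖∇χ‖ ≤ K` on `T`:
`|g₁ J χ g₂ - f₁ J χ f₂| ≤ |g₁ - f₁| K (A + 2δ/ρ) + A K 2δ/ρ ≤ δ K (A + 2δ/ρ + 2A/ρ)`; integrate over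
`T` (finite measure; the integrands are continuous on `T`).
-/

open Complex Set Metric Filter Topology MeasureTheory

namespace RSM2

/-- The energy functional. -/
noncomputable def ea (χ : ℂ → ℝ) (g : ℂ → ℂ) : ℝ :=
  -∫ z in tsupport (fderiv ℝ χ), (g z).re * J χ (fun w => (g w).im) z

theorem G5_nbhd {χ : ℂ → ℝ} (hχ : ContDiff ℝ (⊤ : ℕ∞) χ) {H : Set ℂ} (hH : IsConnected H)
    (hoff : Disjoint (tsupport (fderiv ℝ χ)) H) :
    ∃ N : Set ℂ, ∃ a : ℝ, IsOpen N ∧ H ⊆ N ∧ ∀ z ∈ N, χ z = a := by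
  obtain ⟨z₀, hz₀⟩ := hH.nonempty
  have hUo : IsOpen (tsupport (fderiv ℝ χ))ᶜ := (isClosed_tsupport _).isOpen_compl
  have hHU : H ⊆ (tsupport (fderiv ℝ χ))ᶜ := fun z hz hz' => hoff.le_bot ⟨hz', hz⟩
  have hN : IsOpen (connectedComponentIn (tsupport (fderiv ℝ χ))ᶜ z₀) := hUo.connectedComponentIn
  refine ⟨connectedComponentIn (tsupport (fderiv ℝ χ))ᶜ z₀, χ z₀, hN,
    hH.isPreconnected.subset_connectedComponentIn hz₀ hHU, fun z hz => ?_⟩
  have hd : Differentiable ℝ χ := hχ.differentiable (by simp)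
  refine hN.is_const_of_fderiv_eq_zero (𝕜 := ℝ) isPreconnected_connectedComponentIn
    hd.differentiableOn ?_ hz (mem_connectedComponentIn (hHU hz₀))
  intro w hw
  have hw' := connectedComponentIn_subset _ _ hw
  exact image_eq_zero_of_notMem_tsupport hw'

theorem G5_open {c : Cfg} (hc : Valid c) {k : Set ℂ × ℝ} (hk : k ∈ c) :
    IsOpen ((un c)ᶜ ∪ k.1) := by
  classical
  have h1 : (un c)ᶜ ∪ k.1 = (un (c.erase k))ᶜ := by
    ext z
    simp only [mem_union, mem_compl_iff, mem_un, Finset.mem_erase, not_exists, not_and]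
    constructor
    · rintro (h | h) h' ⟨hne, hh'⟩ hz
      · exact h h' hh' hz
      · exact (hc.disj h' hh' k hk hne).le_bot ⟨hz, h⟩
    · intro h
      by_cases hz : z ∈ k.1
      · exact Or.inr hz
      · refine Or.inl fun h' hh' hz' => ?_
        by_cases hne : h' = k
        · exact hz (hne ▸ hz')
        · exact h h' ⟨hne, hh'⟩ hz'
  rw [h1]
  exact (hc.mono (Finset.erase_subset k c)).isOpen

theorem G5_line {θ₀ : ℝ} {c : Cfg} {g : ℂ → ℂ} {S : Set ℂ × ℝ → Set ℂ} (hg : SMap θ₀ c g S)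
    {k : Set ℂ × ℝ} (hk : k ∈ c) :
    ∃ q : ℝ, Tendsto (fun z => nrm (k.2 - θ₀) (g z)) (nearIn (un c)ᶜ k.1) (𝓝 q) := by
  obtain ⟨p, ℓ, -, hS⟩ := hg.isSeg k hk
  refine ⟨nrm (k.2 - θ₀) p, ?_⟩
  have h1 : Tendsto (nrm (k.2 - θ₀)) (𝓝ˢ (S k)) (𝓝 (nrm (k.2 - θ₀) p)) := by
    have hcont : Continuous (nrm (k.2 - θ₀)) := by
      unfold nrm
      fun_prop
    intro V hV
    obtain ⟨V', hV'V, hV'o, hpV'⟩ := _root_.mem_nhds_iff.mp hV
    rw [Filter.mem_map, mem_nhdsSet_iff_exists]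
    refine ⟨nrm (k.2 - θ₀) ⁻¹' V', hV'o.preimage hcont, ?_, preimage_mono hV'V⟩
    rw [hS]
    rintro _ ⟨t, -, rfl⟩
    have h2 : nrm (k.2 - θ₀) (p + t * exp (((k.2 - θ₀ : ℝ) : ℂ) * I)) = nrm (k.2 - θ₀) p := by
      rw [nrm_add]
      have h3 : nrm (k.2 - θ₀) (t * exp (((k.2 - θ₀ : ℝ) : ℂ) * I)) = 0 := by
        unfold nrm
        have h4 : exp (-(((k.2 - θ₀ : ℝ) : ℂ)) * I) * (t * exp (((k.2 - θ₀ : ℝ) : ℂ) * I)) =
            (t : ℂ) := by
          rw [mul_left_comm, ← Complex.exp_add, neg_mul, neg_add_cancel, Complex.exp_zero, mul_one]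
        rw [h4]
        simp
      rw [h3, add_zero]
    rw [mem_preimage, h2]
    exact hpV'
  exact h1.comp (hg.toS k hk)

theorem G5_Jzero {χ b : ℂ → ℝ} {z : ℂ} (hz : z ∉ tsupport (fderiv ℝ χ)) : J χ b z = 0 := by
  have h1 : fderiv ℝ χ z = 0 := image_eq_zero_of_notMem_tsupport hz
  unfold J dX dY
  rw [h1]
  simp

theorem G5_contJ {U : Set ℂ} (hU : IsOpen U) {g : ℂ → ℂ} (hg : DifferentiableOn ℂ g U)
    {χ : ℂ → ℝ} (hχ : ContDiff ℝ (⊤ : ℕ∞) χ) :
    ContinuousOn (fun z => (g z).re * J χ (fun w => (g w).im) z) U := by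
  have hc : ContDiffOn ℝ 2 g U := (hg.contDiffOn hU).restrict_scalars ℝ
  have h1 : ContDiffOn ℝ 2 (fun w => (g w).im) U := imCLM.contDiff.comp_contDiffOn hc
  have h2 : ContinuousOn (fderiv ℝ (fun w => (g w).im)) U :=
    h1.continuousOn_fderiv_of_isOpen hU (by norm_num)
  have h3 : Continuous (fderiv ℝ χ) := hχ.continuous_fderiv (by simp)
  have h4 : ContinuousOn (fun z => (g z).re) U :=
    Complex.continuous_re.comp_continuousOn hg.continuousOn
  unfold J dX dY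
  have h5 : ∀ v : ℂ, ContinuousOn (fun z => fderiv ℝ χ z v) U := fun v =>
    (h3.clm_apply continuous_const).continuousOn
  have h6 : ∀ v : ℂ, ContinuousOn (fun z => fderiv ℝ (fun w => (g w).im) z v) U := fun v =>
    h2.clm_apply continuousOn_const
  exact h4.mul (((h5 1).mul (h6 I)).sub ((h5 I).mul (h6 1)))

theorem energy_eq {c : Cfg} (hc : Valid c) {θ₀ : ℝ} {g : ℂ → ℂ} {S : Set ℂ × ℝ → Set ℂ}
    (hg : SMap θ₀ c g S) {χ : ℂ → ℝ} {r M : ℝ} (hχ : ContDiff ℝ (⊤ : ℕ∞) χ)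
    (hsupp : tsupport χ ⊆ ball 0 r) (hb : ∀ z ∈ ball (0 : ℂ) r, z ∉ un c → ‖g z‖ ≤ M)
    (hoff : Disjoint (tsupport (fderiv ℝ χ)) (un c)) :
    IntegrableOn (fun z => χ z * ‖deriv g z‖ ^ 2) (un c)ᶜ ∧
      ∫ z in (un c)ᶜ, χ z * ‖deriv g z‖ ^ 2 = ea χ g := by
  classical
  have hD : IsOpen (un c)ᶜ := hc.isOpen
  have hTc : IsCompact (tsupport χ) :=
    (isCompact_closedBall (0 : ℂ) r).of_isClosed_subset (isClosed_tsupport _)
      (hsupp.trans ball_subset_closedBall)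
  have hcs : HasCompactSupport χ := hTc
  obtain ⟨n1, n2⟩ := nice_parts (s := r) (M := M) hD hg.diff hg.inj
    (fun z hz hzr => hb z (mem_ball_zero_iff.mpr hzr) hz)
  have hdiff : ∀ z ∈ (un c)ᶜ, DifferentiableAt ℂ g z := fun z hz =>
    hg.diff.differentiableAt (hD.mem_nhds hz)
  have hχd : ∀ z, DifferentiableAt ℝ χ z := fun z => (hχ.differentiable (by simp)) z
  have hχ2 : ContDiff ℝ 2 χ := hχ.of_le (WithTop.coe_le_coe.2 le_top)
  have nχ : Nice (un c)ᶜ (tsupport χ) χ :=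
    Nice.of_contDiff hD (hsupp.trans ball_subset_closedBall) hχ2
  have n1' := n1.mono hsupp
  have n2' := n2.mono hsupp
  have na : Nice (un c)ᶜ (tsupport χ) (fun z => χ z * (g z).re) := nχ.mul hD n1'
  -- the holes
  have key : ∀ k ∈ c, (k.1 ∩ tsupport χ).Nonempty → ∃ X : ℂ → ℝ, ∃ a : ℝ,
      HoleCut (un c)ᶜ k.1 (tsupport χ) X ∧ (∀ z, X z ≠ 0 → χ z = a) := by
    intro k hk hne
    obtain ⟨N, a, hNo, hkN, hNa⟩ := G5_nbhd hχ (hc.conn k hk)
      (hoff.mono_right (subset_un hk))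
    obtain ⟨z₁, hz₁, hz₁T⟩ := hne
    have ha : a ≠ 0 := by
      intro ha
      have h1 : z₁ ∈ closure (Function.support χ) := hz₁T
      rw [_root_.mem_closure_iff] at h1
      obtain ⟨w, hwN, hws⟩ := h1 N hNo (hkN hz₁)
      exact hws (by rw [hNa w hwN, ha])
    have hNT : N ⊆ tsupport χ := by
      intro w hw
      apply subset_tsupport
      rw [Function.mem_support, hNa w hw]
      exact ha
    obtain ⟨X, hX1, hX2, hX3, -, hX5⟩ := exists_cut (hc.compact k hk)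
      (hNo.inter (G5_open hc hk)) (fun z hz => ⟨hkN hz, Or.inr hz⟩)
    refine ⟨X, a, ⟨hD, hc.compact k hk, ?_, hX1, hX2, hX5, ?_⟩, ?_⟩
    · rw [Set.disjoint_left]
      intro z hz hzk
      exact hz (subset_un hk hzk)
    · intro z hz
      exact ⟨hNT (hX3 hz).1, (hX3 hz).2⟩
    · intro z hz
      exact hNa z (hX3 (subset_tsupport _ hz)).1
  choose! X a hX hXa using key
  have hcI : Fintype {k : Set ℂ × ℝ // k ∈ c ∧ (k.1 ∩ tsupport χ).Nonempty} :=
    @Fintype.ofFinite _ (Finite.of_injective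
      (fun k : {k : Set ℂ × ℝ // k ∈ c ∧ (k.1 ∩ tsupport χ).Nonempty} => (⟨k.1, k.2.1⟩ : c))
      (fun x y h => Subtype.ext (congrArg (fun u : c => u.1) h)))
  have hst := stokes_sum (ι := {k : Set ℂ × ℝ // k ∈ c ∧ (k.1 ∩ tsupport χ).Nonempty})
    (H := fun k => k.1.1) (X := fun k => X k.1) hD
    (fun k => hX k.1 k.2.1 k.2.2) ?_ hTc ?_ na n2' ?_
  rotate_left
  · intro i j hij
    have h1 : j.1.1 ⊆ (tsupport (X i.1))ᶜ := by
      intro z hz hz'
      rcases ((hX i.1 i.2.1 i.2.2).supp hz').2 with h | h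
      · exact h (subset_un j.2.1 hz)
      · exact (hc.disj i.1 i.2.1 j.1 j.2.1 (fun h => hij (Subtype.ext h))).le_bot ⟨h, hz⟩
    have h2 : (tsupport (X i.1))ᶜ ∈ 𝓝ˢ (j.1.1) :=
      (isClosed_tsupport _).isOpen_compl.mem_nhdsSet.mpr h1
    filter_upwards [h2] with z hz
    exact image_eq_zero_of_notMem_tsupport hz
  · intro z hz
    by_cases hzD : z ∈ un c
    · obtain ⟨k, hk, hzk⟩ := mem_un.mp hzD
      exact Or.inr (mem_iUnion.mpr ⟨⟨k, hk, z, hzk, hz⟩, hzk⟩)
    · exact Or.inl hzD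
  · intro z hz
    left
    have h2 : (tsupport χ)ᶜ ∈ 𝓝 z := (isClosed_tsupport _).isOpen_compl.mem_nhds hz.2
    filter_upwards [h2] with w hw
    rw [image_eq_zero_of_notMem_tsupport hw, zero_mul]
  obtain ⟨hint, hsum⟩ := hst
  have hFl : ∀ k : {k : Set ℂ × ℝ // k ∈ c ∧ (k.1 ∩ tsupport χ).Nonempty},
      Fl (un c)ᶜ (X k.1) (fun z => χ z * (g z).re) (fun z => (g z).im) = 0 := by
    intro k
    have hk := hX k.1 k.2.1 k.2.2
    have h1 : (fun w => X k.1 w * (χ w * (g w).re)) =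
        (fun w => X k.1 w * (a k.1 * (g w).re)) := by
      funext w
      by_cases hw : X k.1 w = 0
      · rw [hw, zero_mul, zero_mul]
      · rw [hXa k.1 k.2.1 k.2.2 w hw]
    have h2 : Fl (un c)ᶜ (X k.1) (fun z => χ z * (g z).re) (fun z => (g z).im) =
        Fl (un c)ᶜ (X k.1) (fun z => a k.1 * (g z).re) (fun z => (g z).im) := by
      unfold Fl
      rw [h1]
    obtain ⟨q, hq⟩ := G5_line hg k.2.1
    rw [h2, Fl_smul_left hk n1' n2', Fl_line hk n1' n2' hq, mul_zero]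
  have hsum0 : ∫ z in (un c)ᶜ, J (fun z => χ z * (g z).re) (fun z => (g z).im) z = 0 := by
    rw [hsum]
    exact Finset.sum_eq_zero fun k _ => hFl k
  -- integrability of the energy
  obtain ⟨C, hC⟩ := hTc.exists_bound_of_continuousOn hχ.continuous.continuousOn
  have hC' : ∀ z, |χ z| ≤ max C 0 := by
    intro z
    by_cases hz : z ∈ tsupport χ
    · exact (hC z hz).trans (le_max_left _ _)
    · rw [image_eq_zero_of_notMem_tsupport hz, abs_zero]
      exact le_max_right _ _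
  have hl2 : IntegrableOn (fun z => ‖deriv g z‖ ^ 2) ((un c)ᶜ ∩ ball 0 r) := by
    refine (integrableOn_congr_fun ?_ (hD.inter isOpen_ball).measurableSet).mp n2.l2
    intro z hz
    have h1 := (v7_CR (hdiff z hz.1)).2
    show ‖fderiv ℝ (fun w => (g w).im) z‖ ^ 2 = _
    rw [h1]
  have hE1 : IntegrableOn (fun z => χ z * ‖deriv g z‖ ^ 2) ((un c)ᶜ ∩ ball 0 r) := by
    refine Integrable.mono' (hl2.const_mul (max C 0))
      ((hχ.continuous.measurable.mul
        ((measurable_deriv g).norm.pow_const 2)).aestronglyMeasurable) ?_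
    refine Eventually.of_forall fun z => ?_
    rw [norm_mul, Real.norm_eq_abs, Real.norm_eq_abs, abs_of_nonneg (sq_nonneg ‖deriv g z‖)]
    exact mul_le_mul_of_nonneg_right (hC' z) (sq_nonneg _)
  have hE : IntegrableOn (fun z => χ z * ‖deriv g z‖ ^ 2) (un c)ᶜ := by
    refine hE1.of_forall_sdiff_eq_zero hD.measurableSet ?_
    intro z hz
    have h1 : z ∉ tsupport χ := fun h => hz.2 ⟨hz.1, hsupp h⟩
    rw [image_eq_zero_of_notMem_tsupport h1, zero_mul]
  refine ⟨hE, ?_⟩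
  have hJ : ∀ z ∈ (un c)ᶜ, (g z).re * J χ (fun w => (g w).im) z =
      J (fun z => χ z * (g z).re) (fun z => (g z).im) z - χ z * ‖deriv g z‖ ^ 2 := by
    intro z hz
    have h1 : DifferentiableAt ℝ (fun w => (g w).re) z := J4_diff hD n1.smooth hz
    rw [J_mul_left (hχd z) h1, (v7_CR (hdiff z hz)).1]
    ring
  have hsub : tsupport (fderiv ℝ χ) ⊆ (un c)ᶜ := fun z hz hz' => hoff.le_bot ⟨hz, hz'⟩
  have h3 : ∫ z in (un c)ᶜ, (g z).re * J χ (fun w => (g w).im) z =
      ∫ z in tsupport (fderiv ℝ χ), (g z).re * J χ (fun w => (g w).im) z := by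
    refine setIntegral_eq_of_subset_of_forall_sdiff_eq_zero hD.measurableSet hsub ?_
    intro z hz
    rw [G5_Jzero hz.2, mul_zero]
  have h4 : ∫ z in (un c)ᶜ, (g z).re * J χ (fun w => (g w).im) z =
      -∫ z in (un c)ᶜ, χ z * ‖deriv g z‖ ^ 2 := by
    rw [setIntegral_congr_fun hD.measurableSet hJ, integral_sub hint hE, hsum0, zero_sub]
  unfold ea
  rw [← h3, h4, neg_neg]

theorem ea_cont {f₀ : ℂ → ℂ} {W : Set ℂ} (hW : IsOpen W) (hf : DifferentiableOn ℂ f₀ W)
    {χ : ℂ → ℝ} (hχ : ContDiff ℝ (⊤ : ℕ∞) χ) (hc : HasCompactSupport χ)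
    (hsub : tsupport (fderiv ℝ χ) ⊆ W) {ε : ℝ} (hε : 0 < ε) :
    ∃ Q ⊆ W, IsCompact Q ∧ tsupport (fderiv ℝ χ) ⊆ interior Q ∧ ∃ δ > 0, ∀ g : ℂ → ℂ,
      DifferentiableOn ℂ g (interior Q) → (∀ z ∈ Q, ‖g z - f₀ z‖ ≤ δ) →
      |ea χ g - ea χ f₀| ≤ ε := by
  have hTc : IsCompact (tsupport (fderiv ℝ χ)) := hc.fderiv ℝ
  obtain ⟨ρ, hρ, hρW⟩ := hTc.exists_cthickening_subset_open hW hsub
  set T := tsupport (fderiv ℝ χ) with hT
  have hth : thickening ρ T ⊆ interior (cthickening ρ T) :=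
    thickening_subset_interior_cthickening ρ T
  have hTint : T ⊆ interior (cthickening ρ T) := (self_subset_thickening hρ T).trans hth
  have hQc : IsCompact (cthickening ρ T) := hTc.cthickening
  have hball : ∀ z ∈ T, closedBall z (ρ / 2) ⊆ interior (cthickening ρ T) := by
    intro z hz w hw
    apply hth
    rw [mem_thickening_iff]
    exact ⟨z, hz, (mem_closedBall.mp hw).trans_lt (by linarith)⟩
  have hfT : DifferentiableOn ℂ f₀ (interior (cthickening ρ T)) :=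
    hf.mono (interior_subset.trans hρW)
  obtain ⟨A1, hA1⟩ := hTc.exists_bound_of_continuousOn (hf.continuousOn.mono hsub)
  obtain ⟨A2, hA2⟩ := hTc.exists_bound_of_continuousOn ((hf.deriv hW).continuousOn.mono hsub)
  obtain ⟨K1, hK1⟩ := hTc.exists_bound_of_continuousOn
    ((hχ.continuous_fderiv (by simp)).continuousOn (s := T))
  set A := max (max A1 A2) 0 with hA
  set K := max K1 0 with hK
  have hA0 : 0 ≤ A := le_max_right _ _
  have hK0 : 0 ≤ K := le_max_right _ _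
  have hAf : ∀ z ∈ T, ‖f₀ z‖ ≤ A := fun z hz =>
    (hA1 z hz).trans ((le_max_left _ _).trans (le_max_left _ _))
  have hAd : ∀ z ∈ T, ‖deriv f₀ z‖ ≤ A := fun z hz =>
    (hA2 z hz).trans ((le_max_right _ _).trans (le_max_left _ _))
  have hKχ : ∀ z ∈ T, ‖fderiv ℝ χ z‖ ≤ K := fun z hz => (hK1 z hz).trans (le_max_left _ _)
  set B := K * (A + 2 / ρ) + A * (K * (2 / ρ)) with hB
  have hρ2 : 0 < 2 / ρ := by positivity
  have hB0 : 0 ≤ B := by positivity
  set μ := volume.real T with hμ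
  have hμ0 : 0 ≤ μ := measureReal_nonneg
  have hden : 0 < B * μ + 1 := by positivity
  refine ⟨cthickening ρ T, hρW, hQc, hTint, min 1 (ε / (B * μ + 1)),
    lt_min one_pos (by positivity), fun g hg hgf => ?_⟩
  set δ := min 1 (ε / (B * μ + 1)) with hδ
  have hδ0 : 0 < δ := lt_min one_pos (by positivity)
  have hδ1 : δ ≤ 1 := min_le_left _ _
  have hδ2 : δ ≤ ε / (B * μ + 1) := min_le_right _ _
  have hint : ∀ h : ℂ → ℂ, DifferentiableOn ℂ h (interior (cthickening ρ T)) →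
      IntegrableOn (fun z => (h z).re * J χ (fun w => (h w).im) z) T := by
    intro h hh
    exact ((G5_contJ isOpen_interior hh hχ).mono hTint).integrableOn_compact hTc
  have hder : ∀ z ∈ T, ‖deriv (fun w => g w - f₀ w) z‖ ≤ δ * (2 / ρ) := by
    intro z hz
    have h1 : DiffContOnCl ℂ (fun w => g w - f₀ w) (ball z (ρ / 2)) :=
      (hg.fun_sub hfT).diffContOnCl_ball (hball z hz)
    have h2 := Complex.norm_deriv_le_of_forall_mem_sphere_norm_le (C := δ) (by positivity) h1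
      (fun w hw => hgf w (interior_subset (hball z hz (sphere_subset_closedBall hw))))
    calc ‖deriv (fun w => g w - f₀ w) z‖ ≤ δ / (ρ / 2) := h2
      _ = δ * (2 / ρ) := by field_simp
  have hpt : ∀ z ∈ T, ‖(f₀ z).re * J χ (fun w => (f₀ w).im) z -
      (g z).re * J χ (fun w => (g w).im) z‖ ≤ δ * B := by
    intro z hz
    have hzi := isOpen_interior.mem_nhds (hTint hz)
    have hgz : DifferentiableAt ℂ g z := hg.differentiableAt hzi
    have hfz : DifferentiableAt ℂ f₀ z := hfT.differentiableAt hzi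
    have hgim : DifferentiableAt ℝ (fun w => (g w).im) z :=
      imCLM.differentiableAt.comp z (hgz.restrictScalars ℝ)
    have hfim : DifferentiableAt ℝ (fun w => (f₀ w).im) z :=
      imCLM.differentiableAt.comp z (hfz.restrictScalars ℝ)
    have e1 : J χ (fun w => (g w - f₀ w).im) z =
        J χ (fun w => (g w).im) z - J χ (fun w => (f₀ w).im) z := by
      have h1 : (fun w => (g w - f₀ w).im) = fun w => (g w).im - (f₀ w).im := by
        funext w
        exact Complex.sub_im _ _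
      rw [h1, J_sub_right hgim hfim]
    have e2 : |J χ (fun w => (g w - f₀ w).im) z| ≤ K * (δ * (2 / ρ)) := by
      have h1 := (v7_CR (hgz.fun_sub hfz)).2
      refine (abs_J_le _ _ _).trans ?_
      rw [h1]
      exact mul_le_mul (hKχ z hz) (hder z hz) (norm_nonneg _) hK0
    have e3 : |J χ (fun w => (g w).im) z| ≤ K * (A + 2 / ρ) := by
      have h1 := (v7_CR hgz).2
      refine (abs_J_le _ _ _).trans ?_
      rw [h1]
      refine mul_le_mul (hKχ z hz) ?_ (norm_nonneg _) hK0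
      have h2 : deriv (fun w => g w - f₀ w) z = deriv g z - deriv f₀ z :=
        deriv_fun_sub hgz hfz
      have h3 : deriv g z = deriv f₀ z + deriv (fun w => g w - f₀ w) z := by
        rw [h2]; ring
      rw [h3]
      refine (norm_add_le _ _).trans (add_le_add (hAd z hz) ((hder z hz).trans ?_))
      nlinarith
    have e4 : |(g z).re - (f₀ z).re| ≤ δ := by
      rw [← Complex.sub_re]
      exact (Complex.abs_re_le_norm _).trans (hgf z (interior_subset (hTint hz)))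
    have e5 : |(f₀ z).re| ≤ A := (Complex.abs_re_le_norm _).trans (hAf z hz)
    have e6 : (f₀ z).re * J χ (fun w => (f₀ w).im) z - (g z).re * J χ (fun w => (g w).im) z =
        -(((g z).re - (f₀ z).re) * J χ (fun w => (g w).im) z +
          (f₀ z).re * J χ (fun w => (g w - f₀ w).im) z) := by
      rw [e1]; ring
    rw [e6, norm_neg, Real.norm_eq_abs]
    refine (abs_add_le _ _).trans ?_
    rw [abs_mul, abs_mul]
    have f1 : |(g z).re - (f₀ z).re| * |J χ (fun w => (g w).im) z| ≤ δ * (K * (A + 2 / ρ)) :=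
      mul_le_mul e4 e3 (abs_nonneg _) hδ0.le
    have f2 : |(f₀ z).re| * |J χ (fun w => (g w - f₀ w).im) z| ≤ A * (K * (δ * (2 / ρ))) :=
      mul_le_mul e5 e2 (abs_nonneg _) hA0
    calc _ ≤ δ * (K * (A + 2 / ρ)) + A * (K * (δ * (2 / ρ))) := add_le_add f1 f2
      _ = δ * B := by rw [hB]; ring
  have hea : ea χ g - ea χ f₀ = ∫ z in T, ((f₀ z).re * J χ (fun w => (f₀ w).im) z -
      (g z).re * J χ (fun w => (g w).im) z) := by
    rw [integral_sub (hint f₀ hfT) (hint g hg)]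
    unfold ea
    ring
  rw [hea, ← Real.norm_eq_abs]
  have hfin : volume T < ⊤ := hTc.measure_lt_top
  refine (norm_setIntegral_le_of_norm_le_const hfin hpt).trans ?_
  show δ * B * μ ≤ ε
  have h1 : B * μ ≤ B * μ + 1 := by linarith
  calc δ * B * μ = δ * (B * μ) := by ring
    _ ≤ ε / (B * μ + 1) * (B * μ + 1) := by
        refine mul_le_mul hδ2 h1 (by positivity) (by positivity)
    _ = ε := by field_simp

end RSM2
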