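import Pool.Agent.RSM2.Basic

/-!
# RSM2: good laws

`GoodLaw θ A p`: `p` is an ultrafilter on the set of all configurations (the law of a random exhaustion
of the compact set `A` by finite configurations), whose holes shrink to `A`, with the right angles,
such that EVERY limit of slit maps of configurations with law `p` near `A` (together with other holes,
the environment `e i`, off a fixed neighbourhood `V` of `A`) is good at every component of `A`.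
-/

open Complex Set Metric Filter Topology MeasureTheory

namespace RSM2

open Classical in
structure GoodLaw (θ : ℂ → ℝ) (A : Set ℂ) (p : Ultrafilter Cfg) : Prop where
  valid : ∀ᶠ c in (p : Filter Cfg), Valid c
  loc : ∀ U : Set ℂ, IsOpen U → A ⊆ U → ∀ᶠ c in (p : Filter Cfg), un c ⊆ U
  ang : ∀ᶠ c in (p : Filter Cfg), ∀ h ∈ c, ∃ z ∈ h.1 ∩ A, h.2 = θ z
  good : ∀ (ι : Type) (r : Ultrafilter ι) (c e : ι → Cfg) (G : ι → ℂ → ℂ) (f : ℂ → ℂ)
    (V : Set ℂ) (R : ℝ), IsOpen V → A ⊆ V → r.map c = p →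
    (∀ᶠ i in (r : Filter ι), (∀ h ∈ e i, Disjoint h.1 V) ∧ Valid (c i ∪ e i) ∧
      Sol (c i ∪ e i) (G i) ∧ un (c i ∪ e i) ⊆ closedBall 0 R) →
    (∀ K ⊆ V \ A, IsCompact K → TendstoUniformlyOn G f (r : Filter ι) K) →
    ∀ x ∈ A, ∃ q : ℝ, Tendsto (fun z => nrm (θ x) (f z))
      (nearIn (V \ A) (connectedComponentIn A x)) (𝓝 q)

/-- The approximation property at the component `K₀` of `A`: the map `f` can be approximated by slit
maps `G` and `G''` of configurations `c` and `c''` such that a small filled neighbourhood `B` of `K₀`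
is a hole of `c` with the angle `θ₀`, and outside of `B` the configurations `c` and `c''` have the
same holes near `K₀`.  The second approximation `G''` is as good as we like, in dependence of
`B`. -/
def Approx (V A K₀ : Set ℂ) (θ₀ : ℝ) (f : ℂ → ℂ) (R : ℝ) : Prop :=
  ∀ δ > 0, ∃ U₀ : Set ℂ, IsOpen U₀ ∧ K₀ ⊆ U₀ ∧ U₀ ⊆ V ∧
    ∀ Q ⊆ V \ A, IsCompact Q → ∀ δ₁ > 0, ∀ U₁ : Set ℂ, IsOpen U₁ → K₀ ⊆ U₁ →
    ∃ B ⊆ U₁, IsCompact B ∧ K₀ ⊆ interior B ∧ Disjoint (frontier B) A ∧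
    ∀ L ⊆ V \ A, IsCompact L → ∀ δ₂ > 0, ∃ (c c'' : Cfg) (G G'' : ℂ → ℂ),
      Valid c ∧ Valid c'' ∧ Sol c G ∧ Sol c'' G'' ∧
      un c ⊆ closedBall 0 R ∧ un c'' ⊆ closedBall 0 R ∧
      (B, θ₀) ∈ c ∧
      (∀ h ∈ c'', h.1 ⊆ interior B ∨ Disjoint h.1 B) ∧
      (∀ h : Set ℂ × ℝ, Disjoint h.1 B → (h.1 ∩ U₀).Nonempty → (h ∈ c ↔ h ∈ c'')) ∧
      (∀ h ∈ c, (h.1 ∩ U₀).Nonempty → |h.2 - θ₀| ≤ δ) ∧
      Disjoint (un c) Q ∧ Disjoint (un c'') Q ∧ Disjoint (un c'') L ∧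
      (∀ z ∈ Q, ‖G z - f z‖ ≤ δ₁) ∧ (∀ z ∈ Q, ‖G'' z - f z‖ ≤ δ₂) ∧
      (∀ z ∈ L, ‖G'' z - f z‖ ≤ δ₂)

end RSM2
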