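import Pool.Agent.RSM2.Basic
import Pool.Agent.RSM.G0

/-!
# RSM2 module V8: components of a compact set with connected complement

PROOF of `compl_component`.  Let `K = connectedComponentIn E x`, compact, nonempty.  `Eᶜ ⊆ Kᶜ` is
connected and contains all points of large norm.  Let `W` be a component of the open set `Kᶜ`
which does not meet `Eᶜ`, i.e. `W ⊆ E`, `W` open, nonempty, bounded.  Its frontier is nonempty
(`W` is not clopen: bounded, nonempty) and contained in `K` (a frontier point of the component `W`
of the open set `Kᶜ` cannot be in `Kᶜ`).  So `closure W ⊆ E` is connected and meets `K`; hence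
`closure W ∪ K` is a connected subset of `E` containing `x`, so `W ⊆ K`, contradiction.  So every
component of `Kᶜ` meets `Eᶜ`, which is connected: `Kᶜ` is connected.
PROOF of `exists_clopen`.  In the compact Hausdorff space `E` (subtype) the component of `x` is the
intersection of the clopen sets containing `x` (`connectedComponent_eq_iInter_isClopen`), and `U`
is a neighbourhood of it, so some clopen set is contained in `U` (compactness, directedness:
`IsCompact.elim_directed_family_closed_of_isCompact` or
`exists_subset_nhds_of_isCompact'`).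
-/

set_option linter.all false

open Complex Set Metric Filter Topology MeasureTheory

namespace RSM2

theorem compl_component {E : Set ℂ} (hE : IsCompact E) (hc : IsConnected Eᶜ) {x : ℂ}
    (hx : x ∈ E) : IsConnected (connectedComponentIn E x)ᶜ := by
  have hKc : IsCompact (connectedComponentIn E x) := RSM.isCompact_component hE x
  have hKE : connectedComponentIn E x ⊆ E := connectedComponentIn_subset E x
  obtain ⟨p, hp⟩ := hc.nonempty
  refine ⟨⟨p, fun h => hp (hKE h)⟩, ?_⟩
  refine isPreconnected_of_forall p ?_
  intro y hy
  set W := connectedComponentIn (connectedComponentIn E x)ᶜ y with hW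
  have hyW : y ∈ W := mem_connectedComponentIn hy
  have hWo : IsOpen W := hKc.isClosed.isOpen_compl.connectedComponentIn
  have hWK : W ⊆ (connectedComponentIn E x)ᶜ := connectedComponentIn_subset _ _
  have hWc : IsPreconnected W := isPreconnected_connectedComponentIn
  have hmeet : (W ∩ Eᶜ).Nonempty := by
    by_contra hne
    have hWE : W ⊆ E := by
      intro z hz
      by_contra hzE
      exact hne ⟨z, hz, hzE⟩
    have hclE : closure W ⊆ E := closure_minimal hWE hE.isClosed
    have hex : ∃ z ∈ closure W, z ∉ W := by
      by_contra hall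
      push Not at hall
      have hcl : IsClosed W := isClosed_of_closure_subset hall
      rcases isClopen_iff.1 ⟨hcl, hWo⟩ with h | h
      · rw [h] at hyW
        exact hyW
      · have h1 : (univ : Set ℂ) ⊆ E := by
          rw [← h]
          exact hWE
        exact hp (h1 (mem_univ p))
    obtain ⟨z, hz, hzW⟩ := hex
    have hzK : z ∈ connectedComponentIn E x := by
      by_contra hzK
      have h1 : IsPreconnected (insert z W) :=
        hWc.subset_closure (subset_insert z W) (insert_subset hz subset_closure)
      have h2 : insert z W ⊆ W :=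
        h1.subset_connectedComponentIn (mem_insert_of_mem z hyW) (insert_subset hzK hWK)
      exact hzW (h2 (mem_insert z W))
    have h3 : closure W ⊆ connectedComponentIn E z :=
      hWc.closure.subset_connectedComponentIn hz hclE
    rw [← connectedComponentIn_eq hzK] at h3
    exact hy (h3 (subset_closure hyW))
  obtain ⟨q, hqW, hqE⟩ := hmeet
  refine ⟨W ∪ Eᶜ, union_subset hWK (fun z hz hzK => hz (hKE hzK)), Or.inr hp, Or.inl hyW, ?_⟩
  exact IsPreconnected.union q hqW hqE hWc hc.isPreconnected

/-- Clopen pieces `A` of the compact set `E`: `A` and `E \ A` are compact. -/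
theorem exists_clopen {E : Set ℂ} (hE : IsCompact E) {x : ℂ} (hx : x ∈ E) {U : Set ℂ}
    (hU : IsOpen U) (hK : connectedComponentIn E x ⊆ U) :
    ∃ A ⊆ E, IsCompact A ∧ IsCompact (E \ A) ∧ x ∈ A ∧ connectedComponentIn E x ⊆ A ∧ A ⊆ U := by
  haveI : CompactSpace E := isCompact_iff_compactSpace.1 hE
  have hcc : connectedComponentIn E x = Subtype.val '' connectedComponent (⟨x, hx⟩ : E) :=
    connectedComponentIn_eq_image hx
  have hiI := connectedComponent_eq_iInter_isClopen (⟨x, hx⟩ : E)
  haveI : Nonempty {s : Set E // IsClopen s ∧ (⟨x, hx⟩ : E) ∈ s} :=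
    ⟨⟨univ, isClopen_univ, mem_univ _⟩⟩
  have hdir : Directed (· ⊇ ·)
      (fun s : {s : Set E // IsClopen s ∧ (⟨x, hx⟩ : E) ∈ s} => (s : Set E)) := by
    intro s t
    exact ⟨⟨s.1 ∩ t.1, s.2.1.inter t.2.1, s.2.2, t.2.2⟩, inter_subset_left, inter_subset_right⟩
  obtain ⟨⟨Z, hZ, hxZ⟩, hZU⟩ := exists_subset_nhds_of_isCompact' (U := Subtype.val ⁻¹' U) hdir
    (fun s => s.2.1.isClosed.isCompact) (fun s => s.2.1.isClosed) (by
      intro y hy
      rw [← hiI] at hy
      refine (hU.preimage continuous_subtype_val).mem_nhds ?_
      refine hK ?_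
      rw [hcc]
      exact mem_image_of_mem _ hy)
  refine ⟨Subtype.val '' Z, ?_, ?_, ?_, ?_, ?_, ?_⟩
  · rintro _ ⟨z, _, rfl⟩
    exact z.2
  · exact hZ.isClosed.isCompact.image continuous_subtype_val
  · have h1 : E \ (Subtype.val '' Z) = Subtype.val '' Zᶜ := by
      ext z
      constructor
      · rintro ⟨hz, hz'⟩
        exact ⟨⟨z, hz⟩, fun h => hz' ⟨_, h, rfl⟩, rfl⟩
      · rintro ⟨w, hw, rfl⟩
        refine ⟨w.2, ?_⟩
        rintro ⟨w', hw', h⟩
        exact hw (Subtype.val_injective h ▸ hw')
    rw [h1]
    exact hZ.compl.isClosed.isCompact.image continuous_subtype_val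
  · exact ⟨_, hxZ, rfl⟩
  · rw [hcc]
    exact image_mono (hZ.connectedComponent_subset hxZ)
  · rintro _ ⟨z, hz, rfl⟩
    exact hZU hz

/-- Components of a clopen piece. -/
theorem component_clopen {E A : Set ℂ} (hA : IsCompact A) (hAE : A ⊆ E) (hEA : IsCompact (E \ A))
    {x : ℂ} (hx : x ∈ A) : connectedComponentIn A x = connectedComponentIn E x := by
  refine Subset.antisymm (connectedComponentIn_mono x hAE) ?_
  refine isPreconnected_connectedComponentIn.subset_connectedComponentIn
    (mem_connectedComponentIn (hAE hx)) ?_
  have h1 : IsPreconnected (connectedComponentIn E x) := isPreconnected_connectedComponentIn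
  rw [isPreconnected_iff_subset_of_disjoint_closed] at h1
  have h2 := h1 A (E \ A) hA.isClosed hEA.isClosed (by
    rw [union_diff_cancel hAE]
    exact connectedComponentIn_subset E x) (by
    rw [inter_diff_self, inter_empty])
  rcases h2 with h2 | h2
  · exact h2
  · exact absurd hx (h2 (mem_connectedComponentIn (hAE hx))).2

end RSM2
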