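import Pool.Agent.RSM2.G5
import Pool.Agent.RSM2.V8
import Pool.Agent.RSM2.Law

/-!
# RSM2 module G6: cut-off functions with small excess energy

`CutOff V A K₀ χ`: `χ` is a cut-off function in `V`, `1` near `K₀`, locally constant near `A`.

PROOFS.  Write `f₀ z = exp (-iθ₀) f z`.
`CutOff.mul`: product rule, `tsupport (fderiv (χ χ')) ⊆ tsupport (fderiv χ) ∪ tsupport (fderiv χ')`.
`exists_cutOff`: `exists_clopen` (V8) gives a compact `A' ⊆ A`, `A \ A'` compact, `K₀ ⊆ A' ⊆ U ∩ V`;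
`exists_cut` for `A'` and the open set `U ∩ V ∩ (A \ A')ᶜ`: `χ = 1` near `A'`, so the gradient vanishes
near `A'`, and `tsupport (fderiv χ) ⊆ tsupport χ` is disjoint from `A \ A'`.
`approx_energy`: for cut-offs `χ, χ'` and `ε > 0` there are a valid configuration `c''`, and `h` with
`∫_{(un c'')ᶜ} χ ‖h'‖² = ea χ h`, `|ea χ h - ea χ f₀| ≤ ε`, and the same for `χ'`: apply `ea_cont` to `χ`, `χ'` on
`W = V \ A` (open), get `Q, Q'`, `δ, δ'`; `happ 1`, with `Q ∪ Q'`, `δ₁ = 1`, `U₁ = univ`, `L = ∅`,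
`δ₂ = min δ δ'` gives `c''`, `G''`; `exists_smap` for `θ₀`, `h = exp (-iθ₀) G''`; `Sol.bound` gives the
bound for `energy_eq` (with any `r` such that the supports are in `ball 0 r`, and
`un c'' ⊆ closedBall 0 (max R 1)`).
`ea_mono`, `ea_nonneg`: `0 ≤ χ' ≤ χ` gives `0 ≤ ∫ χ' ‖h'‖² ≤ ∫ χ ‖h'‖²`, so
`-ε ≤ ea χ' f₀`, `ea χ' f₀ ≤ ea χ f₀ + 2ε` for all `ε > 0`.
`exists_good_cutoff`: let `m` be the infimum of `ea χ f₀` over all cut-off functions (nonempty by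
`exists_cutOff`, `≥ 0`); choose `χ₁` with `ea χ₁ f₀ ≤ m + ε`, `χ₀` with `tsupport χ₀ ⊆ U`, and
`χ = χ₁ χ₀ ≤ χ₁`: `ea χ f₀ ≤ m + ε ≤ ea χ' f₀ + ε`.
-/

open Complex Set Metric Filter Topology MeasureTheory

namespace RSM2

structure CutOff (V A K₀ : Set ℂ) (χ : ℂ → ℝ) : Prop where
  smooth : ContDiff ℝ (⊤ : ℕ∞) χ
  compact : HasCompactSupport χ
  sub : tsupport χ ⊆ V
  bd : ∀ z, 0 ≤ χ z ∧ χ z ≤ 1
  one : ∀ᶠ z in 𝓝ˢ K₀, χ z = 1
  off : Disjoint (tsupport (fderiv ℝ χ)) A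

variable {V A K₀ : Set ℂ} {χ χ' : ℂ → ℝ} {θ₀ R : ℝ} {f : ℂ → ℂ}

theorem CutOff.mul (h : CutOff V A K₀ χ) (h' : CutOff V A K₀ χ') :
    CutOff V A K₀ (fun z => χ z * χ' z) := by
  refine ⟨h.smooth.mul h'.smooth, h.compact.mul_right, ?_, ?_, ?_, ?_⟩
  · exact (tsupport_mul_subset_left).trans h.sub
  · intro z
    have h1 := h.bd z
    have h2 := h'.bd z
    exact ⟨mul_nonneg h1.1 h2.1, mul_le_one₀ h1.2 h2.1 h2.2⟩
  · filter_upwards [h.one, h'.one] with z h1 h2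
    rw [h1, h2, one_mul]
  · have hsub : tsupport (fderiv ℝ (fun z => χ z * χ' z)) ⊆
        tsupport (fderiv ℝ χ) ∪ tsupport (fderiv ℝ χ') := by
      refine closure_minimal ?_ ((isClosed_tsupport _).union (isClosed_tsupport _))
      intro z hz
      by_contra hne
      rw [mem_union, not_or] at hne
      have e1 : fderiv ℝ χ z = 0 := image_eq_zero_of_notMem_tsupport hne.1
      have e2 : fderiv ℝ χ' z = 0 := image_eq_zero_of_notMem_tsupport hne.2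
      have d1 : DifferentiableAt ℝ χ z := (h.smooth.differentiable (by simp)) z
      have d2 : DifferentiableAt ℝ χ' z := (h'.smooth.differentiable (by simp)) z
      refine hz ?_
      have h3 := fderiv_fun_mul d1 d2
      rw [h3, e1, e2, smul_zero, smul_zero, add_zero]
    exact (h.off.union_left h'.off).mono_left hsub

theorem CutOff.sub_diff (h : CutOff V A K₀ χ) : tsupport (fderiv ℝ χ) ⊆ V \ A := by
  intro z hz
  exact ⟨h.sub (tsupport_fderiv_subset ℝ hz), fun hA => (disjoint_left.1 h.off hz hA).elim⟩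

theorem exists_cutOff (hV : IsOpen V) (hA : IsCompact A) {x₀ : ℂ} (hx₀ : x₀ ∈ A) {U : Set ℂ}
    (hU : IsOpen U) (hK : connectedComponentIn A x₀ ⊆ U) (hKV : connectedComponentIn A x₀ ⊆ V) :
    ∃ χ, CutOff V A (connectedComponentIn A x₀) χ ∧ tsupport χ ⊆ U := by
  obtain ⟨A', hA'A, hA'c, hAA', -, hKA', hA'UV⟩ :=
    exists_clopen hA hx₀ (hU.inter hV) (subset_inter hK hKV)
  have hop : IsOpen ((U ∩ V) ∩ (A \ A')ᶜ) := (hU.inter hV).inter hAA'.isClosed.isOpen_compl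
  have hsub : A' ⊆ (U ∩ V) ∩ (A \ A')ᶜ := fun z hz => ⟨hA'UV hz, fun h => h.2 hz⟩
  obtain ⟨X, h1, h2, h3, h4, h5⟩ := exists_cut hA'c hop hsub
  refine ⟨X, ⟨h1, h2, ?_, h4, ?_, ?_⟩, ?_⟩
  · exact h3.trans (inter_subset_left.trans inter_subset_right)
  · exact h5.filter_mono (nhdsSet_mono hKA')
  · rw [disjoint_left]
    intro z hz hzA
    by_cases hzA' : z ∈ A'
    · have h6 : ∀ᶠ w in 𝓝 z, X w = 1 := h5.filter_mono (nhds_le_nhdsSet hzA')
      have h7 : ∀ᶠ w in 𝓝 z, fderiv ℝ X w = 0 := by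
        filter_upwards [h6.eventually_nhds] with w hw
        have h8 : X =ᶠ[𝓝 w] fun _ => (1 : ℝ) := hw
        rw [h8.fderiv_eq]
        simp
      exact (notMem_tsupport_iff_eventuallyEq.2 h7) hz
    · exact (h3 (tsupport_fderiv_subset ℝ hz)).2 ⟨hzA, hzA'⟩
  · exact h3.trans (inter_subset_left.trans inter_subset_left)

theorem approx_energy (hV : IsOpen V) (hA : IsCompact A)
    (hf : DifferentiableOn ℂ f (V \ A)) (happ : Approx V A K₀ θ₀ f R)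
    (h : CutOff V A K₀ χ) (h' : CutOff V A K₀ χ') {ε : ℝ} (hε : 0 < ε) :
    ∃ (c : Cfg) (g : ℂ → ℂ), Valid c ∧
      IntegrableOn (fun z => χ z * ‖deriv g z‖ ^ 2) (un c)ᶜ ∧
      IntegrableOn (fun z => χ' z * ‖deriv g z‖ ^ 2) (un c)ᶜ ∧
      |(∫ z in (un c)ᶜ, χ z * ‖deriv g z‖ ^ 2) -
        ea χ (fun z => exp (-(θ₀ : ℂ) * I) * f z)| ≤ ε ∧
      |(∫ z in (un c)ᶜ, χ' z * ‖deriv g z‖ ^ 2) -
        ea χ' (fun z => exp (-(θ₀ : ℂ) * I) * f z)| ≤ ε := by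
  have hW : IsOpen (V \ A) := hV.sdiff hA.isClosed
  have hf₀ : DifferentiableOn ℂ (fun z => exp (-(θ₀ : ℂ) * I) * f z) (V \ A) := hf.const_mul _
  obtain ⟨Q, hQW, hQc, hQs, δ, hδ, hQ⟩ := ea_cont hW hf₀ h.smooth h.compact h.sub_diff hε
  obtain ⟨Q', hQW', hQc', hQs', δ', hδ', hQ'⟩ := ea_cont hW hf₀ h'.smooth h'.compact h'.sub_diff hε
  obtain ⟨U₀, -, -, -, happ1⟩ := happ 1 one_pos
  obtain ⟨B, -, -, -, -, happ2⟩ := happ1 (Q ∪ Q') (union_subset hQW hQW') (hQc.union hQc') 1 one_pos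
    univ isOpen_univ (subset_univ _)
  obtain ⟨-, c, -, G, -, hc, -, hG, -, hcR, -, -, -, -, -, hdis, -, -, hGf, -⟩ :=
    happ2 ∅ (empty_subset _) isCompact_empty (min δ δ') (lt_min hδ hδ')
  obtain ⟨S, hS⟩ := exists_smap hc hG θ₀
  have hexp : ‖exp (-(θ₀ : ℂ) * I)‖ = 1 := by
    rw [show -(θ₀ : ℂ) * I = ((-θ₀ : ℝ) : ℂ) * I by push_cast; ring, Complex.norm_exp_ofReal_mul_I]
  have hR1 : un c ⊆ closedBall 0 (max R 1) :=
    hcR.trans (closedBall_subset_closedBall (le_max_left _ _))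
  have key : ∀ (X : ℂ → ℝ), CutOff V A K₀ X → ∀ (P : Set ℂ) (η : ℝ), P ⊆ Q ∪ Q' → min δ δ' ≤ η →
      tsupport (fderiv ℝ X) ⊆ interior P →
      (∀ g : ℂ → ℂ, DifferentiableOn ℂ g (interior P) →
        (∀ z ∈ P, ‖g z - exp (-(θ₀ : ℂ) * I) * f z‖ ≤ η) →
        |ea X g - ea X (fun z => exp (-(θ₀ : ℂ) * I) * f z)| ≤ ε) →
      IntegrableOn (fun z => X z * ‖deriv (fun z => exp (-(θ₀ : ℂ) * I) * G z) z‖ ^ 2) (un c)ᶜ ∧
      |(∫ z in (un c)ᶜ, X z * ‖deriv (fun z => exp (-(θ₀ : ℂ) * I) * G z) z‖ ^ 2) -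
        ea X (fun z => exp (-(θ₀ : ℂ) * I) * f z)| ≤ ε := by
    intro X hX P η hP hη hPs hPg
    obtain ⟨r, hr⟩ := hX.compact.isBounded.subset_ball (0 : ℂ)
    have hPd : Disjoint (un c) P := hdis.mono_right hP
    have hPc : P ⊆ (un c)ᶜ := fun z hz hzc => disjoint_left.1 hPd hzc hz
    obtain ⟨e1, e2⟩ := energy_eq hc hS (χ := X) (r := r) (M := r + 4 * max R 1) hX.smooth hr (by
      intro z hz hzc
      rw [norm_mul, hexp, one_mul]
      have h1 := hG.bound (lt_of_lt_of_le one_pos (le_max_right R 1)) hR1 (z := z) hzc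
      have h2 : ‖z‖ < r := mem_ball_zero_iff.1 hz
      linarith) (by
      refine (hPd.mono_right ?_).symm
      exact hPs.trans interior_subset)
    refine ⟨e1, ?_⟩
    rw [e2]
    refine hPg _ ?_ ?_
    · exact (hG.diff.const_mul _).mono (interior_subset.trans hPc)
    · intro z hz
      rw [← mul_sub, norm_mul, hexp, one_mul]
      exact (hGf z (hP hz)).trans hη
  obtain ⟨a1, a2⟩ := key χ h Q δ subset_union_left (min_le_left _ _) hQs hQ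
  obtain ⟨b1, b2⟩ := key χ' h' Q' δ' subset_union_right (min_le_right _ _) hQs' hQ'
  exact ⟨c, _, hc, a1, b1, a2, b2⟩

theorem CutOff.ea_nonneg (hV : IsOpen V) (hA : IsCompact A)
    (hf : DifferentiableOn ℂ f (V \ A)) (happ : Approx V A K₀ θ₀ f R)
    (h : CutOff V A K₀ χ) : 0 ≤ ea χ (fun z => exp (-(θ₀ : ℂ) * I) * f z) := by
  refine le_of_forall_pos_le_add fun ε hε => ?_
  obtain ⟨c, g, -, -, -, h1, -⟩ := approx_energy hV hA hf happ h h hε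
  have h2 : 0 ≤ ∫ z in (un c)ᶜ, χ z * ‖deriv g z‖ ^ 2 :=
    integral_nonneg fun z => mul_nonneg (h.bd z).1 (sq_nonneg _)
  have h3 := (abs_le.1 h1).2
  linarith

theorem CutOff.ea_mono (hV : IsOpen V) (hA : IsCompact A)
    (hf : DifferentiableOn ℂ f (V \ A)) (happ : Approx V A K₀ θ₀ f R)
    (h : CutOff V A K₀ χ) (h' : CutOff V A K₀ χ') (hle : ∀ z, χ' z ≤ χ z) :
    ea χ' (fun z => exp (-(θ₀ : ℂ) * I) * f z) ≤ ea χ (fun z => exp (-(θ₀ : ℂ) * I) * f z) := by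
  refine le_of_forall_pos_le_add fun ε hε => ?_
  obtain ⟨c, g, -, i1, i2, h1, h2⟩ := approx_energy hV hA hf happ h h' (half_pos hε)
  have h3 : (∫ z in (un c)ᶜ, χ' z * ‖deriv g z‖ ^ 2) ≤ ∫ z in (un c)ᶜ, χ z * ‖deriv g z‖ ^ 2 :=
    integral_mono i2 i1 fun z => mul_le_mul_of_nonneg_right (hle z) (sq_nonneg _)
  have h4 := (abs_le.1 h1).2
  have h5 := (abs_le.1 h2).1
  linarith

theorem exists_good_cutoff (hV : IsOpen V) (hA : IsCompact A) (hAV : A ⊆ V) {x₀ : ℂ}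
    (hx₀ : x₀ ∈ A) (hf : DifferentiableOn ℂ f (V \ A))
    (happ : Approx V A (connectedComponentIn A x₀) θ₀ f R) {U : Set ℂ} (hU : IsOpen U)
    (hK : connectedComponentIn A x₀ ⊆ U) {ε : ℝ} (hε : 0 < ε) :
    ∃ χ, CutOff V A (connectedComponentIn A x₀) χ ∧ tsupport χ ⊆ U ∧
      ∀ χ', CutOff V A (connectedComponentIn A x₀) χ' → (∀ z, χ' z ≤ χ z) →
        ea χ (fun z => exp (-(θ₀ : ℂ) * I) * f z) -
          ea χ' (fun z => exp (-(θ₀ : ℂ) * I) * f z) ≤ ε := by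
  have hKV : connectedComponentIn A x₀ ⊆ V := (connectedComponentIn_subset A x₀).trans hAV
  obtain ⟨χ₀, hχ₀, hχ₀U⟩ := exists_cutOff hV hA hx₀ hU hK hKV
  obtain ⟨Z, hZ⟩ : ∃ Z : Set ℝ, Z = {t | ∃ χ, CutOff V A (connectedComponentIn A x₀) χ ∧
    t = ea χ (fun z => exp (-(θ₀ : ℂ) * I) * f z)} := ⟨_, rfl⟩
  have hne : Z.Nonempty := by
    rw [hZ]
    exact ⟨_, χ₀, hχ₀, rfl⟩
  have hbd : BddBelow Z := by
    refine ⟨0, ?_⟩
    intro t ht
    rw [hZ] at ht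
    obtain ⟨χ, hχ, rfl⟩ := ht
    exact hχ.ea_nonneg hV hA hf happ
  obtain ⟨t, ht, htl⟩ := exists_lt_of_csInf_lt hne (show sInf Z < sInf Z + ε by linarith)
  rw [hZ] at ht
  obtain ⟨χ₁, hχ₁, rfl⟩ := ht
  refine ⟨fun z => χ₁ z * χ₀ z, hχ₁.mul hχ₀, ?_, ?_⟩
  · exact (tsupport_mul_subset_right).trans hχ₀U
  · intro χ' hχ' _
    have h1 : sInf Z ≤ ea χ' (fun z => exp (-(θ₀ : ℂ) * I) * f z) :=
      csInf_le hbd (by rw [hZ]; exact ⟨χ', hχ', rfl⟩)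
    have h2 := CutOff.ea_mono hV hA hf happ hχ₁ (hχ₁.mul hχ₀) (fun z =>
      mul_le_of_le_one_right (hχ₁.bd z).1 (hχ₀.bd z).2)
    linarith

end RSM2
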