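import Pool.Agent.RSM2.Basic

/-!
# RSM2 module V0: ellipses with given foci (Joukowski map)

`jou p q ξ = (p + q)/2 + (q - p)/2 * cosh ξ`.

PROOFS.
* `norm_jou`: `jou - p = (q - p) (cosh ξ + 1)/2 = (q - p) cosh² (ξ/2)`,
  `jou - q = (q - p) sinh² (ξ/2)`; with `ξ/2 = a + ib`: `‖cosh (a + ib)‖² = sinh² a + cos² b`,
  `‖sinh (a + ib)‖² = sinh² a + sin² b`, sum `= 2 sinh² a + 1 = cosh (2a)`.
* `exists_jou`: `cosh` is surjective on `ℂ` (`Complex.cos_surjective`, `cosh ξ = cos (iξ)`) and even.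
* `jou_eq_iff`: `cosh ξ = cosh ξ'` iff `ξ' = ξ + 2πin` or `ξ' = -ξ + 2πin`
  (`Complex.cos_eq_cos_iff`, or `cosh ξ - cosh ξ' = 2 sinh ((ξ+ξ')/2) sinh ((ξ-ξ')/2)`), the second
  case is impossible if both real parts are positive.
* `isConnected_annulus`: by the first two items the set is the image of
  `{ξ | 0 < Re ξ, s < ‖q - p‖ cosh (Re ξ) < t}` under the continuous map `jou p q`
  (`s ≥ ‖p - q‖` excludes `Re ξ = 0`); in terms of `Re ξ` this is an interval
  (`cosh` is strictly increasing on `[0, ∞)`), so the set is convex (a vertical strip); it is nonempty.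
* `mem_segment_iff`: `Re ξ = 0` in `norm_jou`, or the equality case of the triangle
  inequality (`dist_add_dist_eq_iff`).
* `exists_ellipse_subset`: otherwise there are `w n ∉ U` with
  `‖w n - p‖ + ‖w n - q‖ ≤ ‖p - q‖ + 1/n`, a bounded sequence; a limit point is in the segment, and
  not in the open set `U`.
-/

open Complex Set Metric Filter Topology MeasureTheory

namespace RSM2

/-- The Joukowski parametrisation of the plane with foci `p`, `q`. -/
noncomputable def jou (p q ξ : ℂ) : ℂ := (p + q) / 2 + (q - p) / 2 * Complex.cosh ξ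

private theorem V0_norm_sq (z : ℂ) :
    ‖Complex.cosh z‖ ^ 2 + ‖Complex.sinh z‖ ^ 2 = Real.cosh (2 * z.re) := by
  have h1 : ((‖Complex.cosh z‖ ^ 2 + ‖Complex.sinh z‖ ^ 2 : ℝ) : ℂ) =
      ((Real.cosh (2 * z.re) : ℝ) : ℂ) := by
    push_cast
    rw [← Complex.mul_conj', ← Complex.mul_conj', ← Complex.cosh_conj, ← Complex.sinh_conj,
      ← Complex.cosh_add, Complex.add_conj]
    push_cast
    rfl
  exact_mod_cast h1

private theorem V0_sub_p (p q ξ : ℂ) : jou p q ξ - p = (q - p) * Complex.cosh (ξ / 2) ^ 2 := by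
  have h : Complex.cosh ξ = Complex.cosh (ξ / 2) ^ 2 + Complex.sinh (ξ / 2) ^ 2 := by
    rw [← Complex.cosh_two_mul]; congr 1; ring
  have h2 := Complex.cosh_sq_sub_sinh_sq (ξ / 2)
  unfold jou
  rw [h]
  linear_combination (-(q - p) / 2) * h2

private theorem V0_sub_q (p q ξ : ℂ) : jou p q ξ - q = (q - p) * Complex.sinh (ξ / 2) ^ 2 := by
  have h : Complex.cosh ξ = Complex.cosh (ξ / 2) ^ 2 + Complex.sinh (ξ / 2) ^ 2 := by
    rw [← Complex.cosh_two_mul]; congr 1; ring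
  have h2 := Complex.cosh_sq_sub_sinh_sq (ξ / 2)
  unfold jou
  rw [h]
  linear_combination ((q - p) / 2) * h2

theorem norm_jou (p q ξ : ℂ) :
    ‖jou p q ξ - p‖ + ‖jou p q ξ - q‖ = ‖p - q‖ * Real.cosh ξ.re := by
  rw [V0_sub_p, V0_sub_q, norm_mul, norm_mul, norm_pow, norm_pow, ← mul_add, V0_norm_sq,
    norm_sub_rev]
  congr 2
  simp only [Complex.div_ofNat_re]
  ring

theorem exists_jou {p q : ℂ} (hpq : p ≠ q) (w : ℂ) : ∃ ξ : ℂ, 0 ≤ ξ.re ∧ jou p q ξ = w := by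
  have hne : (q - p) / 2 ≠ 0 := div_ne_zero (sub_ne_zero.2 (Ne.symm hpq)) two_ne_zero
  obtain ⟨z, hz⟩ := Complex.cos_surjective ((w - (p + q) / 2) / ((q - p) / 2))
  have key : ∀ ξ : ℂ, Complex.cosh ξ = (w - (p + q) / 2) / ((q - p) / 2) → jou p q ξ = w := by
    intro ξ h
    unfold jou
    rw [h, mul_div_cancel₀ _ hne]
    ring
  rcases le_total 0 (z * I).re with h | h
  · exact ⟨z * I, h, key _ (by rw [Complex.cosh_mul_I, hz])⟩
  · refine ⟨-(z * I), ?_, key _ (by rw [Complex.cosh_neg, Complex.cosh_mul_I, hz])⟩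
    rw [Complex.neg_re]
    linarith

theorem jou_eq_iff {p q : ℂ} (hpq : p ≠ q) {ξ ξ' : ℂ} (h : 0 < ξ.re) (h' : 0 < ξ'.re) :
    jou p q ξ = jou p q ξ' ↔ ∃ n : ℤ, ξ' = ξ + n * (2 * Real.pi * I) := by
  have hne : (q - p) / 2 ≠ 0 := div_ne_zero (sub_ne_zero.2 (Ne.symm hpq)) two_ne_zero
  have h1 : jou p q ξ = jou p q ξ' ↔ Complex.cos (ξ * I) = Complex.cos (ξ' * I) := by
    unfold jou
    rw [add_right_inj, mul_right_inj' hne, Complex.cos_mul_I, Complex.cos_mul_I]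
  rw [h1, Complex.cos_eq_cos_iff]
  constructor
  · rintro ⟨k, hk | hk⟩
    · refine ⟨-k, ?_⟩
      have h2 : ξ' = (2 * k * Real.pi + ξ * I) * (-I) := by
        rw [← hk, mul_assoc, mul_neg, I_mul_I, neg_neg, mul_one]
      rw [h2]
      push_cast
      linear_combination (-ξ) * I_sq
    · exfalso
      have h2 : ξ' = (2 * k * Real.pi - ξ * I) * (-I) := by
        rw [← hk, mul_assoc, mul_neg, I_mul_I, neg_neg, mul_one]
      have h3 : ξ' = -ξ + ((-(2 * k * Real.pi) : ℝ) : ℂ) * I := by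
        rw [h2]
        push_cast
        linear_combination ξ * I_sq
      have h4 : ξ'.re = -ξ.re := by
        rw [h3]
        simp
      linarith
  · rintro ⟨n, hn⟩
    refine ⟨-n, Or.inl ?_⟩
    rw [hn]
    push_cast
    linear_combination (2 * n * Real.pi) * I_sq

private theorem V0_continuous (p q : ℂ) : Continuous (jou p q) := by
  unfold jou
  exact continuous_const.add (continuous_const.mul Complex.continuous_cosh)

theorem isConnected_annulus {p q : ℂ} (hpq : p ≠ q) {s t : ℝ} (hs : ‖p - q‖ ≤ s) (hst : s < t) :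
    IsConnected {w : ℂ | s < ‖w - p‖ + ‖w - q‖ ∧ ‖w - p‖ + ‖w - q‖ < t} := by
  have hk : 0 < ‖p - q‖ := norm_pos_iff.2 (sub_ne_zero.2 hpq)
  set J : Set ℝ := {x | 0 < x ∧ s < ‖p - q‖ * Real.cosh x ∧ ‖p - q‖ * Real.cosh x < t} with hJ
  have hJc : J.OrdConnected := by
    refine ⟨fun x hx y hy z hz => ?_⟩
    have h0 : 0 < z := lt_of_lt_of_le hx.1 hz.1
    have h1 : Real.cosh x ≤ Real.cosh z := by
      rw [Real.cosh_le_cosh, abs_of_pos hx.1, abs_of_pos h0]; exact hz.1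
    have h2 : Real.cosh z ≤ Real.cosh y := by
      rw [Real.cosh_le_cosh, abs_of_pos hy.1, abs_of_pos h0]; exact hz.2
    refine ⟨h0, hx.2.1.trans_le (mul_le_mul_of_nonneg_left h1 hk.le), ?_⟩
    exact (mul_le_mul_of_nonneg_left h2 hk.le).trans_lt hy.2.2
  have himg : {w : ℂ | s < ‖w - p‖ + ‖w - q‖ ∧ ‖w - p‖ + ‖w - q‖ < t} =
      jou p q '' (Complex.re ⁻¹' J) := by
    ext w
    constructor
    · rintro ⟨h1, h2⟩
      obtain ⟨ξ, h3, rfl⟩ := exists_jou hpq w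
      rw [norm_jou] at h1 h2
      refine ⟨ξ, ⟨?_, h1, h2⟩, rfl⟩
      rcases h3.eq_or_lt with h | h
      · rw [← h, Real.cosh_zero, mul_one] at h1
        linarith
      · exact h
    · rintro ⟨ξ, ⟨_, h1, h2⟩, rfl⟩
      rw [mem_setOf_eq, norm_jou]
      exact ⟨h1, h2⟩
  rw [himg]
  refine IsConnected.image ⟨?_, ?_⟩ _ (V0_continuous p q).continuousOn
  · set r : ℝ := ((s + t) / 2 - ‖p - q‖) / 2 with hr
    have hr0 : 0 < r := by rw [hr]; linarith
    set w : ℂ := q + (r / ‖p - q‖ : ℝ) * (q - p) with hw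
    have h1 : ‖w - q‖ = r := by
      rw [hw, add_sub_cancel_left, norm_mul, Complex.norm_real, Real.norm_eq_abs,
        abs_of_pos (div_pos hr0 hk), norm_sub_rev q p, div_mul_cancel₀ _ hk.ne']
    have h2 : ‖w - p‖ = ‖p - q‖ + r := by
      have : w - p = ((1 + r / ‖p - q‖ : ℝ) : ℂ) * (q - p) := by
        rw [hw]; push_cast; ring
      rw [this, norm_mul, Complex.norm_real, Real.norm_eq_abs,
        abs_of_pos (by positivity), norm_sub_rev q p]
      field_simp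
    obtain ⟨ξ, h3, h4⟩ := exists_jou hpq w
    have h5 := norm_jou p q ξ
    rw [h4, h1, h2] at h5
    refine ⟨ξ, ?_, ?_, ?_⟩
    · rcases h3.eq_or_lt with h | h
      · rw [← h, Real.cosh_zero, mul_one] at h5
        linarith
      · exact h
    · rw [← h5, hr]; linarith
    · rw [← h5, hr]; linarith
  · have hc : Convex ℝ (Complex.re ⁻¹' J) := by
      have := hJc.convex.linear_preimage Complex.reLm
      simpa using this
    exact hc.isPreconnected

theorem mem_segment_iff {p q w : ℂ} : w ∈ segment ℝ p q ↔ ‖w - p‖ + ‖w - q‖ = ‖p - q‖ := by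
  rw [mem_segment_iff_wbtw, ← dist_add_dist_eq_iff, dist_eq_norm, dist_eq_norm, dist_eq_norm,
    norm_sub_rev p w]

theorem exists_ellipse_subset {p q : ℂ} {U : Set ℂ} (hU : IsOpen U) (h : segment ℝ p q ⊆ U) :
    ∃ t > ‖p - q‖, {w : ℂ | ‖w - p‖ + ‖w - q‖ ≤ t} ⊆ U := by
  have hf : Continuous (fun w : ℂ => ‖w - p‖ + ‖w - q‖) := by fun_prop
  set C : Set ℂ := {w : ℂ | ‖w - p‖ + ‖w - q‖ ≤ ‖p - q‖ + 1} \ U with hC
  have hCc : IsCompact C := by
    apply IsCompact.diff _ hU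
    apply (isCompact_closedBall p (‖p - q‖ + 1)).of_isClosed_subset
    · exact isClosed_le hf continuous_const
    · intro w hw
      rw [mem_closedBall, dist_eq_norm]
      have := norm_nonneg (w - q)
      have h1 : ‖w - p‖ + ‖w - q‖ ≤ ‖p - q‖ + 1 := hw
      linarith
  have htri : ∀ w : ℂ, ‖p - q‖ ≤ ‖w - p‖ + ‖w - q‖ := by
    intro w
    have := norm_sub_le (w - q) (w - p)
    have h2 : (w - q) - (w - p) = p - q := by ring
    rw [h2] at this
    linarith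
  rcases C.eq_empty_or_nonempty with hE | hE
  · refine ⟨‖p - q‖ + 1, by simp, fun w hw => ?_⟩
    by_contra hwU
    have : w ∈ C := ⟨hw, hwU⟩
    rw [hE] at this
    exact this
  · obtain ⟨w₀, hw₀, hmin⟩ := hCc.exists_isMinOn hE hf.continuousOn
    have h1 : ‖p - q‖ < ‖w₀ - p‖ + ‖w₀ - q‖ := by
      rcases (htri w₀).eq_or_lt with h2 | h2
      · exact absurd (h (mem_segment_iff.2 h2.symm)) hw₀.2
      · exact h2
    have h0 : ‖w₀ - p‖ + ‖w₀ - q‖ ≤ ‖p - q‖ + 1 := hw₀.1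
    refine ⟨(‖p - q‖ + (‖w₀ - p‖ + ‖w₀ - q‖)) / 2, by linarith, fun w hw => ?_⟩
    by_contra hwU
    have h2 : ‖w - p‖ + ‖w - q‖ ≤ (‖p - q‖ + (‖w₀ - p‖ + ‖w₀ - q‖)) / 2 := hw
    have h3 : w ∈ C := ⟨by rw [mem_setOf_eq]; linarith, hwU⟩
    have h4 : ‖w₀ - p‖ + ‖w₀ - q‖ ≤ ‖w - p‖ + ‖w - q‖ := hmin h3
    linarith

theorem seg_eq_segment (p : ℂ) (φ : ℝ) {ℓ : ℝ} (hℓ : 0 ≤ ℓ) :
    seg p φ ℓ = segment ℝ p (p + ℓ * exp (φ * I)) := by
  rw [segment_eq_image']
  unfold seg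
  ext w
  constructor
  · rintro ⟨t, ht, rfl⟩
    rcases hℓ.eq_or_lt with h | h
    · have h0 : t = 0 := le_antisymm (by rw [← h] at ht; exact ht.2) ht.1
      refine ⟨0, ⟨le_rfl, zero_le_one⟩, ?_⟩
      simp [h0]
    · refine ⟨t / ℓ, ⟨div_nonneg ht.1 hℓ, (div_le_one h).2 ht.2⟩, ?_⟩
      simp only [add_sub_cancel_left, real_smul]
      have hne : (ℓ : ℂ) ≠ 0 := by exact_mod_cast h.ne'
      push_cast
      field_simp
  · rintro ⟨θ, hθ, rfl⟩
    refine ⟨θ * ℓ, ⟨mul_nonneg hθ.1 hℓ, ?_⟩, ?_⟩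
    · nlinarith [hθ.2]
    · simp only [add_sub_cancel_left, real_smul]
      push_cast
      ring

end RSM2
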