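import Pool.Agent.RSM2.G1
import Pool.Agent.RSM2.V0

/-!
# RSM2 module G7: elliptic neighbourhoods of the hole `B`

The slit of the hole `B` is `slit p₀ 0 ℓ₀ = segment p₀ (p₀ + ℓ₀)`; `el p₀ ℓ₀ w` is the sum of the distances of
`w` from its end points.  `tubeO t`, `tubeC t`: `B` together with the preimages under `g` of the
open, closed ellipse.

PROOFS.
`exists_tube`: the sets `un (c \ {(B, θ₀)})` and `⋃ k ∈ c'', Disjoint k.1 B, k.1` are compact and disjoint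
from `B` (`Valid.disj`), `B ⊆ tsupport χ ⊆ ball 0 r` (`one`), so there is an open `N ⊇ B`,
`N ⊆ ball 0 r`, disjoint from these sets, with `χ = 1` on `N`.  By `ofS` all `w` in a neighbourhood of the
slit `S₀ = S (B, θ₀)` have: `z ∉ un c`, `g z = w` imply `z ∈ N`; and `w` is in no other slit `S k`, `k ∈ c` (they
are compact and disjoint from `S₀`).  `exists_ellipse_subset` (`slit p₀ 0 ℓ₀ = segment`) gives `t₁` such that this
holds for all `w` with `el w < t₁`.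
`img`: `w` is in no slit, so `w ∈ g '' (un c)ᶜ` (`SMap.image`).
`loc`: `z ∈ N`; `z ∉ un c` implies `z ∉ B`, so `z` is in no hole of `c''` contained in `B`, and in no
other hole of `c''` (`io`).
`isOpen`: near a point of `(un c)ᶜ` (open) by continuity of `g`; near `B`: by `toS` there is an
open `O ⊇ B` with `el (g z) < t` on `O \ un c` (`{el < t}` is an open neighbourhood of `S₀`, where
`el = ℓ₀ < t`), and `O ∩ N ⊆ tubeO t` as `N ∩ un c ⊆ B`.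
`isCompact`: it is contained in `ball 0 r`.  Closed: let `z n ∉ un c`, `el (g (z n)) ≤ t`, `z n → z`.  If
`z ∉ un c`, then `el (g z) ≤ t` by continuity.  If `z ∈ k.1`, `k ∈ c`, then by `toS` the points `g (z n)`
(which are bounded) have a limit point `w ∈ S k` with `el w ≤ t < t₁`; by `img` and `SMap.image`
`w ∈ slit p₀ 0 ℓ₀ = S (B, θ₀)`, so `k = (B, θ₀)` by `SMap.disj` and `z ∈ B`.
`frontier_tube`: `frontier (tubeC t)ᶜ = frontier (tubeC t) ⊆ tubeC t \ interior (tubeC t)`, and `tubeO t` is open,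
contained in `tubeC t`.
`connected_tube`: `c₀ = insert (B, θ₀) (c''.filter (Disjoint ·.1 B))` is `Valid`, so `Ω = (un c₀)ᶜ` is
connected and open (`Valid.isConnected`).  Use `isConnected_diff` with
`C = {z ∉ un c | el (g z) ≤ t}`, `N = {z ∉ un c | el (g z) < t₁}`: `N` is open, `N ⊆ Ω` by `loc`;
`Ω \ C = (tubeC t)ᶜ ∩ (un c'')ᶜ` (a hole of `c''` not in `c₀` is contained in `B`), which is
open; `N \ C = {z ∉ un c | t < el (g z) < t₁}` is the image of the annulus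
`{t < el w < t₁}` (`isConnected_annulus`; `slit p₀ 0 ℓ₀` is disjoint from it, so it is contained in
`g '' (un c)ᶜ` by `img`) under the inverse of `g`, which is continuous (`j6_inv`).
-/

open Complex Set Metric Filter Topology MeasureTheory

namespace RSM2

/-- The sum of the distances from the end points of `slit p₀ 0 ℓ₀`. -/
noncomputable def el (p₀ : ℂ) (ℓ₀ : ℝ) (w : ℂ) : ℝ := ‖w - p₀‖ + ‖w - (p₀ + ℓ₀)‖

def tubeO (B : Set ℂ) (c : Cfg) (g : ℂ → ℂ) (p₀ : ℂ) (ℓ₀ t : ℝ) : Set ℂ :=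
  B ∪ {z | z ∉ un c ∧ el p₀ ℓ₀ (g z) < t}

def tubeC (B : Set ℂ) (c : Cfg) (g : ℂ → ℂ) (p₀ : ℂ) (ℓ₀ t : ℝ) : Set ℂ :=
  B ∪ {z | z ∉ un c ∧ el p₀ ℓ₀ (g z) ≤ t}

private theorem g7_norm (p₀ : ℂ) {ℓ₀ : ℝ} (hℓ₀ : 0 < ℓ₀) : ‖p₀ - (p₀ + (ℓ₀ : ℂ))‖ = ℓ₀ := by
  rw [sub_add_cancel_left, norm_neg, Complex.norm_real, Real.norm_eq_abs, abs_of_pos hℓ₀]

private theorem g7_slit (p₀ : ℂ) {ℓ₀ : ℝ} (hℓ₀ : 0 < ℓ₀) :
    slit p₀ 0 ℓ₀ = segment ℝ p₀ (p₀ + ℓ₀) := by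
  have h1 := seg_eq_segment p₀ 0 hℓ₀.le
  have h2 : seg p₀ 0 ℓ₀ = slit p₀ 0 ℓ₀ := by
    unfold seg slit
    simp
  rw [← h2, h1]
  simp

theorem slit_eq_el (p₀ : ℂ) {ℓ₀ : ℝ} (hℓ₀ : 0 < ℓ₀) : slit p₀ 0 ℓ₀ = {w | el p₀ ℓ₀ w = ℓ₀} := by
  ext w
  rw [g7_slit p₀ hℓ₀, mem_segment_iff, g7_norm p₀ hℓ₀]
  rfl

theorem el_jou (p₀ ξ : ℂ) {ℓ₀ : ℝ} (hℓ₀ : 0 < ℓ₀) :
    el p₀ ℓ₀ (jou p₀ (p₀ + ℓ₀) ξ) = ℓ₀ * Real.cosh ξ.re := by
  unfold el
  rw [norm_jou, g7_norm p₀ hℓ₀]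

structure Tube (r : ℝ) (χ : ℂ → ℝ) (B : Set ℂ) (c c'' : Cfg) (g : ℂ → ℂ) (p₀ : ℂ) (ℓ₀ t₁ : ℝ) :
    Prop where
  lt : ℓ₀ < t₁
  img : ∀ w, w ∉ slit p₀ 0 ℓ₀ → el p₀ ℓ₀ w < t₁ → ∃ z, z ∉ un c ∧ g z = w
  loc : ∀ z, z ∉ un c → el p₀ ℓ₀ (g z) < t₁ → z ∉ un c'' ∧ z ∈ ball (0 : ℂ) r ∧ χ z = 1
  isOpen : ∀ t, ℓ₀ < t → t ≤ t₁ → IsOpen (tubeO B c g p₀ ℓ₀ t)
  isCompact : ∀ t, ℓ₀ ≤ t → t < t₁ → IsCompact (tubeC B c g p₀ ℓ₀ t)

variable {θ₀ δ M r : ℝ} {χ : ℂ → ℝ} {B : Set ℂ} {c c'' : Cfg} {g h : ℂ → ℂ}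
  {S S'' : Set ℂ × ℝ → Set ℂ} {p₀ : ℂ} {ℓ₀ t₁ : ℝ}

theorem LocData.exists_tube (hd : LocData θ₀ δ M r χ B c c'' g h S S'') (hℓ₀ : 0 < ℓ₀)
    (hS₀ : S (B, θ₀) = slit p₀ 0 ℓ₀) : ∃ t₁, Tube r χ B c c'' g p₀ ℓ₀ t₁ := by
  classical
  -- the two compact sets
  have hBc : IsCompact B := hd.vc.compact _ hd.hB
  have hv1 : Valid (c.erase (B, θ₀)) := hd.vc.mono (Finset.erase_subset _ _)
  have hv2 : Valid (c''.filter fun k => Disjoint k.1 B) := hd.vc''.mono (Finset.filter_subset _ _)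
  have hd1 : Disjoint B (un (c.erase (B, θ₀))) := by
    rw [Set.disjoint_left]
    intro z hz hz'
    obtain ⟨k, hk, hzk⟩ := mem_un.1 hz'
    rw [Finset.mem_erase] at hk
    exact Set.disjoint_left.1 (hd.vc.disj k hk.2 _ hd.hB hk.1) hzk hz
  have hd2 : Disjoint B (un (c''.filter fun k => Disjoint k.1 B)) := by
    rw [Set.disjoint_left]
    intro z hz hz'
    obtain ⟨k, hk, hzk⟩ := mem_un.1 hz'
    rw [Finset.mem_filter] at hk
    exact Set.disjoint_left.1 hk.2 hzk hz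
  obtain ⟨O₁, hO₁, hBO₁, hone⟩ := mem_nhdsSet_iff_exists.1 hd.one
  have hBr : B ⊆ ball 0 r := by
    intro z hz
    apply hd.supp
    apply subset_tsupport
    rw [Function.mem_support, show χ z = 1 from hone (hBO₁ hz)]
    exact one_ne_zero
  obtain ⟨N, hN, hNO, hBN, hNr, hNc, hNc''⟩ : ∃ N : Set ℂ, IsOpen N ∧ N ⊆ O₁ ∧ B ⊆ N ∧
      N ⊆ ball 0 r ∧ N ∩ un c ⊆ B ∧ N ∩ un c'' ⊆ B := by
    refine ⟨O₁ ∩ ball 0 r ∩ (un (c.erase (B, θ₀)))ᶜ ∩ (un (c''.filter fun k => Disjoint k.1 B))ᶜ,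
      ((hO₁.inter isOpen_ball).inter hv1.isOpen).inter hv2.isOpen, fun z hz => hz.1.1.1,
      fun z hz => ⟨⟨⟨hBO₁ hz, hBr hz⟩, Set.disjoint_left.1 hd1 hz⟩, Set.disjoint_left.1 hd2 hz⟩,
      fun z hz => hz.1.1.2, ?_, ?_⟩
    · rintro z ⟨hz, hzu⟩
      obtain ⟨k, hk, hzk⟩ := mem_un.1 hzu
      by_cases hkb : k = (B, θ₀)
      · rw [hkb] at hzk
        exact hzk
      · exact absurd (mem_un.2 ⟨k, Finset.mem_erase.2 ⟨hkb, hk⟩, hzk⟩) hz.1.2
    · rintro z ⟨hz, hzu⟩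
      obtain ⟨k, hk, hzk⟩ := mem_un.1 hzu
      rcases hd.io k hk with h1 | h1
      · exact interior_subset (h1 hzk)
      · exact absurd (mem_un.2 ⟨k, Finset.mem_filter.2 ⟨hk, h1⟩, hzk⟩) hz.2
  -- the other slits
  have hTc : IsCompact (⋃ k ∈ c.erase (B, θ₀), S k) := by
    refine (c.erase (B, θ₀)).isCompact_biUnion fun k hk => ?_
    obtain ⟨p, ℓ, -, hS⟩ := hd.sg.isSeg k (Finset.mem_of_mem_erase hk)
    rw [hS]
    unfold seg
    refine isCompact_Icc.image ?_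
    fun_prop
  have hTd : S (B, θ₀) ⊆ (⋃ k ∈ c.erase (B, θ₀), S k)ᶜ := by
    intro w hw hw'
    simp only [mem_iUnion] at hw'
    obtain ⟨k, hk, hwk⟩ := hw'
    rw [Finset.mem_erase] at hk
    exact Set.disjoint_left.1 (hd.sg.disj k hk.2 _ hd.hB hk.1) hwk hw
  have hV := (hd.sg.ofS _ hd.hB N (hN.mem_nhdsSet.2 hBN)).and
    (hTc.isClosed.isOpen_compl.mem_nhdsSet.2 hTd)
  obtain ⟨V, hVo, hSV, hVp⟩ := mem_nhdsSet_iff_exists.1 hV
  have hsegV : segment ℝ p₀ (p₀ + ℓ₀) ⊆ V := by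
    rw [← g7_slit p₀ hℓ₀, ← hS₀]
    exact hSV
  obtain ⟨t₁, ht₁, hsub⟩ := exists_ellipse_subset hVo hsegV
  rw [g7_norm p₀ hℓ₀] at ht₁
  have hsub' : ∀ w, el p₀ ℓ₀ w ≤ t₁ → w ∈ V := fun w hw => hsub hw
  have hcel : Continuous (el p₀ ℓ₀) := by
    unfold el
    fun_prop
  have hgc : ContinuousOn g (un c)ᶜ := hd.sg.diff.continuousOn
  have hfc : ContinuousOn (fun z => el p₀ ℓ₀ (g z)) (un c)ᶜ := hcel.comp_continuousOn hgc
  have hBu : B ⊆ un c := subset_un (h := (B, θ₀)) hd.hB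
  have hloc : ∀ z, z ∉ un c → el p₀ ℓ₀ (g z) < t₁ → z ∈ N := fun z hz hz' =>
    (hVp (hsub' _ hz'.le)).1 z hz rfl
  refine ⟨t₁, ht₁, ?_, ?_, ?_, ?_⟩
  · intro w hw hw'
    have h1 : w ∈ (⋃ h ∈ c, S h)ᶜ := by
      intro h2
      simp only [mem_iUnion] at h2
      obtain ⟨k, hk, hwk⟩ := h2
      by_cases hkb : k = (B, θ₀)
      · rw [hkb, hS₀] at hwk
        exact hw hwk
      · refine (hVp (hsub' _ hw'.le)).2 ?_
        simp only [mem_iUnion]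
        exact ⟨k, Finset.mem_erase.2 ⟨hkb, hk⟩, hwk⟩
    rw [← hd.sg.image] at h1
    obtain ⟨z, hz, rfl⟩ := h1
    exact ⟨z, hz, rfl⟩
  · intro z hz hz'
    have h1 := hloc z hz hz'
    exact ⟨fun h2 => hz (hBu (hNc'' ⟨h1, h2⟩)), hNr h1, hone (hNO h1)⟩
  · intro t ht ht'
    have hA : IsOpen {z | z ∉ un c ∧ el p₀ ℓ₀ (g z) < t} :=
      hfc.isOpen_inter_preimage hd.vc.isOpen (isOpen_Iio (a := t))
    have hnb : {w | el p₀ ℓ₀ w < t} ∈ 𝓝ˢ (S (B, θ₀)) := by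
      refine (isOpen_lt hcel continuous_const).mem_nhdsSet.2 ?_
      rw [hS₀, slit_eq_el p₀ hℓ₀]
      intro w hw
      rw [Set.mem_ofPred_eq] at hw ⊢
      rw [hw]
      exact ht
    obtain ⟨O, hO, hBO, hOp⟩ := eventually_nearIn.1 ((hd.sg.toS _ hd.hB).eventually hnb)
    have heq : tubeO B c g p₀ ℓ₀ t = {z | z ∉ un c ∧ el p₀ ℓ₀ (g z) < t} ∪ (O ∩ N) := by
      ext z
      constructor
      · rintro (hz | hz)
        · exact Or.inr ⟨hBO hz, hBN hz⟩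
        · exact Or.inl hz
      · rintro (hz | hz)
        · exact Or.inr hz
        · by_cases hzu : z ∈ un c
          · exact Or.inl (hNc ⟨hz.2, hzu⟩)
          · exact Or.inr ⟨hzu, hOp z ⟨hz.1, hzu⟩⟩
    rw [heq]
    exact hA.union (hO.inter hN)
  · intro t ht ht'
    refine Metric.isCompact_of_isClosed_isBounded ?_ ?_
    · rw [← isOpen_compl_iff, isOpen_iff_mem_nhds]
      intro z hz
      have hzB : z ∉ B := fun h => hz (Or.inl h)
      by_cases hzu : z ∈ un c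
      · obtain ⟨k, hk, hzk⟩ := mem_un.1 hzu
        have hkb : k ≠ (B, θ₀) := by
          intro h
          rw [h] at hzk
          exact hzB hzk
        have hnb : {w | t < el p₀ ℓ₀ w} ∈ 𝓝ˢ (S k) := by
          refine (isOpen_lt continuous_const hcel).mem_nhdsSet.2 ?_
          intro w hw
          by_contra hcon
          have h1 : el p₀ ℓ₀ w ≤ t := not_lt.1 hcon
          refine (hVp (hsub' _ (h1.trans ht'.le))).2 ?_
          simp only [mem_iUnion]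
          exact ⟨k, Finset.mem_erase.2 ⟨hkb, hk⟩, hw⟩
        obtain ⟨O, hO, hkO, hOp⟩ := eventually_nearIn.1 ((hd.sg.toS _ hk).eventually hnb)
        refine mem_of_superset ((hO.inter hBc.isClosed.isOpen_compl).mem_nhds ⟨hkO hzk, hzB⟩) ?_
        rintro y ⟨hy1, hy2⟩ (hy | hy)
        · exact hy2 hy
        · exact absurd (hOp y ⟨hy1, hy.1⟩) (not_lt.2 hy.2)
      · have hA : IsOpen ((un c)ᶜ ∩ (fun z => el p₀ ℓ₀ (g z)) ⁻¹' Ioi t) :=
          hfc.isOpen_inter_preimage hd.vc.isOpen isOpen_Ioi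
        have hzt : t < el p₀ ℓ₀ (g z) := by
          by_contra hcon
          exact hz (Or.inr ⟨hzu, not_lt.1 hcon⟩)
        refine mem_of_superset (hA.mem_nhds ⟨hzu, hzt⟩) ?_
        rintro y ⟨hy1, hy2⟩ (hy | hy)
        · exact hy1 (hBu hy)
        · exact absurd hy2 (not_lt.2 hy.2)
    · refine (isBounded_ball (x := (0 : ℂ)) (r := r)).subset ?_
      rintro z (hz | hz)
      · exact hBr hz
      · exact hNr (hloc z hz.1 (hz.2.trans_lt ht'))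

theorem LocData.frontier_tube (hd : LocData θ₀ δ M r χ B c c'' g h S S'') (hℓ₀ : 0 < ℓ₀)
    (hT : Tube r χ B c c'' g p₀ ℓ₀ t₁) {t : ℝ} (ht : ℓ₀ < t) (ht1 : t < t₁) :
    frontier (tubeC B c g p₀ ℓ₀ t)ᶜ ⊆ {z | z ∉ un c ∧ el p₀ ℓ₀ (g z) = t} := by
  rw [frontier_compl]
  intro z hz
  rw [frontier, (hT.isCompact t ht.le ht1).isClosed.closure_eq] at hz
  have hsub : tubeO B c g p₀ ℓ₀ t ⊆ tubeC B c g p₀ ℓ₀ t := by
    rintro y (hy | hy)
    · exact Or.inl hy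
    · exact Or.inr ⟨hy.1, hy.2.le⟩
  have hint : tubeO B c g p₀ ℓ₀ t ⊆ interior (tubeC B c g p₀ ℓ₀ t) :=
    interior_maximal hsub (hT.isOpen t ht ht1.le)
  have hz2 : z ∉ tubeO B c g p₀ ℓ₀ t := fun h => hz.2 (hint h)
  rcases hz.1 with h1 | h1
  · exact absurd (Or.inl h1) hz2
  · refine ⟨h1.1, le_antisymm h1.2 ?_⟩
    by_contra hcon
    exact hz2 (Or.inr ⟨h1.1, not_le.1 hcon⟩)

theorem LocData.connected_tube (hd : LocData θ₀ δ M r χ B c c'' g h S S'') (hℓ₀ : 0 < ℓ₀)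
    (hS₀ : S (B, θ₀) = slit p₀ 0 ℓ₀) (hT : Tube r χ B c c'' g p₀ ℓ₀ t₁) {t : ℝ} (ht : ℓ₀ < t)
    (ht1 : t < t₁) : IsConnected ((tubeC B c g p₀ ℓ₀ t)ᶜ \ un c'') := by
  classical
  have hBu : B ⊆ un c := subset_un (h := (B, θ₀)) hd.hB
  have hcel : Continuous (el p₀ ℓ₀) := by
    unfold el
    fun_prop
  have hgc : ContinuousOn g (un c)ᶜ := hd.sg.diff.continuousOn
  have hfc : ContinuousOn (fun z => el p₀ ℓ₀ (g z)) (un c)ᶜ := hcel.comp_continuousOn hgc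
  -- the auxiliary configuration
  set c₀ : Cfg := insert (B, θ₀) (c''.filter fun k => Disjoint k.1 B) with hc₀
  have hmem : ∀ k ∈ c₀, k = (B, θ₀) ∨ (k ∈ c'' ∧ Disjoint k.1 B) := by
    intro k hk
    rw [hc₀, Finset.mem_insert, Finset.mem_filter] at hk
    exact hk
  have hvc₀ : Valid c₀ := by
    refine ⟨?_, ?_, ?_, ?_, ?_⟩
    · intro k hk
      rcases hmem k hk with rfl | h1
      · exact hd.vc.compact _ hd.hB
      · exact hd.vc''.compact k h1.1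
    · intro k hk
      rcases hmem k hk with rfl | h1
      · exact hd.vc.conn _ hd.hB
      · exact hd.vc''.conn k h1.1
    · intro k hk
      rcases hmem k hk with rfl | h1
      · exact hd.vc.nontriv _ hd.hB
      · exact hd.vc''.nontriv k h1.1
    · intro k hk
      rcases hmem k hk with rfl | h1
      · exact hd.vc.compl _ hd.hB
      · exact hd.vc''.compl k h1.1
    · intro k hk k' hk' hne
      rcases hmem k hk with rfl | h1
      · rcases hmem k' hk' with rfl | h2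
        · exact absurd rfl hne
        · exact h2.2.symm
      · rcases hmem k' hk' with rfl | h2
        · exact h1.2
        · exact hd.vc''.disj k h1.1 k' h2.1 hne
  have hun₀ : ∀ z, z ∈ un c₀ ↔ z ∈ B ∨ z ∈ un c'' := by
    intro z
    constructor
    · intro hz
      obtain ⟨k, hk, hzk⟩ := mem_un.1 hz
      rcases hmem k hk with rfl | h1
      · exact Or.inl hzk
      · exact Or.inr (mem_un.2 ⟨k, h1.1, hzk⟩)
    · rintro (hz | hz)
      · exact mem_un.2 ⟨(B, θ₀), by rw [hc₀]; exact Finset.mem_insert_self _ _, hz⟩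
      · obtain ⟨k, hk, hzk⟩ := mem_un.1 hz
        rcases hd.io k hk with h1 | h1
        · exact mem_un.2 ⟨(B, θ₀), by rw [hc₀]; exact Finset.mem_insert_self _ _,
            interior_subset (h1 hzk)⟩
        · exact mem_un.2 ⟨k, by
            rw [hc₀]; exact Finset.mem_insert_of_mem (Finset.mem_filter.2 ⟨hk, h1⟩), hzk⟩
  set C : Set ℂ := {z | z ∉ un c ∧ el p₀ ℓ₀ (g z) ≤ t} with hC
  set N : Set ℂ := {z | z ∉ un c ∧ el p₀ ℓ₀ (g z) < t₁} with hN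
  have hNo : IsOpen N := hfc.isOpen_inter_preimage hd.vc.isOpen (isOpen_Iio (a := t₁))
  have hCN : C ⊆ N := fun z hz => ⟨hz.1, hz.2.trans_lt ht1⟩
  have hNΩ : N ⊆ (un c₀)ᶜ := by
    intro z hz hz'
    rcases (hun₀ z).1 hz' with h1 | h1
    · exact hz.1 (hBu h1)
    · exact (hT.loc z hz.1 hz.2).1 h1
  have heq : (un c₀)ᶜ \ C = (tubeC B c g p₀ ℓ₀ t)ᶜ \ un c'' := by
    ext z
    constructor
    · rintro ⟨h1, h2⟩
      have h3 : ¬ (z ∈ B ∨ z ∈ un c'') := fun h => h1 ((hun₀ z).2 h)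
      push Not at h3
      refine ⟨?_, h3.2⟩
      rintro (h4 | h4)
      · exact h3.1 h4
      · exact h2 h4
    · rintro ⟨h1, h2⟩
      refine ⟨fun h3 => ?_, fun h3 => h1 (Or.inr h3)⟩
      rcases (hun₀ z).1 h3 with h4 | h4
      · exact h1 (Or.inl h4)
      · exact h2 h4
  have hop : IsOpen ((un c₀)ᶜ \ C) := by
    rw [heq, Set.sdiff_eq]
    exact (hT.isCompact t ht.le ht1).isClosed.isOpen_compl.inter hd.vc''.isOpen
  have hpq : p₀ ≠ p₀ + ℓ₀ := by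
    intro h
    have h1 : (ℓ₀ : ℂ) = 0 := by
      have := congrArg (fun x => x - p₀) h
      simpa using this.symm
    exact hℓ₀.ne' (by exact_mod_cast h1)
  have hann : IsConnected {w : ℂ | t < el p₀ ℓ₀ w ∧ el p₀ ℓ₀ w < t₁} := by
    have := isConnected_annulus hpq (s := t) (t := t₁) (by rw [g7_norm p₀ hℓ₀]; exact ht.le) ht1
    exact this
  have himg : N \ C = Function.invFunOn g (un c)ᶜ '' {w : ℂ | t < el p₀ ℓ₀ w ∧ el p₀ ℓ₀ w < t₁} := by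
    ext z
    constructor
    · rintro ⟨h1, h2⟩
      refine ⟨g z, ⟨?_, h1.2⟩, hd.sg.inj.leftInvOn_invFunOn h1.1⟩
      by_contra hcon
      exact h2 ⟨h1.1, not_lt.1 hcon⟩
    · rintro ⟨w, ⟨hw1, hw2⟩, rfl⟩
      have hw : w ∉ slit p₀ 0 ℓ₀ := by
        rw [slit_eq_el p₀ hℓ₀]
        intro h
        have h' : el p₀ ℓ₀ w = ℓ₀ := h
        linarith
      obtain ⟨z, hz, rfl⟩ := hT.img w hw hw2
      rw [show Function.invFunOn g (un c)ᶜ (g z) = z from hd.sg.inj.leftInvOn_invFunOn hz]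
      exact ⟨⟨hz, hw2⟩, fun h => absurd h.2 (not_le.2 hw1)⟩
  have hNC : IsConnected (N \ C) := by
    rw [himg]
    refine hann.image _ ?_
    refine (j6_inv hd.vc.isOpen hd.sg.diff hd.sg.inj).continuousOn.mono ?_
    rintro w ⟨hw1, hw2⟩
    have hw : w ∉ slit p₀ 0 ℓ₀ := by
      rw [slit_eq_el p₀ hℓ₀]
      intro h
      have h' : el p₀ ℓ₀ w = ℓ₀ := h
      linarith
    obtain ⟨z, hz, rfl⟩ := hT.img w hw hw2
    exact ⟨z, hz, rfl⟩
  rw [← heq]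
  exact isConnected_diff hvc₀.isConnected hvc₀.isOpen hNo hCN hNΩ hop hNC

end RSM2
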