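import Pool.Agent.RSM2.G7
import Pool.Agent.RSM2.V5
import Pool.Agent.RSM2.BW0

/-!
# RSM2 module G8: the compact set `H` in the `h`-plane and its collar

`Ψ ξ = h (z)` where `g z = jou p₀ (p₀ + ℓ₀) ξ`, and `H` is the complement of the filled image
`fillImg c'' h S'' W`, `W = (tubeC t)ᶜ`, `t = ℓ₀ cosh s`.

PROOF.  Let `q₀ = p₀ + ℓ₀`, `Tube` from `exists_tube`, `s₁ > 0` with `ℓ₀ cosh s₁ ≤ t₁`, `0 < s < s₁`, `s ≤ σ`.
`z ξ = Function.invFunOn g (un c)ᶜ (jou p₀ q₀ ξ)`, `Ψ ξ = h (z ξ)`.  For `0 < Re ξ < s₁` the point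
`jou p₀ q₀ ξ` has `el = ℓ₀ cosh (Re ξ) ∈ (ℓ₀, t₁)` (`el_jou`), so it is not on the slit (`slit_eq_el`) and by
`img`, `loc`: `z ξ ∉ un c ∪ un c''`, `g (z ξ) = jou p₀ q₀ ξ`, `χ (z ξ) = 1`, `z ξ ∈ ball 0 r`.
`W = (tubeC t)ᶜ` is open, `frontier W ⊆ {z ∉ un c | el (g z) = t}` is disjoint from `un c''` (`loc`).  So by V5
`F = fillImg c'' h S'' W` is open, `closure F ⊆ F ∪ h '' frontier W`, and preconnected
(`connected_tube`).  As `h '' (un c'')ᶜ` and the `S'' k` form a partition of the plane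
(`SMap.image`, `SMap.disj`, injectivity) `H = Fᶜ` is
`h '' (tubeC t \ un c'') ∪ ⋃ k ∈ c'' with k.1 ⊄ W, S'' k`; a hole `k ∈ c''` is contained in `W` iff it is
disjoint from `B` (`io`, `loc`; a hole inside `interior B` is nonempty and so not in `W`).
`H ⊆ closedBall 0 M`: `tubeC t ⊆ ball 0 r` (`B ⊆ tsupport χ`, `loc`) and `hd.bh`; `LocData.slit_ball` for the
holes in `B` (`χ = 1` near `B`).  So `H` is compact, `Hᶜ = F` is connected (nonempty as `H` is bounded).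
`diff`: `j6_inv`, `jou p₀ q₀ ·` is entire.  `period`: `cosh` has the period `2πi`.  `inj`: `h` is injective
off `un c''`, so `z ξ = z ξ'`, `jou p₀ q₀ ξ = jou p₀ q₀ ξ'`, `jou_eq_iff`.
`fr`: `H` is closed, so `frontier H = frontier F ⊆ closure F \ F ⊆ h '' frontier W`; if `z ∈ frontier W`, then
`el (g z) = ℓ₀ cosh s`; by `exists_jou` `g z = jou p₀ q₀ ξ` with `Re ξ ≥ 0`, so `Re ξ = s` (`el_jou`, `cosh` is
injective on `[0, ∞)`), `ξ = s + i t'`, and `z = z ξ` by injectivity of `g`, `h z = Ψ (s + i t')`.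
`sub`, `inn`: `Re ξ ≤ s` gives `z ξ ∈ tubeC t \ un c''`, `Ψ ξ ∈ H`.  `out`: `s < Re ξ < s₁` gives
`z ξ ∈ W \ un c''`, `Ψ ξ ∈ F`.
-/

open Complex Set Metric Filter Topology MeasureTheory

namespace RSM2

theorem LocData.exists_collar {θ₀ δ M r : ℝ} {χ : ℂ → ℝ} {B : Set ℂ} {c c'' : Cfg} {g h : ℂ → ℂ}
    {S S'' : Set ℂ × ℝ → Set ℂ} {p₀ : ℂ} {ℓ₀ : ℝ}
    (hd : LocData θ₀ δ M r χ B c c'' g h S S'') (hℓ₀ : 0 < ℓ₀)
    (hS₀ : S (B, θ₀) = slit p₀ 0 ℓ₀) {σ : ℝ} (hσ : 0 < σ) :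
    ∃ (H : Set ℂ) (Ψ : ℂ → ℂ) (s s₁ : ℝ), 0 < s ∧ s ≤ σ ∧ Collar H Ψ 0 s s₁ ∧
      H ⊆ closedBall 0 M ∧ (∀ z ∈ B, z ∉ un c'' → h z ∈ H) ∧
      (∀ k ∈ c'', k.1 ⊆ interior B → S'' k ⊆ H) ∧
      (∀ k ∈ c'', Disjoint k.1 B → Disjoint (S'' k) H) ∧
      ∀ ξ : ℂ, 0 < ξ.re → ξ.re < s₁ → ∃ z, z ∉ un c ∪ un c'' ∧ χ z = 1 ∧
        g z = jou p₀ (p₀ + ℓ₀) ξ ∧ Ψ ξ = h z := by
  obtain ⟨t₁, hT⟩ := hd.exists_tube hℓ₀ hS₀
  -- the numbers
  obtain ⟨s₁, hs₁, hs₁t⟩ : ∃ s₁ : ℝ, 0 < s₁ ∧ ℓ₀ * Real.cosh s₁ ≤ t₁ := by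
    have h1 : ContinuousAt (fun x : ℝ => ℓ₀ * Real.cosh x) 0 :=
      (continuous_const.mul Real.continuous_cosh).continuousAt
    have h2 : ∀ᶠ x in 𝓝 (0 : ℝ), ℓ₀ * Real.cosh x < t₁ := by
      refine h1.eventually_lt continuousAt_const ?_
      simp only [Real.cosh_zero, mul_one]
      exact hT.lt
    obtain ⟨ε, hε, hball⟩ := Metric.eventually_nhds_iff_ball.1 h2
    refine ⟨ε / 2, half_pos hε, (hball _ ?_).le⟩
    rw [mem_ball_zero_iff, Real.norm_of_nonneg (half_pos hε).le]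
    exact half_lt_self hε
  obtain ⟨s, hs0, hsσ, hs1⟩ : ∃ s : ℝ, 0 < s ∧ s ≤ σ ∧ s < s₁ :=
    ⟨min σ (s₁ / 2), lt_min hσ (half_pos hs₁), min_le_left _ _,
      (min_le_right _ _).trans_lt (half_lt_self hs₁)⟩
  obtain ⟨t, ht⟩ : ∃ t : ℝ, t = ℓ₀ * Real.cosh s := ⟨_, rfl⟩
  have hcosh : ∀ x y : ℝ, 0 ≤ x → x < y → ℓ₀ * Real.cosh x < ℓ₀ * Real.cosh y := by
    intro x y hx hxy
    refine mul_lt_mul_of_pos_left ?_ hℓ₀
    rw [Real.cosh_lt_cosh, abs_of_nonneg hx, abs_of_pos (hx.trans_lt hxy)]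
    exact hxy
  have htl : ℓ₀ < t := by
    have := hcosh 0 s le_rfl hs0
    rw [Real.cosh_zero, mul_one] at this
    rw [ht]
    exact this
  have htt : t < t₁ := by
    rw [ht]
    exact (hcosh s s₁ hs0.le hs1).trans_le hs₁t
  have hpq : p₀ ≠ p₀ + (ℓ₀ : ℂ) := by
    intro he
    have h1 : (ℓ₀ : ℂ) = 0 := by
      rw [left_eq_add] at he
      exact he
    exact hℓ₀.ne' (by exact_mod_cast h1)
  have hBc : B ⊆ un c := subset_un hd.hB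
  -- the tube
  obtain ⟨W, hW⟩ : ∃ W : Set ℂ, W = (tubeC B c g p₀ ℓ₀ t)ᶜ := ⟨_, rfl⟩
  have hWo : IsOpen W := by
    rw [hW]
    exact (hT.isCompact t htl.le htt).isClosed.isOpen_compl
  have hfr : frontier W ⊆ {z | z ∉ un c ∧ el p₀ ℓ₀ (g z) = t} := by
    rw [hW]
    exact hd.frontier_tube hℓ₀ hT htl htt
  have hfrd : Disjoint (frontier W) (un c'') := by
    rw [disjoint_left]
    intro z hz
    obtain ⟨h1, h2⟩ := hfr hz
    exact (hT.loc z h1 (by rw [h2]; exact htt)).1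
  have hBW : ∀ z ∈ B, z ∉ W := by
    intro z hz hzW
    rw [hW] at hzW
    exact hzW (Or.inl hz)
  have hballB : ∀ z ∈ B, χ z = 1 := fun z hz =>
    (hd.one.filter_mono (nhds_le_nhdsSet hz)).self_of_nhds
  have htsB : ∀ z ∈ B, z ∈ tsupport χ := by
    intro z hz
    apply subset_tsupport
    rw [Function.mem_support, hballB z hz]
    exact one_ne_zero
  have hholeW : ∀ k ∈ c'', Disjoint k.1 B → k.1 ⊆ W := by
    intro k hk hkB z hz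
    rw [hW]
    rintro (h1 | ⟨h1, h2⟩)
    · exact disjoint_left.1 hkB hz h1
    · exact (hT.loc z h1 (lt_of_le_of_lt h2 htt)).1 (subset_un hk hz)
  have hholeB : ∀ k ∈ c'', k.1 ⊆ interior B → ¬ k.1 ⊆ W := by
    intro k hk hkB hkW
    obtain ⟨z, hz⟩ := (hd.vc''.conn k hk).nonempty
    exact hBW z (interior_subset (hkB hz)) (hkW hz)
  obtain ⟨F, hF⟩ : ∃ F : Set ℂ, F = fillImg c'' h S'' W := ⟨_, rfl⟩
  have hFo : IsOpen F := by
    rw [hF]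
    exact isOpen_fillImg hd.vc'' hd.sh hWo hfrd
  have hFcl : closure F ⊆ F ∪ h '' frontier W := by
    rw [hF]
    exact closure_fillImg hd.vc'' hd.sh hWo hfrd
  have hFp : IsPreconnected F := by
    rw [hF]
    refine isPreconnected_fillImg hd.vc'' hd.sh hWo hfrd ?_
    rw [hW]
    exact (hd.connected_tube hℓ₀ hS₀ hT htl htt).isPreconnected
  have hpart : ∀ z, z ∉ un c'' → ∀ k ∈ c'', h z ∉ S'' k := by
    intro z hz k hk hzk
    have h1 : h z ∈ h '' (un c'')ᶜ := mem_image_of_mem h hz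
    rw [hd.sh.image] at h1
    exact h1 (mem_iUnion₂.2 ⟨k, hk, hzk⟩)
  have hFin : ∀ z, z ∉ un c'' → z ∈ W → h z ∈ F := by
    intro z hz hzW
    rw [hF]
    exact Or.inl ⟨z, ⟨hzW, hz⟩, rfl⟩
  have hFout : ∀ z, z ∉ un c'' → z ∉ W → h z ∉ F := by
    intro z hz hzW hzF
    rw [hF] at hzF
    rcases hzF with ⟨z', hz', he⟩ | hzF
    · have : z' = z := hd.sh.inj hz'.2 hz he
      rw [this] at hz'
      exact hzW hz'.1
    · obtain ⟨k, ⟨hk, -⟩, hzk⟩ := mem_iUnion₂.1 hzF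
      exact hpart z hz k hk hzk
  have hdesc : ∀ w, w ∉ F → (∃ z, z ∉ un c'' ∧ z ∉ W ∧ w = h z) ∨
      ∃ k ∈ c'', k.1 ⊆ interior B ∧ w ∈ S'' k := by
    intro w hw
    by_cases hwS : w ∈ ⋃ k ∈ c'', S'' k
    · right
      obtain ⟨k, hk, hwk⟩ := mem_iUnion₂.1 hwS
      rcases hd.io k hk with h1 | h1
      · exact ⟨k, hk, h1, hwk⟩
      · exfalso
        apply hw
        rw [hF]
        exact Or.inr (mem_iUnion₂.2 ⟨k, ⟨hk, hholeW k hk h1⟩, hwk⟩)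
    · left
      have h1 : w ∈ h '' (un c'')ᶜ := by
        rw [hd.sh.image]
        exact hwS
      obtain ⟨z, hz, rfl⟩ := h1
      exact ⟨z, hz, fun hzW => hw (hFin z hz hzW), rfl⟩
  have hHM : Fᶜ ⊆ closedBall 0 M := by
    intro w hw
    rcases hdesc w hw with ⟨z, hz, hzW, rfl⟩ | ⟨k, hk, hkB, hwk⟩
    · rw [mem_closedBall_zero_iff]
      refine hd.bh z ?_ hz
      rw [hW] at hzW
      rcases not_not.1 hzW with h1 | ⟨h1, h2⟩
      · exact hd.supp (htsB z h1)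
      · exact (hT.loc z h1 (lt_of_le_of_lt h2 htt)).2.1
    · obtain ⟨z, hz⟩ := (hd.vc''.conn k hk).nonempty
      exact (hd.slit_ball ⟨z, hz, htsB z (interior_subset (hkB hz))⟩).2 hk hwk
  -- the inverse of `g`
  obtain ⟨Z, hZ⟩ : ∃ Z : ℂ → ℂ, Z = Function.invFunOn g (un c)ᶜ := ⟨_, rfl⟩
  have hel : ∀ ξ : ℂ, el p₀ ℓ₀ (jou p₀ (p₀ + ℓ₀) ξ) = ℓ₀ * Real.cosh ξ.re :=
    fun ξ => el_jou p₀ ξ hℓ₀
  have himg : ∀ ξ : ℂ, 0 < ξ.re → ξ.re < s₁ → jou p₀ (p₀ + ℓ₀) ξ ∈ g '' (un c)ᶜ := by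
    intro ξ h1 h2
    have h3 : el p₀ ℓ₀ (jou p₀ (p₀ + ℓ₀) ξ) < t₁ := by
      rw [hel]
      exact (hcosh _ _ h1.le h2).trans_le hs₁t
    obtain ⟨z, hz, hgz⟩ := hT.img (jou p₀ (p₀ + ℓ₀) ξ) (by
      intro h4
      rw [slit_eq_el p₀ hℓ₀] at h4
      have h5 : el p₀ ℓ₀ (jou p₀ (p₀ + ℓ₀) ξ) = ℓ₀ := h4
      rw [hel] at h5
      have h6 := hcosh 0 ξ.re le_rfl h1
      rw [Real.cosh_zero, mul_one, h5] at h6
      exact lt_irrefl _ h6) h3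
    exact ⟨z, hz, hgz⟩
  have hZ1 : ∀ ξ : ℂ, 0 < ξ.re → ξ.re < s₁ → Z (jou p₀ (p₀ + ℓ₀) ξ) ∉ un c ∧
      g (Z (jou p₀ (p₀ + ℓ₀) ξ)) = jou p₀ (p₀ + ℓ₀) ξ := by
    intro ξ h1 h2
    rw [hZ]
    exact ⟨Function.invFunOn_mem (himg ξ h1 h2), Function.invFunOn_eq (himg ξ h1 h2)⟩
  have hZ2 : ∀ ξ : ℂ, 0 < ξ.re → ξ.re < s₁ → Z (jou p₀ (p₀ + ℓ₀) ξ) ∉ un c'' ∧
      Z (jou p₀ (p₀ + ℓ₀) ξ) ∈ ball (0 : ℂ) r ∧ χ (Z (jou p₀ (p₀ + ℓ₀) ξ)) = 1 := by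
    intro ξ h1 h2
    obtain ⟨h3, h4⟩ := hZ1 ξ h1 h2
    refine hT.loc _ h3 ?_
    rw [h4, hel]
    exact (hcosh _ _ h1.le h2).trans_le hs₁t
  have hinn : ∀ ξ : ℂ, 0 < ξ.re → ξ.re ≤ s → h (Z (jou p₀ (p₀ + ℓ₀) ξ)) ∈ Fᶜ := by
    intro ξ h1 h2
    have h3 : ξ.re < s₁ := h2.trans_lt hs1
    refine hFout _ (hZ2 ξ h1 h3).1 ?_
    intro h4
    rw [hW] at h4
    refine h4 (Or.inr ⟨(hZ1 ξ h1 h3).1, ?_⟩)
    rw [(hZ1 ξ h1 h3).2, hel, ht]
    rcases h2.eq_or_lt with h5 | h5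
    · rw [h5]
    · exact (hcosh _ _ h1.le h5).le
  refine ⟨Fᶜ, fun ξ => h (Z (jou p₀ (p₀ + ℓ₀) ξ)), s, s₁, hs0, hsσ, ?_, hHM, ?_, ?_, ?_, ?_⟩
  · refine ⟨?_, ?_, hs0, hs1, ?_, ?_, ?_, ?_, ?_, hinn, ?_⟩
    · exact (isCompact_closedBall (0 : ℂ) M).of_isClosed_subset hFo.isClosed_compl hHM
    · rw [compl_compl]
      refine ⟨?_, hFp⟩
      refine ⟨((M + 1 : ℝ) : ℂ), ?_⟩
      by_contra h1
      have h2 := mem_closedBall_zero_iff.1 (hHM h1)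
      rw [Complex.norm_real, Real.norm_of_nonneg (by linarith [hd.hM])] at h2
      linarith
    · have h1 : DifferentiableOn ℂ Z (g '' (un c)ᶜ) := by
        rw [hZ]
        exact j6_inv hd.vc.isOpen hd.sg.diff hd.sg.inj
      have h2 : Differentiable ℂ (fun ξ => jou p₀ (p₀ + ℓ₀) ξ) := by
        unfold jou
        exact (differentiable_const _).add ((differentiable_const _).mul Complex.differentiable_cosh)
      have h3 : DifferentiableOn ℂ (fun ξ => Z (jou p₀ (p₀ + ℓ₀) ξ))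
          {ξ | 0 < ξ.re ∧ ξ.re < s₁} :=
        h1.comp h2.differentiableOn fun ξ hξ => himg ξ hξ.1 hξ.2
      exact hd.sh.diff.comp h3 fun ξ hξ => (hZ2 ξ hξ.1 hξ.2).1
    · intro ξ
      have h1 : jou p₀ (p₀ + ℓ₀) (ξ + 2 * Real.pi * I) = jou p₀ (p₀ + ℓ₀) ξ := by
        unfold jou
        have h2 : Complex.cosh (ξ + 2 * Real.pi * I) = Complex.cosh ξ := by
          rw [Complex.cosh_add, Complex.cosh_mul_I, Complex.sinh_mul_I, Complex.cos_two_pi,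
            Complex.sin_two_pi]
          ring
        rw [h2]
      simp only [h1]
    · intro ξ ξ' h1 h2 h3 h4 h5
      have h6 : Z (jou p₀ (p₀ + ℓ₀) ξ) = Z (jou p₀ (p₀ + ℓ₀) ξ') :=
        hd.sh.inj (hZ2 ξ h1 h2).1 (hZ2 ξ' h3 h4).1 h5
      have h7 : jou p₀ (p₀ + ℓ₀) ξ = jou p₀ (p₀ + ℓ₀) ξ' := by
        rw [← (hZ1 ξ h1 h2).2, ← (hZ1 ξ' h3 h4).2, h6]
      exact (jou_eq_iff hpq h1 h3).1 h7
    · rw [frontier_compl]
      intro w hw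
      rw [frontier, hFo.interior_eq] at hw
      rcases hFcl hw.1 with h1 | ⟨z, hz, rfl⟩
      · exact absurd h1 hw.2
      · obtain ⟨h2, h3⟩ := hfr hz
        obtain ⟨ξ, hξ, hj⟩ := exists_jou hpq (g z)
        have h4 : ξ.re = s := by
          have h5 := hel ξ
          rw [hj, h3, ht] at h5
          rcases lt_trichotomy ξ.re s with h6 | h6 | h6
          · have := hcosh _ _ hξ h6
            rw [← h5] at this
            exact absurd this (lt_irrefl _)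
          · exact h6
          · have := hcosh _ _ hs0.le h6
            rw [← h5] at this
            exact absurd this (lt_irrefl _)
        refine ⟨ξ.im, ?_⟩
        have h7 : ((s : ℂ) + (ξ.im : ℂ) * I) = ξ := by
          rw [← h4]
          exact Complex.re_add_im ξ
        simp only
        rw [h7, hj, hZ]
        have h8 : Function.invFunOn g (un c)ᶜ (g z) = z := hd.sg.inj.leftInvOn_invFunOn h2
        rw [h8]
    · intro t'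
      have h1 : ((s : ℂ) + (t' : ℂ) * I).re = s := by simp
      exact hinn _ (by rw [h1]; exact hs0) (by rw [h1])
    · intro ξ h1 h2 h3
      have h4 : 0 < ξ.re := hs0.trans h1
      apply h3
      refine hFin _ (hZ2 ξ h4 h2).1 ?_
      rw [hW]
      rintro (h5 | ⟨h5, h6⟩)
      · exact (hZ1 ξ h4 h2).1 (hBc h5)
      · rw [(hZ1 ξ h4 h2).2, hel, ht] at h6
        exact absurd h6 (not_le.2 (hcosh _ _ hs0.le h1))
  · intro z hz hz''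
    exact hFout z hz'' (hBW z hz)
  · intro k hk hkB w hw hwF
    rw [hF] at hwF
    rcases hwF with ⟨z', hz', rfl⟩ | hwF
    · exact hpart z' hz'.2 k hk hw
    · obtain ⟨k', ⟨hk', hk'W⟩, hwk'⟩ := mem_iUnion₂.1 hwF
      have hne : k ≠ k' := by
        rintro rfl
        exact hholeB k hk hkB hk'W
      exact disjoint_left.1 (hd.sh.disj k hk k' hk' hne) hw hwk'
  · intro k hk hkB
    rw [disjoint_left]
    intro w hw hwF
    apply hwF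
    rw [hF]
    exact Or.inr (mem_iUnion₂.2 ⟨k, ⟨hk, hholeW k hk hkB⟩, hw⟩)
  · intro ξ h1 h2
    refine ⟨Z (jou p₀ (p₀ + ℓ₀) ξ), ?_, (hZ2 ξ h1 h2).2.2, (hZ1 ξ h1 h2).2, rfl⟩
    rintro (h3 | h3)
    · exact (hZ1 ξ h1 h2).1 h3
    · exact (hZ2 ξ h1 h2).1 h3

end RSM2
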