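import Pool.Agent.RSM2.G8
import Pool.Agent.RSM2.B4

/-!
# RSM2 module G9: the data of step (b)

`D = (un c ∪ un c'')ᶜ`, `u = push D h (χ Re (g - h))`, `v = push D h (χ Im (g - h))`: the functions
`χ (g - h)` transplanted to the `h`-plane.  `D_b = (H ∪ SF p'' τ ℓ'')ᶜ`; `H`, `Ψ`, `s`, `s₁` are from
`LocData.exists_collar` (`σ` small), `x₀ = re p₀ + ℓ₀/2`, `y₀ = im p₀`, `lam = ℓ₀/2`.

PROOF (compare module G3, `stepA_data`, where the regularity, energies and compatibility are proved for the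
`g`-plane in the same way).
(1) REGULARITY: `contDiffOn_push` with `U = D`, `S = tsupport χ`.  Let `w ∈ D_b`, `w = lim h (z n)`,
`z n ∈ D ∩ tsupport χ`.  By `lift` (for `c''`, `h`) along a subsequence `z n → z₀ ∈ tsupport χ` and either
`z₀ ∉ un c''`, `w = h z₀`: then `z₀ ∉ B` as `w ∉ H`, and `z₀` is in no near hole (these are in `c''`,
`near_mem''`), so `z₀ ∈ D` by `cover` and `w ∈ h '' D`; or `z₀ ∈ k.1`, `w ∈ S'' k`, `k ∈ c''`: if
`k.1 ⊆ interior B` then `w ∈ S'' k ⊆ H`; otherwise `k.1` is disjoint from `B` and meets `tsupport χ`, so `k ∈ c`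
(`share`) is near and `w ∈ SF`; contradictions.
(2) The functions vanish outside of `h '' (D ∩ tsupport χ)`, `‖h z‖ ≤ M` on `D ∩ ball 0 r`; `|u|, |v| ≤ 2M`.
(3) ENERGIES: `∫_{D_b} ‖∇u‖² ≤ ∫_D ‖∇(χ k₁)‖² ≤ 2 ∫_D χ² ‖k'‖² + 2 ∫_D ‖∇χ‖² |k|² ≤ 2 · 4π M² + 2 ≤ (10 (M+1))²`
(`k = g - h`, `energy_D`, `hsmall`; `integral_sq_fderiv_image`; `D_b \ h '' D` is contained in the relatively
open set where the functions vanish; also `D_b ∩ h '' D` is only a part of `h '' D`: use monotonicity).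
(4) SMALL DERIVATIVE: on `h '' D`: `v = (χ ∘ h⁻¹) (k₂ ∘ h⁻¹)`, so
`(∂_x v)² ≤ ‖∇ v‖² ≤ 2 χ² ‖∇ (k₂ ∘ h⁻¹)‖² + 2 |k₂|² ‖∇ (χ ∘ h⁻¹)‖²`, and
`∫ (∂_x v)² ≤ 2 ∫_D χ ‖k'‖² + 2 δ₁² ∫ ‖∇χ‖² ≤ δB²`.
(5) COMPATIBILITY at the near slit `S'' k = slit (p'' k) (τ k) (ℓ'' k)`: `χ = a` near `k.1` (`const_near`).  Near the slit
every point `w ∈ D_b` is `h z` with `z ∈ D`, `z` close to `k.1` (`ofS`; `w` is in no other slit; `z ∉ un c''`,
`χ z = a ≠ 0`, `z ∉ B` as `k.1` is compact and disjoint from `B`: `cover`).  With `g = g₁ + i g₂`,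
`h = h₁ + i h₂`: `(im w - y₀ + v w) - τ_k (re w + u w) = (1 - a) (h₂ - τ_k h₁) + a (g₂ - τ_k g₁) - y₀` at `z`, and
both terms have limits at `k.1` (`SMap.line`, `nrm φ w = cos φ (im w - tan φ re w)`, `cos φ ≠ 0` for
`φ = k.2 - θ₀`, `|φ| ≤ π/4`).
(6) `eqU`, `eqV`: `Ψ ξ = h z`, `z ∈ D`, `χ z = 1`, `g z = jou p₀ (p₀ + ℓ₀) ξ`, so `(Ψ ξ).re + u (Ψ ξ) = (g z).re =
re p₀ + ℓ₀/2 + (ℓ₀/2) cosh (re ξ) cos (im ξ)`, and `(g z).im = im p₀ + (ℓ₀/2) sinh (re ξ) sin (im ξ)`.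
`off`: `h z` is in no slit `S'' k` (`z ∉ un c''`).  `disj`: the near slits are disjoint from `H`
(`near_mem''`).
(7) `p₀`, `p₀ + ℓ₀ ∈ S (B, θ₀) ⊆ closedBall 0 M` (`slit_ball`; `B ∩ tsupport χ ≠ ∅` as `χ = 1` near `B`), so
`|y₀| ≤ M`, `|x₀| ≤ M`, `ℓ₀/2 ≤ M`; `σ ≤ 1` and `(ℓ₀/2) sinh σ ≤ δB`; `(ℓ₀/2) cosh 1 ≤ 2 M ≤ 10 (M + 1)`.
`SlitFam p'' τ ℓ'' (2δ) M M`: `slit_ball` for the near holes.
-/

open Complex Set Metric Filter Topology MeasureTheory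

namespace RSM2

private theorem g9_re {H : ℂ → ℂ} {z : ℂ} (hH : DifferentiableAt ℂ H z) :
    DifferentiableAt ℝ (fun w => (H w).re) z ∧ dX (fun w => (H w).re) z = (deriv H z).re ∧
      dY (fun w => (H w).re) z = -(deriv H z).im := by
  have h1 : DifferentiableAt ℝ (fun w : ℂ => w.re) (H z) := Complex.reCLM.differentiableAt
  refine ⟨?_, ?_, ?_⟩
  · exact h1.comp z (hH.restrictScalars ℝ)
  · rw [j6_dX hH h1, dX_re, dY_re]; ring
  · rw [j6_dY hH h1, dX_re, dY_re]; ring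

private theorem g9_im {H : ℂ → ℂ} {z : ℂ} (hH : DifferentiableAt ℂ H z) :
    DifferentiableAt ℝ (fun w => (H w).im) z ∧ dX (fun w => (H w).im) z = (deriv H z).im ∧
      dY (fun w => (H w).im) z = (deriv H z).re := by
  have h1 : DifferentiableAt ℝ (fun w : ℂ => w.im) (H z) := Complex.imCLM.differentiableAt
  refine ⟨?_, ?_, ?_⟩
  · exact h1.comp z (hH.restrictScalars ℝ)
  · rw [j6_dX hH h1, dX_im, dY_im]; ring
  · rw [j6_dY hH h1, dX_im, dY_im]; ring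

private theorem g9_grad {χ k : ℂ → ℝ} {z : ℂ} (hχ : DifferentiableAt ℝ χ z)
    (hk : DifferentiableAt ℝ k z) :
    ‖fderiv ℝ (fun w => χ w * k w) z‖ ^ 2 ≤
      2 * (χ z ^ 2 * ‖fderiv ℝ k z‖ ^ 2) + 2 * (k z ^ 2 * ‖fderiv ℝ χ z‖ ^ 2) := by
  rw [sq_norm_fderiv, sq_norm_fderiv, sq_norm_fderiv, dX_mul hχ hk, dY_mul hχ hk]
  nlinarith [sq_nonneg (χ z * dX k z - k z * dX χ z), sq_nonneg (χ z * dY k z - k z * dY χ z)]

private theorem g9_push {D Dw : Set ℂ} {g : ℂ → ℂ} {f χ : ℂ → ℝ} {r : ℝ} (hD : IsOpen D)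
    (hDw : IsOpen Dw) (hg : DifferentiableOn ℂ g D) (hinj : InjOn g D) (hsub : g '' D ⊆ Dw)
    (hcl : closure (g '' (D ∩ tsupport χ)) ∩ Dw ⊆ g '' D) (hχr : tsupport χ ⊆ ball 0 r)
    (hf : Nice D (ball 0 r) (fun z => χ z * f z)) :
    ContDiffOn ℝ 2 (push D g (fun z => χ z * f z)) Dw ∧
    (∀ w ∈ Dw, w ∉ g '' D → fderiv ℝ (push D g (fun z => χ z * f z)) w = 0) ∧
    (∀ z ∈ D, (fun x => push D g (fun z => χ z * f z) (g x)) =ᶠ[𝓝 z] fun x => χ x * f x) ∧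
    IntegrableOn (fun w => ‖fderiv ℝ (push D g (fun z => χ z * f z)) w‖ ^ 2) Dw ∧
    ∫ w in Dw, ‖fderiv ℝ (push D g (fun z => χ z * f z)) w‖ ^ 2 =
      ∫ z in D ∩ ball 0 r, ‖fderiv ℝ (fun z => χ z * f z) z‖ ^ 2 := by
  have hsm : ContDiffOn ℝ 2 (push D g (fun z => χ z * f z)) Dw :=
    contDiffOn_push hD hg hinj hf.smooth (S := tsupport χ)
      (fun z _ hz => by rw [image_eq_zero_of_notMem_tsupport hz, zero_mul]) hcl hDw
  have hzero : ∀ w ∈ Dw, w ∉ g '' D → fderiv ℝ (push D g (fun z => χ z * f z)) w = 0 := by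
    intro w hw hwU
    have hcw : w ∉ closure (g '' (D ∩ tsupport χ)) := fun h => hwU (hcl ⟨h, hw⟩)
    have h1 : push D g (fun z => χ z * f z) =ᶠ[𝓝 w] fun _ => (0 : ℝ) := by
      filter_upwards [isClosed_closure.isOpen_compl.mem_nhds hcw] with v hv
      by_cases hvU : v ∈ g '' D
      · obtain ⟨z, hz, rfl⟩ := hvU
        rw [push_apply hinj _ hz]
        have h2 : z ∉ tsupport χ := fun hzS => hv (subset_closure ⟨z, ⟨hz, hzS⟩, rfl⟩)
        rw [image_eq_zero_of_notMem_tsupport h2, zero_mul]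
      · exact push_of_notMem _ hvU
    rw [h1.fderiv_eq]
    simp
  have hev : ∀ z ∈ D, (fun x => push D g (fun z => χ z * f z) (g x)) =ᶠ[𝓝 z]
      fun x => χ x * f x := by
    intro z hz
    filter_upwards [hD.mem_nhds hz] with x hx
    exact push_apply hinj _ hx
  have hout : ∀ z ∈ D \ (D ∩ ball 0 r), ‖fderiv ℝ (fun z => χ z * f z) z‖ ^ 2 = 0 := by
    intro z hz
    have h2 : z ∉ tsupport χ := fun h => hz.2 ⟨hz.1, hχr h⟩
    have h1 : (fun z => χ z * f z) =ᶠ[𝓝 z] fun _ => (0 : ℝ) := by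
      filter_upwards [(isClosed_tsupport χ).isOpen_compl.mem_nhds h2] with v hv
      rw [image_eq_zero_of_notMem_tsupport hv, zero_mul]
    rw [h1.fderiv_eq]
    simp
  have hI1 : IntegrableOn (fun z => ‖fderiv ℝ (fun z => χ z * f z) z‖ ^ 2) D :=
    hf.l2.of_forall_sdiff_eq_zero hD.measurableSet hout
  have hdo : DifferentiableOn ℝ (push D g (fun z => χ z * f z)) (g '' D) :=
    (hsm.differentiableOn two_ne_zero).mono hsub
  have hcongr : ∀ z ∈ D, ‖fderiv ℝ (fun x => push D g (fun z => χ z * f z) (g x)) z‖ ^ 2 =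
      ‖fderiv ℝ (fun z => χ z * f z) z‖ ^ 2 := by
    intro z hz
    rw [(hev z hz).fderiv_eq]
  obtain ⟨hA, hB⟩ := integral_sq_fderiv_image hD hg hinj hdo
  have hz' : ∀ w ∈ Dw \ g '' D, ‖fderiv ℝ (push D g (fun z => χ z * f z)) w‖ ^ 2 = 0 := by
    intro w hw
    rw [hzero w hw.1 hw.2]
    simp
  refine ⟨hsm, hzero, hev, ?_, ?_⟩
  · refine IntegrableOn.of_forall_sdiff_eq_zero (hA.2 ?_) hDw.measurableSet hz'
    exact (integrableOn_congr_fun hcongr hD.measurableSet).2 hI1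
  · rw [setIntegral_eq_of_subset_of_forall_sdiff_eq_zero hDw.measurableSet hsub hz', hB,
      setIntegral_congr_fun hD.measurableSet hcongr,
      setIntegral_eq_of_subset_of_forall_sdiff_eq_zero hD.measurableSet inter_subset_left hout]

private theorem g9_fd {G H : ℂ → ℂ} {z : ℂ} (hG : DifferentiableAt ℂ G z)
    (hH : DifferentiableAt ℂ H z) :
    ‖fderiv ℝ (fun w => (G w - H w).re) z‖ ^ 2 = ‖deriv H z - deriv G z‖ ^ 2 ∧
    ‖fderiv ℝ (fun w => (G w - H w).im) z‖ ^ 2 = ‖deriv H z - deriv G z‖ ^ 2 := by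
  have h1 : DifferentiableAt ℂ (fun w => G w - H w) z := hG.sub hH
  have h2 : deriv (fun w => G w - H w) z = deriv G z - deriv H z := deriv_fun_sub hG hH
  obtain ⟨-, a2, a3⟩ := g9_re h1
  obtain ⟨-, b2, b3⟩ := g9_im h1
  constructor
  · rw [sq_norm_fderiv, a2, a3, h2, norm_sub_rev, j6_norm]
    ring
  · rw [sq_norm_fderiv, b2, b3, h2, norm_sub_rev, j6_norm]
    ring

private theorem g9_nice_mono {D D' T : Set ℂ} {a : ℂ → ℝ} (ha : Nice D T a) (h : D' ⊆ D) :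
    Nice D' T a where
  smooth := ha.smooth.mono h
  bdd := by
    obtain ⟨K, hK⟩ := ha.bdd
    exact ⟨K, fun z hz => hK z ⟨h hz.1, hz.2⟩⟩
  l2 := ha.l2.mono_set (inter_subset_inter_left _ h)

private theorem g9_cosh (ξ : ℂ) : Complex.cosh ξ =
    ((Real.cosh ξ.re * Real.cos ξ.im : ℝ) : ℂ) + ((Real.sinh ξ.re * Real.sin ξ.im : ℝ) : ℂ) * I := by
  conv_lhs => rw [← Complex.re_add_im ξ]
  rw [Complex.cosh_add, Complex.cosh_mul_I, Complex.sinh_mul_I]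
  push_cast
  ring

private theorem g9_jou (p₀ ξ : ℂ) (ℓ₀ : ℝ) :
    (jou p₀ (p₀ + ℓ₀) ξ).re = p₀.re + ℓ₀ / 2 + ℓ₀ / 2 * Real.cosh ξ.re * Real.cos ξ.im ∧
    (jou p₀ (p₀ + ℓ₀) ξ).im = p₀.im + ℓ₀ / 2 * Real.sinh ξ.re * Real.sin ξ.im := by
  have h1 : jou p₀ (p₀ + ℓ₀) ξ = p₀ + ((ℓ₀ / 2 : ℝ) : ℂ) + ((ℓ₀ / 2 : ℝ) : ℂ) * Complex.cosh ξ := by
    unfold jou
    push_cast
    ring
  rw [h1, g9_cosh]
  constructor
  · simp only [add_re, mul_re, mul_im, ofReal_re, ofReal_im, I_re, I_im, add_im]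
    ring
  · simp only [add_re, mul_re, mul_im, ofReal_re, ofReal_im, I_re, I_im, add_im]
    ring

section aux

variable {θ₀ δ M r : ℝ} {χ : ℂ → ℝ} {B : Set ℂ} {c c'' : Cfg} {g h : ℂ → ℂ}
  {S S'' : Set ℂ × ℝ → Set ℂ}

private theorem g9_subset (c c'' : Cfg) :
    (un c ∪ un c'')ᶜ ⊆ (un c)ᶜ ∧ (un c ∪ un c'')ᶜ ⊆ (un c'')ᶜ :=
  ⟨compl_subset_compl.2 subset_union_left, compl_subset_compl.2 subset_union_right⟩

private theorem g9_bmeet (hd : LocData θ₀ δ M r χ B c c'' g h S S'') :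
    (B ∩ tsupport χ).Nonempty := by
  obtain ⟨z, hz⟩ := (hd.vc.conn _ hd.hB).nonempty
  refine ⟨z, hz, ?_⟩
  have h1 : χ z = 1 := hd.one.self_of_nhdsSet z hz
  refine subset_tsupport _ ?_
  rw [Function.mem_support, h1]
  exact one_ne_zero

private theorem g9_int_chi (hd : LocData θ₀ δ M r χ B c c'' g h S S'') :
    Integrable (fun z => ‖fderiv ℝ χ z‖ ^ 2) := by
  have hcs : HasCompactSupport χ :=
    (isCompact_closedBall (0 : ℂ) r).of_isClosed_subset (isClosed_tsupport χ)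
      (hd.supp.trans ball_subset_closedBall)
  have hc : Continuous (fderiv ℝ χ) := hd.smooth.continuous_fderiv (by simp)
  have h1 : HasCompactSupport (fun z => ‖fderiv ℝ χ z‖ ^ 2) :=
    (hcs.fderiv (𝕜 := ℝ)).comp_left (g := fun L : ℂ →L[ℝ] ℝ => ‖L‖ ^ 2) (by simp)
  exact (hc.norm.pow 2).integrable_of_hasCompactSupport h1

private theorem g9_core (hd : LocData θ₀ δ M r χ B c c'' g h S S'') {δ₁ ε₂ δB : ℝ}
    (hk : ∀ z ∈ tsupport (fderiv ℝ χ), ‖h z - g z‖ ≤ δ₁)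
    (hε₂ : ∫ z in (un c ∪ un c'')ᶜ, χ z * ‖deriv h z - deriv g z‖ ^ 2 ≤ ε₂)
    (hsmall : δ₁ ^ 2 * ∫ z, ‖fderiv ℝ χ z‖ ^ 2 ≤ 1)
    (hδB : 2 * ε₂ + 2 * (δ₁ ^ 2 * ∫ z, ‖fderiv ℝ χ z‖ ^ 2) ≤ δB ^ 2)
    {Dw U : Set ℂ} (hDw : IsOpen Dw) (hU : IsOpen U) (hUD : U ⊆ (un c ∪ un c'')ᶜ)
    (hsub : h '' U ⊆ Dw)
    (hcl : closure (h '' (U ∩ tsupport χ)) ∩ Dw ⊆ h '' U)
    {k : ℂ → ℝ} (hkn : Nice U (ball 0 r) k)
    (hkb : ∀ z, |k z| ≤ ‖h z - g z‖)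
    (hkd : ∀ z ∈ U, ‖fderiv ℝ k z‖ ^ 2 = ‖deriv h z - deriv g z‖ ^ 2) :
    (∀ ρ, Nice Dw (closedBall 0 ρ) (push U h (fun z => χ z * k z))) ∧
    (∀ w, M < ‖w‖ → push U h (fun z => χ z * k z) w = 0) ∧
    (∀ w, |push U h (fun z => χ z * k z) w| ≤ 10 * (M + 1)) ∧
    ∫ w in Dw, ‖fderiv ℝ (push U h (fun z => χ z * k z)) w‖ ^ 2 ≤ (10 * (M + 1)) ^ 2 ∧
    IntegrableOn (fun w => ‖fderiv ℝ (push U h (fun z => χ z * k z)) w‖ ^ 2) Dw ∧
    ∫ w in Dw, ‖fderiv ℝ (push U h (fun z => χ z * k z)) w‖ ^ 2 ≤ δB ^ 2 := by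
  have hD := hd.openD
  have hMp := hd.hM
  have hsc := g9_subset c c''
  have hhU : DifferentiableOn ℂ h U := hd.sh.diff.mono (hUD.trans hsc.2)
  have hinj : InjOn h U := hd.sh.inj.mono (hUD.trans hsc.2)
  have hχc : ContDiff ℝ 2 χ := hd.smooth.of_le (by exact WithTop.coe_le_coe.2 (le_top (a := (2 : ℕ∞))))
  have hχn : Nice U (ball 0 r) χ := Nice.of_contDiff hU ball_subset_closedBall hχc
  have hn := hχn.mul hU hkn
  obtain ⟨p1, p2, p3, p4, p5⟩ := g9_push hU hDw hhU hinj hsub hcl hd.supp hn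
  obtain ⟨E1, E2, E3, E4⟩ := hd.energy_D
  have hIχ := g9_int_chi hd
  have hbd : ∀ w, |push U h (fun z => χ z * k z) w| ≤ 2 * M := by
    intro w
    by_cases hw : w ∈ h '' U
    · obtain ⟨z, hz, rfl⟩ := hw
      rw [push_apply hinj _ hz]
      by_cases hzr : z ∈ ball (0 : ℂ) r
      · have h1 := hd.bg z hzr (hsc.1 (hUD hz))
        have h2 := hd.bh z hzr (hsc.2 (hUD hz))
        have h3 := norm_sub_le (h z) (g z)
        have h4 := hkb z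
        rw [abs_mul, abs_of_nonneg (hd.bd z).1]
        have h5 : χ z * |k z| ≤ 1 * |k z| := mul_le_mul_of_nonneg_right (hd.bd z).2 (abs_nonneg _)
        linarith
      · have h1 : z ∉ tsupport χ := fun h => hzr (hd.supp h)
        rw [image_eq_zero_of_notMem_tsupport h1, zero_mul, abs_zero]
        linarith
    · rw [push_of_notMem _ hw, abs_zero]
      linarith
  have hkk : ∀ z, k z ^ 2 * ‖fderiv ℝ χ z‖ ^ 2 ≤ δ₁ ^ 2 * ‖fderiv ℝ χ z‖ ^ 2 := by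
    intro z
    by_cases hz : z ∈ tsupport (fderiv ℝ χ)
    · have h1 := (hkb z).trans (hk z hz)
      have h2 : k z ^ 2 ≤ δ₁ ^ 2 := by
        rw [← sq_abs (k z)]
        exact pow_le_pow_left₀ (abs_nonneg _) h1 2
      exact mul_le_mul_of_nonneg_right h2 (by positivity)
    · rw [image_eq_zero_of_notMem_tsupport hz]
      simp
  have hχ2 : ∀ z, χ z ^ 2 ≤ χ z := fun z => by
    have h1 := hd.bd z
    nlinarith
  -- the energy of the difference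
  have hhI : IntegrableOn (fun z => ‖deriv h z‖ ^ 2) ((un c ∪ un c'')ᶜ ∩ ball 0 r) :=
    E3.mono_set (inter_subset_inter_left _ hsc.2)
  have hgI : IntegrableOn (fun z => ‖deriv g z‖ ^ 2) ((un c ∪ un c'')ᶜ ∩ ball 0 r) :=
    E1.mono_set (inter_subset_inter_left _ hsc.1)
  have hhE : ∫ z in (un c ∪ un c'')ᶜ ∩ ball 0 r, ‖deriv h z‖ ^ 2 ≤ Real.pi * M ^ 2 :=
    (setIntegral_mono_set E3 (Eventually.of_forall fun z => by positivity)
      (inter_subset_inter_left _ hsc.2).eventuallyLE).trans E4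
  have hgE : ∫ z in (un c ∪ un c'')ᶜ ∩ ball 0 r, ‖deriv g z‖ ^ 2 ≤ Real.pi * M ^ 2 :=
    (setIntegral_mono_set E1 (Eventually.of_forall fun z => by positivity)
      (inter_subset_inter_left _ hsc.1).eventuallyLE).trans E2
  have hDr : MeasurableSet ((un c ∪ un c'')ᶜ ∩ ball (0 : ℂ) r) :=
    hD.measurableSet.inter measurableSet_ball
  have hUr : MeasurableSet (U ∩ ball (0 : ℂ) r) := hU.measurableSet.inter measurableSet_ball
  have hdn : ∀ z, ‖deriv h z - deriv g z‖ ^ 2 ≤ 2 * ‖deriv h z‖ ^ 2 + 2 * ‖deriv g z‖ ^ 2 := by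
    intro z
    have h1 := norm_sub_le (deriv h z) (deriv g z)
    have h2 : ‖deriv h z - deriv g z‖ ^ 2 ≤ (‖deriv h z‖ + ‖deriv g z‖) ^ 2 :=
      pow_le_pow_left₀ (norm_nonneg _) h1 2
    nlinarith [sq_nonneg (‖deriv h z‖ - ‖deriv g z‖)]
  have hFm : ∀ T : Set ℂ, AEStronglyMeasurable (fun z => χ z * ‖deriv h z - deriv g z‖ ^ 2)
      (volume.restrict T) := by
    intro T
    have h1 : Measurable (fun z => ‖deriv h z - deriv g z‖ ^ 2) :=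
      (((measurable_deriv h).sub (measurable_deriv g)).norm).pow_const 2
    exact (hχc.continuous.measurable.mul h1).aestronglyMeasurable
  have hI5 : IntegrableOn (fun z => 2 * ‖deriv h z‖ ^ 2 + 2 * ‖deriv g z‖ ^ 2)
      ((un c ∪ un c'')ᶜ ∩ ball 0 r) := (hhI.const_mul 2).add (hgI.const_mul 2)
  have hFle : ∀ z, χ z * ‖deriv h z - deriv g z‖ ^ 2 ≤ 2 * ‖deriv h z‖ ^ 2 + 2 * ‖deriv g z‖ ^ 2 := by
    intro z
    have h1 : χ z * ‖deriv h z - deriv g z‖ ^ 2 ≤ 1 * ‖deriv h z - deriv g z‖ ^ 2 :=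
      mul_le_mul_of_nonneg_right (hd.bd z).2 (by positivity)
    have h2 := hdn z
    linarith
  have hF0 : ∀ z, 0 ≤ χ z * ‖deriv h z - deriv g z‖ ^ 2 := fun z =>
    mul_nonneg (hd.bd z).1 (by positivity)
  have hFI : IntegrableOn (fun z => χ z * ‖deriv h z - deriv g z‖ ^ 2)
      ((un c ∪ un c'')ᶜ ∩ ball 0 r) := by
    refine Integrable.mono' hI5 (hFm _) (Eventually.of_forall fun z => ?_)
    rw [Real.norm_of_nonneg (hF0 z)]
    exact hFle z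
  have hE4 : ∫ z in (un c ∪ un c'')ᶜ ∩ ball 0 r, χ z * ‖deriv h z - deriv g z‖ ^ 2 ≤
      4 * (Real.pi * M ^ 2) := by
    have h1 : ∫ z in (un c ∪ un c'')ᶜ ∩ ball 0 r, χ z * ‖deriv h z - deriv g z‖ ^ 2 ≤
        ∫ z in (un c ∪ un c'')ᶜ ∩ ball 0 r, (2 * ‖deriv h z‖ ^ 2 + 2 * ‖deriv g z‖ ^ 2) :=
      setIntegral_mono hFI hI5 hFle
    rw [integral_add (hhI.const_mul 2) (hgI.const_mul 2), integral_const_mul,
      integral_const_mul] at h1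
    linarith
  have hEε : ∫ z in (un c ∪ un c'')ᶜ ∩ ball 0 r, χ z * ‖deriv h z - deriv g z‖ ^ 2 ≤ ε₂ := by
    refine le_trans (le_of_eq ?_) hε₂
    refine (setIntegral_eq_of_subset_of_forall_sdiff_eq_zero hD.measurableSet inter_subset_left
      ?_).symm
    intro z hz
    have h2 : z ∉ tsupport χ := fun h => hz.2 ⟨hz.1, hd.supp h⟩
    rw [image_eq_zero_of_notMem_tsupport h2, zero_mul]
  -- the energy of the push
  have hUs : U ∩ ball 0 r ⊆ (un c ∪ un c'')ᶜ ∩ ball 0 r := inter_subset_inter_left _ hUD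
  have hen : ∫ w in Dw, ‖fderiv ℝ (push U h (fun z => χ z * k z)) w‖ ^ 2 ≤
      2 * (∫ z in (un c ∪ un c'')ᶜ ∩ ball 0 r, χ z * ‖deriv h z - deriv g z‖ ^ 2) +
      2 * (δ₁ ^ 2 * ∫ z, ‖fderiv ℝ χ z‖ ^ 2) := by
    rw [p5]
    have hI2 : IntegrableOn (fun z => 2 * (χ z * ‖deriv h z - deriv g z‖ ^ 2) +
        2 * (δ₁ ^ 2 * ‖fderiv ℝ χ z‖ ^ 2)) (U ∩ ball 0 r) :=
      ((hFI.mono_set hUs).const_mul 2).add (((hIχ.const_mul (δ₁ ^ 2)).const_mul 2).integrableOn)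
    have h1 : ∫ z in U ∩ ball 0 r, ‖fderiv ℝ (fun z => χ z * k z) z‖ ^ 2 ≤
        ∫ z in U ∩ ball 0 r, (2 * (χ z * ‖deriv h z - deriv g z‖ ^ 2) +
          2 * (δ₁ ^ 2 * ‖fderiv ℝ χ z‖ ^ 2)) := by
      refine setIntegral_mono_on hn.l2 hI2 hUr ?_
      intro z hz
      have h2 := g9_grad (hχc.differentiable two_ne_zero z)
        ((hkn.smooth.contDiffAt (hU.mem_nhds hz.1)).differentiableAt two_ne_zero)
      have h3 := hkd z hz.1
      have h4 := hkk z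
      rw [h3] at h2
      have h5 : χ z ^ 2 * ‖deriv h z - deriv g z‖ ^ 2 ≤ χ z * ‖deriv h z - deriv g z‖ ^ 2 :=
        mul_le_mul_of_nonneg_right (hχ2 z) (by positivity)
      linarith
    refine h1.trans ?_
    rw [integral_add ((hFI.mono_set hUs).const_mul 2)
      (((hIχ.const_mul (δ₁ ^ 2)).const_mul 2).integrableOn), integral_const_mul,
      integral_const_mul, integral_const_mul]
    have h2 : ∫ z in U ∩ ball 0 r, χ z * ‖deriv h z - deriv g z‖ ^ 2 ≤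
        ∫ z in (un c ∪ un c'')ᶜ ∩ ball 0 r, χ z * ‖deriv h z - deriv g z‖ ^ 2 :=
      setIntegral_mono_set hFI (Eventually.of_forall hF0) hUs.eventuallyLE
    have h3 : ∫ z in U ∩ ball 0 r, ‖fderiv ℝ χ z‖ ^ 2 ≤ ∫ z, ‖fderiv ℝ χ z‖ ^ 2 :=
      setIntegral_le_integral hIχ (Eventually.of_forall fun z => by positivity)
    have h4 := mul_le_mul_of_nonneg_left h3 (sq_nonneg δ₁)
    linarith
  refine ⟨fun ρ => ⟨p1, ⟨2 * M, fun z _ => hbd z⟩, p4.mono_set inter_subset_left⟩, ?_,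
    fun w => (hbd w).trans (by linarith), ?_, p4, ?_⟩
  · intro w hw
    by_cases hwU : w ∈ h '' U
    · obtain ⟨z, hz, rfl⟩ := hwU
      rw [push_apply hinj _ hz]
      have h1 : z ∉ tsupport χ := by
        intro h1
        have h2 := hd.bh z (hd.supp h1) (hsc.2 (hUD hz))
        linarith
      rw [image_eq_zero_of_notMem_tsupport h1, zero_mul]
    · exact push_of_notMem _ hwU
  · have h5 : Real.pi * M ^ 2 ≤ 3.15 * M ^ 2 :=
      mul_le_mul_of_nonneg_right Real.pi_lt_d2.le (sq_nonneg M)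
    nlinarith
  · linarith

private theorem g9_mem (hd : LocData θ₀ δ M r χ B c c'' g h S S'') {H : Set ℂ}
    (hHB : ∀ z ∈ B, z ∉ un c'' → h z ∈ H) {z : ℂ}
    (hz : z ∈ tsupport χ) (hzc : z ∉ un c'') (hzH : h z ∉ H) : z ∈ (un c ∪ un c'')ᶜ := by
  rcases hd.cover hz with (h1 | h1) | h1
  · exact h1
  · exact absurd (hHB z h1 hzc) hzH
  · obtain ⟨k, hk⟩ := mem_iUnion.1 h1
    exact absurd (subset_un (hd.near_mem'' k).1 hk) hzc

private theorem g9_notSF (hd : LocData θ₀ δ M r χ B c c'' g h S S'')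
    {τ ℓ'' : NearI c χ (B, θ₀) → ℝ} {p'' : NearI c χ (B, θ₀) → ℂ}
    (hp : ∀ k, S'' k.1 = slit (p'' k) (τ k) (ℓ'' k)) {z : ℂ} (hz : z ∉ un c'') :
    h z ∉ SF p'' τ ℓ'' := by
  intro hw
  have h1 : h z ∈ (⋃ k ∈ c'', S'' k)ᶜ := by
    rw [← hd.sh.image]
    exact ⟨z, hz, rfl⟩
  apply h1
  obtain ⟨k, hk⟩ := mem_iUnion.1 hw
  rw [← hp k] at hk
  exact mem_biUnion (show k.1 ∈ (c'' : Set (Set ℂ × ℝ)) from (hd.near_mem'' k).1) hk

private theorem g9_closure (hd : LocData θ₀ δ M r χ B c c'' g h S S'') {H : Set ℂ}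
    (hHB : ∀ z ∈ B, z ∉ un c'' → h z ∈ H)
    (hHi : ∀ k ∈ c'', k.1 ⊆ interior B → S'' k ⊆ H)
    {τ ℓ'' : NearI c χ (B, θ₀) → ℝ} {p'' : NearI c χ (B, θ₀) → ℂ}
    (hp : ∀ k, S'' k.1 = slit (p'' k) (τ k) (ℓ'' k)) :
    closure (h '' (((un c ∪ un c'')ᶜ ∩ h ⁻¹' Hᶜ) ∩ tsupport χ)) ∩ (H ∪ SF p'' τ ℓ'')ᶜ ⊆
      h '' ((un c ∪ un c'')ᶜ ∩ h ⁻¹' Hᶜ) := by
  rintro w ⟨hw, hwD⟩
  obtain ⟨x, hx, hxw⟩ := mem_closure_iff_seq_limit.1 hw
  choose z hz using hx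
  have hxw' : Tendsto (fun n => h (z n)) atTop (𝓝 w) := hxw.congr fun n => (hz n).2.symm
  obtain ⟨φ, z₀, hφ, hlim, hcase⟩ :=
    lift hd.vc'' hd.sh (fun n => (g9_subset c c'').2 (hz n).1.1.1) hxw'
  have hz₀ : z₀ ∈ tsupport χ := (isClosed_tsupport χ).mem_of_tendsto hlim
    (Eventually.of_forall fun n => (hz (φ n)).1.2)
  have hwH : w ∉ H := fun h1 => hwD (Or.inl h1)
  rcases hcase with ⟨h1, h2⟩ | ⟨k, hk, hzk, hwk⟩
  · rw [h2] at hwH
    exact ⟨z₀, ⟨g9_mem hd hHB hz₀ h1 hwH, hwH⟩, h2.symm⟩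
  · exfalso
    rcases hd.io k hk with h3 | h3
    · exact hwH (hHi k hk h3 hwk)
    · have hkc : k ∈ c := (hd.share k h3 ⟨z₀, hzk, hz₀⟩).2 hk
      have hkB : k ≠ (B, θ₀) := by
        intro h4
        rw [h4] at h3 hzk
        exact Set.disjoint_left.1 h3 hzk hzk
      apply hwD
      right
      refine mem_iUnion.2 ⟨⟨k, hkc, hkB, ⟨z₀, hzk, hz₀⟩⟩, ?_⟩
      rw [← hp]
      exact hwk

private theorem g9_compat (hd : LocData θ₀ δ M r χ B c c'' g h S S'') {H : Set ℂ} (y₀ : ℝ)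
    (hHB : ∀ z ∈ B, z ∉ un c'' → h z ∈ H)
    {τ ℓ'' : NearI c χ (B, θ₀) → ℝ} {p'' : NearI c χ (B, θ₀) → ℂ}
    (hp : ∀ k, S'' k.1 = slit (p'' k) (τ k) (ℓ'' k))
    (hτ : ∀ k, τ k = Real.tan (k.1.2 - θ₀)) (j : NearI c χ (B, θ₀)) :
    ∃ κ : ℝ, Tendsto (fun z => (z.im - y₀ +
        push ((un c ∪ un c'')ᶜ ∩ h ⁻¹' Hᶜ) h (fun z => χ z * (g z - h z).im) z) -
      τ j * (z.re + push ((un c ∪ un c'')ᶜ ∩ h ⁻¹' Hᶜ) h (fun z => χ z * (g z - h z).re) z))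
      (nearIn (H ∪ SF p'' τ ℓ'')ᶜ (slit (p'' j) (τ j) (ℓ'' j))) (𝓝 κ) := by
  have hsc := g9_subset c c''
  have hinj : InjOn h ((un c ∪ un c'')ᶜ ∩ h ⁻¹' Hᶜ) :=
    hd.sh.inj.mono (inter_subset_left.trans hsc.2)
  obtain ⟨a, ha0, -, ha⟩ := hd.const_near (Or.inl j.2.1) j.2.2.2
  obtain ⟨q, hq⟩ := hd.sg.line j.2.1
  obtain ⟨q', hq'⟩ := hd.sh.line (hd.near_mem'' j).1
  have hang := hd.ang j.1 j.2.1 j.2.2.2
  have hδ := hd.hδ
  have hcos : 0 < Real.cos (j.1.2 - θ₀) := by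
    have h1 := abs_le.1 (hang.trans hδ)
    have h2 := Real.pi_pos
    exact Real.cos_pos_of_mem_Ioo ⟨by linarith [h1.1], by linarith [h1.2]⟩
  have hlim : Tendsto (fun z => (1 - a) * ((h z).im - τ j * (h z).re) +
      a * ((g z).im - τ j * (g z).re) - y₀)
      (nearIn (un c ∪ un c'')ᶜ j.1.1)
      (𝓝 ((1 - a) * (q' / Real.cos (j.1.2 - θ₀)) + a * (q / Real.cos (j.1.2 - θ₀)) - y₀)) := by
    have h1 := (hq'.mono_left (nearIn_mono hsc.2 subset_rfl)).div_const (Real.cos (j.1.2 - θ₀))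
    have h2 := (hq.mono_left (nearIn_mono hsc.1 subset_rfl)).div_const (Real.cos (j.1.2 - θ₀))
    refine (((h1.const_mul (1 - a)).add (h2.const_mul a)).sub_const y₀).congr fun z => ?_
    rw [nrm_eq, nrm_eq, hτ j, Real.tan_eq_sin_div_cos]
    field_simp
  have hlim2 : Tendsto (fun z => ((h z).im - y₀ + χ z * (g z - h z).im) -
      τ j * ((h z).re + χ z * (g z - h z).re))
      (nearIn (un c ∪ un c'')ᶜ j.1.1)
      (𝓝 ((1 - a) * (q' / Real.cos (j.1.2 - θ₀)) + a * (q / Real.cos (j.1.2 - θ₀)) - y₀)) := by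
    refine hlim.congr' ?_
    have h1 : ∀ᶠ z in nearIn (un c ∪ un c'')ᶜ j.1.1, χ z = a := ha.filter_mono inf_le_left
    filter_upwards [h1] with z hz
    rw [hz, sub_im, sub_re]
    ring
  refine ⟨(1 - a) * (q' / Real.cos (j.1.2 - θ₀)) + a * (q / Real.cos (j.1.2 - θ₀)) - y₀, ?_⟩
  rw [tendsto_def]
  intro N hN
  obtain ⟨U, hU, hjU, hUN⟩ := eventually_nearIn.1 (hlim2 hN)
  obtain ⟨V, hV, hjV, hVa⟩ := mem_nhdsSet_iff_exists.1 ha
  -- the other slits are away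
  have hother : ∀ᶠ w in 𝓝ˢ (S'' j.1), ∀ k ∈ c'', k ≠ j.1 → w ∉ S'' k := by
    have h1 : IsClosed (⋃ k ∈ {k : Set ℂ × ℝ | k ∈ c'' ∧ k ≠ j.1}, S'' k) := by
      have hfin : {k : Set ℂ × ℝ | k ∈ c'' ∧ k ≠ j.1}.Finite :=
        c''.finite_toSet.subset fun k hk => hk.1
      exact hfin.isClosed_biUnion fun k hk => (hd.sh.compactS hk.1).isClosed
    have h2 : (⋃ k ∈ {k : Set ℂ × ℝ | k ∈ c'' ∧ k ≠ j.1}, S'' k)ᶜ ∈ 𝓝ˢ (S'' j.1) := by
      refine h1.isOpen_compl.mem_nhdsSet.2 ?_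
      intro w hw hw'
      obtain ⟨k, hk, hwk⟩ := mem_iUnion₂.1 hw'
      exact Set.disjoint_left.1 (hd.sh.disj k hk.1 j.1 (hd.near_mem'' j).1 hk.2) hwk hw
    filter_upwards [h2] with w hw k hk hkj hwk
    exact hw (mem_iUnion₂.2 ⟨k, ⟨hk, hkj⟩, hwk⟩)
  have hof := hd.sh.ofS j.1 (hd.near_mem'' j).1 (U ∩ V)
    ((hU.inter hV).mem_nhdsSet.2 (subset_inter hjU hjV))
  rw [← hp j]
  have h5 : ∀ᶠ w in nearIn (H ∪ SF p'' τ ℓ'')ᶜ (S'' j.1), w ∈ (H ∪ SF p'' τ ℓ'')ᶜ := by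
    refine Filter.Eventually.filter_mono inf_le_right ?_
    exact mem_principal_self _
  filter_upwards [hother.filter_mono inf_le_left, hof.filter_mono inf_le_left, h5]
    with w h1 h2 h3
  have h3H : w ∉ H := fun h6 => h3 (Or.inl h6)
  have h4 : w ∉ S'' j.1 := by
    intro h6
    apply h3
    right
    refine mem_iUnion.2 ⟨j, ?_⟩
    rw [← hp j]
    exact h6
  have h6 : w ∈ h '' (un c'')ᶜ := by
    rw [hd.sh.image]
    intro h7
    obtain ⟨k, hk, hwk⟩ := mem_iUnion₂.1 h7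
    by_cases hkj : k = j.1
    · rw [hkj] at hwk
      exact h4 hwk
    · exact h1 k hk hkj hwk
  obtain ⟨z, hz, hzw⟩ := h6
  obtain ⟨hzU, hzV⟩ := h2 z hz hzw
  have h7 : z ∈ tsupport χ := by
    refine subset_tsupport _ ?_
    rw [Function.mem_support, show χ z = a from hVa hzV]
    exact ha0.ne'
  rw [← hzw] at h3H
  have hzD := g9_mem hd hHB h7 hz h3H
  have hzU' : z ∈ (un c ∪ un c'')ᶜ ∩ h ⁻¹' Hᶜ := ⟨hzD, h3H⟩
  have h8 := hUN z ⟨hzU, hzD⟩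
  rw [← hzw, mem_preimage, push_apply hinj _ hzU', push_apply hinj _ hzU']
  exact h8

end aux

theorem LocData.stepB_data {θ₀ δ M r : ℝ} {χ : ℂ → ℝ} {B : Set ℂ} {c c'' : Cfg} {g h : ℂ → ℂ}
    {S S'' : Set ℂ × ℝ → Set ℂ} (hd : LocData θ₀ δ M r χ B c c'' g h S S'') {δ₁ ε₂ δB : ℝ}
    (hδ₁ : 0 ≤ δ₁) (hk : ∀ z ∈ tsupport (fderiv ℝ χ), ‖h z - g z‖ ≤ δ₁)
    (hε₂ : ∫ z in (un c ∪ un c'')ᶜ, χ z * ‖deriv h z - deriv g z‖ ^ 2 ≤ ε₂)
    (hsmall : δ₁ ^ 2 * ∫ z, ‖fderiv ℝ χ z‖ ^ 2 ≤ 1) (hδB0 : 0 < δB)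
    (hδB : 2 * ε₂ + 2 * (δ₁ ^ 2 * ∫ z, ‖fderiv ℝ χ z‖ ^ 2) ≤ δB ^ 2)
    {p₀ : ℂ} {ℓ₀ : ℝ} (hℓ₀ : 0 < ℓ₀) (hS₀ : S (B, θ₀) = slit p₀ 0 ℓ₀)
    {τ ℓ'' : NearI c χ (B, θ₀) → ℝ} {p'' : NearI c χ (B, θ₀) → ℂ}
    (hp : ∀ k, τ k = Real.tan (k.1.2 - θ₀) ∧ |τ k| ≤ 2 * δ ∧ 0 < ℓ'' k ∧
      S'' k.1 = slit (p'' k) (τ k) (ℓ'' k)) :
    ∃ (H : Set ℂ) (Ψ : ℂ → ℂ) (s s₁ x₀ y₀ lam : ℝ) (u v : ℂ → ℝ),
      StepBData p'' τ ℓ'' (2 * δ) M (10 * (M + 1)) δB H Ψ 0 s s₁ x₀ y₀ lam u v ∧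
      ∀ z ∈ B, z ∉ un c'' → h z ∈ H := by
  have hp4 : ∀ k, S'' k.1 = slit (p'' k) (τ k) (ℓ'' k) := fun k => (hp k).2.2.2
  have hfin : Finite (NearI c χ (B, θ₀)) := LocData.finite_near c χ (B, θ₀)
  have hD := hd.openD
  have hsc := g9_subset c c''
  have hMp := hd.hM
  -- the slit of the hole `B`
  have hbx : ∀ z ∈ slit p₀ 0 ℓ₀, |z.re| ≤ M ∧ |z.im| ≤ M := by
    intro z hz
    rw [← hS₀] at hz
    have h1 := mem_closedBall_zero_iff.1 ((hd.slit_ball (g9_bmeet hd)).1 hd.hB hz)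
    exact ⟨(abs_re_le_norm z).trans h1, (abs_im_le_norm z).trans h1⟩
  have hq0 := hbx (p₀ + (0 : ℝ) * (1 + (0 : ℝ) * I)) ⟨0, ⟨le_rfl, hℓ₀.le⟩, rfl⟩
  have hq1 := hbx (p₀ + (ℓ₀ : ℝ) * (1 + (0 : ℝ) * I)) ⟨ℓ₀, ⟨hℓ₀.le, le_rfl⟩, rfl⟩
  simp only [ofReal_zero, zero_mul, add_zero, mul_one] at hq0 hq1
  rw [add_re, ofReal_re] at hq1
  have hl : ℓ₀ / 2 ≤ M := by
    have h1 := (abs_le.1 hq0.1).1
    have h2 := (abs_le.1 hq1.1).2
    linarith
  have hx : |p₀.re + ℓ₀ / 2| ≤ M := by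
    have h1 := abs_le.1 hq0.1
    have h2 := abs_le.1 hq1.1
    rw [abs_le]
    constructor
    · linarith
    · linarith
  -- the choice of `σ`
  obtain ⟨σ, hσ, hσ1, hσ2⟩ : ∃ σ : ℝ, 0 < σ ∧ ℓ₀ / 2 * Real.sinh σ < δB ∧
      ℓ₀ / 2 * Real.cosh σ < 10 * (M + 1) := by
    have h1 : ∀ᶠ t in 𝓝[>] (0 : ℝ), ℓ₀ / 2 * Real.sinh t < δB := by
      have hc : Continuous fun t : ℝ => ℓ₀ / 2 * Real.sinh t :=
        continuous_const.mul Real.continuous_sinh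
      have ht := hc.tendsto 0
      simp only [Real.sinh_zero, mul_zero] at ht
      exact (ht.mono_left nhdsWithin_le_nhds).eventually (gt_mem_nhds hδB0)
    have h2 : ∀ᶠ t in 𝓝[>] (0 : ℝ), ℓ₀ / 2 * Real.cosh t < 10 * (M + 1) := by
      have hc : Continuous fun t : ℝ => ℓ₀ / 2 * Real.cosh t :=
        continuous_const.mul Real.continuous_cosh
      have ht := hc.tendsto 0
      simp only [Real.cosh_zero, mul_one] at ht
      exact (ht.mono_left nhdsWithin_le_nhds).eventually (gt_mem_nhds (by linarith))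
    obtain ⟨t, ⟨ht1, ht2⟩, ht3⟩ := ((h1.and h2).and self_mem_nhdsWithin).exists
    exact ⟨t, ht3, ht1, ht2⟩
  obtain ⟨H, Ψ, s, s₁, hs0, hsσ, hcol, hHM, hHB, hHi, hHd, hΨ⟩ :=
    hd.exists_collar hℓ₀ hS₀ hσ
  have hHc : IsClosed H := hcol.compact.isClosed
  set U : Set ℂ := (un c ∪ un c'')ᶜ ∩ h ⁻¹' Hᶜ with hUdef
  have hh : DifferentiableOn ℂ h (un c ∪ un c'')ᶜ := hd.sh.diff.mono hsc.2
  have hg : DifferentiableOn ℂ g (un c ∪ un c'')ᶜ := hd.sg.diff.mono hsc.1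
  have hU : IsOpen U := hh.continuousOn.isOpen_inter_preimage hD hHc.isOpen_compl
  have hUD : U ⊆ (un c ∪ un c'')ᶜ := inter_subset_left
  have hDw : IsOpen (H ∪ SF p'' τ ℓ'')ᶜ :=
    (hHc.union (isClosed_iUnion_of_finite fun k => (isCompact_slit _ _ _).isClosed)).isOpen_compl
  have hsub : h '' U ⊆ (H ∪ SF p'' τ ℓ'')ᶜ := by
    rintro _ ⟨z, hz, rfl⟩ hw
    rcases hw with hw | hw
    · exact hz.2 hw
    · exact g9_notSF hd hp4 (hsc.2 hz.1) hw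
  have hcl := g9_closure hd hHB hHi hp4
  have hinj : InjOn h U := hd.sh.inj.mono (hUD.trans hsc.2)
  obtain ⟨n1, n2, n3, n4⟩ := hd.nice_D
  have hnre : Nice U (ball 0 r) (fun z => (g z - h z).re) :=
    g9_nice_mono ((n1.sub hD n3).congr hD fun z _ => sub_re _ _) hUD
  have hnim : Nice U (ball 0 r) (fun z => (g z - h z).im) :=
    g9_nice_mono ((n2.sub hD n4).congr hD fun z _ => sub_im _ _) hUD
  have hgd : ∀ z ∈ (un c ∪ un c'')ᶜ, DifferentiableAt ℂ g z := fun z hz =>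
    hg.differentiableAt (hD.mem_nhds hz)
  have hhd : ∀ z ∈ (un c ∪ un c'')ᶜ, DifferentiableAt ℂ h z := fun z hz =>
    hh.differentiableAt (hD.mem_nhds hz)
  obtain ⟨u1, u2, u3, u4, u5, u6⟩ := g9_core hd hk hε₂ hsmall hδB hDw hU hUD hsub hcl hnre
    (fun z => by rw [norm_sub_rev]; exact abs_re_le_norm _)
    (fun z hz => (g9_fd (hgd z (hUD hz)) (hhd z (hUD hz))).1)
  obtain ⟨v1, v2, v3, v4, v5, v6⟩ := g9_core hd hk hε₂ hsmall hδB hDw hU hUD hsub hcl hnim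
    (fun z => by rw [norm_sub_rev]; exact abs_im_le_norm _)
    (fun z hz => (g9_fd (hgd z (hUD hz)) (hhd z (hUD hz))).2)
  have hΨU : ∀ ξ : ℂ, s < ξ.re → ξ.re < s₁ → ∃ z ∈ U, χ z = 1 ∧
      g z = jou p₀ (p₀ + ℓ₀) ξ ∧ Ψ ξ = h z := by
    intro ξ h1 h2
    obtain ⟨z, hz1, hz2, hz3, hz4⟩ := hΨ ξ (hs0.trans h1) h2
    refine ⟨z, ⟨hz1, ?_⟩, hz2, hz3, hz4⟩
    have h3 := hcol.out ξ h1 h2
    rw [hz4] at h3
    exact h3
  refine ⟨H, Ψ, s, s₁, p₀.re + ℓ₀ / 2, p₀.im, ℓ₀ / 2,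
    push U h (fun z => χ z * (g z - h z).re), push U h (fun z => χ z * (g z - h z).im), ?_, hHB⟩
  exact
    { fam := ⟨hfin, fun k => (hp k).2.2.1, fun k => (hp k).2.1, fun k z hz => by
          rw [← hp4 k] at hz
          have h1 := mem_closedBall_zero_iff.1
            ((hd.slit_ball k.2.2.2).2 (hd.near_mem'' k).1 hz)
          exact ⟨(abs_re_le_norm z).trans h1, (abs_im_le_norm z).trans h1⟩,
        fun i j hij => by
          rw [← hp4 i, ← hp4 j]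
          exact hd.sh.disj i.1 (hd.near_mem'' i).1 j.1 (hd.near_mem'' j).1
            fun h => hij (Subtype.ext h)⟩
      collar := hcol
      ball := hHM
      disj := by
        refine Set.disjoint_iUnion_right.2 fun k => ?_
        rw [← hp4 k]
        exact (hHd k.1 (hd.near_mem'' k).1 (hd.near_mem'' k).2).symm
      off := by
        intro ξ h1 h2
        obtain ⟨z, hz1, hz2, hz3, hz4⟩ := hΨ ξ h1 h2
        rw [hz4]
        exact g9_notSF hd hp4 fun h3 => hz1 (Or.inr h3)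
      niceu := u1
      nicev := v1
      supp := fun z _ hz => ⟨u2 z hz, v2 z hz⟩
      bdd := fun z _ => ⟨u3 z, v3 z⟩
      enu := u4
      env := v4
      smv := by
        refine le_trans ?_ v6
        refine integral_mono_of_nonneg (Eventually.of_forall fun z => by positivity) v5
          (Eventually.of_forall fun z => ?_)
        have h1 := abs_dX_le (push U h (fun z => χ z * (g z - h z).im)) z
        have h2 := pow_le_pow_left₀ (abs_nonneg _) h1 2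
        rw [sq_abs] at h2
        exact h2
      compat := fun j => g9_compat hd p₀.im hHB hp4 (fun k => (hp k).1) j
      eqU := by
        intro ξ h1 h2
        obtain ⟨z, hz1, hz2, hz3, hz4⟩ := hΨU ξ h1 h2
        have h3 : push U h (fun z => χ z * (g z - h z).re) (h z) = (g z - h z).re := by
          rw [push_apply hinj _ hz1, hz2, one_mul]
        rw [hz4, h3, sub_re, ← (g9_jou p₀ ξ ℓ₀).1, ← hz3]
        ring
      eqV := by
        intro ξ h1 h2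
        obtain ⟨z, hz1, hz2, hz3, hz4⟩ := hΨU ξ h1 h2
        have h3 : push U h (fun z => χ z * (g z - h z).im) (h z) = (g z - h z).im := by
          rw [push_apply hinj _ hz1, hz2, one_mul]
        have h4 := (g9_jou p₀ ξ ℓ₀).2
        rw [← hz3] at h4
        rw [hz4, h3, sub_im]
        linarith
      hy₀ := hq0.2
      hx₀ := hx.trans (by linarith)
      hs := hs0.le
      hlam := by positivity
      hcosh := by
        refine le_trans ?_ hσ2.le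
        refine mul_le_mul_of_nonneg_left ?_ (by positivity)
        rw [Real.cosh_le_cosh, abs_of_pos hs0, abs_of_pos hσ]
        exact hsσ
      hsinh := by
        refine le_trans ?_ hσ1.le
        exact mul_le_mul_of_nonneg_left (Real.sinh_le_sinh.2 hsσ) (by positivity) }

end RSM2
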