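import Pool.Agent.RSM2.G2
import Pool.Agent.RSM2.G3
import Pool.Agent.RSM2.G4
import Pool.Agent.RSM2.G6
import Pool.Agent.RSM2.G9
import Pool.Agent.RSM2.A3
import Pool.Agent.RSM2.B7

/-!
# RSM2 module GA: the main analytic theorem

If `f` has the approximation property `Approx` at the component `K₀` of `A`, then
`nrm θ₀ ∘ f` has a limit at `K₀`.
-/

open Complex Set Metric Filter Topology MeasureTheory

namespace RSM2

theorem ga_small (E M a b : ℝ) (ha : 0 < a) (hb : 0 < b) :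
    ∃ t > 0, t ^ 2 * E ≤ a ∧ t * √E * (4 * M) ≤ b := by
  have h1 : Tendsto (fun t : ℝ => t ^ 2 * E) (𝓝[>] 0) (𝓝 0) := by
    have : Continuous fun t : ℝ => t ^ 2 * E := by fun_prop
    have h := this.tendsto 0
    simp only [ne_eq, OfNat.ofNat_ne_zero, not_false_eq_true, zero_pow, zero_mul] at h
    exact h.mono_left nhdsWithin_le_nhds
  have h2 : Tendsto (fun t : ℝ => t * √E * (4 * M)) (𝓝[>] 0) (𝓝 0) := by
    have : Continuous fun t : ℝ => t * √E * (4 * M) := by fun_prop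
    have h := this.tendsto 0
    simp only [zero_mul] at h
    exact h.mono_left nhdsWithin_le_nhds
  have h3 : ∀ᶠ t : ℝ in 𝓝[>] 0, 0 < t := self_mem_nhdsWithin
  obtain ⟨t, ⟨h4, h5⟩, h6⟩ :=
    (((h1.eventually_lt_const ha).and (h2.eventually_lt_const hb)).and h3).exists
  exact ⟨t, h6, h4.le, h5.le⟩

theorem ga_key {V A : Set ℂ} (hV : IsOpen V) (hA : IsCompact A) (hAV : A ⊆ V) {x₀ : ℂ}
    (hx₀ : x₀ ∈ A) {θ₀ : ℝ} {f : ℂ → ℂ} {R : ℝ} (hf : DifferentiableOn ℂ f (V \ A))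
    (happ : Approx V A (connectedComponentIn A x₀) θ₀ f R) {κ : ℝ} (hκ : 0 < κ) :
    ∃ B : Set ℂ, connectedComponentIn A x₀ ⊆ interior B ∧
      ∀ z ∈ interior B, z ∈ V \ A → ∀ z' ∈ interior B, z' ∈ V \ A →
        |nrm θ₀ (f z) - nrm θ₀ (f z')| ≤ κ := by
  classical
  have hKA : connectedComponentIn A x₀ ⊆ A := connectedComponentIn_subset _ _
  have hVA : IsOpen (V \ A) := hV.sdiff hA.isClosed
  obtain ⟨R₁, hR₁, hRR, hAR⟩ : ∃ R₁ : ℝ, 0 < R₁ ∧ R ≤ R₁ ∧ A ⊆ closedBall 0 R₁ := by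
    obtain ⟨a, ha⟩ := hA.isBounded.subset_closedBall 0
    refine ⟨max 1 (max R a), by positivity, le_max_of_le_right (le_max_left _ _),
      ha.trans (closedBall_subset_closedBall (le_max_of_le_right (le_max_right _ _)))⟩
  obtain ⟨r, hr⟩ : ∃ r : ℝ, r = R₁ + 1 := ⟨_, rfl⟩
  obtain ⟨M, hMdef⟩ : ∃ M : ℝ, M = r + 4 * R₁ := ⟨_, rfl⟩
  have hM : 0 < M := by rw [hMdef, hr]; positivity
  obtain ⟨δB, hδB, hstepB⟩ := stepB (R := M) (M := 10 * (M + 1)) (κ := κ / 2) hM (by positivity)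
    (by positivity)
  obtain ⟨δA, hδA, hstepA⟩ := stepA (R := M) (M := 10 * (M + 1)) (η := δB ^ 2 / 8) hM
    (by positivity) (by positivity)
  obtain ⟨δ, hδ, hδ1, hδ2, hδ3⟩ : ∃ δ > 0, 2 * δ ≤ δA ∧ 2 * δ ≤ δB ∧ δ ≤ Real.pi / 4 := by
    have h1 : δA / 2 ≥ min (min (δA / 2) (δB / 2)) (Real.pi / 4) :=
      (min_le_left _ _).trans (min_le_left _ _)
    have h2 : δB / 2 ≥ min (min (δA / 2) (δB / 2)) (Real.pi / 4) :=
      (min_le_left _ _).trans (min_le_right _ _)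
    refine ⟨min (min (δA / 2) (δB / 2)) (Real.pi / 4), ?_, by linarith, by linarith,
      min_le_right _ _⟩
    have := Real.pi_pos
    positivity
  obtain ⟨U₀, hU₀, hKU₀, hU₀V, happ'⟩ := happ δ hδ
  have hKr : connectedComponentIn A x₀ ⊆ U₀ ∩ ball 0 r := by
    intro z hz
    refine ⟨hKU₀ hz, ?_⟩
    have h := mem_closedBall_zero_iff.1 (hAR (hKA hz))
    rw [mem_ball_zero_iff]
    linarith
  obtain ⟨χ, hχ, hχU, hgood⟩ := exists_good_cutoff hV hA hAV hx₀ hf happ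
    (hU₀.inter isOpen_ball) hKr (ε := δA ^ 2 / 16) (by positivity)
  obtain ⟨E, hE⟩ : ∃ E : ℝ, E = ∫ z, ‖fderiv ℝ χ z‖ ^ 2 := ⟨_, rfl⟩
  obtain ⟨δ₁, hδ₁, hs1, hs2⟩ := ga_small E M (min 1 (min (δA ^ 2 / 4) (δB ^ 2 / 4))) (δB ^ 2 / 8)
    (by positivity) (by positivity)
  have hf₀ : DifferentiableOn ℂ (fun z => exp (-(θ₀ : ℂ) * I) * f z) (V \ A) :=
    hf.const_mul _
  obtain ⟨Q, hQW, hQc, hQi, δ₃, hδ₃, hea⟩ := ea_cont hVA hf₀ hχ.smooth hχ.compact hχ.sub_diff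
    (ε := δA ^ 2 / 16) (by positivity)
  obtain ⟨U₁, hU₁, hKU₁, hχU₁⟩ := mem_nhdsSet_iff_exists.1 hχ.one
  obtain ⟨B, hBU₁, hBc, hKB, hfr, happ''⟩ := happ' Q hQW hQc (δ₁ / 2) (by positivity) U₁ hU₁ hKU₁
  have hKV : connectedComponentIn A x₀ ⊆ V := hKA.trans hAV
  obtain ⟨χ', hχ', hχ'B⟩ := exists_cutOff hV hA hx₀ isOpen_interior hKB hKV
  have hBχ : ∀ z ∈ B, χ z = 1 := fun z hz => hχU₁ (hBU₁ hz)
  have hχ'0 : ∀ z, z ∉ interior B → χ' z = 0 := fun z hz =>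
    image_eq_zero_of_notMem_tsupport fun h => hz (hχ'B h)
  have hle : ∀ z, χ' z ≤ χ z := by
    intro z
    by_cases hz : z ∈ interior B
    · rw [hBχ z (interior_subset hz)]
      exact (hχ'.bd z).2
    · rw [hχ'0 z hz]
      exact (hχ.bd z).1
  obtain ⟨Q', hQ'W, hQ'c, hQ'i, δ₄, hδ₄, hea'⟩ := ea_cont hVA hf₀ hχ'.smooth hχ'.compact
    hχ'.sub_diff (ε := δA ^ 2 / 16) (by positivity)
  refine ⟨B, hKB, fun z hz hzV z' hz' hzV' => ?_⟩
  obtain ⟨δ₂, hδ₂, hd1, hd2, hd3, hd4⟩ : ∃ δ₂ > 0, δ₂ ≤ δ₃ ∧ δ₂ ≤ δ₄ ∧ δ₂ ≤ δ₁ / 2 ∧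
      δ₂ ≤ κ / 8 :=
    ⟨min (min δ₃ δ₄) (min (δ₁ / 2) (κ / 8)), by positivity,
      (min_le_left _ _).trans (min_le_left _ _), (min_le_left _ _).trans (min_le_right _ _),
      (min_le_right _ _).trans (min_le_left _ _), (min_le_right _ _).trans (min_le_right _ _)⟩
  obtain ⟨c, c'', G, G'', hvc, hvc'', hG, hG'', hcR, hcR'', hBc', hio, hshare, hang, hcQ, hcQ'',
    hcL'', hGQ, hGQ'', hGL''⟩ := happ'' (Q' ∪ {z, z'})
      (union_subset hQ'W (by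
        intro w hw
        rcases hw with rfl | hw
        · exact hzV
        · rw [mem_singleton_iff] at hw
          exact hw ▸ hzV'))
      (hQ'c.union (by simp : IsCompact ({z, z'} : Set ℂ))) δ₂ hδ₂
  obtain ⟨S, hS⟩ := exists_smap hvc hG θ₀
  obtain ⟨S'', hS''⟩ := exists_smap hvc'' hG'' θ₀
  have hcR1 : un c ⊆ closedBall 0 R₁ := hcR.trans (closedBall_subset_closedBall hRR)
  have hcR1'' : un c'' ⊆ closedBall 0 R₁ := hcR''.trans (closedBall_subset_closedBall hRR)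
  have hrot : ∀ w : ℂ, ‖exp (-(θ₀ : ℂ) * I) * w‖ = ‖w‖ := by
    intro w
    rw [norm_mul, show -(θ₀ : ℂ) * I = ((-θ₀ : ℝ) : ℂ) * I by push_cast; ring,
      Complex.norm_exp_ofReal_mul_I, one_mul]
  have hbg : ∀ w ∈ ball (0 : ℂ) r, w ∉ un c → ‖exp (-(θ₀ : ℂ) * I) * G w‖ ≤ M := by
    intro w hw hw'
    rw [hrot, hMdef]
    have := hG.bound hR₁ hcR1 hw'
    have h2 := mem_ball_zero_iff.1 hw
    linarith
  have hbh : ∀ w ∈ ball (0 : ℂ) r, w ∉ un c'' → ‖exp (-(θ₀ : ℂ) * I) * G'' w‖ ≤ M := by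
    intro w hw hw'
    rw [hrot, hMdef]
    have := hG''.bound hR₁ hcR1'' hw'
    have h2 := mem_ball_zero_iff.1 hw
    linarith
  have hdQ : tsupport (fderiv ℝ χ) ⊆ Q := hQi.trans interior_subset
  have hloc : LocData θ₀ δ M r χ B c c'' (fun z => exp (-(θ₀ : ℂ) * I) * G z)
      (fun z => exp (-(θ₀ : ℂ) * I) * G'' z) S S'' := by
    refine ⟨hvc, hvc'', hS, hS'', hBc', hio, ?_, ?_, hχ.smooth, ?_, hχ.bd, ?_, ?_, hbg, hbh, hδ3,
      hM⟩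
    · rintro k hk ⟨w, hw, hw'⟩
      exact hshare k hk ⟨w, hw, (hχU hw').1⟩
    · rintro k hk ⟨w, hw, hw'⟩
      exact hang k hk ⟨w, hw, (hχU hw').1⟩
    · exact fun w hw => (hχU hw).2
    · exact mem_nhdsSet_iff_exists.2 ⟨U₁, hU₁, hBU₁, hχU₁⟩
    · rw [disjoint_union_right]
      exact ⟨hcQ.symm.mono_left hdQ, hcQ''.symm.mono_left hdQ⟩
  -- the difference
  have hk : ∀ w ∈ tsupport (fderiv ℝ χ),
      ‖exp (-(θ₀ : ℂ) * I) * G'' w - exp (-(θ₀ : ℂ) * I) * G w‖ ≤ δ₁ := by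
    intro w hw
    rw [← mul_sub, hrot]
    have h1 := hGQ w (hdQ hw)
    have h2 := hGQ'' w (hdQ hw)
    have h3 : G'' w - G w = (G'' w - f w) - (G w - f w) := by ring
    rw [h3]
    refine (norm_sub_le _ _).trans ?_
    linarith
  -- energy of `h`
  have hB1 : interior B ⊆ ball 0 r := by
    intro w hw
    have h1 : w ∈ un c := subset_un hBc' (interior_subset hw)
    have h2 := mem_closedBall_zero_iff.1 (hcR1 h1)
    rw [mem_ball_zero_iff]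
    linarith
  obtain ⟨hi1, he1⟩ := energy_eq hvc'' hS'' hχ.smooth (fun w hw => (hχU hw).2) hbh
    (hcQ''.symm.mono_left hdQ)
  obtain ⟨hi2, he2⟩ := energy_eq hvc'' hS'' hχ'.smooth (hχ'B.trans hB1) hbh
    (hcL''.symm.mono_left (hQ'i.trans (interior_subset.trans subset_union_left)))
  have hdiffQ : DifferentiableOn ℂ (fun z => exp (-(θ₀ : ℂ) * I) * G'' z) (interior Q) :=
    hS''.diff.mono fun w hw hw' => disjoint_left.1 hcQ'' hw' (interior_subset hw)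
  have hdiffQ' : DifferentiableOn ℂ (fun z => exp (-(θ₀ : ℂ) * I) * G'' z) (interior Q') :=
    hS''.diff.mono fun w hw hw' => disjoint_left.1 hcL'' hw' (Or.inl (interior_subset hw))
  have hea1 := hea _ hdiffQ (by
    intro w hw
    rw [← mul_sub, hrot]
    exact (hGQ'' w hw).trans hd1)
  have hea2 := hea' _ hdiffQ' (by
    intro w hw
    rw [← mul_sub, hrot]
    exact (hGL'' w (Or.inl hw)).trans hd2)
  have hgd := hgood χ' hχ' hle
  have hmeas : MeasurableSet (un c'')ᶜ := hvc''.isOpen.measurableSet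
  have hmeasD : MeasurableSet (un c ∪ un c'')ᶜ := hloc.openD.measurableSet
  have hε₁ : ∫ z in (un c ∪ un c'')ᶜ,
      χ z * ‖deriv (fun z => exp (-(θ₀ : ℂ) * I) * G'' z) z‖ ^ 2 ≤ δA ^ 2 / 4 := by
    have h1 : ∫ z in (un c ∪ un c'')ᶜ,
        χ z * ‖deriv (fun z => exp (-(θ₀ : ℂ) * I) * G'' z) z‖ ^ 2 =
        ∫ z in (un c ∪ un c'')ᶜ,
          (χ z * ‖deriv (fun z => exp (-(θ₀ : ℂ) * I) * G'' z) z‖ ^ 2 -
            χ' z * ‖deriv (fun z => exp (-(θ₀ : ℂ) * I) * G'' z) z‖ ^ 2) := by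
      refine setIntegral_congr_fun hmeasD fun w hw => ?_
      have h2 : w ∉ interior B := fun h => hw (Or.inl (subset_un hBc' (interior_subset h)))
      simp only [hχ'0 w h2, zero_mul, sub_zero]
    have h2 : ∫ z in (un c ∪ un c'')ᶜ,
          (χ z * ‖deriv (fun z => exp (-(θ₀ : ℂ) * I) * G'' z) z‖ ^ 2 -
            χ' z * ‖deriv (fun z => exp (-(θ₀ : ℂ) * I) * G'' z) z‖ ^ 2) ≤
        ∫ z in (un c'')ᶜ,
          (χ z * ‖deriv (fun z => exp (-(θ₀ : ℂ) * I) * G'' z) z‖ ^ 2 -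
            χ' z * ‖deriv (fun z => exp (-(θ₀ : ℂ) * I) * G'' z) z‖ ^ 2) := by
      refine setIntegral_mono_set (hi1.sub hi2) ?_ ?_
      · refine Eventually.of_forall fun w => ?_
        simp only [Pi.zero_apply]
        rw [← sub_mul]
        exact mul_nonneg (sub_nonneg.2 (hle w)) (by positivity)
      · exact (compl_subset_compl.2 subset_union_right).eventuallyLE
    rw [h1]
    refine h2.trans ?_
    rw [integral_sub hi1 hi2, he1, he2]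
    have h3 := (abs_le.1 hea1).2
    have h4 := (abs_le.1 hea2).1
    have h5 := sq_nonneg δA
    linarith
  -- parameters of the slits
  obtain ⟨p₀, ℓ₀, hℓ₀, hS₀, τ, p, p'', ℓ, ℓ'', hp⟩ := hloc.param
  have hE1 : δ₁ ^ 2 * ∫ z, ‖fderiv ℝ χ z‖ ^ 2 ≤ 1 := by
    rw [← hE]
    exact hs1.trans (min_le_left _ _)
  have hE2 : δ₁ ^ 2 * ∫ z, ‖fderiv ℝ χ z‖ ^ 2 ≤ δA ^ 2 / 4 := by
    rw [← hE]
    exact hs1.trans ((min_le_right _ _).trans (min_le_left _ _))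
  have hE3 : δ₁ ^ 2 * ∫ z, ‖fderiv ℝ χ z‖ ^ 2 ≤ δB ^ 2 / 4 := by
    rw [← hE]
    exact hs1.trans ((min_le_right _ _).trans (min_le_right _ _))
  have hdA := hloc.stepA_data hδ₁.le hk hε₁ hE1 (δA := δA) (by linarith) hℓ₀ hS₀
    (τ := τ) (ℓ := ℓ) (p := p)
    (fun k => ⟨(hp k).1, (hp k).2.1, (hp k).2.2.1, (hp k).2.2.2.2.1⟩)
  obtain ⟨X, X', hX, hX', hFl⟩ := hloc.flux_transfer hℓ₀ hS₀ (τ := τ) (ℓ := ℓ) (p := p)
    (fun k => ⟨(hp k).2.2.1, (hp k).2.2.2.2.1⟩)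
  have hA1 := hstepA (2 * δ) (by positivity) hδ1 _ p τ ℓ p₀ ℓ₀ _ _ hdA X' hX'
  rw [← hFl] at hA1
  have hen := hloc.energy_flux hX hδ₁.le hk
  have hε₂ : ∫ z in (un c ∪ un c'')ᶜ, χ z *
      ‖deriv (fun z => exp (-(θ₀ : ℂ) * I) * G'' z) z -
        deriv (fun z => exp (-(θ₀ : ℂ) * I) * G z) z‖ ^ 2 ≤ δB ^ 2 / 4 := by
    refine hen.trans ?_
    rw [← hE]
    linarith
  obtain ⟨H, Ψ, s, s₁, x₁, y₁, lam, u, v, hdB, hH⟩ := hloc.stepB_data hδ₁.le hk hε₂ hE1 hδB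
    (by linarith) hℓ₀ hS₀ (τ := τ) (ℓ'' := ℓ'') (p'' := p'')
    (fun k => ⟨(hp k).1, (hp k).2.1, (hp k).2.2.2.1, (hp k).2.2.2.2.2⟩)
  have hzc : z ∉ un c'' := fun h => disjoint_left.1 hcL'' h (Or.inr (Or.inl rfl))
  have hzc' : z' ∉ un c'' := fun h => disjoint_left.1 hcL'' h (Or.inr (Or.inr rfl))
  have hfin := hstepB (2 * δ) (by positivity) hδ2 _ p'' τ ℓ'' H Ψ 0 s s₁ x₁ y₁ lam u v hdB _
    (hH z (interior_subset hz) hzc) _ (hH z' (interior_subset hz') hzc')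
  have hfin' : |nrm θ₀ (G'' z) - nrm θ₀ (G'' z')| ≤ κ / 2 := hfin
  have h1 : |nrm θ₀ (G'' z) - nrm θ₀ (f z)| ≤ κ / 8 := by
    rw [← nrm_sub]
    exact (abs_nrm_le _ _).trans ((hGL'' z (Or.inr (Or.inl rfl))).trans hd4)
  have h2 : |nrm θ₀ (G'' z') - nrm θ₀ (f z')| ≤ κ / 8 := by
    rw [← nrm_sub]
    exact (abs_nrm_le _ _).trans ((hGL'' z' (Or.inr (Or.inr rfl))).trans hd4)
  rw [abs_le] at *
  constructor <;> linarith

theorem good_of_approx {V A : Set ℂ} (hV : IsOpen V) (hA : IsCompact A) (hAV : A ⊆ V) {x₀ : ℂ}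
    (hx₀ : x₀ ∈ A) {θ₀ : ℝ} {f : ℂ → ℂ} {R : ℝ} (hf : DifferentiableOn ℂ f (V \ A))
    (happ : Approx V A (connectedComponentIn A x₀) θ₀ f R) :
    ∃ q : ℝ, Tendsto (fun z => nrm θ₀ (f z)) (nearIn (V \ A) (connectedComponentIn A x₀))
      (𝓝 q) := by
  by_cases hb : (nearIn (V \ A) (connectedComponentIn A x₀)).NeBot
  · have hc : Cauchy (map (fun z => nrm θ₀ (f z))
        (nearIn (V \ A) (connectedComponentIn A x₀))) := by
      rw [Metric.cauchy_iff]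
      refine ⟨hb.map _, fun ε hε => ?_⟩
      obtain ⟨B, hB, h⟩ := ga_key hV hA hAV hx₀ hf happ (half_pos hε)
      refine ⟨(fun z => nrm θ₀ (f z)) '' (interior B ∩ (V \ A)), image_mem_map
        (mem_nearIn.2 ⟨interior B, isOpen_interior, hB, subset_rfl⟩), ?_⟩
      rintro _ ⟨z, hz, rfl⟩ _ ⟨z', hz', rfl⟩
      rw [Real.dist_eq]
      exact (h z hz.1 hz.2 z' hz'.1 hz'.2).trans_lt (half_lt_self hε)
    obtain ⟨q, hq⟩ := CompleteSpace.complete hc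
    exact ⟨q, hq⟩
  · rw [not_neBot] at hb
    rw [hb]
    exact ⟨0, tendsto_bot⟩

end RSM2
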