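import Pool.Agent.RSM2.K2

/-!
# RSM2 module H1: points of finite Dirichlet energy are good

PROOF of `EnergyAt.goodAt`.  Let `η > 0`; we may assume `r ≤ 1` (the integrals over the smaller disc are
smaller: the integrand is continuous and nonnegative).  Let
`ℓ n ρ = ∫⁻ t in Icc 0 (2π), ‖fderiv ℝ (Θ n) (circleMap ζ ρ t)‖ ρ`, measurable in `ρ`.
(1) `eVariationOn (Θ n ∘ circleMap ζ ρ) (Icc 0 (2π)) ≤ ℓ n ρ` (`C¹` function: `|φ b - φ a| ≤ ∫ |φ'|`).
(2) Cauchy-Schwarz and polar coordinates (as in K2, `exists_radius`):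
`∫⁻ ρ in (0, r), (ℓ n ρ)² / ρ ≤ 2π ∫⁻ over ball ζ r of ‖∇ Θ n‖² ≤ 2π C`.
So for `T n = {ρ ∈ (0, r) | η < ℓ n ρ}`, measurable, `∫⁻ ρ in T n, 1/ρ ≤ 2π C / η²`.
(3) Let `B = ⋃ N, ⋂ n ≥ N, T n` (increasing union): `∫⁻ ρ in B, 1/ρ ≤ 2π C / η² < ∞`.
(4) If `ρ ∈ (0, r) \ B`, then `ℓ n ρ ≤ η` for infinitely many `n`; by the lower semicontinuity of the
variation for pointwise convergence (`eVariationOn.lowerSemicontinuous_aux`) on
`{t ∈ Icc 0 (2π) | circleMap ζ ρ t ∈ ntPart E}` (where `circleMap ζ ρ t ∈ E ∩ ball ζ r`)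
`ρ ∈ goodRadii E θ ζ η`.
(5) `∫⁻ ρ in (0, r), 1/ρ = ∞`, so `∫⁻ over (0, r) \ B = ∞`.
-/

set_option linter.all false

open Complex Set Metric Filter Topology MeasureTheory

namespace RSM2

/-- Near `ζ` the function `θ` is, on `E`, the pointwise limit of `C¹` functions with bounded
Dirichlet integrals. -/
def EnergyAt (E : Set ℂ) (θ : ℂ → ℝ) (ζ : ℂ) : Prop :=
  ∃ r > 0, ∃ (Θ : ℕ → ℂ → ℝ) (C : ℝ), (∀ n, ContDiff ℝ 1 (Θ n)) ∧
    (∀ n, ∫ z in ball ζ r, ‖fderiv ℝ (Θ n) z‖ ^ 2 ≤ C) ∧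
    ∀ z ∈ E ∩ ball ζ r, Tendsto (fun n => Θ n z) atTop (𝓝 (θ z))

/-- Polar coordinates around `ζ`, angles in `[0, 2π]`. -/
private theorem h1_polar {F : ℂ → ENNReal} (hF : Measurable F) (ζ : ℂ) :
    ∫⁻ ρ in Ioi (0 : ℝ), ∫⁻ t in Icc 0 (2 * Real.pi), ENNReal.ofReal ρ * F (circleMap ζ ρ t) =
      ∫⁻ z, F z := by
  have hcm : ∀ p : ℝ × ℝ, ζ + Complex.polarCoord.symm p = circleMap ζ p.1 p.2 := by
    intro p
    rw [Complex.polarCoord_symm_apply, circleMap, Complex.exp_mul_I]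
    push_cast
    ring
  have hcmc : Continuous fun p : ℝ × ℝ => circleMap ζ p.1 p.2 := by
    unfold circleMap
    fun_prop
  have hKm : Measurable fun p : ℝ × ℝ => ENNReal.ofReal p.1 * F (circleMap ζ p.1 p.2) :=
    measurable_fst.ennreal_ofReal.mul (hF.comp hcmc.measurable)
  rw [← lintegral_add_left_eq_self F ζ, ← Complex.lintegral_comp_polarCoord_symm,
    polarCoord_target, Measure.volume_eq_prod, ← Measure.prod_restrict]
  simp_rw [hcm, smul_eq_mul]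
  rw [lintegral_prod _ hKm.aemeasurable]
  refine lintegral_congr fun ρ => ?_
  have hper : ∀ t : ℝ, circleMap ζ ρ (t + 2 * Real.pi) = circleMap ζ ρ t := periodic_circleMap ζ ρ
  rw [setLIntegral_congr (Ioc_ae_eq_Icc (a := (0 : ℝ)) (b := 2 * Real.pi)).symm,
    setLIntegral_congr (Ioo_ae_eq_Ioc (a := -Real.pi) (b := Real.pi))]
  have h1 := isAddFundamentalDomain_Ioc Real.two_pi_pos 0
  have h2 := isAddFundamentalDomain_Ioc Real.two_pi_pos (-Real.pi)
  have hp : Function.Periodic (fun t => ENNReal.ofReal ρ * F (circleMap ζ ρ t))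
      (2 * Real.pi) := by
    intro t
    show ENNReal.ofReal ρ * F (circleMap ζ ρ (t + 2 * Real.pi)) = _
    rw [periodic_circleMap ζ ρ t]
  have h3 := h1.setLIntegral_eq h2 (fun t => ENNReal.ofReal ρ * F (circleMap ζ ρ t))
    hp.map_vadd_zmultiples
  have e1 : -Real.pi + 2 * Real.pi = Real.pi := by ring
  rw [zero_add, e1] at h3
  exact h3

private theorem h1_cs {μ : Measure ℝ} {f : ℝ → ENNReal} (hf : Measurable f) :
    (∫⁻ t, f t ∂μ) ^ 2 ≤ μ univ * ∫⁻ t, f t ^ 2 ∂μ := by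
  have h := ENNReal.lintegral_mul_le_Lp_mul_Lq μ Real.HolderConjugate.two_two
    hf.aemeasurable (aemeasurable_const (b := (1 : ENNReal)))
  simp only [Pi.mul_apply, mul_one, ENNReal.one_rpow, lintegral_one] at h
  have h2 := pow_le_pow_left' h 2
  rw [mul_pow] at h2
  have hsq : ∀ x : ENNReal, (x ^ (1 / (2 : ℝ))) ^ 2 = x := by
    intro x
    rw [← ENNReal.rpow_natCast, ← ENNReal.rpow_mul]
    norm_num
  rw [hsq, hsq, mul_comm] at h2
  have he : ∀ t, f t ^ (2 : ℝ) = f t ^ 2 := fun t => by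
    rw [← ENNReal.rpow_natCast]
    norm_num
  simp_rw [he] at h2
  exact h2

private theorem h1_var {φ : ℝ → ℝ} (hφ : ContDiff ℝ 1 φ) (a b : ℝ) :
    eVariationOn φ (Icc a b) ≤ ∫⁻ t in Icc a b, ‖deriv φ t‖ₑ := by
  have hd : ∀ x y, x ≤ y → edist (φ y) (φ x) ≤ ∫⁻ t in Ioc x y, ‖deriv φ t‖ₑ := by
    intro x y hxy
    have hc : Continuous (deriv φ) := hφ.continuous_deriv le_rfl
    have h1 : ∫ t in x..y, deriv φ t = φ y - φ x :=
      intervalIntegral.integral_deriv_eq_sub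
        (fun t _ => (hφ.differentiable one_ne_zero).differentiableAt) (hc.intervalIntegrable x y)
    rw [edist_eq_enorm_sub, ← h1, intervalIntegral.integral_of_le hxy]
    exact enorm_integral_le_lintegral_enorm _
  refine iSup_le ?_
  rintro ⟨m, ⟨u, hu, hus⟩⟩
  show ∑ i ∈ Finset.range m, edist (φ (u (i + 1))) (φ (u i)) ≤ _
  have key : ∀ m, ∑ i ∈ Finset.range m, edist (φ (u (i + 1))) (φ (u i)) ≤
      ∫⁻ t in Ioc (u 0) (u m), ‖deriv φ t‖ₑ := by
    intro m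
    induction m with
    | zero => simp
    | succ m ih =>
      have h2 : Ioc (u 0) (u (m + 1)) = Ioc (u 0) (u m) ∪ Ioc (u m) (u (m + 1)) :=
        (Ioc_union_Ioc_eq_Ioc (hu (Nat.zero_le m)) (hu (Nat.le_succ m))).symm
      rw [Finset.sum_range_succ, h2, lintegral_union measurableSet_Ioc
        (Set.disjoint_left.2 fun x hx hx' => absurd hx'.1 (not_lt.2 hx.2))]
      exact add_le_add ih (hd _ _ (hu (Nat.le_succ m)))
  refine (key m).trans (lintegral_mono_set ?_)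
  intro t ht
  exact ⟨(hus 0).1.trans ht.1.le, ht.2.trans (hus m).2⟩

private theorem h1_circ {Θ : ℂ → ℝ} (hΘ : ContDiff ℝ 1 Θ) (ζ : ℂ) {ρ : ℝ} (hρ : 0 < ρ) :
    eVariationOn (fun t => Θ (circleMap ζ ρ t)) (Icc 0 (2 * Real.pi)) ≤
      ENNReal.ofReal ρ * ∫⁻ t in Icc 0 (2 * Real.pi),
        ENNReal.ofReal ‖fderiv ℝ Θ (circleMap ζ ρ t)‖ := by
  have hφ : ContDiff ℝ 1 (fun t => Θ (circleMap ζ ρ t)) := hΘ.comp (contDiff_circleMap ζ ρ)
  refine (h1_var hφ 0 (2 * Real.pi)).trans ?_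
  rw [← lintegral_const_mul' _ _ ENNReal.ofReal_ne_top]
  refine lintegral_mono fun t => ?_
  have h1 : HasDerivAt (fun t => Θ (circleMap ζ ρ t))
      (fderiv ℝ Θ (circleMap ζ ρ t) (circleMap 0 ρ t * I)) t :=
    ((hΘ.differentiable one_ne_zero) (circleMap ζ ρ t)).hasFDerivAt.comp_hasDerivAt t
      (hasDerivAt_circleMap ζ ρ t)
  show ‖deriv (fun t => Θ (circleMap ζ ρ t)) t‖ₑ ≤ _
  rw [h1.deriv, ← ENNReal.ofReal_mul hρ.le, ← ofReal_norm_eq_enorm]
  refine ENNReal.ofReal_le_ofReal ?_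
  refine (ContinuousLinearMap.le_opNorm _ _).trans (le_of_eq ?_)
  rw [norm_mul, norm_I, mul_one, norm_circleMap_zero, abs_of_pos hρ, mul_comm]

private theorem h1_top {r : ℝ} (hr : 0 < r) : ∫⁻ ρ in Ioo 0 r, ENNReal.ofReal ρ⁻¹ = ⊤ := by
  by_contra hne
  have h1 : IntegrableOn (fun ρ : ℝ => ρ⁻¹) (Ioo 0 r) := by
    refine ⟨measurable_inv.aestronglyMeasurable, ?_⟩
    rw [hasFiniteIntegral_iff_norm]
    refine lt_of_le_of_lt (le_of_eq ?_) (lt_top_iff_ne_top.2 hne)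
    refine setLIntegral_congr_fun measurableSet_Ioo fun ρ hρ => ?_
    show ENNReal.ofReal ‖ρ⁻¹‖ = _
    rw [Real.norm_of_nonneg (inv_nonneg.2 hρ.1.le)]
  have h2 : IntervalIntegrable (fun ρ : ℝ => ρ⁻¹) volume 0 r := by
    rw [intervalIntegrable_iff_integrableOn_Ioo_of_le hr.le]
    exact h1
  rw [intervalIntegrable_inv_iff] at h2
  rcases h2 with h3 | h3
  · exact hr.ne h3
  · exact h3 left_mem_uIcc

theorem EnergyAt.goodAt {E : Set ℂ} {θ : ℂ → ℝ} {ζ : ℂ} (h : EnergyAt E θ ζ) :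
    GoodAt E θ ζ := by
  intro η hη
  obtain ⟨r₀, hr₀, Θ, C, hΘ, hC, hlim⟩ := h
  obtain ⟨r, hr⟩ : ∃ r, r = min r₀ 1 := ⟨_, rfl⟩
  have hrpos : 0 < r := by rw [hr]; exact lt_min hr₀ one_pos
  have hr1 : r ≤ 1 := by rw [hr]; exact min_le_right _ _
  have hrr : r ≤ r₀ := by rw [hr]; exact min_le_left _ _
  set f : ℕ → ℂ → ENNReal := fun n z => ENNReal.ofReal ‖fderiv ℝ (Θ n) z‖ with hf
  have hfc : ∀ n, Continuous (fun z => ‖fderiv ℝ (Θ n) z‖) := fun n =>
    ((hΘ n).continuous_fderiv one_ne_zero).norm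
  have hfm : ∀ n, Measurable (f n) := fun n => (hfc n).measurable.ennreal_ofReal
  have hcmc : Continuous fun p : ℝ × ℝ => circleMap ζ p.1 p.2 := by
    unfold circleMap
    fun_prop
  set ℓ : ℕ → ℝ → ENNReal := fun n ρ => ∫⁻ t in Icc 0 (2 * Real.pi), f n (circleMap ζ ρ t) with hℓ
  have hℓm : ∀ n, Measurable (ℓ n) := by
    intro n
    have h1 : Measurable fun p : ℝ × ℝ => f n (circleMap ζ p.1 p.2) :=
      (hfm n).comp hcmc.measurable
    exact h1.lintegral_prod_right'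
  have hcm : ∀ ρ, Continuous fun t => circleMap ζ ρ t := fun ρ => continuous_circleMap ζ ρ
  have hCS : ∀ n ρ, ℓ n ρ ^ 2 ≤ ENNReal.ofReal (2 * Real.pi) *
      ∫⁻ t in Icc 0 (2 * Real.pi), f n (circleMap ζ ρ t) ^ 2 := by
    intro n ρ
    have h1 := h1_cs (μ := volume.restrict (Icc 0 (2 * Real.pi)))
      (f := fun t => f n (circleMap ζ ρ t)) ((hfm n).comp (hcm ρ).measurable)
    rw [Measure.restrict_apply_univ, Real.volume_Icc, sub_zero] at h1
    exact h1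
  have hpol : ∀ n, ∫⁻ ρ in Ioo 0 r, ENNReal.ofReal ρ * ℓ n ρ ^ 2 ≤
      ENNReal.ofReal (2 * Real.pi) * ∫⁻ z in ball ζ r, f n z ^ 2 := by
    intro n
    set F : ℂ → ENNReal := (ball ζ r).indicator (fun z => f n z ^ 2) with hF
    have hFm : Measurable F := ((hfm n).pow_const 2).indicator measurableSet_ball
    rw [← lintegral_indicator measurableSet_ball, ← hF, ← h1_polar hFm ζ,
      ← lintegral_const_mul' _ _ ENNReal.ofReal_ne_top]
    refine le_trans ?_ (lintegral_mono_set (show Ioo 0 r ⊆ Ioi (0 : ℝ) from fun x hx => hx.1))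
    refine setLIntegral_mono' measurableSet_Ioo fun ρ hρ => ?_
    rw [lintegral_const_mul' _ _ ENNReal.ofReal_ne_top]
    calc ENNReal.ofReal ρ * ℓ n ρ ^ 2 ≤ ENNReal.ofReal ρ * (ENNReal.ofReal (2 * Real.pi) *
        ∫⁻ t in Icc 0 (2 * Real.pi), f n (circleMap ζ ρ t) ^ 2) := by gcongr; exact hCS n ρ
      _ = ENNReal.ofReal (2 * Real.pi) * (ENNReal.ofReal ρ *
        ∫⁻ t in Icc 0 (2 * Real.pi), F (circleMap ζ ρ t)) := by
        rw [mul_left_comm]
        congr 2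
        refine lintegral_congr fun t => ?_
        have hmem : circleMap ζ ρ t ∈ ball ζ r := by
          rw [mem_ball, dist_eq_norm]
          simp [circleMap, abs_of_pos hρ.1, hρ.2]
        rw [hF, indicator_of_mem hmem]
  have hen : ∀ n, ∫⁻ z in ball ζ r, f n z ^ 2 ≤ ENNReal.ofReal C := by
    intro n
    have hc2 : Continuous (fun z => ‖fderiv ℝ (Θ n) z‖ ^ 2) := (hfc n).pow 2
    have hint : ∀ s : ℝ, IntegrableOn (fun z => ‖fderiv ℝ (Θ n) z‖ ^ 2) (ball ζ s) := fun s =>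
      (hc2.continuousOn.integrableOn_compact (isCompact_closedBall ζ s)).mono_set
        ball_subset_closedBall
    have h1 : ∫⁻ z in ball ζ r, f n z ^ 2 =
        ENNReal.ofReal (∫ z in ball ζ r, ‖fderiv ℝ (Θ n) z‖ ^ 2) := by
      rw [ofReal_integral_eq_lintegral_ofReal (hint r)
        (Eventually.of_forall fun z => sq_nonneg _)]
      refine lintegral_congr fun z => ?_
      rw [hf]
      exact (ENNReal.ofReal_pow (norm_nonneg _) 2).symm
    rw [h1]
    refine ENNReal.ofReal_le_ofReal (le_trans ?_ (hC n))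
    exact setIntegral_mono_set (hint r₀) (Eventually.of_forall fun z => sq_nonneg _)
      (Eventually.of_forall (ball_subset_ball hrr))
  set T : ℕ → Set ℝ := fun n => {ρ ∈ Ioo 0 r | ENNReal.ofReal η < ENNReal.ofReal ρ * ℓ n ρ}
    with hT
  have hTm : ∀ n, MeasurableSet (T n) := fun n =>
    measurableSet_Ioo.inter (measurableSet_lt measurable_const
      (measurable_id.ennreal_ofReal.mul (hℓm n)))
  set ν : Measure ℝ := volume.withDensity (fun ρ => ENNReal.ofReal ρ⁻¹) with hν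
  have hνa : ∀ s : Set ℝ, ν s = ∫⁻ ρ in s, ENNReal.ofReal ρ⁻¹ := fun s => withDensity_apply' _ s
  have hTle : ∀ n, ENNReal.ofReal (η ^ 2) * ν (T n) ≤ ENNReal.ofReal (2 * Real.pi) *
      ENNReal.ofReal C := by
    intro n
    refine le_trans ?_ ((hpol n).trans (mul_le_mul_right (hen n) _))
    rw [hνa, ← lintegral_const_mul' _ _ ENNReal.ofReal_ne_top]
    refine le_trans ?_ (lintegral_mono_set (show T n ⊆ Ioo 0 r from fun ρ hρ => hρ.1))
    refine setLIntegral_mono' (hTm n) fun ρ hρ => ?_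
    have hρ0 : 0 < ρ := hρ.1.1
    have h1 : ENNReal.ofReal η ^ 2 ≤ (ENNReal.ofReal ρ * ℓ n ρ) ^ 2 :=
      pow_le_pow_left' hρ.2.le 2
    rw [ENNReal.ofReal_pow hη.le]
    calc ENNReal.ofReal η ^ 2 * ENNReal.ofReal ρ⁻¹
        ≤ (ENNReal.ofReal ρ * ℓ n ρ) ^ 2 * ENNReal.ofReal ρ⁻¹ := by gcongr
      _ = ENNReal.ofReal ρ * ℓ n ρ ^ 2 := by
        have h2 : ENNReal.ofReal ρ * ENNReal.ofReal ρ⁻¹ = 1 := by
          rw [← ENNReal.ofReal_mul hρ0.le, mul_inv_cancel₀ hρ0.ne', ENNReal.ofReal_one]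
        calc _ = (ENNReal.ofReal ρ * ENNReal.ofReal ρ⁻¹) * (ENNReal.ofReal ρ * ℓ n ρ ^ 2) := by
              ring
          _ = _ := by rw [h2, one_mul]
  set S : ℕ → Set ℝ := fun N => ⋂ n, ⋂ (_ : N ≤ n), T n with hS
  have hSmono : Monotone S := by
    intro M N hMN ρ hρ
    simp only [hS, mem_iInter] at hρ ⊢
    exact fun n hn => hρ n (hMN.trans hn)
  have hη2 : ENNReal.ofReal (η ^ 2) ≠ 0 := (ENNReal.ofReal_pos.2 (by positivity)).ne'
  have hB : ν (⋃ N, S N) ≠ ⊤ := by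
    rw [hSmono.measure_iUnion]
    have h1 : ∀ N, ν (S N) ≤ (ENNReal.ofReal (2 * Real.pi) * ENNReal.ofReal C) /
        ENNReal.ofReal (η ^ 2) := by
      intro N
      rw [ENNReal.le_div_iff_mul_le (Or.inl hη2) (Or.inl ENNReal.ofReal_ne_top), mul_comm]
      refine le_trans (mul_le_mul_right (measure_mono ?_) _) (hTle N)
      intro ρ hρ
      simp only [hS, mem_iInter] at hρ
      exact hρ N le_rfl
    refine ne_top_of_le_ne_top ?_ (iSup_le h1)
    exact ENNReal.div_ne_top (ENNReal.mul_ne_top ENNReal.ofReal_ne_top ENNReal.ofReal_ne_top) hη2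
  have hsub : Ioo 0 r ⊆ (goodRadii E θ ζ η ∩ Ioo 0 1) ∪ ⋃ N, S N := by
    intro ρ hρ
    by_cases hg : ρ ∈ goodRadii E θ ζ η
    · exact Or.inl ⟨hg, hρ.1, hρ.2.trans_le hr1⟩
    · right
      have hlt : ENNReal.ofReal η < eVariationOn (fun t => θ (circleMap ζ ρ t))
          {t ∈ Icc 0 (2 * Real.pi) | circleMap ζ ρ t ∈ ntPart E} := not_le.1 hg
      have hconv : ∀ t ∈ {t ∈ Icc 0 (2 * Real.pi) | circleMap ζ ρ t ∈ ntPart E},
          Tendsto (fun n => Θ n (circleMap ζ ρ t)) atTop (𝓝 (θ (circleMap ζ ρ t))) := by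
        intro t ht
        refine hlim _ ⟨ht.2.1, ?_⟩
        rw [mem_ball, dist_eq_norm]
        have h1 : ‖circleMap ζ ρ t - ζ‖ = ρ := by simp [circleMap, abs_of_pos hρ.1]
        rw [h1]
        exact hρ.2.trans_le hrr
      have hev := eVariationOn.lowerSemicontinuous_aux
        (F := fun n t => Θ n (circleMap ζ ρ t)) hconv hlt
      obtain ⟨N, hN⟩ := eventually_atTop.1 hev
      refine mem_iUnion.2 ⟨N, ?_⟩
      simp only [hS, mem_iInter]
      intro n hn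
      refine ⟨hρ, (hN n hn).trans_le ?_⟩
      refine le_trans (eVariationOn.mono _ (fun t ht => ht.1)) ?_
      exact h1_circ (hΘ n) ζ hρ.1
  have hfin := (measure_mono hsub).trans (measure_union_le (μ := ν) _ _)
  rw [hνa (Ioo 0 r), h1_top hrpos, top_le_iff, ENNReal.add_eq_top] at hfin
  rcases hfin with h1 | h1
  · rw [← hνa]
    exact h1
  · exact absurd h1 hB

end RSM2
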