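import Pool.Agent.RSM2.H1
import Pool.Agent.RSM.FD

/-!
# RSM2 module H2: Lipschitz functions and functions of finite Dirichlet energy

PROOFS.  `energyAt_of_finiteDirichlet`: `r = 1`, `R = ‖ζ‖ + 1`, `Θ n` from `RSM.FiniteDirichlet` with
`ε = 1/(n+1)`; `ball ζ 1 ⊆ closedBall 0 R`; the integrand is continuous, nonnegative.
`energyAt_of_lipschitz`: extend `θ` from `E ∩ ball ζ r` to a Lipschitz function on the plane
(`LipschitzOnWith.extend_real`), `RSM.finiteDirichlet_of_lipschitz`.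
-/

open Complex Set Metric Filter Topology MeasureTheory
open scoped NNReal

namespace RSM2

theorem energyAt_of_finiteDirichlet {E : Set ℂ} {θ Θ : ℂ → ℝ} {ζ : ℂ} {r₀ : ℝ} (hr₀ : 0 < r₀)
    (hFD : RSM.FiniteDirichlet Θ) (heq : EqOn Θ θ (E ∩ ball ζ r₀)) : EnergyAt E θ ζ := by
  obtain ⟨C, hC⟩ := hFD (‖ζ‖ + 1)
  have hpos : ∀ n : ℕ, (0 : ℝ) < 1 / ((n : ℝ) + 1) := fun n => by positivity
  choose T hT1 hT2 hT3 using fun n : ℕ => hC (1 / ((n : ℝ) + 1)) (hpos n)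
  have hsub : ball ζ (min r₀ 1) ⊆ closedBall (0 : ℂ) (‖ζ‖ + 1) := by
    intro z hz
    rw [mem_ball, dist_eq_norm] at hz
    rw [mem_closedBall_zero_iff]
    have h1 : ‖z‖ ≤ ‖ζ‖ + ‖z - ζ‖ := by
      have := norm_add_le ζ (z - ζ)
      rwa [add_sub_cancel] at this
    have h2 : ‖z - ζ‖ < 1 := lt_of_lt_of_le hz (min_le_right _ _)
    linarith
  refine ⟨min r₀ 1, lt_min hr₀ one_pos, T, C, hT1, fun n => ?_, fun z hz => ?_⟩
  · refine le_trans ?_ (hT3 n)
    refine setIntegral_mono_set ?_ (Eventually.of_forall fun z => by positivity)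
      (Eventually.of_forall hsub)
    have hc : Continuous fun z => fderiv ℝ (T n) z := (hT1 n).continuous_fderiv one_ne_zero
    exact ((hc.norm.pow 2).continuousOn).integrableOn_compact (isCompact_closedBall 0 _)
  · have hzR : ‖z‖ ≤ ‖ζ‖ + 1 := mem_closedBall_zero_iff.1 (hsub hz.2)
    have hz0 : Θ z = θ z := heq ⟨hz.1, ball_subset_ball (min_le_left _ _) hz.2⟩
    rw [← hz0, tendsto_iff_dist_tendsto_zero]
    refine squeeze_zero (fun n => dist_nonneg) (fun n => ?_) tendsto_one_div_add_atTop_nhds_zero_nat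
    rw [Real.dist_eq]
    exact hT2 n z hzR

theorem energyAt_of_lipschitz {E : Set ℂ} {θ : ℂ → ℝ} {ζ : ℂ} {r₀ : ℝ} (hr₀ : 0 < r₀) {K : ℝ≥0}
    (hK : LipschitzOnWith K θ (E ∩ ball ζ r₀)) : EnergyAt E θ ζ := by
  obtain ⟨g, hg, hgθ⟩ := hK.extend_real
  exact energyAt_of_finiteDirichlet hr₀ (RSM.finiteDirichlet_of_lipschitz hg) hgθ.symm

end RSM2
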