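import Pool.Agent.RSM2.Basic

/-!
# RSM2 module J0: rules for `dX`, `dY`, `J`
-/

open Complex Set Metric Filter Topology MeasureTheory

namespace RSM2

variable {f g h : ℂ → ℝ} {z : ℂ}

theorem fderiv_eq_dX_dY (f : ℂ → ℝ) (z v : ℂ) :
    fderiv ℝ f z v = dX f z * v.re + dY f z * v.im := by
  have h1 : v = v.re • (1 : ℂ) + v.im • I := by
    apply Complex.ext <;> simp
  conv_lhs => rw [h1]
  rw [map_add, map_smul, map_smul]
  simp only [smul_eq_mul, dX, dY]
  ring

theorem sq_norm_fderiv (f : ℂ → ℝ) (z : ℂ) : ‖fderiv ℝ f z‖ ^ 2 = dX f z ^ 2 + dY f z ^ 2 := by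
  have h0 : (0 : ℝ) ≤ dX f z ^ 2 + dY f z ^ 2 := by positivity
  have h1 : ‖fderiv ℝ f z‖ ≤ √(dX f z ^ 2 + dY f z ^ 2) := by
    refine ContinuousLinearMap.opNorm_le_bound _ (Real.sqrt_nonneg _) fun v => ?_
    rw [fderiv_eq_dX_dY, Real.norm_eq_abs, Complex.norm_def, ← Real.sqrt_mul h0]
    apply Real.le_sqrt_of_sq_le
    rw [sq_abs, Complex.normSq_apply]
    nlinarith [sq_nonneg (dX f z * v.im - dY f z * v.re)]
  have h2 : dX f z ^ 2 + dY f z ^ 2 ≤ ‖fderiv ℝ f z‖ * √(dX f z ^ 2 + dY f z ^ 2) := by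
    have h3 := (fderiv ℝ f z).le_opNorm (⟨dX f z, dY f z⟩ : ℂ)
    rw [fderiv_eq_dX_dY, Real.norm_eq_abs, Complex.norm_def, Complex.normSq_apply] at h3
    have h4 : dX f z * dX f z + dY f z * dY f z = dX f z ^ 2 + dY f z ^ 2 := by ring
    simp only [h4] at h3
    exact (le_abs_self _).trans h3
  have h5 : √(dX f z ^ 2 + dY f z ^ 2) ≤ ‖fderiv ℝ f z‖ := by
    rcases (Real.sqrt_nonneg (dX f z ^ 2 + dY f z ^ 2)).eq_or_lt with h | h
    · rw [← h]; exact norm_nonneg _
    · have h6 : √(dX f z ^ 2 + dY f z ^ 2) * √(dX f z ^ 2 + dY f z ^ 2) ≤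
          ‖fderiv ℝ f z‖ * √(dX f z ^ 2 + dY f z ^ 2) := by
        rwa [Real.mul_self_sqrt h0]
      exact le_of_mul_le_mul_right h6 h
  rw [le_antisymm h1 h5, Real.sq_sqrt h0]

theorem abs_dX_le (f : ℂ → ℝ) (z : ℂ) : |dX f z| ≤ ‖fderiv ℝ f z‖ := by
  have := (fderiv ℝ f z).le_opNorm 1
  rwa [norm_one, mul_one] at this

theorem abs_dY_le (f : ℂ → ℝ) (z : ℂ) : |dY f z| ≤ ‖fderiv ℝ f z‖ := by
  have := (fderiv ℝ f z).le_opNorm I
  rwa [norm_I, mul_one] at this

theorem abs_J_le (f g : ℂ → ℝ) (z : ℂ) : |J f g z| ≤ ‖fderiv ℝ f z‖ * ‖fderiv ℝ g z‖ := by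
  have h1 := sq_norm_fderiv f z
  have h2 := sq_norm_fderiv g z
  apply abs_le_of_sq_le_sq _ (by positivity)
  rw [mul_pow, h1, h2]
  unfold J
  nlinarith [sq_nonneg (dX f z * dX g z + dY f z * dY g z)]

theorem dX_congr (hfg : f =ᶠ[𝓝 z] g) : dX f z = dX g z := by
  unfold dX; rw [hfg.fderiv_eq]

theorem dY_congr (hfg : f =ᶠ[𝓝 z] g) : dY f z = dY g z := by
  unfold dY; rw [hfg.fderiv_eq]

theorem J_congr {f' g' : ℂ → ℝ} (hf : f =ᶠ[𝓝 z] f') (hg : g =ᶠ[𝓝 z] g') : J f g z = J f' g' z := by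
  unfold J; rw [dX_congr hf, dX_congr hg, dY_congr hf, dY_congr hg]

theorem dX_const (k : ℝ) (z : ℂ) : dX (fun _ => k) z = 0 := by
  simp [dX]

theorem dY_const (k : ℝ) (z : ℂ) : dY (fun _ => k) z = 0 := by
  simp [dY]

theorem dX_re (z : ℂ) : dX (fun w => w.re) z = 1 := by
  have : HasFDerivAt (fun w : ℂ => w.re) Complex.reCLM z := Complex.reCLM.hasFDerivAt
  unfold dX; rw [this.fderiv]; simp

theorem dY_re (z : ℂ) : dY (fun w => w.re) z = 0 := by
  have : HasFDerivAt (fun w : ℂ => w.re) Complex.reCLM z := Complex.reCLM.hasFDerivAt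
  unfold dY; rw [this.fderiv]; simp

theorem dX_im (z : ℂ) : dX (fun w => w.im) z = 0 := by
  have : HasFDerivAt (fun w : ℂ => w.im) Complex.imCLM z := Complex.imCLM.hasFDerivAt
  unfold dX; rw [this.fderiv]; simp

theorem dY_im (z : ℂ) : dY (fun w => w.im) z = 1 := by
  have : HasFDerivAt (fun w : ℂ => w.im) Complex.imCLM z := Complex.imCLM.hasFDerivAt
  unfold dY; rw [this.fderiv]; simp

theorem dX_add (hf : DifferentiableAt ℝ f z) (hg : DifferentiableAt ℝ g z) :
    dX (fun w => f w + g w) z = dX f z + dX g z := by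
  unfold dX; rw [fderiv_fun_add hf hg]; rfl

theorem dY_add (hf : DifferentiableAt ℝ f z) (hg : DifferentiableAt ℝ g z) :
    dY (fun w => f w + g w) z = dY f z + dY g z := by
  unfold dY; rw [fderiv_fun_add hf hg]; rfl

theorem dX_sub (hf : DifferentiableAt ℝ f z) (hg : DifferentiableAt ℝ g z) :
    dX (fun w => f w - g w) z = dX f z - dX g z := by
  unfold dX; rw [fderiv_fun_sub hf hg]; rfl

theorem dY_sub (hf : DifferentiableAt ℝ f z) (hg : DifferentiableAt ℝ g z) :
    dY (fun w => f w - g w) z = dY f z - dY g z := by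
  unfold dY; rw [fderiv_fun_sub hf hg]; rfl

theorem dX_mul (hf : DifferentiableAt ℝ f z) (hg : DifferentiableAt ℝ g z) :
    dX (fun w => f w * g w) z = f z * dX g z + g z * dX f z := by
  unfold dX; rw [fderiv_fun_mul hf hg]; simp

theorem dY_mul (hf : DifferentiableAt ℝ f z) (hg : DifferentiableAt ℝ g z) :
    dY (fun w => f w * g w) z = f z * dY g z + g z * dY f z := by
  unfold dY; rw [fderiv_fun_mul hf hg]; simp

theorem dX_comp {φ : ℝ → ℝ} (hφ : DifferentiableAt ℝ φ (f z)) (hf : DifferentiableAt ℝ f z) :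
    dX (fun w => φ (f w)) z = deriv φ (f z) * dX f z := by
  have h1 : HasFDerivAt (fun w => φ (f w)) (deriv φ (f z) • fderiv ℝ f z) z :=
    hφ.hasDerivAt.comp_hasFDerivAt z hf.hasFDerivAt
  unfold dX; rw [h1.fderiv]; simp

theorem dY_comp {φ : ℝ → ℝ} (hφ : DifferentiableAt ℝ φ (f z)) (hf : DifferentiableAt ℝ f z) :
    dY (fun w => φ (f w)) z = deriv φ (f z) * dY f z := by
  have h1 : HasFDerivAt (fun w => φ (f w)) (deriv φ (f z) • fderiv ℝ f z) z :=
    hφ.hasDerivAt.comp_hasFDerivAt z hf.hasFDerivAt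
  unfold dY; rw [h1.fderiv]; simp

theorem dX_const_mul (k : ℝ) (hf : DifferentiableAt ℝ f z) :
    dX (fun w => k * f w) z = k * dX f z := by
  rw [dX_mul (differentiableAt_const k) hf, dX_const, mul_zero, add_zero]

theorem dY_const_mul (k : ℝ) (hf : DifferentiableAt ℝ f z) :
    dY (fun w => k * f w) z = k * dY f z := by
  rw [dY_mul (differentiableAt_const k) hf, dY_const, mul_zero, add_zero]

theorem J_swap (f g : ℂ → ℝ) (z : ℂ) : J f g z = -J g f z := by
  unfold J; ring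

theorem J_self (f : ℂ → ℝ) (z : ℂ) : J f f z = 0 := by
  unfold J; ring

theorem J_const_left (k : ℝ) (g : ℂ → ℝ) (z : ℂ) : J (fun _ => k) g z = 0 := by
  unfold J; rw [dX_const, dY_const]; ring

theorem J_const_right (k : ℝ) (g : ℂ → ℝ) (z : ℂ) : J g (fun _ => k) z = 0 := by
  unfold J; rw [dX_const, dY_const]; ring

theorem J_add_left (hf : DifferentiableAt ℝ f z) (hg : DifferentiableAt ℝ g z) :
    J (fun w => f w + g w) h z = J f h z + J g h z := by
  unfold J; rw [dX_add hf hg, dY_add hf hg]; ring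

theorem J_add_right (hf : DifferentiableAt ℝ f z) (hg : DifferentiableAt ℝ g z) :
    J h (fun w => f w + g w) z = J h f z + J h g z := by
  unfold J; rw [dX_add hf hg, dY_add hf hg]; ring

theorem J_sub_left (hf : DifferentiableAt ℝ f z) (hg : DifferentiableAt ℝ g z) :
    J (fun w => f w - g w) h z = J f h z - J g h z := by
  unfold J; rw [dX_sub hf hg, dY_sub hf hg]; ring

theorem J_sub_right (hf : DifferentiableAt ℝ f z) (hg : DifferentiableAt ℝ g z) :
    J h (fun w => f w - g w) z = J h f z - J h g z := by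
  unfold J; rw [dX_sub hf hg, dY_sub hf hg]; ring

theorem J_mul_left (hf : DifferentiableAt ℝ f z) (hg : DifferentiableAt ℝ g z) :
    J (fun w => f w * g w) h z = f z * J g h z + g z * J f h z := by
  unfold J; rw [dX_mul hf hg, dY_mul hf hg]; ring

theorem J_mul_right (hf : DifferentiableAt ℝ f z) (hg : DifferentiableAt ℝ g z) :
    J h (fun w => f w * g w) z = f z * J h g z + g z * J h f z := by
  unfold J; rw [dX_mul hf hg, dY_mul hf hg]; ring

theorem J_const_mul_left (k : ℝ) (hf : DifferentiableAt ℝ f z) :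
    J (fun w => k * f w) h z = k * J f h z := by
  unfold J; rw [dX_const_mul k hf, dY_const_mul k hf]; ring

theorem J_const_mul_right (k : ℝ) (hf : DifferentiableAt ℝ f z) :
    J h (fun w => k * f w) z = k * J h f z := by
  unfold J; rw [dX_const_mul k hf, dY_const_mul k hf]; ring

theorem J_comp_left {φ : ℝ → ℝ} (hφ : DifferentiableAt ℝ φ (f z)) (hf : DifferentiableAt ℝ f z) :
    J (fun w => φ (f w)) g z = deriv φ (f z) * J f g z := by
  unfold J; rw [dX_comp hφ hf, dY_comp hφ hf]; ring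

theorem J_comp_right {φ : ℝ → ℝ} (hφ : DifferentiableAt ℝ φ (f z)) (hf : DifferentiableAt ℝ f z) :
    J g (fun w => φ (f w)) z = deriv φ (f z) * J g f z := by
  unfold J; rw [dX_comp hφ hf, dY_comp hφ hf]; ring

end RSM2
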