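import Pool.Agent.RSM2.J0

/-!
# RSM2 module J1: Stokes' theorem for Jacobians with (joint) compact support

PROOF of `integral_J_eq_zero`.  Choose a `C^∞` function `ζ` with compact support contained in `D`,
`ζ = 1` in a neighbourhood of `K` (`exists_contDiff_tsupport_subset` or
`exists_contMDiff_...`; Mathlib smooth Urysohn lemma).  The functions `F = ζ f` and `G = ζ g`,
extended by `0` outside of `D`, are `C²` on the plane with compact support.  On `D` one has
`J F g₁ = J f g` with ... precisely: at `z ∈ D \ K` one of `f`, `g` vanishes near `z`, so one of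
`F, G` does, and both Jacobians `J f g z` and `J F G z` are `0`; near a point of `K` both
functions are unchanged.  So `∫_D J f g = ∫ J F G` (`J F G = 0` outside of `D`).  Finally
`J F G = ∂_x (F ∂_y G) - ∂_y (F ∂_x G)` (symmetry of the second derivative, `C²`), and the integral
of a partial derivative of a compactly supported `C¹` function is `0`
(`integral_mul_fderiv_eq_neg_fderiv_mul_of_integrable` or
`integral_bilinear_hasLineDerivAt_right_eq_neg_left_of_integrable` of
`Mathlib/Analysis/Calculus/LineDeriv/IntegrationByParts.lean`: `∫ F_x G_y = -∫ F G_{yx}` and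
`∫ F_y G_x = -∫ F G_{xy}`).

PROOF of `volume_level_set`.  It is enough to treat the sets `{f = k, f_x ≠ 0}` and
`{f = k, f_y ≠ 0}`.  For fixed `y` the points `x` of the open set `{x | x + iy ∈ D}` with
`f (x + iy) = k`, `f_x (x + iy) ≠ 0` are isolated points of the zero set of `f(· + iy) - k`
(`HasDerivAt.eventually_ne`), so they form a countable set, a null set; conclude by Fubini
(`Complex.measurableEquivRealProd`, `measure_prod_null`; the sets are measurable: `fderiv ℝ f` is
measurable, `measurable_fderiv` applies to any function into a complete space, and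
`{z ∈ D | f z = k}` is relatively closed in `D`).
-/

open Complex Set Metric Filter Topology MeasureTheory

namespace RSM2

open scoped Manifold ContDiff in
private theorem exists_cutJ1 {D K : Set ℂ} (hD : IsOpen D) (hK : IsCompact K) (hKD : K ⊆ D) :
    ∃ ζ : ℂ → ℝ, ContDiff ℝ 2 ζ ∧ HasCompactSupport ζ ∧ tsupport ζ ⊆ D ∧
      ∀ᶠ z in 𝓝ˢ K, ζ z = 1 := by
  obtain ⟨T, hT, hKT, hTD⟩ := exists_compact_between hK hD hKD
  obtain ⟨f, h1, h2, -⟩ := exists_contMDiffMap_one_nhds_of_subset_interior (n := 2) 𝓘(ℝ, ℂ)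
    hK.isClosed hKT
  have hs : tsupport f ⊆ T :=
    closure_minimal (fun x hx => by_contra fun h => hx (h2 x h)) hT.isClosed
  exact ⟨f, f.contMDiff.contDiff, hT.of_isClosed_subset (isClosed_tsupport _) hs,
    hs.trans hTD, h1⟩

private theorem contDiff_cut_mul {D : Set ℂ} (hD : IsOpen D) {ζ f : ℂ → ℝ}
    (hζ : ContDiff ℝ 2 ζ) (hs : tsupport ζ ⊆ D) (hf : ContDiffOn ℝ 2 f D) :
    ContDiff ℝ 2 (fun z => ζ z * f z) := by
  rw [contDiff_iff_contDiffAt]
  intro z
  by_cases hz : z ∈ D
  · exact hζ.contDiffAt.mul (hf.contDiffAt (hD.mem_nhds hz))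
  · have h0 : ζ =ᶠ[𝓝 z] 0 := notMem_tsupport_iff_eventuallyEq.1 (fun h => hz (hs h))
    exact (contDiffAt_const (c := (0:ℝ))).congr_of_eventuallyEq
      (h0.mono fun w hw => by simp [hw])

private theorem integral_J_compact {F G : ℂ → ℝ} (hF : ContDiff ℝ 2 F) (hG : ContDiff ℝ 2 G)
    (cF : HasCompactSupport F) : ∫ z, J F G z = 0 := by
  have hG' : ContDiff ℝ 1 (fderiv ℝ G) := hG.fderiv_right (m := 1) (by norm_num)
  have hGd : Differentiable ℝ (fderiv ℝ G) := hG'.differentiable one_ne_zero
  have hv : ∀ v : ℂ, ContDiff ℝ 1 (fun z => fderiv ℝ G z v) := fun v =>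
    hG'.clm_apply contDiff_const
  have hvc : ∀ v : ℂ, Continuous (fun z => fderiv ℝ F z v) := fun v =>
    (hF.continuous_fderiv two_ne_zero).clm_apply continuous_const
  have key : ∀ v w : ℂ, ∫ z, F z * fderiv ℝ (fun z => fderiv ℝ G z w) z v =
      - ∫ z, fderiv ℝ F z v * fderiv ℝ G z w := by
    intro v w
    refine integral_mul_fderiv_eq_neg_fderiv_mul_of_integrable (μ := (volume : Measure ℂ))
      ?_ ?_ ?_ (fun x _ => (hF.differentiable two_ne_zero) x)
      (fun x _ => ((hv w).differentiable one_ne_zero) x)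
    · exact ((hvc v).mul (hv w).continuous).integrable_of_hasCompactSupport
        ((cF.fderiv_apply (𝕜 := ℝ) v).mul_right)
    · exact (hF.continuous.mul (((hv w).continuous_fderiv one_ne_zero).clm_apply
        continuous_const)).integrable_of_hasCompactSupport cF.mul_right
    · exact (hF.continuous.mul (hv w).continuous).integrable_of_hasCompactSupport cF.mul_right
  have hsym : ∀ z, fderiv ℝ (fun z => fderiv ℝ G z I) z 1 =
      fderiv ℝ (fun z => fderiv ℝ G z 1) z I := by
    intro z
    have e : ∀ v w : ℂ, fderiv ℝ (fun z => fderiv ℝ G z w) z v =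
        fderiv ℝ (fderiv ℝ G) z v w := by
      intro v w
      have h1 := (hGd z).hasFDerivAt.clm_apply (hasFDerivAt_const w z)
      rw [h1.fderiv]
      simp
    rw [e, e]
    have h2 : IsSymmSndFDerivAt ℝ G z :=
      hG.contDiffAt.isSymmSndFDerivAt (by simp)
    exact h2 _ _
  have hi : ∀ v w : ℂ, Integrable (fun z => fderiv ℝ F z v * fderiv ℝ G z w) := fun v w =>
    ((hvc v).mul (hv w).continuous).integrable_of_hasCompactSupport
        ((cF.fderiv_apply (𝕜 := ℝ) v).mul_right)
  have h1 := key 1 I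
  have h2 := key I 1
  have h3 : (fun z => F z * fderiv ℝ (fun z => fderiv ℝ G z I) z 1) =
      fun z => F z * fderiv ℝ (fun z => fderiv ℝ G z 1) z I := by
    funext z; rw [hsym]
  rw [h3, h2] at h1
  have h4 : (fun z => J F G z) = fun z => fderiv ℝ F z 1 * fderiv ℝ G z I -
      fderiv ℝ F z I * fderiv ℝ G z 1 := rfl
  rw [h4, integral_sub (hi _ _) (hi _ _)]
  linarith

theorem integral_J_eq_zero {D K : Set ℂ} (hD : IsOpen D) (hK : IsCompact K) (hKD : K ⊆ D)
    {f g : ℂ → ℝ} (hf : ContDiffOn ℝ 2 f D) (hg : ContDiffOn ℝ 2 g D)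
    (h0 : ∀ z ∈ D \ K, (∀ᶠ w in 𝓝 z, f w = 0) ∨ (∀ᶠ w in 𝓝 z, g w = 0)) :
    ∫ z in D, J f g z = 0 := by
  obtain ⟨ζ, h1, h2, h3, h4⟩ := exists_cutJ1 hD hK hKD
  have hF := contDiff_cut_mul hD h1 h3 hf
  have hG := contDiff_cut_mul hD h1 h3 hg
  have cF : HasCompactSupport (fun z => ζ z * f z) := h2.mul_right
  rw [← integral_J_compact hF hG cF]
  have e : ∀ z ∈ D, J f g z = J (fun z => ζ z * f z) (fun z => ζ z * g z) z := by
    intro z hz
    by_cases hzK : z ∈ K
    · have h5 : ∀ᶠ w in 𝓝 z, ζ w = 1 := h4.filter_mono (nhds_le_nhdsSet hzK)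
      exact J_congr (h5.mono fun w hw => by simp [hw]) (h5.mono fun w hw => by simp [hw])
    · rcases h0 z ⟨hz, hzK⟩ with h5 | h5
      · have e1 : J f g z = J (fun _ => 0) g z := J_congr h5 (EventuallyEq.refl _ _)
        have e2 : J (fun z => ζ z * f z) (fun z => ζ z * g z) z =
            J (fun _ => 0) (fun z => ζ z * g z) z :=
          J_congr (h5.mono fun w hw => by simp [hw]) (EventuallyEq.refl _ _)
        rw [e1, e2, J_const_left, J_const_left]
      · have e1 : J f g z = J f (fun _ => 0) z := J_congr (EventuallyEq.refl _ _) h5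
        have e2 : J (fun z => ζ z * f z) (fun z => ζ z * g z) z =
            J (fun z => ζ z * f z) (fun _ => 0) z :=
          J_congr (EventuallyEq.refl _ _) (h5.mono fun w hw => by simp [hw])
        rw [e1, e2, J_const_right, J_const_right]
  rw [setIntegral_congr_fun hD.measurableSet e]
  apply setIntegral_eq_integral_of_forall_compl_eq_zero
  intro z hz
  have h5 : ζ =ᶠ[𝓝 z] 0 := notMem_tsupport_iff_eventuallyEq.1 (fun h => hz (h3 h))
  have e2 : J (fun z => ζ z * f z) (fun z => ζ z * g z) z =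
      J (fun _ => 0) (fun z => ζ z * g z) z :=
    J_congr (h5.mono fun w hw => by simp [hw]) (EventuallyEq.refl _ _)
  rw [e2, J_const_left]

private theorem volume_level_dir {D : Set ℂ} (hD : IsOpen D) {f : ℂ → ℝ}
    (hf : DifferentiableOn ℝ f D) (k : ℝ) (v : ℂ) :
    volume {z ∈ D | f z = k ∧ fderiv ℝ f z v ≠ 0} = 0 := by
  set A : Set ℂ := {z ∈ D | f z = k ∧ fderiv ℝ f z v ≠ 0} with hA
  have hm : MeasurableSet A := by
    have h1 : IsOpen (D ∩ f ⁻¹' {k}ᶜ) :=
      hf.continuousOn.isOpen_inter_preimage hD isOpen_compl_singleton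
    have h2 : Measurable (fun z => fderiv ℝ f z v) := measurable_fderiv_apply_const ℝ f v
    have h3 : A = (D \ (D ∩ f ⁻¹' {k}ᶜ)) ∩ (fun z => fderiv ℝ f z v) ⁻¹' {0}ᶜ := by
      ext z
      simp only [hA, mem_ofPred_eq, mem_inter_iff, Set.mem_sdiff, mem_preimage, mem_compl_iff,
        mem_singleton_iff]
      tauto
    rw [h3]
    exact (hD.measurableSet.diff h1.measurableSet).inter
      (h2 (measurableSet_singleton 0).compl)
  have h := ae_mem_of_ae_add_linearMap_mem (LinearMap.toSpanSingleton ℝ ℂ v)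
    (volume : Measure ℝ) (volume : Measure ℂ) hm.compl (fun y => ?_)
  · rw [ae_iff] at h
    simpa using h
  · rw [ae_iff]
    have hc : ({t : ℝ | ¬ (y + LinearMap.toSpanSingleton ℝ ℂ v t ∈ Aᶜ)}).Countable := by
      refine IsLindelof.countable_of_isDiscrete
        (HereditarilyLindelofSpace.isLindelof _) ?_
      rw [isDiscrete_iff_nhdsNE]
      intro t ht
      have ht' : y + t • v ∈ A := by
        simpa [LinearMap.toSpanSingleton_apply] using ht
      obtain ⟨h1, h2, h3⟩ := ht'
      have h4 : HasFDerivAt f (fderiv ℝ f (y + t • v)) (y + t • v) :=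
        (hf.differentiableAt (hD.mem_nhds h1)).hasFDerivAt
      have h5 : HasDerivAt (fun s : ℝ => y + s • v) v t := by
        simpa using ((hasDerivAt_id t).smul_const v).const_add y
      have h6 : HasDerivAt (fun s : ℝ => f (y + s • v)) (fderiv ℝ f (y + t • v) v) t :=
        h4.comp_hasDerivAt t h5
      have h7 := h6.eventually_ne (c := k) h3
      rw [← _root_.disjoint_iff, Filter.disjoint_principal_right]
      refine h7.mono fun s hs hs' => hs ?_
      have hs'' : y + s • v ∈ A := by
        simpa [LinearMap.toSpanSingleton_apply] using hs'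
      exact hs''.2.1
    exact hc.measure_zero _

theorem volume_level_set {D : Set ℂ} (hD : IsOpen D) {f : ℂ → ℝ} (hf : DifferentiableOn ℝ f D)
    (k : ℝ) : volume {z ∈ D | f z = k ∧ fderiv ℝ f z ≠ 0} = 0 := by
  refine measure_mono_null (t := {z ∈ D | f z = k ∧ fderiv ℝ f z 1 ≠ 0} ∪
    {z ∈ D | f z = k ∧ fderiv ℝ f z I ≠ 0}) ?_ (measure_union_null
      (volume_level_dir hD hf k 1) (volume_level_dir hD hf k I))
  rintro z ⟨h1, h2, h3⟩
  by_cases h4 : fderiv ℝ f z 1 = 0
  · right
    refine ⟨h1, h2, fun h5 => h3 ?_⟩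
    ext w
    · have := fderiv_eq_dX_dY f z w
      simp only [dX, dY, h4, h5] at this
      simpa using this
  · exact Or.inl ⟨h1, h2, h4⟩

end RSM2
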