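import Pool.Agent.RSM2.J1

/-!
# RSM2 module J2: the slit Stokes lemma

`a` and `b` are `C²` functions on the open set `D`; near the points of `D \ T` one of them
vanishes, where `T` is a compact subset of `D ∪ H`, `H` compact, disjoint from `D`.  Both have
finite Dirichlet integrals over `D ∩ T`, and `a → 0` at `H`.  Then `∫_D J a b = 0`.

PROOF.  Integrability: `|J a b| ≤ ‖∇a‖ ‖∇b‖ ≤ (‖∇a‖² + ‖∇b‖²)/2` on `D ∩ T`, and `J a b = 0` on
`D \ T`.  Let `ψ : ℝ → ℝ` be `C^∞`, `ψ = 0` on `t ≤ 1`, `ψ = 1` on `t ≥ 2`, `0 ≤ ψ ≤ 1`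
(`Real.smoothTransition (t - 1)`), `|ψ'| ≤ C`.  For `δ > 0` put `a_δ = a ψ(a²/δ²)`, a `C²` function
on `D`.  It vanishes near `H`: there is an open `U ⊇ H` with `a² < δ²` on `U ∩ D`.  So with
`K = T \ U`, a compact subset of `D`, `integral_J_eq_zero` applies to `a_δ, b` (at a point `z` of
`D \ K`: if `z ∉ T` one of `a, b` vanishes near `z`; if `z ∈ U` then `a_δ = 0` on the
neighbourhood `U ∩ D` of `z`): `∫_D J a_δ b = 0`.  On the other hand
`J a_δ b = (ψ(a²/δ²) + 2 (a²/δ²) ψ'(a²/δ²)) J a b` by the chain rule.  The bracket is bounded by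
`1 + 4C` (`ψ'(s) ≠ 0` only for `1 ≤ s ≤ 2`), and as `δ → 0` it tends to `1` at every
point with `a ≠ 0`, and it is `0` where `a = 0`.  By dominated convergence
`0 = ∫_D J a_δ b → ∫_{D ∩ {a ≠ 0}} J a b`; and `J a b = 0` almost everywhere on `{a = 0}` since
`∇a = 0` almost everywhere there (`volume_level_set`).  So `∫_D J a b = 0`.
-/

open Complex Set Metric Filter Topology MeasureTheory

namespace RSM2

theorem J2_measurable_J (a b : ℂ → ℝ) : Measurable (J a b) := by
  have h1 : ∀ f : ℂ → ℝ, Measurable (dX f) := fun f => measurable_fderiv_apply_const ℝ f 1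
  have h2 : ∀ f : ℂ → ℝ, Measurable (dY f) := fun f => measurable_fderiv_apply_const ℝ f I
  exact ((h1 a).mul (h2 b)).sub ((h2 a).mul (h1 b))

theorem J2_eq_zero {a b : ℂ → ℝ} {z : ℂ}
    (h : (∀ᶠ w in 𝓝 z, a w = 0) ∨ (∀ᶠ w in 𝓝 z, b w = 0)) : J a b z = 0 := by
  rcases h with h | h
  · have h1 : a =ᶠ[𝓝 z] fun _ => 0 := h
    rw [J_congr h1 (Filter.EventuallyEq.refl _ b), J_const_left]
  · have h1 : b =ᶠ[𝓝 z] fun _ => 0 := h
    rw [J_congr (Filter.EventuallyEq.refl _ a) h1, J_const_right]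

/-- the cut-off function `t ↦ t ψ(t²)` -/
noncomputable def J2_cut (t : ℝ) : ℝ := t * Real.smoothTransition (t ^ 2 - 1)

theorem J2_cut_smooth {n : ℕ∞} : ContDiff ℝ n J2_cut :=
  contDiff_id.mul (Real.smoothTransition.contDiff.comp ((contDiff_id.pow 2).sub contDiff_const))

theorem J2_cut_zero {t : ℝ} (ht : |t| < 1) : J2_cut t = 0 := by
  unfold J2_cut
  rw [Real.smoothTransition.zero_of_nonpos, mul_zero]
  have h := abs_lt.1 ht
  nlinarith

theorem J2_cut_large {t : ℝ} (ht : 2 < |t|) : J2_cut t = t := by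
  unfold J2_cut
  rw [Real.smoothTransition.one_of_one_le, mul_one]
  rw [← sq_abs]
  nlinarith

theorem J2_deriv_cut_large {t : ℝ} (ht : 2 < |t|) : deriv J2_cut t = 1 := by
  have h1 : J2_cut =ᶠ[𝓝 t] fun s => s := by
    filter_upwards [(isOpen_lt continuous_const continuous_abs).mem_nhds ht] with s hs
    exact J2_cut_large hs
  rw [h1.deriv_eq]
  exact deriv_id t

theorem J2_deriv_cut_bdd : ∃ M : ℝ, ∀ t, |deriv J2_cut t| ≤ M := by
  have hc : Continuous (deriv J2_cut) :=
    (J2_cut_smooth (n := 1)).continuous_deriv (by norm_num)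
  obtain ⟨M, hM⟩ := (isCompact_Icc (a := (-2 : ℝ)) (b := 2)).exists_bound_of_continuousOn
    hc.continuousOn
  refine ⟨max M 1, fun t => ?_⟩
  rcases le_or_gt |t| 2 with h | h
  · exact (hM t (abs_le.1 h)).trans (le_max_left _ _)
  · rw [J2_deriv_cut_large h, abs_one]
    exact le_max_right _ _

/-- the rescaled cut-off function -/
noncomputable def J2_cutn (n : ℕ) (t : ℝ) : ℝ := J2_cut (((n : ℝ) + 1) * t) / ((n : ℝ) + 1)

theorem J2_cutn_smooth (n : ℕ) : ContDiff ℝ 2 (J2_cutn n) := by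
  have h1 : ContDiff ℝ 2 J2_cut := J2_cut_smooth (n := 2)
  exact (h1.comp (contDiff_const.mul contDiff_id)).div_const _

theorem J2_deriv_cutn (n : ℕ) (t : ℝ) :
    deriv (J2_cutn n) t = deriv J2_cut (((n : ℝ) + 1) * t) := by
  have h0 : ((n : ℝ) + 1) ≠ 0 := by positivity
  have h1 : HasDerivAt J2_cut (deriv J2_cut (((n : ℝ) + 1) * t)) (((n : ℝ) + 1) * t) :=
    ((J2_cut_smooth (n := 1)).differentiable (by norm_num) _).hasDerivAt
  have h2 : HasDerivAt (fun s : ℝ => ((n : ℝ) + 1) * s) ((n : ℝ) + 1) t := by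
    simpa using (hasDerivAt_id t).const_mul ((n : ℝ) + 1)
  have h3 : HasDerivAt (fun s => J2_cut (((n : ℝ) + 1) * s) / ((n : ℝ) + 1))
      (deriv J2_cut (((n : ℝ) + 1) * t) * ((n : ℝ) + 1) / ((n : ℝ) + 1)) t :=
    (HasDerivAt.comp t h1 h2).div_const _
  rw [mul_div_cancel_right₀ _ h0] at h3
  exact h3.deriv

theorem integrable_J {D T : Set ℂ} (hD : IsOpen D) (hT : IsCompact T) {a b : ℂ → ℝ}
    (ha : ContDiffOn ℝ 2 a D) (hb : ContDiffOn ℝ 2 b D)
    (h0 : ∀ z ∈ D \ T, (∀ᶠ w in 𝓝 z, a w = 0) ∨ (∀ᶠ w in 𝓝 z, b w = 0))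
    (hal : IntegrableOn (fun z => ‖fderiv ℝ a z‖ ^ 2) (D ∩ T))
    (hbl : IntegrableOn (fun z => ‖fderiv ℝ b z‖ ^ 2) (D ∩ T)) :
    IntegrableOn (J a b) D := by
  have h1 : IntegrableOn (J a b) (D ∩ T) := by
    have h2 : IntegrableOn (fun z => (1 / 2 : ℝ) * (‖fderiv ℝ a z‖ ^ 2 + ‖fderiv ℝ b z‖ ^ 2))
        (D ∩ T) := (hal.add hbl).const_mul _
    refine h2.mono' (J2_measurable_J a b).aestronglyMeasurable
      (Filter.Eventually.of_forall fun z => ?_)
    rw [Real.norm_eq_abs]
    refine (abs_J_le a b z).trans ?_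
    nlinarith [sq_nonneg (‖fderiv ℝ a z‖ - ‖fderiv ℝ b z‖)]
  have h3 : IntegrableOn (J a b) (D \ T) := by
    have h4 : IntegrableOn (fun _ : ℂ => (0 : ℝ)) (D \ T) := integrableOn_zero
    exact h4.congr_fun (fun z hz => (J2_eq_zero (h0 z hz)).symm)
      (hD.measurableSet.diff hT.measurableSet)
  have h5 := h1.union h3
  rwa [inter_union_diff] at h5

theorem integral_J_eq_zero_of_tendsto {D H T : Set ℂ} (hD : IsOpen D) (hH : IsCompact H)
    (hdisj : Disjoint D H) (hT : IsCompact T) (hTD : T ⊆ D ∪ H) {a b : ℂ → ℝ}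
    (ha : ContDiffOn ℝ 2 a D) (hb : ContDiffOn ℝ 2 b D)
    (h0 : ∀ z ∈ D \ T, (∀ᶠ w in 𝓝 z, a w = 0) ∨ (∀ᶠ w in 𝓝 z, b w = 0))
    (hal : IntegrableOn (fun z => ‖fderiv ℝ a z‖ ^ 2) (D ∩ T))
    (hbl : IntegrableOn (fun z => ‖fderiv ℝ b z‖ ^ 2) (D ∩ T))
    (hlim : Tendsto a (nearIn D H) (𝓝 0)) : ∫ z in D, J a b z = 0 := by
  obtain ⟨M, hM⟩ := J2_deriv_cut_bdd
  have hint := integrable_J hD hT ha hb h0 hal hbl
  have hda : ∀ z ∈ D, DifferentiableAt ℝ a z := fun z hz =>
    (ha.differentiableOn (by norm_num)).differentiableAt (hD.mem_nhds hz)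
  have hJn : ∀ (n : ℕ), ∀ z ∈ D, J (fun w => J2_cutn n (a w)) b z =
      deriv J2_cut (((n : ℝ) + 1) * a z) * J a b z := by
    intro n z hz
    rw [J_comp_left ((J2_cutn_smooth n).differentiable (by norm_num) _) (hda z hz),
      J2_deriv_cutn]
  have hzero : ∀ n : ℕ, ∫ z in D, deriv J2_cut (((n : ℝ) + 1) * a z) * J a b z = 0 := by
    intro n
    have hn : (0 : ℝ) < (n : ℝ) + 1 := by positivity
    have hev : ∀ᶠ z in nearIn D H, |a z| < 1 / ((n : ℝ) + 1) := by
      have h1 := hlim.eventually (Metric.ball_mem_nhds (0 : ℝ)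
        (show (0 : ℝ) < 1 / ((n : ℝ) + 1) by positivity))
      filter_upwards [h1] with z hz
      simpa [Real.dist_eq] using hz
    obtain ⟨U, hU, hHU, hUa⟩ := eventually_nearIn.1 hev
    have hvan : ∀ z ∈ D, z ∈ U → J2_cutn n (a z) = 0 := by
      intro z hz hzU
      unfold J2_cutn
      rw [J2_cut_zero, zero_div]
      rw [abs_mul, abs_of_pos hn]
      have := hUa z ⟨hzU, hz⟩
      rw [lt_div_iff₀ hn] at this
      linarith
    have h2 : ∫ z in D, J (fun w => J2_cutn n (a w)) b z = 0 := by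
      refine integral_J_eq_zero (K := T \ U) hD (hT.diff hU) ?_
        ((J2_cutn_smooth n).comp_contDiffOn ha) hb ?_
      · rintro z ⟨hzT, hzU⟩
        rcases hTD hzT with h | h
        · exact h
        · exact absurd (hHU h) hzU
      · rintro z ⟨hzD, hzK⟩
        by_cases hzU : z ∈ U
        · left
          filter_upwards [hD.mem_nhds hzD, hU.mem_nhds hzU] with w hw1 hw2
          exact hvan w hw1 hw2
        · have hzT : z ∉ T := fun h => hzK ⟨h, hzU⟩
          rcases h0 z ⟨hzD, hzT⟩ with h | h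
          · left
            filter_upwards [h] with w hw
            rw [hw]
            unfold J2_cutn
            rw [mul_zero, J2_cut_zero (by simp), zero_div]
          · exact Or.inr h
    rw [← h2]
    exact setIntegral_congr_fun hD.measurableSet fun z hz => (hJn n z hz).symm
  have hlimit : Tendsto (fun n : ℕ => ∫ z in D, deriv J2_cut (((n : ℝ) + 1) * a z) * J a b z)
      atTop (𝓝 (∫ z in D, J a b z)) := by
    refine tendsto_integral_of_dominated_convergence (fun z => M * ‖J a b z‖) ?_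
      (hint.norm.const_mul M) ?_ ?_
    · intro n
      have hc : Continuous (deriv J2_cut) :=
        (J2_cut_smooth (n := 1)).continuous_deriv (by norm_num)
      have h1 : ContinuousOn (fun z => deriv J2_cut (((n : ℝ) + 1) * a z)) D :=
        hc.comp_continuousOn (continuousOn_const.mul ha.continuousOn)
      exact (h1.aestronglyMeasurable hD.measurableSet).mul
        (J2_measurable_J a b).aestronglyMeasurable
    · intro n
      refine Filter.Eventually.of_forall fun z => ?_
      rw [norm_mul, Real.norm_eq_abs]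
      exact mul_le_mul_of_nonneg_right (hM _) (norm_nonneg _)
    · have hnull : ∀ᵐ z ∂(volume.restrict D), ¬ (a z = 0 ∧ fderiv ℝ a z ≠ 0) := by
        rw [ae_restrict_iff' hD.measurableSet]
        have h1 := volume_level_set hD (ha.differentiableOn (by norm_num)) 0
        filter_upwards [measure_eq_zero_iff_ae_notMem.1 h1] with z hz hzD h
        exact hz ⟨hzD, h⟩
      filter_upwards [hnull] with z hz
      by_cases haz : a z = 0
      · have h1 : fderiv ℝ a z = 0 := by
          by_contra h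
          exact hz ⟨haz, h⟩
        have h2 : J a b z = 0 := by
          have h3 := abs_J_le a b z
          rw [h1, norm_zero, zero_mul] at h3
          exact abs_eq_zero.1 (le_antisymm h3 (abs_nonneg _))
        rw [h2]
        simp only [mul_zero]
        exact tendsto_const_nhds
      · have hpos : 0 < |a z| := abs_pos.2 haz
        have h1 : ∀ᶠ n : ℕ in atTop, 2 < |((n : ℝ) + 1) * a z| := by
          obtain ⟨N, hN⟩ := exists_nat_gt (2 / |a z|)
          filter_upwards [eventually_ge_atTop N] with n hn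
          have hn' : (N : ℝ) ≤ (n : ℝ) := by exact_mod_cast hn
          rw [abs_mul, abs_of_pos (show (0 : ℝ) < (n : ℝ) + 1 by positivity)]
          rw [div_lt_iff₀ hpos] at hN
          nlinarith
        refine tendsto_const_nhds.congr' ?_
        filter_upwards [h1] with n hn
        rw [J2_deriv_cut_large hn, one_mul]
  have h5 : Tendsto (fun n : ℕ => ∫ z in D, deriv J2_cut (((n : ℝ) + 1) * a z) * J a b z)
      atTop (𝓝 0) := by
    simp only [hzero]
    exact tendsto_const_nhds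
  exact tendsto_nhds_unique hlimit h5

end RSM2
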