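import Pool.Agent.RSM2.J1

/-!
# RSM2 module J3: the algebra of the functions with finite Dirichlet integral (`Nice`)

PROOFS.  `D` is open, so `fderiv` on `D` is computed from `ContDiffOn` (differentiable at every point
of `D`), and `‖∇a‖²` is continuous on `D`, so (strongly) measurable on `D`.
* sum: `‖∇(a + b)‖² ≤ 2‖∇a‖² + 2‖∇b‖²`.
* product: `∇(ab) = a∇b + b∇a`, `‖∇(ab)‖² ≤ 2 M_a² ‖∇b‖² + 2 M_b² ‖∇a‖²` on `D ∩ T`.
* composition with a `C²` function `φ : ℝ → ℝ`: `∇(φ ∘ a) = φ'(a) ∇a`, `a` takes values in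
  `[-M, M]`, on which `φ` and `φ'` are bounded.
* a `C²` function on the plane is nice if `T` is bounded (`T ⊆ closedBall 0 R`, continuity of the
  function and of its derivative on the compact ball; the volume of the ball is finite).
(`T` need not be measurable: use `Integrable.mono'` with respect to `volume.restrict (D ∩ T)`;
measurability: `AEStronglyMeasurable` of the continuous-on-`D` function for `volume.restrict D`, and
`.mono_set`; an inequality which holds at every point of `D ∩ T` holds almost everywhere for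
`volume.restrict (D ∩ T)`: it is true that `∀ᵐ z ∂(volume.restrict s), z ∈ s` needs `s` measurable;
to avoid this problem the inequality should be stated on the measurable set where it holds, which
contains `D ∩ T`; for instance for products: the sets `{z ∈ D | |a z| ≤ M_a}` are measurable,
contain `D ∩ T`, and `volume.restrict (D ∩ T) ≤ volume.restrict {z ∈ D | |a z| ≤ M_a}`; so
`∀ᵐ z ∂(volume.restrict (D ∩ T)), |a z| ≤ M_a` (`ae_restrict_of_ae_restrict_of_subset`).)
-/

open Complex Set Metric Filter Topology MeasureTheory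

namespace RSM2

variable {D T : Set ℂ} {a b : ℂ → ℝ}

private theorem J3_one_le_two : (1 : WithTop ℕ∞) ≤ 2 := by norm_num

private theorem J3_cont (hD : IsOpen D) (ha : ContDiffOn ℝ 2 a D) :
    ContinuousOn (fun z => fderiv ℝ a z) D :=
  ha.continuousOn_fderiv_of_isOpen hD J3_one_le_two

private theorem J3_diff (hD : IsOpen D) (ha : ContDiffOn ℝ 2 a D) {z : ℂ} (hz : z ∈ D) :
    DifferentiableAt ℝ a z :=
  (ha.differentiableOn two_ne_zero).differentiableAt (hD.mem_nhds hz)

private theorem J3_meas (hD : IsOpen D) (ha : ContDiffOn ℝ 2 a D) :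
    AEStronglyMeasurable (fun z => ‖fderiv ℝ a z‖ ^ 2) (volume.restrict (D ∩ T)) :=
  (((J3_cont hD ha).norm.pow 2).aestronglyMeasurable hD.measurableSet).mono_measure
    (Measure.restrict_mono_set _ inter_subset_left)

private theorem J3_ae_mem (hD : IsOpen D) : ∀ᵐ z ∂(volume.restrict (D ∩ T)), z ∈ D :=
  ae_restrict_of_ae_restrict_of_subset inter_subset_left (ae_restrict_mem hD.measurableSet)

private theorem J3_ae_bdd (hD : IsOpen D) (ha : ContinuousOn a D) {M : ℝ}
    (hM : ∀ z ∈ D ∩ T, |a z| ≤ M) : ∀ᵐ z ∂(volume.restrict (D ∩ T)), |a z| ≤ M := by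
  have h1 : IsOpen (D ∩ (fun z => |a z|) ⁻¹' Ioi M) :=
    ha.abs.isOpen_inter_preimage hD isOpen_Ioi
  have h2 : D ∩ T ⊆ D \ (D ∩ (fun z => |a z|) ⁻¹' Ioi M) := by
    intro z hz
    refine ⟨hz.1, fun h => ?_⟩
    exact absurd (hM z hz) (not_le.2 h.2)
  refine ae_restrict_of_ae_restrict_of_subset h2 ?_
  filter_upwards [ae_restrict_mem (hD.measurableSet.diff h1.measurableSet)] with z hz
  by_contra h
  exact hz.2 ⟨hz.1, not_le.1 h⟩

theorem Nice.mono {T' : Set ℂ} (ha : Nice D T a) (h : T' ⊆ T) : Nice D T' a where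
  smooth := ha.smooth
  bdd := by
    obtain ⟨M, hM⟩ := ha.bdd
    exact ⟨M, fun z hz => hM z ⟨hz.1, h hz.2⟩⟩
  l2 := ha.l2.mono_set (inter_subset_inter_right D h)

theorem Nice.add (hD : IsOpen D) (ha : Nice D T a) (hb : Nice D T b) :
    Nice D T (fun z => a z + b z) where
  smooth := ha.smooth.add hb.smooth
  bdd := by
    obtain ⟨M, hM⟩ := ha.bdd
    obtain ⟨N, hN⟩ := hb.bdd
    exact ⟨M + N, fun z hz => (abs_add_le _ _).trans (add_le_add (hM z hz) (hN z hz))⟩
  l2 := by
    refine Integrable.mono' ((ha.l2.const_mul 2).add (hb.l2.const_mul 2))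
      (J3_meas hD (ha.smooth.add hb.smooth)) ?_
    filter_upwards [J3_ae_mem (T := T) hD] with z hz
    rw [Real.norm_of_nonneg (by positivity),
      fderiv_fun_add (J3_diff hD ha.smooth hz) (J3_diff hD hb.smooth hz)]
    have h1 := norm_add_le (fderiv ℝ a z) (fderiv ℝ b z)
    have h2 := norm_nonneg (fderiv ℝ a z + fderiv ℝ b z)
    simp only [Pi.add_apply]
    nlinarith [sq_nonneg (‖fderiv ℝ a z‖ - ‖fderiv ℝ b z‖)]

theorem Nice.mul (hD : IsOpen D) (ha : Nice D T a) (hb : Nice D T b) :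
    Nice D T (fun z => a z * b z) where
  smooth := ha.smooth.mul hb.smooth
  bdd := by
    obtain ⟨M, hM⟩ := ha.bdd
    obtain ⟨N, hN⟩ := hb.bdd
    refine ⟨M * N, fun z hz => ?_⟩
    rw [abs_mul]
    exact mul_le_mul (hM z hz) (hN z hz) (abs_nonneg _) ((abs_nonneg _).trans (hM z hz))
  l2 := by
    obtain ⟨M, hM⟩ := ha.bdd
    obtain ⟨N, hN⟩ := hb.bdd
    refine Integrable.mono' ((hb.l2.const_mul (2 * M ^ 2)).add (ha.l2.const_mul (2 * N ^ 2)))
      (J3_meas hD (ha.smooth.mul hb.smooth)) ?_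
    filter_upwards [J3_ae_mem (T := T) hD, J3_ae_bdd hD ha.smooth.continuousOn hM,
      J3_ae_bdd hD hb.smooth.continuousOn hN] with z hz h3 h4
    rw [Real.norm_of_nonneg (by positivity),
      fderiv_fun_mul (J3_diff hD ha.smooth hz) (J3_diff hD hb.smooth hz)]
    have h1 := norm_add_le (a z • fderiv ℝ b z) (b z • fderiv ℝ a z)
    have h2 := norm_nonneg (a z • fderiv ℝ b z + b z • fderiv ℝ a z)
    have h5 : ‖a z • fderiv ℝ b z‖ ≤ M * ‖fderiv ℝ b z‖ := by
      rw [norm_smul, Real.norm_eq_abs]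
      exact mul_le_mul_of_nonneg_right h3 (norm_nonneg _)
    have h6 : ‖b z • fderiv ℝ a z‖ ≤ N * ‖fderiv ℝ a z‖ := by
      rw [norm_smul, Real.norm_eq_abs]
      exact mul_le_mul_of_nonneg_right h4 (norm_nonneg _)
    have h7 : ‖a z • fderiv ℝ b z + b z • fderiv ℝ a z‖ ≤
        M * ‖fderiv ℝ b z‖ + N * ‖fderiv ℝ a z‖ := by linarith
    have h8 := pow_le_pow_left₀ h2 h7 2
    simp only [Pi.add_apply]
    nlinarith [sq_nonneg (M * ‖fderiv ℝ b z‖ - N * ‖fderiv ℝ a z‖)]

theorem Nice.comp (hD : IsOpen D) (ha : Nice D T a) {φ : ℝ → ℝ} (hφ : ContDiff ℝ 2 φ) :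
    Nice D T (fun z => φ (a z)) := by
  have hs : ContDiffOn ℝ 2 (fun z => φ (a z)) D := hφ.comp_contDiffOn ha.smooth
  obtain ⟨M, hM⟩ := ha.bdd
  obtain ⟨C, hC⟩ := isCompact_Icc.exists_bound_of_continuousOn (s := Icc (-M) M)
    hφ.continuous.continuousOn
  have hφ' : Continuous (deriv φ) := hφ.continuous_deriv J3_one_le_two
  obtain ⟨K, hK⟩ := isCompact_Icc.exists_bound_of_continuousOn (s := Icc (-M) M)
    hφ'.continuousOn
  refine ⟨hs, ⟨C, fun z hz => hC _ (abs_le.1 (hM z hz))⟩, ?_⟩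
  refine Integrable.mono' (ha.l2.const_mul (K ^ 2)) (J3_meas hD hs) ?_
  filter_upwards [J3_ae_mem (T := T) hD, J3_ae_bdd hD ha.smooth.continuousOn hM] with z hz h3
  have h1 : HasFDerivAt (fun w => φ (a w)) (deriv φ (a z) • fderiv ℝ a z) z :=
    ((hφ.differentiable two_ne_zero _).hasDerivAt).comp_hasFDerivAt z
      (J3_diff hD ha.smooth hz).hasFDerivAt
  rw [Real.norm_of_nonneg (by positivity), h1.fderiv, norm_smul, mul_pow]
  have h4 := hK _ (abs_le.1 h3)
  exact mul_le_mul_of_nonneg_right (pow_le_pow_left₀ (norm_nonneg _) h4 2) (by positivity)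

theorem Nice.of_contDiff (hD : IsOpen D) {R : ℝ} (hT : T ⊆ closedBall 0 R) (ha : ContDiff ℝ 2 a) :
    Nice D T a := by
  obtain ⟨C, hC⟩ := (isCompact_closedBall (0 : ℂ) R).exists_bound_of_continuousOn
    ha.continuous.continuousOn
  refine ⟨ha.contDiffOn, ⟨C, fun z hz => hC z (hT hz.2)⟩, ?_⟩
  have h1 : Continuous (fun z => ‖fderiv ℝ a z‖ ^ 2) :=
    (ha.continuous_fderiv two_ne_zero).norm.pow 2
  exact (h1.continuousOn.integrableOn_compact (isCompact_closedBall (0 : ℂ) R)).mono_set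
    (inter_subset_right.trans hT)

theorem Nice.congr (hD : IsOpen D) (ha : Nice D T a) (h : EqOn b a D) : Nice D T b where
  smooth := ha.smooth.congr h
  bdd := by
    obtain ⟨M, hM⟩ := ha.bdd
    refine ⟨M, fun z hz => ?_⟩
    rw [h hz.1]
    exact hM z hz
  l2 := by
    refine Integrable.congr ha.l2 ?_
    filter_upwards [J3_ae_mem (T := T) hD] with z hz
    have h1 : b =ᶠ[𝓝 z] a := by
      filter_upwards [hD.mem_nhds hz] with y hy using h hy
    rw [h1.fderiv_eq]

theorem Nice.const (hD : IsOpen D) {R : ℝ} (hT : T ⊆ closedBall 0 R) (k : ℝ) :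
    Nice D T (fun _ => k) :=
  Nice.of_contDiff hD hT contDiff_const

theorem Nice.const_mul (hD : IsOpen D) (ha : Nice D T a) (k : ℝ) :
    Nice D T (fun z => k * a z) := by
  have h : ContDiff ℝ 2 (fun t : ℝ => k * t) := contDiff_const.mul contDiff_id
  exact ha.comp hD h

theorem Nice.sub (hD : IsOpen D) (ha : Nice D T a) (hb : Nice D T b) :
    Nice D T (fun z => a z - b z) := by
  have h := ha.add hD (hb.const_mul hD (-1))
  refine h.congr hD fun z _ => ?_
  ring

theorem Nice.re (hD : IsOpen D) {R : ℝ} (hT : T ⊆ closedBall 0 R) :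
    Nice D T (fun z => z.re) :=
  Nice.of_contDiff hD hT Complex.reCLM.contDiff

theorem Nice.im (hD : IsOpen D) {R : ℝ} (hT : T ⊆ closedBall 0 R) :
    Nice D T (fun z => z.im) :=
  Nice.of_contDiff hD hT Complex.imCLM.contDiff

end RSM2
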