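import Pool.Agent.RSM2.J2
import Pool.Agent.RSM2.J3

/-!
# RSM2 module J4: calculus of fluxes

`X` is a cut-off function for the hole `H` of `D`, `Fl D X a b = ∫_D J (X a) b` is the flux of
the 1-form `a db` at `H`.

PROOFS.  Everything is about functions which are `Nice D T`; the function `X a` is nice
(`Nice.mul`, `X` is `C^∞` on the plane with compact support; `T' = tsupport X` is a compact subset of
`T ∩ (D ∪ H)`, use `Nice.mono`), and `J (X a) b` is integrable (`integrable_J` with `T' = tsupport X`
in the role of `T`: near a point of `D \ tsupport X` the function `X a` vanishes).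
* linearity: `J` is bilinear, integrals of sums.
* `Fl_swap`: `J (X a) b + J (X b) a = J X (a b)` on `D` (Leibniz).  Let `g = a b`, let `U ⊇ H` be an
  open set on which `X = 1`, and `ζ` a `C^∞` function with `ζ = 0` near `H` and `ζ = 1` near `Uᶜ`
  (smooth Urysohn lemma).  On `D` one has `J X g = J X (ζ g)`: at the points of `U` both
  are `0` since `X` is locally constant there; at the points outside of `U` `ζ = 1` nearby.  And
  `∫_D J X (ζ g) = 0` by `integral_J_eq_zero` with `K = tsupport X \ {z | ζ = 0 near z}`, a compact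
  subset of `D` (at `z ∈ D \ K` one of `X`, `ζ g` vanishes near `z`).
* `Fl_of_tendsto_right`: `Fl(a, b) = ∫_D J (X a) (b - κ) = -∫_D J (b - κ) (X a) = 0` by
  `integral_J_eq_zero_of_tendsto` with `tsupport X` for `T`.
* `Fl_of_tendsto_left`: `Fl_swap`.
* `Fl_leibniz`: `J (X a) (b c) = b J (X a) c + c J (X a) b`, while
  `J (X a b) c = b J (X a) c + X a J b c` and `J (X a c) b = c J (X a) b + X a J c b`; the sum
  is the same.
* `Fl_const_left`: `Fl_of_tendsto_left`.  `Fl_self`: `Fl_swap` with `a = b`.
* `Fl_congr`: near a point of `D` the functions agree.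
* `Fl_eq_of_cut`: `∫_D J ((X - X') a) b = 0` by `integral_J_eq_zero` (`X - X' = 0` near `H`).
-/

open Complex Set Metric Filter Topology MeasureTheory

namespace RSM2

variable {D H T : Set ℂ} {X a a' b b' c : ℂ → ℝ}

theorem J4_smooth2 (hX : HoleCut D H T X) : ContDiff ℝ 2 X :=
  hX.smooth.of_le (by norm_cast)

theorem J4_diffX (hX : HoleCut D H T X) (z : ℂ) : DifferentiableAt ℝ X z :=
  (J4_smooth2 hX).contDiffAt.differentiableAt (by norm_num)

theorem J4_diff (hD : IsOpen D) (ha : ContDiffOn ℝ 2 a D) {z : ℂ} (hz : z ∈ D) :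
    DifferentiableAt ℝ a z :=
  (ha.contDiffAt (hD.mem_nhds hz)).differentiableAt (by norm_num)

theorem J4_restrict (hX : HoleCut D H T X) : HoleCut D H (tsupport X) X where
  openD := hX.openD
  compactH := hX.compactH
  disj := hX.disj
  smooth := hX.smooth
  compact := hX.compact
  one := hX.one
  supp := fun _ hz => ⟨hz, (hX.supp hz).2⟩

theorem J4_isCompact (hX : HoleCut D H T X) : IsCompact (tsupport X) := hX.compact

theorem J4_subT (hX : HoleCut D H T X) : tsupport X ⊆ T := fun _ hz => (hX.supp hz).1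

theorem J4_nice_X (hX : HoleCut D H T X) : Nice D (tsupport X) X := by
  obtain ⟨R, hR⟩ := (J4_isCompact hX).isBounded.subset_closedBall 0
  exact Nice.of_contDiff hX.openD hR (J4_smooth2 hX)

theorem J4_nice_Xa (hX : HoleCut D H T X) (ha : Nice D T a) :
    Nice D (tsupport X) (fun w => X w * a w) :=
  (J4_nice_X hX).mul hX.openD (ha.mono (J4_subT hX))

theorem J4_const (hX : HoleCut D H T X) (k : ℝ) : Nice D (tsupport X) (fun _ => k) := by
  obtain ⟨R, hR⟩ := (J4_isCompact hX).isBounded.subset_closedBall 0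
  exact Nice.const hX.openD hR k

theorem J4_ev_zero (hX : HoleCut D H T X) {z : ℂ} (hz : z ∉ tsupport X) (a : ℂ → ℝ) :
    ∀ᶠ w in 𝓝 z, X w * a w = 0 := by
  have h1 : ∀ᶠ w in 𝓝 z, w ∉ tsupport X := (isClosed_tsupport X).isOpen_compl.mem_nhds hz
  filter_upwards [h1] with w hw
  rw [image_eq_zero_of_notMem_tsupport hw, zero_mul]

theorem integrable_Fl (hX : HoleCut D H T X) (ha : Nice D T a) (hb : Nice D T b) :
    IntegrableOn (J (fun w => X w * a w) b) D := by
  have h1 := J4_nice_Xa hX ha
  exact integrable_J hX.openD (J4_isCompact hX) h1.smooth hb.smooth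
    (fun z hz => Or.inl (J4_ev_zero hX hz.2 a)) h1.l2 (hb.mono (J4_subT hX)).l2

theorem Fl_congr (hX : HoleCut D H T X) (h1 : EqOn a a' D) (h2 : EqOn b b' D) :
    Fl D X a b = Fl D X a' b' := by
  unfold Fl
  apply setIntegral_congr_fun hX.openD.measurableSet
  intro z hz
  have hDz := hX.openD.mem_nhds hz
  apply J_congr
  · filter_upwards [hDz] with w hw
    rw [h1 hw]
  · filter_upwards [hDz] with w hw
    rw [h2 hw]

theorem Fl_add_left (hX : HoleCut D H T X) (ha : Nice D T a) (ha' : Nice D T a')
    (hb : Nice D T b) : Fl D X (fun z => a z + a' z) b = Fl D X a b + Fl D X a' b := by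
  unfold Fl
  rw [← integral_add (integrable_Fl hX ha hb) (integrable_Fl hX ha' hb)]
  apply setIntegral_congr_fun hX.openD.measurableSet
  intro z hz
  have hda := J4_diff hX.openD ha.smooth hz
  have hda' := J4_diff hX.openD ha'.smooth hz
  have hdX := J4_diffX hX z
  have h1 : (fun w => X w * (a w + a' w)) = fun w => X w * a w + X w * a' w := by
    funext w; ring
  show J (fun w => X w * (a w + a' w)) b z = _
  rw [h1]
  exact J_add_left (hdX.mul hda) (hdX.mul hda')

theorem Fl_add_right (hX : HoleCut D H T X) (ha : Nice D T a) (hb : Nice D T b)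
    (hb' : Nice D T b') : Fl D X a (fun z => b z + b' z) = Fl D X a b + Fl D X a b' := by
  unfold Fl
  rw [← integral_add (integrable_Fl hX ha hb) (integrable_Fl hX ha hb')]
  apply setIntegral_congr_fun hX.openD.measurableSet
  intro z hz
  exact J_add_right (J4_diff hX.openD hb.smooth hz) (J4_diff hX.openD hb'.smooth hz)

theorem Fl_smul_left (hX : HoleCut D H T X) (ha : Nice D T a) (hb : Nice D T b) (k : ℝ) :
    Fl D X (fun z => k * a z) b = k * Fl D X a b := by
  unfold Fl
  rw [← integral_const_mul]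
  apply setIntegral_congr_fun hX.openD.measurableSet
  intro z hz
  have hda := J4_diff hX.openD ha.smooth hz
  have hdX := J4_diffX hX z
  have h1 : (fun w => X w * (k * a w)) = fun w => k * (X w * a w) := by
    funext w; ring
  show J (fun w => X w * (k * a w)) b z = _
  rw [h1]
  exact J_const_mul_left k (hdX.mul hda)

theorem Fl_smul_right (hX : HoleCut D H T X) (ha : Nice D T a) (hb : Nice D T b) (k : ℝ) :
    Fl D X a (fun z => k * b z) = k * Fl D X a b := by
  unfold Fl
  rw [← integral_const_mul]
  apply setIntegral_congr_fun hX.openD.measurableSet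
  intro z hz
  exact J_const_mul_right k (J4_diff hX.openD hb.smooth hz)

/-- the integral of `J X g` vanishes -/
theorem J4_integral_JX (hX : HoleCut D H T X) {g : ℂ → ℝ} (hg : ContDiffOn ℝ 2 g D) :
    ∫ z in D, J X g z = 0 := by
  obtain ⟨U, hU, hHU, hU1⟩ := mem_nhdsSet_iff_exists.1 hX.one
  have hdisj : Disjoint H Uᶜ := by
    rw [Set.disjoint_compl_right_iff_subset]; exact hHU
  obtain ⟨ζ, hζ0, hζ1, -⟩ := exists_contMDiffMap_zero_one_nhds_of_isClosed (n := (⊤ : ℕ∞))
    (modelWithCornersSelf ℝ ℂ) hX.compactH.isClosed hU.isClosed_compl hdisj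
  have hζs : ContDiff ℝ 2 (fun z => ζ z) := by
    have h1 : ContMDiff (modelWithCornersSelf ℝ ℂ) (modelWithCornersSelf ℝ ℝ) (⊤ : ℕ∞) ζ :=
      ζ.contMDiff
    exact (contMDiff_iff_contDiff.1 h1).of_le (by norm_cast)
  have h1 : ∫ z in D, J X g z = ∫ z in D, J X (fun w => ζ w * g w) z := by
    apply setIntegral_congr_fun hX.openD.measurableSet
    intro z hz
    by_cases hzU : z ∈ U
    · have h2 : X =ᶠ[𝓝 z] fun _ => 1 := by
        filter_upwards [hU.mem_nhds hzU] with w hw using hU1 hw
      show J X g z = J X _ z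
      rw [J_congr h2 (Filter.EventuallyEq.refl _ g),
        J_congr h2 (Filter.EventuallyEq.refl _ (fun w => ζ w * g w)), J_const_left, J_const_left]
    · have h2 : ∀ᶠ w in 𝓝 z, ζ w = 1 := by
        have h3 : 𝓝 z ≤ 𝓝ˢ Uᶜ := nhds_le_nhdsSet hzU
        exact h3 hζ1
      apply J_congr (Filter.EventuallyEq.refl _ X)
      filter_upwards [h2] with w hw
      rw [hw, one_mul]
  rw [h1]
  obtain ⟨V, hV, hHV, hV0⟩ := mem_nhdsSet_iff_exists.1 hζ0
  apply integral_J_eq_zero hX.openD (K := tsupport X \ V) ((J4_isCompact hX).diff hV)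
  · intro z hz
    rcases (hX.supp hz.1).2 with h2 | h2
    · exact h2
    · exact absurd (hHV h2) hz.2
  · exact (J4_smooth2 hX).contDiffOn
  · exact hζs.contDiffOn.mul hg
  · intro z hz
    by_cases h2 : z ∈ tsupport X
    · right
      have hzV : z ∈ V := by
        by_contra h3
        exact hz.2 ⟨h2, h3⟩
      filter_upwards [hV.mem_nhds hzV] with w hw
      have : ζ w = 0 := hV0 hw
      rw [this, zero_mul]
    · left
      filter_upwards [J4_ev_zero hX h2 (fun _ => 1)] with w hw
      simpa using hw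

theorem Fl_swap (hX : HoleCut D H T X) (ha : Nice D T a) (hb : Nice D T b) :
    Fl D X a b = -Fl D X b a := by
  rw [eq_neg_iff_add_eq_zero]
  unfold Fl
  rw [← integral_add (integrable_Fl hX ha hb) (integrable_Fl hX hb ha),
    ← J4_integral_JX hX (ha.smooth.mul hb.smooth)]
  apply setIntegral_congr_fun hX.openD.measurableSet
  intro z hz
  have hda := J4_diff hX.openD ha.smooth hz
  have hdb := J4_diff hX.openD hb.smooth hz
  have hdX := J4_diffX hX z
  show J (fun w => X w * a w) b z + J (fun w => X w * b w) a z = J X (fun w => a w * b w) z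
  rw [J_mul_left hdX hda, J_mul_left hdX hdb, J_mul_right hda hdb, J_swap b a]
  ring

theorem Fl_of_tendsto_right (hX : HoleCut D H T X) (ha : Nice D T a) (hb : Nice D T b) {κ : ℝ}
    (hlim : Tendsto b (nearIn D H) (𝓝 κ)) : Fl D X a b = 0 := by
  have h1 := J4_nice_Xa hX ha
  have hbS := hb.mono (J4_subT hX)
  have hbk := hbS.sub hX.openD (J4_const hX κ)
  have h2 : ∫ z in D, J (fun z => b z - κ) (fun w => X w * a w) z = 0 := by
    apply integral_J_eq_zero_of_tendsto hX.openD hX.compactH hX.disj (J4_isCompact hX)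
      (fun z hz => (hX.supp hz).2) hbk.smooth h1.smooth
      (fun z hz => Or.inr (J4_ev_zero hX hz.2 a)) hbk.l2 h1.l2
    have h3 := hlim.sub_const κ
    rwa [sub_self] at h3
  unfold Fl
  rw [← neg_eq_zero, ← integral_neg, ← h2]
  apply setIntegral_congr_fun hX.openD.measurableSet
  intro z hz
  have hdb := J4_diff hX.openD hb.smooth hz
  show -J (fun w => X w * a w) b z = J (fun z => b z - κ) (fun w => X w * a w) z
  rw [J_sub_left hdb (differentiableAt_const κ), J_const_left, J_swap b]
  ring

theorem Fl_of_tendsto_left (hX : HoleCut D H T X) (ha : Nice D T a) (hb : Nice D T b) {κ : ℝ}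
    (hlim : Tendsto a (nearIn D H) (𝓝 κ)) : Fl D X a b = 0 := by
  rw [Fl_swap hX ha hb, Fl_of_tendsto_right hX hb ha hlim, neg_zero]

theorem Fl_leibniz (hX : HoleCut D H T X) (ha : Nice D T a) (hb : Nice D T b)
    (hc : Nice D T c) : Fl D X a (fun z => b z * c z) =
      Fl D X (fun z => a z * b z) c + Fl D X (fun z => a z * c z) b := by
  unfold Fl
  rw [← integral_add (integrable_Fl hX (ha.mul hX.openD hb) hc)
    (integrable_Fl hX (ha.mul hX.openD hc) hb)]
  apply setIntegral_congr_fun hX.openD.measurableSet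
  intro z hz
  have hda := J4_diff hX.openD ha.smooth hz
  have hdb := J4_diff hX.openD hb.smooth hz
  have hdc := J4_diff hX.openD hc.smooth hz
  have hdX := J4_diffX hX z
  have hdXa : DifferentiableAt ℝ (fun w => X w * a w) z := hdX.mul hda
  have e1 : (fun w => X w * (a w * b w)) = fun w => (X w * a w) * b w := by
    funext w; ring
  have e2 : (fun w => X w * (a w * c w)) = fun w => (X w * a w) * c w := by
    funext w; ring
  show J (fun w => X w * a w) (fun w => b w * c w) z =
    J (fun w => X w * (a w * b w)) c z + J (fun w => X w * (a w * c w)) b z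
  rw [e1, e2, J_mul_right hdb hdc, J_mul_left hdXa hdb, J_mul_left hdXa hdc, J_swap c b]
  ring

theorem Fl_const_left (hX : HoleCut D H T X) (hb : Nice D T b) (k : ℝ) :
    Fl D X (fun _ => k) b = 0 :=
  Fl_of_tendsto_left (J4_restrict hX) (J4_const hX k) (hb.mono (J4_subT hX)) tendsto_const_nhds

theorem Fl_self (hX : HoleCut D H T X) (hb : Nice D T b) : Fl D X b b = 0 := by
  have := Fl_swap hX hb hb
  linarith

theorem Fl_eq_of_cut {T' : Set ℂ} {X' : ℂ → ℝ} (hX : HoleCut D H T X) (hX' : HoleCut D H T' X')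
    (ha : ContDiffOn ℝ 2 a D) (hb : ContDiffOn ℝ 2 b D)
    (h1 : IntegrableOn (J (fun w => X w * a w) b) D)
    (h2 : IntegrableOn (J (fun w => X' w * a w) b) D) : Fl D X a b = Fl D X' a b := by
  rw [← sub_eq_zero]
  unfold Fl
  rw [← integral_sub h1 h2]
  have h3 : ∀ᶠ z in 𝓝ˢ H, X z = X' z := by
    filter_upwards [hX.one, hX'.one] with z hz hz'
    rw [hz, hz']
  obtain ⟨V, hV, hHV, hV0⟩ := mem_nhdsSet_iff_exists.1 h3
  have h4 : ∫ z in D, J (fun w => (X w - X' w) * a w) b z = 0 := by
    apply integral_J_eq_zero hX.openD (K := (tsupport X ∪ tsupport X') \ V)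
      (((J4_isCompact hX).union (J4_isCompact hX')).diff hV)
    · intro z hz
      have h5 : z ∈ D ∪ H := by
        rcases hz.1 with h6 | h6
        · exact (hX.supp h6).2
        · exact (hX'.supp h6).2
      rcases h5 with h5 | h5
      · exact h5
      · exact absurd (hHV h5) hz.2
    · exact ((J4_smooth2 hX).sub (J4_smooth2 hX')).contDiffOn.mul ha
    · exact hb
    · intro z hz
      left
      by_cases h5 : z ∈ V
      · filter_upwards [hV.mem_nhds h5] with w hw
        have : X w = X' w := hV0 hw
        rw [this, sub_self, zero_mul]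
      · have h6 : z ∉ tsupport X ∪ tsupport X' := fun h7 => hz.2 ⟨h7, h5⟩
        rw [mem_union, not_or] at h6
        filter_upwards [J4_ev_zero hX h6.1 a, J4_ev_zero hX' h6.2 a] with w hw hw'
        rw [sub_mul, hw, hw', sub_zero]
  rw [← h4]
  apply setIntegral_congr_fun hX.openD.measurableSet
  intro z hz
  have hda := J4_diff hX.openD ha hz
  have hdX := J4_diffX hX z
  have hdX' := J4_diffX hX' z
  have e1 : (fun w => (X w - X' w) * a w) = fun w => X w * a w - X' w * a w := by
    funext w; ring
  show J (fun w => X w * a w) b z - J (fun w => X' w * a w) b z =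
    J (fun w => (X w - X' w) * a w) b z
  have hA : DifferentiableAt ℝ (fun w => X w * a w) z := hdX.mul hda
  have hB : DifferentiableAt ℝ (fun w => X' w * a w) z := hdX'.mul hda
  rw [e1, J_sub_left hA hB]

end RSM2
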