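import Pool.Agent.RSM2.J4

/-!
# RSM2 module J5: cut-off functions, and Stokes' theorem for finitely many holes

PROOFS.  `exists_cut`: `H` is compact, `U ⊇ H` open: there is a compact neighbourhood of `H` in `U`
(`exists_compact_between`); smooth Urysohn lemma (`exists_contDiff_tsupport_subset`,
`exists_contMDiff_zero_iff_one_iff_of_isClosed`, or `exists_smooth_support_eq`...: any version).
`stokes_sum`: put `Y = 1 - ∑ i, X i`, so `a = ∑ i, X i a + Y a`, `J a b = ∑ J (X i a) b + J (Y a) b`,
all integrable (`integrable_Fl`; `integrable_J` for `J (Y a) b` with the compact set `T`: near a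
point of `D \ T` `a` or `b` vanishes).  `Y` vanishes near every `H i`: there is an open
`U ⊇ ⋃ i, H i` on which `Y = 0`.  `K = T \ U` is a compact subset of `D` and near the points
of `D \ K` either `Y a` or `b` vanishes; so `∫_D J (Y a) b = 0` (`integral_J_eq_zero`).
-/

open Complex Set Metric Filter Topology MeasureTheory

namespace RSM2

theorem exists_cut {H U : Set ℂ} (hH : IsCompact H) (hU : IsOpen U) (hHU : H ⊆ U) :
    ∃ X : ℂ → ℝ, ContDiff ℝ (⊤ : ℕ∞) X ∧ HasCompactSupport X ∧ tsupport X ⊆ U ∧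
      (∀ z, 0 ≤ X z ∧ X z ≤ 1) ∧ ∀ᶠ z in 𝓝ˢ H, X z = 1 := by
  obtain ⟨K, hK, hHK, hKU⟩ := exists_compact_between hH hU hHU
  obtain ⟨f, hfs, hfc, hfr⟩ := (isOpen_interior (s := K)).exists_contDiff_support_eq (n := ⊤)
  have hpos : ∀ z ∈ H, 0 < f z := by
    intro z hz
    have h1 : z ∈ Function.support f := by
      rw [hfs]
      exact hHK hz
    have h2 : 0 ≤ f z := (hfr (mem_range_self z)).1
    exact lt_of_le_of_ne h2 (Ne.symm h1)
  obtain ⟨c, hc, hcH⟩ : ∃ c : ℝ, 0 < c ∧ ∀ z ∈ H, c ≤ f z := by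
    rcases H.eq_empty_or_nonempty with he | hne
    · exact ⟨1, one_pos, fun z hz => by rw [he] at hz; exact absurd hz (notMem_empty z)⟩
    · obtain ⟨z₀, hz₀, hmin⟩ := hH.exists_isMinOn hne hfc.continuous.continuousOn
      exact ⟨f z₀, hpos z₀ hz₀, fun z hz => hmin hz⟩
  have hsup : tsupport (fun z => Real.smoothTransition (2 * f z / c)) ⊆ K := by
    apply closure_minimal _ hK.isClosed
    intro z hz
    by_contra hzK
    have h1 : f z = 0 := by
      by_contra h
      have h2 : z ∈ interior K := by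
        rw [← hfs]
        exact h
      exact hzK (interior_subset h2)
    apply hz
    simp only [h1, mul_zero, zero_div]
    exact Real.smoothTransition.zero_of_nonpos le_rfl
  refine ⟨fun z => Real.smoothTransition (2 * f z / c), ?_, ?_, hsup.trans hKU, ?_, ?_⟩
  · exact Real.smoothTransition.contDiff.comp ((contDiff_const.mul hfc).div_const c)
  · exact hK.of_isClosed_subset (isClosed_tsupport _) hsup
  · intro z
    exact ⟨Real.smoothTransition.nonneg _, Real.smoothTransition.le_one _⟩
  · rw [eventually_nhdsSet_iff_exists]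
    refine ⟨{z | c / 2 < f z}, isOpen_lt continuous_const hfc.continuous, ?_, ?_⟩
    · intro z hz
      have := hcH z hz
      simp only [mem_ofPred_eq]
      linarith
    · intro z hz
      simp only [mem_ofPred_eq] at hz
      apply Real.smoothTransition.one_of_one_le
      rw [le_div_iff₀ hc]
      linarith

theorem stokes_sum {ι : Type} [Fintype ι] {D T : Set ℂ} {H : ι → Set ℂ} {X : ι → ℂ → ℝ}
    (hD : IsOpen D) (hX : ∀ i, HoleCut D (H i) T (X i))
    (hX0 : ∀ i j, i ≠ j → ∀ᶠ z in 𝓝ˢ (H j), X i z = 0) (hT : IsCompact T)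
    (hTD : T ⊆ D ∪ ⋃ i, H i) {a b : ℂ → ℝ} (ha : Nice D T a) (hb : Nice D T b)
    (h0 : ∀ z ∈ D \ T, (∀ᶠ w in 𝓝 z, a w = 0) ∨ (∀ᶠ w in 𝓝 z, b w = 0)) :
    IntegrableOn (J a b) D ∧ ∫ z in D, J a b z = ∑ i, Fl D (X i) a b := by
  classical
  have hint : IntegrableOn (J a b) D := integrable_J hD hT ha.smooth hb.smooth h0 ha.l2 hb.l2
  refine ⟨hint, ?_⟩
  have hFl : ∀ i, IntegrableOn (J (fun w => X i w * a w) b) D := fun i => integrable_Fl (hX i) ha hb
  obtain ⟨Y, hY⟩ : ∃ Y : ℂ → ℝ, Y = fun z => 1 - ∑ i, X i z := ⟨_, rfl⟩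
  have hYs : ContDiff ℝ 2 Y := by
    rw [hY]
    apply contDiff_const.sub
    apply ContDiff.sum
    intro i _
    exact_mod_cast contDiff_infty.1 (hX i).smooth 2
  have hY0 : ∀ᶠ z in 𝓝ˢ (⋃ i, H i), Y z = 0 := by
    rw [nhdsSet_iUnion, eventually_iSup]
    intro j
    have h1 : ∀ᶠ z in 𝓝ˢ (H j), ∀ i, i ≠ j → X i z = 0 := by
      rw [eventually_all]
      intro i
      by_cases hij : i = j
      · exact Filter.Eventually.of_forall fun z h => absurd hij h
      · filter_upwards [hX0 i j hij] with z hz _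
        exact hz
    filter_upwards [h1, (hX j).one] with z hz hz1
    rw [hY]
    simp only
    rw [Finset.sum_eq_single j (fun i _ hi => hz i hi) (fun h => absurd (Finset.mem_univ j) h), hz1,
      sub_self]
  obtain ⟨U, hU, hHU, hUY⟩ := eventually_nhdsSet_iff_exists.1 hY0
  have hzero : ∫ z in D, J (fun w => Y w * a w) b z = 0 := by
    refine integral_J_eq_zero (K := T \ U) hD (hT.diff hU) ?_ (hYs.contDiffOn.mul ha.smooth)
      hb.smooth ?_
    · rintro z ⟨hzT, hzU⟩
      rcases hTD hzT with h | h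
      · exact h
      · exact absurd (hHU h) hzU
    · rintro z ⟨hzD, hzK⟩
      by_cases hzU : z ∈ U
      · left
        filter_upwards [hU.mem_nhds hzU] with w hw
        rw [hUY w hw, zero_mul]
      · have hzT : z ∉ T := fun h => hzK ⟨h, hzU⟩
        rcases h0 z ⟨hzD, hzT⟩ with h | h
        · left
          filter_upwards [h] with w hw
          rw [hw, mul_zero]
        · exact Or.inr h
  have hda : ∀ z ∈ D, DifferentiableAt ℝ a z := fun z hz =>
    (ha.smooth.differentiableOn (by norm_num)).differentiableAt (hD.mem_nhds hz)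
  have hdX : ∀ i z, DifferentiableAt ℝ (X i) z := fun i z =>
    (hX i).smooth.differentiable (by simp) z
  have hfY : ∀ z v, fderiv ℝ Y z v = -∑ i, fderiv ℝ (X i) z v := by
    intro z v
    have h1 : HasFDerivAt Y (-∑ i, fderiv ℝ (X i) z) z := by
      rw [hY]
      have h2 : HasFDerivAt (fun z => ∑ i, X i z) (∑ i, fderiv ℝ (X i) z) z :=
        HasFDerivAt.fun_sum fun i _ => (hdX i z).hasFDerivAt
      exact h2.const_sub 1
    rw [h1.fderiv]
    simp
  have hpt : ∀ z ∈ D, J a b z - ∑ i, J (fun w => X i w * a w) b z = J (fun w => Y w * a w) b z := by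
    intro z hz
    have hYd : DifferentiableAt ℝ Y z := hYs.differentiable (by norm_num) z
    rw [J_mul_left hYd (hda z hz)]
    have h1 : ∀ i, J (fun w => X i w * a w) b z = X i z * J a b z + a z * J (X i) b z := fun i =>
      J_mul_left (hdX i z) (hda z hz)
    simp only [h1]
    rw [Finset.sum_add_distrib, ← Finset.sum_mul, ← Finset.mul_sum]
    have h2 : J Y b z = -∑ i, J (X i) b z := by
      unfold J
      have e1 : dX Y z = -∑ i, dX (X i) z := hfY z 1
      have e2 : dY Y z = -∑ i, dY (X i) z := hfY z I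
      rw [e1, e2, Finset.sum_sub_distrib, ← Finset.sum_mul, ← Finset.sum_mul]
      ring
    rw [h2]
    have h3 : Y z = 1 - ∑ i, X i z := by rw [hY]
    rw [h3]
    ring
  have hsum : ∫ z in D, (J a b z - ∑ i, J (fun w => X i w * a w) b z) = 0 := by
    rw [setIntegral_congr_fun hD.measurableSet hpt, hzero]
  rw [integral_sub hint (integrable_finsetSum _ fun i _ => hFl i),
    integral_finsetSum _ fun i _ => hFl i] at hsum
  exact sub_eq_zero.1 hsum

end RSM2
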