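import Pool.Agent.RSM2.J5

/-!
# RSM2 module J7: the jump functional of a function across slits, basics

`p, τ, ℓ` is a finite family of disjoint slits (`SlitFam`), `D = (SF p τ ℓ)ᶜ`; `A` is a `C²` function
on `D`, bounded with finite Dirichlet integral on bounded parts of `D` (`Nice D (closedBall 0 r) A`
for all `r`).  For a test function `φ` (`C^∞` with compact support) put `μ(φ) = -∫_D ∂_y (φ A)`
(`jump`).  (It is the integral of `φ` times the jump of `A` over the slits, with respect to `dx`.)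

PROOFS.  Every slit is a compact null set: it is contained in a non-vertical straight line
(`Measure.addHaar_affineSubspace`, or Fubini: for every `x` there is at most one `y`).
`∂_y f = -J f re`, `∂_x f = J f im`.  `φ A` is `C¹` on `D`, with compact support, and
`∂(φ A) = φ ∂A + A ∂φ` is integrable over `D` (`A` bounded, `∂A` square integrable on
`D ∩ closedBall 0 r ⊇ D ∩ tsupport φ`, a set of finite measure).  `jump` is linear in `φ`.  If `φ = 0`
near all the slits then `μ(φ) = 0` and `∫_D ∂_x (φ A) = 0`: `integral_J_eq_zero` with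
`K = tsupport φ \ U`, where `U` is an open neighbourhood of the slits on which `φ = 0`, `f = φ A`,
`g = re`, resp. `g = im`.
-/

open Complex Set Metric Filter Topology MeasureTheory

namespace RSM2

variable {ι : Type} {p : ι → ℂ} {τ ℓ : ι → ℝ} {ε R R' : ℝ}

/-- `A` is nondecreasing in `y` on the complement of `S`. -/
def MonoY (S : Set ℂ) (A : ℂ → ℝ) : Prop :=
  ∀ z w : ℂ, z ∉ S → w ∉ S → z.re = w.re → z.im ≤ w.im → A z ≤ A w

/-- The jump functional. -/
noncomputable def jump (S : Set ℂ) (A φ : ℂ → ℝ) : ℝ := -∫ z in Sᶜ, dY (fun w => φ w * A w) z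

theorem isCompact_slit (p : ℂ) (τ ℓ : ℝ) : IsCompact (slit p τ ℓ) :=
  isCompact_Icc.image (by fun_prop)

theorem volume_slit (p : ℂ) (τ ℓ : ℝ) : volume (slit p τ ℓ) = 0 := by
  have hne : AffineSubspace.mk' p (Submodule.span ℝ {(1 + τ * I : ℂ)}) ≠ ⊤ := by
    intro h
    have h1 : (AffineSubspace.mk' p (Submodule.span ℝ {(1 + τ * I : ℂ)})).direction = ⊤ := by
      rw [h]; exact AffineSubspace.direction_top ℝ ℂ ℂ
    rw [AffineSubspace.direction_mk'] at h1
    have h2 := finrank_span_singleton (K := ℝ) (v := (1 + τ * I : ℂ)) (by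
      intro h3
      have := congrArg Complex.re h3
      simp at this)
    rw [h1, finrank_top, Complex.finrank_real_complex] at h2
    norm_num at h2
  refine measure_mono_null ?_ (Measure.addHaar_affineSubspace volume
    (AffineSubspace.mk' p (Submodule.span ℝ {(1 + τ * I : ℂ)})) hne)
  rintro z ⟨t, _, rfl⟩
  rw [SetLike.mem_coe, AffineSubspace.mem_mk', vsub_eq_sub]
  refine Submodule.mem_span_singleton.2 ⟨t, ?_⟩
  rw [Complex.real_smul]
  ring

theorem SlitFam.isCompact (h : SlitFam p τ ℓ ε R R') : IsCompact (SF p τ ℓ) := by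
  have := h.fin
  exact isCompact_iUnion fun j => isCompact_slit _ _ _

theorem SlitFam.volume (h : SlitFam p τ ℓ ε R R') : MeasureTheory.volume (SF p τ ℓ) = 0 := by
  have := h.fin
  exact measure_iUnion_null fun j => volume_slit _ _ _

variable {A φ φ' : ℂ → ℝ}

/-- The derivative in the direction `v` of the product is integrable. -/
theorem integrable_jump_aux {D : Set ℂ} (hD : IsOpen D)
    (hA : ∀ r, Nice D (closedBall 0 r) A) (hφ : ContDiff ℝ 1 φ)
    (hc : HasCompactSupport φ) (v : ℂ) :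
    IntegrableOn (fun z => fderiv ℝ (fun w => φ w * A w) z v) D := by
  have hK : IsCompact (tsupport φ) := hc
  obtain ⟨r, hr⟩ := hK.isBounded.subset_closedBall (0 : ℂ)
  obtain ⟨M, hM⟩ := (hA r).bdd
  obtain ⟨C, hC⟩ := hK.exists_bound_of_continuousOn hφ.continuous.continuousOn
  obtain ⟨C', hC'⟩ := hK.exists_bound_of_continuousOn
    (hφ.continuous_fderiv (by norm_num)).continuousOn
  have hmeas : Measurable (fun z => fderiv ℝ (fun w => φ w * A w) z v) :=
    measurable_fderiv_apply_const ℝ _ v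
  have hmsK : MeasurableSet (tsupport φ) := (isClosed_tsupport φ).measurableSet
  have h1 : IntegrableOn (fun z => fderiv ℝ (fun w => φ w * A w) z v) (D ∩ tsupport φ) := by
    have hfin : volume (D ∩ tsupport φ) < ⊤ :=
      (measure_mono inter_subset_right).trans_lt hK.measure_lt_top
    have hdom : IntegrableOn (fun z => (|C| * (1 + ‖fderiv ℝ A z‖ ^ 2) + |M| * |C'|) * ‖v‖)
        (D ∩ tsupport φ) := by
      have h2 : IntegrableOn (fun z => ‖fderiv ℝ A z‖ ^ 2) (D ∩ tsupport φ) :=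
        (hA r).l2.mono_set (inter_subset_inter_right _ hr)
      have h3 : IntegrableOn (fun _ : ℂ => (1 : ℝ)) (D ∩ tsupport φ) :=
        integrableOn_const hfin.ne
      have h4 : IntegrableOn (fun _ : ℂ => |M| * |C'|) (D ∩ tsupport φ) :=
        integrableOn_const hfin.ne
      exact (((h3.add h2).const_mul |C|).add h4).mul_const ‖v‖
    refine hdom.mono' hmeas.aestronglyMeasurable ?_
    rw [ae_restrict_iff' (hD.measurableSet.inter hmsK)]
    refine Filter.Eventually.of_forall fun z hz => ?_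
    have hdA : DifferentiableAt ℝ A z :=
      ((hA r).smooth.differentiableOn (by norm_num)).differentiableAt (hD.mem_nhds hz.1)
    have hdφ : DifferentiableAt ℝ φ z := (hφ.differentiable (by norm_num)) z
    have h5 : fderiv ℝ (fun w => φ w * A w) z v =
        φ z * fderiv ℝ A z v + A z * fderiv ℝ φ z v := by
      rw [fderiv_fun_mul hdφ hdA]; simp
    rw [h5, Real.norm_eq_abs]
    refine (abs_add_le _ _).trans ?_
    rw [abs_mul, abs_mul]
    have h6 : |fderiv ℝ A z v| ≤ ‖fderiv ℝ A z‖ * ‖v‖ := (fderiv ℝ A z).le_opNorm v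
    have h7 : |fderiv ℝ φ z v| ≤ ‖fderiv ℝ φ z‖ * ‖v‖ := (fderiv ℝ φ z).le_opNorm v
    have h8 : |φ z| ≤ |C| := by
      have := hC z hz.2
      rw [Real.norm_eq_abs] at this
      exact this.trans (le_abs_self _)
    have h9 : ‖fderiv ℝ φ z‖ ≤ |C'| := (hC' z hz.2).trans (le_abs_self _)
    have h10 : |A z| ≤ |M| := (hM z ⟨hz.1, hr hz.2⟩).trans (le_abs_self _)
    have h11 : ‖fderiv ℝ A z‖ ≤ 1 + ‖fderiv ℝ A z‖ ^ 2 := by
      nlinarith [sq_nonneg (‖fderiv ℝ A z‖ - 1)]
    have h12 : |φ z| * |fderiv ℝ A z v| ≤ |C| * ((1 + ‖fderiv ℝ A z‖ ^ 2) * ‖v‖) := by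
      refine mul_le_mul h8 (h6.trans ?_) (abs_nonneg _) (abs_nonneg _)
      exact mul_le_mul_of_nonneg_right h11 (norm_nonneg _)
    have h13 : |A z| * |fderiv ℝ φ z v| ≤ |M| * (|C'| * ‖v‖) := by
      refine mul_le_mul h10 (h7.trans ?_) (abs_nonneg _) (abs_nonneg _)
      exact mul_le_mul_of_nonneg_right h9 (norm_nonneg _)
    calc |φ z| * |fderiv ℝ A z v| + |A z| * |fderiv ℝ φ z v|
        ≤ |C| * ((1 + ‖fderiv ℝ A z‖ ^ 2) * ‖v‖) + |M| * (|C'| * ‖v‖) := add_le_add h12 h13
      _ = (|C| * (1 + ‖fderiv ℝ A z‖ ^ 2) + |M| * |C'|) * ‖v‖ := by ring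
  have h3 : IntegrableOn (fun z => fderiv ℝ (fun w => φ w * A w) z v) (D \ tsupport φ) := by
    have h4 : IntegrableOn (fun _ : ℂ => (0 : ℝ)) (D \ tsupport φ) := integrableOn_zero
    refine h4.congr_fun (fun z hz => ?_) (hD.measurableSet.diff hmsK)
    have h5 : (fun w => φ w * A w) =ᶠ[𝓝 z] fun _ => 0 := by
      filter_upwards [(isClosed_tsupport φ).isOpen_compl.mem_nhds hz.2] with w hw
      rw [image_eq_zero_of_notMem_tsupport hw, zero_mul]
    simp only
    rw [h5.fderiv_eq]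
    simp
  have h5 := h1.union h3
  rwa [inter_union_diff] at h5

theorem integrable_jump (h : SlitFam p τ ℓ ε R R')
    (hA : ∀ r, Nice (SF p τ ℓ)ᶜ (closedBall 0 r) A) (hφ : ContDiff ℝ 1 φ)
    (hc : HasCompactSupport φ) :
    IntegrableOn (fun z => dX (fun w => φ w * A w) z) (SF p τ ℓ)ᶜ ∧
      IntegrableOn (fun z => dY (fun w => φ w * A w) z) (SF p τ ℓ)ᶜ :=
  ⟨integrable_jump_aux h.isCompact.isClosed.isOpen_compl hA hφ hc 1,
    integrable_jump_aux h.isCompact.isClosed.isOpen_compl hA hφ hc I⟩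

theorem jump_add (h : SlitFam p τ ℓ ε R R')
    (hA : ∀ r, Nice (SF p τ ℓ)ᶜ (closedBall 0 r) A) (hφ : ContDiff ℝ 1 φ)
    (hc : HasCompactSupport φ) (hφ' : ContDiff ℝ 1 φ') (hc' : HasCompactSupport φ') :
    jump (SF p τ ℓ) A (fun z => φ z + φ' z) = jump (SF p τ ℓ) A φ + jump (SF p τ ℓ) A φ' := by
  have hD : IsOpen (SF p τ ℓ)ᶜ := h.isCompact.isClosed.isOpen_compl
  unfold jump
  rw [← neg_add, ← integral_add (integrable_jump h hA hφ hc).2 (integrable_jump h hA hφ' hc').2]
  congr 1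
  refine setIntegral_congr_fun hD.measurableSet fun z hz => ?_
  have hdA : DifferentiableAt ℝ A z :=
    ((hA 0).smooth.differentiableOn (by norm_num)).differentiableAt (hD.mem_nhds hz)
  have hdφ : DifferentiableAt ℝ φ z := (hφ.differentiable (by norm_num)) z
  have hdφ' : DifferentiableAt ℝ φ' z := (hφ'.differentiable (by norm_num)) z
  simp only
  rw [← dY_add (hdφ.fun_mul hdA) (hdφ'.fun_mul hdA)]
  congr 1
  ext w
  ring

theorem jump_smul (h : SlitFam p τ ℓ ε R R')
    (hA : ∀ r, Nice (SF p τ ℓ)ᶜ (closedBall 0 r) A) (hφ : ContDiff ℝ 1 φ)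
    (hc : HasCompactSupport φ) (k : ℝ) :
    jump (SF p τ ℓ) A (fun z => k * φ z) = k * jump (SF p τ ℓ) A φ := by
  have hD : IsOpen (SF p τ ℓ)ᶜ := h.isCompact.isClosed.isOpen_compl
  unfold jump
  rw [mul_neg, ← integral_const_mul]
  congr 1
  refine setIntegral_congr_fun hD.measurableSet fun z hz => ?_
  have hdA : DifferentiableAt ℝ A z :=
    ((hA 0).smooth.differentiableOn (by norm_num)).differentiableAt (hD.mem_nhds hz)
  have hdφ : DifferentiableAt ℝ φ z := (hφ.differentiable (by norm_num)) z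
  simp only
  rw [← dY_const_mul k (hdφ.fun_mul hdA)]
  congr 1
  ext w
  ring

theorem jump_eq_zero (h : SlitFam p τ ℓ ε R R')
    (hA : ∀ r, Nice (SF p τ ℓ)ᶜ (closedBall 0 r) A) (hφ : ContDiff ℝ (⊤ : ℕ∞) φ)
    (hc : HasCompactSupport φ) (h0 : ∀ᶠ z in 𝓝ˢ (SF p τ ℓ), φ z = 0) :
    jump (SF p τ ℓ) A φ = 0 ∧ ∫ z in (SF p τ ℓ)ᶜ, dX (fun w => φ w * A w) z = 0 := by
  have hD : IsOpen (SF p τ ℓ)ᶜ := h.isCompact.isClosed.isOpen_compl
  have hK : IsCompact (tsupport φ) := hc
  obtain ⟨U, hU, hSU, hU0⟩ := mem_nhdsSet_iff_exists.1 h0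
  have hφ2 : ContDiff ℝ 2 φ := contDiff_infty.1 hφ 2
  have hf : ContDiffOn ℝ 2 (fun w => φ w * A w) (SF p τ ℓ)ᶜ :=
    hφ2.contDiffOn.mul (hA 0).smooth
  have hKD : tsupport φ \ U ⊆ (SF p τ ℓ)ᶜ := fun z hz hzS => hz.2 (hSU hzS)
  have hzero : ∀ z ∈ (SF p τ ℓ)ᶜ \ (tsupport φ \ U), ∀ᶠ w in 𝓝 z, φ w * A w = 0 := by
    rintro z ⟨hz1, hz2⟩
    by_cases hzU : z ∈ U
    · filter_upwards [hU.mem_nhds hzU] with w hw
      have : φ w = 0 := hU0 hw
      rw [this, zero_mul]
    · have hzT : z ∉ tsupport φ := fun hh => hz2 ⟨hh, hzU⟩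
      filter_upwards [(isClosed_tsupport φ).isOpen_compl.mem_nhds hzT] with w hw
      rw [image_eq_zero_of_notMem_tsupport hw, zero_mul]
  have h1 := integral_J_eq_zero hD (hK.diff hU) hKD hf
    (Complex.reCLM.contDiff (n := 2)).contDiffOn (fun z hz => Or.inl (hzero z hz))
  have h2 := integral_J_eq_zero hD (hK.diff hU) hKD hf
    (Complex.imCLM.contDiff (n := 2)).contDiffOn (fun z hz => Or.inl (hzero z hz))
  constructor
  · unfold jump
    rw [← integral_neg, ← h1]
    refine setIntegral_congr_fun hD.measurableSet fun z _ => ?_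
    have e1 : dX (⇑reCLM) z = 1 := dX_re z
    have e2 : dY (⇑reCLM) z = 0 := dY_re z
    simp only [J]
    rw [e1, e2]
    ring
  · rw [← h2]
    refine setIntegral_congr_fun hD.measurableSet fun z _ => ?_
    have e1 : dX (⇑imCLM) z = 0 := dX_im z
    have e2 : dY (⇑imCLM) z = 1 := dY_im z
    simp only [J]
    rw [e1, e2]
    ring

end RSM2
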