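import Pool.Agent.RSM2.J7

/-!
# RSM2 module J8: the jump functional of a monotone function is positive

PROOFS.
`jump_nonneg`: let `A` be nondecreasing in `y` (`MonoY`) and `φ ≥ 0`.  For `h > 0`,
`∫ φ(z) (A(z + ih) - A(z)) dz ≥ 0` (the integrand is `≥ 0` outside of the null set
`SF ∪ (SF - ih)`; it is integrable: `A` is bounded on `closedBall 0 r \ SF`, measurable), i.e.
`∫ A(z) (φ(z - ih) - φ(z)) / h dz ≥ 0`; let `h → 0+`: `-∫ A φ_y ≥ 0` (dominated convergence: `A` is
bounded on bounded sets, `φ` is Lipschitz with compact support).  Apply this to `φ ψ_δ` where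
`0 ≤ ψ_δ ≤ 1` is a `C^∞` function with compact support, `ψ_δ = 1` near the slits and `ψ_δ = 0` at
distance `≥ δ` from the slits (`exists_cut`): by `jump_eq_zero` (for `φ (1 - ψ_δ)`, and `jump_add`)
`μ(φ) = μ(φ ψ_δ) = -∫_D (φ ψ_δ)_y A - ∫_D φ ψ_δ A_y ≥ -∫_D φ ψ_δ A_y`, and this tends to `0` as
`δ → 0` since `A_y` is integrable on bounded parts of `D` and the points of `D` are at positive
distance from the slits (dominated convergence).
`jump_le`: `μ(φ') - μ(φ) = μ(φ' - φ) ≥ 0` (`jump_add`, `jump_smul`).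
-/

open Complex Set Metric Filter Topology MeasureTheory

namespace RSM2

variable {ι : Type} {p : ι → ℂ} {τ ℓ : ι → ℝ} {ε R R' : ℝ} {A φ φ' : ℂ → ℝ}

/-- products of a compactly supported continuous function and of a locally bounded one -/
theorem j8_integrable {u B : ℂ → ℝ} (hu : Continuous u) (hc : HasCompactSupport u)
    (hB : Measurable B) (hb : ∀ r, ∃ M, ∀ z ∈ closedBall (0 : ℂ) r, |B z| ≤ M) :
    Integrable (fun z => u z * B z) := by
  obtain ⟨r, hr⟩ := hc.isCompact.isBounded.subset_closedBall (0 : ℂ)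
  obtain ⟨M, hM⟩ := hb r
  have h1 : Integrable (fun z => |u z| * M) :=
    ((hu.integrable_of_hasCompactSupport hc).abs).mul_const M
  refine h1.mono' ((hu.measurable.mul hB).aestronglyMeasurable) (Eventually.of_forall fun z => ?_)
  rw [Real.norm_eq_abs, abs_mul]
  by_cases hz : z ∈ closedBall (0 : ℂ) r
  · exact mul_le_mul_of_nonneg_left (hM z hz) (abs_nonneg _)
  · have : u z = 0 := by
      by_contra h
      exact hz (hr (subset_tsupport u h))
    simp [this]

theorem j8_dY_cont (hφ : ContDiff ℝ 1 φ) : Continuous (dY φ) :=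
  (hφ.continuous_fderiv one_ne_zero).clm_apply continuous_const

theorem j8_dY_supp (hc : HasCompactSupport φ) : HasCompactSupport (dY φ) := by
  refine (hc.fderiv ℝ).mono' ?_
  intro z hz
  have : fderiv ℝ φ z ≠ 0 := by
    intro h
    apply hz
    show fderiv ℝ φ z I = 0
    rw [h]; rfl
  exact subset_tsupport _ this

/-- difference quotients -/
theorem j8_quot (hφ : ContDiff ℝ 1 φ) (z : ℂ) :
    Tendsto (fun n : ℕ => (φ (z - ((n : ℝ) + 1)⁻¹ * I) - φ z) / ((n : ℝ) + 1)⁻¹) atTop
      (𝓝 (-dY φ z)) := by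
  have h1 : HasDerivAt (fun t : ℝ => φ (z - t * I)) (-dY φ z) 0 := by
    have h2 : HasFDerivAt φ (fderiv ℝ φ z) (z - ((0 : ℝ) : ℂ) * I) := by
      have := (hφ.differentiable one_ne_zero z).hasFDerivAt
      rwa [ofReal_zero, zero_mul, sub_zero]
    have h3 : HasDerivAt (fun t : ℝ => z - t * I) (-I) 0 := by
      have h4 : HasDerivAt (fun t : ℝ => (t : ℂ)) 1 0 := ofRealCLM.hasDerivAt
      have := (h4.mul_const I).const_sub z
      rwa [one_mul] at this
    have h5 := h2.comp_hasDerivAt 0 h3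
    have h6 : fderiv ℝ φ z (-I) = -dY φ z := by
      rw [map_neg]; rfl
    rw [h6] at h5
    exact h5
  have h2 := h1.tendsto_slope_zero_right
  have h3 : Tendsto (fun n : ℕ => ((n : ℝ) + 1)⁻¹) atTop (𝓝[>] 0) := by
    refine tendsto_nhdsWithin_iff.2 ⟨?_, Eventually.of_forall fun n => ?_⟩
    · have := tendsto_one_div_add_atTop_nhds_zero_nat (𝕜 := ℝ)
      simpa [one_div] using this
    · show (0 : ℝ) < _
      positivity
  refine (h2.comp h3).congr fun n => ?_
  simp only [Function.comp_apply, zero_add, smul_eq_mul, ofReal_zero, zero_mul, sub_zero]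
  rw [div_eq_inv_mul]

theorem j8_mono {S : Set ℂ} (hS : IsCompact S) (hv : volume S = 0)
    (hAc : ContinuousOn A Sᶜ) (hAb : ∀ r, ∃ M, ∀ z ∈ Sᶜ ∩ closedBall 0 r, |A z| ≤ M)
    (hmono : MonoY S A) (hφ : ContDiff ℝ 1 φ) (hc : HasCompactSupport φ) (h0 : ∀ z, 0 ≤ φ z) :
    IntegrableOn (fun z => A z * dY φ z) Sᶜ ∧ ∫ z in Sᶜ, A z * dY φ z ≤ 0 := by
  classical
  set B : ℂ → ℝ := Sᶜ.indicator A with hBdef
  have hBA : ∀ z, z ∉ S → B z = A z := fun z hz => indicator_of_mem (by exact hz) A
  have hB0 : ∀ z, z ∈ S → B z = 0 := fun z hz => indicator_of_notMem (by simpa using hz) A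
  have hm : MeasurableSet Sᶜ := hS.isClosed.isOpen_compl.measurableSet
  have hBm : Measurable B := by
    rw [hBdef, ← piecewise_eq_indicator]
    exact hAc.measurable_piecewise continuousOn_const hm
  have hBb : ∀ r, ∃ M, ∀ z ∈ closedBall (0 : ℂ) r, |B z| ≤ M := by
    intro r
    obtain ⟨M, hM⟩ := hAb r
    refine ⟨max M 0, fun z hz => ?_⟩
    by_cases hzS : z ∈ S
    · rw [hB0 z hzS]; simp
    · rw [hBA z hzS]
      exact (hM z ⟨hzS, hz⟩).trans (le_max_left _ _)
  have key1 : ∀ z, Sᶜ.indicator (fun z => A z * dY φ z) z = dY φ z * B z := by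
    intro z
    by_cases hzS : z ∈ S
    · rw [indicator_of_notMem (by simpa using hzS), hB0 z hzS, mul_zero]
    · rw [indicator_of_mem (by exact hzS), hBA z hzS, mul_comm]
  have hint : Integrable (fun z => dY φ z * B z) :=
    j8_integrable (j8_dY_cont hφ) (j8_dY_supp hc) hBm hBb
  refine ⟨?_, ?_⟩
  · rw [← integrable_indicator_iff hm]
    exact hint.congr (Eventually.of_forall fun z => (key1 z).symm)
  rw [← integral_indicator hm]
  simp only [key1]
  -- difference quotients
  have hq : ∀ h : ℝ, 0 < h → 0 ≤ ∫ z, (φ (z - h * I) - φ z) / h * B z := by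
    intro h hh
    have hi1 : Integrable (fun z => φ z * B z) := j8_integrable hφ.continuous hc hBm hBb
    have hcs : HasCompactSupport (fun z => φ (z - h * I)) :=
      hc.comp_homeomorph (Homeomorph.subRight ((h : ℂ) * I))
    have hi2 : Integrable (fun z => φ (z - h * I) * B z) :=
      j8_integrable (by fun_prop) hcs hBm hBb
    have hi3 : Integrable (fun z => φ z * B (z + h * I)) := by
      have := hi2.comp_add_right ((h : ℂ) * I)
      refine this.congr (Eventually.of_forall fun z => ?_)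
      show φ (z + h * I - h * I) * B (z + h * I) = φ z * B (z + h * I)
      rw [add_sub_cancel_right]
    have e1 : ∫ z, φ (z - h * I) * B z = ∫ z, φ z * B (z + h * I) := by
      rw [← integral_add_right_eq_self (fun z => φ (z - h * I) * B z) ((h : ℂ) * I)]
      refine integral_congr_ae (Eventually.of_forall fun z => ?_)
      show φ (z + h * I - h * I) * B (z + h * I) = φ z * B (z + h * I)
      rw [add_sub_cancel_right]
    have e2 : ∫ z, (φ (z - h * I) - φ z) / h * B z =
        h⁻¹ * ∫ z, φ z * (B (z + h * I) - B z) := by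
      have h1 : ∀ z, (φ (z - h * I) - φ z) / h * B z = h⁻¹ * (φ (z - h * I) * B z - φ z * B z) := by
        intro z
        rw [div_eq_inv_mul]; ring
      have h2 : ∀ z, φ z * (B (z + h * I) - B z) = φ z * B (z + h * I) - φ z * B z := by
        intro z; ring
      simp only [h1, h2]
      rw [integral_const_mul, integral_sub hi2 hi1, integral_sub hi3 hi1, e1]
    rw [e2]
    refine mul_nonneg (by positivity) (integral_nonneg_of_ae ?_)
    have n1 : ∀ᵐ z : ℂ, z ∉ S := by
      rw [ae_iff]; simpa using hv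
    have n2 : ∀ᵐ z : ℂ, z + h * I ∉ S := by
      have : volume ((fun z : ℂ => z + h * I) ⁻¹' S) = 0 := by
        rw [measure_preimage_add_right]; exact hv
      rw [ae_iff]
      simp only [not_not]
      exact this
    filter_upwards [n1, n2] with z hz1 hz2
    show 0 ≤ φ z * (B (z + h * I) - B z)
    refine mul_nonneg (h0 z) ?_
    rw [hBA z hz1, hBA _ hz2, sub_nonneg]
    refine hmono z _ hz1 hz2 ?_ ?_
    · simp
    · simp [hh.le]
  obtain ⟨L, hL⟩ := hφ.lipschitzWith_of_hasCompactSupport hc one_ne_zero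
  obtain ⟨r, hr⟩ := hc.isCompact.isBounded.subset_closedBall (0 : ℂ)
  obtain ⟨M, hM⟩ := hBb (r + 1)
  have hφ0 : ∀ z : ℂ, r < ‖z‖ → φ z = 0 := by
    intro z hz
    by_contra h
    have := hr (subset_tsupport φ h)
    rw [mem_closedBall_zero_iff] at this
    linarith
  have hlim : Tendsto (fun n : ℕ => ∫ z, (φ (z - ((n : ℝ) + 1)⁻¹ * I) - φ z) /
      ((n : ℝ) + 1)⁻¹ * B z) atTop (𝓝 (∫ z, -dY φ z * B z)) := by
    refine tendsto_integral_of_dominated_convergence
      ((closedBall (0 : ℂ) (r + 1)).indicator fun _ => (L : ℝ) * M) ?_ ?_ ?_ ?_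
    · intro n
      refine Measurable.aestronglyMeasurable ?_
      refine Measurable.mul ?_ hBm
      have : Continuous fun z => (φ (z - ((n : ℝ) + 1)⁻¹ * I) - φ z) / ((n : ℝ) + 1)⁻¹ := by
        have := hφ.continuous
        fun_prop
      exact this.measurable
    · rw [integrable_indicator_iff measurableSet_closedBall]
      exact integrableOn_const (measure_closedBall_lt_top.ne)
    · intro n
      refine Eventually.of_forall fun z => ?_
      have hn0 : (0 : ℝ) < ((n : ℝ) + 1)⁻¹ := by positivity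
      have hn1 : ((n : ℝ) + 1)⁻¹ ≤ 1 := by
        apply inv_le_one_of_one_le₀
        have : (0 : ℝ) ≤ n := Nat.cast_nonneg n
        linarith
      have hnI : ‖((((n : ℝ) + 1)⁻¹ : ℝ) : ℂ) * I‖ = ((n : ℝ) + 1)⁻¹ := by
        rw [norm_mul, norm_I, mul_one, norm_real, Real.norm_eq_abs, abs_of_pos hn0]
      by_cases hz : z ∈ closedBall (0 : ℂ) (r + 1)
      · rw [indicator_of_mem hz, norm_mul, Real.norm_eq_abs, Real.norm_eq_abs]
        refine mul_le_mul ?_ (hM z hz) (abs_nonneg _) L.2
        rw [abs_div, abs_of_pos hn0, div_le_iff₀ hn0]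
        have := hL.dist_le_mul (z - ((((n : ℝ) + 1)⁻¹ : ℝ) : ℂ) * I) z
        rw [Real.dist_eq, dist_eq_norm, sub_sub_cancel_left, norm_neg, hnI] at this
        exact this
      · rw [indicator_of_notMem hz]
        rw [mem_closedBall_zero_iff, not_le] at hz
        have hz1 : φ z = 0 := hφ0 z (by linarith)
        have hz2 : φ (z - ((((n : ℝ) + 1)⁻¹ : ℝ) : ℂ) * I) = 0 := by
          apply hφ0
          have := norm_sub_norm_le z (((((n : ℝ) + 1)⁻¹ : ℝ) : ℂ) * I)
          rw [hnI] at this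
          linarith
        rw [hz1, hz2]
        simp
    · refine Eventually.of_forall fun z => ?_
      exact (j8_quot hφ z).mul_const _
  have hge : 0 ≤ ∫ z, -dY φ z * B z := by
    refine ge_of_tendsto' hlim fun n => ?_
    have := hq (((n : ℝ) + 1)⁻¹) (by positivity)
    push_cast at this ⊢
    exact this
  have : ∫ z, -dY φ z * B z = -∫ z, dY φ z * B z := by
    rw [← integral_neg]
    simp only [neg_mul]
  linarith

theorem jump_nonneg (h : SlitFam p τ ℓ ε R R')
    (hA : ∀ r, Nice (SF p τ ℓ)ᶜ (closedBall 0 r) A) (hmono : MonoY (SF p τ ℓ) A)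
    (hφ : ContDiff ℝ (⊤ : ℕ∞) φ) (hc : HasCompactSupport φ) (h0 : ∀ z, 0 ≤ φ z) :
    0 ≤ jump (SF p τ ℓ) A φ := by
  set S := SF p τ ℓ with hSdef
  have hS : IsCompact S := h.isCompact
  have hv : volume S = 0 := h.volume
  have hopen : IsOpen Sᶜ := hS.isClosed.isOpen_compl
  have hm : MeasurableSet Sᶜ := hopen.measurableSet
  have hAs : ContDiffOn ℝ 2 A Sᶜ := (hA 0).smooth
  have hAc : ContinuousOn A Sᶜ := hAs.continuousOn
  have hAb : ∀ r, ∃ M, ∀ z ∈ Sᶜ ∩ closedBall 0 r, |A z| ≤ M := fun r => (hA r).bdd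
  have hAd : ∀ z ∈ Sᶜ, DifferentiableAt ℝ A z := fun z hz =>
    (hAs.contDiffAt (hopen.mem_nhds hz)).differentiableAt (by norm_num)
  -- test functions
  have hone : ∀ u : ℂ → ℝ, ContDiff ℝ (⊤ : ℕ∞) u → ContDiff ℝ 1 u := fun u hu =>
    hu.of_le (by exact_mod_cast le_top)
  have hdecomp : ∀ u : ℂ → ℝ, ContDiff ℝ (⊤ : ℕ∞) u → HasCompactSupport u → (∀ z, 0 ≤ u z) →
      IntegrableOn (fun z => u z * dY A z) Sᶜ ∧ -∫ z in Sᶜ, u z * dY A z ≤ jump S A u := by
    intro u hu huc hu0
    obtain ⟨i1, i2⟩ := j8_mono hS hv hAc hAb hmono (hone u hu) huc hu0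
    have i3 := (integrable_jump h hA (hone u hu) huc).2
    have hEq : EqOn (fun z => dY (fun w => u w * A w) z - A z * dY u z)
        (fun z => u z * dY A z) Sᶜ := by
      intro z hz
      show dY (fun w => u w * A w) z - A z * dY u z = u z * dY A z
      rw [dY_mul ((hone u hu).differentiable one_ne_zero z) (hAd z hz)]
      ring
    have i4 : IntegrableOn (fun z => u z * dY A z) Sᶜ := (i3.sub i1).congr_fun hEq hm
    refine ⟨i4, ?_⟩
    have e : ∫ z in Sᶜ, u z * dY A z =
        (∫ z in Sᶜ, dY (fun w => u w * A w) z) - ∫ z in Sᶜ, A z * dY u z := by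
      rw [← setIntegral_congr_fun hm hEq, integral_sub i3 i1]
    unfold jump
    rw [e]
    linarith
  have hex : ∀ n : ℕ, ∃ X : ℂ → ℝ, ContDiff ℝ (⊤ : ℕ∞) X ∧ HasCompactSupport X ∧
      tsupport X ⊆ thickening (((n : ℝ) + 1)⁻¹) S ∧ (∀ z, 0 ≤ X z ∧ X z ≤ 1) ∧
      ∀ᶠ z in 𝓝ˢ S, X z = 1 := fun n =>
    exists_cut hS isOpen_thickening (self_subset_thickening (by positivity) S)
  choose X hX1 hX2 hX3 hX4 hX5 using hex
  have hge : ∀ n, -∫ z in Sᶜ, (φ z * X n z) * dY A z ≤ jump S A φ := by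
    intro n
    have s1 : ContDiff ℝ (⊤ : ℕ∞) (fun z => φ z * X n z) := hφ.mul (hX1 n)
    have c1 : HasCompactSupport (fun z => φ z * X n z) := hc.mul_right
    have s2 : ContDiff ℝ (⊤ : ℕ∞) (fun z => φ z * (1 - X n z)) :=
      hφ.mul (contDiff_const.sub (hX1 n))
    have c2 : HasCompactSupport (fun z => φ z * (1 - X n z)) := hc.mul_right
    have j1 := jump_add h hA (hone _ s1) c1 (hone _ s2) c2
    have j2 : jump (SF p τ ℓ) A (fun z => φ z * (1 - X n z)) = 0 := by
      refine (jump_eq_zero h hA s2 c2 ?_).1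
      filter_upwards [hX5 n] with z hz
      rw [hz]; ring
    have j3 : (fun z => φ z * X n z + φ z * (1 - X n z)) = φ := by
      funext z; ring
    rw [j2, j3, add_zero] at j1
    rw [hSdef, j1]
    exact (hdecomp _ s1 c1 (fun z => mul_nonneg (h0 z) (hX4 n z).1)).2
  have hlim : Tendsto (fun n => -∫ z in Sᶜ, (φ z * X n z) * dY A z) atTop (𝓝 0) := by
    have h1 : Tendsto (fun n => ∫ z in Sᶜ, (φ z * X n z) * dY A z) atTop
        (𝓝 (∫ _ in Sᶜ, (0 : ℝ))) := by
      refine tendsto_integral_of_dominated_convergence (fun z => |φ z * dY A z|) ?_ ?_ ?_ ?_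
      · intro n
        exact (hdecomp _ (hφ.mul (hX1 n)) (hc.mul_right)
          (fun z => mul_nonneg (h0 z) (hX4 n z).1)).1.aestronglyMeasurable
      · exact (hdecomp φ hφ hc h0).1.abs
      · intro n
        refine Eventually.of_forall fun z => ?_
        rw [Real.norm_eq_abs, show φ z * X n z * dY A z = X n z * (φ z * dY A z) by ring, abs_mul,
          abs_of_nonneg (hX4 n z).1]
        exact mul_le_of_le_one_left (abs_nonneg _) (hX4 n z).2
      · rw [ae_restrict_iff' hm]
        refine Eventually.of_forall fun z hz => ?_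
        have hz' : z ∉ closure S := by rwa [hS.isClosed.closure_eq]
        obtain ⟨ε', hε', hball⟩ := Metric.isOpen_iff.1 hopen z hz
        have hN : ∀ᶠ n : ℕ in atTop, ((n : ℝ) + 1)⁻¹ < ε' := by
          have := tendsto_one_div_add_atTop_nhds_zero_nat (𝕜 := ℝ)
          have := this.eventually (gt_mem_nhds hε')
          simpa [one_div] using this
        refine tendsto_const_nhds.congr' ?_
        filter_upwards [hN] with n hn
        have : X n z = 0 := by
          by_contra hne
          have hz1 := hX3 n (subset_tsupport _ hne)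
          rw [mem_thickening_iff] at hz1
          obtain ⟨w, hw, hd⟩ := hz1
          exact hball (by rw [mem_ball, dist_comm]; exact hd.trans hn) hw
        rw [this]; ring
    rw [integral_zero] at h1
    simpa using h1.neg
  exact le_of_tendsto' hlim hge

theorem jump_le (h : SlitFam p τ ℓ ε R R')
    (hA : ∀ r, Nice (SF p τ ℓ)ᶜ (closedBall 0 r) A) (hmono : MonoY (SF p τ ℓ) A)
    (hφ : ContDiff ℝ (⊤ : ℕ∞) φ) (hc : HasCompactSupport φ) (hφ' : ContDiff ℝ (⊤ : ℕ∞) φ')
    (hc' : HasCompactSupport φ') (hle : ∀ z, φ z ≤ φ' z) :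
    jump (SF p τ ℓ) A φ ≤ jump (SF p τ ℓ) A φ' := by
  have hone : ∀ u : ℂ → ℝ, ContDiff ℝ (⊤ : ℕ∞) u → ContDiff ℝ 1 u := fun u hu =>
    hu.of_le (by exact_mod_cast le_top)
  have s : ContDiff ℝ (⊤ : ℕ∞) (fun z => φ' z - φ z) := hφ'.sub hφ
  have c : HasCompactSupport (fun z => φ' z - φ z) := hc'.sub hc
  have j1 := jump_add h hA (hone _ hφ) hc (hone _ s) c
  have j2 := jump_nonneg h hA hmono s c (fun z => sub_nonneg.2 (hle z))
  have j3 : (fun z => φ z + (φ' z - φ z)) = φ' := by
    funext z; ring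
  rw [j3] at j1
  linarith

end RSM2
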