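import Pool.Agent.RSM2.Basic

/-!
# RSM2 module K1: the variation of a slit map along a circle

`γ t = circleMap ζ ρ t`.  Holes of `c` may cross the circle.

PROOF.  Write `z = γ s`, `w = γ t` with `0 ≤ s ≤ t ≤ 2π` (exchange `z` and `w` if necessary).
CLAIM (for all `s ≤ t` in `[0, 2π]` with `γ s, γ t ∉ un c` and all reals `β`), by induction on the number
`N` of the holes of `c` which meet `γ '' [s, t]`:
`|nrm β (G (γ t)) - nrm β (G (γ s))| ≤ L(s,t) + 2 M W(β; s, t)`, where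
`L(s,t) = ∫ ‖G'(γ)‖ ρ` over `{u ∈ [s,t] | γ u ∉ un c}`, and `W(β; s, t) = 0` if `N = 0`,
`W(β; s, t) = |β - Θ (γ a)| + Var(Θ ∘ γ; {u ∈ [s,t] | γ u ∈ un c})`, `a` the first parameter in `[s, t]`
with `γ a ∈ un c` (`un c` is closed), if `N ≥ 1`.
`N = 0`: `G ∘ γ` is differentiable on `[s, t]` with derivative of norm `‖G'(γ)‖ ρ`.
`N ≥ 1`: let `γ a ∈ h.1`, `h ∈ c`, and let `b` be the last parameter in `[s, t]` with `γ b ∈ h.1`;
`s < a ≤ b < t`.  `θ₁ = h.2 = Θ (γ a)`.  On `[s, a)` there are no holes, and for small `κ > 0` none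
on `(b, b + κ)` (the other holes have positive distance from `γ b`).  For `a' ∈ (a - κ, a)`,
`b' ∈ (b, b + κ)`: replacing `β` by `θ₁` costs `|nrm β v - nrm θ₁ v| ≤ |β - θ₁| ‖v‖ ≤ 2 M |β - θ₁|`
for `v = G (γ t) - G (γ s)`.  Then
`nrm θ₁ v = nrm θ₁ (G γ t - G γ b') + nrm θ₁ (G γ b' - G γ a') + nrm θ₁ (G γ a' - G γ s)`; the last term
is at most `L(s, a')`; the middle term tends to `0` as `a' → a`, `b' → b` by `hG.line`
(both points tend to the hole `h.1` in the complement of `un c`); the first term is at most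
`L(b', t) + 2 M W(θ₁; b', t)` by the induction hypothesis (on `[b', t]` the hole `h` is not met), and
`|θ₁ - Θ (γ a₂)| + Var(on [b', t]) ≤ Var(on [s, t])` where `a₂` is the first parameter of
`[b', t]` in a hole (`a` is a parameter of the set, smaller than all the parameters of
`[b', t]`: `eVariationOn.add_le_union`, `eVariationOn.edist_le`).
Finally `W(α; s, t) ≤ ω + V`.
-/

open Complex Set Metric Filter Topology MeasureTheory

namespace RSM2

private theorem nrm_diff (β θ : ℝ) (w : ℂ) : |nrm β w - nrm θ w| ≤ |β - θ| * ‖w‖ := by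
  have h1 : nrm β w - nrm θ w = ((exp (-(β : ℂ) * I) - exp (-(θ : ℂ) * I)) * w).im := by
    unfold nrm
    rw [sub_mul, Complex.sub_im]
  have h2 : ‖exp (-(β : ℂ) * I) - exp (-(θ : ℂ) * I)‖ ≤ |β - θ| := by
    have h3 : exp (-(β : ℂ) * I) - exp (-(θ : ℂ) * I) =
        exp (((-θ : ℝ) : ℂ) * I) * (exp (I * ((θ - β : ℝ) : ℂ)) - 1) := by
      rw [mul_sub, mul_one, ← Complex.exp_add]
      congr 2 <;> push_cast <;> ring
    rw [h3, norm_mul, Complex.norm_exp_ofReal_mul_I, one_mul]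
    refine (Real.norm_exp_I_mul_ofReal_sub_one_le).trans ?_
    rw [Real.norm_eq_abs, abs_sub_comm]
  rw [h1]
  refine (Complex.abs_im_le_norm _).trans ?_
  rw [norm_mul]
  exact mul_le_mul_of_nonneg_right h2 (norm_nonneg _)

/-- the integrand -/
private noncomputable def fI (G : ℂ → ℂ) (ζ : ℂ) (ρ : ℝ) (t : ℝ) : ENNReal :=
  ENNReal.ofReal (‖deriv G (circleMap ζ ρ t)‖ * ρ)

private theorem free_bound {c : Cfg} (hc : Valid c) {G : ℂ → ℂ} (hG : Sol c G) {ζ : ℂ} {ρ : ℝ}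
    (hρ : 0 < ρ) {s t : ℝ} (hst : s ≤ t) (hf : ∀ u ∈ Icc s t, circleMap ζ ρ u ∉ un c) :
    ENNReal.ofReal ‖G (circleMap ζ ρ t) - G (circleMap ζ ρ s)‖ ≤ ∫⁻ u in Icc s t, fI G ζ ρ u := by
  have hd : ∀ u ∈ Icc s t, HasDerivAt (fun v : ℝ => G (circleMap ζ ρ v))
      (deriv G (circleMap ζ ρ u) * (circleMap 0 ρ u * I)) u := by
    intro u hu
    have h1 : HasDerivAt G (deriv G (circleMap ζ ρ u)) (circleMap ζ ρ u) :=
      (hG.diff.differentiableAt (hc.isOpen.mem_nhds (hf u hu))).hasDerivAt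
    exact h1.comp u (hasDerivAt_circleMap ζ ρ u)
  have hcont : ContinuousOn (fun u : ℝ => deriv G (circleMap ζ ρ u) * (circleMap 0 ρ u * I))
      (Icc s t) := by
    have h1 : ContinuousOn (deriv G) (un c)ᶜ := (hG.diff.deriv hc.isOpen).continuousOn
    refine ContinuousOn.mul (h1.comp (continuous_circleMap ζ ρ).continuousOn hf) ?_
    exact ((continuous_circleMap 0 ρ).mul continuous_const).continuousOn
  have hint : IntervalIntegrable (fun u : ℝ => deriv G (circleMap ζ ρ u) * (circleMap 0 ρ u * I))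
      volume s t := ContinuousOn.intervalIntegrable (by rwa [uIcc_of_le hst])
  have hft := intervalIntegral.integral_eq_sub_of_hasDerivAt
    (f := fun v : ℝ => G (circleMap ζ ρ v)) (a := s) (b := t)
    (by rw [uIcc_of_le hst]; exact hd) hint
  rw [ofReal_norm, ← hft, intervalIntegral.integral_of_le hst]
  refine (enorm_integral_le_lintegral_enorm _).trans ?_
  refine (lintegral_mono_set Ioc_subset_Icc_self).trans ?_
  refine lintegral_mono fun u => ?_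
  unfold fI
  rw [← ofReal_norm]
  apply ENNReal.ofReal_le_ofReal
  rw [norm_mul, norm_mul, Complex.norm_I, mul_one, norm_circleMap_zero, abs_of_pos hρ]

private theorem free_nrm {c : Cfg} (hc : Valid c) {G : ℂ → ℂ} (hG : Sol c G) {ζ : ℂ} {ρ : ℝ}
    (hρ : 0 < ρ) {s t : ℝ} (hst : s ≤ t) (hf : ∀ u ∈ Icc s t, circleMap ζ ρ u ∉ un c) (β : ℝ) :
    ENNReal.ofReal |nrm β (G (circleMap ζ ρ t)) - nrm β (G (circleMap ζ ρ s))| ≤
      ∫⁻ u in {u ∈ Icc s t | circleMap ζ ρ u ∉ un c}, fI G ζ ρ u := by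
  have h1 : {u ∈ Icc s t | circleMap ζ ρ u ∉ un c} = Icc s t := by
    ext u
    simp only [Set.mem_ofPred_eq]
    exact ⟨fun h => h.1, fun h => ⟨h, hf u h⟩⟩
  rw [h1]
  refine le_trans ?_ (free_bound hc hG hρ hst hf)
  apply ENNReal.ofReal_le_ofReal
  rw [← nrm_sub]
  exact abs_nrm_le _ _

private theorem exists_least {c : Cfg} (hc : Valid c) {ζ : ℂ} {ρ : ℝ} {s t : ℝ}
    (hne : ¬ ∀ u ∈ Icc s t, circleMap ζ ρ u ∉ un c) :
    ∃ a ∈ Icc s t, circleMap ζ ρ a ∈ un c ∧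
      ∀ u ∈ Icc s t, circleMap ζ ρ u ∈ un c → a ≤ u := by
  push Not at hne
  obtain ⟨u, hu, hu'⟩ := hne
  have hcomp : IsCompact (Icc s t ∩ circleMap ζ ρ ⁻¹' un c) :=
    isCompact_Icc.inter_right (hc.isCompact.isClosed.preimage (continuous_circleMap ζ ρ))
  obtain ⟨a, ha, hmin⟩ := hcomp.exists_isLeast ⟨u, hu, hu'⟩
  exact ⟨a, ha.1, ha.2, fun v hv hv' => hmin ⟨hv, hv'⟩⟩

private theorem exists_last {c : Cfg} (hc : Valid c) {ζ : ℂ} {ρ : ℝ} {s t a : ℝ}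
    {h : Set ℂ × ℝ} (hh : h ∈ c) (ha : a ∈ Icc s t) (hah : circleMap ζ ρ a ∈ h.1) :
    ∃ b ∈ Icc s t, circleMap ζ ρ b ∈ h.1 ∧
      ∀ u ∈ Icc s t, circleMap ζ ρ u ∈ h.1 → u ≤ b := by
  have hcomp : IsCompact (Icc s t ∩ circleMap ζ ρ ⁻¹' h.1) :=
    isCompact_Icc.inter_right ((hc.compact h hh).isClosed.preimage (continuous_circleMap ζ ρ))
  obtain ⟨b, hb, hmax⟩ := hcomp.exists_isGreatest ⟨a, ha, hah⟩
  exact ⟨b, hb.1, hb.2, fun v hv hv' => hmax ⟨hv, hv'⟩⟩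

private theorem norm_gamma {ζ : ℂ} {ρ : ℝ} (hρ : 0 < ρ) (u : ℝ) :
    ‖circleMap ζ ρ u - ζ‖ = ρ := by
  rw [circleMap_sub_center, norm_circleMap_zero, abs_of_pos hρ]

private theorem main_claim {c : Cfg} (hc : Valid c) {G : ℂ → ℂ} (hG : Sol c G) {ζ : ℂ} {ρ : ℝ}
    (hρ : 0 < ρ) {M : ℝ} (hM : ∀ z ∉ un c, ‖z - ζ‖ = ρ → ‖G z‖ ≤ M) {Θ : ℂ → ℝ}
    (hΘ : ∀ h ∈ c, ∀ z ∈ h.1, ‖z - ζ‖ = ρ → h.2 = Θ z) :
    ∀ (N : ℕ) (s t : ℝ), circleMap ζ ρ s ∉ un c → circleMap ζ ρ t ∉ un c →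
      (∃ d : Cfg, d ⊆ c ∧ d.card ≤ N ∧ ∀ h ∈ c, (∃ u ∈ Icc s t, circleMap ζ ρ u ∈ h.1) → h ∈ d) →
      ∀ β a : ℝ, a ∈ Icc s t → circleMap ζ ρ a ∈ un c →
        (∀ u ∈ Icc s t, circleMap ζ ρ u ∈ un c → a ≤ u) →
        ENNReal.ofReal |nrm β (G (circleMap ζ ρ t)) - nrm β (G (circleMap ζ ρ s))| ≤
          (∫⁻ u in {u ∈ Icc s t | circleMap ζ ρ u ∉ un c}, fI G ζ ρ u) +
            ENNReal.ofReal (2 * M) * (ENNReal.ofReal |β - Θ (circleMap ζ ρ a)| +
              eVariationOn (fun t => Θ (circleMap ζ ρ t))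
                {u ∈ Icc s t | circleMap ζ ρ u ∈ un c}) := by
  intro N
  induction N with
  | zero =>
    rintro s t - - ⟨d, hd, hcard, hdh⟩ β a ha hac -
    obtain ⟨h, hh, hah⟩ := mem_un.1 hac
    have h1 := hdh h hh ⟨a, ha, hah⟩
    have h2 : d = ∅ := Finset.card_eq_zero.1 (by omega)
    rw [h2] at h1
    exact absurd h1 (Finset.notMem_empty h)
  | succ N ih =>
    rintro s t hs ht ⟨d, hd, hcard, hdh⟩ β a ha hac hmin
    obtain ⟨h, hh, hah⟩ := mem_un.1 hac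
    have hθ : h.2 = Θ (circleMap ζ ρ a) := hΘ h hh _ hah (norm_gamma hρ a)
    obtain ⟨b, hb, hbh, hmax⟩ := exists_last (ζ := ζ) (ρ := ρ) hc hh ha hah
    have hab : a ≤ b := hmax a ha hah
    have hsa : s < a := by
      rcases ha.1.lt_or_eq with h1 | h1
      · exact h1
      · rw [h1] at hs
        exact absurd hac hs
    have hbt : b < t := by
      rcases hb.2.lt_or_eq with h1 | h1
      · exact h1
      · rw [← h1] at ht
        exact absurd (mem_un.2 ⟨h, hh, hbh⟩) ht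
    have hγ : Continuous (circleMap ζ ρ) := continuous_circleMap ζ ρ
    have hM0 : 0 ≤ M := (norm_nonneg _).trans (hM _ hs (norm_gamma hρ s))
    obtain ⟨q, hq⟩ := hG.line h hh
    -- the other holes
    classical
    have hc' : IsClosed (un (c.erase h)) := (hc.mono (Finset.erase_subset h c)).isCompact.isClosed
    have hbc' : circleMap ζ ρ b ∈ (un (c.erase h))ᶜ := by
      intro h1
      obtain ⟨k, hk, hbk⟩ := mem_un.1 h1
      have hk' := Finset.mem_erase.1 hk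
      exact (Set.disjoint_left.1 (hc.disj k hk'.2 h hh hk'.1)) hbk hbh
    refine ENNReal.le_of_forall_pos_le_add fun ε hε _ => ?_
    have hε' : (0 : ℝ) < ε := hε
    have hev : ∀ᶠ z in nearIn (un c)ᶜ h.1, dist (nrm h.2 (G z)) q < (ε : ℝ) / 2 :=
      hq (Metric.ball_mem_nhds q (half_pos hε'))
    obtain ⟨U, hU, hhU, hUε⟩ := eventually_nearIn.1 hev
    obtain ⟨a', ha'⟩ : ∃ a', a' ∈ Ioo s a ∧ circleMap ζ ρ a' ∈ U := by
      have h1 : ∀ᶠ x in 𝓝[<] a, circleMap ζ ρ x ∈ U :=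
        nhdsWithin_le_nhds (hγ.continuousAt.preimage_mem_nhds (hU.mem_nhds (hhU hah)))
      have h2 : ∀ᶠ x in 𝓝[<] a, x ∈ Ioo s a := Ioo_mem_nhdsLT hsa
      exact (h2.and h1).exists
    obtain ⟨b', hb'⟩ : ∃ b', b' ∈ Ioo b t ∧ circleMap ζ ρ b' ∈ U ∧
        circleMap ζ ρ b' ∉ un (c.erase h) := by
      have h1 : ∀ᶠ x in 𝓝[>] b, circleMap ζ ρ x ∈ U :=
        nhdsWithin_le_nhds (hγ.continuousAt.preimage_mem_nhds (hU.mem_nhds (hhU hbh)))
      have h3 : ∀ᶠ x in 𝓝[>] b, circleMap ζ ρ x ∈ (un (c.erase h))ᶜ :=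
        nhdsWithin_le_nhds (hγ.continuousAt.preimage_mem_nhds (hc'.isOpen_compl.mem_nhds hbc'))
      have h2 : ∀ᶠ x in 𝓝[>] b, x ∈ Ioo b t := Ioo_mem_nhdsGT hbt
      exact (h2.and (h1.and h3)).exists
    have ha'c : circleMap ζ ρ a' ∉ un c := by
      intro h1
      exact absurd (hmin a' ⟨ha'.1.1.le, ha'.1.2.le.trans ha.2⟩ h1) (not_le.2 ha'.1.2)
    have hsb' : s ≤ b' := (hsa.le.trans hab).trans hb'.1.1.le
    have hnoth : ∀ u ∈ Icc b' t, circleMap ζ ρ u ∉ h.1 := by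
      intro u hu h1
      exact absurd (hmax u ⟨hsb'.trans hu.1, hu.2⟩ h1) (not_le.2 (hb'.1.1.trans_le hu.1))
    have hb'c : circleMap ζ ρ b' ∉ un c := by
      intro h1
      obtain ⟨k, hk, hbk⟩ := mem_un.1 h1
      by_cases hkh : k = h
      · rw [hkh] at hbk
        exact hnoth b' ⟨le_rfl, hb'.1.2.le⟩ hbk
      · exact hb'.2.2 (mem_un.2 ⟨k, Finset.mem_erase.2 ⟨hkh, hk⟩, hbk⟩)
    -- the first term
    have hD1 : ENNReal.ofReal |nrm h.2 (G (circleMap ζ ρ a')) - nrm h.2 (G (circleMap ζ ρ s))| ≤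
        ∫⁻ u in {u ∈ Icc s a' | circleMap ζ ρ u ∉ un c}, fI G ζ ρ u := by
      refine free_nrm hc hG hρ ha'.1.1.le (fun u hu h1 => ?_) h.2
      exact absurd (hmin u ⟨hu.1, (hu.2.trans ha'.1.2.le).trans ha.2⟩ h1)
        (not_le.2 (hu.2.trans_lt ha'.1.2))
    -- the middle term
    have hD3 : |nrm h.2 (G (circleMap ζ ρ b')) - nrm h.2 (G (circleMap ζ ρ a'))| ≤ ε := by
      have h1 := hUε _ ⟨ha'.2, ha'c⟩
      have h2 := hUε _ ⟨hb'.2.1, hb'c⟩
      rw [Real.dist_eq, abs_lt] at h1 h2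
      rw [abs_le]
      constructor <;> linarith [h1.1, h1.2, h2.1, h2.2]
    -- the last term
    have hD2 : ENNReal.ofReal |nrm h.2 (G (circleMap ζ ρ t)) - nrm h.2 (G (circleMap ζ ρ b'))| ≤
        (∫⁻ u in {u ∈ Icc b' t | circleMap ζ ρ u ∉ un c}, fI G ζ ρ u) +
          ENNReal.ofReal (2 * M) * eVariationOn (fun t => Θ (circleMap ζ ρ t))
                {u ∈ Icc s t | circleMap ζ ρ u ∈ un c} := by
      by_cases hfree : ∀ u ∈ Icc b' t, circleMap ζ ρ u ∉ un c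
      · exact (free_nrm hc hG hρ hb'.1.2.le hfree h.2).trans le_self_add
      · obtain ⟨a₂, ha₂, ha₂c, hmin₂⟩ := exists_least hc hfree
        have h1 := ih b' t hb'c ht ⟨d.erase h, (Finset.erase_subset h d).trans hd, by
          rw [Finset.card_erase_of_mem (hdh h hh ⟨a, ha, hah⟩)]
          omega, by
          rintro k hk ⟨u, hu, huk⟩
          refine Finset.mem_erase.2 ⟨?_, hdh k hk ⟨u, ⟨hsb'.trans hu.1, hu.2⟩, huk⟩⟩
          rintro rfl
          exact hnoth u hu huk⟩ h.2 a₂ ha₂ ha₂c hmin₂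
        refine h1.trans (add_le_add le_rfl (mul_le_mul_right ?_ _))
        have haa₂ : a ≤ a₂ := (hab.trans hb'.1.1.le).trans ha₂.1
        have h2 : ENNReal.ofReal |h.2 - Θ (circleMap ζ ρ a₂)| ≤
            eVariationOn (fun t => Θ (circleMap ζ ρ t)) {a, a₂} := by
          have h3 := eVariationOn.edist_le (fun t => Θ (circleMap ζ ρ t)) (s := {a, a₂})
            (x := a) (y := a₂) (by simp) (by simp)
          refine le_trans (le_of_eq ?_) h3
          show _ = edist (Θ (circleMap ζ ρ a)) (Θ (circleMap ζ ρ a₂))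
          rw [edist_dist, Real.dist_eq, hθ]
        refine (add_le_add h2 le_rfl).trans ?_
        refine (eVariationOn.add_le_union (fun t => Θ (circleMap ζ ρ t)) (s := {a, a₂}) ?_).trans ?_
        · intro x hx y hy
          rcases hx with hx | hx
          · rw [hx]
            exact haa₂.trans (hmin₂ y hy.1 hy.2)
          · rw [mem_singleton_iff.1 hx]
            exact hmin₂ y hy.1 hy.2
        · apply eVariationOn.mono
          rintro x (hx | hx)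
          · rcases hx with hx | hx
            · rw [hx]
              exact ⟨ha, hac⟩
            · rw [mem_singleton_iff.1 hx]
              exact ⟨⟨hsb'.trans ha₂.1, ha₂.2⟩, ha₂c⟩
          · exact ⟨⟨hsb'.trans hx.1.1, hx.1.2⟩, hx.2⟩
    -- the integrals
    have hint : (∫⁻ u in {u ∈ Icc s a' | circleMap ζ ρ u ∉ un c}, fI G ζ ρ u) +
        (∫⁻ u in {u ∈ Icc b' t | circleMap ζ ρ u ∉ un c}, fI G ζ ρ u) ≤
        ∫⁻ u in {u ∈ Icc s t | circleMap ζ ρ u ∉ un c}, fI G ζ ρ u := by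
      have hmeas : MeasurableSet {u ∈ Icc b' t | circleMap ζ ρ u ∉ un c} :=
        measurableSet_Icc.inter (hc.isOpen.preimage hγ).measurableSet
      have ha'b' : a' < b' := (ha'.1.2.trans_le hab).trans hb'.1.1
      rw [← lintegral_union hmeas]
      · apply lintegral_mono_set
        rintro u (hu | hu)
        · exact ⟨⟨hu.1.1, hu.1.2.trans (ha'b'.le.trans hb'.1.2.le)⟩, hu.2⟩
        · exact ⟨⟨hsb'.trans hu.1.1, hu.1.2⟩, hu.2⟩
      · rw [Set.disjoint_left]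
        rintro u hu hu'
        exact absurd (hu'.1.1.trans hu.1.2) (not_le.2 ha'b')
    -- the sum
    have hv : ‖G (circleMap ζ ρ t) - G (circleMap ζ ρ s)‖ ≤ 2 * M := by
      refine (norm_sub_le _ _).trans ?_
      linarith [hM _ hs (norm_gamma hρ s), hM _ ht (norm_gamma hρ t)]
    have hreal : |nrm β (G (circleMap ζ ρ t)) - nrm β (G (circleMap ζ ρ s))| ≤
        2 * M * |β - Θ (circleMap ζ ρ a)| +
        (|nrm h.2 (G (circleMap ζ ρ t)) - nrm h.2 (G (circleMap ζ ρ b'))| + (ε +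
        |nrm h.2 (G (circleMap ζ ρ a')) - nrm h.2 (G (circleMap ζ ρ s))|)) := by
      have h1 := nrm_diff β h.2 (G (circleMap ζ ρ t) - G (circleMap ζ ρ s))
      have h2 : |β - h.2| * ‖G (circleMap ζ ρ t) - G (circleMap ζ ρ s)‖ ≤ 2 * M * |β - h.2| := by
        rw [mul_comm (2 * M)]
        exact mul_le_mul_of_nonneg_left hv (abs_nonneg _)
      rw [nrm_sub, nrm_sub] at h1
      rw [← hθ]
      have h3 := abs_le.1 (h1.trans h2)
      have h4 := abs_le.1 (le_refl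
        |nrm h.2 (G (circleMap ζ ρ t)) - nrm h.2 (G (circleMap ζ ρ b'))|)
      have h5 := abs_le.1 (le_refl
        |nrm h.2 (G (circleMap ζ ρ a')) - nrm h.2 (G (circleMap ζ ρ s))|)
      have h6 := abs_le.1 hD3
      rw [abs_le]
      constructor <;> linarith [h3.1, h3.2, h4.1, h4.2, h5.1, h5.2, h6.1, h6.2]
    have hfin : ENNReal.ofReal |nrm β (G (circleMap ζ ρ t)) - nrm β (G (circleMap ζ ρ s))| ≤
        ENNReal.ofReal (2 * M) * ENNReal.ofReal |β - Θ (circleMap ζ ρ a)| +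
        (ENNReal.ofReal |nrm h.2 (G (circleMap ζ ρ t)) - nrm h.2 (G (circleMap ζ ρ b'))| + (ε +
        ENNReal.ofReal |nrm h.2 (G (circleMap ζ ρ a')) - nrm h.2 (G (circleMap ζ ρ s))|)) := by
      refine (ENNReal.ofReal_le_ofReal hreal).trans ?_
      rw [ENNReal.ofReal_add (by positivity) (by positivity),
        ENNReal.ofReal_add (by positivity) (by positivity),
        ENNReal.ofReal_add (by positivity) (by positivity),
        ENNReal.ofReal_mul (by positivity), ENNReal.ofReal_coe_nnreal]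
    refine hfin.trans ?_
    refine (add_le_add le_rfl (add_le_add hD2 (add_le_add le_rfl hD1))).trans ?_
    calc ENNReal.ofReal (2 * M) * ENNReal.ofReal |β - Θ (circleMap ζ ρ a)| +
          (((∫⁻ u in {u ∈ Icc b' t | circleMap ζ ρ u ∉ un c}, fI G ζ ρ u) +
          ENNReal.ofReal (2 * M) * eVariationOn (fun t => Θ (circleMap ζ ρ t))
                {u ∈ Icc s t | circleMap ζ ρ u ∈ un c}) +
          ((ε : ENNReal) + ∫⁻ u in {u ∈ Icc s a' | circleMap ζ ρ u ∉ un c}, fI G ζ ρ u))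
        = ((∫⁻ u in {u ∈ Icc s a' | circleMap ζ ρ u ∉ un c}, fI G ζ ρ u) +
          (∫⁻ u in {u ∈ Icc b' t | circleMap ζ ρ u ∉ un c}, fI G ζ ρ u)) +
            ENNReal.ofReal (2 * M) * (ENNReal.ofReal |β - Θ (circleMap ζ ρ a)| +
              eVariationOn (fun t => Θ (circleMap ζ ρ t))
                {u ∈ Icc s t | circleMap ζ ρ u ∈ un c}) + ε := by
          rw [mul_add]
          ring
      _ ≤ _ := by
          exact add_le_add (add_le_add hint le_rfl) le_rfl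

private theorem final_ord {c : Cfg} (hc : Valid c) {G : ℂ → ℂ} (hG : Sol c G) {ζ : ℂ} {ρ : ℝ}
    (hρ : 0 < ρ) {M : ℝ} (hM : ∀ z ∉ un c, ‖z - ζ‖ = ρ → ‖G z‖ ≤ M) {Θ : ℂ → ℝ}
    (hΘ : ∀ h ∈ c, ∀ z ∈ h.1, ‖z - ζ‖ = ρ → h.2 = Θ z) {α ω V L : ℝ} (hV0 : 0 ≤ V) (hL0 : 0 ≤ L)
    (hω0 : 0 ≤ ω)
    (hV : eVariationOn (fun t => Θ (circleMap ζ ρ t))
      {t ∈ Icc 0 (2 * Real.pi) | circleMap ζ ρ t ∈ un c} ≤ ENNReal.ofReal V)
    (hω : ∀ h ∈ c, (h.1 ∩ sphere ζ ρ).Nonempty → |α - h.2| ≤ ω)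
    (hL : ∫⁻ t in {t ∈ Icc 0 (2 * Real.pi) | circleMap ζ ρ t ∉ un c},
      ENNReal.ofReal (‖deriv G (circleMap ζ ρ t)‖ * ρ) ≤ ENNReal.ofReal L)
    {s t : ℝ} (hs : s ∈ Icc 0 (2 * Real.pi)) (ht : t ∈ Icc 0 (2 * Real.pi)) (hst : s ≤ t)
    (hsc : circleMap ζ ρ s ∉ un c) (htc : circleMap ζ ρ t ∉ un c) :
    |nrm α (G (circleMap ζ ρ t)) - nrm α (G (circleMap ζ ρ s))| ≤ L + 2 * M * (ω + V) := by
  have hM0 : 0 ≤ M := (norm_nonneg _).trans (hM _ hsc (norm_gamma hρ s))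
  have hLs : ∫⁻ u in {u ∈ Icc s t | circleMap ζ ρ u ∉ un c}, fI G ζ ρ u ≤ ENNReal.ofReal L := by
    refine le_trans (lintegral_mono_set ?_) hL
    exact fun u hu => ⟨⟨hs.1.trans hu.1.1, hu.1.2.trans ht.2⟩, hu.2⟩
  have hpos : 0 ≤ 2 * M * (ω + V) := by positivity
  by_cases hfree : ∀ u ∈ Icc s t, circleMap ζ ρ u ∉ un c
  · have h1 := (free_nrm hc hG hρ hst hfree α).trans hLs
    rw [ENNReal.ofReal_le_ofReal_iff hL0] at h1
    linarith
  · obtain ⟨a, ha, hac, hmin⟩ := exists_least hc hfree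
    have h1 := main_claim hc hG hρ hM hΘ c.card s t hsc htc
      ⟨c, subset_rfl, le_rfl, fun h hh _ => hh⟩ α a ha hac hmin
    obtain ⟨h, hh, hah⟩ := mem_un.1 hac
    have hθ : h.2 = Θ (circleMap ζ ρ a) := hΘ h hh _ hah (norm_gamma hρ a)
    have h2 : |α - Θ (circleMap ζ ρ a)| ≤ ω := by
      rw [← hθ]
      refine hω h hh ⟨circleMap ζ ρ a, hah, ?_⟩
      rw [mem_sphere, dist_eq_norm]
      exact norm_gamma hρ a
    have h3 : eVariationOn (fun t => Θ (circleMap ζ ρ t))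
        {u ∈ Icc s t | circleMap ζ ρ u ∈ un c} ≤ ENNReal.ofReal V := by
      refine le_trans (eVariationOn.mono _ ?_) hV
      exact fun u hu => ⟨⟨hs.1.trans hu.1.1, hu.1.2.trans ht.2⟩, hu.2⟩
    have h4 : ENNReal.ofReal |nrm α (G (circleMap ζ ρ t)) - nrm α (G (circleMap ζ ρ s))| ≤
        ENNReal.ofReal (L + 2 * M * (ω + V)) := by
      rw [ENNReal.ofReal_add hL0 hpos, ENNReal.ofReal_mul (by positivity : (0:ℝ) ≤ 2 * M),
        ENNReal.ofReal_add hω0 hV0]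
      exact h1.trans (add_le_add hLs (mul_le_mul_right
        (add_le_add (ENNReal.ofReal_le_ofReal h2) h3) _))
    rwa [ENNReal.ofReal_le_ofReal_iff (by positivity)] at h4

theorem circle_bound {c : Cfg} (hc : Valid c) {G : ℂ → ℂ} (hG : Sol c G) {ζ : ℂ} {ρ : ℝ}
    (hρ : 0 < ρ) {M : ℝ} (hM : ∀ z ∉ un c, ‖z - ζ‖ = ρ → ‖G z‖ ≤ M) {Θ : ℂ → ℝ}
    (hΘ : ∀ h ∈ c, ∀ z ∈ h.1, ‖z - ζ‖ = ρ → h.2 = Θ z) {α ω V L : ℝ} (hV0 : 0 ≤ V) (hL0 : 0 ≤ L)
    (hω0 : 0 ≤ ω)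
    (hV : eVariationOn (fun t => Θ (circleMap ζ ρ t))
      {t ∈ Icc 0 (2 * Real.pi) | circleMap ζ ρ t ∈ un c} ≤ ENNReal.ofReal V)
    (hω : ∀ h ∈ c, (h.1 ∩ sphere ζ ρ).Nonempty → |α - h.2| ≤ ω)
    (hL : ∫⁻ t in {t ∈ Icc 0 (2 * Real.pi) | circleMap ζ ρ t ∉ un c},
      ENNReal.ofReal (‖deriv G (circleMap ζ ρ t)‖ * ρ) ≤ ENNReal.ofReal L)
    {z w : ℂ} (hz : ‖z - ζ‖ = ρ) (hw : ‖w - ζ‖ = ρ) (hzc : z ∉ un c) (hwc : w ∉ un c) :
    |nrm α (G z) - nrm α (G w)| ≤ L + 2 * M * (ω + V) := by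
  have hpar : ∀ x : ℂ, ‖x - ζ‖ = ρ → ∃ u ∈ Icc 0 (2 * Real.pi), circleMap ζ ρ u = x := by
    intro x hx
    have h1 : x ∈ circleMap ζ ρ '' Ioc 0 (2 * Real.pi) := by
      rw [image_circleMap_Ioc, abs_of_pos hρ, mem_sphere, dist_eq_norm]
      exact hx
    obtain ⟨u, hu, hux⟩ := h1
    exact ⟨u, ⟨hu.1.le, hu.2⟩, hux⟩
  obtain ⟨s, hs, rfl⟩ := hpar z hz
  obtain ⟨t, ht, rfl⟩ := hpar w hw
  rcases le_total s t with hst | hst
  · rw [abs_sub_comm]
    exact final_ord hc hG hρ hM hΘ hV0 hL0 hω0 hV hω hL hs ht hst hzc hwc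
  · exact final_ord hc hG hρ hM hΘ hV0 hL0 hω0 hV hω hL ht hs hst hwc hzc

end RSM2
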