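import Pool.Agent.RSM2.J6

/-!
# RSM2 module K2: the length-area method

PROOF.  `D` open, `G` holomorphic and injective on `D`, `‖G‖ ≤ M` on `D ∩ ball ζ r₁`.  For
`ρ ∈ (0, r₁)` let `ℓ(ρ) = ∫⁻ t in {t ∈ [0, 2π] | circleMap ζ ρ t ∈ D}, ‖G'‖ ρ` (in `[0, ∞]`).  By the
Cauchy-Schwarz inequality `ℓ(ρ)² ≤ 2π ρ ∫⁻ ‖G'‖² ρ dt` over the same set, so by polar
coordinates (`lintegral` version: `lintegral_comp_polarCoord_symm` or
`Complex.lintegral_comp_polarCoord_symm`) `∫⁻ ρ in (r₀, r₁), ℓ(ρ)² / ρ ≤ 2π ∫⁻ over D ∩ ball ζ r₁ of ‖G'‖² =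
2π volume (G '' (D ∩ ball ζ r₁)) ≤ 2π² M²` (area formula,
`lintegral_image_eq_lintegral_abs_det_fderiv_mul`).  Here `M ≥ 0` (else the set is empty).
Suppose that `ℓ(ρ) > κ` for all `ρ ∈ S ∩ (r₀, r₁)`.  The set `T = {ρ ∈ (r₀, r₁) | κ < ℓ ρ}` is
measurable (`ℓ` is measurable) and contains `S ∩ (r₀, r₁)`, so by Markov's inequality
`∫⁻ ρ in S ∩ (r₀, r₁), 1/ρ ≤ ∫⁻ ρ in T, 1/ρ ≤ κ⁻² ∫⁻ ρ in T, ℓ²/ρ ≤ 2π² M²/κ²`, a contradiction.
(`S` is not assumed to be measurable: `lintegral_mono_set` holds for all sets.)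
-/

open Complex Set Metric Filter Topology MeasureTheory

namespace RSM2

private theorem ofReal_abs_det (c : ℂ) :
    ENNReal.ofReal |((ContinuousLinearMap.toSpanSingleton ℂ c : ℂ →L[ℂ] ℂ).restrictScalars ℝ).det| =
      ENNReal.ofReal ‖c‖ ^ 2 := by
  have h1 : ((ContinuousLinearMap.toSpanSingleton ℂ c : ℂ →L[ℂ] ℂ).restrictScalars ℝ).det =
      ‖c‖ ^ 2 := by
    rw [ContinuousLinearMap.det, ← Complex.normSq_eq_norm_sq]
    have : ((((ContinuousLinearMap.toSpanSingleton ℂ c : ℂ →L[ℂ] ℂ).restrictScalars ℝ) :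
        ℂ →L[ℝ] ℂ) : ℂ →ₗ[ℝ] ℂ) = LinearMap.mulLeft ℝ c := by
      (ext; simp [mul_comm])
    rw [this]
    have h2 : Algebra.norm ℝ c = Complex.normSq c := by rw [Algebra.norm_complex_apply]
    rw [← h2]
    rfl
  rw [h1, abs_of_nonneg (by positivity), ENNReal.ofReal_pow (norm_nonneg _)]

/-- Polar coordinates around `ζ`, angles in `[0, 2π]`. -/
private theorem polar_le {F : ℂ → ENNReal} (hF : Measurable F) (ζ : ℂ) :
    ∫⁻ ρ in Ioi (0 : ℝ), ∫⁻ t in Icc 0 (2 * Real.pi), ENNReal.ofReal ρ * F (circleMap ζ ρ t) =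
      ∫⁻ z, F z := by
  have hcm : ∀ p : ℝ × ℝ, ζ + Complex.polarCoord.symm p = circleMap ζ p.1 p.2 := by
    intro p
    rw [Complex.polarCoord_symm_apply, circleMap, Complex.exp_mul_I]
    push_cast
    ring
  have hcmc : Continuous fun p : ℝ × ℝ => circleMap ζ p.1 p.2 := by
    unfold circleMap
    fun_prop
  have hKm : Measurable fun p : ℝ × ℝ => ENNReal.ofReal p.1 * F (circleMap ζ p.1 p.2) :=
    measurable_fst.ennreal_ofReal.mul (hF.comp hcmc.measurable)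
  rw [← lintegral_add_left_eq_self F ζ, ← Complex.lintegral_comp_polarCoord_symm,
    polarCoord_target, Measure.volume_eq_prod, ← Measure.prod_restrict]
  simp_rw [hcm, smul_eq_mul]
  rw [lintegral_prod _ hKm.aemeasurable]
  refine lintegral_congr fun ρ => ?_
  have hper : ∀ t : ℝ, circleMap ζ ρ (t + 2 * Real.pi) = circleMap ζ ρ t := periodic_circleMap ζ ρ
  rw [setLIntegral_congr (Ioc_ae_eq_Icc (a := (0 : ℝ)) (b := 2 * Real.pi)).symm,
    setLIntegral_congr (Ioo_ae_eq_Ioc (a := -Real.pi) (b := Real.pi))]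
  have h1 := isAddFundamentalDomain_Ioc Real.two_pi_pos 0
  have h2 := isAddFundamentalDomain_Ioc Real.two_pi_pos (-Real.pi)
  have hp : Function.Periodic (fun t => ENNReal.ofReal ρ * F (circleMap ζ ρ t))
      (2 * Real.pi) := by
    intro t
    show ENNReal.ofReal ρ * F (circleMap ζ ρ (t + 2 * Real.pi)) = _
    rw [periodic_circleMap ζ ρ t]
  have h3 := h1.setLIntegral_eq h2 (fun t => ENNReal.ofReal ρ * F (circleMap ζ ρ t))
    hp.map_vadd_zmultiples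
  have e1 : -Real.pi + 2 * Real.pi = Real.pi := by ring
  rw [zero_add, e1] at h3
  exact h3

private theorem cs {μ : Measure ℝ} {f : ℝ → ENNReal} (hf : Measurable f) :
    (∫⁻ t, f t ∂μ) ^ 2 ≤ μ univ * ∫⁻ t, f t ^ 2 ∂μ := by
  have h := ENNReal.lintegral_mul_le_Lp_mul_Lq μ Real.HolderConjugate.two_two
    hf.aemeasurable (aemeasurable_const (b := (1 : ENNReal)))
  simp only [Pi.mul_apply, mul_one, ENNReal.one_rpow, lintegral_one] at h
  have h2 := pow_le_pow_left' h 2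
  rw [mul_pow] at h2
  have hsq : ∀ x : ENNReal, (x ^ (1 / (2 : ℝ))) ^ 2 = x := by
    intro x
    rw [← ENNReal.rpow_natCast, ← ENNReal.rpow_mul]
    norm_num
  rw [hsq, hsq, mul_comm] at h2
  have he : ∀ t, f t ^ (2 : ℝ) = f t ^ 2 := fun t => by
    rw [← ENNReal.rpow_natCast]
    norm_num
  simp_rw [he] at h2
  exact h2

private theorem area_eq {D : Set ℂ} (hD : IsOpen D) {G : ℂ → ℂ} (hG : DifferentiableOn ℂ G D)
    (hinj : InjOn G D) {ζ : ℂ} {r₁ : ℝ} :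
    ∫⁻ z in D ∩ ball ζ r₁, ENNReal.ofReal ‖deriv G z‖ ^ 2 = volume (G '' (D ∩ ball ζ r₁)) := by
  have hs : MeasurableSet (D ∩ ball ζ r₁) := hD.measurableSet.inter measurableSet_ball
  rw [← lintegral_abs_det_fderiv_eq_addHaar_image volume hs
    (f' := fun x => (ContinuousLinearMap.toSpanSingleton ℂ (deriv G x) : ℂ →L[ℂ] ℂ).restrictScalars ℝ)
    (fun x hx => ((((hG x hx.1).differentiableAt (hD.mem_nhds hx.1)).hasDerivAt.hasFDerivAt).restrictScalars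
      ℝ).hasFDerivWithinAt) (hinj.mono inter_subset_left)]
  exact lintegral_congr fun x => (ofReal_abs_det _).symm

theorem exists_radius {D : Set ℂ} (hD : IsOpen D) {G : ℂ → ℂ} (hG : DifferentiableOn ℂ G D)
    (hinj : InjOn G D) {ζ : ℂ} {r₀ r₁ M κ : ℝ} (hr₀ : 0 < r₀) (hr : r₀ < r₁) (hκ : 0 < κ)
    (hM : ∀ z ∈ D, ‖z - ζ‖ < r₁ → ‖G z‖ ≤ M) {S : Set ℝ}
    (hS : ENNReal.ofReal (2 * Real.pi ^ 2 * M ^ 2 / κ ^ 2) <
      ∫⁻ ρ in S ∩ Ioo r₀ r₁, ENNReal.ofReal ρ⁻¹) :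
    ∃ ρ ∈ S ∩ Ioo r₀ r₁, ∫⁻ t in {t ∈ Icc 0 (2 * Real.pi) | circleMap ζ ρ t ∈ D},
      ENNReal.ofReal (‖deriv G (circleMap ζ ρ t)‖ * ρ) ≤ ENNReal.ofReal κ := by
  by_contra hcon
  push Not at hcon
  set φ : ℂ → ENNReal := D.indicator (fun z => ENNReal.ofReal ‖deriv G z‖) with hφ
  have hφm : Measurable φ :=
    ((measurable_deriv G).norm.ennreal_ofReal).indicator hD.measurableSet
  have hcmc : Continuous fun p : ℝ × ℝ => circleMap ζ p.1 p.2 := by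
    unfold circleMap
    fun_prop
  set ℓ : ℝ → ENNReal := fun ρ => ∫⁻ t in Icc 0 (2 * Real.pi), φ (circleMap ζ ρ t) with hℓ
  have hℓm : Measurable ℓ := by
    have h1 : Measurable fun p : ℝ × ℝ => φ (circleMap ζ p.1 p.2) := hφm.comp hcmc.measurable
    exact h1.lintegral_prod_right'
  have hcm : ∀ ρ, Continuous fun t => circleMap ζ ρ t := fun ρ => continuous_circleMap ζ ρ
  -- the length in terms of `ℓ`
  have hlen : ∀ ρ, 0 < ρ → ∫⁻ t in {t ∈ Icc 0 (2 * Real.pi) | circleMap ζ ρ t ∈ D},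
      ENNReal.ofReal (‖deriv G (circleMap ζ ρ t)‖ * ρ) = ENNReal.ofReal ρ * ℓ ρ := by
    intro ρ hρ
    have hset : {t ∈ Icc 0 (2 * Real.pi) | circleMap ζ ρ t ∈ D} =
        (circleMap ζ ρ ⁻¹' D) ∩ Icc 0 (2 * Real.pi) := by
      ext t
      simp [and_comm]
    have hpm : MeasurableSet (circleMap ζ ρ ⁻¹' D) := (hD.preimage (hcm ρ)).measurableSet
    rw [hset, ← Measure.restrict_restrict hpm, ← lintegral_indicator hpm, hℓ,
      ← lintegral_const_mul' _ _ ENNReal.ofReal_ne_top]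
    refine lintegral_congr fun t => ?_
    by_cases ht : circleMap ζ ρ t ∈ D
    · rw [indicator_of_mem (show t ∈ circleMap ζ ρ ⁻¹' D from ht), hφ, indicator_of_mem ht,
        ENNReal.ofReal_mul (norm_nonneg _), mul_comm]
    · rw [indicator_of_notMem (show t ∉ circleMap ζ ρ ⁻¹' D from ht), hφ,
        indicator_of_notMem ht, mul_zero]
  -- Cauchy-Schwarz
  have hCS : ∀ ρ, ℓ ρ ^ 2 ≤ ENNReal.ofReal (2 * Real.pi) *
      ∫⁻ t in Icc 0 (2 * Real.pi), φ (circleMap ζ ρ t) ^ 2 := by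
    intro ρ
    have h1 := cs (μ := volume.restrict (Icc 0 (2 * Real.pi))) (f := fun t => φ (circleMap ζ ρ t))
      (hφm.comp (hcm ρ).measurable)
    rw [Measure.restrict_apply_univ, Real.volume_Icc, sub_zero] at h1
    exact h1
  have hr₁ : 0 < r₁ := hr₀.trans hr
  have hpol : ∫⁻ ρ in Ioo 0 r₁, ENNReal.ofReal ρ * ℓ ρ ^ 2 ≤
      ENNReal.ofReal (2 * Real.pi) * ∫⁻ z in D ∩ ball ζ r₁, ENNReal.ofReal ‖deriv G z‖ ^ 2 := by
    set F : ℂ → ENNReal := (D ∩ ball ζ r₁).indicator (fun z => ENNReal.ofReal ‖deriv G z‖ ^ 2)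
      with hF
    have hs : MeasurableSet (D ∩ ball ζ r₁) := hD.measurableSet.inter measurableSet_ball
    have hFm : Measurable F := (((measurable_deriv G).norm.ennreal_ofReal).pow_const 2).indicator hs
    rw [← lintegral_indicator hs, ← hF, ← polar_le hFm ζ,
      ← lintegral_const_mul' _ _ ENNReal.ofReal_ne_top]
    refine le_trans ?_ (lintegral_mono_set (show Ioo 0 r₁ ⊆ Ioi (0 : ℝ) from fun x hx => hx.1))
    refine setLIntegral_mono' measurableSet_Ioo fun ρ hρ => ?_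
    rw [lintegral_const_mul' _ _ ENNReal.ofReal_ne_top]
    calc ENNReal.ofReal ρ * ℓ ρ ^ 2 ≤ ENNReal.ofReal ρ * (ENNReal.ofReal (2 * Real.pi) *
        ∫⁻ t in Icc 0 (2 * Real.pi), φ (circleMap ζ ρ t) ^ 2) := by gcongr; exact hCS ρ
      _ = ENNReal.ofReal (2 * Real.pi) * (ENNReal.ofReal ρ *
        ∫⁻ t in Icc 0 (2 * Real.pi), F (circleMap ζ ρ t)) := by
        rw [mul_left_comm]
        congr 2
        refine lintegral_congr fun t => ?_
        have hmem : circleMap ζ ρ t ∈ ball ζ r₁ := by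
          rw [mem_ball, dist_eq_norm]
          simp [circleMap, abs_of_pos hρ.1, hρ.2]
        by_cases ht : circleMap ζ ρ t ∈ D
        · rw [hφ, hF, indicator_of_mem ht,
            indicator_of_mem (show circleMap ζ ρ t ∈ D ∩ ball ζ r₁ from ⟨ht, hmem⟩)]
        · rw [hφ, hF, indicator_of_notMem ht, indicator_of_notMem fun h => ht h.1]
          simp
  -- area
  have harea : ∫⁻ z in D ∩ ball ζ r₁, ENNReal.ofReal ‖deriv G z‖ ^ 2 ≤
      ENNReal.ofReal (Real.pi * M ^ 2) := by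
    rw [area_eq hD hG hinj]
    rcases (D ∩ ball ζ r₁).eq_empty_or_nonempty with he | ⟨z, hz⟩
    · simp [he]
    have hM0 : 0 ≤ M := (norm_nonneg _).trans (hM z hz.1 (by simpa [dist_eq_norm] using hz.2))
    have hsub : G '' (D ∩ ball ζ r₁) ⊆ closedBall 0 M := by
      rintro _ ⟨z, hz, rfl⟩
      rw [mem_closedBall, dist_zero_right]
      exact hM z hz.1 (by simpa [dist_eq_norm] using hz.2)
    refine (measure_mono hsub).trans ?_
    rw [Complex.volume_closedBall, ENNReal.ofReal_mul Real.pi_pos.le, ENNReal.ofReal_pow hM0,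
      mul_comm]
    gcongr
    rw [ENNReal.ofReal, Real.toNNReal_of_nonneg Real.pi_pos.le]
    rfl
  -- Markov
  set T : Set ℝ := {ρ ∈ Ioo r₀ r₁ | ENNReal.ofReal κ < ENNReal.ofReal ρ * ℓ ρ} with hT
  have hTm : MeasurableSet T :=
    measurableSet_Ioo.inter (measurableSet_lt measurable_const
      (measurable_id.ennreal_ofReal.mul hℓm))
  have hST : S ∩ Ioo r₀ r₁ ⊆ T := by
    intro ρ hρ
    refine ⟨hρ.2, ?_⟩
    have h1 := hcon ρ hρ
    rwa [hlen ρ (hr₀.trans hρ.2.1)] at h1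
  have hTle : ENNReal.ofReal (κ ^ 2) * ∫⁻ ρ in T, ENNReal.ofReal ρ⁻¹ ≤
      ∫⁻ ρ in Ioo 0 r₁, ENNReal.ofReal ρ * ℓ ρ ^ 2 := by
    rw [← lintegral_const_mul' _ _ ENNReal.ofReal_ne_top]
    refine le_trans ?_ (lintegral_mono_set (show T ⊆ Ioo 0 r₁ from
      fun ρ hρ => ⟨hr₀.trans hρ.1.1, hρ.1.2⟩))
    refine setLIntegral_mono' hTm fun ρ hρ => ?_
    have hρ0 : 0 < ρ := hr₀.trans hρ.1.1
    have h1 : ENNReal.ofReal κ ^ 2 ≤ (ENNReal.ofReal ρ * ℓ ρ) ^ 2 := pow_le_pow_left' hρ.2.le 2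
    rw [ENNReal.ofReal_pow hκ.le]
    calc ENNReal.ofReal κ ^ 2 * ENNReal.ofReal ρ⁻¹
        ≤ (ENNReal.ofReal ρ * ℓ ρ) ^ 2 * ENNReal.ofReal ρ⁻¹ := by gcongr
      _ = ENNReal.ofReal ρ * ℓ ρ ^ 2 := by
        have h2 : ENNReal.ofReal ρ * ENNReal.ofReal ρ⁻¹ = 1 := by
          rw [← ENNReal.ofReal_mul hρ0.le, mul_inv_cancel₀ hρ0.ne', ENNReal.ofReal_one]
        calc _ = (ENNReal.ofReal ρ * ENNReal.ofReal ρ⁻¹) * (ENNReal.ofReal ρ * ℓ ρ ^ 2) := by ring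
          _ = _ := by rw [h2, one_mul]
  have hfin : ENNReal.ofReal (κ ^ 2) * ∫⁻ ρ in T, ENNReal.ofReal ρ⁻¹ ≤
      ENNReal.ofReal (2 * Real.pi ^ 2 * M ^ 2) := by
    refine hTle.trans (hpol.trans ?_)
    calc _ ≤ ENNReal.ofReal (2 * Real.pi) * ENNReal.ofReal (Real.pi * M ^ 2) := by gcongr
      _ = _ := by
        rw [← ENNReal.ofReal_mul Real.two_pi_pos.le]
        congr 1
        ring
  have hS2 : ENNReal.ofReal (2 * Real.pi ^ 2 * M ^ 2 / κ ^ 2) <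
      ∫⁻ ρ in T, ENNReal.ofReal ρ⁻¹ := hS.trans_le (lintegral_mono_set hST)
  have hκ2 : 0 < κ ^ 2 := by positivity
  have h3 : ENNReal.ofReal (κ ^ 2) * ENNReal.ofReal (2 * Real.pi ^ 2 * M ^ 2 / κ ^ 2) <
      ENNReal.ofReal (κ ^ 2) * ∫⁻ ρ in T, ENNReal.ofReal ρ⁻¹ :=
    ENNReal.mul_lt_mul_right (ENNReal.ofReal_pos.mpr hκ2).ne' ENNReal.ofReal_ne_top hS2
  rw [← ENNReal.ofReal_mul hκ2.le, mul_div_cancel₀ _ hκ2.ne'] at h3
  exact absurd hfin (not_le.mpr h3)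

/-- At a good point the good radii in `(r₀, r₁)` have large measure if `r₀` is small. -/
theorem GoodAt.exists_r₀ {E : Set ℂ} {θ : ℂ → ℝ} {ζ : ℂ} (h : GoodAt E θ ζ) {η r₁ : ℝ}
    (hη : 0 < η) (hr₁ : 0 < r₁) (C : ℝ) : ∃ r₀, 0 < r₀ ∧ r₀ < r₁ ∧
      ENNReal.ofReal C < ∫⁻ ρ in goodRadii E θ ζ η ∩ Ioo r₀ r₁, ENNReal.ofReal ρ⁻¹ := by
  -- Let `r₁ ≤ 1` without restriction (replace `r₁` by `min r₁ 1`).  The part of `(0, 1)` in
  -- `[r₁, 1)` has finite measure `log (1/r₁)`, so the integral over `goodRadii ∩ (0, r₁)` is `⊤`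
  -- (`Ioo 0 1 ⊆ Ioo 0 r₁ ∪ Ico r₁ 1`, `lintegral_union_le`).  The sets
  -- `goodRadii ∩ Ioo (r₁/(n+2)) r₁` increase to `goodRadii ∩ Ioo 0 r₁`; with `ν = volume.withDensity
  -- (1/ρ)` (outer measure) `ν (⋃ s n) = ⨆ ν (s n)` for increasing sequences of arbitrary sets
  -- (`Monotone.measure_iUnion`), and `ν s = ∫⁻ ρ in s, 1/ρ` for all sets `s`
  -- (`withDensity_apply'`, `volume` is s-finite).
  set g : Set ℝ := goodRadii E θ ζ η with hg
  set ν : Measure ℝ := volume.withDensity (fun ρ => ENNReal.ofReal ρ⁻¹) with hν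
  have hνa : ∀ s : Set ℝ, ν s = ∫⁻ ρ in s, ENNReal.ofReal ρ⁻¹ := fun s => withDensity_apply' _ s
  have htop : ν (g ∩ Ioo 0 r₁) = ⊤ := by
    by_contra hne
    have h1 : ν (g ∩ Ioo 0 1) = ⊤ := by
      rw [hνa]
      exact h η hη
    have h2 : ν (Ico r₁ 1) ≠ ⊤ := by
      have h3 : ν (Ico r₁ 1) ≤ ENNReal.ofReal r₁⁻¹ * ENNReal.ofReal (1 - r₁) := by
        rw [hνa]
        calc ∫⁻ ρ in Ico r₁ 1, ENNReal.ofReal ρ⁻¹ ≤ ∫⁻ ρ in Ico r₁ 1, ENNReal.ofReal r₁⁻¹ := by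
              refine setLIntegral_mono' measurableSet_Ico fun ρ hρ => ?_
              exact ENNReal.ofReal_le_ofReal (inv_anti₀ hr₁ hρ.1)
          _ = _ := by
            rw [setLIntegral_const, Real.volume_Ico]
      exact ne_top_of_le_ne_top (ENNReal.mul_ne_top ENNReal.ofReal_ne_top ENNReal.ofReal_ne_top) h3
    have h4 : g ∩ Ioo 0 1 ⊆ (g ∩ Ioo 0 r₁) ∪ Ico r₁ 1 := by
      rintro x ⟨hx, hx0, hx1⟩
      rcases lt_or_ge x r₁ with hlt | hge
      · exact Or.inl ⟨hx, hx0, hlt⟩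
      · exact Or.inr ⟨hge, hx1⟩
    have h5 := (measure_mono h4).trans (measure_union_le (μ := ν) _ _)
    rw [h1, top_le_iff, ENNReal.add_eq_top] at h5
    exact h5.elim hne h2
  set s : ℕ → Set ℝ := fun n => g ∩ Ioo (r₁ / (n + 2)) r₁ with hs
  have hmono : Monotone s := by
    intro m n hmn
    refine inter_subset_inter_right _ (Ioo_subset_Ioo_left ?_)
    have : (m : ℝ) ≤ n := by exact_mod_cast hmn
    gcongr
  have hU : ⋃ n, s n = g ∩ Ioo 0 r₁ := by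
    ext x
    simp only [hs, mem_iUnion, mem_inter_iff, mem_Ioo]
    constructor
    · rintro ⟨n, hx, h1, h2⟩
      exact ⟨hx, lt_of_le_of_lt (by positivity) h1, h2⟩
    · rintro ⟨hx, h1, h2⟩
      obtain ⟨n, hn⟩ := exists_nat_gt (r₁ / x)
      refine ⟨n, hx, ?_, h2⟩
      rw [div_lt_iff₀ (by positivity)]
      rw [div_lt_iff₀ h1] at hn
      nlinarith
  have hsup := hmono.measure_iUnion (μ := ν)
  rw [hU, htop] at hsup
  obtain ⟨n, hn⟩ := iSup_eq_top.mp hsup.symm (ENNReal.ofReal C) ENNReal.ofReal_lt_top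
  refine ⟨r₁ / (n + 2), by positivity, ?_, ?_⟩
  · rw [div_lt_iff₀ (by positivity)]
    have : (0 : ℝ) ≤ n := Nat.cast_nonneg n
    nlinarith
  · rw [hνa] at hn
    exact hn

end RSM2
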