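import Pool.Agent.RSM2.V5

/-!
# RSM2 module K3: the maximum principle in a disc, for directions close to the slits

PROOF of `disc_upper`.  Let `κ > 0` and `P = {w | b + 2 M ω + κ < nrm α w}`, an open half plane,
connected and unbounded.  `O = (G '' (ball ζ ρ \ un c) ∪ ⋃ (h ∈ c, h.1 ⊆ ball ζ ρ), S h) ∩ P`.
(1) `O` is open: `G '' (open)` is open; if `w ∈ S h`, `h.1 ⊆ ball ζ ρ`, then by `ofS` (with
`U = ball ζ ρ`) all points `w'` near `w` are in `S h` or in `G '' (ball ζ ρ \ un c)`: `w'` is in no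
other `S h'` (closed), so either in `S h` or `w' = G z` with `z ∉ un c`, `z ∈ ball ζ ρ`.
(2) `O` is relatively closed in `P`: let `w n ∈ O`, `w n → w ∈ P`.  If `w n ∈ S h` infinitely often,
`w ∈ S h` (compact).  Otherwise `w n = G (z n)`, `z n ∈ ball ζ ρ \ un c`; by `lift` along a subsequence
`z n → z₀ ∈ closedBall ζ ρ` and either `z₀ ∉ un c`, `w = G z₀`, where `z₀ ∈ ball ζ ρ` gives `w ∈ O` and
`‖z₀ - ζ‖ = ρ` is impossible as then `nrm α w ≤ b`; or `z₀ ∈ h.1`, `w ∈ S h`, `h ∈ c`.  If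
`h.1 ⊆ ball ζ ρ`, then `w ∈ O`.  Otherwise `h.1` meets the circle (it is connected, meets
`closedBall ζ ρ` and is not contained in `ball ζ ρ`).  The circle is not contained in `h.1`:
otherwise `(h.1)ᶜ`, connected and unbounded, would not meet `ball ζ ρ`, so
`ball ζ ρ ⊆ h.1 ⊆ un c`, and there are no points `z n`.  So there is a sequence of points of the
circle outside of `h.1` converging to a point of `h.1`; these points are in `(un c)ᶜ` (the other
holes have positive distance from `h.1`), and by `toS` (and compactness of `S h`) a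
subsequence of their images converges to a point `v ∈ S h` with `nrm α v ≤ b`.  All points `v'` of
`S h` satisfy `v' - v = t exp (i h.2)`, `|t| ≤ 2M` (the points of `S h` are limits of values of `G`
near `h.1`... use that `v, w ∈ closedBall 0 M`: both are limits of values of `G` at points of
`closedBall ζ ρ \ un c`), so `nrm α w ≤ nrm α v + 2 M |sin (h.2 - α)| ≤ b + 2 M ω`: contradiction to
`w ∈ P`.
(3) So `O = ∅` or `O = P`; `O` is bounded (`‖G‖ ≤ M` on `closedBall ζ ρ \ un c`, finitely many compact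
`S h`), so `O = ∅`; let `κ → 0`.
`disc_lower`: the same with `-nrm α`.
-/

open Complex Set Metric Filter Topology MeasureTheory

namespace RSM2

variable {c : Cfg} {G : ℂ → ℂ} {S : Set ℂ × ℝ → Set ℂ} {ζ : ℂ} {ρ M α ω b : ℝ}

/-- The image of an open set with the holes contained in it replaced by their slits is open. -/
theorem k3_isOpen (hc : Valid c) (hG : SMap 0 c G S) {W : Set ℂ} (hW : IsOpen W) :
    IsOpen (fillImg c G S W) := by
  rw [isOpen_iff_mem_nhds]
  rintro w (hw | hw)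
  · exact mem_of_superset ((v5_isOpen_image_diff hc hG hW).mem_nhds hw) subset_union_left
  · obtain ⟨h, ⟨hh, hhW⟩, hwS⟩ := mem_iUnion₂.1 hw
    have h2 : ∀ᶠ w' in 𝓝 w, ∀ k ∈ c, k ≠ h → w' ∉ S k := by
      rw [Finset.eventually_all]
      intro k hk
      by_cases hkh : k = h
      · exact Eventually.of_forall fun _ hne => absurd hkh hne
      · have : w ∉ S k := fun hwk => (disjoint_left.1 (hG.disj k hk h hh hkh)) hwk hwS
        filter_upwards [(hG.compactS hk).isClosed.isOpen_compl.mem_nhds this] with w' hw' _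
        exact hw'
    filter_upwards [v5_eventually_image hc hG hW hh hhW hwS, h2] with w' h3 h4
    by_cases hw' : w' ∈ S h
    · exact Or.inr (mem_iUnion₂.2 ⟨h, ⟨hh, hhW⟩, hw'⟩)
    · refine Or.inl (h3 ?_)
      intro hcon
      obtain ⟨k, hk, hwk⟩ := mem_iUnion₂.1 hcon
      by_cases hkh : k = h
      · subst hkh
        exact hw' hwk
      · exact h4 k hk hkh hwk

/-- A hole which meets the closed disc, is not contained in the open disc, and does not
contain the open disc: there is a point of the hole on the circle which is a limit of points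
of the circle outside of all the holes. -/
theorem k3_circle (hc : Valid c) (hρ : 0 < ρ) {h : Set ℂ × ℝ} (hh : h ∈ c) {z₀ z₁ : ℂ}
    (hz₀ : z₀ ∈ h.1) (hz₀' : z₀ ∈ closedBall ζ ρ) (hnot : ¬ h.1 ⊆ ball ζ ρ)
    (hz₁ : z₁ ∉ h.1) (hz₁' : z₁ ∈ ball ζ ρ) :
    ∃ (y : ℕ → ℂ) (y₀ : ℂ), y₀ ∈ h.1 ∧ Tendsto y atTop (𝓝 y₀) ∧
      ∀ n, y n ∉ un c ∧ ‖y n - ζ‖ = ρ := by
  have hcb : closure (ball ζ ρ) = closedBall ζ ρ := closure_ball ζ hρ.ne'
  have hcases : ∀ x ∈ closedBall ζ ρ, x ∈ ball ζ ρ ∨ x ∈ sphere ζ ρ := by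
    intro x hx
    rw [mem_closedBall] at hx
    rcases hx.lt_or_eq with h1 | h1
    · exact Or.inl (mem_ball.2 h1)
    · exact Or.inr (mem_sphere.2 h1)
  -- the hole meets the circle
  obtain ⟨a, haS, hah⟩ : (sphere ζ ρ ∩ h.1).Nonempty := by
    by_contra hemp
    rw [not_nonempty_iff_eq_empty] at hemp
    have hno : ∀ x ∈ h.1, x ∉ sphere ζ ρ := fun x hx hxs => by
      have : x ∈ sphere ζ ρ ∩ h.1 := ⟨hxs, hx⟩
      rw [hemp] at this
      exact this
    apply hnot
    refine (hc.conn h hh).isPreconnected.subset_of_closure_inter_subset isOpen_ball ?_ ?_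
    · exact ⟨z₀, hz₀, (hcases z₀ hz₀').resolve_right (hno z₀ hz₀)⟩
    · rintro x ⟨hx1, hx2⟩
      rw [hcb] at hx1
      exact (hcases x hx1).resolve_right (hno x hx2)
  -- the circle is not contained in the hole
  obtain ⟨a', haS', hah'⟩ : (sphere ζ ρ ∩ h.1ᶜ).Nonempty := by
    by_contra hemp
    rw [not_nonempty_iff_eq_empty] at hemp
    have hno : ∀ x ∈ h.1ᶜ, x ∉ sphere ζ ρ := fun x hx hxs => by
      have : x ∈ sphere ζ ρ ∩ h.1ᶜ := ⟨hxs, hx⟩
      rw [hemp] at this
      exact this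
    have hsub : h.1ᶜ ⊆ ball ζ ρ := by
      refine (hc.compl h hh).isPreconnected.subset_of_closure_inter_subset isOpen_ball
        ⟨z₁, hz₁, hz₁'⟩ ?_
      rintro x ⟨hx1, hx2⟩
      rw [hcb] at hx1
      exact (hcases x hx1).resolve_right (hno x hx2)
    have hbd : Bornology.IsBounded (univ : Set ℂ) := by
      refine ((hc.compact h hh).isBounded.union isBounded_ball).subset
        (t := h.1 ∪ ball ζ ρ) ?_
      intro x _
      by_cases hx : x ∈ h.1
      · exact Or.inl hx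
      · exact Or.inr (hsub hx)
    exact NormedSpace.unbounded_univ ℝ ℂ hbd
  -- a boundary point
  have hclosed : IsClosed h.1 := (hc.compact h hh).isClosed
  obtain ⟨y₀, hy₀S, hy₀h, hy₀c⟩ : ∃ y₀ ∈ sphere ζ ρ, y₀ ∈ h.1 ∧
      y₀ ∈ closure (sphere ζ ρ ∩ h.1ᶜ) := by
    by_contra hcon
    push Not at hcon
    have hpre : IsPreconnected (sphere ζ ρ) := isPreconnected_sphere (by simp) ζ ρ
    obtain ⟨x, hxS, hxU, hxV⟩ := hpre (closure (sphere ζ ρ ∩ h.1ᶜ))ᶜ h.1ᶜ
      isClosed_closure.isOpen_compl hclosed.isOpen_compl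
      (fun x hx => by
        by_cases hxh : x ∈ h.1
        · exact Or.inl (hcon x hx hxh)
        · exact Or.inr hxh)
      ⟨a, haS, hcon a haS hah⟩ ⟨a', haS', hah'⟩
    exact hxU (subset_closure ⟨hxS, hxV⟩)
  have hfreq : ∃ᶠ y in 𝓝 y₀, y ∈ sphere ζ ρ ∩ h.1ᶜ := mem_closure_iff_frequently.1 hy₀c
  have hev : ∀ᶠ y in 𝓝 y₀, ∀ k ∈ c, k ≠ h → y ∉ k.1 := by
    rw [Finset.eventually_all]
    intro k hk
    by_cases hkh : k = h
    · exact Eventually.of_forall fun _ hne => absurd hkh hne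
    · have : y₀ ∉ k.1 := fun hyk => (disjoint_left.1 (hc.disj k hk h hh hkh)) hyk hy₀h
      filter_upwards [(hc.compact k hk).isClosed.isOpen_compl.mem_nhds this] with y hy _
      exact hy
  have hcl : y₀ ∈ closure (sphere ζ ρ ∩ (un c)ᶜ) := by
    rw [mem_closure_iff_frequently]
    refine (hfreq.and_eventually hev).mono ?_
    rintro y ⟨⟨hyS, hyh⟩, hyk⟩
    refine ⟨hyS, fun hyu => ?_⟩
    obtain ⟨k, hk, hyk'⟩ := mem_un.1 hyu
    by_cases hkh : k = h
    · subst hkh
      exact hyh hyk'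
    · exact hyk k hk hkh hyk'
  obtain ⟨y, hy, hlim⟩ := mem_closure_iff_seq_limit.1 hcl
  exact ⟨y, y₀, hy₀h, hlim, fun n => ⟨(hy n).2, mem_sphere_iff_norm.1 (hy n).1⟩⟩

theorem k3_nrm_dir (α φ t : ℝ) : nrm α ((t : ℂ) * exp (φ * I)) = t * Real.sin (φ - α) := by
  unfold nrm
  rw [mul_left_comm, ← exp_add,
    show -(α : ℂ) * I + φ * I = ((φ - α : ℝ) : ℂ) * I by push_cast; ring,
    Complex.im_ofReal_mul, Complex.exp_ofReal_mul_I_im]

theorem k3_isLinear (σ α : ℝ) : IsLinearMap ℝ (fun w : ℂ => σ * nrm α w) where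
  map_add x y := by rw [nrm_add, mul_add]
  map_smul t x := by
    have : nrm α (t • x) = t * nrm α x := by
      unfold nrm
      rw [Complex.real_smul, mul_left_comm, Complex.im_ofReal_mul]
    rw [this, smul_eq_mul]
    ring

theorem k3_continuous (σ α : ℝ) : Continuous (fun w : ℂ => σ * nrm α w) := by
  unfold nrm
  fun_prop

/-- The maximum principle, for `σ = 1` and `σ = -1` at the same time. -/
theorem k3_aux {σ : ℝ} (hσ : σ = 1 ∨ σ = -1) (hc : Valid c) (hG : SMap 0 c G S) (hρ : 0 < ρ)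
    (hω0 : 0 ≤ ω)
    (hM : ∀ z ∉ un c, ‖z - ζ‖ ≤ ρ → ‖G z‖ ≤ M)
    (hω : ∀ h ∈ c, (h.1 ∩ closedBall ζ ρ).Nonempty → |α - h.2| ≤ ω)
    (hb : ∀ z ∉ un c, ‖z - ζ‖ = ρ → σ * nrm α (G z) ≤ b) :
    ∀ z ∉ un c, ‖z - ζ‖ < ρ → σ * nrm α (G z) ≤ b + 2 * M * ω := by
  intro z' hz'c hz'
  by_contra hcon
  push Not at hcon
  have hσ2 : σ * σ = 1 := by rcases hσ with rfl | rfl <;> norm_num
  have hσa : |σ| = 1 := by rcases hσ with rfl | rfl <;> norm_num
  have hM0 : 0 ≤ M := (norm_nonneg _).trans (hM z' hz'c hz'.le)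
  set P : Set ℂ := {w | b + 2 * M * ω < σ * nrm α w} with hP
  have hPc : IsPreconnected P := (convex_halfSpace_gt (k3_isLinear σ α) _).isPreconnected
  have hfin : {h : Set ℂ × ℝ | h ∈ c ∧ h.1 ⊆ ball ζ ρ}.Finite :=
    c.finite_toSet.subset fun h hh => hh.1
  have hcl : IsClosed (⋃ h ∈ {h : Set ℂ × ℝ | h ∈ c ∧ h.1 ⊆ ball ζ ρ}, S h) :=
    hfin.isClosed_biUnion fun h hh => (hG.compactS hh.1).isClosed
  -- relatively closed
  have hrel : closure (fillImg c G S (ball ζ ρ)) ∩ P ⊆ fillImg c G S (ball ζ ρ) := by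
    unfold fillImg
    rw [closure_union, hcl.closure_eq]
    rintro w ⟨hw | hw, hwP⟩
    · obtain ⟨x, hx, hlim⟩ := mem_closure_iff_seq_limit.1 hw
      choose z hzW hzx using hx
      have hlim' : Tendsto (fun n => G (z n)) atTop (𝓝 w) := by
        simpa only [hzx] using hlim
      have hzn : ∀ n, ‖z n - ζ‖ < ρ := fun n => mem_ball_iff_norm.1 (hzW n).1
      have hwM : ‖w‖ ≤ M :=
        le_of_tendsto hlim'.norm
          (Eventually.of_forall fun n => hM (z n) (hzW n).2 (hzn n).le)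
      obtain ⟨φ, z₀, -, hz₀, hcase⟩ := lift hc hG (fun n => (hzW n).2) hlim'
      have hz₀b : z₀ ∈ closedBall ζ ρ :=
        isClosed_closedBall.mem_of_tendsto hz₀
          (Eventually.of_forall fun n => ball_subset_closedBall (hzW (φ n)).1)
      rcases hcase with ⟨hz₀c, rfl⟩ | ⟨h, hh, hzh, hwS⟩
      · rcases (mem_closedBall_iff_norm.1 hz₀b).lt_or_eq with h1 | h1
        · exact Or.inl ⟨z₀, ⟨mem_ball_iff_norm.2 h1, hz₀c⟩, rfl⟩
        · exfalso
          have h2 := hb z₀ hz₀c h1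
          have h3 : b + 2 * M * ω < σ * nrm α (G z₀) := hwP
          have h4 : 0 ≤ 2 * M * ω := by positivity
          linarith
      · by_cases hsub : h.1 ⊆ ball ζ ρ
        · exact Or.inr (mem_iUnion₂.2 ⟨h, ⟨hh, hsub⟩, hwS⟩)
        · exfalso
          obtain ⟨y, y₀, hy₀, hylim, hy⟩ := k3_circle hc hρ hh hzh hz₀b hsub
            (fun hcon => (hzW 0).2 (subset_un hh hcon)) (hzW 0).1
          have hyM : ∀ n, G (y n) ∈ closedBall (0 : ℂ) M := fun n =>
            mem_closedBall_zero_iff.2 (hM (y n) (hy n).1 (hy n).2.le)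
          obtain ⟨v, hvM, ψ, hψ, hvlim⟩ := (isCompact_closedBall (0 : ℂ) M).tendsto_subseq hyM
          have hvS : v ∈ S h := by
            refine v5_mem_of_tendsto_nhdsSet (hG.compactS hh).isClosed
              ((hG.toS h hh).comp (tendsto_inf.2 ⟨?_, ?_⟩)) hvlim
            · exact (hylim.comp hψ.tendsto_atTop).mono_right (nhds_le_nhdsSet hy₀)
            · exact tendsto_principal.2 (Eventually.of_forall fun n => (hy (ψ n)).1)
          have hvb : σ * nrm α v ≤ b := by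
            refine le_of_tendsto (((k3_continuous σ α).tendsto v).comp hvlim)
              (Eventually.of_forall fun n => ?_)
            exact hb (y (ψ n)) (hy (ψ n)).1 (hy (ψ n)).2
          obtain ⟨p, ℓ, -, hS⟩ := hG.isSeg h hh
          rw [hS] at hwS hvS
          obtain ⟨t₁, -, ht₁⟩ := hvS
          obtain ⟨t₂, -, ht₂⟩ := hwS
          have hdiff : w - v = ((t₂ - t₁ : ℝ) : ℂ) * exp (((h.2 - 0 : ℝ) : ℂ) * I) := by
            rw [← ht₁, ← ht₂]
            push_cast
            ring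
          have hn : |t₂ - t₁| ≤ 2 * M := by
            have h1 : ‖w - v‖ = |t₂ - t₁| := by
              rw [hdiff, norm_mul, Complex.norm_exp_ofReal_mul_I, mul_one, Complex.norm_real,
                Real.norm_eq_abs]
            rw [← h1]
            have h2 : ‖v‖ ≤ M := mem_closedBall_zero_iff.1 hvM
            linarith [norm_sub_le w v]
          have hnrm : nrm α w - nrm α v = (t₂ - t₁) * Real.sin (h.2 - 0 - α) := by
            rw [← nrm_sub, hdiff, k3_nrm_dir]
          have hsin : |Real.sin (h.2 - 0 - α)| ≤ ω := by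
            refine (Real.abs_sin_le_abs).trans ?_
            rw [sub_zero, abs_sub_comm]
            exact hω h hh ⟨z₀, hzh, hz₀b⟩
          have h5 : |σ * (nrm α w - nrm α v)| ≤ 2 * M * ω := by
            rw [hnrm, abs_mul, abs_mul, hσa, one_mul]
            exact mul_le_mul hn hsin (abs_nonneg _) (by positivity)
          have h6 := (le_abs_self _).trans h5
          have h7 : b + 2 * M * ω < σ * nrm α w := hwP
          nlinarith [h6, h7, hvb]
    · exact Or.inr hw
  have hsubP : P ⊆ fillImg c G S (ball ζ ρ) := by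
    refine hPc.subset_of_closure_inter_subset (k3_isOpen hc hG isOpen_ball) ?_ hrel
    exact ⟨G z', hcon, Or.inl ⟨z', ⟨mem_ball_iff_norm.2 hz', hz'c⟩, rfl⟩⟩
  have hbdd : Bornology.IsBounded (fillImg c G S (ball ζ ρ)) := by
    unfold fillImg
    refine Bornology.IsBounded.union ?_ ?_
    · refine isBounded_closedBall.subset (t := closedBall (0 : ℂ) M) ?_
      rintro _ ⟨z, hz, rfl⟩
      exact mem_closedBall_zero_iff.2 (hM z hz.2 (mem_ball_iff_norm.1 hz.1).le)
    · exact (Bornology.isBounded_biUnion hfin).2 fun h hh => (hG.compactS hh.1).isBounded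
  obtain ⟨R, hR⟩ := hbdd.subset_closedBall (0 : ℂ)
  set s : ℝ := max R (b + 2 * M * ω) + 1 with hs
  have hs1 : R < s := by
    have := le_max_left R (b + 2 * M * ω)
    linarith
  have hs2 : b + 2 * M * ω < s := by
    have := le_max_right R (b + 2 * M * ω)
    linarith
  have hmem : (((σ * s : ℝ) : ℂ) * (I * exp (α * I))) ∈ P := by
    change b + 2 * M * ω < σ * nrm α _
    rw [v5_nrm_exp_I, ← mul_assoc, hσ2, one_mul]
    exact hs2
  have hle := mem_closedBall_zero_iff.1 (hR (hsubP hmem))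
  rw [norm_mul, norm_mul, Complex.norm_I, Complex.norm_exp_ofReal_mul_I, Complex.norm_real,
    Real.norm_eq_abs, abs_mul, hσa] at hle
  have := le_abs_self s
  linarith

theorem disc_upper (hc : Valid c) (hG : SMap 0 c G S) (hρ : 0 < ρ) (hω0 : 0 ≤ ω)
    (hM : ∀ z ∉ un c, ‖z - ζ‖ ≤ ρ → ‖G z‖ ≤ M)
    (hω : ∀ h ∈ c, (h.1 ∩ closedBall ζ ρ).Nonempty → |α - h.2| ≤ ω)
    (hb : ∀ z ∉ un c, ‖z - ζ‖ = ρ → nrm α (G z) ≤ b) :
    ∀ z ∉ un c, ‖z - ζ‖ < ρ → nrm α (G z) ≤ b + 2 * M * ω := by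
  intro z hz hz'
  have := k3_aux (σ := 1) (Or.inl rfl) hc hG hρ hω0 hM hω
    (fun z hz hz' => by rw [one_mul]; exact hb z hz hz') z hz hz'
  rwa [one_mul] at this

theorem disc_lower (hc : Valid c) (hG : SMap 0 c G S) (hρ : 0 < ρ) (hω0 : 0 ≤ ω)
    (hM : ∀ z ∉ un c, ‖z - ζ‖ ≤ ρ → ‖G z‖ ≤ M)
    (hω : ∀ h ∈ c, (h.1 ∩ closedBall ζ ρ).Nonempty → |α - h.2| ≤ ω)
    (hb : ∀ z ∉ un c, ‖z - ζ‖ = ρ → b ≤ nrm α (G z)) :
    ∀ z ∉ un c, ‖z - ζ‖ < ρ → b - 2 * M * ω ≤ nrm α (G z) := by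
  intro z hz hz'
  have := k3_aux (σ := -1) (b := -b) (Or.inr rfl) hc hG hρ hω0 hM hω
    (fun z hz hz' => by linarith [hb z hz hz']) z hz hz'
  linarith

end RSM2
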