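import Pool.Agent.RSM2.K1
import Pool.Agent.RSM2.K2
import Pool.Agent.RSM2.K3
import Pool.Agent.RSM2.V3
import Pool.Agent.RSM2.V6
import Pool.Agent.RSM2.V8

/-!
# RSM2 module K4: small oscillation near a good point, uniformly in the configuration

`E` compact, `θ` continuous on `E`, constant on components; `A` a clopen piece of `E`, `ζ ∈ A` a good
point; the configurations `c` consist of components of `E` contained in `A`, with the right angles,
and the environment `e` is off the open set `V ⊇ A`, `V` disjoint from `E \ A` or not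
(only the holes matter).

PROOF.  Let `M = ‖ζ‖ + 1 + 4 (R + 1)`: `‖G z‖ ≤ M` for `z ∉ un (c ∪ e)`, `‖z - ζ‖ ≤ 1` (`Sol.bound`).
Choose `ω = η > 0` and `κ' > 0` with `2 κ' + 4M(ω + η) + 4Mω ≤ κ`.  Choose `r₁ ∈ (0, 1)` with
`closedBall ζ r₁ ⊆ V`, `closedBall ζ r₁` disjoint from the compact set `E \ A`, and
`|θ z - θ ζ| ≤ ω` for `z ∈ E ∩ closedBall ζ r₁` (continuity).  By `GoodAt.exists_r₀`
there is `r₀ ∈ (0, r₁)` with
`∫⁻ over goodRadii E θ ζ η ∩ (r₀, r₁) of 1/ρ > 2π² M²/κ'²`.  Let `c`, `e`, `G` be given, `C = c ∪ e`,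
`D = (un C)ᶜ`.  `exists_radius` gives `ρ ∈ goodRadii E θ ζ η ∩ (r₀, r₁)` with
`∫⁻ ‖G'‖ ρ ≤ κ'` over the part of the circle in `D`.  Holes of `C` which meet `closedBall ζ r₁ ⊆ V`
belong to `c`, and `h.2 = θ x = θ z` for every `z ∈ h.1 = connectedComponentIn E x` (constancy), in
particular `|θ ζ - h.2| ≤ ω`.  They are nontrivial components (`Valid.nontriv`), so the points of
the circle in `un C` are in `ntPart E`, and the variation of `θ` on them is at most `η`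
(`eVariationOn.mono`).  `circle_bound` (with `Θ = θ`, `α = θ ζ`, `V = η`, `L = κ'`) gives that
`nrm (θ ζ) ∘ G` varies on the circle minus `un C` by at most `κ' + 2M(ω + η)`; `disc_upper`,
`disc_lower` (with the `SMap` of V3, `θ₀ = 0`: `exp (-0 I) * G z = G z`) then give that it varies by
at most `κ` on `ball ζ ρ \ un C ⊇ ball ζ r₀ \ un C`: compare with the value at one point of the circle
outside of `un C`; there is such a point since `(un C)ᶜ` is connected and unbounded.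
-/

open Complex Set Metric Filter Topology MeasureTheory

namespace RSM2

open Classical in
theorem base_osc {E : Set ℂ} (hE : IsCompact E) {θ : ℂ → ℝ} (hθ : ContinuousOn θ E)
    (hconst : ∀ x ∈ E, ∀ y ∈ connectedComponentIn E x, θ y = θ x) {A : Set ℂ} (hAE : A ⊆ E)
    (hA : IsCompact A) (hEA : IsCompact (E \ A)) {ζ : ℂ} (hζ : ζ ∈ A) (hgood : GoodAt E θ ζ)
    {V : Set ℂ} (hV : IsOpen V) (hAV : A ⊆ V) (R : ℝ) {κ : ℝ} (hκ : 0 < κ) :
    ∃ r₀ > 0, ball ζ r₀ ⊆ V ∧ ∀ (c e : Cfg) (G : ℂ → ℂ),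
      (∀ h ∈ c, ∃ x ∈ A, h.1 = connectedComponentIn E x ∧ h.2 = θ x) →
      (∀ h ∈ e, Disjoint h.1 V) → Valid (c ∪ e) → Sol (c ∪ e) G →
      un (c ∪ e) ⊆ closedBall 0 R → ∀ z w : ℂ, z ∈ ball ζ r₀ → w ∈ ball ζ r₀ →
      z ∉ un (c ∪ e) → w ∉ un (c ∪ e) →
      |nrm (θ ζ) (G z) - nrm (θ ζ) (G w)| ≤ κ := by
  set R' : ℝ := max R 0 + 1 with hR'
  have hR'0 : 0 < R' := by
    have := le_max_right R 0
    linarith
  have hRR' : R ≤ R' := by
    have := le_max_left R 0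
    linarith
  set M : ℝ := ‖ζ‖ + 1 + 4 * R' with hMdef
  have hM0 : 0 < M := by
    have := norm_nonneg ζ
    linarith
  set κ' : ℝ := κ / 4 with hκ'
  have hκ'0 : 0 < κ' := by positivity
  set ω : ℝ := κ / (24 * M) with hω
  have hω0 : 0 < ω := by positivity
  have hMω : M * ω = κ / 24 := by
    rw [hω]
    field_simp
  -- the radius `r₁`
  have hev : ∀ᶠ z in 𝓝 ζ, z ∈ V ∧ (z ∈ E → |θ z - θ ζ| ≤ ω) := by
    have h1 : ∀ᶠ z in 𝓝 ζ, z ∈ V := hV.mem_nhds (hAV hζ)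
    have h2 : ∀ᶠ z in 𝓝[E] ζ, |θ z - θ ζ| ≤ ω := by
      have h3 : Tendsto (fun z => |θ z - θ ζ|) (𝓝[E] ζ) (𝓝 |θ ζ - θ ζ|) :=
        ((hθ ζ (hAE hζ)).sub_const (θ ζ)).abs
      rw [sub_self, abs_zero] at h3
      exact h3.eventually_le_const hω0
    rw [eventually_nhdsWithin_iff] at h2
    exact h1.and h2
  obtain ⟨ε, hε, hεb⟩ := Metric.nhds_basis_closedBall.eventually_iff.1 hev
  set r₁ : ℝ := min ε (1 / 2) with hr₁
  have hr₁0 : 0 < r₁ := lt_min hε (by norm_num)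
  have hr₁1 : r₁ < 1 := lt_of_le_of_lt (min_le_right _ _) (by norm_num)
  have hr₁V : ∀ z, ‖z - ζ‖ ≤ r₁ → z ∈ V ∧ (z ∈ E → |θ z - θ ζ| ≤ ω) := fun z hz =>
    hεb (mem_closedBall_iff_norm.2 (hz.trans (min_le_left _ _)))
  obtain ⟨r₀, hr₀, hr₀₁, hint⟩ := hgood.exists_r₀ hω0 hr₁0 (2 * Real.pi ^ 2 * M ^ 2 / κ' ^ 2)
  refine ⟨r₀, hr₀, ?_, ?_⟩
  · intro z hz
    exact (hr₁V z ((mem_ball_iff_norm.1 hz).le.trans hr₀₁.le)).1
  intro c e G hcA heV hval hG hun z w hz hw hzc hwc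
  set C : Cfg := c ∪ e with hC
  have hbound : ∀ z ∉ un C, ‖z - ζ‖ ≤ 1 → ‖G z‖ ≤ M := by
    intro z hz hz1
    have h1 := hG.bound hR'0 (hun.trans (closedBall_subset_closedBall hRR')) hz
    have h2 : ‖z‖ ≤ ‖z - ζ‖ + ‖ζ‖ := by
      have := norm_add_le (z - ζ) ζ
      rwa [sub_add_cancel] at this
    linarith
  obtain ⟨ρ, ⟨hρgood, hρ0, hρ1⟩, hlen⟩ := exists_radius hval.isOpen hG.diff hG.inj hr₀ hr₀₁ hκ'0
    (fun z hz hz1 => hbound z hz (hz1.le.trans hr₁1.le)) hint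
  have hρpos : 0 < ρ := hr₀.trans hρ0
  -- holes which meet the disc
  have hhole : ∀ h ∈ C, ∀ z ∈ h.1, ‖z - ζ‖ ≤ r₁ →
      z ∈ E ∧ h.1 = connectedComponentIn E z ∧ h.2 = θ z := by
    intro h hh z hz hz1
    have hzV := (hr₁V z hz1).1
    rcases Finset.mem_union.1 hh with hh | hh
    · obtain ⟨x, hxA, h1, h2⟩ := hcA h hh
      have hzx : z ∈ connectedComponentIn E x := h1 ▸ hz
      refine ⟨connectedComponentIn_subset E x hzx, ?_, ?_⟩
      · rw [h1, connectedComponentIn_eq hzx]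
      · rw [h2, hconst x (hAE hxA) z hzx]
    · exact absurd hzV (Set.disjoint_left.1 (heV h hh) hz)
  have hdir : ∀ h ∈ C, ∀ z ∈ h.1, ‖z - ζ‖ ≤ r₁ → |θ ζ - h.2| ≤ ω := by
    intro h hh z hz hz1
    obtain ⟨h1, -, h3⟩ := hhole h hh z hz hz1
    rw [h3, abs_sub_comm]
    exact (hr₁V z hz1).2 h1
  have hcirc : ∀ z w : ℂ, ‖z - ζ‖ = ρ → ‖w - ζ‖ = ρ → z ∉ un C → w ∉ un C →
      |nrm (θ ζ) (G z) - nrm (θ ζ) (G w)| ≤ κ' + 2 * M * (ω + ω) := by
    intro z w hz hw hzc hwc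
    refine circle_bound hval hG hρpos (M := M) (fun z hz hz1 => hbound z hz ?_) (Θ := θ) ?_
      hω0.le hκ'0.le hω0.le ?_ ?_ hlen hz hw hzc hwc
    · rw [hz1]
      exact (hρ1.trans hr₁1).le
    · intro h hh z hz hz1
      exact (hhole h hh z hz (hz1 ▸ hρ1.le)).2.2
    · refine le_trans (eVariationOn.mono _ ?_) hρgood
      rintro t ⟨ht, htc⟩
      obtain ⟨h, hh, hth⟩ := mem_un.1 htc
      have hn : ‖circleMap ζ ρ t - ζ‖ ≤ r₁ := by
        rw [circleMap_sub_center, norm_circleMap_zero, abs_of_pos hρpos]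
        exact hρ1.le
      obtain ⟨h1, h2, -⟩ := hhole h hh _ hth hn
      refine ⟨ht, h1, ?_⟩
      rw [← h2]
      exact hval.nontriv h hh
    · rintro h hh ⟨z, hz, hzs⟩
      have hn : ‖z - ζ‖ ≤ r₁ := by
        rw [mem_sphere_iff_norm.1 hzs]
        exact hρ1.le
      exact hdir h hh z hz hn
  -- a point of the circle outside of the holes
  obtain ⟨p, hpc, hp⟩ : ∃ p, p ∉ un C ∧ ‖p - ζ‖ = ρ := by
    have hconn : IsPreconnected (un C)ᶜ := hval.isConnected.isPreconnected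
    have h1 : ((un C)ᶜ ∩ ball ζ ρ).Nonempty :=
      ⟨z, hzc, ball_subset_ball hρ0.le hz⟩
    by_contra hcon
    push Not at hcon
    have hsub : (un C)ᶜ ⊆ ball ζ ρ := by
      refine hconn.subset_of_closure_inter_subset isOpen_ball h1 ?_
      rintro x ⟨hx1, hx2⟩
      rw [closure_ball ζ hρpos.ne', mem_closedBall_iff_norm] at hx1
      rw [mem_ball_iff_norm]
      exact lt_of_le_of_ne hx1 (hcon x hx2)
    have hbd : Bornology.IsBounded (univ : Set ℂ) := by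
      refine (hval.isCompact.isBounded.union (isBounded_ball (x := ζ) (r := ρ))).subset ?_
      intro x _
      by_cases hx : x ∈ un C
      · exact Or.inl hx
      · exact Or.inr (hsub hx)
    exact NormedSpace.unbounded_univ ℝ ℂ hbd
  obtain ⟨S, hS⟩ := exists_smap hval hG 0
  have hGe : (fun z => exp (-((0 : ℝ) : ℂ) * I) * G z) = G := by
    funext z
    simp
  rw [hGe] at hS
  have hMd : ∀ z ∉ un C, ‖z - ζ‖ ≤ ρ → ‖G z‖ ≤ M := fun z hz hz1 =>
    hbound z hz (hz1.trans (hρ1.trans hr₁1).le)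
  have hωd : ∀ h ∈ C, (h.1 ∩ closedBall ζ ρ).Nonempty → |θ ζ - h.2| ≤ ω := by
    rintro h hh ⟨z, hz, hzb⟩
    exact hdir h hh z hz ((mem_closedBall_iff_norm.1 hzb).trans hρ1.le)
  have hup := disc_upper hval hS hρpos hω0.le hMd hωd
    (b := nrm (θ ζ) (G p) + (κ' + 2 * M * (ω + ω))) (fun z hz hz1 => by
      have := (abs_le.1 (hcirc z p hz1 hp hz hpc)).2
      linarith)
  have hlow := disc_lower hval hS hρpos hω0.le hMd hωd
    (b := nrm (θ ζ) (G p) - (κ' + 2 * M * (ω + ω))) (fun z hz hz1 => by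
      have := (abs_le.1 (hcirc z p hz1 hp hz hpc)).1
      linarith)
  have hzr : ‖z - ζ‖ < ρ := (mem_ball_iff_norm.1 hz).trans hρ0
  have hwr : ‖w - ζ‖ < ρ := (mem_ball_iff_norm.1 hw).trans hρ0
  have a1 := hup z hzc hzr
  have a2 := hup w hwc hwr
  have a3 := hlow z hzc hzr
  have a4 := hlow w hwc hwr
  have hk : κ' = κ / 4 := hκ'
  rw [abs_le]
  constructor <;> nlinarith [hMω, a1, a2, a3, a4, hk]

end RSM2
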