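import Pool.Agent.RSM2.K4
import Pool.Agent.RSM2.Law

/-!
# RSM2 module K5: the good law of a piece all of whose points are good

CONSTRUCTION.  Let `𝒩` be the set of the nontrivial components of `E` which are contained in `A` (as
sets: `{K | ∃ x ∈ A, K = connectedComponentIn E x ∧ K.Nontrivial}`).  For a finite set `s` of elements
of `𝒩` (`s : Finset 𝒩`) let `toCfg s` be the configuration of the pairs `(K, θ_K)`, `K ∈ s`, where
`θ_K = θ x` for any `x ∈ K`.  `p = Ultrafilter.of (map toCfg atTop)` (`Finset 𝒩` is directed, nonempty).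
So the following holds for `p`-almost all `c`: `c = toCfg s` for some `s`; and for every fixed
`K ∈ 𝒩`, `(K, θ_K) ∈ c`.
`valid`: components of `E` are compact, connected, with connected complement (`compl_component`),
nontrivial, distinct components are disjoint.  `loc`, `ang`: clear (`K ⊆ A`).
`good`: let `r, c, e, G, f, V, R` be as in the definition; `c i` satisfies the above for `r`-almost
all `i`.  Let `x ∈ A`, `K = connectedComponentIn A x = connectedComponentIn E x`
(`component_clopen`), `α = θ x = θ ζ` for `ζ ∈ K`.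
(1) Let `κ > 0`, `ζ ∈ K`, `r₀(ζ)` from `base_osc` (all points of `A` are good).  For
`z, w ∈ ball ζ r₀ ∩ (V \ A)`: for `r`-almost all `i`, `z, w ∉ un (c i ∪ e i)` (`un (c i) ⊆ A`,
`e i` off `V`), `|nrm α (G i z) - nrm α (G i w)| ≤ κ`, so in the limit
`|nrm α (f z) - nrm α (f w)| ≤ κ` (`TendstoUniformlyOn` on the compact set `{z, w} ⊆ V \ A`).
(2) If `K` is trivial, `K = {x}`, this says that `nrm α ∘ f` is Cauchy along `nearIn (V \ A) K`
(`𝓝ˢ {x} = 𝓝 x`), so it converges (or the filter is `⊥`).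
(3) If `K` is nontrivial: for `r`-almost all `i`, `(K, α) ∈ c i`, so `nrm α (G i) → q i` at `K`
along `nearIn (un (c i ∪ e i))ᶜ K`.  Let `ζ ∈ K`, `z ∈ ball ζ r₀ ∩ (V \ A)`.  Then
`|nrm α (G i z) - q i| ≤ κ` for `r`-almost all `i`: the ball is connected, contains `ζ ∈ K` and
`z ∉ K`, so it contains a point of `frontier K`, and hence points `w ∉ un (c i ∪ e i)` arbitrarily
close to `K` (the other holes have a positive distance from `K`); `nrm α (G i w) → q i` and
`|nrm α (G i z) - nrm α (G i w)| ≤ κ`.  So for `z ∈ ball ζ r₀(ζ)`, `z' ∈ ball ζ' r₀(ζ')`, both in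
`V \ A`, `|nrm α (f z) - nrm α (f z')| ≤ 2κ`.  The union over `ζ ∈ K` of these balls is an open
neighbourhood of `K`, so `nrm α ∘ f` is Cauchy along `nearIn (V \ A) K`.
-/

open Complex Set Metric Filter Topology MeasureTheory

namespace RSM2

theorem k5_continuous_nrm (φ : ℝ) : Continuous (nrm φ) := by
  unfold nrm
  exact Complex.continuous_im.comp (continuous_const.mul continuous_id)

/-- In a ball which meets the hole `K` and is not contained in it there are points of the domain
arbitrarily close to `K`. -/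
theorem k5_neBot {C : Cfg} (hC : Valid C) {K : Set ℂ} {α : ℝ} (hK : (K, α) ∈ C) {ζ z : ℂ} {r : ℝ}
    (hζK : ζ ∈ K) (hr : 0 < r) (hz : z ∈ ball ζ r) (hzK : z ∉ K) :
    (nearIn (un C)ᶜ K ⊓ 𝓟 (ball ζ r)).NeBot := by
  classical
  rw [← forall_mem_nonempty_iff_neBot]
  intro t ht
  rw [mem_inf_principal, mem_nearIn] at ht
  obtain ⟨U, hU, hKU, hsub⟩ := ht
  by_contra hne
  rw [Set.not_nonempty_iff_eq_empty] at hne
  set D : Cfg := C.filter (fun h => h.1 ≠ K) with hD
  have hDC : D ⊆ C := Finset.filter_subset _ _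
  have hDclosed : IsClosed (un D) := (hC.mono hDC).isCompact.isClosed
  have hdisj : ∀ k ∈ K, k ∉ un D := by
    intro k hk hkD
    rw [mem_un] at hkD
    obtain ⟨h, hh, hkh⟩ := hkD
    rw [hD, Finset.mem_filter] at hh
    have h1 : (K, α) ≠ h := fun h2 => hh.2 (by rw [← h2])
    exact Set.disjoint_left.1 (hC.disj _ hK _ hh.1 h1) hk hkh
  have hsubU : U ∩ ball ζ r ⊆ K ∪ un D := by
    rintro w ⟨hwU, hwB⟩
    by_contra hw
    have hwC : w ∈ (un C)ᶜ := by
      intro hwC
      rw [mem_un] at hwC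
      obtain ⟨h, hh, hwh⟩ := hwC
      by_cases hhK : h.1 = K
      · exact hw (Or.inl (hhK ▸ hwh))
      · exact hw (Or.inr (mem_un.2 ⟨h, Finset.mem_filter.2 ⟨hh, hhK⟩, hwh⟩))
    have h2 : w ∈ t := hsub ⟨hwU, hwC⟩ hwB
    rw [hne] at h2
    exact h2
  have hcov : ball ζ r ⊆ interior K ∪ Kᶜ := by
    intro k hk
    by_cases hkK : k ∈ K
    · left
      rw [mem_interior_iff_mem_nhds]
      have h1 : U ∩ ball ζ r ∩ (un D)ᶜ ∈ 𝓝 k :=
        ((hU.inter isOpen_ball).inter hDclosed.isOpen_compl).mem_nhds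
          ⟨⟨hKU hkK, hk⟩, hdisj k hkK⟩
      filter_upwards [h1] with w hw
      rcases hsubU hw.1 with h | h
      · exact h
      · exact absurd h hw.2
    · exact Or.inr hkK
  have hKclosed : IsClosed K := (hC.compact _ hK).isClosed
  have hball : ball ζ r ⊆ interior K := by
    refine IsPreconnected.subset_left_of_subset_union isOpen_interior hKclosed.isOpen_compl
      ?_ hcov ?_ (convex_ball ζ r).isPreconnected
    · exact Set.disjoint_left.2 fun w hw hw' => hw' (interior_subset hw)
    · have hζB : ζ ∈ ball ζ r := mem_ball_self hr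
      refine ⟨ζ, hζB, ?_⟩
      rcases hcov hζB with h | h
      · exact h
      · exact absurd hζK h
  exact hzK (interior_subset (hball hz))

/-- The set of the nontrivial components of `E` which meet `A`. -/
def k5N (E A : Set ℂ) : Set (Set ℂ) :=
  {K | ∃ x ∈ A, K = connectedComponentIn E x ∧ K.Nontrivial}

open Classical in
/-- The angle of a component. -/
noncomputable def k5ang (E A : Set ℂ) (θ : ℂ → ℝ) (K : Set ℂ) : ℝ :=
  if h : ∃ x ∈ A, K = connectedComponentIn E x then θ h.choose else 0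

open Classical in
/-- The configuration of a finite set of components. -/
noncomputable def k5cfg (E A : Set ℂ) (θ : ℂ → ℝ) (s : Finset (k5N E A)) : Cfg :=
  Finset.image (fun K : k5N E A => ((K : Set ℂ), k5ang E A θ (K : Set ℂ))) s

theorem k5_mem {E A : Set ℂ} {θ : ℂ → ℝ} {s : Finset (k5N E A)} {h : Set ℂ × ℝ} :
    h ∈ k5cfg E A θ s ↔ ∃ K ∈ s, ((K : Set ℂ), k5ang E A θ K) = h := by
  classical
  unfold k5cfg
  rw [Finset.mem_image]

theorem k5_ang {E A : Set ℂ} {θ : ℂ → ℝ} (hAE : A ⊆ E)
    (hconst : ∀ x ∈ E, ∀ y ∈ connectedComponentIn E x, θ y = θ x) {x : ℂ} (hx : x ∈ A) :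
    k5ang E A θ (connectedComponentIn E x) = θ x := by
  classical
  unfold k5ang
  have h : ∃ x' ∈ A, connectedComponentIn E x = connectedComponentIn E x' := ⟨x, hx, rfl⟩
  rw [dif_pos h]
  have h1 := h.choose_spec
  have h2 : h.choose ∈ connectedComponentIn E h.choose := mem_connectedComponentIn (hAE h1.1)
  rw [← h1.2] at h2
  exact hconst x (hAE hx) _ h2

theorem k5_spec {E A : Set ℂ} {θ : ℂ → ℝ} (hAE : A ⊆ E)
    (hconst : ∀ x ∈ E, ∀ y ∈ connectedComponentIn E x, θ y = θ x) {s : Finset (k5N E A)}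
    {h : Set ℂ × ℝ} (hh : h ∈ k5cfg E A θ s) :
    ∃ x ∈ A, h.1 = connectedComponentIn E x ∧ h.2 = θ x ∧ h.1.Nontrivial := by
  obtain ⟨⟨K, x, hx, hKx, hKn⟩, _, rfl⟩ := k5_mem.1 hh
  refine ⟨x, hx, hKx, ?_, hKn⟩
  simp only
  rw [hKx]
  exact k5_ang hAE hconst hx

theorem k5_valid {E : Set ℂ} (hE : IsCompact E) (hcon : IsConnected Eᶜ) {θ : ℂ → ℝ}
    (hconst : ∀ x ∈ E, ∀ y ∈ connectedComponentIn E x, θ y = θ x)
    {A : Set ℂ} (hAE : A ⊆ E) (s : Finset (k5N E A)) : Valid (k5cfg E A θ s) where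
  compact h hh := by
    obtain ⟨x, hx, h1, _, _⟩ := k5_spec hAE hconst hh
    rw [h1]
    exact RSM.isCompact_component hE x
  conn h hh := by
    obtain ⟨x, hx, h1, _, _⟩ := k5_spec hAE hconst hh
    rw [h1]
    exact isConnected_connectedComponentIn_iff.2 (hAE hx)
  nontriv h hh := by
    obtain ⟨x, hx, h1, _, h3⟩ := k5_spec hAE hconst hh
    exact h3
  compl h hh := by
    obtain ⟨x, hx, h1, _, _⟩ := k5_spec hAE hconst hh
    rw [h1]
    exact compl_component hE hcon (hAE hx)
  disj h hh h' hh' hne := by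
    obtain ⟨x, hx, h1, h2, _⟩ := k5_spec hAE hconst hh
    obtain ⟨x', hx', h1', h2', _⟩ := k5_spec hAE hconst hh'
    rw [Set.disjoint_left]
    intro w hw hw'
    apply hne
    rw [h1] at hw
    rw [h1'] at hw'
    have h3 : connectedComponentIn E x = connectedComponentIn E x' := by
      rw [connectedComponentIn_eq hw, connectedComponentIn_eq hw']
    have h4 : θ x = θ x' := by
      rw [← hconst x (hAE hx) w hw, ← hconst x' (hAE hx') w hw']
    exact Prod.ext (by rw [h1, h1', h3]) (by rw [h2, h2', h4])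

theorem good_base {E : Set ℂ} (hE : IsCompact E) (hcon : IsConnected Eᶜ) {θ : ℂ → ℝ}
    (hθ : ContinuousOn θ E) (hconst : ∀ x ∈ E, ∀ y ∈ connectedComponentIn E x, θ y = θ x)
    {A : Set ℂ} (hAE : A ⊆ E) (hA : IsCompact A) (hEA : IsCompact (E \ A))
    (hgood : ∀ ζ ∈ A, GoodAt E θ ζ) : ∃ p : Ultrafilter Cfg, GoodLaw θ A p := by
  classical
  set F : Filter Cfg := map (k5cfg E A θ) (atTop : Filter (Finset (k5N E A))) with hF
  have : F.NeBot := map_neBot
  have hple : ((Ultrafilter.of F : Ultrafilter Cfg) : Filter Cfg) ≤ F := Ultrafilter.of_le F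
  have hrange : ∀ᶠ c in ((Ultrafilter.of F : Ultrafilter Cfg) : Filter Cfg),
      ∃ s, c = k5cfg E A θ s := by
    apply hple
    exact Filter.mem_map.2 (univ_mem' fun s => ⟨s, rfl⟩)
  have hin : ∀ x ∈ A, (connectedComponentIn E x).Nontrivial →
      ∀ᶠ c in ((Ultrafilter.of F : Ultrafilter Cfg) : Filter Cfg),
        (connectedComponentIn E x, θ x) ∈ c := by
    intro x hx hnt
    apply hple
    rw [hF, Filter.mem_map]
    have h1 : ∀ᶠ s : Finset (k5N E A) in atTop,
        (⟨connectedComponentIn E x, x, hx, rfl, hnt⟩ : k5N E A) ∈ s := by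
      filter_upwards [eventually_ge_atTop
        ({(⟨connectedComponentIn E x, x, hx, rfl, hnt⟩ : k5N E A)} : Finset (k5N E A))] with s hs
      exact hs (Finset.mem_singleton_self _)
    filter_upwards [h1] with s hs
    exact k5_mem.2 ⟨_, hs, Prod.ext rfl (k5_ang hAE hconst hx)⟩
  have hcompA : ∀ x ∈ A, connectedComponentIn E x ⊆ A := by
    intro x hx
    rw [← component_clopen hA hAE hEA hx]
    exact connectedComponentIn_subset A x
  have hunA : ∀ s, un (k5cfg E A θ s) ⊆ A := by
    intro s z hz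
    rw [mem_un] at hz
    obtain ⟨h, hh, hzh⟩ := hz
    obtain ⟨x, hx, h1, _, _⟩ := k5_spec hAE hconst hh
    rw [h1] at hzh
    exact hcompA x hx hzh
  refine ⟨Ultrafilter.of F, ?_, ?_, ?_, ?_⟩
  · filter_upwards [hrange] with c hc
    obtain ⟨s, rfl⟩ := hc
    exact k5_valid hE hcon hconst hAE s
  · intro U _ hAU
    filter_upwards [hrange] with c hc
    obtain ⟨s, rfl⟩ := hc
    exact (hunA s).trans hAU
  · filter_upwards [hrange] with c hc
    obtain ⟨s, rfl⟩ := hc
    intro h hh
    obtain ⟨x, hx, h1, h2, _⟩ := k5_spec hAE hconst hh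
    exact ⟨x, ⟨h1 ▸ mem_connectedComponentIn (hAE hx), hx⟩, h2⟩
  · intro ι r c e G f V R hV hAV hmap hev hunif x hx
    have hpull : ∀ P : Cfg → Prop,
        (∀ᶠ c in ((Ultrafilter.of F : Ultrafilter Cfg) : Filter Cfg), P c) →
        ∀ᶠ i in (r : Filter ι), P (c i) := by
      intro P hP
      rw [← hmap] at hP
      exact hP
    have hrange' := hpull _ hrange
    have hKE : connectedComponentIn A x = connectedComponentIn E x :=
      component_clopen hA hAE hEA hx
    have hKA : connectedComponentIn A x ⊆ A := connectedComponentIn_subset A x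
    have hxK : x ∈ connectedComponentIn A x := mem_connectedComponentIn hx
    have hθK : ∀ ζ ∈ connectedComponentIn A x, θ ζ = θ x := by
      intro ζ hζ
      rw [hKE] at hζ
      exact hconst x (hAE hx) ζ hζ
    -- points off `A` are off the holes
    have hoff : ∀ z ∈ V \ A, ∀ᶠ i in (r : Filter ι), z ∉ un (c i ∪ e i) := by
      intro z hz
      filter_upwards [hrange', hev] with i hi hi' hzun
      obtain ⟨s, hs⟩ := hi
      rw [un_union] at hzun
      rcases hzun with h | h
      · rw [hs] at h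
        exact hz.2 (hunA s h)
      · rw [mem_un] at h
        obtain ⟨h, hh, hzh⟩ := h
        exact Set.disjoint_left.1 (hi'.1 h hh) hzh hz.1
    have hlim : ∀ z ∈ V \ A, Tendsto (fun i => nrm (θ x) (G i z)) (r : Filter ι)
        (𝓝 (nrm (θ x) (f z))) := by
      intro z hz
      have h1 := hunif {z} (singleton_subset_iff.2 hz) isCompact_singleton
      have h2 := h1.tendsto_at (mem_singleton z)
      exact ((k5_continuous_nrm (θ x)).tendsto _).comp h2
    -- the oscillation estimate
    have hosc : ∀ κ > 0, ∀ ζ ∈ connectedComponentIn A x, ∃ r₀ > 0, ball ζ r₀ ⊆ V ∧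
        ∀ᶠ i in (r : Filter ι), ∀ z w : ℂ, z ∈ ball ζ r₀ → w ∈ ball ζ r₀ →
          z ∉ un (c i ∪ e i) → w ∉ un (c i ∪ e i) →
          |nrm (θ x) (G i z) - nrm (θ x) (G i w)| ≤ κ := by
      intro κ hκ ζ hζ
      obtain ⟨r₀, hr₀, hb, hest⟩ := base_osc hE hθ hconst hAE hA hEA (hKA hζ)
        (hgood ζ (hKA hζ)) hV hAV R hκ
      refine ⟨r₀, hr₀, hb, ?_⟩
      filter_upwards [hrange', hev] with i hi hi' z w hz hw hzu hwu
      obtain ⟨s, hs⟩ := hi
      have h1 := hest (c i) (e i) (G i) (by
        intro h hh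
        rw [hs] at hh
        obtain ⟨x', hx', h1, h2, _⟩ := k5_spec hAE hconst hh
        exact ⟨x', hx', h1, h2⟩) hi'.1 hi'.2.1 hi'.2.2.1 hi'.2.2.2 z w hz hw hzu hwu
      rw [hθK ζ hζ] at h1
      exact h1
    -- the Cauchy property
    have hcauchy : ∀ κ > 0, ∃ U, IsOpen U ∧ connectedComponentIn A x ⊆ U ∧
        ∀ z ∈ U ∩ (V \ A), ∀ z' ∈ U ∩ (V \ A),
          |nrm (θ x) (f z) - nrm (θ x) (f z')| ≤ 2 * κ := by
      intro κ hκ
      by_cases hnt : (connectedComponentIn A x).Nontrivial
      · have hnt' : (connectedComponentIn E x).Nontrivial := hKE ▸ hnt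
        have hmem := hpull _ (hin x hx hnt')
        choose! r₀ hr₀ hbV hest using hosc κ hκ
        refine ⟨⋃ ζ ∈ connectedComponentIn A x, ball ζ (r₀ ζ), ?_, ?_, ?_⟩
        · exact isOpen_biUnion fun ζ _ => isOpen_ball
        · intro ζ hζ
          exact mem_biUnion hζ (mem_ball_self (hr₀ ζ hζ))
        · intro z hz z' hz'
          obtain ⟨hzU, hzV⟩ := hz
          obtain ⟨hzU', hzV'⟩ := hz'
          rw [mem_iUnion₂] at hzU hzU'
          obtain ⟨ζ, hζ, hzb⟩ := hzU
          obtain ⟨ζ', hζ', hzb'⟩ := hzU'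
          have hqi : ∀ (z ζ : ℂ), ζ ∈ connectedComponentIn A x → z ∈ ball ζ (r₀ ζ) → z ∈ V \ A →
              ∀ᶠ i in (r : Filter ι), ∀ q : ℝ,
                Tendsto (fun z => nrm (θ x) (G i z))
                  (nearIn (un (c i ∪ e i))ᶜ (connectedComponentIn E x)) (𝓝 q) →
                |nrm (θ x) (G i z) - q| ≤ κ := by
            intro z ζ hζ hzb hzV
            filter_upwards [hest ζ hζ, hoff z hzV, hev, hmem] with i h1 h2 h3 h4 q hq
            have h5 : (connectedComponentIn E x, θ x) ∈ c i ∪ e i :=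
              Finset.mem_union_left _ h4
            have hNB := k5_neBot h3.2.1 h5 (hKE ▸ hζ) (hr₀ ζ hζ) hzb
              (fun h => hzV.2 (hKA (hKE ▸ h)))
            have h6 : Tendsto (fun w => |nrm (θ x) (G i z) - nrm (θ x) (G i w)|)
                (nearIn (un (c i ∪ e i))ᶜ (connectedComponentIn E x) ⊓ 𝓟 (ball ζ (r₀ ζ)))
                (𝓝 |nrm (θ x) (G i z) - q|) :=
              (tendsto_const_nhds.sub (hq.mono_left inf_le_left)).abs
            refine le_of_tendsto h6 ?_
            have h7 : ∀ᶠ w in nearIn (un (c i ∪ e i))ᶜ (connectedComponentIn E x) ⊓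
                𝓟 (ball ζ (r₀ ζ)), w ∈ (un (c i ∪ e i))ᶜ := by
              apply mem_inf_of_left
              unfold nearIn
              exact mem_inf_of_right (mem_principal_self _)
            have h8 : ∀ᶠ w in nearIn (un (c i ∪ e i))ᶜ (connectedComponentIn E x) ⊓
                𝓟 (ball ζ (r₀ ζ)), w ∈ ball ζ (r₀ ζ) :=
              mem_inf_of_right (mem_principal_self _)
            filter_upwards [h7, h8] with w hw hw'
            exact h1 z w hzb hw' h2 hw
          have h9 : ∀ᶠ i in (r : Filter ι),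
              |nrm (θ x) (G i z) - nrm (θ x) (G i z')| ≤ 2 * κ := by
            filter_upwards [hqi z ζ hζ hzb hzV, hqi z' ζ' hζ' hzb' hzV', hev, hmem]
              with i h1 h2 h3 h4
            have h5 : (connectedComponentIn E x, θ x) ∈ c i ∪ e i :=
              Finset.mem_union_left _ h4
            obtain ⟨q, hq⟩ := h3.2.2.1.line _ h5
            have h6 := h1 q hq
            have h7 := h2 q hq
            rw [abs_le] at h6 h7 ⊢
            constructor <;> linarith [h6.1, h6.2, h7.1, h7.2]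
          exact le_of_tendsto ((hlim z hzV).sub (hlim z' hzV')).abs h9
      · have hsing : connectedComponentIn A x = {x} := by
          rw [Set.not_nontrivial_iff] at hnt
          exact hnt.eq_singleton_of_mem hxK
        obtain ⟨r₀, hr₀, hbV, hest⟩ := hosc κ hκ x hxK
        refine ⟨ball x r₀, isOpen_ball, ?_, ?_⟩
        · rw [hsing]
          exact singleton_subset_iff.2 (mem_ball_self hr₀)
        · intro z hz z' hz'
          have h9 : ∀ᶠ i in (r : Filter ι),
              |nrm (θ x) (G i z) - nrm (θ x) (G i z')| ≤ 2 * κ := by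
            filter_upwards [hest, hoff z hz.2, hoff z' hz'.2] with i h1 h2 h3
            exact (h1 z z' hz.1 hz'.1 h2 h3).trans (by linarith)
          exact le_of_tendsto ((hlim z hz.2).sub (hlim z' hz'.2)).abs h9
    by_cases hbot : nearIn (V \ A) (connectedComponentIn A x) = ⊥
    · exact ⟨0, by rw [hbot]; exact tendsto_bot⟩
    · have : (nearIn (V \ A) (connectedComponentIn A x)).NeBot := ⟨hbot⟩
      rw [← cauchy_map_iff_exists_tendsto, Metric.cauchy_iff]
      refine ⟨map_neBot, ?_⟩
      intro ε hε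
      obtain ⟨U, hU, hKU, hest⟩ := hcauchy (ε / 4) (by linarith)
      refine ⟨(fun z => nrm (θ x) (f z)) '' (U ∩ (V \ A)), ?_, ?_⟩
      · apply image_mem_map
        rw [mem_nearIn]
        exact ⟨U, hU, hKU, Subset.rfl⟩
      · rintro _ ⟨z, hz, rfl⟩ _ ⟨z', hz', rfl⟩
        rw [Real.dist_eq]
        have := hest z hz z' hz'
        linarith

end RSM2
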