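import Pool.Agent.RSM.Defs
import Pool.Agent.Lib.Montel
import Pool.Agent.Lib.Hurwitz

/-!
# RSM2: Montel and Hurwitz along an ultrafilter on an arbitrary index type

The same as `Pool/Agent/RSM/L1.lean`, with an arbitrary index type instead of the natural numbers.
-/

open Complex Set Metric Filter Topology MeasureTheory

namespace RSM2

variable {ι : Type*}

theorem montel_ultra {U : Set ℂ} (hU : IsOpen U) {F : ι → ℂ → ℂ} (p : Ultrafilter ι)
    (hF : ∀ K ⊆ U, IsCompact K → ∃ M : ℝ, ∀ᶠ n in (p : Filter ι),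
      (∃ V, IsOpen V ∧ K ⊆ V ∧ DifferentiableOn ℂ (F n) V) ∧ ∀ z ∈ K, ‖F n z‖ ≤ M) :
    ∃ f : ℂ → ℂ, DifferentiableOn ℂ f U ∧
      ∀ K ⊆ U, IsCompact K → TendstoUniformlyOn F f (p : Filter ι) K := by
  have hpt : ∀ z : ℂ, ∃ c : ℂ, z ∈ U → Tendsto (fun n => F n z) p (𝓝 c) := by
    intro z
    by_cases hz : z ∈ U
    · obtain ⟨M, hM⟩ := hF {z} (singleton_subset_iff.mpr hz) isCompact_singleton
      have h1 : ((p.map (fun n => F n z) : Ultrafilter ℂ) : Filter ℂ) ≤
          𝓟 (closedBall (0 : ℂ) M) := by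
        rw [le_principal_iff]
        change (fun n => F n z) ⁻¹' (closedBall (0 : ℂ) M) ∈ (p : Filter ι)
        filter_upwards [hM] with n hn
        simpa using hn.2 z rfl
      obtain ⟨c, -, hc⟩ := (isCompact_closedBall (0 : ℂ) M).ultrafilter_le_nhds _ h1
      exact ⟨c, fun _ => hc⟩
    · exact ⟨0, fun h => absurd h hz⟩
  choose f hf using hpt
  have hlim : TendstoLocallyUniformlyOn F f p U := by
    rw [Metric.tendstoLocallyUniformlyOn_iff]
    intro ε hε z hz
    obtain ⟨R, hR, hball⟩ := nhds_basis_closedBall.mem_iff.mp (hU.mem_nhds hz)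
    obtain ⟨M, hM⟩ := hF (closedBall z R) hball (isCompact_closedBall z R)
    have hr : 0 < R / 3 := by positivity
    have h3 : 3 * (R / 3) = R := by ring
    have hLip : ∀ᶠ n in (p : Filter ι), ∀ x ∈ ball z (R / 3), ∀ y ∈ ball z (R / 3),
        dist (F n x) (F n y) ≤ M / (R / 3) * dist x y := by
      filter_upwards [hM] with n hn
      obtain ⟨⟨V, hV, hKV, hdV⟩, hbd⟩ := hn
      apply Pool.Agent.Lib.Montel.dist_le_of_forall_norm_le hr
      · rw [h3]; exact hdV.mono (ball_subset_closedBall.trans hKV)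
      · rw [h3]; exact fun x hx => hbd x (ball_subset_closedBall hx)
    have hsub : ball z (R / 3) ⊆ U :=
      (ball_subset_ball (by linarith)).trans (ball_subset_closedBall.trans hball)
    have hLipf : ∀ x ∈ ball z (R / 3), ∀ y ∈ ball z (R / 3),
        dist (f x) (f y) ≤ M / (R / 3) * dist x y := by
      intro x hx y hy
      have h1 : Tendsto (fun n => dist (F n x) (F n y)) p (𝓝 (dist (f x) (f y))) :=
        (hf x (hsub hx)).dist (hf y (hsub hy))
      exact le_of_tendsto h1 (hLip.mono fun n hn => hn x hx y hy)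
    set L := |M / (R / 3)| + 1 with hL
    have hL0 : 0 < L := by positivity
    set δ := min (R / 3) (ε / (3 * L)) with hδ
    have hδ0 : 0 < δ := by positivity
    refine ⟨ball z δ, mem_nhdsWithin_of_mem_nhds (ball_mem_nhds z hδ0), ?_⟩
    filter_upwards [Metric.tendsto_nhds.mp (hf z hz) (ε / 3) (by positivity), hLip] with n hn
      hLn w hw
    have hw' : w ∈ ball z (R / 3) := ball_subset_ball (min_le_left _ _) hw
    have hz' : z ∈ ball z (R / 3) := mem_ball_self hr
    have hwz : dist w z < ε / (3 * L) := (mem_ball.mp hw).trans_le (min_le_right _ _)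
    have hb : M / (R / 3) * dist w z ≤ ε / 3 := by
      calc M / (R / 3) * dist w z ≤ L * dist w z := by
            apply mul_le_mul_of_nonneg_right _ dist_nonneg
            rw [hL]; linarith [le_abs_self (M / (R / 3))]
        _ ≤ L * (ε / (3 * L)) := by gcongr
        _ = ε / 3 := by field_simp
    calc dist (f w) (F n w) ≤ dist (f w) (f z) + dist (f z) (F n z) + dist (F n z) (F n w) :=
          dist_triangle4 _ _ _ _
      _ < ε / 3 + ε / 3 + ε / 3 := by
          have h1 := (hLipf w hw' z hz').trans hb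
          have h2 := hLn w hw' z hz'
          rw [dist_comm (F n w)] at h2
          have h3 := h2.trans hb
          rw [dist_comm (f z)]
          linarith
      _ = ε := by ring
  refine ⟨f, fun z hz => ?_, (tendstoLocallyUniformlyOn_iff_forall_isCompact hU).1 hlim⟩
  obtain ⟨R, hR, hball⟩ := nhds_basis_closedBall.mem_iff.mp (hU.mem_nhds hz)
  obtain ⟨M, hM⟩ := hF (closedBall z R) hball (isCompact_closedBall z R)
  have h1 : TendstoLocallyUniformlyOn F f p (ball z R) :=
    hlim.mono (ball_subset_closedBall.trans hball)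
  have h2 : DifferentiableOn ℂ f (ball z R) := by
    refine h1.differentiableOn ?_ isOpen_ball
    filter_upwards [hM] with n hn
    obtain ⟨⟨V, hV, hKV, hdV⟩, -⟩ := hn
    exact hdV.mono (ball_subset_closedBall.trans hKV)
  exact (h2.differentiableAt (ball_mem_nhds z hR)).differentiableWithinAt

theorem injOn_of_ultra {U : Set ℂ} (hU : IsOpen U) (hUc : IsPreconnected U) {F : ι → ℂ → ℂ}
    {f : ℂ → ℂ} (p : Ultrafilter ι)
    (hlim : ∀ K ⊆ U, IsCompact K → TendstoUniformlyOn F f (p : Filter ι) K)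
    (hinj : ∀ K ⊆ U, IsCompact K → ∀ᶠ n in (p : Filter ι),
      ∃ V, IsOpen V ∧ K ⊆ V ∧ DifferentiableOn ℂ (F n) V ∧ InjOn (F n) V)
    (hf : DifferentiableOn ℂ f U) (hnc : ¬ ∃ k, ∀ z ∈ U, f z = k) : InjOn f U := by
  have hlim0 : TendstoLocallyUniformlyOn F f p U :=
    (tendstoLocallyUniformlyOn_iff_forall_isCompact hU).2 hlim
  have hfan : AnalyticOnNhd ℂ f U := hf.analyticOnNhd hU
  intro a ha b hb hab
  by_contra hne
  obtain ⟨r, hr, hball⟩ : ∃ r > 0, closedBall b r ⊆ U ∩ {a}ᶜ :=
    nhds_basis_closedBall.mem_iff.mp ((hU.inter isOpen_compl_singleton).mem_nhds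
      ⟨hb, fun h => hne h.symm⟩)
  have hbU : closedBall b r ⊆ U := fun z hz => (hball hz).1
  have hlim' : TendstoLocallyUniformlyOn (fun n z => F n z - F n a) (fun z => f z - f a) p
      (ball b r) := by
    have h1 := hlim0.mono (ball_subset_closedBall.trans hbU)
    have h2 : Tendsto (fun n => F n a) p (𝓝 (f a)) := hlim0.tendsto_at ha
    rw [Metric.tendstoLocallyUniformlyOn_iff] at h1 ⊢
    intro ε hε z hz
    obtain ⟨t, ht, h3⟩ := h1 (ε / 2) (by positivity) z hz
    refine ⟨t, ht, ?_⟩
    filter_upwards [h3, Metric.tendsto_nhds.mp h2 (ε / 2) (by positivity)] with n h4 h5 y hy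
    have h6 := h4 y hy
    rw [dist_eq_norm] at h5 h6 ⊢
    have : f y - f a - (F n y - F n a) = (f y - F n y) + (F n a - f a) := by ring
    rw [this]
    calc _ ≤ ‖f y - F n y‖ + ‖F n a - f a‖ := norm_add_le _ _
      _ < ε := by linarith
  have hK : IsCompact (closedBall b r ∪ {a}) := (isCompact_closedBall b r).union isCompact_singleton
  have hKU : closedBall b r ∪ {a} ⊆ U := union_subset hbU (singleton_subset_iff.2 ha)
  have hev := hinj _ hKU hK
  have hF' : ∀ᶠ n in (p : Filter ι), DifferentiableOn ℂ (fun z => F n z - F n a) (ball b r) := by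
    filter_upwards [hev] with n hn
    obtain ⟨V, -, hKV, hdV, -⟩ := hn
    exact (hdV.mono (ball_subset_closedBall.trans (subset_union_left.trans hKV))).sub_const _
  have hnz : ∃ᶠ z in 𝓝 b, f z - f a ≠ 0 := by
    intro h
    apply hnc
    refine ⟨f a, fun z hz => ?_⟩
    have h1 : AnalyticOnNhd ℂ (fun z => f z - f a) U := hfan.sub analyticOnNhd_const
    have h2 := h1.eqOn_zero_of_preconnected_of_eventuallyEq_zero hUc hb (by
      filter_upwards [h] with z hz
      simpa using hz)
    exact sub_eq_zero.1 (h2 hz)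
  have hz := Pool.Agent.Lib.Hurwitz.eventually_exists_zero isOpen_ball hlim' hF'
    (mem_ball_self hr) (by rw [hab, sub_self]) hnz (ball_mem_nhds b hr)
  obtain ⟨n, ⟨z, hz, hzn⟩, V, -, hKV, -, hVi⟩ := (hz.and hev).exists
  have h1 : z ∈ V := hKV (Or.inl (ball_subset_closedBall hz))
  have h2 : a ∈ V := hKV (Or.inr rfl)
  have h3 : z = a := hVi h1 h2 (sub_eq_zero.1 hzn)
  exact (hball (ball_subset_closedBall hz)).2 h3

end RSM2
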