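import Pool.Agent.RSM2.S4
import Pool.Agent.RSM2.GA

/-!
# RSM2 module S5: the limit step

PROOF.  Let `K = connectedComponentIn E x₀ ⊆ A` (`component_clopen`), `B` the sequence of
`exists_fill_seq` (`FillSeq`), and for every `m` let `p m` be a good law for the piece
`piece A B m` (`piece_props` and the hypothesis `h`).  The law is `limLaw B (θ x₀) p`; it is a
`PreLaw` (`pre_limLaw`).  `good`: let `ι, r, c, e, G, f, V, R` be given and `x ∈ A`.
(1) `x ∈ K`: `θ x = θ x₀`, `connectedComponentIn A x = K`.  `f` is holomorphic on `V \ A`: it is a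
locally uniform limit of the maps `G i`, which are holomorphic on the complement of
`un (c i ∪ e i)`, and for every compact `K' ⊆ V \ A` this complement is a neighbourhood of `K'` for
almost all `i` (`loc` for `un (c i)`; the holes of `e i` are disjoint from `V`; use small closed discs,
`TendstoLocallyUniformlyOn.differentiableOn`).  By `approx_of_limLaw` and `good_of_approx` there
is a limit.
(2) `x ∉ K`: `x ∈ piece A B m` for some `m` (`piece_props`).  There is an open `U ⊇ piece A B m` whose
closure is disjoint from `A \ piece A B m` and from `B m` (compact sets).  Apply `good_of_res` with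
`A' = piece A B m`, `map_res_limLaw`.
-/

open Complex Set Metric Filter Topology MeasureTheory

namespace RSM2

/-- The limits of slit maps along a law are holomorphic off `A`. -/
theorem differentiableOn_lim {θ : ℂ → ℝ} {A : Set ℂ} (hA : IsCompact A) {p : Ultrafilter Cfg}
    (hp : PreLaw θ A p) (ι : Type) (r : Ultrafilter ι) (c : ι → Cfg) (D : ι → Set ℂ)
    (G : ι → ℂ → ℂ) (f : ℂ → ℂ) (V : Set ℂ) (hV : IsOpen V) (hr : r.map c = p)
    (hG : ∀ᶠ i in (r : Filter ι), Disjoint (D i) V ∧ DifferentiableOn ℂ (G i) (un (c i) ∪ D i)ᶜ)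
    (hf : ∀ K ⊆ V \ A, IsCompact K → TendstoUniformlyOn G f (r : Filter ι) K) :
    DifferentiableOn ℂ f (V \ A) := by
  have hop : IsOpen (V \ A) := hV.sdiff hA.isClosed
  intro z hz
  obtain ⟨ρ, hρ, hball⟩ := Metric.nhds_basis_closedBall.mem_iff.1 (hop.mem_nhds hz)
  have hcb : IsCompact (closedBall z ρ) := isCompact_closedBall z ρ
  have hun : ∀ᶠ i in (r : Filter ι), un (c i) ⊆ (closedBall z ρ)ᶜ := by
    have h1 := hp.loc (closedBall z ρ)ᶜ hcb.isClosed.isOpen_compl
      (fun w hw hwb => (hball hwb).2 hw)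
    rw [← hr] at h1
    exact h1
  have hd : DifferentiableOn ℂ f (ball z ρ) := by
    have h1 : TendstoLocallyUniformlyOn G f (r : Filter ι) (ball z ρ) :=
      ((hf _ hball hcb).mono ball_subset_closedBall).tendstoLocallyUniformlyOn
    refine h1.differentiableOn ?_ isOpen_ball
    filter_upwards [hun, hG] with i hi hi2
    refine hi2.2.mono ?_
    intro w hw hw2
    rcases hw2 with hw2 | hw2
    · exact hi hw2 (ball_subset_closedBall hw)
    · exact Set.disjoint_left.1 hi2.1 hw2 (hball (ball_subset_closedBall hw)).1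
  exact (hd.differentiableAt (isOpen_ball.mem_nhds (mem_ball_self hρ))).differentiableWithinAt

theorem good_limit {E : Set ℂ} (hE : IsCompact E) (hcon : IsConnected Eᶜ) {θ : ℂ → ℝ}
    (hθ : ContinuousOn θ E) (hconst : ∀ x ∈ E, ∀ y ∈ connectedComponentIn E x, θ y = θ x)
    {A : Set ℂ} (hAE : A ⊆ E) (hA : IsCompact A) (hEA : IsCompact (E \ A)) {x₀ : ℂ}
    (hx₀ : x₀ ∈ A)
    (h : ∀ A' ⊆ A, IsCompact A' → IsCompact (E \ A') →
      Disjoint A' (connectedComponentIn E x₀) → ∃ p : Ultrafilter Cfg, GoodLaw θ A' p) :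
    ∃ p : Ultrafilter Cfg, GoodLaw θ A p := by
  have hcA : connectedComponentIn A x₀ = connectedComponentIn E x₀ :=
    component_clopen hA hAE hEA hx₀
  have hKA : connectedComponentIn E x₀ ⊆ A := by
    rw [← hcA]
    exact connectedComponentIn_subset A x₀
  obtain ⟨B, hfill, hdec, hshr⟩ := exists_fill_seq hE hcon (hAE hx₀)
  have hB : FillSeq E (connectedComponentIn E x₀) B := ⟨hfill, hdec, hshr⟩
  obtain ⟨hpc, hcov⟩ := piece_props hAE hA hEA hB
  choose p hp using fun m => h (piece A B m) (hpc m).1 (hpc m).2.1 (hpc m).2.2.1 (hpc m).2.2.2.1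
  have hpre : PreLaw θ A (limLaw B (θ x₀) p) :=
    pre_limLaw hAE hA hx₀ hKA hB (fun m => (hp m).pre)
  refine ⟨limLaw B (θ x₀) p, hpre.valid, hpre.loc, hpre.ang, ?_⟩
  intro ι r c e G f V R hV hAV hr hG hf x hxA
  by_cases hxK : x ∈ connectedComponentIn E x₀
  · have hθx : θ x = θ x₀ := hconst x₀ (hAE hx₀) x hxK
    have hcx : connectedComponentIn A x = connectedComponentIn A x₀ := by
      rw [hcA, component_clopen hA hAE hEA hxA]
      exact (connectedComponentIn_eq hxK).symm
    have hfd : DifferentiableOn ℂ f (V \ A) := by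
      refine differentiableOn_lim hA hpre ι r c (fun i => un (e i)) G f V hV hr ?_ hf
      filter_upwards [hG] with i hi
      refine ⟨?_, ?_⟩
      · rw [Set.disjoint_left]
        intro w hw hwV
        obtain ⟨k, hk, hwk⟩ := mem_un.1 hw
        exact Set.disjoint_left.1 (hi.1 k hk) hwk hwV
      · rw [← un_union]
        exact hi.2.2.1.diff
    have happ := approx_of_limLaw hθ hconst hAE hA hEA hx₀ hKA hB (fun m => (hp m).pre)
      ι r c e G f V R hV hAV hr hG hf
    rw [hθx, hcx]
    rw [← hcA] at happ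
    exact good_of_approx hV hA hAV hx₀ hfd happ
  · obtain ⟨m, hm⟩ := hcov x hxA hxK
    obtain ⟨hm1, hm2, hm3, hm4, hm5⟩ := hpc m
    have hAc : IsCompact (A \ piece A B m) := by
      have : A \ piece A B m = A ∩ (E \ piece A B m) := by
        ext w
        constructor
        · rintro ⟨h1, h2⟩
          exact ⟨h1, hAE h1, h2⟩
        · rintro ⟨h1, -, h2⟩
          exact ⟨h1, h2⟩
      rw [this]
      exact hA.inter hm3
    have hQ : IsCompact ((A \ piece A B m) ∪ B m) := hAc.union (hfill m).compact
    have hPQ : piece A B m ⊆ ((A \ piece A B m) ∪ B m)ᶜ := by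
      intro w hw hw2
      rcases hw2 with hw2 | hw2
      · exact hw2.2 hw
      · exact Set.disjoint_left.1 hm5 hw hw2
    obtain ⟨U, hU, hPU, hUc, -⟩ :=
      exists_open_between_and_isCompact_closure hm2 hQ.isClosed.isOpen_compl hPQ
    have hd1 : Disjoint (closure U) (A \ piece A B m) := by
      rw [Set.disjoint_left]
      intro w hw hw2
      exact hUc hw (Or.inl hw2)
    have hd2 : Disjoint (closure U) (B m) := by
      rw [Set.disjoint_left]
      intro w hw hw2
      exact hUc hw (Or.inr hw2)
    obtain ⟨hmap, hout⟩ := map_res_limLaw (θ := θ) (x₀ := x₀) hAE hA hB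
      (fun m => (hp m).pre) hU hPU hd1 hd2
    exact good_of_res hm2 hm1 hAc (hp m) hU hPU (hd1.mono_left subset_closure) hmap hout
      ι r c e G f V R hV hAV hr hG hf x hm

end RSM2
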