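import Pool.Agent.RSM2.N1
import Pool.Agent.RSM2.K5
import Pool.Agent.RSM2.S5
import Pool.Agent.RSM2.V6
import Pool.Agent.RSM.G4
import Pool.Agent.RSM2.MainX

/-!
# RSM2: the main theorem

PROOF of `exists_law`: `noeth_pieces` for the property `P A := ∃ p, GoodLaw θ A p`: `base` is `good_base`
(all points of `A` are in `E \ F`), `union` is `good_union`, `lim` is `good_limit`.
PROOF of `montel_law` (Montel and Hurwitz along an ultrafilter on an arbitrary index set; copy the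
proofs of `RSM.montel_ultra`, `RSM.injOn_of_ultra`, `Pool/Agent/RSM/L1.lean`, where the index set is
`ℕ`).  Let `R > 0` with `E ⊆ ball 0 R`.  For almost all `c`: `Valid c`, `un c ⊆ ball 0 R`; let `G c` be a
solution (`exists_sol`).  `‖G c z‖ ≤ ‖z‖ + 4R` (`Sol.bound`), so along `p` the maps converge locally
uniformly on `Eᶜ` (for compact `K ⊆ Eᶜ`, `un c ⊆ Kᶜ` for almost all `c`) to a holomorphic `f`;
`‖f z - z‖ ≤ 4R²/‖z‖` for `‖z‖ ≥ 2R` (`growth_far`), so `f z - z → 0`, `f` is not constant, and it is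
injective by Hurwitz.
PROOF of `exists_slit_map`: `GoodLaw.good` with `ι = Cfg`, `r = p`, `c = id`, `e = ∅`, `V = univ` gives the
line condition at every component of `E`; `RSM.isSlitMap_of_lines` (`𝓝[Eᶜ] y ≤ nearIn Eᶜ K` for
`y ∈ K`).
-/

open Complex Set Metric Filter Topology MeasureTheory

namespace RSM2

theorem exists_law {E : Set ℂ} (hE : IsCompact E) (hcon : IsConnected Eᶜ) {θ : ℂ → ℝ}
    (hθ : ContinuousOn θ E) (hconst : ∀ x ∈ E, ∀ y ∈ connectedComponentIn E x, θ y = θ x)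
    {F : Set ℂ} (hF : IsClosed F) (hFE : F ⊆ E) {S : Set ℂ} (hS : S.Countable)
    (hFS : F = ⋃ x ∈ S, connectedComponentIn E x) (hgood : ∀ ζ ∈ E \ F, GoodAt E θ ζ) :
    ∃ p : Ultrafilter Cfg, GoodLaw θ E p := by
  refine noeth_pieces hE hF hFE hS hFS (fun A => ∃ p : Ultrafilter Cfg, GoodLaw θ A p) ?_ ?_ ?_
  · intro A hAE hA hEA hd
    exact good_base hE hcon hθ hconst hAE hA hEA fun ζ hζ =>
      hgood ζ ⟨hAE hζ, fun h => disjoint_left.1 hd hζ h⟩
  · rintro A A' - - hA hA' hd ⟨p, hp⟩ ⟨p', hp'⟩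
    exact good_union hA hA' hd hp hp'
  · intro A hAE hA hEA x hx h
    exact good_limit hE hcon hθ hconst hAE hA hEA hx h

theorem montel_law {E : Set ℂ} (hE : IsCompact E) (hcon : IsConnected Eᶜ)
    {p : Ultrafilter Cfg} (hv : ∀ᶠ c in (p : Filter Cfg), Valid c)
    (hloc : ∀ U : Set ℂ, IsOpen U → E ⊆ U → ∀ᶠ c in (p : Filter Cfg), un c ⊆ U) :
    ∃ (G : Cfg → ℂ → ℂ) (f : ℂ → ℂ) (R : ℝ),
      (∀ᶠ c in (p : Filter Cfg), Valid c ∧ Sol c (G c) ∧ un c ⊆ closedBall 0 R) ∧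
      (∀ K ⊆ Eᶜ, IsCompact K → TendstoUniformlyOn G f (p : Filter Cfg) K) ∧
      DifferentiableOn ℂ f Eᶜ ∧ InjOn f Eᶜ ∧ Tendsto (fun z => f z - z) (cocompact ℂ) (𝓝 0) := by
  classical
  obtain ⟨R₀, hR₀⟩ := hE.isBounded.exists_norm_le
  set R : ℝ := |R₀| + 1 with hRdef
  have hR : 0 < R := by positivity
  have hEb : E ⊆ ball 0 R := by
    intro z hz
    rw [mem_ball_zero_iff]
    have h1 := hR₀ z hz
    have h2 := le_abs_self R₀
    linarith
  have hex : ∀ c : Cfg, ∃ g : ℂ → ℂ, Valid c → Sol c g := by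
    intro c
    by_cases hc : Valid c
    · obtain ⟨g, hg⟩ := exists_sol hc
      exact ⟨g, fun _ => hg⟩
    · exact ⟨fun _ => 0, fun h => absurd h hc⟩
  choose G hG using hex
  have hev : ∀ᶠ c in (p : Filter Cfg), Valid c ∧ Sol c (G c) ∧ un c ⊆ closedBall 0 R := by
    filter_upwards [hv, hloc (ball 0 R) isOpen_ball hEb] with c h1 h2
    exact ⟨h1, hG c h1, h2.trans ball_subset_closedBall⟩
  have hcpt : ∀ K ⊆ Eᶜ, IsCompact K → ∀ᶠ c in (p : Filter Cfg), K ⊆ (un c)ᶜ := by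
    intro K hK hKc
    filter_upwards [hloc Kᶜ hKc.isClosed.isOpen_compl (subset_compl_comm.1 hK)] with c hc
    exact subset_compl_comm.1 hc
  have hbd : ∀ K ⊆ Eᶜ, IsCompact K → ∃ M : ℝ, ∀ᶠ c in (p : Filter Cfg),
      (∃ V, IsOpen V ∧ K ⊆ V ∧ DifferentiableOn ℂ (G c) V) ∧ ∀ z ∈ K, ‖G c z‖ ≤ M := by
    intro K hK hKc
    obtain ⟨B, hB⟩ := hKc.isBounded.exists_norm_le
    refine ⟨B + 4 * R, ?_⟩
    filter_upwards [hev, hcpt K hK hKc] with c hc hKu
    obtain ⟨h1, h2, h3⟩ := hc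
    refine ⟨⟨(un c)ᶜ, h1.isOpen, hKu, h2.diff⟩, fun z hz => ?_⟩
    have h4 := h2.bound hR h3 (hKu hz)
    have h5 := hB z hz
    linarith
  have hEo : IsOpen Eᶜ := hE.isClosed.isOpen_compl
  obtain ⟨f, hfd, hfl⟩ := montel_ultra hEo p hbd
  -- growth of the limit
  have hgrow : ∀ z : ℂ, 2 * R ≤ ‖z‖ → ‖f z - z‖ ≤ 4 * R ^ 2 / ‖z‖ := by
    intro z hz
    have hzE : z ∈ Eᶜ := by
      intro h
      have := mem_ball_zero_iff.1 (hEb h)
      linarith
    have h1 : Tendsto (fun c => G c z) (p : Filter Cfg) (𝓝 (f z)) :=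
      (hfl {z} (singleton_subset_iff.2 hzE) isCompact_singleton).tendsto_at rfl
    have h2 : Tendsto (fun c => ‖G c z - z‖) (p : Filter Cfg) (𝓝 ‖f z - z‖) :=
      (h1.sub_const z).norm
    refine le_of_tendsto h2 ?_
    filter_upwards [hev] with c hc
    obtain ⟨-, h3, h4⟩ := hc
    have hsub : {z : ℂ | R < ‖z‖} ⊆ (un c)ᶜ := by
      intro w hw hwu
      have h5 := mem_closedBall_zero_iff.1 (h4 hwu)
      exact absurd h5 (not_le.2 hw)
    exact growth_far hR (h3.diff.mono hsub) (h3.inj.mono hsub) h3.lim hz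
  have hlim : Tendsto (fun z => f z - z) (cocompact ℂ) (𝓝 0) := by
    have h1 : Tendsto (fun z : ℂ => 4 * R ^ 2 / ‖z‖) (cocompact ℂ) (𝓝 0) :=
      (tendsto_norm_cocompact_atTop (E := ℂ)).const_div_atTop _
    refine squeeze_zero_norm' ?_ h1
    filter_upwards [(tendsto_norm_cocompact_atTop (E := ℂ)).eventually_ge_atTop (2 * R)] with z hz
    exact hgrow z hz
  have hnc : ¬ ∃ k, ∀ z ∈ Eᶜ, f z = k := by
    rintro ⟨k, hk⟩
    have h1 : ∀ᶠ z in cocompact ℂ, ‖f z - z‖ < 1 := by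
      have := hlim.norm
      rw [norm_zero] at this
      exact this.eventually_lt_const one_pos
    obtain ⟨z, hz1, hz2⟩ := (h1.and
      ((tendsto_norm_cocompact_atTop (E := ℂ)).eventually_ge_atTop (2 * R + ‖k‖ + 1))).exists
    have hzE : z ∈ Eᶜ := by
      intro h
      have h3 := mem_ball_zero_iff.1 (hEb h)
      have h4 := norm_nonneg k
      linarith
    rw [hk z hzE] at hz1
    have h5 : ‖z‖ ≤ ‖k - z‖ + ‖k‖ := by
      have := norm_sub_le k (k - z)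
      rw [sub_sub_cancel] at this
      linarith
    linarith
  refine ⟨G, f, R, hev, hfl, hfd, ?_, hlim⟩
  refine injOn_of_ultra hEo hcon.isPreconnected p hfl (fun K hK hKc => ?_) hfd hnc
  filter_upwards [hev, hcpt K hK hKc] with c hc hKu
  exact ⟨(un c)ᶜ, hc.1.isOpen, hKu, hc.2.1.diff, hc.2.1.inj⟩

theorem nhdsWithin_le_nearIn {D K : Set ℂ} {y : ℂ} (hy : y ∈ K) : 𝓝[D] y ≤ nearIn D K := by
  unfold nearIn
  exact inf_le_inf (nhds_le_nhdsSet hy) le_rfl

/-- **Theorem T2''.** -/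
theorem exists_slit_map {E : Set ℂ} (hE : IsCompact E) (hcon : IsConnected Eᶜ) {θ : ℂ → ℝ}
    (hθ : ContinuousOn θ E) (hconst : ∀ x ∈ E, ∀ y ∈ connectedComponentIn E x, θ y = θ x)
    {F : Set ℂ} (hF : IsClosed F) (hFE : F ⊆ E) {S : Set ℂ} (hS : S.Countable)
    (hFS : F = ⋃ x ∈ S, connectedComponentIn E x) (hgood : ∀ ζ ∈ E \ F, GoodAt E θ ζ) :
    ∃ f : ℂ → ℂ, RSM.IsSlitMap E θ f := by
  classical
  obtain ⟨p, hp⟩ := exists_law hE hcon hθ hconst hF hFE hS hFS hgood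
  obtain ⟨G, f, R, hG, hf, hd, hi, hl⟩ := montel_law hE hcon hp.valid hp.loc
  refine ⟨f, RSM.isSlitMap_of_lines hE hcon.isPreconnected hd hi hl fun x hx => ?_⟩
  have hcompl : (univ : Set ℂ) \ E = Eᶜ := by
    rw [compl_eq_univ_sdiff]
  obtain ⟨q, hq⟩ := hp.good Cfg p id (fun _ => ∅) G f univ R isOpen_univ (subset_univ _)
    (Ultrafilter.map_id p) (by
      filter_upwards [hG] with c hc
      refine ⟨by simp, ?_, ?_, ?_⟩
      · simpa using hc.1
      · simpa using hc.2.1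
      · simpa using hc.2.2) (by
      intro K hK hKc
      rw [hcompl] at hK
      exact hf K hK hKc) x hx
  rw [hcompl] at hq
  exact ⟨q, fun y hy => hq.mono_left (nhdsWithin_le_nearIn hy)⟩

end RSM2
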