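import Pool.Agent.RSM2.V8

/-!
# RSM2 module N1: induction over a countable compact set of components

PROOF of `noeth` (topology only).  Let `𝒰` be the family of all clopen sets `C` such that `P C'` for
all clopen `C' ⊆ C`.  `𝒰` contains the clopen subsets of its members; it is closed under
unions of two members: if `C' ⊆ C₁ ∪ C₂` is clopen, then `C' ∩ C₁` and `C' ∩ C₂ \ C₁` are clopen,
disjoint, and `P` holds for both, so `P C'` by `union`.  Let `O = ⋃ 𝒰`, open.  Every clopen subset `C`
of `O` is in `𝒰`: it is compact, so covered by finitely many members of `𝒰`.  Suppose `Z = Oᶜ` is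
not empty.  If `x ∉ F` then there is a clopen `C ∋ x` disjoint from `F` (closed;
`compact_exists_isClopen_in_isOpen`), and `C ∈ 𝒰` by `base`; so `Z ⊆ F`; `Z` is closed and countable,
nonempty, compact.  By Baire's theorem for the compact Hausdorff space `Z` it has an isolated point
`x`: `Z` is the countable union of its closed singletons
(`nonempty_interior_of_iUnion_of_closed`).  So there is an open `W` with `W ∩ Z = {x}`, and a clopen
set `C` with `x ∈ C ⊆ W`, so `C ∩ Z = {x}`.  Let `C'' ⊆ C` be clopen.  If `x ∉ C''` then `C'' ⊆ O`, so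
`C'' ∈ 𝒰` and `P C''`.  If `x ∈ C''`: all clopen `C' ⊆ C'' \ {x}` are contained in `O`, so `P C'`, and
`P C''` by `lim`.  So `C ∈ 𝒰` and `x ∈ O`, a contradiction.  So `O = univ` and `P univ`.
PROOF of `noeth_pieces`.  Apply `noeth` to `X = ConnectedComponents E` (subtype `E`; compact,
`ConnectedComponents.t2`, totally disconnected), to the image of `F` (closed: `F` is compact; countable:
`F` is a union of countably many components), and to the property
`C ↦ P (Subtype.val '' (mk ⁻¹' C))`, `mk : E → ConnectedComponents E`.  Clopen sets `C` correspond to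
clopen subsets of `E` (a clopen set is a union of components), that is, to clopen pieces
`A ⊆ E`, `A` and `E \ A` compact; a point of `ConnectedComponents E` is a component of `E`
(`connectedComponentIn E x = Subtype.val '' connectedComponent ⟨x, _⟩`).
-/

open Complex Set Metric Filter Topology MeasureTheory

namespace RSM2

theorem noeth {X : Type} [TopologicalSpace X] [CompactSpace X] [T2Space X]
    [TotallyDisconnectedSpace X] {F : Set X} (hF : IsClosed F) (hFc : F.Countable)
    (P : Set X → Prop) (base : ∀ C, IsClopen C → Disjoint C F → P C)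
    (union : ∀ C C', IsClopen C → IsClopen C' → Disjoint C C' → P C → P C' → P (C ∪ C'))
    (lim : ∀ C, IsClopen C → ∀ x ∈ C, (∀ C', IsClopen C' → C' ⊆ C → x ∉ C' → P C') → P C) :
    P univ := by
  classical
  set U : Set (Set X) := {C | IsClopen C ∧ ∀ C' ⊆ C, IsClopen C' → P C'} with hU
  have hempty : ∅ ∈ U := by
    refine ⟨isClopen_empty, fun C' hC' _ => ?_⟩
    rw [subset_empty_iff] at hC'
    rw [hC']
    exact base ∅ isClopen_empty (empty_disjoint F)
  have hmono : ∀ C ∈ U, ∀ C' ⊆ C, IsClopen C' → C' ∈ U := fun C hC C' hC' h =>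
    ⟨h, fun D hD hD' => hC.2 D (hD.trans hC') hD'⟩
  have hunion : ∀ C ∈ U, ∀ C' ∈ U, C ∪ C' ∈ U := by
    intro C hC C' hC'
    refine ⟨hC.1.union hC'.1, fun D hD hD' => ?_⟩
    have e : D = (D ∩ C) ∪ (D \ C) := (inter_union_sdiff D C).symm
    rw [e]
    refine union _ _ (hD'.inter hC.1) (hD'.diff hC.1) ?_ ?_ ?_
    · exact disjoint_sdiff_right.mono_left inter_subset_right
    · exact hC.2 _ inter_subset_right (hD'.inter hC.1)
    · refine hC'.2 _ ?_ (hD'.diff hC.1)
      intro y hy
      exact (hD hy.1).resolve_left hy.2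
  set O : Set X := ⋃₀ U with hO
  have hOo : IsOpen O := isOpen_sUnion fun C hC => hC.1.isOpen
  have hcov : ∀ C, IsClopen C → C ⊆ O → C ∈ U := by
    intro C hC hCO
    have hcp : IsCompact C := hC.isClosed.isCompact
    obtain ⟨t, ht⟩ := hcp.elim_finite_subcover (fun D : U => (D : Set X))
      (fun D => D.2.1.isOpen) (by rwa [← sUnion_eq_iUnion])
    have h1 : ∀ t : Finset U, (⋃ D ∈ t, (D : Set X)) ∈ U := by
      intro t
      induction t using Finset.induction_on with
      | empty => simpa using hempty
      | insert a t _ ih =>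
        rw [Finset.set_biUnion_insert]
        exact hunion _ a.2 _ ih
    exact hmono _ (h1 t) C ht hC
  by_cases hZ : O = univ
  · exact (hcov univ isClopen_univ hZ.ge).2 univ subset_rfl isClopen_univ
  · exfalso
    have hZc : IsClosed (Oᶜ) := hOo.isClosed_compl
    have hZF : Oᶜ ⊆ F := by
      intro x hx
      by_contra hxF
      obtain ⟨C, hC, hxC, hCF⟩ := compact_exists_isClopen_in_isOpen hF.isOpen_compl hxF
      apply hx
      refine mem_sUnion_of_mem hxC ⟨hC, fun C' hC' h => ?_⟩
      exact base C' h (disjoint_compl_left.mono_left (hC'.trans hCF))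
    have hne : (Oᶜ).Nonempty := by
      rwa [nonempty_compl]
    have : Nonempty (Oᶜ : Set X) := hne.to_subtype
    have : Countable (Oᶜ : Set X) := (hFc.mono hZF).to_subtype
    have : CompactSpace (Oᶜ : Set X) := isCompact_iff_compactSpace.1 hZc.isCompact
    obtain ⟨z, hz⟩ := nonempty_interior_of_iUnion_of_closed (X := (Oᶜ : Set X))
      (f := fun z => {z}) (fun z => isClosed_singleton) (iUnion_of_singleton _)
    have hzo : IsOpen ({z} : Set (Oᶜ : Set X)) := by
      rw [← interior_eq_iff_isOpen]
      refine subset_antisymm interior_subset ?_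
      obtain ⟨w, hw⟩ := hz
      have hwz : w ∈ ({z} : Set (Oᶜ : Set X)) := interior_subset hw
      have hwz' : w = z := hwz
      rw [singleton_subset_iff]
      rwa [hwz'] at hw
    rw [isOpen_induced_iff] at hzo
    obtain ⟨W, hW, hWz⟩ := hzo
    have hzW : (z : X) ∈ W := by
      have : z ∈ Subtype.val ⁻¹' W := by
        rw [hWz]
        rfl
      exact this
    obtain ⟨C, hC, hzC, hCW⟩ := compact_exists_isClopen_in_isOpen hW hzW
    have key : ∀ C' ⊆ C, IsClopen C' → (z : X) ∉ C' → C' ∈ U := by
      intro C' hC' hcl hz'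
      refine hcov C' hcl fun y hy => ?_
      by_contra hyO
      have h1 : (⟨y, hyO⟩ : (Oᶜ : Set X)) ∈ Subtype.val ⁻¹' W := hCW (hC' hy)
      rw [hWz] at h1
      have h2 : y = z := congrArg Subtype.val h1
      rw [h2] at hy
      exact hz' hy
    have hCU : C ∈ U := by
      refine ⟨hC, fun D hD hDc => ?_⟩
      by_cases hzD : (z : X) ∈ D
      · refine lim D hDc z hzD fun C' hC' hsub hz' => ?_
        exact (key C' (hsub.trans hD) hC' hz').2 C' subset_rfl hC'
      · exact (key D hD hDc hzD).2 D subset_rfl hDc
    exact z.2 (mem_sUnion_of_mem hzC hCU)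

theorem noeth_pieces {E : Set ℂ} (hE : IsCompact E) {F : Set ℂ} (hF : IsClosed F) (hFE : F ⊆ E)
    {S : Set ℂ} (hS : S.Countable) (hFS : F = ⋃ x ∈ S, connectedComponentIn E x)
    (P : Set ℂ → Prop)
    (base : ∀ A ⊆ E, IsCompact A → IsCompact (E \ A) → Disjoint A F → P A)
    (union : ∀ A A' : Set ℂ, A ⊆ E → A' ⊆ E → IsCompact A → IsCompact A' → Disjoint A A' →
      P A → P A' → P (A ∪ A'))
    (lim : ∀ A ⊆ E, IsCompact A → IsCompact (E \ A) → ∀ x ∈ A,
      (∀ A' ⊆ A, IsCompact A' → IsCompact (E \ A') → Disjoint A' (connectedComponentIn E x) →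
        P A') → P A) : P E := by
  classical
  have hEc : CompactSpace E := isCompact_iff_compactSpace.1 hE
  let π : E → ConnectedComponents E := ConnectedComponents.mk
  have hπc : Continuous π := ConnectedComponents.continuous_coe
  have hπs : Function.Surjective π := ConnectedComponents.surjective_coe
  have hπq : IsQuotientMap π := ConnectedComponents.isQuotientMap_coe
  have hcomp : ∀ C : Set (ConnectedComponents E), IsClosed C →
      IsCompact (Subtype.val '' (π ⁻¹' C)) := fun C hC =>
    (hC.preimage hπc).isCompact.image continuous_subtype_val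
  have hcompl : ∀ C : Set (ConnectedComponents E),
      E \ Subtype.val '' (π ⁻¹' C) = Subtype.val '' (π ⁻¹' Cᶜ) := by
    intro C
    ext y
    constructor
    · rintro ⟨hy, hy'⟩
      refine ⟨⟨y, hy⟩, ?_, rfl⟩
      intro h
      exact hy' ⟨⟨y, hy⟩, h, rfl⟩
    · rintro ⟨w, hw, rfl⟩
      refine ⟨w.2, ?_⟩
      rintro ⟨v, hv, hvw⟩
      have : v = w := Subtype.ext hvw
      rw [this] at hv
      exact hw hv
  have hsub : ∀ C : Set (ConnectedComponents E), Subtype.val '' (π ⁻¹' C) ⊆ E := by
    rintro C _ ⟨w, _, rfl⟩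
    exact w.2
  set F' : Set (ConnectedComponents E) := π '' (Subtype.val ⁻¹' F) with hF'
  have hF'c : IsClosed F' :=
    ((hF.preimage continuous_subtype_val).isCompact.image hπc).isClosed
  have hmem : ∀ x y : E, (y : ℂ) ∈ connectedComponentIn E x ↔ π y = π x := by
    intro x y
    rw [connectedComponentIn_eq_image x.2, ConnectedComponents.coe_eq_coe']
    constructor
    · rintro ⟨w, hw, hwy⟩
      have : w = y := Subtype.ext hwy
      rw [this] at hw
      exact hw
    · intro h
      exact ⟨y, h, rfl⟩
  have hF'n : F'.Countable := by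
    refine ((hS.preimage Subtype.val_injective).image π).mono ?_
    rintro _ ⟨y, hy, rfl⟩
    have hy1 : (y : ℂ) ∈ F := hy
    rw [hFS, mem_iUnion₂] at hy1
    obtain ⟨x, hxS, hx⟩ := hy1
    by_cases hxE : x ∈ E
    · refine ⟨⟨x, hxE⟩, hxS, ?_⟩
      exact ((hmem ⟨x, hxE⟩ y).1 hx).symm
    · rw [connectedComponentIn_eq_empty hxE] at hx
      exact absurd hx (notMem_empty _)
  have main := noeth hF'c hF'n (fun C => P (Subtype.val '' (π ⁻¹' C))) ?_ ?_ ?_
  · have e : Subtype.val '' (π ⁻¹' (univ : Set (ConnectedComponents E))) = E := by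
      rw [preimage_univ, image_univ, Subtype.range_coe]
    rwa [e] at main
  · intro C hC hCF
    refine base _ (hsub C) (hcomp C hC.isClosed) ?_ ?_
    · rw [hcompl]
      exact hcomp _ hC.compl.isClosed
    · rw [disjoint_left]
      rintro _ ⟨y, hy, rfl⟩ hyF
      exact (disjoint_left.1 hCF) hy ⟨y, hyF, rfl⟩
  · intro C C' hC hC' hd h h'
    rw [preimage_union, image_union]
    refine union _ _ (hsub C) (hsub C') (hcomp C hC.isClosed) (hcomp C' hC'.isClosed) ?_ h h'
    rw [disjoint_left]
    rintro _ ⟨y, hy, rfl⟩ ⟨w, hw, hwy⟩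
    have : w = y := Subtype.ext hwy
    rw [this] at hw
    exact (disjoint_left.1 hd) hy hw
  · intro C hC x hx hlim
    obtain ⟨y, rfl⟩ := hπs x
    refine lim _ (hsub C) (hcomp C hC.isClosed) ?_ y ⟨y, hx, rfl⟩ ?_
    · rw [hcompl]
      exact hcomp _ hC.compl.isClosed
    · intro A' hA' hAc hAc' hdis
      set B : Set E := Subtype.val ⁻¹' A' with hB
      have hBc : IsClopen B := by
        constructor
        · exact hAc.isClosed.preimage continuous_subtype_val
        · rw [← isClosed_compl_iff]
          have : Bᶜ = Subtype.val ⁻¹' (E \ A') := by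
            ext w
            simp [hB]
          rw [this]
          exact hAc'.isClosed.preimage continuous_subtype_val
      have hBB : π ⁻¹' (π '' B) = B := by
        have h1 := connectedComponents_preimage_image B
        rw [hBc.biUnion_connectedComponent_eq] at h1
        exact h1
      have hC' : IsClopen (π '' B) := by
        rw [← hπq.isClopen_preimage, hBB]
        exact hBc
      have hAB : Subtype.val '' (π ⁻¹' (π '' B)) = A' := by
        rw [hBB, hB, Subtype.image_preimage_coe]
        exact inter_eq_right.2 (hA'.trans (hsub C))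
      have h2 := hlim (π '' B) hC' ?_ ?_
      · rwa [hAB] at h2
      · rintro _ ⟨w, hw, rfl⟩
        obtain ⟨v, hv, hvw⟩ := hA' hw
        have : v = w := Subtype.ext hvw
        rw [this] at hv
        exact hv
      · rintro ⟨w, hw, hwy⟩
        exact (disjoint_left.1 hdis) hw ((hmem y w).2 hwy)

end RSM2
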