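import Pool.Agent.RSM2.Law
import Pool.Agent.RSM2.V8

/-!
# RSM2 module S1: independent products of laws, restriction

PROOFS.
* `eventually_conv`: definition of `Ultrafilter.bind` and of `map`
  (`Filter.eventually_bind`, or `Filter.mem_bind'`; `Ultrafilter.bind` is defined by
  `ofComplNotMemIff` from the filter bind, so membership in it is membership in `Filter.bind`, by
  `rfl`).
* `conv_assoc`: `Ultrafilter.ext`, `eventually_conv` twice on both sides, associativity of `∪`.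
* `map_res_conv_left`: for `S ∈ p₁`: `res U (c₁ ∪ c₂) = c₁` for almost all `c₁`, `c₂` (all holes of
  `c₁` are in `U`, no hole of `c₂` is), so `S ∈ (conv p₁ p₂).map (res U)`; two ultrafilters
  are equal if one is `≤` the other (`Ultrafilter.eq_of_le`).  `map_res_conv_right'`: in the same
  way `res U (c₁ ∪ c₂) = res U c₂`... for almost all `c₁` no hole of `c₁` is in `U`, so
  `res U (c₁ ∪ c₂) = res U c₂`; `map_res_conv_left'`: `res U (c₁ ∪ c₂) = res U c₁`.
* `PreLaw.conv`: `A₁`, `A₂` are disjoint compact sets; they have disjoint open neighbourhoods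
  `O₁, O₂`, so `un c₁ ⊆ O₁`, `un c₂ ⊆ O₂` almost surely, and `c₁ ∪ c₂` is valid.
* `GoodLaw.pre`: clear.
-/

open Complex Set Metric Filter Topology MeasureTheory

namespace RSM2

/-- A law without the goodness property. -/
structure PreLaw (θ : ℂ → ℝ) (A : Set ℂ) (p : Ultrafilter Cfg) : Prop where
  valid : ∀ᶠ c in (p : Filter Cfg), Valid c
  loc : ∀ U : Set ℂ, IsOpen U → A ⊆ U → ∀ᶠ c in (p : Filter Cfg), un c ⊆ U
  ang : ∀ᶠ c in (p : Filter Cfg), ∀ h ∈ c, ∃ z ∈ h.1 ∩ A, h.2 = θ z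

theorem GoodLaw.pre {θ : ℂ → ℝ} {A : Set ℂ} {p : Ultrafilter Cfg} (h : GoodLaw θ A p) :
    PreLaw θ A p := ⟨h.valid, h.loc, h.ang⟩

open Classical in
/-- The law of the union of two independent configurations. -/
noncomputable def conv (p₁ p₂ : Ultrafilter Cfg) : Ultrafilter Cfg :=
  p₁.bind fun c₁ => p₂.map fun c₂ => c₁ ∪ c₂

open Classical in
/-- The holes of `c` which are contained in `U`. -/
noncomputable def res (U : Set ℂ) (c : Cfg) : Cfg := c.filter fun h => h.1 ⊆ U

open Classical in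
theorem eventually_conv {p₁ p₂ : Ultrafilter Cfg} {P : Cfg → Prop} :
    (∀ᶠ c in (conv p₁ p₂ : Filter Cfg), P c) ↔
      ∀ᶠ c₁ in (p₁ : Filter Cfg), ∀ᶠ c₂ in (p₂ : Filter Cfg), P (c₁ ∪ c₂) := by
  exact Iff.rfl

theorem conv_assoc (p₁ p₂ p₃ : Ultrafilter Cfg) :
    conv (conv p₁ p₂) p₃ = conv p₁ (conv p₂ p₃) := by
  classical
  apply Ultrafilter.coe_injective
  ext s
  change (∀ᶠ c in (conv (conv p₁ p₂) p₃ : Filter Cfg), c ∈ s) ↔
    (∀ᶠ c in (conv p₁ (conv p₂ p₃) : Filter Cfg), c ∈ s)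
  rw [eventually_conv, eventually_conv, eventually_conv]
  simp only [eventually_conv, Finset.union_assoc]

theorem map_res_conv_left {p₁ p₂ : Ultrafilter Cfg} {U : Set ℂ}
    (h2 : ∀ᶠ c in (p₂ : Filter Cfg), ∀ h ∈ c, ¬ h.1 ⊆ U) :
    (conv p₁ p₂).map (res U) = p₁.map (res U) := by
  classical
  apply Ultrafilter.coe_injective
  ext s
  change (∀ᶠ c in (conv p₁ p₂ : Filter Cfg), res U c ∈ s) ↔
    (∀ᶠ c in (p₁ : Filter Cfg), res U c ∈ s)
  rw [eventually_conv]
  apply eventually_congr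
  filter_upwards with c₁
  have h3 : ∀ᶠ c₂ in (p₂ : Filter Cfg), (res U (c₁ ∪ c₂) ∈ s ↔ res U c₁ ∈ s) := by
    filter_upwards [h2] with c₂ hc₂
    have h4 : res U (c₁ ∪ c₂) = res U c₁ := by
      unfold res
      ext h
      simp only [Finset.mem_filter, Finset.mem_union]
      constructor
      · rintro ⟨h5 | h5, h6⟩
        · exact ⟨h5, h6⟩
        · exact absurd h6 (hc₂ h h5)
      · rintro ⟨h5, h6⟩
        exact ⟨Or.inl h5, h6⟩
    rw [h4]
  rw [eventually_congr h3, eventually_const]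

theorem map_res_conv_right {p₁ p₂ : Ultrafilter Cfg} {U : Set ℂ}
    (h1 : ∀ᶠ c in (p₁ : Filter Cfg), ∀ h ∈ c, ¬ h.1 ⊆ U) :
    (conv p₁ p₂).map (res U) = p₂.map (res U) := by
  classical
  apply Ultrafilter.coe_injective
  ext s
  change (∀ᶠ c in (conv p₁ p₂ : Filter Cfg), res U c ∈ s) ↔
    (∀ᶠ c in (p₂ : Filter Cfg), res U c ∈ s)
  rw [eventually_conv]
  have h3 : ∀ᶠ c₁ in (p₁ : Filter Cfg), ((∀ᶠ c₂ in (p₂ : Filter Cfg), res U (c₁ ∪ c₂) ∈ s) ↔
      (∀ᶠ c₂ in (p₂ : Filter Cfg), res U c₂ ∈ s)) := by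
    filter_upwards [h1] with c₁ hc₁
    apply eventually_congr
    filter_upwards with c₂
    have h4 : res U (c₁ ∪ c₂) = res U c₂ := by
      unfold res
      ext h
      simp only [Finset.mem_filter, Finset.mem_union]
      constructor
      · rintro ⟨h5 | h5, h6⟩
        · exact absurd h6 (hc₁ h h5)
        · exact ⟨h5, h6⟩
      · rintro ⟨h5, h6⟩
        exact ⟨Or.inr h5, h6⟩
    rw [h4]
  rw [eventually_congr h3, eventually_const]

theorem map_res_self {p : Ultrafilter Cfg} {U : Set ℂ}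
    (h : ∀ᶠ c in (p : Filter Cfg), ∀ h ∈ c, h.1 ⊆ U) : p.map (res U) = p := by
  classical
  apply Ultrafilter.coe_injective
  ext s
  change (∀ᶠ c in (p : Filter Cfg), res U c ∈ s) ↔ (∀ᶠ c in (p : Filter Cfg), c ∈ s)
  apply eventually_congr
  filter_upwards [h] with c hc
  have h4 : res U c = c := by
    unfold res
    rw [Finset.filter_eq_self]
    exact hc
  rw [h4]

theorem PreLaw.conv {θ : ℂ → ℝ} {A₁ A₂ : Set ℂ} {p₁ p₂ : Ultrafilter Cfg} (h₁ : IsCompact A₁)
    (h₂ : IsCompact A₂) (hd : Disjoint A₁ A₂) (hp₁ : PreLaw θ A₁ p₁) (hp₂ : PreLaw θ A₂ p₂) :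
    PreLaw θ (A₁ ∪ A₂) (RSM2.conv p₁ p₂) := by
  classical
  obtain ⟨O₁, O₂, hO₁, hO₂, hA₁, hA₂, hO⟩ := SeparatedNhds.of_isCompact_isCompact h₁ h₂ hd
  constructor
  · rw [eventually_conv]
    filter_upwards [hp₁.valid, hp₁.loc O₁ hO₁ hA₁] with c₁ hv₁ hu₁
    filter_upwards [hp₂.valid, hp₂.loc O₂ hO₂ hA₂] with c₂ hv₂ hu₂
    constructor
    · intro h hh
      rcases Finset.mem_union.mp hh with hh | hh
      · exact hv₁.compact h hh
      · exact hv₂.compact h hh
    · intro h hh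
      rcases Finset.mem_union.mp hh with hh | hh
      · exact hv₁.conn h hh
      · exact hv₂.conn h hh
    · intro h hh
      rcases Finset.mem_union.mp hh with hh | hh
      · exact hv₁.nontriv h hh
      · exact hv₂.nontriv h hh
    · intro h hh
      rcases Finset.mem_union.mp hh with hh | hh
      · exact hv₁.compl h hh
      · exact hv₂.compl h hh
    · intro h hh h' hh' hne
      rcases Finset.mem_union.mp hh with hh | hh
      · rcases Finset.mem_union.mp hh' with hh' | hh'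
        · exact hv₁.disj h hh h' hh' hne
        · exact hO.mono ((subset_un hh).trans hu₁) ((subset_un hh').trans hu₂)
      · rcases Finset.mem_union.mp hh' with hh' | hh'
        · exact (hO.mono ((subset_un hh').trans hu₁) ((subset_un hh).trans hu₂)).symm
        · exact hv₂.disj h hh h' hh' hne
  · intro U hU hAU
    rw [eventually_conv]
    filter_upwards [hp₁.loc U hU (subset_union_left.trans hAU)] with c₁ hu₁
    filter_upwards [hp₂.loc U hU (subset_union_right.trans hAU)] with c₂ hu₂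
    rw [un_union]
    exact union_subset hu₁ hu₂
  · rw [eventually_conv]
    filter_upwards [hp₁.ang] with c₁ ha₁
    filter_upwards [hp₂.ang] with c₂ ha₂
    intro h hh
    rcases Finset.mem_union.mp hh with hh | hh
    · obtain ⟨z, hz, hθ⟩ := ha₁ h hh
      exact ⟨z, ⟨hz.1, Or.inl hz.2⟩, hθ⟩
    · obtain ⟨z, hz, hθ⟩ := ha₂ h hh
      exact ⟨z, ⟨hz.1, Or.inr hz.2⟩, hθ⟩

end RSM2
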