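import Pool.Agent.RSM2.S1

/-!
# RSM2 module S2: goodness of a law at the components of a piece; unions

PROOF of `good_of_res`.  Let `c' i = res U (c i)`, `e' i = e i ∪ (c i).filter (¬ h.1 ⊆ U)`,
`V' = V ∩ U ⊇ A'`.  `r.map c' = (r.map c).map (res U) = p'`.  `c' i ∪ e' i = c i ∪ e i`.  For almost all
`i` the holes of `e' i` are disjoint from `V'`: those of `e i` from `V`, the others from `U`
(`hout`, transported by `r.map c = p`).  `V' \ A' ⊆ V \ A` as `U ∩ A = A'` (`hdisj`).  So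
`hp'.good` applies to `ι, r, c', e', G, f, V', R`, and gives for `x ∈ A'` the limit along
`nearIn (V' \ A') (connectedComponentIn A' x)`.  This filter is equal to
`nearIn (V \ A) (connectedComponentIn A x)`: the components are equal (`component_clopen`), and
`V'` is an open neighbourhood of the component with `V' ∩ (V \ A) = V' \ A'` (`mem_nearIn`).
PROOF of `good_union`.  `A₁`, `A₂` have open neighbourhoods `U₁`, `U₂` with disjoint
closures... with `U₁ ∩ U₂ = ∅`.  `p = conv p₁ p₂`, `PreLaw.conv`.  Almost surely `un c₁ ⊆ U₁`,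
`un c₂ ⊆ U₂` and the holes are nonempty, so no hole of `c₂` is contained in `U₁`:
`p.map (res U₁) = p₁` (`map_res_conv_left`, `map_res_self`), `p.map (res U₂) = p₂`.  Apply
`good_of_res` with `A' = A₁`, `U = U₁` for `x ∈ A₁`, and with `A' = A₂`, `U = U₂` for `x ∈ A₂`.
-/

open Complex Set Metric Filter Topology MeasureTheory

namespace RSM2

open Classical in
theorem good_of_res {θ : ℂ → ℝ} {A A' : Set ℂ} (hA' : IsCompact A') (hAA' : A' ⊆ A)
    (hAc : IsCompact (A \ A')) {p p' : Ultrafilter Cfg} (hp' : GoodLaw θ A' p') {U : Set ℂ}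
    (hU : IsOpen U) (hA'U : A' ⊆ U) (hdisj : Disjoint U (A \ A')) (hmap : p.map (res U) = p')
    (hout : ∀ᶠ c in (p : Filter Cfg), ∀ h ∈ c, h.1 ⊆ U ∨ Disjoint h.1 U)
    (ι : Type) (r : Ultrafilter ι) (c e : ι → Cfg) (G : ι → ℂ → ℂ) (f : ℂ → ℂ)
    (V : Set ℂ) (R : ℝ) (hV : IsOpen V) (hAV : A ⊆ V) (hr : r.map c = p)
    (hG : ∀ᶠ i in (r : Filter ι), (∀ h ∈ e i, Disjoint h.1 V) ∧ Valid (c i ∪ e i) ∧
      Sol (c i ∪ e i) (G i) ∧ un (c i ∪ e i) ⊆ closedBall 0 R)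
    (hf : ∀ K ⊆ V \ A, IsCompact K → TendstoUniformlyOn G f (r : Filter ι) K) :
    ∀ x ∈ A', ∃ q : ℝ, Tendsto (fun z => nrm (θ x) (f z))
      (nearIn (V \ A) (connectedComponentIn A x)) (𝓝 q) := by
  intro x hx
  have hsub : (V ∩ U) \ A' ⊆ V \ A := by
    rintro z ⟨⟨hzV, hzU⟩, hzA'⟩
    refine ⟨hzV, fun hzA => ?_⟩
    exact (Set.disjoint_left.mp hdisj) hzU ⟨hzA, hzA'⟩
  have heq : ∀ i, res U (c i) ∪ (e i ∪ (c i).filter fun h => ¬ h.1 ⊆ U) = c i ∪ e i := by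
    intro i
    ext h
    simp only [res, Finset.mem_union, Finset.mem_filter]
    tauto
  have hout' : ∀ᶠ i in (r : Filter ι), ∀ h ∈ c i, h.1 ⊆ U ∨ Disjoint h.1 U := by
    rw [← hr, Ultrafilter.coe_map, Filter.eventually_map] at hout
    exact hout
  have key := hp'.good ι r (fun i => res U (c i))
    (fun i => e i ∪ (c i).filter fun h => ¬ h.1 ⊆ U) G f (V ∩ U) R (hV.inter hU)
    (fun z hz => ⟨hAV (hAA' hz), hA'U hz⟩)
    (by
      rw [← hmap, ← hr, Ultrafilter.map_map]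
      rfl)
    (by
      filter_upwards [hG, hout'] with i hi ho
      obtain ⟨h1, h2, h3, h4⟩ := hi
      rw [heq i]
      refine ⟨?_, h2, h3, h4⟩
      intro h hh
      rw [Finset.mem_union, Finset.mem_filter] at hh
      rcases hh with hh | ⟨hh, hhU⟩
      · exact (h1 h hh).mono_right inter_subset_left
      · rcases ho h hh with ho | ho
        · exact absurd ho hhU
        · exact ho.mono_right inter_subset_right)
    (fun K hK hKc => hf K (hK.trans hsub) hKc) x hx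
  obtain ⟨q, hq⟩ := key
  refine ⟨q, hq.mono_left ?_⟩
  rw [component_clopen hA' hAA' hAc hx]
  unfold nearIn
  have hK : connectedComponentIn A x ⊆ A' := by
    rw [← component_clopen hA' hAA' hAc hx]
    exact connectedComponentIn_subset _ _
  have hV' : V ∩ U ∈ 𝓝ˢ (connectedComponentIn A x) :=
    (hV.inter hU).mem_nhdsSet.mpr fun z hz => ⟨hAV (hAA' (hK hz)), hA'U (hK hz)⟩
  refine le_inf inf_le_left ?_
  rw [le_principal_iff]
  filter_upwards [mem_inf_of_left hV', mem_inf_of_right (mem_principal_self (V \ A))] with z hz1 hz2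
  exact ⟨hz1, fun h => hz2.2 (hAA' h)⟩

theorem good_union {θ : ℂ → ℝ} {A₁ A₂ : Set ℂ} (h₁ : IsCompact A₁) (h₂ : IsCompact A₂)
    (hd : Disjoint A₁ A₂) {p₁ p₂ : Ultrafilter Cfg} (hp₁ : GoodLaw θ A₁ p₁)
    (hp₂ : GoodLaw θ A₂ p₂) : ∃ p : Ultrafilter Cfg, GoodLaw θ (A₁ ∪ A₂) p := by
  classical
  obtain ⟨U₁, U₂, hU₁, hU₂, hA₁, hA₂, hdU⟩ := SeparatedNhds.of_isCompact_isCompact h₁ h₂ hd
  have pre := PreLaw.conv h₁ h₂ hd hp₁.pre hp₂.pre
  have in₁ : ∀ᶠ c in (p₁ : Filter Cfg), ∀ h ∈ c, h.1 ⊆ U₁ := by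
    filter_upwards [hp₁.loc U₁ hU₁ hA₁] with c hc h hh z hz
    exact hc (mem_un.mpr ⟨h, hh, hz⟩)
  have in₂ : ∀ᶠ c in (p₂ : Filter Cfg), ∀ h ∈ c, h.1 ⊆ U₂ := by
    filter_upwards [hp₂.loc U₂ hU₂ hA₂] with c hc h hh z hz
    exact hc (mem_un.mpr ⟨h, hh, hz⟩)
  have not₁ : ∀ᶠ c in (p₁ : Filter Cfg), ∀ h ∈ c, ¬ h.1 ⊆ U₂ := by
    filter_upwards [in₁, hp₁.valid] with c hc hv h hh hsub
    obtain ⟨z, hz⟩ := (hv.nontriv h hh).nonempty
    exact (Set.disjoint_left.mp hdU) (hc h hh hz) (hsub hz)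
  have not₂ : ∀ᶠ c in (p₂ : Filter Cfg), ∀ h ∈ c, ¬ h.1 ⊆ U₁ := by
    filter_upwards [in₂, hp₂.valid] with c hc hv h hh hsub
    obtain ⟨z, hz⟩ := (hv.nontriv h hh).nonempty
    exact (Set.disjoint_left.mp hdU) (hsub hz) (hc h hh hz)
  have e₁ : (A₁ ∪ A₂) \ A₁ = A₂ := by
    rw [union_sdiff_left]
    exact hd.symm.sdiff_eq_left
  have e₂ : (A₁ ∪ A₂) \ A₂ = A₁ := by
    rw [union_sdiff_right]
    exact hd.sdiff_eq_left
  have out₁ : ∀ᶠ c in (conv p₁ p₂ : Filter Cfg), ∀ h ∈ c, h.1 ⊆ U₁ ∨ Disjoint h.1 U₁ := by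
    rw [eventually_conv]
    filter_upwards [in₁] with c₁ hc₁
    filter_upwards [in₂] with c₂ hc₂ h hh
    rcases Finset.mem_union.mp hh with hh | hh
    · exact Or.inl (hc₁ h hh)
    · exact Or.inr (hdU.symm.mono_left (hc₂ h hh))
  have out₂ : ∀ᶠ c in (conv p₁ p₂ : Filter Cfg), ∀ h ∈ c, h.1 ⊆ U₂ ∨ Disjoint h.1 U₂ := by
    rw [eventually_conv]
    filter_upwards [in₁] with c₁ hc₁
    filter_upwards [in₂] with c₂ hc₂ h hh
    rcases Finset.mem_union.mp hh with hh | hh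
    · exact Or.inr (hdU.mono_left (hc₁ h hh))
    · exact Or.inl (hc₂ h hh)
  have m₁ : (conv p₁ p₂).map (res U₁) = p₁ := by
    rw [map_res_conv_left not₂, map_res_self in₁]
  have m₂ : (conv p₁ p₂).map (res U₂) = p₂ := by
    rw [map_res_conv_right not₁, map_res_self in₂]
  refine ⟨conv p₁ p₂, pre.valid, pre.loc, pre.ang, ?_⟩
  intro ι r c e G f V R hV hAV hr hG hf x hx
  rcases hx with hx | hx
  · refine good_of_res h₁ subset_union_left (by rw [e₁]; exact h₂) hp₁ hU₁ hA₁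
      (by rw [e₁]; exact hdU.mono_right hA₂) m₁ out₁ ι r c e G f V R hV hAV hr hG hf x hx
  · refine good_of_res h₂ subset_union_right (by rw [e₂]; exact h₁) hp₂ hU₂ hA₂
      (by rw [e₂]; exact hdU.symm.mono_right hA₁) m₂ out₂ ι r c e G f V R hV hAV hr hG hf x hx

end RSM2
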