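import Pool.Agent.RSM2.V8

/-!
# RSM2 module V9: filled neighbourhoods of a component

PROOF of `exists_fill`.  Let `K = connectedComponentIn E x`, compact, `Kᶜ` is connected
(`compl_component`), open, so path connected.
(1) There is `η > 0` such that the unbounded component `W_∞` of `(cthickening η K)ᶜ` contains `Uᶜ`:
let `K ⊆ ball 0 R₀`, `cthickening 1 K ⊆ ball 0 R₀`; `Q = closedBall 0 R₀ \ U` is compact, `Q ⊆ Kᶜ`.
Every `z ∈ Q` can be joined in `Kᶜ` to a point of norm `> R₀` by a path; together with a
small closed ball around `z` this gives a compact connected subset `P_z` of `Kᶜ`, a neighbourhood of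
`z`.  Finitely many `P_z` cover `Q`; take `η < 1` smaller than their distances to `K`.  The set
`{‖w‖ ≥ R₀}` is connected and does not meet `cthickening η K`.
(2) By `exists_clopen` there is a clopen piece `E₁` of `E` with `K ⊆ E₁ ⊆ thickening (η/2) K`.
Let `0 < δ < η/2` with `2δ < dist (E₁, E \ E₁)` (disjoint compact sets), `N = thickening δ E₁`,
`N₀` = the component of `N` which contains `K`: open, connected, `closure N₀ ⊆ cthickening δ E₁ ⊆
thickening η K`, `frontier N₀ ⊆ frontier N ⊆ {w | infDist w E₁ = δ}`, which is disjoint from `E`.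
(3) `C₀ = closure N₀` is compact and connected.  Let `W` be the component of `C₀ᶜ` which contains
`W_∞ ∪ {‖w‖ ≥ R₀}` and `B = Wᶜ`.  Then `Bᶜ = W` is connected; `B` is closed and bounded, so
compact; `Uᶜ ⊆ W`, so `B ⊆ U`; `K ⊆ N₀ ⊆ interior B`; `B` is nontrivial since its interior is not
empty; `frontier B = frontier W ⊆ C₀ ∩ closure C₀ᶜ = frontier C₀ ⊆ frontier N₀` is disjoint from
`E`.  `B` is connected: `B = C₀ ∪ ⋃ W'` over the other components `W'` of `C₀ᶜ`, and
`closure W'` is connected and meets `C₀` (`frontier W'` is nonempty and contained in `C₀`).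
PROOF of `exists_fill_seq`.  Recursively: `B 0` for `U = univ`, `B (n+1)` for
`U = thickening (1/(n+1)) K ∩ interior (B n)`.  If `K ⊆ U`, `U` open, then
`thickening (1/(n+1)) K ⊆ U` for some `n` (compactness), and the sequence is decreasing.
-/

open Complex Set Metric Filter Topology MeasureTheory

namespace RSM2

theorem v9_preconn (R : ℝ) : IsPreconnected {z : ℂ | R < ‖z‖} := by
  rcases lt_or_ge R 0 with h | h
  · have : {z : ℂ | R < ‖z‖} = univ := by
      ext z
      simp only [mem_ofPred_eq, mem_univ, iff_true]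
      exact h.trans_le (norm_nonneg z)
    rw [this]
    exact isPreconnected_univ
  · have h1 : {z : ℂ | R < ‖z‖} = (fun p : ℝ × ℝ => (p.1 : ℂ) * exp (p.2 * I)) '' (Ioi R ×ˢ univ) := by
      ext z
      simp only [mem_ofPred_eq, mem_image, mem_prod, mem_Ioi, mem_univ, and_true, Prod.exists]
      constructor
      · intro hz
        exact ⟨‖z‖, arg z, hz, norm_mul_exp_arg_mul_I z⟩
      · rintro ⟨a, b, ha, rfl⟩
        rw [norm_mul, Complex.norm_exp_ofReal_mul_I, mul_one, Complex.norm_real, Real.norm_eq_abs,
          abs_of_pos (h.trans_lt ha)]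
        exact ha
    rw [h1]
    refine (isPreconnected_Ioi.prod isPreconnected_univ).image _ ?_
    fun_prop

/-- The frontier of a component of an open set does not meet the open set. -/
theorem v9_frontier {O : Set ℂ} (hO : IsOpen O) (y : ℂ) :
    frontier (connectedComponentIn O y) ⊆ Oᶜ := by
  intro z hz hzO
  have ho : IsOpen (connectedComponentIn O y) := hO.connectedComponentIn
  have ho' : IsOpen (connectedComponentIn O z) := hO.connectedComponentIn
  rw [ho.frontier_eq] at hz
  have h1 : z ∈ connectedComponentIn O z := mem_connectedComponentIn hzO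
  obtain ⟨w, hw, hw'⟩ := mem_closure_iff.1 hz.1 _ ho' h1
  have h2 := connectedComponentIn_eq hw
  have h3 := connectedComponentIn_eq hw'
  rw [h2, ← h3] at h1
  exact hz.2 h1

/-- Filling the holes of a continuum. -/
theorem v9_fill {C : Set ℂ} (hC : IsCompact C) (hCc : IsConnected C) {p : ℂ} {R : ℝ}
    (hCR : C ⊆ closedBall 0 R) (hp : R < ‖p‖) :
    IsCompact (connectedComponentIn Cᶜ p)ᶜ ∧ IsConnected (connectedComponentIn Cᶜ p)ᶜ ∧
      IsConnected (connectedComponentIn Cᶜ p) ∧ C ⊆ (connectedComponentIn Cᶜ p)ᶜ ∧
      frontier (connectedComponentIn Cᶜ p)ᶜ ⊆ C := by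
  have hO : IsOpen Cᶜ := hC.isClosed.isOpen_compl
  have hpC : p ∈ Cᶜ := fun h => by
    have := mem_closedBall_zero_iff.1 (hCR h)
    linarith
  have hWo : IsOpen (connectedComponentIn Cᶜ p) := hO.connectedComponentIn
  have hfar : {z : ℂ | R < ‖z‖} ⊆ connectedComponentIn Cᶜ p := by
    refine (v9_preconn R).subset_connectedComponentIn hp fun z hz hzC => ?_
    have := mem_closedBall_zero_iff.1 (hCR hzC)
    exact absurd (show R < ‖z‖ from hz) (not_lt.2 this)
  have hcl : IsClosed (connectedComponentIn Cᶜ p)ᶜ := hWo.isClosed_compl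
  have hCB : C ⊆ (connectedComponentIn Cᶜ p)ᶜ := fun z hz h =>
    connectedComponentIn_subset _ _ h hz
  have hfr : frontier (connectedComponentIn Cᶜ p)ᶜ ⊆ C := by
    rw [frontier_compl]
    have := v9_frontier hO p
    rwa [compl_compl] at this
  refine ⟨?_, ?_, isConnected_connectedComponentIn_iff.2 hpC, hCB, hfr⟩
  · refine (isCompact_closedBall (0 : ℂ) R).of_isClosed_subset hcl fun z hz => ?_
    rw [mem_closedBall_zero_iff]
    by_contra h
    exact hz (hfar (not_le.1 h))
  · obtain ⟨a, ha⟩ := hCc.nonempty
    refine ⟨⟨a, hCB ha⟩, isPreconnected_of_forall a fun y hy => ?_⟩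
    by_cases hyC : y ∈ C
    · exact ⟨C, hCB, ha, hyC, hCc.isPreconnected⟩
    · have hyO : y ∈ Cᶜ := hyC
      have hdis : Disjoint (connectedComponentIn Cᶜ y) (connectedComponentIn Cᶜ p) := by
        rw [disjoint_left]
        intro w hw hw'
        have h1 := connectedComponentIn_eq hw
        have h2 := connectedComponentIn_eq hw'
        apply hy
        rw [h2, ← h1]
        exact mem_connectedComponentIn hyO
      have hsub : connectedComponentIn Cᶜ y ⊆ (connectedComponentIn Cᶜ p)ᶜ :=
        subset_compl_iff_disjoint_right.2 hdis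
      have hcls : closure (connectedComponentIn Cᶜ y) ⊆ (connectedComponentIn Cᶜ p)ᶜ :=
        closure_minimal hsub hcl
      have hne : (frontier (connectedComponentIn Cᶜ y)).Nonempty := by
        by_contra hemp
        rw [not_nonempty_iff_eq_empty, ← isClopen_iff_frontier_eq_empty] at hemp
        rcases isClopen_iff.1 hemp with h | h
        · have := mem_connectedComponentIn hyO
          rw [h] at this
          exact this
        · have h1 : p ∈ connectedComponentIn Cᶜ y := by
            rw [h]
            trivial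
          exact disjoint_left.1 hdis h1 (mem_connectedComponentIn hpC)
      obtain ⟨b, hb⟩ := hne
      have hbC : b ∈ C := by
        have := v9_frontier hO y hb
        rwa [compl_compl] at this
      refine ⟨C ∪ closure (connectedComponentIn Cᶜ y), union_subset hCB hcls, Or.inl ha,
        Or.inr (subset_closure (mem_connectedComponentIn hyO)), ?_⟩
      exact hCc.isPreconnected.union b hbC (frontier_subset_closure hb)
        isPreconnected_connectedComponentIn.closure

/-- The unbounded component of the complement of a small neighbourhood of `K` exhausts `Kᶜ`. -/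
theorem v9_exhaust {K : Set ℂ} (hK : IsCompact K) (hKc : IsConnected Kᶜ) {U : Set ℂ}
    (hU : IsOpen U) (hKU : K ⊆ U) {p : ℂ} {R : ℝ} (hKR : cthickening 1 K ⊆ closedBall 0 R)
    (hp : R < ‖p‖) :
    ∃ η > 0, η ≤ 1 ∧ Uᶜ ⊆ connectedComponentIn (cthickening η K)ᶜ p := by
  set W : ℕ → Set ℂ := fun n => connectedComponentIn (cthickening (1 / ((n : ℝ) + 1)) K)ᶜ p
    with hW
  have hη : ∀ n : ℕ, (0 : ℝ) < 1 / ((n : ℝ) + 1) := fun n => by positivity
  have hη1 : ∀ n : ℕ, (1 : ℝ) / ((n : ℝ) + 1) ≤ 1 := fun n => by
    rw [div_le_one (by positivity)]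
    linarith [Nat.cast_nonneg (α := ℝ) n]
  have hmono : Monotone W := by
    intro n m hnm
    refine connectedComponentIn_mono _ (compl_subset_compl.2 (cthickening_mono ?_ _))
    exact one_div_le_one_div_of_le (by positivity) (by exact_mod_cast Nat.succ_le_succ hnm)
  have hfar : ∀ n, {z : ℂ | R < ‖z‖} ⊆ W n := by
    intro n
    refine (v9_preconn R).subset_connectedComponentIn hp fun z hz hzC => ?_
    have := mem_closedBall_zero_iff.1 (hKR (cthickening_mono (hη1 n) _ hzC))
    exact absurd (show R < ‖z‖ from hz) (not_lt.2 this)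
  have hWo : ∀ n, IsOpen (W n) := fun n =>
    (isClosed_cthickening.isOpen_compl).connectedComponentIn
  have hall : Kᶜ ⊆ ⋃ n, W n := by
    refine hKc.isPreconnected.subset_of_closure_inter_subset (isOpen_iUnion hWo) ?_ ?_
    · refine ⟨p, fun h => ?_, mem_iUnion.2 ⟨0, hfar 0 hp⟩⟩
      have := mem_closedBall_zero_iff.1 (hKR (self_subset_cthickening _ h))
      linarith
    · rintro z ⟨hz, hzK⟩
      have hzd : 0 < infDist z K ∨ K = ∅ := by
        rcases K.eq_empty_or_nonempty with h | h
        · exact Or.inr h
        · exact Or.inl ((hK.isClosed.notMem_iff_infDist_pos h).1 hzK)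
      obtain ⟨n, hn⟩ : ∃ n : ℕ, ball z (1 / ((n : ℝ) + 1)) ⊆
          (cthickening (1 / ((n : ℝ) + 1)) K)ᶜ := by
        rcases hzd with h | h
        · obtain ⟨n, hn⟩ := exists_nat_one_div_lt (half_pos h)
          refine ⟨n, fun w hw hwK => ?_⟩
          have hne : K.Nonempty := by
            by_contra hemp
            rw [not_nonempty_iff_eq_empty] at hemp
            rw [hemp, infDist_empty] at h
            exact lt_irrefl _ h
          have h1 : infDist w K ≤ 1 / ((n : ℝ) + 1) := by
            rw [mem_cthickening_iff] at hwK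
            rw [infDist]
            refine ENNReal.toReal_le_of_le_ofReal (hη n).le hwK
          have h2 : infDist z K ≤ infDist w K + dist z w := infDist_le_infDist_add_dist
          have h3 : dist z w < 1 / ((n : ℝ) + 1) := by
            rw [dist_comm]
            exact hw
          linarith
        · refine ⟨0, ?_⟩
          rw [h, cthickening_empty, compl_empty]
          exact subset_univ _
      obtain ⟨w, hw, hw'⟩ := mem_closure_iff.1 hz _ isOpen_ball (mem_ball_self (hη n))
      obtain ⟨m, hm⟩ := mem_iUnion.1 hw'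
      have hk1 : n ≤ max n m := le_max_left _ _
      have hk2 : w ∈ W (max n m) := hmono (le_max_right _ _) hm
      refine mem_iUnion.2 ⟨max n m, ?_⟩
      have h4 := connectedComponentIn_eq hk2
      have h5 : ball z (1 / ((n : ℝ) + 1)) ⊆ connectedComponentIn
          (cthickening (1 / (((max n m : ℕ) : ℝ) + 1)) K)ᶜ w := by
        refine (convex_ball _ _).isPreconnected.subset_connectedComponentIn hw
          (hn.trans (compl_subset_compl.2 (cthickening_mono ?_ _)))
        exact one_div_le_one_div_of_le (by positivity) (by exact_mod_cast Nat.succ_le_succ hk1)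
      show z ∈ connectedComponentIn _ p
      rw [h4]
      exact h5 (mem_ball_self (hη n))
  have hcomp : IsCompact (closedBall (0 : ℂ) R \ U) := (isCompact_closedBall 0 R).diff hU
  obtain ⟨n, hn⟩ := hcomp.elim_directed_cover W hWo
    (fun z hz => hall fun h => hz.2 (hKU h)) (hmono.directed_le)
  refine ⟨1 / ((n : ℝ) + 1), hη n, hη1 n, fun z hz => ?_⟩
  by_cases hzR : R < ‖z‖
  · exact hfar n hzR
  · exact hn ⟨mem_closedBall_zero_iff.2 (not_lt.1 hzR), hz⟩


/-- `B` is a filled neighbourhood of `K`, with frontier off `E`. -/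
structure Filled (E K B : Set ℂ) : Prop where
  compact : IsCompact B
  conn : IsConnected B
  nontriv : B.Nontrivial
  compl : IsConnected Bᶜ
  sub : K ⊆ interior B
  fr : Disjoint (frontier B) E

theorem exists_fill {E : Set ℂ} (hE : IsCompact E) (hc : IsConnected Eᶜ) {x : ℂ} (hx : x ∈ E)
    {U : Set ℂ} (hU : IsOpen U) (hK : connectedComponentIn E x ⊆ U) :
    ∃ B ⊆ U, Filled E (connectedComponentIn E x) B := by
  have hKc : IsCompact (connectedComponentIn E x) := RSM.isCompact_component hE x
  have hxK : x ∈ connectedComponentIn E x := mem_connectedComponentIn hx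
  have hKcompl := compl_component hE hc hx
  obtain ⟨R, hR⟩ := (hKc.isBounded.cthickening (δ := 1)).subset_closedBall 0
  obtain ⟨p, hp⟩ : ∃ p : ℂ, R < ‖p‖ := by
    refine ⟨((|R| + 1 : ℝ) : ℂ), ?_⟩
    rw [Complex.norm_real, Real.norm_eq_abs, abs_of_pos (by positivity)]
    have := le_abs_self R
    linarith
  obtain ⟨η, hη, hη1, hUη⟩ := v9_exhaust hKc hKcompl hU hK hR hp
  obtain ⟨A, hAE, hA, hEA, hxA, hKA, hAη⟩ := exists_clopen hE hx (isOpen_thickening (δ := η / 2))
    (self_subset_thickening (half_pos hη) (connectedComponentIn E x))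
  have hAsub : A ⊆ (E \ A)ᶜ := fun z hz h => h.2 hz
  obtain ⟨δ₀, hδ₀, hδA⟩ := hA.exists_cthickening_subset_open hEA.isClosed.isOpen_compl hAsub
  obtain ⟨δ, hδ, hδ1, hδ2⟩ : ∃ δ > 0, δ ≤ δ₀ ∧ δ ≤ η / 2 :=
    ⟨min δ₀ (η / 2), by positivity, min_le_left _ _, min_le_right _ _⟩
  have hNo : IsOpen (thickening δ A) := isOpen_thickening
  have hxN : x ∈ thickening δ A := self_subset_thickening hδ _ hxA
  set N := connectedComponentIn (thickening δ A) x with hN
  have hN0 : IsOpen N := hNo.connectedComponentIn
  have hxN0 : x ∈ N := mem_connectedComponentIn hxN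
  have hNconn : IsConnected N := isConnected_connectedComponentIn_iff.2 hxN
  have hclN : closure N ⊆ cthickening δ A :=
    (closure_mono (connectedComponentIn_subset _ _)).trans (closure_thickening_subset_cthickening _ _)
  have hclη : closure N ⊆ cthickening η (connectedComponentIn E x) := by
    refine hclN.trans ((cthickening_subset_of_subset _ hAη).trans
      ((cthickening_thickening_subset hδ.le _ _).trans (cthickening_mono (by linarith) _)))
  have hKN : connectedComponentIn E x ⊆ N :=
    isPreconnected_connectedComponentIn.subset_connectedComponentIn hxK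
      (hKA.trans (self_subset_thickening hδ _))
  have hCR : closure N ⊆ closedBall 0 R := hclη.trans ((cthickening_mono hη1 _).trans hR)
  have hCc : IsCompact (closure N) :=
    (isCompact_closedBall (0 : ℂ) R).of_isClosed_subset isClosed_closure hCR
  obtain ⟨h1, h2, h3, h4, h5⟩ := v9_fill hCc hNconn.closure hCR hp
  have hNB : N ⊆ interior (connectedComponentIn (closure N)ᶜ p)ᶜ :=
    interior_maximal (subset_closure.trans h4) hN0
  refine ⟨(connectedComponentIn (closure N)ᶜ p)ᶜ, ?_, h1, h2, ?_, by rwa [compl_compl],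
    hKN.trans hNB, ?_⟩
  · rw [compl_subset_comm]
    exact hUη.trans (connectedComponentIn_mono _ (compl_subset_compl.2 hclη))
  · have hxi : x ∈ interior (connectedComponentIn (closure N)ᶜ p)ᶜ := hNB hxN0
    obtain ⟨ε, hε, hball⟩ := Metric.isOpen_iff.1 isOpen_interior x hxi
    refine ⟨x, interior_subset hxi, x + ((ε / 2 : ℝ) : ℂ), interior_subset (hball ?_), ?_⟩
    · rw [mem_ball_iff_norm, add_sub_cancel_left, Complex.norm_real, Real.norm_eq_abs,
        abs_of_pos (half_pos hε)]
      exact half_lt_self hε
    · intro h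
      have h6 : ((ε / 2 : ℝ) : ℂ) = 0 := by
        have h7 : x + 0 = x + ((ε / 2 : ℝ) : ℂ) := by rw [add_zero]; exact h
        exact (add_left_cancel h7).symm
      rw [Complex.ofReal_eq_zero] at h6
      linarith
  · rw [disjoint_left]
    intro z hz hzE
    have hzC : z ∈ closure N := h5 hz
    have hzA : z ∈ A := by
      by_contra h
      exact hδA (cthickening_mono hδ1 _ (hclN hzC)) ⟨hzE, h⟩
    have hzT : z ∈ thickening δ A := self_subset_thickening hδ _ hzA
    have hzN : z ∈ N := by
      by_contra h
      have h6 : z ∈ frontier N := by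
        rw [hN0.frontier_eq]
        exact ⟨hzC, h⟩
      exact v9_frontier hNo x h6 hzT
    rw [frontier, Set.mem_sdiff] at hz
    exact hz.2 (hNB hzN)

theorem exists_fill_seq {E : Set ℂ} (hE : IsCompact E) (hc : IsConnected Eᶜ) {x : ℂ}
    (hx : x ∈ E) : ∃ B : ℕ → Set ℂ, (∀ n, Filled E (connectedComponentIn E x) (B n)) ∧
      (∀ n, B (n + 1) ⊆ interior (B n)) ∧
      ∀ U : Set ℂ, IsOpen U → connectedComponentIn E x ⊆ U → ∃ n, B n ⊆ U := by
  have hKc : IsCompact (connectedComponentIn E x) := RSM.isCompact_component hE x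
  have step : ∀ (n : ℕ) (B : Set ℂ), ∃ B' : Set ℂ, Filled E (connectedComponentIn E x) B →
      Filled E (connectedComponentIn E x) B' ∧ B' ⊆ interior B ∧
        B' ⊆ thickening (1 / ((n : ℝ) + 1)) (connectedComponentIn E x) := by
    intro n B
    by_cases hB : Filled E (connectedComponentIn E x) B
    · obtain ⟨B', h1, h2⟩ := exists_fill hE hc hx
        (isOpen_interior.inter (isOpen_thickening (δ := 1 / ((n : ℝ) + 1))
          (E := connectedComponentIn E x)))
        (subset_inter hB.sub (self_subset_thickening (by positivity) _))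
      exact ⟨B', fun _ => ⟨h2, h1.trans inter_subset_left, h1.trans inter_subset_right⟩⟩
    · exact ⟨∅, fun h => (hB h).elim⟩
  choose next hnext using step
  obtain ⟨B₀, -, hB₀⟩ := exists_fill hE hc hx isOpen_univ (subset_univ _)
  let B : ℕ → Set ℂ := fun n => Nat.rec B₀ (fun n B => next n B) n
  have hB : ∀ n, Filled E (connectedComponentIn E x) (B n) := by
    intro n
    induction n with
    | zero => exact hB₀
    | succ n ih => exact (hnext n (B n) ih).1
  refine ⟨B, hB, fun n => (hnext n (B n) (hB n)).2.1, fun U hU hKU => ?_⟩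
  obtain ⟨δ, hδ, hδU⟩ := hKc.exists_thickening_subset_open hU hKU
  obtain ⟨n, hn⟩ := exists_nat_one_div_lt hδ
  exact ⟨n + 1, (hnext n (B n) (hB n)).2.2.trans ((thickening_mono hn.le _).trans hδU)⟩

end RSM2
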