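import Pool.Agent.RSM2.S2
import Pool.Agent.RSM2.V9

/-!
# RSM2 module S3: the limit law

`A` is a clopen piece of `E`, `K = connectedComponentIn E x₀` a component in `A`, `B n` the filled
neighbourhoods of `K` (`exists_fill_seq`), `piece A B 0 = A \ B 0`,
`piece A B (m+1) = A ∩ B m \ B (m+1)`.  These are pairwise disjoint compact sets (the frontiers of
the `B n` are disjoint from `E ⊇ A`: `A ∩ B n = A ∩ interior (B n)` and `A \ B n = A \ interior (B n)` are
compact), with union `A \ K` (every `x ∉ K` is outside of some `B n`, as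
`K ⊆ {x}ᶜ` open), and `⋃ m ≤ n, piece A B m = A \ B n`.
`lawQ p n` = law of the union of independent configurations with laws `p 0, …, p n`;
`lawRest p n k` = the same for `p (n+1), …, p (n+1+k)`;
`limLaw = lim_n (law of insert (B n, θ₀) s, s with law lawQ p n)`.

PROOFS.
`lawQ_add`: induction on `k` and `conv_assoc`.
`pre_lawQ`: induction, `PreLaw.conv`, `(A \ B n) ∪ (A ∩ B n \ B (n+1)) = A \ B (n+1)`
(`B (n+1) ⊆ B n`).  `pre_lawRest`: the union of the pieces `n+1, …, n+1+k` is
`A ∩ B n \ B (n+1+k)`.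
`pre_limLaw`: the configuration `insert (B n, θ x₀) s` is valid for almost all `s` (`B n` is
compact, connected, nontrivial with connected complement, and `un s ⊆ (B n)ᶜ` almost surely since
`A \ B n` is a compact subset of the open set `(B n)ᶜ`); for open `U ⊇ A`, `B n ⊆ U` for large `n` and
`un s ⊆ U`; angle: `x₀ ∈ B n ∩ A`.  (`hyperfilter ℕ` contains all sets `{n | N ≤ n}`.)
`map_res_limLaw`: let `U` be open, `piece A B m ⊆ U`, `closure U` disjoint from `A \ piece A B m` and from
`B m`.  For `n ≥ m` almost surely (for `lawQ p n`): no hole of the parts with law `p l`, `l < m` or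
`m < l ≤ n`, is contained in `U` (they are contained in `(closure U)ᶜ` by `loc`, and nonempty), the
hole `B n ⊆ B m` is not contained in `U`, and the holes of the part with law `p m` are in
`U`.  By induction on `n ≥ m`: `(lawQ p n).map (res U) = p m` (`map_res_conv_left/right`,
`map_res_self`), and `res U (insert (B n, θ₀) s) = res U s`.  `bind` of maps which are
eventually constant is this constant.
`out_limLaw`: every hole is in `U` or disjoint from `U`: the same reasons.
-/

open Complex Set Metric Filter Topology MeasureTheory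

namespace RSM2

/-- The pieces of `A` between the filled neighbourhoods. -/
def piece (A : Set ℂ) (B : ℕ → Set ℂ) : ℕ → Set ℂ
  | 0 => A \ B 0
  | m + 1 => (A ∩ B m) \ B (m + 1)

/-- The law of the union of the first `n + 1` configurations. -/
noncomputable def lawQ (p : ℕ → Ultrafilter Cfg) : ℕ → Ultrafilter Cfg
  | 0 => p 0
  | n + 1 => conv (lawQ p n) (p (n + 1))

/-- The law of the union of the configurations number `n + 1, …, n + 1 + k`. -/
noncomputable def lawRest (p : ℕ → Ultrafilter Cfg) (n : ℕ) : ℕ → Ultrafilter Cfg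
  | 0 => p (n + 1)
  | k + 1 => conv (lawRest p n k) (p (n + 1 + (k + 1)))

open Classical in
/-- The limit law. -/
noncomputable def limLaw (B : ℕ → Set ℂ) (θ₀ : ℝ) (p : ℕ → Ultrafilter Cfg) : Ultrafilter Cfg :=
  (hyperfilter ℕ : Ultrafilter ℕ).bind fun n => (lawQ p n).map fun s => insert (B n, θ₀) s

open Classical in
theorem eventually_limLaw {B : ℕ → Set ℂ} {θ₀ : ℝ} {p : ℕ → Ultrafilter Cfg} {P : Cfg → Prop} :
    (∀ᶠ c in (limLaw B θ₀ p : Filter Cfg), P c) ↔
      ∀ᶠ n in (hyperfilter ℕ : Filter ℕ), ∀ᶠ s in (lawQ p n : Filter Cfg),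
        P (insert (B n, θ₀) s) := by
  exact Iff.rfl

theorem lawQ_add (p : ℕ → Ultrafilter Cfg) (n k : ℕ) :
    lawQ p (n + 1 + k) = conv (lawQ p n) (lawRest p n k) := by
  induction k with
  | zero => rfl
  | succ k ih =>
    have h1 : lawQ p (n + 1 + (k + 1)) = conv (lawQ p (n + 1 + k)) (p (n + 1 + (k + 1))) := rfl
    have h2 : lawRest p n (k + 1) = conv (lawRest p n k) (p (n + 1 + (k + 1))) := rfl
    rw [h1, ih, h2, conv_assoc]

/-- The standing assumptions on the sequence `B`. -/
structure FillSeq (E K : Set ℂ) (B : ℕ → Set ℂ) : Prop where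
  fill : ∀ n, Filled E K (B n)
  dec : ∀ n, B (n + 1) ⊆ interior (B n)
  shrink : ∀ U : Set ℂ, IsOpen U → K ⊆ U → ∃ n, B n ⊆ U

variable {E A : Set ℂ} {x₀ : ℂ} {B : ℕ → Set ℂ} {θ : ℂ → ℝ} {p : ℕ → Ultrafilter Cfg}

theorem FillSeq.anti {K : Set ℂ} (hB : FillSeq E K B) : Antitone B :=
  antitone_nat_of_succ_le fun n => (hB.dec n).trans interior_subset

theorem FillSeq.diff_eq {K D : Set ℂ} (hB : FillSeq E K B) (hDE : D ⊆ E) (n : ℕ) :
    D \ B n = D \ interior (B n) := by
  ext x
  constructor
  · rintro ⟨h1, h2⟩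
    exact ⟨h1, fun h3 => h2 (interior_subset h3)⟩
  · rintro ⟨h1, h2⟩
    refine ⟨h1, fun h3 => ?_⟩
    exact (Set.disjoint_left.mp (hB.fill n).fr) ⟨subset_closure h3, h2⟩ (hDE h1)

theorem FillSeq.compact_diff {K D : Set ℂ} (hB : FillSeq E K B) (hDE : D ⊆ E) (hD : IsCompact D)
    (n : ℕ) : IsCompact (D \ B n) := by
  rw [hB.diff_eq hDE]
  exact hD.diff isOpen_interior

theorem piece_sub (A : Set ℂ) (B : ℕ → Set ℂ) (m : ℕ) : piece A B m ⊆ A \ B m := by
  cases m with
  | zero => exact subset_rfl
  | succ m => exact fun x hx => ⟨hx.1.1, hx.2⟩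

theorem piece_props (hAE : A ⊆ E) (hA : IsCompact A) (hEA : IsCompact (E \ A))
    (hB : FillSeq E (connectedComponentIn E x₀) B) :
    (∀ m, piece A B m ⊆ A ∧ IsCompact (piece A B m) ∧ IsCompact (E \ piece A B m) ∧
      Disjoint (piece A B m) (connectedComponentIn E x₀) ∧ Disjoint (piece A B m) (B m)) ∧
    ∀ x ∈ A, x ∉ connectedComponentIn E x₀ → ∃ m, x ∈ piece A B m := by
  have hcB : ∀ n, IsCompact (A ∩ B n) := fun n => hA.inter_right (hB.fill n).compact.isClosed
  refine ⟨fun m => ⟨fun x hx => (piece_sub A B m hx).1, ?_, ?_, ?_, ?_⟩, ?_⟩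
  · cases m with
    | zero => exact hB.compact_diff hAE hA 0
    | succ m => exact hB.compact_diff (inter_subset_left.trans hAE) (hcB m) (m + 1)
  · cases m with
    | zero =>
      have h1 : E \ piece A B 0 = (E \ A) ∪ (A ∩ B 0) := by
        ext x
        have h1 : x ∈ A → x ∈ E := fun h => hAE h
        simp only [piece, Set.mem_sdiff, mem_inter_iff, mem_union]
        tauto
      rw [h1]
      exact hEA.union (hcB 0)
    | succ m =>
      have h1 : E \ piece A B (m + 1) = (E \ A) ∪ ((A \ B m) ∪ (A ∩ B (m + 1))) := by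
        ext x
        have h1 : x ∈ A → x ∈ E := fun h => hAE h
        simp only [piece, Set.mem_sdiff, mem_inter_iff, mem_union]
        tauto
      rw [h1]
      exact hEA.union ((hB.compact_diff hAE hA m).union (hcB (m + 1)))
  · rw [Set.disjoint_left]
    exact fun x hx hK => (piece_sub A B m hx).2 (interior_subset ((hB.fill m).sub hK))
  · rw [Set.disjoint_left]
    exact fun x hx => (piece_sub A B m hx).2
  · intro x hxA hxK
    have hex : ∃ n, x ∉ B n := by
      obtain ⟨n, hn⟩ := hB.shrink {x}ᶜ isOpen_compl_singleton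
        (fun y hy hyx => hxK (by rwa [← (hyx : y = x)]))
      exact ⟨n, fun h => hn h rfl⟩
    classical
    obtain ⟨n, hn, hmin⟩ : ∃ n, x ∉ B n ∧ ∀ k < n, x ∈ B k :=
      ⟨Nat.find hex, Nat.find_spec hex, fun k hk => by
        have := Nat.find_min hex hk
        simpa using this⟩
    cases n with
    | zero => exact ⟨0, hxA, hn⟩
    | succ n => exact ⟨n + 1, ⟨hxA, hmin n (Nat.lt_succ_self n)⟩, hn⟩

theorem pre_lawQ (hAE : A ⊆ E) (hA : IsCompact A)
    (hB : FillSeq E (connectedComponentIn E x₀) B) (hp : ∀ m, PreLaw θ (piece A B m) (p m))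
    (n : ℕ) : PreLaw θ (A \ B n) (lawQ p n) := by
  induction n with
  | zero => exact hp 0
  | succ n ih =>
    have hcB : IsCompact (A ∩ B n) := hA.inter_right (hB.fill n).compact.isClosed
    have h1 := PreLaw.conv (hB.compact_diff hAE hA n)
      (hB.compact_diff (inter_subset_left.trans hAE) hcB (n + 1)) (by
        rw [Set.disjoint_left]
        exact fun x hx hx' => hx.2 hx'.1.2) ih (hp (n + 1))
    have h2 : (A \ B n) ∪ ((A ∩ B n) \ B (n + 1)) = A \ B (n + 1) := by
      ext x
      have h3 : x ∈ B (n + 1) → x ∈ B n := fun h => hB.anti (Nat.le_succ n) h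
      simp only [Set.mem_sdiff, mem_inter_iff, mem_union]
      tauto
    rw [h2] at h1
    exact h1

theorem pre_lawRest (hAE : A ⊆ E) (hA : IsCompact A)
    (hB : FillSeq E (connectedComponentIn E x₀) B) (hp : ∀ m, PreLaw θ (piece A B m) (p m))
    (n k : ℕ) : PreLaw θ ((A ∩ B n) \ B (n + 1 + k)) (lawRest p n k) := by
  induction k with
  | zero => exact hp (n + 1)
  | succ k ih =>
    have hcB : ∀ n, IsCompact (A ∩ B n) := fun n => hA.inter_right (hB.fill n).compact.isClosed
    have h1 := PreLaw.conv (hB.compact_diff (inter_subset_left.trans hAE) (hcB n) (n + 1 + k))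
      (hB.compact_diff (inter_subset_left.trans hAE) (hcB (n + 1 + k)) (n + 1 + (k + 1))) (by
        rw [Set.disjoint_left]
        exact fun x hx hx' => hx.2 hx'.1.2) ih (hp (n + 1 + (k + 1)))
    have h2 : ((A ∩ B n) \ B (n + 1 + k)) ∪ ((A ∩ B (n + 1 + k)) \ B (n + 1 + (k + 1))) =
        (A ∩ B n) \ B (n + 1 + (k + 1)) := by
      ext x
      have h3 : x ∈ B (n + 1 + (k + 1)) → x ∈ B (n + 1 + k) := fun h => hB.anti (by omega) h
      have h4 : x ∈ B (n + 1 + k) → x ∈ B n := fun h => hB.anti (by omega) h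
      simp only [Set.mem_sdiff, mem_inter_iff, mem_union]
      tauto
    rw [h2] at h1
    exact h1

theorem eventually_ge_hyper (N : ℕ) : ∀ᶠ n in (hyperfilter ℕ : Filter ℕ), N ≤ n := by
  have h1 : (hyperfilter ℕ : Filter ℕ) ≤ atTop := by
    rw [← Nat.cofinite_eq_atTop]
    exact hyperfilter_le_cofinite
  exact h1 (eventually_ge_atTop N)

/-- Holes near a set which is far from `U`. -/
theorem PreLaw.far {D U : Set ℂ} {q : Ultrafilter Cfg} (hq : PreLaw θ D q)
    (hD : Disjoint (closure U) D) :
    ∀ᶠ c in (q : Filter Cfg), ∀ h ∈ c, ¬ h.1 ⊆ U ∧ Disjoint h.1 U := by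
  filter_upwards [hq.valid, hq.loc (closure U)ᶜ isClosed_closure.isOpen_compl
    (fun x hx hxU => Set.disjoint_left.mp hD hxU hx)] with c hv hu h hh
  have hd : Disjoint h.1 U := by
    rw [Set.disjoint_left]
    exact fun x hx hxU => hu (subset_un hh hx) (subset_closure hxU)
  refine ⟨fun hsub => ?_, hd⟩
  obtain ⟨x, hx⟩ := (hv.conn h hh).nonempty
  exact Set.disjoint_left.mp hd hx (hsub hx)

theorem PreLaw.near {D U : Set ℂ} {q : Ultrafilter Cfg} (hq : PreLaw θ D q) (hU : IsOpen U)
    (hD : D ⊆ U) : ∀ᶠ c in (q : Filter Cfg), ∀ h ∈ c, h.1 ⊆ U := by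
  filter_upwards [hq.loc U hU hD] with c hu h hh
  exact (subset_un hh).trans hu

theorem map_res_lawQ (hAE : A ⊆ E) (hA : IsCompact A)
    (hB : FillSeq E (connectedComponentIn E x₀) B) (hp : ∀ m, PreLaw θ (piece A B m) (p m))
    {m n : ℕ} (hmn : m ≤ n) {U : Set ℂ} (hU : IsOpen U) (hmU : piece A B m ⊆ U)
    (h1 : Disjoint (closure U) (A \ piece A B m)) :
    (lawQ p n).map (res U) = p m ∧
      ∀ᶠ c in (lawQ p n : Filter Cfg), ∀ h ∈ c, h.1 ⊆ U ∨ Disjoint h.1 U := by
  have hnear := (hp m).near hU hmU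
  have hm : (lawQ p m).map (res U) = p m ∧
      ∀ᶠ c in (lawQ p m : Filter Cfg), ∀ h ∈ c, h.1 ⊆ U ∨ Disjoint h.1 U := by
    cases m with
    | zero =>
      refine ⟨map_res_self hnear, ?_⟩
      change ∀ᶠ c in (p 0 : Filter Cfg), ∀ h ∈ c, h.1 ⊆ U ∨ Disjoint h.1 U
      filter_upwards [hnear] with c hc h hh
      exact Or.inl (hc h hh)
    | succ m =>
      have hQ := (pre_lawQ hAE hA hB hp m).far (U := U) (h1.mono_right
        (show A \ B m ⊆ A \ piece A B (m + 1) from
          fun x hx => ⟨hx.1, fun hx' => hx.2 hx'.1.2⟩))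
      constructor
      · have e1 : lawQ p (m + 1) = conv (lawQ p m) (p (m + 1)) := rfl
        rw [e1, map_res_conv_right (by
          filter_upwards [hQ] with c hc h hh
          exact (hc h hh).1), map_res_self hnear]
      · change ∀ᶠ c in (conv (lawQ p m) (p (m + 1)) : Filter Cfg),
          ∀ h ∈ c, h.1 ⊆ U ∨ Disjoint h.1 U
        rw [eventually_conv]
        filter_upwards [hQ] with c₁ hc₁
        filter_upwards [hnear] with c₂ hc₂
        intro h hh
        rcases Finset.mem_union.mp hh with hh | hh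
        · exact Or.inr (hc₁ h hh).2
        · exact Or.inl (hc₂ h hh)
  rcases hmn.eq_or_lt with rfl | hlt
  · exact hm
  · obtain ⟨k, rfl⟩ : ∃ k, n = m + 1 + k := ⟨n - (m + 1), by omega⟩
    have hR := (pre_lawRest hAE hA hB hp m k).far (U := U) (h1.mono_right
      (show (A ∩ B m) \ B (m + 1 + k) ⊆ A \ piece A B m from
        fun x hx => ⟨hx.1.1, fun hx' => (piece_sub A B m hx').2 hx.1.2⟩))
    rw [lawQ_add]
    constructor
    · rw [map_res_conv_left (by
        filter_upwards [hR] with c hc h hh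
        exact (hc h hh).1)]
      exact hm.1
    · rw [eventually_conv]
      filter_upwards [hm.2] with c₁ hc₁
      filter_upwards [hR] with c₂ hc₂
      intro h hh
      rcases Finset.mem_union.mp hh with hh | hh
      · exact hc₁ h hh
      · exact Or.inr (hc₂ h hh).2

theorem pre_limLaw (hAE : A ⊆ E) (hA : IsCompact A) (hx₀ : x₀ ∈ A)
    (hKA : connectedComponentIn E x₀ ⊆ A)
    (hB : FillSeq E (connectedComponentIn E x₀) B) (hp : ∀ m, PreLaw θ (piece A B m) (p m)) :
    PreLaw θ A (limLaw B (θ x₀) p) := by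
  classical
  have hx₀K : x₀ ∈ connectedComponentIn E x₀ := mem_connectedComponentIn (hAE hx₀)
  constructor
  · rw [eventually_limLaw]
    refine Eventually.of_forall fun n => ?_
    have hQ := pre_lawQ hAE hA hB hp n
    filter_upwards [hQ.valid, hQ.loc (B n)ᶜ (hB.fill n).compact.isClosed.isOpen_compl
      (fun x hx => hx.2)] with s hv hu
    have hd : ∀ h ∈ s, Disjoint h.1 (B n) := by
      intro h hh
      rw [Set.disjoint_left]
      exact fun x hx hx' => hu (subset_un hh hx) hx'
    constructor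
    · intro h hh
      rcases Finset.mem_insert.mp hh with rfl | hh
      · exact (hB.fill n).compact
      · exact hv.compact h hh
    · intro h hh
      rcases Finset.mem_insert.mp hh with rfl | hh
      · exact (hB.fill n).conn
      · exact hv.conn h hh
    · intro h hh
      rcases Finset.mem_insert.mp hh with rfl | hh
      · exact (hB.fill n).nontriv
      · exact hv.nontriv h hh
    · intro h hh
      rcases Finset.mem_insert.mp hh with rfl | hh
      · exact (hB.fill n).compl
      · exact hv.compl h hh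
    · intro h hh h' hh' hne
      rcases Finset.mem_insert.mp hh with rfl | hh
      · rcases Finset.mem_insert.mp hh' with rfl | hh'
        · exact absurd rfl hne
        · exact (hd h' hh').symm
      · rcases Finset.mem_insert.mp hh' with rfl | hh'
        · exact hd h hh
        · exact hv.disj h hh h' hh' hne
  · intro U hU hAU
    rw [eventually_limLaw]
    obtain ⟨N, hN⟩ := hB.shrink U hU (hKA.trans hAU)
    filter_upwards [eventually_ge_hyper N] with n hn
    have hQ := pre_lawQ hAE hA hB hp n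
    filter_upwards [hQ.loc U hU (fun x hx => hAU hx.1)] with s hu
    intro z hz
    rw [mem_un] at hz
    obtain ⟨h, hh, hz⟩ := hz
    rcases Finset.mem_insert.mp hh with rfl | hh
    · exact hN (hB.anti hn hz)
    · exact hu (subset_un hh hz)
  · rw [eventually_limLaw]
    refine Eventually.of_forall fun n => ?_
    have hQ := pre_lawQ hAE hA hB hp n
    filter_upwards [hQ.ang] with s ha
    intro h hh
    rcases Finset.mem_insert.mp hh with rfl | hh
    · exact ⟨x₀, ⟨interior_subset ((hB.fill n).sub hx₀K), hx₀⟩, rfl⟩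
    · obtain ⟨z, hz, hθ⟩ := ha h hh
      exact ⟨z, ⟨hz.1, hz.2.1⟩, hθ⟩

theorem map_res_limLaw (hAE : A ⊆ E) (hA : IsCompact A)
    (hB : FillSeq E (connectedComponentIn E x₀) B) (hp : ∀ m, PreLaw θ (piece A B m) (p m))
    {m : ℕ} {U : Set ℂ} (hU : IsOpen U) (hmU : piece A B m ⊆ U)
    (h1 : Disjoint (closure U) (A \ piece A B m)) (h2 : Disjoint (closure U) (B m)) :
    (limLaw B (θ x₀) p).map (res U) = p m ∧
      ∀ᶠ c in (limLaw B (θ x₀) p : Filter Cfg), ∀ h ∈ c, h.1 ⊆ U ∨ Disjoint h.1 U := by
  classical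
  have hBd : ∀ n, m ≤ n → Disjoint (B n) U := by
    intro n hn
    rw [Set.disjoint_left]
    exact fun x hx hxU => Set.disjoint_left.mp h2 (subset_closure hxU) (hB.anti hn hx)
  constructor
  · apply Ultrafilter.coe_injective
    ext s
    change (∀ᶠ c in (limLaw B (θ x₀) p : Filter Cfg), res U c ∈ s) ↔ (s ∈ (p m : Filter Cfg))
    rw [eventually_limLaw]
    have h3 : ∀ᶠ n in (hyperfilter ℕ : Filter ℕ),
        ((∀ᶠ c in (lawQ p n : Filter Cfg), res U (insert (B n, θ x₀) c) ∈ s) ↔
          s ∈ (p m : Filter Cfg)) := by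
      filter_upwards [eventually_ge_hyper m] with n hn
      have h4 := (map_res_lawQ hAE hA hB hp hn hU hmU h1).1
      rw [← h4]
      change _ ↔ (∀ᶠ c in (lawQ p n : Filter Cfg), res U c ∈ s)
      apply eventually_congr
      refine Eventually.of_forall fun c => ?_
      have h5 : res U (insert (B n, θ x₀) c) = res U c := by
        unfold res
        rw [Finset.filter_insert, if_neg]
        intro hsub
        obtain ⟨x, hx⟩ := (hB.fill n).conn.nonempty
        exact Set.disjoint_left.mp (hBd n hn) hx (hsub hx)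
      rw [h5]
    rw [eventually_congr h3, eventually_const]
  · rw [eventually_limLaw]
    filter_upwards [eventually_ge_hyper m] with n hn
    filter_upwards [(map_res_lawQ hAE hA hB hp hn hU hmU h1).2] with c hc
    intro h hh
    rcases Finset.mem_insert.mp hh with rfl | hh
    · exact Or.inr (hBd n hn)
    · exact hc h hh

end RSM2
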