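import Pool.Agent.RSM2.S3

/-!
# RSM2 module S4: limits along the limit law have the approximation property at `K`

PROOF.  `K = connectedComponentIn E x₀ ⊆ A`, `θ₀ = θ x₀`.  Let `δ > 0`.  There is an open `U' ⊇ K` with
`|θ z - θ₀| ≤ δ` for `z ∈ A ∩ U'` (`θ` is continuous on `E` and `θ = θ₀` on `K`).  By `exists_clopen` (for
the compact set `A`; `connectedComponentIn A x₀ = K` by `component_clopen`) there is a clopen piece
`A'` of `A` with `K ⊆ A' ⊆ U'`.  Choose a bounded open set `U₀` with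
`A' ⊆ U₀ ⊆ closure U₀ ⊆ U' ∩ V ∩ (A \ A')ᶜ` (`exists_open_between_and_isCompact_closure`).
`frontier U₀` is compact and disjoint from `A`, contained in `V`.
Let `Q`, `δ₁`, `U₁` be given.  Let `S₁` be the set of all `i` such that: the statement `hG` holds
for `i`; `un (c i)` is disjoint from `frontier U₀ ∪ Q` (`(frontier U₀ ∪ Q)ᶜ` is an open neighbourhood
of `A`: `PreLaw.loc` of `limLaw`, `pre_limLaw`); the angles of `c i` are as in `PreLaw.ang`; and
`‖G i z - f z‖ ≤ δ₁` on `Q`.  `S₁ ∈ r`.  The set `C₁ = c '' S₁` is in `r.map c = limLaw`, so by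
`eventually_limLaw` for almost all `n` almost all `s` (for `lawQ p n`) satisfy
`insert (B n, θ₀) s ∈ C₁`.  Choose such an `n` with `B n ⊆ U₀ ∩ U₁` (true for all large `n`),
`B = B n`.
Let `L`, `δ₂` be given; `S₂` = the set of all `i` as before, with `frontier U₀ ∪ Q ∪ L` and `δ₂`,
`C₂ = c '' S₂`.  Choose `n'' = n + 1 + k` such that almost all `s''` (for `lawQ p n''`) satisfy
`insert (B n'', θ₀) s'' ∈ C₂`.  By `lawQ_add` and `eventually_conv`, for almost all `s`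
(`lawQ p n`) and almost all `t` (`lawRest p n k`): `insert (B n'', θ₀) (s ∪ t) ∈ C₂`.  Also for
almost all `s`: `insert (B n, θ₀) s ∈ C₁`, `un s ⊆ (B n)ᶜ` (`pre_lawQ`), and for almost all `t`:
`un t ⊆ interior (B n)` (`pre_lawRest`; `A ∩ B n ⊆ interior (B n)`).  Pick `s`, `t`; `i ∈ S₁` with
`c i = insert (B n, θ₀) s`; `i'' ∈ S₂` with `c i'' = insert (B n'', θ₀) (s ∪ t)`.  The configurations
`c i ∪ e i`, `c i'' ∪ e i''` with the maps `G i`, `G i''` have all the properties: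
* holes of `c''`: `B n'' ⊆ interior (B n)`; `h ∈ s`: disjoint from `B n`; `h ∈ t`: in `interior (B n)`;
  `h ∈ e i''`: disjoint from `V ⊇ B n`.
* sharing: let `h.1` be disjoint from `B n` and meet `U₀ ⊆ V`.  Then `h ∉ e i`, `h ∉ e i''`;
  `h ≠ (B n, θ₀)`, `h ≠ (B n'', θ₀)`, `h ∉ t` (nonempty sets contained in `B n`); so
  `h ∈ c ↔ h ∈ s ↔ h ∈ c''`.
* angles: `h ∈ c` meets `U₀`: so `h ∈ c i`, `h.1` is connected and disjoint from `frontier U₀`, so
  `h.1 ⊆ U₀`; `h.2 = θ z` with `z ∈ h.1 ∩ A ⊆ U₀ ∩ A ⊆ U' ∩ A`.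
-/

open Complex Set Metric Filter Topology MeasureTheory

namespace RSM2

theorem FillSeq.lt {E K : Set ℂ} {B : ℕ → Set ℂ} (hB : FillSeq E K B) (n k : ℕ) :
    B (n + 1 + k) ⊆ interior (B n) := by
  induction k with
  | zero => exact hB.dec n
  | succ k ih => exact (hB.dec (n + 1 + k)).trans (interior_subset.trans ih)

theorem FillSeq.le {E K : Set ℂ} {B : ℕ → Set ℂ} (hB : FillSeq E K B) {m n : ℕ} (h : m ≤ n) :
    B n ⊆ B m := by
  rcases h.eq_or_lt with rfl | h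
  · exact Subset.rfl
  · obtain ⟨k, rfl⟩ := Nat.exists_eq_add_of_le h
    exact (hB.lt m k).trans interior_subset

open Classical in
theorem approx_of_limLaw {E : Set ℂ} {θ : ℂ → ℝ} (hθ : ContinuousOn θ E)
    (hconst : ∀ x ∈ E, ∀ y ∈ connectedComponentIn E x, θ y = θ x) {A : Set ℂ} (hAE : A ⊆ E)
    (hA : IsCompact A) (hEA : IsCompact (E \ A)) {x₀ : ℂ} (hx₀ : x₀ ∈ A)
    (hKA : connectedComponentIn E x₀ ⊆ A) {B : ℕ → Set ℂ}
    (hB : FillSeq E (connectedComponentIn E x₀) B) {p : ℕ → Ultrafilter Cfg}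
    (hp : ∀ m, PreLaw θ (piece A B m) (p m))
    (ι : Type) (r : Ultrafilter ι) (c e : ι → Cfg) (G : ι → ℂ → ℂ) (f : ℂ → ℂ)
    (V : Set ℂ) (R : ℝ) (hV : IsOpen V) (hAV : A ⊆ V) (hr : r.map c = limLaw B (θ x₀) p)
    (hG : ∀ᶠ i in (r : Filter ι), (∀ h ∈ e i, Disjoint h.1 V) ∧ Valid (c i ∪ e i) ∧
      Sol (c i ∪ e i) (G i) ∧ un (c i ∪ e i) ⊆ closedBall 0 R)
    (hf : ∀ K ⊆ V \ A, IsCompact K → TendstoUniformlyOn G f (r : Filter ι) K) :
    Approx V A (connectedComponentIn E x₀) (θ x₀) f R := by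
  have hpre := pre_limLaw hAE hA hx₀ hKA hB hp
  -- good indices
  have hgood : ∀ D : Set ℂ, IsCompact D → Disjoint D A → ∀ Q ⊆ V \ A, IsCompact Q →
      ∀ ε : ℝ, 0 < ε → ∀ᶠ d in (limLaw B (θ x₀) p : Filter Cfg), ∃ i, c i = d ∧
        (∀ h ∈ e i, Disjoint h.1 V) ∧ Valid (c i ∪ e i) ∧
        Sol (c i ∪ e i) (G i) ∧ un (c i ∪ e i) ⊆ closedBall 0 R ∧ Disjoint (un (c i)) D ∧
        (∀ h ∈ c i, ∃ z ∈ h.1 ∩ A, h.2 = θ z) ∧ ∀ z ∈ Q, ‖G i z - f z‖ ≤ ε := by
    intro D hD hDA Q hQ hQc ε hε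
    have e1 : ∀ᶠ i in (r : Filter ι), un (c i) ⊆ Dᶜ := by
      have h1 := hpre.loc Dᶜ hD.isClosed.isOpen_compl
        (fun z hz hzD => Set.disjoint_left.1 hDA hzD hz)
      rw [← hr] at h1
      exact h1
    have e2 : ∀ᶠ i in (r : Filter ι), ∀ h ∈ c i, ∃ z ∈ h.1 ∩ A, h.2 = θ z := by
      have h1 := hpre.ang
      rw [← hr] at h1
      exact h1
    have e3 := Metric.tendstoUniformlyOn_iff.1 (hf Q hQ hQc) ε hε
    rw [← hr]
    show {d | _} ∈ r.map c
    rw [Ultrafilter.mem_map]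
    have e4 : ∀ᶠ i in (r : Filter ι), c i ∈ {d | ∃ i, c i = d ∧
        (∀ h ∈ e i, Disjoint h.1 V) ∧ Valid (c i ∪ e i) ∧
        Sol (c i ∪ e i) (G i) ∧ un (c i ∪ e i) ⊆ closedBall 0 R ∧ Disjoint (un (c i)) D ∧
        (∀ h ∈ c i, ∃ z ∈ h.1 ∩ A, h.2 = θ z) ∧ ∀ z ∈ Q, ‖G i z - f z‖ ≤ ε} := by
      filter_upwards [hG, e1, e2, e3] with i ⟨g1, g2, g3, g4⟩ h1 h2 h3
      refine ⟨i, rfl, g1, g2, g3, g4, ?_, h2, ?_⟩
      · exact Set.disjoint_left.2 fun z hz hzD => h1 hz hzD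
      · intro z hz
        have := h3 z hz
        rw [dist_comm, dist_eq_norm] at this
        exact this.le
    exact e4
  intro δ hδ
  obtain ⟨U', hU', hU'E⟩ := continuousOn_iff'.1 hθ (ball (θ x₀) δ) isOpen_ball
  have hx₀E : x₀ ∈ E := hAE hx₀
  have hKU' : connectedComponentIn E x₀ ⊆ U' := by
    intro z hz
    have hzE : z ∈ E := connectedComponentIn_subset _ _ hz
    have : z ∈ θ ⁻¹' ball (θ x₀) δ ∩ E := by
      refine ⟨?_, hzE⟩
      show θ z ∈ ball (θ x₀) δ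
      rw [hconst x₀ hx₀E z hz]
      exact mem_ball_self hδ
    rw [hU'E] at this
    exact this.1
  have hKeq := component_clopen hA hAE hEA hx₀
  obtain ⟨A', hA'A, hA'c, hA'd, hx₀A', hKA', hA'U'⟩ := exists_clopen hA hx₀ hU'
    (by rw [hKeq]; exact hKU')
  rw [hKeq] at hKA'
  obtain ⟨U₀, hU₀, hA'U₀, hclU₀, hU₀c⟩ := exists_open_between_and_isCompact_closure hA'c
    ((hU'.inter hV).inter hA'd.isClosed.isOpen_compl)
    (fun z hz => ⟨⟨hA'U' hz, hAV (hA'A hz)⟩, fun h => h.2 hz⟩)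
  have hfrA : Disjoint (frontier U₀) A := by
    rw [Set.disjoint_left]
    intro z hz hzA
    rw [hU₀.frontier_eq] at hz
    have h1 := (hclU₀ hz.1).2
    apply hz.2
    apply hA'U₀
    by_contra h2
    exact h1 ⟨hzA, h2⟩
  have hfrc : IsCompact (frontier U₀) := hU₀c.of_isClosed_subset isClosed_frontier
    frontier_subset_closure
  have hU₀V : U₀ ⊆ V := fun z hz => (hclU₀ (subset_closure hz)).1.2
  have hU₀U' : U₀ ⊆ U' := fun z hz => (hclU₀ (subset_closure hz)).1.1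
  refine ⟨U₀, hU₀, hKA'.trans hA'U₀, hU₀V, ?_⟩
  intro Q hQ hQc δ₁ hδ₁ U₁ hU₁ hKU₁
  have hQA : Disjoint Q A := Set.disjoint_left.2 fun z hz => (hQ hz).2
  have ev1 := eventually_limLaw.1 (hgood (frontier U₀ ∪ Q) (hfrc.union hQc)
    (Set.disjoint_union_left.2 ⟨hfrA, hQA⟩) Q hQ hQc δ₁ hδ₁)
  obtain ⟨N, hN⟩ := hB.shrink (U₀ ∩ U₁) (hU₀.inter hU₁)
    (Set.subset_inter (hKA'.trans hA'U₀) hKU₁)
  have ev2 : ∀ᶠ n in (hyperfilter ℕ : Filter ℕ), N ≤ n :=
    Nat.hyperfilter_le_atTop (eventually_ge_atTop N)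
  obtain ⟨n, hn1, hn2⟩ := (ev1.and ev2).exists
  have hBn : B n ⊆ U₀ ∩ U₁ := (hB.le hn2).trans hN
  have hfill := hB.fill n
  refine ⟨B n, fun z hz => (hBn hz).2, hfill.compact, hfill.sub,
    hfill.fr.mono_right hAE, ?_⟩
  intro L hL hLc δ₂ hδ₂
  have hLA : Disjoint L A := Set.disjoint_left.2 fun z hz => (hL hz).2
  have ev3 := eventually_limLaw.1 (hgood (Q ∪ L) (hQc.union hLc)
    (Set.disjoint_union_left.2 ⟨hQA, hLA⟩) (Q ∪ L) (Set.union_subset hQ hL) (hQc.union hLc)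
    δ₂ hδ₂)
  have ev4 : ∀ᶠ m in (hyperfilter ℕ : Filter ℕ), n + 1 ≤ m :=
    Nat.hyperfilter_le_atTop (eventually_ge_atTop (n + 1))
  obtain ⟨n'', hn3, hn4⟩ := (ev3.and ev4).exists
  obtain ⟨k, rfl⟩ := Nat.exists_eq_add_of_le hn4
  rw [lawQ_add, eventually_conv] at hn3
  have ev5 : ∀ᶠ s in (lawQ p n : Filter Cfg), un s ⊆ (B n)ᶜ :=
    (pre_lawQ hAE hA hB hp n).loc _ hfill.compact.isClosed.isOpen_compl (fun z hz => hz.2)
  have ev6 : ∀ᶠ t in (lawRest p n k : Filter Cfg), un t ⊆ interior (B n) := by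
    refine (pre_lawRest hAE hA hB hp n k).loc _ isOpen_interior ?_
    rintro z ⟨⟨hzA, hzB⟩, -⟩
    by_contra hzi
    have : z ∈ frontier (B n) := ⟨subset_closure hzB, hzi⟩
    exact Set.disjoint_left.1 hfill.fr this (hAE hzA)
  obtain ⟨s, ⟨⟨i, hci, g1, g2, g3, g4, g5, g6, g7⟩, hs2⟩, hs3⟩ := ((hn1.and ev5).and hn3).exists
  obtain ⟨t, ⟨i', hci', k1, k2, k3, k4, k5, k6, k7⟩, ht2⟩ := (hs3.and ev6).exists
  have hBV : B n ⊆ V := fun z hz => hU₀V (hBn hz).1
  have hBB : B (n + 1 + k) ⊆ interior (B n) := hB.lt n k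
  refine ⟨c i ∪ e i, c i' ∪ e i', G i, G i', g2, k2, g3, k3, g4, k4, ?_, ?_, ?_, ?_, ?_, ?_, ?_,
    g7, fun z hz => k7 z (Or.inl hz), fun z hz => k7 z (Or.inr hz)⟩
  · rw [hci]
    exact Finset.mem_union_left _ (Finset.mem_insert_self _ _)
  · intro h hh
    rcases Finset.mem_union.1 hh with hh | hh
    · rw [hci'] at hh
      rcases Finset.mem_insert.1 hh with rfl | hh
      · exact Or.inl hBB
      · rcases Finset.mem_union.1 hh with hh | hh
        · exact Or.inr (Set.disjoint_left.2 fun z hz => hs2 (subset_un hh hz))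
        · exact Or.inl ((subset_un hh).trans ht2)
    · exact Or.inr ((k1 h hh).mono_right hBV)
  · intro h hd hne
    have hne1 : ¬ h.1 ⊆ B n := by
      intro hsub
      obtain ⟨z, hz, -⟩ := hne
      exact Set.disjoint_left.1 hd hz (hsub hz)
    have hne2 : ¬ Disjoint h.1 V := by
      intro hdd
      obtain ⟨z, hz, hz'⟩ := hne
      exact Set.disjoint_left.1 hdd hz (hU₀V hz')
    constructor
    · intro hh
      rcases Finset.mem_union.1 hh with hh | hh
      · rw [hci] at hh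
        rcases Finset.mem_insert.1 hh with rfl | hh
        · exact (hne1 Subset.rfl).elim
        · rw [hci']
          exact Finset.mem_union_left _ (Finset.mem_insert_of_mem (Finset.mem_union_left _ hh))
      · exact (hne2 (g1 h hh)).elim
    · intro hh
      rcases Finset.mem_union.1 hh with hh | hh
      · rw [hci'] at hh
        rcases Finset.mem_insert.1 hh with rfl | hh
        · exact (hne1 (hBB.trans interior_subset)).elim
        · rcases Finset.mem_union.1 hh with hh | hh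
          · rw [hci]
            exact Finset.mem_union_left _ (Finset.mem_insert_of_mem hh)
          · exact (hne1 ((subset_un hh).trans (ht2.trans interior_subset))).elim
      · exact (hne2 (k1 h hh)).elim
  · intro h hh hne
    rcases Finset.mem_union.1 hh with hh' | hh'
    · obtain ⟨z, ⟨hz1, hz2⟩, hz3⟩ := g6 h hh'
      have hzU₀ : z ∈ U₀ := by
        by_contra hzn
        have hcov : h.1 ⊆ U₀ ∪ (closure U₀)ᶜ := by
          intro w hw
          by_cases h1 : w ∈ U₀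
          · exact Or.inl h1
          · refine Or.inr fun h2 => Set.disjoint_left.1 g5 (subset_un hh' hw) (Or.inl ?_)
            rw [hU₀.frontier_eq]
            exact ⟨h2, h1⟩
        obtain ⟨w, -, hw1, hw2⟩ := (g2.conn h hh).isPreconnected U₀ (closure U₀)ᶜ hU₀
          isClosed_closure.isOpen_compl hcov hne
          ⟨z, hz1, (hcov hz1).resolve_left hzn⟩
        exact hw2 (subset_closure hw1)
      have : z ∈ U' ∩ E := ⟨hU₀U' hzU₀, hAE hz2⟩
      rw [← hU'E] at this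
      have h1 : θ z ∈ ball (θ x₀) δ := this.1
      rw [mem_ball, Real.dist_eq] at h1
      rw [hz3]
      exact h1.le
    · exfalso
      obtain ⟨z, hz, hz'⟩ := hne
      exact Set.disjoint_left.1 (g1 h hh') hz (hU₀V hz')
  · rw [Set.disjoint_left]
    intro z hz hzQ
    obtain ⟨h, hh, hzh⟩ := mem_un.1 hz
    rcases Finset.mem_union.1 hh with hh' | hh'
    · exact Set.disjoint_left.1 g5 (subset_un hh' hzh) (Or.inr hzQ)
    · exact Set.disjoint_left.1 (g1 h hh') hzh (hQ hzQ).1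
  · rw [Set.disjoint_left]
    intro z hz hzQ
    obtain ⟨h, hh, hzh⟩ := mem_un.1 hz
    rcases Finset.mem_union.1 hh with hh' | hh'
    · exact Set.disjoint_left.1 k5 (subset_un hh' hzh) (Or.inl hzQ)
    · exact Set.disjoint_left.1 (k1 h hh') hzh (hQ hzQ).1
  · rw [Set.disjoint_left]
    intro z hz hzL
    obtain ⟨h, hh, hzh⟩ := mem_un.1 hz
    rcases Finset.mem_union.1 hh with hh' | hh'
    · exact Set.disjoint_left.1 k5 (subset_un hh' hzh) (Or.inr hzL)
    · exact Set.disjoint_left.1 (k1 h hh') hzh (hL hzL).1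

end RSM2
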