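import Pool.Agent.RSM2.Basic
import Pool.Agent.RSM.Fin

/-!
# RSM2 module V1: existence of the slit map of a configuration (complement assumed connected)

PROOF.  Enumerate the finite set `c`: `e : Fin m ≃ c`.  Apply `RSM.exists_finite` to
`K j = (e j).1.1`, `θ j = (e j).1.2` (`⋃ j, K j = un c`).  For the line condition:
`nearIn (un c)ᶜ K = 𝓝ˢ K ⊓ 𝓟 (un c)ᶜ` and `𝓝ˢ K = ⨆ y ∈ K, 𝓝 y` (`nhdsSet`, `sSup`), so a function
which tends to `q` along `𝓝[(un c)ᶜ] y` for all `y ∈ K` tends to `q` along `nearIn (un c)ᶜ K`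
(for an open neighbourhood `O` of `q` every `y ∈ K` has an open neighbourhood `U_y` with
`f (U_y \ un c) ⊆ O`; take `U = ⋃ U_y`, `mem_nearIn`).
-/

open Complex Set Metric Filter Topology MeasureTheory

namespace RSM2

theorem tendsto_nearIn {D K : Set ℂ} {g : ℂ → ℝ} {q : ℝ}
    (h : ∀ y ∈ K, Tendsto g (𝓝[D] y) (𝓝 q)) : Tendsto g (nearIn D K) (𝓝 q) := by
  intro O hO
  rw [mem_map, mem_nearIn]
  have h1 : ∀ y ∈ K, ∃ U, IsOpen U ∧ y ∈ U ∧ U ∩ D ⊆ g ⁻¹' O := by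
    intro y hy
    have h2 : g ⁻¹' O ∈ 𝓝[D] y := h y hy hO
    obtain ⟨U, hU, hyU, hUD⟩ := mem_nhdsWithin.1 h2
    exact ⟨U, hU, hyU, hUD⟩
  choose! U hU hyU hUD using h1
  refine ⟨⋃ y ∈ K, U y, isOpen_biUnion fun y hy => hU y hy, ?_, ?_⟩
  · intro y hy
    exact mem_biUnion hy (hyU y hy)
  · rintro z ⟨hz, hzD⟩
    obtain ⟨y, hy, hzy⟩ := mem_iUnion₂.1 hz
    exact hUD y hy ⟨hzy, hzD⟩

theorem exists_sol_of_connected {c : Cfg} (hc : Valid c) (hcon : IsConnected (un c)ᶜ) :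
    ∃ G : ℂ → ℂ, Sol c G := by
  classical
  let e : Fin c.card ≃ c := c.equivFin.symm
  have hun : (⋃ j, (e j).1.1) = un c := by
    ext z
    rw [mem_iUnion, mem_un]
    constructor
    · rintro ⟨j, hj⟩
      exact ⟨(e j).1, (e j).2, hj⟩
    · rintro ⟨h, hh, hz⟩
      refine ⟨e.symm ⟨h, hh⟩, ?_⟩
      rw [Equiv.apply_symm_apply]
      exact hz
  have key := RSM.exists_finite (fun j => (e j).1.1) (fun j => hc.compact _ (e j).2)
    (fun j => (hc.conn _ (e j).2).isPreconnected)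
    (fun i j hij => hc.disj _ (e i).2 _ (e j).2 (fun h0 => hij (e.injective (Subtype.ext h0))))
    (by rw [hun]; exact hcon) (fun j => (e j).1.2)
  rw [hun] at key
  obtain ⟨f, hf1, hf2, hf3, hf4⟩ := key
  refine ⟨f, hf1, hf2, hf3, ?_⟩
  intro h hh
  obtain ⟨q, hq⟩ := hf4 (e.symm ⟨h, hh⟩)
  rw [Equiv.apply_symm_apply] at hq
  exact ⟨q, tendsto_nearIn hq⟩

end RSM2
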